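import Pool.Agent.H23.D2.Bln

/-!
# Windows with rows and windows with balls only, on one event

`WinB`: the balls of finitely many windows. `winJ_con`: in a class, `Wins` for the windows `k ≤ N`
and `WinB` for the windows `k ≤ N₂`, on one event; only the diagonal data are asked for `N < k`.
`winb_star`: one visible list of covectors, natural at all windows of a chain of `WinB`.
-/

set_option autoImplicit false

namespace Pool.D2R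

open Finset Real MvPolynomial
open Pool.Agent.H49.Ent Pool.Agent.H32.Dense Pool.STK Pool.KA Pool.KSAT Pool.K2S Pool.PB Pool.S6C
open Pool.GEN Pool.CHT Pool.CHX Pool.ISO
open Pool.LBT (LSys Slo Tri ThrOf fl_le' bas_false)
open Pool.LEV (Law)
open Pool.FLF (Fam.sub)
open Pool.JTN (TgP)

/-- **The balls of finitely many windows.** -/
structure WinB {m J : ℕ} (F : Fam m J) (c : ℕ → Fin m) (r D Dr N M : ℕ) (C₀ a Eb ηm : ℝ)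
    (o η σ : ℕ → ℝ) (lv b : ℕ → ℕ → ℝ) (κ : ℝ) (z : ℕ → ℕ → ℕ) (B : F.Ω → Prop)
    (g₀ : ℕ → ℕ → ℕ) (G : ℕ → PtT F → ℕ → MvPolynomial (Option (Fin m)) ℝ)
    (H : ℕ → LnT F → ℕ → MvPolynomial (Option (Fin m)) ℝ) : Prop where
  C1 : 1 ≤ C₀
  Eb0 : 0 ≤ Eb
  hη : ∀ k ≤ N, 0 ≤ η k ∧ η k ≤ ηm
  hσ : ∀ k ≤ N, 0 ≤ σ k ∧ σ k ≤ ηm
  ho : ∀ k ≤ N, 0 ≤ o k ∧ o k ≤ a
  hb : ∀ k ≤ N, ∀ l ≤ r, lv k l - σ k < b k l ∧ b k l < lv k l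
  sds : ∀ k ≤ N, ∀ l ≤ r, (lv k l - σ k) * J ≤ g₀ k l ∧ (g₀ k l : ℝ) ≤ lv k l * J
  ev : ∀ k ≤ N, EvB F c r D Dr ⌊o k * J⌋₊ M (z k) ⌊(Eb + σ k + η k) * J⌋₊ ⌊η k * J⌋₊
    (fun l => ⌊b k l * J⌋₊) (g₀ k) κ B (G k) (H k)
  bal : ∀ k ≤ N, ∀ k' ≤ N, ∀ q ≤ M, ⌊o k * J⌋₊ ≤ ⌊o k' * J⌋₊ →
    z k q = ⌊o k' * J⌋₊ - ⌊o k * J⌋₊ → ∀ ω, B ω → ∀ l ≤ r,
      ∀ b', NBx c (G k' (ptr F J ω)) (g₀ k') ⌊o k' * J⌋₊ (F.t ω) l b' →
        |eval b' (Gno (c l) J J (fun y => G k y l) (ptr F J ω)) -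
          eval b' (G k' (ptr F J ω) l)| ≤ 2 ^ ⌊C₀ * (ηm * J)⌋₊ /
            2 ^ min (⌊b k l * J⌋₊ + (⌊o k' * J⌋₊ - ⌊o k * J⌋₊)) (g₀ k' l)

section

variable {m J : ℕ} {F : Fam m J} {c : ℕ → Fin m} {r D Dr N M : ℕ} {R : ℕ → Prop}
    {C₀ a Eb ηm : ℝ} {o ε p' η σ : ℕ → ℝ} {lv be b : ℕ → ℕ → ℝ} {κ : ℝ} {z : ℕ → ℕ → ℕ}
    {B : F.Ω → Prop} {gc gT g₀ : ℕ → ℕ → ℕ}
    {G : ℕ → PtT F → ℕ → MvPolynomial (Option (Fin m)) ℝ}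
    {H : ℕ → LnT F → ℕ → MvPolynomial (Option (Fin m)) ℝ}
    {T : ℕ → PtT F → ℕ → MvPolynomial (Option (Fin m)) ℝ}
    {TH : ℕ → LnT F → ℕ → MvPolynomial (Option (Fin m)) ℝ}
    {Gt : ℕ → PtT F → MvPolynomial (Option (Fin m)) ℝ}
    {Ht : ℕ → LnT F → MvPolynomial (Option (Fin m)) ℝ}

/-- The balls of `Wins`. -/
theorem Wins.toB (W : Wins F c r D Dr N M R C₀ a Eb ηm o ε p' η σ lv be b κ z B gc gT g₀ G H T
    TH Gt Ht) : WinB F c r D Dr N M C₀ a Eb ηm o η σ lv b κ z B g₀ G H where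
  C1 := W.C1
  Eb0 := W.Eb0
  hη := W.hη
  hσ := W.hσ
  ho := W.ho
  hb := W.hb
  sds := fun k hk l hl => ⟨(W.sds k hk).b1 l hl, (W.sds k hk).b2 l hl⟩
  ev := fun k hk => EvS.toB (W.evs k hk)
  bal := W.bal.bal

/-- The sides of the balls. -/
theorem WinB.g_num (W : WinB F c r D Dr N M C₀ a Eb ηm o η σ lv b κ z B g₀ G H) {k l : ℕ}
    (hk : k ≤ N) (hl : l ≤ r) :
    (lv k l * J - ηm * J - 1 ≤ (⌊b k l * J⌋₊ : ℝ)) ∧ ((⌊b k l * J⌋₊ : ℝ) ≤ lv k l * J) ∧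
    (lv k l * J - ηm * J ≤ (g₀ k l : ℝ)) ∧ ((g₀ k l : ℝ) ≤ lv k l * J) := by
  have hJ : (0 : ℝ) ≤ J := Nat.cast_nonneg J
  obtain ⟨h1, h2⟩ := W.hb k hk l hl
  obtain ⟨h3, h4⟩ := W.sds k hk l hl
  obtain ⟨h5, h6⟩ := W.hσ k hk
  have h7 : σ k * J ≤ ηm * J := mul_le_mul_of_nonneg_right h6 hJ
  have h8 : (lv k l - σ k) * J ≤ b k l * J := mul_le_mul_of_nonneg_right h1.le hJ
  have h9 : b k l * J ≤ lv k l * J := mul_le_mul_of_nonneg_right h2.le hJ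
  have h10 : b k l * J < ⌊b k l * J⌋₊ + 1 := Nat.lt_floor_add_one _
  have h0 : (0 : ℝ) ≤ lv k l * J := (Nat.cast_nonneg (g₀ k l)).trans h4
  have h11 : (⌊b k l * J⌋₊ : ℝ) ≤ lv k l * J := by
    rcases le_or_gt 0 (b k l * J) with h | h
    · exact (Nat.floor_le h).trans h9
    · rw [Nat.floor_of_nonpos h.le, Nat.cast_zero]
      exact h0
  refine ⟨by linarith, h11, by linarith, h4⟩

/-- A larger degree. -/
theorem Wins.deg (W : Wins F c r D Dr N M R C₀ a Eb ηm o ε p' η σ lv be b κ z B gc gT g₀ G H T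
    TH Gt Ht) {D' : ℕ} (hD : D ≤ D') : Wins F c r D' Dr N M R C₀ a Eb ηm o ε p' η σ lv be b κ z
      B gc gT g₀ G H T TH Gt Ht where
  C1 := W.C1
  Eb0 := W.Eb0
  hη := W.hη
  hσ := W.hσ
  hε := W.hε
  ho := W.ho
  hp' := W.hp'
  hgr := W.hgr
  hb := W.hb
  sds := W.sds
  evs := fun k hk => EvS.deg (W.evs k hk) hD
  row := W.row
  bal := W.bal

/-- Smaller events. -/
theorem Wins.res (W : Wins F c r D Dr N M R C₀ a Eb ηm o ε p' η σ lv be b κ z B gc gT g₀ G H T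
    TH Gt Ht) {B' : F.Ω → Prop} {κ₁ κ₂ : ℝ} (hB : Sub B' B) (hP : κ₁ * Pe F.p B ≤ Pe F.p B')
    (h2 : 0 ≤ κ₂) (hκ : κ ≤ κ₂ * κ₁) : Wins F c r D Dr N M R C₀ a Eb ηm o ε p' η σ lv be b κ₂ z
      B' gc gT g₀ G H T TH Gt Ht where
  C1 := W.C1
  Eb0 := W.Eb0
  hη := W.hη
  hσ := W.hσ
  hε := W.hε
  ho := W.ho
  hp' := W.hp'
  hgr := W.hgr
  hb := W.hb
  sds := W.sds
  evs := fun k hk => (W.evs k hk).sub hB hP h2 hκ
  row := fun i hi j hj h q q1 q2 => (W.row i hi j hj h q q1 q2).sub hB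
  bal := ⟨fun k hk ω hω => W.bal.inc k hk ω (hB ω hω),
    fun k hk k' hk' q hq h1 h2 ω hω => W.bal.bal k hk k' hk' q hq h1 h2 ω (hB ω hω)⟩

end

/-- The balls of finitely many windows, on one event. -/
theorem balb_out (D r : ℕ) (hD : 1 ≤ D) : ∃ C : ℕ, 1 ≤ C ∧ ∀ n M : ℕ, ∃ K : ℝ, 1 ≤ K ∧
    ∀ {m J : ℕ} {F : Fam m J} {c : ℕ → Fin m} {Dr h : ℕ} {o e hh : ℕ → ℕ}
    {z : ℕ → ℕ → ℕ} {g g₀ : ℕ → ℕ → ℕ} {κ : ℕ → ℝ} {B : F.Ω → Prop}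
    {G : ℕ → PtT F → ℕ → MvPolynomial (Option (Fin m)) ℝ}
    {H : ℕ → LnT F → ℕ → MvPolynomial (Option (Fin m)) ℝ},
    Set.InjOn c (Set.Iio r) → D ≤ Dr → (∀ k ≤ n, o k ≤ J) →
    (∀ k ≤ n, hh k ≤ h) → (∀ k ≤ n, 0 ≤ κ k ∧ κ k * K ≤ 1) →
    (∀ k ≤ n, EvB F c r D Dr (o k) M (z k) (e k) (hh k) (g k) (g₀ k) (κ k) B (G k) (H k)) →
    ∃ B' : F.Ω → Prop, Sub B' B ∧ Pe F.p B ≤ K * Pe F.p B' ∧
      ∀ k ≤ n, ∀ k' ≤ n, ∀ q ≤ M, o k ≤ o k' → z k q = o k' - o k → ∀ ω, B' ω → ∀ l ≤ r,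
        ∀ b, NBx c (G k' (ptr F J ω)) (g₀ k') (o k') (F.t ω) l b →
          |eval b (Gno (c l) J J (fun y => G k y l) (ptr F J ω)) -
            eval b (G k' (ptr F J ω) l)| ≤
            2 ^ (C * (h + 1)) / 2 ^ min (g k l + (o k' - o k)) (g₀ k' l) := by
  classical
  obtain ⟨C₂, hbal⟩ := bal_out D r hD
  obtain ⟨Y, hY⟩ : ∃ Y : ℝ, Y = 4 * 4 ^ r := ⟨_, rfl⟩
  have h41 : (1 : ℝ) ≤ 4 ^ r := one_le_pow₀ (by norm_num)
  have hY1 : 1 ≤ Y := by rw [hY]; linarith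
  have hY0 : 0 < Y := by linarith
  refine ⟨C₂ + 1, by omega, fun n M => ?_⟩
  obtain ⟨L, hL⟩ : ∃ L : List (ℕ × ℕ × ℕ), L = (List.range (n + 1)).product
        ((List.range (n + 1)).product (List.range (M + 1))) := ⟨_, rfl⟩
  obtain ⟨K, hK⟩ : ∃ K : ℝ, K = Y ^ (L.length + 1) := ⟨_, rfl⟩
  refine ⟨K, by rw [hK]; exact one_le_pow₀ hY1, ?_⟩
  intro m J F c Dr h o e hh z g g₀ κ B G H hc hDr hoJ hh' hκ hE
  have hp := Pe_nonneg F.isLaw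
  obtain ⟨U, hU⟩ : ∃ U : ℝ, U = 2 ^ ((C₂ + 1) * (h + 1)) := ⟨_, rfl⟩
  have hUU : ∀ {h' : ℕ}, h' ≤ h → (2 : ℝ) ^ (C₂ * (h' + 1)) ≤ U :=
    fun h2 => by
      rw [hU]
      exact pow_le_pow_right₀ (by norm_num) (Nat.mul_le_mul (Nat.le_succ _) (by omega))
  obtain ⟨P, hP⟩ : ∃ P : (ℕ × ℕ × ℕ) → (F.Ω → Prop) → Prop, P = fun x B =>
      x.1 ≤ n → x.2.1 ≤ n → x.2.2 ≤ M → o x.1 ≤ o x.2.1 → z x.1 x.2.2 = o x.2.1 - o x.1 →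
          ∀ ω, B ω → ∀ l ≤ r, ∀ b,
          NBx c (G x.2.1 (ptr F J ω)) (g₀ x.2.1) (o x.2.1) (F.t ω) l b →
          |eval b (Gno (c l) J J (fun y => G x.1 y l) (ptr F J ω)) -
            eval b (G x.2.1 (ptr F J ω) l)| ≤
            U / 2 ^ min (g x.1 l + (o x.2.1 - o x.1)) (g₀ x.2.1 l) :=
    ⟨_, rfl⟩
  have hmono : ∀ x B B', P x B → Sub B' B → P x B' := by
    intro x B B' hx hB
    rw [hP] at hx ⊢
    exact fun h1 h2 h3 h4 h5 ω hω => hx h1 h2 h3 h4 h5 ω (hB ω hω)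
  obtain ⟨B', hB1, hB2, hB3⟩ := ev_list P hY1 hmono L B (by
    rintro ⟨k, k', q⟩ _ B' hB' hPB
    have hsh : ∀ k ≤ n, κ k * Y ≤ 1 / Y ^ L.length := by
      intro k hk
      rw [le_div_iff₀ (pow_pos hY0 _), mul_assoc, ← pow_succ']
      have h1 := (hκ k hk).2
      rw [hK] at h1
      exact h1
    have hsh2 : 1 / Y ^ L.length * Pe F.p B ≤ Pe F.p B' := by
      rw [one_div, inv_mul_le_iff₀ (pow_pos hY0 _)]
      exact hPB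
    rw [hP]
    by_cases hk : k ≤ n ∧ k' ≤ n ∧ q ≤ M ∧ o k ≤ o k' ∧ z k q = o k' - o k
    swap
    · exact ⟨B', fun _ h => h, le_mul_of_one_le_left (hp B') hY1, fun h1 h2 h3 h4 h5 =>
        absurd ⟨h1, h2, h3, h4, h5⟩ hk⟩
    obtain ⟨hk, hk', hq, hoo, hz⟩ := hk
    have hrad := (hE k hk).rad q hq
    rw [hz, show o k + (o k' - o k) = o k' by omega] at hrad
    have hE' := hE k' hk'
    obtain ⟨B'', h1, h2, h3⟩ := hbal (κ' := 1 / Y ^ L.length) hc hoo (hoJ k' hk')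
      (hE'.relb.mono hDr le_rfl) hB' hsh2 (hκ k' hk').1 (by
        refine le_trans (le_of_eq ?_) (hsh k' hk')
        rw [hY]) (hrad.sub hB') (hE'.ball.sub hB')
    refine ⟨B'', h1, h2.trans (mul_le_mul_of_nonneg_right ?_ (hp B'')), fun _ _ _ _ _ ω hω
      l hl b hb => (h3 ω hω l hl b hb).trans ?_⟩
    · rw [hY]
      linarith
    · exact div_le_div_of_nonneg_right (hUU (hh' k' hk')) (by positivity))
  refine ⟨B', hB1, hB2.trans (mul_le_mul_of_nonneg_right ?_ (hp B')), ?_⟩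
  · rw [hK]
    exact pow_le_pow_right₀ hY1 (Nat.le_succ _)
  · rw [← hU]
    intro k hk k' hk' q hq
    have h1 := hB3 (k, k', q) (by
      rw [hL, List.pair_mem_product, List.pair_mem_product, List.mem_range, List.mem_range,
        List.mem_range]
      omega)
    rw [hP] at h1
    exact h1 hk hk' hq

/-- **Finitely many ball windows on one event**, the indices in a list. -/
theorem ball_list (m r S₀ : ℕ) (hr : 1 ≤ r) (hS₀ : 1 ≤ S₀) : ∃ D : ℕ, 1 ≤ D ∧ ∀ Dr : ℕ,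
    ∀ {S : PCl m} {P : List (Fin m) × Fin m → ℝ → ℝ → ℝ} {θ : ℝ} {c : ℕ → Fin m}
    {Pt : ℝ → ℝ → ℝ} {a Eb : ℝ} {o η σ r₀ : ℕ → ℝ} (M : ℕ),
    ThrOf (chsys m θ) S P → 0 < θ → TmH S → Set.InjOn c (Set.Iio (r + 1)) → Law Pt →
    ∀ L : List ℕ, (∀ k ∈ L, BalD S P θ c r Pt a (o k) S₀ Eb) →
    (∀ k ∈ L, 0 < η k ∧ 0 < σ k ∧ 0 < r₀ k) →
    ∃ (K₁ : ℝ) (μ : ℕ → ℝ) (b : ℕ → ℕ → ℝ), 0 < K₁ ∧ (∀ k ∈ L, 0 < μ k ∧ ∀ l ≤ r,
        lvN P c r Pt l (o k) (o k) - σ k < b k l ∧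
        b k l < lvN P c r Pt l (o k) (o k) - μ k) ∧
      ∀ κ : ℝ, 0 < κ → Bas S (fun J F A => ∀ z : ℕ → ℕ → ℕ,
        (∀ k ∈ L, ∀ i ≤ M, r₀ k * J ≤ z k i ∧ z k i ≤ ⌊a * J⌋₊ - ⌊o k * J⌋₊) →
        ∃ (B : F.Ω → Prop) (g₀ : ℕ → ℕ → ℕ)
          (G : ℕ → PtT F → ℕ → MvPolynomial (Option (Fin m)) ℝ)
          (H : ℕ → LnT F → ℕ → MvPolynomial (Option (Fin m)) ℝ), Sub B A ∧
          Pe F.p A ≤ K₁ * Pe F.p B ∧ ∀ k ∈ L,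
          (∀ l ≤ r, (lvN P c r Pt l (o k) (o k) - σ k) * J ≤ g₀ k l ∧
            (g₀ k l : ℝ) ≤ lvN P c r Pt l (o k) (o k) * J) ∧
          EvB F c r D Dr ⌊o k * J⌋₊ M (z k) ⌊(Eb + σ k + η k) * J⌋₊ ⌊η k * J⌋₊
            (fun l => ⌊b k l * J⌋₊) (g₀ k) κ B (G k) (H k)) := by
  classical
  obtain ⟨D, hD, hwin⟩ := ball_win m r S₀ hr hS₀
  refine ⟨D, hD, fun Dr => ?_⟩
  intro S P θ c Pt a Eb o η σ r₀ M hP hθ hS hinj hPt L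
  induction L with
  | nil =>
    intro _ _
    refine ⟨1, fun _ => 1, fun _ _ => 0, one_pos, fun k hk => absurd hk (by simp), fun κ hκ => ?_⟩
    obtain ⟨s, hs⟩ : ∃ s : ℕ, s = 0 := ⟨0, rfl⟩
    have hb : Bas S (fun J F A => True) := ⟨1, one_pos, 0, fun _ _ _ _ _ => trivial⟩
    refine hb.mono 0 ?_
    rintro J - F A - z -
    exact ⟨A, fun _ _ => 0, fun _ _ _ => 0, fun _ _ _ => 0, fun _ h => h, by rw [one_mul],
      fun k hk => absurd hk (by simp)⟩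
  | cons x L ih =>
    intro hW hσ
    obtain ⟨K, μ, b, hK, hμ, hbas⟩ := ih (fun k hk => hW k (by simp [hk]))
      (fun k hk => hσ k (by simp [hk]))
    have hWx := hW x (by simp)
    obtain ⟨ρ, vs, e, e₀, E, sg, Q, d1, d2⟩ := hWx.dw
    obtain ⟨K', μ', b', hK', hμ', hb', hbas'⟩ := hwin Dr hP hθ hS hinj hPt hWx.lt d1 d2
      (fun l hl => by
        have := hWx.top l hl
        linarith) (η x) (σ x) (r₀ x) M (hσ x (by simp)).1 (hσ x (by simp)).2.1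
      (hσ x (by simp)).2.2
    obtain ⟨μ₂, hμ₂⟩ : ∃ μ₂ : ℕ → ℝ, μ₂ = fun k => if k = x then μ' else μ k := ⟨_, rfl⟩
    obtain ⟨b₂, hb₂⟩ : ∃ b₂ : ℕ → ℕ → ℝ, b₂ = fun k => if k = x then b' else b k := ⟨_, rfl⟩
    have hμx : μ₂ x = μ' := by rw [hμ₂]; exact if_pos rfl
    have hμn : ∀ k, k ≠ x → μ₂ k = μ k := fun k hk => by rw [hμ₂]; exact if_neg hk
    have hbx : b₂ x = b' := by rw [hb₂]; exact if_pos rfl
    have hbn : ∀ k, k ≠ x → b₂ k = b k := fun k hk => by rw [hb₂]; exact if_neg hk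
    refine ⟨K * K', μ₂, b₂, mul_pos hK hK', fun k hk => ?_, fun κ hκ => ?_⟩
    · by_cases h : k = x
      · subst h
        rw [hμx, hbx]
        exact ⟨hμ', hb'⟩
      · rw [hμn k h, hbn k h]
        refine hμ k ?_
        rcases List.mem_cons.1 hk with h1 | h1
        · exact absurd h1 h
        · exact h1
    · have hκK : 0 < κ / K' := div_pos hκ hK'
      refine Bas.mono 0 ((hbas (κ / K') hκK).and (bas_ev (hbas' κ hκ) (κ := 1 / K)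
        (by positivity))) ?_
      rintro J - F A ⟨h1, h2⟩ z hz
      obtain ⟨B, g₀, G, H, k1, k2, k3⟩ := h1 z fun k hk => hz k (by simp [hk])
      obtain ⟨B', g₀', G', H', l1, l2, l3, l4⟩ := h2 B k1 (by
        rw [one_div, inv_mul_le_iff₀ hK]
        exact k2) (z x) (hz x (by simp))
      refine ⟨B', fun k => if k = x then g₀' else g₀ k, fun k => if k = x then G' else G k,
        fun k => if k = x then H' else H k, fun ω hω => k1 ω (l1 ω hω), ?_, fun k hk => ?_⟩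
      · calc Pe F.p A ≤ K * Pe F.p B := k2
          _ ≤ K * (K' * Pe F.p B') := mul_le_mul_of_nonneg_left l2 hK.le
          _ = _ := by ring
      · by_cases h : k = x
        · subst h
          simp only [if_true]
          rw [hbx]
          exact ⟨l3, l4⟩
        · simp only [if_neg h]
          rw [hbn k h]
          have hkL : k ∈ L := by
            rcases List.mem_cons.1 hk with h1 | h1
            · exact absurd h1 h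
            · exact h1
          obtain ⟨m1, m2⟩ := k3 k hkL
          refine ⟨m1, m2.sub (κ₁ := 1 / K') l1 ?_ hκ.le ?_⟩
          · rw [one_div, inv_mul_le_iff₀ hK']
            exact l2
          · rw [mul_one_div]

/-- Arrays which agree at the windows. -/
theorem Wins.cong {m J : ℕ} {F : Fam m J} {c : ℕ → Fin m} {r D Dr N M : ℕ} {R : ℕ → Prop}
    {C₀ a Eb ηm : ℝ} {o ε p' η σ : ℕ → ℝ} {lv be b b' : ℕ → ℕ → ℝ} {κ : ℝ} {z : ℕ → ℕ → ℕ}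
    {B : F.Ω → Prop} {gc gT g₀ g₀' : ℕ → ℕ → ℕ}
    {G G' : ℕ → PtT F → ℕ → MvPolynomial (Option (Fin m)) ℝ}
    {H H' : ℕ → LnT F → ℕ → MvPolynomial (Option (Fin m)) ℝ}
    {T : ℕ → PtT F → ℕ → MvPolynomial (Option (Fin m)) ℝ}
    {TH : ℕ → LnT F → ℕ → MvPolynomial (Option (Fin m)) ℝ}
    {Gt : ℕ → PtT F → MvPolynomial (Option (Fin m)) ℝ}
    {Ht : ℕ → LnT F → MvPolynomial (Option (Fin m)) ℝ}
    (W : Wins F c r D Dr N M R C₀ a Eb ηm o ε p' η σ lv be b κ z B gc gT g₀ G H T TH Gt Ht)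
    (h1 : ∀ k ≤ N, b' k = b k) (h2 : ∀ k ≤ N, g₀' k = g₀ k) (h3 : ∀ k ≤ N, G' k = G k)
    (h4 : ∀ k ≤ N, H' k = H k) :
    Wins F c r D Dr N M R C₀ a Eb ηm o ε p' η σ lv be b' κ z B gc gT g₀' G' H' T TH Gt Ht where
  C1 := W.C1
  Eb0 := W.Eb0
  hη := W.hη
  hσ := W.hσ
  hε := W.hε
  ho := W.ho
  hp' := W.hp'
  hgr := W.hgr
  hb := fun k hk => by
    rw [h1 k hk]
    exact W.hb k hk
  sds := fun k hk => by
    rw [h2 k hk]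
    exact W.sds k hk
  evs := fun k hk => by
    rw [h1 k hk, h2 k hk, h3 k hk, h4 k hk]
    exact W.evs k hk
  row := fun i hi j hj => by
    rw [h2 j hj, h3 j hj, h4 j hj]
    exact W.row i hi j hj
  bal :=
    ⟨fun k hk => by
      rw [h3 k hk]
      exact W.bal.inc k hk,
    fun k hk k' hk' => by
      rw [h1 k hk, h2 k' hk', h3 k hk, h3 k' hk']
      exact W.bal.bal k hk k' hk'⟩

/-- **Windows with rows and windows with balls only, in a class.** -/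
theorem winJ_con (m r S₀ : ℕ) (hr : 1 ≤ r) (hS₀ : 1 ≤ S₀) : ∃ D : ℕ, 1 ≤ D ∧ ∀ Dr : ℕ, D ≤ Dr →
    ∃ C CB : ℝ, 1 ≤ C ∧ 1 ≤ CB ∧ ∀ {S : PCl m} {P : List (Fin m) × Fin m → ℝ → ℝ → ℝ} {θ : ℝ}
    {c : ℕ → Fin m} {Pt : ℝ → ℝ → ℝ} {R : ℕ → Prop} {a Eb ηm : ℝ} {o ε p' η σ r₀ : ℕ → ℝ}
    (N N₂ M : ℕ), N ≤ N₂ → ThrOf (chsys m θ) S P → 0 < θ → TmH S →
    Set.InjOn c (Set.Iio (r + 1)) → Law Pt → 0 ≤ Eb →
    (∀ k ≤ N, WinD S P θ c r Pt a (o k) S₀ Eb (ε k) R) →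
    (∀ k, N < k → k ≤ N₂ → BalD S P θ c r Pt a (o k) S₀ Eb) →
    (∀ k ≤ N, C * ε k < o k ∧ C * ε k < η k ∧ 2 * (C * η k) ≤ o k) →
    (∀ k ≤ N, C * η k ≤ p' k ∧ p' k + C * ε k < Pt a (o k)) →
    (∀ k ≤ N₂, 0 < η k ∧ 0 < σ k ∧ σ k ≤ ηm ∧ 0 < r₀ k ∧ η k < a ∧ η k ≤ ηm) →
    (∀ k ≤ N, ∀ l ≤ r, lvN P c r Pt l (o k) (o k) + (a - o k) + (Eb + σ k + η k) < 1) →
    (∀ k ≤ N, ∀ l < r, bet P c l a (o k) + (Eb + σ k + η k) < 1) →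
    ∃ (K₁ : ℝ) (μ : ℕ → ℝ) (b : ℕ → ℕ → ℝ), 0 < K₁ ∧ (∀ k ≤ N₂, 0 < μ k ∧ ∀ l ≤ r,
        lvN P c r Pt l (o k) (o k) - σ k < b k l ∧
        b k l < lvN P c r Pt l (o k) (o k) - μ k) ∧
      ∀ κ : ℝ, 0 < κ → Bas S (fun J F A => ∀ z : ℕ → ℕ → ℕ,
        (∀ k ≤ N₂, ∀ i ≤ M, r₀ k * J ≤ z k i ∧ z k i ≤ ⌊a * J⌋₊ - ⌊o k * J⌋₊) →
        ∃ (B : F.Ω → Prop) (gc gT g₀ : ℕ → ℕ → ℕ)
          (G : ℕ → PtT F → ℕ → MvPolynomial (Option (Fin m)) ℝ)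
          (H : ℕ → LnT F → ℕ → MvPolynomial (Option (Fin m)) ℝ)
          (T : ℕ → PtT F → ℕ → MvPolynomial (Option (Fin m)) ℝ)
          (TH : ℕ → LnT F → ℕ → MvPolynomial (Option (Fin m)) ℝ)
          (Gt : ℕ → PtT F → MvPolynomial (Option (Fin m)) ℝ)
          (Ht : ℕ → LnT F → MvPolynomial (Option (Fin m)) ℝ), Sub B A ∧
          Pe F.p A ≤ K₁ * Pe F.p B ∧
          Wins F c r D Dr N M R C a Eb ηm o ε p' η σ
            (fun k l => lvN P c r Pt l (o k) (o k)) (fun k l => bet P c l a (o k)) b κ z B gc gT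
            g₀ G H T TH Gt Ht ∧
          WinB F c r D Dr N₂ M CB a Eb ηm o η σ
            (fun k l => lvN P c r Pt l (o k) (o k)) b κ z B g₀ G H) := by
  classical
  obtain ⟨D₁, hD₁, hwin⟩ := win_con m r S₀ hr hS₀
  obtain ⟨D₂, hD₂, hball⟩ := ball_list m r S₀ hr hS₀
  obtain ⟨D, hD⟩ : ∃ D, D = max D₁ D₂ := ⟨_, rfl⟩
  have hDD1 : D₁ ≤ D := by rw [hD]; exact le_max_left _ _
  have hDD2 : D₂ ≤ D := by rw [hD]; exact le_max_right _ _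
  have hD0 : 1 ≤ D := hD₁.trans hDD1
  refine ⟨D, hD0, fun Dr hDr => ?_⟩
  obtain ⟨C, hC, hwin⟩ := hwin Dr (hDD1.trans hDr)
  obtain ⟨C₂, hC₂, hbal⟩ := balb_out D r hD0
  have hC₂R : (1 : ℝ) ≤ C₂ := by exact_mod_cast hC₂
  refine ⟨C, 2 * C₂, hC, by linarith, ?_⟩
  intro S P θ c Pt R a Eb ηm o ε p' η σ r₀ N N₂ M hNN hP hθ hS hinj hPt hEb hW hWb hε hp' hσ htop
    hbet
  obtain ⟨K₃, hK₃, hbal⟩ := hbal N₂ M
  have hK₃0 : 0 < K₃ := by linarith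
  obtain ⟨K₁, μ₁, b₁, hK₁, hμ₁, hbas₁⟩ := hwin N M hP hθ hS hinj hPt hEb hW hε hp'
    (fun k hk => ⟨(hσ k (by omega)).2.1, (hσ k (by omega)).2.2.1, (hσ k (by omega)).2.2.2.1,
      (hσ k (by omega)).2.2.2.2.1, (hσ k (by omega)).2.2.2.2.2⟩) htop hbet
  obtain ⟨L, hL⟩ : ∃ L : List ℕ, L = (List.range (N₂ + 1)).filter (fun k => N < k) := ⟨_, rfl⟩
  have hmem : ∀ k, k ∈ L ↔ N < k ∧ k ≤ N₂ := fun k => by
    rw [hL, List.mem_filter, List.mem_range, decide_eq_true_iff]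
    omega
  obtain ⟨K₂, μ₂, b₂, hK₂, hμ₂, hbas₂⟩ := hball Dr (η := η) (σ := σ) (r₀ := r₀) M hP hθ hS hinj
    hPt L (fun k hk => hWb k ((hmem k).1 hk).1 ((hmem k).1 hk).2)
    (fun k hk => ⟨(hσ k ((hmem k).1 hk).2).1, (hσ k ((hmem k).1 hk).2).2.1,
      (hσ k ((hmem k).1 hk).2).2.2.2.1⟩)
  obtain ⟨b, hb⟩ : ∃ b : ℕ → ℕ → ℝ, b = fun k => if k ≤ N then b₁ k else b₂ k := ⟨_, rfl⟩
  obtain ⟨μ, hμ⟩ : ∃ μ : ℕ → ℝ, μ = fun k => if k ≤ N then μ₁ k else μ₂ k := ⟨_, rfl⟩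
  have hb1 : ∀ k ≤ N, b k = b₁ k := fun k hk => by rw [hb]; exact if_pos hk
  have hb2 : ∀ k, N < k → b k = b₂ k := fun k hk => by rw [hb]; exact if_neg (by omega)
  have hm1 : ∀ k ≤ N, μ k = μ₁ k := fun k hk => by rw [hμ]; exact if_pos hk
  have hm2 : ∀ k, N < k → μ k = μ₂ k := fun k hk => by rw [hμ]; exact if_neg (by omega)
  have hbb : ∀ k ≤ N₂, 0 < μ k ∧ ∀ l ≤ r, lvN P c r Pt l (o k) (o k) - σ k < b k l ∧
      b k l < lvN P c r Pt l (o k) (o k) - μ k := by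
    intro k hk
    rcases Nat.lt_or_ge N k with h | h
    · rw [hb2 k h, hm2 k h]
      exact hμ₂ k ((hmem k).2 ⟨h, hk⟩)
    · rw [hb1 k h, hm1 k h]
      exact hμ₁ k h
  have hηm0 : 0 < ηm := (hσ 0 (Nat.zero_le _)).1.trans_le (hσ 0 (Nat.zero_le _)).2.2.2.2.2
  have ho : ∀ k ≤ N₂, 0 < o k ∧ o k < 1 ∧ o k < a := fun k hk => by
    rcases Nat.lt_or_ge N k with h | h
    · obtain ⟨ρ, vs, e, e₀, E, sg, Q, d1, -⟩ := (hWb k h hk).dw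
      exact ⟨d1.w0, d1.a1, (hWb k h hk).lt⟩
    · obtain ⟨ρ, vs, e, e₀, E, sg, Q, d1, -⟩ := (hW k h).dw
      exact ⟨d1.w0, d1.a1, (hW k h).lt⟩
  refine ⟨K₁ * (K₂ * K₃), μ, b, mul_pos hK₁ (mul_pos hK₂ hK₃0), hbb, fun κ hκ => ?_⟩
  obtain ⟨κ₃, hκ₃⟩ : ∃ κ₃ : ℝ, κ₃ = min κ 1 / K₃ := ⟨_, rfl⟩
  have hκ₃0 : 0 < κ₃ := by rw [hκ₃]; exact div_pos (lt_min hκ one_pos) hK₃0
  have hκ₃1 : κ₃ * K₃ ≤ 1 := by
    rw [hκ₃, div_mul_cancel₀ _ hK₃0.ne']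
    exact min_le_right _ _
  have hκ₃2 : κ₃ * K₃ ≤ κ := by
    rw [hκ₃, div_mul_cancel₀ _ hK₃0.ne']
    exact min_le_left _ _
  have hκ₁0 : 0 < κ₃ / K₂ := div_pos hκ₃0 hK₂
  obtain ⟨J₁, hJ₁⟩ := exists_nat_gt (1 / ηm)
  refine Bas.mono J₁ ((hbas₁ (κ₃ / K₂) hκ₁0).and (bas_ev (hbas₂ κ₃ hκ₃0) (κ := 1 / K₁)
    (by positivity))) ?_
  rintro J hJ F A ⟨h1, h2⟩ z hz
  have hJ0 : (0 : ℝ) ≤ J := Nat.cast_nonneg J
  have hηJ : 1 ≤ ηm * J := by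
    have h2 : 1 / ηm < J := hJ₁.trans_le (by exact_mod_cast hJ)
    rw [div_lt_iff₀ hηm0] at h2
    linarith
  have hp := Pe_nonneg F.isLaw
  obtain ⟨B₁, gc, gT, g₁, G₁, H₁, T, TH, Gt, Ht, k1, k2, k3⟩ := h1 z fun k hk => hz k (by omega)
  obtain ⟨B₂, g₂, G₂, H₂, l1, l2, l3⟩ := h2 B₁ k1 (by
    rw [one_div, inv_mul_le_iff₀ hK₁]
    exact k2) z fun k hk => hz k ((hmem k).1 hk).2
  obtain ⟨g₀, hg₀⟩ : ∃ g₀ : ℕ → ℕ → ℕ, g₀ = fun k => if k ≤ N then g₁ k else g₂ k := ⟨_, rfl⟩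
  obtain ⟨G, hG⟩ : ∃ G : ℕ → PtT F → ℕ → MvPolynomial (Option (Fin m)) ℝ,
    G = fun k => if k ≤ N then G₁ k else G₂ k := ⟨_, rfl⟩
  obtain ⟨H, hH⟩ : ∃ H : ℕ → LnT F → ℕ → MvPolynomial (Option (Fin m)) ℝ,
    H = fun k => if k ≤ N then H₁ k else H₂ k := ⟨_, rfl⟩
  have hg1 : ∀ k ≤ N, g₀ k = g₁ k := fun k hk => by rw [hg₀]; exact if_pos hk
  have hg2 : ∀ k, N < k → g₀ k = g₂ k := fun k hk => by rw [hg₀]; exact if_neg (by omega)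
  have hG1 : ∀ k ≤ N, G k = G₁ k := fun k hk => by rw [hG]; exact if_pos hk
  have hG2 : ∀ k, N < k → G k = G₂ k := fun k hk => by rw [hG]; exact if_neg (by omega)
  have hH1 : ∀ k ≤ N, H k = H₁ k := fun k hk => by rw [hH]; exact if_pos hk
  have hH2 : ∀ k, N < k → H k = H₂ k := fun k hk => by rw [hH]; exact if_neg (by omega)
  have hWin : Wins F c r D Dr N M R C a Eb ηm o ε p' η σ
      (fun k l => lvN P c r Pt l (o k) (o k)) (fun k l => bet P c l a (o k)) b κ₃ z B₂ gc gT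
      g₀ G H T TH Gt Ht := by
    refine (((k3.deg hDD1).res (κ₁ := 1 / K₂) l1 ?_ hκ₃0.le ?_).cong hb1 hg1 hG1 hH1)
    · rw [one_div, inv_mul_le_iff₀ hK₂]
      exact l2
    · rw [mul_one_div]
  have hev : ∀ k ≤ N₂, EvB F c r D Dr ⌊o k * J⌋₊ M (z k) ⌊(Eb + σ k + η k) * J⌋₊ ⌊η k * J⌋₊
      (fun l => ⌊b k l * J⌋₊) (g₀ k) κ₃ B₂ (G k) (H k) := by
    intro k hk
    rcases Nat.lt_or_ge N k with h | h
    · rw [hb2 k h, hg2 k h, hG2 k h, hH2 k h]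
      exact (l3 k ((hmem k).2 ⟨h, hk⟩)).2.deg hDD2
    · exact hWin.toB.ev k h
  obtain ⟨B₃, n1, n2, n3⟩ := hbal (c := c) (Dr := Dr) (h := ⌊ηm * J⌋₊)
    (o := fun k => ⌊o k * J⌋₊) (e := fun k => ⌊(Eb + σ k + η k) * J⌋₊)
    (hh := fun k => ⌊η k * J⌋₊) (z := z) (g := fun k l => ⌊b k l * J⌋₊) (g₀ := g₀)
    (κ := fun _ => κ₃) (B := B₂) (G := G) (H := H)
    (hinj.mono fun y hy => by rw [Set.mem_Iio] at hy ⊢; omega) hDr (fun k hk => by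
      have h5 : (⌊o k * J⌋₊ : ℝ) ≤ o k * J := Nat.floor_le (mul_nonneg (ho k hk).1.le hJ0)
      have h6 : o k * (J : ℝ) ≤ 1 * J := mul_le_mul_of_nonneg_right (ho k hk).2.1.le hJ0
      have h7 : (⌊o k * J⌋₊ : ℝ) ≤ J := by linarith
      exact_mod_cast h7)
    (fun k hk => Nat.floor_le_floor (mul_le_mul_of_nonneg_right (hσ k hk).2.2.2.2.2 hJ0))
    (fun k _ => ⟨hκ₃0.le, hκ₃1⟩) hev
  have n2' : 1 / K₃ * Pe F.p B₂ ≤ Pe F.p B₃ := by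
    rw [one_div, inv_mul_le_iff₀ hK₃0]
    exact n2
  have hκe : κ₃ ≤ κ * (1 / K₃) := by
    rw [mul_one_div, le_div_iff₀ hK₃0]
    exact hκ₃2
  refine ⟨B₃, gc, gT, g₀, G, H, T, TH, Gt, Ht, fun ω hω => k1 ω (l1 ω (n1 ω hω)), ?_,
    hWin.res n1 n2' hκ.le hκe, ⟨by linarith, hEb, fun k hk => ⟨(hσ k hk).1.le,
      (hσ k hk).2.2.2.2.2⟩, fun k hk => ⟨(hσ k hk).2.1.le, (hσ k hk).2.2.1⟩,
      fun k hk => ⟨(ho k hk).1.le, (ho k hk).2.2.le⟩, fun k hk l hl => ⟨((hbb k hk).2 l hl).1, by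
        have := (hbb k hk).1
        have := ((hbb k hk).2 l hl).2
        linarith⟩, fun k hk l hl => ?_, fun k hk => (hev k hk).sub n1 n2' hκ.le hκe,
      fun k hk k' hk' q hq hoo hz' ω hω l hl b' hb' => ?_⟩⟩
  · calc Pe F.p A ≤ K₁ * Pe F.p B₁ := k2
      _ ≤ K₁ * (K₂ * Pe F.p B₂) := mul_le_mul_of_nonneg_left l2 hK₁.le
      _ ≤ K₁ * (K₂ * (K₃ * Pe F.p B₃)) :=
          mul_le_mul_of_nonneg_left (mul_le_mul_of_nonneg_left n2 hK₂.le) hK₁.le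
      _ = _ := by ring
  · rcases Nat.lt_or_ge N k with h | h
    · rw [hg2 k h]
      exact (l3 k ((hmem k).2 ⟨h, hk⟩)).1 l hl
    · exact hWin.toB.sds k h l hl
  · refine (n3 k hk k' hk' q hq hoo hz' ω hω l hl b' hb').trans
      (div_le_div_of_nonneg_right ?_ (by positivity))
    refine pow_le_pow_right₀ (by norm_num) (Nat.le_floor ?_)
    push_cast
    have h5 : (⌊ηm * J⌋₊ : ℝ) ≤ ηm * J := Nat.floor_le (mul_nonneg hηm0.le hJ0)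
    have h6 : (C₂ : ℝ) * (⌊ηm * J⌋₊ + 1) ≤ C₂ * (2 * (ηm * J)) :=
      mul_le_mul_of_nonneg_left (by linarith) (by linarith)
    linarith

end Pool.D2R
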