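import Pool.Agent.H23.D2.Rcd

/-!
# The event of a static cell from the record

`RecQ.cev`: from the record `RecQ` of a cell to the event `CEv` at finitely many windows with one
radius. All numbers are in units of `q`.
-/

set_option autoImplicit false

namespace Pool.D2R

open Finset Real MvPolynomial
open Pool.Agent.H49.Ent Pool.Agent.H32.Dense Pool.STK Pool.KA Pool.KSAT Pool.K2S Pool.PB Pool.S6C
open Pool.GEN Pool.CHT Pool.CHX Pool.D2F
open Pool.LBT (ThrOf)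
open Pool.LEV (Law)
open Pool.F5
open Pool.TN (CEv)
open Pool.FLF (Fam.sub)
open Pool.PKG (RecQ PtI KdQ Kd)
open Pool.ISO (lvN dig)

/-- Other names of the windows. -/
theorem Wins.ocg {m J : ℕ} {F : Fam m J} {c : ℕ → Fin m} {r D Dr N M : ℕ} {R : ℕ → Prop}
    {C₀ a Eb ηm : ℝ} {o o' ε p' p'' η σ : ℕ → ℝ} {lv lv' be be' b : ℕ → ℕ → ℝ} {κ : ℝ}
    {z : ℕ → ℕ → ℕ} {B : F.Ω → Prop} {gc gT g₀ : ℕ → ℕ → ℕ}
    {G : ℕ → PtT F → ℕ → MvPolynomial (Option (Fin m)) ℝ}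
    {H : ℕ → LnT F → ℕ → MvPolynomial (Option (Fin m)) ℝ}
    {T : ℕ → PtT F → ℕ → MvPolynomial (Option (Fin m)) ℝ}
    {TH : ℕ → LnT F → ℕ → MvPolynomial (Option (Fin m)) ℝ}
    {Gt : ℕ → PtT F → MvPolynomial (Option (Fin m)) ℝ}
    {Ht : ℕ → LnT F → MvPolynomial (Option (Fin m)) ℝ}
    (W : Wins F c r D Dr N M R C₀ a Eb ηm o ε p' η σ lv be b κ z B gc gT g₀ G H T TH Gt Ht)
    (h1 : ∀ k ≤ N, o' k = o k) (h2 : ∀ k ≤ N, p'' k = p' k) (h3 : ∀ k ≤ N, lv' k = lv k)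
    (h4 : ∀ k ≤ N, be' k = be k) :
    Wins F c r D Dr N M R C₀ a Eb ηm o' ε p'' η σ lv' be' b κ z B gc gT g₀ G H T TH Gt Ht where
  C1 := W.C1
  Eb0 := W.Eb0
  hη := W.hη
  hσ := W.hσ
  hε := W.hε
  ho := fun k hk => by
    rw [h1 k hk]
    exact W.ho k hk
  hp' := fun k hk => by
    rw [h2 k hk]
    exact W.hp' k hk
  hgr := W.hgr
  hb := fun k hk => by
    rw [h3 k hk]
    exact W.hb k hk
  sds := fun k hk => by
    rw [h1 k hk, h3 k hk, h4 k hk]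
    exact W.sds k hk
  evs := fun k hk => by
    rw [h1 k hk, h2 k hk]
    exact W.evs k hk
  row := fun i hi j hj => by
    rw [h1 i hi, h1 j hj, h2 i hi]
    exact W.row i hi j hj
  bal :=
    ⟨W.bal.inc, fun k hk k' hk' => by
      rw [h1 k hk, h1 k' hk']
      exact W.bal.bal k hk k' hk'⟩

/-- **The event of a static cell from the record.** Each main window `v k` has the chain windows
`v k + j s`, `1 ≤ j ≤ n₀`; the loss is `y` in units of `q`. -/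
theorem RecQ.cev (m i S₂ : ℕ) (hi : 1 ≤ i) (hi3 : i ≤ 3) (hS₂ : 1 ≤ S₂) : ∃ D : ℕ, 1 ≤ D ∧
    ∀ Dr : ℕ, D ≤ Dr → ∀ (Sl : ℕ → ℝ) (y gp : ℝ), 0 < y → y ≤ 1 / 8 → 0 < gp →
    (∀ l, 1 ≤ l → l ≤ 2 → l < i → 1 < Sl l) → (i = 3 → Sl 0 < Sl 1 ∧ Sl 0 < Sl 2) →
    ∃ (n₀ : ℕ) (s ε₀ : ℝ), 1 ≤ n₀ ∧ 0 < s ∧ (n₀ + 1) * s ≤ gp ∧ 0 < ε₀ ∧
    ∀ {S : PCl m} {P P₂ : List (Fin m) × Fin m → ℝ → ℝ → ℝ} {θ θ₂ : ℝ} {c : ℕ → Fin m}
    {Pt : ℝ → ℝ → ℝ} {L T : ℕ → ℝ → ℝ → ℝ} {kd : ℕ → Kd} {S₀ N : ℕ} {A V : ℕ → ℝ} {N' : ℕ}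
    {V' : ℕ → ℝ} {Eb e₂ K ε q t : ℝ},
    RecQ S P P₂ θ θ₂ c i Pt L T Sl kd S₀ N A V S₂ N' V' Eb e₂ K ε q t → S₀ ≤ S₂ → 0 ≤ ε →
    ε ≤ ε₀ → 1 ≤ K → ∀ (A' r' : ℝ) (N₁ M : ℕ) (v : ℕ → ℝ) (Sc : ℕ → Prop), A' ≤ K → 0 < r' →
    (∀ k ≤ N₁, -K + 1 ≤ v k ∧ v k + gp ≤ A') → (∀ k ≤ N₁, ∃ j < N, A j = A' ∧ V j = v k) →
    (∀ k ≤ N₁, ∀ j, 1 ≤ j → j ≤ n₀ → ∃ j' < N', V' j' = v k + j * s) →
    (∀ l < i, ¬ Sc l → kd l = .one ∨ kd l = .thin) →
    ∃ K₁ : ℝ, 0 < K₁ ∧ ∀ κ : ℝ, 0 < κ → Bas S (fun J F A₀ =>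
      ∀ z : ℕ → ℕ → ℕ, (∀ k ≤ N₁, ∀ p ≤ M, r' * q * J ≤ z k p ∧
        z k p ≤ ⌊(t + A' * q) * J⌋₊ - ⌊(t + v k * q) * J⌋₊) →
      ∃ (B : F.Ω → Prop) (e h pp : ℕ → ℕ) (g gc gT g₀ : ℕ → ℕ → ℕ)
        (G : ℕ → PtT F → ℕ → MvPolynomial (Option (Fin m)) ℝ)
        (H : ℕ → LnT F → ℕ → MvPolynomial (Option (Fin m)) ℝ)
        (Th : ℕ → PtT F → ℕ → MvPolynomial (Option (Fin m)) ℝ)
        (TH : ℕ → LnT F → ℕ → MvPolynomial (Option (Fin m)) ℝ)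
        (Gt : ℕ → PtT F → MvPolynomial (Option (Fin m)) ℝ)
        (Ht : ℕ → LnT F → MvPolynomial (Option (Fin m)) ℝ), Sub B A₀ ∧
        Pe F.p A₀ ≤ K₁ * Pe F.p B ∧
        CEv F c i D Dr N₁ M ⌊(t + A' * q) * J⌋₊ ⌊y * q * J⌋₊ Sc
          (fun k => ⌊(t + v k * q) * J⌋₊) e h pp z g gc gT g₀ κ B G H Th TH Gt Ht ∧
        ∀ k ≤ N₁, ((e k : ℝ) ≤ (Eb + y * q) * J ∧ (h k : ℝ) ≤ y * q * J) ∧
          (L i (t + A' * q) (t + v k * q) * J - y * q * J ≤ pp k ∧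
            (pp k : ℝ) ≤ L i (t + A' * q) (t + v k * q) * J) ∧
          (∀ l ≤ i, |(g₀ k l : ℝ) - L l (t + v k * q) (t + v k * q) * J| ≤ y * q * J ∧
            |(g k l : ℝ) - L l (t + v k * q) (t + v k * q) * J| ≤ y * q * J) ∧
          ∀ l < i, Sc l → |(gT k l : ℝ) - L l (t + A' * q) (t + v k * q) * J| ≤ y * q * J) := by
  obtain ⟨D, hD, hwin⟩ := RecQ.wins m i S₂ hi hS₂
  refine ⟨D, hD, fun Dr hDr => ?_⟩
  obtain ⟨C, CB, hC, hCB, hwin⟩ := hwin Dr hDr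
  obtain ⟨C₂, hC₂, hnat⟩ := natb_list m D i hD hi hi3
  obtain ⟨C₃, hC₃, hcev⟩ := wins_cev m D i hD
  have hC₂R : (1 : ℝ) ≤ C₂ := by exact_mod_cast hC₂
  have hC₃R : (1 : ℝ) ≤ C₃ := by exact_mod_cast hC₃
  intro Sl y gp hy hy1 hgp hs1 hs3
  obtain ⟨n₀, j₁, s, ζ, υ, hj1, hjn, hs, hζ, hυ, hns, hloss, hζy, hnum⟩ :=
    chain_num hy hgp hC₂R hs1 hs3
  obtain ⟨y₁, hy₁⟩ : ∃ y₁ : ℝ, y₁ = ζ / (4 * (C₂ * CB * C * (C₃ + 1))) := ⟨_, rfl⟩
  have hden : (1 : ℝ) ≤ C₂ * CB * C * (C₃ + 1) :=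
    one_le_mul_of_one_le_of_one_le (one_le_mul_of_one_le_of_one_le
      (one_le_mul_of_one_le_of_one_le hC₂R hCB) hC) (by linarith)
  have hy₁0 : 0 < y₁ := by rw [hy₁]; positivity
  have hy₁ζ : 4 * (C₂ * CB * C * (C₃ + 1)) * y₁ = ζ := by rw [hy₁]; field_simp
  have hbd : ∀ x : ℝ, 0 ≤ x → x ≤ C₂ * CB * C * (C₃ + 1) → 4 * (x * y₁) ≤ ζ := by
    intro x hx hxx
    rw [← hy₁ζ]
    nlinarith
  have hCB0 : 0 ≤ CB := by linarith
  have hC0 : 0 ≤ C := by linarith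
  have hb1 : 4 * (C * y₁) ≤ ζ := hbd C hC0 (by
    have : 1 * 1 * C * 1 ≤ C₂ * CB * C * (C₃ + 1) := by gcongr; linarith
    linarith)
  have hb2 : 4 * ((C₂ * CB) * y₁) ≤ ζ := hbd _ (by positivity) (by
    have : C₂ * CB * 1 * 1 ≤ C₂ * CB * C * (C₃ + 1) := by gcongr; linarith
    linarith)
  have hb3 : 4 * (C₃ * y₁) ≤ ζ := hbd _ (by positivity) (by
    have : 1 * 1 * 1 * C₃ ≤ C₂ * CB * C * (C₃ + 1) := by gcongr; linarith
    linarith)
  have hb0 : 4 * y₁ ≤ ζ := by linarith [hbd 1 (by norm_num) hden]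
  obtain ⟨ε₀, hε₀⟩ : ∃ ε₀ : ℝ, ε₀ = y₁ / (16 * (C * C₂)) := ⟨_, rfl⟩
  have hε₀0 : 0 < ε₀ := by rw [hε₀]; positivity
  have hε₀e : 16 * (C * C₂) * ε₀ = y₁ := by rw [hε₀]; field_simp
  refine ⟨n₀, s, ε₀, by omega, hs, hns, hε₀0, ?_⟩
  intro S P P₂ θ θ₂ c Pt L T kd S₀ N A V N' V' Eb e₂ K ε q t R hSS hε hεε hK A' r' N₁ M v Sc hAK
    hr' hv hmn hch hSc
  have hq := R.q0
  -- the small number
  have hε1 : 4 * (C * ε) ≤ y₁ := by
    have h1 : C * ε ≤ C * ε₀ := mul_le_mul_of_nonneg_left hεε hC0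
    have h2 : C * ε₀ ≤ C * C₂ * ε₀ := by
      refine mul_le_mul_of_nonneg_right ?_ hε₀0.le
      nlinarith
    nlinarith
  have hε2 : 16 * (C₂ * ε) ≤ ζ := by
    have h1 : C₂ * ε ≤ C₂ * ε₀ := mul_le_mul_of_nonneg_left hεε (by linarith)
    have h2 : C₂ * ε₀ ≤ C * C₂ * ε₀ := by
      refine mul_le_mul_of_nonneg_right ?_ hε₀0.le
      nlinarith
    nlinarith
  obtain ⟨hn1, hn2, hn3⟩ := hnum ε hε hε2
  -- the windows
  obtain ⟨N₂, hN₂⟩ : ∃ N₂ : ℕ, N₂ = N₁ + (N₁ + 1) * n₀ := ⟨_, rfl⟩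
  obtain ⟨w, hw⟩ : ∃ w : ℕ → ℝ, w = vch N₁ n₀ s v := ⟨_, rfl⟩
  have hwlo : ∀ k ≤ N₁, w k = v k := fun k hk => by rw [hw]; exact vch_lo hk
  have hwf : ∀ k ≤ N₁, ∀ j ≤ n₀, w (fch N₁ n₀ k j) = v k + j * s := fun k hk j hj => by
    rw [hw]
    exact vch_fch hk hj
  have hNN : N₁ ≤ N₂ := by omega
  have hcase : ∀ u ≤ N₂, (u ≤ N₁ ∧ w u = v u) ∨ ∃ k j, k ≤ N₁ ∧ 1 ≤ j ∧ j ≤ n₀ ∧
      fch N₁ n₀ k j = u ∧ w u = v k + j * s := by
    intro u hu
    rcases Nat.lt_or_ge N₁ u with h | h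
    · obtain ⟨k, j, k1, k2, k3, k4⟩ := fch_ex (n₀ := n₀) (by omega) (by omega) h
      exact Or.inr ⟨k, j, k1, k2, k3, k4, by rw [← k4]; exact hwf k k1 j k3⟩
    · exact Or.inl ⟨h, hwlo u h⟩
  have hwb : ∀ u ≤ N₂, -K + 1 ≤ w u ∧ w u + s ≤ A' := by
    intro u hu
    rcases hcase u hu with ⟨h1, h2⟩ | ⟨k, j, k1, k2, k3, k4, k5⟩
    · rw [h2]
      obtain ⟨h3, h4⟩ := hv u h1
      refine ⟨h3, ?_⟩
      have : s ≤ (n₀ + 1) * s := le_mul_of_one_le_left hs.le (by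
        have : (0 : ℝ) ≤ n₀ := Nat.cast_nonneg _
        linarith)
      linarith
    · rw [k5]
      obtain ⟨h3, h4⟩ := hv k k1
      have h5 : (j : ℝ) * s ≤ n₀ * s := mul_le_mul_of_nonneg_right (by exact_mod_cast k3) hs.le
      have h6 : 0 ≤ (j : ℝ) * s := by positivity
      constructor <;> linarith
  have hrec : ∀ u ≤ N₂, (∃ j < N, A j = A' ∧ V j = w u) ∨ ∃ j < N', V' j = w u := by
    intro u hu
    rcases hcase u hu with ⟨h1, h2⟩ | ⟨k, j, k1, k2, k3, k4, k5⟩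
    · rw [h2]
      exact Or.inl (hmn u h1)
    · rw [k5]
      exact Or.inr (hch k k1 j k2 k3)
  -- real numbers
  have hKq : q ≤ K * q := le_mul_of_one_le_left hq.le hK
  have ht0 := R.t0
  have ht1 := R.t1
  have hAq : A' * q ≤ K * q := mul_le_mul_of_nonneg_right hAK hq.le
  have hwq : ∀ u ≤ N₂, -(K * q) + q ≤ w u * q ∧ w u * q + s * q ≤ A' * q := fun u hu => by
    obtain ⟨h1, h2⟩ := hwb u hu
    have h3 := mul_le_mul_of_nonneg_right h1 hq.le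
    have h4 := mul_le_mul_of_nonneg_right h2 hq.le
    constructor <;> linarith
  have hsq : 0 < s * q := mul_pos hs hq
  have hopos : ∀ u ≤ N₂, q < t + w u * q := fun u hu => by linarith [(hwq u hu).1]
  have hox : ∀ u ≤ N₂, |t + w u * q - t| ≤ K * q := fun u hu => by
    have := hwq u hu
    rw [abs_le]
    constructor <;> linarith
  have hroom : ∀ u ≤ N₂, ∀ l ≤ i, L l (t + w u * q) (t + w u * q) + Eb + 3 * K * q < 1 :=
    fun u hu l hl => R.room l hl _ (hox u hu)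
  have hlow : ∀ u ≤ N₂, ∀ l ≤ i, t + w u * q ≤ L l (t + w u * q) (t + w u * q) := fun u hu =>
    RecQ.lowL R ((hrec u hu).imp (fun ⟨j, hj, _, h⟩ => ⟨j, hj, h⟩) id) (by linarith [hopos u hu]) (by
      linarith [(hwq u hu).2])
  have hW := fun u (hu : u ≤ N₂) => RecQ.ratW R (A' := A') (x := w u) (by
    linarith [(hwb u hu).2]) (hrec u hu) (e := ζ * q) (mul_pos hζ hq)
  choose! W hW1 hW2 hW3 using hW
  have hζq : 0 < ζ * q := mul_pos hζ hq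
  have hζ8 : ζ ≤ y / 8 := by linarith
  have hCζ : C₂ * ζ ≤ y / 8 := by linarith
  have hυ8 : υ ≤ y / 16 := by nlinarith
  have hmulq : ∀ {x z : ℝ}, x ≤ z → x * q ≤ z * q := fun h => mul_le_mul_of_nonneg_right h hq.le
  -- the natural curvature
  obtain ⟨r'', hr''⟩ : ∃ r'' : ℝ, r'' = min r' (s / 2) := ⟨_, rfl⟩
  have hr0 : 0 < r'' := by rw [hr'']; exact lt_min hr' (by positivity)
  have hr1 : r'' ≤ r' := by rw [hr'']; exact min_le_left _ _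
  have hr2 : r'' ≤ s / 2 := by rw [hr'']; exact min_le_right _ _
  obtain ⟨K₁, b, hK₁, hbas1⟩ := hwin R hSS hε A' y₁ r'' N₁ N₂ (M + 1) w (fun l => ¬ Sc l) hK hy₁0
    (by linarith) hε1 hr0 hNN hAK (fun k hk => by
      rw [hwlo k hk]
      exact hmn k hk) (fun k hk => ⟨(hwb k hk).1, by linarith [(hwb k hk).2]⟩)
    (fun k h1 h2 => by
      obtain ⟨k', j, k1, k2, k3, k4⟩ := fch_ex (n₀ := n₀) (by omega) (by omega) h1
      rw [← k4, hwf k' k1 j k3]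
      exact hch k' k1 j k2 k3) hSc
  obtain ⟨κ', hκ', hbas2⟩ := hnat (C₀ := CB) (a := t + A' * q) (Eb := Eb) (ηm := y₁ * q)
    (ζ := ζ * q) (υ := υ * q) (e := e₂) (h := ζ * q) (s := s * q) (ρ := ε * q)
    (o := fun k => t + w k * q) (η := fun _ => y₁ * q) (σ := fun _ => y₁ * q) (Sl := Sl)
    (x := fun k => t + v k * q) (Λ := fun k l => L l t t + Sl l * (v k * q))
    (lv := fun k l => L l (t + w k * q) (t + w k * q)) (Dr := Dr) (N := N₂) (M := M + 1) (n := n₀)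
    (j₁ := j₁) (K := N₁ + 1) W (fch N₁ n₀) (M + 1) R.thr₂ R.tmh R.inj hDr hζq le_rfl
    (by positivity) (by
      have h1 := hmulq hb2
      have h2 : 0 ≤ C₂ * (CB * (y₁ * q)) := by positivity
      linarith) (by
      have h1 := R.Ebe
      have h2 : (C₂ * ζ + υ) * q ≤ 3 * K * q := hmulq (by linarith)
      linarith) (fun k hk j hj => by
      rw [hN₂]
      exact fch_le (by omega) hj) le_rfl hj1 hjn hsq (by positivity) (fun k hk j hj => by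
      show t + w (fch N₁ n₀ k j) * q = t + v k * q + j * (s * q)
      rw [hwf k (by omega) j hj]
      ring) (fun k hk j hj l hl => by
      have h1 := R.dL l hl _ (hox (fch N₁ n₀ k j) (by rw [hN₂]; exact fch_le (by omega) hj))
      show |L l (t + w (fch N₁ n₀ k j) * q) (t + w (fch N₁ n₀ k j) * q) -
        (L l t t + Sl l * (v k * q)) - Sl l * (j * (s * q))| ≤ ε * q
      refine le_trans (le_of_eq ?_) h1
      congr 1
      rw [hwf k (by omega) j hj]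
      ring) (RecQ.sl1 R) (fun l hl => by
      have h1 := hmulq (hn1 l (by omega))
      refine le_trans (le_of_eq ?_) h1
      ring) (fun k hk j hj => by
      have hu : fch N₁ n₀ k j ≤ N₂ := by rw [hN₂]; exact fch_le (by omega) hj
      have hu3 : (C₂ * ζ + υ) * q ≤ 1 * q := hmulq (by linarith)
      have hυq : 0 ≤ υ * q := by positivity
      have h3 : 3 * q ≤ 3 * K * q := hmulq (by linarith)
      refine ⟨?_, fun l hl => ⟨?_, ?_⟩⟩
      · have h1 := hlow _ hu 0 (Nat.zero_le _)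
        have h2 := hroom _ hu 0 (Nat.zero_le _)
        show t + w (fch N₁ n₀ k j) * q + C₂ * (ζ * q) ≤ 1
        linarith [R.Eb0]
      · have h1 := hlow _ hu l hl
        have h2 := hopos _ hu
        show C₂ * (ζ * q) ≤ L l (t + w (fch N₁ n₀ k j) * q) (t + w (fch N₁ n₀ k j) * q)
        linarith
      · have h2 := hroom _ hu l hl
        show Eb + L l (t + w (fch N₁ n₀ k j) * q) (t + w (fch N₁ n₀ k j) * q) + C₂ * (ζ * q) +
          υ * q ≤ 1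
        linarith) (fun k hk j hj => by
      have hu : fch N₁ n₀ k j ≤ N₂ := by rw [hN₂]; exact fch_le (by omega) hj
      have h1 := hW1 _ hu
      have h2 := hW2 _ hu
      have h3 := hopos _ hu
      have h4 : (0 : ℝ) ≤ W (fch N₁ n₀ k j) := by linarith
      have h5 : (W (fch N₁ n₀ k j) : ℝ) < 1 := by linarith
      refine ⟨⟨h1, by exact_mod_cast h4, by exact_mod_cast h5, R.e₂θ _ ?_⟩, fun l _ hl => ?_⟩
      · have := hwq _ hu
        rw [abs_le]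
        constructor <;> linarith
      · have h6 := hW3 _ hu l hl.le
        have h7 := hroom _ hu l hl.le
        have h8 : 2 * ζ * q ≤ 3 * K * q := hmulq (by linarith)
        exact ⟨by linarith [R.Eb0], h6⟩) (fun l k1 k2 k3 => by
      have h1 := hmulq (hn2 l k1 k2 k3)
      linarith) (fun k1 => ⟨by
      have h1 := hmulq (hn3 k1).1
      linarith, fun l k2 => by
      have h1 := hmulq ((hn3 k1).2 l k2)
      linarith⟩) (1 / K₁) (by positivity)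
  -- the masses
  obtain ⟨Kn, hKn⟩ : ∃ Kn : ℝ, Kn = ((C₂ : ℝ) ^ 6) ^ (N₁ + 1) := ⟨_, rfl⟩
  rw [← hKn] at hbas2
  have hKn1 : 1 ≤ Kn := by rw [hKn]; exact one_le_pow₀ (one_le_pow₀ hC₂R)
  obtain ⟨Y, hY⟩ : ∃ Y : ℝ, Y = (16 * 4 ^ i) ^ 2 := ⟨_, rfl⟩
  have hY1 : 1 ≤ Y := by
    rw [hY]
    exact one_le_pow₀ (by have : (1 : ℝ) ≤ 4 ^ i := one_le_pow₀ (by norm_num); linarith)
  obtain ⟨n₄, hn₄⟩ : ∃ n₄ : ℕ, n₄ = i * (N₁ + 1) * (N₁ + 1) := ⟨_, rfl⟩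
  have hYn : 1 ≤ Y ^ n₄ := one_le_pow₀ hY1
  have hYn1 : 1 ≤ Y ^ (n₄ + 1) := one_le_pow₀ hY1
  refine ⟨K₁ * Kn * Y ^ n₄, by positivity, fun κ hκ => ?_⟩
  obtain ⟨κw, hκw⟩ : ∃ κw : ℝ, κw = min κ' (min (κ / (Kn * Y ^ n₄)) (1 / (Kn * Y ^ (n₄ + 1)))) :=
    ⟨_, rfl⟩
  have hκw0 : 0 < κw := by
    rw [hκw]
    exact lt_min hκ' (lt_min (by positivity) (by positivity))
  have hκw1 : κw ≤ κ' := by rw [hκw]; exact min_le_left _ _
  have hκw2 : κw * (Kn * Y ^ n₄) ≤ κ := by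
    have : κw ≤ κ / (Kn * Y ^ n₄) := by
      rw [hκw]
      exact (min_le_right _ _).trans (min_le_left _ _)
    rwa [le_div_iff₀ (by positivity)] at this
  have hκw3 : κw * (Kn * Y ^ (n₄ + 1)) ≤ 1 := by
    have : κw ≤ 1 / (Kn * Y ^ (n₄ + 1)) := by
      rw [hκw]
      exact (min_le_right _ _).trans (min_le_right _ _)
    rwa [le_div_iff₀ (by positivity)] at this
  obtain ⟨ε₁, J₁, hε₁, hdig⟩ := dig 1 (C₁ := (C₃ : ℝ)) hC₃R (show 0 < ζ * q / C₃ by positivity)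
  have htm := bas_ev (R.tmh.2 ε₁ hε₁) (κ := 1 / (K₁ * Kn * Y ^ (n₄ + 1))) (by positivity)
  have hpos : Bas S (fun _ F A => 0 < Pe F.p A) := ⟨1, one_pos, 0, fun J _ F A hA =>
    R.tmh.1 1 J F A hA⟩
  obtain ⟨δ, hδ, hgap⟩ := gap_fin N₁ (fun k => t + v k * q)
  obtain ⟨μ, hμ⟩ : ∃ μ : ℝ, μ = min (s * q) (min (y * q) (min δ q)) := ⟨_, rfl⟩
  have hμ0 : 0 < μ := by
    rw [hμ]
    exact lt_min hsq (lt_min (by positivity) (lt_min hδ hq))
  obtain ⟨J₂, hJ₂⟩ := exists_nat_gt (100 / μ)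
  refine Bas.mono (max J₁ J₂) ((((hbas1 κw hκw0).and hbas2).and htm).and hpos) ?_
  rintro J hJ F A₀ ⟨⟨⟨hA1, hA2⟩, hA3⟩, hA4⟩ z hz
  have hJ0 : (0 : ℝ) ≤ J := Nat.cast_nonneg J
  have hμJ : 100 ≤ μ * J := by
    have h1 : 100 / μ < J := hJ₂.trans_le (by exact_mod_cast (le_max_right _ _).trans hJ)
    rw [div_lt_iff₀ hμ0] at h1
    linarith
  have hmulJ : ∀ {x z : ℝ}, x ≤ z → x * (J : ℝ) ≤ z * J := fun h =>
    mul_le_mul_of_nonneg_right h hJ0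
  have hsJ : 100 ≤ s * q * J := hμJ.trans (hmulJ (by rw [hμ]; exact min_le_left _ _))
  have hyJ : 100 ≤ y * q * J := hμJ.trans (hmulJ (by
    rw [hμ]
    exact (min_le_right _ _).trans (min_le_left _ _)))
  have hδJ : 100 ≤ δ * J := hμJ.trans (hmulJ (by
    rw [hμ]
    exact (min_le_right _ _).trans ((min_le_right _ _).trans (min_le_left _ _))))
  have hqJ : 100 ≤ q * J := hμJ.trans (hmulJ (by
    rw [hμ]
    exact (min_le_right _ _).trans ((min_le_right _ _).trans (min_le_right _ _))))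
  -- the radii
  obtain ⟨z', hz'⟩ : ∃ z' : ℕ → ℕ → ℕ, z' = fun u p => if p ≤ M then
      (if u ≤ N₁ then z u p else ⌊(t + A' * q) * J⌋₊ - ⌊(t + w u * q) * J⌋₊) else
      ⌊(t + w u * q + s * q) * J⌋₊ - ⌊(t + w u * q) * J⌋₊ := ⟨_, rfl⟩
  have hdif : ∀ u ≤ N₂, r'' * q * J ≤
      ((⌊(t + w u * q + s * q) * J⌋₊ - ⌊(t + w u * q) * J⌋₊ : ℕ) : ℝ) ∧
      ⌊(t + w u * q + s * q) * J⌋₊ ≤ ⌊(t + A' * q) * J⌋₊ := by
    intro u hu
    have h0 := hopos u hu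
    have h1 : (⌊(t + w u * q) * J⌋₊ : ℝ) ≤ (t + w u * q) * J :=
      Nat.floor_le (mul_nonneg (by linarith) hJ0)
    have h2 := (Nat.lt_floor_add_one ((t + w u * q + s * q) * (J : ℝ))).le
    have h3 : ⌊(t + w u * q) * J⌋₊ ≤ ⌊(t + w u * q + s * q) * J⌋₊ :=
      Nat.floor_le_floor (hmulJ (by linarith))
    refine ⟨?_, Nat.floor_le_floor (hmulJ (by linarith [(hwq u hu).2]))⟩
    rw [Nat.cast_sub h3]
    have h4 : r'' * q * J ≤ s / 2 * q * J := hmulJ (hmulq hr2)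
    linarith
  have hz1 : ∀ u ≤ N₂, ∀ p ≤ M + 1, r'' * q * J ≤ z' u p ∧
      z' u p ≤ ⌊(t + A' * q) * J⌋₊ - ⌊(t + w u * q) * J⌋₊ := by
    intro u hu p hp
    obtain ⟨h1, h2⟩ := hdif u hu
    rw [hz']
    simp only
    split_ifs with h3 h4
    · obtain ⟨h5, h6⟩ := hz u h4 p h3
      rw [hwlo u h4]
      exact ⟨(hmulJ (hmulq hr1)).trans h5, h6⟩
    · refine ⟨h1.trans ?_, le_rfl⟩
      exact_mod_cast Nat.sub_le_sub_right h2 _
    · exact ⟨h1, Nat.sub_le_sub_right h2 _⟩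
  obtain ⟨B, gc, gT, g₀, G, H, Th, TH, Gt, Ht, k1, k2, k3, k4⟩ := hA1 z' hz1
  obtain ⟨B₁, l1, l2, l3⟩ := hA2 z' κw b B g₀ G H B k4 (fun k hk j hj => by
    rw [hz']
    simp only
    rw [if_neg (by omega), hwf k (by omega) j hj.le, hwf k (by omega) (j + 1) (by omega)]
    congr 3
    push_cast
    ring) hκw1 k1 (fun _ h => h) (by
    rw [div_mul_eq_mul_div, one_mul, div_le_iff₀ hK₁]
    linarith)
  have hp := Pe_nonneg F.isLaw
  have hB₁0 : 0 < Pe F.p B₁ := by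
    by_contra hcon
    have h2 : Pe F.p B₁ = 0 := le_antisymm (not_lt.1 hcon) (hp _)
    rw [h2, mul_zero] at l2
    have h3 : K₁ * Pe F.p B ≤ 0 := mul_nonpos_of_nonneg_of_nonpos hK₁.le l2
    linarith
  have hWn := ((k3.selM (M' := M) (z' := z) (by omega) (fun k hk p hp => by
    rw [hz']
    simp only
    rw [if_pos hp, if_pos hk])).res (κ₁ := 1 / Kn) (κ₂ := κw * Kn) l1 (by
    rw [div_mul_eq_mul_div, one_mul, div_le_iff₀ (by positivity)]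
    linarith) (by positivity) (by
    rw [mul_one_div, mul_div_assoc, div_self (by positivity), mul_one])).ocg
    (o' := fun k => t + v k * q)
    (p'' := fun k => L i (t + A' * q) (t + v k * q) - 2 * (C * (y₁ * q)))
    (lv' := fun k l => L l (t + v k * q) (t + v k * q))
    (be' := fun k l => L l (t + A' * q) (t + v k * q)) (fun k hk => by
      rw [hwlo k hk]) (fun k hk => by
      rw [hwlo k hk]) (fun k hk => by
      rw [hwlo k hk]) (fun k hk => by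
      rw [hwlo k hk])
  obtain ⟨u, hu1, hu2, hu3⟩ := hdig J ((le_max_left _ _).trans hJ)
  -- the numbers in units of `q J`
  obtain ⟨Q, hQ⟩ : ∃ Q : ℝ, Q = q * J := ⟨_, rfl⟩
  have hQ0 : 0 < Q := by rw [hQ]; linarith
  have hmQ : ∀ {x z : ℝ}, x ≤ z → x * Q ≤ z * Q := fun h => mul_le_mul_of_nonneg_right h hQ0.le
  have hQ100 : 100 ≤ Q := by rw [hQ]; exact hqJ
  have hyQ : 100 ≤ y * Q := by rw [hQ, ← mul_assoc]; exact hyJ
  have hcl1 : (⌊y * q * J⌋₊ : ℝ) ≤ y * Q := by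
    rw [hQ, ← mul_assoc]
    exact Nat.floor_le (by positivity)
  have hcl2 : y * Q - 1 ≤ (⌊y * q * J⌋₊ : ℝ) := by
    have := (Nat.lt_floor_add_one (y * q * (J : ℝ))).le
    rw [hQ, ← mul_assoc]
    linarith
  have m1 : C * (y₁ * Q) ≤ y / 32 * Q := by
    have := hmQ (show C * y₁ ≤ y / 32 by linarith)
    linarith
  have m1' : CB * (y₁ * Q) ≤ y / 32 * Q := by
    have h1 : CB * y₁ ≤ C₂ * CB * y₁ := by
      rw [mul_assoc]
      exact le_mul_of_one_le_left (by positivity) hC₂R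
    have := hmQ (show CB * y₁ ≤ y / 32 by linarith)
    linarith
  have m2 : y₁ * Q ≤ y / 32 * Q := hmQ (by linarith)
  have m3 : C₃ * (y₁ * Q) ≤ y / 32 * Q := by
    have := hmQ (show C₃ * y₁ ≤ y / 32 by linarith)
    linarith
  have hyQ1 : y * Q ≤ 1 / 8 * Q := hmQ hy1
  have hy₁Q : y₁ * q * J = y₁ * Q := by rw [hQ]; ring
  have hu4 : C₃ * (2 * (u : ℝ) + 1) ≤ y / 8 * Q := by
    push_cast at hu3
    have h1 : C₃ * (2 * (u : ℝ) + 1) ≤ C₃ * (ζ * q / C₃ * J) :=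
      mul_le_mul_of_nonneg_left hu3 (by linarith)
    have h2 : C₃ * (ζ * q / C₃ * J) = ζ * Q := by rw [hQ]; field_simp
    have h3 := hmQ hζ8
    rw [h2] at h1
    linarith
  have hθQ : C₃ * (ε₁ * J + 1) ≤ ζ * Q := by
    refine hu2.trans ?_
    have h2 : ζ * q / C₃ * J = ζ * Q / C₃ := by rw [hQ]; ring
    rw [h2]
    exact div_le_self (by positivity) hC₃R
  have hKQ : Q ≤ K * Q := le_mul_of_one_le_left hQ0.le hK
  have hroomJ : ∀ k ≤ N₁, ∀ l ≤ i, (Eb + L l (t + v k * q) (t + v k * q)) * J + 3 * (K * Q) ≤ J := by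
    intro k hk l hl
    have h1 := hmulJ (hroom k (by omega) l hl).le
    rw [hwlo k hk, one_mul] at h1
    have h2 : (L l (t + v k * q) (t + v k * q) + Eb + 3 * K * q) * J =
      (Eb + L l (t + v k * q) (t + v k * q)) * J + 3 * (K * Q) := by rw [hQ]; ring
    linarith
  have hoJ : ∀ k ≤ N₁, Q ≤ (t + v k * q) * J := by
    intro k hk
    have h1 := hmulJ (hopos k (by omega)).le
    rw [hwlo k hk] at h1
    rw [hQ]
    exact h1
  have hlvJ : ∀ k ≤ N₁, ∀ l ≤ i, (t + v k * q) * J ≤ L l (t + v k * q) (t + v k * q) * J := by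
    intro k hk l hl
    have h1 := hlow k (by omega) l hl
    rw [hwlo k hk] at h1
    exact hmulJ h1
  have haoJ : ∀ k ≤ N₁, (t + v k * q) * J ≤ (t + A' * q) * J := fun k hk => by
    have h1 := (hwq k (by omega)).2
    rw [hwlo k hk] at h1
    exact hmulJ (by linarith)
  have hmemk : ∀ k ≤ N₁, 0 ≤ t + v k * q ∧ t + v k * q ≤ t + A' * q ∧ t + A' * q ≤ 1 := by
    intro k hk
    have h1 := hwq k (by omega)
    have h2 := hopos k (by omega)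
    rw [hwlo k hk] at h1 h2
    exact ⟨by linarith, by linarith, by linarith⟩
  have hbe1 : ∀ k ≤ N₁, ∀ l < i, (t + A' * q) * J ≤ L l (t + A' * q) (t + v k * q) * J := by
    intro k hk l hl
    obtain ⟨h1, h2, h3⟩ := hmemk k hk
    rw [R.lv l hl.le]
    unfold lvN
    rw [if_pos hl]
    exact hmulJ (R.thr.low _ _ _ h1 h2 h3)
  have hbe2 : ∀ k ≤ N₁, ∀ l < i, (Eb + L l (t + A' * q) (t + v k * q)) * J + 3 * (K * Q) ≤ J := by
    intro k hk l hl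
    obtain ⟨h1, h2, h3⟩ := hmemk k hk
    have h4 := (R.lawL l hl.le).mono_w (t + A' * q) (t + v k * q) (t + A' * q) h1 h2 le_rfl h3
    have h5 := R.room l hl.le (t + A' * q) (by
      have h8 := hwq k (by omega)
      rw [abs_le]
      constructor <;> linarith)
    have h6 := hmulJ (show L l (t + A' * q) (t + v k * q) + Eb + 3 * K * q ≤ 1 by linarith)
    rw [one_mul] at h6
    have h7 : (L l (t + A' * q) (t + v k * q) + Eb + 3 * K * q) * J =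
      (Eb + L l (t + A' * q) (t + v k * q)) * J + 3 * (K * Q) := by rw [hQ]; ring
    linarith
  have hao : ∀ k ≤ N₁, (t + A' * q - (t + v k * q)) * J ≤ 2 * (K * Q) - Q := by
    intro k hk
    have h1 := hwq k (by omega)
    rw [hwlo k hk] at h1
    have h2 := hmulJ (show t + A' * q - (t + v k * q) ≤ 2 * K * q - q by linarith)
    have h3 : (2 * K * q - q) * J = 2 * (K * Q) - Q := by rw [hQ]; ring
    linarith
  obtain ⟨B', n1, n2, n3⟩ := hcev (X := ⌊(C₂ * (ζ * q) + 2 * (υ * q)) * J⌋₊)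
    (cl := ⌊y * q * J⌋₊) (u := u) (θ := ε₁ * J) hWn R.inj hDr hB₁0 (by positivity)
    (by have := (hmemk 0 (Nat.zero_le _)).2.2; exact this) (fun k hk l hl => by
      have h1 := (l3 k (by omega)).2 l hl
      have h2 : fch N₁ n₀ k 0 = k := if_pos rfl
      rw [h2, hwlo k hk] at h1
      exact h1) (by
      refine Nat.floor_le_floor (hmulJ ?_)
      have h1 := hmulq (show C₂ * ζ + 2 * υ ≤ y by linarith)
      linarith) (fun k hk j hj hle => by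
      by_contra hcon
      have h1 := hgap k hk j hj (not_le.1 hcon)
      have h2 := hmulJ h1
      have h3 := Nat.lt_floor_add_one ((t + v k * q) * (J : ℝ))
      have h4 : (⌊(t + v j * q) * J⌋₊ : ℝ) ≤ (t + v j * q) * J :=
        Nat.floor_le (mul_nonneg (hmemk j hj).1 hJ0)
      have h5 : (⌊(t + v k * q) * J⌋₊ : ℝ) ≤ ⌊(t + v j * q) * J⌋₊ := by exact_mod_cast hle
      linarith) (by rw [hy₁Q]; linarith) (by rw [hy₁Q]; linarith) (by
      rw [hy₁Q]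
      have h1 : (0 : ℝ) ≤ u := Nat.cast_nonneg u
      have h2 : 0 ≤ C₃ * (u : ℝ) := by positivity
      linarith) (fun k hk l hl => by
      have h1 := hroomJ k hk l hl
      have h2 := hao k hk
      rw [hy₁Q]
      linarith) (fun k hk l hl _ => by
      have h1 := hbe2 k hk l hl
      rw [hy₁Q]
      linarith) (fun k hk l hl => by
      have h1 := hlvJ k hk l hl.le
      have h2 := hoJ k hk
      rw [hy₁Q]
      linarith) (fun k hk l hl _ => by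
      have h1 := hbe1 k hk l hl
      have h2 := hoJ k hk
      have h3 := haoJ k hk
      rw [hy₁Q]
      linarith) (by positivity) (fun k hk => by
      have hL2 : (1 : ℝ) / 2 ≤ Real.log 2 := by
        have := Real.log_two_gt_d9
        linarith
      have h1 := hroomJ k hk 0 (Nat.zero_le _)
      have h2 := hlvJ k hk 0 (Nat.zero_le _)
      have h3 : (⌊(t + v k * q) * J⌋₊ : ℝ) ≤ (t + v k * q) * J :=
        Nat.floor_le (mul_nonneg (hmemk k hk).1 hJ0)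
      have h4 : 0 ≤ Eb * (J : ℝ) := mul_nonneg R.Eb0.le hJ0
      have h5 : 3 * Q ≤ (J : ℝ) - ⌊(t + v k * q) * J⌋₊ := by linarith
      have h6 : 3 * Q * (1 / 2) ≤ ((J : ℝ) - ⌊(t + v k * q) * J⌋₊) * Real.log 2 :=
        mul_le_mul h5 hL2 (by norm_num) (by linarith)
      have h7 := hmQ (show ζ ≤ 1 by linarith)
      linarith) hu1 (by
      rw [← hY, ← hn₄, mul_assoc]
      exact hκw3) (fun B' hB' s1 s2 => hA3 B' (fun ω hω => k1 ω (l1 ω (s1 ω hω))) (by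
      rw [← hY, ← hn₄] at s2
      rw [div_mul_eq_mul_div, one_mul, div_le_iff₀ (by positivity)]
      calc Pe F.p A₀ ≤ K₁ * Pe F.p B := k2
        _ ≤ K₁ * (Kn * Pe F.p B₁) := mul_le_mul_of_nonneg_left l2 hK₁.le
        _ ≤ K₁ * (Kn * (Y ^ (n₄ + 1) * Pe F.p B')) := by gcongr
        _ = _ := by ring) hB')
  rw [← hY, ← hn₄] at n2 n3
  refine ⟨B', _, _, _, _, gc, gT, g₀, G, H, Th, TH, Gt, Ht, fun ω hω => k1 ω (l1 ω (n1 ω hω)), ?_,
    cev_sub n3 (κ₁ := 1) (fun _ h => h) (by rw [one_mul]) hκ.le (by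
      rw [mul_one, mul_assoc]
      exact hκw2), fun k hk => ⟨⟨?_, ?_⟩, ⟨?_, ?_⟩, fun l hl => ⟨?_, ?_⟩, fun l hl hl2 => ?_⟩⟩
  · calc Pe F.p A₀ ≤ K₁ * Pe F.p B := k2
      _ ≤ K₁ * (Kn * Pe F.p B₁) := mul_le_mul_of_nonneg_left l2 hK₁.le
      _ ≤ K₁ * (Kn * (Y ^ n₄ * Pe F.p B')) := by gcongr
      _ = _ := by ring
  · have h1 : (⌊(Eb + y₁ * q + y₁ * q) * J⌋₊ : ℝ) ≤ (Eb + y₁ * q + y₁ * q) * J :=
      Nat.floor_le (mul_nonneg (by have := R.Eb0; positivity) hJ0)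
    have h2 : (Eb + y₁ * q + y₁ * q) * J = Eb * J + 2 * (y₁ * Q) := by rw [hQ]; ring
    have h3 : (Eb + y * q) * J = Eb * J + y * Q := by rw [hQ]; ring
    rw [h3]
    linarith
  · have h1 : (⌊y₁ * q * J⌋₊ : ℝ) ≤ y₁ * Q := (Nat.floor_le (by positivity)).trans_eq hy₁Q
    have h3 : y * q * J = y * Q := by rw [hQ]; ring
    rw [h3]
    show (⌊y₁ * q * J⌋₊ : ℝ) ≤ y * Q
    linarith
  · have h1 := (Nat.lt_floor_add_one
      ((L i (t + A' * q) (t + v k * q) - 2 * (C * (y₁ * q))) * (J : ℝ))).le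
    have h2 : (L i (t + A' * q) (t + v k * q) - 2 * (C * (y₁ * q))) * (J : ℝ) =
      L i (t + A' * q) (t + v k * q) * J - 2 * (C * (y₁ * Q)) := by rw [hQ]; ring
    have h3 : y * q * J = y * Q := by rw [hQ]; ring
    rw [h3]
    show _ ≤ (⌊(L i (t + A' * q) (t + v k * q) - 2 * (C * (y₁ * q))) * J⌋₊ : ℝ)
    linarith
  · have h0 : 0 ≤ L i (t + A' * q) (t + v k * q) - 2 * (C * (y₁ * q)) :=
      (by positivity : (0 : ℝ) ≤ C * (y₁ * q)).trans (hWn.hp' k hk)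
    have h1 : (⌊(L i (t + A' * q) (t + v k * q) - 2 * (C * (y₁ * q))) * J⌋₊ : ℝ) ≤
        (L i (t + A' * q) (t + v k * q) - 2 * (C * (y₁ * q))) * J :=
      Nat.floor_le (mul_nonneg h0 hJ0)
    refine h1.trans (hmulJ ?_)
    have : 0 ≤ C * (y₁ * q) := by positivity
    linarith
  · obtain ⟨t1, t2, t3, t4, t5, t6⟩ := hWn.g_num hk hl
    rw [hy₁Q] at t3
    have h3 : y * q * J = y * Q := by rw [hQ]; ring
    rw [h3, abs_le]
    constructor <;> linarith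
  · obtain ⟨t1, t2, t3, t4, t5, t6⟩ := hWn.g_num hk hl
    rw [hy₁Q] at t1
    have h3 : y * q * J = y * Q := by rw [hQ]; ring
    rw [h3, abs_le]
    constructor <;> linarith
  · obtain ⟨t1, t2⟩ := (hWn.t_num hk hl).2 (not_not_intro hl2)
    rw [hy₁Q] at t1
    have h3 : y * q * J = y * Q := by rw [hQ]; ring
    rw [h3, abs_le]
    constructor <;> linarith

end Pool.D2R
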