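import Pool.Agent.H23.D2.Adn

/-!
# The relative gradient at two samples of one cell

`cell_hgt`: the heights of two samples of one cell. `GrdE.cell`: the relative gradients of two
samples of one cell are near.
-/

set_option autoImplicit false

namespace Pool.D2R

open Finset Real MvPolynomial
open Pool.Agent.H49.Ent Pool.Agent.H32.Dense Pool.STK Pool.KA Pool.KSAT Pool.K2S Pool.PB Pool.S6C
open Pool.GEN Pool.CHT Pool.CHX Pool.ISO

variable {m J : ℕ}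

/-- **The heights of two samples of one cell**, over a ball. -/
theorem cell_hgt (m D r : ℕ) : ∃ C : ℕ, ∀ {J : ℕ} {F : Fam m J} {c : ℕ → Fin m}
    {Dr w e h M jq jT s : ℕ} {z : ℕ → ℕ} {g g₀ : ℕ → ℕ} {κ : ℝ} {B : F.Ω → Prop}
    {G : PtT F → ℕ → MvPolynomial (Option (Fin m)) ℝ}
    {H : LnT F → ℕ → MvPolynomial (Option (Fin m)) ℝ},
    Set.InjOn c (Set.Iio (r + 1)) → EvB F c r D Dr w M z e h g g₀ κ B G H →
    jq ≤ M → jT ≤ M → z jq + 1 ≤ z jT → (∀ l ≤ r, e + (g l + z jq) + s + C ≤ J) →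
    ∀ ω ν, B ω → B ν → ptr F J ω = ptr F J ν → ∀ l ≤ r,
      |hgt F c G ω l - hgt F c G ν l| ≤ 2 / 2 ^ (g l + z jq + s) := by
  have hsh := fun l : ℕ => shf_pol m D l
  choose Cs hCs using hsh
  obtain ⟨C₁, hC₁⟩ : ∃ C₁ : ℕ, C₁ = ∑ l ∈ range (r + 1), Cs l := ⟨_, rfl⟩
  have hCl : ∀ l ≤ r, Cs l ≤ C₁ := fun l hl => by
    rw [hC₁]
    exact Finset.single_le_sum (f := Cs) (fun _ _ => Nat.zero_le _)
      (Finset.mem_range.2 (Nat.lt_succ_of_le hl))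
  refine ⟨2 * C₁, ?_⟩
  intro J F c Dr w e h M jq jT s z g g₀ κ B G H hc hE hjq hjT hz hJ ω ν hω hν hpt l hl
  obtain ⟨G', hG'⟩ : ∃ G' : PtT F → ℕ → MvPolynomial (Option (Fin m)) ℝ,
    G' = fun y l => Gno (c l) J J (fun y => G y l) y := ⟨_, rfl⟩
  have hrq := hE.rad jq hjq
  have hrT := hE.rad jT hjT
  rw [← hG'] at hrq hrT
  obtain ⟨hT, ht, hxx⟩ := bt_near hpt
  obtain ⟨η, hη⟩ : ∃ η : Option (Fin m) → ℝ, η = fun o => bt F ν o - bt F ω o := ⟨_, rfl⟩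
  have h1 := (hCs l (c := c) (ψ := G' (ptr F J ω)) (Q := G' (ptr F J ω) l)
    (g := fun l => g l + z jq) (a := w + z jq)
    (e := e) (s := s + Cs l) (J := J) (M := 0) (x := bt F ω) (η := η) (hc.mono fun y hy => by
      rw [Set.mem_Iio] at hy ⊢
      omega) (hrq.degG _) (hrq.depG _)
    (hrq.depG _ l) (hrq.degG _ l) (fun k hk b hb j hj => hrq.lip ω hω k (by omega) b hb j hj)
    (fun b _ => by rw [sub_self, abs_zero]) (fun k hk => by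
      have h2 := hJ k (by omega)
      have h3 := hCl l hl
      show e + (g k + z jq) + (s + Cs l) + Cs l ≤ J
      omega) (by
      rw [hη]
      show bt F ν none - bt F ω none = 0
      rw [ht, sub_self]) (fun j _ => by
      rw [hη]
      show |F.x ν (c j) - F.x ω (c j)| ≤ _
      rw [abs_sub_comm]
      exact hxx _) (fun j hj => by
      refine (hrT.pos ω hω j (by omega)).trans (inv_mono ?_)
      show g j + z jq + 1 ≤ g j + z jT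
      omega)).1
  have e1 : (fun o => bt F ω o + η o) = bt F ν := by
    rw [hη]
    funext o
    ring
  rw [e1, zero_add] at h1
  have h2 : |eval (bt F ν) (G (ptr F J ω) l) - eval (bt F ω) (G (ptr F J ω) l)| ≤
      1 / 2 ^ (g l + z jq + s) := by
    have e2 : eval (bt F ν) (G' (ptr F J ω) l) - eval (bt F ω) (G' (ptr F J ω) l) =
        eval (bt F ν) (G (ptr F J ω) l) - eval (bt F ω) (G (ptr F J ω) l) := by
      rw [hG']
      show eval (bt F ν) (Gno (c l) J J (fun y => G y l) (ptr F J ω)) -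
        eval (bt F ω) (Gno (c l) J J (fun y => G y l) (ptr F J ω)) = _
      unfold Gno
      rw [map_add, map_add, eval_C, eval_C]
      ring
    rw [← e2]
    refine h1.trans (le_of_eq ?_)
    rw [mul_one_div, div_div, ← pow_add]
    rw [div_eq_div_iff (by positivity) (by positivity), one_mul, ← pow_add]
    congr 1
    ring
  have h3 : |F.x ω (c l) - F.x ν (c l)| ≤ 1 / 2 ^ (g l + z jq + s) := by
    refine (hxx _).trans (inv_mono ?_)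
    have := hJ l hl
    omega
  unfold hgt
  rw [← hpt]
  have e3 : F.x ω (c l) - eval (bt F ω) (G (ptr F J ω) l) -
      (F.x ν (c l) - eval (bt F ν) (G (ptr F J ω) l)) = (F.x ω (c l) - F.x ν (c l)) +
      (eval (bt F ν) (G (ptr F J ω) l) - eval (bt F ω) (G (ptr F J ω) l)) := by ring
  rw [e3]
  refine (abs_add_le _ _).trans ((add_le_add h3 h2).trans (le_of_eq ?_))
  ring

/-- **Two samples of one cell**: the relative gradients are near. -/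
theorem GrdE.cell {F : Fam m J} {c : ℕ → Fin m} {i ks n q X : ℕ} {γ : ℕ → ℕ} {U : ℝ}
    {B : F.Ω → Prop} {G : ℕ → PtT F → ℕ → MvPolynomial (Option (Fin m)) ℝ}
    (h : GrdE F c 0 i ks n q X γ U B G)
    (hh : ∀ ω ν, B ω → B ν → ptr F J ω = ptr F J ν → ∀ j < i,
      |hgt F c (G 0) ω j - hgt F c (G 0) ν j| ≤ 2 ^ 2 / 2 ^ (γ j + q)) :
    ∀ ω ν, B ω → B ν → ptr F J ω = ptr F J ν → ∀ j < i,
      |gnh F c i γ (G 0) (G n) ω j - gnh F c i γ (G 0) (G n) ν j| ≤ U / 2 ^ X := by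
  intro ω ν hω hν hpt j hj
  obtain ⟨hT, ht, hxx⟩ := bt_near hpt
  exact h.bx ω ν hω hν ht (fun l hl => absurd hl (Nat.not_lt_zero l))
    (fun j hj _ => hh ω ν hω hν hpt j hj) (fun k _ l _ => by rw [hpt]) j hj (Nat.zero_le j)

/-- **The heights of two samples of one cell**, over a window of `WinB`. -/
theorem winb_cell (m D r : ℕ) : ∃ C : ℕ, 1 ≤ C ∧ ∀ {J : ℕ} {F : Fam m J} {c : ℕ → Fin m}
    {Dr N M : ℕ} {C₀ a Eb ηm : ℝ} {o η σ : ℕ → ℝ} {lv b : ℕ → ℕ → ℝ}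
    {κ : ℝ} {z : ℕ → ℕ → ℕ} {B : F.Ω → Prop} {g₀ : ℕ → ℕ → ℕ}
    {G : ℕ → PtT F → ℕ → MvPolynomial (Option (Fin m)) ℝ}
    {H : ℕ → LnT F → ℕ → MvPolynomial (Option (Fin m)) ℝ}
    (_ : WinB F c r D Dr N M C₀ a Eb ηm o η σ lv b κ z B g₀ G H) {k₀ jq jT q Y : ℕ},
    Set.InjOn c (Set.Iio (r + 1)) → k₀ ≤ N → jq ≤ M → jT ≤ M → z k₀ jq + 1 ≤ z k₀ jT →
    C₀ * (ηm * J) ≤ Y → 1 ≤ Y →
    (∀ l ≤ r, (Eb + lv k₀ l) * J + z k₀ jq + q + C * Y ≤ J) →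
    ∀ ω ν, B ω → B ν → ptr F J ω = ptr F J ν → ∀ l ≤ r,
      |hgt F c (G k₀) ω l - hgt F c (G k₀) ν l| ≤ 2 ^ 2 / 2 ^ (g₀ k₀ l + q) := by
  obtain ⟨C, hC⟩ := cell_hgt m D r
  refine ⟨C + 6, by omega, ?_⟩
  intro J F c Dr N M C₀ a Eb ηm o η σ lv b κ z B g₀ G H W k₀ jq jT q Y hc hk hjq hjT hz hY hY1
    hnum ω ν hω hν hpt l hl
  have hJ0 : (0 : ℝ) ≤ J := Nat.cast_nonneg J
  have hηm0 : 0 ≤ ηm := (W.hη k₀ hk).1.trans (W.hη k₀ hk).2
  have hηY : ηm * J ≤ Y := (le_mul_of_one_le_left (mul_nonneg hηm0 hJ0) W.C1).trans hY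
  have hY1R : (1 : ℝ) ≤ Y := by exact_mod_cast hY1
  obtain ⟨hσ1, hσ2⟩ := W.hσ k₀ hk
  obtain ⟨hη1, hη2⟩ := W.hη k₀ hk
  have hfE : (⌊(Eb + σ k₀ + η k₀) * J⌋₊ : ℝ) ≤ Eb * J + 2 * Y := by
    have t1 : (⌊(Eb + σ k₀ + η k₀) * J⌋₊ : ℝ) ≤ (Eb + σ k₀ + η k₀) * J :=
      Nat.floor_le (mul_nonneg (by linarith [W.Eb0]) hJ0)
    have t2 : (σ k₀ + η k₀) * (J : ℝ) ≤ (2 * ηm) * J :=
      mul_le_mul_of_nonneg_right (by linarith) hJ0
    linarith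
  have hCR : (0 : ℝ) ≤ C := Nat.cast_nonneg _
  have h1 := hC hc (W.ev k₀ hk) hjq hjT hz (s := q + 2 * Y) (fun l hl => by
    obtain ⟨-, t2, -, -⟩ := W.g_num hk hl
    have h2 := hnum l hl
    have h3 : ((⌊(Eb + σ k₀ + η k₀) * J⌋₊ + (⌊b k₀ l * J⌋₊ + z k₀ jq) + (q + 2 * Y) + C : ℕ) : ℝ) ≤
        (J : ℕ) := by
      push_cast at h2 ⊢
      nlinarith
    exact_mod_cast h3) ω ν hω hν hpt l hl
  refine h1.trans ?_
  rw [div_le_div_iff₀ (by positivity) (by positivity)]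
  obtain ⟨t1, -, -, t4⟩ := W.g_num hk hl
  have h4 : g₀ k₀ l ≤ ⌊b k₀ l * J⌋₊ + 2 * Y := by
    have h7 : (g₀ k₀ l : ℝ) ≤ ((⌊b k₀ l * J⌋₊ + 2 * Y : ℕ) : ℝ) := by
      push_cast
      linarith
    exact_mod_cast h7
  calc (2 : ℝ) * 2 ^ (g₀ k₀ l + q) = 2 ^ (g₀ k₀ l + q + 1) := by rw [pow_succ]; ring
    _ ≤ 2 ^ (2 + (⌊b k₀ l * J⌋₊ + z k₀ jq + (q + 2 * Y))) :=
      pow_le_pow_right₀ (by norm_num) (by omega)
    _ = _ := by rw [pow_add]

end Pool.D2R
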