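import Pool.Agent.H23.D2.Bgr

/-!
# The relative gradient with another first chart

`winb_grdF`: the charts of the first window may be replaced by charts which are near on its box.
-/

set_option autoImplicit false

namespace Pool.D2R

open Finset Real MvPolynomial
open Pool.Agent.H49.Ent Pool.Agent.H32.Dense Pool.STK Pool.KA Pool.KSAT Pool.K2S Pool.PB Pool.S6C
open Pool.GEN Pool.CHT Pool.CHX Pool.ISO

variable {m J : ℕ}

/-- **The relative gradient with other charts `G'` over the first window.** -/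
theorem winb_grdF (D D' r : ℕ) : ∃ C : ℕ, 1 ≤ C ∧ ∀ {m J : ℕ} {F : Fam m J} {c : ℕ → Fin m}
    {Dr N M : ℕ} {C₀ a Eb ηm : ℝ} {o η σ : ℕ → ℝ} {lv b : ℕ → ℕ → ℝ}
    {κ : ℝ} {z : ℕ → ℕ → ℕ} {B : F.Ω → Prop} {g₀ : ℕ → ℕ → ℕ}
    {G : ℕ → PtT F → ℕ → MvPolynomial (Option (Fin m)) ℝ}
    {H : ℕ → LnT F → ℕ → MvPolynomial (Option (Fin m)) ℝ}
    (_ : WinB F c r D Dr N M C₀ a Eb ηm o η σ lv b κ z B g₀ G H)
    {G' : PtT F → ℕ → MvPolynomial (Option (Fin m)) ℝ} {κ' : F.Ω → ℕ → ℝ}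
    {f jj : ℕ → ℕ} {n i k₀ ks q X Y : ℕ} {S b' : ℝ},
    (∀ y l, (G' y l).totalDegree ≤ D') → (∀ y l, DepC c l (G' y l)) →
    (∀ ω, B ω → G' (ptr F J ω) i = G (f 0) (ptr F J ω) i) →
    (∀ ω, B ω → ∀ l < i, ∀ b, NBx c (G (f 0) (ptr F J ω)) (g₀ (f 0)) ⌊o (f 0) * J⌋₊ (F.t ω) l b →
      |eval b (G' (ptr F J ω) l) + κ' ω l - eval b (G (f 0) (ptr F J ω) l)| ≤
        2 ^ Y / 2 ^ g₀ (f 0) l) →
    Set.InjOn c (Set.Iio (r + 1)) → i ≤ r → 1 ≤ n → (∀ k ≤ n, f k ≤ N) →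
    (∀ k < n, jj k ≤ M ∧ z (f k) (jj k) = ⌊o (f (k + 1)) * J⌋₊ - ⌊o (f k) * J⌋₊ ∧
      o (f k) ≤ o (f (k + 1))) →
    C₀ * (ηm * J) ≤ Y → 3 ≤ Y → (n : ℝ) ≤ 2 ^ Y → 0 ≤ S → S ≤ b' →
    (∀ k < n, ∀ l ≤ i, (lv (f (k + 1)) l - lv (f k) l) * J ≤ Y ∧
      (lv (f k) l - lv (f (k + 1)) l) * J ≤ Y) →
    (∀ k < n, b' * ((o (f (k + 1)) - o (f k)) * J) ≤ Y) →
    (∀ k k', k ≤ k' → k' ≤ n → ∀ l < i, k₀ ≤ l →
      (lv (f k') l - lv (f k) l) * J ≤ S * ((o (f k') - o (f k)) * J) + Y) →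
    (∀ k ≤ n, b' * ((o (f k) - o (f 0)) * J) ≤ (lv (f k) i - lv (f 0) i) * J + Y) →
    S * ((o (f n) - o (f 0)) * J) + 3 ≤ q →
    (q : ℝ) + X ≤ b' * ((o (f n) - o (f 0)) * J) + Y → X ≤ q → ks ≤ n →
    (X : ℝ) ≤ (b' - S) * ((o (f ks) - o (f 0)) * J) + Y →
    GrdE F c k₀ i ks n q X (g₀ (f 0)) (2 ^ (C * Y)) B (fun k => if k = 0 then G' else G (f k)) := by
  have hgt' := fun i : ℕ => grd_two (max D D') i
  choose Cg hCg using hgt'
  obtain ⟨C₂, hC₂⟩ : ∃ C₂ : ℕ, C₂ = ∑ i ∈ range (r + 1), Cg i := ⟨_, rfl⟩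
  refine ⟨11 * C₂ + 14, by omega, ?_⟩
  intro m J F c Dr N M C₀ a Eb ηm o η σ lv b κ z B g₀ G H W G' κ' f jj n i k₀
    ks q X Y S b' hD' hP' hGi hGb hc hi hn1 hf hst hY hY3 hn hS hSb hlv hos hSl hbl hq hqX hXq hks hX
  have hCi : Cg i ≤ C₂ := by
    rw [hC₂]
    exact Finset.single_le_sum (f := Cg) (fun _ _ => Nat.zero_le _)
      (Finset.mem_range.2 (Nat.lt_succ_of_le hi))
  have hJ : (0 : ℝ) ≤ J := Nat.cast_nonneg J
  have hC1 := W.C1
  have hηm0 : 0 ≤ ηm := (W.hη (f 0) (hf 0 (Nat.zero_le n))).1.trans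
    (W.hη (f 0) (hf 0 (Nat.zero_le n))).2
  have hY3R : (3 : ℝ) ≤ Y := by exact_mod_cast hY3
  have hηY : ηm * J ≤ Y := by
    have h1 : ηm * J ≤ C₀ * (ηm * J) := le_mul_of_one_le_left (mul_nonneg hηm0 hJ) hC1
    linarith
  have hb0 : 0 ≤ b' := hS.trans hSb
  have hci : Set.InjOn c (Set.Iio (i + 1)) := hc.mono fun y hy => by
    rw [Set.mem_Iio] at hy ⊢
    omega
  have hci' : Set.InjOn c (Set.Iio i) := hc.mono fun y hy => by
    rw [Set.mem_Iio] at hy ⊢
    omega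
  have hfs : (2 : ℝ) ^ ⌊C₀ * (ηm * J)⌋₊ ≤ 2 ^ Y := pow_le_pow_right₀ (by norm_num) (by
    have h3 : (⌊C₀ * (ηm * J)⌋₊ : ℝ) ≤ Y :=
      (Nat.floor_le (mul_nonneg (by linarith) (mul_nonneg hηm0 hJ))).trans hY
    exact_mod_cast h3)
  -- the windows
  have homon : ∀ k k', k ≤ k' → k' ≤ n → o (f k) ≤ o (f k') := by
    intro k k' hk
    induction hk with
    | refl => exact fun _ => le_rfl
    | step h ih => exact fun hk' => (ih (by omega)).trans (hst _ (by omega)).2.2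
  obtain ⟨s, hs⟩ : ∃ s : ℕ → ℝ, s = fun k => (o (f k) - o (f 0)) * J := ⟨_, rfl⟩
  have hs0 : s 0 = 0 := by rw [hs]; show (o (f 0) - o (f 0)) * (J : ℝ) = 0; rw [sub_self, zero_mul]
  have hsm : ∀ k k', k ≤ k' → k' ≤ n → s k ≤ s k' := by
    intro k k' hk hk'
    rw [hs]
    exact mul_le_mul_of_nonneg_right (by linarith [homon k k' hk hk']) hJ
  have hsd : ∀ k k', (o (f k') - o (f k)) * J = s k' - s k := by
    intro k k'
    rw [hs]
    show _ = (o (f k') - o (f 0)) * (J : ℝ) - (o (f k) - o (f 0)) * J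
    ring
  have hsnn : ∀ k ≤ n, 0 ≤ s k := fun k hk => by
    rw [← hs0]
    exact hsm 0 k (Nat.zero_le k) hk
  have hSstep : ∀ k < n, S * (s (k + 1) - s k) ≤ Y := by
    intro k hk
    have h1 := hos k hk
    rw [hsd] at h1
    exact (mul_le_mul_of_nonneg_right hSb (by linarith [hsm k (k + 1) (by omega) (by omega)])).trans
      h1
  -- the radii of the product boxes
  obtain ⟨Rr, hRr⟩ : ∃ Rr : ℕ → ℕ, Rr = fun k => q - ⌈S * s k⌉₊ := ⟨_, rfl⟩
  have hcl : ∀ k ≤ n, S * s k ≤ (⌈S * s k⌉₊ : ℝ) ∧ (⌈S * s k⌉₊ : ℝ) ≤ S * s k + 1 := by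
    intro k hk
    exact ⟨Nat.le_ceil _, (Nat.ceil_lt_add_one (mul_nonneg hS (hsnn k hk))).le⟩
  have hq' : S * s n + 3 ≤ q := by
    have := hq
    rw [hsd, hs0, sub_zero] at this
    exact this
  have hceq : ∀ k ≤ n, ⌈S * s k⌉₊ + 2 ≤ q := by
    intro k hk
    have h1 := (hcl k hk).2
    have h2 : S * s k ≤ S * s n := mul_le_mul_of_nonneg_left (hsm k n hk le_rfl) hS
    have h3 : ((⌈S * s k⌉₊ + 2 : ℕ) : ℝ) ≤ q := by
      push_cast
      linarith
    exact_mod_cast h3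
  have hRc : ∀ k ≤ n, (Rr k : ℝ) = q - ⌈S * s k⌉₊ := by
    intro k hk
    have h1 := hceq k hk
    rw [hRr]
    show ((q - ⌈S * s k⌉₊ : ℕ) : ℝ) = _
    rw [Nat.cast_sub (by omega)]
  have hR1 : ∀ k ≤ n, (Rr k : ℝ) ≤ q - S * s k := fun k hk => by
    rw [hRc k hk]
    linarith [(hcl k hk).1]
  have hR2 : ∀ k ≤ n, q - S * s k - 1 ≤ (Rr k : ℝ) := fun k hk => by
    rw [hRc k hk]
    linarith [(hcl k hk).2]
  -- the levels
  obtain ⟨L, hL⟩ : ∃ L : ℕ → ℕ → ℝ, L = fun k l => lv (f k) l * J := ⟨_, rfl⟩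
  have hLd : ∀ k k' l, (lv (f k') l - lv (f k) l) * J = L k' l - L k l := by
    intro k k' l
    rw [hL]
    show _ = lv (f k') l * (J : ℝ) - lv (f k) l * J
    ring
  have hg : ∀ k ≤ n, ∀ l ≤ i, L k l - Y ≤ (g₀ (f k) l : ℝ) ∧ (g₀ (f k) l : ℝ) ≤ L k l := by
    intro k hk l hl
    obtain ⟨-, -, a1, a2⟩ := W.g_num (hf k hk) (show l ≤ r by omega)
    rw [hL]
    exact ⟨by
      show lv (f k) l * (J : ℝ) - Y ≤ _
      linarith, a2⟩
  obtain ⟨Xk, hXk⟩ : ∃ Xk : ℕ → ℕ → ℕ, Xk = fun k l =>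
    min (⌊b (f k) l * J⌋₊ + (⌊o (f (k + 1)) * J⌋₊ - ⌊o (f k) * J⌋₊)) (g₀ (f (k + 1)) l) := ⟨_, rfl⟩
  have hXn : ∀ k < n, ∀ l ≤ i, L (k + 1) l - 3 * Y ≤ (Xk k l : ℝ) := by
    intro k hk l hl
    obtain ⟨a1, -⟩ := W.g_num (hf k hk.le) (show l ≤ r by omega)
    obtain ⟨a2, -⟩ := hg (k + 1) (by omega) l hl
    have h1 := (hlv k hk l hl).1
    rw [hLd] at h1
    have e1 : L k l = lv (f k) l * J := by rw [hL]
    rw [hXk]
    show _ ≤ ((min (⌊b (f k) l * J⌋₊ + (⌊o (f (k + 1)) * J⌋₊ - ⌊o (f k) * J⌋₊))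
      (g₀ (f (k + 1)) l) : ℕ) : ℝ)
    rw [Nat.cast_min, le_min_iff]
    constructor
    · push_cast
      have h2 : (0 : ℝ) ≤ ((⌊o (f (k + 1)) * J⌋₊ - ⌊o (f k) * J⌋₊ : ℕ) : ℝ) := Nat.cast_nonneg _
      linarith
    · linarith
  -- the chains
  obtain ⟨fm, hfm⟩ : ∃ fm : ℕ → ℕ, fm = fun k => f (min k n) := ⟨_, rfl⟩
  have hfe : ∀ k ≤ n, fm k = f k := fun k hk => by
    rw [hfm]
    show f (min k n) = f k
    rw [min_eq_left hk]
  have hfN : ∀ k, fm k ≤ N := fun k => by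
    rw [hfm]
    exact hf _ (min_le_right _ _)
  have hfm0 : fm 0 = f 0 := hfe 0 (Nat.zero_le n)
  have h25 : (2 : ℝ) ^ Y ≤ 2 ^ (10 * Y) := pow_le_pow_right₀ (by norm_num) (by omega)
  obtain ⟨ψ, hψ⟩ : ∃ ψ : F.Ω → ℕ → ℕ → MvPolynomial (Option (Fin m)) ℝ, ψ = fun ω k l =>
    Nat.casesOn k (G' (ptr F J ω) l) (fun k' => G (fm k') (ptr F J ω) l) := ⟨_, rfl⟩
  have hψ0 : ∀ ω l, ψ ω 0 l = G' (ptr F J ω) l := fun ω l => by rw [hψ]; rfl
  have hψs : ∀ ω k l, ψ ω (k + 1) l = G (fm k) (ptr F J ω) l := fun ω k l => by rw [hψ]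
  obtain ⟨Q, hQ⟩ : ∃ Q : F.Ω → ℕ → ℕ → MvPolynomial (Option (Fin m)) ℝ, Q = fun ω k l =>
    Nat.casesOn k (if l < i then G' (ptr F J ω) l - G (fm 0) (ptr F J ω) l +
      MvPolynomial.C (κ' ω l) else 0)
      (fun k' => Gno (c l) J J (fun y => G (fm k') y l) (ptr F J ω) -
        G (fm (k' + 1)) (ptr F J ω) l) := ⟨_, rfl⟩
  have hQ0 : ∀ ω l, Q ω 0 l = if l < i then G' (ptr F J ω) l - G (fm 0) (ptr F J ω) l +
      MvPolynomial.C (κ' ω l) else 0 := fun ω l => by rw [hQ]; rfl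
  have hQs : ∀ ω k l, Q ω (k + 1) l = Gno (c l) J J (fun y => G (fm k) y l) (ptr F J ω) -
        G (fm (k + 1)) (ptr F J ω) l := fun ω k l => by rw [hQ]
  obtain ⟨gg, hgg⟩ : ∃ gg : ℕ → ℕ → ℕ, gg = fun k l =>
    Nat.casesOn k (g₀ (f 0) l) (fun k' => g₀ (fm k') l) := ⟨_, rfl⟩
  have hggs : ∀ k l, gg (k + 1) l = g₀ (fm k) l := fun k l => by rw [hgg]
  obtain ⟨XX, hXX⟩ : ∃ XX : ℕ → ℕ → ℕ, XX = fun k l =>
    Nat.casesOn k (if l < i then g₀ (f 0) l else g₀ (f 0) l + q + X) (fun k' => Xk k' l) :=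
    ⟨_, rfl⟩
  have hXX0 : ∀ l, XX 0 l = if l < i then g₀ (f 0) l else g₀ (f 0) l + q + X := fun l => by
    rw [hXX]
    rfl
  have hXXs : ∀ k l, XX (k + 1) l = Xk k l := fun k l => by rw [hXX]
  obtain ⟨kk, hkk⟩ : ∃ kk : F.Ω → ℕ → ℕ → ℝ, kk = fun ω k l =>
    Nat.casesOn k (if l < i then κ' ω l else 0) (fun k' => ((ptr F J ω).1 (c l) : ℝ) / 2 ^ J -
        eval (bho J J (ptr F J ω)) (G (fm k') (ptr F J ω) l)) := ⟨_, rfl⟩
  have hkk0 : ∀ ω l, kk ω 0 l = if l < i then κ' ω l else 0 := fun ω l => by rw [hkk]; rfl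
  have hkks : ∀ ω k l, kk ω (k + 1) l = ((ptr F J ω).1 (c l) : ℝ) / 2 ^ J -
        eval (bho J J (ptr F J ω)) (G (fm k) (ptr F J ω) l) := fun ω k l => by rw [hkk]
  have hfib : ∀ ω, B ω → FibD c i (max D D') (n + 1) k₀ q (10 * Y) (ψ ω) (Q ω) gg XX (g₀ (f 0)) Rr
      (fun k => ⌊o (fm k) * J⌋₊) (kk ω) (bt F ω) := by
    intro ω hω
    have hD : ∀ k l, (G (fm k) (ptr F J ω) l).totalDegree ≤ D := fun k l =>
      (W.ev (fm k) (hfN k)).ball.degG _ l
    have hP : ∀ k l, DepC c l (G (fm k) (ptr F J ω) l) := fun k l =>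
      (W.ev (fm k) (hfN k)).ball.depG _ l
    refine ⟨hci, fun k l => ?_, fun k l => ?_, fun k l => ?_,
      fun k l => ?_, fun k hk l hl => ?_, fun k hk l hl b hb => ?_,
      fun k hk l hl => ?_, fun k hk => ?_, fun k hk k' hk' => ?_, fun k hk => ?_,
      ?_, fun k hk l hl hl0 => ?_, fun k hk k' hk' l hl hl0 => ?_⟩
    · cases k with
      | zero => rw [hψ0]; exact (hD' _ l).trans (le_max_right _ _)
      | succ k => rw [hψs]; exact (hD k l).trans (le_max_left _ _)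
    · cases k with
      | zero => rw [hψ0]; exact hP' _ l
      | succ k => rw [hψs]; exact hP k l
    · cases k with
      | zero =>
        rw [hQ0]
        split_ifs
        · refine (totalDegree_add _ _).trans (max_le ((totalDegree_sub _ _).trans (max_le
            ((hD' _ l).trans (le_max_right _ _)) ((hD 0 l).trans (le_max_left _ _)))) ?_)
          rw [totalDegree_C]
          exact Nat.zero_le _
        · rw [totalDegree_zero]
          exact Nat.zero_le _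
      | succ k =>
        rw [hQs]
        exact (totalDegree_sub _ _).trans (max_le
          ((deg_Gno (c l) (fun y => G (fm k) y l) (ptr F J ω) (hD k l)).trans (le_max_left _ _))
          ((hD (k + 1) l).trans (le_max_left _ _)))
    · intro b b' h1 h2
      cases k with
      | zero =>
        rw [hQ0]
        split_ifs
        · rw [map_add, map_add, map_sub, map_sub, hP' _ l b b' h1 h2, hP 0 l b b' h1 h2, eval_C,
            eval_C]
        · rw [map_zero, map_zero]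
      | succ k =>
        rw [hQs]
        rw [map_sub, map_sub, depC_Gno (c l) (fun y => G (fm k) y l) (ptr F J ω) (hP k l) b b' h1 h2,
          hP (k + 1) l b b' h1 h2]
    · cases k with
      | zero =>
        rw [hQ0, hψ0, hψs, hkk0]
        split_ifs with h0
        · rfl
        · have e : l = i := by omega
          subst e
          rw [hfm0, hGi ω hω, sub_self, map_zero, add_zero]
      | succ k =>
        rw [hQs, hψs, hψs, hkks]
        unfold Gno
        ring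
    · -- the boxes
      cases k with
      | zero =>
        rw [hQ0, hXX0]
        split_ifs with h0
        · have hb' : NBx c (G (fm 0) (ptr F J ω)) (g₀ (fm 0)) ⌊o (fm 0) * J⌋₊ (F.t ω) l b := by
            have e1 : ψ ω (0 + 1) = G (fm 0) (ptr F J ω) := by
              funext l'
              exact hψs ω 0 l'
            have e2 : gg (0 + 1) = g₀ (fm 0) := by
              funext l'
              exact hggs 0 l'
            rw [e1, e2] at hb
            exact hb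
          rw [hfm0] at hb' ⊢
          rw [map_add, map_sub, eval_C]
          have h1 := hGb ω hω l h0 b hb'
          have e : eval b (G' (ptr F J ω) l) - eval b (G (f 0) (ptr F J ω) l) + κ' ω l =
            eval b (G' (ptr F J ω) l) + κ' ω l - eval b (G (f 0) (ptr F J ω) l) := by ring
          rw [e]
          exact h1.trans (div_le_div_of_nonneg_right h25 (by positivity))
        · rw [map_zero, abs_zero]
          positivity
      | succ k =>
        rw [hQs, map_sub, hXXs]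
        have hb' : NBx c (G (fm (k + 1)) (ptr F J ω)) (g₀ (fm (k + 1))) ⌊o (fm (k + 1)) * J⌋₊
            (F.t ω) l b := by
          have e1 : ψ ω (k + 1 + 1) = G (fm (k + 1)) (ptr F J ω) := by
            funext l'
            exact hψs ω (k + 1) l'
          have e2 : gg (k + 1 + 1) = g₀ (fm (k + 1)) := by
            funext l'
            exact hggs (k + 1) l'
          rw [e1, e2] at hb
          exact hb
        have hk' : k < n := by omega
        rw [hfe (k + 1) (by omega)] at hb' ⊢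
        rw [hfe k hk'.le]
        have h1 := W.bal (f k) (hf k hk'.le) (f (k + 1)) (hf (k + 1) hk') (jj k) (hst k hk').1
          (Nat.floor_le_floor (mul_le_mul_of_nonneg_right (hst k hk').2.2 hJ)) (hst k hk').2.1 ω hω l
          (by omega) b hb'
        refine h1.trans ?_
        rw [hXk]
        exact div_le_div_of_nonneg_right (hfs.trans h25) (by positivity)
    · -- the positions
      rw [hψs, hggs, hfe k (by omega)]
      have h1 := (W.ev (f k) (hf k (by omega))).ball.pos ω hω l (by omega)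
      exact h1.trans (div_le_div_of_nonneg_right (one_le_pow₀ (by norm_num)) (by positivity))
    · rw [hRr]
      exact Nat.sub_le _ _
    · have h1 : (Rr k : ℝ) ≤ Rr k' := by
        rw [hRc k (by omega), hRc k' (by omega)]
        have h2 : ⌈S * s k'⌉₊ ≤ ⌈S * s k⌉₊ := Nat.ceil_le_ceil
          (mul_le_mul_of_nonneg_left (hsm k' k hk' (by omega)) hS)
        have h3 : (⌈S * s k'⌉₊ : ℝ) ≤ ⌈S * s k⌉₊ := by exact_mod_cast h2
        linarith
      exact_mod_cast h1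
    · have := hceq k (by omega)
      rw [hRr]
      show 2 ≤ q - ⌈S * s k⌉₊
      omega
    · have h1 : ((n + 1 : ℕ) : ℝ) ≤ 2 ^ Y + 2 ^ Y := by
        push_cast
        have : (1 : ℝ) ≤ 2 ^ Y := one_le_pow₀ (by norm_num)
        linarith
      refine h1.trans ?_
      rw [← two_mul, ← pow_succ']
      exact pow_le_pow_right₀ (by norm_num) (by omega)
    · rw [hggs, hfe k (by omega)]
      have h1 := (hg k (by omega) l hl.le).2
      have h2 := (hg 0 (Nat.zero_le n) l hl.le).1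
      have h3 := hR1 k (by omega)
      have h4 := hSl 0 k (by omega) (by omega) l hl hl0
      rw [hLd, hsd, hs0, sub_zero] at h4
      have h5 : ((g₀ (f k) l + Rr k : ℕ) : ℝ) ≤ ((g₀ (f 0) l + q + 10 * Y : ℕ) : ℝ) := by
        push_cast
        linarith
      exact_mod_cast h5
    · rw [hggs, hfe k (by omega)]
      have h1 := (hg k (by omega) l hl.le).2
      have h3 := hR1 k (by omega)
      have h3' := hR2 k' (by omega)
      cases k' with
      | zero =>
        rw [hXX0, if_pos hl]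
        have h2 := (hg 0 (Nat.zero_le n) l hl.le).1
        have h4 := hSl 0 k (by omega) (by omega) l hl hl0
        rw [hLd, hsd, hs0, sub_zero] at h4
        rw [hs0, mul_zero, sub_zero] at h3'
        have h5 : ((g₀ (f k) l + Rr k : ℕ) : ℝ) ≤ ((g₀ (f 0) l + Rr 0 + 10 * Y : ℕ) : ℝ) := by
          push_cast
          linarith
        exact_mod_cast h5
      | succ k' =>
        rw [hXXs]
        have h2 := hXn k' (by omega) l hl.le
        have h4 := hSl (k' + 1) k hk' (by omega) l hl hl0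
        rw [hLd, hsd] at h4
        have h5 : ((g₀ (f k) l + Rr k : ℕ) : ℝ) ≤ ((Xk k' l + Rr (k' + 1) + 10 * Y : ℕ) : ℝ) := by
          push_cast
          linarith
        exact_mod_cast h5
  -- the numbers of the target
  have hb1 : ∀ k ≤ n, b' * s k ≤ L k i - L 0 i + Y := by
    intro k hk
    have h1 := hbl k hk
    rw [hLd, hsd, hs0, sub_zero] at h1
    exact h1
  have hX0i : XX 0 i = g₀ (f 0) i + q + X := by
    rw [hXX0, if_neg (lt_irrefl i)]
  have hm1 : ∀ k < n + 1, g₀ (f 0) i + q ≤ XX k i + Rr k + 10 * Y := by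
    intro k hk
    cases k with
    | zero =>
      rw [hX0i]
      omega
    | succ k =>
      rw [hXXs]
      have h1 := (hg 0 (Nat.zero_le n) i le_rfl).2
      have h2 := hXn k (by omega) i le_rfl
      have h3 := hR2 (k + 1) (by omega)
      have h4 := hb1 (k + 1) (by omega)
      have h5 : S * s (k + 1) ≤ b' * s (k + 1) :=
        mul_le_mul_of_nonneg_right hSb (hsnn (k + 1) (by omega))
      have h6 : ((g₀ (f 0) i + q : ℕ) : ℝ) ≤ ((Xk k i + Rr (k + 1) + 10 * Y : ℕ) : ℝ) := by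
        push_cast
        linarith
      exact_mod_cast h6
  have hm2 : ∀ k < n + 1, g₀ (f 0) i + q + X ≤ XX k i + 2 * Rr k + 10 * Y := by
    intro k hk
    cases k with
    | zero =>
      rw [hX0i]
      omega
    | succ k =>
      rw [hXXs]
      have h1 := (hg 0 (Nat.zero_le n) i le_rfl).2
      have h2 := hXn k (by omega) i le_rfl
      have h3 := hR2 (k + 1) (by omega)
      have h4 := hb1 (k + 1) (by omega)
      have h7 : (X : ℝ) ≤ q := by exact_mod_cast hXq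
      have hqX' : (q : ℝ) + X ≤ b' * s n + Y := by
        have := hqX
        rw [hsd, hs0, sub_zero] at this
        exact this
      have h5 : (X : ℝ) ≤ q + (b' - 2 * S) * s (k + 1) + Y := by
        rcases le_or_gt 0 (b' - 2 * S) with h8 | h8
        · have := mul_nonneg h8 (hsnn (k + 1) (by omega))
          linarith
        · have h9 : (b' - 2 * S) * s n ≤ (b' - 2 * S) * s (k + 1) :=
            mul_le_mul_of_nonpos_left (hsm (k + 1) n (by omega) le_rfl) h8.le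
          have h10 : (b' - 2 * S) * s n = b' * s n - 2 * (S * s n) := by ring
          linarith
      have h6 : ((g₀ (f 0) i + q + X : ℕ) : ℝ) ≤ ((Xk k i + 2 * Rr (k + 1) + 10 * Y : ℕ) : ℝ) := by
        push_cast
        have h11 : (b' - 2 * S) * s (k + 1) = b' * s (k + 1) - 2 * (S * s (k + 1)) := by ring
        linarith
      exact_mod_cast h6
  have hm3 : ∀ k, ks + 1 ≤ k → k < n + 1 → g₀ (f 0) i + q + X ≤ XX k i + Rr k + 10 * Y := by
    intro k hkk hk
    cases k with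
    | zero => omega
    | succ k =>
      rw [hXXs]
      have h1 := (hg 0 (Nat.zero_le n) i le_rfl).2
      have h2 := hXn k (by omega) i le_rfl
      have h3 := hR2 (k + 1) (by omega)
      have h4 := hb1 (k + 1) (by omega)
      have h5 : (X : ℝ) ≤ (b' - S) * s ks + Y := by
        have := hX
        rw [hsd, hs0, sub_zero] at this
        exact this
      have h7 : (b' - S) * s ks ≤ (b' - S) * s (k + 1) :=
        mul_le_mul_of_nonneg_left (hsm ks (k + 1) (by omega) (by omega)) (by linarith)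
      have h8 : (b' - S) * s (k + 1) = b' * s (k + 1) - S * s (k + 1) := by ring
      have h6 : ((g₀ (f 0) i + q + X : ℕ) : ℝ) ≤ ((Xk k i + Rr (k + 1) + 10 * Y : ℕ) : ℝ) := by
        push_cast
        linarith
      exact_mod_cast h6
  have hm4 : g₀ (f 0) i + q + X ≤ g₀ (f n) i + 10 * Y := by
    have h1 := (hg 0 (Nat.zero_le n) i le_rfl).2
    have h2 := (hg n le_rfl i le_rfl).1
    have h4 := hb1 n le_rfl
    have h5 : (q : ℝ) + X ≤ b' * s n + Y := by
      have := hqX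
      rw [hsd, hs0, sub_zero] at this
      exact this
    have h6 : ((g₀ (f 0) i + q + X : ℕ) : ℝ) ≤ ((g₀ (f n) i + 10 * Y : ℕ) : ℝ) := by
      push_cast
      linarith
    exact_mod_cast h6
  -- the exponents
  have hexp : Cg i * (10 * Y + 1) ≤ C₂ * (11 * Y) :=
    Nat.mul_le_mul hCi (by omega)
  have hEx : (2 : ℝ) ^ (Cg i * (10 * Y + 1)) ≤ 2 ^ (C₂ * (11 * Y)) :=
    pow_le_pow_right₀ (by norm_num) hexp
  obtain ⟨nn, hnn⟩ : ∃ nn : F.Ω → ℕ → ℕ → ℝ, nn = fun ω k j => ncp c i (G' (ptr F J ω))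
    (G (f k) (ptr F J ω) i - G' (ptr F J ω) i) (bt F ω) j := ⟨_, rfl⟩
  have hgnh : ∀ ω j, gnh F c i (g₀ (f 0)) G' (G (f n)) ω j =
      2 ^ g₀ (f 0) i / 2 ^ g₀ (f 0) j * nn ω n j := fun ω j => by rw [hnn]; rfl
  have hu : ∀ j, (0 : ℝ) < 2 ^ g₀ (f 0) i / 2 ^ g₀ (f 0) j := fun j => by positivity
  have hψf : ∀ ω, ψ ω 0 = G' (ptr F J ω) := fun ω => by
    funext l
    exact hψ0 ω l
  -- one sample
  have hone : ∀ ω, B ω → (∀ j < i, k₀ ≤ j → |nn ω n j| ≤
        2 ^ (C₂ * (11 * Y)) * (2 ^ g₀ (f 0) j / 2 ^ g₀ (f 0) i)) ∧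
      ∀ j < i, k₀ ≤ j → |nn ω n j - nn ω ks j| ≤
        2 ^ (C₂ * (11 * Y)) * (2 ^ g₀ (f 0) j / 2 ^ (g₀ (f 0) i + X)) := by
    intro ω hω
    have h1 := hCg i (Y := X) (hfib ω hω) (y := bt F ω) rfl (fun _ _ _ => rfl) (fun j hj => by
      rw [sub_self, abs_zero]
      positivity)
    have en : fm n = f n := hfe n le_rfl
    have eks : fm ks = f ks := hfe ks hks
    have h2 := h1.1 hm1
    have h3 := h1.2.2 (ks + 1) (by omega) hm3
    simp only [hψf, hψs, en, eks] at h2 h3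
    rw [hnn]
    exact ⟨fun j hj hj0 => (h2 j hj hj0).trans (mul_le_mul_of_nonneg_right hEx (by positivity)),
      fun j hj hj0 => (h3 j hj hj0).trans (mul_le_mul_of_nonneg_right hEx (by positivity))⟩
  -- two samples
  have htwo : ∀ ω ν, B ω → B ν → F.t ω = F.t ν → (∀ l < k₀, F.x ω (c l) = F.x ν (c l)) →
      (∀ j < i, k₀ ≤ j → |hgt F c G' ω j - hgt F c G' ν j| ≤
        2 ^ 2 / 2 ^ (g₀ (f 0) j + q)) → ∀ n' ≤ n,
      (∀ l ≤ i, G' (ptr F J ω) l = G' (ptr F J ν) l) →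
      (∀ l ≤ i, G (f n') (ptr F J ω) l = G (f n') (ptr F J ν) l) →
      (∀ j < i, k₀ ≤ j → |nn ω n' j - nn ν n' j| ≤
        2 ^ (C₂ * (11 * Y)) * (2 ^ g₀ (f 0) j / 2 ^ (g₀ (f 0) i + X))) ∧
      |(eval (bt F ν) (G (f n') (ptr F J ν) i - G' (ptr F J ν) i) -
        eval (bt F ω) (G (f n') (ptr F J ω) i - G' (ptr F J ω) i)) -
        ∑ j ∈ Finset.Ico k₀ i, nn ω n' j * (hgt F c G' ν j - hgt F c G' ω j)| ≤
        2 ^ (C₂ * (11 * Y)) / 2 ^ (g₀ (f 0) i + q + X) := by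
    intro ω ν hω hν ht hx0 hh n' hn' hG0 hGn
    have en : fm n' = f n' := hfe n' hn'
    have h1 := (hCg i (Y := X) ((hfib ω hω).le (show n' + 1 ≤ n + 1 by omega)) (y := bt F ν) ht.symm
      (fun l _ hl0 => (hx0 l hl0).symm) (fun j hj => by
      rw [hψf]
      show |(F.x ν (c j) - eval (bt F ν) (G' (ptr F J ω) j)) -
        (F.x ω (c j) - eval (bt F ω) (G' (ptr F J ω) j))| ≤ _
      rcases Nat.lt_or_ge j k₀ with h0 | h0
      · have e1 : eval (bt F ν) (G' (ptr F J ω) j) = eval (bt F ω) (G' (ptr F J ω) j) :=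
          hP' _ j _ _ ht.symm fun l hl => (hx0 l (by omega)).symm
        rw [e1, hx0 j h0, sub_self, abs_zero]
        positivity
      · have h2 := hh j hj h0
        rw [abs_sub_comm] at h2
        unfold hgt at h2
        rw [← hG0 j hj.le] at h2
        exact h2)).2.1 (fun k hk => hm2 k (by omega))
    obtain ⟨h2, h3⟩ := h1
    simp only [hψf, hψs, en] at h2 h3
    have e2 : ∀ j, ncp c i (G' (ptr F J ω)) (G (f n') (ptr F J ω) i - G' (ptr F J ω) i)
        (bt F ν) j = nn ν n' j := by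
      intro j
      rw [hnn]
      show _ = ncp c i (G' (ptr F J ν)) (G (f n') (ptr F J ν) i - G' (ptr F J ν) i)
        (bt F ν) j
      rw [← hG0 i le_rfl, ← hGn i le_rfl]
      exact ncp_charts (fun l hl => hG0 l hl.le) _ _ j
    constructor
    · intro j hj hj0
      have h4 := h2 j hj hj0
      rw [← e2 j, hnn, abs_sub_comm]
      exact h4.trans (mul_le_mul_of_nonneg_right hEx (by positivity))
    · rw [← hG0 i le_rfl, ← hGn i le_rfl, hnn]
      refine le_trans (le_of_eq ?_) (h3.trans (div_le_div_of_nonneg_right hEx (by positivity)))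
      congr 2
      refine Finset.sum_congr rfl fun j hj => ?_
      rw [Finset.mem_Ico] at hj
      unfold hgt
      rw [← hG0 j hj.2.le]
      rfl
  have hexp2 : (2 : ℝ) ^ (C₂ * (11 * Y)) * 4 ≤ 2 ^ ((11 * C₂ + 14) * Y) := by
    calc (2 : ℝ) ^ (C₂ * (11 * Y)) * 4 = 2 ^ (C₂ * (11 * Y) + 2) := by rw [pow_add]; norm_num
      _ ≤ _ := pow_le_pow_right₀ (by norm_num) (by nlinarith)
  have hexp1 : (2 : ℝ) ^ (C₂ * (11 * Y)) ≤ 2 ^ ((11 * C₂ + 14) * Y) := by
    have : (0 : ℝ) < 2 ^ (C₂ * (11 * Y)) := by positivity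
    linarith
  have hnx : ∀ ω ν, B ω → B ν → F.t ω = F.t ν → (∀ l < k₀, F.x ω (c l) = F.x ν (c l)) →
      (∀ j < i, k₀ ≤ j → |hgt F c G' ω j - hgt F c G' ν j| ≤ 2 ^ 2 / 2 ^ (g₀ (f 0) j + q)) →
      (∀ l ≤ i, G' (ptr F J ω) l = G' (ptr F J ν) l) →
      (∀ l ≤ i, G (f n) (ptr F J ω) l = G (f n) (ptr F J ν) l) →
      |2 ^ (g₀ (f 0) i + q) * (hgt F c G' ω i - hgt F c G' ν i) -
          ∑ j ∈ Finset.Ico k₀ i, gnh F c i (g₀ (f 0)) G' (G (f n)) ω j *
            (2 ^ (g₀ (f 0) j + q) * (hgt F c G' ω j - hgt F c G' ν j))| ≤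
        2 ^ ((11 * C₂ + 14) * Y) / 2 ^ X := by
    intro ω ν hω hν ht hx0 hh hGG1 hGG2
    have h3 := (htwo ω ν hω hν ht hx0 hh n le_rfl hGG1 hGG2).2
    have hpx := (W.ev (f n) (hf n le_rfl)).ball.pos ω hω i (by omega)
    have hpy := (W.ev (f n) (hf n le_rfl)).ball.pos ν hν i (by omega)
    have e1 : 2 ^ (g₀ (f 0) i + q) * (hgt F c G' ω i - hgt F c G' ν i) -
          ∑ j ∈ Finset.Ico k₀ i, gnh F c i (g₀ (f 0)) G' (G (f n)) ω j *
            (2 ^ (g₀ (f 0) j + q) * (hgt F c G' ω j - hgt F c G' ν j)) =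
        -(2 ^ (g₀ (f 0) i + q) * ((eval (bt F ν) (G (f n) (ptr F J ν) i -
          G' (ptr F J ν) i) - eval (bt F ω) (G (f n) (ptr F J ω) i -
          G' (ptr F J ω) i)) - ∑ j ∈ Finset.Ico k₀ i, nn ω n j *
            (hgt F c G' ν j - hgt F c G' ω j))) +
        2 ^ (g₀ (f 0) i + q) * (F.x ω (c i) - eval (bt F ω) (G (f n) (ptr F J ω) i)) -
        2 ^ (g₀ (f 0) i + q) * (F.x ν (c i) - eval (bt F ν) (G (f n) (ptr F J ν) i)) := by
      have e2 : ∑ j ∈ Finset.Ico k₀ i, gnh F c i (g₀ (f 0)) G' (G (f n)) ω j *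
            (2 ^ (g₀ (f 0) j + q) * (hgt F c G' ω j - hgt F c G' ν j)) =
          -(2 ^ (g₀ (f 0) i + q) * ∑ j ∈ Finset.Ico k₀ i, nn ω n j *
            (hgt F c G' ν j - hgt F c G' ω j)) := by
        rw [Finset.mul_sum, ← Finset.sum_neg_distrib]
        refine Finset.sum_congr rfl fun j _ => ?_
        rw [hgnh, pow_add, pow_add]
        field_simp
        ring
      rw [e2]
      unfold hgt
      rw [map_sub, map_sub]
      ring
    rw [e1]
    have hA : (0 : ℝ) < 2 ^ (g₀ (f 0) i + q) := by positivity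
    have f1 : |2 ^ (g₀ (f 0) i + q) * ((eval (bt F ν) (G (f n) (ptr F J ν) i -
          G' (ptr F J ν) i) - eval (bt F ω) (G (f n) (ptr F J ω) i -
          G' (ptr F J ω) i)) - ∑ j ∈ Finset.Ico k₀ i, nn ω n j *
            (hgt F c G' ν j - hgt F c G' ω j))| ≤
        2 ^ (C₂ * (11 * Y)) / 2 ^ X := by
      rw [abs_mul, abs_of_pos hA]
      refine (mul_le_mul_of_nonneg_left h3 hA.le).trans (le_of_eq ?_)
      rw [pow_add 2 (g₀ (f 0) i + q) X]
      field_simp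
    have f2 : ∀ v : ℝ, |v| ≤ 1 / 2 ^ g₀ (f n) i → |2 ^ (g₀ (f 0) i + q) * v| ≤
        2 ^ (10 * Y) / 2 ^ X := by
      intro v hv
      rw [abs_mul, abs_of_pos hA]
      refine (mul_le_mul_of_nonneg_left hv hA.le).trans ?_
      rw [mul_one_div, div_le_div_iff₀ (by positivity) (by positivity), ← pow_add, ← pow_add]
      exact pow_le_pow_right₀ (by norm_num) (by omega)
    rw [← abs_neg] at f1
    refine (abs_sub _ _).trans ((add_le_add ((abs_add_le _ _).trans (add_le_add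
      f1 (f2 _ hpx))) (f2 _ hpy)).trans ?_)
    rw [← add_div, ← add_div]
    refine div_le_div_of_nonneg_right ?_ (by positivity)
    have g1 : (2 : ℝ) ^ (C₂ * (11 * Y)) ≤ 2 ^ ((11 * C₂ + 10) * Y) :=
      pow_le_pow_right₀ (by norm_num) (by nlinarith)
    have g2 : (2 : ℝ) ^ (10 * Y) ≤ 2 ^ ((11 * C₂ + 10) * Y) :=
      pow_le_pow_right₀ (by norm_num) (by nlinarith)
    have g3 : 4 * (2 : ℝ) ^ ((11 * C₂ + 10) * Y) ≤ 2 ^ ((11 * C₂ + 14) * Y) := by
      calc 4 * (2 : ℝ) ^ ((11 * C₂ + 10) * Y) = 2 ^ ((11 * C₂ + 10) * Y + 2) := by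
            rw [pow_add]
            ring
        _ ≤ _ := pow_le_pow_right₀ (by norm_num) (by nlinarith)
    have g4 : (0 : ℝ) < 2 ^ ((11 * C₂ + 10) * Y) := by positivity
    linarith
  have hbm : ∀ ω, B ω → ∀ j < i, k₀ ≤ j →
      |gnh F c i (g₀ (f 0)) G' (G (f n)) ω j| ≤ 2 ^ (C₂ * (11 * Y)) := by
    intro ω hω j hj hj0
    rw [hgnh, abs_mul, abs_of_pos (hu j)]
    refine (mul_le_mul_of_nonneg_left ((hone ω hω).1 j hj hj0) (hu j).le).trans ?_
    refine le_of_eq ?_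
    field_simp
  have hbj : ∀ ω ν, B ω → B ν → F.t ω = F.t ν → (∀ l < k₀, F.x ω (c l) = F.x ν (c l)) →
      (∀ j < i, k₀ ≤ j → |hgt F c G' ω j - hgt F c G' ν j| ≤ 2 ^ 2 / 2 ^ (g₀ (f 0) j + q)) →
      (∀ l ≤ i, G' (ptr F J ω) l = G' (ptr F J ν) l) → ∀ n' ≤ n, ks ≤ n' →
      (∀ l ≤ i, G (f n') (ptr F J ω) l = G (f n') (ptr F J ν) l) →
      (n' = ks ∨ n' = n) → ∀ j < i, k₀ ≤ j →
      |gnh F c i (g₀ (f 0)) G' (G (f n)) ω j - gnh F c i (g₀ (f 0)) G' (G (f n)) ν j| ≤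
        2 ^ ((11 * C₂ + 14) * Y) / 2 ^ X := by
    intro ω ν hω hν ht hx0 hh hGG1 n' hn' hkn' hGG2 hor j hj hj0
    rw [hgnh, hgnh, ← mul_sub, abs_mul, abs_of_pos (hu j)]
    have h4 : |nn ω n j - nn ν n j| ≤ 3 * (2 ^ (C₂ * (11 * Y)) *
        (2 ^ g₀ (f 0) j / 2 ^ (g₀ (f 0) i + X))) := by
      have h3 := (htwo ω ν hω hν ht hx0 hh n' hn' hGG1 hGG2).1 j hj hj0
      have h0 : (0 : ℝ) ≤ 2 ^ (C₂ * (11 * Y)) * (2 ^ g₀ (f 0) j / 2 ^ (g₀ (f 0) i + X)) := by
        positivity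
      rcases hor with e | e
      · subst e
        have h1 := (hone ω hω).2 j hj hj0
        have h2 := (hone ν hν).2 j hj hj0
        have e1 : nn ω n j - nn ν n j = (nn ω n j - nn ω n' j) + (nn ω n' j - nn ν n' j) -
            (nn ν n j - nn ν n' j) := by ring
        rw [e1]
        refine (abs_sub _ _).trans ((add_le_add ((abs_add_le _ _).trans (add_le_add h1 h3))
          h2).trans (le_of_eq (by ring)))
      · subst e
        linarith
    refine (mul_le_mul_of_nonneg_left h4 (hu j).le).trans ?_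
    calc (2 : ℝ) ^ g₀ (f 0) i / 2 ^ g₀ (f 0) j * (3 * (2 ^ (C₂ * (11 * Y)) *
          (2 ^ g₀ (f 0) j / 2 ^ (g₀ (f 0) i + X)))) = 2 ^ (C₂ * (11 * Y)) * 3 / 2 ^ X := by
          rw [pow_add 2 (g₀ (f 0) i)]
          field_simp
      _ ≤ _ := div_le_div_of_nonneg_right (by
          have : (0 : ℝ) < 2 ^ (C₂ * (11 * Y)) := by positivity
          linarith) (by positivity)
  obtain ⟨GG, hGd⟩ : ∃ GG : ℕ → PtT F → ℕ → MvPolynomial (Option (Fin m)) ℝ,
    GG = fun k => if k = 0 then G' else G (f k) := ⟨_, rfl⟩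
  have hE0 : GG 0 = G' := by
    rw [hGd]
    exact if_pos rfl
  have hEp : ∀ k, k ≠ 0 → GG k = G (f k) := fun k hk => by
    rw [hGd]
    exact if_neg hk
  have hEn : GG n = G (f n) := hEp n (by omega)
  rw [← hGd]
  refine ⟨by positivity, ?_, ?_, ?_, ?_⟩
  · intro ω hω j hj hj0
    rw [hE0, hEn]
    exact (hbm ω hω j hj hj0).trans hexp1
  · intro ω ν hω hν ht hx0 hh hGG j hj hj0
    rw [hE0] at hh
    rw [hE0, hEn]
    have hGG0 : ∀ l ≤ i, G' (ptr F J ω) l = G' (ptr F J ν) l := by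
      intro l hl
      have := hGG 0 (Nat.zero_le _) l hl
      rw [hE0] at this
      exact this
    rcases Nat.eq_zero_or_pos ks with h0 | h0
    · -- the trivial case
      subst h0
      have hXY : (X : ℝ) ≤ Y := by
        have := hX
        rw [sub_self, zero_mul, mul_zero, zero_add] at this
        exact this
      have hXYn : X ≤ Y := by exact_mod_cast hXY
      have h1 := hbm ω hω j hj hj0
      have h2 := hbm ν hν j hj hj0
      refine (abs_sub _ _).trans ((add_le_add h1 h2).trans ?_)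
      rw [le_div_iff₀ (by positivity)]
      calc ((2 : ℝ) ^ (C₂ * (11 * Y)) + 2 ^ (C₂ * (11 * Y))) * 2 ^ X =
          2 ^ (C₂ * (11 * Y) + 1 + X) := by
            rw [pow_add, pow_add]
            ring
        _ ≤ _ := pow_le_pow_right₀ (by norm_num) (by nlinarith)
    · refine hbj ω ν hω hν ht hx0 hh hGG0 ks hks le_rfl (fun l hl => ?_) (Or.inl rfl) j hj hj0
      have := hGG ks le_rfl l hl
      rw [hEp ks (by omega)] at this
      exact this
  · intro ω ν hω hν ht hx0 hh hGG j hj hj0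
    rw [hE0] at hh
    rw [hE0, hEn]
    refine hbj ω ν hω hν ht hx0 hh (fun l hl => ?_) n le_rfl hks (fun l hl => ?_) (Or.inr rfl) j
      hj hj0
    · have := hGG 0 (Nat.zero_le _) l hl
      rw [hE0] at this
      exact this
    · have := hGG n le_rfl l hl
      rw [hEn] at this
      exact this
  · intro ω ν hω hν ht hx0 hh hGG
    rw [hE0] at hh
    rw [hE0, hEn]
    refine hnx ω ν hω hν ht hx0 hh (fun l hl => ?_) (fun l hl => ?_)
    · have := hGG 0 (Nat.zero_le _) l hl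
      rw [hE0] at this
      exact this
    · have := hGG n le_rfl l hl
      rw [hEn] at this
      exact this

end Pool.D2R
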