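import Pool.Agent.H50.V0F.Kap
import Pool.Agent.H57.AVG.Adm
import Pool.Agent.H23.D2.Bgf

/-!
# Hybrid charts

`hyb`: the charts of an earlier window for the chain, the chart of the window for the target.
`v0_near`: they are near the charts of the window, up to constants (slopes one). `v0_grd`: the
relative gradient with the hybrid charts over the first window. `hyb_cls`: they are closed.
-/

set_option autoImplicit false

namespace Pool.D2R

open Finset Real MvPolynomial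
open Pool.Agent.H49.Ent Pool.Agent.H32.Dense Pool.STK Pool.KA Pool.KSAT Pool.K2S Pool.PB Pool.S6C
open Pool.GEN Pool.CHT Pool.CHX Pool.ISO
open Pool.FLF (Fam.sub)

variable {m J : ℕ}

/-- **The hybrid charts**: the charts of the window `kb` for the places below `i`, the chart of the
window `kw` for the others. -/
def hyb {m J : ℕ} {F : Fam m J} (G : ℕ → PtT F → ℕ → MvPolynomial (Option (Fin m)) ℝ)
    (kb kw i : ℕ) : PtT F → ℕ → MvPolynomial (Option (Fin m)) ℝ := fun y l =>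
  if l < i then G kb y l else G kw y l

/-- The hybrid charts from the line in a window `W`; `wb`, `w`: the two windows. -/
def hybH {m J : ℕ} {F : Fam m J} (H : ℕ → LnT F → ℕ → MvPolynomial (Option (Fin m)) ℝ)
    (kb kw i wb w W : ℕ) : LnT F → ℕ → MvPolynomial (Option (Fin m)) ℝ := fun s l =>
  if l < i then H kb (Pool.AVG57.upw wb W s) l else H kw (Pool.AVG57.upw w W s) l

section

variable {F : Fam m J} {c : ℕ → Fin m} {r D Dr N M : ℕ} {C₀ a Eb ηm : ℝ} {o η σ : ℕ → ℝ}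
  {lv b : ℕ → ℕ → ℝ} {κ : ℝ} {z : ℕ → ℕ → ℕ} {B : F.Ω → Prop} {g₀ : ℕ → ℕ → ℕ}
  {G : ℕ → PtT F → ℕ → MvPolynomial (Option (Fin m)) ℝ}
  {H : ℕ → LnT F → ℕ → MvPolynomial (Option (Fin m)) ℝ}

theorem hyb_lo (G : ℕ → PtT F → ℕ → MvPolynomial (Option (Fin m)) ℝ) {kb kw i l : ℕ} (h : l < i)
    (y : PtT F) : hyb G kb kw i y l = G kb y l := if_pos h

theorem hyb_hi (G : ℕ → PtT F → ℕ → MvPolynomial (Option (Fin m)) ℝ) {kb kw i l : ℕ} (h : i ≤ l)
    (y : PtT F) : hyb G kb kw i y l = G kw y l := if_neg (by omega)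

theorem hyb_deg (W : WinB F c r D Dr N M C₀ a Eb ηm o η σ lv b κ z B g₀ G H) {kb kw i : ℕ}
    (hb : kb ≤ N) (hw : kw ≤ N) (y : PtT F) (l : ℕ) : (hyb G kb kw i y l).totalDegree ≤ D := by
  unfold hyb
  split_ifs
  · exact (W.ev kb hb).ball.degG y l
  · exact (W.ev kw hw).ball.degG y l

theorem hyb_dep (W : WinB F c r D Dr N M C₀ a Eb ηm o η σ lv b κ z B g₀ G H) {kb kw i : ℕ}
    (hb : kb ≤ N) (hw : kw ≤ N) (y : PtT F) (l : ℕ) : DepC c l (hyb G kb kw i y l) := by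
  unfold hyb
  split_ifs
  · exact (W.ev kb hb).ball.depG y l
  · exact (W.ev kw hw).ball.depG y l

theorem hybH_deg (W : WinB F c r D Dr N M C₀ a Eb ηm o η σ lv b κ z B g₀ G H)
    {kb kw i wb w W' : ℕ} (hb : kb ≤ N) (hw : kw ≤ N) (s : LnT F) (l : ℕ) :
    (hybH H kb kw i wb w W' s l).totalDegree ≤ D := by
  unfold hybH
  split_ifs
  · exact (W.ev kb hb).ball.degH _ l
  · exact (W.ev kw hw).ball.degH _ l

theorem hybH_dep (W : WinB F c r D Dr N M C₀ a Eb ηm o η σ lv b κ z B g₀ G H)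
    {kb kw i wb w W' : ℕ} (hb : kb ≤ N) (hw : kw ≤ N) (s : LnT F) (l : ℕ) :
    DepC c l (hybH H kb kw i wb w W' s l) := by
  unfold hybH
  split_ifs
  · exact (W.ev kb hb).ball.depH _ l
  · exact (W.ev kw hw).ball.depH _ l

/-- **The hybrid charts are closed.** -/
theorem hyb_cls (W : WinB F c r D Dr N M C₀ a Eb ηm o η σ lv b κ z B g₀ G H) {kb kw i W' : ℕ}
    (hb : kb ≤ N) (hw : kw ≤ N) (hir : i ≤ r) (hW1 : ⌊o kb * J⌋₊ ≤ W') (hW2 : ⌊o kw * J⌋₊ ≤ W')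
    (hWJ : W' ≤ J) {ω : F.Ω} (hω : B ω) {l : ℕ} (hl : l ≤ i) :
    hyb G kb kw i (ptr F J ω) l = hybH H kb kw i ⌊o kb * J⌋₊ ⌊o kw * J⌋₊ W' (slam F W' ω) l := by
  unfold hyb hybH
  split_ifs
  · rw [Pool.AVG57.upw_slam F hW1 hWJ]
    exact (W.ev kb hb).cls ω hω l (by omega)
  · rw [Pool.AVG57.upw_slam F hW2 hWJ]
    exact (W.ev kw hw).cls ω hω l (by omega)

end

/-- **The charts of an earlier window are near those of a later one**, up to constants, if the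
slopes are one between them. -/
theorem v0_near (D i : ℕ) : ∃ C : ℕ, 1 ≤ C ∧ ∀ {m J : ℕ} {F : Fam m J} {c : ℕ → Fin m}
    {r Dr N M : ℕ} {C₀ a Eb ηm : ℝ} {o η σ : ℕ → ℝ} {lv b : ℕ → ℕ → ℝ} {κ : ℝ}
    {z : ℕ → ℕ → ℕ} {B : F.Ω → Prop} {g₀ : ℕ → ℕ → ℕ}
    {G : ℕ → PtT F → ℕ → MvPolynomial (Option (Fin m)) ℝ}
    {H : ℕ → LnT F → ℕ → MvPolynomial (Option (Fin m)) ℝ}
    (_ : WinB F c r D Dr N M C₀ a Eb ηm o η σ lv b κ z B g₀ G H) {fb jb : ℕ → ℕ} {nb Y : ℕ},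
    Set.InjOn c (Set.Iio (r + 1)) → i ≤ r → (∀ k ≤ nb, fb k ≤ N) →
    (∀ k < nb, jb k ≤ M ∧ z (fb k) (jb k) = ⌊o (fb (k + 1)) * J⌋₊ - ⌊o (fb k) * J⌋₊ ∧
      o (fb k) ≤ o (fb (k + 1))) →
    C₀ * (ηm * J) ≤ Y → 3 ≤ Y → (nb : ℝ) ≤ 2 ^ Y →
    (∀ k ≤ nb, ∀ l < i, (lv (fb k) l - o (fb k) - (lv (fb nb) l - o (fb nb))) * J ≤ Y ∧
      (lv (fb nb) l - o (fb nb) - (lv (fb k) l - o (fb k))) * J ≤ Y) →
    ∃ κ' : F.Ω → ℕ → ℝ, (∀ ω, κ' ω i = 0) ∧ ∀ ω, B ω → ∀ l ≤ i, ∀ x,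
      NBx c (G (fb nb) (ptr F J ω)) (g₀ (fb nb)) ⌊o (fb nb) * J⌋₊ (F.t ω) l x →
      |eval x (hyb G (fb 0) (fb nb) i (ptr F J ω) l) + κ' ω l -
        eval x (G (fb nb) (ptr F J ω) l)| ≤ 2 ^ (C * Y) / 2 ^ g₀ (fb nb) l := by
  obtain ⟨C, hC⟩ := Pool.V0F.t_kap D i
  refine ⟨4 * C + 1, by omega, ?_⟩
  intro m J F c r Dr N M C₀ a Eb ηm o η σ lv b κ z B g₀ G H W fb jb nb Y hc hir hf hst hY hY3 hn
    hsl
  have hJ : (0 : ℝ) ≤ J := Nat.cast_nonneg J
  have hη0 : 0 ≤ ηm := (W.hη (fb 0) (hf 0 (Nat.zero_le _))).1.trans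
    (W.hη (fb 0) (hf 0 (Nat.zero_le _))).2
  have hηY : ηm * J ≤ Y := (le_mul_of_one_le_left (mul_nonneg hη0 hJ) W.C1).trans (by
    linarith)
  have hY3R : (3 : ℝ) ≤ Y := by exact_mod_cast hY3
  have hci : Set.InjOn c (Set.Iio i) := hc.mono fun y hy => by
    rw [Set.mem_Iio] at hy ⊢
    omega
  -- monotone windows
  have hmono : ∀ k k', k ≤ k' → k' ≤ nb → o (fb k) ≤ o (fb k') := by
    intro k k' hkk
    induction k', hkk using Nat.le_induction with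
    | base => intro _; exact le_rfl
    | succ k' hk' ih =>
      intro h
      exact (ih (by omega)).trans (hst k' (by omega)).2.2
  have hfo : ∀ k ≤ nb, (⌊o (fb k) * J⌋₊ : ℝ) ≤ o (fb k) * J := fun k hk =>
    Nat.floor_le (mul_nonneg (W.ho _ (hf k hk)).1 hJ)
  have hfo' : ∀ k, o (fb k) * J ≤ (⌊o (fb k) * J⌋₊ : ℝ) + 1 := fun k =>
    (Nat.lt_floor_add_one _).le
  have hfm : ∀ k k', k ≤ k' → k' ≤ nb → ⌊o (fb k) * J⌋₊ ≤ ⌊o (fb k') * J⌋₊ := fun k k' h1 h2 =>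
    Nat.floor_le_floor (mul_le_mul_of_nonneg_right (hmono k k' h1 h2) hJ)
  have hmin : ∀ k, min k nb ≤ nb := fun k => min_le_right _ _
  have hpt : ∀ ω : F.Ω, B ω → ∃ κ' : ℕ → ℝ, ∀ l < i, ∀ x,
      NBx c (G (fb nb) (ptr F J ω)) (g₀ (fb nb)) ⌊o (fb nb) * J⌋₊ (F.t ω) l x →
      |eval x (G (fb 0) (ptr F J ω) l) + κ' l - eval x (G (fb nb) (ptr F J ω) l)| ≤
        2 ^ (C * (3 * Y + 1)) / 2 ^ g₀ (fb nb) l := by
    intro ω hω
    have h1 := hC (m := m) (c := c) (n := nb) (P := 3 * Y)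
      (ψ := fun k l => G (fb (min k nb)) (ptr F J ω) l)
      (g := fun k l => g₀ (fb (min k nb)) l)
      (X := fun k l => min (⌊b (fb (min k nb)) l * J⌋₊ + (⌊o (fb (min (k + 1) nb)) * J⌋₊ -
        ⌊o (fb (min k nb)) * J⌋₊)) (g₀ (fb (min (k + 1) nb)) l))
      (a := fun k => ⌊o (fb (min k nb)) * J⌋₊)
      (s := fun k => ⌊o (fb nb) * J⌋₊ - ⌊o (fb (min (k + 1) nb)) * J⌋₊)
      (κ := fun k l => ((ptr F J ω).1 (c l) : ℝ) / 2 ^ J -
        eval (bho J J (ptr F J ω)) (G (fb (min k nb)) (ptr F J ω) l)) (x := bt F ω) hci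
      (fun k l => (W.ev _ (hf _ (hmin k))).ball.degG _ l)
      (fun k l => (W.ev _ (hf _ (hmin k))).ball.depG _ l) (hn.trans
        (pow_le_pow_right₀ (by norm_num) (by omega))) (fun k hk l hl x hx => by
      have e1 : min k nb = k := by omega
      have e2 : min (k + 1) nb = k + 1 := by omega
      simp only [e1, e2] at hx ⊢
      obtain ⟨h1, h2, h3⟩ := hst k hk
      have h4 := W.bal (fb k) (hf k (by omega)) (fb (k + 1)) (hf (k + 1) (by omega)) (jb k) h1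
        (hfm k (k + 1) (by omega) (by omega)) h2 ω hω l (by omega) x hx
      have h5 : eval x (Gno (c l) J J (fun y => G (fb k) y l) (ptr F J ω)) =
          eval x (G (fb k) (ptr F J ω) l) + (((ptr F J ω).1 (c l) : ℝ) / 2 ^ J -
            eval (bho J J (ptr F J ω)) (G (fb k) (ptr F J ω) l)) := by
        unfold Gno
        rw [map_add, eval_C]
      rw [h5] at h4
      refine h4.trans (div_le_div_of_nonneg_right (pow_le_pow_right₀ (by norm_num) ?_)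
        (by positivity))
      have h6 : (⌊C₀ * (ηm * J)⌋₊ : ℝ) ≤ Y :=
        (Nat.floor_le (mul_nonneg (by linarith [W.C1]) (mul_nonneg hη0 hJ))).trans hY
      have h7 : ⌊C₀ * (ηm * J)⌋₊ ≤ Y := by exact_mod_cast h6
      omega)
      (fun k hk l hl => by
      have e1 : min k nb = k := by omega
      simp only [e1]
      refine ((W.ev _ (hf k hk)).ball.pos ω hω l (by omega)).trans
        (div_le_div_of_nonneg_right (one_le_pow₀ (by norm_num)) (by positivity)))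
      (fun k hk => by
      have e2 : min (k + 1) nb = k + 1 := by omega
      have e3 : min nb nb = nb := by omega
      simp only [e2, e3]
      have := hfm (k + 1) nb (by omega) le_rfl
      omega)
      (fun k hk l hl => by
      have e2 : min (k + 1) nb = k + 1 := by omega
      have e3 : min nb nb = nb := by omega
      simp only [e2, e3]
      have h1 := hfm (k + 1) nb (by omega) le_rfl
      obtain ⟨-, -, -, h2⟩ := W.g_num (hf (k + 1) (by omega)) (show l ≤ r by omega)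
      obtain ⟨-, -, h3, -⟩ := W.g_num (hf nb le_rfl) (show l ≤ r by omega)
      have h4 := (hsl (k + 1) (by omega) l hl).1
      have h5 := hfo nb le_rfl
      have h6 := hfo' (k + 1)
      have h7 : ((g₀ (fb (k + 1)) l + (⌊o (fb nb) * J⌋₊ - ⌊o (fb (k + 1)) * J⌋₊) : ℕ) : ℝ) ≤
          ((g₀ (fb nb) l + 3 * Y : ℕ) : ℝ) := by
        rw [Nat.cast_add, Nat.cast_sub h1]
        push_cast
        linarith
      exact_mod_cast h7)
      (fun k hk l hl => by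
      have e1 : min k nb = k := by omega
      have e2 : min (k + 1) nb = k + 1 := by omega
      have e3 : min nb nb = nb := by omega
      simp only [e1, e2, e3]
      have h1 := hfm (k + 1) nb (by omega) le_rfl
      have h1' := hfm k (k + 1) (by omega) (by omega)
      obtain ⟨h8, -, -, -⟩ := W.g_num (hf k (by omega)) (show l ≤ r by omega)
      obtain ⟨-, -, h2, -⟩ := W.g_num (hf (k + 1) (by omega)) (show l ≤ r by omega)
      obtain ⟨-, -, -, h3⟩ := W.g_num (hf nb le_rfl) (show l ≤ r by omega)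
      have h4 := (hsl (k + 1) (by omega) l hl).2
      have h4' := (hsl k (by omega) l hl).2
      have h5 := hfo (k + 1) (by omega)
      have h6 := hfo' nb
      have h9 := hfo k (by omega)
      rcases min_choice (⌊b (fb k) l * J⌋₊ + (⌊o (fb (k + 1)) * J⌋₊ - ⌊o (fb k) * J⌋₊))
        (g₀ (fb (k + 1)) l) with h10 | h10
      · rw [h10]
        have h7 : (g₀ (fb nb) l : ℝ) ≤ ((⌊b (fb k) l * J⌋₊ + (⌊o (fb (k + 1)) * J⌋₊ -
            ⌊o (fb k) * J⌋₊) + (⌊o (fb nb) * J⌋₊ - ⌊o (fb (k + 1)) * J⌋₊) + 3 * Y : ℕ) : ℝ) := by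
          rw [Nat.cast_add, Nat.cast_add, Nat.cast_add, Nat.cast_sub h1, Nat.cast_sub h1']
          push_cast
          linarith
        exact_mod_cast h7
      · rw [h10]
        have h7 : (g₀ (fb nb) l : ℝ) ≤ ((g₀ (fb (k + 1)) l + (⌊o (fb nb) * J⌋₊ -
            ⌊o (fb (k + 1)) * J⌋₊) + 3 * Y : ℕ) : ℝ) := by
          rw [Nat.cast_add, Nat.cast_add, Nat.cast_sub h1]
          push_cast
          linarith
        exact_mod_cast h7)
    obtain ⟨κ', h2⟩ := h1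
    refine ⟨κ', fun l hl x hx => ?_⟩
    have e0 : min 0 nb = 0 := by omega
    have e3 : min nb nb = nb := by omega
    have h3 := h2 l hl x (by
      simp only [e3]
      exact hx)
    simp only [e0, e3] at h3
    exact h3
  classical
  choose! κ₁ hκ₁ using hpt
  refine ⟨fun ω l => if l < i then κ₁ ω l else 0, fun ω => if_neg (lt_irrefl _),
    fun ω hω l hl x hx => ?_⟩
  rcases Nat.lt_or_ge l i with h | h
  · rw [hyb_lo G h]
    simp only [if_pos h]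
    refine (hκ₁ ω hω l h x hx).trans (div_le_div_of_nonneg_right (pow_le_pow_right₀ (by norm_num)
      ?_) (by positivity))
    nlinarith
  · rw [hyb_hi G h]
    simp only [if_neg (show ¬ l < i by omega)]
    rw [add_zero, sub_self, abs_zero]
    positivity

/-- **The relative gradient with hybrid charts over the first window** `f 0 = fb nb`; `fb 0`: the
earlier window. -/
theorem v0_grd (D r : ℕ) : ∃ C : ℕ, 1 ≤ C ∧ ∀ {m J : ℕ} {F : Fam m J} {c : ℕ → Fin m}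
    {Dr N M : ℕ} {C₀ a Eb ηm : ℝ} {o η σ : ℕ → ℝ} {lv b : ℕ → ℕ → ℝ} {κ : ℝ}
    {z : ℕ → ℕ → ℕ} {B : F.Ω → Prop} {g₀ : ℕ → ℕ → ℕ}
    {G : ℕ → PtT F → ℕ → MvPolynomial (Option (Fin m)) ℝ}
    {H : ℕ → LnT F → ℕ → MvPolynomial (Option (Fin m)) ℝ}
    (_ : WinB F c r D Dr N M C₀ a Eb ηm o η σ lv b κ z B g₀ G H)
    {fb jb f jj : ℕ → ℕ} {nb n i k₀ ks q X Y : ℕ} {S b' : ℝ},
    (∀ k ≤ nb, fb k ≤ N) →
    (∀ k < nb, jb k ≤ M ∧ z (fb k) (jb k) = ⌊o (fb (k + 1)) * J⌋₊ - ⌊o (fb k) * J⌋₊ ∧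
      o (fb k) ≤ o (fb (k + 1))) → (nb : ℝ) ≤ 2 ^ Y →
    (∀ k ≤ nb, ∀ l < i, (lv (fb k) l - o (fb k) - (lv (fb nb) l - o (fb nb))) * J ≤ Y ∧
      (lv (fb nb) l - o (fb nb) - (lv (fb k) l - o (fb k))) * J ≤ Y) → f 0 = fb nb →
    Set.InjOn c (Set.Iio (r + 1)) → i ≤ r → 1 ≤ n → (∀ k ≤ n, f k ≤ N) →
    (∀ k < n, jj k ≤ M ∧ z (f k) (jj k) = ⌊o (f (k + 1)) * J⌋₊ - ⌊o (f k) * J⌋₊ ∧
      o (f k) ≤ o (f (k + 1))) →
    C₀ * (ηm * J) ≤ Y → 3 ≤ Y → (n : ℝ) ≤ 2 ^ Y → 0 ≤ S → S ≤ b' →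
    (∀ k < n, ∀ l ≤ i, (lv (f (k + 1)) l - lv (f k) l) * J ≤ Y ∧
      (lv (f k) l - lv (f (k + 1)) l) * J ≤ Y) →
    (∀ k < n, b' * ((o (f (k + 1)) - o (f k)) * J) ≤ Y) →
    (∀ k k', k ≤ k' → k' ≤ n → ∀ l < i, k₀ ≤ l →
      (lv (f k') l - lv (f k) l) * J ≤ S * ((o (f k') - o (f k)) * J) + Y) →
    (∀ k ≤ n, b' * ((o (f k) - o (f 0)) * J) ≤ (lv (f k) i - lv (f 0) i) * J + Y) →
    S * ((o (f n) - o (f 0)) * J) + 3 ≤ q →
    (q : ℝ) + X ≤ b' * ((o (f n) - o (f 0)) * J) + Y → X ≤ q → ks ≤ n →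
    (X : ℝ) ≤ (b' - S) * ((o (f ks) - o (f 0)) * J) + Y →
    GrdE F c k₀ i ks n q X (g₀ (f 0)) (2 ^ (C * Y)) B
      (fun k => if k = 0 then hyb G (fb 0) (f 0) i else G (f k)) := by
  have hn := fun i : ℕ => v0_near D i
  choose Cn hCn hnear using hn
  obtain ⟨C₁, hC₁⟩ : ∃ C₁ : ℕ, C₁ = ∑ i ∈ range (r + 1), Cn i := ⟨_, rfl⟩
  obtain ⟨C₂, hC₂, hgrd⟩ := winb_grdF D D r
  refine ⟨C₂ * (C₁ + 1), Nat.mul_pos (by omega) (by omega), ?_⟩
  intro m J F c Dr N M C₀ a Eb ηm o η σ lv b κ z B g₀ G H W fb jb f jj nb n i k₀ ks q X Y S b'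
    hfb hstb hnb hslb hf0 hc hi hn1 hf hst hY hY3 hn hS hSb hlv hos hSl hbl hq hqX hXq hks hX
  have hCi : Cn i ≤ C₁ := by
    rw [hC₁]
    exact Finset.single_le_sum (f := Cn) (fun _ _ => Nat.zero_le _)
      (Finset.mem_range.2 (Nat.lt_succ_of_le hi))
  obtain ⟨κ', -, hκ'⟩ := hnear i W hc hi hfb hstb hY hY3 hnb hslb
  rw [← hf0] at hκ'
  obtain ⟨Y', hY'⟩ : ∃ Y' : ℕ, Y' = (C₁ + 1) * Y := ⟨_, rfl⟩
  have hYY : Y ≤ Y' := by rw [hY']; nlinarith
  have hYYR : (Y : ℝ) ≤ Y' := by exact_mod_cast hYY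
  have h1 := hgrd W (G' := hyb G (fb 0) (f 0) i) (κ' := κ') (f := f) (jj := jj) (n := n) (i := i)
    (k₀ := k₀) (ks := ks) (q := q) (X := X) (Y := Y') (S := S) (b' := b')
    (fun y l => hyb_deg W (hfb 0 (Nat.zero_le _)) (hf 0 (Nat.zero_le _)) y l)
    (fun y l => hyb_dep W (hfb 0 (Nat.zero_le _)) (hf 0 (Nat.zero_le _)) y l)
    (fun ω _ => hyb_hi G le_rfl _) (fun ω hω l hl x hx => (hκ' ω hω l hl.le x hx).trans
      (div_le_div_of_nonneg_right (pow_le_pow_right₀ (by norm_num) (by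
        rw [hY']
        exact Nat.mul_le_mul_right _ (by omega))) (by positivity)))
    hc hi hn1 hf hst (by linarith) (by omega)
    (hn.trans (pow_le_pow_right₀ (by norm_num) hYY)) hS hSb
    (fun k hk l hl => ⟨(hlv k hk l hl).1.trans hYYR, (hlv k hk l hl).2.trans hYYR⟩)
    (fun k hk => (hos k hk).trans hYYR) (fun k k' h1 h2 l hl h3 => by
      have := hSl k k' h1 h2 l hl h3
      linarith) (fun k hk => by
      have := hbl k hk
      linarith) hq (by linarith) hXq hks (by linarith)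
  rw [show C₂ * (C₁ + 1) * Y = C₂ * Y' by rw [hY', mul_assoc]]
  exact h1

end Pool.D2R
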