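import Pool.Agent.H23.D2.Wst

/-!
# Balls only

`EvB`: the ball part of the event of a window. `ball_win`, `ball_list`: in a class, from the
diagonal data only, at one window and at finitely many windows.
-/

set_option autoImplicit false

namespace Pool.D2R

open Finset Real MvPolynomial
open Pool.Agent.H49.Ent Pool.Agent.H32.Dense Pool.STK Pool.KA Pool.KSAT Pool.K2S Pool.PB Pool.S6C
open Pool.GEN Pool.CHT Pool.CHX Pool.ISO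
open Pool.LBT (LSys Slo Tri ThrOf fl_le' bas_false)
open Pool.LEV (Law)
open Pool.FLF (Fam.sub)
open Pool.JTN (TgP)

/-- **The data of a ball window** `w`, the radii at most `a`. -/
structure BalD {m : ℕ} (S : PCl m) (P : List (Fin m) × Fin m → ℝ → ℝ → ℝ) (θ : ℝ)
    (c : ℕ → Fin m) (r : ℕ) (Pt : ℝ → ℝ → ℝ) (a w : ℝ) (S₀ : ℕ) (Eb : ℝ) : Prop where
  lt : w < a
  dw : ∃ (ρ : ℝ) (vs e e₀ E sg : ℝ → ℝ) (Q : Set ℝ),
    PtD S P θ c r Pt w w ρ S₀ vs e e₀ E sg Q ∧ E 0 ≤ Eb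
  top : ∀ l ≤ r, lvN P c r Pt l w w + Eb + (a - w) < 1

theorem WinD.bal {m : ℕ} {S : PCl m} {P : List (Fin m) × Fin m → ℝ → ℝ → ℝ} {θ : ℝ}
    {c : ℕ → Fin m} {r : ℕ} {Pt : ℝ → ℝ → ℝ} {a w : ℝ} {S₀ : ℕ} {Eb ε : ℝ} {R : ℕ → Prop}
    (h : WinD S P θ c r Pt a w S₀ Eb ε R) : BalD S P θ c r Pt a w S₀ Eb :=
  ⟨h.lt, h.dw, h.top⟩

/-- **The ball of a window**: the ball part of `EvS`. -/
structure EvB {m J : ℕ} (F : Fam m J) (c : ℕ → Fin m) (r D Dr w' M : ℕ) (z : ℕ → ℕ)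
    (e h : ℕ) (g g₀ : ℕ → ℕ) (κ : ℝ) (B : F.Ω → Prop)
    (G₀ : PtT F → ℕ → MvPolynomial (Option (Fin m)) ℝ)
    (H₀ : LnT F → ℕ → MvPolynomial (Option (Fin m)) ℝ) : Prop where
  ball : ChOK F c (r + 1) (fun _ => D) w' w' e g₀ B G₀ H₀
  cls : Clsd F (r + 1) w' B G₀ H₀
  relb : RelvF F c r w' w' g₀ Dr h κ B G₀
  near : ∀ ω, B ω → ∀ l ≤ r, ∀ b : Option (Fin m) → ℝ,
    |eval b (Gno (c l) J J (fun y => G₀ y l) (ptr F J ω)) - eval b (G₀ (ptr F J ω) l)| ≤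
      2 / 2 ^ g₀ l
  rad : ∀ i ≤ M, ChOK F c (r + 1) (fun _ => D) (w' + z i) w' e (fun l => g l + z i) B
    (fun y l => Gno (c l) J J (fun y => G₀ y l) y) (fun s l => Hno (c l) (fun s => H₀ s l) s)

section

variable {m J : ℕ} {F : Fam m J} {c : ℕ → Fin m} {r D Dr w' v M : ℕ} {z : ℕ → ℕ}
    {e h p : ℕ} {R : ℕ → Prop} {g gc gT g₀ : ℕ → ℕ} {κ κ₁ κ₂ : ℝ} {B B' : F.Ω → Prop}
    {G₀ : PtT F → ℕ → MvPolynomial (Option (Fin m)) ℝ}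
    {H₀ : LnT F → ℕ → MvPolynomial (Option (Fin m)) ℝ}
    {T : PtT F → ℕ → MvPolynomial (Option (Fin m)) ℝ}
    {TH : LnT F → ℕ → MvPolynomial (Option (Fin m)) ℝ}
    {Gt : PtT F → MvPolynomial (Option (Fin m)) ℝ}
    {Ht : LnT F → MvPolynomial (Option (Fin m)) ℝ}

/-- The ball of `EvS`. -/
theorem EvS.toB (H : EvS F c r D Dr w' v M z e h p R g gc gT g₀ κ B G₀ H₀ T TH Gt Ht) :
    EvB F c r D Dr w' M z e h g g₀ κ B G₀ H₀ :=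
  ⟨H.ball, H.cls, H.relb, H.near, H.rad⟩

/-- Smaller events. -/
theorem EvB.sub (H : EvB F c r D Dr w' M z e h g g₀ κ B G₀ H₀) (hB : Sub B' B)
    (hP : κ₁ * Pe F.p B ≤ Pe F.p B') (h2 : 0 ≤ κ₂) (hκ : κ ≤ κ₂ * κ₁) :
    EvB F c r D Dr w' M z e h g g₀ κ₂ B' G₀ H₀ :=
  ⟨H.ball.sub hB, H.cls.sub hB, H.relb.sub hB hP h2 hκ, fun ω hω => H.near ω (hB ω hω),
    fun i hi => (H.rad i hi).sub hB⟩

/-- A larger degree. -/
theorem EvB.deg (H : EvB F c r D Dr w' M z e h g g₀ κ B G₀ H₀) {D' : ℕ} (hD : D ≤ D') :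
    EvB F c r D' Dr w' M z e h g g₀ κ B G₀ H₀ :=
  ⟨H.ball.mono le_rfl (fun _ => hD) le_rfl le_rfl, H.cls, H.relb, H.near,
    fun i hi => (H.rad i hi).mono le_rfl (fun _ => hD) le_rfl le_rfl⟩

/-- A larger degree. -/
theorem EvS.deg (H : EvS F c r D Dr w' v M z e h p R g gc gT g₀ κ B G₀ H₀ T TH Gt Ht) {D' : ℕ}
    (hD : D ≤ D') : EvS F c r D' Dr w' v M z e h p R g gc gT g₀ κ B G₀ H₀ T TH Gt Ht where
  ball := H.ball.mono le_rfl (fun _ => hD) le_rfl le_rfl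
  cls := H.cls
  relb := H.relb
  near := H.near
  rad := fun i hi => (H.rad i hi).mono le_rfl (fun _ => hD) le_rfl le_rfl
  top := H.top.mono le_rfl (fun _ => hD) le_rfl le_rfl
  gle := H.gle
  thin := H.thin.mono le_rfl (fun _ => hD) le_rfl le_rfl
  relt := H.relt
  rgh := H.rgh
  dG := fun y => (H.dG y).trans hD
  dH := fun s => (H.dH s).trans hD
  pG := H.pG
  pH := H.pH
  pos := H.pos
  agr := H.agr

end

/-- **One ball window.** -/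
theorem ball_win (m r S₀ : ℕ) (hr : 1 ≤ r) (hS₀ : 1 ≤ S₀) : ∃ D : ℕ, 1 ≤ D ∧ ∀ Dr : ℕ,
    ∀ {S : PCl m} {P : List (Fin m) × Fin m → ℝ → ℝ → ℝ} {θ : ℝ} {c : ℕ → Fin m}
    {Pt : ℝ → ℝ → ℝ} {a w ρ Eb : ℝ} {vs e e₀ E sg : ℝ → ℝ} {Q : Set ℝ},
    ThrOf (chsys m θ) S P → 0 < θ → TmH S → Set.InjOn c (Set.Iio (r + 1)) → Law Pt → w < a →
    PtD S P θ c r Pt w w ρ S₀ vs e e₀ E sg Q → E 0 ≤ Eb →
    (∀ l ≤ r, lvN P c r Pt l w w + E 0 + (a - w) < 1) →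
    ∀ (η σ r₀ : ℝ) (M : ℕ), 0 < η → 0 < σ → 0 < r₀ →
    ∃ (K₁ μ : ℝ) (b : ℕ → ℝ), 0 < K₁ ∧ 0 < μ ∧
      (∀ l ≤ r, lvN P c r Pt l w w - σ < b l ∧ b l < lvN P c r Pt l w w - μ) ∧
      ∀ κ : ℝ, 0 < κ → Bas S (fun J F A => ∀ z : ℕ → ℕ,
        (∀ i ≤ M, r₀ * J ≤ z i ∧ z i ≤ ⌊a * J⌋₊ - ⌊w * J⌋₊) →
        ∃ (B : F.Ω → Prop) (g₀ : ℕ → ℕ)
          (G₀ : PtT F → ℕ → MvPolynomial (Option (Fin m)) ℝ)
          (H₀ : LnT F → ℕ → MvPolynomial (Option (Fin m)) ℝ), Sub B A ∧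
          Pe F.p A ≤ K₁ * Pe F.p B ∧
          (∀ l ≤ r, (lvN P c r Pt l w w - σ) * J ≤ g₀ l ∧
            (g₀ l : ℝ) ≤ lvN P c r Pt l w w * J) ∧
          EvB F c r D Dr ⌊w * J⌋₊ M z ⌊(Eb + σ + η) * J⌋₊ ⌊η * J⌋₊
            (fun l => ⌊b l * J⌋₊) g₀ κ B G₀ H₀) := by
  obtain ⟨D₁, hD₁, hthin⟩ := thin_labs r S₀ hr hS₀
  obtain ⟨D₂, C₂, hD₂, hC₂, hiso⟩ := iso_ptC m r S₀ hS₀
  obtain ⟨D, hD⟩ : ∃ D, D = max D₁ D₂ := ⟨_, rfl⟩
  have hDD1 : D₁ ≤ D := by rw [hD]; exact le_max_left _ _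
  have hDD2 : D₂ ≤ D := by rw [hD]; exact le_max_right _ _
  refine ⟨D, hD₁.trans hDD1, fun Dr => ?_⟩
  obtain ⟨C₃, h3c⟩ := three_chains D Dr r (hD₁.trans hDD1)
  have hC₃0 : (0 : ℝ) ≤ C₃ := Nat.cast_nonneg _
  intro S P θ c Pt a w ρ Eb vs e e₀ E sg Q hP hθ hS hinj hPt hwa hdw hEb htop η σ r₀ M hη hσ hr₀
  have hinj' : Set.InjOn c (Set.Iio r) := hinj.mono fun x hx => lt_trans hx (Nat.lt_succ_self r)
  have hw0 := hdw.w0
  have hw1 : w < 1 := hdw.a1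
  have hE0 := hdw.E0
  -- the constants
  obtain ⟨s₂, hs₂, hs₂l⟩ := fin_pos (r + 1)
    (f := fun l => 1 - (lvN P c r Pt l w w + E 0 + (a - w))) fun l hl => by
      have := htop l (by omega)
      linarith
  obtain ⟨U, hU⟩ : ∃ U : ℝ, U = 3 * C₃ + 2 := ⟨_, rfl⟩
  have hU0 : 0 < U := by rw [hU]; linarith
  obtain ⟨x, hx⟩ : ∃ x : ℝ, x = min (min σ (w / 2)) (min (s₂ / 2) (η / U)) := ⟨_, rfl⟩
  have hx0 : 0 < x := by
    rw [hx]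
    exact lt_min (lt_min hσ (by linarith)) (lt_min (by linarith) (by positivity))
  have hxσ : x ≤ σ := by rw [hx]; exact (min_le_left _ _).trans (min_le_left _ _)
  have hxw : x < w := by
    have : x ≤ w / 2 := by rw [hx]; exact (min_le_left _ _).trans (min_le_right _ _)
    linarith
  have hxs : x ≤ s₂ / 2 := by rw [hx]; exact (min_le_right _ _).trans (min_le_left _ _)
  have hxη : U * x ≤ η := by
    have h1 : x ≤ η / U := by rw [hx]; exact (min_le_right _ _).trans (min_le_right _ _)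
    rw [le_div_iff₀ hU0] at h1
    linarith
  -- the events
  obtain ⟨K₃, dT', dN', hK₃, hdT', hdN', hbT', hbR'⟩ :=
    hthin hP hθ hS hinj hPt hdw (max D Dr) x x hx0 hx0
  obtain ⟨K₂, μ, b, hK₂, hμ, hb, hbI⟩ := hiso (v := w - ρ) (ε := 0) hP hθ hS hinj hPt
    (by linarith [hdw.ρw]) (by linarith [hdw.ρ0]) hw1 le_rfl hdw.q0
    (fun x y h1 h2 h3 => hdw.den x y h1 h2 (by linarith)) (fun κ h1 h2 h3 =>
      ⟨hdw.pt κ h1 h2 (by linarith), fun l hl => by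
        have := hdw.grw κ h1 h2 (by linarith) l hl
        linarith⟩) (by rw [sub_sub_cancel]; exact hdw.sr) x hx0 (by rw [mul_zero]; exact hx0) hxw
    ((w + 1) / 2) r₀ (by linarith) (by linarith) hr₀ M
  obtain ⟨K, hK⟩ : ∃ K : ℝ, K = K₃ * K₂ := ⟨_, rfl⟩
  have hK0 : 0 < K := by rw [hK]; positivity
  have h4 : (0 : ℝ) < 4 ^ r := by positivity
  refine ⟨K * 4 ^ r, μ, b, by positivity, hμ, fun l hl =>
    ⟨by linarith [(hb l hl).1], (hb l hl).2⟩, fun κ hκ => ?_⟩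
  -- the measures
  obtain ⟨κb, hκb⟩ : ∃ κb : ℝ, κb = min κ (1 / 2) / 4 ^ r := ⟨_, rfl⟩
  have hκb0 : 0 < κb := by
    rw [hκb]
    exact div_pos (lt_min hκ (by norm_num)) h4
  have hκbe : κb * 4 ^ r = min κ (1 / 2) := by
    rw [hκb]
    field_simp
  have hκb1 : κb * 4 ^ r ≤ κ := by
    rw [hκbe]
    exact min_le_left _ _
  have hκb2 : κb * (2 * 4 ^ r) ≤ 1 := by
    have h1 : κb * (2 * 4 ^ r) = 2 * (κb * 4 ^ r) := by ring
    rw [h1, hκbe]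
    linarith [min_le_right κ (1 / 2 : ℝ)]
  have hrel' := hbR' κb (1 / K) hκb0 (by positivity)
  obtain ⟨J₁, hJ₁⟩ := big 1 hμ
  obtain ⟨J₂, hJ₂⟩ := big 3 hx0
  obtain ⟨J₃, hJ₃⟩ := big 1 (show 0 < s₂ / 2 by linarith)
  refine Bas.mono (max J₁ (max J₂ J₃)) ((bas_then hK₃ hbT' hbI).and hrel') ?_
  rintro J hJ F A ⟨⟨B₂, h1', h2', ⟨⟨T', TH', hT'⟩, ⟨N', NH', hN'⟩⟩, hI⟩, hR'⟩ z hz
  have hJμ : 1 ≤ μ * J := hJ₁ J ((le_max_left _ _).trans hJ)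
  have hJx : 3 ≤ x * J := hJ₂ J ((le_max_left _ _).trans ((le_max_right _ _).trans hJ))
  have hJs : 1 ≤ s₂ / 2 * J := hJ₃ J ((le_max_right _ _).trans ((le_max_right _ _).trans hJ))
  have hJ0 : (0 : ℝ) ≤ J := Nat.cast_nonneg J
  have hxJ0 : 0 ≤ x * J := mul_nonneg hx0.le hJ0
  -- the radius
  obtain ⟨v, hv⟩ : ∃ v, ⌊a * J⌋₊ = ⌊w * J⌋₊ + v :=
    Nat.exists_eq_add_of_le (Nat.floor_le_floor (mul_le_mul_of_nonneg_right hwa.le hJ0))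
  obtain ⟨w', hw'⟩ : ∃ w' : ℕ, w' = ⌊w * J⌋₊ := ⟨_, rfl⟩
  have hw'1 : (w' : ℝ) ≤ w * J := by rw [hw']; exact Nat.floor_le (by positivity)
  have hw'2 : w * J < w' + 1 := by rw [hw']; exact Nat.lt_floor_add_one _
  rw [← hw'] at hv
  have hv1 : (v : ℝ) ≤ (a - w) * J + 1 := by
    have h5 : ((w' + v : ℕ) : ℝ) ≤ a * J := by
      rw [← hv]
      exact Nat.floor_le (mul_nonneg (by linarith) hJ0)
    push_cast at h5
    linarith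
  rw [← hw'] at hT' hN'
  rw [← hw'] at hz ⊢
  rw [hv, Nat.add_sub_cancel_left] at hz
  -- the levels
  have hlvl : ∀ l < r, lvN P c r Pt l w w = bet P c l w w := fun l hl => if_pos hl
  have hlow : ∀ l ≤ r, w ≤ lvN P c r Pt l w w := fun l _ => hdw.low hP l
  have hb0 : ∀ l ≤ r, 0 < b l := fun l hl => by
    have := hlow l hl
    linarith [(hb l hl).1]
  have hfl : ∀ l ≤ r, (⌊b l * J⌋₊ : ℝ) ≤ b l * J ∧ b l * J < ⌊b l * J⌋₊ + 1 := fun l hl =>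
    ⟨Nat.floor_le (mul_nonneg (hb0 l hl).le hJ0), Nat.lt_floor_add_one _⟩
  obtain ⟨B₃, g₀, G₀, H₀, l1, l2, l3, l4, lc, l5, l6⟩ := hI w' (fun i => w' + z i)
    (fun i l => ⌊b l * J⌋₊ + z i) (by rw [hw']) (hw'1.trans (mul_le_mul_of_nonneg_right
      (by linarith) hJ0)) (fun i hi => by
        push_cast
        linarith [(hz i hi).1]) (fun i hi l hl => by
        push_cast
        linarith [(hfl l hl).1]) (fun i hi l hl => by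
        push_cast
        linarith [(hfl l hl).2]) (fun i hi l hl => by
        push_cast
        have h5 : (z i : ℝ) ≤ v := by exact_mod_cast (hz i hi).2
        have h6 := mul_le_mul_of_nonneg_right (hs₂l l (by omega)) hJ0
        have h7 := mul_le_mul_of_nonneg_right hxs hJ0
        linarith)
  have hPA : 1 / K * Pe F.p A ≤ Pe F.p B₃ := by
    rw [one_div, inv_mul_le_iff₀ hK0, hK]
    calc Pe F.p A ≤ K₃ * Pe F.p B₂ := h2'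
      _ ≤ K₃ * (K₂ * Pe F.p B₃) := mul_le_mul_of_nonneg_left l2 hK₃.le
      _ = _ := by ring
  rw [← hw'] at hR'
  have hRT' := hR' B₃ T' TH' (fun ω hω => h1' ω (l1 ω hω)) hPA (hT'.sub l1)
  have hxJ : (⌊x * J⌋₊ : ℝ) ≤ x * J := Nat.floor_le (by positivity)
  obtain ⟨q₄, hq₄⟩ : ∃ q₄, q₄ = ⌊x * J⌋₊ + 2 := ⟨_, rfl⟩
  have hq₄1 : (q₄ : ℝ) ≤ x * J + 2 := by
    rw [hq₄]
    push_cast
    linarith
  have hq₄2 : x * J + 1 ≤ q₄ := by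
    rw [hq₄]
    push_cast
    have := Nat.lt_floor_add_one (x * J)
    linarith
  obtain ⟨B₅, n1, n2, -, -, n5⟩ := h3c (q := q₄) (κ := κ) hinj' hRT' hκ.le hκb1 hκb2
    ((hT'.sub l1).mono le_rfl (fun _ => hDD1) le_rfl le_rfl)
    ((hN'.sub l1).mono le_rfl (fun _ => hDD1) le_rfl le_rfl)
    (l4.mono le_rfl (fun _ => hDD2) le_rfl le_rfl) (fun l hl => by
      have h5 := (l3 l hl.le).1
      have h6 : (⌊(bet P c l w w - dT' l) * J⌋₊ : ℝ) ≤ (bet P c l w w - dT' l) * J :=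
        Nat.floor_le (mul_nonneg (by
          have := hlow l hl.le
          rw [hlvl l hl] at this
          linarith [(hdT' l hl).2.2]) hJ0)
      have h7 : 0 ≤ dT' l * J := mul_nonneg (hdT' l hl).1.le hJ0
      rw [hlvl l hl] at h5
      have h12 : (⌊(bet P c l w w - dT' l) * J⌋₊ : ℝ) ≤ ((g₀ l + q₄ : ℕ) : ℝ) := by
        push_cast
        linarith
      exact_mod_cast h12)
  have hZη : C₃ * (⌊x * J⌋₊ + q₄ + 1) ≤ ⌊η * J⌋₊ := by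
    refine Nat.le_floor ?_
    push_cast
    have h5 : (⌊x * J⌋₊ : ℝ) + q₄ + 1 ≤ 3 * (x * J) := by linarith
    have h6 : (C₃ : ℝ) * (⌊x * J⌋₊ + q₄ + 1) ≤ C₃ * (3 * (x * J)) :=
      mul_le_mul_of_nonneg_left h5 hC₃0
    have h7 := mul_le_mul_of_nonneg_right hxη hJ0
    have e6 : U * x * J = 3 * (C₃ * (x * J)) + 2 * (x * J) := by rw [hU]; ring
    have h8 : 0 ≤ C₃ * (x * J) := mul_nonneg hC₃0 hxJ0
    linarith
  have hσJ : x * J ≤ σ * J := mul_le_mul_of_nonneg_right hxσ hJ0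
  have hη0 : 0 ≤ η * J := mul_nonneg hη.le hJ0
  have hE : ⌊(E 0 + x) * J⌋₊ ≤ ⌊(Eb + σ + η) * J⌋₊ := by
    refine Nat.floor_le_floor ?_
    have h5 := mul_le_mul_of_nonneg_right hEb hJ0
    linarith
  refine ⟨B₅, g₀, G₀, H₀, fun ω hω => h1' ω (l1 ω (n1 ω hω)), ?_, fun l hl => ⟨?_, (l3 l hl).2⟩,
    ⟨(l4.sub n1).mono le_rfl (fun _ => hDD2) le_rfl hE, lc.sub n1, relvF_exp n5 hZη,
      fun ω hω => l6 ω (n1 ω hω), fun i hi => ?_⟩⟩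
  · rw [one_div, inv_mul_le_iff₀ hK0] at hPA
    calc Pe F.p A ≤ K * Pe F.p B₃ := hPA
      _ ≤ K * (4 ^ r * Pe F.p B₅) := mul_le_mul_of_nonneg_left n2 hK0.le
      _ = _ := by ring
  · exact (mul_le_mul_of_nonneg_right (by linarith) hJ0).trans (l3 l hl).1
  · exact ((l5 i hi).sub n1).mono le_rfl (fun _ => hDD2) le_rfl hE

end Pool.D2R
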