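import Pool.Agent.H23.D2.Adc
import Pool.Agent.H2.GEN.AttF

/-!
# A closed gradient over other first charts

`adn_linF`, `ad_noF`: `adn_lin`, `ad_no`, where the charts of the first window are replaced by closed
charts which are near on its ball, up to constants.
-/

set_option autoImplicit false

namespace Pool.D2R

open Finset Real MvPolynomial
open Pool.Agent.H49.Ent Pool.Agent.H32.Dense Pool.STK Pool.KA Pool.KSAT Pool.K2S Pool.PB Pool.S6C
open Pool.GEN Pool.CHT Pool.CHX Pool.ISO Pool.D2F Pool.D2Z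
open Pool.FLF (Fam.sub)
open Pool.PB.Trl (rt rt_mem t_rt)
open Pool.LBT (ThrOf)

variable {m J : ℕ}

/-- **Charts near the charts of a ball**: the gradients at the point, and at two samples of one
cell. -/
theorem near_cell (m D D' i : ℕ) : ∃ C : ℕ, ∀ {J : ℕ} {F : Fam m J} {c : ℕ → Fin m}
    {r Dr w e h M jq jT q s Y : ℕ} {z : ℕ → ℕ} {g g₀ : ℕ → ℕ} {κ : ℝ} {B B' : F.Ω → Prop}
    {G G' : PtT F → ℕ → MvPolynomial (Option (Fin m)) ℝ} {κ' : F.Ω → ℕ → ℝ}
    {H : LnT F → ℕ → MvPolynomial (Option (Fin m)) ℝ},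
    Set.InjOn c (Set.Iio (r + 1)) → i ≤ r → EvB F c r D Dr w M z e h g g₀ κ B G H → Sub B' B →
    jq ≤ M → jT ≤ M → z jq = q → q + 1 ≤ z jT →
    (∀ l ≤ r, g l ≤ g₀ l + Y ∧ g₀ l ≤ g l + 2 * Y) →
    (∀ y l, (G' y l).totalDegree ≤ D') → (∀ y l, DepC c l (G' y l)) →
    (∀ ω, B' ω → ∀ l ≤ i, ∀ b, NBx c (G (ptr F J ω)) g₀ w (F.t ω) l b →
      |eval b (G' (ptr F J ω) l) + κ' ω l - eval b (G (ptr F J ω) l)| ≤ 2 ^ Y / 2 ^ g₀ l) →
    (∀ l ≤ i, e + (g l + q) + (q + s) + C ≤ J) →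
    (∀ ω, B' ω → ∀ l ≤ i, ∀ V : Option (Fin m) → ℝ,
      |dd (G' (ptr F J ω) l) (bt F ω) V - dd (G (ptr F J ω) l) (bt F ω) V| ≤
        2 ^ (C * (Y + 1)) / 2 ^ g₀ l * nrm c (G (ptr F J ω)) g₀ w l (bt F ω) V) ∧
    ∀ ω ν, B' ω → B' ν → ptr F J ω = ptr F J ν → ∀ l ≤ i, ∀ V : Option (Fin m) → ℝ,
      |dd (G' (ptr F J ω) l) (bt F ν) V - dd (G' (ptr F J ω) l) (bt F ω) V| ≤
        2 ^ (C * (Y + 1)) / 2 ^ (g₀ l + q + s) *
          nrm c (G (ptr F J ω)) (fun l => g l + q) (w + q) i (bt F ω) V := by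
  obtain ⟨K, hK⟩ : ∃ K : ℕ, K = max D D' := ⟨_, rfl⟩
  have hDK : D ≤ K := by omega
  have hD'K : D' ≤ K := by omega
  have hba := fun l : ℕ => box_all l K K
  choose Cb hCb hbl using hba
  have hsp := fun l : ℕ => shf_pol m K l
  choose Cs hCs using hsp
  obtain ⟨c₀, D₁, hD₁, hdil⟩ := nbx_dil (i + 1) (fun _ => K)
  obtain ⟨C₁, hC₁⟩ : ∃ C₁ : ℕ, C₁ = ∑ l ∈ range (i + 1), Cs l := ⟨_, rfl⟩
  obtain ⟨C₂, hC₂⟩ := pow_unbounded_of_one_lt (1 + ∑ l ∈ range (i + 1), Cb l) (one_lt_two (α := ℝ))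
  have hCl : ∀ l ≤ i, Cs l ≤ C₁ := fun l hl => by
    rw [hC₁]
    exact Finset.single_le_sum (f := Cs) (fun _ _ => Nat.zero_le _)
      (Finset.mem_range.2 (Nat.lt_succ_of_le hl))
  have hCbl : ∀ l ≤ i, Cb l ≤ 2 ^ C₂ := by
    intro l hl
    have := Finset.single_le_sum (f := Cb) (fun l _ => by linarith [hCb l])
      (Finset.mem_range.2 (Nat.lt_succ_of_le hl))
    linarith
  refine ⟨C₁ + C₂ + c₀ + 2 * D₁ + 6, ?_⟩
  intro J F c r Dr w e h M jq jT q s Y z g g₀ κ B B' G G' κ' H hc hi hE hB hjq hjT hzq hzT hg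
    hdG' hpG' hnear hJ
  have hci : ∀ l ≤ i, Set.InjOn c (Set.Iio l) := fun l hl => hc.mono fun y hy => by
    rw [Set.mem_Iio] at hy ⊢
    omega
  have hci1 : ∀ l ≤ i, Set.InjOn c (Set.Iio (l + 1)) := fun l hl => hc.mono fun y hy => by
    rw [Set.mem_Iio] at hy ⊢
    omega
  obtain ⟨Q, hQ⟩ : ∃ Q : F.Ω → ℕ → MvPolynomial (Option (Fin m)) ℝ, Q = fun ω l =>
    G' (ptr F J ω) l + MvPolynomial.C (κ' ω l) := ⟨_, rfl⟩
  have hQd : ∀ ω l, (Q ω l).totalDegree ≤ K := fun ω l => by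
    rw [hQ]
    refine (totalDegree_add _ _).trans (max_le ((hdG' _ l).trans hD'K) ?_)
    rw [totalDegree_C]
    exact Nat.zero_le _
  have hQp : ∀ ω l, DepC c l (Q ω l) := fun ω l b b' h1 h2 => by
    rw [hQ]
    show eval b (_ + _) = eval b' (_ + _)
    rw [map_add, map_add, eval_C, eval_C, hpG' _ l b b' h1 h2]
  have hQv : ∀ ω l b, eval b (Q ω l) = eval b (G' (ptr F J ω) l) + κ' ω l := fun ω l b => by
    rw [hQ]
    show eval b (_ + _) = _
    rw [map_add, eval_C]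
  have hQdd : ∀ ω l x V, dd (Q ω l) x V = dd (G' (ptr F J ω) l) x V := fun ω l x V => by
    rw [hQ]
    unfold dd
    refine Finset.sum_congr rfl fun o _ => ?_
    show eval x (pderiv o (_ + _)) * V o = _
    rw [map_add, pderiv_C, add_zero]
  have hGd : ∀ y l, (G y l).totalDegree ≤ K := fun y l => (hE.ball.degG y l).trans hDK
  have hGp : ∀ y l, DepC c l (G y l) := hE.ball.depG
  have hQGd : ∀ ω l, (Q ω l - G (ptr F J ω) l).totalDegree ≤ K := fun ω l =>
    (totalDegree_sub _ _).trans (max_le (hQd ω l) (hGd _ l))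
  have hQGp : ∀ ω l, DepC c l (Q ω l - G (ptr F J ω) l) := fun ω l b b' h1 h2 => by
    rw [map_sub, map_sub, hQp ω l b b' h1 h2, hGp _ l b b' h1 h2]
  have hQG : ∀ ω, B' ω → ∀ l ≤ i, ∀ b, NBx c (G (ptr F J ω)) g₀ w (F.t ω) l b →
      |eval b (Q ω l - G (ptr F J ω) l)| ≤ 2 ^ Y / 2 ^ g₀ l := by
    intro ω hω l hl b hb
    rw [map_sub, hQv]
    exact hnear ω hω l hl b hb
  have hE1 : ∀ x : ℕ, x ≤ x * (Y + 1) := fun x => Nat.le_mul_of_pos_right _ (by omega)
  refine ⟨fun ω hω l hl V => ?_, ?_⟩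
  · -- the gradients at the point
    have h1 := (hbl l (c := c) (ψ := G (ptr F J ω)) (Q := Q ω l - G (ptr F J ω) l)
      (g := g₀) (a := w) (M := 2 ^ Y / 2 ^ g₀ l) (x := bt F ω) (hci l (by omega)) (hGd _) (hGp _)
      (hQGp ω l) (hQGd ω l) (by positivity) (fun b hb => hQG ω hω l hl b hb)
      (fun j hj => hE.ball.pos ω (hB ω hω) j (by omega))).1 V
    rw [dd_sub, hQdd] at h1
    refine h1.trans (mul_le_mul_of_nonneg_right ?_ (nrm_nonneg _ _ _ _ _ _ _))
    refine (mul_le_mul_of_nonneg_right (hCbl l (by omega)) (by positivity)).trans ?_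
    rw [← mul_div_assoc, ← pow_add]
    refine div_le_div_of_nonneg_right (pow_le_pow_right₀ (by norm_num) ?_) (by positivity)
    nlinarith [hE1 C₂, Nat.zero_le (C₁ * (Y + 1)), Nat.zero_le (c₀ * (Y + 1)),
      Nat.zero_le (D₁ * (Y + 1))]
  · -- the cell
    intro ω ν hω hν hpt l hl V
    obtain ⟨G'', hG''⟩ : ∃ G'' : PtT F → ℕ → MvPolynomial (Option (Fin m)) ℝ,
      G'' = fun y l => Gno (c l) J J (fun y => G y l) y := ⟨_, rfl⟩
    have hrq := (hE.rad jq hjq).sub hB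
    rw [hzq] at hrq
    have hrT := (hE.rad jT hjT).sub hB
    rw [← hG''] at hrq hrT
    have hnr : ∀ y x (V : Option (Fin m) → ℝ) (γ : ℕ → ℕ) a k,
        nrm c (G'' y) γ a k x V = nrm c (G y) γ a k x V := fun y x V γ a k => by
      rw [hG'']
      exact nrm_Gno c G γ a k y x V
    -- the constant of the recentred chart
    obtain ⟨kc, hkc⟩ : ∃ kc : ℕ → ℝ, kc = fun j => ((ptr F J ω).1 (c j) : ℝ) / 2 ^ J -
      eval (bho J J (ptr F J ω)) (G (ptr F J ω) j) := ⟨_, rfl⟩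
    have hGe : ∀ j b, eval b (G'' (ptr F J ω) j) = eval b (G (ptr F J ω) j) + kc j := by
      intro j b
      rw [hG'', hkc]
      show eval b (Gno (c j) J J (fun y => G y j) (ptr F J ω)) = _
      unfold Gno
      rw [map_add, eval_C]
    have hkb : ∀ j ≤ i, |kc j| ≤ 2 / 2 ^ g₀ j := by
      intro j hj
      have h1 := hE.near ω (hB ω hω) j (by omega) (bt F ω)
      have h2 := hGe j (bt F ω)
      rw [hG''] at h2
      rw [h2, add_sub_cancel_left] at h1
      exact h1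
    have hbox : ∀ b, NBx c (G'' (ptr F J ω)) (fun l => g l + q) (w + q) (F.t ω) l b →
        |eval b (Q ω l) - eval b (G'' (ptr F J ω) l)| ≤
          2 ^ (c₀ + (2 * Y + 2) * D₁ + Y + 1) / 2 ^ g₀ l := by
      intro b hb
      have h1 : ∀ j < l, |b (some (c j)) - eval b (G (ptr F J ω) j)| ≤ 2 ^ (2 * Y + 2) / 2 ^ g₀ j := by
        intro j hj
        have h2 := hb.2 j hj
        rw [hGe] at h2
        have h3 := hkb j (by omega)
        have e1 : b (some (c j)) - eval b (G (ptr F J ω) j) =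
            (b (some (c j)) - (eval b (G (ptr F J ω) j) + kc j)) + kc j := by ring
        rw [e1]
        have h4 : (1 : ℝ) / 2 ^ (g j + q) ≤ 2 ^ (2 * Y) / 2 ^ g₀ j := by
          rw [div_le_div_iff₀ (by positivity) (by positivity), one_mul, ← pow_add]
          have := (hg j (by omega)).2
          exact pow_le_pow_right₀ (by norm_num) (by omega)
        refine (abs_add_le _ _).trans ((add_le_add (h2.trans h4) h3).trans ?_)
        rw [← add_div]
        refine div_le_div_of_nonneg_right ?_ (by positivity)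
        have h5 : (1 : ℝ) ≤ 2 ^ (2 * Y) := one_le_pow₀ (by norm_num)
        have h6 : (2 : ℝ) ^ (2 * Y + 2) = 2 ^ (2 * Y) * 4 := by rw [pow_add]; norm_num
        rw [h6]
        linarith
      have h2 := hdil (Q := Q ω l - G (ptr F J ω) l) (G := G (ptr F J ω)) (g := g₀) (a := w)
        (t := F.t ω) (M := 2 ^ Y / 2 ^ g₀ l) (2 * Y + 2) (show l < i + 1 by omega)
        (hci l (by omega)) (hGd _) (hGp _) (hQGp ω l) (hQGd ω l) (by positivity)
        (fun b hb => hQG ω hω l hl b hb) b (hb.1.trans (inv_mono (by omega))) h1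
      rw [map_sub] at h2
      rw [hGe]
      have e1 : eval b (Q ω l) - (eval b (G (ptr F J ω) l) + kc l) =
          (eval b (Q ω l) - eval b (G (ptr F J ω) l)) - kc l := by ring
      rw [e1]
      refine (abs_sub _ _).trans ((add_le_add h2 (hkb l (by omega))).trans ?_)
      rw [← mul_div_assoc, ← pow_add, ← add_div]
      refine div_le_div_of_nonneg_right ?_ (by positivity)
      have h5 : (2 : ℝ) ≤ 2 ^ (c₀ + (2 * Y + 2) * D₁ + Y) := by
        have : 1 ≤ c₀ + (2 * Y + 2) * D₁ + Y := by nlinarith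
        calc (2 : ℝ) = 2 ^ 1 := (pow_one _).symm
          _ ≤ _ := pow_le_pow_right₀ (by norm_num) this
      rw [pow_succ]
      linarith
    obtain ⟨hT, ht, hxx⟩ := bt_near hpt
    obtain ⟨η, hη⟩ : ∃ η : Option (Fin m) → ℝ, η = fun o => bt F ν o - bt F ω o := ⟨_, rfl⟩
    have h1 := (hCs l (c := c) (ψ := G'' (ptr F J ω)) (Q := Q ω l)
      (g := fun l => g l + q) (a := w + q) (e := e) (s := q + s) (J := J)
      (M := 2 ^ (c₀ + (2 * Y + 2) * D₁ + Y + 1) / 2 ^ g₀ l) (x := bt F ω) (η := η)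
      (hci1 l (by omega)) (fun j => (hrq.degG _ j).trans hDK) (hrq.depG _) (hQp ω l) (hQd ω l)
      (fun k hk b hb j hj => hrq.lip ω hω k (by omega) b hb j hj) hbox (fun k hk => by
        have h2 := hJ k (by omega)
        have h3 := hCl l (by omega)
        show e + (g k + q) + (q + s) + Cs l ≤ J
        omega) (by
        rw [hη]
        show bt F ν none - bt F ω none = 0
        rw [ht, sub_self]) (fun j _ => by
        rw [hη]
        show |F.x ν (c j) - F.x ω (c j)| ≤ _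
        rw [abs_sub_comm]
        exact hxx _) (fun j hj => by
        refine (hrT.pos ω hω j (by omega)).trans (inv_mono ?_)
        show g j + q + 1 ≤ g j + z jT
        omega)).2.1 V
    have e1 : (fun o => bt F ω o + η o) = bt F ν := by
      rw [hη]
      funext o
      ring
    rw [e1, hQdd, hQdd, hnr] at h1
    refine h1.trans (mul_le_mul ?_ (nrm_mono hl _ _) (nrm_nonneg _ _ _ _ _ _ _) (by positivity))
    have h2 : (1 : ℝ) / 2 ^ (g l + q) ≤ 2 ^ (2 * Y) / 2 ^ g₀ l := by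
      rw [div_le_div_iff₀ (by positivity) (by positivity), one_mul, ← pow_add]
      have := (hg l (by omega)).2
      exact pow_le_pow_right₀ (by norm_num) (by omega)
    have h3 : (2 : ℝ) ^ (c₀ + (2 * Y + 2) * D₁ + Y + 1) / 2 ^ g₀ l + 1 / 2 ^ (g l + q) ≤
        2 ^ (c₀ + (2 * Y + 2) * D₁ + Y + 2) / 2 ^ g₀ l := by
      refine (add_le_add le_rfl h2).trans ?_
      rw [← add_div]
      refine div_le_div_of_nonneg_right ?_ (by positivity)
      have h4 : (2 : ℝ) ^ (2 * Y) ≤ 2 ^ (c₀ + (2 * Y + 2) * D₁ + Y + 1) :=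
        pow_le_pow_right₀ (by norm_num) (by nlinarith)
      have h5 : (2 : ℝ) ^ (c₀ + (2 * Y + 2) * D₁ + Y + 2) =
          2 * 2 ^ (c₀ + (2 * Y + 2) * D₁ + Y + 1) := by
        rw [pow_succ]
        ring
      rw [h5]
      linarith
    calc (2 : ℝ) ^ Cs l * (2 ^ (c₀ + (2 * Y + 2) * D₁ + Y + 1) / 2 ^ g₀ l + 1 / 2 ^ (g l + q)) /
          2 ^ (q + s) ≤ 2 ^ C₁ * (2 ^ (c₀ + (2 * Y + 2) * D₁ + Y + 2) / 2 ^ g₀ l) /
          2 ^ (q + s) := by
          refine div_le_div_of_nonneg_right (mul_le_mul (pow_le_pow_right₀ (by norm_num)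
            (hCl l (by omega))) h3 (by positivity) (by positivity)) (by positivity)
      _ = 2 ^ (C₁ + (c₀ + (2 * Y + 2) * D₁ + Y + 2)) / 2 ^ (g₀ l + q + s) := by
          rw [pow_add 2 C₁, pow_add 2 (g₀ l + q) s, pow_add 2 (g₀ l) q, pow_add 2 q s]
          field_simp
      _ ≤ _ := by
          refine div_le_div_of_nonneg_right (pow_le_pow_right₀ (by norm_num) ?_) (by positivity)
          nlinarith [hE1 C₁, hE1 c₀, Nat.zero_le (C₂ * (Y + 1))]

end Pool.D2R
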