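import Pool.Agent.H23.D2.Grd2
import Pool.Agent.H71.AVG.Avg

/-!
# The fields `bbj`, `bbx`, `Nx` of `AD.Hyp`

`GrdE`: the output of `win_grd` on one event. `AdW`: the data of the own paths over one window, in
the letters of `AD`. `AdW.bbj`, `AdW.bbx`, `AdW.Nx`: the entropies.
-/

set_option autoImplicit false

namespace Pool.D2R

open Finset Real MvPolynomial
open Pool.Agent.H49.Ent Pool.Agent.H32.Dense Pool.STK Pool.KA Pool.KSAT Pool.K2S Pool.PB Pool.S6C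
open Pool.GEN Pool.CHT Pool.CHX Pool.ISO
open Pool.PB.Trl (rt rt_mem t_rt)
open Pool.AVG71

variable {m J : ℕ}

/-- The charts of the first windows. -/
noncomputable def chs (F : Fam m J) (i n : ℕ)
    (G : ℕ → PtT F → ℕ → MvPolynomial (Option (Fin m)) ℝ) (ω : F.Ω) :
    Fin (n + 1) → Fin (i + 1) → MvPolynomial (Option (Fin m)) ℝ :=
  fun k l => G k (ptr F J ω) l

theorem chs_eq {F : Fam m J} {i n : ℕ} {G : ℕ → PtT F → ℕ → MvPolynomial (Option (Fin m)) ℝ}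
    {ω ν : F.Ω} (h : chs F i n G ω = chs F i n G ν) :
    ∀ k ≤ n, ∀ l ≤ i, G k (ptr F J ω) l = G k (ptr F J ν) l := fun k hk l hl =>
  congrFun (congrFun h ⟨k, Nat.lt_succ_of_le hk⟩) ⟨l, Nat.lt_succ_of_le hl⟩

/-- **The output of `win_grd`** on one event. -/
structure GrdE (F : Fam m J) (c : ℕ → Fin m) (k₀ i ks n q X : ℕ) (γ : ℕ → ℕ) (U : ℝ)
    (B : F.Ω → Prop) (G : ℕ → PtT F → ℕ → MvPolynomial (Option (Fin m)) ℝ) : Prop where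
  U0 : 0 ≤ U
  bm : ∀ ω, B ω → ∀ j < i, k₀ ≤ j → |gnh F c i γ (G 0) (G n) ω j| ≤ U
  bj : ∀ ω ν, B ω → B ν → F.t ω = F.t ν → (∀ l < k₀, F.x ω (c l) = F.x ν (c l)) →
    (∀ j < i, k₀ ≤ j → |hgt F c (G 0) ω j - hgt F c (G 0) ν j| ≤ 2 ^ 2 / 2 ^ (γ j + q)) →
    (∀ k ≤ ks, ∀ l ≤ i, G k (ptr F J ω) l = G k (ptr F J ν) l) → ∀ j < i, k₀ ≤ j →
      |gnh F c i γ (G 0) (G n) ω j - gnh F c i γ (G 0) (G n) ν j| ≤ U / 2 ^ X
  bx : ∀ ω ν, B ω → B ν → F.t ω = F.t ν → (∀ l < k₀, F.x ω (c l) = F.x ν (c l)) →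
    (∀ j < i, k₀ ≤ j → |hgt F c (G 0) ω j - hgt F c (G 0) ν j| ≤ 2 ^ 2 / 2 ^ (γ j + q)) →
    (∀ k ≤ n, ∀ l ≤ i, G k (ptr F J ω) l = G k (ptr F J ν) l) → ∀ j < i, k₀ ≤ j →
      |gnh F c i γ (G 0) (G n) ω j - gnh F c i γ (G 0) (G n) ν j| ≤ U / 2 ^ X
  nx : ∀ ω ν, B ω → B ν → F.t ω = F.t ν → (∀ l < k₀, F.x ω (c l) = F.x ν (c l)) →
    (∀ j < i, k₀ ≤ j → |hgt F c (G 0) ω j - hgt F c (G 0) ν j| ≤ 2 ^ 2 / 2 ^ (γ j + q)) →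
    (∀ k ≤ n, ∀ l ≤ i, G k (ptr F J ω) l = G k (ptr F J ν) l) →
      |2 ^ (γ i + q) * (hgt F c (G 0) ω i - hgt F c (G 0) ν i) -
          ∑ j ∈ Finset.Ico k₀ i, gnh F c i γ (G 0) (G n) ω j *
            (2 ^ (γ j + q) * (hgt F c (G 0) ω j - hgt F c (G 0) ν j))| ≤ U / 2 ^ X

/-- **The relative gradient over `Wins`.** -/
theorem win_grdE (D r : ℕ) : ∃ C : ℕ, 1 ≤ C ∧ ∀ {m J : ℕ} {F : Fam m J} {c : ℕ → Fin m}
    {Dr N M : ℕ} {R : ℕ → Prop} {C₀ a Eb ηm : ℝ} {o ε p' η σ : ℕ → ℝ} {lv be b : ℕ → ℕ → ℝ}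
    {κ : ℝ} {z : ℕ → ℕ → ℕ} {B : F.Ω → Prop} {gc gT g₀ : ℕ → ℕ → ℕ}
    {G : ℕ → PtT F → ℕ → MvPolynomial (Option (Fin m)) ℝ}
    {H : ℕ → LnT F → ℕ → MvPolynomial (Option (Fin m)) ℝ}
    {T : ℕ → PtT F → ℕ → MvPolynomial (Option (Fin m)) ℝ}
    {TH : ℕ → LnT F → ℕ → MvPolynomial (Option (Fin m)) ℝ}
    {Gt : ℕ → PtT F → MvPolynomial (Option (Fin m)) ℝ}
    {Ht : ℕ → LnT F → MvPolynomial (Option (Fin m)) ℝ}
    (_ : Wins F c r D Dr N M R C₀ a Eb ηm o ε p' η σ lv be b κ z B gc gT g₀ G H T TH Gt Ht)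
    {f jj : ℕ → ℕ} {n i k₀ ks q X Y : ℕ} {S b' : ℝ},
    Set.InjOn c (Set.Iio (r + 1)) → i ≤ r → (∀ k ≤ n, f k ≤ N) →
    (∀ k < n, jj k ≤ M ∧ z (f k) (jj k) = ⌊o (f (k + 1)) * J⌋₊ - ⌊o (f k) * J⌋₊ ∧
      o (f k) ≤ o (f (k + 1))) →
    C₀ * (ηm * J) ≤ Y → 3 ≤ Y → (n : ℝ) ≤ 2 ^ Y → 0 ≤ S → S ≤ b' →
    (∀ k < n, ∀ l ≤ i, (lv (f (k + 1)) l - lv (f k) l) * J ≤ Y ∧
      (lv (f k) l - lv (f (k + 1)) l) * J ≤ Y) →
    (∀ k < n, b' * ((o (f (k + 1)) - o (f k)) * J) ≤ Y) →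
    (∀ k k', k ≤ k' → k' ≤ n → ∀ l < i, k₀ ≤ l →
      (lv (f k') l - lv (f k) l) * J ≤ S * ((o (f k') - o (f k)) * J) + Y) →
    (∀ k ≤ n, b' * ((o (f k) - o (f 0)) * J) ≤ (lv (f k) i - lv (f 0) i) * J + Y) →
    S * ((o (f n) - o (f 0)) * J) + 3 ≤ q →
    (q : ℝ) + X ≤ b' * ((o (f n) - o (f 0)) * J) + Y → X ≤ q → ks ≤ n →
    (X : ℝ) ≤ (b' - S) * ((o (f ks) - o (f 0)) * J) + Y →
    GrdE F c k₀ i ks n q X (g₀ (f 0)) (2 ^ (C * Y)) B (fun k => G (f k)) := by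
  obtain ⟨C, hC, h⟩ := win_grd D r
  refine ⟨C, hC, ?_⟩
  intro m J F c Dr N M R C₀ a Eb ηm o ε p' η σ lv be b κ z B gc gT g₀ G H T TH Gt Ht W f jj n i k₀
    ks q X Y S b' hc hi hf hst hY hY3 hn hS hSb hlv hos hSl hbl hq hqX hXq hks hX
  obtain ⟨h1, h2⟩ := h W hc hi hf hst hY hY3 hn hS hSb hlv hos hSl hbl hq hqX hXq hks hX
  exact ⟨by positivity, h1, fun ω ν hω hν ht hx hh => (h2 ω ν hω hν ht hx hh).1,
    fun ω ν hω hν ht hx hh hG => ((h2 ω ν hω hν ht hx hh).2 hG).1,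
    fun ω ν hω hν ht hx hh hG => ((h2 ω ν hω hν ht hx hh).2 hG).2⟩

/-- **The own paths over the window `w`**, target `c (k₀ + k)`, moved coordinates `c (k₀ + j)`. -/
structure AdW (F : Fam m J) (c : ℕ → Fin m) (k₀ k n q w : ℕ) (γ : ℕ → ℕ) (B : F.Ω → Prop)
    (G : ℕ → PtT F → ℕ → MvPolynomial (Option (Fin m)) ℝ)
    (H₀ : LnT F → ℕ → MvPolynomial (Option (Fin m)) ℝ) {β : Type} (d : AD F.Ω β k) : Prop where
  th : ∀ ω, B ω → d.th ω = rt F w ω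
  P : ∀ ω, B ω → d.P ω = Polynomial.C (2 ^ (γ (k₀ + k) + q)) *
    dv w (fun s (_ : Fin m) => H₀ s (k₀ + k)) (c (k₀ + k)) (slam F w ω)
  A : ∀ ω, B ω → ∀ j : Fin k, d.A ω j = Polynomial.C (2 ^ (γ (k₀ + j) + q)) *
    dv w (fun s (_ : Fin m) => H₀ s (k₀ + j)) (c (k₀ + j)) (slam F w ω)
  bb : ∀ ω, B ω → ∀ j : Fin k, d.bb ω j =
    (⌊2 ^ d.X * gnh F c (k₀ + k) γ (G 0) (G n) ω (k₀ + j)⌋ : ℤ) / 2 ^ d.X
  zt : ∀ ω ν, B ω → B ν → d.z ω = d.z ν → (slam F w ω).2.2 = (slam F w ν).2.2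
  zx : ∀ ω ν, B ω → B ν → d.z ω = d.z ν → ∀ l < k₀, F.u ω (c l) = F.u ν (c l) ∧
    F.d ω (c l) = F.d ν (c l)
  cls : Clsd F (k₀ + k + 1) w B (G 0) H₀

section AdW

variable {F : Fam m J} {c : ℕ → Fin m} {k₀ k ks n q w : ℕ} {γ : ℕ → ℕ} {B : F.Ω → Prop}
  {G : ℕ → PtT F → ℕ → MvPolynomial (Option (Fin m)) ℝ}
  {H₀ : LnT F → ℕ → MvPolynomial (Option (Fin m)) ℝ} {β : Type} {d : AD F.Ω β k}

/-- The own height is the height over the ball chart. -/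
theorem dv_hgt (hw : w ≤ J) {l : ℕ} {ω : F.Ω} (h : G 0 (ptr F J ω) l = H₀ (slam F w ω) l) :
    (dv w (fun s (_ : Fin m) => H₀ s l) (c l) (slam F w ω)).eval (rt F w ω) =
      hgt F c (G 0) ω l := by
  have h1 := eso_dv (c l) w (fun s => H₀ s l) (slam F w ω) (F.t ω)
  rw [rt_eq F hw ω, eso_at] at h1
  rw [← h1]
  unfold hgt
  rw [h]

theorem AdW.valP (h : AdW F c k₀ k n q w γ B G H₀ d) (hw : w ≤ J) {ω : F.Ω} (hω : B ω) :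
    (d.P ω).eval (d.th ω) = 2 ^ (γ (k₀ + k) + q) * hgt F c (G 0) ω (k₀ + k) := by
  rw [h.P ω hω, h.th ω hω, Polynomial.eval_mul, Polynomial.eval_C,
    dv_hgt hw (h.cls ω hω (k₀ + k) (by omega))]

theorem AdW.valA (h : AdW F c k₀ k n q w γ B G H₀ d) (hw : w ≤ J) {ω : F.Ω} (hω : B ω)
    (j : Fin k) :
    (d.A ω j).eval (d.th ω) = 2 ^ (γ (k₀ + j) + q) * hgt F c (G 0) ω (k₀ + j) := by
  have := j.2
  rw [h.A ω hω j, h.th ω hω, Polynomial.eval_mul, Polynomial.eval_C,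
    dv_hgt hw (h.cls ω hω (k₀ + j) (by omega))]

theorem AdW.time (h : AdW F c k₀ k n q w γ B G H₀ d) (hw : w ≤ J) {ω ν : F.Ω} (hω : B ω)
    (hν : B ν) (hz : d.z ω = d.z ν) (hth : d.th ω = d.th ν) : F.t ω = F.t ν := by
  have h1 := rt_eq F hw ω
  have h2 := rt_eq F hw ν
  rw [← h.th ω hω] at h1
  rw [← h.th ν hν, ← hth, ← h.zt ω ν hω hν hz] at h2
  have h3 : (2 : ℝ) ^ w * F.t ω = 2 ^ w * F.t ν := by linarith
  exact mul_left_cancel₀ (by positivity) h3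

theorem AdW.pos (h : AdW F c k₀ k n q w γ B G H₀ d) (hw : w ≤ J) {ω ν : F.Ω} (hω : B ω)
    (hν : B ν) (hz : d.z ω = d.z ν) (hth : d.th ω = d.th ν) :
    ∀ l < k₀, F.x ω (c l) = F.x ν (c l) := by
  intro l hl
  obtain ⟨h1, h2⟩ := h.zx ω ν hω hν hz l hl
  unfold Fam.x
  rw [h1, h2, h.time hw hω hν hz hth]

/-- Equal coefficients and equal upper digits: the heights are near. -/
theorem AdW.near (h : AdW F c k₀ k n q w γ B G H₀ d) (hw : w ≤ J) {K : ℕ} {ω ν : F.Ω}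
    (hω : B ω) (hν : B ν) (hth : d.th ω = d.th ν) (h01 : 0 ≤ d.th ω ∧ d.th ω < 1)
    (hA : (∀ j, (d.A ω j).natDegree ≤ K) ∧ ∀ j, (d.A ν j).natDegree ≤ K)
    (hK : (K : ℝ) ≤ 2 ^ (d.X + d.m)) (h1 : ∀ j (a : Fin K), d.ac K ω j a.succ = d.ac K ν j a.succ)
    (h2 : ∀ j, d.ac K ω j 0 / 2 ^ (d.X + d.m) = d.ac K ν j 0 / 2 ^ (d.X + d.m)) :
    ∀ l < k₀ + k, k₀ ≤ l → |hgt F c (G 0) ω l - hgt F c (G 0) ν l| ≤ 2 ^ 2 / 2 ^ (γ l + q) := by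
  intro l hl hl0
  obtain ⟨j, rfl⟩ : ∃ j : Fin k, l = k₀ + j := ⟨⟨l - k₀, by omega⟩, by
    show l = k₀ + (l - k₀)
    omega⟩
  have hp : (0 : ℝ) < 2 ^ (d.X + d.m) := by positivity
  have e1 := h.valA hw hω j
  have e2 := h.valA hw hν j
  rw [← hth] at e2
  have e3 : hgt F c (G 0) ω (k₀ + j) - hgt F c (G 0) ν (k₀ + j) =
      ((d.A ω j).eval (d.th ω) - (d.A ν j).eval (d.th ω)) / 2 ^ (γ (k₀ + j) + q) := by
    rw [e1, e2]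
    field_simp
  rw [e3, abs_div, abs_of_pos (show (0 : ℝ) < 2 ^ (γ (k₀ + j) + q) by positivity)]
  refine div_le_div_of_nonneg_right ?_ (by positivity)
  rw [AD.eval_fin (hA.1 j), AD.eval_fin (hA.2 j), ← Finset.sum_sub_distrib, Fin.sum_univ_succ]
  have f0 : ∀ (o : F.Ω) (a : Fin (K + 1)), (d.ac K o j a : ℝ) ≤ 2 ^ (d.X + d.m) *
      (d.A o j).coeff a ∧ 2 ^ (d.X + d.m) * (d.A o j).coeff a < d.ac K o j a + 1 := fun o a =>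
    ⟨Int.floor_le _, Int.lt_floor_add_one _⟩
  have g0 : |(d.A ω j).coeff ((0 : Fin (K + 1)) : ℕ) * d.th ω ^ ((0 : Fin (K + 1)) : ℕ) -
      (d.A ν j).coeff ((0 : Fin (K + 1)) : ℕ) * d.th ω ^ ((0 : Fin (K + 1)) : ℕ)| ≤ 1 := by
    simp only [Fin.val_zero, pow_zero, mul_one]
    obtain ⟨a1, a2⟩ := f0 ω 0
    obtain ⟨a3, a4⟩ := f0 ν 0
    simp only [Fin.val_zero] at a1 a2 a3 a4
    have p1 : (0 : ℤ) < 2 ^ (d.X + d.m) := by positivity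
    have b1 := Int.mul_ediv_add_emod (d.ac K ω j 0) (2 ^ (d.X + d.m))
    have b2 := Int.mul_ediv_add_emod (d.ac K ν j 0) (2 ^ (d.X + d.m))
    rw [h2 j] at b1
    have b3 := Int.emod_nonneg (d.ac K ω j 0) p1.ne'
    have b4 := Int.emod_lt_of_pos (d.ac K ω j 0) p1
    have b5 := Int.emod_nonneg (d.ac K ν j 0) p1.ne'
    have b6 := Int.emod_lt_of_pos (d.ac K ν j 0) p1
    have c1 : d.ac K ω j 0 - d.ac K ν j 0 + 1 ≤ 2 ^ (d.X + d.m) := by linarith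
    have c2 : d.ac K ν j 0 - d.ac K ω j 0 + 1 ≤ 2 ^ (d.X + d.m) := by linarith
    have c1' : (d.ac K ω j 0 : ℝ) - d.ac K ν j 0 + 1 ≤ 2 ^ (d.X + d.m) := by exact_mod_cast c1
    have c2' : (d.ac K ν j 0 : ℝ) - d.ac K ω j 0 + 1 ≤ 2 ^ (d.X + d.m) := by exact_mod_cast c2
    have d1 : 2 ^ (d.X + d.m) * ((d.A ω j).coeff 0 - (d.A ν j).coeff 0) ≤
        2 ^ (d.X + d.m) * 1 := by linarith
    have d2 : 2 ^ (d.X + d.m) * ((d.A ν j).coeff 0 - (d.A ω j).coeff 0) ≤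
        2 ^ (d.X + d.m) * 1 := by linarith
    have d3 := le_of_mul_le_mul_left d1 hp
    have d4 := le_of_mul_le_mul_left d2 hp
    rw [abs_le]
    constructor <;> linarith
  have g1 : ∀ a ∈ (univ : Finset (Fin K)), |(d.A ω j).coeff (a.succ : ℕ) *
      d.th ω ^ (a.succ : ℕ) - (d.A ν j).coeff (a.succ : ℕ) * d.th ω ^ (a.succ : ℕ)| ≤
      1 / 2 ^ (d.X + d.m) := by
    intro a _
    obtain ⟨a1, a2⟩ := f0 ω a.succ
    obtain ⟨a3, a4⟩ := f0 ν a.succ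
    rw [← h1 j a] at a3 a4
    rw [← sub_mul, abs_mul, abs_of_nonneg (pow_nonneg h01.1 _)]
    have c1 : |(d.A ω j).coeff (a.succ : ℕ) - (d.A ν j).coeff (a.succ : ℕ)| ≤
        1 / 2 ^ (d.X + d.m) := by
      rw [le_div_iff₀ hp]
      have e : |(d.A ω j).coeff (a.succ : ℕ) - (d.A ν j).coeff (a.succ : ℕ)| * 2 ^ (d.X + d.m) =
          |2 ^ (d.X + d.m) * ((d.A ω j).coeff (a.succ : ℕ) - (d.A ν j).coeff (a.succ : ℕ))| := by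
        rw [abs_mul, abs_of_pos hp, mul_comm]
      rw [e, abs_le]
      constructor <;> linarith
    have c2 : d.th ω ^ (a.succ : ℕ) ≤ 1 := pow_le_one₀ h01.1 h01.2.le
    calc _ ≤ 1 / 2 ^ (d.X + d.m) * 1 := mul_le_mul c1 c2 (pow_nonneg h01.1 _) (by positivity)
      _ = _ := mul_one _
  refine (abs_add_le _ _).trans ((add_le_add g0 ((Finset.abs_sum_le_sum_abs _ _).trans
    (Finset.sum_le_sum g1))).trans ?_)
  rw [Finset.sum_const, Finset.card_univ, Fintype.card_fin, nsmul_eq_mul, mul_one_div]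
  have : (K : ℝ) / 2 ^ (d.X + d.m) ≤ 1 := (div_le_one hp).2 hK
  linarith

/-- The rounded gradient is near the gradient. -/
theorem AdW.bbr (h : AdW F c k₀ k n q w γ B G H₀ d) {ω : F.Ω} (hω : B ω) (j : Fin k) :
    |gnh F c (k₀ + k) γ (G 0) (G n) ω (k₀ + j) - d.bb ω j| ≤ 1 / 2 ^ d.X := by
  have hX : (0 : ℝ) < 2 ^ d.X := by positivity
  rw [h.bb ω hω j]
  have f1 := Int.floor_le (2 ^ d.X * gnh F c (k₀ + k) γ (G 0) (G n) ω (k₀ + j))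
  have f2 := Int.lt_floor_add_one (2 ^ d.X * gnh F c (k₀ + k) γ (G 0) (G n) ω (k₀ + j))
  rw [le_div_iff₀ hX]
  have e : |gnh F c (k₀ + k) γ (G 0) (G n) ω (k₀ + j) -
      (⌊2 ^ d.X * gnh F c (k₀ + k) γ (G 0) (G n) ω (k₀ + j)⌋ : ℤ) / 2 ^ d.X| * 2 ^ d.X =
      |2 ^ d.X * gnh F c (k₀ + k) γ (G 0) (G n) ω (k₀ + j) -
        (⌊2 ^ d.X * gnh F c (k₀ + k) γ (G 0) (G n) ω (k₀ + j)⌋ : ℤ)| := by
    rw [show |gnh F c (k₀ + k) γ (G 0) (G n) ω (k₀ + j) -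
      (⌊2 ^ d.X * gnh F c (k₀ + k) γ (G 0) (G n) ω (k₀ + j)⌋ : ℤ) / 2 ^ d.X| * 2 ^ d.X =
      |gnh F c (k₀ + k) γ (G 0) (G n) ω (k₀ + j) -
      (⌊2 ^ d.X * gnh F c (k₀ + k) γ (G 0) (G n) ω (k₀ + j)⌋ : ℤ) / 2 ^ d.X| * |2 ^ d.X| by
        rw [abs_of_pos hX], ← abs_mul, sub_mul, div_mul_cancel₀ _ hX.ne', mul_comm (gnh _ _ _ _ _ _ _ _)]
  rw [e, abs_le]
  constructor <;> linarith

/-- **The field `bm`.** -/
theorem AdW.bm (h : AdW F c k₀ k n q w γ B G H₀ d) {U : ℝ}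
    (E : GrdE F c k₀ (k₀ + k) ks n q d.X γ U B G) {ω : F.Ω} (hω : B ω) (j : Fin k) :
    |d.bb ω j| ≤ U + 1 := by
  have h1 := h.bbr hω j
  have h2 := E.bm ω hω (k₀ + j) (by have := j.2; omega) (by omega)
  have h3 : (1 : ℝ) / 2 ^ d.X ≤ 1 := by
    rw [div_le_one (by positivity)]
    exact one_le_pow₀ (by norm_num)
  have h4 := abs_le.mp h1
  have h5 := abs_le.mp h2
  rw [abs_le]
  constructor <;> linarith [h4.1, h4.2, h5.1, h5.2]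

/-- The rounded gradient is few bits given a record which knows the charts of the windows
`0, .., n'`, time and the upper digits of the base coordinates. -/
theorem AdW.bb_v (h : AdW F c k₀ k n q w γ B G H₀ d) (hw : w ≤ J) {U : ℝ} (hU : 0 ≤ U) {n' : ℕ}
    (hb : ∀ ω ν, B ω → B ν → F.t ω = F.t ν → (∀ l < k₀, F.x ω (c l) = F.x ν (c l)) →
      (∀ j < k₀ + k, k₀ ≤ j →
        |hgt F c (G 0) ω j - hgt F c (G 0) ν j| ≤ 2 ^ 2 / 2 ^ (γ j + q)) →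
      (∀ i ≤ n', ∀ l ≤ k₀ + k, G i (ptr F J ω) l = G i (ptr F J ν) l) → ∀ j < k₀ + k, k₀ ≤ j →
        |gnh F c (k₀ + k) γ (G 0) (G n) ω j - gnh F c (k₀ + k) γ (G 0) (G n) ν j| ≤
          U / 2 ^ d.X)
    {p : F.Ω → ℝ} (hp : IsLaw p) (hpB : ∀ ω, 0 < p ω → B ω) {K : ℕ}
    (hth : ∀ ω, 0 < p ω → 0 ≤ d.th ω ∧ d.th ω < 1)
    (hA : ∀ ω, 0 < p ω → ∀ j, (d.A ω j).natDegree ≤ K) (hK : (K : ℝ) ≤ 2 ^ (d.X + d.m))
    {ρ : Type} (R : F.Ω → ρ) :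
    CH p d.bb (fun ω => (R ω, (d.th ω, d.v K ω))) ≤
      CH p (chs F (k₀ + k) n' G) R + k * Real.log (2 * (U + 1) + 1) := by
  have h0 := hp.nonneg
  have hX : (0 : ℝ) < 2 ^ d.X := by positivity
  have h1 := CH_le_add h0 d.bb (chs F (k₀ + k) n' G) (fun ω => (R ω, (d.th ω, d.v K ω)))
  have h2 : CH p (chs F (k₀ + k) n' G) (fun ω => (R ω, (d.th ω, d.v K ω))) ≤
      CH p (chs F (k₀ + k) n' G) R := CH_mono_cond h0 fun _ _ _ _ e => (Prod.ext_iff.mp e).1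
  have h3 : CH p d.bb (fun ω => (chs F (k₀ + k) n' G ω, (R ω, (d.th ω, d.v K ω)))) ≤
      CH p (fun ω (j : Fin k) => ⌊2 ^ d.X * gnh F c (k₀ + k) γ (G 0) (G n) ω (k₀ + j)⌋)
        (fun ω => (chs F (k₀ + k) n' G ω, (R ω, (d.th ω, d.v K ω)))) := by
    refine CH_mono_left h0 fun ω ν hω hν e => ?_
    have e1 := (Prod.ext_iff.mp e).1
    funext j
    rw [h.bb ω (hpB ω hω) j, h.bb ν (hpB ν hν) j]
    have e2 := congrFun e1 j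
    simp only at e2
    rw [e2]
  have h4 := Pool.OWN83.CH_vec (p := p) h0
    (fun ω => (chs F (k₀ + k) n' G ω, (R ω, (d.th ω, d.v K ω)))) (c := Real.log (2 * (U + 1) + 1))
    k (fun ω (j : Fin k) => ⌊2 ^ d.X * gnh F c (k₀ + k) γ (G 0) (G n) ω (k₀ + j)⌋) (fun j => ?_)
  · linarith
  refine CH_pair_int hp _ _ (by linarith) fun ω ν hω hν e => ?_
  obtain ⟨e1, e2⟩ := Prod.ext_iff.mp e
  obtain ⟨_, e3⟩ := Prod.ext_iff.mp e2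
  obtain ⟨e4, e5⟩ := Prod.ext_iff.mp e3
  obtain ⟨e6, e7⟩ := Prod.ext_iff.mp e5
  obtain ⟨e8, e9⟩ := Prod.ext_iff.mp e7
  have t1 := h.time hw (hpB ω hω) (hpB ν hν) e6 e4
  have x1 := h.pos hw (hpB ω hω) (hpB ν hν) e6 e4
  have n1 := h.near hw (hpB ω hω) (hpB ν hν) e4 (hth ω hω) ⟨hA ω hω, hA ν hν⟩ hK
    (fun j a => congrFun (congrFun e8 j) a) (fun j => congrFun e9 j)
  have b1 := hb ω ν (hpB ω hω) (hpB ν hν) t1 x1 n1 (chs_eq e1) (k₀ + j)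
    (by have := j.2; omega) (by omega)
  rw [le_div_iff₀ hX] at b1
  have b2 : |2 ^ d.X * gnh F c (k₀ + k) γ (G 0) (G n) ω (k₀ + j) -
      2 ^ d.X * gnh F c (k₀ + k) γ (G 0) (G n) ν (k₀ + j)| ≤ U := by
    rw [← mul_sub, abs_mul, abs_of_pos hX, mul_comm]
    exact b1
  have b3 := abs_le.mp b2
  have f1 := Int.floor_le (2 ^ d.X * gnh F c (k₀ + k) γ (G 0) (G n) ω (k₀ + j))
  have f2 := Int.lt_floor_add_one (2 ^ d.X * gnh F c (k₀ + k) γ (G 0) (G n) ω (k₀ + j))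
  have f3 := Int.floor_le (2 ^ d.X * gnh F c (k₀ + k) γ (G 0) (G n) ν (k₀ + j))
  have f4 := Int.lt_floor_add_one (2 ^ d.X * gnh F c (k₀ + k) γ (G 0) (G n) ν (k₀ + j))
  rw [abs_le]
  constructor <;> linarith [b3.1, b3.2]

/-- **The field `bbj`.** -/
theorem AdW.bbj (h : AdW F c k₀ k n q w γ B G H₀ d) (hw : w ≤ J) {U : ℝ}
    (E : GrdE F c k₀ (k₀ + k) ks n q d.X γ U B G)
    {p : F.Ω → ℝ} (hp : IsLaw p) (hpB : ∀ ω, 0 < p ω → B ω) {K : ℕ}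
    (hth : ∀ ω, 0 < p ω → 0 ≤ d.th ω ∧ d.th ω < 1)
    (hA : ∀ ω, 0 < p ω → ∀ j, (d.A ω j).natDegree ≤ K) (hK : (K : ℝ) ≤ 2 ^ (d.X + d.m))
    {ρ : Type} (Rj : F.Ω → ρ) :
    CH p d.bb (fun ω => (Rj ω, (d.th ω, d.g K ω))) ≤
      CH p (chs F (k₀ + k) ks G) Rj + k * Real.log (2 * (U + 1) + 1) :=
  (CH_mono_cond hp.nonneg fun ω ω' a a' e => by
    obtain ⟨e1, e2⟩ := Prod.ext_iff.mp e
    obtain ⟨e3, e4⟩ := Prod.ext_iff.mp e2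
    exact Prod.ext e1 (Prod.ext e3 (AD.det_wv p ω ω' a a' (AD.det_gw p ω ω' a a' e4)))).trans
    (h.bb_v hw E.U0 E.bj hp hpB hth hA hK Rj)

/-- **The field `bbx`.** -/
theorem AdW.bbx (h : AdW F c k₀ k n q w γ B G H₀ d) (hw : w ≤ J) {U : ℝ}
    (E : GrdE F c k₀ (k₀ + k) ks n q d.X γ U B G)
    {p : F.Ω → ℝ} (hp : IsLaw p) (hpB : ∀ ω, 0 < p ω → B ω) {K : ℕ}
    (hth : ∀ ω, 0 < p ω → 0 ≤ d.th ω ∧ d.th ω < 1)
    (hA : ∀ ω, 0 < p ω → ∀ j, (d.A ω j).natDegree ≤ K) (hK : (K : ℝ) ≤ 2 ^ (d.X + d.m))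
    {ρ : Type} (Rx : F.Ω → ρ) :
    CH p d.bb (fun ω => (Rx ω, (d.th ω, d.w K ω))) ≤
      CH p (chs F (k₀ + k) n G) Rx + k * Real.log (2 * (U + 1) + 1) :=
  (CH_mono_cond hp.nonneg fun ω ω' a a' e => by
    obtain ⟨e1, e2⟩ := Prod.ext_iff.mp e
    obtain ⟨e3, e4⟩ := Prod.ext_iff.mp e2
    exact Prod.ext e1 (Prod.ext e3 (AD.det_wv p ω ω' a a' e4))).trans
    (h.bb_v hw E.U0 E.bx hp hpB hth hA hK Rx)

/-- **The field `Nx`.** -/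
theorem AdW.Nx (h : AdW F c k₀ k n q w γ B G H₀ d) (hw : w ≤ J) {U : ℝ}
    (E : GrdE F c k₀ (k₀ + k) ks n q d.X γ U B G)
    {p : F.Ω → ℝ} (hp : IsLaw p) (hpB : ∀ ω, 0 < p ω → B ω) {K : ℕ}
    (hth : ∀ ω, 0 < p ω → 0 ≤ d.th ω ∧ d.th ω < 1)
    (hP : ∀ ω, 0 < p ω → (d.P ω).natDegree ≤ K)
    (hA : ∀ ω, 0 < p ω → ∀ j, (d.A ω j).natDegree ≤ K) (hK : (K : ℝ) ≤ 2 ^ (d.X + d.m))
    (hm : U + 1 ≤ 2 ^ d.m) {ρ : Type} (Rx : F.Ω → ρ) :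
    CH p (d.N K) (fun ω => (Rx ω, (d.T ω, d.g K ω))) ≤
      CH p (chs F (k₀ + k) n G) Rx +
        Real.log (2 * (U + 4 * k + 2 * ((K + 1) * (k + 1)) + 1) + 1) := by
  have h0 := hp.nonneg
  have hX : (0 : ℝ) < 2 ^ d.X := by positivity
  have h1 := CH_le_add h0 (d.N K) (chs F (k₀ + k) n G) (fun ω => (Rx ω, (d.T ω, d.g K ω)))
  have h2 : CH p (chs F (k₀ + k) n G) (fun ω => (Rx ω, (d.T ω, d.g K ω))) ≤
      CH p (chs F (k₀ + k) n G) Rx := CH_mono_cond h0 fun _ _ _ _ e => (Prod.ext_iff.mp e).1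
  have hU := E.U0
  have h3 := AD.N_few hp hth hP hA (fun ω hω j => (h.bm E (hpB ω hω) j).trans hm)
    (fun ω => (chs F (k₀ + k) n G ω, (Rx ω, (d.T ω, d.g K ω))))
    (fun _ _ _ _ e => (Prod.ext_iff.mp (Prod.ext_iff.mp e).2).2) (B := U + 4 * k)
    (by positivity) ?_
  · linarith
  intro ω ν hω hν e
  obtain ⟨e1, e2⟩ := Prod.ext_iff.mp e
  obtain ⟨_, e3⟩ := Prod.ext_iff.mp e2
  obtain ⟨e4, e5⟩ := Prod.ext_iff.mp e3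
  have e6 : d.th ω = d.th ν := (Prod.ext_iff.mp e4).1
  have e7 : d.bb ω = d.bb ν := (Prod.ext_iff.mp e4).2
  have e8 := AD.det_wv p ω ν hω hν (AD.det_gw p ω ν hω hν e5)
  obtain ⟨e9, e10⟩ := Prod.ext_iff.mp e8
  obtain ⟨e11, e12⟩ := Prod.ext_iff.mp e10
  have t1 := h.time hw (hpB ω hω) (hpB ν hν) e9 e6
  have x1 := h.pos hw (hpB ω hω) (hpB ν hν) e9 e6
  have n1 := h.near hw (hpB ω hω) (hpB ν hν) e6 (hth ω hω) ⟨hA ω hω, hA ν hν⟩ hK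
    (fun j a => congrFun (congrFun e11 j) a) (fun j => congrFun e12 j)
  have b1 := E.nx ω ν (hpB ω hω) (hpB ν hν) t1 x1 n1 (chs_eq e1)
  rw [Finset.sum_Ico_eq_sum_range, Nat.add_sub_cancel_left, Finset.sum_range] at b1
  have e13 : d.Q ω - d.Q ν = 2 ^ d.X *
      (2 ^ (γ (k₀ + k) + q) * (hgt F c (G 0) ω (k₀ + k) - hgt F c (G 0) ν (k₀ + k)) -
      ∑ j : Fin k, d.bb ω j * (2 ^ (γ (k₀ + j) + q) *
        (hgt F c (G 0) ω (k₀ + j) - hgt F c (G 0) ν (k₀ + j)))) := by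
    unfold AD.Q
    rw [h.valP hw (hpB ω hω), h.valP hw (hpB ν hν), ← mul_sub]
    congr 1
    simp only [h.valA hw (hpB ω hω), h.valA hw (hpB ν hν), ← e7, mul_sub,
      Finset.sum_sub_distrib]
    ring
  have b2 : |∑ j : Fin k, (gnh F c (k₀ + k) γ (G 0) (G n) ω (k₀ + j) - d.bb ω j) *
      (2 ^ (γ (k₀ + j) + q) * (hgt F c (G 0) ω (k₀ + j) - hgt F c (G 0) ν (k₀ + j)))| ≤
      k * (1 / 2 ^ d.X * 2 ^ 2) := by
    refine (Finset.abs_sum_le_sum_abs _ _).trans ?_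
    refine (Finset.sum_le_sum (g := fun _ => 1 / 2 ^ d.X * (2 : ℝ) ^ 2) fun j _ => ?_).trans
      (le_of_eq ?_)
    · rw [abs_mul]
      refine mul_le_mul (h.bbr (hpB ω hω) j) ?_ (abs_nonneg _) (by positivity)
      have h5 := n1 (k₀ + j) (by have := j.2; omega) (by omega)
      have h6 : (0 : ℝ) < 2 ^ (γ (k₀ + j) + q) := by positivity
      rw [abs_mul, abs_of_pos h6, mul_comm]
      exact (le_div_iff₀ h6).1 h5
    · rw [Finset.sum_const, Finset.card_univ, Fintype.card_fin, nsmul_eq_mul]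
  have e14 : 2 ^ (γ (k₀ + k) + q) * (hgt F c (G 0) ω (k₀ + k) - hgt F c (G 0) ν (k₀ + k)) -
      ∑ j : Fin k, d.bb ω j * (2 ^ (γ (k₀ + j) + q) *
        (hgt F c (G 0) ω (k₀ + j) - hgt F c (G 0) ν (k₀ + j))) =
      (2 ^ (γ (k₀ + k) + q) * (hgt F c (G 0) ω (k₀ + k) - hgt F c (G 0) ν (k₀ + k)) -
      ∑ j : Fin k, gnh F c (k₀ + k) γ (G 0) (G n) ω (k₀ + j) * (2 ^ (γ (k₀ + j) + q) *
        (hgt F c (G 0) ω (k₀ + j) - hgt F c (G 0) ν (k₀ + j)))) +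
      ∑ j : Fin k, (gnh F c (k₀ + k) γ (G 0) (G n) ω (k₀ + j) - d.bb ω j) *
      (2 ^ (γ (k₀ + j) + q) * (hgt F c (G 0) ω (k₀ + j) - hgt F c (G 0) ν (k₀ + j))) := by
    simp only [sub_mul, Finset.sum_sub_distrib]
    ring
  rw [e13, abs_mul, abs_of_pos hX, e14]
  have b3 := (abs_add_le (2 ^ (γ (k₀ + k) + q) *
      (hgt F c (G 0) ω (k₀ + k) - hgt F c (G 0) ν (k₀ + k)) -
      ∑ j : Fin k, gnh F c (k₀ + k) γ (G 0) (G n) ω (k₀ + j) * (2 ^ (γ (k₀ + j) + q) *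
        (hgt F c (G 0) ω (k₀ + j) - hgt F c (G 0) ν (k₀ + j))))
      (∑ j : Fin k, (gnh F c (k₀ + k) γ (G 0) (G n) ω (k₀ + j) - d.bb ω j) *
      (2 ^ (γ (k₀ + j) + q) * (hgt F c (G 0) ω (k₀ + j) - hgt F c (G 0) ν (k₀ + j))))).trans
      (add_le_add b1 b2)
  refine (mul_le_mul_of_nonneg_left b3 hX.le).trans (le_of_eq ?_)
  field_simp
  ring

end AdW

end Pool.D2R
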