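import Pool.Agent.H23.D2.Wno

/-!
# The class end over real windows

`win_no'`: as `win_no`, where the window `o k₀` and the radius `a'` of `Wins` are real numbers near
the rational numbers `w`, `a` of the thresholds.
-/

set_option autoImplicit false

namespace Pool.D2R

open Finset Real MvPolynomial
open Pool.Agent.H49.Ent Pool.Agent.H32.Dense Pool.STK Pool.KA Pool.KSAT Pool.K2S Pool.PB Pool.S6C
open Pool.GEN Pool.CHT Pool.CHX Pool.ISO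
open Pool.LBT (ThrOf)
open Pool.LEV (Law)
open Pool.FLF (Fam.sub)

variable {m J : ℕ}

/-- **A closed gradient with gain is impossible, in a class**: the class end over `Wins`, windows
near rational numbers. -/
theorem win_no' (m D₁ D i : ℕ) (hD : 1 ≤ D) : ∃ C : ℝ, 1 ≤ C ∧ ∀ {S : PCl m}
    {P : List (Fin m) × Fin m → ℝ → ℝ → ℝ} {θ : ℝ} {c : ℕ → Fin m} {R : ℕ → Prop}
    {C₀ Eb ηm ζ : ℝ} {o ε p' η σ : ℕ → ℝ} {lv be : ℕ → ℕ → ℝ} {r Dr N M k₀ n : ℕ} {a w : ℚ}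
    {a' q₁ s₁ h e : ℝ}, ThrOf (chsys m θ) S P → TmH S → Set.InjOn c (Set.Iio (r + 1)) → i ≤ r →
    k₀ ≤ N → n ≤ N → o k₀ ≤ w → w ≤ o k₀ + ζ → a' ≤ a → a ≤ a' + ζ → 0 ≤ w → w ≤ a → a ≤ 1 → w < 1 → e < θ * w → 0 < h → 0 < ζ →
    C₀ * ηm ≤ ζ → 0 ≤ q₁ → bet P c i a w + h ≤ 1 → Eb + C * ζ ≤ e →
    bet P c i a w + h + C * ζ ≤ lv k₀ i + s₁ + (a - w) →
    bet P c i a w + h + C * ζ ≤ lv n i - (o n - w) + (a - w) →
    bet P c i a w + h + C * ζ + q₁ ≤ lv k₀ i + 2 * (a - w) → q₁ + C * ζ ≤ a - w →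
    (∀ l ≤ i, Eb + lv k₀ l + 2 * (a - w) + C * ζ ≤ 1) → (∀ l < i, ¬ R l → be k₀ l ≤ 1) →
    (∀ j < i, lv k₀ j ≤ lv k₀ i + ζ ∨ (R j ∧ bet P c i a w + h ≤ lv k₀ i + (a - w) + ζ) ∨
      (¬ R j ∧ lv k₀ j + (bet P c i a w + h) ≤ lv k₀ i + be k₀ j + ζ)) →
    ∃ δ : ℝ, 0 < δ ∧ Bas S (fun J F A => ∀ (z : ℕ → ℕ → ℕ) (κ : ℝ) (b : ℕ → ℕ → ℝ)
      (B : F.Ω → Prop) (gc gT g₀ : ℕ → ℕ → ℕ)
      (G : ℕ → PtT F → ℕ → MvPolynomial (Option (Fin m)) ℝ)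
      (H : ℕ → LnT F → ℕ → MvPolynomial (Option (Fin m)) ℝ)
      (T : ℕ → PtT F → ℕ → MvPolynomial (Option (Fin m)) ℝ)
      (TH : ℕ → LnT F → ℕ → MvPolynomial (Option (Fin m)) ℝ)
      (Gt : ℕ → PtT F → MvPolynomial (Option (Fin m)) ℝ)
      (Ht : ℕ → LnT F → MvPolynomial (Option (Fin m)) ℝ) (jq : ℕ),
      Wins F c r D Dr N M R C₀ a' Eb ηm o ε p' η σ lv be b κ z B gc gT g₀ G H T TH Gt Ht →
      Sub B A → jq ≤ M → z k₀ jq = ⌊q₁ * J⌋₊ →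
      ∀ (B' : F.Ω → Prop) (Gp : PtT F → MvPolynomial (Option (Fin m)) ℝ)
      (lam : LnT F → ℕ → Polynomial ℝ), Sub B' B →
      (∀ ω ν, B' ω → B' ν → ptr F J ω = ptr F J ν →
        |bd F ν (some (c i)) - dd (Gp (ptr F J ω)) (bt F ω) (bd F ν)| ≤
          2 ^ ⌊ζ * J⌋₊ * 2 ^ ⌊o n * J⌋₊ / 2 ^ g₀ n i) →
      (∀ ω, B' ω → ∀ V : Option (Fin m) → ℝ, V none = 0 →
        |dd (Gp (ptr F J ω)) (bt F ω) V - dd (G k₀ (ptr F J ω) i) (bt F ω) V| ≤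
          2 ^ ⌊ζ * J⌋₊ / 2 ^ g₀ k₀ i *
            nrm c (G k₀ (ptr F J ω)) (g₀ k₀) ⌊o k₀ * J⌋₊ i (bt F ω) V) →
      (∀ ω ν, B' ω → B' ν → ptr F J ω = ptr F J ν → ∀ V : Option (Fin m) → ℝ,
        V none = 0 → |dd (Gp (ptr F J ω)) (bt F ν) V - dd (Gp (ptr F J ω)) (bt F ω) V| ≤
          2 ^ ⌊ζ * J⌋₊ / 2 ^ (g₀ k₀ i + ⌊s₁ * J⌋₊) *
            nrm c (G k₀ (ptr F J ω)) (g₀ k₀) ⌊o k₀ * J⌋₊ i (bt F ω) V) →
      (∀ s l, (lam s l).natDegree ≤ D₁) →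
      (∀ ω, B' ω → ∀ V : Option (Fin m) → ℝ, V none = 0 →
        |∑ l ∈ range i, (lam (slam F ⌊o k₀ * J⌋₊ ω) l).eval
            (Pool.PB.Trl.rt F ⌊o k₀ * J⌋₊ ω) * V (some (c l)) -
          dd (Gp (ptr F J ω)) (bt F ω) V| ≤ 2 ^ ⌊ζ * J⌋₊ / 2 ^ (g₀ k₀ i + ⌊s₁ * J⌋₊) *
            nrm c (G k₀ (ptr F J ω)) (g₀ k₀) ⌊o k₀ * J⌋₊ i (bt F ω) V) →
      Pe F.p B' ≤ Real.exp (-(δ * J)) * Pe F.p A) := by
  obtain ⟨C', hC', hDC, hcon⟩ := con_no (m := m) D₁ D i hD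
  have hC'R : (1 : ℝ) ≤ C' := by exact_mod_cast hC'
  refine ⟨2 * C' + 100, by linarith, ?_⟩
  intro S P θ c R C₀ Eb ηm ζ o ε p' η σ lv be r Dr N M k₀ n a w a' q₁ s₁ h e hP hS hc hi hk₀ hn
    how1 how2 haa1 haa2 hw hwa ha hw1 he hh hζ hCη hq₁ hbet hEe h1 h2 h3 h4 h5 hbe hnl
  have hci : Set.InjOn c (Set.Iio (i + 1)) := hc.mono fun y hy => by
    rw [Set.mem_Iio] at hy ⊢
    omega
  obtain ⟨δ, hδ, hbas⟩ := hcon hP hS c hci a w e h ζ hw hwa ha hw1 he hh hζ hbet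
  refine ⟨δ, hδ, ?_⟩
  obtain ⟨J₁, hJ₁⟩ := exists_nat_gt (1 / ζ)
  refine Bas.mono J₁ hbas ?_
  intro J hJ F A hA z κ b B gc gT g₀ G H T TH Gt Ht jq W hBA hjq hzq B' Gp lam hB' hvel hgpn hshf
    hd hspa
  have hJ0 : (0 : ℝ) ≤ J := Nat.cast_nonneg J
  have hζJ : 1 ≤ ζ * J := by
    have : 1 / ζ < J := hJ₁.trans_le (by exact_mod_cast hJ)
    rw [div_lt_iff₀ hζ] at this
    linarith
  -- the unit
  obtain ⟨Y, hY⟩ : ∃ Y : ℕ, Y = ⌊ζ * J⌋₊ + 1 := ⟨_, rfl⟩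
  have hY1 : ζ * J ≤ Y := by
    rw [hY]
    push_cast
    exact (Nat.lt_floor_add_one _).le
  have hY2 : (Y : ℝ) ≤ 2 * (ζ * J) := by
    rw [hY]
    push_cast
    have := Nat.floor_le (by linarith : 0 ≤ ζ * (J : ℝ))
    linarith
  have hYp : (2 : ℝ) ^ ⌊ζ * J⌋₊ ≤ 2 ^ Y := by
    rw [hY]
    exact pow_le_pow_right₀ (by norm_num) (Nat.le_succ _)
  have hYone : 1 ≤ Y := by omega
  have hCY : C₀ * (ηm * J) ≤ Y := by
    have : C₀ * (ηm * J) = C₀ * ηm * J := by ring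
    rw [this]
    exact (mul_le_mul_of_nonneg_right hCη hJ0).trans hY1
  have hηm0 : 0 ≤ ηm := (W.hη k₀ hk₀).1.trans (W.hη k₀ hk₀).2
  have hηY : ηm * J ≤ Y := (le_mul_of_one_le_left (mul_nonneg hηm0 hJ0) W.C1).trans hCY
  -- the times
  have hwR : (0 : ℝ) ≤ w := by exact_mod_cast hw
  have hwaR : (w : ℝ) ≤ a := by exact_mod_cast hwa
  obtain ⟨ho0, hoa⟩ := W.ho k₀ hk₀
  have hfw1 : (⌊o k₀ * J⌋₊ : ℝ) ≤ w * J := (Nat.floor_le (mul_nonneg ho0 hJ0)).trans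
    (mul_le_mul_of_nonneg_right how1 hJ0)
  have hfw2 : (w : ℝ) * J ≤ ⌊o k₀ * J⌋₊ + 1 + ζ * J := by
    have t1 := (Nat.lt_floor_add_one (o k₀ * (J : ℝ))).le
    have t2 := mul_le_mul_of_nonneg_right how2 hJ0
    linarith
  have hfa1 : (⌊a' * J⌋₊ : ℝ) ≤ a * J := (Nat.floor_le (mul_nonneg (ho0.trans hoa) hJ0)).trans
    (mul_le_mul_of_nonneg_right haa1 hJ0)
  have hfa2 : (a : ℝ) * J ≤ ⌊a' * J⌋₊ + 1 + ζ * J := by
    have t1 := (Nat.lt_floor_add_one (a' * (J : ℝ))).le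
    have t2 := mul_le_mul_of_nonneg_right haa2 hJ0
    linarith
  have hfl : ⌊o k₀ * J⌋₊ ≤ ⌊a' * J⌋₊ := Nat.floor_le_floor
    (mul_le_mul_of_nonneg_right hoa hJ0)
  obtain ⟨v, hv⟩ : ∃ v : ℕ, v = ⌊a' * J⌋₊ - ⌊o k₀ * J⌋₊ := ⟨_, rfl⟩
  have hvR : (v : ℝ) = ⌊a' * J⌋₊ - ⌊o k₀ * J⌋₊ := by rw [hv, Nat.cast_sub hfl]
  obtain ⟨q, hq⟩ : ∃ q : ℕ, q = ⌊q₁ * J⌋₊ := ⟨_, rfl⟩
  have hq1 : (q : ℝ) ≤ q₁ * J := by rw [hq]; exact Nat.floor_le (mul_nonneg hq₁ hJ0)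
  have hmul : ∀ {x y : ℝ}, x ≤ y → x * (J : ℝ) ≤ y * J := fun h =>
    mul_le_mul_of_nonneg_right h hJ0
  have hΛ : (2 * C' + 100) * ζ * (J : ℝ) ≥ 2 * C' + 50 * Y := by
    have e1 : (2 * C' + 100) * ζ * (J : ℝ) = 2 * C' * (ζ * J) + 50 * (2 * (ζ * J)) := by ring
    rw [e1]
    have e2 : 2 * (C' : ℝ) * 1 ≤ 2 * C' * (ζ * J) := mul_le_mul_of_nonneg_left hζJ (by linarith)
    linarith
  have g1 := hmul h1
  have g2 := hmul h2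
  have g3 := hmul h3
  have g4 := hmul h4
  have hYR : (1 : ℝ) ≤ Y := by exact_mod_cast hYone
  have hqv : q + 2 * Y + 2 ≤ v := by
    have h6 : ((q + 2 * Y + 2 : ℕ) : ℝ) ≤ (v : ℕ) := by
      push_cast
      rw [hvR]
      linarith
    exact_mod_cast h6
  obtain ⟨nn, hnn⟩ : ∃ nn : ℕ, nn = v - q - 2 * Y := ⟨_, rfl⟩
  have hnn' : q + nn + 2 * Y = v := by omega
  have hnnR : (q : ℝ) + nn + 2 * Y = v := by exact_mod_cast hnn'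
  obtain ⟨s, hs⟩ : ∃ s : ℕ, s = ⌊s₁ * J⌋₊ := ⟨_, rfl⟩
  have hs1 : s₁ * J ≤ s + 1 := by rw [hs]; exact (Nat.lt_floor_add_one _).le
  rw [← hs] at hshf hspa
  obtain ⟨p, hp⟩ : ∃ p : ℕ, p = ⌊(bet P c i a w + h) * J⌋₊ := ⟨_, rfl⟩
  have hβ : 0 ≤ bet P c i a w := (hwR.trans hwaR).trans (hP.low _ _ _ hwR hwaR (by
    exact_mod_cast ha))
  have hpR : (p : ℝ) ≤ (bet P c i a w + h) * J := by
    rw [hp]
    exact Nat.floor_le (mul_nonneg (by linarith) hJ0)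
  have hfE : (⌊(Eb + 2 * ηm) * J⌋₊ : ℝ) ≤ (Eb + 2 * ηm) * J :=
    Nat.floor_le (mul_nonneg (by linarith [W.Eb0]) hJ0)
  have hL := win_lin (D₁ := D₁) W (B' := B') (Gp := Gp) (lam := lam) (i := i) (k₀ := k₀)
    (jq := jq) (q := q) (nn := nn) (s := s) (Y := Y)
    (ε₂ := 2 ^ ⌊ζ * J⌋₊ * 2 ^ ⌊o n * J⌋₊ / 2 ^ g₀ n i) hi hk₀ hjq (by rw [hzq, hq]) hCY hYone (by omega) hB' hvel (fun ω hω V hV => by
      exact (hgpn ω hω V hV).trans (mul_le_mul_of_nonneg_right (div_le_div_of_nonneg_right hYp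
        (by positivity)) (nrm_nonneg _ _ _ _ _ _ _)))
    (fun ω ν hω hν hpt V hV => by
      exact (hshf ω ν hω hν hpt V hV).trans (mul_le_mul_of_nonneg_right
        (div_le_div_of_nonneg_right hYp (by positivity)) (nrm_nonneg _ _ _ _ _ _ _))) hd
    (fun ω hω V hV => by
      exact (hspa ω hω V hV).trans (mul_le_mul_of_nonneg_right (div_le_div_of_nonneg_right hYp
        (by positivity)) (nrm_nonneg _ _ _ _ _ _ _)))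
  have hth := (W.evs k₀ hk₀).thin
  have haw : ⌊o k₀ * J⌋₊ + (⌊a' * J⌋₊ - ⌊o k₀ * J⌋₊) = ⌊a' * J⌋₊ := by omega
  rw [haw] at hth
  obtain ⟨-, -, hgi1, -, -, -⟩ := W.g_num hk₀ hi
  obtain ⟨-, -, hgn1, -, -, -⟩ := W.g_num hn hi
  obtain ⟨hbi, -⟩ := W.g_num hk₀ hi
  refine hA ⌊a' * J⌋₊ ⌊o k₀ * J⌋₊ (⌊o k₀ * J⌋₊ + q) nn (5 * Y)
    ⌊(Eb + 2 * ηm) * J⌋₊ (7 * Y) p (fun _ => D) (fun l => ⌊b k₀ l * J⌋₊ + q) (gT k₀)
    (2 ^ (3 * Y) / 2 ^ (g₀ k₀ i + s + q)) (2 ^ ⌊ζ * J⌋₊ * 2 ^ ⌊o n * J⌋₊ / 2 ^ g₀ n i) B'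
    (fun y l => Gno (c l) J J (fun y => G k₀ y l) y) (H k₀) (T k₀) (TH k₀) Gp lam hfl
    (Nat.floor_le_floor (mul_le_mul_of_nonneg_right haa1 hJ0))
    (Nat.floor_le_floor (mul_le_mul_of_nonneg_right how1 hJ0)) (Nat.le_add_right _ _) (by omega) (by push_cast; linarith) ?_ (fun _ => hDC) ?_ ?_
    (by
      rw [hp]
      have := Nat.floor_le_floor (mul_le_mul_of_nonneg_right haa1 hJ0)
      omega) ?_ ?_ (by positivity) (by positivity) ?_ (fun ω hω => hBA ω (hB' ω hω))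
    ?_ hL
  · -- the exponent
    refine Nat.le_floor ?_
    push_cast
    have := hmul hEe
    linarith
  · -- the thin sides
    intro l hl
    obtain ⟨t1, t2⟩ := W.t_num hk₀ (show l < r by omega)
    by_cases hR : R l
    · have h6 := (t1 hR).2
      have h7 := hmul (h5 l hl.le)
      have h8 : 0 ≤ Eb * (J : ℝ) := mul_nonneg W.Eb0 hJ0
      have h9 : 0 ≤ ((a : ℝ) - w) * (J : ℝ) := mul_nonneg (by linarith) hJ0
      have h10 : (gT k₀ l : ℝ) ≤ (J : ℕ) := by linarith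
      exact_mod_cast h10
    · have h6 := (t2 hR).2
      have h7 := hmul (hbe l hl hR)
      have h10 : (gT k₀ l : ℝ) ≤ (J : ℕ) := by linarith
      exact_mod_cast h10
  · -- the precision
    have h6 : (p : ℝ) ≤ (J : ℕ) := by
      have := hmul hbet
      linarith
    exact_mod_cast h6
  · -- room
    intro l hl
    obtain ⟨-, t1, -⟩ := W.g_num hk₀ (show l ≤ r by omega)
    have h7 := hmul (h5 l (by omega))
    have h8 : ((⌊(Eb + 2 * ηm) * J⌋₊ + (⌊b k₀ l * J⌋₊ + q) + 2 * nn + C' : ℕ) : ℝ) ≤ (J : ℕ) := by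
      push_cast
      linarith
    exact_mod_cast h8
  · -- the Lipschitz exponents
    refine nlp_le fun j hj => ?_
    obtain ⟨-, t1, -⟩ := W.g_num hk₀ (show j ≤ r by omega)
    obtain ⟨t2, t3⟩ := W.t_num hk₀ (show j < r by omega)
    rcases hnl j hj with h6 | h6 | h6
    · left
      have h7 := hmul h6
      have h8 : ((⌊b k₀ j * J⌋₊ + q : ℕ) : ℝ) ≤ ((⌊b k₀ i * J⌋₊ + q + 7 * Y : ℕ) : ℝ) := by
        push_cast
        linarith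
      exact_mod_cast h8
    · right
      have h7 := hmul h6.2
      obtain ⟨t4, -⟩ := t2 h6.1
      have h8 : ((⌊b k₀ j * J⌋₊ + q + p : ℕ) : ℝ) ≤
          ((⌊b k₀ i * J⌋₊ + q + gT k₀ j + 7 * Y : ℕ) : ℝ) := by
        push_cast
        linarith
      exact_mod_cast h8
    · right
      have h7 := hmul h6.2
      obtain ⟨t4, -⟩ := t3 h6.1
      have h8 : ((⌊b k₀ j * J⌋₊ + q + p : ℕ) : ℝ) ≤
          ((⌊b k₀ i * J⌋₊ + q + gT k₀ j + 7 * Y : ℕ) : ℝ) := by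
        push_cast
        linarith
      exact_mod_cast h8
  · -- the errors
    obtain ⟨x, hx⟩ : ∃ x : ℕ, x = p + (C' + 2 * (5 * Y + 7 * Y)) + 2 := ⟨_, rfl⟩
    have k1 : x + 3 * Y ≤ g₀ k₀ i + s + q + nn := by
      have h8 : ((x + 3 * Y : ℕ) : ℝ) ≤ ((g₀ k₀ i + s + q + nn : ℕ) : ℝ) := by
        rw [hx]
        push_cast
        linarith
      exact_mod_cast h8
    have k2 : x + Y + ⌊o n * J⌋₊ ≤ g₀ n i + (⌊o k₀ * J⌋₊ + q + nn) := by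
      have h7 : (⌊o n * J⌋₊ : ℝ) ≤ o n * J := Nat.floor_le (mul_nonneg (W.ho n hn).1 hJ0)
      have h8 : ((x + Y + ⌊o n * J⌋₊ : ℕ) : ℝ) ≤
          ((g₀ n i + (⌊o k₀ * J⌋₊ + q + nn) : ℕ) : ℝ) := by
        rw [hx]
        push_cast
        linarith
      exact_mod_cast h8
    have k3 : x ≤ ⌊b k₀ i * J⌋₊ + q + 2 * nn := by
      have h8 : ((x : ℕ) : ℝ) ≤ ((⌊b k₀ i * J⌋₊ + q + 2 * nn : ℕ) : ℝ) := by
        rw [hx]
        push_cast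
        linarith
      exact_mod_cast h8
    have e1 : (2 : ℝ) ^ (3 * Y) / 2 ^ (g₀ k₀ i + s + q) / 2 ^ nn ≤ 1 / 2 ^ x := by
      rw [div_div, ← pow_add, div_le_div_iff₀ (by positivity) (by positivity), one_mul, ← pow_add]
      exact pow_le_pow_right₀ (by norm_num) (by omega)
    have e2 : (2 : ℝ) ^ ⌊ζ * J⌋₊ * 2 ^ ⌊o n * J⌋₊ / 2 ^ g₀ n i /
        2 ^ (⌊o k₀ * J⌋₊ + q + nn) ≤ 1 / 2 ^ x := by
      rw [div_div, ← pow_add, ← pow_add, div_le_div_iff₀ (by positivity) (by positivity), one_mul,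
        ← pow_add]
      exact pow_le_pow_right₀ (by norm_num) (by omega)
    have e3 : (1 : ℝ) / 2 ^ (⌊b k₀ i * J⌋₊ + q + 2 * nn) ≤ 1 / 2 ^ x := inv_mono k3
    have e4 : (2 : ℝ) ^ (C' + 2 * (5 * Y + 7 * Y)) * (1 / 2 ^ x + 1 / 2 ^ x + 1 / 2 ^ x) ≤
        1 / 2 ^ p := by
      obtain ⟨K, hK⟩ : ∃ K, K = C' + 2 * (5 * Y + 7 * Y) := ⟨_, rfl⟩
      rw [hx, ← hK]
      have e5 : (2 : ℝ) ^ (p + K + 2) = 2 ^ p * 2 ^ K * 4 := by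
        rw [pow_add, pow_add]
        norm_num
      have e6 : (2 : ℝ) ^ K * (1 / 2 ^ (p + K + 2) + 1 / 2 ^ (p + K + 2) +
          1 / 2 ^ (p + K + 2)) = 3 / 4 * (1 / 2 ^ p) := by
        rw [e5]
        field_simp
        norm_num
      rw [e6]
      have e7 : 0 < (1 : ℝ) / 2 ^ p := by positivity
      linarith
    refine le_trans (mul_le_mul_of_nonneg_left (add_le_add (add_le_add e1 e2) e3)
      (by positivity)) e4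
  · exact hth.mono (by omega) (fun _ => le_rfl) le_rfl (Nat.floor_le_floor
      (mul_le_mul_of_nonneg_right (by
        have := (W.hη k₀ hk₀).2
        have := (W.hσ k₀ hk₀).2
        linarith) hJ0)) |>.sub hB'

end Pool.D2R
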