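import Pool.Agent.H23.D2.Nba
import Pool.Agent.H23.D2.Grd3
import Pool.Agent.H23.D2.Wnr

/-!
# A closed gradient over a ball, read in a finer window

`wlow`: the data of the line in a coarser window. `adn_lin`: `LinD` from a chain of balls and closed
natural components of the relative gradient, closed in a window `W ≥ w`.
-/

set_option autoImplicit false

namespace Pool.D2R

open Finset Real MvPolynomial
open Pool.Agent.H49.Ent Pool.Agent.H32.Dense Pool.STK Pool.KA Pool.KSAT Pool.K2S Pool.PB Pool.S6C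
open Pool.GEN Pool.CHT Pool.CHX Pool.ISO Pool.D2F Pool.D2Z
open Pool.FLF (Fam.sub)
open Pool.PB.Trl (rt rt_mem t_rt)
open Pool.LBT (ThrOf)

variable {m J : ℕ}

/-- The data of the line in a coarser window. -/
def wlow {m J : ℕ} {F : Fam m J} (x : ℕ) (s : LnT F) : LnT F := (s.1, s.2.1, s.2.2 / 2 ^ x)

theorem wlow_slam {F : Fam m J} {w W : ℕ} (hw : w ≤ W) (hW : W ≤ J) (ω : F.Ω) :
    wlow (W - w) (slam F W ω) = slam F w ω := by
  have h := Pool.KSAT.T1_div F (w := w) (K := W - w) (by omega) ω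
  rw [show w + (W - w) = W by omega] at h
  show ((F.l ω, F.Z ω, F.T1 W ω / 2 ^ (W - w)) : LnT F) = (F.l ω, F.Z ω, F.T1 w ω)
  rw [h]

/-- The closed charts in a finer window. -/
theorem chok_win {F : Fam m J} {c : ℕ → Fin m} {r a w W e : ℕ} {K g : ℕ → ℕ} {B : F.Ω → Prop}
    {G : PtT F → ℕ → MvPolynomial (Option (Fin m)) ℝ}
    {H : LnT F → ℕ → MvPolynomial (Option (Fin m)) ℝ} (h : ChOK F c r K a w e g B G H)
    (hw : w ≤ W) (hW : W ≤ J) : ChOK F c r K a W e g B G (fun s => H (wlow (W - w) s)) where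
  degG := h.degG
  degH := fun s i => h.degH _ i
  depG := h.depG
  depH := fun s i => h.depH _ i
  pos := h.pos
  agr := fun ω hω i hi b hb => by
    show |_ - eval b (H (wlow (W - w) (slam F W ω)) i)| ≤ _
    rw [wlow_slam hw hW]
    exact h.agr ω hω i hi b hb
  lip := h.lip

/-- Closed natural components give closed plain components. -/
theorem nat_lam {F : Fam m J} {c : ℕ → Fin m} {i D D₁ W : ℕ} (hc : Set.InjOn c (Set.Iio i))
    (hW : W ≤ J) {H : LnT F → ℕ → MvPolynomial (Option (Fin m)) ℝ}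
    (hD : ∀ s l, (H s l).totalDegree ≤ D) (hP : ∀ s l, DepC c l (H s l))
    (ν : LnT F → ℕ → Polynomial ℝ) (hν : ∀ s l, (ν s l).natDegree ≤ D₁) :
    ∃ lam : LnT F → ℕ → Polynomial ℝ, (∀ s l, (lam s l).natDegree ≤ D₁ + D) ∧
      ∀ ω (V : Option (Fin m) → ℝ), V none = 0 →
      dd (H (slam F W ω) i) (bt F ω) V + ∑ l ∈ range i, (ν (slam F W ω) l).eval (rt F W ω) *
        (V (some (c l)) - dd (H (slam F W ω) l) (bt F ω) V) =
      ∑ l ∈ range i, (lam (slam F W ω) l).eval (rt F W ω) * V (some (c l)) := by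
  have hlcd : ∀ (s : LnT F) (P : MvPolynomial (Option (Fin m)) ℝ) (l : ℕ), P.totalDegree ≤ D →
      (MvPolynomial.aeval (lc W s) (pderiv (some (c l)) P)).natDegree ≤ D := fun s P l hP =>
    Pool.KBX.natDegree_aeval_le _ _ (natDegree_lc W s) (totalDegree_pdσ hP _)
  have hev : ∀ ω (P : MvPolynomial (Option (Fin m)) ℝ),
      (MvPolynomial.aeval (lc W (slam F W ω)) P).eval (rt F W ω) = eval (bt F ω) P := by
    intro ω P
    rw [Pool.KBX.eval_aeval_poly]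
    have : (fun o => (lc W (slam F W ω) o).eval (rt F W ω)) = bt F ω :=
      funext fun o => eval_lc F hW ω o
    rw [this]
  refine ⟨fun s l => ν s l + MvPolynomial.aeval (lc W s) (pderiv (some (c l)) (H s i)) -
    ∑ l' ∈ Finset.Ico (l + 1) i, ν s l' *
      MvPolynomial.aeval (lc W s) (pderiv (some (c l)) (H s l')), fun s l => ?_, fun ω V hV => ?_⟩
  · refine (Polynomial.natDegree_sub_le _ _).trans (max_le
      ((Polynomial.natDegree_add_le _ _).trans (max_le ((hν s l).trans (Nat.le_add_right _ _))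
        ((hlcd s _ l (hD s i)).trans (Nat.le_add_left _ _)))) ?_)
    refine Polynomial.natDegree_sum_le_of_forall_le _ _ fun l' _ => ?_
    refine (Polynomial.natDegree_mul_le).trans ?_
    exact add_le_add (hν s l') (hlcd s _ l (hD s l'))
  · refine tri_id hc (hP (slam F W ω)) (bt F ω) hV (fun l => (ν (slam F W ω) l).eval (rt F W ω))
      (fun l => Polynomial.eval (rt F W ω) (ν (slam F W ω) l +
        MvPolynomial.aeval (lc W (slam F W ω)) (pderiv (some (c l)) (H (slam F W ω) i)) -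
        ∑ l' ∈ Finset.Ico (l + 1) i, ν (slam F W ω) l' *
          MvPolynomial.aeval (lc W (slam F W ω)) (pderiv (some (c l)) (H (slam F W ω) l'))))
      (fun l hl => ?_)
    simp only [Polynomial.eval_add, Polynomial.eval_sub, Polynomial.eval_finsetSum,
      Polynomial.eval_mul, hev]
    ring

/-- **`LinD` over balls**: the gradient of a deep chart, closed in a window `W`. -/
theorem adn_lin (m D₁ D i : ℕ) : ∃ C : ℕ, ∀ {J : ℕ} {F : Fam m J} {c : ℕ → Fin m}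
    {r Dr w W q nn s K Y e h M jq jT : ℕ} {z : ℕ → ℕ} {g g₀ : ℕ → ℕ} {κ ε₂ : ℝ}
    {B B' : F.Ω → Prop} {G Gn : PtT F → ℕ → MvPolynomial (Option (Fin m)) ℝ}
    {H : LnT F → ℕ → MvPolynomial (Option (Fin m)) ℝ} (mu : LnT F → ℕ → Polynomial ℝ),
    Set.InjOn c (Set.Iio (r + 1)) → i ≤ r → EvB F c r D Dr w M z e h g g₀ κ B G H →
    jq ≤ M → jT ≤ M → z jq = q → z jT = q + nn → 1 ≤ nn → w ≤ W → W ≤ J →
    Sub B' B → K ≤ Y → (∀ l ≤ r, g l ≤ g₀ l + Y ∧ g₀ l ≤ g l + 2 * Y) →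
    ROutB F c r w K g₀ B' G H → (∀ y l, DepC c l (Gn y l)) →
    (∀ ω ν, B' ω → B' ν → ptr F J ω = ptr F J ν →
      |bd F ν (some (c i)) - dd (Gn (ptr F J ω) i) (bt F ω) (bd F ν)| ≤ ε₂) →
    (∀ s l, (mu s l).natDegree ≤ D₁) →
    (∀ ω, B' ω → ∀ j < i, |gnh F c i g₀ G Gn ω j - (mu (slam F W ω) j).eval (rt F W ω)| ≤
      2 ^ Y / 2 ^ s) →
    (∀ ω, B' ω → ∀ j < i, |(mu (slam F W ω) j).eval (rt F W ω)| ≤ 2 ^ Y) →
    (∀ ω ν, B' ω → B' ν → ptr F J ω = ptr F J ν → ∀ j < i,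
      |gnh F c i g₀ G Gn ω j - gnh F c i g₀ G Gn ν j| ≤ 2 ^ Y / 2 ^ s) →
    (∀ l ≤ i, e + (g l + q) + s + C ≤ J) →
    ∃ (Gp : PtT F → MvPolynomial (Option (Fin m)) ℝ) (lam : LnT F → ℕ → Polynomial ℝ),
      LinD F c i D (D₁ + D) W (w + q) (w + (q + nn)) nn (5 * Y + C) e (fun l => g l + q)
        (fun l => g l + (q + nn)) (2 ^ (3 * Y + C) / 2 ^ (g₀ i + s + q)) ε₂ B'
        (fun y l => Gno (c l) J J (fun y => G y l) y) (fun s l => H (wlow (W - w) s) l)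
        (fun y l => Gno (c l) J J (fun y => G y l) y) Gp lam := by
  classical
  have hsb := fun l : ℕ => shf_ball m D l
  choose Cs hCs using hsb
  obtain ⟨C₁, hC₁⟩ : ∃ C₁ : ℕ, C₁ = ∑ l ∈ range (i + 1), Cs l := ⟨_, rfl⟩
  have hCl : ∀ l ≤ i, Cs l ≤ C₁ := fun l hl => by
    rw [hC₁]
    exact Finset.single_le_sum (f := Cs) (fun _ _ => Nat.zero_le _)
      (Finset.mem_range.2 (Nat.lt_succ_of_le hl))
  refine ⟨C₁ + i + 4, ?_⟩
  intro J F c r Dr w W q nn s K Y e h M jq jT z g g₀ κ ε₂ B B' G Gn H mu hc hi hE hjq hjT hzq hzT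
    hnn hwW hWJ hB hKY hg hR hPn hvel hmd hcl hsz hsh hJ
  have hci : Set.InjOn c (Set.Iio i) := hc.mono fun y hy => by
    rw [Set.mem_Iio] at hy ⊢
    omega
  have hci1 : Set.InjOn c (Set.Iio (i + 1)) := hc.mono fun y hy => by
    rw [Set.mem_Iio] at hy ⊢
    omega
  obtain ⟨G', hG'⟩ : ∃ G' : PtT F → ℕ → MvPolynomial (Option (Fin m)) ℝ,
    G' = fun y l => Gno (c l) J J (fun y => G y l) y := ⟨_, rfl⟩
  have hddG : ∀ y l x V, dd (G' y l) x V = dd (G y l) x V := fun y l x V => by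
    rw [hG']
    exact dd_Gno (c l) (fun y => G y l) y x V
  have hnrm : ∀ y (γ : ℕ → ℕ) (a k : ℕ) x V, nrm c (G' y) γ a k x V = nrm c (G y) γ a k x V :=
    fun y γ a k x V => by
      rw [hG']
      exact nrm_Gno c G γ a k y x V
  -- the radii
  have hrq := (hE.rad jq hjq).sub hB
  rw [hzq] at hrq
  have hrT := (hE.rad jT hjT).sub hB
  rw [hzT] at hrT
  rw [← hG'] at hrq hrT
  -- the cell
  have hshf : ∀ l ≤ i, ∀ ω ν, B' ω → B' ν → ptr F J ω = ptr F J ν → ∀ V : Option (Fin m) → ℝ,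
      |dd (G (ptr F J ω) l) (bt F ν) V - dd (G (ptr F J ω) l) (bt F ω) V| ≤
        2 ^ C₁ / 2 ^ (g l + q + s) *
          nrm c (G (ptr F J ω)) (fun l => g l + q) (w + q) i (bt F ω) V := by
    intro l hl ω ν hω hν hpt V
    have h1 := hCs l (c := c) (a := w + q) (w := w) (e := e) (s := s) (γ := fun l => g l + q)
      (B := B') (G := G') (hc.mono fun y hy => by
        rw [Set.mem_Iio] at hy ⊢
        omega) (hrq.mono (by omega) (fun _ => le_rfl) le_rfl le_rfl) (fun ω hω j hj => by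
        refine (hrT.pos ω hω j (by omega)).trans (inv_mono ?_)
        show g j + q + 1 ≤ g j + (q + nn)
        omega) (fun j hj => by
        have h2 := hJ j (by omega)
        have h3 := hCl l hl
        show e + (g j + q) + s + Cs l ≤ J
        omega) ω ν hω hν hpt V
    rw [hddG, hddG, hnrm] at h1
    refine h1.trans ?_
    refine mul_le_mul (div_le_div_of_nonneg_right (pow_le_pow_right₀ (by norm_num) (hCl l hl))
      (by positivity)) (nrm_mono hl _ _) (nrm_nonneg _ _ _ _ _ _ _) (by positivity)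
  -- the representative
  have hrep : ∀ y : PtT F, ∃ χ : Option (Fin m) → ℝ, (∃ ω, B' ω ∧ ptr F J ω = y) →
      ∃ ω, B' ω ∧ ptr F J ω = y ∧ χ = grd (Gn y i) (bt F ω) := by
    intro y
    by_cases hy : ∃ ω, B' ω ∧ ptr F J ω = y
    · obtain ⟨ω, hω, h1⟩ := hy
      exact ⟨grd (Gn y i) (bt F ω), fun _ => ⟨ω, hω, h1, rfl⟩⟩
    · exact ⟨0, fun h => absurd h hy⟩
  choose χ hχ using hrep
  -- the closed components
  obtain ⟨lam, hl1, hl2⟩ := nat_lam (F := F) (c := c) (i := i) (D := D) (D₁ := D₁) (W := W) hci hWJ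
    (H := fun s l => H (wlow (W - w) s) l) (fun s l => hE.ball.degH _ l)
    (fun s l => hE.ball.depH _ l)
    (fun s l => Polynomial.C (2 ^ g₀ l / 2 ^ g₀ i : ℝ) * mu s l)
    (fun s l => (Polynomial.natDegree_C_mul_le _ _).trans (hmd s l))
  have hlow : ∀ ω, wlow (W - w) (slam F W ω) = slam F w ω := fun ω => wlow_slam hwW hWJ ω
  have hlam : ∀ ω, B' ω → ∀ V : Option (Fin m) → ℝ, V none = 0 →
      ∑ l ∈ range i, (lam (slam F W ω) l).eval (rt F W ω) * V (some (c l)) =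
      dd (G (ptr F J ω) i) (bt F ω) V + 1 / 2 ^ g₀ i * ∑ l ∈ range i,
        2 ^ g₀ l * ((mu (slam F W ω) l).eval (rt F W ω) *
        (V (some (c l)) - dd (G (ptr F J ω) l) (bt F ω) V)) := by
    intro ω hω V hV
    rw [← hl2 ω V hV, hlow, ← hE.cls ω (hB ω hω) i (by omega), Finset.mul_sum]
    congr 1
    refine Finset.sum_congr rfl fun l hl => ?_
    rw [← hE.cls ω (hB ω hω) l (by have := mem_range.1 hl; omega), Polynomial.eval_mul,
      Polynomial.eval_C]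
    ring
  have hpi : (0 : ℝ) < 2 ^ g₀ i := by positivity
  have hps : (0 : ℝ) < 2 ^ s := by positivity
  -- the sides
  have hconv : ∀ ω (V : Option (Fin m) → ℝ), V none = 0 →
      ∑ l ∈ range i, 2 ^ g₀ l * |V (some (c l)) - dd (G (ptr F J ω) l) (bt F ω) V| ≤
        2 ^ (2 * Y) / 2 ^ q *
        nrm c (G (ptr F J ω)) (fun l => g l + q) (w + q) i (bt F ω) V := by
    intro ω V hV
    rw [← nrm_sp w i (bt F ω) hV]
    exact nrm_conv hV fun l hl => (hg l (by omega)).2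
  have hspa : ∀ ω, B' ω → ∀ V : Option (Fin m) → ℝ, V none = 0 →
      |∑ l ∈ range i, (lam (slam F W ω) l).eval (rt F W ω) * V (some (c l)) -
        dd (afp 0 0 (χ (ptr F J ω))) (bt F ω) V| ≤
        2 ^ (3 * Y + (C₁ + i + 4)) / 2 ^ (g₀ i + s + q) *
        nrm c (G (ptr F J ω)) (fun l => g l + q) (w + q) i (bt F ω) V := by
    intro ω hω V hV
    obtain ⟨ω', hω', hpt, hχ'⟩ := hχ (ptr F J ω) ⟨ω, hω, rfl⟩
    rw [dd_afp, hχ', cv_grd, hlam ω hω V hV]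
    obtain ⟨N', hN'⟩ : ∃ N', N' = nrm c (G (ptr F J ω)) (fun l => g l + q) (w + q) i (bt F ω) V :=
      ⟨_, rfl⟩
    have hN0 : 0 ≤ N' := by rw [hN']; exact nrm_nonneg _ _ _ _ _ _ _
    rw [← hN']
    have h1 := gnh_sum hci g₀ hE.ball.depG hPn ω' hV
    rw [hpt] at h1
    have h2 : dd (Gn (ptr F J ω) i) (bt F ω') V = dd (G (ptr F J ω) i) (bt F ω') V +
        1 / 2 ^ g₀ i * ∑ j ∈ range i, 2 ^ g₀ j * (gnh F c i g₀ G Gn ω' j *
          (V (some (c j)) - dd (G (ptr F J ω) j) (bt F ω') V)) := by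
      have e1 : ∑ j ∈ range i, 2 ^ g₀ j * (gnh F c i g₀ G Gn ω' j *
          (V (some (c j)) - dd (G (ptr F J ω) j) (bt F ω') V)) =
          2 ^ g₀ i * dd (Gn (ptr F J ω) i - G (ptr F J ω) i) (bt F ω') V := by
        rw [h1]
        exact Finset.sum_congr rfl fun j _ => by ring
      rw [e1, dd_sub]
      field_simp
      ring
    rw [h2]
    have e3 : dd (G (ptr F J ω) i) (bt F ω) V + 1 / 2 ^ g₀ i * ∑ l ∈ range i,
        2 ^ g₀ l * ((mu (slam F W ω) l).eval (rt F W ω) *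
        (V (some (c l)) - dd (G (ptr F J ω) l) (bt F ω) V)) -
        (dd (G (ptr F J ω) i) (bt F ω') V +
        1 / 2 ^ g₀ i * ∑ j ∈ range i, 2 ^ g₀ j * (gnh F c i g₀ G Gn ω' j *
          (V (some (c j)) - dd (G (ptr F J ω) j) (bt F ω') V))) =
        -(dd (G (ptr F J ω) i) (bt F ω') V - dd (G (ptr F J ω) i) (bt F ω) V) +
        1 / 2 ^ g₀ i * ∑ j ∈ range i, 2 ^ g₀ j *
          (((mu (slam F W ω) j).eval (rt F W ω) - gnh F c i g₀ G Gn ω' j) *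
            (V (some (c j)) - dd (G (ptr F J ω) j) (bt F ω) V) +
          gnh F c i g₀ G Gn ω' j * (dd (G (ptr F J ω) j) (bt F ω') V -
            dd (G (ptr F J ω) j) (bt F ω) V)) := by
      have e4 : ∑ j ∈ range i, 2 ^ g₀ j *
          (((mu (slam F W ω) j).eval (rt F W ω) - gnh F c i g₀ G Gn ω' j) *
            (V (some (c j)) - dd (G (ptr F J ω) j) (bt F ω) V) +
          gnh F c i g₀ G Gn ω' j * (dd (G (ptr F J ω) j) (bt F ω') V -
            dd (G (ptr F J ω) j) (bt F ω) V)) = ∑ l ∈ range i,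
        2 ^ g₀ l * ((mu (slam F W ω) l).eval (rt F W ω) *
        (V (some (c l)) - dd (G (ptr F J ω) l) (bt F ω) V)) - ∑ j ∈ range i, 2 ^ g₀ j *
          (gnh F c i g₀ G Gn ω' j *
          (V (some (c j)) - dd (G (ptr F J ω) j) (bt F ω') V)) := by
        rw [← Finset.sum_sub_distrib]
        exact Finset.sum_congr rfl fun j _ => by ring
      rw [e4]
      ring
    rw [e3]
    have h3 : ∀ j ∈ range i, |2 ^ g₀ j *
          (((mu (slam F W ω) j).eval (rt F W ω) - gnh F c i g₀ G Gn ω' j) *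
            (V (some (c j)) - dd (G (ptr F J ω) j) (bt F ω) V) +
          gnh F c i g₀ G Gn ω' j * (dd (G (ptr F J ω) j) (bt F ω') V -
            dd (G (ptr F J ω) j) (bt F ω) V))| ≤
        2 ^ (Y + 1) / 2 ^ s * (2 ^ g₀ j * |V (some (c j)) - dd (G (ptr F J ω) j) (bt F ω) V|) +
        2 ^ (3 * Y + C₁ + 2) / 2 ^ (q + s) * N' := by
      intro j hj
      rw [mem_range] at hj
      have k1 := hcl ω hω j hj
      have k2 := hsz ω hω j hj
      have k3 := hsh ω ω' hω hω' hpt.symm j hj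
      have k4 := hshf j hj.le ω ω' hω hω' hpt.symm V
      rw [← hN'] at k4
      have k5 : |(mu (slam F W ω) j).eval (rt F W ω) - gnh F c i g₀ G Gn ω' j| ≤
          2 ^ (Y + 1) / 2 ^ s := by
        have e1 : (mu (slam F W ω) j).eval (rt F W ω) - gnh F c i g₀ G Gn ω' j =
            (gnh F c i g₀ G Gn ω j - gnh F c i g₀ G Gn ω' j) -
            (gnh F c i g₀ G Gn ω j - (mu (slam F W ω) j).eval (rt F W ω)) := by ring
        rw [e1]
        refine (abs_sub _ _).trans ((add_le_add k3 k1).trans (le_of_eq ?_))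
        rw [pow_succ]
        ring
      have k6 : |gnh F c i g₀ G Gn ω' j| ≤ 2 ^ (Y + 2) := by
        have e1 : gnh F c i g₀ G Gn ω' j = (mu (slam F W ω) j).eval (rt F W ω) -
          ((mu (slam F W ω) j).eval (rt F W ω) - gnh F c i g₀ G Gn ω' j) := by ring
        rw [e1]
        refine (abs_sub _ _).trans ((add_le_add k2 k5).trans ?_)
        have e2 : (2 : ℝ) ^ (Y + 1) / 2 ^ s ≤ 2 ^ (Y + 1) :=
          div_le_self (by positivity) (one_le_pow₀ (by norm_num))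
        have e3 : (2 : ℝ) ^ (Y + 2) = 2 ^ Y * 4 := by rw [pow_add]; norm_num
        have e4 : (2 : ℝ) ^ (Y + 1) = 2 ^ Y * 2 := pow_succ _ _
        have e5 : (0 : ℝ) < 2 ^ Y := by positivity
        rw [e4] at e2
        rw [e3, e4]
        linarith
      rw [abs_mul, abs_of_pos (show (0 : ℝ) < 2 ^ g₀ j by positivity)]
      have k7 : |gnh F c i g₀ G Gn ω' j * (dd (G (ptr F J ω) j) (bt F ω') V -
            dd (G (ptr F J ω) j) (bt F ω) V)| ≤ 2 ^ (Y + 2) * (2 ^ C₁ / 2 ^ (g j + q + s) * N') := by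
        rw [abs_mul]
        exact mul_le_mul k6 k4 (abs_nonneg _) (by positivity)
      have k8 : (2 : ℝ) ^ g₀ j * (2 ^ (Y + 2) * (2 ^ C₁ / 2 ^ (g j + q + s) * N')) ≤
          2 ^ (3 * Y + C₁ + 2) / 2 ^ (q + s) * N' := by
        have e1 : (2 : ℝ) ^ g₀ j * (2 ^ (Y + 2) * (2 ^ C₁ / 2 ^ (g j + q + s) * N')) =
            2 ^ (g₀ j + (Y + 2) + C₁) / 2 ^ (g j + q + s) * N' := by
          rw [show (2 : ℝ) ^ (g₀ j + (Y + 2) + C₁) = 2 ^ g₀ j * 2 ^ (Y + 2) * 2 ^ C₁ by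
            rw [pow_add, pow_add 2 (g₀ j)]]
          ring
        rw [e1]
        refine mul_le_mul_of_nonneg_right ?_ hN0
        rw [div_le_div_iff₀ (by positivity) (by positivity), ← pow_add, ← pow_add]
        have := (hg j (by omega)).2
        exact pow_le_pow_right₀ (by norm_num) (by omega)
      have k9 : |((mu (slam F W ω) j).eval (rt F W ω) - gnh F c i g₀ G Gn ω' j) *
            (V (some (c j)) - dd (G (ptr F J ω) j) (bt F ω) V)| ≤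
          2 ^ (Y + 1) / 2 ^ s * |V (some (c j)) - dd (G (ptr F J ω) j) (bt F ω) V| := by
        rw [abs_mul]
        exact mul_le_mul_of_nonneg_right k5 (abs_nonneg _)
      calc (2 : ℝ) ^ g₀ j * |((mu (slam F W ω) j).eval (rt F W ω) - gnh F c i g₀ G Gn ω' j) *
            (V (some (c j)) - dd (G (ptr F J ω) j) (bt F ω) V) +
          gnh F c i g₀ G Gn ω' j * (dd (G (ptr F J ω) j) (bt F ω') V -
            dd (G (ptr F J ω) j) (bt F ω) V)| ≤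
          2 ^ g₀ j * (2 ^ (Y + 1) / 2 ^ s * |V (some (c j)) - dd (G (ptr F J ω) j) (bt F ω) V| +
            2 ^ (Y + 2) * (2 ^ C₁ / 2 ^ (g j + q + s) * N')) :=
            mul_le_mul_of_nonneg_left ((abs_add_le _ _).trans (add_le_add k9 k7)) (by positivity)
        _ = 2 ^ (Y + 1) / 2 ^ s * (2 ^ g₀ j * |V (some (c j)) - dd (G (ptr F J ω) j) (bt F ω) V|) +
            2 ^ g₀ j * (2 ^ (Y + 2) * (2 ^ C₁ / 2 ^ (g j + q + s) * N')) := by ring
        _ ≤ _ := add_le_add le_rfl k8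
    have h4 : |∑ j ∈ range i, 2 ^ g₀ j *
          (((mu (slam F W ω) j).eval (rt F W ω) - gnh F c i g₀ G Gn ω' j) *
            (V (some (c j)) - dd (G (ptr F J ω) j) (bt F ω) V) +
          gnh F c i g₀ G Gn ω' j * (dd (G (ptr F J ω) j) (bt F ω') V -
            dd (G (ptr F J ω) j) (bt F ω) V))| ≤
        2 ^ (Y + 1) / 2 ^ s * (2 ^ (2 * Y) / 2 ^ q * N') +
          i * (2 ^ (3 * Y + C₁ + 2) / 2 ^ (q + s) * N') := by
      refine (Finset.abs_sum_le_sum_abs _ _).trans ((Finset.sum_le_sum h3).trans ?_)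
      rw [Finset.sum_add_distrib, ← Finset.mul_sum, Finset.sum_const, card_range, nsmul_eq_mul]
      refine add_le_add (mul_le_mul_of_nonneg_left ?_ (by positivity)) le_rfl
      rw [hN']
      exact hconv ω V hV
    have h5 := hshf i le_rfl ω ω' hω hω' hpt.symm V
    rw [← hN'] at h5
    have h6 : (2 : ℝ) ^ C₁ / 2 ^ (g i + q + s) * N' ≤
        2 ^ (C₁ + 2 * Y) / 2 ^ (g₀ i + s + q) * N' := by
      refine mul_le_mul_of_nonneg_right ?_ hN0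
      rw [div_le_div_iff₀ (by positivity) (by positivity), ← pow_add, ← pow_add]
      have := (hg i (by omega)).2
      exact pow_le_pow_right₀ (by norm_num) (by omega)
    have h7 : 1 / 2 ^ g₀ i * (2 ^ (Y + 1) / 2 ^ s * (2 ^ (2 * Y) / 2 ^ q * N') +
          i * (2 ^ (3 * Y + C₁ + 2) / 2 ^ (q + s) * N')) =
        (2 ^ (3 * Y + 1) + i * 2 ^ (3 * Y + C₁ + 2)) / 2 ^ (g₀ i + s + q) * N' := by
      rw [show (2 : ℝ) ^ (3 * Y + 1) = 2 ^ (Y + 1) * 2 ^ (2 * Y) by rw [← pow_add]; congr 1; ring,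
        show (2 : ℝ) ^ (g₀ i + s + q) = 2 ^ g₀ i * 2 ^ s * 2 ^ q by rw [pow_add, pow_add],
        show (2 : ℝ) ^ (q + s) = 2 ^ q * 2 ^ s by rw [pow_add]]
      field_simp
    have h8 : (2 : ℝ) ^ (C₁ + 2 * Y) + (2 ^ (3 * Y + 1) + i * 2 ^ (3 * Y + C₁ + 2)) ≤
        2 ^ (3 * Y + (C₁ + i + 4)) := by
      have e1 : (2 : ℝ) ^ (C₁ + 2 * Y) ≤ 2 ^ (3 * Y + C₁ + 2) :=
        pow_le_pow_right₀ (by norm_num) (by omega)
      have e2 : (2 : ℝ) ^ (3 * Y + 1) ≤ 2 ^ (3 * Y + C₁ + 2) :=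
        pow_le_pow_right₀ (by norm_num) (by omega)
      have e3 : (i : ℝ) + 2 ≤ 2 ^ (i + 2) := by
        have h5 : (i : ℝ) < 2 ^ i := by exact_mod_cast Nat.lt_two_pow_self
        have h6 : (2 : ℝ) ^ (i + 2) = 2 ^ i * 4 := by rw [pow_add]; norm_num
        have h7 : (1 : ℝ) ≤ 2 ^ i := one_le_pow₀ (by norm_num)
        rw [h6]
        linarith
      have e4 : (0 : ℝ) < 2 ^ (3 * Y + C₁ + 2) := by positivity
      calc (2 : ℝ) ^ (C₁ + 2 * Y) + (2 ^ (3 * Y + 1) + i * 2 ^ (3 * Y + C₁ + 2)) ≤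
          ((i : ℝ) + 2) * 2 ^ (3 * Y + C₁ + 2) := by linarith
        _ ≤ 2 ^ (i + 2) * 2 ^ (3 * Y + C₁ + 2) := mul_le_mul_of_nonneg_right e3 e4.le
        _ = _ := by
          rw [← pow_add]
          congr 1
          ring
    refine (abs_add_le _ _).trans ?_
    rw [abs_neg, abs_mul, abs_of_pos (show (0 : ℝ) < 1 / 2 ^ g₀ i by positivity)]
    refine (add_le_add (h5.trans h6) ((mul_le_mul_of_nonneg_left h4 (by positivity)).trans
      (le_of_eq h7))).trans ?_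
    rw [← add_mul, ← add_div]
    exact mul_le_mul_of_nonneg_right (div_le_div_of_nonneg_right h8 (by positivity)) hN0
  have hlnat : ∀ ω, B' ω → ∀ V : Option (Fin m) → ℝ, V none = 0 →
      |∑ l ∈ range i, (lam (slam F W ω) l).eval (rt F W ω) * V (some (c l)) -
        dd (G (ptr F J ω) i) (bt F ω) V| ≤ 2 ^ (5 * Y + (C₁ + i + 4)) / 2 ^ (g i + q) *
        nrm c (G (ptr F J ω)) (fun l => g l + q) (w + q) i (bt F ω) V := by
    intro ω hω V hV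
    obtain ⟨N', hN'⟩ : ∃ N', N' = nrm c (G (ptr F J ω)) (fun l => g l + q) (w + q) i (bt F ω) V :=
      ⟨_, rfl⟩
    have hN0 : 0 ≤ N' := by rw [hN']; exact nrm_nonneg _ _ _ _ _ _ _
    rw [hlam ω hω V hV, add_sub_cancel_left, abs_mul,
      abs_of_pos (show (0 : ℝ) < 1 / 2 ^ g₀ i by positivity)]
    have h1 : |∑ l ∈ range i, 2 ^ g₀ l * ((mu (slam F W ω) l).eval (rt F W ω) *
        (V (some (c l)) - dd (G (ptr F J ω) l) (bt F ω) V))| ≤
        2 ^ Y * (2 ^ (2 * Y) / 2 ^ q * N') := by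
      refine (Finset.abs_sum_le_sum_abs _ _).trans ?_
      have h2 := hconv ω V hV
      rw [← hN'] at h2
      refine le_trans ?_ (mul_le_mul_of_nonneg_left h2 (by positivity))
      rw [Finset.mul_sum]
      refine Finset.sum_le_sum fun l hl => ?_
      rw [abs_mul, abs_mul, abs_of_pos (show (0 : ℝ) < 2 ^ g₀ l by positivity)]
      have h3 := hsz ω hω l (mem_range.1 hl)
      calc (2 : ℝ) ^ g₀ l * (|(mu (slam F W ω) l).eval (rt F W ω)| *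
            |V (some (c l)) - dd (G (ptr F J ω) l) (bt F ω) V|) ≤
          2 ^ g₀ l * (2 ^ Y * |V (some (c l)) - dd (G (ptr F J ω) l) (bt F ω) V|) :=
            mul_le_mul_of_nonneg_left (mul_le_mul_of_nonneg_right h3 (abs_nonneg _))
              (by positivity)
        _ = _ := by ring
    refine (mul_le_mul_of_nonneg_left h1 (by positivity)).trans ?_
    rw [← hN']
    have e1 : 1 / 2 ^ g₀ i * (2 ^ Y * (2 ^ (2 * Y) / 2 ^ q * N')) =
        2 ^ (3 * Y) / 2 ^ (g₀ i + q) * N' := by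
      rw [show (2 : ℝ) ^ (3 * Y) = 2 ^ Y * 2 ^ (2 * Y) by rw [← pow_add]; congr 1; ring,
        pow_add 2 (g₀ i)]
      field_simp
    rw [e1]
    refine mul_le_mul_of_nonneg_right ?_ hN0
    rw [div_le_div_iff₀ (by positivity) (by positivity), ← pow_add, ← pow_add]
    have := (hg i (by omega)).1
    exact pow_le_pow_right₀ (by norm_num) (by omega)
  refine ⟨fun y => afp 0 0 (χ y), lam, ?_⟩
  rw [← hG']
  exact
    { ball := by
        have h1 := chok_win (hrq.mono (show i + 1 ≤ r + 1 by omega) (fun _ => le_rfl) le_rfl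
          le_rfl) hwW hWJ
        exact h1
      thp := fun ω hω l hl => hrT.pos ω hω l (by omega)
      inc := fun ω hω b hb => by
        refine ⟨hb.1.trans (inv_mono (by omega)), fun l hl => (hb.2 l hl).trans (inv_mono ?_)⟩
        show g l + q + nn ≤ g l + (q + nn)
        omega
      dlam := hl1
      nat := fun ω ν hω hν hpt l hl => by
        rw [hddG]
        refine (hR.vel ω ν hω hν hpt l (by omega)).trans ?_
        show _ ≤ 2 ^ (5 * Y + (C₁ + i + 4)) * 2 ^ (w + q) / 2 ^ (g l + q)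
        rw [div_le_div_iff₀ (by positivity) (by positivity), ← pow_add, ← pow_add, ← pow_add,
          ← pow_add]
        have := (hg l (by omega)).1
        exact pow_le_pow_right₀ (by norm_num) (by omega)
      vel := fun ω ν hω hν hpt => by
        obtain ⟨ω', hω', hpt', hχ'⟩ := hχ (ptr F J ω) ⟨ω, hω, rfl⟩
        rw [dd_afp, hχ', cv_grd, ← hpt']
        exact hvel ω' ν hω' hν (hpt'.trans hpt)
      spa := fun ω hω V hV => by
        rw [hnrm]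
        exact hspa ω hω V hV
      lnat := fun ω hω V hV => by
        rw [hnrm, hddG]
        exact hlnat ω hω V hV
      shf := fun ω ν hω hν hpt V hV => by
        rw [dd_afp, dd_afp, sub_self, abs_zero]
        exact mul_nonneg (by positivity) (nrm_nonneg _ _ _ _ _ _ _) }

/-- **A closed relative gradient with gain is impossible, in a class**: the class end over balls,
the gradient closed in a window `W` near `w`. -/
theorem ad_no (m D₁ D i : ℕ) (hD : 1 ≤ D) : ∃ C : ℝ, 1 ≤ C ∧ ∀ {S : PCl m}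
    {P : List (Fin m) × Fin m → ℝ → ℝ → ℝ} {θ : ℝ} {c : ℕ → Fin m}
    {C₀ a' Eb ηm ζ : ℝ} {o η σ : ℕ → ℝ} {lv : ℕ → ℕ → ℝ} {r Dr N M k₀ n : ℕ} {a w : ℚ}
    {q₁ s₁ h e : ℝ}, ThrOf (chsys m θ) S P → TmH S → Set.InjOn c (Set.Iio (r + 1)) → i ≤ r →
    k₀ ≤ N → n ≤ N → o k₀ ≤ w → w ≤ o k₀ + ζ → 0 ≤ w → w ≤ a → a ≤ 1 → w < 1 → e < θ * w →
    0 < h → 0 < ζ → C₀ * ηm ≤ ζ → 0 ≤ q₁ → bet P c i a w + h ≤ 1 → Eb + C * ζ ≤ e →
    bet P c i a w + h + C * ζ ≤ lv k₀ i + s₁ + (a - w) →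
    bet P c i a w + h + C * ζ ≤ lv n i - (o n - w) + (a - w) →
    bet P c i a w + h + C * ζ + q₁ ≤ lv k₀ i + 2 * (a - w) → q₁ + C * ζ ≤ a - w →
    (∀ l ≤ i, Eb + lv k₀ l + 2 * (a - w) + C * ζ ≤ 1) →
    (∀ l ≤ i, Eb + lv k₀ l + s₁ + q₁ + C * ζ ≤ 1) →
    (∀ j < i, lv k₀ j ≤ lv k₀ i + ζ ∨ bet P c i a w + h ≤ lv k₀ i + (a - w) + ζ) →
    ∃ δ : ℝ, 0 < δ ∧ Bas S (fun J F A => ∀ (z : ℕ → ℕ → ℕ) (κ : ℝ) (b : ℕ → ℕ → ℝ)
      (B : F.Ω → Prop) (g₀ : ℕ → ℕ → ℕ)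
      (G : ℕ → PtT F → ℕ → MvPolynomial (Option (Fin m)) ℝ)
      (H : ℕ → LnT F → ℕ → MvPolynomial (Option (Fin m)) ℝ) (jq jT W : ℕ),
      WinB F c r D Dr N M C₀ a' Eb ηm o η σ lv b κ z B g₀ G H →
      Sub B A → jq ≤ M → jT ≤ M → (z k₀ jq : ℝ) ≤ q₁ * J →
      ⌊o k₀ * J⌋₊ + z k₀ jT ≤ ⌊(a : ℝ) * J⌋₊ →
      (a : ℝ) * J ≤ ⌊o k₀ * J⌋₊ + z k₀ jT + ζ * J + 2 →
      ⌊o k₀ * J⌋₊ ≤ W → W ≤ ⌊(w : ℝ) * J⌋₊ → W ≤ ⌊o k₀ * J⌋₊ + z k₀ jq →
      ∀ (B' : F.Ω → Prop) (mu : LnT F → ℕ → Polynomial ℝ), Sub B' B →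
      ROutB F c r ⌊o k₀ * J⌋₊ ⌊ζ * J⌋₊ (g₀ k₀) B' (G k₀) (H k₀) →
      ROutB F c r ⌊o n * J⌋₊ ⌊ζ * J⌋₊ (g₀ n) B' (G n) (H n) →
      (∀ s l, (mu s l).natDegree ≤ D₁) →
      (∀ ω, B' ω → ∀ j < i, |gnh F c i (g₀ k₀) (G k₀) (G n) ω j -
        (mu (slam F W ω) j).eval (rt F W ω)| ≤ 2 ^ ⌊ζ * J⌋₊ / 2 ^ ⌊s₁ * J⌋₊) →
      (∀ ω, B' ω → ∀ j < i, |(mu (slam F W ω) j).eval (rt F W ω)| ≤ 2 ^ ⌊ζ * J⌋₊) →
      (∀ ω ν, B' ω → B' ν → ptr F J ω = ptr F J ν → ∀ j < i,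
        |gnh F c i (g₀ k₀) (G k₀) (G n) ω j - gnh F c i (g₀ k₀) (G k₀) (G n) ν j| ≤
          2 ^ ⌊ζ * J⌋₊ / 2 ^ ⌊s₁ * J⌋₊) →
      Pe F.p B' ≤ Real.exp (-(δ * J)) * Pe F.p A) := by
  obtain ⟨C₁, hlin⟩ := adn_lin m D₁ D i
  obtain ⟨C', hC', hDC, hcon⟩ := con_no (m := m) (D₁ + D) D i hD
  have hC'R : (1 : ℝ) ≤ C' := by exact_mod_cast hC'
  have hC1R : (0 : ℝ) ≤ C₁ := Nat.cast_nonneg _
  refine ⟨2 * C' + 4 * C₁ + 120, by linarith, ?_⟩
  intro S P θ c C₀ a' Eb ηm ζ o η σ lv r Dr N M k₀ n a w q₁ s₁ h e hP hS hc hi hk₀ hn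
    how1 how2 hw hwa ha hw1 he hh hζ hCη hq₁ hbet hEe h1 h2 h3 h4 h5 h6 hnl
  have hci : Set.InjOn c (Set.Iio (i + 1)) := hc.mono fun y hy => by
    rw [Set.mem_Iio] at hy ⊢
    omega
  obtain ⟨δ, hδ, hbas⟩ := hcon hP hS c hci a w e h ζ hw hwa ha hw1 he hh hζ hbet
  refine ⟨δ, hδ, ?_⟩
  obtain ⟨J₁, hJ₁⟩ := exists_nat_gt (1 / ζ)
  refine Bas.mono J₁ hbas ?_
  intro J hJ F A hA z κ b B g₀ G H jq jT W hWB hBA hjq hjT hzq hzT1 hzT2 hwW hWw hWq B' mu hB'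
    hR₀ hRn hmd hcl hsz hsh
  have hJ0 : (0 : ℝ) ≤ J := Nat.cast_nonneg J
  have hζJ : 1 ≤ ζ * J := by
    have : 1 / ζ < J := hJ₁.trans_le (by exact_mod_cast hJ)
    rw [div_lt_iff₀ hζ] at this
    linarith
  -- the unit
  obtain ⟨Y, hY⟩ : ∃ Y : ℕ, Y = ⌊ζ * J⌋₊ + 1 := ⟨_, rfl⟩
  have hY1 : ζ * J ≤ Y := by
    rw [hY]
    push_cast
    exact (Nat.lt_floor_add_one _).le
  have hY2 : (Y : ℝ) ≤ 2 * (ζ * J) := by
    rw [hY]
    push_cast
    have := Nat.floor_le (by linarith : 0 ≤ ζ * (J : ℝ))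
    linarith
  have hYf : ⌊ζ * J⌋₊ ≤ Y := by omega
  have hYp : (2 : ℝ) ^ ⌊ζ * J⌋₊ ≤ 2 ^ Y := pow_le_pow_right₀ (by norm_num) hYf
  have hYone : 1 ≤ Y := by omega
  have hYR : (1 : ℝ) ≤ Y := by exact_mod_cast hYone
  have hCY : C₀ * (ηm * J) ≤ Y := by
    have : C₀ * (ηm * J) = C₀ * ηm * J := by ring
    rw [this]
    exact (mul_le_mul_of_nonneg_right hCη hJ0).trans hY1
  have hηm0 : 0 ≤ ηm := (hWB.hη k₀ hk₀).1.trans (hWB.hη k₀ hk₀).2
  have hηY : ηm * J ≤ Y := (le_mul_of_one_le_left (mul_nonneg hηm0 hJ0) hWB.C1).trans hCY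
  -- the times
  have hwR : (0 : ℝ) ≤ w := by exact_mod_cast hw
  have hwaR : (w : ℝ) ≤ a := by exact_mod_cast hwa
  have hw1R : (w : ℝ) < 1 := by exact_mod_cast hw1
  obtain ⟨ho0, -⟩ := hWB.ho k₀ hk₀
  have hmul : ∀ {x y : ℝ}, x ≤ y → x * (J : ℝ) ≤ y * J := fun h =>
    mul_le_mul_of_nonneg_right h hJ0
  have hfo1 : (⌊o k₀ * J⌋₊ : ℝ) ≤ w * J := (Nat.floor_le (mul_nonneg ho0 hJ0)).trans (hmul how1)
  have hfo2 : (w : ℝ) * J ≤ ⌊o k₀ * J⌋₊ + 1 + ζ * J := by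
    have t1 := (Nat.lt_floor_add_one (o k₀ * (J : ℝ))).le
    have t2 := hmul how2
    linarith
  have hfa : (⌊(a : ℝ) * J⌋₊ : ℝ) ≤ a * J := Nat.floor_le (mul_nonneg (hwR.trans hwaR) hJ0)
  obtain ⟨v, hv⟩ : ∃ v : ℕ, v = z k₀ jT := ⟨_, rfl⟩
  obtain ⟨q, hq⟩ : ∃ q : ℕ, q = z k₀ jq := ⟨_, rfl⟩
  rw [← hv] at hzT1 hzT2
  rw [← hq] at hzq hWq
  have hv1 : ((a : ℝ) - w) * J - 2 * Y - 2 ≤ v := by
    have : (v : ℝ) = v := rfl
    linarith
  have hv2 : (v : ℝ) ≤ (a - w) * J + Y + 1 := by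
    have h7 : ((⌊o k₀ * J⌋₊ + v : ℕ) : ℝ) ≤ (⌊(a : ℝ) * J⌋₊ : ℕ) := by exact_mod_cast hzT1
    push_cast at h7
    linarith
  have hΛ : (2 * C' + 4 * C₁ + 120) * ζ * (J : ℝ) ≥ 2 * C' + 4 * C₁ + 60 * Y := by
    have e1 : (2 * C' + 4 * C₁ + 120) * ζ * (J : ℝ) =
        2 * C' * (ζ * J) + 4 * C₁ * (ζ * J) + 60 * (2 * (ζ * J)) := by ring
    rw [e1]
    have e2 : 2 * (C' : ℝ) * 1 ≤ 2 * C' * (ζ * J) := mul_le_mul_of_nonneg_left hζJ (by linarith)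
    have e3 : 4 * (C₁ : ℝ) * 1 ≤ 4 * C₁ * (ζ * J) := mul_le_mul_of_nonneg_left hζJ (by linarith)
    linarith
  have g1 := hmul h1
  have g2 := hmul h2
  have g3 := hmul h3
  have g4 := hmul h4
  have hqv : q + 2 ≤ v := by
    have h7 : ((q + 2 : ℕ) : ℝ) ≤ (v : ℕ) := by
      push_cast
      linarith
    exact_mod_cast h7
  obtain ⟨nn, hnn⟩ : ∃ nn : ℕ, v = q + nn := ⟨v - q, by omega⟩
  have hnnR : (q : ℝ) + nn = v := by rw [hnn]; push_cast; ring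
  obtain ⟨s, hs⟩ : ∃ s : ℕ, s = ⌊s₁ * J⌋₊ := ⟨_, rfl⟩
  have hs1 : s₁ * J ≤ s + 1 := by rw [hs]; exact (Nat.lt_floor_add_one _).le
  have hs2 : (s : ℝ) ≤ max (s₁ * J) 0 := by
    rw [hs]
    rcases le_or_gt 0 (s₁ * (J : ℝ)) with h7 | h7
    · exact (Nat.floor_le h7).trans (le_max_left _ _)
    · rw [Nat.floor_of_nonpos h7.le, Nat.cast_zero]
      exact le_max_right _ _
  rw [← hs] at hcl hsh
  obtain ⟨p, hp⟩ : ∃ p : ℕ, p = ⌊(bet P c i a w + h) * J⌋₊ := ⟨_, rfl⟩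
  have hβ : 0 ≤ bet P c i a w := (hwR.trans hwaR).trans (hP.low _ _ _ hwR hwaR (by
    exact_mod_cast ha))
  have hpR : (p : ℝ) ≤ (bet P c i a w + h) * J := by
    rw [hp]
    exact Nat.floor_le (mul_nonneg (by linarith) hJ0)
  obtain ⟨hσ1, hσ2⟩ := hWB.hσ k₀ hk₀
  obtain ⟨hη1, hη2⟩ := hWB.hη k₀ hk₀
  have hfE : (⌊(Eb + σ k₀ + η k₀) * J⌋₊ : ℝ) ≤ Eb * J + 2 * Y := by
    have t1 : (⌊(Eb + σ k₀ + η k₀) * J⌋₊ : ℝ) ≤ (Eb + σ k₀ + η k₀) * J :=
      Nat.floor_le (mul_nonneg (by linarith [hWB.Eb0]) hJ0)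
    have t2 : (σ k₀ + η k₀) * (J : ℝ) ≤ (2 * ηm) * J := hmul (by linarith)
    linarith
  -- the sides
  have hgn : ∀ l ≤ r, (lv k₀ l * J - Y - 1 ≤ (⌊b k₀ l * J⌋₊ : ℝ)) ∧
      ((⌊b k₀ l * J⌋₊ : ℝ) ≤ lv k₀ l * J) ∧ (lv k₀ l * J - Y ≤ (g₀ k₀ l : ℝ)) ∧
      ((g₀ k₀ l : ℝ) ≤ lv k₀ l * J) := by
    intro l hl
    obtain ⟨t1, t2, t3, t4⟩ := hWB.g_num hk₀ hl
    exact ⟨by linarith, t2, by linarith, t4⟩
  have hg12 : ∀ l ≤ r, ⌊b k₀ l * J⌋₊ ≤ g₀ k₀ l + Y ∧ g₀ k₀ l ≤ ⌊b k₀ l * J⌋₊ + 2 * Y := by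
    intro l hl
    obtain ⟨t1, t2, t3, t4⟩ := hgn l hl
    constructor
    · have h7 : (⌊b k₀ l * J⌋₊ : ℝ) ≤ ((g₀ k₀ l + Y : ℕ) : ℝ) := by
        push_cast
        linarith
      exact_mod_cast h7
    · have h7 : (g₀ k₀ l : ℝ) ≤ ((⌊b k₀ l * J⌋₊ + 2 * Y : ℕ) : ℝ) := by
        push_cast
        linarith
      exact_mod_cast h7
  have hWJ : W ≤ J := by
    have h7 : ((W : ℕ) : ℝ) ≤ (J : ℕ) := by
      have t1 : ((W : ℕ) : ℝ) ≤ (⌊(w : ℝ) * J⌋₊ : ℕ) := by exact_mod_cast hWw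
      have t2 : (⌊(w : ℝ) * J⌋₊ : ℝ) ≤ w * J := Nat.floor_le (mul_nonneg hwR hJ0)
      have t3 := hmul hw1R.le
      linarith
    exact_mod_cast h7
  have hYs : (2 : ℝ) ^ ⌊ζ * J⌋₊ / 2 ^ s ≤ 2 ^ Y / 2 ^ s :=
    div_le_div_of_nonneg_right hYp (by positivity)
  obtain ⟨Gp, lam, hL⟩ := hlin mu hc hi (hWB.ev k₀ hk₀) hjq hjT (q := q) (nn := nn) (s := s)
    (Y := Y) (ε₂ := 2 ^ ⌊ζ * J⌋₊ * 2 ^ ⌊o n * J⌋₊ / 2 ^ g₀ n i) (B' := B') (Gn := G n) (W := W)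
    hq.symm (hv.symm.trans hnn) (by omega) hwW hWJ hB' hYf hg12 hR₀
    (fun y l => (hWB.ev n hn).ball.depG y l)
    (fun ω ν hω hν hpt => hRn.vel ω ν hω hν hpt i hi) hmd
    (fun ω hω j hj => (hcl ω hω j hj).trans hYs)
    (fun ω hω j hj => (hsz ω hω j hj).trans hYp)
    (fun ω ν hω hν hpt j hj => (hsh ω ν hω hν hpt j hj).trans hYs)
    (fun l hl => by
      obtain ⟨-, t2, -, -⟩ := hgn l (by omega)
      have h7 := hmul (h6 l hl)
      have h8 := hmul (h5 l hl)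
      have h9 : 0 ≤ Eb * (J : ℝ) := mul_nonneg hWB.Eb0 hJ0
      have h10 : ((⌊(Eb + σ k₀ + η k₀) * J⌋₊ + (⌊b k₀ l * J⌋₊ + q) + s + C₁ : ℕ) : ℝ) ≤
          (J : ℕ) := by
        push_cast
        rcases le_total (s₁ * (J : ℝ)) 0 with h11 | h11
        · rw [max_eq_right h11] at hs2
          linarith
        · rw [max_eq_left h11] at hs2
          linarith
      exact_mod_cast h10)
  have hrT := (((hWB.ev k₀ hk₀).rad jT hjT).sub hB')
  rw [← hv, hnn] at hrT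
  have hch := chok_win (hrT.mono (show i ≤ r + 1 by omega) (fun _ => le_rfl) le_rfl le_rfl)
    hwW hWJ
  have hzT1' : ⌊o k₀ * J⌋₊ + (q + nn) ≤ ⌊(a : ℝ) * J⌋₊ := by rw [← hnn]; exact hzT1
  obtain ⟨-, -, hgi1, -⟩ := hgn i hi
  obtain ⟨hbi, -, -, -⟩ := hgn i hi
  obtain ⟨-, -, hgn1, -⟩ := hWB.g_num hn hi
  refine hA (⌊o k₀ * J⌋₊ + (q + nn)) W (⌊o k₀ * J⌋₊ + q) nn (5 * Y + C₁)
    ⌊(Eb + σ k₀ + η k₀) * J⌋₊ (7 * Y) p (fun _ => D) (fun l => ⌊b k₀ l * J⌋₊ + q)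
    (fun l => ⌊b k₀ l * J⌋₊ + (q + nn))
    (2 ^ (3 * Y + C₁) / 2 ^ (g₀ k₀ i + s + q)) (2 ^ ⌊ζ * J⌋₊ * 2 ^ ⌊o n * J⌋₊ / 2 ^ g₀ n i) B'
    (fun y l => Gno (c l) J J (fun y => G k₀ y l) y)
    (fun s l => H k₀ (wlow (W - ⌊o k₀ * J⌋₊) s) l)
    (fun y l => Gno (c l) J J (fun y => G k₀ y l) y)
    (fun s l => Hno (c l) (fun s => H k₀ s l) (wlow (W - ⌊o k₀ * J⌋₊) s)) Gp lam
    (by omega) hzT1' hWw hWq (by omega) (by push_cast; linarith) ?_ (fun _ => hDC) ?_ ?_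
    (by rw [hp]; omega) ?_ ?_ (by positivity) (by positivity) ?_
    (fun ω hω => hBA ω (hB' ω hω)) hch hL
  · -- the exponent
    refine Nat.le_floor ?_
    push_cast
    have := hmul hEe
    linarith
  · -- the thin sides
    intro l hl
    obtain ⟨-, t2, -, -⟩ := hgn l (by omega)
    have h7 := hmul (h5 l hl.le)
    have h8 : 0 ≤ Eb * (J : ℝ) := mul_nonneg hWB.Eb0 hJ0
    have h9 : 0 ≤ ((a : ℝ) - w) * (J : ℝ) := mul_nonneg (by linarith) hJ0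
    have h10 : ((⌊b k₀ l * J⌋₊ + (q + nn) : ℕ) : ℝ) ≤ (J : ℕ) := by
      push_cast
      linarith
    exact_mod_cast h10
  · -- the precision
    have h7 : (p : ℝ) ≤ (J : ℕ) := by
      have := hmul hbet
      linarith
    exact_mod_cast h7
  · -- room
    intro l hl
    obtain ⟨-, t2, -, -⟩ := hgn l (by omega)
    have h7 := hmul (h5 l (by omega))
    have h8 : ((⌊(Eb + σ k₀ + η k₀) * J⌋₊ + (⌊b k₀ l * J⌋₊ + q) + 2 * nn + C' : ℕ) : ℝ) ≤
        (J : ℕ) := by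
      have h9 : (0 : ℝ) ≤ q := Nat.cast_nonneg q
      push_cast
      linarith
    exact_mod_cast h8
  · -- the Lipschitz exponents
    refine nlp_le fun j hj => ?_
    obtain ⟨-, t1, -, -⟩ := hgn j (by omega)
    rcases hnl j hj with h7 | h7
    · left
      have h8 := hmul h7
      have h9 : ((⌊b k₀ j * J⌋₊ + q : ℕ) : ℝ) ≤ ((⌊b k₀ i * J⌋₊ + q + 7 * Y : ℕ) : ℝ) := by
        push_cast
        linarith
      exact_mod_cast h9
    · right
      have h8 := hmul h7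
      have h9 : ((⌊b k₀ j * J⌋₊ + q + p : ℕ) : ℝ) ≤
          ((⌊b k₀ i * J⌋₊ + q + (⌊b k₀ j * J⌋₊ + (q + nn)) + 7 * Y : ℕ) : ℝ) := by
        have h9 : (0 : ℝ) ≤ q := Nat.cast_nonneg q
        push_cast
        linarith
      exact_mod_cast h9
  · -- the errors
    obtain ⟨x, hx⟩ : ∃ x : ℕ, x = p + (C' + 2 * (5 * Y + C₁ + 7 * Y)) + 2 := ⟨_, rfl⟩
    have hpv : (0 : ℝ) ≤ ηm * J := mul_nonneg hηm0 hJ0
    have k1 : x + (3 * Y + C₁) ≤ g₀ k₀ i + s + q + nn := by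
      have h8 : ((x + (3 * Y + C₁) : ℕ) : ℝ) ≤ ((g₀ k₀ i + s + q + nn : ℕ) : ℝ) := by
        rw [hx]
        push_cast
        linarith
      exact_mod_cast h8
    have k2 : x + Y + ⌊o n * J⌋₊ ≤ g₀ n i + (⌊o k₀ * J⌋₊ + q + nn) := by
      have h7 : (⌊o n * J⌋₊ : ℝ) ≤ o n * J := Nat.floor_le (mul_nonneg (hWB.ho n hn).1 hJ0)
      have h8 : ((x + Y + ⌊o n * J⌋₊ : ℕ) : ℝ) ≤
          ((g₀ n i + (⌊o k₀ * J⌋₊ + q + nn) : ℕ) : ℝ) := by
        rw [hx]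
        push_cast
        linarith
      exact_mod_cast h8
    have k3 : x ≤ ⌊b k₀ i * J⌋₊ + q + 2 * nn := by
      have h8 : ((x : ℕ) : ℝ) ≤ ((⌊b k₀ i * J⌋₊ + q + 2 * nn : ℕ) : ℝ) := by
        rw [hx]
        push_cast
        linarith
      exact_mod_cast h8
    have e1 : (2 : ℝ) ^ (3 * Y + C₁) / 2 ^ (g₀ k₀ i + s + q) / 2 ^ nn ≤ 1 / 2 ^ x := by
      rw [div_div, ← pow_add, div_le_div_iff₀ (by positivity) (by positivity), one_mul, ← pow_add]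
      exact pow_le_pow_right₀ (by norm_num) (by omega)
    have e2 : (2 : ℝ) ^ ⌊ζ * J⌋₊ * 2 ^ ⌊o n * J⌋₊ / 2 ^ g₀ n i /
        2 ^ (⌊o k₀ * J⌋₊ + q + nn) ≤ 1 / 2 ^ x := by
      rw [div_div, ← pow_add, ← pow_add, div_le_div_iff₀ (by positivity) (by positivity), one_mul,
        ← pow_add]
      exact pow_le_pow_right₀ (by norm_num) (by omega)
    have e3 : (1 : ℝ) / 2 ^ (⌊b k₀ i * J⌋₊ + q + 2 * nn) ≤ 1 / 2 ^ x := inv_mono k3
    have e4 : (2 : ℝ) ^ (C' + 2 * (5 * Y + C₁ + 7 * Y)) * (1 / 2 ^ x + 1 / 2 ^ x + 1 / 2 ^ x) ≤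
        1 / 2 ^ p := by
      obtain ⟨K, hK⟩ : ∃ K, K = C' + 2 * (5 * Y + C₁ + 7 * Y) := ⟨_, rfl⟩
      rw [hx, ← hK]
      have e5 : (2 : ℝ) ^ (p + K + 2) = 2 ^ p * 2 ^ K * 4 := by
        rw [pow_add, pow_add]
        norm_num
      have e6 : (2 : ℝ) ^ K * (1 / 2 ^ (p + K + 2) + 1 / 2 ^ (p + K + 2) +
          1 / 2 ^ (p + K + 2)) = 3 / 4 * (1 / 2 ^ p) := by
        rw [e5]
        field_simp
        norm_num
      rw [e6]
      have e7 : 0 < (1 : ℝ) / 2 ^ p := by positivity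
      linarith
    refine le_trans (mul_le_mul_of_nonneg_left (add_le_add (add_le_add e1 e2) e3)
      (by positivity)) e4

end Pool.D2R
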