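import Pool.Agent.H23.D2.Gen
import Pool.Agent.H2.GEN.EvS

/-!
# The row labels of several windows against the closed balls of several windows

`pair_out`: two windows `w₁ ≤ w₂` of one event of `ev_con` (one radius `w₁ + v₁ = w₂ + v₂`): the
label of the target of the window `w₁` against the closed ball of the window `w₂`.
-/

set_option autoImplicit false

namespace Pool.D2R

open Finset Real MvPolynomial
open Pool.Agent.H49.Ent Pool.Agent.H32.Dense Pool.STK Pool.KA Pool.KSAT Pool.K2S Pool.PB Pool.S6C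
open Pool.GEN Pool.CHT Pool.CHX Pool.ISO
open Pool.FLF (Fam.sub)
open Pool.PB.Trl (rt rt_mem t_rt)

variable {m J : ℕ}

/-- Smaller events. -/
theorem ROut1.sub {F : Fam m J} {c : ℕ → Fin m} {r w a v : ℕ} {g₀ gT : ℕ → ℕ} {p : ℕ} {U : ℝ}
    {B B' : F.Ω → Prop} {G₀ : PtT F → ℕ → MvPolynomial (Option (Fin m)) ℝ}
    {H₀ : LnT F → ℕ → MvPolynomial (Option (Fin m)) ℝ}
    {T : PtT F → ℕ → MvPolynomial (Option (Fin m)) ℝ}
    {TH : LnT F → ℕ → MvPolynomial (Option (Fin m)) ℝ}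
    {Ht : LnT F → MvPolynomial (Option (Fin m)) ℝ}
    (h : ROut1 F c r w a v g₀ gT p U B G₀ H₀ T TH Ht) (hB : Sub B' B) :
    ROut1 F c r w a v g₀ gT p U B' G₀ H₀ T TH Ht where
  own := fun ω hω => h.own ω (hB ω hω)
  ownT := fun ω hω => h.ownT ω (hB ω hω)
  vel := fun ω ν hω hν => h.vel ω ν (hB ω hω) (hB ν hν)
  nul := fun ω ν hω hν => h.nul ω ν (hB ω hω) (hB ν hν)
  velT := fun ω ν hω hν => h.velT ω ν (hB ω hω) (hB ν hν)
  nulT := fun ω ν hω hν => h.nulT ω ν (hB ω hω) (hB ν hν)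
  box := fun ω hω => h.box ω (hB ω hω)
  win := fun ω hω => h.win ω (hB ω hω)
  hsw := fun ω hω => h.hsw ω (hB ω hω)
  dif := fun ω hω => h.dif ω (hB ω hω)

/-- Smaller precision, larger constant. -/
theorem ROut1.mono {F : Fam m J} {c : ℕ → Fin m} {r w a v : ℕ} {g₀ gT : ℕ → ℕ} {p p' : ℕ}
    {U U' : ℝ} {B : F.Ω → Prop} {G₀ : PtT F → ℕ → MvPolynomial (Option (Fin m)) ℝ}
    {H₀ : LnT F → ℕ → MvPolynomial (Option (Fin m)) ℝ}
    {T : PtT F → ℕ → MvPolynomial (Option (Fin m)) ℝ}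
    {TH : LnT F → ℕ → MvPolynomial (Option (Fin m)) ℝ}
    {Ht : LnT F → MvPolynomial (Option (Fin m)) ℝ}
    (h : ROut1 F c r w a v g₀ gT p U B G₀ H₀ T TH Ht) (hp : p' ≤ p) (h0 : 0 ≤ U) (hU : U ≤ U') :
    ROut1 F c r w a v g₀ gT p' U' B G₀ H₀ T TH Ht := by
  have k1 : ∀ {x : ℝ}, 0 < x → U / x ≤ U' / x := fun hx => div_le_div_of_nonneg_right hU hx.le
  have k2 : U / (2 : ℝ) ^ p ≤ U' / 2 ^ p' := by
    refine (div_le_div_of_nonneg_left h0 (by positivity) (pow_le_pow_right₀ (by norm_num)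
      hp)).trans (k1 (by positivity))
  have k3 : ∀ {x y : ℝ}, 0 ≤ x → 0 < y → U * x / y ≤ U' * x / y := fun hx hy =>
    div_le_div_of_nonneg_right (mul_le_mul_of_nonneg_right hU hx) hy.le
  exact
    { own := fun ω hω l hl τ hτ => (h.own ω hω l hl τ hτ).trans (k1 (by positivity))
      ownT := fun ω hω l hl τ hτ => (h.ownT ω hω l hl τ hτ).trans (k1 (by positivity))
      vel := fun ω ν hω hν hpt l hl => (h.vel ω ν hω hν hpt l hl).trans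
        (k3 (by positivity) (by positivity))
      nul := fun ω ν hω hν hpt l hl => (h.nul ω ν hω hν hpt l hl).trans
        (k3 (by positivity) (by positivity))
      velT := fun ω ν hω hν hpt l hl => (h.velT ω ν hω hν hpt l hl).trans
        (k3 (by positivity) (by positivity))
      nulT := fun ω ν hω hν hpt l hl => (h.nulT ω ν hω hν hpt l hl).trans
        (k3 (by positivity) (by positivity))
      box := fun ω hω b hb => (h.box ω hω b hb).trans k2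
      win := fun ω hω τ hτ V => (h.win ω hω τ hτ V).trans
        (mul_le_mul_of_nonneg_right k2 (nrm_nonneg _ _ _ _ _ _ _))
      hsw := fun ω hω τ hτ V Z => (h.hsw ω hω τ hτ V Z).trans
        (mul_le_mul_of_nonneg_right k2 (add_nonneg (mul_nonneg (by positivity)
          (nrm_nonneg _ _ _ _ _ _ _)) (nrz_nonneg _ _ _ _ _ _ _ _ _)))
      dif := fun ω hω l hl => ⟨fun V => ((h.dif ω hω l hl).1 V).trans
        (mul_le_mul_of_nonneg_right (k1 (by positivity)) (nrm_nonneg _ _ _ _ _ _ _)),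
        fun V V' Z => ((h.dif ω hω l hl).2 V V' Z).trans
        (mul_le_mul_of_nonneg_right (k1 (by positivity)) (add_nonneg (mul_nonneg
          (nrm_nonneg _ _ _ _ _ _ _) (nrm_nonneg _ _ _ _ _ _ _))
          (nrz_nonneg _ _ _ _ _ _ _ _ _)))⟩ }

/-- A chain on a shorter window. -/
theorem chok_co {F : Fam m J} {c : ℕ → Fin m} {r : ℕ} {K : ℕ → ℕ} {a w w' e : ℕ} {g : ℕ → ℕ}
    {A : F.Ω → Prop} {G : PtT F → ℕ → MvPolynomial (Option (Fin m)) ℝ}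
    {H : LnT F → ℕ → MvPolynomial (Option (Fin m)) ℝ} (h : ChOK F c r K a w e g A G H)
    (hw : w ≤ w') (hw' : w' ≤ J) :
    ChOK F c r K a w' e g A G (fun s => H (co (w' - w) s)) := by
  refine ⟨h.degG, fun s i => h.degH _ i, h.depG, fun s i => h.depH _ i, h.pos,
    fun ω hω i hi b hb => ?_, h.lip⟩
  show |eval b (G (ptr F J ω) i) - eval b (H (co (w' - w) (slam F w' ω)) i)| ≤ _
  rw [co_slam F hw hw']
  exact h.agr ω hω i hi b hb

/-- **Two windows of one event.** -/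
theorem pair_out (m D r : ℕ) (hD : 1 ≤ D) : ∃ C : ℕ, 1 ≤ C ∧ ∀ {J : ℕ} {F : Fam m J}
    {c : ℕ → Fin m} {Dr w₁ w₂ v₁ v₂ M₁ M₂ e₁ e₂ h₁ h₂ p₁ p₂ k : ℕ} {z₁ z₂ : ℕ → ℕ}
    {R₁ R₂ : ℕ → Prop} {g₁ gc₁ gT₁ g₀₁ g₂ gc₂ gT₂ g₀₂ : ℕ → ℕ} {κ₁ κ₂ θ : ℝ} {B : F.Ω → Prop}
    {G₁ G₂ : PtT F → ℕ → MvPolynomial (Option (Fin m)) ℝ}
    {H₁ H₂ : LnT F → ℕ → MvPolynomial (Option (Fin m)) ℝ}
    {T₁ T₂ : PtT F → ℕ → MvPolynomial (Option (Fin m)) ℝ}
    {TH₁ TH₂ : LnT F → ℕ → MvPolynomial (Option (Fin m)) ℝ}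
    {Gt₁ Gt₂ : PtT F → MvPolynomial (Option (Fin m)) ℝ}
    {Ht₁ Ht₂ : LnT F → MvPolynomial (Option (Fin m)) ℝ}
    (_ : 0 < Pe F.p B), Set.InjOn c (Set.Iio (r + 1)) → w₁ ≤ w₂ → w₂ ≤ J → w₁ + v₁ = w₂ + v₂ →
    D ≤ Dr → EvS F c r D Dr w₁ v₁ M₁ z₁ e₁ h₁ p₁ R₁ g₁ gc₁ gT₁ g₀₁ κ₁ B G₁ H₁ T₁ TH₁ Gt₁ Ht₁ →
    EvS F c r D Dr w₂ v₂ M₂ z₂ e₂ h₂ p₂ R₂ g₂ gc₂ gT₂ g₀₂ κ₂ B G₂ H₂ T₂ TH₂ Gt₂ Ht₂ →
    0 ≤ κ₂ → κ₂ * (8 * 4 ^ r) ≤ 1 → (∀ l < r, 1 ≤ gT₂ l) →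
    (∀ l ≤ r, e₂ + g₀₂ l + C * (k + 1) ≤ J) → (∀ l < r, e₂ + gT₂ l + C * (k + 1) ≤ J) → 0 ≤ θ →
    (∀ (B' : F.Ω → Prop) (hB' : 0 < Pe F.p B'), Sub B' B →
      Pe F.p B / (16 * 4 ^ r) ≤ Pe F.p B' → (Fam.sub F B' hB').Tm θ) →
    C * (θ + 1) ≤ ((J : ℝ) - w₂) * Real.log 2 → Real.exp (C * (θ + 1)) ≤ 2 ^ k →
    ∃ B' : F.Ω → Prop, Sub B' B ∧ Pe F.p B ≤ 16 * 4 ^ r * Pe F.p B' ∧
      ∀ q : ℕ, q + C * (h₂ + 1) ≤ p₁ → q + C * (h₂ + 1) ≤ gc₂ r →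
        ROut1 F c r w₁ w₂ v₂ g₀₂ gT₂ q (2 ^ (C * (h₂ + k + 1))) B' G₂ H₂ T₂ TH₂ Ht₁ := by
  classical
  obtain ⟨C₁, hmv⟩ := move_all D (r + 1) hD
  obtain ⟨C₂, hls⟩ := lab_swap D (r + 1)
  obtain ⟨C₃, hC₃, hr1⟩ := r1_fam m D r hD
  obtain ⟨C, hC⟩ : ∃ C : ℕ, C = C₂ * (C₁ + 1) + C₃ := ⟨_, rfl⟩
  refine ⟨C, by omega, ?_⟩
  intro J F c Dr w₁ w₂ v₁ v₂ M₁ M₂ e₁ e₂ h₁ h₂ p₁ p₂ k z₁ z₂ R₁ R₂ g₁ gc₁ gT₁ g₀₁ g₂ gc₂ gT₂ g₀₂
    κ₁ κ₂ θ B G₁ G₂ H₁ H₂ T₁ T₂ TH₁ TH₂ Gt₁ Gt₂ Ht₁ Ht₂ hB0 hc hw hw2 hrad hDr hE₁ hE₂ hκ0 hκ hgT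
    hJ hJT hθ hTm hCJ hexp
  have hp := Pe_nonneg F.isLaw
  have h4 : (0 : ℝ) < 4 ^ r := by positivity
  have h2 : (0 : ℝ) < 2 ^ r := by positivity
  have e4 : (4 : ℝ) ^ r = 2 ^ r * 2 ^ r := by
    rw [← mul_pow]
    norm_num
  have hr1' : (1 : ℝ) ≤ 2 ^ r := one_le_pow₀ (by norm_num)
  by_cases hlos : C * (h₂ + 1) ≤ min p₁ (gc₂ r)
  swap
  · refine ⟨B, fun _ h => h, ?_, fun q q1 q2 => absurd (le_min (by omega) (by omega)) hlos⟩
    have h5 : (1 : ℝ) ≤ 16 * 4 ^ r := by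
      have : (1 : ℝ) ≤ 4 ^ r := one_le_pow₀ (by norm_num)
      linarith
    exact le_mul_of_one_le_left (hp B) h5
  have hc' : Set.InjOn c (Set.Iio r) := hc.mono fun x hx => by
    rw [Set.mem_Iio] at hx ⊢
    omega
  have hR : RelvF F c r (w₂ + v₂) w₂ gT₂ D h₂ κ₂ B T₂ := hE₂.relt.mono hDr le_rfl
  -- the boxes of the thin chain near those of the other window
  have hT₁ := chok_co hE₁.thin hw hw2
  rw [hrad] at hT₁
  obtain ⟨B₁, k1, k2, k3⟩ := hmv (κ' := 1) (Nat.lt_succ_self r) hc' hR (fun _ h => h)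
    (by rw [one_mul]) (by
      have h3 : κ₂ * 2 ^ (r + 1) ≤ κ₂ * (8 * 4 ^ r) := by
        refine mul_le_mul_of_nonneg_left ?_ hκ0
        rw [e4, pow_succ]
        nlinarith
      exact h3.trans hκ) hT₁
  have hP1 : Pe F.p B ≤ 2 ^ r * Pe F.p B₁ := by
    rw [div_le_iff₀ h2] at k2
    linarith
  obtain ⟨B₂, l1, l2, l3⟩ := hmv (κ' := 1 / 2 ^ r) (Nat.lt_succ_self r) hc' hR k1
    (by rw [one_div, inv_mul_le_iff₀ h2]; exact hP1) (by
      rw [le_div_iff₀ h2]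
      have h3 : κ₂ * 2 ^ (r + 1) * 2 ^ r ≤ κ₂ * (8 * 4 ^ r) := by
        have : κ₂ * 2 ^ (r + 1) * 2 ^ r = κ₂ * (2 * 4 ^ r) := by
          rw [e4, pow_succ]
          ring
        rw [this]
        exact mul_le_mul_of_nonneg_left (by linarith) hκ0
      exact h3.trans hκ) ((hE₂.top.mono (Nat.le_succ r) (fun _ => le_rfl) le_rfl le_rfl).sub k1)
  have hP2 : Pe F.p B ≤ 4 ^ r * Pe F.p B₂ := by
    rw [div_le_iff₀ h2] at l2
    calc Pe F.p B ≤ 2 ^ r * Pe F.p B₁ := hP1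
      _ ≤ 2 ^ r * (Pe F.p B₂ * 2 ^ r) := mul_le_mul_of_nonneg_left l2 h2.le
      _ = 4 ^ r * Pe F.p B₂ := by rw [e4]; ring
  have hB20 : 0 < Pe F.p B₂ := by
    by_contra hcon
    have : Pe F.p B₂ = 0 := le_antisymm (not_lt.1 hcon) (hp _)
    rw [this, mul_zero] at hP2
    linarith
  have hBB : Sub B₂ B := fun ω hω => k1 ω (l1 ω hω)
  -- the precision
  obtain ⟨p, hpd⟩ : ∃ p, p = min p₁ (gc₂ r) - C₂ * (C₁ * (h₂ + 1) + 1) := ⟨_, rfl⟩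
  have hCC : C₂ * (C₁ * (h₂ + 1) + 1) ≤ C * (h₂ + 1) := by
    rw [hC]
    nlinarith [Nat.zero_le (C₂ * h₂), Nat.zero_le (C₃ * h₂)]
  have hpp₁ : p + C₂ * (C₁ * (h₂ + 1) + 1) ≤ p₁ := by
    have := min_le_left p₁ (gc₂ r)
    omega
  have hpp₂ : p + C₂ * (C₁ * (h₂ + 1) + 1) ≤ gc₂ r := by
    have := min_le_right p₁ (gc₂ r)
    omega
  have hdiv : ∀ {x n : ℕ}, p + x ≤ n → (2 : ℝ) ^ x * (1 / 2 ^ n) ≤ 1 / 2 ^ p := by
    intro x n hx
    rw [mul_one_div, div_le_div_iff₀ (by positivity) (by positivity), one_mul, ← pow_add]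
    exact pow_le_pow_right₀ (by norm_num) (by omega)
  have hdat : RDat1 F c r D w₁ w₂ v₂ e₂ g₀₂ gT₂ p B₂ G₂ H₂ T₂ TH₂ Gt₁ Ht₁ :=
    { ball := hE₂.ball.sub hBB
      thin := hE₂.thin.sub hBB
      dG := hE₁.dG
      dH := hE₁.dH
      pG := hE₁.pG
      pH := hE₁.pH
      pos := fun ω hω => (hE₁.pos ω (hBB ω hω)).trans (inv_mono (by omega))
      agr := fun ω hω b hb => by
        have h5 := hls (p := C₁ * (h₂ + 1)) (Nat.lt_succ_self r) hc' (hE₁.thin.degG (ptr F J ω))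
          (hE₁.thin.depG (ptr F J ω)) (g := gT₁)
          (Q := Gt₁ (ptr F J ω) - Ht₁ (slam F w₁ ω)) (M := 1 / 2 ^ p₁)
          (fun y y' hn hy => by
            rw [map_sub, map_sub, hE₁.pG (ptr F J ω) y y' hn hy, hE₁.pH (slam F w₁ ω) y y' hn hy])
          ((totalDegree_sub _ _).trans (max_le (hE₁.dG _) (hE₁.dH _))) (by positivity)
          (fun b hb j hj => k3 ω (l1 ω hω) b hb j hj) (fun b hb => by
            rw [map_sub]
            refine hE₁.agr ω (hBB ω hω) b ?_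
            rw [hrad]
            exact hb) b hb
        rw [map_sub] at h5
        exact h5.trans (hdiv hpp₁)
      rpos := fun ω hω => (hE₂.top.pos ω (hBB ω hω) r (Nat.lt_succ_self r)).trans
        (inv_mono (by omega))
      ragr := fun ω hω b hb => by
        have h5 := hls (p := C₁ * (h₂ + 1)) (Nat.lt_succ_self r) hc'
          (hE₂.top.degG (ptr F J ω)) (hE₂.top.depG (ptr F J ω)) (g := gc₂)
          (Q := Gno (c r) J J (fun y => G₂ y r) (ptr F J ω) -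
            Hno (c r) (fun s => H₂ s r) (slam F w₂ ω)) (M := 1 / 2 ^ gc₂ r)
          (fun y y' hn hy => by
            rw [map_sub, map_sub, hE₂.top.depG (ptr F J ω) r y y' hn hy,
              hE₂.top.depH (slam F w₂ ω) r y y' hn hy])
          ((totalDegree_sub _ _).trans (max_le (hE₂.top.degG _ r) (hE₂.top.degH _ r)))
          (by positivity) (fun b hb j hj => l3 ω hω b hb j hj) (fun b hb => by
            rw [map_sub]
            exact hE₂.top.agr ω (hBB ω hω) r (Nat.lt_succ_self r) b hb) b hb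
        rw [map_sub] at h5
        exact h5.trans (hdiv hpp₂) }
  have hrel : RelvF F c r (w₂ + v₂) w₂ gT₂ D h₂ (1 / 4) B₂ T₂ :=
    hR.sub (κ₁ := 1 / 4 ^ r) hBB (by rw [one_div, inv_mul_le_iff₀ h4]; exact hP2)
      (by norm_num) (by
        rw [div_mul_div_comm, one_mul, le_div_iff₀ (by positivity)]
        calc κ₂ * (4 * 4 ^ r) ≤ κ₂ * (8 * 4 ^ r) := mul_le_mul_of_nonneg_left (by linarith) hκ0
          _ ≤ 1 := hκ)
  obtain ⟨B₃, n1, n2, n3⟩ := hr1 (θ := θ) (k := k) hB20 hc hw hw2 hdat hrel le_rfl hgT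
    (fun l hl => le_trans (Nat.add_le_add_left (Nat.mul_le_mul_right _ (by omega)) _) (hJ l hl))
    (fun l hl => le_trans (Nat.add_le_add_left (Nat.mul_le_mul_right _ (by omega)) _) (hJT l hl))
    hθ (fun B' hB' s1 s2 => hTm B' hB' (fun ω hω => hBB ω (s1 ω hω)) (by
      rw [div_le_iff₀ (by positivity)]
      have h5 : Pe F.p B₂ ≤ 16 * Pe F.p B' := by linarith
      calc Pe F.p B ≤ 4 ^ r * Pe F.p B₂ := hP2
        _ ≤ 4 ^ r * (16 * Pe F.p B') := mul_le_mul_of_nonneg_left h5 h4.le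
        _ = _ := by ring))
    (by
      refine le_trans (mul_le_mul_of_nonneg_right ?_ (by linarith)) hCJ
      have : C₃ ≤ C := by omega
      exact_mod_cast this)
    (by
      refine le_trans (Real.exp_le_exp.2 (mul_le_mul_of_nonneg_right ?_ (by linarith))) hexp
      have : C₃ ≤ C := by omega
      exact_mod_cast this)
  refine ⟨B₃, fun ω hω => hBB ω (n1 ω hω), ?_, fun q q1 q2 => ?_⟩
  · calc Pe F.p B ≤ 4 ^ r * Pe F.p B₂ := hP2
      _ ≤ 4 ^ r * (16 * Pe F.p B₃) := mul_le_mul_of_nonneg_left (by linarith) h4.le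
      _ = _ := by ring
  · refine n3.mono ?_ (by positivity) (pow_le_pow_right₀ (by norm_num)
      (Nat.mul_le_mul_right _ (by omega)))
    have := le_min (show q + C * (h₂ + 1) ≤ p₁ from q1) (show q + C * (h₂ + 1) ≤ gc₂ r from q2)
    omega

end Pool.D2R
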