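import Pool.Agent.H23.D2.Lin
import Pool.Agent.H23.D2.Par

/-!
# Ball against ball

`ev_list`: finitely many properties on one event. `inc_out`: the thin boxes are inside the natural
boxes of the re-centred ball. `bal_out`: a chain of labels with the radius `2 ^ (-a)`, against the
closed ball chart of the window `a`: they agree on the natural boxes of the ball. `bal_chain`: a
chain of balls: the spatial gradients of the deep chart are natural for the first chart.
`shf_ball`: the gradient of a ball chart at two points of one cell.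
-/

set_option autoImplicit false

namespace Pool.D2R

open Finset Real MvPolynomial
open Pool.Agent.H49.Ent Pool.Agent.H32.Dense Pool.STK Pool.KA Pool.KSAT Pool.K2S Pool.PB Pool.S6C
open Pool.GEN Pool.CHT Pool.CHX Pool.ISO

variable {m J : ℕ}

/-- **Finitely many properties on one event.** -/
theorem ev_list {F : Fam m J} {ι : Type} (P : ι → (F.Ω → Prop) → Prop) {Y : ℝ} (hY : 1 ≤ Y)
    (hmono : ∀ x B B', P x B → Sub B' B → P x B') (L : List ι) :
    ∀ B : F.Ω → Prop, (∀ x ∈ L, ∀ B' : F.Ω → Prop, Sub B' B →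
      Pe F.p B ≤ Y ^ L.length * Pe F.p B' →
      ∃ B'' : F.Ω → Prop, Sub B'' B' ∧ Pe F.p B' ≤ Y * Pe F.p B'' ∧ P x B'') →
    ∃ B₁ : F.Ω → Prop, Sub B₁ B ∧ Pe F.p B ≤ Y ^ L.length * Pe F.p B₁ ∧ ∀ x ∈ L, P x B₁ := by
  have hp := Pe_nonneg F.isLaw
  have hY0 : 0 < Y := by linarith
  induction L with
  | nil =>
    intro B _
    refine ⟨B, fun _ h => h, ?_, fun x hx => absurd hx (by simp)⟩
    rw [List.length_nil, pow_zero, one_mul]
  | cons x L ih =>
    intro B hst
    obtain ⟨B₁, h1, h2, h3⟩ := hst x (by simp) B (fun _ h => h)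
      (le_mul_of_one_le_left (hp B) (one_le_pow₀ hY))
    obtain ⟨B₂, k1, k2, k3⟩ := ih B₁ fun y hy B' hB' hP => hst y (by simp [hy]) B'
      (fun ω hω => h1 ω (hB' ω hω)) (by
        rw [List.length_cons, pow_succ]
        calc Pe F.p B ≤ Y * Pe F.p B₁ := h2
          _ ≤ Y * (Y ^ L.length * Pe F.p B') := mul_le_mul_of_nonneg_left hP hY0.le
          _ = _ := by ring)
    refine ⟨B₂, fun ω hω => h1 ω (k1 ω hω), ?_, fun y hy => ?_⟩
    · rw [List.length_cons, pow_succ]
      calc Pe F.p B ≤ Y * Pe F.p B₁ := h2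
        _ ≤ Y * (Y ^ L.length * Pe F.p B₂) := mul_le_mul_of_nonneg_left k2 hY0.le
        _ = _ := by ring
    · rcases List.mem_cons.1 hy with h | h
      · rw [h]
        exact hmono x B₁ B₂ h3 k1
      · exact k3 y h

/-- The points of a natural box are prolonged by the graph. -/
theorem nbx_up {c : ℕ → Fin m} {G : ℕ → MvPolynomial (Option (Fin m)) ℝ} {g : ℕ → ℕ} {a : ℕ}
    {t : ℝ} {l r : ℕ} (hc : Set.InjOn c (Set.Iio r)) (hdep : ∀ l, DepC c l (G l)) (hl : l ≤ r)
    {b : Option (Fin m) → ℝ} (hb : NBx c G g a t l b) :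
    ∃ b' : Option (Fin m) → ℝ, NBx c G g a t r b' ∧ b' none = b none ∧
      ∀ j < l, b' (some (c j)) = b (some (c j)) := by
  classical
  have key : ∀ k, l + k ≤ r → ∃ b' : Option (Fin m) → ℝ, NBx c G g a t (l + k) b' ∧
      b' none = b none ∧ ∀ j < l, b' (some (c j)) = b (some (c j)) := by
    intro k
    induction k with
    | zero => exact fun _ => ⟨b, hb, rfl, fun _ _ => rfl⟩
    | succ k ih =>
      intro hk
      obtain ⟨b₁, h1, h2, h3⟩ := ih (by omega)
      obtain ⟨b', hb'⟩ : ∃ b' : Option (Fin m) → ℝ, b' = Function.update b₁ (some (c (l + k)))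
          (eval b₁ (G (l + k))) := ⟨_, rfl⟩
      have hn : b' none = b₁ none := by
        rw [hb']
        exact Function.update_of_ne (by simp) _ _
      have hj : ∀ j < l + k, b' (some (c j)) = b₁ (some (c j)) := by
        intro j hj
        rw [hb']
        refine Function.update_of_ne (fun h => ?_) _ _
        have h4 := hc (Set.mem_Iio.2 (by omega : j < r)) (Set.mem_Iio.2 (by omega : l + k < r))
          (Option.some_injective _ h)
        omega
      have hs : b' (some (c (l + k))) = eval b₁ (G (l + k)) := by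
        rw [hb']
        exact Function.update_self _ _ _
      refine ⟨b', ⟨by rw [hn]; exact h1.1, fun j hj' => ?_⟩, by rw [hn]; exact h2,
        fun j hj' => by rw [hj j (by omega)]; exact h3 j hj'⟩
      have hG : eval b' (G j) = eval b₁ (G j) := hdep j _ _ hn fun i hi => hj i (by omega)
      rw [hG]
      rcases Nat.lt_or_ge j (l + k) with h | h
      · rw [hj j h]
        exact h1.2 j h
      · have h4 : j = l + k := by omega
        rw [h4, hs, sub_self, abs_zero]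
        positivity
  obtain ⟨k, rfl⟩ := Nat.exists_eq_add_of_le hl
  exact key k le_rfl

/-- **The thin boxes are inside the natural boxes of the re-centred ball**, for every prefix. -/
theorem inc_out (D r : ℕ) (hD : 1 ≤ D) : ∃ C : ℕ, ∀ {m J : ℕ} {F : Fam m J} {c : ℕ → Fin m}
    {a w e h : ℕ} {gT g : ℕ → ℕ} {κ κ' : ℝ} {B₀ B : F.Ω → Prop}
    {T G : PtT F → ℕ → MvPolynomial (Option (Fin m)) ℝ}
    {H : LnT F → ℕ → MvPolynomial (Option (Fin m)) ℝ}, Set.InjOn c (Set.Iio r) →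
    (∀ y l, DepC c l (T y l)) → RelvF F c r a w gT D h κ B₀ T → Sub B B₀ →
    κ' * Pe F.p B₀ ≤ Pe F.p B → κ * 2 ^ (r + 1) ≤ κ' →
    ChOK F c r (fun _ => D) a w e g B G H →
    ∃ B' : F.Ω → Prop, Sub B' B ∧ Pe F.p B ≤ 2 ^ r * Pe F.p B' ∧ ∀ ω, B' ω → ∀ i ≤ r,
      ∀ b, NBx c (T (ptr F J ω)) gT a (F.t ω) i b →
        ∀ j < i, |b (some (c j)) - eval b (G (ptr F J ω) j)| ≤ 2 ^ (C * (h + 1)) / 2 ^ g j := by
  obtain ⟨C, hmv⟩ := move_all D (r + 1) hD
  refine ⟨C, ?_⟩
  intro m J F c a w e h gT g κ κ' B₀ B T G H hc hT hR hB hP hκ hG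
  obtain ⟨B', h1, h2, h3⟩ := hmv (Nat.lt_succ_self r) hc hR hB hP hκ hG
  have h2r : (0 : ℝ) < 2 ^ r := by positivity
  refine ⟨B', h1, ?_, fun ω hω i hi b hb j hj => ?_⟩
  · rw [div_le_iff₀ h2r] at h2
    linarith
  · obtain ⟨b', k1, k2, k3⟩ := nbx_up hc (hT (ptr F J ω)) hi hb
    have h4 := h3 ω hω b' k1 j (by omega)
    rw [k3 j hj, hG.depG (ptr F J ω) j b' b k2 fun l hl => k3 l (by omega)] at h4
    exact h4

/-- **A chain against the ball.** -/
theorem bal_out (D r : ℕ) (hD : 1 ≤ D) : ∃ C : ℕ, ∀ {m J : ℕ} {F : Fam m J} {c : ℕ → Fin m}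
    {a w e₁ e₂ h : ℕ} {g' g : ℕ → ℕ} {κ κ' : ℝ} {B₀ B : F.Ω → Prop}
    {G₁ G₂ : PtT F → ℕ → MvPolynomial (Option (Fin m)) ℝ}
    {H₁ H₂ : LnT F → ℕ → MvPolynomial (Option (Fin m)) ℝ}, Set.InjOn c (Set.Iio r) →
    w ≤ a → a ≤ J → RelvF F c r a a g D h κ B₀ G₂ → Sub B B₀ → κ' * Pe F.p B₀ ≤ Pe F.p B →
    0 ≤ κ → κ * (4 * 4 ^ r) ≤ κ' → ChOK F c (r + 1) (fun _ => D) a w e₁ g' B G₁ H₁ →
    ChOK F c (r + 1) (fun _ => D) a a e₂ g B G₂ H₂ →
    ∃ B' : F.Ω → Prop, Sub B' B ∧ Pe F.p B ≤ 2 * 4 ^ r * Pe F.p B' ∧ ∀ ω, B' ω → ∀ l ≤ r,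
      ∀ b, NBx c (G₂ (ptr F J ω)) g a (F.t ω) l b →
        |eval b (G₁ (ptr F J ω) l) - eval b (G₂ (ptr F J ω) l)| ≤
          2 ^ (C * (h + 1)) / 2 ^ min (g' l) (g l) := by
  obtain ⟨C₁, hinc⟩ := inc_out D r hD
  obtain ⟨C₂, hls⟩ := lab_swap D (r + 1)
  refine ⟨C₂ * (C₁ + 1) + 3, ?_⟩
  intro m J F c a w e₁ e₂ h g' g κ κ' B₀ B G₁ G₂ H₁ H₂ hc hwa haJ hR hB hP hκ0 hκ h₁ h₂
  have hp := Pe_nonneg F.isLaw
  have h2r : (0 : ℝ) < 2 ^ r := by positivity
  have hr1' : (1 : ℝ) ≤ 2 ^ r := one_le_pow₀ (by norm_num)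
  have e4 : (4 : ℝ) ^ r = 2 ^ r * 2 ^ r := by
    rw [← mul_pow]
    norm_num
  have h₁' := chok_co h₁ hwa haJ
  obtain ⟨B₁, k1, k2, k3⟩ := hinc hc h₂.depG hR hB hP (by
    refine le_trans (mul_le_mul_of_nonneg_left ?_ hκ0) hκ
    rw [e4, pow_succ]
    nlinarith) (h₁'.mono (Nat.le_succ r) (fun _ => le_rfl) le_rfl le_rfl)
  -- the loop over the coordinates
  have key : ∀ n ≤ r + 1, ∃ B' : F.Ω → Prop, Sub B' B₁ ∧ Pe F.p B₁ ≤ 2 ^ n * Pe F.p B' ∧
      ∀ ω, B' ω → ∀ l < n, ∀ b, NBx c (G₂ (ptr F J ω)) g a (F.t ω) l b →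
        |eval b (G₁ (ptr F J ω) l) - eval b (G₂ (ptr F J ω) l)| ≤
          2 ^ ((C₂ * (C₁ + 1) + 3) * (h + 1)) / 2 ^ min (g' l) (g l) := by
    intro n
    induction n with
    | zero => exact fun _ => ⟨B₁, fun _ h => h, by simp, fun ω _ l hl => absurd hl (by omega)⟩
    | succ n ih =>
      intro hn
      obtain ⟨B₂, l1, l2, l3⟩ := ih (by omega)
      obtain ⟨M, hM⟩ : ∃ M : ℝ, M = 2 ^ (C₂ * (C₁ * (h + 1) + 1) + 1) / 2 ^ min (g' n) (g n) :=
        ⟨_, rfl⟩
      have hM0 : 0 < M := by rw [hM]; positivity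
      have hk1 : (1 : ℝ) / 2 ^ g n ≤ 1 / 2 ^ min (g' n) (g n) := inv_mono (min_le_right _ _)
      have hk2 : (1 : ℝ) / 2 ^ g' n ≤ 1 / 2 ^ min (g' n) (g n) := inv_mono (min_le_left _ _)
      have hsum : (2 : ℝ) ^ (C₂ * (C₁ * (h + 1) + 1)) * (1 / 2 ^ g' n) +
          1 / 2 ^ min (g' n) (g n) ≤ M := by
        have e1 : (1 : ℝ) ≤ 2 ^ (C₂ * (C₁ * (h + 1) + 1)) := one_le_pow₀ (by norm_num)
        have e2 : (0 : ℝ) ≤ 1 / 2 ^ min (g' n) (g n) := by positivity
        have e3 := mul_le_mul_of_nonneg_left hk2 (show (0 : ℝ) ≤ 2 ^ (C₂ * (C₁ * (h + 1) + 1)) by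
          positivity)
        have e4 := mul_le_mul_of_nonneg_right e1 e2
        have e5 : M =
            2 ^ (C₂ * (C₁ * (h + 1) + 1)) * (1 / 2 ^ min (g' n) (g n)) +
            2 ^ (C₂ * (C₁ * (h + 1) + 1)) * (1 / 2 ^ min (g' n) (g n)) := by
          rw [hM, pow_succ]
          ring
        rw [e5]
        linarith
      have hPB : κ * Pe F.p B₀ ≤ Pe F.p B₂ := by
        have h5 : κ' * Pe F.p B₀ ≤ 2 ^ r * (2 ^ n * Pe F.p B₂) :=
          hP.trans (k2.trans (mul_le_mul_of_nonneg_left l2 h2r.le))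
        have h6 : (2 : ℝ) ^ n ≤ 2 ^ r * 2 := by
          rw [← pow_succ]
          exact pow_le_pow_right₀ (by norm_num) (by omega)
        have h7 : κ * (4 * 4 ^ r) * Pe F.p B₀ ≤ 2 ^ r * ((2 ^ r * 2) * Pe F.p B₂) :=
          (mul_le_mul_of_nonneg_right hκ (hp B₀)).trans (h5.trans
            (mul_le_mul_of_nonneg_left (mul_le_mul_of_nonneg_right h6 (hp B₂)) h2r.le))
        have h8 : (0 : ℝ) < 4 ^ r := by positivity
        have e1 : κ * (4 * 4 ^ r) * Pe F.p B₀ = 4 ^ r * (4 * (κ * Pe F.p B₀)) := by ring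
        have e2 : (2 : ℝ) ^ r * ((2 ^ r * 2) * Pe F.p B₂) = 4 ^ r * (2 * Pe F.p B₂) := by
          rw [e4]
          ring
        rw [e1, e2] at h7
        have h9 := le_of_mul_le_mul_left h7 h8
        have h10 : 0 ≤ κ * Pe F.p B₀ := mul_nonneg hκ0 (hp B₀)
        linarith
      obtain ⟨B₃, q1, q2, q3⟩ := hR B₂ (fun ω hω => hB ω (k1 ω (l1 ω hω))) hPB
        (fun y => G₁ y n - G₂ y n) (fun s => H₁ (co (a - w) s) n - H₂ s n) M
        (fun y => (totalDegree_sub _ _).trans (max_le (h₁.degG y n) (h₂.degG y n)))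
        (fun s => (totalDegree_sub _ _).trans (max_le (h₁.degH _ n) (h₂.degH s n)))
        (fun y b b' e1 e2 => by
          rw [map_sub, map_sub, h₁.depG y n b b' e1 fun l hl => e2 l (by omega),
            h₂.depG y n b b' e1 fun l hl => e2 l (by omega)])
        (fun s b b' e1 e2 => by
          rw [map_sub, map_sub, h₁.depH _ n b b' e1 fun l hl => e2 l (by omega),
            h₂.depH s n b b' e1 fun l hl => e2 l (by omega)]) hM0
        (fun ω hω => by
          have hω' : B ω := k1 ω (l1 ω hω)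
          have e1 := h₁.pos ω hω' n (by omega)
          have e2 := h₂.pos ω hω' n (by omega)
          rw [map_sub]
          have e3 : eval (bt F ω) (G₁ (ptr F J ω) n) - eval (bt F ω) (G₂ (ptr F J ω) n) =
              (F.x ω (c n) - eval (bt F ω) (G₂ (ptr F J ω) n)) -
              (F.x ω (c n) - eval (bt F ω) (G₁ (ptr F J ω) n)) := by ring
          rw [e3]
          refine (abs_sub _ _).trans (le_trans ?_ hsum)
          rw [add_comm]
          refine add_le_add (e1.trans (le_mul_of_one_le_left (by positivity)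
            (one_le_pow₀ (by norm_num)))) (e2.trans hk1))
        (fun ω hω b hb => by
          have hω₁ : B₁ ω := l1 ω hω
          have hω' : B ω := k1 ω hω₁
          have e1 := hls (p := C₁ * (h + 1)) (M := 1 / 2 ^ g' n) (Q := G₁ (ptr F J ω) n -
            H₁ (co (a - w) (slam F a ω)) n) (G := G₁ (ptr F J ω)) (G' := G₂ (ptr F J ω))
            (g := g') (g' := g) (a := a) (t := F.t ω) (i := n)
            (by omega) (hc.mono fun y hy => by rw [Set.mem_Iio] at hy ⊢; omega)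
            (h₁.degG _) (h₁.depG _) (fun y y' e1 e2 => by
              rw [map_sub, map_sub, h₁.depG _ n y y' e1 e2, h₁.depH _ n y y' e1 e2])
            ((totalDegree_sub _ _).trans (max_le (h₁.degG _ n) (h₁.degH _ n))) (by positivity)
            (fun b hb j hj => k3 ω hω₁ n (by omega) b hb j hj)
            (fun b hb => by
              rw [map_sub]
              exact h₁'.agr ω hω' n (by omega) b hb) b (hb.mono le_rfl (by omega))
          have e2 := h₂.agr ω hω' n (by omega) b (hb.mono le_rfl (by omega))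
          rw [map_sub] at e1
          rw [map_sub, map_sub]
          have e3 : eval b (G₁ (ptr F J ω) n) - eval b (G₂ (ptr F J ω) n) -
              (eval b (H₁ (co (a - w) (slam F a ω)) n) - eval b (H₂ (slam F a ω) n)) =
              (eval b (G₁ (ptr F J ω) n) - eval b (H₁ (co (a - w) (slam F a ω)) n)) -
              (eval b (G₂ (ptr F J ω) n) - eval b (H₂ (slam F a ω) n)) := by ring
          rw [e3]
          exact (abs_sub _ _).trans ((add_le_add e1 (e2.trans hk1)).trans hsum))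
      refine ⟨B₃, fun ω hω => l1 ω (q1 ω hω), ?_, fun ω hω l hl b hb => ?_⟩
      · rw [pow_succ]
        calc Pe F.p B₁ ≤ 2 ^ n * Pe F.p B₂ := l2
          _ ≤ 2 ^ n * (2 * Pe F.p B₃) := mul_le_mul_of_nonneg_left (by linarith) (by positivity)
          _ = _ := by ring
      · rcases Nat.lt_or_ge l n with h5 | h5
        · exact l3 ω (q1 ω hω) l h5 b hb
        · have h6 : l = n := by omega
          subst h6
          obtain ⟨b', m1, m2, m3⟩ := nbx_up hc (h₂.depG (ptr F J ω)) (by omega) hb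
          have h7 := q3 ω hω b' m1
          rw [map_sub, h₁.depG (ptr F J ω) l b' b m2 m3, h₂.depG (ptr F J ω) l b' b m2 m3] at h7
          refine h7.trans ?_
          rw [hM, ← mul_div_assoc, ← pow_add]
          refine div_le_div_of_nonneg_right (pow_le_pow_right₀ (by norm_num) ?_) (by positivity)
          nlinarith [Nat.zero_le (C₂ * h)]
  obtain ⟨B', l1, l2, l3⟩ := key (r + 1) le_rfl
  refine ⟨B', fun ω hω => k1 ω (l1 ω hω), ?_, fun ω hω l hl => l3 ω hω l (by omega)⟩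
  calc Pe F.p B ≤ 2 ^ r * Pe F.p B₁ := k2
    _ ≤ 2 ^ r * (2 ^ (r + 1) * Pe F.p B') := mul_le_mul_of_nonneg_left l2 h2r.le
    _ = _ := by rw [e4, pow_succ]; ring

/-- The natural norm of a spatial direction. -/
theorem nrm_sp {c : ℕ → Fin m} {ψ : ℕ → MvPolynomial (Option (Fin m)) ℝ} {g : ℕ → ℕ} (a r : ℕ)
    (x : Option (Fin m) → ℝ) {V : Option (Fin m) → ℝ} (hV : V none = 0) :
    nrm c ψ g a r x V = ∑ l ∈ range r, 2 ^ g l * |V (some (c l)) - dd (ψ l) x V| := by
  unfold nrm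
  rw [hV, abs_zero, mul_zero, zero_add]

/-- **A chain of balls.** The spatial gradients of the charts `ψ k`, `k ≤ n`, are natural for the
first chart: `γ k` are the sides, `X k` the precision of the agreement of `ψ k` and `ψ (k + 1)`. -/
theorem bal_chain {c : ℕ → Fin m} {ψ : ℕ → ℕ → MvPolynomial (Option (Fin m)) ℝ}
    {γ X : ℕ → ℕ → ℕ} {a i n z : ℕ} {U : ℝ} {x V : Option (Fin m) → ℝ} (hU : 0 ≤ U)
    (hV : V none = 0) (hst : ∀ k < n, ∀ l ≤ i, |dd (ψ k l) x V - dd (ψ (k + 1) l) x V| ≤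
      U / 2 ^ X k l * nrm c (ψ (k + 1)) (γ (k + 1)) a l x V)
    (hgr : ∀ k < n, ∀ l ≤ i, ∀ j < l, γ (k + 1) j + γ 0 l ≤ X k l + γ 0 j + z) :
    (∀ k ≤ n, ∀ l ≤ i, |dd (ψ 0 l) x V - dd (ψ k l) x V| ≤
      (n * (U * 2 ^ z)) * (1 + n * (U * 2 ^ z)) ^ l / 2 ^ γ 0 l * nrm c (ψ 0) (γ 0) a l x V) ∧
    ∀ k ≤ n, ∀ l ≤ i, ∑ j ∈ range l, 2 ^ γ 0 j * |V (some (c j)) - dd (ψ k j) x V| ≤
      (1 + n * (U * 2 ^ z)) ^ l * nrm c (ψ 0) (γ 0) a l x V := by
  obtain ⟨A, hA⟩ : ∃ A : ℝ, A = n * (U * 2 ^ z) := ⟨_, rfl⟩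
  have hA0 : 0 ≤ A := by rw [hA]; positivity
  rw [← hA]
  have hnn := fun l => nrm_nonneg c (ψ 0) (γ 0) a l x V
  have key : ∀ l ≤ i, (∀ k ≤ n, ∑ j ∈ range l, 2 ^ γ 0 j * |V (some (c j)) - dd (ψ k j) x V| ≤
      (1 + A) ^ l * nrm c (ψ 0) (γ 0) a l x V) ∧
      ∀ k ≤ n, |dd (ψ 0 l) x V - dd (ψ k l) x V| ≤ A * (1 + A) ^ l / 2 ^ γ 0 l *
        nrm c (ψ 0) (γ 0) a l x V := by
    intro l
    induction l with
    | zero =>
      intro _
      have h0 : ∀ k ≤ n, |dd (ψ 0 0) x V - dd (ψ k 0) x V| ≤ 0 := by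
        intro k
        induction k with
        | zero =>
          intro _
          rw [sub_self, abs_zero]
        | succ k ih =>
          intro hk
          have h1 := ih (by omega)
          have h2 := hst k (by omega) 0 (by omega)
          rw [nrm_sp _ _ _ hV] at h2
          simp only [Finset.range_zero, Finset.sum_empty, mul_zero] at h2
          have e1 : dd (ψ 0 0) x V - dd (ψ (k + 1) 0) x V =
              (dd (ψ 0 0) x V - dd (ψ k 0) x V) + (dd (ψ k 0) x V - dd (ψ (k + 1) 0) x V) := by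
            ring
          rw [e1]
          exact (abs_add_le _ _).trans (by linarith)
      refine ⟨fun k _ => ?_, fun k hk => (h0 k hk).trans ?_⟩
      · rw [Finset.range_zero, Finset.sum_empty, pow_zero, one_mul]
        exact hnn 0
      · have := hnn 0
        positivity
    | succ l ih =>
      intro hl
      obtain ⟨ih1, ih2⟩ := ih (by omega)
      have hS : ∀ k ≤ n, ∑ j ∈ range (l + 1), 2 ^ γ 0 j * |V (some (c j)) - dd (ψ k j) x V| ≤
          (1 + A) ^ (l + 1) * nrm c (ψ 0) (γ 0) a (l + 1) x V := by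
        intro k hk
        rw [Finset.sum_range_succ]
        have h1 := ih1 k hk
        have h2 := ih2 k hk
        have e0 : nrm c (ψ 0) (γ 0) a (l + 1) x V = nrm c (ψ 0) (γ 0) a l x V +
            2 ^ γ 0 l * |V (some (c l)) - dd (ψ 0 l) x V| := by
          rw [nrm_sp _ _ _ hV, nrm_sp _ _ _ hV, Finset.sum_range_succ]
        have h3 : 2 ^ γ 0 l * |V (some (c l)) - dd (ψ k l) x V| ≤
            2 ^ γ 0 l * |V (some (c l)) - dd (ψ 0 l) x V| +
              A * (1 + A) ^ l * nrm c (ψ 0) (γ 0) a l x V := by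
          have e1 : V (some (c l)) - dd (ψ k l) x V = (V (some (c l)) - dd (ψ 0 l) x V) +
              (dd (ψ 0 l) x V - dd (ψ k l) x V) := by ring
          rw [e1]
          have h4 := mul_le_mul_of_nonneg_left ((abs_add_le (V (some (c l)) - dd (ψ 0 l) x V)
            (dd (ψ 0 l) x V - dd (ψ k l) x V)).trans (add_le_add le_rfl h2))
            (show (0 : ℝ) ≤ 2 ^ γ 0 l by positivity)
          refine h4.trans (le_of_eq ?_)
          rw [mul_add]
          congr 1
          field_simp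
        rw [e0]
        obtain ⟨b, hb⟩ : ∃ b, b = 2 ^ γ 0 l * |V (some (c l)) - dd (ψ 0 l) x V| := ⟨_, rfl⟩
        have hb0 : 0 ≤ b := by rw [hb]; positivity
        rw [← hb] at h3 ⊢
        have h5 : (1 : ℝ) ≤ (1 + A) ^ (l + 1) := one_le_pow₀ (by linarith)
        have h6 : b ≤ (1 + A) ^ (l + 1) * b := le_mul_of_one_le_left hb0 h5
        have e1 : (1 + A) ^ (l + 1) * (nrm c (ψ 0) (γ 0) a l x V + b) =
            (1 + A) ^ l * nrm c (ψ 0) (γ 0) a l x V + A * (1 + A) ^ l *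
              nrm c (ψ 0) (γ 0) a l x V + (1 + A) ^ (l + 1) * b := by ring
        rw [e1]
        linarith
      refine ⟨hS, ?_⟩
      -- the differences
      have hstep : ∀ k < n, |dd (ψ k (l + 1)) x V - dd (ψ (k + 1) (l + 1)) x V| ≤
          (U * 2 ^ z) * (1 + A) ^ (l + 1) / 2 ^ γ 0 (l + 1) *
            nrm c (ψ 0) (γ 0) a (l + 1) x V := by
        intro k hk
        refine (hst k hk (l + 1) hl).trans ?_
        rw [nrm_sp a (l + 1) x hV (ψ := ψ (k + 1))]
        have h1 : ∑ j ∈ range (l + 1), (2 : ℝ) ^ γ (k + 1) j *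
            |V (some (c j)) - dd (ψ (k + 1) j) x V| ≤ 2 ^ (X k (l + 1) + z) / 2 ^ γ 0 (l + 1) *
            ∑ j ∈ range (l + 1), 2 ^ γ 0 j * |V (some (c j)) - dd (ψ (k + 1) j) x V| := by
          rw [Finset.mul_sum]
          refine Finset.sum_le_sum fun j hj => ?_
          rw [Finset.mem_range] at hj
          rw [← mul_assoc]
          refine mul_le_mul_of_nonneg_right ?_ (abs_nonneg _)
          rw [div_mul_eq_mul_div, le_div_iff₀ (by positivity), ← pow_add, ← pow_add]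
          have h2 := hgr k hk (l + 1) hl j hj
          exact pow_le_pow_right₀ (by norm_num) (by omega)
        have h2 := hS (k + 1) (by omega)
        calc U / 2 ^ X k (l + 1) * ∑ j ∈ range (l + 1), (2 : ℝ) ^ γ (k + 1) j *
              |V (some (c j)) - dd (ψ (k + 1) j) x V| ≤ U / 2 ^ X k (l + 1) *
              (2 ^ (X k (l + 1) + z) / 2 ^ γ 0 (l + 1) * ((1 + A) ^ (l + 1) *
                nrm c (ψ 0) (γ 0) a (l + 1) x V)) :=
              mul_le_mul_of_nonneg_left (h1.trans (mul_le_mul_of_nonneg_left h2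
                (by positivity))) (by positivity)
          _ = _ := by
            rw [pow_add]
            field_simp
      obtain ⟨E, hE⟩ : ∃ E : ℝ, E = (U * 2 ^ z) * (1 + A) ^ (l + 1) / 2 ^ γ 0 (l + 1) *
          nrm c (ψ 0) (γ 0) a (l + 1) x V := ⟨_, rfl⟩
      have hE0 : 0 ≤ E := by
        have := hnn (l + 1)
        rw [hE]
        positivity
      have hsum : ∀ k ≤ n, |dd (ψ 0 (l + 1)) x V - dd (ψ k (l + 1)) x V| ≤ k * E := by
        intro k
        induction k with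
        | zero =>
          intro _
          rw [sub_self, abs_zero]
          simp
        | succ k ihk =>
          intro hk
          have h1 := ihk (by omega)
          have h2 := hstep k (by omega)
          rw [← hE] at h2
          have e1 : dd (ψ 0 (l + 1)) x V - dd (ψ (k + 1) (l + 1)) x V =
              (dd (ψ 0 (l + 1)) x V - dd (ψ k (l + 1)) x V) +
              (dd (ψ k (l + 1)) x V - dd (ψ (k + 1) (l + 1)) x V) := by ring
          rw [e1]
          refine (abs_add_le _ _).trans ?_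
          push_cast
          linarith
      intro k hk
      refine (hsum k hk).trans ?_
      have h1 : (k : ℝ) ≤ n := by exact_mod_cast hk
      refine (mul_le_mul_of_nonneg_right h1 hE0).trans (le_of_eq ?_)
      rw [hE, hA]
      ring
  exact ⟨fun k hk l hl => (key l hl).2 k hk, fun k hk l hl => (key l hl).1 k hk⟩

/-- **The gradient of a ball chart at two points of one cell.** -/
theorem shf_ball (m D i : ℕ) : ∃ C : ℕ, ∀ {J : ℕ} {F : Fam m J} {c : ℕ → Fin m}
    {a w e s : ℕ} {γ : ℕ → ℕ} {B : F.Ω → Prop}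
    {G : PtT F → ℕ → MvPolynomial (Option (Fin m)) ℝ}
    {H : LnT F → ℕ → MvPolynomial (Option (Fin m)) ℝ}, Set.InjOn c (Set.Iio (i + 1)) →
    ChOK F c (i + 1) (fun _ => D) a w e γ B G H →
    (∀ ω, B ω → ∀ l < i, |F.x ω (c l) - eval (bt F ω) (G (ptr F J ω) l)| ≤
      1 / 2 ^ (γ l + 1)) → (∀ l < i + 1, e + γ l + s + C ≤ J) →
    ∀ ω ν, B ω → B ν → ptr F J ω = ptr F J ν → ∀ V : Option (Fin m) → ℝ,
      |dd (G (ptr F J ω) i) (bt F ν) V - dd (G (ptr F J ω) i) (bt F ω) V| ≤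
        2 ^ C / 2 ^ (γ i + s) * nrm c (G (ptr F J ω)) γ a i (bt F ω) V := by
  obtain ⟨C, hshf⟩ := shf_pol m D i
  refine ⟨C, ?_⟩
  intro J F c a w e s γ B G H hc hch hpos hJ ω ν hω hν hpt V
  obtain ⟨hT, ht, hxx⟩ := bt_near hpt
  obtain ⟨η, hη⟩ : ∃ η : Option (Fin m) → ℝ, η = fun o => bt F ν o - bt F ω o := ⟨_, rfl⟩
  have h1 := (hshf (c := c) (ψ := G (ptr F J ω)) (Q := G (ptr F J ω) i) (g := γ) (a := a)
    (e := e) (s := s) (J := J) (M := 0) (x := bt F ω) (η := η) hc (hch.degG _) (hch.depG _)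
    (hch.depG _ i) (hch.degG _ i) (fun l hl b hb j hj => hch.lip ω hω l hl b hb j hj)
    (fun b _ => by rw [sub_self, abs_zero]) hJ (by
      rw [hη]
      show bt F ν none - bt F ω none = 0
      rw [ht, sub_self]) (fun l _ => by
      rw [hη]
      show |F.x ν (c l) - F.x ω (c l)| ≤ _
      rw [abs_sub_comm]
      exact hxx _) (fun l hl => hpos ω hω l hl)).2.1 V
  have e1 : (fun o => bt F ω o + η o) = bt F ν := by
    rw [hη]
    funext o
    ring
  rw [e1, zero_add] at h1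
  refine h1.trans (le_of_eq ?_)
  rw [pow_add]
  field_simp

end Pool.D2R
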