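import Pool.Agent.H23.D2.Bwj

/-!
# The affine system over a chain of balls

`star_ball`, `winb_star`: `star_out` and `win_star` for windows with balls only.
-/

set_option autoImplicit false

namespace Pool.D2R

open Finset Real MvPolynomial
open Pool.Agent.H49.Ent Pool.Agent.H32.Dense Pool.STK Pool.KA Pool.KSAT Pool.K2S Pool.PB Pool.S6C
open Pool.GEN Pool.CHT Pool.CHX Pool.ISO Pool.D2F Pool.D2Z

variable {m J : ℕ}

/-- The derivatives of two balls, one pair. -/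
theorem bal_dd1 (D r : ℕ) : ∃ C : ℕ, ∀ {m J : ℕ} {F : Fam m J} {c : ℕ → Fin m}
    {a' e' X : ℕ} {g₀ : ℕ → ℕ} {U : ℝ} {B : F.Ω → Prop}
    {G G' : PtT F → ℕ → MvPolynomial (Option (Fin m)) ℝ}
    {H' : LnT F → ℕ → MvPolynomial (Option (Fin m)) ℝ}, Set.InjOn c (Set.Iio r) →
    0 ≤ U → (∀ y l, (G y l).totalDegree ≤ D) → (∀ y l, DepC c l (G y l)) →
    ChOK F c (r + 1) (fun _ => D) a' a' e' g₀ B G' H' →
    ∀ ω, B ω → ∀ l ≤ r, (∀ b, NBx c (G' (ptr F J ω)) g₀ a' (F.t ω) l b →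
      |eval b (Gno (c l) J J (fun y => G y l) (ptr F J ω)) - eval b (G' (ptr F J ω) l)| ≤
        U / 2 ^ X) → ∀ V : Option (Fin m) → ℝ,
      |dd (G (ptr F J ω) l) (bt F ω) V - dd (G' (ptr F J ω) l) (bt F ω) V| ≤
        2 ^ C * U / 2 ^ X * nrm c (G' (ptr F J ω)) g₀ a' l (bt F ω) V := by
  have hba := fun l : ℕ => box_all l D D
  choose Cb hCb hbl using hba
  obtain ⟨C, hC⟩ := pow_unbounded_of_one_lt (1 + ∑ l ∈ range (r + 1), Cb l) (one_lt_two (α := ℝ))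
  have hCbl : ∀ l ≤ r, Cb l ≤ 2 ^ C := by
    intro l hl
    have := Finset.single_le_sum (f := Cb) (fun l _ => by linarith [hCb l])
      (Finset.mem_range.2 (Nat.lt_succ_of_le hl))
    linarith
  refine ⟨C, ?_⟩
  intro m J F c a' e' X g₀ U B G G' H' hc hU hdG hpG hch ω hω l hl hbd V
  have h1 := (hbl l (c := c) (ψ := G' (ptr F J ω))
    (Q := Gno (c l) J J (fun y => G y l) (ptr F J ω) - G' (ptr F J ω) l)
    (g := g₀) (a := a') (M := U / 2 ^ X)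
    (x := bt F ω) (hc.mono fun y hy => by
      rw [Set.mem_Iio] at hy ⊢
      omega) (hch.degG _) (hch.depG _) (fun y y' h1 h2 => by
      rw [map_sub, map_sub, depC_Gno (c l) (fun y => G y l) (ptr F J ω) (hpG _ l) y y' h1 h2,
        hch.depG _ l y y' h1 h2])
    ((totalDegree_sub _ _).trans (max_le (deg_Gno (c l) (fun y => G y l) (ptr F J ω)
      (hdG _ l)) (hch.degG _ l))) (by positivity)
    (fun b hb => by
      rw [map_sub]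
      exact hbd b hb)
    (fun j hj => hch.pos ω hω j (by omega))).1 V
  rw [dd_sub, dd_Gno] at h1
  refine h1.trans (mul_le_mul_of_nonneg_right ?_ (nrm_nonneg _ _ _ _ _ _ _))
  rw [mul_div_assoc]
  exact mul_le_mul_of_nonneg_right (hCbl l hl) (by positivity)

/-- **One visible affine system, natural at all windows of a chain.** -/
theorem star_ball (D r : ℕ) : ∃ C : ℕ, 1 ≤ C ∧ ∀ {m J : ℕ} {F : Fam m J} {c : ℕ → Fin m}
    {n e X Z : ℕ} {o ee : ℕ → ℕ} {g g₀ : ℕ → ℕ → ℕ} {B : F.Ω → Prop}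
    {G : ℕ → PtT F → ℕ → MvPolynomial (Option (Fin m)) ℝ}
    {H : ℕ → LnT F → ℕ → MvPolynomial (Option (Fin m)) ℝ} (gd : ℕ → ℕ → Prop),
    Set.InjOn c (Set.Iio (r + 1)) → (∀ k ≤ n, ee k ≤ e) →
    (∀ k ≤ n, ChOK F c (r + 1) (fun _ => D) (o k) (o k) (ee k) (g₀ k) B (G k) (H k)) →
    (∀ k < n, o k ≤ o (k + 1) ∧ ∀ ω, B ω → ∀ l ≤ r,
      ∀ b, NBx c (G (k + 1) (ptr F J ω)) (g₀ (k + 1)) (o (k + 1)) (F.t ω) l b →
        |eval b (Gno (c l) J J (fun y => G k y l) (ptr F J ω)) -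
          eval b (G (k + 1) (ptr F J ω) l)| ≤
          2 ^ X / 2 ^ min (g k l + (o (k + 1) - o k)) (g₀ (k + 1) l)) →
    (∀ k < n, ∀ l ≤ r, g₀ (k + 1) l ≤ min (g k l + (o (k + 1) - o k)) (g₀ (k + 1) l) + Z ∧
      g₀ (k + 1) l ≤ g₀ k l + Z ∧ g₀ k l ≤ g₀ (k + 1) l + Z) →
    (∀ k k', k ≤ k' → k' ≤ n → ∀ l ≤ r, ∀ j ≤ l, gd l j →
      wt (g₀ k') (o k') j + g₀ k l ≤ g₀ k' l + wt (g₀ k) (o k) j + Z) →
    (∀ k k', k ≤ k' → k' ≤ n → ∀ l ≤ r, ∀ j ≤ l, ¬ gd l j →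
      wt (g₀ k) (o k) j + g₀ k' l ≤ wt (g₀ k') (o k') j + g₀ k l + Z) →
    (n : ℝ) ≤ 2 ^ X → (∀ k ≤ n, ∀ l ≤ r, e + g₀ k l + C ≤ J) →
    ∃ S : PtT F → ℕ → Option (Fin m) → ℝ, (∀ y l, CvC c l (S y l)) ∧ ∀ ω, B ω → ∀ k ≤ n,
      Nc c (g₀ k) (o k) (r + 1) (2 ^ (C * (X + Z + 1))) (S (ptr F J ω))
        (fun l => grd (G k (ptr F J ω) l) (bt F ω)) := by
  obtain ⟨C₁, hdd⟩ := bal_dd1 D r
  obtain ⟨C₂, hC₂, hgn⟩ := gpt_near D (r + 1)
  obtain ⟨C₃, hC₃⟩ : ∃ C₃ : ℕ, C₃ = (C₁ + 2) * (r + 1) + (r + 2) * (r + 1) + (r + 1) + 4 :=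
    ⟨_, rfl⟩
  refine ⟨C₂ + (C₃ + 3) * stE (r + 1) * (r + 2) + (r + 2) + 1, by omega, ?_⟩
  intro m J F c n e X Z o ee g g₀ B G H gd hc hee hE hst hsm hg hb hn hJ
  classical
  have hcr : Set.InjOn c (Set.Iio r) := hc.mono fun y hy => by
    rw [Set.mem_Iio] at hy ⊢
    omega
  -- the rounded point
  have hgpt : ∀ k ≤ n, ∀ ω, B ω → Nc c (g₀ k) (o k) (r + 1) 1
      (fun j => grd (G k (ptr F J ω) j) (bt F ω)) (gpt F (G k) (ptr F J ω)) := by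
    intro k hk
    exact hgn hc le_rfl ((hE k hk).mono le_rfl (fun _ => le_rfl) le_rfl (hee k hk))
      (fun l hl => by
        have := hJ k hk l (by omega)
        omega)
  obtain ⟨E, hE'⟩ : ∃ E : ℕ, E = X + Z + 1 := ⟨_, rfl⟩
  have hEm : ∀ x : ℕ, x ≤ x * E := fun x => Nat.le_mul_of_pos_right _ (by omega)
  obtain ⟨K, hK⟩ : ∃ K : ℝ, K = 2 ^ (C₃ * E) := ⟨_, rfl⟩
  have hK0 : 0 < K := by rw [hK]; positivity
  have hstep : ∀ ω, B ω → ∀ k < n, Nc c (g₀ (k + 1)) (o (k + 1)) (r + 1) K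
      (gpt F (G (k + 1)) (ptr F J ω)) (gpt F (G k) (ptr F J ω)) := by
    intro ω hω k hk
    obtain ⟨j1, j2⟩ := hst k hk
    -- ball against ball
    have h1 : Nc c (g₀ (k + 1)) (o (k + 1)) (r + 1) (2 ^ (C₁ + X + Z))
        (fun j => grd (G (k + 1) (ptr F J ω) j) (bt F ω))
        (fun j => grd (G k (ptr F J ω) j) (bt F ω)) := by
      intro l hl V
      have h2 := hdd hcr (by positivity) (hE k hk.le).degG (hE k hk.le).depG
        (hE (k + 1) (by omega)) ω hω l (by omega) (j2 ω hω l (by omega)) V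
      rw [cv_subl, cv_grd, cv_grd, ← nrm_en]
      refine h2.trans (mul_le_mul_of_nonneg_right ?_ (nrm_nonneg _ _ _ _ _ _ _))
      rw [div_le_div_iff₀ (by positivity) (by positivity), ← pow_add, ← pow_add, ← pow_add]
      have := (hsm k hk l (by omega)).1
      exact pow_le_pow_right₀ (by norm_num) (by omega)
    have h2 := hgpt (k + 1) (by omega) ω hω
    have h3 := nc_unit (g' := g₀ (k + 1)) (a' := o (k + 1)) (z := Z) (z' := Z)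
      (hgpt k hk.le ω hω) zero_le_one (fun l hl => (hsm k hk l (by omega)).2.1) (fun j hj => by
        cases j with
        | zero =>
          show o k ≤ o (k + 1) + Z
          omega
        | succ j => exact (hsm k hk j (by omega)).2.2)
    have h4 := (h2.symm zero_le_one).trans (h1.trans h3 (by positivity) (by positivity))
      (by positivity) (by positivity)
    refine h4.mono ?_
    have q1 : (1 : ℝ) + 2 ^ (C₁ + X + Z) ≤ 2 ^ ((C₁ + 2) * E) := by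
      have := pw_add (a := 0) (b := C₁ + X + Z) (c := (C₁ + 2) * E) (by nlinarith [hEm C₁])
        (by nlinarith [hEm C₁])
      rwa [pow_zero] at this
    have q2 : (1 + (2 : ℝ) ^ (C₁ + X + Z)) ^ (r + 1) ≤ 2 ^ ((C₁ + 2) * (r + 1) * E) := by
      refine (pow_le_pow_left₀ (by positivity) q1 _).trans (le_of_eq ?_)
      rw [← pow_mul]
      congr 1
      ring
    have q3 : (2 : ℝ) ^ (C₁ + X + Z) + 1 * 2 ^ (Z + Z) * (1 + 2 ^ (C₁ + X + Z)) ^ (r + 1) ≤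
        2 ^ (((C₁ + 2) * (r + 1) + 3) * E) := by
      have e1 : (1 : ℝ) * 2 ^ (Z + Z) * (1 + 2 ^ (C₁ + X + Z)) ^ (r + 1) ≤
          2 ^ (Z + Z + (C₁ + 2) * (r + 1) * E) := by
        rw [one_mul, pow_add _ (Z + Z)]
        exact mul_le_mul_of_nonneg_left q2 (by positivity)
      refine (add_le_add le_rfl e1).trans (pw_add ?_ ?_)
      · nlinarith [hEm C₁, Nat.zero_le ((C₁ + 2) * r * E)]
      · nlinarith [hEm C₁]
    have q4 : (1 + 1 * (1 + 1 : ℝ) ^ (r + 1)) ^ (r + 1) ≤ 2 ^ ((r + 2) * (r + 1) * E) := by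
      have e1 : (1 : ℝ) + 1 * (1 + 1) ^ (r + 1) ≤ 2 ^ (r + 2) := by
        have := pw_add (a := 0) (b := r + 1) (c := r + 2) (by omega) (by omega)
        rw [pow_zero] at this
        norm_num at this ⊢
        linarith
      refine (pow_le_pow_left₀ (by positivity) e1 _).trans ?_
      rw [← pow_mul]
      exact pow_le_pow_right₀ (by norm_num) (hEm _)
    have q5 : ((2 : ℝ) ^ (C₁ + X + Z) + 1 * 2 ^ (Z + Z) * (1 + 2 ^ (C₁ + X + Z)) ^ (r + 1)) *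
        (1 + 1 * (1 + 1 : ℝ) ^ (r + 1)) ^ (r + 1) ≤
        2 ^ (((C₁ + 2) * (r + 1) + 3) * E + (r + 2) * (r + 1) * E) :=
      (mul_le_mul q3 q4 (by positivity) (by positivity)).trans (le_of_eq (pow_add _ _ _).symm)
    have q6 : 1 * (1 + 1 : ℝ) ^ (r + 1) = 2 ^ (r + 1) := by norm_num
    refine (add_le_add (le_of_eq q6) q5).trans ?_
    rw [hK]
    refine pw_add ?_ ?_
    · rw [hC₃]
      nlinarith [hEm (r + 1), Nat.zero_le (((C₁ + 2) * (r + 1) + (r + 2) * (r + 1)) * E)]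
    · rw [hC₃]
      nlinarith [hEm (r + 1)]
  -- the list
  have hex : ∀ y : PtT F, ∃ S : ℕ → Option (Fin m) → ℝ, (∀ l, CvC c l (S l)) ∧
      ((∃ ω, B ω ∧ ptr F J ω = y) → ∀ k ≤ n, Nc c (g₀ k) (o k) (r + 1)
        ((2 + n * K * 2 ^ Z) ^ stE (r + 1)) S (gpt F (G k) y)) := by
    intro y
    by_cases hy : ∃ ω, B ω ∧ ptr F J ω = y
    · obtain ⟨ω, hω, rfl⟩ := hy
      obtain ⟨S, h1, h2⟩ := cv_star (χ := fun k => gpt F (G k) (ptr F J ω)) gd (r + 1) hc hK0.le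
        (fun k hk l hl => cvc_grd ((hE k hk).depG _ l) _) (hstep ω hω)
        (fun k k' h1 h2 l hl j hj h3 => hg k k' h1 h2 l (by omega) j hj h3)
        (fun k k' h1 h2 l hl j hj h3 => hb k k' h1 h2 l (by omega) j hj h3)
      exact ⟨S, h1, fun _ => h2⟩
    · exact ⟨fun _ => 0, fun _ _ _ => rfl, fun h => absurd h hy⟩
  choose S hS1 hS2 using hex
  refine ⟨S, hS1, fun ω hω k hk => ?_⟩
  have h1 := hS2 (ptr F J ω) ⟨ω, hω, rfl⟩ k hk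
  have h2 := (hgpt k hk ω hω).symm zero_le_one
  refine (h1.trans h2 (by positivity) (by positivity)).mono ?_
  have q1 : 2 + n * K * 2 ^ Z ≤ (2 : ℝ) ^ ((C₃ + 2) * E) := by
    have e1 : n * K * 2 ^ Z ≤ (2 : ℝ) ^ (X + C₃ * E + Z) := by
      rw [hK, pow_add, pow_add]
      exact mul_le_mul_of_nonneg_right (mul_le_mul_of_nonneg_right hn (by positivity))
        (by positivity)
    have e2 := pw_add (a := 1) (b := X + C₃ * E + Z) (c := (C₃ + 2) * E) (by nlinarith [hEm C₃])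
      (by nlinarith)
    rw [pow_one] at e2
    linarith
  have q2 : (2 + n * K * 2 ^ Z) ^ stE (r + 1) ≤ (2 : ℝ) ^ ((C₃ + 2) * E * stE (r + 1)) := by
    rw [pow_mul]
    exact pow_le_pow_left₀ (by positivity) q1 _
  have q3 : (1 : ℝ) + (2 + n * K * 2 ^ Z) ^ stE (r + 1) ≤
      2 ^ ((C₃ + 2) * E * stE (r + 1) + 1) := by
    have := pw_add (a := 0) (b := (C₃ + 2) * E * stE (r + 1))
      (c := (C₃ + 2) * E * stE (r + 1) + 1) (by omega) le_rfl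
    rw [pow_zero] at this
    linarith
  have q4 : (1 * (1 + 1 : ℝ) ^ (r + 1)) * (1 + (2 + n * K * 2 ^ Z) ^ stE (r + 1)) ^ (r + 1) ≤
      2 ^ ((r + 1) + ((C₃ + 2) * E * stE (r + 1) + 1) * (r + 1)) := by
    have e1 : (1 + (2 + n * K * 2 ^ Z) ^ stE (r + 1)) ^ (r + 1) ≤
        (2 : ℝ) ^ (((C₃ + 2) * E * stE (r + 1) + 1) * (r + 1)) := by
      rw [pow_mul _ _ (r + 1)]
      exact pow_le_pow_left₀ (by positivity) q3 _
    have e2 : 1 * (1 + 1 : ℝ) ^ (r + 1) ≤ 2 ^ (r + 1) := by norm_num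
    exact (mul_le_mul e2 e1 (by positivity) (by positivity)).trans
      (le_of_eq (pow_add _ _ _).symm)
  refine (add_le_add q2 q4).trans ?_
  rw [← hE']
  obtain ⟨s, hs⟩ : ∃ s, s = stE (r + 1) := ⟨_, rfl⟩
  have hs1 : 1 ≤ s := by rw [hs]; exact stE_pos _
  have hE1 : 1 ≤ E := by omega
  rw [← hs]
  obtain ⟨P, hP⟩ : ∃ P, P = (C₃ + 2) * s * E := ⟨_, rfl⟩
  have e1 : (C₃ + 2) * E * s = P := by rw [hP]; ring
  have e2 : (C₂ + (C₃ + 3) * s * (r + 2) + (r + 2) + 1) * E =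
      C₂ * E + P * (r + 1) + P + s * (r + 2) * E + (r + 3) * E := by
    rw [hP]
    ring
  have e3 : (r + 2) ≤ s * (r + 2) * E := by nlinarith [Nat.zero_le (s * (r + 2))]
  have e4 : r + 3 ≤ (r + 3) * E := Nat.le_mul_of_pos_right _ hE1
  rw [e1, e2]
  refine pw_add ?_ ?_
  · omega
  · have e5 : (P + 1) * (r + 1) = P * (r + 1) + (r + 1) := by ring
    omega

/-- **One visible affine system on `WinB`.** `gd l 0`: the time grows at most as the side of `c l`;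
`gd l (j + 1)`: the side of `c j` grows at most as the side of `c l`; otherwise at least. -/
theorem winb_star (D r : ℕ) : ∃ C : ℕ, 1 ≤ C ∧ ∀ {m J : ℕ} {F : Fam m J} {c : ℕ → Fin m}
    {Dr N M : ℕ} {C₀ a Eb ηm : ℝ} {o η σ : ℕ → ℝ} {lv b : ℕ → ℕ → ℝ}
    {κ : ℝ} {z : ℕ → ℕ → ℕ} {B : F.Ω → Prop} {g₀ : ℕ → ℕ → ℕ}
    {G : ℕ → PtT F → ℕ → MvPolynomial (Option (Fin m)) ℝ}
    {H : ℕ → LnT F → ℕ → MvPolynomial (Option (Fin m)) ℝ}
    (_ : WinB F c r D Dr N M C₀ a Eb ηm o η σ lv b κ z B g₀ G H)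
    (gd : ℕ → ℕ → Prop) {f jj : ℕ → ℕ} {n Y : ℕ},
    Set.InjOn c (Set.Iio (r + 1)) → (∀ k ≤ n, f k ≤ N) →
    (∀ k < n, jj k ≤ M ∧ z (f k) (jj k) = ⌊o (f (k + 1)) * J⌋₊ - ⌊o (f k) * J⌋₊ ∧
      o (f k) ≤ o (f (k + 1))) →
    C₀ * (ηm * J) ≤ Y → 3 ≤ Y → (n : ℝ) ≤ 2 ^ Y →
    (∀ k < n, ∀ l ≤ r, (lv (f (k + 1)) l - lv (f k) l) * J ≤ Y ∧
      (lv (f k) l - lv (f (k + 1)) l) * J ≤ Y) →
    (∀ k k', k ≤ k' → k' ≤ n → ∀ l ≤ r, gd l 0 →
      (o (f k') - o (f k)) * J ≤ (lv (f k') l - lv (f k) l) * J + Y) →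
    (∀ k k', k ≤ k' → k' ≤ n → ∀ l ≤ r, ¬ gd l 0 →
      (lv (f k') l - lv (f k) l) * J ≤ (o (f k') - o (f k)) * J + Y) →
    (∀ k k', k ≤ k' → k' ≤ n → ∀ l ≤ r, ∀ j < l, gd l (j + 1) →
      (lv (f k') j - lv (f k) j) * J ≤ (lv (f k') l - lv (f k) l) * J + Y) →
    (∀ k k', k ≤ k' → k' ≤ n → ∀ l ≤ r, ∀ j < l, ¬ gd l (j + 1) →
      (lv (f k') l - lv (f k) l) * J ≤ (lv (f k') j - lv (f k) j) * J + Y) →
    (∀ k ≤ n, ∀ l ≤ r, (Eb + lv (f k) l) * J + C * Y ≤ J) →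
    ∃ S : PtT F → ℕ → Option (Fin m) → ℝ, (∀ y l, CvC c l (S y l)) ∧ ∀ ω, B ω → ∀ k ≤ n,
      Nc c (g₀ (f k)) ⌊o (f k) * J⌋₊ (r + 1) (2 ^ (C * Y)) (S (ptr F J ω))
        (fun l => grd (G (f k) (ptr F J ω) l) (bt F ω)) := by
  obtain ⟨C, hC, hst⟩ := star_ball D r
  refine ⟨6 * C + 4, by omega, ?_⟩
  intro m J F c Dr N M C₀ a Eb ηm o η σ lv b κ z B g₀ G H W gd f jj n
    Y hc hf hjj hY hY3 hn hstep ht1 ht2 hl1 hl2 hJJ
  have hJ : (0 : ℝ) ≤ J := Nat.cast_nonneg J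
  have hC1 := W.C1
  have hηm0 : 0 ≤ ηm := (W.hη (f 0) (hf 0 (Nat.zero_le n))).1.trans
    (W.hη (f 0) (hf 0 (Nat.zero_le n))).2
  have hY3R : (3 : ℝ) ≤ Y := by exact_mod_cast hY3
  have hηY : ηm * J ≤ Y := by
    have h1 : ηm * J ≤ C₀ * (ηm * J) := le_mul_of_one_le_left (mul_nonneg hηm0 hJ) hC1
    linarith
  have hfl : ∀ k ≤ n, ⌊o (f k) * J⌋₊ ≤ ⌊a * J⌋₊ := fun k hk =>
    Nat.floor_le_floor (mul_le_mul_of_nonneg_right (W.ho (f k) (hf k hk)).2 hJ)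
  have hop : ∀ k ≤ n, (⌊o (f k) * J⌋₊ : ℝ) ≤ o (f k) * J := fun k hk =>
    Nat.floor_le (mul_nonneg (W.ho (f k) (hf k hk)).1 hJ)
  have hom : ∀ k ≤ n, o (f k) * J ≤ ⌊o (f k) * J⌋₊ + 1 := fun k hk =>
    (Nat.lt_floor_add_one (o (f k) * (J : ℝ))).le
  have hfs : (2 : ℝ) ^ ⌊C₀ * (ηm * J)⌋₊ ≤ 2 ^ Y := pow_le_pow_right₀ (by norm_num) (by
    have h3 : (⌊C₀ * (ηm * J)⌋₊ : ℝ) ≤ Y :=
      (Nat.floor_le (mul_nonneg (by linarith) (mul_nonneg hηm0 hJ))).trans hY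
    exact_mod_cast h3)
  have hgd : ∀ k k', k ≤ n → k' ≤ n → ∀ l ≤ r, ∀ j < l,
      (lv (f k') j - lv (f k) j) * J ≤ (lv (f k') l - lv (f k) l) * J + Y →
      g₀ (f k') j + g₀ (f k) l ≤ g₀ (f k') l + g₀ (f k) j + 4 * Y := by
    intro k k' hk hk' l hl j hj h1
    obtain ⟨-, -, a1, a2⟩ := W.g_num (hf k hk) (show l ≤ r by omega)
    obtain ⟨-, -, a3, a4⟩ := W.g_num (hf k' hk') (show l ≤ r by omega)
    obtain ⟨-, -, a5, a6⟩ := W.g_num (hf k hk) (show j ≤ r by omega)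
    obtain ⟨-, -, a7, a8⟩ := W.g_num (hf k' hk') (show j ≤ r by omega)
    have h2 : ((g₀ (f k') j + g₀ (f k) l : ℕ) : ℝ) ≤
        ((g₀ (f k') l + g₀ (f k) j + 4 * Y : ℕ) : ℝ) := by
      push_cast
      linarith
    exact_mod_cast h2
  have htd : ∀ k k', k ≤ n → k' ≤ n → ∀ l ≤ r,
      (o (f k') - o (f k)) * J ≤ (lv (f k') l - lv (f k) l) * J + Y →
      ⌊o (f k') * J⌋₊ + g₀ (f k) l ≤ g₀ (f k') l + ⌊o (f k) * J⌋₊ + 4 * Y := by
    intro k k' hk hk' l hl h1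
    obtain ⟨-, -, a1, a2⟩ := W.g_num (hf k hk) hl
    obtain ⟨-, -, a3, a4⟩ := W.g_num (hf k' hk') hl
    have b1 := hop k' hk'
    have b2 := hom k hk
    have h2 : ((⌊o (f k') * J⌋₊ + g₀ (f k) l : ℕ) : ℝ) ≤
        ((g₀ (f k') l + ⌊o (f k) * J⌋₊ + 4 * Y : ℕ) : ℝ) := by
      push_cast
      linarith
    exact_mod_cast h2
  have htd' : ∀ k k', k ≤ n → k' ≤ n → ∀ l ≤ r,
      (lv (f k') l - lv (f k) l) * J ≤ (o (f k') - o (f k)) * J + Y →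
      ⌊o (f k) * J⌋₊ + g₀ (f k') l ≤ ⌊o (f k') * J⌋₊ + g₀ (f k) l + 4 * Y := by
    intro k k' hk hk' l hl h1
    obtain ⟨-, -, a1, a2⟩ := W.g_num (hf k hk) hl
    obtain ⟨-, -, a3, a4⟩ := W.g_num (hf k' hk') hl
    have b1 := hop k hk
    have b2 := hom k' hk'
    have h2 : ((⌊o (f k) * J⌋₊ + g₀ (f k') l : ℕ) : ℝ) ≤
        ((⌊o (f k') * J⌋₊ + g₀ (f k) l + 4 * Y : ℕ) : ℝ) := by
      push_cast
      linarith
    exact_mod_cast h2
  have hwt1 : ∀ k k', k ≤ k' → k' ≤ n → ∀ l ≤ r, ∀ j ≤ l, gd l j →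
      wt (g₀ (f k')) ⌊o (f k') * J⌋₊ j + g₀ (f k) l ≤
        g₀ (f k') l + wt (g₀ (f k)) ⌊o (f k) * J⌋₊ j + 4 * Y := by
    intro k k' hk hk' l hl j hj hg
    cases j with
    | zero => exact htd k k' (by omega) hk' l hl (ht1 k k' hk hk' l hl hg)
    | succ j =>
      exact hgd k k' (by omega) hk' l hl j (by omega) (hl1 k k' hk hk' l hl j (by omega) hg)
  have hwt2 : ∀ k k', k ≤ k' → k' ≤ n → ∀ l ≤ r, ∀ j ≤ l, ¬ gd l j →
      wt (g₀ (f k)) ⌊o (f k) * J⌋₊ j + g₀ (f k') l ≤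
        wt (g₀ (f k')) ⌊o (f k') * J⌋₊ j + g₀ (f k) l + 4 * Y := by
    intro k k' hk hk' l hl j hj hg
    cases j with
    | zero => exact htd' k k' (by omega) hk' l hl (ht2 k k' hk hk' l hl hg)
    | succ j =>
      have h1 := hl2 k k' hk hk' l hl j (by omega) hg
      have h2 := hgd k' k hk' (by omega) l hl j (by omega) (by linarith)
      show g₀ (f k) j + g₀ (f k') l ≤ g₀ (f k') j + g₀ (f k) l + 4 * Y
      omega
  obtain ⟨S, hS1, hS2⟩ := hst (X := Y) (Z := 4 * Y) (n := n)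
    (e := ⌊(Eb + 2 * ηm) * J⌋₊) (o := fun k => ⌊o (f k) * J⌋₊)
    (ee := fun k => ⌊(Eb + σ (f k) + η (f k)) * J⌋₊)
    (g := fun k l => ⌊b (f k) l * J⌋₊) (g₀ := fun k => g₀ (f k))
    (G := fun k => G (f k)) (H := fun k => H (f k)) gd hc
    (fun k hk => Nat.floor_le_floor (mul_le_mul_of_nonneg_right (by
      have h1 := (W.hη (f k) (hf k hk)).2
      have h2 := (W.hσ (f k) (hf k hk)).2
      linarith) hJ)) (fun k hk => (W.ev (f k) (hf k hk)).ball)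
    (fun k hk => by
      have hoo : ⌊o (f k) * J⌋₊ ≤ ⌊o (f (k + 1)) * J⌋₊ := Nat.floor_le_floor
        (mul_le_mul_of_nonneg_right (hjj k hk).2.2 hJ)
      refine ⟨hoo, fun ω hω l hl b' hb' => ?_⟩
      exact (W.bal (f k) (hf k hk.le) (f (k + 1)) (hf (k + 1) hk) (jj k) (hjj k hk).1 hoo
        (hjj k hk).2.1 ω hω l hl b' hb').trans
        (div_le_div_of_nonneg_right hfs (by positivity)))
    (fun k hk l hl => by
      obtain ⟨h1, h2⟩ := hstep k hk l hl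
      obtain ⟨a0, -, a1, a2⟩ := W.g_num (hf k hk.le) hl
      obtain ⟨-, -, a3, a4⟩ := W.g_num (hf (k + 1) hk) hl
      have h3 : ((g₀ (f (k + 1)) l : ℕ) : ℝ) ≤ ((⌊b (f k) l * J⌋₊ + 4 * Y : ℕ) : ℝ) := by
        push_cast
        linarith
      have h3' : g₀ (f (k + 1)) l ≤ ⌊b (f k) l * J⌋₊ + 4 * Y := by exact_mod_cast h3
      have h4 : ((g₀ (f (k + 1)) l : ℕ) : ℝ) ≤ ((g₀ (f k) l + 4 * Y : ℕ) : ℝ) := by
        push_cast
        linarith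
      have h5 : ((g₀ (f k) l : ℕ) : ℝ) ≤ ((g₀ (f (k + 1)) l + 4 * Y : ℕ) : ℝ) := by
        push_cast
        linarith
      refine ⟨?_, by exact_mod_cast h4, by exact_mod_cast h5⟩
      show g₀ (f (k + 1)) l ≤ min (⌊b (f k) l * J⌋₊ + (⌊o (f (k + 1)) * J⌋₊ - ⌊o (f k) * J⌋₊))
        (g₀ (f (k + 1)) l) + 4 * Y
      omega)
    hwt1 hwt2 hn
    (fun k hk l hl => by
      obtain ⟨-, -, -, a2⟩ := W.g_num (hf k hk) hl
      have h1 := hJJ k hk l hl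
      have h2 : (⌊(Eb + 2 * ηm) * J⌋₊ : ℝ) ≤ (Eb + 2 * ηm) * J :=
        Nat.floor_le (mul_nonneg (by linarith [W.Eb0]) hJ)
      have hCR : (0 : ℝ) ≤ C := Nat.cast_nonneg C
      have h3 : ((⌊(Eb + 2 * ηm) * J⌋₊ + g₀ (f k) l + C : ℕ) : ℝ) ≤ (J : ℕ) := by
        push_cast at h1 ⊢
        nlinarith
      exact_mod_cast h3)
  refine ⟨S, hS1, fun ω hω k hk => (hS2 ω hω k hk).mono (pow_le_pow_right₀ (by norm_num) ?_)⟩
  nlinarith

end Pool.D2R
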