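import Pool.Agent.H23.D2.Bwj

/-!
# Windows with balls only beyond the common radius

`winJ_conx`: `winJ_con` with a larger radius `a'` of the windows with balls only.
-/

set_option autoImplicit false

namespace Pool.D2R

open Finset Real MvPolynomial
open Pool.Agent.H49.Ent Pool.Agent.H32.Dense Pool.STK Pool.KA Pool.KSAT Pool.K2S Pool.PB Pool.S6C
open Pool.GEN Pool.CHT Pool.CHX Pool.ISO
open Pool.LBT (LSys Slo Tri ThrOf fl_le' bas_false)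
open Pool.LEV (Law)
open Pool.FLF (Fam.sub)
open Pool.JTN (TgP)

/-- **Windows with rows and windows with balls only, in a class**, the windows with balls only with a
larger radius. -/
theorem winJ_conx (m r S₀ : ℕ) (hr : 1 ≤ r) (hS₀ : 1 ≤ S₀) : ∃ D : ℕ, 1 ≤ D ∧ ∀ Dr : ℕ, D ≤ Dr →
    ∃ C CB : ℝ, 1 ≤ C ∧ 1 ≤ CB ∧ ∀ {S : PCl m} {P : List (Fin m) × Fin m → ℝ → ℝ → ℝ} {θ : ℝ}
    {c : ℕ → Fin m} {Pt : ℝ → ℝ → ℝ} {R : ℕ → Prop} {a a' Eb ηm : ℝ} {o ε p' η σ r₀ : ℕ → ℝ}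
    (N N₂ M : ℕ), N ≤ N₂ → a ≤ a' → ThrOf (chsys m θ) S P → 0 < θ → TmH S →
    Set.InjOn c (Set.Iio (r + 1)) → Law Pt → 0 ≤ Eb →
    (∀ k ≤ N, WinD S P θ c r Pt a (o k) S₀ Eb (ε k) R) →
    (∀ k, N < k → k ≤ N₂ → BalD S P θ c r Pt a' (o k) S₀ Eb) →
    (∀ k ≤ N, C * ε k < o k ∧ C * ε k < η k ∧ 2 * (C * η k) ≤ o k) →
    (∀ k ≤ N, C * η k ≤ p' k ∧ p' k + C * ε k < Pt a (o k)) →
    (∀ k ≤ N₂, 0 < η k ∧ 0 < σ k ∧ σ k ≤ ηm ∧ 0 < r₀ k ∧ η k < a ∧ η k ≤ ηm) →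
    (∀ k ≤ N, ∀ l ≤ r, lvN P c r Pt l (o k) (o k) + (a - o k) + (Eb + σ k + η k) < 1) →
    (∀ k ≤ N, ∀ l < r, bet P c l a (o k) + (Eb + σ k + η k) < 1) →
    ∃ (K₁ : ℝ) (μ : ℕ → ℝ) (b : ℕ → ℕ → ℝ), 0 < K₁ ∧ (∀ k ≤ N₂, 0 < μ k ∧ ∀ l ≤ r,
        lvN P c r Pt l (o k) (o k) - σ k < b k l ∧
        b k l < lvN P c r Pt l (o k) (o k) - μ k) ∧
      ∀ κ : ℝ, 0 < κ → Bas S (fun J F A => ∀ z : ℕ → ℕ → ℕ,
        (∀ k ≤ N, ∀ i ≤ M, r₀ k * J ≤ z k i ∧ z k i ≤ ⌊a * J⌋₊ - ⌊o k * J⌋₊) →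
        (∀ k, N < k → k ≤ N₂ → ∀ i ≤ M, r₀ k * J ≤ z k i ∧
          z k i ≤ ⌊a' * J⌋₊ - ⌊o k * J⌋₊) →
        ∃ (B : F.Ω → Prop) (gc gT g₀ : ℕ → ℕ → ℕ)
          (G : ℕ → PtT F → ℕ → MvPolynomial (Option (Fin m)) ℝ)
          (H : ℕ → LnT F → ℕ → MvPolynomial (Option (Fin m)) ℝ)
          (T : ℕ → PtT F → ℕ → MvPolynomial (Option (Fin m)) ℝ)
          (TH : ℕ → LnT F → ℕ → MvPolynomial (Option (Fin m)) ℝ)
          (Gt : ℕ → PtT F → MvPolynomial (Option (Fin m)) ℝ)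
          (Ht : ℕ → LnT F → MvPolynomial (Option (Fin m)) ℝ), Sub B A ∧
          Pe F.p A ≤ K₁ * Pe F.p B ∧
          Wins F c r D Dr N M R C a Eb ηm o ε p' η σ
            (fun k l => lvN P c r Pt l (o k) (o k)) (fun k l => bet P c l a (o k)) b κ z B gc gT
            g₀ G H T TH Gt Ht ∧
          WinB F c r D Dr N₂ M CB a' Eb ηm o η σ
            (fun k l => lvN P c r Pt l (o k) (o k)) b κ z B g₀ G H) := by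
  classical
  obtain ⟨D₁, hD₁, hwin⟩ := win_con m r S₀ hr hS₀
  obtain ⟨D₂, hD₂, hball⟩ := ball_list m r S₀ hr hS₀
  obtain ⟨D, hD⟩ : ∃ D, D = max D₁ D₂ := ⟨_, rfl⟩
  have hDD1 : D₁ ≤ D := by rw [hD]; exact le_max_left _ _
  have hDD2 : D₂ ≤ D := by rw [hD]; exact le_max_right _ _
  have hD0 : 1 ≤ D := hD₁.trans hDD1
  refine ⟨D, hD0, fun Dr hDr => ?_⟩
  obtain ⟨C, hC, hwin⟩ := hwin Dr (hDD1.trans hDr)
  obtain ⟨C₂, hC₂, hbal⟩ := balb_out D r hD0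
  have hC₂R : (1 : ℝ) ≤ C₂ := by exact_mod_cast hC₂
  refine ⟨C, 2 * C₂, hC, by linarith, ?_⟩
  intro S P θ c Pt R a a' Eb ηm o ε p' η σ r₀ N N₂ M hNN haa hP hθ hS hinj hPt hEb hW hWb hε hp' hσ htop
    hbet
  obtain ⟨K₃, hK₃, hbal⟩ := hbal N₂ M
  have hK₃0 : 0 < K₃ := by linarith
  obtain ⟨K₁, μ₁, b₁, hK₁, hμ₁, hbas₁⟩ := hwin N M hP hθ hS hinj hPt hEb hW hε hp'
    (fun k hk => ⟨(hσ k (by omega)).2.1, (hσ k (by omega)).2.2.1, (hσ k (by omega)).2.2.2.1,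
      (hσ k (by omega)).2.2.2.2.1, (hσ k (by omega)).2.2.2.2.2⟩) htop hbet
  obtain ⟨L, hL⟩ : ∃ L : List ℕ, L = (List.range (N₂ + 1)).filter (fun k => N < k) := ⟨_, rfl⟩
  have hmem : ∀ k, k ∈ L ↔ N < k ∧ k ≤ N₂ := fun k => by
    rw [hL, List.mem_filter, List.mem_range, decide_eq_true_iff]
    omega
  obtain ⟨K₂, μ₂, b₂, hK₂, hμ₂, hbas₂⟩ := hball Dr (η := η) (σ := σ) (r₀ := r₀) M hP hθ hS hinj
    hPt L (fun k hk => hWb k ((hmem k).1 hk).1 ((hmem k).1 hk).2)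
    (fun k hk => ⟨(hσ k ((hmem k).1 hk).2).1, (hσ k ((hmem k).1 hk).2).2.1,
      (hσ k ((hmem k).1 hk).2).2.2.2.1⟩)
  obtain ⟨b, hb⟩ : ∃ b : ℕ → ℕ → ℝ, b = fun k => if k ≤ N then b₁ k else b₂ k := ⟨_, rfl⟩
  obtain ⟨μ, hμ⟩ : ∃ μ : ℕ → ℝ, μ = fun k => if k ≤ N then μ₁ k else μ₂ k := ⟨_, rfl⟩
  have hb1 : ∀ k ≤ N, b k = b₁ k := fun k hk => by rw [hb]; exact if_pos hk
  have hb2 : ∀ k, N < k → b k = b₂ k := fun k hk => by rw [hb]; exact if_neg (by omega)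
  have hm1 : ∀ k ≤ N, μ k = μ₁ k := fun k hk => by rw [hμ]; exact if_pos hk
  have hm2 : ∀ k, N < k → μ k = μ₂ k := fun k hk => by rw [hμ]; exact if_neg (by omega)
  have hbb : ∀ k ≤ N₂, 0 < μ k ∧ ∀ l ≤ r, lvN P c r Pt l (o k) (o k) - σ k < b k l ∧
      b k l < lvN P c r Pt l (o k) (o k) - μ k := by
    intro k hk
    rcases Nat.lt_or_ge N k with h | h
    · rw [hb2 k h, hm2 k h]
      exact hμ₂ k ((hmem k).2 ⟨h, hk⟩)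
    · rw [hb1 k h, hm1 k h]
      exact hμ₁ k h
  have hηm0 : 0 < ηm := (hσ 0 (Nat.zero_le _)).1.trans_le (hσ 0 (Nat.zero_le _)).2.2.2.2.2
  have ho : ∀ k ≤ N₂, 0 < o k ∧ o k < 1 ∧ o k < a' := fun k hk => by
    rcases Nat.lt_or_ge N k with h | h
    · obtain ⟨ρ, vs, e, e₀, E, sg, Q, d1, -⟩ := (hWb k h hk).dw
      exact ⟨d1.w0, d1.a1, (hWb k h hk).lt⟩
    · obtain ⟨ρ, vs, e, e₀, E, sg, Q, d1, -⟩ := (hW k h).dw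
      exact ⟨d1.w0, d1.a1, (hW k h).lt.trans_le haa⟩
  refine ⟨K₁ * (K₂ * K₃), μ, b, mul_pos hK₁ (mul_pos hK₂ hK₃0), hbb, fun κ hκ => ?_⟩
  obtain ⟨κ₃, hκ₃⟩ : ∃ κ₃ : ℝ, κ₃ = min κ 1 / K₃ := ⟨_, rfl⟩
  have hκ₃0 : 0 < κ₃ := by rw [hκ₃]; exact div_pos (lt_min hκ one_pos) hK₃0
  have hκ₃1 : κ₃ * K₃ ≤ 1 := by
    rw [hκ₃, div_mul_cancel₀ _ hK₃0.ne']
    exact min_le_right _ _
  have hκ₃2 : κ₃ * K₃ ≤ κ := by
    rw [hκ₃, div_mul_cancel₀ _ hK₃0.ne']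
    exact min_le_left _ _
  have hκ₁0 : 0 < κ₃ / K₂ := div_pos hκ₃0 hK₂
  obtain ⟨J₁, hJ₁⟩ := exists_nat_gt (1 / ηm)
  refine Bas.mono J₁ ((hbas₁ (κ₃ / K₂) hκ₁0).and (bas_ev (hbas₂ κ₃ hκ₃0) (κ := 1 / K₁)
    (by positivity))) ?_
  rintro J hJ F A ⟨h1, h2⟩ z hz hzx
  have hJ0 : (0 : ℝ) ≤ J := Nat.cast_nonneg J
  have hηJ : 1 ≤ ηm * J := by
    have h2 : 1 / ηm < J := hJ₁.trans_le (by exact_mod_cast hJ)
    rw [div_lt_iff₀ hηm0] at h2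
    linarith
  have hp := Pe_nonneg F.isLaw
  obtain ⟨B₁, gc, gT, g₁, G₁, H₁, T, TH, Gt, Ht, k1, k2, k3⟩ := h1 z hz
  obtain ⟨B₂, g₂, G₂, H₂, l1, l2, l3⟩ := h2 B₁ k1 (by
    rw [one_div, inv_mul_le_iff₀ hK₁]
    exact k2) z fun k hk => hzx k ((hmem k).1 hk).1 ((hmem k).1 hk).2
  obtain ⟨g₀, hg₀⟩ : ∃ g₀ : ℕ → ℕ → ℕ, g₀ = fun k => if k ≤ N then g₁ k else g₂ k := ⟨_, rfl⟩
  obtain ⟨G, hG⟩ : ∃ G : ℕ → PtT F → ℕ → MvPolynomial (Option (Fin m)) ℝ,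
    G = fun k => if k ≤ N then G₁ k else G₂ k := ⟨_, rfl⟩
  obtain ⟨H, hH⟩ : ∃ H : ℕ → LnT F → ℕ → MvPolynomial (Option (Fin m)) ℝ,
    H = fun k => if k ≤ N then H₁ k else H₂ k := ⟨_, rfl⟩
  have hg1 : ∀ k ≤ N, g₀ k = g₁ k := fun k hk => by rw [hg₀]; exact if_pos hk
  have hg2 : ∀ k, N < k → g₀ k = g₂ k := fun k hk => by rw [hg₀]; exact if_neg (by omega)
  have hG1 : ∀ k ≤ N, G k = G₁ k := fun k hk => by rw [hG]; exact if_pos hk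
  have hG2 : ∀ k, N < k → G k = G₂ k := fun k hk => by rw [hG]; exact if_neg (by omega)
  have hH1 : ∀ k ≤ N, H k = H₁ k := fun k hk => by rw [hH]; exact if_pos hk
  have hH2 : ∀ k, N < k → H k = H₂ k := fun k hk => by rw [hH]; exact if_neg (by omega)
  have hWin : Wins F c r D Dr N M R C a Eb ηm o ε p' η σ
      (fun k l => lvN P c r Pt l (o k) (o k)) (fun k l => bet P c l a (o k)) b κ₃ z B₂ gc gT
      g₀ G H T TH Gt Ht := by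
    refine (((k3.deg hDD1).res (κ₁ := 1 / K₂) l1 ?_ hκ₃0.le ?_).cong hb1 hg1 hG1 hH1)
    · rw [one_div, inv_mul_le_iff₀ hK₂]
      exact l2
    · rw [mul_one_div]
  have hev : ∀ k ≤ N₂, EvB F c r D Dr ⌊o k * J⌋₊ M (z k) ⌊(Eb + σ k + η k) * J⌋₊ ⌊η k * J⌋₊
      (fun l => ⌊b k l * J⌋₊) (g₀ k) κ₃ B₂ (G k) (H k) := by
    intro k hk
    rcases Nat.lt_or_ge N k with h | h
    · rw [hb2 k h, hg2 k h, hG2 k h, hH2 k h]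
      exact (l3 k ((hmem k).2 ⟨h, hk⟩)).2.deg hDD2
    · exact hWin.toB.ev k h
  obtain ⟨B₃, n1, n2, n3⟩ := hbal (c := c) (Dr := Dr) (h := ⌊ηm * J⌋₊)
    (o := fun k => ⌊o k * J⌋₊) (e := fun k => ⌊(Eb + σ k + η k) * J⌋₊)
    (hh := fun k => ⌊η k * J⌋₊) (z := z) (g := fun k l => ⌊b k l * J⌋₊) (g₀ := g₀)
    (κ := fun _ => κ₃) (B := B₂) (G := G) (H := H)
    (hinj.mono fun y hy => by rw [Set.mem_Iio] at hy ⊢; omega) hDr (fun k hk => by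
      have h5 : (⌊o k * J⌋₊ : ℝ) ≤ o k * J := Nat.floor_le (mul_nonneg (ho k hk).1.le hJ0)
      have h6 : o k * (J : ℝ) ≤ 1 * J := mul_le_mul_of_nonneg_right (ho k hk).2.1.le hJ0
      have h7 : (⌊o k * J⌋₊ : ℝ) ≤ J := by linarith
      exact_mod_cast h7)
    (fun k hk => Nat.floor_le_floor (mul_le_mul_of_nonneg_right (hσ k hk).2.2.2.2.2 hJ0))
    (fun k _ => ⟨hκ₃0.le, hκ₃1⟩) hev
  have n2' : 1 / K₃ * Pe F.p B₂ ≤ Pe F.p B₃ := by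
    rw [one_div, inv_mul_le_iff₀ hK₃0]
    exact n2
  have hκe : κ₃ ≤ κ * (1 / K₃) := by
    rw [mul_one_div, le_div_iff₀ hK₃0]
    exact hκ₃2
  refine ⟨B₃, gc, gT, g₀, G, H, T, TH, Gt, Ht, fun ω hω => k1 ω (l1 ω (n1 ω hω)), ?_,
    hWin.res n1 n2' hκ.le hκe, ⟨by linarith, hEb, fun k hk => ⟨(hσ k hk).1.le,
      (hσ k hk).2.2.2.2.2⟩, fun k hk => ⟨(hσ k hk).2.1.le, (hσ k hk).2.2.1⟩,
      fun k hk => ⟨(ho k hk).1.le, (ho k hk).2.2.le⟩, fun k hk l hl => ⟨((hbb k hk).2 l hl).1, by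
        have := (hbb k hk).1
        have := ((hbb k hk).2 l hl).2
        linarith⟩, fun k hk l hl => ?_, fun k hk => (hev k hk).sub n1 n2' hκ.le hκe,
      fun k hk k' hk' q hq hoo hz' ω hω l hl b' hb' => ?_⟩⟩
  · calc Pe F.p A ≤ K₁ * Pe F.p B₁ := k2
      _ ≤ K₁ * (K₂ * Pe F.p B₂) := mul_le_mul_of_nonneg_left l2 hK₁.le
      _ ≤ K₁ * (K₂ * (K₃ * Pe F.p B₃)) :=
          mul_le_mul_of_nonneg_left (mul_le_mul_of_nonneg_left n2 hK₂.le) hK₁.le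
      _ = _ := by ring
  · rcases Nat.lt_or_ge N k with h | h
    · rw [hg2 k h]
      exact (l3 k ((hmem k).2 ⟨h, hk⟩)).1 l hl
    · exact hWin.toB.sds k h l hl
  · refine (n3 k hk k' hk' q hq hoo hz' ω hω l hl b' hb').trans
      (div_le_div_of_nonneg_right ?_ (by positivity))
    refine pow_le_pow_right₀ (by norm_num) (Nat.le_floor ?_)
    push_cast
    have h5 : (⌊ηm * J⌋₊ : ℝ) ≤ ηm * J := Nat.floor_le (mul_nonneg hηm0.le hJ0)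
    have h6 : (C₂ : ℝ) * (⌊ηm * J⌋₊ + 1) ≤ C₂ * (2 * (ηm * J)) :=
      mul_le_mul_of_nonneg_left (by linarith) (by linarith)
    linarith

end Pool.D2R
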