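import Pool.Agent.H88.D2.Mcx
import Pool.Agent.H3.D2G.RecH
import Pool.Agent.H57.AVG.C2b

/-!
# A cell from the closed gradient

`CellC`: the class theorem of a cell with the closed gradient `CGr` of every large degree in the
direction of the last place of the list, at the window `t - q`.
-/

set_option autoImplicit false

namespace Pool.TN

open Pool.Agent.H49.Ent Pool.Agent.H32.Dense Pool.STK Pool.KA Pool.KSAT Pool.K2S Pool.PB Pool.S6C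
open Pool.GEN Pool.CHT
open Pool.AVG57 (CGr)
open Pool.PKG (RecQ Kd)

/-- **The class theorem of a cell from the closed gradient** in the direction of the place `v`;
target: the place `v + 1`. -/
def CellC (n v : ℕ) (Sl : ℕ → ℝ) (κ : ℕ → Kd) : Prop :=
  ∀ S₀ : ℕ, 1 ≤ S₀ → ∃ D₀ : ℕ, 1 ≤ D₀ ∧ ∀ Dc : ℕ, D₀ ≤ Dc → ∀ del : ℝ, 0 < del →
    ∀ (XX : ℕ) (Sm ξ qr μ vj κ₂ dW τ yp : ℝ), 1 ≤ XX → 0 < yp →
    MuN v XX Sl Sm ξ qr μ vj κ₂ dW τ →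
    ∃ (K : ℝ) (N : ℕ) (A V : ℕ → ℝ), 1 ≤ K ∧ (∀ k < N, -K ≤ V k ∧ V k ≤ A k ∧ A k ≤ K) ∧
    ∀ S₂ : ℕ, S₀ ≤ S₂ → ∃ (N' : ℕ) (V' : ℕ → ℝ), (∀ k < N', -K ≤ V' k ∧ V' k ≤ K) ∧
      ∃ ε : ℝ, 0 < ε ∧ ∀ (S : PCl n)
      (P P₂ : List (Fin n) × Fin n → ℝ → ℝ → ℝ) (θ θ₂ : ℝ) (c : ℕ → Fin n) (Pt : ℝ → ℝ → ℝ)
      (L T : ℕ → ℝ → ℝ → ℝ) (Eb e₂ q t : ℝ),
      RecQ S P P₂ θ θ₂ c (v + 1) Pt L T Sl κ S₀ N A V S₂ N' V' Eb e₂ K ε q t →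
      ∀ (pl sl : ℕ → ℝ) (ι : ℝ) (k₁ : ℕ),
      (∀ l ≤ v + 1, pl l ≤ L l (t - q) (t - q) - yp * q ∧ L l (t - q) (t - q) ≤ sl l) →
      CGr S c v Dc (t - q) (dW * q) (t + vj * q) (t + XX * q) pl sl (qr * q) (ξ * q) (μ * q) κ₂ ι
        k₁ (1 / 2) →
      L (v + 1) (t + q) (t + q) ≤ L (v + 1) (t + q) t + del * q

end Pool.TN
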