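import Pool.Agent.H88.D2.Mcx

/-!
# The numbers of the closed gradient

`mun_ex`: the numbers `MuN` exist if the slope of the target is larger than the slopes of the list.
-/

set_option autoImplicit false

namespace Pool.TN

open Finset Real

/-- **The numbers** of the closed gradient at the ball, with the inequalities of a box of `CGr`:
window of the closed charts `-1`, ball `1`, far window `X`. -/
theorem mun_ex {v : ℕ} {Sl : ℕ → ℝ} (h1 : ∀ l ≤ v, 1 ≤ Sl l)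
    (h2 : ∀ l ≤ v, Sl l < Sl (v + 1)) {κ₂ θ : ℝ} (hκ : 0 < κ₂) (hθ : 0 < θ)
    (hθ1 : θ ≤ 1) :
    ∃ (X : ℕ) (Sm ξ qr μ vj dW τ ν : ℝ), 2 ≤ X ∧ 0 < ξ ∧ 0 < μ ∧ μ ≤ θ * ξ ∧ 0 < ν ∧ ν ≤ θ * ξ ∧
      0 < dW ∧ dW ≤ ν / 8 ∧ dW ≤ ξ ∧ 0 < qr ∧ 0 ≤ vj ∧ (∀ l ≤ v + 1, Sl l * (vj + 1) + ν ≤ qr) ∧
      (∀ l ≤ v, Sl l * (X + 1) + ν ≤ qr) ∧ qr ≤ Sl (v + 1) * (X + 1) ∧ θ * ξ + ν ≤ qr ∧
      MuN v X Sl Sm ξ qr μ vj κ₂ dW τ := by
  obtain ⟨l₀, hl₀, hmax⟩ := Finset.exists_max_image (range (v + 1)) Sl ⟨0, by simp⟩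
  rw [Finset.mem_range] at hl₀
  have hl₀v : l₀ ≤ v := by omega
  obtain ⟨Sm, hSm⟩ : ∃ Sm, Sm = Sl l₀ := ⟨_, rfl⟩
  obtain ⟨b, hb⟩ : ∃ b, b = Sl (v + 1) := ⟨_, rfl⟩
  have m1 : ∀ l ≤ v, Sl l ≤ Sm := fun l hl => by
    rw [hSm]
    exact hmax l (Finset.mem_range.2 (by omega))
  have Sm1 : 1 ≤ Sm := by rw [hSm]; exact h1 l₀ hl₀v
  have Smb : Sm < b := by rw [hSm, hb]; exact h2 l₀ hl₀v
  have hvb : Sl v < b := by rw [hb]; exact h2 v le_rfl
  have b1 : 1 < b := by linarith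
  obtain ⟨ξ, hξ⟩ : ∃ ξ, ξ = 2 * (b - Sl v) / κ₂ := ⟨_, rfl⟩
  have hξ0 : 0 < ξ := by
    rw [hξ]
    exact div_pos (by linarith) hκ
  have hξκ : κ₂ * ξ = 2 * (b - Sl v) := by rw [hξ]; field_simp
  obtain ⟨ν, hν⟩ : ∃ ν, ν = min 1 θ * ξ := ⟨_, rfl⟩
  have hm0 : 0 < min 1 θ := lt_min one_pos hθ
  have hν0 : 0 < ν := by rw [hν]; positivity
  have hνθ : ν ≤ θ * ξ := by
    rw [hν]
    exact mul_le_mul_of_nonneg_right (min_le_right _ _) hξ0.le
  have hνξ : ν ≤ ξ := by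
    rw [hν]
    exact mul_le_of_le_one_left hξ0.le (min_le_left _ _)
  obtain ⟨dW, hdW⟩ : ∃ dW : ℝ, dW = min 1 (ν / 8) := ⟨_, rfl⟩
  have hdW0 : 0 < dW := by rw [hdW]; exact lt_min one_pos (by positivity)
  have hdW1 : dW ≤ 1 := by rw [hdW]; exact min_le_left _ _
  have hdW2 : dW ≤ ν / 8 := by rw [hdW]; exact min_le_right _ _
  obtain ⟨gap, hgap⟩ : ∃ gap, gap = b - Sm := ⟨_, rfl⟩
  have hgap0 : 0 < gap := by rw [hgap]; linarith
  obtain ⟨vj, hvj⟩ : ∃ vj, vj = ξ / gap := ⟨_, rfl⟩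
  have hvj0 : 0 < vj := by rw [hvj]; positivity
  have hvjg : gap * vj = ξ := by rw [hvj]; field_simp
  obtain ⟨X, hX⟩ := exists_nat_ge (max (max 2 ξ) (max (b * (vj + 1)) ((ξ + ν) / gap)))
  have x1 : (2 : ℝ) ≤ X := (le_max_left _ _).trans ((le_max_left _ _).trans hX)
  have x2 : ξ ≤ X := (le_max_right _ _).trans ((le_max_left _ _).trans hX)
  have x3 : b * (vj + 1) ≤ X := (le_max_left _ _).trans ((le_max_right _ _).trans hX)
  have x4 : (ξ + ν) / gap ≤ X := (le_max_right _ _).trans ((le_max_right _ _).trans hX)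
  have x5 : ξ + ν ≤ gap * X := by
    rw [div_le_iff₀ hgap0] at x4
    linarith
  have x6 : (X : ℝ) + 1 ≤ Sm * (X + 1) := le_mul_of_one_le_left (by linarith) Sm1
  have x7 : vj ≤ b * (vj + 1) := by
    have : (vj + 1) ≤ b * (vj + 1) := le_mul_of_one_le_left (by linarith) b1.le
    linarith
  refine ⟨X, Sm, ξ, Sm * (X + 1) + ν, ν, vj, dW, ν, ν, by exact_mod_cast x1, hξ0, hν0, hνθ, hν0, hνθ,
    hdW0, hdW2, by linarith, by linarith, hvj0.le, fun l hl => ?_, fun l hl => ?_, ?_, ?_, ?_⟩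
  · have h3 : Sl l ≤ b := by
      rcases Nat.lt_or_ge l (v + 1) with h4 | h4
      · exact (m1 l (by omega)).trans Smb.le
      · rw [hb, show l = v + 1 by omega]
    have h4 := mul_le_mul_of_nonneg_right h3 (show 0 ≤ vj + 1 by linarith)
    linarith
  · have h4 := mul_le_mul_of_nonneg_right (m1 l hl) (show (0 : ℝ) ≤ X + 1 by linarith)
    linarith
  · rw [← hb]
    have : b * (X + 1) = Sm * (X + 1) + gap * (X + 1) := by rw [hgap]; ring
    rw [this]
    linarith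
  · have h4 : θ * ξ ≤ ξ := mul_le_of_le_one_left hξ0.le hθ1
    linarith
  · exact
      { X2 := by exact_mod_cast x1
        Sm0 := by linarith
        sm := m1
        sb := by rw [← hb]; exact Smb.le
        t0 := hν0
        m0 := hν0
        q1 := le_rfl
        q2 := by
          rw [← hb]
          have : b * (X + 1) = Sm * (X + 1) + gap * (X + 1) := by rw [hgap]; ring
          rw [this]
          linarith
        x0 := hξ0.le
        x1 := by linarith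
        j0 := by linarith
        j1 := by linarith
        j2 := by
          rw [← hb, ← hgap]
          linarith
        d1 := hdW1
        k0 := hκ.le
        kx := by
          rw [← hb]
          linarith }

end Pool.TN
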