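import Pool.Agent.H3.D2G.RecH

/-!
# A record with a smaller radius and fewer windows

`RecQ.anti`: the record of the windows with a smaller radius, a larger loss, and the first windows of
the chain.
-/

set_option autoImplicit false

namespace Pool.PKG

open Pool.Agent.H49.Ent Pool.Agent.H32.Dense Pool.STK Pool.KA Pool.KSAT Pool.K2S Pool.PB
open Pool.GEN Pool.S6C

theorem KdQ.anti {k : Kd} {L T : ℝ → ℝ → ℝ} {s t K K' q ε ε' : ℝ} (hq : 0 < q) (hK : K ≤ K')
    (hε : ε' ≤ ε) (h : KdQ k L T s t K' q ε') : KdQ k L T s t K q ε := by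
  have h1 := mul_le_mul_of_nonneg_right hK hq.le
  have h2 := mul_le_mul_of_nonneg_right hε hq.le
  cases k with
  | one => exact h
  | thin => exact ⟨h.1, fun a w k1 k2 k3 => (h.2 a w (by linarith) k2 (by linarith)).trans
      (by linarith)⟩
  | sta => exact ⟨h.1, fun a w k1 k2 k3 => (h.2 a w (by linarith) k2 (by linarith)).trans
      (by linarith)⟩

variable {m : ℕ} {S : PCl m} {P P₂ : List (Fin m) × Fin m → ℝ → ℝ → ℝ} {θ θ₂ : ℝ}
  {c : ℕ → Fin m} {i : ℕ} {Pt : ℝ → ℝ → ℝ} {L T : ℕ → ℝ → ℝ → ℝ} {Sl : ℕ → ℝ} {κ : ℕ → Kd}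
  {S₀ N : ℕ} {A V : ℕ → ℝ} {S₂ N' : ℕ} {V' : ℕ → ℝ} {Eb e₂ K' ε' q t : ℝ}

theorem RecL.anti {l : ℕ} (hq : 0 < q) (R : RecL S P θ c l L S₀ N A V S₂ N' V' Eb e₂ K' q t)
    {K : ℝ} {N'' : ℕ} {V'' : ℕ → ℝ} (hK : K ≤ K') (hN : N'' ≤ N')
    (hV : ∀ k < N'', V'' k = V' k) : RecL S P θ c l L S₀ N A V S₂ N'' V'' Eb e₂ K q t := by
  have h1 := mul_le_mul_of_nonneg_right hK hq.le
  have e1 : 3 * K * q ≤ 3 * K' * q := by linarith
  exact
    { Eb0 := R.Eb0
      Ebe := by linarith [R.Ebe]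
      eθ := fun x hx => R.eθ x (hx.trans h1)
      room := fun j hj x hx => by linarith [R.room j hj x (hx.trans h1)]
      pt := R.pt
      rat := R.rat
      rat3 := R.rat3
      ptc := fun k hk => by
        rw [hV k hk]
        exact R.ptc k (by omega)
      ratc := fun k hk => by
        rw [hV k hk]
        exact R.ratc k (by omega) }

/-- **The record with a smaller radius.** -/
theorem RecQ.anti (R : RecQ S P P₂ θ θ₂ c i Pt L T Sl κ S₀ N A V S₂ N' V' Eb e₂ K' ε' q t)
    {K ε : ℝ} {N'' : ℕ} {V'' : ℕ → ℝ} (hK : K ≤ K') (hε : ε' ≤ ε) (hN : N'' ≤ N')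
    (hV : ∀ k < N'', V'' k = V' k) :
    RecQ S P P₂ θ θ₂ c i Pt L T Sl κ S₀ N A V S₂ N'' V'' Eb e₂ K ε q t := by
  have hq := R.q0
  have h1 := mul_le_mul_of_nonneg_right hK hq.le
  have h2 := mul_le_mul_of_nonneg_right hε hq.le
  have e1 : 3 * K * q ≤ 3 * K' * q := by linarith
  exact
    { R with
      t0 := by linarith [R.t0]
      t1 := by linarith [R.t1]
      dL := fun l hl x hx => (R.dL l hl x (hx.trans h1)).trans h2
      dT := fun l hl x hx => (R.dT l hl x (hx.trans h1)).trans h2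
      room := fun l hl x hx => by linarith [R.room l hl x (hx.trans h1)]
      e₂θ := fun x hx => R.e₂θ x (hx.trans h1)
      Ebe := by linarith [R.Ebe]
      kd := fun l hl => (R.kd l hl).anti hq hK hε
      stp := fun a w k1 k2 k3 => (R.stp a w (by linarith) k2 (by linarith)).trans (by linarith)
      ptc := fun k hk => by
        rw [hV k hk]
        exact R.ptc k (by omega)
      TLc := fun k hk => by
        rw [hV k hk]
        exact R.TLc k (by omega)
      ratc := fun k hk => by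
        rw [hV k hk]
        exact R.ratc k (by omega)
      lst := fun l k1 k2 => by
        obtain ⟨Eb', e', RL⟩ := R.lst l k1 k2
        exact ⟨Eb', e', RL.anti hq hK hN hV⟩ }

end Pool.PKG
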