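import Pool.Agent.H57.AVG.Cgq
import Pool.Agent.H50.LBR.La
import Pool.Agent.H23.D2.Clc
import Pool.Agent.H23.D2.Mnx
import Pool.Agent.H23.D2.Rqa
import Pool.Agent.H88.D2.Cqi

/-!
# The cells from the closed gradient at almost every window

`WrQ`: labels, chain, target labels and closed gradient at a window. `CellC.qi`: a class theorem which
uses the closed gradient is a class theorem at a window with this property.
-/

set_option autoImplicit false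

namespace Pool.TN

open Finset Real MvPolynomial MeasureTheory
open Pool.Agent.H49.Ent Pool.Agent.H32.Dense Pool.STK Pool.KA Pool.KSAT Pool.K2S Pool.PB Pool.S6C
open Pool.GEN Pool.CHT Pool.LA91 Pool.PKG Pool.V0F Pool.CDX Pool.LBR50
open Pool.AVG57 (CGr CgQ Cst MuC cg_use)
open Pool.AJX (LbX)

/-- Labels of a larger degree. -/
theorem labW_deg {m : ℕ} {S : PCl m} {c : ℕ → Fin m} {r₀ K K' : ℕ} {sn : ℝ → ℕ → ℝ} {g₀ b : ℝ}
    {i : ℕ} (h : LabW S c r₀ K sn g₀ b i) (hK : K ≤ K') : LabW S c r₀ K' sn g₀ b i := by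
  obtain ⟨E, rd, h1, h2⟩ := h
  refine ⟨E, rd, h1, fun e he => Bas.mono 0 (h2 e he) ?_⟩
  rintro J - F A ⟨V, z, z', gg, h3⟩
  exact ⟨V, z, z', gg, fun l a b' => (h3 l a b').mono (fun _ h => h) hK le_rfl le_rfl le_rfl⟩

theorem lbR_deg {m : ℕ} {S : PCl m} {c : ℕ → Fin m} {r₀ K K' : ℕ} {sn : ℝ → ℕ → ℝ} {G : Set ℝ}
    {g g₀ W ε : ℝ} {i : ℕ} (h : LbR S c r₀ K sn G g g₀ W ε i) (hK : K ≤ K') :
    LbR S c r₀ K' sn G g g₀ W ε i := by
  intro w hw w1 w2
  obtain ⟨b, hb, b1, b2, hL⟩ := h w hw w1 w2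
  exact ⟨b, hb, b1, b2, labW_deg hL hK⟩

/-- **The property of a window** for the cells from the closed gradient. -/
def WrQ (v : ℕ) (Φ : (ℕ → ℝ) → Prop) (h : ℝ) (cs : ℕ → Cst) {n : ℕ} :
    PropG n (Unit ⊕ (Unit ⊕ (Unit ⊕ (ℕ × ℕ)))) :=
  sumQ LbNQ (sumQ ChUQ (sumQ AttUQ (CgQ v Φ h cs)))

theorem aePG_wr {n v : ℕ} {Φ : (ℕ → ℝ) → Prop} {h : ℝ} {cs : ℕ → Cst}
    (H : AePG n (CgQ v Φ h cs : PropG n (ℕ × ℕ))) : AePG n (WrQ v Φ h cs) :=
  aePG_sum (aePG_lbn n) (her_lbn n) (aePG_sum (aePG_chU n) (her_chU n)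
    (aePG_sum (aePG_attU n) (her_attU n) H))

/-- **A cell from the closed gradient at a window.** -/
theorem CellC.qi {n v : ℕ} (hv : v + 2 = n) {Φ : (ℕ → ℝ) → Prop} {h : ℝ} {cs : ℕ → Cst}
    {Sl : ℕ → ℝ} {κ' : ℕ → Kd} {κ : ℕ → Kg} (hκi : κ (v + 1) = .stp)
    (hκ : ∀ l < v + 1, κ l = ofKd (κ' l)) (hcs : ∀ K, (cs K).Ok) (hΦ : Φ Sl)
    (h1 : ∀ l ≤ v, 1 ≤ Sl l) (h1' : ∀ l, 1 ≤ l → l ≤ v + 1 → 1 < Sl l)
    (h2 : ∀ l ≤ v, Sl l < Sl (v + 1)) (H : CellC n v Sl κ') :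
    CelQI n (v + 1) h Sl κ (WrQ v Φ h cs) := by
  intro al _ K₀ hK₀ del hdel S₀ hS₀ S g₀ P θ c Pt r L T G g _ _ hd hQ
  obtain ⟨D₀, -, H⟩ := H S₀ hS₀
  obtain ⟨D, -, HL⟩ := recG_lbr n S₀ (by omega) hS₀
  obtain ⟨Dc, hDc⟩ : ∃ Dc, Dc = max D₀ D := ⟨_, rfl⟩
  obtain ⟨a, ha⟩ : ∃ a, a = cs Dc := ⟨_, rfl⟩
  have hOk : a.Ok := ha ▸ hcs Dc
  obtain ⟨X, Sm, ξ, qr, μ, vj, dW, τ, ν, X2, ξ0, μ0, μξ, ν0, νξ, d0, dν, dξ, q0, vj0, jn, xn, xq,
    θq, Nm⟩ := mun_ex h1 h2 hOk.κ0 hOk.θ0 hOk.θ1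
  have hX0 : (0 : ℝ) ≤ X := Nat.cast_nonneg X
  obtain ⟨M, hM⟩ : ∃ M : ℝ, M = K₀ + X + vj + 2 := ⟨_, rfl⟩
  have hM0 : 0 < M := by linarith
  -- the bound of the numbers
  obtain ⟨N, hN⟩ := exists_nat_ge (max ((qr + ξ + μ) / M) (max (M / ξ) (M / ν)))
  have n1 : (qr + ξ + μ) / M ≤ N := (le_max_left _ _).trans hN
  have n2 : M / ξ ≤ N := (le_max_left _ _).trans ((le_max_right _ _).trans hN)
  have n3 : M / ν ≤ N := (le_max_right _ _).trans ((le_max_right _ _).trans hN)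
  have hN0 : (0 : ℝ) ≤ N := Nat.cast_nonneg N
  obtain ⟨k₁, hQ1⟩ := hQ (.inl ())
  obtain ⟨k₁', hQ2⟩ := hQ (.inr (.inl ()))
  obtain ⟨k₂, hQ3⟩ := hQ (.inr (.inr (.inl ())))
  obtain ⟨k₀, hQ4⟩ := hQ (.inr (.inr (.inr (Dc, N))))
  have hQ1' : LbNQ () k₁ S P θ c Pt r L T κ G g := hQ1
  have hQ2' : ChUQ () k₁ S P θ c Pt r L T κ G g := hQ2
  have hQ3' : AttUQ () k₂ S P θ c Pt r L T κ G g := hQ3
  have hQ4' : CgQ v Φ h cs (Dc, N) k₀ S P θ c Pt r L T κ G g := hQ4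
  obtain ⟨e, he⟩ : ∃ e : ℝ, e = (1 / 2) ^ k₀ := ⟨_, rfl⟩
  obtain ⟨E, hE⟩ : ∃ E : ℝ, E = 2 ^ k₀ := ⟨_, rfl⟩
  obtain ⟨e₂, he₂⟩ : ∃ e₂ : ℝ, e₂ = (1 / 2) ^ k₂ := ⟨_, rfl⟩
  have e0 : 0 < e := by rw [he]; positivity
  have E0 : 0 < E := by rw [hE]; positivity
  have e₂0 : 0 < e₂ := by rw [he₂]; positivity
  have heM : 0 < e * M := mul_pos e0 hM0
  have hEM : 0 < E * M := mul_pos E0 hM0
  obtain ⟨yp, hyp⟩ : ∃ yp : ℝ, yp = min (ν / 8) (min (μ / 2) (e * M)) := ⟨_, rfl⟩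
  have yp0 : 0 < yp := by rw [hyp]; exact lt_min (by linarith) (lt_min (by linarith) heM)
  have yp1 : yp ≤ ν / 8 := by rw [hyp]; exact min_le_left _ _
  have yp2 : yp ≤ μ / 2 := by
    rw [hyp]
    exact (min_le_right _ _).trans (min_le_left _ _)
  have yp3 : yp ≤ e * M := by
    rw [hyp]
    exact (min_le_right _ _).trans (min_le_right _ _)
  obtain ⟨K, N₁, A, V, hK, hAV, H⟩ := H Dc (hDc ▸ le_max_left _ _) del hdel X Sm ξ qr μ vj a.κ dW τ
    yp (by omega) yp0 Nm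
  refine ⟨K, N₁, A, V, hK, hAV, fun S₂ hS₂ => ?_⟩
  obtain ⟨N', V', hV', ε, hε, H⟩ := H S₂ hS₂
  obtain ⟨W, hW⟩ : ∃ W : ℝ, W = E * M + K₀ := ⟨_, rfl⟩
  obtain ⟨Nn, Vn, hVn, hnet⟩ := net_ex (W := W) (κ := e * M) (by linarith) heM
  obtain ⟨V'', hV''⟩ : ∃ V'' : ℕ → ℝ, V'' = fun k => if k < N' then V' k else
      if k < N' + Nn then Vn (k - N') else -1 := ⟨_, rfl⟩
  have v1 : ∀ k < N', V'' k = V' k := fun k hk => by
    rw [hV'']
    exact if_pos hk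
  have v2 : ∀ k < Nn, V'' (N' + k) = Vn k := fun k hk => by
    rw [hV'']
    simp only
    rw [if_neg (by omega), if_pos (by omega), Nat.add_sub_cancel_left]
  have v3 : V'' (N' + Nn) = -1 := by
    rw [hV'']
    simp only
    rw [if_neg (by omega), if_neg (by omega)]
  have hs1 := h1' (v + 1) (by omega) le_rfl
  have hKs : 0 < (K₀ + 1) * (Sl (v + 1) + 1) := mul_pos (by linarith) (by linarith)
  obtain ⟨K'', hK''⟩ : ∃ K'' : ℝ, K'' = K + W + e * M + (K₀ + 1) * (Sl (v + 1) + 1) + M + yp + 4 +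
      E * M := ⟨_, rfl⟩
  have hW0 : 0 < W := by linarith
  have hKK : K ≤ K'' := by linarith
  have hK''0 : 0 < K'' := by linarith
  have hVK : ∀ k < N' + Nn + 1, -K'' ≤ V'' k ∧ V'' k ≤ K'' := by
    intro k hk
    rcases Nat.lt_or_ge k N' with c1 | c1
    · rw [v1 k c1]
      have := hV' k c1
      exact ⟨by linarith, by linarith⟩
    · rcases Nat.lt_or_ge k (N' + Nn) with c2 | c2
      · obtain ⟨j, rfl⟩ := Nat.exists_eq_add_of_le c1
        rw [v2 j (by omega)]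
        have := hVn j (by omega)
        exact ⟨by linarith, by linarith⟩
      · have c3 : k = N' + Nn := by omega
        rw [c3, v3]
        exact ⟨by linarith, by linarith⟩
  refine ⟨K'', N' + Nn + 1, V'', hKK, hVK, min ε (min 1 (e * M)), min (e / M)
    (min (e₂ / (K'' + K₀)) (e₂ / (E * M))), lt_min hε (lt_min one_pos heM),
    lt_min (div_pos e0 hM0) (lt_min (div_pos e₂0 (by linarith)) (div_pos e₂0 hEM)), ?_⟩
  intro P₂ θ₂ Eb e₂' q t hq R
  have hq0 := R.q0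
  have q1 : q < e / M := hq.trans_le (min_le_left _ _)
  have q2 : q < e₂ / (K'' + K₀) := hq.trans_le ((min_le_right _ _).trans (min_le_left _ _))
  have q3 : q < e₂ / (E * M) := hq.trans_le ((min_le_right _ _).trans (min_le_right _ _))
  rw [lt_div_iff₀ hM0] at q1
  rw [lt_div_iff₀ (by linarith)] at q2
  rw [lt_div_iff₀ hEM] at q3
  have hMq : 0 < M * q := mul_pos hM0 hq0
  -- the labels in the box
  have hLb : LbR S c 1 D (fun w l => L l w w) G g (E * (M * q)) (E * (M * q)) (e * M * q)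
      (n - 1) := by
    refine HL R hK''0 (fun k hk => abs_le.2 (hVK k hk)) hQ1' hQ2' hQ3' ?_ W (e * M)
      (E * (M * q)) (mul_pos E0 hMq) ?_ ?_ ?_ (E * (M * q)) ?_
    · rw [← he₂]
      linarith
    · have h3 : E * (M * q) = E * M * q := by ring
      have h4 : E * M * q ≤ K'' * q := mul_le_mul_of_nonneg_right (by linarith) hq0.le
      have h5 : 0 < K'' * q := mul_pos hK''0 hq0
      rw [h3]
      linarith
    · rw [← he₂]
      linarith
    · intro u u1 u2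
      obtain ⟨k, hk, k1, k2⟩ := hnet u u1 u2
      exact ⟨N' + k, by omega, by rw [v2 k hk]; exact k1, by rw [v2 k hk]; exact k2⟩
    · rw [hW]
      linarith
  have en : n - 1 = v + 1 := by omega
  rw [en] at hLb
  have hLb' := lbR_deg hLb (show D ≤ Dc by rw [hDc]; exact le_max_right _ _)
  -- the closed gradient
  have hCG := cg_use (X := (X : ℝ)) (vj := vj) (qr := qr) (ξ := ξ) (μ := μ) (ν := ν) (dW := dW)
    (yp := yp) (K₀ := K₀) (M := M) hv hQ4' hd hΦ h1'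
    { q0 := q0
      ξ0 := ξ0
      μ0 := μ0
      ν0 := ν0
      δ0 := d0
      δν := dν
      δξ := dξ
      y0 := yp0.le
      yν := yp1
      yμ := by linarith
      j0 := by linarith
      X0 := by linarith
      jn := fun l _ l1 => jn l l1
      xn := fun l _ l1 => xn l l1
      xq := xq
      qC := by
        rw [div_le_iff₀ hM0] at n1
        linarith
      M1 := by linarith
      Mj := by rw [abs_of_nonneg vj0]; linarith
      MX := by rw [abs_of_nonneg hX0]; linarith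
      ye := by rw [← he]; exact yp3
      Cξ := by
        rw [div_le_iff₀ ξ0] at n2
        rw [div_le_iff₀ (by linarith)]
        nlinarith
      Cν := by
        rw [div_le_iff₀ ν0] at n3
        rw [div_le_iff₀ (by linarith)]
        nlinarith
      μθ := ha ▸ μξ
      νθ := ha ▸ νξ
      θq := ha ▸ θq } hK₀.le R (by
        rw [← he]
        exact (min_le_right _ _).trans (min_le_right _ _))
      ((min_le_right _ _).trans (min_le_left _ _)) (by linarith) (by linarith)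
      (by rw [← he]; linarith) (by
        have h3 := R.memG.2 (N' + Nn) (by omega)
        rw [v3] at h3
        have e3 : t + -1 * q = t - q := by ring
        rwa [e3] at h3) (by
        have e4 : (2 : ℝ) ^ k₀ * (M * q) = E * (M * q) := by rw [hE]
        have e5 : ((1 : ℝ) / 2) ^ k₀ * (M * q) = e * M * q := by rw [he]; ring
        rw [e4, e5]
        exact hLb')
  rw [← ha] at hCG
  refine H S P (P₂ (v + 1)) θ (θ₂ (v + 1)) c (L (v + 1)) L T (Eb (v + 1)) (e₂' (v + 1)) q t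
    ((R.recQ (by omega) (by omega) hκi hκ).anti hKK (min_le_left _ _) (by omega) fun k hk => (v1 k hk).symm) _ _ a.ι a.k
    (fun l _ => ⟨le_rfl, le_rfl⟩) hCG

end Pool.TN
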