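import Pool.Agent.H23.D2.Thp

/-!
# The end for a place of the list, with a free exponent

`thn_afdL`, `thin_genL`, `thin_endL`: as `thn_afd`, `thin_gen`, `thin_end`, the exponent `e k` of the
window `k` is replaced by a bound `eL` of the gradients of the ball charts of the places of the list.
-/

set_option autoImplicit false

namespace Pool.TN

open Finset Real MvPolynomial
open Pool.Agent.H49.Ent Pool.Agent.H32.Dense Pool.STK Pool.KA Pool.KSAT Pool.K2S Pool.PB Pool.S6C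
open Pool.GEN Pool.CHT Pool.CHX Pool.ISO Pool.D2R Pool.D2Z Pool.D2F
open Pool.LBT (ThrOf)
open Pool.FLF (Fam.sub)
open Pool.PB.Trl (rt rt_mem t_rt)
open Pool.AFT (AfO AfD ab afo_afd aff_no)
open Pool.D2T (der_of)

variable {m : ℕ}

/-- **A tower of closed gradients**, natural at the ball `k` up to a loss `2 ^ dd` at the place `n`. -/
theorem thn_afdL (m D D₁ r n : ℕ) (hD : 1 ≤ D) (hnr : n ≤ r) : ∃ C : ℕ, 1 ≤ C ∧
    ∀ {J : ℕ} {F : Fam m J} {c : ℕ → Fin m} {Dr N M A cl : ℕ} {Sc : ℕ → Prop}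
    {w e h pp : ℕ → ℕ} {z g gc gT g₀ : ℕ → ℕ → ℕ} {κ θ : ℝ}
    {B : F.Ω → Prop} {G : ℕ → PtT F → ℕ → MvPolynomial (Option (Fin m)) ℝ}
    {H : ℕ → LnT F → ℕ → MvPolynomial (Option (Fin m)) ℝ}
    {T : ℕ → PtT F → ℕ → MvPolynomial (Option (Fin m)) ℝ}
    {TH : ℕ → LnT F → ℕ → MvPolynomial (Option (Fin m)) ℝ}
    {Gt : ℕ → PtT F → MvPolynomial (Option (Fin m)) ℝ}
    {Ht : ℕ → LnT F → MvPolynomial (Option (Fin m)) ℝ},
    CEv F c r D Dr N M A cl Sc w e h pp z g gc gT g₀ κ B G H T TH Gt Ht → C ≤ cl →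
    0 < Pe F.p B →
    ∀ {t k X dd eL : ℕ} {lam : LnT F → ℕ → ℕ → Polynomial ℝ}, k ≤ N → t ≤ w k →
      cl ≤ pp k → cl ≤ gc k r → dd ≤ g₀ k n →
      (∀ ω, B ω → ∀ l ≤ n, ∀ j < l, |gG G ω k l (some (c j))| ≤ 2 ^ (eL + nlp (g₀ k) j l)) →
      (∀ s l j, (lam s l j).natDegree ≤ D₁) →
      (∀ ω, B ω → ∀ l ≤ n, ∀ V : Option (Fin m) → ℝ, V none = 0 →
        |∑ j ∈ range l, (lam (slam F t ω) l j).eval (rt F t ω) * V (some (c j)) -
          cv (gG G ω k l) V| ≤ 2 ^ X / 2 ^ lwr (g₀ k) n dd l *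
            en c (g₀ k) (w k) (gG G ω k) l V) →
      0 ≤ θ → (∀ (B' : F.Ω → Prop) (hB' : 0 < Pe F.p B'), Sub B' B →
        Pe F.p B ≤ 2 ^ (n + 1) * Pe F.p B' → (Fam.sub F B' hB').Tm θ) →
      C * (θ + 1) ≤ ((J : ℝ) - w k) * Real.log 2 → Real.exp (C * (θ + 1)) ≤ 2 ^ cl →
      ∃ B' : F.Ω → Prop, Sub B' B ∧ Pe F.p B ≤ 2 ^ (n + 2) * Pe F.p B' ∧
        AfD F c (n + 1) D₁ t (w k) (eL + (r + 1)) (lwr (g₀ k) n dd)
          (2 ^ (C * (cl + X + 1))) B' (gpt F (G k)) (ab t lam) := by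
  classical
  choose C₁ hC₁ hder using fun l => der_of m D D₁ l hD
  obtain ⟨C₂, hC₂, hafo⟩ := afo_afd m D₁ (n + 1)
  obtain ⟨C₃, hC₃, hrnd⟩ := chn_rnd D (r + 1)
  obtain ⟨C₄, hC₄⟩ : ∃ C₄, C₄ = ∑ l ∈ range (n + 1), C₁ l := ⟨_, rfl⟩
  have hCl : ∀ l ≤ n, C₁ l ≤ C₄ := fun l hl => by
    rw [hC₄]
    exact Finset.single_le_sum (f := C₁) (fun _ _ => Nat.zero_le _)
      (Finset.mem_range.2 (Nat.lt_succ_of_le hl))
  -- the units
  obtain ⟨R, hR⟩ : ∃ R, R = 2 * r + 4 := ⟨_, rfl⟩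
  obtain ⟨S, hS⟩ : ∃ S, S = C₄ * (R + 1) + R + n + 3 := ⟨_, rfl⟩
  refine ⟨C₄ + C₃ + C₂ * (S + 1) + 1, by omega, ?_⟩
  obtain ⟨C, hC⟩ : ∃ C, C = C₄ + C₃ + C₂ * (S + 1) + 1 := ⟨_, rfl⟩
  rw [← hC]
  intro J F c Dr N M A cl Sc w e h pp z g gc gT g₀ κ θ B G H T TH Gt Ht E hCc hB t k X dd eL
    lam hk htk hpp hgc hdd hlip hdeg hspa hθ hTm hCJ hexp
  have hθ1 : 0 ≤ θ + 1 := by linarith
  have hmono : ∀ {Y : ℕ}, Y ≤ C → (Y : ℝ) * (θ + 1) ≤ ((J : ℝ) - w k) * Real.log 2 ∧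
      Real.exp (Y * (θ + 1)) ≤ 2 ^ cl := fun hY =>
    ⟨le_trans (mul_le_mul_of_nonneg_right (by exact_mod_cast hY) hθ1) hCJ,
      (Real.exp_le_exp.2 (mul_le_mul_of_nonneg_right (by exact_mod_cast hY) hθ1)).trans hexp⟩
  have hC2C : C₂ ≤ C := by
    rw [hC]
    nlinarith [Nat.zero_le (C₂ * S)]
  obtain ⟨q, hq⟩ : ∃ q, q = cl + X + 1 := ⟨_, rfl⟩
  obtain ⟨u, hu⟩ : ∃ u, u = R * q := ⟨_, rfl⟩
  have hu1 : 2 * cl + r + X + 1 ≤ u := by
    rw [hu, hR, hq]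
    nlinarith [Nat.zero_le (r * cl), Nat.zero_le (r * X)]
  have hwJ : w k ≤ J := (E.wA k hk).trans E.AJ
  have hc := E.inj
  have hball := (E.evs k hk).ball
  obtain ⟨g', hg'⟩ : ∃ g' : ℕ → ℕ, g' = lwr (g₀ k) n dd := ⟨_, rfl⟩
  have hgle : ∀ l, g' l ≤ g₀ k l := fun l => by rw [hg']; exact lwr_le _ _ _ _
  have hnrm : ∀ {l : ℕ}, l ≤ n → ∀ (ψ : ℕ → MvPolynomial (Option (Fin m)) ℝ) x V,
      nrm c ψ g' (w k) l x V = nrm c ψ (g₀ k) (w k) l x V := fun hl ψ x V => by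
    rw [hg']
    exact nrm_lwr hl x V
  have hnrz : ∀ {l : ℕ}, l ≤ n → ∀ (ψ : ℕ → MvPolynomial (Option (Fin m)) ℝ) x W V Z,
      nrz c ψ g' (w k) l x W V Z = nrz c ψ (g₀ k) (w k) l x W V Z := fun hl ψ x W V Z => by
    rw [hg']
    exact nrz_lwr hl x W V Z
  have hen : ∀ {l : ℕ}, l ≤ n → ∀ (χ : ℕ → Option (Fin m) → ℝ) V,
      en c g' (w k) χ l V = en c (g₀ k) (w k) χ l V := fun hl χ V => by
    rw [hg']
    exact en_lwr hl V
  rw [← hg'] at hspa ⊢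
  have hdv : ∀ {a b : ℕ} (l : ℕ), a ≤ b → (2 : ℝ) ^ a / 2 ^ g₀ k l ≤ 2 ^ b / 2 ^ g' l :=
    fun l hab => by
    rw [div_le_div_iff₀ (by positivity) (by positivity), ← pow_add, ← pow_add]
    have := hgle l
    exact p2 (by omega)
  have hdif := (E.row k hk k hk le_rfl 0 (by omega) (by omega)).dif
  -- the event of one place
  have hone : ∀ l ≤ n, ∀ B₁ : F.Ω → Prop, Sub B₁ B → (hB₁ : 0 < Pe F.p B₁) →
      (Fam.sub F B₁ hB₁).Tm θ → ∃ B' : F.Ω → Prop, Sub B' B₁ ∧ Pe F.p B₁ / 2 ≤ Pe F.p B' ∧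
      ∀ ω, B' ω → ∀ V : Option (Fin m) → ℝ, V none = 0 →
      |∑ j ∈ range l, (Polynomial.derivative (lam (slam F t ω) l j)).eval (rt F t ω) *
        V (some (c j))| ≤ 2 ^ (w k - t) * (2 ^ (C₄ * (u + 1)) / 2 ^ g' l *
          en c (g₀ k) (w k) (gG G ω k) l V) := by
    intro l hl B₁ hs hB₁ hTm₁
    obtain ⟨B', b1, b2, b3⟩ := hder l (F := F) (c := c) (w := t) (a := w k) (k := u) (θ := θ)
      (Y := 2 ^ u) (g := g') (B := B₁) (G := G k) (H := H k) (lam := fun s j => lam s l j) hB₁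
      (hc.mono (Set.Iio_subset_Iio (by omega))) htk hwJ (by
        calc (2 : ℝ) = 2 ^ 1 := (pow_one 2).symm
          _ ≤ 2 ^ u := p2 (by omega)) le_rfl hθ hTm₁ (hmono ((hCl l hl).trans (by omega))).1
      ((hmono ((hCl l hl).trans (by omega))).2.trans (p2 (by omega)))
      (fun s l => hball.degH s l) (fun s l => hball.depH s l) (fun ω hω i hi => by
        obtain ⟨h4, h5⟩ := hdif ω (hs ω hω) i (by omega)
        refine ⟨fun V => (h4 V).trans ?_, fun V V' Z => (h5 V V' Z).trans ?_⟩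
        · rw [hnrm (by omega)]
          exact mul_le_mul_of_nonneg_right (hdv i (by omega)) (nrm_nonneg _ _ _ _ _ _ _)
        · rw [hnrm (by omega), hnrm (by omega), hnrz (by omega)]
          exact mul_le_mul_of_nonneg_right (hdv i (by omega)) (add_nonneg
            (mul_nonneg (nrm_nonneg _ _ _ _ _ _ _) (nrm_nonneg _ _ _ _ _ _ _))
            (nrz_nonneg _ _ _ _ _ _ _ _ _))) (fun ω hω => by
        rw [hnrm hl, nrm_en]
        refine ((E.bdG hk hpp hgc (hs ω hω)).2 l (by omega)).trans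
          (mul_le_mul_of_nonneg_right ?_ (by positivity))
        have h6 : (l : ℝ) ≤ r := by exact_mod_cast hl.trans hnr
        have h7 := mul_le_mul_of_nonneg_right h6 (show (0 : ℝ) ≤ 2 ^ cl by positivity)
        have h8 := one_r r cl
        exact (by linarith : (1 : ℝ) + l * 2 ^ cl ≤ 2 ^ (r + cl)).trans (p2 (by omega)))
      (fun ω hω i hi V => by
        have h4 := E.hG hk hpp hgc (hs ω hω) (show i ≤ r by omega) V
        rw [hnrm (by omega), nrm_en]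
        refine h4.trans (mul_le_mul_of_nonneg_right ?_ (en_nonneg _ _ _ _ _ _))
        have h5 := mul_le_mul_of_nonneg_right (hdv i (show 2 * cl + r ≤ u by omega))
          (show (0 : ℝ) ≤ 2 ^ w k by positivity)
        calc (2 : ℝ) ^ (2 * cl + r) * 2 ^ w k / 2 ^ g₀ k i =
              2 ^ (2 * cl + r) / 2 ^ g₀ k i * 2 ^ w k := by ring
          _ ≤ 2 ^ u / 2 ^ g' i * 2 ^ w k := h5
          _ = _ := by ring) (fun s j => hdeg s l j) (fun ω hω V hV => by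
        have h4 := hspa ω (hs ω hω) l hl V hV
        unfold gG at h4
        rw [cv_grd] at h4
        rw [hnrm hl, nrm_en]
        refine h4.trans (mul_le_mul_of_nonneg_right (div_le_div_of_nonneg_right
          (p2 (by omega)) (by positivity)) (en_nonneg _ _ _ _ _ _)))
    refine ⟨B', b1, b2, fun ω hω V hV => ?_⟩
    have h4 := b3 ω hω V hV
    rw [hnrm hl, nrm_en] at h4
    refine h4.trans (mul_le_mul_of_nonneg_left (mul_le_mul_of_nonneg_right
      (div_le_div_of_nonneg_right (p2 (Nat.mul_le_mul_right _ (hCl l hl))) (by positivity))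
      (en_nonneg _ _ _ _ _ _)) (by positivity))
  -- all the places
  have hall : ∀ L ≤ n + 1, ∃ B₁ : F.Ω → Prop, Sub B₁ B ∧ Pe F.p B ≤ 2 ^ L * Pe F.p B₁ ∧
      ∀ l < L, ∀ ω, B₁ ω → ∀ V : Option (Fin m) → ℝ, V none = 0 →
      |∑ j ∈ range l, (Polynomial.derivative (lam (slam F t ω) l j)).eval (rt F t ω) *
        V (some (c j))| ≤ 2 ^ (w k - t) * (2 ^ (C₄ * (u + 1)) / 2 ^ g' l *
          en c (g₀ k) (w k) (gG G ω k) l V) := by
    intro L
    induction L with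
    | zero => exact fun _ => ⟨B, fun ω hω => hω, by rw [pow_zero, one_mul], fun l hl =>
        absurd hl (Nat.not_lt_zero l)⟩
    | succ L ih =>
      intro hL
      obtain ⟨B₁, b1, b2, b3⟩ := ih (by omega)
      have hB₁ : 0 < Pe F.p B₁ := by
        by_contra hcon
        have : (2 : ℝ) ^ L * Pe F.p B₁ ≤ 0 :=
          mul_nonpos_of_nonneg_of_nonpos (by positivity) (not_lt.1 hcon)
        linarith
      obtain ⟨B₂, c1, c2, c3⟩ := hone L (by omega) B₁ b1 hB₁ (hTm B₁ hB₁ b1 (b2.trans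
        (mul_le_mul_of_nonneg_right (p2 (by omega)) hB₁.le)))
      refine ⟨B₂, fun ω hω => b1 ω (c1 ω hω), ?_, fun l hl ω hω => ?_⟩
      · rw [pow_succ]
        have : (2 : ℝ) ^ L * Pe F.p B₁ ≤ 2 ^ L * (2 * Pe F.p B₂) :=
          mul_le_mul_of_nonneg_left (by linarith) (by positivity)
        linarith
      · rcases Nat.lt_succ_iff_lt_or_eq.1 hl with h1 | h1
        · exact b3 l h1 ω (c1 ω hω)
        · rw [h1]
          exact c3 ω hω
  obtain ⟨B₁, b1, b2, b3⟩ := hall (n + 1) le_rfl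
  have hB₁ : 0 < Pe F.p B₁ := by
    by_contra hcon
    have : (2 : ℝ) ^ (n + 1) * Pe F.p B₁ ≤ 0 :=
      mul_nonpos_of_nonneg_of_nonpos (by positivity) (not_lt.1 hcon)
    linarith
  -- the rounded point
  have hnb : ∀ ω, B ω → Nc c (g₀ k) (w k) (r + 1) 1 (gG G ω k) (gpt F (G k) (ptr F J ω)) :=
    fun ω hω => hrnd hc hball (fun l hl => by
      have a1 := E.room k hk l (by omega)
      have a2 := E.ng k hk l (by omega)
      omega) ω hω
  have hge : ∀ ω, B ω → ∀ l ≤ n, ∀ V : Option (Fin m) → ℝ,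
      en c (g₀ k) (w k) (gG G ω k) l V ≤ 2 ^ (r + 1) *
        en c (g₀ k) (w k) (gpt F (G k) (ptr F J ω)) l V := fun ω hω l hl V => by
    have h4 := (hnb ω hω).en_ge zero_le_one (show l ≤ r + 1 by omega) V
    rw [show (1 : ℝ) + 1 = 2 by norm_num] at h4
    exact h4
  obtain ⟨U, hU⟩ : ∃ U, U = S * q := ⟨_, rfl⟩
  have e0 : U = C₄ * (R * q) + C₄ * q + R * q + n * q + 3 * q := by
    rw [hU, hS]
    ring
  have hq1 : 1 ≤ q := by omega
  have e1 : C₄ * (u + 1) ≤ C₄ * (R * q) + C₄ * q := by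
    rw [hu]
    nlinarith
  have e2 : R * q = 2 * (r * q) + 4 * q := by rw [hR]; ring
  have e3 : r ≤ r * q := Nat.le_mul_of_pos_right _ (by omega)
  have hUr : C₄ * (u + 1) + (r + 1) ≤ U := by omega
  have hUx : X + (r + 2) ≤ U := by omega
  have hUc : cl + (r + 2) ≤ U := by omega
  have hcU : cl ≤ U := by omega
  -- the tower at the own times
  have hlΓ : ∀ ω, B ω → ∀ l ≤ n, ∀ j < l, |gpt F (G k) (ptr F J ω) l (some (c j))| ≤
      2 ^ ((eL + (r + 1)) + nlp (g₀ k) j l) := by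
    intro ω hω l hl j hj
    have hcl' : Set.InjOn c (Set.Iio l) := hc.mono (Set.Iio_subset_Iio (by omega))
    have h4 := coe_near (r := l) hcl' (g := g₀ k) (e := eL) (χ := gG G ω k)
      (fun j => cvc_grd (hball.depG _ j) _)
      (fun l' hl' j hj => hlip ω hω l' (hl'.trans hl) j hj) (X := 1) zero_le_one
      (ψ := gpt F (G k) (ptr F J ω) l) (fun V h0' => by
        have h5 := hnb ω hω l (by omega) V
        rw [en_sz _ _ _ _ _ h0'] at h5
        exact h5) hj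
    refine h4.trans ?_
    have h6 : (1 : ℝ) + 1 * l ≤ 2 ^ (r + 1) := by
      have h7 : l + 1 ≤ 2 ^ (r + 1) := (by omega : l + 1 ≤ r + 1).trans Nat.lt_two_pow_self.le
      have h8 : ((l + 1 : ℕ) : ℝ) ≤ ((2 ^ (r + 1) : ℕ) : ℝ) := by exact_mod_cast h7
      push_cast at h8
      linarith
    refine (mul_le_mul_of_nonneg_right h6 (by positivity)).trans ?_
    rw [← pow_add]
    exact p2 (by omega)
  have hAf : AfO F c (n + 1) D₁ t (w k) (eL + (r + 1)) g' (2 ^ U) B₁ (gpt F (G k)) lam :=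
    { dep := fun y l => cvc_grd (hball.depG y l) _
      deg := hdeg
      lip := fun ω hω l hl j hj => (hlΓ ω (b1 ω hω) l (by omega) j hj).trans (p2 (by
        have h4 : nlp (g₀ k) j l ≤ nlp g' j l := by
          rw [hg']
          exact nlp_lwr (by omega)
        omega))
      vel := fun ω hω l hl => by
        obtain ⟨h4, h5⟩ := E.bdG hk hpp hgc (b1 ω hω)
        have h6 := hnb ω (b1 ω hω) l (by omega) (bd F ω)
        have h7 := h5 l (by omega)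
        have h8 : (1 : ℝ) + l * 2 ^ cl ≤ 2 ^ (r + cl) := by
          have h6 : (l : ℝ) ≤ r := by exact_mod_cast (by omega : l ≤ r)
          have h7 := mul_le_mul_of_nonneg_right h6 (show (0 : ℝ) ≤ 2 ^ cl by positivity)
          have h8 := one_r r cl
          linarith
        have e1 : bd F ω (some (c l)) - cv (gpt F (G k) (ptr F J ω) l) (bd F ω) =
            (bd F ω (some (c l)) - cv (gG G ω k l) (bd F ω)) -
            cv (gpt F (G k) (ptr F J ω) l - gG G ω k l) (bd F ω) := by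
          rw [cv_subl]
          ring
        rw [e1]
        refine (abs_sub _ _).trans ((add_le_add (h4 l (by omega)) (h6.trans
          (mul_le_mul_of_nonneg_left (h7.trans (mul_le_mul_of_nonneg_right h8
            (by positivity))) (by positivity)))).trans ?_)
        have h9 : (2 : ℝ) ^ cl + 2 ^ (r + cl) ≤ 2 ^ U := by
          have i1 : (2 : ℝ) ^ cl ≤ 2 ^ (r + cl) := p2 (by omega)
          have i2 : (2 : ℝ) ^ (r + cl + 1) ≤ 2 ^ U := p2 (by omega)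
          rw [pow_succ] at i2
          linarith
        have h10 := hdv l (le_refl U)
        calc (2 : ℝ) ^ cl * 2 ^ w k / 2 ^ g₀ k l + 1 / 2 ^ g₀ k l * (2 ^ (r + cl) * 2 ^ w k) =
              (2 ^ cl + 2 ^ (r + cl)) * (2 ^ w k / 2 ^ g₀ k l) := by ring
          _ ≤ 2 ^ U * (2 ^ w k / 2 ^ g₀ k l) := mul_le_mul_of_nonneg_right h9 (by positivity)
          _ = 2 ^ U / 2 ^ g₀ k l * 2 ^ w k := by ring
          _ ≤ 2 ^ U / 2 ^ g' l * 2 ^ w k := mul_le_mul_of_nonneg_right h10 (by positivity)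
          _ = _ := by ring
      spa := fun ω hω l hl V hV => by
        have h4 := hspa ω (b1 ω hω) l (by omega) V hV
        have h5 := hnb ω (b1 ω hω) l (by omega) V
        have h6 := hge ω (b1 ω hω) l (by omega) V
        have n0 := en_nonneg c (g₀ k) (w k) (gG G ω k) l V
        have n1 := en_nonneg c (g₀ k) (w k) (gpt F (G k) (ptr F J ω)) l V
        rw [hen (by omega)]
        have e1 : ∑ j ∈ range l, (lam (slam F t ω) l j).eval (rt F t ω) * V (some (c j)) -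
            cv (gpt F (G k) (ptr F J ω) l) V =
            (∑ j ∈ range l, (lam (slam F t ω) l j).eval (rt F t ω) * V (some (c j)) -
            cv (gG G ω k l) V) - cv (gpt F (G k) (ptr F J ω) l - gG G ω k l) V := by
          rw [cv_subl]
          ring
        rw [e1]
        have h7 : (1 : ℝ) / 2 ^ g₀ k l ≤ 2 ^ X / 2 ^ g' l := by
          have := hdv l (Nat.zero_le X)
          rwa [pow_zero] at this
        refine (abs_sub _ _).trans ((add_le_add h4 (h5.trans (mul_le_mul_of_nonneg_right h7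
          n0))).trans ?_)
        have h8 : (2 : ℝ) * 2 ^ X * 2 ^ (r + 1) ≤ 2 ^ U := by
          have i2 : (2 : ℝ) ^ (X + (r + 1) + 1) ≤ 2 ^ U := p2 (by omega)
          rw [pow_succ, pow_add] at i2
          linarith
        calc 2 ^ X / 2 ^ g' l * en c (g₀ k) (w k) (gG G ω k) l V +
              2 ^ X / 2 ^ g' l * en c (g₀ k) (w k) (gG G ω k) l V =
              2 * 2 ^ X / 2 ^ g' l * en c (g₀ k) (w k) (gG G ω k) l V := by ring
          _ ≤ 2 * 2 ^ X / 2 ^ g' l * (2 ^ (r + 1) *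
                en c (g₀ k) (w k) (gpt F (G k) (ptr F J ω)) l V) :=
              mul_le_mul_of_nonneg_left h6 (by positivity)
          _ = 2 * 2 ^ X * 2 ^ (r + 1) / 2 ^ g' l *
                en c (g₀ k) (w k) (gpt F (G k) (ptr F J ω)) l V := by ring
          _ ≤ _ := mul_le_mul_of_nonneg_right (div_le_div_of_nonneg_right h8 (by positivity)) n1
      der := fun ω hω l hl V hV => by
        have h4 := b3 l hl ω hω V hV
        have h6 := hge ω (b1 ω hω) l (by omega) V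
        have n1 := en_nonneg c (g₀ k) (w k) (gpt F (G k) (ptr F J ω)) l V
        rw [hen (by omega)]
        refine h4.trans ?_
        have h8 : (2 : ℝ) ^ (C₄ * (u + 1)) * 2 ^ (r + 1) ≤ 2 ^ U := by
          rw [← pow_add]
          exact p2 hUr
        calc 2 ^ (w k - t) * (2 ^ (C₄ * (u + 1)) / 2 ^ g' l *
              en c (g₀ k) (w k) (gG G ω k) l V) ≤
              2 ^ (w k - t) * (2 ^ (C₄ * (u + 1)) / 2 ^ g' l * (2 ^ (r + 1) *
                en c (g₀ k) (w k) (gpt F (G k) (ptr F J ω)) l V)) :=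
              mul_le_mul_of_nonneg_left (mul_le_mul_of_nonneg_left h6 (by positivity))
                (by positivity)
          _ = (2 ^ (C₄ * (u + 1)) * 2 ^ (r + 1)) * (2 ^ (w k - t) / 2 ^ g' l *
                en c (g₀ k) (w k) (gpt F (G k) (ptr F J ω)) l V) := by ring
          _ ≤ 2 ^ U * (2 ^ (w k - t) / 2 ^ g' l *
                en c (g₀ k) (w k) (gpt F (G k) (ptr F J ω)) l V) :=
              mul_le_mul_of_nonneg_right h8 (by positivity)
          _ = _ := by ring }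
  -- the tower on the window
  obtain ⟨B₂, c1, c2, c3⟩ := hafo (k := U) hB₁ (hc.mono (Set.Iio_subset_Iio (by omega))) htk hwJ
    hθ (hTm B₁ hB₁ b1 b2) (by
      have h4 := (hmono hC2C).1
      have h5 : (t : ℝ) ≤ w k := by exact_mod_cast htk
      have h6 : 0 < Real.log 2 := Real.log_pos (by norm_num)
      have h7 : ((J : ℝ) - w k) * Real.log 2 ≤ ((J : ℝ) - t) * Real.log 2 :=
        mul_le_mul_of_nonneg_right (by linarith) h6.le
      linarith) ((hmono hC2C).2.trans (p2 hcU)) hAf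
  refine ⟨B₂, fun ω hω => b1 ω (c1 ω hω), ?_, ?_⟩
  · have : (2 : ℝ) ^ (n + 1) * Pe F.p B₁ ≤ 2 ^ (n + 1) * (2 * Pe F.p B₂) :=
      mul_le_mul_of_nonneg_left (by linarith) (by positivity)
    calc Pe F.p B ≤ 2 ^ (n + 1) * (2 * Pe F.p B₂) := b2.trans this
      _ = _ := by ring
  · refine afd_mono c3 (p2 ?_)
    rw [← hq, hC, hU]
    nlinarith [Nat.zero_le (C₂ * (S * q)), Nat.zero_le (C₄ * q), Nat.zero_le (C₃ * q)]

/-- **The end for a place of the list.** -/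
theorem thin_genL (m D D₁ r n : ℕ) (hD : 1 ≤ D) (hnr : n ≤ r) : ∃ C : ℕ, 1 ≤ C ∧
    ∀ {θ : ℝ} {S : PCl m} {P : List (Fin m) × Fin m → ℝ → ℝ → ℝ} (_ : ThrOf (chsys m θ) S P)
    (_ : TmH S) (c : ℕ → Fin m) (_ : Set.InjOn c (Set.Iio (r + 1))) (a w' : ℚ)
    (b eb h' ε κ₀ : ℝ) (_ : 0 ≤ w') (_ : w' ≤ a) (_ : a ≤ 1) (_ : b < 1) (_ : eb < θ * w')
    (_ : 0 < h') (_ : bet P c n a w' + h' ≤ 1) (_ : 0 < ε) (_ : 0 < κ₀),
    Bas S (fun J F A₀ => ∀ {Dr N M A cl : ℕ} {Sc : ℕ → Prop} {w e h pp : ℕ → ℕ}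
      {z g gc gT g₀ : ℕ → ℕ → ℕ} {κ : ℝ} {B : F.Ω → Prop}
      {G : ℕ → PtT F → ℕ → MvPolynomial (Option (Fin m)) ℝ}
      {H : ℕ → LnT F → ℕ → MvPolynomial (Option (Fin m)) ℝ}
      {T : ℕ → PtT F → ℕ → MvPolynomial (Option (Fin m)) ℝ}
      {TH : ℕ → LnT F → ℕ → MvPolynomial (Option (Fin m)) ℝ}
      {Gt : ℕ → PtT F → MvPolynomial (Option (Fin m)) ℝ}
      {Ht : ℕ → LnT F → MvPolynomial (Option (Fin m)) ℝ},
      CEv F c r D Dr N M A cl Sc w e h pp z g gc gT g₀ κ B G H T TH Gt Ht → Sub B A₀ →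
      ε * J ≤ cl → C ≤ cl →
      ∀ {t k X dd eL : ℕ} {lam : LnT F → ℕ → ℕ → Polynomial ℝ}, k ≤ N → t ≤ w k →
      cl ≤ pp k → cl ≤ gc k r →
      (∀ ω, B ω → ∀ l ≤ n, ∀ j < l, |gG G ω k l (some (c j))| ≤ 2 ^ (eL + nlp (g₀ k) j l)) →
      (∀ s l j, (lam s l j).natDegree ≤ D₁) →
      (∀ ω, B ω → ∀ l ≤ n, ∀ V : Option (Fin m) → ℝ, V none = 0 →
        |∑ j ∈ range l, (lam (slam F t ω) l j).eval (rt F t ω) * V (some (c j)) -
          cv (gG G ω k l) V| ≤ 2 ^ (X + if l = n then dd else 0) / 2 ^ g₀ k l *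
            en c (g₀ k) (w k) (gG G ω k) l V) → (w k : ℝ) ≤ b * J →
      NumG n J t (w k) ⌊(a : ℝ) * J⌋₊ ⌊(w' : ℝ) * J⌋₊ ⌊eb * J⌋₊
        ⌊(bet P c n a w' + h') * J⌋₊ eL dd (C * (cl + X + 1)) (g₀ k) →
      Pe F.p B < κ₀ * Pe F.p A₀) := by
  classical
  obtain ⟨C₁, hC₁, hafd⟩ := thn_afdL m D D₁ r n hD hnr
  obtain ⟨C, hC⟩ : ∃ C, C = (n + 1) * (2 * C₁ + n + 3) + C₁ + r + n + 2 := ⟨_, rfl⟩
  refine ⟨C, by omega, ?_⟩
  intro θ S P hP hT c hc a w' b eb h' ε κ₀ hw0 hwa ha hb he hh h2 hε hκ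
  have hL2 : 0 < Real.log 2 := Real.log_pos (by norm_num)
  obtain ⟨δ, hδ, b3⟩ := aff_no hP c n D₁ (hc.mono (Set.Iio_subset_Iio (by omega))) a w' eb h' hw0
    hwa ha he hh h2
  obtain ⟨κ₁, hκ₁⟩ : ∃ κ₁ : ℝ, κ₁ = κ₀ / 2 ^ (n + 2) := ⟨_, rfl⟩
  have hκ₁0 : 0 < κ₁ := by rw [hκ₁]; positivity
  obtain ⟨μ, hμ⟩ : ∃ μ : ℝ, μ = min ε (1 - b) * Real.log 2 / 2 := ⟨_, rfl⟩
  have hμ0 : 0 < μ := by
    rw [hμ]
    have : 0 < min ε (1 - b) := lt_min hε (by linarith)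
    positivity
  have hCM0 : (0 : ℝ) < C₁ := by
    have : (1 : ℝ) ≤ C₁ := by exact_mod_cast hC₁
    linarith
  obtain ⟨ε₁, hε₁⟩ : ∃ ε₁ : ℝ, ε₁ = μ / C₁ := ⟨_, rfl⟩
  have hε₁0 : 0 < ε₁ := by rw [hε₁]; positivity
  have htm := bas_ev (hT.2 ε₁ hε₁0) hκ₁0
  have hpos : Bas S (fun _ F A => 0 < Pe F.p A) := ⟨1, one_pos, 0, fun J _ F A hA =>
    hT.1 1 J F A hA⟩
  obtain ⟨J₁, hJ₁⟩ := exists_nat_ge (C₁ / μ)
  obtain ⟨J₂, hJ₂⟩ := exists_nat_ge (-Real.log (κ₁ / 2) / δ)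
  refine Bas.mono (max J₁ J₂) ((b3.and htm).and hpos) ?_
  rintro J hJ F A₀ ⟨⟨haA, htA⟩, hA0⟩
  intro Dr N M A cl Sc w e h pp z g gc gT g₀ κ B G H T TH Gt Ht E hBA hεc hCc t k X dd eL lam hk
    htk hpp hgc hlip hdeg hspa hKb nu
  by_contra hcon
  rw [not_lt] at hcon
  have hB0 : 0 < Pe F.p B := (mul_pos hκ hA0).trans_le hcon
  have hJ0 : (0 : ℝ) ≤ J := Nat.cast_nonneg J
  have hJ1 : (C₁ : ℝ) ≤ μ * J := by
    have h2 : (J₁ : ℝ) ≤ J := by exact_mod_cast (le_max_left _ _).trans hJ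
    have h3 := hJ₁.trans h2
    rw [div_le_iff₀ hμ0] at h3
    linarith
  have hJ2 : Real.exp (-(δ * J)) ≤ κ₁ / 2 := by
    have h2 : (J₂ : ℝ) ≤ J := by exact_mod_cast (le_max_right _ _).trans hJ
    have h3 := hJ₂.trans h2
    rw [div_le_iff₀ hδ] at h3
    have h4 : -(δ * (J : ℝ)) ≤ Real.log (κ₁ / 2) := by linarith
    exact (Real.exp_le_exp.2 h4).trans (Real.exp_log (by positivity)).le
  have hmain : (C₁ : ℝ) * (ε₁ * J + 1) ≤ min ε (1 - b) * Real.log 2 * J := by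
    have e1 : (C₁ : ℝ) * (ε₁ * J) = μ * J := by rw [hε₁]; field_simp
    have e2 : 2 * (μ * J) = min ε (1 - b) * Real.log 2 * J := by rw [hμ]; ring
    rw [mul_add, mul_one, e1]
    linarith
  have hm1 : (C₁ : ℝ) * (ε₁ * J + 1) ≤ cl * Real.log 2 := by
    refine hmain.trans ?_
    have e1 : min ε (1 - b) * Real.log 2 * J ≤ ε * Real.log 2 * J :=
      mul_le_mul_of_nonneg_right (mul_le_mul_of_nonneg_right (min_le_left _ _) hL2.le) hJ0
    have e2 := mul_le_mul_of_nonneg_right hεc hL2.le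
    linarith
  have hm2 : (C₁ : ℝ) * (ε₁ * J + 1) ≤ ((J : ℝ) - w k) * Real.log 2 := by
    refine hmain.trans ?_
    have e1 : min ε (1 - b) * Real.log 2 * J ≤ (1 - b) * Real.log 2 * J :=
      mul_le_mul_of_nonneg_right (mul_le_mul_of_nonneg_right (min_le_right _ _) hL2.le) hJ0
    have e3 := mul_le_mul_of_nonneg_right hKb hL2.le
    linarith
  have hexp : Real.exp (C₁ * (ε₁ * J + 1)) ≤ 2 ^ cl := by
    have e2 : Real.exp (C₁ * (ε₁ * J + 1)) ≤ Real.exp (cl * Real.log 2) :=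
      Real.exp_le_exp.2 hm1
    rwa [mul_comm (cl : ℝ), ← Real.rpow_def_of_pos (by norm_num), Real.rpow_natCast] at e2
  have hκB : ∀ {B' : F.Ω → Prop}, Pe F.p B ≤ 2 ^ (n + 2) * Pe F.p B' →
      κ₁ * Pe F.p A₀ ≤ Pe F.p B' := fun {B'} h3 => by
    rw [hκ₁, div_mul_eq_mul_div, div_le_iff₀ (by positivity)]
    linarith
  have hdd : dd ≤ g₀ k n := by
    have := nu.n5
    omega
  obtain ⟨B', c1, c2, hAf⟩ := hafd E (by omega) hB0 (t := t) (k := k) (X := X) (dd := dd)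
    (eL := eL) (lam := lam) (θ := ε₁ * J) hk htk hpp hgc hdd hlip hdeg (fun ω hω l hl V hV => by
      refine (hspa ω hω l hl V hV).trans (le_of_eq ?_)
      congr 1
      unfold lwr
      split_ifs with h4
      · rw [h4, div_eq_div_iff (by positivity) (by positivity), ← pow_add, ← pow_add]
        congr 1
        omega
      · rw [add_zero]) (by positivity) (fun B' hB' s1 s2 =>
    htA B' (fun ω hω => hBA ω (s1 ω hω)) (hκB (s2.trans (mul_le_mul_of_nonneg_right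
      (p2 (by omega)) hB'.le))) hB') hm2 hexp
  -- the numbers
  obtain ⟨u, hu⟩ : ∃ u, u = C₁ * (cl + X + 1) := ⟨_, rfl⟩
  obtain ⟨x, hx⟩ : ∃ x, x = 2 * u + n + 3 := ⟨_, rfl⟩
  obtain ⟨q, hq⟩ : ∃ q, q = cl + X + 1 := ⟨_, rfl⟩
  obtain ⟨Q, hQ⟩ : ∃ Q, Q = C * (cl + X + 1) := ⟨_, rfl⟩
  rw [← hQ] at nu
  have hq1 : 1 ≤ q := by omega
  have hCx : (n + 1) * x + u + r + n + 2 ≤ Q := by
    rw [← hq] at hu hQ
    have e1 : x ≤ (2 * C₁ + n + 3) * q := by
      rw [hx, hu]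
      nlinarith [Nat.le_mul_of_pos_right n hq1]
    have e2 := Nat.mul_le_mul_left (n + 1) e1
    have e3 : Q = (n + 1) * ((2 * C₁ + n + 3) * q) + C₁ * q + (r + n + 2) * q := by
      rw [hQ, hC]
      ring
    have e4 : r + n + 2 ≤ (r + n + 2) * q := Nat.le_mul_of_pos_right _ hq1
    rw [e3, hu]
    omega
  rw [← hu] at hAf
  have hlx : ∀ l < n + 1, (l + 1) * x ≤ (n + 1) * x := fun l hl =>
    Nat.mul_le_mul_right _ (by omega)
  have hfin := haA (w k) t (eL + (r + 1)) x (lwr (g₀ k) n dd) (2 ^ u) _ _ B' htk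
    nu.K1 nu.t1 (by
      have := nu.n1
      omega) (fun l hl => by
      have h4 := nu.n2 l (by omega)
      have h5 := lwr_le (g₀ k) n dd l
      omega) (by positivity) (num_end hx) (fun l hl => by
      have h6 := hlx l hl
      rcases Nat.lt_succ_iff_lt_or_eq.1 hl with h5 | h5
      · have := nu.n4 l h5
        rw [lwr_lt h5]
        omega
      · have := nu.n5
        rw [h5] at h6 ⊢
        rw [lwr_eq]
        omega) (by
      have := nu.n6
      have := nu.n5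
      rw [lwr_eq]
      omega) (fun ω hω => hBA ω (c1 ω hω)) hAf
  have h9 := hκB c2
  have h10 : Real.exp (-(δ * J)) * Pe F.p A₀ ≤ κ₁ / 2 * Pe F.p A₀ :=
    mul_le_mul_of_nonneg_right hJ2 hA0.le
  have h11 : 0 < κ₁ * Pe F.p A₀ := mul_pos hκ₁0 hA0
  linarith

/-- **The end for a thin place** `n`: `n = 1`, or `n = 2` over the static place `1`. -/
theorem thin_endL (m D D₁ r n : ℕ) (hD : 1 ≤ D) (hnr : n ≤ r) (hn : n = 1 ∨ n = 2) :
    ∃ C : ℕ, 1 ≤ C ∧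
    ∀ {θ : ℝ} {S : PCl m} {P : List (Fin m) × Fin m → ℝ → ℝ → ℝ} (_ : ThrOf (chsys m θ) S P)
    (_ : TmH S) (c : ℕ → Fin m) (_ : Set.InjOn c (Set.Iio (r + 1))) (a w' : ℚ)
    (b eb h' ε κ₀ : ℝ) (_ : 0 ≤ w') (_ : w' ≤ a) (_ : a ≤ 1) (_ : b < 1) (_ : eb < θ * w')
    (_ : 0 < h') (_ : bet P c n a w' + h' ≤ 1) (_ : 0 < ε) (_ : 0 < κ₀),
    Bas S (fun J F A₀ => ∀ {Dr N M A cl : ℕ} {Sc : ℕ → Prop} {w e h pp : ℕ → ℕ}
      {z g gc gT g₀ : ℕ → ℕ → ℕ} {κ : ℝ} {B : F.Ω → Prop}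
      {G : ℕ → PtT F → ℕ → MvPolynomial (Option (Fin m)) ℝ}
      {H : ℕ → LnT F → ℕ → MvPolynomial (Option (Fin m)) ℝ}
      {T : ℕ → PtT F → ℕ → MvPolynomial (Option (Fin m)) ℝ}
      {TH : ℕ → LnT F → ℕ → MvPolynomial (Option (Fin m)) ℝ}
      {Gt : ℕ → PtT F → MvPolynomial (Option (Fin m)) ℝ}
      {Ht : ℕ → LnT F → MvPolynomial (Option (Fin m)) ℝ},
      CEv F c r D Dr N M A cl Sc w e h pp z g gc gT g₀ κ B G H T TH Gt Ht → Sub B A₀ →
      ε * J ≤ cl → C ≤ cl →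
      ∀ {i₀ t k X dd eL : ℕ} {lam : LnT F → ℕ → Polynomial ℝ}, t ≤ N → k ≤ N → w t ≤ w k →
      cl ≤ pp k → cl ≤ gc k r → ¬ Sc 0 →
      (∀ ω, B ω → ∀ l ≤ n, ∀ j < l, |gG G ω k l (some (c j))| ≤ 2 ^ (eL + nlp (g₀ k) j l)) →
      (n = 2 → i₀ ≤ N ∧ w i₀ ≤ w t ∧ cl ≤ gT i₀ 1 ∧ cl ≤ gc k 1 ∧
        g₀ k 1 + (A - w k) ≤ gT i₀ 1 + X) →
      (∀ s j, (lam s j).natDegree ≤ D₁) →
      (∀ ω, B ω → ∀ V : Option (Fin m) → ℝ, V none = 0 →
        |∑ j ∈ range n, (lam (slam F (w t) ω) j).eval (rt F (w t) ω) * V (some (c j)) -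
          cv (gG G ω k n) V| ≤ 2 ^ (X + dd) / 2 ^ g₀ k n *
            en c (g₀ k) (w k) (gG G ω k) n V) → (w k : ℝ) ≤ b * J →
      NumG n J (w t) (w k) ⌊(a : ℝ) * J⌋₊ ⌊(w' : ℝ) * J⌋₊ ⌊eb * J⌋₊
        ⌊(bet P c n a w' + h') * J⌋₊ eL dd (C * (cl + X + 1)) (g₀ k) →
      Pe F.p B < κ₀ * Pe F.p A₀) := by
  classical
  obtain ⟨C₁, hC₁, hgen⟩ := thin_genL m D (D + D₁) r n hD hnr
  obtain ⟨C, hC⟩ : ∃ C, C = 10 * C₁ := ⟨_, rfl⟩
  refine ⟨C, by omega, ?_⟩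
  intro θ S P hP hT c hc a w' b eb h' ε κ₀ hw0 hwa ha hb he hh h2 hε hκ
  refine Bas.mono 0 (hgen hP hT c hc a w' b eb h' ε κ₀ hw0 hwa ha hb he hh h2 hε hκ) ?_
  rintro J - F A₀ hA
  intro Dr N M A cl Sc w e h pp z g gc gT g₀ κ B G H T TH Gt Ht E hBA hεc hCc i₀ t k X dd eL lam
    ht hk htk hpp hgc hs0 hlip hn2 hdeg hspa hKb nu
  have hc1 : Set.InjOn c (Set.Iio 0) := hc.mono (Set.Iio_subset_Iio (by omega))
  have hX : C₁ * (cl + (7 * cl + X + 1) + 1) ≤ C * (cl + X + 1) := by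
    rw [hC]
    nlinarith [Nat.zero_le (C₁ * cl), Nat.zero_le (C₁ * X)]
  refine hA E hBA hεc (by omega) (t := w t) (k := k) (X := 7 * cl + X + 1) (dd := dd) (eL := eL)
    (lam := fun s l j => if l = n then lam s j else if l = 1 then
      kpol c (w t) (ltr (TH i₀) (w t - w i₀) 1) s j else 0) hk htk hpp hgc hlip ?_ ?_ hKb ?_
  · intro s l j
    show (if l = n then lam s j else if l = 1 then
      kpol c (w t) (ltr (TH i₀) (w t - w i₀) 1) s j else 0).natDegree ≤ D + D₁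
    split_ifs with k1 k2
    · exact (hdeg s j).trans (Nat.le_add_left _ _)
    · rcases hn with h4 | h4
      · exact absurd (k2.trans h4.symm) k1
      · exact (kpol_deg c (w t) (fun s => (E.evs i₀ (hn2 h4).1).thin.degH _ 1) s j).trans
          (Nat.le_add_right _ _)
    · rw [Polynomial.natDegree_zero]
      exact Nat.zero_le _
  · intro ω hω l hl V hV
    rcases eq_or_ne l n with h4 | h4
    · subst h4
      simp only [if_true]
      refine (hspa ω hω V hV).trans (mul_le_mul_of_nonneg_right (div_le_div_of_nonneg_right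
        (p2 (by omega)) (by positivity)) (en_nonneg _ _ _ _ _ _))
    · simp only [if_neg h4, add_zero]
      rcases Nat.eq_zero_or_pos l with h5 | h5
      · subst h5
        have h7 : CvC c 0 (gG G ω k 0) := cvc_grd ((E.evs k hk).ball.depG _ 0) _
        have h6 : cv (gG G ω k 0) V = 0 := by
          rw [cv_eq hc1 h7, hV, mul_zero, Finset.sum_range_zero, add_zero]
        rw [Finset.sum_range_zero, h6, sub_zero, abs_zero]
        exact mul_nonneg (by positivity) (en_nonneg _ _ _ _ _ _)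
      · have h6 : l = 1 := by omega
        subst h6
        obtain ⟨m2, m3, m4, m5, m6⟩ := hn2 (by omega)
        simp only [if_true]
        exact E.row1 (by omega) m2 ht hk m3 htk hs0 m4 m5 m6 hω hV
  · exact
      { K1 := nu.K1
        t1 := nu.t1
        n1 := by have := nu.n1; omega
        n2 := fun l hl => by have := nu.n2 l hl; omega
        n4 := fun l hl => hX.trans (nu.n4 l hl)
        n5 := by have := nu.n5; omega
        n6 := by have := nu.n6; omega }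

end Pool.TN
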