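import Pool.Agent.H23.D2.Crc
import Pool.Agent.H23.D2.Thq

/-!
# The critical slope, with a free exponent

`st_bigL`, `ts_bigL`, `st_critL`, `ts_critL`: as `st_big`, `ts_big`, `st_crit`, `ts_crit`, the exponent
`e k` of the window `k` is replaced by a bound `eL` of the gradients of the ball charts of the places
of the list (`hlip`), and the threshold structure `P'`, `θ'` of the thin place is another one than
that of the target.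
-/

set_option autoImplicit false

namespace Pool.TNW

open Finset Real MvPolynomial
open Pool.Agent.H49.Ent Pool.Agent.H32.Dense Pool.STK Pool.KA Pool.KSAT Pool.K2S Pool.PB Pool.S6C
open Pool.GEN Pool.CHT Pool.CHX Pool.ISO Pool.D2R Pool.D2Z Pool.D2F Pool.TN
open Pool.LBT (ThrOf)
open Pool.FLF (Fam.sub)
open Pool.PB.Trl (rt rt_mem t_rt)

variable {m J : ℕ}

/-- **The large case, static place one and thin place two.** -/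
theorem st_bigL (m D D₁ : ℕ) (hD : 1 ≤ D) : ∃ C : ℕ, 1 ≤ C ∧
    ∀ {θ : ℝ} {S : PCl m} {P : List (Fin m) × Fin m → ℝ → ℝ → ℝ} (_ : ThrOf (chsys m θ) S P)
    (_ : TmH S) (c : ℕ → Fin m) (_ : Set.InjOn c (Set.Iio (3 + 1))) (a w' : ℚ)
    (b eb h' ε κ₀ : ℝ) (_ : 0 ≤ w') (_ : w' ≤ a) (_ : a ≤ 1) (_ : b < 1) (_ : eb < θ * w')
    (_ : 0 < h') (_ : bet P c 2 a w' + h' ≤ 1) (_ : 0 < ε) (_ : 0 < κ₀),
    Bas S (fun J F A₀ => ∀ {Dr N M A cl : ℕ} {Sc : ℕ → Prop} {w e h pp : ℕ → ℕ}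
      {z g gc gT g₀ : ℕ → ℕ → ℕ} {κ : ℝ} {B : F.Ω → Prop}
      {G : ℕ → PtT F → ℕ → MvPolynomial (Option (Fin m)) ℝ}
      {H : ℕ → LnT F → ℕ → MvPolynomial (Option (Fin m)) ℝ}
      {T : ℕ → PtT F → ℕ → MvPolynomial (Option (Fin m)) ℝ}
      {TH : ℕ → LnT F → ℕ → MvPolynomial (Option (Fin m)) ℝ}
      {Gt : ℕ → PtT F → MvPolynomial (Option (Fin m)) ℝ}
      {Ht : ℕ → LnT F → MvPolynomial (Option (Fin m)) ℝ},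
      CEv F c 3 D Dr N M A cl Sc w e h pp z g gc gT g₀ κ B G H T TH Gt Ht → Sub B A₀ →
      ε * J ≤ cl → C ≤ cl → ¬ Sc 0 → Sc 1 → ¬ Sc 2 →
      ∀ {X Y f dd eL i i₁ t k p : ℕ} {mu mu₂ : LnT F → Polynomial ℝ},
      JNum N A cl X f dd w pp gc gT g₀ i i₁ t k p 2 1 →
      f + dd + C * (cl + X + 1) ≤ w t - w i₁ →
      (∀ s, (mu s).natDegree ≤ D₁) → (∀ s, (mu₂ s).natDegree ≤ D₁) →
      (∀ ω, B ω → |jA c Sc w G TH Ht i i₁ k 1 ω - (mu (slam F (w t) ω)).eval (rt F (w t) ω)| ≤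
        2 ^ Y * (2 ^ g₀ k 1 / 2 ^ g₀ k 3)) →
      (∀ ω, B ω → |gG G ω k 2 (some (c 1)) - (mu₂ (slam F (w t) ω)).eval (rt F (w t) ω)| ≤
        2 ^ Y * (2 ^ g₀ k 1 / 2 ^ g₀ k 2)) →
      (∀ ω, B ω → 2 ^ (w k + g₀ k 2) / 2 ^ (g₀ k 3 + dd) ≤ |jZ c Sc w G TH Ht i i₁ k 1 2 ω|) →
      (∀ ω, B ω → ∀ l ≤ 2, ∀ j < l, |gG G ω k l (some (c j))| ≤ 2 ^ (eL + nlp (g₀ k) j l)) →
      (w k : ℝ) ≤ b * J →
      NumG 2 J (w t) (w k) ⌊(a : ℝ) * J⌋₊ ⌊(w' : ℝ) * J⌋₊ ⌊eb * J⌋₊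
        ⌊(bet P c 2 a w' + h') * J⌋₊ eL dd (C * (cl + X + Y + 1)) (g₀ k) →
      Pe F.p B < κ₀ * Pe F.p A₀) := by
  classical
  obtain ⟨C₁, hC₁, hj⟩ := jcl_st_ev m D
  obtain ⟨C₂, hC₂, hend⟩ := thin_endL m D (D₁ + 4 * D) 3 2 hD (by norm_num) (Or.inr rfl)
  obtain ⟨C, hC⟩ : ∃ C, C = C₂ * (C₁ + 4) + 2 * C₁ := ⟨_, rfl⟩
  refine ⟨C, by omega, ?_⟩
  intro θ S P hP hT c hc a w' b eb h' ε κ₀ hw0 hwa ha hb he hh h2 hε hκ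
  have hL2 : 0 < Real.log 2 := Real.log_pos (by norm_num)
  obtain ⟨μ, hμ⟩ : ∃ μ : ℝ, μ = min ε (1 - b) * Real.log 2 / 2 := ⟨_, rfl⟩
  have hμ0 : 0 < μ := by
    rw [hμ]
    have : 0 < min ε (1 - b) := lt_min hε (by linarith)
    positivity
  have hC1R : (1 : ℝ) ≤ C₁ := by exact_mod_cast hC₁
  have hC10 : (0 : ℝ) < C₁ := by linarith
  obtain ⟨ε₁, hε₁⟩ : ∃ ε₁ : ℝ, ε₁ = μ / C₁ := ⟨_, rfl⟩
  have hε₁0 : 0 < ε₁ := by rw [hε₁]; positivity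
  have htm := bas_ev (hT.2 ε₁ hε₁0) (show 0 < κ₀ / 8 by positivity)
  have hpos : Bas S (fun _ F A => 0 < Pe F.p A) := ⟨1, one_pos, 0, fun J _ F A hA =>
    hT.1 1 J F A hA⟩
  obtain ⟨J₁, hJ₁⟩ := exists_nat_ge ((C₁ : ℝ) / μ)
  refine Bas.mono J₁ (((hend hP hT c hc a w' b eb h' ε (κ₀ / 8) hw0 hwa ha hb he hh h2 hε
    (by positivity)).and htm).and hpos) ?_
  rintro J hJ F A₀ ⟨⟨hA, htA⟩, hA0⟩
  intro Dr N M A cl Sc w e h pp z g gc gT g₀ κ B G H T TH Gt Ht E hBA hεc hCc hs0 hs1 hs2 X Y f dd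
    eL i i₁ t k p mu mu₂ n hfr hm1' hm2' hmu hmu2 hbig hlip hKb nu
  by_contra hcon
  rw [not_lt] at hcon
  have hB0 : 0 < Pe F.p B := (mul_pos hκ hA0).trans_le hcon
  have hJ0 : (0 : ℝ) ≤ J := Nat.cast_nonneg J
  have hJ1 : (C₁ : ℝ) ≤ μ * J := by
    have h2 : (J₁ : ℝ) ≤ J := by exact_mod_cast hJ
    have h3 := hJ₁.trans h2
    rw [div_le_iff₀ hμ0] at h3
    linarith
  have hθ0 : 0 ≤ ε₁ * J := by positivity
  have hmain : C₁ * (ε₁ * J + 1) ≤ min ε (1 - b) * Real.log 2 * J := by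
    have e1 : C₁ * (ε₁ * J) = μ * J := by rw [hε₁]; field_simp
    have e2 : 2 * (μ * J) = min ε (1 - b) * Real.log 2 * J := by rw [hμ]; ring
    rw [mul_add, mul_one, e1]
    linarith
  have hm1 : C₁ * (ε₁ * J + 1) ≤ cl * Real.log 2 := by
    refine hmain.trans ?_
    have e1 : min ε (1 - b) * Real.log 2 * J ≤ ε * Real.log 2 * J :=
      mul_le_mul_of_nonneg_right (mul_le_mul_of_nonneg_right (min_le_left _ _) hL2.le) hJ0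
    have e2 := mul_le_mul_of_nonneg_right hεc hL2.le
    linarith
  have hm2 : ∀ x, x ≤ w k → C₁ * (ε₁ * J + 1) ≤ ((J : ℝ) - x) * Real.log 2 := by
    intro x hx
    refine hmain.trans ?_
    have e1 : min ε (1 - b) * Real.log 2 * J ≤ (1 - b) * Real.log 2 * J :=
      mul_le_mul_of_nonneg_right (mul_le_mul_of_nonneg_right (min_le_right _ _) hL2.le) hJ0
    have e2 : (x : ℝ) ≤ b * J := le_trans (by exact_mod_cast hx) hKb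
    have e3 := mul_le_mul_of_nonneg_right e2 hL2.le
    linarith
  have hexp : Real.exp (C₁ * (ε₁ * J + 1)) ≤ 2 ^ cl := by
    have e2 : Real.exp (C₁ * (ε₁ * J + 1)) ≤ Real.exp (cl * Real.log 2) :=
      Real.exp_le_exp.2 hm1
    rw [mul_comm (cl : ℝ), ← Real.rpow_def_of_pos (by norm_num), Real.rpow_natCast] at e2
    exact e2
  obtain ⟨B', b1, b2, b3⟩ := hj E (Y := Y) (n := cl) hs0 hs1 hs2 n hB0 hθ0 (fun B' hB' s1 s2 =>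
    htA B' (fun ω hω => hBA ω (s1 ω hω)) (by linarith) hB') (hm2 _ (n.i1t.trans n.tk)) hexp (by
      have e1 : C₁ * (cl + X + cl + 1) ≤ 2 * (C₁ * (cl + X + 1)) := by nlinarith
      have e2 : C * (cl + X + 1) = C₂ * (C₁ + 4) * (cl + X + 1) + 2 * (C₁ * (cl + X + 1)) := by
        rw [hC]; ring
      omega) hmu hmu2 hbig
  have hE2 := E.sb (B' := B') (κ₁ := 1 / 2) (κ₂ := 2 * max κ 0) b1 (by linarith) (by positivity)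
    (by
      have := le_max_left κ 0
      linarith)
  have hX : C₂ * (cl + (C₁ * (cl + X + Y + 1) + 2 * X) + 1) ≤ C * (cl + X + Y + 1) := by
    have e1 : C * (cl + X + Y + 1) = C₂ * ((C₁ + 4) * (cl + X + Y + 1)) +
      2 * C₁ * (cl + X + Y + 1) := by rw [hC]; ring
    rw [e1]
    refine le_trans (Nat.mul_le_mul_left C₂ ?_) (Nat.le_add_right _ _)
    nlinarith
  have hfin := hA hE2 (fun ω hω => hBA ω (b1 ω hω)) hεc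
    (by
      have : C₂ ≤ C₂ * (C₁ + 4) := Nat.le_mul_of_pos_right C₂ (by omega)
      omega) (i₀ := i) (t := t)
    (k := k) (X := C₁ * (cl + X + Y + 1) + 2 * X) (dd := dd) (eL := eL)
    (lam := lamS c (w t) (fun s => Ht i₁ (co (w t - w i₁) s)) (Xcf w TH Sc i t) mu mu₂) n.tN n.kN
    n.tk n.pk n.ck hs0 (fun ω hω => hlip ω (b1 ω hω)) (fun _ => ⟨n.iN, n.it, (n.cT 1 (by norm_num)).1,
      (n.cT 1 (by norm_num)).2.2.2, by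
        have := n.m1
        have := n.lb
        omega⟩)
    (fun s j => lamS_deg c (w t) (fun s => (E.evs i₁ n.i1N).dH _) (fun s l => by
      unfold Xcf
      split_ifs
      · exact deg_TH E n.iN _ l
      · exact deg_TH E n.tN _ l) hm1' hm2' s j)
    (fun ω hω V hV => (b3 ω hω V hV).trans (mul_le_mul_of_nonneg_right
      (div_le_div_of_nonneg_right (p2 (by omega)) (by positivity)) (en_nonneg _ _ _ _ _ _))) hKb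
    { K1 := nu.K1
      t1 := nu.t1
      n1 := by have := nu.n1; omega
      n2 := fun l hl => by have := nu.n2 l hl; omega
      n4 := fun l hl => hX.trans (nu.n4 l hl)
      n5 := by have := nu.n5; omega
      n6 := by have := nu.n6; omega }
  linarith



/-- **The large case, thin place one and static place two.** -/
theorem ts_bigL (m D D₁ : ℕ) (hD : 1 ≤ D) : ∃ C : ℕ, 1 ≤ C ∧
    ∀ {θ : ℝ} {S : PCl m} {P : List (Fin m) × Fin m → ℝ → ℝ → ℝ} (_ : ThrOf (chsys m θ) S P)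
    (_ : TmH S) (c : ℕ → Fin m) (_ : Set.InjOn c (Set.Iio (3 + 1))) (a w' : ℚ)
    (b eb h' ε κ₀ : ℝ) (_ : 0 ≤ w') (_ : w' ≤ a) (_ : a ≤ 1) (_ : b < 1) (_ : eb < θ * w')
    (_ : 0 < h') (_ : bet P c 1 a w' + h' ≤ 1) (_ : 0 < ε) (_ : 0 < κ₀),
    Bas S (fun J F A₀ => ∀ {Dr N M A cl : ℕ} {Sc : ℕ → Prop} {w e h pp : ℕ → ℕ}
      {z g gc gT g₀ : ℕ → ℕ → ℕ} {κ : ℝ} {B : F.Ω → Prop}
      {G : ℕ → PtT F → ℕ → MvPolynomial (Option (Fin m)) ℝ}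
      {H : ℕ → LnT F → ℕ → MvPolynomial (Option (Fin m)) ℝ}
      {T : ℕ → PtT F → ℕ → MvPolynomial (Option (Fin m)) ℝ}
      {TH : ℕ → LnT F → ℕ → MvPolynomial (Option (Fin m)) ℝ}
      {Gt : ℕ → PtT F → MvPolynomial (Option (Fin m)) ℝ}
      {Ht : ℕ → LnT F → MvPolynomial (Option (Fin m)) ℝ},
      CEv F c 3 D Dr N M A cl Sc w e h pp z g gc gT g₀ κ B G H T TH Gt Ht → Sub B A₀ →
      ε * J ≤ cl → C ≤ cl → ¬ Sc 0 → ¬ Sc 1 → Sc 2 →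
      ∀ {X Y f dd eL y i i₁ t k p : ℕ} {mu : LnT F → Polynomial ℝ},
      JNum N A cl X f dd w pp gc gT g₀ i i₁ t k p 1 2 →
      JTs A cl X Y f dd y (C * (cl + X + 1)) w pp gc gT g₀ i i₁ t k →
      (∀ s, (mu s).natDegree ≤ D₁) →
      (∀ ω, B ω → |jA c Sc w G TH Ht i i₁ k 2 ω - (mu (slam F (w t) ω)).eval (rt F (w t) ω)| ≤
        2 ^ Y * (2 ^ g₀ k 2 / 2 ^ g₀ k 3)) →
      (∀ ω, B ω → 2 ^ (w k + g₀ k 1) / 2 ^ (g₀ k 3 + dd) ≤ |jZ c Sc w G TH Ht i i₁ k 2 1 ω|) →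
      (∀ ω, B ω → ∀ l ≤ 1, ∀ j < l, |gG G ω k l (some (c j))| ≤ 2 ^ (eL + nlp (g₀ k) j l)) →
      (w k : ℝ) ≤ b * J →
      NumG 1 J (w t) (w k) ⌊(a : ℝ) * J⌋₊ ⌊(w' : ℝ) * J⌋₊ ⌊eb * J⌋₊
        ⌊(bet P c 1 a w' + h') * J⌋₊ eL dd (C * (cl + X + Y + 1)) (g₀ k) →
      Pe F.p B < κ₀ * Pe F.p A₀) := by
  classical
  obtain ⟨C₁, hC₁, hj⟩ := jcl_ts_ev m D D₁
  obtain ⟨C₂, hC₂, hend⟩ := thin_endL m D (D₁ + 4 * D) 3 1 hD (by norm_num) (Or.inl rfl)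
  obtain ⟨C, hC⟩ : ∃ C, C = C₂ * (C₁ + 4) + 2 * C₁ := ⟨_, rfl⟩
  refine ⟨C, by omega, ?_⟩
  intro θ S P hP hT c hc a w' b eb h' ε κ₀ hw0 hwa ha hb he hh h2 hε hκ
  have hL2 : 0 < Real.log 2 := Real.log_pos (by norm_num)
  obtain ⟨μ, hμ⟩ : ∃ μ : ℝ, μ = min ε (1 - b) * Real.log 2 / 2 := ⟨_, rfl⟩
  have hμ0 : 0 < μ := by
    rw [hμ]
    have : 0 < min ε (1 - b) := lt_min hε (by linarith)
    positivity
  have hC1R : (1 : ℝ) ≤ C₁ := by exact_mod_cast hC₁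
  have hC10 : (0 : ℝ) < C₁ := by linarith
  obtain ⟨ε₁, hε₁⟩ : ∃ ε₁ : ℝ, ε₁ = μ / C₁ := ⟨_, rfl⟩
  have hε₁0 : 0 < ε₁ := by rw [hε₁]; positivity
  have htm := bas_ev (hT.2 ε₁ hε₁0) (show 0 < κ₀ / 8 by positivity)
  have hpos : Bas S (fun _ F A => 0 < Pe F.p A) := ⟨1, one_pos, 0, fun J _ F A hA =>
    hT.1 1 J F A hA⟩
  obtain ⟨J₁, hJ₁⟩ := exists_nat_ge ((C₁ : ℝ) / μ)
  refine Bas.mono J₁ (((hend hP hT c hc a w' b eb h' ε (κ₀ / 8) hw0 hwa ha hb he hh h2 hε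
    (by positivity)).and htm).and hpos) ?_
  rintro J hJ F A₀ ⟨⟨hA, htA⟩, hA0⟩
  intro Dr N M A cl Sc w e h pp z g gc gT g₀ κ B G H T TH Gt Ht E hBA hεc hCc hs0 hs1 hs2 X Y f dd
    eL y i i₁ t k p mu n nt hm1' hmu hbig hlip hKb nu
  by_contra hcon
  rw [not_lt] at hcon
  have hB0 : 0 < Pe F.p B := (mul_pos hκ hA0).trans_le hcon
  have hJ0 : (0 : ℝ) ≤ J := Nat.cast_nonneg J
  have hJ1 : (C₁ : ℝ) ≤ μ * J := by
    have h2 : (J₁ : ℝ) ≤ J := by exact_mod_cast hJ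
    have h3 := hJ₁.trans h2
    rw [div_le_iff₀ hμ0] at h3
    linarith
  have hθ0 : 0 ≤ ε₁ * J := by positivity
  have hmain : C₁ * (ε₁ * J + 1) ≤ min ε (1 - b) * Real.log 2 * J := by
    have e1 : C₁ * (ε₁ * J) = μ * J := by rw [hε₁]; field_simp
    have e2 : 2 * (μ * J) = min ε (1 - b) * Real.log 2 * J := by rw [hμ]; ring
    rw [mul_add, mul_one, e1]
    linarith
  have hm1 : C₁ * (ε₁ * J + 1) ≤ cl * Real.log 2 := by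
    refine hmain.trans ?_
    have e1 : min ε (1 - b) * Real.log 2 * J ≤ ε * Real.log 2 * J :=
      mul_le_mul_of_nonneg_right (mul_le_mul_of_nonneg_right (min_le_left _ _) hL2.le) hJ0
    have e2 := mul_le_mul_of_nonneg_right hεc hL2.le
    linarith
  have hm2 : ∀ x, x ≤ w k → C₁ * (ε₁ * J + 1) ≤ ((J : ℝ) - x) * Real.log 2 := by
    intro x hx
    refine hmain.trans ?_
    have e1 : min ε (1 - b) * Real.log 2 * J ≤ (1 - b) * Real.log 2 * J :=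
      mul_le_mul_of_nonneg_right (mul_le_mul_of_nonneg_right (min_le_right _ _) hL2.le) hJ0
    have e2 : (x : ℝ) ≤ b * J := le_trans (by exact_mod_cast hx) hKb
    have e3 := mul_le_mul_of_nonneg_right e2 hL2.le
    linarith
  have hexp : Real.exp (C₁ * (ε₁ * J + 1)) ≤ 2 ^ cl := by
    have e2 : Real.exp (C₁ * (ε₁ * J + 1)) ≤ Real.exp (cl * Real.log 2) :=
      Real.exp_le_exp.2 hm1
    rw [mul_comm (cl : ℝ), ← Real.rpow_def_of_pos (by norm_num), Real.rpow_natCast] at e2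
    exact e2
  have hQ : C₁ * (cl + X + cl + 1) ≤ C * (cl + X + 1) := by
    have e1 : C₁ * (cl + X + cl + 1) ≤ 2 * (C₁ * (cl + X + 1)) := by nlinarith
    have e2 : C * (cl + X + 1) = C₂ * (C₁ + 4) * (cl + X + 1) + 2 * (C₁ * (cl + X + 1)) := by
      rw [hC]; ring
    omega
  have hfr := nt.fr
  have hnv := nt.nv
  obtain ⟨B', b1, b2, b3⟩ := hj E (Y := Y) (n := cl) (y := y) hs0 hs1 hs2 n
    ⟨nt.ii, nt.cT, nt.pi, nt.ci, nt.lb, nt.ex, by omega, by omega⟩ hB0 hθ0 (fun B' hB' s1 s2 =>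
    htA B' (fun ω hω => hBA ω (s1 ω hω)) (by linarith) hB') (hm2 _ n.tk) hexp hm1' hmu hbig
  have hE2 := E.sb (B' := B') (κ₁ := 1 / 8) (κ₂ := 8 * max κ 0) b1 (by linarith) (by positivity)
    (by
      have := le_max_left κ 0
      linarith)
  have hX : C₂ * (cl + C₁ * (cl + X + Y + 1) + 1) ≤ C * (cl + X + Y + 1) := by
    have e1 : C * (cl + X + Y + 1) = C₂ * ((C₁ + 4) * (cl + X + Y + 1)) +
      2 * C₁ * (cl + X + Y + 1) := by rw [hC]; ring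
    rw [e1]
    refine le_trans (Nat.mul_le_mul_left C₂ ?_) (Nat.le_add_right _ _)
    nlinarith
  have hfin := hA hE2 (fun ω hω => hBA ω (b1 ω hω)) hεc
    (by
      have : C₂ ≤ C₂ * (C₁ + 4) := Nat.le_mul_of_pos_right C₂ (by omega)
      omega) (i₀ := i) (t := t)
    (k := k) (X := C₁ * (cl + X + Y + 1)) (dd := dd) (eL := eL)
    (lam := lamT c (w t) (fun s => Ht i₁ (co (w t - w i₁) s)) (Xcf w TH Sc i t) mu) n.tN n.kN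
    n.tk n.pk n.ck hs0 (fun ω hω => hlip ω (b1 ω hω)) (fun h => absurd h (by norm_num))
    (fun s j => lamT_deg c (w t) (fun s => (E.evs i₁ n.i1N).dH _) (fun s l => by
      unfold Xcf
      split_ifs
      · exact deg_TH E n.iN _ l
      · exact deg_TH E n.tN _ l) hm1' s j)
    (fun ω hω V hV => b3 ω hω V hV) hKb
    { K1 := nu.K1
      t1 := nu.t1
      n1 := by have := nu.n1; omega
      n2 := fun l hl => by have := nu.n2 l hl; omega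
      n4 := fun l hl => hX.trans (nu.n4 l hl)
      n5 := by have := nu.n5; omega
      n6 := by have := nu.n6; omega }
  linarith


/-- **The end of the critical cell, static place one and thin place two.** -/
theorem st_critL (m D D₁ : ℕ) (hD : 1 ≤ D) : ∃ C : ℕ, 1 ≤ C ∧
    ∀ {θ θ' : ℝ} {S : PCl m} {P P' : List (Fin m) × Fin m → ℝ → ℝ → ℝ}
    (_ : ThrOf (chsys m θ) S P) (_ : ThrOf (chsys m θ') S P') (_ : TmH S) (c : ℕ → Fin m) (_ : Set.InjOn c (Set.Iio (3 + 1))) (a₁ : ℚ) (e₁ h₁ : ℝ)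
    (_ : 0 ≤ a₁) (_ : a₁ < 1) (_ : e₁ < θ * a₁) (_ : 0 < h₁) (_ : bet P c 0 a₁ a₁ + h₁ ≤ 1)
    (_ : bet P c 1 a₁ a₁ + h₁ ≤ 1) (a w' : ℚ)
    (b eb h' : ℝ) (_ : 0 ≤ w') (_ : w' ≤ a) (_ : a ≤ 1) (_ : b < 1) (_ : eb < θ * w')
    (_ : 0 < h') (_ : bet P c 3 a w' + h' ≤ 1) (a₂ w₂ : ℚ) (eb₂ h₂ : ℝ) (_ : 0 ≤ w₂)
    (_ : w₂ ≤ a₂) (_ : a₂ ≤ 1) (_ : eb₂ < θ' * w₂) (_ : 0 < h₂) (_ : bet P' c 2 a₂ w₂ + h₂ ≤ 1)
    (ε κ₀ : ℝ) (_ : 0 < ε) (_ : 0 < κ₀),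
    Bas S (fun J F A₀ => ∀ {Dr N M A cl : ℕ} {Sc : ℕ → Prop} {w e h pp : ℕ → ℕ}
      {z g gc gT g₀ : ℕ → ℕ → ℕ} {κ : ℝ} {B : F.Ω → Prop}
      {G : ℕ → PtT F → ℕ → MvPolynomial (Option (Fin m)) ℝ}
      {H : ℕ → LnT F → ℕ → MvPolynomial (Option (Fin m)) ℝ}
      {T : ℕ → PtT F → ℕ → MvPolynomial (Option (Fin m)) ℝ}
      {TH : ℕ → LnT F → ℕ → MvPolynomial (Option (Fin m)) ℝ}
      {Gt : ℕ → PtT F → MvPolynomial (Option (Fin m)) ℝ}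
      {Ht : ℕ → LnT F → MvPolynomial (Option (Fin m)) ℝ},
      CEv F c 3 D Dr N M A cl Sc w e h pp z g gc gT g₀ κ B G H T TH Gt Ht → Sub B A₀ →
      ε * J ≤ cl → C ≤ cl →
      ∀ {i₀ i₁ i₂ i₃ X X' p x d eM f : ℕ} {g' : ℕ → ℕ},
      NumW 3 N M A cl J Sc w e pp z g gc gT g₀ i₀ i₁ i₂ i₃ X' p x g' → C * (cl + X + 1) ≤ X' →
      e i₂ ≤ eM → e i₃ ≤ eM → (∀ y < 3, g₀ i₃ y ≤ g' y + d) → (∀ l < 3, Sc l ↔ l = 1) →
      (w i₃ : ℝ) ≤ b * J →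
      NumO J A X w e gT g₀ i₀ i₂ i₃ f (C * (cl + X + 1)) ⌊(a₁ : ℝ) * J⌋₊ ⌊e₁ * J⌋₊
        ⌊(bet P c 0 a₁ a₁ + h₁) * J⌋₊ ⌊(bet P c 1 a₁ a₁ + h₁) * J⌋₊ g' →
      NumF 3 J (w i₂) (w i₃) ⌊(a : ℝ) * J⌋₊ ⌊(w' : ℝ) * J⌋₊ ⌊eb * J⌋₊
        ⌊(bet P c 3 a w' + h') * J⌋₊ eM d (C * (cl + X' + 1)) f p 1 (g₀ i₃) g' (gT i₂) →
      ∀ {X₂ Y f₂ dd eL t k p₂ : ℕ} {mu mu₂ : LnT F → Polynomial ℝ},
      JNum N A cl X₂ f₂ dd w pp gc gT g₀ i₀ i₁ t k p₂ 2 1 →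
      f₂ + dd + C * (cl + X₂ + 1) ≤ w t - w i₁ →
      w k + g₀ k 2 + g₀ i₃ 3 ≤ w i₃ + g' 2 + g₀ k 3 + dd + X' →
      (∀ s, (mu s).natDegree ≤ D₁) → (∀ s, (mu₂ s).natDegree ≤ D₁) →
      (∀ ω, B ω → |jA c Sc w G TH Ht i₀ i₁ k 1 ω - (mu (slam F (w t) ω)).eval (rt F (w t) ω)| ≤
        2 ^ Y * (2 ^ g₀ k 1 / 2 ^ g₀ k 3)) →
      (∀ ω, B ω → |gG G ω k 2 (some (c 1)) - (mu₂ (slam F (w t) ω)).eval (rt F (w t) ω)| ≤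
        2 ^ Y * (2 ^ g₀ k 1 / 2 ^ g₀ k 2)) →
      (∀ ω, B ω → ∀ l ≤ 2, ∀ j < l, |gG G ω k l (some (c j))| ≤ 2 ^ (eL + nlp (g₀ k) j l)) →
      (w k : ℝ) ≤ b * J →
      NumG 2 J (w t) (w k) ⌊(a₂ : ℝ) * J⌋₊ ⌊(w₂ : ℝ) * J⌋₊ ⌊eb₂ * J⌋₊
        ⌊(bet P' c 2 a₂ w₂ + h₂) * J⌋₊ eL dd (C * (cl + X₂ + Y + 1)) (g₀ k) →
      Pe F.p B < κ₀ * Pe F.p A₀) := by
  classical
  obtain ⟨C₁, hC₁, hsm⟩ := st_endG m D 3 hD (by norm_num)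
  obtain ⟨C₂, hC₂, hbg⟩ := st_bigL m D D₁ hD
  refine ⟨C₁ + C₂, by omega, ?_⟩
  intro θ θ' S P P' hP hP' hT c hc a₁ e₁ h₁ ha0 ha1 he1 hh1 hb0 hb1 a w' b eb h' hw0 hwa ha hb he hh h2
    a₂ w₂ eb₂ h₂ hw20 hwa2 ha2 he2' hh2 hbt2 ε κ₀ hε hκ
  refine Bas.mono 0 ((hsm hP hT c hc a₁ e₁ h₁ ha0 ha1 he1 hh1 hb0 hb1 a w' b eb h' ε (κ₀ / 2) hw0
    hwa ha hb he hh h2 hε (by positivity)).and (hbg hP' hT c hc a₂ w₂ b eb₂ h₂ ε (κ₀ / 2) hw20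
    hwa2 ha2 hb he2' hh2 hbt2 hε (by positivity))) ?_
  rintro J - F A₀ ⟨hA, hA'⟩
  intro Dr N M A cl Sc w e h pp z g gc gT g₀ κ B G H T TH Gt Ht E hBA hεc hCc i₀ i₁ i₂ i₃ X X' p x
    d eM f g' n hXX he2 he3 hd h1 hbJ no nf X₂ Y f₂ dd eL t k p₂ mu mu₂ nj hfr hbn hm1 hm2 hmu hmu2
    hlip hkJ ng
  by_contra hcon
  rw [not_lt] at hcon
  have hpn := Pe_nonneg F.isLaw
  have hs0 : ¬ Sc 0 := fun h => absurd ((h1 0 (by norm_num)).1 h) (by norm_num)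
  have hs1 : Sc 1 := (h1 1 (by norm_num)).2 rfl
  have hs2 : ¬ Sc 2 := fun h => absurd ((h1 2 (by norm_num)).1 h) (by norm_num)
  have eX : (C₁ + C₂) * (cl + X + 1) = C₁ * (cl + X + 1) + C₂ * (cl + X + 1) := by ring
  have eX' : C₁ * (cl + X' + 1) ≤ (C₁ + C₂) * (cl + X' + 1) := Nat.mul_le_mul_right _ (by omega)
  have eX2 : (C₁ + C₂) * (cl + X₂ + 1) = C₁ * (cl + X₂ + 1) + C₂ * (cl + X₂ + 1) := by ring
  have eY : C₂ * (cl + X₂ + Y + 1) ≤ (C₁ + C₂) * (cl + X₂ + Y + 1) :=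
    Nat.mul_le_mul_right _ (by omega)
  obtain ⟨Bs, hBs⟩ : ∃ Bs : F.Ω → Prop, Bs = fun ω => B ω ∧
      |jY c Sc w G TH Ht i₀ i₁ i₂ i₃ 1 2 ω| ≤ 2 ^ X' * (2 ^ w i₃ / 2 ^ g₀ i₃ 3) * 2 ^ g' 2 :=
    ⟨_, rfl⟩
  obtain ⟨Bb, hBb⟩ : ∃ Bb : F.Ω → Prop, Bb = fun ω => B ω ∧
      ¬ |jY c Sc w G TH Ht i₀ i₁ i₂ i₃ 1 2 ω| ≤ 2 ^ X' * (2 ^ w i₃ / 2 ^ g₀ i₃ 3) * 2 ^ g' 2 :=
    ⟨_, rfl⟩
  have hsB : Sub Bs B := fun ω hω => by rw [hBs] at hω; exact hω.1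
  have hbB : Sub Bb B := fun ω hω => by rw [hBb] at hω; exact hω.1
  have hor := Pe_or F.isLaw (A := B) (B₀ := Bs) (B₁ := Bb) (fun ω hω => by
    rw [hBs, hBb]
    by_cases h4 : |jY c Sc w G TH Ht i₀ i₁ i₂ i₃ 1 2 ω| ≤
      2 ^ X' * (2 ^ w i₃ / 2 ^ g₀ i₃ 3) * 2 ^ g' 2
    · exact Or.inl ⟨hω, h4⟩
    · exact Or.inr ⟨hω, h4⟩)
  have hκm := le_max_left κ 0
  rcases le_or_gt (Pe F.p B / 2) (Pe F.p Bs) with hc1 | hc1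
  · -- the small case
    have hE2 := E.sb (B' := Bs) (κ₁ := 1 / 2) (κ₂ := 2 * max κ 0) hsB (by linarith)
      (by positivity) (by linarith)
    have hfin := hA hE2 (fun ω hω => hBA ω (hsB ω hω)) hεc (by omega) n (by omega) he2 he3 hd
      (n.hh 2 (by norm_num) hs2 0 (by norm_num) hs0) h1 (fun y hy hys => by
        have hy' : y = 0 ∨ y = 1 ∨ y = 2 := by omega
        rcases hy' with h4 | h4 | h4
        · subst h4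
          exact Or.inl (n.hh 2 (by norm_num) hs2 0 (by norm_num) hs0)
        · subst h4
          exact absurd hs1 hys
        · subst h4
          refine Or.inr (Or.inr fun ω hω => ?_)
          rw [hBs] at hω
          exact hω.2) hbJ (NumO.mono no (by omega)) (NumF.mono nf eX')
    linarith
  · -- the large case
    have hc2 : Pe F.p B / 2 ≤ Pe F.p Bb := by linarith
    have hE2 := E.sb (B' := Bb) (κ₁ := 1 / 2) (κ₂ := 2 * max κ 0) hbB (by linarith)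
      (by positivity) (by linarith)
    have hfin := hA' hE2 (fun ω hω => hBA ω (hbB ω hω)) hεc (by omega) hs0 hs1 hs2 nj (by omega)
      hm1 hm2 (fun ω hω => hmu ω (hbB ω hω)) (fun ω hω => hmu2 ω (hbB ω hω)) (fun ω hω => by
        have h4 := jY_st E n.h0 n.h1 n.h2 n.h3 nj.kN n.w0 ω
        rw [hBb] at hω
        rw [← h4]
        exact (big_num (by omega)).trans (not_le.1 hω.2).le) (fun ω hω => hlip ω (hbB ω hω)) hkJ (NumG.mono ng eY)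
    linarith



/-- **The end of the critical cell, thin place one and static place two.** -/
theorem ts_critL (m D D₁ : ℕ) (hD : 1 ≤ D) : ∃ C : ℕ, 1 ≤ C ∧
    ∀ {θ θ' : ℝ} {S : PCl m} {P P' : List (Fin m) × Fin m → ℝ → ℝ → ℝ}
    (_ : ThrOf (chsys m θ) S P) (_ : ThrOf (chsys m θ') S P') (_ : TmH S) (c : ℕ → Fin m) (_ : Set.InjOn c (Set.Iio (3 + 1))) (a₁ : ℚ) (e₁ h₁ : ℝ)
    (_ : 0 ≤ a₁) (_ : a₁ < 1) (_ : e₁ < θ * a₁) (_ : 0 < h₁) (_ : bet P c 0 a₁ a₁ + h₁ ≤ 1)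
    (_ : bet P c 2 a₁ a₁ + h₁ ≤ 1) (a w' : ℚ)
    (b eb h' : ℝ) (_ : 0 ≤ w') (_ : w' ≤ a) (_ : a ≤ 1) (_ : b < 1) (_ : eb < θ * w')
    (_ : 0 < h') (_ : bet P c 3 a w' + h' ≤ 1) (a₂ w₂ : ℚ) (eb₂ h₂ : ℝ) (_ : 0 ≤ w₂)
    (_ : w₂ ≤ a₂) (_ : a₂ ≤ 1) (_ : eb₂ < θ' * w₂) (_ : 0 < h₂) (_ : bet P' c 1 a₂ w₂ + h₂ ≤ 1)
    (ε κ₀ : ℝ) (_ : 0 < ε) (_ : 0 < κ₀),
    Bas S (fun J F A₀ => ∀ {Dr N M A cl : ℕ} {Sc : ℕ → Prop} {w e h pp : ℕ → ℕ}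
      {z g gc gT g₀ : ℕ → ℕ → ℕ} {κ : ℝ} {B : F.Ω → Prop}
      {G : ℕ → PtT F → ℕ → MvPolynomial (Option (Fin m)) ℝ}
      {H : ℕ → LnT F → ℕ → MvPolynomial (Option (Fin m)) ℝ}
      {T : ℕ → PtT F → ℕ → MvPolynomial (Option (Fin m)) ℝ}
      {TH : ℕ → LnT F → ℕ → MvPolynomial (Option (Fin m)) ℝ}
      {Gt : ℕ → PtT F → MvPolynomial (Option (Fin m)) ℝ}
      {Ht : ℕ → LnT F → MvPolynomial (Option (Fin m)) ℝ},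
      CEv F c 3 D Dr N M A cl Sc w e h pp z g gc gT g₀ κ B G H T TH Gt Ht → Sub B A₀ →
      ε * J ≤ cl → C ≤ cl →
      ∀ {i₀ i₁ i₂ i₃ X X' p x d eM f : ℕ} {g' : ℕ → ℕ},
      NumW 3 N M A cl J Sc w e pp z g gc gT g₀ i₀ i₁ i₂ i₃ X' p x g' → C * (cl + X + 1) ≤ X' →
      e i₂ ≤ eM → e i₃ ≤ eM → (∀ y < 3, g₀ i₃ y ≤ g' y + d) → (∀ l < 3, Sc l ↔ l = 2) →
      (g₀ i₃ 1 ≤ g' 1 + X' ∨ w i₂ + g₀ i₂ 1 + g₀ i₃ 2 ≤ w i₃ + g₀ i₂ 2 + g' 1 + X') →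
      (w i₃ : ℝ) ≤ b * J →
      NumT J A X w e gT g₀ i₀ i₂ i₃ f (C * (cl + X + 1)) ⌊(a₁ : ℝ) * J⌋₊ ⌊e₁ * J⌋₊
        ⌊(bet P c 0 a₁ a₁ + h₁) * J⌋₊ ⌊(bet P c 2 a₁ a₁ + h₁) * J⌋₊ g' →
      NumF 3 J (w i₂) (w i₃) ⌊(a : ℝ) * J⌋₊ ⌊(w' : ℝ) * J⌋₊ ⌊eb * J⌋₊
        ⌊(bet P c 3 a w' + h') * J⌋₊ eM d (C * (cl + X' + 1)) f p 2 (g₀ i₃) g' (gT i₂) →
      ∀ {X₂ Y f₂ dd eL y t k p₂ : ℕ} {mu : LnT F → Polynomial ℝ},
      JNum N A cl X₂ f₂ dd w pp gc gT g₀ i₀ i₁ t k p₂ 1 2 →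
      JTs A cl X₂ Y f₂ dd y (C * (cl + X₂ + 1)) w pp gc gT g₀ i₀ i₁ t k →
      BigT M N w z g g₀ i₀ i₃ k (g' 1) (C * (cl + X₂ + 1)) →
      w k + g₀ k 1 + g₀ i₃ 3 + 1 ≤ w i₃ + g' 1 + g₀ k 3 + dd + X' →
      (∀ s, (mu s).natDegree ≤ D₁) →
      (∀ ω, B ω → |jA c Sc w G TH Ht i₀ i₁ k 2 ω - (mu (slam F (w t) ω)).eval (rt F (w t) ω)| ≤
        2 ^ Y * (2 ^ g₀ k 2 / 2 ^ g₀ k 3)) →
      (∀ ω, B ω → ∀ l ≤ 1, ∀ j < l, |gG G ω k l (some (c j))| ≤ 2 ^ (eL + nlp (g₀ k) j l)) →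
      (w k : ℝ) ≤ b * J →
      NumG 1 J (w t) (w k) ⌊(a₂ : ℝ) * J⌋₊ ⌊(w₂ : ℝ) * J⌋₊ ⌊eb₂ * J⌋₊
        ⌊(bet P' c 1 a₂ w₂ + h₂) * J⌋₊ eL dd (C * (cl + X₂ + Y + 1)) (g₀ k) →
      Pe F.p B < κ₀ * Pe F.p A₀) := by
  classical
  obtain ⟨C₁, hC₁, hsm⟩ := ts_endG m D 3 hD (by norm_num)
  obtain ⟨C₂, hC₂, hbg⟩ := ts_bigL m D D₁ hD
  obtain ⟨C₃, hC₃, hyz⟩ := jY_ts D
  refine ⟨C₁ + C₂ + C₃, by omega, ?_⟩
  intro θ θ' S P P' hP hP' hT c hc a₁ e₁ h₁ ha0 ha1 he1 hh1 hb0 hb1 a w' b eb h' hw0 hwa ha hb he hh h2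
    a₂ w₂ eb₂ h₂ hw20 hwa2 ha2 he2' hh2 hbt2 ε κ₀ hε hκ
  refine Bas.mono 0 ((hsm hP hT c hc a₁ e₁ h₁ ha0 ha1 he1 hh1 hb0 hb1 a w' b eb h' ε (κ₀ / 2) hw0
    hwa ha hb he hh h2 hε (by positivity)).and (hbg hP' hT c hc a₂ w₂ b eb₂ h₂ ε (κ₀ / 2) hw20
    hwa2 ha2 hb he2' hh2 hbt2 hε (by positivity))) ?_
  rintro J - F A₀ ⟨hA, hA'⟩
  intro Dr N M A cl Sc w e h pp z g gc gT g₀ κ B G H T TH Gt Ht E hBA hεc hCc i₀ i₁ i₂ i₃ X X' p x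
    d eM f g' n hXX he2 he3 hd h1 hx2 hbJ no nf X₂ Y f₂ dd eL y' t k p₂ mu nj nt nb hbn hm1 hmu
    hlip hkJ ng
  by_contra hcon
  rw [not_lt] at hcon
  have hpn := Pe_nonneg F.isLaw
  have hs0 : ¬ Sc 0 := fun h => absurd ((h1 0 (by norm_num)).1 h) (by norm_num)
  have hs1 : ¬ Sc 1 := fun h => absurd ((h1 1 (by norm_num)).1 h) (by norm_num)
  have hs2 : Sc 2 := (h1 2 (by norm_num)).2 rfl
  have eX : (C₁ + C₂ + C₃) * (cl + X + 1) = C₁ * (cl + X + 1) + C₂ * (cl + X + 1) +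
    C₃ * (cl + X + 1) := by ring
  have eX' : C₁ * (cl + X' + 1) ≤ (C₁ + C₂ + C₃) * (cl + X' + 1) :=
    Nat.mul_le_mul_right _ (by omega)
  have eX2 : (C₁ + C₂ + C₃) * (cl + X₂ + 1) = C₁ * (cl + X₂ + 1) + C₂ * (cl + X₂ + 1) +
    C₃ * (cl + X₂ + 1) := by ring
  have eY : C₂ * (cl + X₂ + Y + 1) ≤ (C₁ + C₂ + C₃) * (cl + X₂ + Y + 1) :=
    Nat.mul_le_mul_right _ (by omega)
  obtain ⟨Bs, hBs⟩ : ∃ Bs : F.Ω → Prop, Bs = fun ω => B ω ∧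
      |jY c Sc w G TH Ht i₀ i₁ i₂ i₃ 2 1 ω| ≤ 2 ^ X' * (2 ^ w i₃ / 2 ^ g₀ i₃ 3) * 2 ^ g' 1 :=
    ⟨_, rfl⟩
  obtain ⟨Bb, hBb⟩ : ∃ Bb : F.Ω → Prop, Bb = fun ω => B ω ∧
      ¬ |jY c Sc w G TH Ht i₀ i₁ i₂ i₃ 2 1 ω| ≤ 2 ^ X' * (2 ^ w i₃ / 2 ^ g₀ i₃ 3) * 2 ^ g' 1 :=
    ⟨_, rfl⟩
  have hsB : Sub Bs B := fun ω hω => by rw [hBs] at hω; exact hω.1
  have hbB : Sub Bb B := fun ω hω => by rw [hBb] at hω; exact hω.1
  have hor := Pe_or F.isLaw (A := B) (B₀ := Bs) (B₁ := Bb) (fun ω hω => by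
    rw [hBs, hBb]
    by_cases h4 : |jY c Sc w G TH Ht i₀ i₁ i₂ i₃ 2 1 ω| ≤
      2 ^ X' * (2 ^ w i₃ / 2 ^ g₀ i₃ 3) * 2 ^ g' 1
    · exact Or.inl ⟨hω, h4⟩
    · exact Or.inr ⟨hω, h4⟩)
  have hκm := le_max_left κ 0
  rcases le_or_gt (Pe F.p B / 2) (Pe F.p Bs) with hc1 | hc1
  · -- the small case
    have hE2 := E.sb (B' := Bs) (κ₁ := 1 / 2) (κ₂ := 2 * max κ 0) hsB (by linarith)
      (by positivity) (by linarith)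
    have hfin := hA hE2 (fun ω hω => hBA ω (hsB ω hω)) hεc (by omega) n (by omega) he2 he3 hd
      hx2 h1 (fun y hy hys => by
        have hy' : y = 0 ∨ y = 1 ∨ y = 2 := by omega
        rcases hy' with h4 | h4 | h4
        · subst h4
          exact Or.inl (n.hh 1 (by norm_num) hs1 0 (by norm_num) hs0)
        · subst h4
          refine Or.inr (Or.inr fun ω hω => ?_)
          rw [hBs] at hω
          exact hω.2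
        · subst h4
          exact absurd hs2 hys) hbJ (NumT.mono no (by omega)) (NumF.mono nf eX')
    linarith
  · -- the large case
    have hc2 : Pe F.p B / 2 ≤ Pe F.p Bb := by linarith
    have hE2 := E.sb (B' := Bb) (κ₁ := 1 / 2) (κ₂ := 2 * max κ 0) hbB (by linarith)
      (by positivity) (by linarith)
    have hfr := nt.fr
    have hnv := nt.nv
    obtain ⟨nb1, a', ha', b', hb', hab, hwab, hq, nb2⟩ := nb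
    have hfin := hA' hE2 (fun ω hω => hBA ω (hbB ω hω)) hεc (by omega) hs0 hs1 hs2 nj
      { nt with
        fr := by omega
        nv := by omega }
      hm1 (fun ω hω => hmu ω (hbB ω hω)) (fun ω hω => by
        have h4 := hyz E (by omega) (i₂ := i₂) (q' := g' 1) n.h0 n.h1 n.h2 n.h3 nj.kN n.w0 n.w1 hs0 hs1 hs2 nt.cT
          nt.pi nt.ci nt.lb ⟨by omega, a', ha', b', hb', hab, hwab, hq, by omega⟩ ω (hbB ω hω)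
        rw [hBb] at hω
        have h5 := not_le.1 hω.2
        obtain ⟨R, hR⟩ : ∃ R : ℝ, R = 2 ^ (w i₃ + g' 1) / 2 ^ g₀ i₃ 3 := ⟨_, rfl⟩
        have hR0 : 0 < R := by rw [hR]; positivity
        have e1 : (2 : ℝ) ^ X' * (2 ^ w i₃ / 2 ^ g₀ i₃ 3) * 2 ^ g' 1 = 2 ^ X' * R := by
          rw [hR, pow_add]
          ring
        rw [← hR] at h4
        rw [e1] at h5
        have e2 : (1 : ℝ) ≤ 2 ^ X' := one_le_pow₀ (by norm_num)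
        have e3 : R ≤ 2 ^ X' * R := le_mul_of_one_le_left hR0.le e2
        have e4 : (2 : ℝ) ^ (w k + g₀ k 1) / 2 ^ (g₀ k 3 + dd) ≤ 2 ^ X' * R / 2 := by
          have h7 : (2 : ℝ) ^ (w k + g₀ k 1 + 1) / 2 ^ (g₀ k 3 + dd) ≤
              2 ^ X' * (2 ^ w i₃ / 2 ^ g₀ i₃ 3) * 2 ^ g' 1 := big_num (by omega)
          rw [e1, pow_succ, mul_div_right_comm] at h7
          linarith
        have e5 := abs_sub_abs_le_abs_sub (jY c Sc w G TH Ht i₀ i₁ i₂ i₃ 2 1 ω)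
          (jZ c Sc w G TH Ht i₀ i₁ k 2 1 ω)
        linarith) (fun ω hω => hlip ω (hbB ω hω)) hkJ (NumG.mono ng eY)
    linarith


end Pool.TNW
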