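import Pool.Agent.H66.D2.Ecl
import Pool.Agent.H66.D2.Std

/-!
# A tower of closed gradients with a loss at the last place

`lwr`: the levels with a loss at the last place. `thn_afd`: closed gradients of the ball charts of one
window, natural up to a loss at the last place, are an affine tower with the lowered level.
-/

set_option autoImplicit false

namespace Pool.TN

open Finset Real MvPolynomial
open Pool.Agent.H49.Ent Pool.Agent.H32.Dense Pool.STK Pool.KA Pool.KSAT Pool.K2S Pool.PB Pool.S6C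
open Pool.GEN Pool.CHT Pool.CHX Pool.ISO Pool.D2R Pool.D2Z Pool.D2F
open Pool.LBT (ThrOf)
open Pool.FLF (Fam.sub)
open Pool.PB.Trl (rt rt_mem t_rt)
open Pool.AFT (AfO AfD ab afo_afd aff_no)
open Pool.D2T (der_of)

variable {m J : ℕ}

/-- **The levels with a loss** `dd` at the place `n`. -/
def lwr (g : ℕ → ℕ) (n dd l : ℕ) : ℕ := if l = n then g l - dd else g l

theorem lwr_lt {g : ℕ → ℕ} {n dd l : ℕ} (h : l < n) : lwr g n dd l = g l := if_neg h.ne

theorem lwr_eq {g : ℕ → ℕ} {n dd : ℕ} : lwr g n dd n = g n - dd := if_pos rfl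

theorem lwr_le (g : ℕ → ℕ) (n dd l : ℕ) : lwr g n dd l ≤ g l := by
  unfold lwr
  split_ifs
  · exact Nat.sub_le _ _
  · exact le_rfl

theorem nrm_lwr {c : ℕ → Fin m} {ψ : ℕ → MvPolynomial (Option (Fin m)) ℝ} {g : ℕ → ℕ}
    {n dd a l : ℕ} (hl : l ≤ n) (x V : Option (Fin m) → ℝ) :
    nrm c ψ (lwr g n dd) a l x V = nrm c ψ g a l x V := by
  unfold nrm
  congr 1
  refine Finset.sum_congr rfl fun j hj => ?_
  rw [lwr_lt ((Finset.mem_range.1 hj).trans_le hl)]

theorem nrz_lwr {c : ℕ → Fin m} {ψ : ℕ → MvPolynomial (Option (Fin m)) ℝ} {g : ℕ → ℕ}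
    {n dd a l : ℕ} (hl : l ≤ n) (x W V Z : Option (Fin m) → ℝ) :
    nrz c ψ (lwr g n dd) a l x W V Z = nrz c ψ g a l x W V Z := by
  unfold nrz
  congr 1
  refine Finset.sum_congr rfl fun j hj => ?_
  rw [lwr_lt ((Finset.mem_range.1 hj).trans_le hl)]

theorem en_lwr {c : ℕ → Fin m} {χ : ℕ → Option (Fin m) → ℝ} {g : ℕ → ℕ}
    {n dd a l : ℕ} (hl : l ≤ n) (V : Option (Fin m) → ℝ) :
    en c (lwr g n dd) a χ l V = en c g a χ l V := by
  rw [en_eq, en_eq]
  congr 1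
  refine Finset.sum_congr rfl fun j hj => ?_
  rw [lwr_lt ((Finset.mem_range.1 hj).trans_le hl)]

theorem nlp_lwr {g : ℕ → ℕ} {n dd j l : ℕ} (hl : l ≤ n) : nlp g j l ≤ nlp (lwr g n dd) j l := by
  unfold nlp
  have h1 : (Finset.Icc j l).sup g ≤ (Finset.Icc j l).sup (lwr g n dd) - lwr g n dd l + g l := by
    refine Finset.sup_le fun x hx => ?_
    have h2 := Finset.le_sup (f := lwr g n dd) hx
    have h3 := lwr_le g n dd l
    rcases eq_or_ne x l with h | h
    · rw [h]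
      omega
    · have h4 := (Finset.mem_Icc.1 hx).2
      rw [lwr_lt (by omega : x < n)] at h2
      omega
  omega

/-- **A tower of closed gradients**, natural at the ball `k` up to a loss `2 ^ dd` at the place `n`. -/
theorem thn_afd (m D D₁ r n : ℕ) (hD : 1 ≤ D) (hnr : n ≤ r) : ∃ C : ℕ, 1 ≤ C ∧
    ∀ {J : ℕ} {F : Fam m J} {c : ℕ → Fin m} {Dr N M A cl : ℕ} {Sc : ℕ → Prop}
    {w e h pp : ℕ → ℕ} {z g gc gT g₀ : ℕ → ℕ → ℕ} {κ θ : ℝ}
    {B : F.Ω → Prop} {G : ℕ → PtT F → ℕ → MvPolynomial (Option (Fin m)) ℝ}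
    {H : ℕ → LnT F → ℕ → MvPolynomial (Option (Fin m)) ℝ}
    {T : ℕ → PtT F → ℕ → MvPolynomial (Option (Fin m)) ℝ}
    {TH : ℕ → LnT F → ℕ → MvPolynomial (Option (Fin m)) ℝ}
    {Gt : ℕ → PtT F → MvPolynomial (Option (Fin m)) ℝ}
    {Ht : ℕ → LnT F → MvPolynomial (Option (Fin m)) ℝ},
    CEv F c r D Dr N M A cl Sc w e h pp z g gc gT g₀ κ B G H T TH Gt Ht → C ≤ cl →
    0 < Pe F.p B →
    ∀ {t k X dd : ℕ} {lam : LnT F → ℕ → ℕ → Polynomial ℝ}, k ≤ N → t ≤ w k →
      cl ≤ pp k → cl ≤ gc k r → dd ≤ g₀ k n → (∀ s l j, (lam s l j).natDegree ≤ D₁) →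
      (∀ ω, B ω → ∀ l ≤ n, ∀ V : Option (Fin m) → ℝ, V none = 0 →
        |∑ j ∈ range l, (lam (slam F t ω) l j).eval (rt F t ω) * V (some (c j)) -
          cv (gG G ω k l) V| ≤ 2 ^ X / 2 ^ lwr (g₀ k) n dd l *
            en c (g₀ k) (w k) (gG G ω k) l V) →
      0 ≤ θ → (∀ (B' : F.Ω → Prop) (hB' : 0 < Pe F.p B'), Sub B' B →
        Pe F.p B ≤ 2 ^ (n + 1) * Pe F.p B' → (Fam.sub F B' hB').Tm θ) →
      C * (θ + 1) ≤ ((J : ℝ) - w k) * Real.log 2 → Real.exp (C * (θ + 1)) ≤ 2 ^ cl →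
      ∃ B' : F.Ω → Prop, Sub B' B ∧ Pe F.p B ≤ 2 ^ (n + 2) * Pe F.p B' ∧
        AfD F c (n + 1) D₁ t (w k) (e k + (r + 1)) (lwr (g₀ k) n dd)
          (2 ^ (C * (cl + X + 1))) B' (gpt F (G k)) (ab t lam) := by
  classical
  choose C₁ hC₁ hder using fun l => der_of m D D₁ l hD
  obtain ⟨C₂, hC₂, hafo⟩ := afo_afd m D₁ (n + 1)
  obtain ⟨C₃, hC₃, hrnd⟩ := chn_rnd D (r + 1)
  obtain ⟨C₄, hC₄⟩ : ∃ C₄, C₄ = ∑ l ∈ range (n + 1), C₁ l := ⟨_, rfl⟩
  have hCl : ∀ l ≤ n, C₁ l ≤ C₄ := fun l hl => by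
    rw [hC₄]
    exact Finset.single_le_sum (f := C₁) (fun _ _ => Nat.zero_le _)
      (Finset.mem_range.2 (Nat.lt_succ_of_le hl))
  -- the units
  obtain ⟨R, hR⟩ : ∃ R, R = 2 * r + 4 := ⟨_, rfl⟩
  obtain ⟨S, hS⟩ : ∃ S, S = C₄ * (R + 1) + R + n + 3 := ⟨_, rfl⟩
  refine ⟨C₄ + C₃ + C₂ * (S + 1) + 1, by omega, ?_⟩
  obtain ⟨C, hC⟩ : ∃ C, C = C₄ + C₃ + C₂ * (S + 1) + 1 := ⟨_, rfl⟩
  rw [← hC]
  intro J F c Dr N M A cl Sc w e h pp z g gc gT g₀ κ θ B G H T TH Gt Ht E hCc hB t k X dd lam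
    hk htk hpp hgc hdd hdeg hspa hθ hTm hCJ hexp
  have hθ1 : 0 ≤ θ + 1 := by linarith
  have hmono : ∀ {Y : ℕ}, Y ≤ C → (Y : ℝ) * (θ + 1) ≤ ((J : ℝ) - w k) * Real.log 2 ∧
      Real.exp (Y * (θ + 1)) ≤ 2 ^ cl := fun hY =>
    ⟨le_trans (mul_le_mul_of_nonneg_right (by exact_mod_cast hY) hθ1) hCJ,
      (Real.exp_le_exp.2 (mul_le_mul_of_nonneg_right (by exact_mod_cast hY) hθ1)).trans hexp⟩
  have hC2C : C₂ ≤ C := by
    rw [hC]
    nlinarith [Nat.zero_le (C₂ * S)]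
  obtain ⟨q, hq⟩ : ∃ q, q = cl + X + 1 := ⟨_, rfl⟩
  obtain ⟨u, hu⟩ : ∃ u, u = R * q := ⟨_, rfl⟩
  have hu1 : 2 * cl + r + X + 1 ≤ u := by
    rw [hu, hR, hq]
    nlinarith [Nat.zero_le (r * cl), Nat.zero_le (r * X)]
  have hwJ : w k ≤ J := (E.wA k hk).trans E.AJ
  have hc := E.inj
  have hball := (E.evs k hk).ball
  obtain ⟨g', hg'⟩ : ∃ g' : ℕ → ℕ, g' = lwr (g₀ k) n dd := ⟨_, rfl⟩
  have hgle : ∀ l, g' l ≤ g₀ k l := fun l => by rw [hg']; exact lwr_le _ _ _ _
  have hnrm : ∀ {l : ℕ}, l ≤ n → ∀ (ψ : ℕ → MvPolynomial (Option (Fin m)) ℝ) x V,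
      nrm c ψ g' (w k) l x V = nrm c ψ (g₀ k) (w k) l x V := fun hl ψ x V => by
    rw [hg']
    exact nrm_lwr hl x V
  have hnrz : ∀ {l : ℕ}, l ≤ n → ∀ (ψ : ℕ → MvPolynomial (Option (Fin m)) ℝ) x W V Z,
      nrz c ψ g' (w k) l x W V Z = nrz c ψ (g₀ k) (w k) l x W V Z := fun hl ψ x W V Z => by
    rw [hg']
    exact nrz_lwr hl x W V Z
  have hen : ∀ {l : ℕ}, l ≤ n → ∀ (χ : ℕ → Option (Fin m) → ℝ) V,
      en c g' (w k) χ l V = en c (g₀ k) (w k) χ l V := fun hl χ V => by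
    rw [hg']
    exact en_lwr hl V
  rw [← hg'] at hspa ⊢
  have hdv : ∀ {a b : ℕ} (l : ℕ), a ≤ b → (2 : ℝ) ^ a / 2 ^ g₀ k l ≤ 2 ^ b / 2 ^ g' l :=
    fun l hab => by
    rw [div_le_div_iff₀ (by positivity) (by positivity), ← pow_add, ← pow_add]
    have := hgle l
    exact p2 (by omega)
  have hdif := (E.row k hk k hk le_rfl 0 (by omega) (by omega)).dif
  -- the event of one place
  have hone : ∀ l ≤ n, ∀ B₁ : F.Ω → Prop, Sub B₁ B → (hB₁ : 0 < Pe F.p B₁) →
      (Fam.sub F B₁ hB₁).Tm θ → ∃ B' : F.Ω → Prop, Sub B' B₁ ∧ Pe F.p B₁ / 2 ≤ Pe F.p B' ∧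
      ∀ ω, B' ω → ∀ V : Option (Fin m) → ℝ, V none = 0 →
      |∑ j ∈ range l, (Polynomial.derivative (lam (slam F t ω) l j)).eval (rt F t ω) *
        V (some (c j))| ≤ 2 ^ (w k - t) * (2 ^ (C₄ * (u + 1)) / 2 ^ g' l *
          en c (g₀ k) (w k) (gG G ω k) l V) := by
    intro l hl B₁ hs hB₁ hTm₁
    obtain ⟨B', b1, b2, b3⟩ := hder l (F := F) (c := c) (w := t) (a := w k) (k := u) (θ := θ)
      (Y := 2 ^ u) (g := g') (B := B₁) (G := G k) (H := H k) (lam := fun s j => lam s l j) hB₁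
      (hc.mono (Set.Iio_subset_Iio (by omega))) htk hwJ (by
        calc (2 : ℝ) = 2 ^ 1 := (pow_one 2).symm
          _ ≤ 2 ^ u := p2 (by omega)) le_rfl hθ hTm₁ (hmono ((hCl l hl).trans (by omega))).1
      ((hmono ((hCl l hl).trans (by omega))).2.trans (p2 (by omega)))
      (fun s l => hball.degH s l) (fun s l => hball.depH s l) (fun ω hω i hi => by
        obtain ⟨h4, h5⟩ := hdif ω (hs ω hω) i (by omega)
        refine ⟨fun V => (h4 V).trans ?_, fun V V' Z => (h5 V V' Z).trans ?_⟩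
        · rw [hnrm (by omega)]
          exact mul_le_mul_of_nonneg_right (hdv i (by omega)) (nrm_nonneg _ _ _ _ _ _ _)
        · rw [hnrm (by omega), hnrm (by omega), hnrz (by omega)]
          exact mul_le_mul_of_nonneg_right (hdv i (by omega)) (add_nonneg
            (mul_nonneg (nrm_nonneg _ _ _ _ _ _ _) (nrm_nonneg _ _ _ _ _ _ _))
            (nrz_nonneg _ _ _ _ _ _ _ _ _))) (fun ω hω => by
        rw [hnrm hl, nrm_en]
        refine ((E.bdG hk hpp hgc (hs ω hω)).2 l (by omega)).trans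
          (mul_le_mul_of_nonneg_right ?_ (by positivity))
        have h6 : (l : ℝ) ≤ r := by exact_mod_cast hl.trans hnr
        have h7 := mul_le_mul_of_nonneg_right h6 (show (0 : ℝ) ≤ 2 ^ cl by positivity)
        have h8 := one_r r cl
        exact (by linarith : (1 : ℝ) + l * 2 ^ cl ≤ 2 ^ (r + cl)).trans (p2 (by omega)))
      (fun ω hω i hi V => by
        have h4 := E.hG hk hpp hgc (hs ω hω) (show i ≤ r by omega) V
        rw [hnrm (by omega), nrm_en]
        refine h4.trans (mul_le_mul_of_nonneg_right ?_ (en_nonneg _ _ _ _ _ _))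
        have h5 := mul_le_mul_of_nonneg_right (hdv i (show 2 * cl + r ≤ u by omega))
          (show (0 : ℝ) ≤ 2 ^ w k by positivity)
        calc (2 : ℝ) ^ (2 * cl + r) * 2 ^ w k / 2 ^ g₀ k i =
              2 ^ (2 * cl + r) / 2 ^ g₀ k i * 2 ^ w k := by ring
          _ ≤ 2 ^ u / 2 ^ g' i * 2 ^ w k := h5
          _ = _ := by ring) (fun s j => hdeg s l j) (fun ω hω V hV => by
        have h4 := hspa ω (hs ω hω) l hl V hV
        unfold gG at h4
        rw [cv_grd] at h4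
        rw [hnrm hl, nrm_en]
        refine h4.trans (mul_le_mul_of_nonneg_right (div_le_div_of_nonneg_right
          (p2 (by omega)) (by positivity)) (en_nonneg _ _ _ _ _ _)))
    refine ⟨B', b1, b2, fun ω hω V hV => ?_⟩
    have h4 := b3 ω hω V hV
    rw [hnrm hl, nrm_en] at h4
    refine h4.trans (mul_le_mul_of_nonneg_left (mul_le_mul_of_nonneg_right
      (div_le_div_of_nonneg_right (p2 (Nat.mul_le_mul_right _ (hCl l hl))) (by positivity))
      (en_nonneg _ _ _ _ _ _)) (by positivity))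
  -- all the places
  have hall : ∀ L ≤ n + 1, ∃ B₁ : F.Ω → Prop, Sub B₁ B ∧ Pe F.p B ≤ 2 ^ L * Pe F.p B₁ ∧
      ∀ l < L, ∀ ω, B₁ ω → ∀ V : Option (Fin m) → ℝ, V none = 0 →
      |∑ j ∈ range l, (Polynomial.derivative (lam (slam F t ω) l j)).eval (rt F t ω) *
        V (some (c j))| ≤ 2 ^ (w k - t) * (2 ^ (C₄ * (u + 1)) / 2 ^ g' l *
          en c (g₀ k) (w k) (gG G ω k) l V) := by
    intro L
    induction L with
    | zero => exact fun _ => ⟨B, fun ω hω => hω, by rw [pow_zero, one_mul], fun l hl =>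
        absurd hl (Nat.not_lt_zero l)⟩
    | succ L ih =>
      intro hL
      obtain ⟨B₁, b1, b2, b3⟩ := ih (by omega)
      have hB₁ : 0 < Pe F.p B₁ := by
        by_contra hcon
        have : (2 : ℝ) ^ L * Pe F.p B₁ ≤ 0 :=
          mul_nonpos_of_nonneg_of_nonpos (by positivity) (not_lt.1 hcon)
        linarith
      obtain ⟨B₂, c1, c2, c3⟩ := hone L (by omega) B₁ b1 hB₁ (hTm B₁ hB₁ b1 (b2.trans
        (mul_le_mul_of_nonneg_right (p2 (by omega)) hB₁.le)))
      refine ⟨B₂, fun ω hω => b1 ω (c1 ω hω), ?_, fun l hl ω hω => ?_⟩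
      · rw [pow_succ]
        have : (2 : ℝ) ^ L * Pe F.p B₁ ≤ 2 ^ L * (2 * Pe F.p B₂) :=
          mul_le_mul_of_nonneg_left (by linarith) (by positivity)
        linarith
      · rcases Nat.lt_succ_iff_lt_or_eq.1 hl with h1 | h1
        · exact b3 l h1 ω (c1 ω hω)
        · rw [h1]
          exact c3 ω hω
  obtain ⟨B₁, b1, b2, b3⟩ := hall (n + 1) le_rfl
  have hB₁ : 0 < Pe F.p B₁ := by
    by_contra hcon
    have : (2 : ℝ) ^ (n + 1) * Pe F.p B₁ ≤ 0 :=
      mul_nonpos_of_nonneg_of_nonpos (by positivity) (not_lt.1 hcon)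
    linarith
  -- the rounded point
  have hnb : ∀ ω, B ω → Nc c (g₀ k) (w k) (r + 1) 1 (gG G ω k) (gpt F (G k) (ptr F J ω)) :=
    fun ω hω => hrnd hc hball (fun l hl => by
      have a1 := E.room k hk l (by omega)
      have a2 := E.ng k hk l (by omega)
      omega) ω hω
  have hge : ∀ ω, B ω → ∀ l ≤ n, ∀ V : Option (Fin m) → ℝ,
      en c (g₀ k) (w k) (gG G ω k) l V ≤ 2 ^ (r + 1) *
        en c (g₀ k) (w k) (gpt F (G k) (ptr F J ω)) l V := fun ω hω l hl V => by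
    have h4 := (hnb ω hω).en_ge zero_le_one (show l ≤ r + 1 by omega) V
    rw [show (1 : ℝ) + 1 = 2 by norm_num] at h4
    exact h4
  obtain ⟨U, hU⟩ : ∃ U, U = S * q := ⟨_, rfl⟩
  have e0 : U = C₄ * (R * q) + C₄ * q + R * q + n * q + 3 * q := by
    rw [hU, hS]
    ring
  have hq1 : 1 ≤ q := by omega
  have e1 : C₄ * (u + 1) ≤ C₄ * (R * q) + C₄ * q := by
    rw [hu]
    nlinarith
  have e2 : R * q = 2 * (r * q) + 4 * q := by rw [hR]; ring
  have e3 : r ≤ r * q := Nat.le_mul_of_pos_right _ (by omega)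
  have hUr : C₄ * (u + 1) + (r + 1) ≤ U := by omega
  have hUx : X + (r + 2) ≤ U := by omega
  have hUc : cl + (r + 2) ≤ U := by omega
  have hcU : cl ≤ U := by omega
  -- the tower at the own times
  have hlΓ : ∀ ω, B ω → ∀ l ≤ r, ∀ j < l, |gpt F (G k) (ptr F J ω) l (some (c j))| ≤
      2 ^ ((e k + (r + 1)) + nlp (g₀ k) j l) := by
    intro ω hω l hl j hj
    have hcl' : Set.InjOn c (Set.Iio l) := hc.mono (Set.Iio_subset_Iio (by omega))
    have h4 := coe_near (r := l) hcl' (g := g₀ k) (e := e k) (χ := gG G ω k)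
      (fun j => cvc_grd (hball.depG _ j) _)
      (fun l' hl' j hj => lip_bt hball hω (by omega) hj) (X := 1) zero_le_one
      (ψ := gpt F (G k) (ptr F J ω) l) (fun V h0' => by
        have h5 := hnb ω hω l (by omega) V
        rw [en_sz _ _ _ _ _ h0'] at h5
        exact h5) hj
    refine h4.trans ?_
    have h6 : (1 : ℝ) + 1 * l ≤ 2 ^ (r + 1) := by
      have h7 : l + 1 ≤ 2 ^ (r + 1) := (by omega : l + 1 ≤ r + 1).trans Nat.lt_two_pow_self.le
      have h8 : ((l + 1 : ℕ) : ℝ) ≤ ((2 ^ (r + 1) : ℕ) : ℝ) := by exact_mod_cast h7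
      push_cast at h8
      linarith
    refine (mul_le_mul_of_nonneg_right h6 (by positivity)).trans ?_
    rw [← pow_add]
    exact p2 (by omega)
  have hAf : AfO F c (n + 1) D₁ t (w k) (e k + (r + 1)) g' (2 ^ U) B₁ (gpt F (G k)) lam :=
    { dep := fun y l => cvc_grd (hball.depG y l) _
      deg := hdeg
      lip := fun ω hω l hl j hj => (hlΓ ω (b1 ω hω) l (by omega) j hj).trans (p2 (by
        have h4 : nlp (g₀ k) j l ≤ nlp g' j l := by
          rw [hg']
          exact nlp_lwr (by omega)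
        omega))
      vel := fun ω hω l hl => by
        obtain ⟨h4, h5⟩ := E.bdG hk hpp hgc (b1 ω hω)
        have h6 := hnb ω (b1 ω hω) l (by omega) (bd F ω)
        have h7 := h5 l (by omega)
        have h8 : (1 : ℝ) + l * 2 ^ cl ≤ 2 ^ (r + cl) := by
          have h6 : (l : ℝ) ≤ r := by exact_mod_cast (by omega : l ≤ r)
          have h7 := mul_le_mul_of_nonneg_right h6 (show (0 : ℝ) ≤ 2 ^ cl by positivity)
          have h8 := one_r r cl
          linarith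
        have e1 : bd F ω (some (c l)) - cv (gpt F (G k) (ptr F J ω) l) (bd F ω) =
            (bd F ω (some (c l)) - cv (gG G ω k l) (bd F ω)) -
            cv (gpt F (G k) (ptr F J ω) l - gG G ω k l) (bd F ω) := by
          rw [cv_subl]
          ring
        rw [e1]
        refine (abs_sub _ _).trans ((add_le_add (h4 l (by omega)) (h6.trans
          (mul_le_mul_of_nonneg_left (h7.trans (mul_le_mul_of_nonneg_right h8
            (by positivity))) (by positivity)))).trans ?_)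
        have h9 : (2 : ℝ) ^ cl + 2 ^ (r + cl) ≤ 2 ^ U := by
          have i1 : (2 : ℝ) ^ cl ≤ 2 ^ (r + cl) := p2 (by omega)
          have i2 : (2 : ℝ) ^ (r + cl + 1) ≤ 2 ^ U := p2 (by omega)
          rw [pow_succ] at i2
          linarith
        have h10 := hdv l (le_refl U)
        calc (2 : ℝ) ^ cl * 2 ^ w k / 2 ^ g₀ k l + 1 / 2 ^ g₀ k l * (2 ^ (r + cl) * 2 ^ w k) =
              (2 ^ cl + 2 ^ (r + cl)) * (2 ^ w k / 2 ^ g₀ k l) := by ring
          _ ≤ 2 ^ U * (2 ^ w k / 2 ^ g₀ k l) := mul_le_mul_of_nonneg_right h9 (by positivity)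
          _ = 2 ^ U / 2 ^ g₀ k l * 2 ^ w k := by ring
          _ ≤ 2 ^ U / 2 ^ g' l * 2 ^ w k := mul_le_mul_of_nonneg_right h10 (by positivity)
          _ = _ := by ring
      spa := fun ω hω l hl V hV => by
        have h4 := hspa ω (b1 ω hω) l (by omega) V hV
        have h5 := hnb ω (b1 ω hω) l (by omega) V
        have h6 := hge ω (b1 ω hω) l (by omega) V
        have n0 := en_nonneg c (g₀ k) (w k) (gG G ω k) l V
        have n1 := en_nonneg c (g₀ k) (w k) (gpt F (G k) (ptr F J ω)) l V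
        rw [hen (by omega)]
        have e1 : ∑ j ∈ range l, (lam (slam F t ω) l j).eval (rt F t ω) * V (some (c j)) -
            cv (gpt F (G k) (ptr F J ω) l) V =
            (∑ j ∈ range l, (lam (slam F t ω) l j).eval (rt F t ω) * V (some (c j)) -
            cv (gG G ω k l) V) - cv (gpt F (G k) (ptr F J ω) l - gG G ω k l) V := by
          rw [cv_subl]
          ring
        rw [e1]
        have h7 : (1 : ℝ) / 2 ^ g₀ k l ≤ 2 ^ X / 2 ^ g' l := by
          have := hdv l (Nat.zero_le X)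
          rwa [pow_zero] at this
        refine (abs_sub _ _).trans ((add_le_add h4 (h5.trans (mul_le_mul_of_nonneg_right h7
          n0))).trans ?_)
        have h8 : (2 : ℝ) * 2 ^ X * 2 ^ (r + 1) ≤ 2 ^ U := by
          have i2 : (2 : ℝ) ^ (X + (r + 1) + 1) ≤ 2 ^ U := p2 (by omega)
          rw [pow_succ, pow_add] at i2
          linarith
        calc 2 ^ X / 2 ^ g' l * en c (g₀ k) (w k) (gG G ω k) l V +
              2 ^ X / 2 ^ g' l * en c (g₀ k) (w k) (gG G ω k) l V =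
              2 * 2 ^ X / 2 ^ g' l * en c (g₀ k) (w k) (gG G ω k) l V := by ring
          _ ≤ 2 * 2 ^ X / 2 ^ g' l * (2 ^ (r + 1) *
                en c (g₀ k) (w k) (gpt F (G k) (ptr F J ω)) l V) :=
              mul_le_mul_of_nonneg_left h6 (by positivity)
          _ = 2 * 2 ^ X * 2 ^ (r + 1) / 2 ^ g' l *
                en c (g₀ k) (w k) (gpt F (G k) (ptr F J ω)) l V := by ring
          _ ≤ _ := mul_le_mul_of_nonneg_right (div_le_div_of_nonneg_right h8 (by positivity)) n1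
      der := fun ω hω l hl V hV => by
        have h4 := b3 l hl ω hω V hV
        have h6 := hge ω (b1 ω hω) l (by omega) V
        have n1 := en_nonneg c (g₀ k) (w k) (gpt F (G k) (ptr F J ω)) l V
        rw [hen (by omega)]
        refine h4.trans ?_
        have h8 : (2 : ℝ) ^ (C₄ * (u + 1)) * 2 ^ (r + 1) ≤ 2 ^ U := by
          rw [← pow_add]
          exact p2 hUr
        calc 2 ^ (w k - t) * (2 ^ (C₄ * (u + 1)) / 2 ^ g' l *
              en c (g₀ k) (w k) (gG G ω k) l V) ≤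
              2 ^ (w k - t) * (2 ^ (C₄ * (u + 1)) / 2 ^ g' l * (2 ^ (r + 1) *
                en c (g₀ k) (w k) (gpt F (G k) (ptr F J ω)) l V)) :=
              mul_le_mul_of_nonneg_left (mul_le_mul_of_nonneg_left h6 (by positivity))
                (by positivity)
          _ = (2 ^ (C₄ * (u + 1)) * 2 ^ (r + 1)) * (2 ^ (w k - t) / 2 ^ g' l *
                en c (g₀ k) (w k) (gpt F (G k) (ptr F J ω)) l V) := by ring
          _ ≤ 2 ^ U * (2 ^ (w k - t) / 2 ^ g' l *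
                en c (g₀ k) (w k) (gpt F (G k) (ptr F J ω)) l V) :=
              mul_le_mul_of_nonneg_right h8 (by positivity)
          _ = _ := by ring }
  -- the tower on the window
  obtain ⟨B₂, c1, c2, c3⟩ := hafo (k := U) hB₁ (hc.mono (Set.Iio_subset_Iio (by omega))) htk hwJ
    hθ (hTm B₁ hB₁ b1 b2) (by
      have h4 := (hmono hC2C).1
      have h5 : (t : ℝ) ≤ w k := by exact_mod_cast htk
      have h6 : 0 < Real.log 2 := Real.log_pos (by norm_num)
      have h7 : ((J : ℝ) - w k) * Real.log 2 ≤ ((J : ℝ) - t) * Real.log 2 :=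
        mul_le_mul_of_nonneg_right (by linarith) h6.le
      linarith) ((hmono hC2C).2.trans (p2 hcU)) hAf
  refine ⟨B₂, fun ω hω => b1 ω (c1 ω hω), ?_, ?_⟩
  · have : (2 : ℝ) ^ (n + 1) * Pe F.p B₁ ≤ 2 ^ (n + 1) * (2 * Pe F.p B₂) :=
      mul_le_mul_of_nonneg_left (by linarith) (by positivity)
    calc Pe F.p B ≤ 2 ^ (n + 1) * (2 * Pe F.p B₂) := b2.trans this
      _ = _ := by ring
  · refine afd_mono c3 (p2 ?_)
    rw [← hq, hC, hU]
    nlinarith [Nat.zero_le (C₂ * (S * q)), Nat.zero_le (C₄ * q), Nat.zero_le (C₃ * q)]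

end Pool.TN
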