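import Pool.Agent.H66.D2.Stc
import Pool.Agent.H23.D2.Thn
import Pool.Agent.H23.D2.Bal

/-!
# The gradients of the ball charts of the places of the list

`ball_lip`: two balls of one window, the second one without relations, the first one with an exponent
`e₁`: the gradients of the second one have the exponent `e₁` up to the loss. `cev_lip`: the same for
all windows of the event of a static cell.
-/

set_option autoImplicit false

namespace Pool.TN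

open Finset Real MvPolynomial
open Pool.Agent.H49.Ent Pool.Agent.H32.Dense Pool.STK Pool.KA Pool.KSAT Pool.K2S Pool.PB Pool.S6C
open Pool.GEN Pool.CHT Pool.CHX Pool.ISO Pool.D2R Pool.D2Z Pool.D2F

variable {m J : ℕ}

/-- Fewer coordinates (31's `relvF_le`). -/
theorem relvF_sub {F : Fam m J} {c : ℕ → Fin m} {i r a w : ℕ} {g : ℕ → ℕ} {D h : ℕ} {κ : ℝ}
    {B₀ : F.Ω → Prop} {G : PtT F → ℕ → MvPolynomial (Option (Fin m)) ℝ}
    (hR : RelvF F c r a w g D h κ B₀ G) (hc : Set.InjOn c (Set.Iio r))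
    (hG : ∀ y l, DepC c l (G y l)) (hi : i ≤ r) : RelvF F c i a w g D h κ B₀ G := by
  intro B' hB hP Dx Dl M h1 h2 h3 h4 hM h5 h6
  obtain ⟨B'', k1, k2, k3⟩ := hR B' hB hP Dx Dl M h1 h2
    (fun y b b' e1 e2 => h3 y b b' e1 fun l hl => e2 l (by omega))
    (fun s b b' e1 e2 => h4 s b b' e1 fun l hl => e2 l (by omega)) hM h5
    (fun ω hω b hb => h6 ω hω b (hb.mono le_rfl hi))
  refine ⟨B'', k1, k2, fun ω hω b hb => ?_⟩
  obtain ⟨b', m1, m2, m3⟩ := nbx_up hc (hG (ptr F J ω)) hi hb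
  have h7 := k3 ω hω b' m1
  rwa [h3 (ptr F J ω) b' b m2 m3] at h7

/-- **Two balls of one window**: the gradients. -/
theorem ball_lip (m K l₀ : ℕ) (hK : 1 ≤ K) (hl₀ : l₀ < 3) : ∃ C : ℕ, 1 ≤ C ∧ ∀ {J : ℕ}
    {F : Fam m J} {c : ℕ → Fin m} {w e₁ e₂ h Y : ℕ} {g g' : ℕ → ℕ} {κ κ' : ℝ}
    {B₀ B : F.Ω → Prop} {G₁ G₂ : PtT F → ℕ → MvPolynomial (Option (Fin m)) ℝ}
    {H₁ H₂ : LnT F → ℕ → MvPolynomial (Option (Fin m)) ℝ}, Set.InjOn c (Set.Iio l₀) → w ≤ J →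
    RelvF F c l₀ w w g K h κ B₀ G₂ → Sub B B₀ → κ' * Pe F.p B₀ ≤ Pe F.p B → 0 ≤ κ →
    κ * (4 * 4 ^ l₀) ≤ κ' → ChOK F c (l₀ + 1) (fun _ => K) w w e₁ g' B G₁ H₁ →
    ChOK F c (l₀ + 1) (fun _ => K) w w e₂ g B G₂ H₂ → h ≤ Y →
    (∀ l ≤ l₀, g' l ≤ g l + Y ∧ g l ≤ g' l + Y) →
    ∃ B' : F.Ω → Prop, Sub B' B ∧ Pe F.p B ≤ 2 * 4 ^ l₀ * Pe F.p B' ∧ ∀ ω, B' ω →
      Nc c g w (l₀ + 1) (2 ^ (C * (Y + 1))) (fun l => grd (G₁ (ptr F J ω) l) (bt F ω))
        (fun l => grd (G₂ (ptr F J ω) l) (bt F ω)) ∧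
      ∀ l ≤ l₀, ∀ j < l, |grd (G₂ (ptr F J ω) l) (bt F ω) (some (c j))| ≤
        2 ^ (e₁ + C * (Y + 1) + nlp g j l) := by
  obtain ⟨C₁, hbo⟩ := bal_out K l₀ hK
  have hbx := fun l : ℕ => box_all l K K
  choose Cb hCb hbx using hbx
  obtain ⟨n, hn⟩ : ∃ n : ℕ, ∀ l ≤ l₀, Cb l ≤ 2 ^ n := by
    have h1 : ∀ l, ∃ n : ℕ, Cb l ≤ 2 ^ n := fun l => by
      obtain ⟨n, hn⟩ := pow_unbounded_of_one_lt (Cb l) (by norm_num : (1 : ℝ) < 2)
      exact ⟨n, hn.le⟩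
    choose f hf using h1
    refine ⟨∑ l ∈ range (l₀ + 1), f l, fun l hl => (hf l).trans
      (pow_le_pow_right₀ (by norm_num) ?_)⟩
    exact Finset.single_le_sum (f := f) (fun _ _ => Nat.zero_le _)
      (Finset.mem_range.2 (by omega))
  refine ⟨20 * C₁ + 20 * n + 100, by omega, ?_⟩
  intro J F c w e₁ e₂ h Y g g' κ κ' B₀ B G₁ G₂ H₁ H₂ hc hwJ hR hB hP hκ0 hκ h₁ h₂ hhY hgg
  obtain ⟨B', b1, b2, b3⟩ := hbo hc le_rfl hwJ hR hB hP hκ0 hκ h₁ h₂
  refine ⟨B', b1, b2, fun ω hω => ?_⟩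
  have hω' : B ω := b1 ω hω
  -- the two balls
  have k1 : Nc c g w (l₀ + 1) (2 ^ (n + C₁ * (h + 1) + Y))
      (fun l => grd (G₂ (ptr F J ω) l) (bt F ω)) (fun l => grd (G₁ (ptr F J ω) l) (bt F ω)) := by
    intro l hl V
    have hl' : l ≤ l₀ := by omega
    have h3 := (hbx l (Q := G₁ (ptr F J ω) l - G₂ (ptr F J ω) l) (ψ := G₂ (ptr F J ω)) (g := g)
      (a := w) (M := 2 ^ (C₁ * (h + 1)) / 2 ^ min (g' l) (g l)) (x := bt F ω)
      (hc.mono (Set.Iio_subset_Iio hl')) (h₂.degG _) (h₂.depG _)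
      (fun y y' e1 e2 => by
        rw [map_sub, map_sub, h₁.depG _ l y y' e1 e2, h₂.depG _ l y y' e1 e2])
      ((totalDegree_sub _ _).trans (max_le (h₁.degG _ l) (h₂.degG _ l))) (by positivity)
      (fun b hb => by
        rw [map_sub]
        exact b3 ω hω l hl' b hb) (fun j hj => h₂.pos ω hω' j (by omega))).1 V
    rw [nrm_en, dd_sub] at h3
    rw [cv_subl, cv_grd, cv_grd]
    refine h3.trans (mul_le_mul_of_nonneg_right ?_ (en_nonneg _ _ _ _ _ _))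
    have h4 : (1 : ℝ) / 2 ^ min (g' l) (g l) ≤ 2 ^ Y / 2 ^ g l := by
      rw [div_le_div_iff₀ (by positivity) (by positivity), one_mul, ← pow_add]
      refine pow_le_pow_right₀ (by norm_num) ?_
      have := (hgg l hl').2
      omega
    have h5 := hn l hl'
    have h6 : (0 : ℝ) ≤ 1 / 2 ^ min (g' l) (g l) := by positivity
    have h7 : (0 : ℝ) ≤ 2 ^ (C₁ * (h + 1)) := by positivity
    calc Cb l * (2 ^ (C₁ * (h + 1)) / 2 ^ min (g' l) (g l)) =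
          Cb l * 2 ^ (C₁ * (h + 1)) * (1 / 2 ^ min (g' l) (g l)) := by ring
      _ ≤ 2 ^ n * 2 ^ (C₁ * (h + 1)) * (2 ^ Y / 2 ^ g l) :=
          mul_le_mul (mul_le_mul_of_nonneg_right h5 h7) h4 h6 (by positivity)
      _ = _ := by
        rw [pow_add, pow_add]
        ring
  have k3 := k1.symm2
  obtain ⟨Z, hZ⟩ : ∃ Z, Z = n + C₁ * (h + 1) + Y + (n + C₁ * (h + 1) + Y + 1) * (l₀ + 1) :=
    ⟨_, rfl⟩
  rw [← hZ] at k3
  have e1 : (n + C₁ * (h + 1) + Y + 1) * (l₀ + 1) ≤ (n + C₁ * (h + 1) + Y + 1) * 3 :=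
    Nat.mul_le_mul_left _ (by omega)
  have e3 : C₁ * (h + 1) ≤ C₁ * (Y + 1) := Nat.mul_le_mul_left _ (by omega)
  have e4 : n ≤ n * (Y + 1) := Nat.le_mul_of_pos_right _ (by omega)
  have e5 : (20 * C₁ + 20 * n + 100) * (Y + 1) =
      20 * (C₁ * (Y + 1)) + 20 * (n * (Y + 1)) + 100 * (Y + 1) := by ring
  refine ⟨k3.mono (pow_le_pow_right₀ (by norm_num) (by
    rw [e5]
    omega)), ?_⟩
  intro l hl j hj
  have hcl : Set.InjOn c (Set.Iio l) := hc.mono (Set.Iio_subset_Iio hl)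
  have k5 := coe_near (r := l) hcl (g := g) (e := e₁ + 2 * Y)
    (χ := fun l => grd (G₁ (ptr F J ω) l) (bt F ω)) (fun j => cvc_grd (h₁.depG _ j) _)
    (fun l' hl' j hj => (lip_bt h₁ hω' (by omega) hj).trans (pow_le_pow_right₀ (by norm_num) (by
      have h1 := nlp_le (g := g') (g' := g) (j := j) (l := l') (x := Y) (y := Y)
        (fun i _ hi => (hgg i (by omega)).1) (hgg l' (by omega)).2 hj.le
      omega))) (X := 2 ^ Z) (by positivity)
    (ψ := grd (G₂ (ptr F J ω) l) (bt F ω)) (fun V h0' => by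
      have h5 := k3 l (by omega) V
      rw [en_sz _ _ _ _ _ h0'] at h5
      exact h5) hj
  refine k5.trans ?_
  have h6 : (1 : ℝ) + 2 ^ Z * l ≤ 2 ^ (Z + 2) := by
    have h7 : (l : ℝ) ≤ 2 := by exact_mod_cast (show l ≤ 2 by omega)
    have h8 : (1 : ℝ) ≤ 2 ^ Z := one_le_pow₀ (by norm_num)
    rw [pow_add]
    nlinarith
  refine (mul_le_mul_of_nonneg_right h6 (by positivity)).trans ?_
  rw [← pow_add]
  refine pow_le_pow_right₀ (by norm_num) ?_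
  rw [e5]
  omega

/-- Two near lists: the coefficients at the last place. -/
theorem nc_last {c : ℕ → Fin m} {g : ℕ → ℕ} {a n l : ℕ} {K : ℝ}
    {χ χ' : ℕ → Option (Fin m) → ℝ} (hc : Set.InjOn c (Set.Iio n)) (hχ : ∀ l, CvC c l (χ l))
    (h : Nc c g a n K χ χ') (hl : l + 1 < n) :
    |χ' (l + 1) (some (c l)) - χ (l + 1) (some (c l))| ≤ K * (2 ^ g l / 2 ^ g (l + 1)) := by
  have h1 := h (l + 1) hl (un (c l))
  rw [en_sz _ _ _ _ _ (un_none _), cv_subl, cv_un, cv_un] at h1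
  have h2 : sz c g χ (l + 1) (un (c l)) = 2 ^ g l := by
    unfold sz
    rw [Finset.sum_eq_single l]
    · have h2 : un (c l) (some (c l)) = 1 := if_pos rfl
      have h3 : χ l (some (c l)) = 0 := hχ l (c l) fun i hi h4 => by
        have := hc (Set.mem_Iio.2 (show i < n by omega)) (Set.mem_Iio.2 (show l < n by omega)) h4.symm
        omega
      rw [cv_un, h2, h3, sub_zero, abs_one, mul_one]
    · intro i hi hne
      rw [Finset.mem_range] at hi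
      have hil : i < l := by omega
      have h2 : un (c l) (some (c i)) = 0 := by
        unfold un
        rw [if_neg (fun h3 => ?_)]
        have := hc (Set.mem_Iio.2 (show i < n by omega)) (Set.mem_Iio.2 (show l < n by omega))
          (Option.some_injective _ h3)
        omega
      have h3 : χ i (some (c l)) = 0 := hχ i (c l) fun i' hi' h4 => by
        have := hc (Set.mem_Iio.2 (show i' < n by omega)) (Set.mem_Iio.2 (show l < n by omega))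
          h4.symm
        omega
      rw [cv_un, h2, h3, sub_zero, abs_zero, mul_zero]
    · intro h4
      exact absurd (Finset.mem_range.2 (Nat.lt_succ_self l)) h4
  rw [h2] at h1
  refine h1.trans (le_of_eq ?_)
  ring

/-- **The gradients of the ball charts of the places of the list**, on the event of a static cell. -/
theorem cev_lip (m K l₀ : ℕ) (hK : 1 ≤ K) (hl₀ : l₀ < 3) : ∃ C : ℕ, 1 ≤ C ∧ ∀ {J : ℕ}
    {F : Fam m J} {c : ℕ → Fin m} {r D D' N M A cl : ℕ} {Sc : ℕ → Prop} {w e h pp : ℕ → ℕ}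
    {z g gc gT g₀ : ℕ → ℕ → ℕ} {κ : ℝ} {B : F.Ω → Prop}
    {G : ℕ → PtT F → ℕ → MvPolynomial (Option (Fin m)) ℝ}
    {H : ℕ → LnT F → ℕ → MvPolynomial (Option (Fin m)) ℝ}
    {T : ℕ → PtT F → ℕ → MvPolynomial (Option (Fin m)) ℝ}
    {TH : ℕ → LnT F → ℕ → MvPolynomial (Option (Fin m)) ℝ}
    {Gt : ℕ → PtT F → MvPolynomial (Option (Fin m)) ℝ}
    {Ht : ℕ → LnT F → MvPolynomial (Option (Fin m)) ℝ},
    CEv F c r D K N M A cl Sc w e h pp z g gc gT g₀ κ B G H T TH Gt Ht → l₀ ≤ r → D ≤ K →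
    D' ≤ K → ∀ {e' Y : ℕ} {g' : ℕ → ℕ → ℕ}
    {G' : ℕ → PtT F → ℕ → MvPolynomial (Option (Fin m)) ℝ}
    {H' : ℕ → LnT F → ℕ → MvPolynomial (Option (Fin m)) ℝ},
    (∀ k ≤ N, ChOK F c (l₀ + 1) (fun _ => D') (w k) (w k) e' (g' k) B (G' k) (H' k)) →
    (∀ k ≤ N, h k ≤ Y) →
    (∀ k ≤ N, ∀ l ≤ l₀, g' k l ≤ g₀ k l + Y ∧ g₀ k l ≤ g' k l + Y) → 0 ≤ κ →
    κ * (4 * 4 ^ l₀) * (2 * 4 ^ l₀) ^ N ≤ 1 →
    ∃ B' : F.Ω → Prop, Sub B' B ∧ Pe F.p B ≤ (2 * 4 ^ l₀) ^ (N + 1) * Pe F.p B' ∧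
      ∀ ω, B' ω → ∀ k ≤ N, Nc c (g₀ k) (w k) (l₀ + 1) (2 ^ (C * (Y + 1)))
          (fun l => grd (G' k (ptr F J ω) l) (bt F ω)) (gG G ω k) ∧
        ∀ l ≤ l₀, ∀ j < l, |gG G ω k l (some (c j))| ≤
          2 ^ (e' + C * (Y + 1) + nlp (g₀ k) j l) := by
  obtain ⟨C, hC, hlip⟩ := ball_lip m K l₀ hK hl₀
  refine ⟨C, hC, ?_⟩
  intro J F c r D D' N M A cl Sc w e h pp z g gc gT g₀ κ B G H T TH Gt Ht E hlr hDK hDK' e' Y g' G'
    H' hB' hh hgg hκ hκ1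
  have hp := Pe_nonneg F.isLaw
  obtain ⟨Q, hQ⟩ : ∃ Q : ℝ, Q = 2 * 4 ^ l₀ := ⟨_, rfl⟩
  have hQ1 : 1 ≤ Q := by
    rw [hQ]
    have : (1 : ℝ) ≤ 4 ^ l₀ := one_le_pow₀ (by norm_num)
    linarith
  rw [← hQ] at hκ1
  have key : ∀ n ≤ N + 1, ∃ B' : F.Ω → Prop, Sub B' B ∧ Pe F.p B ≤ Q ^ n * Pe F.p B' ∧
      ∀ ω, B' ω → ∀ k < n, Nc c (g₀ k) (w k) (l₀ + 1) (2 ^ (C * (Y + 1)))
          (fun l => grd (G' k (ptr F J ω) l) (bt F ω)) (gG G ω k) ∧
        ∀ l ≤ l₀, ∀ j < l, |gG G ω k l (some (c j))| ≤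
          2 ^ (e' + C * (Y + 1) + nlp (g₀ k) j l) := by
    intro n
    induction n with
    | zero => exact fun _ => ⟨B, fun _ h => h, by simp, fun ω _ k hk => absurd hk (by omega)⟩
    | succ n ih =>
      intro hn
      obtain ⟨B₁, k1, k2, k3⟩ := ih (by omega)
      have hnN : n ≤ N := by omega
      have hE := E.evs n hnN
      have hQn : (0 : ℝ) < Q ^ n := by positivity
      obtain ⟨B₂, l1, l2, l3⟩ := hlip (F := F) (c := c) (w := w n) (e₁ := e') (e₂ := e n)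
        (h := h n) (Y := Y) (g := g₀ n) (g' := g' n) (κ := κ) (κ' := 1 / Q ^ n) (B₀ := B)
        (B := B₁) (G₁ := G' n) (G₂ := G n) (H₁ := H' n) (H₂ := H n)
        (E.inj.mono (Set.Iio_subset_Iio (by omega))) ((E.wA n hnN).trans E.AJ)
        (relvF_sub hE.relb (E.inj.mono (Set.Iio_subset_Iio (by omega)))
          (fun y l => hE.ball.depG y l) hlr) k1 (by
          rw [div_mul_eq_mul_div, one_mul, div_le_iff₀ hQn]
          linarith) hκ (by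
          rw [le_div_iff₀ hQn]
          refine le_trans (mul_le_mul_of_nonneg_left (pow_le_pow_right₀ hQ1 hnN) ?_) hκ1
          positivity)
        (((hB' n hnN).sub k1).mono le_rfl (fun _ => hDK') le_rfl le_rfl)
        ((hE.ball.sub k1).mono (by omega) (fun _ => hDK) le_rfl le_rfl) (hh n hnN)
        (fun l hl => hgg n hnN l hl)
      refine ⟨B₂, fun ω hω => k1 ω (l1 ω hω), ?_, fun ω hω k hk => ?_⟩
      · rw [← hQ] at l2
        calc Pe F.p B ≤ Q ^ n * Pe F.p B₁ := k2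
          _ ≤ Q ^ n * (Q * Pe F.p B₂) := mul_le_mul_of_nonneg_left l2 hQn.le
          _ = _ := by
            rw [pow_succ]
            ring
      · rcases Nat.lt_or_ge k n with h | h
        · exact k3 ω (l1 ω hω) k h
        · obtain rfl : k = n := by omega
          exact l3 ω hω
  obtain ⟨B₁, k1, k2, k3⟩ := key (N + 1) le_rfl
  rw [hQ] at k2
  exact ⟨B₁, k1, k2, fun ω hω k hk => k3 ω hω k (by omega)⟩

end Pool.TN
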