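import Pool.Agent.H23.D2.Rcy
import Pool.Agent.H23.D2.Lpx

/-!
# The ball charts of a coordinate of the list, in a class

`RecL.balls`: for a coordinate `c j` of the list as a target, the ball charts of the places `≤ j` of the
main windows, with the exponent of the record of the list. `RecL.lip`: the gradients of the ball charts
of the places `≤ j` of every static cell with the same windows have this exponent, up to the loss.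
-/

set_option autoImplicit false

namespace Pool.D2R

open Finset Real MvPolynomial
open Pool.Agent.H49.Ent Pool.Agent.H32.Dense Pool.STK Pool.KA Pool.KSAT Pool.K2S Pool.PB Pool.S6C
open Pool.GEN Pool.CHT Pool.CHX Pool.D2F
open Pool.LBT (ThrOf)
open Pool.PKG (RecQ PtI KdQ Kd)

/-- **The ball charts of the coordinate** `c j` **of the list.** -/
theorem RecL.balls (m j S₂ : ℕ) (hj : 1 ≤ j) (hS₂ : 1 ≤ S₂) : ∃ D : ℕ, 1 ≤ D ∧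
    ∃ C : ℝ, 1 ≤ C ∧ ∀ (y gp : ℝ), 0 < y → 0 < gp → ∃ ε₀ : ℝ, 0 < ε₀ ∧ ∀ {i : ℕ} {S : PCl m}
    {P P₂ : List (Fin m) × Fin m → ℝ → ℝ → ℝ} {θ θ₂ : ℝ} {c : ℕ → Fin m} {Pt : ℝ → ℝ → ℝ}
    {L T : ℕ → ℝ → ℝ → ℝ} {Sl : ℕ → ℝ} {kd : ℕ → Kd} {S₀ N : ℕ} {A V : ℕ → ℝ} {N' : ℕ}
    {V' : ℕ → ℝ} {Eb e₂ Eb' e' K ε q t : ℝ}, j < i →
    RecQ S P P₂ θ θ₂ c i Pt L T Sl kd S₀ N A V S₂ N' V' Eb e₂ K ε q t →
    Pool.PKG.RecL S P θ c j L S₀ N A V S₂ N' V' Eb' e' K q t → S₀ ≤ S₂ → 0 ≤ ε → ε ≤ ε₀ →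
    1 ≤ K → ∀ (A' : ℝ) (N₁ : ℕ) (v : ℕ → ℝ), A' ≤ K →
    (∀ k ≤ N₁, -K + 1 ≤ v k ∧ v k + gp ≤ A') → (∀ k ≤ N₁, ∃ j < N, A j = A' ∧ V j = v k) →
    ∃ K₁ : ℝ, 0 < K₁ ∧ Bas S (fun J F A₀ =>
      ∃ (B : F.Ω → Prop) (e : ℕ) (g : ℕ → ℕ → ℕ)
        (G : ℕ → PtT F → ℕ → MvPolynomial (Option (Fin m)) ℝ)
        (H : ℕ → LnT F → ℕ → MvPolynomial (Option (Fin m)) ℝ), Sub B A₀ ∧
        Pe F.p A₀ ≤ K₁ * Pe F.p B ∧ (e : ℝ) ≤ (Eb' + y * q) * J ∧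
        ∀ k ≤ N₁, ChOK F c (j + 1) (fun _ => D) ⌊(t + v k * q) * J⌋₊ ⌊(t + v k * q) * J⌋₊ e (g k)
            B (G k) (H k) ∧
          ∀ l ≤ j, L l (t + v k * q) (t + v k * q) * J - y * q * J ≤ g k l ∧
            (g k l : ℝ) ≤ L l (t + v k * q) (t + v k * q) * J) := by
  obtain ⟨D, hD, hwin⟩ := RecL.wins m j S₂ hj hS₂
  obtain ⟨C, CB, hC, hCB, hwin⟩ := hwin D le_rfl
  refine ⟨D, hD, C, hC, ?_⟩
  intro y gp hy hgp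
  obtain ⟨y₀, hy₀⟩ : ∃ y₀ : ℝ, y₀ = min (y / 2) (1 / (4 * C)) := ⟨_, rfl⟩
  have hC0 : 0 < C := by linarith
  have hy0 : 0 < y₀ := by
    rw [hy₀]
    exact lt_min (by positivity) (by positivity)
  have hy1 : y₀ ≤ y / 2 := by rw [hy₀]; exact min_le_left _ _
  have hy2 : 4 * (C * y₀) ≤ 1 := by
    have : y₀ ≤ 1 / (4 * C) := by rw [hy₀]; exact min_le_right _ _
    rw [le_div_iff₀ (by positivity)] at this
    linarith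
  refine ⟨y₀ / (4 * C), by positivity, ?_⟩
  intro i S P P₂ θ θ₂ c Pt L T Sl kd S₀ N A V N' V' Eb e₂ Eb' e' K ε q t hji R RL hSS hε hεε hK A'
    N₁ v hAK hv hmn
  have hq := R.q0
  have hε4 : 4 * (C * ε) ≤ y₀ := by
    rw [le_div_iff₀ (by positivity)] at hεε
    linarith
  have hgq : 0 < gp / 2 * q := by positivity
  obtain ⟨K₁, b, hK₁, hbas⟩ := hwin hji R RL hSS hε A' y₀ (gp / 2) N₁ N₁ 0 v (fun _ => False) hK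
    hy0 hy2 hε4 (by positivity) le_rfl hAK hmn (fun k hk => ⟨(hv k hk).1, by
      linarith [(hv k hk).2]⟩) (fun k h1 h2 => by omega) (fun l _ h => h.elim)
  obtain ⟨J₁, hJ₁⟩ := exists_nat_ge (2 / (gp * q))
  refine ⟨K₁, hK₁, Bas.mono J₁ (hbas 1 one_pos) ?_⟩
  rintro J hJ F A₀ hA
  have hJ0 : (0 : ℝ) ≤ J := Nat.cast_nonneg J
  have hgJ : 2 ≤ gp * q * J := by
    have h1 : 2 / (gp * q) ≤ (J : ℝ) := hJ₁.trans (by exact_mod_cast hJ)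
    rw [div_le_iff₀ (by positivity)] at h1
    linarith
  have ht0 := R.t0
  have hpos : ∀ k ≤ N₁, 0 ≤ t + v k * q ∧ t + v k * q + gp * q ≤ t + A' * q := by
    intro k hk
    obtain ⟨h1, h2⟩ := hv k hk
    have h3 := mul_le_mul_of_nonneg_right h1 hq.le
    have h4 := mul_le_mul_of_nonneg_right h2 hq.le
    constructor <;> nlinarith
  obtain ⟨B, gc, gT, g₀, G, H, Th, TH, Gt, Ht, k1, k2, W, -⟩ := hA
    (fun k _ => ⌊(t + A' * q) * J⌋₊ - ⌊(t + v k * q) * J⌋₊) (fun k hk p _ => by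
    obtain ⟨h1, h2⟩ := hpos k hk
    have h3 : (t + v k * q) * (J : ℝ) + gp * q * J ≤ (t + A' * q) * J := by
      have := mul_le_mul_of_nonneg_right h2 hJ0
      linarith
    have h4 : (⌊(t + v k * q) * (J : ℝ)⌋₊ : ℝ) ≤ (t + v k * q) * J :=
      Nat.floor_le (mul_nonneg h1 hJ0)
    have h5 : (t + A' * q) * (J : ℝ) - 1 < ⌊(t + A' * q) * (J : ℝ)⌋₊ := Nat.sub_one_lt_floor _
    have h6 : ⌊(t + v k * q) * (J : ℝ)⌋₊ ≤ ⌊(t + A' * q) * (J : ℝ)⌋₊ :=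
      Nat.floor_le_floor (by linarith)
    refine ⟨?_, le_rfl⟩
    rw [Nat.cast_sub h6]
    linarith)
  have hyJ : y₀ * q * J ≤ y * q * J := by
    have h1 : y₀ ≤ y := by linarith
    exact mul_le_mul_of_nonneg_right (mul_le_mul_of_nonneg_right h1 hq.le) hJ0
  have hE0 : 0 ≤ Eb' := RL.Eb0.le
  refine ⟨B, ⌊(Eb' + y₀ * q + y₀ * q) * J⌋₊, g₀, G, H, k1, k2, ?_, fun k hk => ⟨?_, ?_⟩⟩
  · refine (Nat.floor_le (by positivity)).trans (mul_le_mul_of_nonneg_right ?_ hJ0)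
    have := mul_le_mul_of_nonneg_right hy1 hq.le
    linarith
  · exact (W.evs k hk).ball
  · intro l hl
    obtain ⟨-, -, t3, t4, -, -⟩ := W.g_num hk hl
    exact ⟨by linarith, t4⟩

open Pool.TN (CEv gG cev_lip) in
open Pool.ISO in
/-- **The gradients of the ball charts of the places of the list.** -/
theorem RecL.lip (m j S₂ : ℕ) (hj : 1 ≤ j) (hj3 : j < 3) (hS₂ : 1 ≤ S₂) : ∃ D' : ℕ, 1 ≤ D' ∧
    ∀ Dr : ℕ, D' ≤ Dr → ∀ (y gp : ℝ), 0 < y → 0 < gp → ∃ ε₀ y₁ : ℝ, 0 < ε₀ ∧ 0 < y₁ ∧ y₁ ≤ y ∧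
    ∀ {i : ℕ} {S : PCl m}
    {P P₂ : List (Fin m) × Fin m → ℝ → ℝ → ℝ} {θ θ₂ : ℝ} {c : ℕ → Fin m} {Pt : ℝ → ℝ → ℝ}
    {L T : ℕ → ℝ → ℝ → ℝ} {Sl : ℕ → ℝ} {kd : ℕ → Kd} {S₀ N : ℕ} {A V : ℕ → ℝ} {N' : ℕ}
    {V' : ℕ → ℝ} {Eb e₂ Eb' e' K ε q t : ℝ}, j < i →
    RecQ S P P₂ θ θ₂ c i Pt L T Sl kd S₀ N A V S₂ N' V' Eb e₂ K ε q t →
    Pool.PKG.RecL S P θ c j L S₀ N A V S₂ N' V' Eb' e' K q t → S₀ ≤ S₂ → 0 ≤ ε → ε ≤ ε₀ →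
    1 ≤ K → ∀ (A' : ℝ) (N₁ : ℕ) (v : ℕ → ℝ), A' ≤ K →
    (∀ k ≤ N₁, -K + 1 ≤ v k ∧ v k + gp ≤ A') → (∀ k ≤ N₁, ∃ j < N, A j = A' ∧ V j = v k) →
    ∃ K₁ : ℝ, 0 < K₁ ∧ Bas S (fun J F A₀ =>
      ∃ (B₁ : F.Ω → Prop) (eL : ℕ), Sub B₁ A₀ ∧ Pe F.p A₀ ≤ K₁ * Pe F.p B₁ ∧
        (eL : ℝ) ≤ (Eb' + y * q) * J ∧
        ∀ {D M A₁ cl : ℕ} {Sc : ℕ → Prop} {e h pp : ℕ → ℕ} {z g gc gT g₀ : ℕ → ℕ → ℕ} {κ : ℝ}
          {B : F.Ω → Prop} {G : ℕ → PtT F → ℕ → MvPolynomial (Option (Fin m)) ℝ}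
          {H : ℕ → LnT F → ℕ → MvPolynomial (Option (Fin m)) ℝ}
          {Th : ℕ → PtT F → ℕ → MvPolynomial (Option (Fin m)) ℝ}
          {TH : ℕ → LnT F → ℕ → MvPolynomial (Option (Fin m)) ℝ}
          {Gt : ℕ → PtT F → MvPolynomial (Option (Fin m)) ℝ}
          {Ht : ℕ → LnT F → MvPolynomial (Option (Fin m)) ℝ},
          CEv F c i D Dr N₁ M A₁ cl Sc (fun k => ⌊(t + v k * q) * J⌋₊) e h pp z g gc gT g₀ κ B G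
            H Th TH Gt Ht → D ≤ Dr → Sub B B₁ → 0 ≤ κ → κ * (4 * 4 ^ j) * (2 * 4 ^ j) ^ N₁ ≤ 1 →
          (∀ k ≤ N₁, (h k : ℝ) ≤ y₁ * q * J ∧
            ∀ l ≤ j, |(g₀ k l : ℝ) - L l (t + v k * q) (t + v k * q) * J| ≤ y₁ * q * J) →
          ∃ B' : F.Ω → Prop, Sub B' B ∧ Pe F.p B ≤ (2 * 4 ^ j) ^ (N₁ + 1) * Pe F.p B' ∧
            ∀ ω, B' ω → ∀ k ≤ N₁, ∀ l ≤ j, ∀ x < l, |gG G ω k l (some (c x))| ≤
              2 ^ (eL + nlp (g₀ k) x l)) := by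
  obtain ⟨D, hD, C, hC, hbal⟩ := RecL.balls m j S₂ hj hS₂
  refine ⟨D, hD, fun Dr hDr => ?_⟩
  obtain ⟨Cl, hCl, hlip⟩ := cev_lip m Dr j (hD.trans hDr) hj3
  have hClR : (1 : ℝ) ≤ Cl := by exact_mod_cast hCl
  intro y gp hy hgp
  obtain ⟨y₁, hy₁⟩ : ∃ y₁ : ℝ, y₁ = y / (16 * Cl) := ⟨_, rfl⟩
  have hy₁0 : 0 < y₁ := by rw [hy₁]; positivity
  have hy₁e : Cl * y₁ = y / 16 := by rw [hy₁]; field_simp
  have hy₁y : y₁ ≤ y / 16 := by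
    rw [← hy₁e]
    exact le_mul_of_one_le_left hy₁0.le hClR
  obtain ⟨ε₀, hε₀, hbal⟩ := hbal y₁ gp hy₁0 hgp
  refine ⟨ε₀, y₁, hε₀, hy₁0, by linarith, ?_⟩
  intro i S P P₂ θ θ₂ c Pt L T Sl kd S₀ N A V N' V' Eb e₂ Eb' e' K ε q t hji R RL hSS hε hεε hK A'
    N₁ v hAK hv hmn
  obtain ⟨K₁, hK₁, hbas⟩ := hbal hji R RL hSS hε hεε hK A' N₁ v hAK hv hmn
  have hq := R.q0
  obtain ⟨J₁, hJ₁⟩ := exists_nat_ge (2 * Cl / (y * q))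
  refine ⟨K₁, hK₁, Bas.mono J₁ hbas ?_⟩
  rintro J hJ F A₀ ⟨B₁, e₁, g', G', H', k1, k2, k3, k4⟩
  have hJ0 : (0 : ℝ) ≤ J := Nat.cast_nonneg J
  have hyJ : 2 * (Cl : ℝ) ≤ y * q * J := by
    have h1 : 2 * (Cl : ℝ) / (y * q) ≤ (J : ℝ) := hJ₁.trans (by exact_mod_cast hJ)
    rw [div_le_iff₀ (by positivity)] at h1
    linarith
  have hE0 : 0 ≤ Eb' := RL.Eb0.le
  obtain ⟨Q, hQ⟩ : ∃ Q : ℝ, Q = q * J := ⟨_, rfl⟩
  have hQ0 : 0 ≤ Q := by rw [hQ]; positivity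
  have hyQ : y * q * J = y * Q := by rw [hQ]; ring
  have hyQ1 : y₁ * q * J = y₁ * Q := by rw [hQ]; ring
  have e1 : (Cl : ℝ) * (y₁ * Q) = y / 16 * Q := by rw [← hy₁e]; ring
  have e2 : y₁ * Q ≤ y / 16 * Q := mul_le_mul_of_nonneg_right hy₁y hQ0
  have e3 : 0 ≤ y₁ * Q := mul_nonneg hy₁0.le hQ0
  obtain ⟨Y, hY⟩ : ∃ Y : ℕ, Y = ⌊2 * (y₁ * Q)⌋₊ := ⟨_, rfl⟩
  have hY1 : (Y : ℝ) ≤ 2 * (y₁ * Q) := by
    rw [hY]
    exact Nat.floor_le (by linarith)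
  have hYle : ∀ {a b : ℕ}, (a : ℝ) ≤ b + 2 * (y₁ * Q) → a ≤ b + Y := by
    intro a b h
    have h1 : 2 * (y₁ * Q) < (Y : ℝ) + 1 := by
      rw [hY]
      exact Nat.lt_floor_add_one _
    have h2 : (a : ℝ) < ((b + Y + 1 : ℕ) : ℝ) := by
      push_cast
      linarith
    have h3 : a < b + Y + 1 := by exact_mod_cast h2
    omega
  rw [hyQ] at hyJ
  refine ⟨B₁, e₁ + Cl * (Y + 1), k1, k2, ?_, ?_⟩
  · push_cast
    have h1 : (Cl : ℝ) * Y ≤ Cl * (2 * (y₁ * Q)) := mul_le_mul_of_nonneg_left hY1 (by linarith)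
    have h2 : (Eb' + y₁ * q) * J = Eb' * J + y₁ * Q := by rw [hQ]; ring
    have h3 : (Eb' + y * q) * J = Eb' * J + y * Q := by rw [hQ]; ring
    rw [h2] at k3
    rw [h3]
    linarith
  · intro D₂ M A₁ cl Sc e h pp z g gc gT g₀ κ B G H Th TH Gt Ht E hDD hBB hκ hκ1 hnum
    rw [hyQ1] at hnum
    obtain ⟨B', l1, l2, l3⟩ := hlip E (D' := D) (e' := e₁) (Y := Y) (g' := g') (G' := G')
      (H' := H') hji.le hDD hDr (fun k hk => (k4 k hk).1.sub hBB) (fun k hk => by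
        have h1 := (hnum k hk).1
        have := hYle (a := h k) (b := 0) (by
          push_cast
          linarith)
        omega) (fun k hk l hl => by
        have h1 := abs_le.1 ((hnum k hk).2 l hl)
        obtain ⟨h2, h3⟩ := (k4 k hk).2 l hl
        rw [hyQ1] at h2
        exact ⟨hYle (by linarith), hYle (by linarith)⟩) hκ hκ1
    exact ⟨B', l1, l2, fun ω hω k hk => (l3 ω hω k hk).2⟩

end Pool.D2R
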