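import Pool.Agent.H23.D2.Mcz
import Pool.Agent.H23.D2.Lpz

/-!
# The event of a static cell with the closed gradient, the gradients of the list and the radii

`cevmz_lip`: `cevmz` with the gradients of the ball charts of the places `≤ j` of the list.
-/

set_option autoImplicit false

namespace Pool.TN

open Finset Real MvPolynomial
open Pool.Agent.H49.Ent Pool.Agent.H32.Dense Pool.STK Pool.KA Pool.KSAT Pool.K2S Pool.PB Pool.S6C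
open Pool.GEN Pool.CHT Pool.CHX Pool.ISO Pool.D2R Pool.D2Z Pool.D2F
open Pool.AVG57 (LbsE ClU CGr)
open Pool.FLF (Fam.sub)
open Pool.PB.Trl (rt rt_mem t_rt)
open Pool.PKG (RecQ Kd)

open Pool.D2R in
/-- **The event of a static cell with the closed gradient at the ball and the gradients of the
list.** -/
theorem cevmz_lip (m v j S₀ : ℕ) (hv1 : 1 ≤ v) (hv2 : v ≤ 2) (hj : 1 ≤ j) (hjv : j ≤ v)
    (hS₀ : 1 ≤ S₀) : ∃ D₀ : ℕ, 1 ≤ D₀ ∧ ∀ Dc : ℕ, D₀ ≤ Dc → ∀ S₂ : ℕ, S₀ ≤ S₂ →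
    ∃ D D₁ : ℕ, D₀ ≤ D ∧ D ≤ D₁ ∧
    ∀ Dr : ℕ, D₁ ≤ Dr → ∀ (Sl : ℕ → ℝ) (y gp : ℝ), 0 < y →
    y ≤ 1 / 8 → 0 < gp → (∀ l, 1 ≤ l → l ≤ 2 → l < v + 1 → 1 < Sl l) →
    (v + 1 = 3 → Sl 0 < Sl 1 ∧ Sl 0 < Sl 2) →
    ∀ (X : ℕ) (Sm ξ qr μ vj κ₂ dW τ yp : ℝ), 1 ≤ X → 0 < yp →
    (Sl (v + 1) ≤ Sl v ∨ MuN v X Sl Sm ξ qr μ vj κ₂ dW τ) →
    ∃ (n₀ p : ℕ) (s ε₀ y' : ℝ), 1 ≤ n₀ ∧ 1 ≤ p ∧ 0 < s ∧ (n₀ + 1) * s ≤ gp ∧ 0 < ε₀ ∧ 0 < y' ∧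
    y' ≤ y ∧
    ∀ {S : PCl m} {P P₂ : List (Fin m) × Fin m → ℝ → ℝ → ℝ} {θ θ₂ : ℝ} {c : ℕ → Fin m}
    {Pt : ℝ → ℝ → ℝ} {L T : ℕ → ℝ → ℝ → ℝ} {kd : ℕ → Kd} {N : ℕ} {A V : ℕ → ℝ} {N' : ℕ}
    {V' : ℕ → ℝ} {Eb e₂ Eb' e' K ε q t : ℝ},
    RecQ S P P₂ θ θ₂ c (v + 1) Pt L T Sl kd S₀ N A V S₂ N' V' Eb e₂ K ε q t →
    Pool.PKG.RecL S P θ c j L S₀ N A V S₂ N' V' Eb' e' K q t → 0 ≤ ε →
    ε ≤ ε₀ → 2 ≤ K → ∀ (A' : ℝ) (N₁ it iK : ℕ) (u : ℕ → ℝ) (Sc : ℕ → Prop), A' ≤ K →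
    it ≤ N₁ → iK ≤ N₁ → u it = 0 → u iK = 1 →
    (∀ k ≤ N₁, -K + 1 ≤ u k ∧ u k + gp ≤ A') → X + gp ≤ A' →
    (∀ k ≤ N₁, ∃ j < N, A j = A' ∧ V j = u k) →
    (∀ k ≤ (X + 1) * p, u (N₁ + 1 + k) = -1 + k / p) →
    (∀ k ≤ (X + 1) * p, ∃ j < N', V' j = -1 + k / p) →
    (∀ k ≤ N₁, ∀ j, 1 ≤ j → j ≤ n₀ → ∃ j' < N', V' j' = u k + j * s) →
    (∀ l < v + 1, ¬ Sc l → kd l = .one ∨ kd l = .thin) →
    ∀ (pl sl : ℕ → ℝ) (ι : ℝ) (k₁ : ℕ), (∀ l ≤ v + 1, pl l ≤ L l (t - q) (t - q) - yp * q ∧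
      L l (t - q) (t - q) ≤ sl l) →
    (Sl (v + 1) ≤ Sl v ∨ CGr S c v Dc (t - q) (dW * q) (t + vj * q) (t + X * q) pl sl (qr * q)
      (ξ * q) (μ * q) κ₂ ι k₁ (1 / 2)) →
    ∃ K₁ : ℝ, 0 < K₁ ∧ ∀ κ : ℝ, 0 < κ → Bas S (fun J F A₀ =>
      ∃ (M : ℕ) (z : ℕ → ℕ → ℕ) (B : F.Ω → Prop) (e h pp : ℕ → ℕ) (g gc gT g₀ : ℕ → ℕ → ℕ)
        (G : ℕ → PtT F → ℕ → MvPolynomial (Option (Fin m)) ℝ)
        (H : ℕ → LnT F → ℕ → MvPolynomial (Option (Fin m)) ℝ)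
        (Th : ℕ → PtT F → ℕ → MvPolynomial (Option (Fin m)) ℝ)
        (TH : ℕ → LnT F → ℕ → MvPolynomial (Option (Fin m)) ℝ)
        (Gt : ℕ → PtT F → MvPolynomial (Option (Fin m)) ℝ)
        (Ht : ℕ → LnT F → MvPolynomial (Option (Fin m)) ℝ)
        (mu : LnT F → Polynomial ℝ) (eL : ℕ), Sub B A₀ ∧
        Pe F.p A₀ ≤ K₁ * Pe F.p B ∧
        CEv F c (v + 1) D Dr N₁ M ⌊(t + A' * q) * J⌋₊ ⌊y' * q * J⌋₊ Sc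
          (fun k => ⌊(t + u k * q) * J⌋₊) e h pp z g gc gT g₀ κ B G H Th TH Gt Ht ∧
        (N₁ ≤ M ∧ ∀ k ≤ N₁, ∀ k' ≤ N₁, u k + 1 / p ≤ u k' →
          z k k' = ⌊(t + u k' * q) * J⌋₊ - ⌊(t + u k * q) * J⌋₊) ∧
        (∀ s, (mu s).natDegree ≤ D + Dc + 1) ∧
        (∀ ω, B ω → |(mu (slam F ⌊(t + u it * q) * J⌋₊ ω)).eval (rt F ⌊(t + u it * q) * J⌋₊ ω) -
          gG G ω iK (v + 1) (some (c v))| ≤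
          2 ^ ⌊y * q * J⌋₊ * 2 ^ g₀ iK v / 2 ^ g₀ iK (v + 1)) ∧
        ((eL : ℝ) ≤ (Eb' + y * q) * J ∧ ∀ ω, B ω → ∀ k ≤ N₁, ∀ l ≤ j, ∀ x < l,
          |gG G ω k l (some (c x))| ≤ 2 ^ (eL + nlp (g₀ k) x l)) ∧
        ∀ k ≤ N₁, ((e k : ℝ) ≤ (Eb + y' * q) * J ∧ (h k : ℝ) ≤ y' * q * J) ∧
          (L (v + 1) (t + A' * q) (t + u k * q) * J - y' * q * J ≤ pp k ∧
            (pp k : ℝ) ≤ L (v + 1) (t + A' * q) (t + u k * q) * J) ∧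
          (∀ l ≤ v + 1, |(g₀ k l : ℝ) - L l (t + u k * q) (t + u k * q) * J| ≤ y' * q * J ∧
            |(g k l : ℝ) - L l (t + u k * q) (t + u k * q) * J| ≤ y' * q * J) ∧
          ∀ l < v + 1, Sc l → |(gT k l : ℝ) - L l (t + A' * q) (t + u k * q) * J| ≤
            y' * q * J) := by
  obtain ⟨D₀, hD₀, hcev⟩ := cevmz m v S₀ hv1 hv2 hS₀
  refine ⟨D₀, hD₀, fun Dc hDc S₂ hSS => ?_⟩
  obtain ⟨D, hDD, hcev⟩ := hcev Dc hDc S₂ hSS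
  obtain ⟨D', hD', hlip⟩ := RecL.lip m j S₂ hj (by omega) (hS₀.trans hSS)
  refine ⟨D, D + D', hDD, by omega, fun Dr hDr => ?_⟩
  have hcev := hcev Dr (by omega)
  intro Sl y gp hy hy8 hgp hs1 hs3 X Sm ξ qr μ vj κ₂ dW τ yp hX hyp hMu
  obtain ⟨ε₁, y₁, hε₁, hy₁, hy₁y, hlip⟩ := hlip Dr (by omega) y gp hy hgp
  obtain ⟨n₀, p, s, ε₀, y', hn₀, hp, hs, hns, hε₀, hy', hy'y, hcev⟩ :=
    hcev Sl y₁ gp hy₁ (by linarith) hgp hs1 hs3 X Sm ξ qr μ vj κ₂ dW τ yp hX hyp hMu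
  refine ⟨n₀, p, s, min ε₀ ε₁, y', hn₀, hp, hs, hns, lt_min hε₀ hε₁, hy', hy'y.trans hy₁y, ?_⟩
  intro S P P₂ θ θ₂ c Pt L T kd N A V N' V' Eb e₂ Eb' e' K ε q t R RL hε hεε hK A' N₁ it iK u Sc
    hAK hit hiK huit huiK hv hXA hmn hx1 hx2 hch hSc pl sl ι k₁ hpl hCG
  obtain ⟨K₁, hK₁, hbL⟩ := hlip (show j < v + 1 by omega) R RL hSS hε
    (hεε.trans (min_le_right _ _)) (by linarith) A' N₁ u hAK hv hmn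
  obtain ⟨K₂, hK₂, hbC⟩ := hcev R hε (hεε.trans (min_le_left _ _)) hK A' N₁ it iK u Sc hAK hit hiK
    huit huiK hv hXA hmn hx1 hx2 hch hSc pl sl ι k₁ hpl hCG
  obtain ⟨Q, hQ⟩ : ∃ Q : ℝ, Q = (2 * 4 ^ j) ^ (N₁ + 1) := ⟨_, rfl⟩
  have hQ0 : 0 < Q := by rw [hQ]; positivity
  refine ⟨K₁ * K₂ * Q, by positivity, fun κ hκ => ?_⟩
  obtain ⟨κc, hκc⟩ : ∃ κc : ℝ, κc = min (κ / Q) (1 / ((4 * 4 ^ j) * (2 * 4 ^ j) ^ N₁)) := ⟨_, rfl⟩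
  have hκc0 : 0 < κc := by
    rw [hκc]
    exact lt_min (by positivity) (by positivity)
  have hκc1 : κc ≤ κ / Q := by rw [hκc]; exact min_le_left _ _
  have hκc2 : κc * (4 * 4 ^ j) * (2 * 4 ^ j) ^ N₁ ≤ 1 := by
    have : κc ≤ 1 / ((4 * 4 ^ j) * (2 * 4 ^ j) ^ N₁) := by rw [hκc]; exact min_le_right _ _
    rw [le_div_iff₀ (by positivity)] at this
    linarith
  refine Bas.mono 0 (hbL.and (Pool.TOP.bas_ev (hbC κc hκc0) (η' := 1 / K₁) (by positivity))) ?_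
  rintro J - F A₀ ⟨⟨B₁, eL, b1, b2, b3, b4⟩, hA2⟩
  obtain ⟨M, z, B, e, h, pp, g, gc, gT, g₀, G, H, Th, TH, Gt, Ht, mu, c1, c2, E, c6, c3, c4, c5⟩ :=
    hA2 B₁ b1 (by
      rw [div_mul_eq_mul_div, one_mul, div_le_iff₀ hK₁]
      linarith)
  have hq := R.q0
  have hJ0 : (0 : ℝ) ≤ J := Nat.cast_nonneg J
  have hyJ : y' * q * J ≤ y₁ * q * J :=
    mul_le_mul_of_nonneg_right (mul_le_mul_of_nonneg_right hy'y hq.le) hJ0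
  have hyJ2 : y₁ * q * J ≤ y * q * J :=
    mul_le_mul_of_nonneg_right (mul_le_mul_of_nonneg_right hy₁y hq.le) hJ0
  obtain ⟨B', d1, d2, d3⟩ := b4 E (by omega) c1 hκc0.le hκc2 (fun k hk =>
    ⟨(c5 k hk).1.2.trans hyJ, fun l hl => ((c5 k hk).2.2.1 l (by omega)).1.trans hyJ⟩)
  rw [← hQ] at d2
  have hp := Pe_nonneg F.isLaw
  refine ⟨M, z, B', e, h, pp, g, gc, gT, g₀, G, H, Th, TH, Gt, Ht, mu, eL,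
    fun ω hω => b1 ω (c1 ω (d1 ω hω)), ?_, cev_sub E (κ₁ := 1 / Q) d1 (by
      rw [div_mul_eq_mul_div, one_mul, div_le_iff₀ hQ0]
      linarith) hκ.le (by
      rw [mul_one_div]
      exact hκc1), c6, c3, fun ω hω => (c4 ω (d1 ω hω)).trans ?_, ⟨b3, fun ω hω k hk => d3 ω hω k hk⟩,
    c5⟩
  · calc Pe F.p A₀ ≤ K₁ * Pe F.p B₁ := b2
      _ ≤ K₁ * (K₂ * Pe F.p B) := mul_le_mul_of_nonneg_left c2 hK₁.le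
      _ ≤ K₁ * (K₂ * (Q * Pe F.p B')) :=
        mul_le_mul_of_nonneg_left (mul_le_mul_of_nonneg_left d2 hK₂.le) hK₁.le
      _ = _ := by ring
  · exact div_le_div_of_nonneg_right (mul_le_mul_of_nonneg_right
      (pow_le_pow_right₀ (by norm_num) (Nat.floor_le_floor hyJ2)) (by positivity)) (by positivity)

end Pool.TN
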