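import Pool.Agent.H23.D2.Crb
import Pool.Agent.H66.D2.Ste
import Pool.Agent.H95.R136.Tse

/-!
# The critical cells

`st_crit`: the end of the cell with static place one and thin place two at the critical slope.
`ts_crit`: the end of the cell with thin place one and static place two at the critical slope.
-/

set_option autoImplicit false

namespace Pool.TNW

open Finset Real MvPolynomial
open Pool.Agent.H49.Ent Pool.Agent.H32.Dense Pool.STK Pool.KA Pool.KSAT Pool.K2S Pool.PB Pool.S6C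
open Pool.GEN Pool.CHT Pool.CHX Pool.ISO Pool.D2R Pool.D2Z Pool.D2F Pool.TN
open Pool.LBT (ThrOf)
open Pool.FLF (Fam.sub)
open Pool.PB.Trl (rt rt_mem t_rt)

/-- Smaller losses. -/
theorem NumG.mono {n J t K at' wt' eb' bt' e dd Q Q' : ℕ} {g : ℕ → ℕ}
    (h : NumG n J t K at' wt' eb' bt' e dd Q g) (hQ : Q' ≤ Q) :
    NumG n J t K at' wt' eb' bt' e dd Q' g where
  K1 := h.K1
  t1 := h.t1
  n1 := by have := h.n1; omega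
  n2 := fun l hl => by have := h.n2 l hl; omega
  n4 := fun l hl => hQ.trans (h.n4 l hl)
  n5 := by have := h.n5; omega
  n6 := by have := h.n6; omega

theorem NumF.mono {r J t K at' wt' eb' bt' eM d Q Q' f p s₀ : ℕ} {gK g' gT : ℕ → ℕ}
    (h : NumF r J t K at' wt' eb' bt' eM d Q f p s₀ gK g' gT) (hQ : Q' ≤ Q) :
    NumF r J t K at' wt' eb' bt' eM d Q' f p s₀ gK g' gT where
  K1 := h.K1
  t1 := h.t1
  f1 := hQ.trans h.f1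
  f2 := h.f2
  n1 := by have := h.n1; omega
  n2 := fun l hl => by have := h.n2 l hl; omega
  n3 := by have := h.n3; omega
  n4 := fun l hl => hQ.trans (h.n4 l hl)
  n5 := hQ.trans h.n5
  n6 := by have := h.n6; omega

theorem NumO.mono {J A X : ℕ} {w e : ℕ → ℕ} {gT g₀ : ℕ → ℕ → ℕ}
    {i₀ i₂ i₃ f Q Q' a₁ e₁ b0 b1 : ℕ} {g' : ℕ → ℕ}
    (h : NumO J A X w e gT g₀ i₀ i₂ i₃ f Q a₁ e₁ b0 b1 g') (hQ : Q' ≤ Q) :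
    NumO J A X w e gT g₀ i₀ i₂ i₃ f Q' a₁ e₁ b0 b1 g' :=
  { h with
    l0 := by have := h.l0; omega
    l3 := by have := h.l3; omega
    g0 := hQ.trans h.g0
    rm := fun l hl => by have := h.rm l hl; omega
    ef := by have := h.ef; omega }

theorem NumT.mono {J A X : ℕ} {w e : ℕ → ℕ} {gT g₀ : ℕ → ℕ → ℕ}
    {i₀ i₂ i₃ f Q Q' a₁ e₁ b0 b2 : ℕ} {g' : ℕ → ℕ}
    (h : NumT J A X w e gT g₀ i₀ i₂ i₃ f Q a₁ e₁ b0 b2 g') (hQ : Q' ≤ Q) :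
    NumT J A X w e gT g₀ i₀ i₂ i₃ f Q' a₁ e₁ b0 b2 g' :=
  { h with
    l0 := by have := h.l0; omega
    l3 := by have := h.l3; omega
    g0 := fun l hl => hQ.trans (h.g0 l hl)
    rm := fun l hl => by have := h.rm l hl; omega
    ef := by have := h.ef; omega
    lo := by have := h.lo; omega
    co := by have := h.co; omega }

/-- The number of the second derivative, from one ball to the other. -/
theorem big_num {X' a b x u v dd : ℕ} (h : u + b ≤ a + x + v + dd + X') :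
    (2 : ℝ) ^ u / 2 ^ (v + dd) ≤ 2 ^ X' * (2 ^ a / 2 ^ b) * 2 ^ x := by
  have e1 : (2 : ℝ) ^ X' * (2 ^ a / 2 ^ b) * 2 ^ x = 2 ^ (X' + a + x) / 2 ^ b := by
    rw [pow_add, pow_add]
    ring
  rw [e1, div_le_div_iff₀ (by positivity) (by positivity), ← pow_add, ← pow_add]
  exact p2 (by omega)

/-- **The end of the critical cell, static place one and thin place two.** -/
theorem st_crit (m D D₁ : ℕ) (hD : 1 ≤ D) : ∃ C : ℕ, 1 ≤ C ∧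
    ∀ {θ : ℝ} {S : PCl m} {P : List (Fin m) × Fin m → ℝ → ℝ → ℝ} (_ : ThrOf (chsys m θ) S P)
    (_ : TmH S) (c : ℕ → Fin m) (_ : Set.InjOn c (Set.Iio (3 + 1))) (a₁ : ℚ) (e₁ h₁ : ℝ)
    (_ : 0 ≤ a₁) (_ : a₁ < 1) (_ : e₁ < θ * a₁) (_ : 0 < h₁) (_ : bet P c 0 a₁ a₁ + h₁ ≤ 1)
    (_ : bet P c 1 a₁ a₁ + h₁ ≤ 1) (a w' : ℚ)
    (b eb h' : ℝ) (_ : 0 ≤ w') (_ : w' ≤ a) (_ : a ≤ 1) (_ : b < 1) (_ : eb < θ * w')
    (_ : 0 < h') (_ : bet P c 3 a w' + h' ≤ 1) (a₂ w₂ : ℚ) (eb₂ h₂ : ℝ) (_ : 0 ≤ w₂)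
    (_ : w₂ ≤ a₂) (_ : a₂ ≤ 1) (_ : eb₂ < θ * w₂) (_ : 0 < h₂) (_ : bet P c 2 a₂ w₂ + h₂ ≤ 1)
    (ε κ₀ : ℝ) (_ : 0 < ε) (_ : 0 < κ₀),
    Bas S (fun J F A₀ => ∀ {Dr N M A cl : ℕ} {Sc : ℕ → Prop} {w e h pp : ℕ → ℕ}
      {z g gc gT g₀ : ℕ → ℕ → ℕ} {κ : ℝ} {B : F.Ω → Prop}
      {G : ℕ → PtT F → ℕ → MvPolynomial (Option (Fin m)) ℝ}
      {H : ℕ → LnT F → ℕ → MvPolynomial (Option (Fin m)) ℝ}
      {T : ℕ → PtT F → ℕ → MvPolynomial (Option (Fin m)) ℝ}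
      {TH : ℕ → LnT F → ℕ → MvPolynomial (Option (Fin m)) ℝ}
      {Gt : ℕ → PtT F → MvPolynomial (Option (Fin m)) ℝ}
      {Ht : ℕ → LnT F → MvPolynomial (Option (Fin m)) ℝ},
      CEv F c 3 D Dr N M A cl Sc w e h pp z g gc gT g₀ κ B G H T TH Gt Ht → Sub B A₀ →
      ε * J ≤ cl → C ≤ cl →
      ∀ {i₀ i₁ i₂ i₃ X X' p x d eM f : ℕ} {g' : ℕ → ℕ},
      NumW 3 N M A cl J Sc w e pp z g gc gT g₀ i₀ i₁ i₂ i₃ X' p x g' → C * (cl + X + 1) ≤ X' →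
      e i₂ ≤ eM → e i₃ ≤ eM → (∀ y < 3, g₀ i₃ y ≤ g' y + d) → (∀ l < 3, Sc l ↔ l = 1) →
      (w i₃ : ℝ) ≤ b * J →
      NumO J A X w e gT g₀ i₀ i₂ i₃ f (C * (cl + X + 1)) ⌊(a₁ : ℝ) * J⌋₊ ⌊e₁ * J⌋₊
        ⌊(bet P c 0 a₁ a₁ + h₁) * J⌋₊ ⌊(bet P c 1 a₁ a₁ + h₁) * J⌋₊ g' →
      NumF 3 J (w i₂) (w i₃) ⌊(a : ℝ) * J⌋₊ ⌊(w' : ℝ) * J⌋₊ ⌊eb * J⌋₊
        ⌊(bet P c 3 a w' + h') * J⌋₊ eM d (C * (cl + X' + 1)) f p 1 (g₀ i₃) g' (gT i₂) →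
      ∀ {X₂ Y f₂ dd t k p₂ : ℕ} {mu mu₂ : LnT F → Polynomial ℝ},
      JNum N A cl X₂ f₂ dd w pp gc gT g₀ i₀ i₁ t k p₂ 2 1 →
      f₂ + dd + C * (cl + X₂ + 1) ≤ w t - w i₁ →
      w k + g₀ k 2 + g₀ i₃ 3 ≤ w i₃ + g' 2 + g₀ k 3 + dd + X' →
      (∀ s, (mu s).natDegree ≤ D₁) → (∀ s, (mu₂ s).natDegree ≤ D₁) →
      (∀ ω, B ω → |jA c Sc w G TH Ht i₀ i₁ k 1 ω - (mu (slam F (w t) ω)).eval (rt F (w t) ω)| ≤
        2 ^ Y * (2 ^ g₀ k 1 / 2 ^ g₀ k 3)) →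
      (∀ ω, B ω → |gG G ω k 2 (some (c 1)) - (mu₂ (slam F (w t) ω)).eval (rt F (w t) ω)| ≤
        2 ^ Y * (2 ^ g₀ k 1 / 2 ^ g₀ k 2)) →
      (w k : ℝ) ≤ b * J →
      NumG 2 J (w t) (w k) ⌊(a₂ : ℝ) * J⌋₊ ⌊(w₂ : ℝ) * J⌋₊ ⌊eb₂ * J⌋₊
        ⌊(bet P c 2 a₂ w₂ + h₂) * J⌋₊ (e k) dd (C * (cl + X₂ + Y + 1)) (g₀ k) →
      Pe F.p B < κ₀ * Pe F.p A₀) := by
  classical
  obtain ⟨C₁, hC₁, hsm⟩ := st_endG m D 3 hD (by norm_num)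
  obtain ⟨C₂, hC₂, hbg⟩ := st_big m D D₁ hD
  refine ⟨C₁ + C₂, by omega, ?_⟩
  intro θ S P hP hT c hc a₁ e₁ h₁ ha0 ha1 he1 hh1 hb0 hb1 a w' b eb h' hw0 hwa ha hb he hh h2
    a₂ w₂ eb₂ h₂ hw20 hwa2 ha2 he2' hh2 hbt2 ε κ₀ hε hκ
  refine Bas.mono 0 ((hsm hP hT c hc a₁ e₁ h₁ ha0 ha1 he1 hh1 hb0 hb1 a w' b eb h' ε (κ₀ / 2) hw0
    hwa ha hb he hh h2 hε (by positivity)).and (hbg hP hT c hc a₂ w₂ b eb₂ h₂ ε (κ₀ / 2) hw20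
    hwa2 ha2 hb he2' hh2 hbt2 hε (by positivity))) ?_
  rintro J - F A₀ ⟨hA, hA'⟩
  intro Dr N M A cl Sc w e h pp z g gc gT g₀ κ B G H T TH Gt Ht E hBA hεc hCc i₀ i₁ i₂ i₃ X X' p x
    d eM f g' n hXX he2 he3 hd h1 hbJ no nf X₂ Y f₂ dd t k p₂ mu mu₂ nj hfr hbn hm1 hm2 hmu hmu2
    hkJ ng
  by_contra hcon
  rw [not_lt] at hcon
  have hpn := Pe_nonneg F.isLaw
  have hs0 : ¬ Sc 0 := fun h => absurd ((h1 0 (by norm_num)).1 h) (by norm_num)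
  have hs1 : Sc 1 := (h1 1 (by norm_num)).2 rfl
  have hs2 : ¬ Sc 2 := fun h => absurd ((h1 2 (by norm_num)).1 h) (by norm_num)
  have eX : (C₁ + C₂) * (cl + X + 1) = C₁ * (cl + X + 1) + C₂ * (cl + X + 1) := by ring
  have eX' : C₁ * (cl + X' + 1) ≤ (C₁ + C₂) * (cl + X' + 1) := Nat.mul_le_mul_right _ (by omega)
  have eX2 : (C₁ + C₂) * (cl + X₂ + 1) = C₁ * (cl + X₂ + 1) + C₂ * (cl + X₂ + 1) := by ring
  have eY : C₂ * (cl + X₂ + Y + 1) ≤ (C₁ + C₂) * (cl + X₂ + Y + 1) :=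
    Nat.mul_le_mul_right _ (by omega)
  obtain ⟨Bs, hBs⟩ : ∃ Bs : F.Ω → Prop, Bs = fun ω => B ω ∧
      |jY c Sc w G TH Ht i₀ i₁ i₂ i₃ 1 2 ω| ≤ 2 ^ X' * (2 ^ w i₃ / 2 ^ g₀ i₃ 3) * 2 ^ g' 2 :=
    ⟨_, rfl⟩
  obtain ⟨Bb, hBb⟩ : ∃ Bb : F.Ω → Prop, Bb = fun ω => B ω ∧
      ¬ |jY c Sc w G TH Ht i₀ i₁ i₂ i₃ 1 2 ω| ≤ 2 ^ X' * (2 ^ w i₃ / 2 ^ g₀ i₃ 3) * 2 ^ g' 2 :=
    ⟨_, rfl⟩
  have hsB : Sub Bs B := fun ω hω => by rw [hBs] at hω; exact hω.1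
  have hbB : Sub Bb B := fun ω hω => by rw [hBb] at hω; exact hω.1
  have hor := Pe_or F.isLaw (A := B) (B₀ := Bs) (B₁ := Bb) (fun ω hω => by
    rw [hBs, hBb]
    by_cases h4 : |jY c Sc w G TH Ht i₀ i₁ i₂ i₃ 1 2 ω| ≤
      2 ^ X' * (2 ^ w i₃ / 2 ^ g₀ i₃ 3) * 2 ^ g' 2
    · exact Or.inl ⟨hω, h4⟩
    · exact Or.inr ⟨hω, h4⟩)
  have hκm := le_max_left κ 0
  rcases le_or_gt (Pe F.p B / 2) (Pe F.p Bs) with hc1 | hc1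
  · -- the small case
    have hE2 := E.sb (B' := Bs) (κ₁ := 1 / 2) (κ₂ := 2 * max κ 0) hsB (by linarith)
      (by positivity) (by linarith)
    have hfin := hA hE2 (fun ω hω => hBA ω (hsB ω hω)) hεc (by omega) n (by omega) he2 he3 hd
      (n.hh 2 (by norm_num) hs2 0 (by norm_num) hs0) h1 (fun y hy hys => by
        have hy' : y = 0 ∨ y = 1 ∨ y = 2 := by omega
        rcases hy' with h4 | h4 | h4
        · subst h4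
          exact Or.inl (n.hh 2 (by norm_num) hs2 0 (by norm_num) hs0)
        · subst h4
          exact absurd hs1 hys
        · subst h4
          refine Or.inr (Or.inr fun ω hω => ?_)
          rw [hBs] at hω
          exact hω.2) hbJ (NumO.mono no (by omega)) (NumF.mono nf eX')
    linarith
  · -- the large case
    have hc2 : Pe F.p B / 2 ≤ Pe F.p Bb := by linarith
    have hE2 := E.sb (B' := Bb) (κ₁ := 1 / 2) (κ₂ := 2 * max κ 0) hbB (by linarith)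
      (by positivity) (by linarith)
    have hfin := hA' hE2 (fun ω hω => hBA ω (hbB ω hω)) hεc (by omega) hs0 hs1 hs2 nj (by omega)
      hm1 hm2 (fun ω hω => hmu ω (hbB ω hω)) (fun ω hω => hmu2 ω (hbB ω hω)) (fun ω hω => by
        have h4 := jY_st E n.h0 n.h1 n.h2 n.h3 nj.kN n.w0 ω
        rw [hBb] at hω
        rw [← h4]
        exact (big_num (by omega)).trans (not_le.1 hω.2).le) hkJ (NumG.mono ng eY)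
    linarith

/-- **The end of the critical cell, thin place one and static place two.** -/
theorem ts_crit (m D D₁ : ℕ) (hD : 1 ≤ D) : ∃ C : ℕ, 1 ≤ C ∧
    ∀ {θ : ℝ} {S : PCl m} {P : List (Fin m) × Fin m → ℝ → ℝ → ℝ} (_ : ThrOf (chsys m θ) S P)
    (_ : TmH S) (c : ℕ → Fin m) (_ : Set.InjOn c (Set.Iio (3 + 1))) (a₁ : ℚ) (e₁ h₁ : ℝ)
    (_ : 0 ≤ a₁) (_ : a₁ < 1) (_ : e₁ < θ * a₁) (_ : 0 < h₁) (_ : bet P c 0 a₁ a₁ + h₁ ≤ 1)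
    (_ : bet P c 2 a₁ a₁ + h₁ ≤ 1) (a w' : ℚ)
    (b eb h' : ℝ) (_ : 0 ≤ w') (_ : w' ≤ a) (_ : a ≤ 1) (_ : b < 1) (_ : eb < θ * w')
    (_ : 0 < h') (_ : bet P c 3 a w' + h' ≤ 1) (a₂ w₂ : ℚ) (eb₂ h₂ : ℝ) (_ : 0 ≤ w₂)
    (_ : w₂ ≤ a₂) (_ : a₂ ≤ 1) (_ : eb₂ < θ * w₂) (_ : 0 < h₂) (_ : bet P c 1 a₂ w₂ + h₂ ≤ 1)
    (ε κ₀ : ℝ) (_ : 0 < ε) (_ : 0 < κ₀),
    Bas S (fun J F A₀ => ∀ {Dr N M A cl : ℕ} {Sc : ℕ → Prop} {w e h pp : ℕ → ℕ}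
      {z g gc gT g₀ : ℕ → ℕ → ℕ} {κ : ℝ} {B : F.Ω → Prop}
      {G : ℕ → PtT F → ℕ → MvPolynomial (Option (Fin m)) ℝ}
      {H : ℕ → LnT F → ℕ → MvPolynomial (Option (Fin m)) ℝ}
      {T : ℕ → PtT F → ℕ → MvPolynomial (Option (Fin m)) ℝ}
      {TH : ℕ → LnT F → ℕ → MvPolynomial (Option (Fin m)) ℝ}
      {Gt : ℕ → PtT F → MvPolynomial (Option (Fin m)) ℝ}
      {Ht : ℕ → LnT F → MvPolynomial (Option (Fin m)) ℝ},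
      CEv F c 3 D Dr N M A cl Sc w e h pp z g gc gT g₀ κ B G H T TH Gt Ht → Sub B A₀ →
      ε * J ≤ cl → C ≤ cl →
      ∀ {i₀ i₁ i₂ i₃ X X' p x d eM f : ℕ} {g' : ℕ → ℕ},
      NumW 3 N M A cl J Sc w e pp z g gc gT g₀ i₀ i₁ i₂ i₃ X' p x g' → C * (cl + X + 1) ≤ X' →
      e i₂ ≤ eM → e i₃ ≤ eM → (∀ y < 3, g₀ i₃ y ≤ g' y + d) → (∀ l < 3, Sc l ↔ l = 2) →
      (g₀ i₃ 1 ≤ g' 1 + X' ∨ w i₂ + g₀ i₂ 1 + g₀ i₃ 2 ≤ w i₃ + g₀ i₂ 2 + g' 1 + X') →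
      (w i₃ : ℝ) ≤ b * J →
      NumT J A X w e gT g₀ i₀ i₂ i₃ f (C * (cl + X + 1)) ⌊(a₁ : ℝ) * J⌋₊ ⌊e₁ * J⌋₊
        ⌊(bet P c 0 a₁ a₁ + h₁) * J⌋₊ ⌊(bet P c 2 a₁ a₁ + h₁) * J⌋₊ g' →
      NumF 3 J (w i₂) (w i₃) ⌊(a : ℝ) * J⌋₊ ⌊(w' : ℝ) * J⌋₊ ⌊eb * J⌋₊
        ⌊(bet P c 3 a w' + h') * J⌋₊ eM d (C * (cl + X' + 1)) f p 2 (g₀ i₃) g' (gT i₂) →
      ∀ {X₂ Y f₂ dd y t k p₂ : ℕ} {mu : LnT F → Polynomial ℝ},
      JNum N A cl X₂ f₂ dd w pp gc gT g₀ i₀ i₁ t k p₂ 1 2 →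
      JTs A cl X₂ Y f₂ dd y (C * (cl + X₂ + 1)) w pp gc gT g₀ i₀ i₁ t k →
      BigT M N w z g g₀ i₀ i₃ k (g' 1) (C * (cl + X₂ + 1)) →
      w k + g₀ k 1 + g₀ i₃ 3 + 1 ≤ w i₃ + g' 1 + g₀ k 3 + dd + X' →
      (∀ s, (mu s).natDegree ≤ D₁) →
      (∀ ω, B ω → |jA c Sc w G TH Ht i₀ i₁ k 2 ω - (mu (slam F (w t) ω)).eval (rt F (w t) ω)| ≤
        2 ^ Y * (2 ^ g₀ k 2 / 2 ^ g₀ k 3)) →
      (w k : ℝ) ≤ b * J →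
      NumG 1 J (w t) (w k) ⌊(a₂ : ℝ) * J⌋₊ ⌊(w₂ : ℝ) * J⌋₊ ⌊eb₂ * J⌋₊
        ⌊(bet P c 1 a₂ w₂ + h₂) * J⌋₊ (e k) dd (C * (cl + X₂ + Y + 1)) (g₀ k) →
      Pe F.p B < κ₀ * Pe F.p A₀) := by
  classical
  obtain ⟨C₁, hC₁, hsm⟩ := ts_endG m D 3 hD (by norm_num)
  obtain ⟨C₂, hC₂, hbg⟩ := ts_big m D D₁ hD
  obtain ⟨C₃, hC₃, hyz⟩ := jY_ts D
  refine ⟨C₁ + C₂ + C₃, by omega, ?_⟩
  intro θ S P hP hT c hc a₁ e₁ h₁ ha0 ha1 he1 hh1 hb0 hb1 a w' b eb h' hw0 hwa ha hb he hh h2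
    a₂ w₂ eb₂ h₂ hw20 hwa2 ha2 he2' hh2 hbt2 ε κ₀ hε hκ
  refine Bas.mono 0 ((hsm hP hT c hc a₁ e₁ h₁ ha0 ha1 he1 hh1 hb0 hb1 a w' b eb h' ε (κ₀ / 2) hw0
    hwa ha hb he hh h2 hε (by positivity)).and (hbg hP hT c hc a₂ w₂ b eb₂ h₂ ε (κ₀ / 2) hw20
    hwa2 ha2 hb he2' hh2 hbt2 hε (by positivity))) ?_
  rintro J - F A₀ ⟨hA, hA'⟩
  intro Dr N M A cl Sc w e h pp z g gc gT g₀ κ B G H T TH Gt Ht E hBA hεc hCc i₀ i₁ i₂ i₃ X X' p x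
    d eM f g' n hXX he2 he3 hd h1 hx2 hbJ no nf X₂ Y f₂ dd y' t k p₂ mu nj nt nb hbn hm1 hmu
    hkJ ng
  by_contra hcon
  rw [not_lt] at hcon
  have hpn := Pe_nonneg F.isLaw
  have hs0 : ¬ Sc 0 := fun h => absurd ((h1 0 (by norm_num)).1 h) (by norm_num)
  have hs1 : ¬ Sc 1 := fun h => absurd ((h1 1 (by norm_num)).1 h) (by norm_num)
  have hs2 : Sc 2 := (h1 2 (by norm_num)).2 rfl
  have eX : (C₁ + C₂ + C₃) * (cl + X + 1) = C₁ * (cl + X + 1) + C₂ * (cl + X + 1) +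
    C₃ * (cl + X + 1) := by ring
  have eX' : C₁ * (cl + X' + 1) ≤ (C₁ + C₂ + C₃) * (cl + X' + 1) :=
    Nat.mul_le_mul_right _ (by omega)
  have eX2 : (C₁ + C₂ + C₃) * (cl + X₂ + 1) = C₁ * (cl + X₂ + 1) + C₂ * (cl + X₂ + 1) +
    C₃ * (cl + X₂ + 1) := by ring
  have eY : C₂ * (cl + X₂ + Y + 1) ≤ (C₁ + C₂ + C₃) * (cl + X₂ + Y + 1) :=
    Nat.mul_le_mul_right _ (by omega)
  obtain ⟨Bs, hBs⟩ : ∃ Bs : F.Ω → Prop, Bs = fun ω => B ω ∧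
      |jY c Sc w G TH Ht i₀ i₁ i₂ i₃ 2 1 ω| ≤ 2 ^ X' * (2 ^ w i₃ / 2 ^ g₀ i₃ 3) * 2 ^ g' 1 :=
    ⟨_, rfl⟩
  obtain ⟨Bb, hBb⟩ : ∃ Bb : F.Ω → Prop, Bb = fun ω => B ω ∧
      ¬ |jY c Sc w G TH Ht i₀ i₁ i₂ i₃ 2 1 ω| ≤ 2 ^ X' * (2 ^ w i₃ / 2 ^ g₀ i₃ 3) * 2 ^ g' 1 :=
    ⟨_, rfl⟩
  have hsB : Sub Bs B := fun ω hω => by rw [hBs] at hω; exact hω.1
  have hbB : Sub Bb B := fun ω hω => by rw [hBb] at hω; exact hω.1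
  have hor := Pe_or F.isLaw (A := B) (B₀ := Bs) (B₁ := Bb) (fun ω hω => by
    rw [hBs, hBb]
    by_cases h4 : |jY c Sc w G TH Ht i₀ i₁ i₂ i₃ 2 1 ω| ≤
      2 ^ X' * (2 ^ w i₃ / 2 ^ g₀ i₃ 3) * 2 ^ g' 1
    · exact Or.inl ⟨hω, h4⟩
    · exact Or.inr ⟨hω, h4⟩)
  have hκm := le_max_left κ 0
  rcases le_or_gt (Pe F.p B / 2) (Pe F.p Bs) with hc1 | hc1
  · -- the small case
    have hE2 := E.sb (B' := Bs) (κ₁ := 1 / 2) (κ₂ := 2 * max κ 0) hsB (by linarith)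
      (by positivity) (by linarith)
    have hfin := hA hE2 (fun ω hω => hBA ω (hsB ω hω)) hεc (by omega) n (by omega) he2 he3 hd
      hx2 h1 (fun y hy hys => by
        have hy' : y = 0 ∨ y = 1 ∨ y = 2 := by omega
        rcases hy' with h4 | h4 | h4
        · subst h4
          exact Or.inl (n.hh 1 (by norm_num) hs1 0 (by norm_num) hs0)
        · subst h4
          refine Or.inr (Or.inr fun ω hω => ?_)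
          rw [hBs] at hω
          exact hω.2
        · subst h4
          exact absurd hs2 hys) hbJ (NumT.mono no (by omega)) (NumF.mono nf eX')
    linarith
  · -- the large case
    have hc2 : Pe F.p B / 2 ≤ Pe F.p Bb := by linarith
    have hE2 := E.sb (B' := Bb) (κ₁ := 1 / 2) (κ₂ := 2 * max κ 0) hbB (by linarith)
      (by positivity) (by linarith)
    have hfr := nt.fr
    have hnv := nt.nv
    obtain ⟨nb1, a', ha', b', hb', hab, hwab, hq, nb2⟩ := nb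
    have hfin := hA' hE2 (fun ω hω => hBA ω (hbB ω hω)) hεc (by omega) hs0 hs1 hs2 nj
      { nt with
        fr := by omega
        nv := by omega }
      hm1 (fun ω hω => hmu ω (hbB ω hω)) (fun ω hω => by
        have h4 := hyz E (by omega) (i₂ := i₂) (q' := g' 1) n.h0 n.h1 n.h2 n.h3 nj.kN n.w0 n.w1 hs0 hs1 hs2 nt.cT
          nt.pi nt.ci nt.lb ⟨by omega, a', ha', b', hb', hab, hwab, hq, by omega⟩ ω (hbB ω hω)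
        rw [hBb] at hω
        have h5 := not_le.1 hω.2
        obtain ⟨R, hR⟩ : ∃ R : ℝ, R = 2 ^ (w i₃ + g' 1) / 2 ^ g₀ i₃ 3 := ⟨_, rfl⟩
        have hR0 : 0 < R := by rw [hR]; positivity
        have e1 : (2 : ℝ) ^ X' * (2 ^ w i₃ / 2 ^ g₀ i₃ 3) * 2 ^ g' 1 = 2 ^ X' * R := by
          rw [hR, pow_add]
          ring
        rw [← hR] at h4
        rw [e1] at h5
        have e2 : (1 : ℝ) ≤ 2 ^ X' := one_le_pow₀ (by norm_num)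
        have e3 : R ≤ 2 ^ X' * R := le_mul_of_one_le_left hR0.le e2
        have e4 : (2 : ℝ) ^ (w k + g₀ k 1) / 2 ^ (g₀ k 3 + dd) ≤ 2 ^ X' * R / 2 := by
          have h7 : (2 : ℝ) ^ (w k + g₀ k 1 + 1) / 2 ^ (g₀ k 3 + dd) ≤
              2 ^ X' * (2 ^ w i₃ / 2 ^ g₀ i₃ 3) * 2 ^ g' 1 := big_num (by omega)
          rw [e1, pow_succ, mul_div_right_comm] at h7
          linarith
        have e5 := abs_sub_abs_le_abs_sub (jY c Sc w G TH Ht i₀ i₁ i₂ i₃ 2 1 ω)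
          (jZ c Sc w G TH Ht i₀ i₁ k 2 1 ω)
        linarith) hkJ (NumG.mono ng eY)
    linarith

end Pool.TNW
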