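import Pool.Agent.H66.D2.Apa
import Pool.Agent.H23.D2.Crc

/-!
# The numbers of the cell with the thin place `1` and the static place `2`, closed gradient at the ball

The windows `0` (static charts), `1` (row label), `2` (label, and the line of the closed gradient), `3`
(ball, and the ball of the closed gradient).
-/

set_option autoImplicit false

namespace Pool.TNW

open Finset Real MvPolynomial Pool.TN

/-- **The numbers of the cell** `[one, thin, sta]`, with the closed gradient at the ball. -/
theorem num_ts0 {J A cl M : ℕ} {Sc : ℕ → Prop} {w e pp : ℕ → ℕ} {z g gc gT g₀ : ℕ → ℕ → ℕ}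
    {U y τ Ee K A' : ℝ} {v Sl Λ : ℕ → ℝ}
    (h : ApN 3 3 J A cl Sc w e pp g gc gT g₀ U y τ Ee K A' v Sl Λ)
    (hSc : ∀ l < 3, Sc l ↔ l = 2) {s b : ℝ} (s0 : Sl 0 = 1) (s1 : Sl 1 = s) (s2 : Sl 2 = 2)
    (s3 : Sl 3 = b) (hs : 1 < s) (hb : 2 < b) (v2 : v 2 = 0) (v3 : v 3 = 1)
    (hz : ∃ a ≤ M, z 2 a = w 3 - w 2)
    (F3 : (b - 1) - (b - 2) * v 1 + 1 ≤ A')
    (F41 : v 1 ≤ 0) (F43 : 2 ≤ A')
    (F51 : v 0 ≤ -A') (F52 : v 0 ≤ v 1) (F53 : A' ≤ (s - 1) * (-v 0))
    (F61 : (A' - v 1) + 2 * (b - 1) * (1 - v 1) + 2 ≤ 3 * K) (F62 : A' ≤ K)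
    (F63 : 2 * (s - 1) + 3 ≤ 3 * K) (F64 : -v 0 + 3 ≤ K)
    (T5 : (s - 1) + 1 ≤ -v 1) (T6 : s ≤ K + 1)
    (hy : y ≤ 1 / 1000) {X X' Q Q' : ℕ} (hX1 : 20 * (y * U) ≤ X) (hXX : X ≤ X')
    (hX' : (X' : ℝ) ≤ U / 100) (hXs : 4 * (X' : ℝ) ≤ (s - 1) * U) (hQ : (Q : ℝ) ≤ U / 100)
    (hQ' : (Q' : ℝ) ≤ U / 100)
    {a₁ e₁ b0 b2 at' wt' eb' bt' : ℕ} (ha₁ : w 3 ≤ a₁) (he₁ : Ee + 3 * K * U - 1 ≤ e₁)
    (hb0 : (b0 : ℝ) ≤ Λ 0 + U + 5 * (y * U)) (hb2 : (b2 : ℝ) ≤ Λ 2 + 2 * U + 5 * (y * U))
    (hat : w 3 ≤ at') (hwt : w 2 ≤ wt') (heb : Ee + 3 * K * U - 1 ≤ eb')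
    (hbt : (bt' : ℝ) + Q' + 5 * (y * U) ≤ Λ 3 + b * U)
    {X₂ Y Q₂ Q₃ at₂ wt₂ eb₂ bt₂ : ℕ} (hX2 : 20 * (y * U) ≤ X₂) (hY : (Y : ℝ) ≤ U / 100)
    (hQ2 : (Q₂ : ℝ) ≤ U / 100)
    (hQ3 : (Q₃ : ℝ) ≤ U / 100) (hQX : 2 * (Q₃ : ℝ) + 100 * (y * U) ≤ X') (hat2 : w 3 ≤ at₂)
    (hwt2 : w 2 ≤ wt₂)
    (heb2 : Ee + 3 * K * U - 1 ≤ eb₂)
    (hbt2 : (bt₂ : ℝ) ≤ Λ 1 + U + 10 * (y * U)) :
    ∃ (g' : ℕ → ℕ) (p x d f : ℕ),
      NumW 3 3 M A cl J Sc w e pp z g gc gT g₀ 0 1 2 3 X' p x g' ∧
      (∀ y < 3, g₀ 3 y ≤ g' y + d) ∧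
      w 2 + g₀ 2 1 + g₀ 3 2 ≤ w 3 + g₀ 2 2 + g' 1 + X' ∧
      NumT J A X w e gT g₀ 0 2 3 f Q a₁ e₁ b0 b2 g' ∧
      NumF 3 J (w 2) (w 3) at' wt' eb' bt' (max (e 2) (e 3)) d Q' f p 2 (g₀ 3) g' (gT 2) ∧
      ∃ f₂ dd y' p₂ : ℕ, JNum 3 A cl X₂ f₂ dd w pp gc gT g₀ 0 1 2 3 p₂ 1 2 ∧
        JTs A cl X₂ Y f₂ dd y' Q₂ w pp gc gT g₀ 0 1 2 3 ∧
        g₀ 3 2 + (w 0 + g₀ 0 1) + Q₂ ≤ w 3 + g' 1 + g₀ 0 2 ∧
        w 3 + g₀ 3 1 + g₀ 3 3 + 1 ≤ w 3 + g' 1 + g₀ 3 3 + dd + X' ∧
        NumG 1 J (w 2) (w 3) at₂ wt₂ eb₂ bt₂ (e 3) dd Q₃ (g₀ 3) := by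
  have hU := h.U0
  have hyU0 : 0 < y * U := mul_pos h.y0 hU
  have hyU := h.yU
  have hyUs : y * U ≤ U / 1000 := by
    have := mul_le_mul_of_nonneg_right hy hU.le
    linarith only [this]
  have hXR : (X : ℝ) ≤ X' := by exact_mod_cast hXX
  have hcl0 : (0 : ℝ) ≤ cl := Nat.cast_nonneg _
  have c1 := h.cl1
  have c2 := h.cl2
  have hsl := h.sl
  -- products
  have pr : ∀ {x : ℝ}, 0 ≤ x → 0 ≤ x * U := fun hx => mul_nonneg hx hU.le
  have U3 := mul_le_mul_of_nonneg_right F3 hU.le
  have U41 := mul_le_mul_of_nonneg_right F41 hU.le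
  have U43 := mul_le_mul_of_nonneg_right F43 hU.le
  have U51 := mul_le_mul_of_nonneg_right F51 hU.le
  have U52 := mul_le_mul_of_nonneg_right F52 hU.le
  have U53 := mul_le_mul_of_nonneg_right F53 hU.le
  have U61 := mul_le_mul_of_nonneg_right F61 hU.le
  have U62 := mul_le_mul_of_nonneg_right F62 hU.le
  have U63 := mul_le_mul_of_nonneg_right F63 hU.le
  have U64 := mul_le_mul_of_nonneg_right F64 hU.le
  have V5 := mul_le_mul_of_nonneg_right T5 hU.le
  have V6 := mul_le_mul_of_nonneg_right T6 hU.le
  -- the windows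
  have W0 := h.w1 0 (by norm_num)
  have W1 := h.w1 1 (by norm_num)
  have W2 := h.w1 2 (by norm_num)
  have W3 := h.w1 3 (by norm_num)
  rw [v2] at W2
  rw [v3] at W3
  have A1 := h.A1
  have A2 := h.A2
  have m02 : w 0 ≤ w 2 := h.wm 0 (by norm_num) 2 (by norm_num) (by
    rw [v2]
    linarith only [F51, F43])
  have m12 : w 1 ≤ w 2 := h.wm 1 (by norm_num) 2 (by norm_num) (by
    rw [v2]
    linarith only [F41])
  have m23 : w 2 ≤ w 3 := h.wm 2 (by norm_num) 3 (by norm_num) (by
    rw [v2, v3]
    exact zero_le_one)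
  have m01 : w 0 ≤ w 1 := h.wm 0 (by norm_num) 1 (by norm_num) F52
  have hA : ∀ k ≤ 3, ((A - w k : ℕ) : ℝ) = A - w k := fun k hk => by
    rw [Nat.cast_sub (h.wA k hk)]
  have h23 : ((w 3 - w 2 : ℕ) : ℝ) = w 3 - w 2 := by rw [Nat.cast_sub m23]
  have h20 : ((w 2 - w 0 : ℕ) : ℝ) = w 2 - w 0 := by rw [Nat.cast_sub m02]
  -- rough and static
  have hr : ∀ l < 3, l ≠ 2 → ¬ Sc l := fun l hl hne hsc => hne ((hSc l hl).1 hsc)
  have hst : Sc 2 := (hSc 2 (by norm_num)).2 rfl
  have gTr : ∀ k ≤ 3, ∀ l < 3, l ≠ 2 → gT k l = gc k l := fun k hk l hl hne =>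
    h.gr k hk l hl (hr l hl hne)
  have gTs : ∀ k ≤ 3, Λ 2 + 2 * A' * U - 4 * (y * U) ≤ gT k 2 ∧
      (gT k 2 : ℝ) ≤ Λ 2 + 2 * A' * U + 4 * (y * U) := fun k hk => by
    have := h.gs k hk 2 (by norm_num) hst
    rw [s2] at this
    exact this
  -- levels of the ball `3` and of the label `2`
  have G3 : ∀ l ≤ 3, Λ l + Sl l * U - 2 * (y * U) ≤ g₀ 3 l ∧
      (g₀ 3 l : ℝ) ≤ Λ l + Sl l * U + 2 * (y * U) := fun l hl => by
    have := h.ga 3 (by norm_num) l hl
    rw [v3, mul_one] at this
    exact this
  have G2 : ∀ l ≤ 3, Λ l - 2 * (y * U) ≤ g 2 l ∧ (g 2 l : ℝ) ≤ Λ l + 2 * (y * U) :=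
    fun l hl => by
    have := h.gb 2 (by norm_num) l hl
    rw [v2, mul_zero, zero_mul, add_zero] at this
    exact this
  have B2 : ∀ l ≤ 3, Λ l - 2 * (y * U) ≤ g₀ 2 l ∧ (g₀ 2 l : ℝ) ≤ Λ l + 2 * (y * U) :=
    fun l hl => by
    have := h.ga 2 (by norm_num) l hl
    rw [v2, mul_zero, zero_mul, add_zero] at this
    exact this
  have C2 : ∀ l ≤ 3, Λ l + A' * U - 4 * (y * U) ≤ gc 2 l ∧
      (gc 2 l : ℝ) ≤ Λ l + A' * U + 4 * (y * U) := fun l hl => by
    have := h.gd 2 (by norm_num) l hl
    rw [v2, mul_zero, zero_mul, add_zero, sub_zero] at this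
    exact this
  have C3 : ∀ l ≤ 3, Λ l + Sl l * U + (A' - 1) * U - 4 * (y * U) ≤ gc 3 l ∧
      (gc 3 l : ℝ) ≤ Λ l + Sl l * U + (A' - 1) * U + 4 * (y * U) := fun l hl => by
    have := h.gd 3 (by norm_num) l hl
    rw [v3, mul_one] at this
    exact this
  -- positivity
  have lo0 : ∀ l ≤ 3, U ≤ Λ l + Sl l * v 0 * U := fun l hl => by
    have h1 := h.lo 0 (by norm_num) l hl
    linarith only [h1, U51, U43, U64, U62, hyUs, hU]
  have lo2 : ∀ l ≤ 3, U ≤ Λ l := fun l hl => by
    have h1 := lo0 l hl
    have h2 : 0 ≤ Sl l * (-v 0) * U := by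
      have := hsl l hl
      have : 0 ≤ -v 0 := by linarith only [F51, F43]
      positivity
    linarith only [h1, h2]
  have slU : ∀ l ≤ 3, U ≤ Sl l * U := fun l hl => by
    have := mul_le_mul_of_nonneg_right (hsl l hl) hU.le
    linarith only [this]
  have pos : ∀ k ≤ 3, ∀ l ≤ 3, U ≤ Λ l + Sl l * v k * U := fun k hk l hl => by
    have h1 := h.lo k hk l hl
    have h2 : v 0 ≤ v k := by
      have : k = 0 ∨ k = 1 ∨ k = 2 ∨ k = 3 := by omega
      rcases this with rfl | rfl | rfl | rfl
      · exact le_rfl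
      · exact F52
      · rw [v2]; linarith only [F51, F43]
      · rw [v3]; linarith only [F51, F43]
    have h3 := mul_le_mul_of_nonneg_right h2 hU.le
    linarith only [h1, h3, U64, hyUs, hU]
  have vA : ∀ k ≤ 3, v k ≤ A' - 1 := fun k hk => by
    have : k = 0 ∨ k = 1 ∨ k = 2 ∨ k = 3 := by omega
    rcases this with rfl | rfl | rfl | rfl
    · linarith only [F51, F43]
    · linarith only [F41, F43]
    · rw [v2]; linarith only [F43]
    · rw [v3]; linarith only [F43]
  have vAU : ∀ k ≤ 3, U ≤ (A' - v k) * U := fun k hk => by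
    have := mul_le_mul_of_nonneg_right (vA k hk) hU.le
    linarith only [this]
  have v1A := vAU 1 (by norm_num)
  have k1 : 0 ≤ (s - 1) * (-v 0) * U := by
    have : 0 ≤ s - 1 := by linarith only [hs]
    have : 0 ≤ -v 0 := by linarith only [F51, F43]
    positivity
  have gcp : ∀ k ≤ 3, ∀ l ≤ 3, U ≤ gc k l := fun k hk l hl => by
    have h1 := (h.gd k hk l hl).1
    have h2 := pos k hk l hl
    have h3 := vAU k hk
    linarith only [h1, h2, h3, hyUs, hU]
  have ppp : ∀ k ≤ 3, U ≤ pp k := fun k hk => by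
    have h1 := h.pa k hk
    have h2 := pos k hk 3 le_rfl
    have h3 := vAU k hk
    linarith only [h1, h2, h3, hyUs, hU]
  -- the letters
  obtain ⟨g', hg'⟩ : ∃ g' : ℕ → ℕ, g' = fun l => if l = 2 then g₀ 3 2 else
      gT 2 l - (A - w 3) := ⟨_, rfl⟩
  have g'2 : g' 2 = g₀ 3 2 := by rw [hg']; simp
  have hsub : ∀ l < 3, l ≠ 2 → A - w 3 ≤ gT 2 l := fun l hl hne => by
    rw [gTr 2 (by norm_num) l hl hne]
    refine nat_le_of_real ?_
    rw [hA 3 (by norm_num)]
    have h1 := (C2 l hl.le).1
    have h2 := lo2 l hl.le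
    linarith only [h1, h2, A2, W3.1, hyUs, hyU, hU, U43]
  have g'r : ∀ l < 3, l ≠ 2 → g' l + (A - w 3) = gT 2 l := fun l hl hne => by
    have h1 := hsub l hl hne
    rw [hg']
    simp only [hne, if_false]
    omega
  have g'R : ∀ l < 3, l ≠ 2 → Λ l + U - 5 * (y * U) ≤ g' l ∧
      (g' l : ℝ) ≤ Λ l + U + 5 * (y * U) := fun l hl hne => by
    have h1 : (g' l : ℝ) + ((A - w 3 : ℕ) : ℝ) = gT 2 l := by exact_mod_cast g'r l hl hne
    rw [hA 3 (by norm_num), gTr 2 (by norm_num) l hl hne] at h1
    have h2 := C2 l hl.le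
    constructor <;> linarith only [h1, h2.1, h2.2, A1, A2, W3.1, W3.2, hyU]
  obtain ⟨p, hp⟩ : ∃ p, p = g₀ 3 3 + (A - w 3) - 5 * cl := ⟨_, rfl⟩
  have hpc : 5 * cl ≤ g₀ 3 3 + (A - w 3) := by
    refine nat_le_of_real ?_
    push_cast
    rw [hA 3 (by norm_num)]
    have h1 := (G3 3 le_rfl).1
    have h2 := lo2 3 le_rfl
    have h3 := slU 3 le_rfl
    linarith only [h1, h2, h3, A1, W3.2, c1, hyUs, hyU, hU, U43]
  have hpe : p + 5 * cl = g₀ 3 3 + (A - w 3) := by omega
  have hpR : (p : ℝ) + 5 * cl = g₀ 3 3 + (A - w 3) := by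
    have : ((p + 5 * cl : ℕ) : ℝ) = ((g₀ 3 3 + (A - w 3) : ℕ) : ℝ) := by rw [hpe]
    push_cast at this
    rw [hA 3 (by norm_num)] at this
    exact this
  have G33 := G3 3 le_rfl
  rw [s3] at G33
  obtain ⟨xr, hxr⟩ : ∃ xr : ℝ, xr = (b - 1) * (1 - v 1) * U + 10 * (y * U) := ⟨_, rfl⟩
  have hxr0 : 0 ≤ (b - 1) * (1 - v 1) * U := by
    have : 0 ≤ (b - 1) := by linarith only [hb]
    have : 0 ≤ 1 - v 1 := by linarith only [F41]
    positivity
  obtain ⟨x, hx⟩ : ∃ x : ℕ, x = ⌈xr⌉₊ := ⟨_, rfl⟩
  have hx1 : xr ≤ x := by rw [hx]; exact Nat.le_ceil _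
  have hx2 : (x : ℝ) ≤ xr + 1 := by
    rw [hx]
    exact (Nat.ceil_lt_add_one (by rw [hxr]; linarith only [hxr0, hyU0])).le
  obtain ⟨d, hd⟩ : ∃ d : ℕ, d = ⌈(s - 1) * U + 10 * (y * U)⌉₊ := ⟨_, rfl⟩
  have hs1U : 0 ≤ (s - 1) * U := pr (by linarith only [hs])
  have hd1 : (s - 1) * U + 10 * (y * U) ≤ d := by rw [hd]; exact Nat.le_ceil _
  have hd2 : (d : ℝ) ≤ (s - 1) * U + 10 * (y * U) + 1 := by
    rw [hd]
    exact (Nat.ceil_lt_add_one (by linarith only [hs1U, hyU0])).le
  obtain ⟨f, hf⟩ : ∃ f : ℕ, f = ⌊A' * U⌋₊ := ⟨_, rfl⟩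
  have hf1 : (f : ℝ) ≤ A' * U := by
    rw [hf]
    exact Nat.floor_le (pr (by linarith only [F43]))
  have hf2 : A' * U - 1 ≤ f := by
    rw [hf]
    have := Nat.lt_floor_add_one (A' * U)
    linarith only [this]
  have heM : ((max (e 2) (e 3) : ℕ) : ℝ) ≤ Ee + y * U := by
    rcases max_choice (e 2) (e 3) with h1 | h1
    · rw [h1]
      exact h.ee 2 (by norm_num)
    · rw [h1]
      exact h.ee 3 (by norm_num)
  have ro := h.ro
  have e1' := h.ee 1 (by norm_num)
  have G30 := G3 0 (by norm_num)
  have G31 := G3 1 (by norm_num)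
  have G32 := G3 2 (by norm_num)
  rw [s0] at G30
  rw [s1] at G31
  rw [s2] at G32
  have g'0 := g'R 0 (by norm_num) (by norm_num)
  have g'1 := g'R 1 (by norm_num) (by norm_num)
  have B20 := B2 0 (by norm_num)
  have B21 := B2 1 (by norm_num)
  have B22 := B2 2 (by norm_num)
  have L00 := h.ga 0 (by norm_num) 0 (by norm_num)
  have L01 := h.ga 0 (by norm_num) 1 (by norm_num)
  have L02 := h.ga 0 (by norm_num) 2 (by norm_num)
  rw [s0] at L00
  rw [s1] at L01
  rw [s2] at L02
  have hroomg : ∀ l ≤ 3, ∀ t : ℝ, t ≤ K → Λ l + Sl l * t * U + Ee + 3 * K * U ≤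
      J + y * U := fun l hl t ht => by
    have h1 := ro l hl
    have h2 : 0 ≤ Sl l * (K - t) * U := by
      have := hsl l hl
      have : 0 ≤ K - t := by linarith only [ht]
      positivity
    linarith only [h1, h2]
  -- the second ball
  obtain ⟨dd, hdd⟩ : ∃ dd : ℕ, dd = ⌈(s - 1) * U - X' / 2⌉₊ := ⟨_, rfl⟩
  have hX0 : (0 : ℝ) ≤ X' := Nat.cast_nonneg _
  have hdd1 : (s - 1) * U - X' / 2 ≤ dd := by rw [hdd]; exact Nat.le_ceil _
  have hdd2 : (dd : ℝ) ≤ (s - 1) * U - X' / 2 + 1 := by
    rw [hdd]
    exact (Nat.ceil_lt_add_one (by linarith only [hXs, hX0])).le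
  obtain ⟨ff, hff⟩ : ∃ ff : ℕ, ff = ⌈(s - 1) * U + 8 * (y * U)⌉₊ := ⟨_, rfl⟩
  have hff1 : (s - 1) * U + 8 * (y * U) ≤ ff := by rw [hff]; exact Nat.le_ceil _
  have hff2 : (ff : ℝ) ≤ (s - 1) * U + 8 * (y * U) + 1 := by
    rw [hff]
    exact (Nat.ceil_lt_add_one (by linarith only [hs1U, hyU0])).le
  have hdf : dd ≤ ff := nat_le_of_real (by linarith only [hdd2, hff1, hyU, hX0])
  obtain ⟨f₂, hf₂⟩ : ∃ f₂, f₂ = ff - dd := ⟨_, rfl⟩
  have hf2e : f₂ + dd = ff := by omega
  obtain ⟨y', hy'⟩ : ∃ y' : ℕ, y' = ⌈(A' - 1) * U + 10 * (y * U)⌉₊ := ⟨_, rfl⟩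
  have vA3 := vAU 3 le_rfl
  rw [v3] at vA3
  have hy1 : (A' - 1) * U + 10 * (y * U) ≤ y' := by rw [hy']; exact Nat.le_ceil _
  have hy2 : (y' : ℝ) ≤ (A' - 1) * U + 10 * (y * U) + 1 := by
    rw [hy']
    exact (Nat.ceil_lt_add_one (by linarith only [vA3, hU, hyU0])).le
  obtain ⟨p₂, hp₂⟩ : ∃ p₂, p₂ = g₀ 3 3 + (A - w 3) - 5 * cl := ⟨_, rfl⟩
  have hpc2 : 5 * cl ≤ g₀ 3 3 + (A - w 3) := by
    refine nat_le_of_real ?_
    push_cast
    rw [hA 3 (by norm_num)]
    have h2 := pos 3 le_rfl 3 le_rfl
    rw [s3] at h2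
    linarith only [G33.1, h2, A1, W3.2, vA3, c1, hyUs, hyU, hU]
  have hpe2 : p₂ + 5 * cl = g₀ 3 3 + (A - w 3) := by omega
  have hpR2 : (p₂ : ℝ) + 5 * cl = g₀ 3 3 + (A - w 3) := by
    have : ((p₂ + 5 * cl : ℕ) : ℝ) = ((g₀ 3 3 + (A - w 3) : ℕ) : ℝ) := by rw [hpe2]
    push_cast at this
    rw [hA 3 (by norm_num)] at this
    exact this
  have h21 : ((w 2 - w 1 : ℕ) : ℝ) = w 2 - w 1 := by rw [Nat.cast_sub m12]
  refine ⟨g', p, x, d, f, ?_, ?_, ?_, ?_, ?_, f₂, dd, y', p₂, ?_, ?_, ?_, ?_, ?_⟩
  · exact
      { h0 := by norm_num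
        h1 := by norm_num
        h2 := by norm_num
        h3 := by norm_num
        w0 := m02
        w1 := m12
        w2 := m23
        jz := hz
        one := fun l hl hsl x hx => by
          have h1 := (hSc l hl).1 hsl
          exact hr x (by omega) (by omega)
        pos := fun k hk => ⟨fun l hl => nat_le_of_real (by
          push_cast
          by_cases hl1 : l = 2
          · subst hl1
            have h1 := (gTs k hk).1
            have h2 := lo2 2 (by norm_num)
            linarith only [c1, hX', h1, h2, U43, hyUs, hU]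
          · rw [gTr k hk l hl hl1]
            have h1 := gcp k hk l hl.le
            linarith only [c1, hX', h1, hyUs, hU]), fun l hl => nat_le_of_real (by
          push_cast
          have h1 := gcp k hk l hl
          linarith only [c1, hX', h1, hyUs, hU]), nat_le_of_real (by
          have h1 := ppp k hk
          linarith only [c1, h1, hyUs, hU])⟩
        mo0 := fun l hl => nat_le_of_real (by
          push_cast
          by_cases hl1 : l = 2
          · subst hl1
            have h1 := (gTs 0 (by norm_num)).2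
            have h2 := (gTs 2 (by norm_num)).1
            linarith only [h1, h2, hX1, hXR, hyU0]
          · rw [gTr 0 (by norm_num) l hl hl1, gTr 2 (by norm_num) l hl hl1]
            have h1 := (h.gd 0 (by norm_num) l hl.le).2
            have h2 := (C2 l hl.le).1
            have h3 : 0 ≤ (Sl l - 1) * (-v 0) * U := by
              have := hsl l hl.le
              have : 0 ≤ Sl l - 1 := by linarith only [this]
              have : 0 ≤ -v 0 := by linarith only [F51, F43]
              positivity
            linarith only [h1, h2, h3, hX1, hXR, hyU0])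
        mo1 := fun l hl => nat_le_of_real (by
          push_cast
          by_cases hl1 : l = 2
          · subst hl1
            have h1 := (gTs 1 (by norm_num)).2
            have h2 := (gTs 2 (by norm_num)).1
            linarith only [h1, h2, hX1, hXR, hyU0]
          · rw [gTr 1 (by norm_num) l hl hl1, gTr 2 (by norm_num) l hl hl1]
            have h1 := (h.gd 1 (by norm_num) l hl.le).2
            have h2 := (C2 l hl.le).1
            have h3 : 0 ≤ (Sl l - 1) * (-v 1) * U := by
              have := hsl l hl.le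
              have : 0 ≤ Sl l - 1 := by linarith only [this]
              have : 0 ≤ -v 1 := by linarith only [F41]
              positivity
            linarith only [h1, h2, h3, hX1, hXR, hyU0])
        st2 := fun l hl hsc => nat_le_of_real (by
          rw [(hSc l hl).1 hsc]
          push_cast
          have h1 := (gTs 2 (by norm_num)).2
          have h2 := (gTs 0 (by norm_num)).1
          linarith only [h1, h2, hX1, hXR, hyU0])
        st3 := fun l hl hsc => nat_le_of_real (by
          rw [(hSc l hl).1 hsc]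
          push_cast
          have h1 := (gTs 3 (by norm_num)).2
          have h2 := (gTs 0 (by norm_num)).1
          linarith only [h1, h2, hX1, hXR, hyU0])
        stK := fun l hl hsc => nat_le_of_real (by
          rw [(hSc l hl).1 hsc]
          push_cast
          rw [hA 3 (by norm_num)]
          have h2 := (gTs 0 (by norm_num)).1
          linarith only [G32.2, A2, W3.1, h2, U43, hX1, hXR, hyU, hyU0, hU])
        gr := fun k hk l hl hsc => nat_le_of_real (by
          rw [(hSc l hl).1 hsc]
          push_cast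
          have h1 := (h.gd k hk 2 (by norm_num)).2
          rw [s2] at h1
          have h2 := (gTs k hk).1
          have h3 := vAU k hk
          linarith only [h1, h2, h3, hU, hX1, hXR, hyU0])
        sp := fun l hl hsc => by
          rw [(hSc l hl).1 hsc]
          exact g'2
        rT := fun l hl hsc => (g'r l hl (fun h1 => hsc ((hSc l hl).2 h1))).symm
        up := fun l hl => nat_le_of_real (by
          push_cast
          rw [h23]
          have h1 := (G2 l hl).2
          have h2 := (G3 l hl).1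
          have h3 := slU l hl
          linarith only [h1, h2, h3, W3.2, W2.1, hX1, hXR, hyU])
        hh := fun l hl hsc x hx hxc => nat_le_of_real (by
          have h1 : l ≠ 2 := fun h1 => hsc ((hSc l hl).2 h1)
          have h3 : x = 0 := by omega
          rw [h3]
          push_cast
          linarith only [G30.2, g'0.1, hX1, hXR, hyU0])
        vp := nat_le_of_real (by
          push_cast
          rw [hA 3 (by norm_num)]
          linarith only [hpR, c1, hX1, hXR, hyU0])
        pq := nat_le_of_real (by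
          push_cast
          have h1 := h.pa 1 (by norm_num)
          rw [s3] at h1
          linarith only [hpR, G33.2, A2, W3.1, h1, U3, hyUs, hyU, hU, hcl0])
        pc := by
          have h1 := h.ng 3 (by norm_num) 3 le_rfl
          omega
        px := nat_le_of_real (by
          push_cast
          have h1 := (h.gd 1 (by norm_num) 3 le_rfl).1
          rw [s3] at h1
          linarith only [hpR, G33.2, A2, W3.1, h1, hx1, hxr, hyU, hcl0])
        r0 := nat_le_of_real (by
          push_cast
          have h1 := hroomg 0 (by norm_num) 0 (by linarith only [F64, F51, F43])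
          have h2 := lo2 0 (by norm_num)
          have h3 : (0 : ℝ) ≤ e 1 := Nat.cast_nonneg _
          linarith only [hx2, hxr, hxr0, h1, h2, h3, e1', U61, v1A, c1, hyUs, hyU, hU])
        r1 := fun l hl => nat_le_of_real (by
          push_cast
          by_cases hl1 : l = 2
          · subst hl1
            have h1 := (gTs 1 (by norm_num)).2
            have h2 := hroomg 2 (by norm_num) A' F62
            rw [s2] at h2
            linarith only [e1', h1, h2, hx2, hxr, hxr0, U61, v1A, c1, hyUs, hyU, hU]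
          · rw [gTr 1 (by norm_num) l hl hl1]
            have h1 := (h.gd 1 (by norm_num) l hl.le).2
            have h2 := hroomg l hl.le (v 1) (by linarith only [F62, F43, F41])
            linarith only [e1', h1, h2, hx2, hxr, hxr0, U61, v1A, c1, hyUs, hyU, hU])
        r2 := fun l hl => nat_le_of_real (by
          push_cast
          have h1 := (h.gd 1 (by norm_num) l hl.le).2
          have h2 := hroomg l hl.le (v 1) (by linarith only [F62, F43, F41])
          linarith only [e1', h1, h2, hx2, hxr, hxr0, U61, v1A, c1, hyUs, hyU, hU])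
        r3 := nat_le_of_real (by
          push_cast
          have h1 := (h.gd 1 (by norm_num) 3 le_rfl).2
          have h2 := hroomg 3 le_rfl (v 1) (by linarith only [F62, F43, F41])
          linarith only [e1', h1, h2, hx2, hxr, hxr0, U61, v1A, c1, hyUs, hyU, hU]) }
  · intro l hl
    have : l = 0 ∨ l = 1 ∨ l = 2 := by omega
    rcases this with rfl | rfl | rfl
    · refine nat_le_of_real ?_
      push_cast
      linarith only [G30.2, g'0.1, hd1, hs1U, hyU0]
    · refine nat_le_of_real ?_
      push_cast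
      linarith only [G31.2, g'1.1, hd1, hyU0]
    · rw [g'2]
      omega
  · refine nat_le_of_real ?_
    push_cast
    linarith only [W2.2, B21.2, G32.2, W3.1, B22.1, g'1.1, hX1, hXR, hyU]
  · exact
      { st := nat_le_of_real (by
          push_cast
          rw [hA 0 (by norm_num)]
          have h2 := (gTs 0 (by norm_num)).1
          have h3 := vAU 0 (by norm_num)
          linarith only [L02.2, A2, W0.1, h2, h3, hyUs, hyU, hU, hX1])
        on := nat_le_of_real (by
          push_cast
          rw [h20]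
          linarith only [B20.2, L00.1, W2.1, W0.2, hX1, hyU])
        mo := nat_le_of_real (by
          push_cast
          rw [gTr 0 (by norm_num) 1 (by norm_num) (by norm_num),
            gTr 2 (by norm_num) 1 (by norm_num) (by norm_num)]
          have h1 := (h.gd 0 (by norm_num) 1 (by norm_num)).2
          rw [s1] at h1
          have h2 := (C2 1 (by norm_num)).1
          linarith only [h1, h2, k1, hX1, hyU0])
        K1 := ha₁
        l0 := nat_le_of_real (by
          push_cast
          rw [hA 3 (by norm_num)]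
          have h2 := (gTs 0 (by norm_num)).1
          linarith only [A2, W3.1, G32.2, hQ, h2, U43, hyUs, hyU, hU])
        l3 := nat_le_of_real (by
          push_cast
          rw [hA 3 (by norm_num)]
          have h2 := (gTs 3 (by norm_num)).1
          linarith only [A2, W3.1, G32.2, hQ, h2, U43, hyUs, hyU, hU])
        g0 := fun l hl => nat_le_of_real (by
          have h1 := (G3 l (by omega)).1
          have h2 := lo2 l (by omega)
          have h3 := slU l (by omega)
          linarith only [hQ, h1, h2, h3, hyUs, hU])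
        rm := fun l hl => nat_le_of_real (by
          push_cast
          have h1 := (G3 l (by omega)).2
          have h2 := hroomg l (by omega) 1 (by linarith only [F62, F43])
          have h3 := h.ee 3 (by norm_num)
          linarith only [h1, h2, h3, hQ, U63, hs1U, hyUs, hU])
        ef := nat_le_of_real (by
          push_cast
          have h3 := h.ee 3 (by norm_num)
          linarith only [h3, he₁, hQ, U63, hs1U, hyUs, hyU, hU])
        f0 := nat_le_of_real (by
          have h1 : (w 3 : ℝ) ≤ a₁ := by exact_mod_cast ha₁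
          push_cast
          linarith only [h1, hb0, G30.1, hX1, hyU0])
        f2 := nat_le_of_real (by
          have h1 : (w 3 : ℝ) ≤ a₁ := by exact_mod_cast ha₁
          push_cast
          linarith only [h1, hb2, G32.1, hX1, hyU0])
        gp := nat_le_of_real (by
          push_cast
          linarith only [g'0.2, G30.1, hX1, hyU0])
        lo := nat_le_of_real (by
          push_cast
          linarith only [W0.2, L01.2, G32.2, hQ, W3.1, G31.1, L02.1, U53, U43, hs1U, hyUs, hyU, hU])
        co := nat_le_of_real (by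
          push_cast
          linarith only [W0.2, L01.2, G32.2, hQ, W3.1, g'1.1, L02.1, U53, U43, hyUs, hyU, hU])
        va := nat_le_of_real (by
          push_cast
          linarith only [hf1, W0.2, L00.2, G32.2, hX1, L02.1, W2.1, W3.1, G30.1, U51, hyU])
        vb := nat_le_of_real (by
          push_cast
          linarith only [hf1, W0.2, L01.2, B20.2, G32.2, hX1, L02.1, B21.1, W3.1, G30.1, U53,
            hyU]) }
  · have k0 : (w 3 : ℝ) ≤ at' := by exact_mod_cast hat
    exact
      { K1 := hat
        t1 := hwt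
        f1 := nat_le_of_real (by linarith only [hQ', hf2, U43, hyUs, hyU, hU])
        f2 := nat_le_of_real (by
          push_cast
          have h1 := (gTs 2 (by norm_num)).2
          linarith only [h1, G33.2, hpR, c1, A1, W3.2, hf2, G32.1, hyUs, hyU, hU])
        n1 := nat_le_of_real (by
          push_cast at heM ⊢
          linarith only [heM, hd2, hQ', heb, U63, hyUs, hyU, hU])
        n2 := fun l hl => nat_le_of_real (by
          have h2 := hroomg l hl.le 1 (by linarith only [F62, F43])
          by_cases hl1 : l = 2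
          · subst hl1
            rw [g'2]
            push_cast at heM ⊢
            rw [s2] at h2
            linarith only [heM, hd2, G32.2, h2, U63, hQ', hyUs, hyU, hU]
          · have h1 := (g'R l hl hl1).2
            have h3 := slU l hl.le
            push_cast at heM ⊢
            linarith only [heM, hd2, h1, h3, h2, U63, hQ', hyUs, hyU, hU])
        n3 := nat_le_of_real (by
          have h2 := hroomg 3 le_rfl 1 (by linarith only [F62, F43])
          rw [s3] at h2
          push_cast at heM ⊢
          linarith only [heM, hd2, G33.2, h2, U63, hQ', hyUs, hyU, hU])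
        n4 := fun l hl => nat_le_of_real (by
          have h3 := lo2 l hl.le
          by_cases hl1 : l = 2
          · subst hl1
            rw [g'2]
            linarith only [hQ', G32.1, h3, hyUs, hU]
          · have h1 := (g'R l hl hl1).1
            linarith only [hQ', h1, h3, hyUs, hU])
        n5 := nat_le_of_real (by
          have h3 := lo2 3 le_rfl
          have : 0 ≤ b * U := pr (by linarith only [hb])
          linarith only [hQ', G33.1, h3, this, hyUs, hU])
        n6 := nat_le_of_real (by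
          push_cast
          linarith only [hbt, G33.1, k0, hyU0]) }

  · exact
      { iN := by norm_num
        i1N := by norm_num
        tN := by norm_num
        kN := by norm_num
        it := m02
        i1t := m12
        tk := m23
        cT := fun l hl => by
          have q : ∀ k ≤ 3, cl ≤ gT k l := fun k hk => nat_le_of_real (by
            by_cases hl1 : l = 2
            · subst hl1
              have h1 := (gTs k hk).1
              have h2 := lo2 2 (by norm_num)
              linarith only [h1, h2, c1, U43, hyUs, hU]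
            · rw [gTr k hk l hl hl1]
              have h1 := gcp k hk l hl.le
              linarith only [h1, c1, hyUs, hU])
          exact ⟨q 0 (by norm_num), q 2 (by norm_num), q 3 (by norm_num), nat_le_of_real (by
            have h1 := gcp 3 le_rfl l hl.le
            linarith only [h1, c1, hyUs, hU])⟩
        pk := nat_le_of_real (by
          have h1 := ppp 3 le_rfl
          linarith only [h1, c1, hyUs, hU])
        ck := nat_le_of_real (by
          have h1 := gcp 3 le_rfl 3 le_rfl
          linarith only [h1, c1, hyUs, hU])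
        m1 := nat_le_of_real (by
          push_cast
          have h1 := (gTs 3 le_rfl).2
          have h2 := (gTs 0 (by norm_num)).1
          linarith only [h1, h2, hX2, hyU0])
        lb := nat_le_of_real (by
          push_cast
          rw [hA 3 (by norm_num)]
          have h2 := (gTs 3 le_rfl).1
          linarith only [h2, G32.2, A2, W3.1, vA3, hX2, hyUs, hyU, hU])
        P1 := nat_le_of_real (by
          push_cast
          have h1 := h.pa 1 (by norm_num)
          rw [s3] at h1
          linarith only [hpR2, G33.2, A2, W3.1, h1, U3, hcl0, hyUs, hyU, hU])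
        P2 := by
          have h1 := h.ng 3 le_rfl 3 le_rfl
          omega
        vp := nat_le_of_real (by
          push_cast
          rw [hA 3 (by norm_num)]
          linarith only [hpR2, c1, hX2, hyU0])
        mj := nat_le_of_real (by
          push_cast
          rw [h23]
          linarith only [B21.2, G31.1, W3.2, W2.1, hs1U, hX2, hyU])
        fz := by
          rw [hf2e]
          exact nat_le_of_real (by
            push_cast
            rw [h23]
            linarith only [B21.1, G31.2, W3.1, W2.2, hff1, hX2, hyU]) }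
  · exact
      { ii := m01
        cT := fun l hl => by
          refine ⟨nat_le_of_real ?_, nat_le_of_real ?_⟩
          · by_cases hl1 : l = 2
            · subst hl1
              have h1 := (gTs 0 (by norm_num)).1
              have h2 := lo2 2 (by norm_num)
              linarith only [h1, h2, c1, U43, hyUs, hU]
            · rw [gTr 0 (by norm_num) l hl hl1]
              have h1 := gcp 0 (by norm_num) l hl.le
              linarith only [h1, c1, hyUs, hU]
          · have h1 := gcp 0 (by norm_num) l hl.le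
            linarith only [h1, c1, hyUs, hU]
        pi := nat_le_of_real (by
          have h1 := ppp 0 (by norm_num)
          linarith only [h1, c1, hyUs, hU])
        ci := nat_le_of_real (by
          have h1 := gcp 0 (by norm_num) 3 le_rfl
          linarith only [h1, c1, hyUs, hU])
        lb := nat_le_of_real (by
          push_cast
          rw [hA 0 (by norm_num)]
          have h2 := (gTs 0 (by norm_num)).1
          have h3 := vAU 0 (by norm_num)
          linarith only [h2, h3, L02.2, A2, W0.1, hX2, hyUs, hyU, hU])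
        ex := nat_le_of_real (by
          push_cast
          rw [hA 3 (by norm_num)]
          have h2 := (gTs 3 le_rfl).2
          linarith only [h2, G32.1, A1, W3.2, hy1, hyU])
        fr := by
          rw [hf2e]
          exact nat_le_of_real (by
            push_cast
            rw [h21]
            linarith only [hff2, hQ2, V5, W2.1, W1.2, hyUs, hyU, hU])
        nv := by
          have e1 : Y + y' + f₂ + dd + (w 0 + g₀ 0 1 + g₀ 3 2) + Q₂ =
              Y + y' + ff + (w 0 + g₀ 0 1 + g₀ 3 2) + Q₂ := by omega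
          rw [e1]
          exact nat_le_of_real (by
            push_cast
            linarith only [hY, hy2, hff2, W0.2, L01.2, G32.2, hQ2, W3.1, G31.1, L02.1, U53, U43,
              hyUs, hyU, hU]) }
  · exact nat_le_of_real (by
      push_cast
      linarith only [G32.2, W0.2, L01.2, hQ2, W3.1, g'1.1, L02.1, U53, U43, hyUs, hyU, hU])
  · exact nat_le_of_real (by
      push_cast
      linarith only [W3.2, G31.2, G33.2, W3.1, g'1.1, G33.1, hdd1, hX1, hXR, hQX, hyU, hyU0, hX0,
        Nat.cast_nonneg (α := ℝ) Q₃])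
  · have k1 : (w 3 : ℝ) ≤ at₂ := by exact_mod_cast hat2
    have e5 := h.ee 3 le_rfl
    exact
      { K1 := hat2
        t1 := hwt2
        n1 := nat_le_of_real (by
          push_cast
          linarith only [e5, hQ3, heb2, U62, U43, hyUs, hyU, hU])
        n2 := fun l hl => nat_le_of_real (by
          have h1 := (G3 l (by omega)).2
          have h2 := hroomg l (by omega) 1 (by linarith only [F43, F62])
          push_cast
          linarith only [h1, h2, e5, hQ3, U62, U43, hyUs, hyU, hU])
        n4 := fun l hl => nat_le_of_real (by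
          have h1 := (G3 l (by omega)).1
          have h3 := pos 3 le_rfl l (by omega)
          rw [v3, mul_one] at h3
          linarith only [h1, h3, hQ3, hyUs, hU])
        n5 := nat_le_of_real (by
          have h3 := h.lo 3 le_rfl 1 (by norm_num)
          rw [s1, v3] at h3
          push_cast
          linarith only [h3, G31.1, hdd2, hQ3, V6, hyUs, hyU, hU, hX0])
        n6 := nat_le_of_real (by
          push_cast
          linarith only [hbt2, G31.1, hdd2, k1, hyUs, hyU, hQX]) }

end Pool.TNW
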