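import Pool.Agent.H23.D2.Tho
import Pool.Agent.H88.D2.Uov

/-!
# The end for a thin place over one static place

`CEv.row1`: the label of the static place `1` is a closed gradient of its ball charts.
`thin_end`: the end for the place `1`, and for the place `2` over a static place `1`.
-/

set_option autoImplicit false

namespace Pool.TN

open Finset Real MvPolynomial
open Pool.Agent.H49.Ent Pool.Agent.H32.Dense Pool.STK Pool.KA Pool.KSAT Pool.K2S Pool.PB Pool.S6C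
open Pool.GEN Pool.CHT Pool.CHX Pool.ISO Pool.D2R Pool.D2Z Pool.D2F
open Pool.LBT (ThrOf)
open Pool.FLF (Fam.sub)
open Pool.PB.Trl (rt rt_mem t_rt)

variable {m J : ℕ}

section

variable {F : Fam m J} {c : ℕ → Fin m} {r D Dr N M A cl : ℕ} {Sc : ℕ → Prop}
    {w e h pp : ℕ → ℕ} {z g gc gT g₀ : ℕ → ℕ → ℕ} {κ : ℝ} {B : F.Ω → Prop}
    {G : ℕ → PtT F → ℕ → MvPolynomial (Option (Fin m)) ℝ}
    {H : ℕ → LnT F → ℕ → MvPolynomial (Option (Fin m)) ℝ}
    {T : ℕ → PtT F → ℕ → MvPolynomial (Option (Fin m)) ℝ}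
    {TH : ℕ → LnT F → ℕ → MvPolynomial (Option (Fin m)) ℝ}
    {Gt : ℕ → PtT F → MvPolynomial (Option (Fin m)) ℝ}
    {Ht : ℕ → LnT F → MvPolynomial (Option (Fin m)) ℝ}

/-- **The label of the static place** `1` against the ball charts of the window `k`. -/
theorem CEv.row1 (E : CEv F c r D Dr N M A cl Sc w e h pp z g gc gT g₀ κ B G H T TH Gt Ht)
    {i t k X : ℕ} (hr : 1 < r) (hi : i ≤ N) (ht : t ≤ N) (hk : k ≤ N) (hit : w i ≤ w t)
    (htk : w t ≤ w k) (hs0 : ¬ Sc 0) (h1 : cl ≤ gT i 1) (h2 : cl ≤ gc k 1)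
    (h3 : g₀ k 1 + (A - w k) ≤ gT i 1 + X) {ω : F.Ω} (hω : B ω) {V : Option (Fin m) → ℝ}
    (hV : V none = 0) :
    |∑ j ∈ range 1, (kpol c (w t) (ltr (TH i) (w t - w i) 1) (slam F (w t) ω) j).eval
        (rt F (w t) ω) * V (some (c j)) - cv (gG G ω k 1) V| ≤
      2 ^ (7 * cl + X + 1) / 2 ^ g₀ k 1 * en c (g₀ k) (w k) (gG G ω k) 1 V := by
  have htJ : w t ≤ J := (E.wA t ht).trans E.AJ
  have hc1 : Set.InjOn c (Set.Iio 1) := E.inj.mono (Set.Iio_subset_Iio (by omega))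
  have hcc : CvC c 1 (kT w TH ω i 1) := cvc_grd ((E.evs i hi).thin.depH _ 1) _
  have e1 : ∑ j ∈ range 1, (kpol c (w t) (ltr (TH i) (w t - w i) 1) (slam F (w t) ω) j).eval
      (rt F (w t) ω) * V (some (c j)) = cv (kT w TH ω i 1) V := by
    rw [cv_eq hc1 hcc, hV, mul_zero, zero_add]
    refine Finset.sum_congr rfl fun j _ => ?_
    rw [kpol_rt F c htJ, ltr_slam F (TH i) hit htJ]
    rfl
  rw [e1, ← cv_subl]
  obtain ⟨q, hq⟩ : ∃ q, q = min (gT i 1) (gc k 1) - cl := ⟨_, rfl⟩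
  have a0 := E.ng k hk 0 (by omega)
  have a1 := E.ng k hk 1 (by omega)
  have b0 := E.t_rg hk (show 0 < r by omega) hs0
  have h4 := E.tb hr hi hk (hit.trans htk) (q := q) (by omega) (by omega) hω V
  have hz : ∀ χ : ℕ → Option (Fin m) → ℝ, CvC c 0 (χ 0) → cv (χ 0) V = 0 := fun χ hχ => by
    rw [cv_eq (hc1.mono (Set.Iio_subset_Iio (by omega))) hχ, hV, mul_zero, Finset.sum_range_zero,
      add_zero]
  have en1 : ∀ (g : ℕ → ℕ) (a : ℕ) (χ : ℕ → Option (Fin m) → ℝ), CvC c 0 (χ 0) →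
      en c g a χ 1 V = 2 ^ g 0 * |V (some (c 0))| := fun g a χ hχ => by
    rw [en_eq, Finset.sum_range_one, hz χ hχ, hV, abs_zero, mul_zero, zero_add, sub_zero]
  rw [en1 (gT k) A _ (cvc_grd ((E.evs k hk).thin.depH _ 0) _),
    en1 (g₀ k) (w k) _ (cvc_grd ((E.evs k hk).ball.depG _ 0) _)] at h4
  rw [en1 (g₀ k) (w k) _ (cvc_grd ((E.evs k hk).ball.depG _ 0) _)]
  refine h4.trans ?_
  have k1 : (2 : ℝ) ^ cl / 2 ^ q * 2 ^ gT k 0 ≤ 2 ^ (7 * cl + X) / 2 ^ g₀ k 1 * 2 ^ g₀ k 0 := by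
    rw [div_mul_eq_mul_div, div_mul_eq_mul_div, div_le_div_iff₀ (by positivity) (by positivity),
      ← pow_add, ← pow_add, ← pow_add, ← pow_add]
    exact p2 (by omega)
  have k2 : (2 : ℝ) ^ cl / 2 ^ g₀ k 1 ≤ 2 ^ (7 * cl + X) / 2 ^ g₀ k 1 :=
    div_le_div_of_nonneg_right (p2 (by omega)) (by positivity)
  have n0 := abs_nonneg (V (some (c 0)))
  have k3 := mul_le_mul_of_nonneg_right k1 n0
  have k4 := mul_le_mul_of_nonneg_right k2
    (show (0 : ℝ) ≤ 2 ^ g₀ k 0 * |V (some (c 0))| by positivity)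
  calc (2 : ℝ) ^ cl / 2 ^ q * (2 ^ gT k 0 * |V (some (c 0))|) +
        2 ^ cl / 2 ^ g₀ k 1 * (2 ^ g₀ k 0 * |V (some (c 0))|) ≤
        2 ^ (7 * cl + X) / 2 ^ g₀ k 1 * 2 ^ g₀ k 0 * |V (some (c 0))| +
        2 ^ (7 * cl + X) / 2 ^ g₀ k 1 * (2 ^ g₀ k 0 * |V (some (c 0))|) := by
        refine add_le_add ((le_of_eq (by ring)).trans k3) k4
    _ = _ := by rw [pow_succ]; ring

end

/-- **The end for a thin place** `n`: `n = 1`, or `n = 2` over the static place `1`. -/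
theorem thin_end (m D D₁ r n : ℕ) (hD : 1 ≤ D) (hnr : n ≤ r) (hn : n = 1 ∨ n = 2) :
    ∃ C : ℕ, 1 ≤ C ∧
    ∀ {θ : ℝ} {S : PCl m} {P : List (Fin m) × Fin m → ℝ → ℝ → ℝ} (_ : ThrOf (chsys m θ) S P)
    (_ : TmH S) (c : ℕ → Fin m) (_ : Set.InjOn c (Set.Iio (r + 1))) (a w' : ℚ)
    (b eb h' ε κ₀ : ℝ) (_ : 0 ≤ w') (_ : w' ≤ a) (_ : a ≤ 1) (_ : b < 1) (_ : eb < θ * w')
    (_ : 0 < h') (_ : bet P c n a w' + h' ≤ 1) (_ : 0 < ε) (_ : 0 < κ₀),
    Bas S (fun J F A₀ => ∀ {Dr N M A cl : ℕ} {Sc : ℕ → Prop} {w e h pp : ℕ → ℕ}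
      {z g gc gT g₀ : ℕ → ℕ → ℕ} {κ : ℝ} {B : F.Ω → Prop}
      {G : ℕ → PtT F → ℕ → MvPolynomial (Option (Fin m)) ℝ}
      {H : ℕ → LnT F → ℕ → MvPolynomial (Option (Fin m)) ℝ}
      {T : ℕ → PtT F → ℕ → MvPolynomial (Option (Fin m)) ℝ}
      {TH : ℕ → LnT F → ℕ → MvPolynomial (Option (Fin m)) ℝ}
      {Gt : ℕ → PtT F → MvPolynomial (Option (Fin m)) ℝ}
      {Ht : ℕ → LnT F → MvPolynomial (Option (Fin m)) ℝ},
      CEv F c r D Dr N M A cl Sc w e h pp z g gc gT g₀ κ B G H T TH Gt Ht → Sub B A₀ →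
      ε * J ≤ cl → C ≤ cl →
      ∀ {i₀ t k X dd : ℕ} {lam : LnT F → ℕ → Polynomial ℝ}, t ≤ N → k ≤ N → w t ≤ w k →
      cl ≤ pp k → cl ≤ gc k r → ¬ Sc 0 →
      (n = 2 → i₀ ≤ N ∧ w i₀ ≤ w t ∧ cl ≤ gT i₀ 1 ∧ cl ≤ gc k 1 ∧
        g₀ k 1 + (A - w k) ≤ gT i₀ 1 + X) →
      (∀ s j, (lam s j).natDegree ≤ D₁) →
      (∀ ω, B ω → ∀ V : Option (Fin m) → ℝ, V none = 0 →
        |∑ j ∈ range n, (lam (slam F (w t) ω) j).eval (rt F (w t) ω) * V (some (c j)) -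
          cv (gG G ω k n) V| ≤ 2 ^ (X + dd) / 2 ^ g₀ k n *
            en c (g₀ k) (w k) (gG G ω k) n V) → (w k : ℝ) ≤ b * J →
      NumG n J (w t) (w k) ⌊(a : ℝ) * J⌋₊ ⌊(w' : ℝ) * J⌋₊ ⌊eb * J⌋₊
        ⌊(bet P c n a w' + h') * J⌋₊ (e k) dd (C * (cl + X + 1)) (g₀ k) →
      Pe F.p B < κ₀ * Pe F.p A₀) := by
  classical
  obtain ⟨C₁, hC₁, hgen⟩ := thin_gen m D (D + D₁) r n hD hnr
  obtain ⟨C, hC⟩ : ∃ C, C = 10 * C₁ := ⟨_, rfl⟩
  refine ⟨C, by omega, ?_⟩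
  intro θ S P hP hT c hc a w' b eb h' ε κ₀ hw0 hwa ha hb he hh h2 hε hκ
  refine Bas.mono 0 (hgen hP hT c hc a w' b eb h' ε κ₀ hw0 hwa ha hb he hh h2 hε hκ) ?_
  rintro J - F A₀ hA
  intro Dr N M A cl Sc w e h pp z g gc gT g₀ κ B G H T TH Gt Ht E hBA hεc hCc i₀ t k X dd lam ht hk
    htk hpp hgc hs0 hn2 hdeg hspa hKb nu
  have hc1 : Set.InjOn c (Set.Iio 0) := hc.mono (Set.Iio_subset_Iio (by omega))
  have hX : C₁ * (cl + (7 * cl + X + 1) + 1) ≤ C * (cl + X + 1) := by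
    rw [hC]
    nlinarith [Nat.zero_le (C₁ * cl), Nat.zero_le (C₁ * X)]
  refine hA E hBA hεc (by omega) (t := w t) (k := k) (X := 7 * cl + X + 1) (dd := dd)
    (lam := fun s l j => if l = n then lam s j else if l = 1 then
      kpol c (w t) (ltr (TH i₀) (w t - w i₀) 1) s j else 0) hk htk hpp hgc ?_ ?_ hKb ?_
  · intro s l j
    show (if l = n then lam s j else if l = 1 then
      kpol c (w t) (ltr (TH i₀) (w t - w i₀) 1) s j else 0).natDegree ≤ D + D₁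
    split_ifs with k1 k2
    · exact (hdeg s j).trans (Nat.le_add_left _ _)
    · rcases hn with h4 | h4
      · exact absurd (k2.trans h4.symm) k1
      · exact (kpol_deg c (w t) (fun s => (E.evs i₀ (hn2 h4).1).thin.degH _ 1) s j).trans
          (Nat.le_add_right _ _)
    · rw [Polynomial.natDegree_zero]
      exact Nat.zero_le _
  · intro ω hω l hl V hV
    rcases eq_or_ne l n with h4 | h4
    · subst h4
      simp only [if_true]
      refine (hspa ω hω V hV).trans (mul_le_mul_of_nonneg_right (div_le_div_of_nonneg_right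
        (p2 (by omega)) (by positivity)) (en_nonneg _ _ _ _ _ _))
    · simp only [if_neg h4, add_zero]
      rcases Nat.eq_zero_or_pos l with h5 | h5
      · subst h5
        have h7 : CvC c 0 (gG G ω k 0) := cvc_grd ((E.evs k hk).ball.depG _ 0) _
        have h6 : cv (gG G ω k 0) V = 0 := by
          rw [cv_eq hc1 h7, hV, mul_zero, Finset.sum_range_zero, add_zero]
        rw [Finset.sum_range_zero, h6, sub_zero, abs_zero]
        exact mul_nonneg (by positivity) (en_nonneg _ _ _ _ _ _)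
      · have h6 : l = 1 := by omega
        subst h6
        obtain ⟨m2, m3, m4, m5, m6⟩ := hn2 (by omega)
        simp only [if_true]
        exact E.row1 (by omega) m2 ht hk m3 htk hs0 m4 m5 m6 hω hV
  · exact
      { K1 := nu.K1
        t1 := nu.t1
        n1 := by have := nu.n1; omega
        n2 := fun l hl => by have := nu.n2 l hl; omega
        n4 := fun l hl => hX.trans (nu.n4 l hl)
        n5 := by have := nu.n5; omega
        n6 := by have := nu.n6; omega }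

end Pool.TN
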