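import Pool.Agent.H23.D2.Thn

/-!
# The end for a place of the list, at class level

`thin_gen`: in a class with thresholds, an event of a static cell with closed gradients of the ball
charts of one window, up to a place `n`, natural up to a loss at the place `n`, is small if the level
of the place `n` is above the threshold plus the loss.
-/

set_option autoImplicit false

namespace Pool.TN

open Finset Real MvPolynomial
open Pool.Agent.H49.Ent Pool.Agent.H32.Dense Pool.STK Pool.KA Pool.KSAT Pool.K2S Pool.PB Pool.S6C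
open Pool.GEN Pool.CHT Pool.CHX Pool.ISO Pool.D2R Pool.D2Z Pool.D2F
open Pool.LBT (ThrOf)
open Pool.FLF (Fam.sub)
open Pool.PB.Trl (rt rt_mem t_rt)
open Pool.AFT (AfO AfD ab afo_afd aff_no)

variable {m : ℕ}

/-- The numbers of `thin_gen`: `Q` the loss, `dd` the loss at the last place `n`, `t`, `K` the windows,
`at'`, `wt'` the roundings of the rational windows, `eb'` the exponent, `bt'` the level of the
threshold, `g` the levels. -/
structure NumG (n J t K at' wt' eb' bt' e dd Q : ℕ) (g : ℕ → ℕ) : Prop where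
  K1 : K ≤ at'
  t1 : t ≤ wt'
  n1 : e + Q ≤ eb'
  n2 : ∀ l ≤ n, e + g l + Q ≤ J
  n4 : ∀ l < n, Q ≤ g l
  n5 : dd + Q ≤ g n
  n6 : bt' + K + dd + Q ≤ g n + at'

/-- **The end for a place of the list.** -/
theorem thin_gen (m D D₁ r n : ℕ) (hD : 1 ≤ D) (hnr : n ≤ r) : ∃ C : ℕ, 1 ≤ C ∧
    ∀ {θ : ℝ} {S : PCl m} {P : List (Fin m) × Fin m → ℝ → ℝ → ℝ} (_ : ThrOf (chsys m θ) S P)
    (_ : TmH S) (c : ℕ → Fin m) (_ : Set.InjOn c (Set.Iio (r + 1))) (a w' : ℚ)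
    (b eb h' ε κ₀ : ℝ) (_ : 0 ≤ w') (_ : w' ≤ a) (_ : a ≤ 1) (_ : b < 1) (_ : eb < θ * w')
    (_ : 0 < h') (_ : bet P c n a w' + h' ≤ 1) (_ : 0 < ε) (_ : 0 < κ₀),
    Bas S (fun J F A₀ => ∀ {Dr N M A cl : ℕ} {Sc : ℕ → Prop} {w e h pp : ℕ → ℕ}
      {z g gc gT g₀ : ℕ → ℕ → ℕ} {κ : ℝ} {B : F.Ω → Prop}
      {G : ℕ → PtT F → ℕ → MvPolynomial (Option (Fin m)) ℝ}
      {H : ℕ → LnT F → ℕ → MvPolynomial (Option (Fin m)) ℝ}
      {T : ℕ → PtT F → ℕ → MvPolynomial (Option (Fin m)) ℝ}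
      {TH : ℕ → LnT F → ℕ → MvPolynomial (Option (Fin m)) ℝ}
      {Gt : ℕ → PtT F → MvPolynomial (Option (Fin m)) ℝ}
      {Ht : ℕ → LnT F → MvPolynomial (Option (Fin m)) ℝ},
      CEv F c r D Dr N M A cl Sc w e h pp z g gc gT g₀ κ B G H T TH Gt Ht → Sub B A₀ →
      ε * J ≤ cl → C ≤ cl →
      ∀ {t k X dd : ℕ} {lam : LnT F → ℕ → ℕ → Polynomial ℝ}, k ≤ N → t ≤ w k →
      cl ≤ pp k → cl ≤ gc k r → (∀ s l j, (lam s l j).natDegree ≤ D₁) →
      (∀ ω, B ω → ∀ l ≤ n, ∀ V : Option (Fin m) → ℝ, V none = 0 →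
        |∑ j ∈ range l, (lam (slam F t ω) l j).eval (rt F t ω) * V (some (c j)) -
          cv (gG G ω k l) V| ≤ 2 ^ (X + if l = n then dd else 0) / 2 ^ g₀ k l *
            en c (g₀ k) (w k) (gG G ω k) l V) → (w k : ℝ) ≤ b * J →
      NumG n J t (w k) ⌊(a : ℝ) * J⌋₊ ⌊(w' : ℝ) * J⌋₊ ⌊eb * J⌋₊
        ⌊(bet P c n a w' + h') * J⌋₊ (e k) dd (C * (cl + X + 1)) (g₀ k) →
      Pe F.p B < κ₀ * Pe F.p A₀) := by
  classical
  obtain ⟨C₁, hC₁, hafd⟩ := thn_afd m D D₁ r n hD hnr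
  obtain ⟨C, hC⟩ : ∃ C, C = (n + 1) * (2 * C₁ + n + 3) + C₁ + r + n + 2 := ⟨_, rfl⟩
  refine ⟨C, by omega, ?_⟩
  intro θ S P hP hT c hc a w' b eb h' ε κ₀ hw0 hwa ha hb he hh h2 hε hκ
  have hL2 : 0 < Real.log 2 := Real.log_pos (by norm_num)
  obtain ⟨δ, hδ, b3⟩ := aff_no hP c n D₁ (hc.mono (Set.Iio_subset_Iio (by omega))) a w' eb h' hw0
    hwa ha he hh h2
  obtain ⟨κ₁, hκ₁⟩ : ∃ κ₁ : ℝ, κ₁ = κ₀ / 2 ^ (n + 2) := ⟨_, rfl⟩
  have hκ₁0 : 0 < κ₁ := by rw [hκ₁]; positivity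
  obtain ⟨μ, hμ⟩ : ∃ μ : ℝ, μ = min ε (1 - b) * Real.log 2 / 2 := ⟨_, rfl⟩
  have hμ0 : 0 < μ := by
    rw [hμ]
    have : 0 < min ε (1 - b) := lt_min hε (by linarith)
    positivity
  have hCM0 : (0 : ℝ) < C₁ := by
    have : (1 : ℝ) ≤ C₁ := by exact_mod_cast hC₁
    linarith
  obtain ⟨ε₁, hε₁⟩ : ∃ ε₁ : ℝ, ε₁ = μ / C₁ := ⟨_, rfl⟩
  have hε₁0 : 0 < ε₁ := by rw [hε₁]; positivity
  have htm := bas_ev (hT.2 ε₁ hε₁0) hκ₁0
  have hpos : Bas S (fun _ F A => 0 < Pe F.p A) := ⟨1, one_pos, 0, fun J _ F A hA =>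
    hT.1 1 J F A hA⟩
  obtain ⟨J₁, hJ₁⟩ := exists_nat_ge (C₁ / μ)
  obtain ⟨J₂, hJ₂⟩ := exists_nat_ge (-Real.log (κ₁ / 2) / δ)
  refine Bas.mono (max J₁ J₂) ((b3.and htm).and hpos) ?_
  rintro J hJ F A₀ ⟨⟨haA, htA⟩, hA0⟩
  intro Dr N M A cl Sc w e h pp z g gc gT g₀ κ B G H T TH Gt Ht E hBA hεc hCc t k X dd lam hk htk
    hpp hgc hdeg hspa hKb nu
  by_contra hcon
  rw [not_lt] at hcon
  have hB0 : 0 < Pe F.p B := (mul_pos hκ hA0).trans_le hcon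
  have hJ0 : (0 : ℝ) ≤ J := Nat.cast_nonneg J
  have hJ1 : (C₁ : ℝ) ≤ μ * J := by
    have h2 : (J₁ : ℝ) ≤ J := by exact_mod_cast (le_max_left _ _).trans hJ
    have h3 := hJ₁.trans h2
    rw [div_le_iff₀ hμ0] at h3
    linarith
  have hJ2 : Real.exp (-(δ * J)) ≤ κ₁ / 2 := by
    have h2 : (J₂ : ℝ) ≤ J := by exact_mod_cast (le_max_right _ _).trans hJ
    have h3 := hJ₂.trans h2
    rw [div_le_iff₀ hδ] at h3
    have h4 : -(δ * (J : ℝ)) ≤ Real.log (κ₁ / 2) := by linarith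
    exact (Real.exp_le_exp.2 h4).trans (Real.exp_log (by positivity)).le
  have hmain : (C₁ : ℝ) * (ε₁ * J + 1) ≤ min ε (1 - b) * Real.log 2 * J := by
    have e1 : (C₁ : ℝ) * (ε₁ * J) = μ * J := by rw [hε₁]; field_simp
    have e2 : 2 * (μ * J) = min ε (1 - b) * Real.log 2 * J := by rw [hμ]; ring
    rw [mul_add, mul_one, e1]
    linarith
  have hm1 : (C₁ : ℝ) * (ε₁ * J + 1) ≤ cl * Real.log 2 := by
    refine hmain.trans ?_
    have e1 : min ε (1 - b) * Real.log 2 * J ≤ ε * Real.log 2 * J :=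
      mul_le_mul_of_nonneg_right (mul_le_mul_of_nonneg_right (min_le_left _ _) hL2.le) hJ0
    have e2 := mul_le_mul_of_nonneg_right hεc hL2.le
    linarith
  have hm2 : (C₁ : ℝ) * (ε₁ * J + 1) ≤ ((J : ℝ) - w k) * Real.log 2 := by
    refine hmain.trans ?_
    have e1 : min ε (1 - b) * Real.log 2 * J ≤ (1 - b) * Real.log 2 * J :=
      mul_le_mul_of_nonneg_right (mul_le_mul_of_nonneg_right (min_le_right _ _) hL2.le) hJ0
    have e3 := mul_le_mul_of_nonneg_right hKb hL2.le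
    linarith
  have hexp : Real.exp (C₁ * (ε₁ * J + 1)) ≤ 2 ^ cl := by
    have e2 : Real.exp (C₁ * (ε₁ * J + 1)) ≤ Real.exp (cl * Real.log 2) :=
      Real.exp_le_exp.2 hm1
    rwa [mul_comm (cl : ℝ), ← Real.rpow_def_of_pos (by norm_num), Real.rpow_natCast] at e2
  have hκB : ∀ {B' : F.Ω → Prop}, Pe F.p B ≤ 2 ^ (n + 2) * Pe F.p B' →
      κ₁ * Pe F.p A₀ ≤ Pe F.p B' := fun {B'} h3 => by
    rw [hκ₁, div_mul_eq_mul_div, div_le_iff₀ (by positivity)]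
    linarith
  have hdd : dd ≤ g₀ k n := by
    have := nu.n5
    omega
  obtain ⟨B', c1, c2, hAf⟩ := hafd E (by omega) hB0 (t := t) (k := k) (X := X) (dd := dd)
    (lam := lam) (θ := ε₁ * J) hk htk hpp hgc hdd hdeg (fun ω hω l hl V hV => by
      refine (hspa ω hω l hl V hV).trans (le_of_eq ?_)
      congr 1
      unfold lwr
      split_ifs with h4
      · rw [h4, div_eq_div_iff (by positivity) (by positivity), ← pow_add, ← pow_add]
        congr 1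
        omega
      · rw [add_zero]) (by positivity) (fun B' hB' s1 s2 =>
    htA B' (fun ω hω => hBA ω (s1 ω hω)) (hκB (s2.trans (mul_le_mul_of_nonneg_right
      (p2 (by omega)) hB'.le))) hB') hm2 hexp
  -- the numbers
  obtain ⟨u, hu⟩ : ∃ u, u = C₁ * (cl + X + 1) := ⟨_, rfl⟩
  obtain ⟨x, hx⟩ : ∃ x, x = 2 * u + n + 3 := ⟨_, rfl⟩
  obtain ⟨q, hq⟩ : ∃ q, q = cl + X + 1 := ⟨_, rfl⟩
  obtain ⟨Q, hQ⟩ : ∃ Q, Q = C * (cl + X + 1) := ⟨_, rfl⟩
  rw [← hQ] at nu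
  have hq1 : 1 ≤ q := by omega
  have hCx : (n + 1) * x + u + r + n + 2 ≤ Q := by
    rw [← hq] at hu hQ
    have e1 : x ≤ (2 * C₁ + n + 3) * q := by
      rw [hx, hu]
      nlinarith [Nat.le_mul_of_pos_right n hq1]
    have e2 := Nat.mul_le_mul_left (n + 1) e1
    have e3 : Q = (n + 1) * ((2 * C₁ + n + 3) * q) + C₁ * q + (r + n + 2) * q := by
      rw [hQ, hC]
      ring
    have e4 : r + n + 2 ≤ (r + n + 2) * q := Nat.le_mul_of_pos_right _ hq1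
    rw [e3, hu]
    omega
  rw [← hu] at hAf
  have hlx : ∀ l < n + 1, (l + 1) * x ≤ (n + 1) * x := fun l hl =>
    Nat.mul_le_mul_right _ (by omega)
  have hfin := haA (w k) t (e k + (r + 1)) x (lwr (g₀ k) n dd) (2 ^ u) _ _ B' htk
    nu.K1 nu.t1 (by
      have := nu.n1
      omega) (fun l hl => by
      have h4 := nu.n2 l (by omega)
      have h5 := lwr_le (g₀ k) n dd l
      omega) (by positivity) (num_end hx) (fun l hl => by
      have h6 := hlx l hl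
      rcases Nat.lt_succ_iff_lt_or_eq.1 hl with h5 | h5
      · have := nu.n4 l h5
        rw [lwr_lt h5]
        omega
      · have := nu.n5
        rw [h5] at h6 ⊢
        rw [lwr_eq]
        omega) (by
      have := nu.n6
      have := nu.n5
      rw [lwr_eq]
      omega) (fun ω hω => hBA ω (c1 ω hω)) hAf
  have h9 := hκB c2
  have h10 : Real.exp (-(δ * J)) * Pe F.p A₀ ≤ κ₁ / 2 * Pe F.p A₀ :=
    mul_le_mul_of_nonneg_right hJ2 hA0.le
  have h11 : 0 < κ₁ * Pe F.p A₀ := mul_pos hκ₁0 hA0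
  linarith

end Pool.TN
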