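import Pool.Agent.H23.D2.Gih
import Pool.Agent.H23.D2.Clw
import Pool.Agent.H23.D2.Cts
import Pool.Agent.H57.AVG.Cgp
import Pool.Agent.H88.D2.Csc
import Pool.Agent.H88.D2.Ss3
import Pool.Agent.H95.R136.Ct3
import Pool.Agent.H95.R136.Ct2
import Pool.Agent.H95.R136.Cts
import Pool.Agent.H31.NJ.Vgq
import Pool.Agent.H95.VF.Fge

/-!
# The cells `[one, sta, sta]` and `[one, thin, sta]` of the assembly

`partH_cg`: a cell from its class theorem with the closed gradient, if the moved place is full at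
almost every window. `c1ss`: the cell `[one, sta, sta]`. `c1ts_of`: the cell `[one, thin, sta]` from its
critical part with a thin slope at least three.
-/

set_option autoImplicit false

namespace Pool.ASM

open MeasureTheory Set Filter Topology
open Pool.Agent.H49.Ent Pool.Agent.H32.Dense Pool.STK Pool.KA Pool.KSAT Pool.K2S Pool.PB
open Pool.GEN Pool.S6C Pool.STAT Pool.CHT Pool.GRW Pool.PKG Pool.SW Pool.STA
open Pool.ONE (Ext0 Ext)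
open Pool.MIC6
open Pool.TN (CellC WrQ aePG_wr CellC.qi cellC_ts0 cellC_ssC cellQ_s1 cellQ_s2 cellQ_s3)
open Pool.AVG57 (VfQ CgQ aePG_cg aePG_vf2)
open Pool.FUL71 (aePG_vful')
open Pool.FUL95 (aePG_fulT)

/-- A stronger condition on the slopes. -/
theorem aePG_phi {v : ℕ} {Φ Φ' : (ℕ → ℝ) → Prop} (H : AePG 4 (VfQ v Φ : PropG 4 Unit))
    (h : ∀ Sl, Φ' Sl → Φ Sl) : AePG 4 (VfQ v Φ' : PropG 4 Unit) := by
  intro hn S P r P' Λ PB PQ HP hTop hF o G hG hGs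
  obtain ⟨S', a1, a2, a3⟩ := H hn S P r P' Λ PB PQ HP hTop hF o G hG hGs
  refine ⟨S', a1, a2, ?_⟩
  filter_upwards [a3] with g h4 hg κ hκ p
  obtain ⟨k₀, h5⟩ := h4 hg κ hκ p
  exact ⟨k₀, fun Sl hd hΦ => h5 Sl hd (h Sl hΦ)⟩

/-- **A cell from its class theorem with the closed gradient**, if the moved place is full at almost
every window. -/
theorem partH_cg {Φ : (ℕ → ℝ) → Prop} {κ : List Kd} (hκ : κ.length = 3)
    (hvf : (∀ k, 1 ≤ k → k < 4 → FZX k) → AePG 4 (VfQ 2 Φ : PropG 4 Unit))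
    (hC : ∀ Sl : ℕ → ℝ, Φ Sl → SlK κ Sl → 2 < Sl 3 → (∀ l < 4, 1 ≤ Sl l) →
      1 < Sl 1 ∧ 1 < Sl 2 ∧ (∀ l ≤ 2, Sl l < Sl 3) ∧ CellC 4 2 Sl (fun l => κ.getD l .one)) :
    PartH 4 Φ κ := by
  intro h h0 h1
  obtain ⟨cs, hok, hae⟩ := aePG_cg (v := 2) (Φ := Φ) (by norm_num) le_rfl h0 h1
  refine ⟨_, inferInstance, WrQ 2 Φ h cs, fun hF => aePG_wr (hae rfl rfl (hvf hF)),
    fun Sl hφ hk h2 hsl => ?_⟩
  have h2' : 2 < Sl 3 := by rwa [hκ] at h2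
  obtain ⟨c1, c2, c3, c4⟩ := hC Sl hφ hk h2' hsl
  have hkl : ∀ l < 2 + 1, kgL κ l = ofKd ((fun l => κ.getD l .one) l) := fun l hl => by
    rw [kgL_lt (κ := κ) (by omega)]
    beta_reduce
    rw [List.getD_eq_getElem _ _ (by omega)]
  have h3 : kgL κ (2 + 1) = .stp := by
    have := kgL_len κ
    rwa [hκ] at this
  rw [hκ]
  refine c4.qi rfl h3 hkl hok hφ (fun l hl => hsl l (by omega)) (fun l l0 l1 => ?_) c3
  interval_cases l
  · exact c1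
  · exact c2
  · linarith

/-- **The critical part of the cell** `[one, sta, sta]`: slopes `1, 2, 2` and a target of slope larger
than two. -/
theorem partH_ss : PartH 4 (fun Sl => Sl 1 = 2 ∧ Sl 2 = 2) [Kd.one, Kd.sta, Kd.sta] := by
  have h1 := partH_cg (Φ := fun Sl => Sl 1 = Sl 2 ∧ Sl 1 = 2) (κ := [Kd.one, Kd.sta, Kd.sta]) rfl
    (fun hF => ?_) fun Sl hφ hk h2 _ => ?_
  · intro h a b
    obtain ⟨ι, hι, Q, hQ, hc⟩ := h1 h a b
    exact ⟨ι, hι, Q, hQ, fun Sl hφ => hc Sl ⟨by rw [hφ.1, hφ.2], hφ.1⟩⟩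
  · exact aePG_phi (aePG_vf2 (n := 4) le_rfl fun k a b => hF k a (by omega)) fun Sl h => h.1
  · obtain ⟨e1, e2⟩ : Sl 1 = Sl 2 ∧ Sl 1 = 2 := hφ
    have k0 : Sl 0 = 1 := (hk 0 (by norm_num)).1 rfl
    have e3 : Sl 2 = 2 := by rw [← e1, e2]
    refine ⟨by rw [e2]; norm_num, by rw [e3]; norm_num, fun l hl => ?_,
      cellC_ssC rfl rfl rfl k0 e2 e3⟩
    interval_cases l
    · linarith
    · linarith
    · linarith

/-- **The cell** `[one, sta, sta]`, all classes. -/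
theorem c1ss : LCellM 4 [Kd.one, Kd.sta, Kd.sta] := by
  have H1 : LCellS 4 (fun Sl => 2 < Sl 1 ∨ Sl 1 = 2 ∧ 2 < Sl 2) [Kd.one, Kd.sta, Kd.sta] := by
    refine (partH_cellQ rfl fun Sl hφ hk h2 => ?_).lS (by show 3 ≤ 4 - 1; omega)
    have k0 : Sl 0 = 1 := (hk 0 (by norm_num)).1 rfl
    have k2 : 2 ≤ Sl 2 := (hk 2 (by norm_num)).2.2 rfl
    rcases hφ with h3 | ⟨h3, h4⟩
    · exact cellQ_s1 rfl rfl k0 h3 (by linarith)
    · by_cases h5 : Sl 2 = 3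
      · exact cellQ_s3 rfl rfl rfl k0 h3 h5
      · exact cellQ_s2 rfl rfl rfl k0 h3 h4 h5
  refine LCellS.m (H1.or (partH_ss.lS (by show 3 ≤ 4 - 1; omega))) fun Sl hk h2 => ?_
  have k1 : 2 ≤ Sl 1 := (hk 1 (by norm_num)).2.2 rfl
  have k2 : 2 ≤ Sl 2 := (hk 2 (by norm_num)).2.2 rfl
  rcases lt_or_eq_of_le k1 with h3 | h3
  · exact Or.inl (Or.inl h3)
  rcases lt_or_eq_of_le k2 with h4 | h4
  · exact Or.inl (Or.inr ⟨h3.symm, h4⟩)
  · exact Or.inr ⟨h3.symm, h4.symm⟩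

/-- The critical slopes of the cell `[one, thin, sta]`. -/
def SlTS (s : ℝ → Prop) (Sl : ℕ → ℝ) : Prop := Sl 2 = 2 ∧ s (Sl 1) ∧ Sl 3 = 1 + Sl 1

/-- **The critical part with a thin slope less than three.** -/
theorem partH_ts3 : PartH 4 (SlTS fun x => x < 3) [Kd.one, Kd.thin, Kd.sta] := by
  have h1 := partH_cg (Φ := fun Sl => Sl 1 < Sl 2 + 1 ∧ Sl 2 = 2 ∧ Sl 3 = 1 + Sl 1)
    (κ := [Kd.one, Kd.thin, Kd.sta]) rfl (fun hF => ?_) fun Sl hφ hk h2 _ => ?_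
  · intro h a b
    obtain ⟨ι, hι, Q, hQ, hc⟩ := h1 h a b
    exact ⟨ι, hι, Q, hQ, fun Sl hφ => hc Sl ⟨by rw [hφ.1]; linarith [hφ.2.1], hφ.1, hφ.2.2⟩⟩
  · exact aePG_phi (aePG_vful' le_rfl (aePG_fulT fun k a b => hF k a (by omega))) fun Sl h =>
      ⟨trivial, h.1⟩
  · obtain ⟨e1, e2, e4⟩ : Sl 1 < Sl 2 + 1 ∧ Sl 2 = 2 ∧ Sl 3 = 1 + Sl 1 := hφ
    have k0 : Sl 0 = 1 := (hk 0 (by norm_num)).1 rfl
    have k1 : 1 < Sl 1 := (hk 1 (by norm_num)).2.1 rfl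
    refine ⟨k1, by rw [e2]; norm_num, fun l hl => ?_, cellC_ts0 rfl rfl rfl k0 k1 e2 h2⟩
    interval_cases l
    · linarith
    · linarith
    · linarith

/-- **The cell** `[one, thin, sta]` from its critical part with a thin slope at least three. -/
theorem c1ts_of (H : LCellS 4 (SlTS fun x => 3 ≤ x) [Kd.one, Kd.thin, Kd.sta]) :
    LCellM 4 [Kd.one, Kd.thin, Kd.sta] := by
  have H0 : LCellS 4 (fun Sl => 2 < Sl 2 ∨ Sl 2 = 2 ∧ Sl 3 ≠ 1 + Sl 1)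
      [Kd.one, Kd.thin, Kd.sta] := by
    refine (partH_cellQ rfl fun Sl hφ hk h2 => ?_).lS (by show 3 ≤ 4 - 1; omega)
    have k0 : Sl 0 = 1 := (hk 0 (by norm_num)).1 rfl
    have k1 : 1 < Sl 1 := (hk 1 (by norm_num)).2.1 rfl
    rcases hφ with h3 | ⟨h3, h4⟩
    · by_cases h5 : Sl 2 = 1 + Sl 1
      · exact Pool.TN.cellQ_ts3 rfl rfl rfl k0 k1 h5
      · exact Pool.TN.cellQ_ts2 rfl rfl rfl k0 k1 h3 h5
    · exact Pool.TN.cellQ_ts rfl rfl rfl k0 k1 h3 h2 h4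
  refine LCellS.m (H0.or ((partH_ts3.lS (by show 3 ≤ 4 - 1; omega)).or H)) fun Sl hk h2 => ?_
  have k2 : 2 ≤ Sl 2 := (hk 2 (by norm_num)).2.2 rfl
  rcases lt_or_eq_of_le k2 with h3 | h3
  · exact Or.inl (Or.inl h3)
  by_cases h4 : Sl 3 = 1 + Sl 1
  · rcases lt_or_ge (Sl 1) 3 with h5 | h5
    · exact Or.inr (Or.inl ⟨h3.symm, h5, h4⟩)
    · exact Or.inr (Or.inr ⟨h3.symm, h5, h4⟩)
  · exact Or.inl (Or.inr ⟨h3.symm, h4⟩)

end Pool.ASM
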