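import Pool.Agent.H23.D2.Par

/-!
# The rows of finitely many windows, in a class

`rows_out`: finitely many pairs of windows of one event. `row_con`: the event of `ev_con` with the
rows (`ROut1`) of all pairs of windows `o i ≤ o j`.
-/

set_option autoImplicit false

namespace Pool.D2R

open Finset Real MvPolynomial
open Pool.Agent.H49.Ent Pool.Agent.H32.Dense Pool.STK Pool.KA Pool.KSAT Pool.K2S Pool.PB Pool.S6C
open Pool.GEN Pool.CHT Pool.CHX Pool.ISO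
open Pool.LBT (LSys Slo Tri ThrOf fl_le' bas_false)
open Pool.LEV (Law)
open Pool.FLF (Fam.sub)

/-- **Finitely many pairs of windows of one event.** -/
theorem rows_out (m D r : ℕ) (hD : 1 ≤ D) : ∃ C : ℕ, 1 ≤ C ∧ ∀ {J : ℕ} {F : Fam m J}
    {c : ℕ → Fin m} {Dr N k : ℕ} {w v M e h p : ℕ → ℕ} {z g gc gT g₀ : ℕ → ℕ → ℕ}
    {R : ℕ → Prop} {θ : ℝ}
    {G : ℕ → PtT F → ℕ → MvPolynomial (Option (Fin m)) ℝ}
    {H : ℕ → LnT F → ℕ → MvPolynomial (Option (Fin m)) ℝ}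
    {T : ℕ → PtT F → ℕ → MvPolynomial (Option (Fin m)) ℝ}
    {TH : ℕ → LnT F → ℕ → MvPolynomial (Option (Fin m)) ℝ}
    {Gt : ℕ → PtT F → MvPolynomial (Option (Fin m)) ℝ}
    {Ht : ℕ → LnT F → MvPolynomial (Option (Fin m)) ℝ},
    Set.InjOn c (Set.Iio (r + 1)) → (∀ i ≤ N, w i ≤ J) →
    (∀ i ≤ N, ∀ j ≤ N, w i + v i = w j + v j) → D ≤ Dr → (∀ i ≤ N, ∀ l < r, 1 ≤ gT i l) →
    (∀ i ≤ N, ∀ l ≤ r, e i + g₀ i l + C * (k + 1) ≤ J) →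
    (∀ i ≤ N, ∀ l < r, e i + gT i l + C * (k + 1) ≤ J) → 0 ≤ θ →
    (∀ i ≤ N, C * (θ + 1) ≤ ((J : ℝ) - w i) * Real.log 2) → Real.exp (C * (θ + 1)) ≤ 2 ^ k →
    ∀ (L : List (ℕ × ℕ)), (∀ x ∈ L, x.1 ≤ N ∧ x.2 ≤ N ∧ w x.1 ≤ w x.2) →
    ∀ (κ : ℝ) (B : F.Ω → Prop), 0 ≤ κ → 0 < Pe F.p B →
    (∀ i ≤ N, EvS F c r D Dr (w i) (v i) (M i) (z i) (e i) (h i) (p i) R (g i) (gc i) (gT i)
      (g₀ i) κ B (G i) (H i) (T i) (TH i) (Gt i) (Ht i)) →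
    κ * (16 * 4 ^ r) ^ (L.length + 1) ≤ 1 →
    (∀ (B' : F.Ω → Prop) (hB' : 0 < Pe F.p B'), Sub B' B →
      Pe F.p B ≤ (16 * 4 ^ r) ^ (L.length + 1) * Pe F.p B' → (Fam.sub F B' hB').Tm θ) →
    ∃ B' : F.Ω → Prop, Sub B' B ∧ Pe F.p B ≤ (16 * 4 ^ r) ^ L.length * Pe F.p B' ∧
      ∀ x ∈ L, ∀ q : ℕ, q + C * (h x.2 + 1) ≤ p x.1 → q + C * (h x.2 + 1) ≤ gc x.2 r →
        ROut1 F c r (w x.1) (w x.2) (v x.2) (g₀ x.2) (gT x.2) q (2 ^ (C * (h x.2 + k + 1))) B'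
          (G x.2) (H x.2) (T x.2) (TH x.2) (Ht x.1) := by
  obtain ⟨C, hC, hpair⟩ := pair_out m D r hD
  refine ⟨C, hC, ?_⟩
  intro J F c Dr N k w v M e h p z g gc gT g₀ R θ G H T TH Gt Ht hc hwJ hrad hDr hgT hJ hJT hθ
    hCJ hexp L
  have hp := Pe_nonneg F.isLaw
  obtain ⟨Y, hY⟩ : ∃ Y : ℝ, Y = 16 * 4 ^ r := ⟨_, rfl⟩
  have h41 : (1 : ℝ) ≤ 4 ^ r := one_le_pow₀ (by norm_num)
  have hY1 : 1 ≤ Y := by rw [hY]; linarith
  have hY0 : 0 < Y := by linarith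
  rw [← hY]
  induction L with
  | nil =>
    intro hL κ B hκ hB hE hκY hTm
    exact ⟨B, fun _ h => h, by simp, fun x hx => absurd hx (List.not_mem_nil)⟩
  | cons x L ih =>
    intro hL κ B hκ hB hE hκY hTm
    obtain ⟨x1, x2, x3⟩ := hL x List.mem_cons_self
    have hlen : (x :: L).length = L.length + 1 := List.length_cons
    rw [hlen] at hκY hTm ⊢
    have hYl : (1 : ℝ) ≤ Y ^ L.length := one_le_pow₀ hY1
    have hYl1 : (1 : ℝ) ≤ Y ^ (L.length + 1) := one_le_pow₀ hY1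
    have hκ1 : κ * (8 * 4 ^ r) ≤ 1 := by
      refine le_trans (mul_le_mul_of_nonneg_left ?_ hκ) hκY
      rw [pow_succ]
      calc (8 : ℝ) * 4 ^ r ≤ 1 * Y := by rw [hY]; linarith
        _ ≤ Y ^ (L.length + 1) * Y := mul_le_mul_of_nonneg_right hYl1 hY0.le
    obtain ⟨B₁, k1, k2, k3⟩ := hpair (θ := θ) (k := k) hB hc x3 (hwJ _ x2) (hrad _ x1 _ x2) hDr
      (hE _ x1) (hE _ x2) hκ hκ1 (hgT _ x2) (hJ _ x2) (hJT _ x2) hθ (fun B' hB' s1 s2 => by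
        refine hTm B' hB' s1 ?_
        rw [← hY, div_le_iff₀ hY0] at s2
        refine s2.trans ?_
        rw [pow_succ]
        have h5 : Pe F.p B' * Y ≤ Y ^ (L.length + 1) * (Pe F.p B' * Y) :=
          le_mul_of_one_le_left (mul_nonneg (hp _) hY0.le) hYl1
        linarith) (hCJ _ x2) hexp
    rw [← hY] at k2
    have hB₁ : 0 < Pe F.p B₁ := by
      by_contra hcon
      have : Pe F.p B₁ = 0 := le_antisymm (not_lt.1 hcon) (hp _)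
      rw [this, mul_zero] at k2
      linarith
    obtain ⟨B₂, l1, l2, l3⟩ := ih (fun y hy => hL y (List.mem_cons_of_mem _ hy)) (κ * Y) B₁
      (mul_nonneg hκ hY0.le) hB₁ (fun i hi => (hE i hi).sub (κ₁ := 1 / Y) k1 (by
        rw [one_div, inv_mul_le_iff₀ hY0]
        exact k2) (mul_nonneg hκ hY0.le) (by
        rw [mul_one_div, mul_div_assoc, div_self hY0.ne', mul_one])) (by
        rw [pow_succ] at hκY
        calc κ * Y * Y ^ (L.length + 1) = κ * (Y ^ (L.length + 1) * Y) := by ring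
          _ ≤ 1 := hκY) (fun B' hB' s1 s2 => hTm B' hB' (fun ω hω => k1 ω (s1 ω hω)) (by
        rw [pow_succ]
        calc Pe F.p B ≤ Y * Pe F.p B₁ := k2
          _ ≤ Y * (Y ^ (L.length + 1) * Pe F.p B') := mul_le_mul_of_nonneg_left s2 hY0.le
          _ = _ := by ring))
    refine ⟨B₂, fun ω hω => k1 ω (l1 ω hω), ?_, fun y hy q q1 q2 => ?_⟩
    · rw [pow_succ]
      calc Pe F.p B ≤ Y * Pe F.p B₁ := k2
        _ ≤ Y * (Y ^ L.length * Pe F.p B₂) := mul_le_mul_of_nonneg_left l2 hY0.le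
        _ = _ := by ring
    · rcases List.mem_cons.1 hy with h5 | h5
      · rw [h5] at q1 q2 ⊢
        exact (k3 q q1 q2).sub l1
      · exact l3 y h5 q q1 q2

/-- **Finitely many windows on one event, with the rows of all pairs.** -/
theorem row_con (m r S₀ : ℕ) (hr : 1 ≤ r) (hS₀ : 1 ≤ S₀) : ∃ D : ℕ, 1 ≤ D ∧ ∀ Dr : ℕ, D ≤ Dr →
    ∃ C : ℝ, 1 ≤ C ∧ ∀ {S : PCl m} {P : List (Fin m) × Fin m → ℝ → ℝ → ℝ} {θ : ℝ}
    {c : ℕ → Fin m} {Pt : ℝ → ℝ → ℝ} {R : ℕ → Prop} {a Eb : ℝ} {o ε p' η σ r₀ : ℕ → ℝ}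
    (N M : ℕ), ThrOf (chsys m θ) S P → 0 < θ → TmH S → Set.InjOn c (Set.Iio (r + 1)) → Law Pt →
    (∀ k ≤ N, WinD S P θ c r Pt a (o k) S₀ Eb (ε k) R) →
    (∀ k ≤ N, C * ε k < o k ∧ C * ε k < η k) →
    (∀ k ≤ N, 0 ≤ p' k ∧ p' k + C * ε k < Pt a (o k)) →
    (∀ k ≤ N, 0 < σ k ∧ 0 < r₀ k ∧ η k < a) →
    (∀ k ≤ N, ∀ l ≤ r, lvN P c r Pt l (o k) (o k) + (a - o k) + (Eb + σ k + η k) < 1) →
    (∀ k ≤ N, ∀ l < r, bet P c l a (o k) + (Eb + σ k + η k) < 1) →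
    ∃ (K₁ : ℝ) (μ : ℕ → ℝ) (b : ℕ → ℕ → ℝ), 0 < K₁ ∧ (∀ k ≤ N, 0 < μ k ∧ ∀ l ≤ r,
        lvN P c r Pt l (o k) (o k) - σ k < b k l ∧
        b k l < lvN P c r Pt l (o k) (o k) - μ k) ∧
      ∀ κ : ℝ, 0 < κ → Bas S (fun J F A => ∀ z : ℕ → ℕ → ℕ,
        (∀ k ≤ N, ∀ i ≤ M, r₀ k * J ≤ z k i ∧ z k i ≤ ⌊a * J⌋₊ - ⌊o k * J⌋₊) →
        ∃ (B : F.Ω → Prop) (gc gT g₀ : ℕ → ℕ → ℕ)
          (G : ℕ → PtT F → ℕ → MvPolynomial (Option (Fin m)) ℝ)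
          (H : ℕ → LnT F → ℕ → MvPolynomial (Option (Fin m)) ℝ)
          (T : ℕ → PtT F → ℕ → MvPolynomial (Option (Fin m)) ℝ)
          (TH : ℕ → LnT F → ℕ → MvPolynomial (Option (Fin m)) ℝ)
          (Gt : ℕ → PtT F → MvPolynomial (Option (Fin m)) ℝ)
          (Ht : ℕ → LnT F → MvPolynomial (Option (Fin m)) ℝ), Sub B A ∧
          Pe F.p A ≤ K₁ * Pe F.p B ∧
          (∀ k ≤ N, Sds r J (⌊a * J⌋₊ - ⌊o k * J⌋₊) R (fun l => lvN P c r Pt l (o k) (o k))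
              (fun l => bet P c l a (o k)) (σ k) (ε k) (η k) (gc k) (gT k) (g₀ k) ∧
            EvS F c r D Dr ⌊o k * J⌋₊ (⌊a * J⌋₊ - ⌊o k * J⌋₊) M (z k)
              ⌊(Eb + σ k + η k) * J⌋₊ ⌊η k * J⌋₊ ⌊p' k * J⌋₊ R (fun l => ⌊b k l * J⌋₊) (gc k)
              (gT k) (g₀ k) κ B (G k) (H k) (T k) (TH k) (Gt k) (Ht k)) ∧
          ∀ i ≤ N, ∀ j ≤ N, o i ≤ o j → ∀ q : ℕ, (q : ℝ) + C * (η j * J) ≤ p' i * J →
            (q : ℝ) + C * (η j * J) ≤ gc j r →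
            ROut1 F c r ⌊o i * J⌋₊ ⌊o j * J⌋₊ (⌊a * J⌋₊ - ⌊o j * J⌋₊) (g₀ j) (gT j) q
              (2 ^ ⌊C * (η j * J)⌋₊) B (G j) (H j) (T j) (TH j) (Ht i)) := by
  classical
  obtain ⟨D, hD, hev⟩ := ev_con m r S₀ hr hS₀
  refine ⟨D, hD, fun Dr hDr => ?_⟩
  obtain ⟨C₁, hC₁, hev⟩ := hev Dr
  obtain ⟨C₂, hC₂, hrow⟩ := rows_out m D r hD
  have hC₂R : (1 : ℝ) ≤ C₂ := by exact_mod_cast hC₂
  refine ⟨C₁ + 2 * C₂, by linarith, ?_⟩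
  intro S P θ c Pt R a Eb o ε p' η σ r₀ N M hP hθ hS hinj hPt hW hε hp' hσ htop hbet
  have hCC : ∀ k ≤ N, C₁ * ε k ≤ (C₁ + 2 * C₂) * ε k := fun k hk =>
    mul_le_mul_of_nonneg_right (by linarith) (hW k hk).ε0
  have hη0 : ∀ k ≤ N, 0 < η k := fun k hk => by
    have h1 : 0 ≤ (C₁ + 2 * C₂) * ε k := mul_nonneg (by linarith) (hW k hk).ε0
    linarith [(hε k hk).2]
  obtain ⟨K₁, μ, b, hK₁, hμb, hbas⟩ := hev N M hP hθ hS hinj hPt hW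
    (fun k hk => ⟨(hCC k hk).trans_lt (hε k hk).1, (hCC k hk).trans_lt (hε k hk).2⟩)
    (fun k hk => ⟨(hp' k hk).1, by linarith [(hp' k hk).2, hCC k hk]⟩)
    (fun k hk => ⟨(hσ k hk).1, (hσ k hk).2.1⟩)
  -- the pairs
  obtain ⟨L, hL⟩ : ∃ L : List (ℕ × ℕ), L = ((List.range (N + 1)).product
    (List.range (N + 1))).filter (fun x => decide (o x.1 ≤ o x.2)) := ⟨_, rfl⟩
  have hLm : ∀ x : ℕ × ℕ, x ∈ L ↔ x.1 ≤ N ∧ x.2 ≤ N ∧ o x.1 ≤ o x.2 := by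
    intro x
    rw [hL, List.mem_filter, List.pair_mem_product, List.mem_range, List.mem_range,
      decide_eq_true_eq, Nat.lt_succ_iff, Nat.lt_succ_iff, and_assoc]
  obtain ⟨Y, hY⟩ : ∃ Y : ℝ, Y = 16 * 4 ^ r := ⟨_, rfl⟩
  have h41 : (1 : ℝ) ≤ 4 ^ r := one_le_pow₀ (by norm_num)
  have hY1 : 1 ≤ Y := by rw [hY]; linarith
  have hY0 : 0 < Y := by linarith
  obtain ⟨n, hn⟩ : ∃ n, n = L.length := ⟨_, rfl⟩
  have hYn : 0 < Y ^ n := pow_pos hY0 _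
  have hYn1 : 0 < Y ^ (n + 1) := pow_pos hY0 _
  refine ⟨K₁ * Y ^ n, μ, b, mul_pos hK₁ hYn, hμb, fun κ hκ => ?_⟩
  obtain ⟨κ', hκ'⟩ : ∃ κ' : ℝ, κ' = min κ 1 / Y ^ (n + 1) := ⟨_, rfl⟩
  have hκ'0 : 0 < κ' := by rw [hκ']; exact div_pos (lt_min hκ one_pos) hYn1
  have hκ'1 : κ' * Y ^ (n + 1) ≤ 1 := by
    rw [hκ', div_mul_cancel₀ _ hYn1.ne']
    exact min_le_right _ _
  have hκ'2 : κ' * Y ^ n ≤ κ := by
    have h1 : κ' * Y ^ n ≤ κ' * Y ^ (n + 1) :=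
      mul_le_mul_of_nonneg_left (pow_le_pow_right₀ hY1 (Nat.le_succ n)) hκ'0.le
    refine h1.trans ?_
    rw [hκ', div_mul_cancel₀ _ hYn1.ne']
    exact min_le_left _ _
  -- the numbers
  have hL2 : 0 < Real.log 2 := Real.log_pos (by norm_num)
  obtain ⟨s₁, hs₁, hs₁l⟩ := fin_pos (N + 1) (f := fun k => min (η k) (min (a - η k)
    ((1 - o k) * Real.log 2))) fun k hk => by
      have hk' : k ≤ N := by omega
      have h1 : o k < 1 := by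
        have h2 := htop k hk' 0 (Nat.zero_le r)
        obtain ⟨ρ, vs, e, e₀, E, sg, Q, d1, -⟩ := (hW k hk').dw
        exact d1.a1
      exact lt_min (hη0 k hk') (lt_min (by linarith [(hσ k hk').2.2])
        (mul_pos (by linarith) hL2))
  obtain ⟨s₂, hs₂, hs₂l⟩ := fin_pos ((N + 1) * (r + 1)) (f := fun x => 1 -
    (lvN P c r Pt (x % (r + 1)) (o (x / (r + 1))) (o (x / (r + 1))) + (a - o (x / (r + 1))) +
      (Eb + σ (x / (r + 1)) + η (x / (r + 1))))) fun x hx => by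
    have h1 : x / (r + 1) < N + 1 := Nat.div_lt_of_lt_mul (by rw [Nat.mul_comm]; exact hx)
    have h2 : x % (r + 1) < r + 1 := Nat.mod_lt _ (Nat.succ_pos r)
    have := htop (x / (r + 1)) (by omega) (x % (r + 1)) (by omega)
    linarith
  obtain ⟨s₃, hs₃, hs₃l⟩ := fin_pos ((N + 1) * (r + 1)) (f := fun x => if x % (r + 1) < r then
    1 - (bet P c (x % (r + 1)) a (o (x / (r + 1))) +
      (Eb + σ (x / (r + 1)) + η (x / (r + 1)))) else 1) fun x hx => by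
    have h1 : x / (r + 1) < N + 1 := Nat.div_lt_of_lt_mul (by rw [Nat.mul_comm]; exact hx)
    by_cases h2 : x % (r + 1) < r
    · show 0 < if x % (r + 1) < r then _ else _
      rw [if_pos h2]
      have := hbet (x / (r + 1)) (by omega) (x % (r + 1)) h2
      linarith
    · show 0 < if x % (r + 1) < r then _ else (1 : ℝ)
      rw [if_neg h2]
      exact one_pos
  have hidx : ∀ k ≤ N, ∀ l ≤ r, k * (r + 1) + l < (N + 1) * (r + 1) ∧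
      (k * (r + 1) + l) / (r + 1) = k ∧ (k * (r + 1) + l) % (r + 1) = l := by
    intro k hk l hl
    refine ⟨?_, ?_, ?_⟩
    · have h1 : k * (r + 1) ≤ N * (r + 1) := Nat.mul_le_mul_right _ hk
      have h2 : (N + 1) * (r + 1) = N * (r + 1) + (r + 1) := by ring
      omega
    · rw [Nat.add_comm, Nat.add_mul_div_right _ _ (Nat.succ_pos r),
        Nat.div_eq_of_lt (by omega), Nat.zero_add]
    · rw [Nat.add_comm, Nat.add_mul_mod_self_right, Nat.mod_eq_of_lt (by omega)]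
  have hS2 : ∀ k ≤ N, ∀ l ≤ r,
      s₂ ≤ 1 - (lvN P c r Pt l (o k) (o k) + (a - o k) + (Eb + σ k + η k)) := by
    intro k hk l hl
    obtain ⟨h1, h2, h3⟩ := hidx k hk l hl
    have h4 := hs₂l _ h1
    simp only [h2, h3] at h4
    exact h4
  have hS3 : ∀ k ≤ N, ∀ l < r, s₃ ≤ 1 - (bet P c l a (o k) + (Eb + σ k + η k)) := by
    intro k hk l hl
    obtain ⟨h1, h2, h3⟩ := hidx k hk l hl.le
    have h4 := hs₃l _ h1
    simp only [h2, h3, if_pos hl] at h4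
    exact h4
  obtain ⟨s, hs⟩ : ∃ s : ℝ, s = min s₁ (min s₂ s₃ / (2 * C₂)) := ⟨_, rfl⟩
  have hs0 : 0 < s := by
    rw [hs]
    exact lt_min hs₁ (div_pos (lt_min hs₂ hs₃) (by linarith))
  have hss1 : s ≤ s₁ := by rw [hs]; exact min_le_left _ _
  have hss23 : 2 * C₂ * s ≤ min s₂ s₃ := by
    have : s ≤ min s₂ s₃ / (2 * C₂) := by rw [hs]; exact min_le_right _ _
    rw [le_div_iff₀ (by linarith)] at this
    linarith
  obtain ⟨ε₁, J₁, hε₁, hdig⟩ := dig 1 (C₁ := (C₂ : ℝ)) hC₂R hs0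
  have htm := bas_ev (hS.2 ε₁ hε₁) (κ := 1 / (K₁ * Y ^ (n + 1))) (by positivity)
  have hpos : Bas S (fun _ F A => 0 < Pe F.p A) := ⟨1, one_pos, 0, fun J _ F A hA =>
    hS.1 1 J F A hA⟩
  obtain ⟨J₂, hJ₂⟩ := big 4 hs0
  refine Bas.mono (max J₁ J₂) (((hbas κ' hκ'0).and htm).and hpos) ?_
  rintro J hJ F A ⟨⟨h1, h2⟩, hA⟩ z hz
  have hJ0 : (0 : ℝ) ≤ J := Nat.cast_nonneg J
  obtain ⟨u, hu1, hu2, hu3⟩ := hdig J ((le_max_left _ _).trans hJ)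
  have hJs : 4 ≤ s * J := hJ₂ J ((le_max_right _ _).trans hJ)
  obtain ⟨B, k1, k2, k3⟩ := h1 z hz
  have hp := Pe_nonneg F.isLaw
  have hB : 0 < Pe F.p B := by
    rcases (hp B).lt_or_eq with h | h
    · exact h
    · rw [← h, mul_zero] at k2
      linarith
  have hex : ∀ k, ∃ (gc gT g₀ : ℕ → ℕ) (G : PtT F → ℕ → MvPolynomial (Option (Fin m)) ℝ)
      (H : LnT F → ℕ → MvPolynomial (Option (Fin m)) ℝ)
      (T : PtT F → ℕ → MvPolynomial (Option (Fin m)) ℝ)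
      (TH : LnT F → ℕ → MvPolynomial (Option (Fin m)) ℝ)
      (Gt : PtT F → MvPolynomial (Option (Fin m)) ℝ)
      (Ht : LnT F → MvPolynomial (Option (Fin m)) ℝ), k ≤ N →
      Sds r J (⌊a * J⌋₊ - ⌊o k * J⌋₊) R (fun l => lvN P c r Pt l (o k) (o k))
        (fun l => bet P c l a (o k)) (σ k) (ε k) (η k) gc gT g₀ ∧
      EvS F c r D Dr ⌊o k * J⌋₊ (⌊a * J⌋₊ - ⌊o k * J⌋₊) M (z k)
        ⌊(Eb + σ k + η k) * J⌋₊ ⌊η k * J⌋₊ ⌊p' k * J⌋₊ R (fun l => ⌊b k l * J⌋₊) gc gT g₀ κ' B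
        G H T TH Gt Ht := by
    intro k
    by_cases hk : k ≤ N
    · obtain ⟨gc, gT, g₀, G, H, T, TH, Gt, Ht, l1, l2⟩ := k3 k hk
      exact ⟨gc, gT, g₀, G, H, T, TH, Gt, Ht, fun _ => ⟨l1, l2⟩⟩
    · exact ⟨fun _ => 0, fun _ => 0, fun _ => 0, fun _ _ => 0, fun _ _ => 0, fun _ _ => 0,
        fun _ _ => 0, fun _ => 0, fun _ => 0, fun h => absurd h hk⟩
  choose gc gT g₀ G H T TH Gt Ht hK using hex
  -- the numbers
  have ho : ∀ k ≤ N, 0 < o k ∧ o k < 1 ∧ o k < a := fun k hk => by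
    obtain ⟨ρ, vs, e, e₀, E, sg, Q, d1, -⟩ := (hW k hk).dw
    exact ⟨d1.w0, d1.a1, (hW k hk).lt⟩
  have hfo : ∀ k ≤ N, (⌊o k * J⌋₊ : ℝ) ≤ o k * J ∧ o k * J < ⌊o k * J⌋₊ + 1 ∧
      ⌊o k * J⌋₊ ≤ ⌊a * J⌋₊ := fun k hk =>
    ⟨Nat.floor_le (mul_nonneg (ho k hk).1.le hJ0), Nat.lt_floor_add_one _,
      Nat.floor_le_floor (mul_le_mul_of_nonneg_right (ho k hk).2.2.le hJ0)⟩
  have ha0 : 0 < a := (ho 0 (Nat.zero_le N)).1.trans (ho 0 (Nat.zero_le N)).2.2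
  have hfa : (⌊a * J⌋₊ : ℝ) ≤ a * J ∧ a * J < ⌊a * J⌋₊ + 1 :=
    ⟨Nat.floor_le (mul_nonneg ha0.le hJ0), Nat.lt_floor_add_one _⟩
  have hvr : ∀ k ≤ N, ((⌊a * J⌋₊ - ⌊o k * J⌋₊ : ℕ) : ℝ) = ⌊a * J⌋₊ - ⌊o k * J⌋₊ := fun k hk =>
    Nat.cast_sub (hfo k hk).2.2
  have hEb0 : ∀ k ≤ N, 0 ≤ Eb + σ k + η k := fun k hk => by
    obtain ⟨ρ, vs, e, e₀, E, sg, Q, d1, d2⟩ := (hW k hk).dw
    linarith [d1.E0, (hσ k hk).1, hη0 k hk]
  have hbta : ∀ k ≤ N, ∀ l < r, a ≤ bet P c l a (o k) := fun k hk l hl => by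
    obtain ⟨ρ, vs, e, e₀, E, sg, Q, d1, -, -⟩ := (hW k hk).da
    exact hP.low _ _ _ (ho k hk).1.le (ho k hk).2.2.le d1.a1.le
  have hlow : ∀ k ≤ N, ∀ l ≤ r, o k ≤ lvN P c r Pt l (o k) (o k) := fun k hk l hl => by
    obtain ⟨ρ, vs, e, e₀, E, sg, Q, d1, -⟩ := (hW k hk).dw
    exact d1.low hP l
  have hS1 : ∀ k ≤ N, s ≤ η k ∧ s ≤ a - η k ∧ s ≤ (1 - o k) * Real.log 2 := fun k hk => by
    have h5 := hss1.trans (hs₁l k (by omega))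
    exact ⟨h5.trans (min_le_left _ _), h5.trans ((min_le_right _ _).trans (min_le_left _ _)),
      h5.trans ((min_le_right _ _).trans (min_le_right _ _))⟩
  have hu : ((u : ℝ) + 1) ≤ s * J := by
    push_cast at hu3
    have h5 : (0 : ℝ) ≤ u := Nat.cast_nonneg u
    linarith
  have hCu : (C₂ : ℝ) * (u + 1) ≤ C₂ * s * J := by
    have := mul_le_mul_of_nonneg_left hu (show (0 : ℝ) ≤ C₂ by linarith)
    linarith
  have hmm : 2 * C₂ * s ≤ s₂ ∧ 2 * C₂ * s ≤ s₃ :=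
    ⟨hss23.trans (min_le_left _ _), hss23.trans (min_le_right _ _)⟩
  have hCs : 1 ≤ C₂ * s * J := by
    have : 1 * (s * J) ≤ C₂ * (s * J) := mul_le_mul_of_nonneg_right hC₂R (by positivity)
    linarith
  have hfe : ∀ k ≤ N, (⌊(Eb + σ k + η k) * J⌋₊ : ℝ) ≤ (Eb + σ k + η k) * J := fun k hk =>
    Nat.floor_le (mul_nonneg (hEb0 k hk) hJ0)
  have q1 : ∀ k ≤ N, ∀ l < r, 1 ≤ gT k l := by
    intro k hk l hl
    -- the thin sides are positive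
    have h5 := (hS1 k hk).2.1
    have h6 : s * J ≤ (a - η k) * J := mul_le_mul_of_nonneg_right h5 hJ0
    by_cases hR : R l
    · have h7 := (hK k hk).1.c1 l hl.le
      rw [((hK k hk).2.rgh l hl hR).1]
      rw [hvr k hk] at h7
      have h8 := mul_le_mul_of_nonneg_right (hlow k hk l hl.le) hJ0
      have h9 := hfo k hk
      have h10 : (1 : ℝ) ≤ gc k l := by linarith [hfa.2]
      exact_mod_cast h10
    · have h7 := (hK k hk).1.t1 l hl hR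
      have h8 := mul_le_mul_of_nonneg_right (hbta k hk l hl) hJ0
      have h10 : (1 : ℝ) ≤ gT k l := by linarith
      exact_mod_cast h10
  have q2 : ∀ k ≤ N, ∀ l ≤ r, ⌊(Eb + σ k + η k) * J⌋₊ + g₀ k l + C₂ * (u + 1) ≤ J := by
    intro k hk l hl
    -- the room of the ball
    have h5 := (hK k hk).1.b2 l hl
    have h6 := hfe k hk
    have h7 := mul_le_mul_of_nonneg_right (hS2 k hk l hl) hJ0
    have h8 := mul_le_mul_of_nonneg_right hmm.1 hJ0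
    have h9 : 0 ≤ (a - o k) * J := mul_nonneg (by linarith [(ho k hk).2.2]) hJ0
    have h10 : ((⌊(Eb + σ k + η k) * J⌋₊ + g₀ k l + C₂ * (u + 1) : ℕ) : ℝ) ≤ J := by
      push_cast
      linarith
    exact_mod_cast h10
  have q3 : ∀ k ≤ N, ∀ l < r, ⌊(Eb + σ k + η k) * J⌋₊ + gT k l + C₂ * (u + 1) ≤ J := by
    intro k hk l hl
    have h6 := hfe k hk
    by_cases hR : R l
    · have h5 := (hK k hk).1.c2 l hl.le
      rw [((hK k hk).2.rgh l hl hR).1]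
      rw [hvr k hk] at h5
      have h7 := mul_le_mul_of_nonneg_right (hS2 k hk l hl.le) hJ0
      have h8 := mul_le_mul_of_nonneg_right hmm.1 hJ0
      have h9 := hfo k hk
      have h11 : 0 ≤ ε k * J := mul_nonneg (hW k hk).ε0 hJ0
      have h10 : ((⌊(Eb + σ k + η k) * J⌋₊ + gc k l + C₂ * (u + 1) : ℕ) : ℝ) ≤ J := by
        push_cast
        linarith [hfa.1]
      exact_mod_cast h10
    · have h5 := (hK k hk).1.t2 l hl hR
      have h7 := mul_le_mul_of_nonneg_right (hS3 k hk l hl) hJ0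
      have h8 := mul_le_mul_of_nonneg_right hmm.2 hJ0
      have h11 : 0 ≤ ε k * J := mul_nonneg (hW k hk).ε0 hJ0
      have h10 : ((⌊(Eb + σ k + η k) * J⌋₊ + gT k l + C₂ * (u + 1) : ℕ) : ℝ) ≤ J := by
        push_cast
        linarith
      exact_mod_cast h10
  have q4 : ∀ k ≤ N, (C₂ : ℝ) * (ε₁ * J + 1) ≤ ((J : ℝ) - ⌊o k * J⌋₊) * Real.log 2 := by
    intro k hk
    -- the time
    show (C₂ : ℝ) * (ε₁ * J + 1) ≤ ((J : ℝ) - ⌊o k * J⌋₊) * Real.log 2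
    have h5 := mul_le_mul_of_nonneg_right (hS1 k hk).2.2 hJ0
    have h6 := mul_le_mul_of_nonneg_right (hfo k hk).1 hL2.le
    linarith
  have q5 : ∀ x ∈ L, x.1 ≤ N ∧ x.2 ≤ N ∧ ⌊o x.1 * J⌋₊ ≤ ⌊o x.2 * J⌋₊ := by
    intro x hx
    obtain ⟨h5, h6, h7⟩ := (hLm x).1 hx
    exact ⟨h5, h6, Nat.floor_le_floor (mul_le_mul_of_nonneg_right h7 hJ0)⟩
  have q6 : ∀ (B₁ : F.Ω → Prop) (hB₁ : 0 < Pe F.p B₁), Sub B₁ B →
      Pe F.p B ≤ (16 * 4 ^ r) ^ (L.length + 1) * Pe F.p B₁ → (Fam.sub F B₁ hB₁).Tm (ε₁ * J) := by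
    intro B₁ hB₁ s1 s2
    -- the time deficit
    rw [← hY, ← hn] at s2
    refine h2 B₁ (fun ω hω => k1 ω (s1 ω hω)) ?_ hB₁
    rw [one_div, inv_mul_le_iff₀ (by positivity)]
    calc Pe F.p A ≤ K₁ * Pe F.p B := k2
      _ ≤ K₁ * (Y ^ (n + 1) * Pe F.p B₁) := mul_le_mul_of_nonneg_left s2 hK₁.le
      _ = _ := by ring
  obtain ⟨B', l1, l2, l3⟩ := hrow (N := N) (k := u) (w := fun k => ⌊o k * J⌋₊)
    (v := fun k => ⌊a * J⌋₊ - ⌊o k * J⌋₊) (M := fun _ => M)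
    (e := fun k => ⌊(Eb + σ k + η k) * J⌋₊) (h := fun k => ⌊η k * J⌋₊)
    (p := fun k => ⌊p' k * J⌋₊) (z := z) (g := fun k l => ⌊b k l * J⌋₊) (gc := gc) (gT := gT)
    (g₀ := g₀) (R := R) (θ := ε₁ * J) (G := G) (H := H) (T := T) (TH := TH) (Gt := Gt) (Ht := Ht)
    (Dr := Dr) hinj (fun k hk => by
      have h5 := (hfo k hk).1
      have h6 : o k * (J : ℝ) ≤ 1 * J := mul_le_mul_of_nonneg_right (ho k hk).2.1.le hJ0
      have h7 : (⌊o k * J⌋₊ : ℝ) ≤ J := by linarith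
      exact_mod_cast h7) (fun i hi j hj => by
      have h5 := (hfo i hi).2.2
      have h6 := (hfo j hj).2.2
      show ⌊o i * J⌋₊ + (⌊a * J⌋₊ - ⌊o i * J⌋₊) = ⌊o j * J⌋₊ + (⌊a * J⌋₊ - ⌊o j * J⌋₊)
      omega) hDr q1 q2 q3
    (mul_nonneg hε₁.le hJ0) q4 hu1 L q5 κ' B hκ'0.le hB
    (fun k hk => (hK k hk).2) (by rw [← hY, ← hn]; exact hκ'1) q6
  refine ⟨B', gc, gT, g₀, G, H, T, TH, Gt, Ht, fun ω hω => k1 ω (l1 ω hω), ?_,
    fun k hk => ⟨(hK k hk).1, (hK k hk).2.sub (κ₁ := 1 / Y ^ n) l1 ?_ hκ.le ?_⟩,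
    fun i hi j hj hij q q1 q2 => ?_⟩
  · rw [← hY, ← hn] at l2
    calc Pe F.p A ≤ K₁ * Pe F.p B := k2
      _ ≤ K₁ * (Y ^ n * Pe F.p B') := mul_le_mul_of_nonneg_left l2 hK₁.le
      _ = _ := by ring
  · rw [← hY, ← hn] at l2
    rw [one_div, inv_mul_le_iff₀ hYn]
    exact l2
  · rw [mul_one_div, le_div_iff₀ hYn]
    exact hκ'2
  · have h5 : (⌊η j * J⌋₊ : ℝ) ≤ η j * J := Nat.floor_le (mul_nonneg (hη0 j hj).le hJ0)
    have h6 : 0 ≤ η j * J := mul_nonneg (hη0 j hj).le hJ0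
    have h7 : s * J ≤ η j * J := mul_le_mul_of_nonneg_right (hS1 j hj).1 hJ0
    have h8 : (C₂ : ℝ) * (⌊η j * J⌋₊ + 1) ≤ (C₁ + 2 * C₂) * (η j * J) := by
      have h9 : (C₂ : ℝ) * (⌊η j * J⌋₊ + 1) ≤ C₂ * (2 * (η j * J)) :=
        mul_le_mul_of_nonneg_left (by linarith) (by linarith)
      have h10 : 0 ≤ C₁ * (η j * J) := mul_nonneg (by linarith) h6
      linarith
    have h9 := l3 (i, j) ((hLm (i, j)).2 ⟨hi, hj, hij⟩) q (by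
      refine Nat.le_floor ?_
      push_cast
      linarith) (by
      have h10 : ((q + C₂ * (⌊η j * J⌋₊ + 1) : ℕ) : ℝ) ≤ gc j r := by
        push_cast
        linarith
      exact_mod_cast h10)
    refine h9.mono le_rfl (by positivity) (pow_le_pow_right₀ (by norm_num) (Nat.le_floor ?_))
    push_cast
    have h10 : (C₂ : ℝ) * (⌊η j * J⌋₊ + u + 1) ≤ C₂ * (2 * (η j * J)) :=
      mul_le_mul_of_nonneg_left (by linarith) (by linarith)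
    have h11 : 0 ≤ C₁ * (η j * J) := mul_nonneg (by linarith) h6
    linarith

end Pool.D2R
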