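import Pool.Agent.H23.D2.Two
import Pool.Agent.H2.GEN.Swp

/-!
# The row label against the ball chart: the second derivative

At a window `w` the coordinate `c r` has a label `Ht` (closed on `w`, two-sided on the natural box
of radius `2 ^ (-(a + v))` of the pair `(a + v, a)`, precision `2 ^ (-p)`); at the window `a ≥ w`
there is a ball chart `G₀` of all the coordinates. `r0_fam`: on a large part of the event
* `vel`, `nul`: all the lines through one exact point are on the ball chart, up to the natural error;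
* `box`, `fib`: the row label is near the ball chart, on the box and on all the velocities of the
  lines through the exact point;
* `hes`: the second derivative of the row label in the directions of its own line and of any line
  through the exact point is the one of the ball chart (in the natural coframe);
* `win`: the natural components of the difference, on the window `a`.
-/

set_option autoImplicit false

namespace Pool.D2R

open Finset Real MvPolynomial
open Pool.Agent.H49.Ent Pool.Agent.H32.Dense Pool.STK Pool.KA Pool.KSAT Pool.K2S Pool.PB Pool.S6C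
open Pool.GEN Pool.CHT Pool.CHX Pool.ISO
open Pool.FLF (Fam.sub)
open Pool.PB.Trl (rt rt_mem t_rt)

variable {m J : ℕ}

/-- The line in a longer window. -/
def co {F : Fam m J} (n : ℕ) (s : LnT F) : LnT F := (s.1, s.2.1, s.2.2 / 2 ^ n)

theorem co_slam (F : Fam m J) {w a : ℕ} (hw : w ≤ a) (ha : a ≤ J) (ω : F.Ω) :
    co (a - w) (slam F a ω) = slam F w ω := (slam_coarse F hw ha ω).symm

theorem dd_Gno {ζ : Type} (k : Fin m) (G : (Fin m → ℤ) × (ℕ × ζ) → MvPolynomial (Option (Fin m)) ℝ)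
    (y : (Fin m → ℤ) × (ℕ × ζ)) (x W : Option (Fin m) → ℝ) :
    dd (Gno k J J G y) x W = dd (G y) x W := by
  unfold dd Gno
  refine Finset.sum_congr rfl fun o _ => ?_
  rw [map_add, pderiv_C, add_zero]

theorem hs_Gno {ζ : Type} (k : Fin m) (G : (Fin m → ℤ) × (ℕ × ζ) → MvPolynomial (Option (Fin m)) ℝ)
    (y : (Fin m → ℤ) × (ℕ × ζ)) (x W V : Option (Fin m) → ℝ) :
    hs (Gno k J J G y) x W V = hs (G y) x W V := by
  unfold hs Gno
  refine Finset.sum_congr rfl fun o _ => ?_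
  rw [map_add, pderiv_C, add_zero]

/-- The own line is on the graph of the corrected polynomial. -/
theorem Hno_own (F : Fam m J) (k : Fin m) (a : ℕ) (H : LnT F → MvPolynomial (Option (Fin m)) ℝ)
    (ω : F.Ω) : eval (bt F ω) (Hno k H (slam F a ω)) = F.x ω k := by
  rw [eval_Hno]
  have h := eso_at F k a H ω
  have e : bt F ω none = F.t ω := rfl
  rw [e, h]
  ring

/-- The height of the line, in the relative time. -/
theorem eso_dv {F : Fam m J} (k : Fin m) (a : ℕ) (H : LnT F → MvPolynomial (Option (Fin m)) ℝ)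
    (s : LnT F) (t : ℝ) : eso k H s t =
      (dv a (fun s _ => H s) k s).eval (2 ^ a * t - (s.2.2 : ℝ)) := by
  have ha : (2 : ℝ) ^ a ≠ 0 := by positivity
  have e1 : ∀ o, (lc a s o).eval (2 ^ a * t - (s.2.2 : ℝ)) = blo s t o := by
    intro o
    cases o with
    | none =>
      simp only [lc, blo, Polynomial.eval_add, Polynomial.eval_mul, Polynomial.eval_C,
        Polynomial.eval_X]
      field_simp
      ring
    | some j =>
      simp only [lc, blo, Polynomial.eval_add, Polynomial.eval_mul, Polynomial.eval_C,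
        Polynomial.eval_X]
      field_simp
      ring
  unfold dv
  rw [Polynomial.eval_sub, Pool.KBX.eval_aeval_poly, e1]
  have e2 : (fun o => (lc a s o).eval (2 ^ a * t - (s.2.2 : ℝ))) = blo s t := funext e1
  rw [e2]
  rfl

/-- **The data**: a ball chart at the window `a`, re-centred at the radius `a + v`, and a label of
`c r` which is closed on the window `w`, on the natural box of the radius `a + v`. -/
structure RDat (F : Fam m J) (c : ℕ → Fin m) (r D w a v e : ℕ) (g₀ g : ℕ → ℕ) (p : ℕ)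
    (A : F.Ω → Prop) (G₀ : PtT F → ℕ → MvPolynomial (Option (Fin m)) ℝ)
    (H₀ : LnT F → ℕ → MvPolynomial (Option (Fin m)) ℝ)
    (Gt : PtT F → MvPolynomial (Option (Fin m)) ℝ)
    (Ht : LnT F → MvPolynomial (Option (Fin m)) ℝ) : Prop where
  ball : ChOK F c (r + 1) (fun _ => D) a a e g₀ A G₀ H₀
  top : ChOK F c (r + 1) (fun _ => D) (a + v) a e (fun l => g l + v) A
    (fun y l => Gno (c l) J J (fun y => G₀ y l) y) (fun s l => Hno (c l) (fun s => H₀ s l) s)
  dG : ∀ y, (Gt y).totalDegree ≤ D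
  dH : ∀ s, (Ht s).totalDegree ≤ D
  pG : ∀ y, DepC c r (Gt y)
  pH : ∀ s, DepC c r (Ht s)
  pos : ∀ ω, A ω → |F.x ω (c r) - eval (bt F ω) (Gt (ptr F J ω))| ≤ 1 / 2 ^ p
  agr : ∀ ω, A ω → ∀ b, NBx c (fun l => Gno (c l) J J (fun y => G₀ y l) (ptr F J ω))
    (fun l => g l + v) (a + v) (F.t ω) r b →
    |eval b (Gt (ptr F J ω)) - eval b (Ht (slam F w ω))| ≤ 1 / 2 ^ p

/-- **The output**: the row label against the ball chart. -/
structure ROut (F : Fam m J) (c : ℕ → Fin m) (r w a v : ℕ) (g₀ g : ℕ → ℕ) (p : ℕ) (U : ℝ)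
    (B : F.Ω → Prop) (G₀ : PtT F → ℕ → MvPolynomial (Option (Fin m)) ℝ)
    (H₀ : LnT F → ℕ → MvPolynomial (Option (Fin m)) ℝ)
    (Ht : LnT F → MvPolynomial (Option (Fin m)) ℝ) : Prop where
  vel : ∀ ω ν, B ω → B ν → ptr F J ω = ptr F J ν → ∀ l ≤ r,
    |bd F ν (some (c l)) - dd (G₀ (ptr F J ω) l) (bt F ω) (bd F ν)| ≤ U * 2 ^ a / 2 ^ g₀ l
  nul : ∀ ω ν, B ω → B ν → ptr F J ω = ptr F J ν → ∀ l ≤ r,
    |hs (G₀ (ptr F J ω) l) (bt F ω) (bd F ν) (bd F ν)| ≤ U * (2 ^ a) ^ 2 / 2 ^ g₀ l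
  box : ∀ ω, B ω → ∀ b, NBx c (fun l => Gno (c l) J J (fun y => G₀ y l) (ptr F J ω))
    (fun l => g l + v) (a + v) (F.t ω) r b →
    |eval b (Ht (slam F w ω)) - eval b (Gno (c r) J J (fun y => G₀ y r) (ptr F J ω))| ≤ U / 2 ^ p
  fib : ∀ ω ν, B ω → B ν → ptr F J ω = ptr F J ν →
    |dd (Ht (slam F w ω) - G₀ (ptr F J ω) r) (bt F ω) (bd F ν)| ≤ U * 2 ^ (a + v) / 2 ^ p
  hes : ∀ ω ν, B ω → B ν → ptr F J ω = ptr F J ν → ∀ Z : Option (Fin m) → ℝ, Z none = 0 →
    (∀ l < r, Z (some (c l)) - dd (G₀ (ptr F J ω) l) (bt F ω) Z =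
      hs (G₀ (ptr F J ω) l) (bt F ω) (bd F ω) (bd F ν)) →
    |hs (Ht (slam F w ω) - G₀ (ptr F J ω) r) (bt F ω) (bd F ω) (bd F ν) +
      dd (Ht (slam F w ω) - G₀ (ptr F J ω) r) (bt F ω) Z| ≤ U * 2 ^ (a + v) * 2 ^ a / 2 ^ p
  win : ∀ ω, B ω → ∀ τ ∈ Set.Icc (0 : ℝ) 1, ∀ V : Option (Fin m) → ℝ,
    |dd (Ht (slam F w ω) - Hno (c r) (fun s => H₀ s r) (slam F a ω))
      (fun o => (lc a (slam F a ω) o).eval τ) V| ≤ U / 2 ^ p * (2 ^ (a + v) * |V none| +
        ∑ l ∈ range r, 2 ^ (g l + v) * |V (some (c l)) -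
          dd (Hno (c l) (fun s => H₀ s l) (slam F a ω))
            (fun o => (lc a (slam F a ω) o).eval τ) V|)

/-- From the boxes of the point labels to the boxes of the line labels. -/
theorem box_smp (D r : ℕ) : ∃ C : ℕ, ∀ {m : ℕ} {c : ℕ → Fin m} {a : ℕ} {t M : ℝ}
    {G ψ : ℕ → MvPolynomial (Option (Fin m)) ℝ} {g : ℕ → ℕ}
    {Q : MvPolynomial (Option (Fin m)) ℝ}, Set.InjOn c (Set.Iio r) →
    (∀ l, (G l).totalDegree ≤ D) → (∀ l, DepC c l (G l)) → (∀ l, (ψ l).totalDegree ≤ D) →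
    (∀ l, DepC c l (ψ l)) → DepC c r Q → Q.totalDegree ≤ D → 0 ≤ M →
    (∀ j < r, ∀ b, NBx c G g a t j b → |eval b (G j) - eval b (ψ j)| ≤ 1 / 2 ^ g j) →
    (∀ b, NBx c G g a t r b → |eval b Q| ≤ M) → ∀ b, NBx c ψ g a t r b →
      |eval b Q| ≤ 2 ^ C * M := by
  obtain ⟨C₅, hbs⟩ := box_swap D (r + 1)
  obtain ⟨C₆, hls⟩ := lab_swap D (r + 1)
  refine ⟨C₆ * (C₅ * (1 + 0 + 1) + 1), ?_⟩
  intro m c a t M G ψ g Q hc hG hGd hψ hψd hQ hQd hM h1 h2
  have h3 := hbs (p := 1) (q := 0) (a := a) (t := t) (g := g) (g' := g) (Nat.lt_succ_self r) hc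
    hG hGd hψ hψd (fun l _ => le_rfl) (fun b hb j hj => by
      have e1 := hb.2 j hj
      have e2 := h1 j hj b (hb.mono le_rfl hj.le)
      have e3 : b (some (c j)) - eval b (ψ j) = (b (some (c j)) - eval b (G j)) +
          (eval b (G j) - eval b (ψ j)) := by ring
      rw [e3]
      refine (abs_add_le _ _).trans ((add_le_add e1 e2).trans (le_of_eq ?_))
      rw [pow_one]
      ring)
  exact hls (Nat.lt_succ_self r) hc hG hGd hQ hQd hM h3 h2

/-- The natural components of the gradient at the centre of a box. -/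
theorem cmp_smp (D r : ℕ) : ∃ C : ℝ, 1 ≤ C ∧ ∀ {m : ℕ} {c : ℕ → Fin m} {a : ℕ} {M : ℝ}
    {ψ : ℕ → MvPolynomial (Option (Fin m)) ℝ} {g : ℕ → ℕ} {x : Option (Fin m) → ℝ}
    {Q n0 : MvPolynomial (Option (Fin m)) ℝ} {nj : ℕ → MvPolynomial (Option (Fin m)) ℝ},
    Set.InjOn c (Set.Iio r) → (∀ l, (ψ l).totalDegree ≤ D) → (∀ l, DepC c l (ψ l)) →
    DepC c r Q → Q.totalDegree ≤ D → 0 ≤ M →
    (∀ b, NBx c ψ g a (x none) r b → |eval b Q| ≤ M) →
    (∀ l < r, |x (some (c l)) - eval x (ψ l)| ≤ 1 / 2 ^ g l) →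
    (∀ b W : Option (Fin m) → ℝ, dd Q b W = eval b n0 * W none +
      ∑ j ∈ range r, eval b (nj j) * (W (some (c j)) - dd (ψ j) b W)) →
    |eval x n0| ≤ C * M * 2 ^ a ∧ ∀ j < r, |eval x (nj j)| ≤ C * M * 2 ^ g j := by
  classical
  obtain ⟨C, hC, hbn⟩ := box_nat r D D
  refine ⟨C, hC, ?_⟩
  intro m c a M ψ g x Q n0 nj hc hψ hψd hQ hQd hM hbox hx hid
  have hb := hbn hc hψ hψd hQ hQd hM hbox hx
  constructor
  · obtain ⟨W, hW0, hW⟩ := vec_adapt hc hψd x (1 / 2 ^ a) (fun _ => 0) r le_rfl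
    have h1 := (hb W (by rw [hW0, abs_of_pos (by positivity)]) (fun l hl => by
      rw [hW l hl, abs_zero]
      positivity)).1
    rw [hid x W, hW0, Finset.sum_eq_zero (fun j hj => by
      rw [hW j (Finset.mem_range.1 hj), mul_zero]), add_zero, mul_one_div, abs_div,
      abs_of_pos (show (0 : ℝ) < 2 ^ a by positivity), div_le_iff₀ (by positivity)] at h1
    exact h1
  · intro j hj
    obtain ⟨W, hW0, hW⟩ := vec_adapt hc hψd x 0 (fun l => if l = j then 1 / 2 ^ g j else 0) r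
      le_rfl
    have h1 := (hb W (by rw [hW0, abs_zero]; positivity) (fun l hl => by
      rw [hW l hl]
      by_cases h : l = j
      · subst h
        rw [if_pos rfl, abs_of_pos (by positivity)]
      · rw [if_neg h, abs_zero]
        positivity)).1
    rw [hid x W, hW0, mul_zero, zero_add, Finset.sum_eq_single j (fun l hl hlj => by
      rw [hW l (Finset.mem_range.1 hl), if_neg hlj, mul_zero]) (fun h =>
        absurd (Finset.mem_range.2 hj) h), hW j hj, if_pos rfl, mul_one_div, abs_div,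
      abs_of_pos (show (0 : ℝ) < 2 ^ g j by positivity), div_le_iff₀ (by positivity)] at h1
    exact h1

/-- The corrected line label against the ball chart, on the natural box of the ball. -/
theorem dif_ball (D r : ℕ) : ∃ C : ℝ, 1 ≤ C ∧ ∀ {m J : ℕ} {F : Fam m J} {c : ℕ → Fin m}
    {a e k : ℕ} {g₀ : ℕ → ℕ} {A : F.Ω → Prop}
    {G₀ : PtT F → ℕ → MvPolynomial (Option (Fin m)) ℝ}
    {H₀ : LnT F → ℕ → MvPolynomial (Option (Fin m)) ℝ}, a ≤ J →
    ChOK F c (r + 1) (fun _ => D) a a e g₀ A G₀ H₀ → ∀ ω, A ω → ∀ l ≤ r,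
    (∀ τ ∈ Set.Icc (0 : ℝ) 1,
      |(dv a (fun s _ => H₀ s l) (c l) (slam F a ω)).eval τ| ≤ 2 ^ k / 2 ^ g₀ l) →
    ∀ b, NBx c (G₀ (ptr F J ω)) g₀ a (F.t ω) l b →
      |eval b (Hno (c l) (fun s => H₀ s l) (slam F a ω)) - eval b (G₀ (ptr F J ω) l)| ≤
        C * 2 ^ k / 2 ^ g₀ l := by
  obtain ⟨C, hC, hlip⟩ := Pool.Agent.H40.SLP.lip_one (D + 1)
  refine ⟨2 + 2 * C, by linarith, ?_⟩
  intro m J F c a e k g₀ A G₀ H₀ haJ hch ω hω l hl hdv b hb
  obtain ⟨τ, hτ⟩ : ∃ τ : ℝ, τ = 2 ^ a * b none - ((slam F a ω).2.2 : ℝ) := ⟨_, rfl⟩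
  have ha0 : (0 : ℝ) < 2 ^ a := by positivity
  have hg0 : (0 : ℝ) < 2 ^ g₀ l := by positivity
  have h1 : |τ - rt F a ω| ≤ 1 := by
    have h2 := t_rt F haJ ω
    have h3 := hb.1
    have e1 : τ - rt F a ω = 2 ^ a * (b none - F.t ω) := by
      rw [hτ, h2]
      field_simp
      ring
    rw [e1, abs_mul, abs_of_pos ha0]
    calc (2 : ℝ) ^ a * |b none - F.t ω| ≤ 2 ^ a * (1 / 2 ^ a) :=
          mul_le_mul_of_nonneg_left h3 ha0.le
      _ = 1 := by field_simp
  have hrt := rt_mem F a ω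
  have hτ2 : |τ| ≤ 2 := by
    rw [abs_le] at h1 ⊢
    constructor <;> linarith [h1.1, h1.2, hrt.1, hrt.2]
  have hqd := natDegree_dv a (G := fun s (_ : Fin m) => H₀ s l) (fun s _ => hch.degH s l) (c l)
    (slam F a ω)
  have h2 := hlip _ _ hqd hdv τ 0 hτ2 (by norm_num)
  have h3 := hdv 0 ⟨le_rfl, zero_le_one⟩
  rw [sub_zero] at h2
  have h4 : |(dv a (fun s _ => H₀ s l) (c l) (slam F a ω)).eval τ| ≤
      (1 + 2 * C) * (2 ^ k / 2 ^ g₀ l) := by
    have h5 : C * (2 ^ k / 2 ^ g₀ l) * |τ| ≤ C * (2 ^ k / 2 ^ g₀ l) * 2 :=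
      mul_le_mul_of_nonneg_left hτ2 (by positivity)
    have h6 := abs_sub_abs_le_abs_sub ((dv a (fun s _ => H₀ s l) (c l) (slam F a ω)).eval τ)
      ((dv a (fun s _ => H₀ s l) (c l) (slam F a ω)).eval 0)
    linarith
  have h5 := hch.agr ω hω l (by omega) b hb
  rw [eval_Hno, eso_dv (c l) a (fun s => H₀ s l) (slam F a ω) (b none), ← hτ]
  have e1 : eval b (H₀ (slam F a ω) l) +
      (dv a (fun s _ => H₀ s l) (c l) (slam F a ω)).eval τ - eval b (G₀ (ptr F J ω) l) =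
      (dv a (fun s _ => H₀ s l) (c l) (slam F a ω)).eval τ -
      (eval b (G₀ (ptr F J ω) l) - eval b (H₀ (slam F a ω) l)) := by ring
  rw [e1]
  refine (abs_sub _ _).trans ((add_le_add h4 h5).trans ?_)
  have h6 : (1 : ℝ) ≤ 2 ^ k := one_le_pow₀ (by norm_num)
  rw [← mul_div_assoc, ← add_div]
  refine div_le_div_of_nonneg_right ?_ hg0.le
  nlinarith

/-- The velocity of a closed polynomial along its own line. -/
theorem dd_own {F : Fam m J} {a : ℕ} (haJ : a ≤ J) (ω : F.Ω)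
    (R : MvPolynomial (Option (Fin m)) ℝ) :
    (Polynomial.derivative (MvPolynomial.aeval (lc a (slam F a ω)) R)).eval (rt F a ω) =
      1 / 2 ^ a * dd R (bt F ω) (bd F ω) := by
  have h := (der_curve (lc a (slam F a ω)) (x := bt F ω) (V := (1 / 2 ^ a : ℝ) • bd F ω) (Z := 0)
    (s := rt F a ω) (fun o => eval_lc F haJ ω o) (fun o => by
      rw [der_lc, Polynomial.eval_C]; rfl) (fun o => by
      rw [der_lc, Polynomial.derivative_C, Polynomial.eval_zero]; rfl) R).1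
  rw [h, dd_smul]

end Pool.D2R
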