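import Pool.Agent.H23.D2.Rad
import Pool.Agent.H23.D2.Fam

/-!
# The row label against the ball chart, for any thin chain

As `r0_fam`, where the boxes of the row label are the natural boxes of any chain `T` of the pair
`(a + v, a)` with no relation (rough and static coordinates in any order). `r1_fam`: on a large part
of the event, the difference `Δ` of the row label and of the re-centred ball label has small natural
components on the window `a`, and so has its derivative along the own line.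
-/

set_option autoImplicit false

namespace Pool.D2R

open Finset Real MvPolynomial
open Pool.Agent.H49.Ent Pool.Agent.H32.Dense Pool.STK Pool.KA Pool.KSAT Pool.K2S Pool.PB Pool.S6C
open Pool.GEN Pool.CHT Pool.CHX Pool.ISO
open Pool.FLF (Fam.sub)
open Pool.PB.Trl (rt rt_mem t_rt)

variable {m J : ℕ}

theorem deg_Gno {ζ : Type} (k : Fin m)
    (G : (Fin m → ℤ) × (ℕ × ζ) → MvPolynomial (Option (Fin m)) ℝ) (y : (Fin m → ℤ) × (ℕ × ζ))
    {K : ℕ} (h : (G y).totalDegree ≤ K) : (Gno k J J G y).totalDegree ≤ K := by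
  unfold Gno
  refine (totalDegree_add _ _).trans (max_le h ?_)
  rw [totalDegree_C]
  exact Nat.zero_le _

theorem depC_Gno {ζ : Type} {c : ℕ → Fin m} {i : ℕ} (k : Fin m)
    (G : (Fin m → ℤ) × (ℕ × ζ) → MvPolynomial (Option (Fin m)) ℝ) (y : (Fin m → ℤ) × (ℕ × ζ))
    (h : DepC c i (G y)) : DepC c i (Gno k J J G y) := by
  intro b b' h1 h2
  unfold Gno
  rw [map_add, map_add, h b b' h1 h2, eval_C, eval_C]

theorem depC_Hno {ζ : Type} {c : ℕ → Fin m} {i : ℕ} (k : Fin m)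
    (H : ((Fin m → ℝ) × (Fin m → ℝ)) × ζ × ℕ → MvPolynomial (Option (Fin m)) ℝ)
    (s : ((Fin m → ℝ) × (Fin m → ℝ)) × ζ × ℕ) (h : DepC c i (H s)) : DepC c i (Hno k H s) := by
  intro b b' h1 h2
  rw [eval_Hno, eval_Hno, h b b' h1 h2, h1]

/-- **The data**: a ball chart at the window `a`; a chain `T` at the pair `(a + v, a)`; a label of
`c r` which is closed on the window `w`, and the re-centred ball label of `c r`, both two-sided on
the natural boxes of `T`. -/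
structure RDat1 (F : Fam m J) (c : ℕ → Fin m) (r D w a v e : ℕ) (g₀ gT : ℕ → ℕ) (p : ℕ)
    (A : F.Ω → Prop) (G₀ : PtT F → ℕ → MvPolynomial (Option (Fin m)) ℝ)
    (H₀ : LnT F → ℕ → MvPolynomial (Option (Fin m)) ℝ)
    (T : PtT F → ℕ → MvPolynomial (Option (Fin m)) ℝ)
    (TH : LnT F → ℕ → MvPolynomial (Option (Fin m)) ℝ)
    (Gt : PtT F → MvPolynomial (Option (Fin m)) ℝ)
    (Ht : LnT F → MvPolynomial (Option (Fin m)) ℝ) : Prop where
  ball : ChOK F c (r + 1) (fun _ => D) a a e g₀ A G₀ H₀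
  thin : ChOK F c r (fun _ => D) (a + v) a e gT A T TH
  dG : ∀ y, (Gt y).totalDegree ≤ D
  dH : ∀ s, (Ht s).totalDegree ≤ D
  pG : ∀ y, DepC c r (Gt y)
  pH : ∀ s, DepC c r (Ht s)
  pos : ∀ ω, A ω → |F.x ω (c r) - eval (bt F ω) (Gt (ptr F J ω))| ≤ 1 / 2 ^ p
  agr : ∀ ω, A ω → ∀ b, NBx c (T (ptr F J ω)) gT (a + v) (F.t ω) r b →
    |eval b (Gt (ptr F J ω)) - eval b (Ht (slam F w ω))| ≤ 1 / 2 ^ p
  rpos : ∀ ω, A ω → |F.x ω (c r) -
    eval (bt F ω) (Gno (c r) J J (fun y => G₀ y r) (ptr F J ω))| ≤ 1 / 2 ^ p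
  ragr : ∀ ω, A ω → ∀ b, NBx c (T (ptr F J ω)) gT (a + v) (F.t ω) r b →
    |eval b (Gno (c r) J J (fun y => G₀ y r) (ptr F J ω)) -
      eval b (Hno (c r) (fun s => H₀ s r) (slam F a ω))| ≤ 1 / 2 ^ p

/-- The point of the line at the relative time `τ` of its window. -/
noncomputable def ptw (F : Fam m J) (a : ℕ) (ω : F.Ω) (τ : ℝ) : Option (Fin m) → ℝ :=
  fun o => (lc a (slam F a ω) o).eval τ

theorem ptw_rt (F : Fam m J) {a : ℕ} (ha : a ≤ J) (ω : F.Ω) : ptw F a ω (rt F a ω) = bt F ω :=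
  funext fun o => eval_lc F ha ω o

/-- **The output.** `own`, `ownT`: the own line is on the closed charts; `vel`, `nul`, `velT`: the
lines through the exact point; `box`: the row label on the boxes; `win`: the natural components of
the difference `Δ = Ht - Hno` on the window `a`; `hsw`: its second derivative in the direction of
the own line, on the window `a`; `dif`: the closed against the visible ball chart. -/
structure ROut1 (F : Fam m J) (c : ℕ → Fin m) (r w a v : ℕ) (g₀ gT : ℕ → ℕ) (p : ℕ) (U : ℝ)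
    (B : F.Ω → Prop) (G₀ : PtT F → ℕ → MvPolynomial (Option (Fin m)) ℝ)
    (H₀ : LnT F → ℕ → MvPolynomial (Option (Fin m)) ℝ)
    (T : PtT F → ℕ → MvPolynomial (Option (Fin m)) ℝ)
    (TH : LnT F → ℕ → MvPolynomial (Option (Fin m)) ℝ)
    (Ht : LnT F → MvPolynomial (Option (Fin m)) ℝ) : Prop where
  own : ∀ ω, B ω → ∀ l ≤ r, ∀ τ ∈ Set.Icc (0 : ℝ) 1,
    |(dv a (fun s _ => H₀ s l) (c l) (slam F a ω)).eval τ| ≤ U / 2 ^ g₀ l
  ownT : ∀ ω, B ω → ∀ l < r, ∀ τ ∈ Set.Icc (0 : ℝ) 1,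
    |(dv a (fun s _ => TH s l) (c l) (slam F a ω)).eval τ| ≤ U / 2 ^ gT l
  vel : ∀ ω ν, B ω → B ν → ptr F J ω = ptr F J ν → ∀ l ≤ r,
    |bd F ν (some (c l)) - dd (G₀ (ptr F J ω) l) (bt F ω) (bd F ν)| ≤ U * 2 ^ a / 2 ^ g₀ l
  nul : ∀ ω ν, B ω → B ν → ptr F J ω = ptr F J ν → ∀ l ≤ r,
    |hs (G₀ (ptr F J ω) l) (bt F ω) (bd F ν) (bd F ν)| ≤ U * (2 ^ a) ^ 2 / 2 ^ g₀ l
  velT : ∀ ω ν, B ω → B ν → ptr F J ω = ptr F J ν → ∀ l < r,
    |bd F ν (some (c l)) - dd (TH (slam F a ω) l) (bt F ω) (bd F ν)| ≤ U * 2 ^ (a + v) / 2 ^ gT l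
  nulT : ∀ ω ν, B ω → B ν → ptr F J ω = ptr F J ν → ∀ l < r,
    |hs (T (ptr F J ω) l) (bt F ω) (bd F ν) (bd F ν)| ≤ U * (2 ^ (a + v)) ^ 2 / 2 ^ gT l
  box : ∀ ω, B ω → ∀ b, NBx c (T (ptr F J ω)) gT (a + v) (F.t ω) r b →
    |eval b (Ht (slam F w ω)) - eval b (Gno (c r) J J (fun y => G₀ y r) (ptr F J ω))| ≤ U / 2 ^ p
  win : ∀ ω, B ω → ∀ τ ∈ Set.Icc (0 : ℝ) 1, ∀ V : Option (Fin m) → ℝ,
    |dd (Ht (slam F w ω) - Hno (c r) (fun s => H₀ s r) (slam F a ω)) (ptw F a ω τ) V| ≤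
      U / 2 ^ p * nrm c (TH (slam F a ω)) gT (a + v) r (ptw F a ω τ) V
  hsw : ∀ ω, B ω → ∀ τ ∈ Set.Icc (0 : ℝ) 1, ∀ V Z : Option (Fin m) → ℝ,
    |hs (Ht (slam F w ω) - Hno (c r) (fun s => H₀ s r) (slam F a ω)) (ptw F a ω τ) (bd F ω) V +
      dd (Ht (slam F w ω) - Hno (c r) (fun s => H₀ s r) (slam F a ω)) (ptw F a ω τ) Z| ≤
      U / 2 ^ p * (2 ^ a * nrm c (TH (slam F a ω)) gT (a + v) r (ptw F a ω τ) V +
        nrz c (TH (slam F a ω)) gT (a + v) r (ptw F a ω τ) (bd F ω) V Z)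
  dif : ∀ ω, B ω → ∀ l ≤ r, (∀ V : Option (Fin m) → ℝ,
    |dd (Hno (c l) (fun s => H₀ s l) (slam F a ω) - G₀ (ptr F J ω) l) (bt F ω) V| ≤
      U / 2 ^ g₀ l * nrm c (G₀ (ptr F J ω)) g₀ a l (bt F ω) V) ∧
    ∀ V V' Z : Option (Fin m) → ℝ,
    |hs (Hno (c l) (fun s => H₀ s l) (slam F a ω) - G₀ (ptr F J ω) l) (bt F ω) V V' +
      dd (Hno (c l) (fun s => H₀ s l) (slam F a ω) - G₀ (ptr F J ω) l) (bt F ω) Z| ≤
      U / 2 ^ g₀ l * (nrm c (G₀ (ptr F J ω)) g₀ a l (bt F ω) V *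
        nrm c (G₀ (ptr F J ω)) g₀ a l (bt F ω) V' +
        nrz c (G₀ (ptr F J ω)) g₀ a l (bt F ω) V V' Z)

/-- The numbers. -/
theorem num_r1 {N₀ C₁ C₁' C₅ h k r : ℕ} {C₂ C₂' C₆ C₇ C₈ C₉ : ℝ} (h2 : C₂ ≤ 2 ^ N₀)
    (h2' : C₂' ≤ 2 ^ N₀) (h6 : C₆ ≤ 2 ^ N₀) (h7 : C₇ ≤ 2 ^ N₀) (h8 : C₈ ≤ 2 ^ N₀)
    (h9 : C₉ ≤ 2 ^ N₀) (hr : (r : ℝ) + 1 ≤ 2 ^ N₀) :
    ∃ Y : ℝ, 2 ≤ Y ∧ Y ^ 10 = 2 ^ (10 * (N₀ + 2 * C₁ + 2 * C₁' + C₅ + 4) * (h + k + 1)) ∧
      C₂ ≤ Y ∧ C₂' ≤ Y ∧ C₆ ≤ Y ∧ C₇ ≤ Y ∧ C₈ ≤ Y ∧ C₉ ≤ Y ∧ (r : ℝ) + 1 ≤ Y ∧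
      (2 : ℝ) ^ (C₁ * (k + 2)) ≤ Y ∧ (2 : ℝ) ^ (C₁' * (k + 2)) ≤ Y ∧ (2 : ℝ) ^ k ≤ Y ∧
      (2 : ℝ) ^ (k + 1) ≤ Y ∧ (2 : ℝ) ^ C₅ * 2 ^ (h + 2) ≤ Y ∧ (2 : ℝ) ^ (h + 3) ≤ Y := by
  obtain ⟨E, hE⟩ : ∃ E, E = h + k + 1 := ⟨_, rfl⟩
  obtain ⟨n, hn⟩ : ∃ n, n = N₀ + 2 * C₁ + 2 * C₁' + C₅ + 4 := ⟨_, rfl⟩
  have hE1 : 1 ≤ E := by omega
  have hp : ∀ {x : ℕ}, x ≤ n * E → (2 : ℝ) ^ x ≤ 2 ^ (n * E) := fun hx =>
    pow_le_pow_right₀ (by norm_num) hx
  have e0 : n * E = N₀ * E + 2 * C₁ * E + 2 * C₁' * E + C₅ * E + 4 * E := by rw [hn]; ring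
  have hNE : N₀ ≤ n * E := by
    calc N₀ ≤ n := by omega
      _ ≤ n * E := Nat.le_mul_of_pos_right _ hE1
  refine ⟨2 ^ (n * E), ?_, ?_, h2.trans (hp hNE), h2'.trans (hp hNE), h6.trans (hp hNE),
    h7.trans (hp hNE), h8.trans (hp hNE), h9.trans (hp hNE), hr.trans (hp hNE), hp ?_, hp ?_,
    hp ?_, hp ?_, ?_, hp ?_⟩
  · calc (2 : ℝ) = 2 ^ 1 := (pow_one 2).symm
      _ ≤ _ := hp (by nlinarith)
  · rw [← pow_mul, hn, hE]
    congr 1
    ring
  · have e2 : C₁ * (k + 2) ≤ 2 * C₁ * E := by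
      rw [hE]
      nlinarith
    omega
  · have e2 : C₁' * (k + 2) ≤ 2 * C₁' * E := by
      rw [hE]
      nlinarith
    omega
  · omega
  · omega
  · rw [← pow_add]
    refine hp ?_
    have e2 : C₅ ≤ C₅ * E := Nat.le_mul_of_pos_right _ hE1
    omega
  · omega

/-- The derivative of a polynomial along the line. -/
theorem dd_line {F : Fam m J} {a : ℕ} (ω : F.Ω) (R : MvPolynomial (Option (Fin m)) ℝ) (τ : ℝ) :
    (Polynomial.derivative (MvPolynomial.aeval (lc a (slam F a ω)) R)).eval τ =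
      1 / 2 ^ a * dd R (ptw F a ω τ) (bd F ω) := by
  have h := (der_curve (lc a (slam F a ω)) (x := ptw F a ω τ) (V := (1 / 2 ^ a : ℝ) • bd F ω)
    (Z := 0) (s := τ) (fun o => rfl) (fun o => by rw [der_lc, Polynomial.eval_C]; rfl)
    (fun o => by rw [der_lc, Polynomial.derivative_C, Polynomial.eval_zero]; rfl) R).1
  rw [h, dd_smul]

theorem aeval_lc {F : Fam m J} {a : ℕ} (ω : F.Ω) (R : MvPolynomial (Option (Fin m)) ℝ) (τ : ℝ) :
    (MvPolynomial.aeval (lc a (slam F a ω)) R).eval τ = eval (ptw F a ω τ) R := by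
  rw [Pool.KBX.eval_aeval_poly]
  rfl

/-- **The row label against the ball chart**, for any thin chain. -/
theorem r1_fam (m D r : ℕ) (hD : 1 ≤ D) : ∃ C : ℕ, 1 ≤ C ∧ ∀ {J : ℕ} {F : Fam m J}
    {c : ℕ → Fin m} {w a v e h k p : ℕ} {θ κ : ℝ} {g₀ gT : ℕ → ℕ} {A : F.Ω → Prop}
    {G₀ : PtT F → ℕ → MvPolynomial (Option (Fin m)) ℝ}
    {H₀ : LnT F → ℕ → MvPolynomial (Option (Fin m)) ℝ}
    {T : PtT F → ℕ → MvPolynomial (Option (Fin m)) ℝ}
    {TH : LnT F → ℕ → MvPolynomial (Option (Fin m)) ℝ}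
    {Gt : PtT F → MvPolynomial (Option (Fin m)) ℝ} {Ht : LnT F → MvPolynomial (Option (Fin m)) ℝ}
    (_ : 0 < Pe F.p A), Set.InjOn c (Set.Iio (r + 1)) → w ≤ a → a ≤ J →
    RDat1 F c r D w a v e g₀ gT p A G₀ H₀ T TH Gt Ht →
    RelvF F c r (a + v) a gT D h κ A T → κ ≤ 1 / 4 → (∀ l < r, 1 ≤ gT l) →
    (∀ l ≤ r, e + g₀ l + C * (k + 1) ≤ J) → (∀ l < r, e + gT l + C * (k + 1) ≤ J) → 0 ≤ θ →
    (∀ (B : F.Ω → Prop) (hB : 0 < Pe F.p B), Sub B A → Pe F.p A / 16 ≤ Pe F.p B →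
      (Fam.sub F B hB).Tm θ) →
    C * (θ + 1) ≤ ((J : ℝ) - a) * Real.log 2 → Real.exp (C * (θ + 1)) ≤ 2 ^ k →
    ∃ B : F.Ω → Prop, Sub B A ∧ Pe F.p A / 16 ≤ Pe F.p B ∧
      ROut1 F c r w a v g₀ gT p (2 ^ (C * (h + k + 1))) B G₀ H₀ T TH Ht := by
  classical
  obtain ⟨C₁, hC₁, hpn⟩ := path_nat m D r
  obtain ⟨C₁', hC₁', hpv⟩ := path_vel m D r
  obtain ⟨C₂, hC₂, hba⟩ := box_all r D D
  have hba' := fun l : ℕ => box_all l D D
  choose Cb hCb hbl using hba'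
  obtain ⟨C₂', hC₂'⟩ : ∃ C₂' : ℝ, C₂' = ∑ l ∈ range (r + 1), Cb l := ⟨_, rfl⟩
  have hCbl : ∀ l ≤ r, Cb l ≤ C₂' := by
    intro l hl
    rw [hC₂']
    exact Finset.single_le_sum (f := Cb) (fun l _ => by linarith [hCb l])
      (Finset.mem_range.2 (by omega))
  have hC₂'0 : 0 ≤ C₂' := (by linarith [hCb 0] : (0 : ℝ) ≤ Cb 0).trans (hCbl 0 (Nat.zero_le _))
  obtain ⟨C₃, hC₃, hrm⟩ := rem_fam m (D + 1) (r + 1)
  obtain ⟨C₄, hC₄, hrn⟩ := rem_fam m (D + r * D) (r + 1)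
  obtain ⟨C₅, hbs⟩ := box_smp D r
  obtain ⟨C₆, hC₆, hcs⟩ := cmp_smp D r
  obtain ⟨C₇, hC₇, hdb⟩ := dif_ball D r
  obtain ⟨C₈, hC₈, hder⟩ := der_one (D + r * D)
  obtain ⟨C₉, hdbl⟩ := nbx_dbl (r + 1) (fun _ => D)
  obtain ⟨N₀, hN₀⟩ := pow_unbounded_of_one_lt (C₂ + C₂' + C₆ + C₇ + C₈ + 2 ^ C₉ + (r + 1))
    (one_lt_two (α := ℝ))
  obtain ⟨C, hC⟩ : ∃ C : ℕ, C = 10 * (N₀ + 2 * C₁ + 2 * C₁' + C₅ + 4) + ⌈C₃⌉₊ + ⌈C₄⌉₊ := ⟨_, rfl⟩
  have hC3 : C₃ ≤ C := by
    refine (Nat.le_ceil C₃).trans ?_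
    have : ⌈C₃⌉₊ ≤ C := by omega
    exact_mod_cast this
  have hC4 : C₄ ≤ C := by
    refine (Nat.le_ceil C₄).trans ?_
    have : ⌈C₄⌉₊ ≤ C := by omega
    exact_mod_cast this
  refine ⟨C, by omega, ?_⟩
  intro J F c w a v e h k p θ κ g₀ gT A G₀ H₀ T TH Gt Ht hA hc hwa haJ hd hR hκ hgT hJ hJT hθ hTm
    hCJ hexp
  have hr0 : (0 : ℝ) ≤ r := Nat.cast_nonneg r
  have hC90 : (0 : ℝ) < 2 ^ C₉ := by positivity
  obtain ⟨Y, hY2, hY10, y2, y2', y6, y7, y8, y9, yr, y1, y1', yk, yk1, y5, yh⟩ := num_r1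
    (C₁ := C₁) (C₁' := C₁') (C₅ := C₅) (h := h) (k := k) (r := r) (N₀ := N₀) (C₂ := C₂)
    (C₂' := C₂') (C₆ := C₆) (C₇ := C₇) (C₈ := C₈) (C₉ := 2 ^ C₉) (by linarith) (by linarith)
    (by linarith) (by linarith) (by linarith) (by linarith) (by linarith)
  have hYU : Y ^ 10 ≤ 2 ^ (C * (h + k + 1)) := by
    rw [hY10]
    refine pow_le_pow_right₀ (by norm_num) (Nat.mul_le_mul_right _ ?_)
    omega
  obtain ⟨U, hU⟩ : ∃ U : ℝ, U = 2 ^ (C * (h + k + 1)) := ⟨_, rfl⟩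
  rw [← hU] at hYU ⊢
  have hY0 : 0 < Y := by linarith
  have hY1 : 1 ≤ Y := by linarith
  have hYn : ∀ n ≤ 10, Y ^ n ≤ U := fun n hn => (pow_le_pow_right₀ hY1 hn).trans hYU
  have hYm : ∀ i j, i ≤ j → Y ^ i ≤ Y ^ j := fun i j hij => pow_le_pow_right₀ hY1 hij
  have hθ1 : 0 ≤ θ + 1 := by linarith
  have hexp3 : Real.exp (C₃ * (θ + 1)) ≤ 2 ^ k := (Real.exp_le_exp.2
    (mul_le_mul_of_nonneg_right hC3 hθ1)).trans hexp
  have hexp4 : Real.exp (C₄ * (θ + 1)) ≤ 2 ^ k := (Real.exp_le_exp.2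
    (mul_le_mul_of_nonneg_right hC4 hθ1)).trans hexp
  have hc' : Set.InjOn c (Set.Iio r) := hc.mono fun x hx => by
    rw [Set.mem_Iio] at hx ⊢
    omega
  have hball := hd.ball
  have hthin := hd.thin
  have hp := Pe_nonneg F.isLaw
  -- the heights of the lines over the ball
  obtain ⟨B₀, b1, b2, b3⟩ := hrm J F A hA a (fun l s => dv a (fun s _ => H₀ s l) (c l) s)
    (fun l => 2 / 2 ^ g₀ l) θ haJ (fun l _ s => natDegree_dv a
      (G := fun s (_ : Fin m) => H₀ s l) (fun s _ => hball.degH s l) (c l) s)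
    (fun l _ => by positivity) hθ (hTm A hA (fun _ h => h) (by linarith [hp A]))
    ((mul_le_mul_of_nonneg_right hC3 hθ1).trans hCJ) (fun ω hω l hl => by
      show |(dv a (fun s _ => H₀ s l) (c l) (slam F a ω)).eval (rt F a ω)| ≤ _
      rw [eval_dv F haJ (fun s _ => H₀ s l) ω (c l)]
      have h1 := hball.pos ω hω l hl
      have h2 := hball.agr ω hω l hl _ (hball.self hω hl.le)
      have e1 : F.x ω (c l) - eval (bt F ω) (H₀ (slam F a ω) l) =
          (F.x ω (c l) - eval (bt F ω) (G₀ (ptr F J ω) l)) +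
          (eval (bt F ω) (G₀ (ptr F J ω) l) - eval (bt F ω) (H₀ (slam F a ω) l)) := by ring
      rw [e1]
      refine (abs_add_le _ _).trans ((add_le_add h1 h2).trans (le_of_eq ?_))
      ring)
  have hB₀0 : 0 < Pe F.p B₀ := by linarith
  -- the heights of the lines over the thin chain
  obtain ⟨B₁, q1, q2, q3⟩ := hrm J F B₀ hB₀0 a
    (fun l s => if l < r then dv a (fun s _ => TH s l) (c l) s else 0)
    (fun l => 2 / 2 ^ gT l) θ haJ (fun l _ s => by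
      show (if l < r then dv a (fun s _ => TH s l) (c l) s else 0).natDegree ≤ _
      split_ifs
      · exact natDegree_dv a (G := fun s (_ : Fin m) => TH s l) (fun s _ => hthin.degH s l) (c l) s
      · rw [Polynomial.natDegree_zero]
        exact Nat.zero_le _)
    (fun l _ => by positivity) hθ (hTm B₀ hB₀0 b1 (by linarith [hp A]))
    ((mul_le_mul_of_nonneg_right hC3 hθ1).trans hCJ) (fun ω hω l _ => by
      show |(if l < r then dv a (fun s _ => TH s l) (c l) (slam F a ω) else 0).eval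
        (rt F a ω)| ≤ _
      split_ifs with hl
      · rw [eval_dv F haJ (fun s _ => TH s l) ω (c l)]
        have h1 := hthin.pos ω (b1 ω hω) l hl
        have h2 := hthin.agr ω (b1 ω hω) l hl _ (hthin.self (b1 ω hω) hl.le)
        have e1 : F.x ω (c l) - eval (bt F ω) (TH (slam F a ω) l) =
            (F.x ω (c l) - eval (bt F ω) (T (ptr F J ω) l)) +
            (eval (bt F ω) (T (ptr F J ω) l) - eval (bt F ω) (TH (slam F a ω) l)) := by ring
        rw [e1]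
        refine (abs_add_le _ _).trans ((add_le_add h1 h2).trans (le_of_eq ?_))
        ring
      · rw [Polynomial.eval_zero, abs_zero]
        positivity)
  have hBA1 : Sub B₁ A := fun ω hω => b1 ω (q1 ω hω)
  have hB₁0 : 0 < Pe F.p B₁ := by linarith
  have hdv : ∀ ω, B₁ ω → ∀ l ≤ r, ∀ τ ∈ Set.Icc (0 : ℝ) 1,
      |(dv a (fun s _ => H₀ s l) (c l) (slam F a ω)).eval τ| ≤ 2 ^ (k + 1) / 2 ^ g₀ l := by
    intro ω hω l hl τ hτ
    refine (b3 ω (q1 ω hω) l (by omega) τ hτ).trans ?_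
    rw [pow_succ, mul_div_assoc]
    exact mul_le_mul_of_nonneg_right hexp3 (by positivity)
  have hdvT : ∀ ω, B₁ ω → ∀ l < r, ∀ τ ∈ Set.Icc (0 : ℝ) 1,
      |(dv a (fun s _ => TH s l) (c l) (slam F a ω)).eval τ| ≤ 2 ^ (k + 1) / 2 ^ gT l := by
    intro ω hω l hl τ hτ
    have h1 := q3 ω hω l (by omega) τ hτ
    simp only [if_pos hl] at h1
    refine h1.trans ?_
    rw [pow_succ, mul_div_assoc]
    exact mul_le_mul_of_nonneg_right hexp3 (by positivity)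
  -- no relation
  obtain ⟨Gr, hGr⟩ : ∃ Gr : PtT F → MvPolynomial (Option (Fin m)) ℝ,
      Gr = fun y => Gno (c r) J J (fun y => G₀ y r) y := ⟨_, rfl⟩
  obtain ⟨Hr, hHr⟩ : ∃ Hr : LnT F → MvPolynomial (Option (Fin m)) ℝ,
      Hr = fun s => Hno (c r) (fun s => H₀ s r) s := ⟨_, rfl⟩
  have hGrd : ∀ y, (Gr y).totalDegree ≤ D := by
    intro y
    rw [hGr]
    exact deg_Gno _ _ _ (hball.degG y r)
  have hGrp : ∀ y, DepC c r (Gr y) := by
    intro y
    rw [hGr]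
    exact depC_Gno _ _ _ (hball.depG y r)
  have hHrd : ∀ s, (Hr s).totalDegree ≤ D := by
    intro s
    rw [hHr]
    exact deg_Hno _ _ _ hD (hball.degH s r)
  have hHrp : ∀ s, DepC c r (Hr s) := by
    intro s
    rw [hHr]
    exact depC_Hno _ _ _ (hball.depH s r)
  have hagr := hd.agr
  have hragr : ∀ ω, A ω → ∀ b, NBx c (T (ptr F J ω)) gT (a + v) (F.t ω) r b →
      |eval b (Gr (ptr F J ω)) - eval b (Hr (slam F a ω))| ≤ 1 / 2 ^ p := by
    rw [hGr, hHr]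
    exact hd.ragr
  have hrpos : ∀ ω, A ω → |F.x ω (c r) - eval (bt F ω) (Gr (ptr F J ω))| ≤ 1 / 2 ^ p := by
    rw [hGr]
    exact hd.rpos
  obtain ⟨Δ, hΔ⟩ : ∃ Δ : LnT F → MvPolynomial (Option (Fin m)) ℝ,
      Δ = fun s => Ht (co (a - w) s) - Hr s := ⟨_, rfl⟩
  have hΔω : ∀ ω, Δ (slam F a ω) = Ht (slam F w ω) - Hr (slam F a ω) := by
    intro ω
    rw [hΔ]
    show Ht (co (a - w) (slam F a ω)) - _ = _
    rw [co_slam F hwa haJ]
  have hΔd : ∀ s, (Δ s).totalDegree ≤ D := by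
    intro s
    rw [hΔ]
    exact (totalDegree_sub _ _).trans (max_le (hd.dH _) (hHrd s))
  have hΔp : ∀ s, DepC c r (Δ s) := by
    intro s b b' h1 h2
    rw [hΔ]
    show eval b (Ht (co (a - w) s) - Hr s) = eval b' (Ht (co (a - w) s) - Hr s)
    rw [map_sub, map_sub, hd.pH _ b b' h1 h2, hHrp s b b' h1 h2]
  obtain ⟨B₂, d1, d2, d3⟩ := hR B₁ hBA1 (by
      calc κ * Pe F.p A ≤ 1 / 4 * Pe F.p A := mul_le_mul_of_nonneg_right hκ (hp A)
        _ ≤ Pe F.p B₁ := by linarith) (fun y => Gt y - Gr y) Δ (2 / 2 ^ p)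
    (fun y => (totalDegree_sub _ _).trans (max_le (hd.dG y) (hGrd y))) hΔd
    (fun y b b' h1 h2 => by
      rw [map_sub, map_sub, hd.pG y b b' h1 h2, hGrp y b b' h1 h2]) hΔp (by positivity)
    (fun ω hω => by
      rw [map_sub]
      have h1 := hd.pos ω (hBA1 ω hω)
      have h2 := hrpos ω (hBA1 ω hω)
      have e1 : eval (bt F ω) (Gt (ptr F J ω)) - eval (bt F ω) (Gr (ptr F J ω)) =
          (F.x ω (c r) - eval (bt F ω) (Gr (ptr F J ω))) -
          (F.x ω (c r) - eval (bt F ω) (Gt (ptr F J ω))) := by ring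
      rw [e1]
      refine (abs_sub _ _).trans ((add_le_add h2 h1).trans (le_of_eq ?_))
      ring)
    (fun ω hω b hb => by
      rw [hΔω, map_sub, map_sub]
      have h1 := hagr ω (hBA1 ω hω) b hb
      have h2 := hragr ω (hBA1 ω hω) b hb
      have e1 : eval b (Gt (ptr F J ω)) - eval b (Gr (ptr F J ω)) -
          (eval b (Ht (slam F w ω)) - eval b (Hr (slam F a ω))) =
          (eval b (Gt (ptr F J ω)) - eval b (Ht (slam F w ω))) -
          (eval b (Gr (ptr F J ω)) - eval b (Hr (slam F a ω))) := by ring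
      rw [e1]
      refine (abs_sub _ _).trans ((add_le_add h1 h2).trans (le_of_eq ?_))
      ring)
  have hB₂0 : 0 < Pe F.p B₂ := by linarith
  have hBA2 : Sub B₂ A := fun ω hω => hBA1 ω (d1 ω hω)
  obtain ⟨M₁, hM₁⟩ : ∃ M₁ : ℝ, M₁ = 2 ^ (h + 2) / 2 ^ p := ⟨_, rfl⟩
  have h2h : (1 : ℝ) ≤ 2 ^ h := one_le_pow₀ (by norm_num)
  have hM₁0 : 0 < M₁ := by rw [hM₁]; positivity
  have hp0 : (0 : ℝ) < 2 ^ p := by positivity
  -- the difference on the box of the point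
  have hΔ1 : ∀ ω, B₂ ω → ∀ b, NBx c (T (ptr F J ω)) gT (a + v) (F.t ω) r b →
      |eval b (Δ (slam F a ω))| ≤ M₁ := by
    intro ω hω b hb
    have h1 := d3 ω hω b hb
    have h2 := hagr ω (hBA2 ω hω) b hb
    have h3 := hragr ω (hBA2 ω hω) b hb
    rw [map_sub] at h1
    rw [hΔω, map_sub]
    have e1 : eval b (Ht (slam F w ω)) - eval b (Hr (slam F a ω)) =
        (eval b (Gt (ptr F J ω)) - eval b (Gr (ptr F J ω))) -
        (eval b (Gt (ptr F J ω)) - eval b (Ht (slam F w ω))) +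
        (eval b (Gr (ptr F J ω)) - eval b (Hr (slam F a ω))) := by ring
    rw [e1]
    refine (abs_add_le _ _).trans ((add_le_add (abs_sub _ _) le_rfl).trans ?_)
    have e2 : 2 ^ h * (2 / (2 : ℝ) ^ p) + 1 / 2 ^ p + 1 / 2 ^ p ≤ M₁ := by
      rw [hM₁, pow_add]
      have e3 : (2 : ℝ) ^ h * (2 / 2 ^ p) + 1 / 2 ^ p + 1 / 2 ^ p = (2 ^ h * 2 + 2) / 2 ^ p := by
        ring
      rw [e3]
      refine div_le_div_of_nonneg_right ?_ (by positivity)
      linarith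
    linarith
  -- on the box of the line
  obtain ⟨M₂, hM₂⟩ : ∃ M₂ : ℝ, M₂ = 2 ^ C₅ * M₁ := ⟨_, rfl⟩
  have hM₂0 : 0 < M₂ := by rw [hM₂]; positivity
  have hM₂Y : M₂ ≤ Y / 2 ^ p := by
    rw [hM₂, hM₁, ← mul_div_assoc]
    exact div_le_div_of_nonneg_right y5 hp0.le
  have hΔ2 : ∀ ω, B₂ ω → ∀ b, NBx c (TH (slam F a ω)) gT (a + v) (F.t ω) r b →
      |eval b (Δ (slam F a ω))| ≤ M₂ := by
    intro ω hω b hb
    rw [hM₂]
    exact hbs (G := T (ptr F J ω)) (ψ := TH (slam F a ω)) hc' (hthin.degG _) (hthin.depG _)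
      (hthin.degH _) (hthin.depH _) (hΔp _) (hΔd _) hM₁0.le (fun j hj b hb =>
        hthin.agr ω (hBA2 ω hω) j hj b hb) (hΔ1 ω hω) b hb
  -- the natural components
  have hex : ∀ s : LnT F, ∃ (n0 : MvPolynomial (Option (Fin m)) ℝ)
      (nj : ℕ → MvPolynomial (Option (Fin m)) ℝ), n0.totalDegree ≤ D + r * D ∧
      (∀ j, (nj j).totalDegree ≤ D + r * D) ∧ ∀ b W : Option (Fin m) → ℝ, dd (Δ s) b W =
        eval b n0 * W none + ∑ j ∈ range r, eval b (nj j) *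
          (W (some (c j)) - dd (TH s j) b W) := fun s =>
    nat_cov D (hthin.degH s) (hthin.depH s) r hc' D (fun o => pderiv o (Δ s))
      (fun o => totalDegree_pdσ (hΔd s) o) (fun k hk b => pd_zero (hΔp s) hk b)
  choose n0 nj hn0 hnj hid using hex
  have hcmp : ∀ ω, B₂ ω → |eval (bt F ω) (n0 (slam F a ω))| ≤ Y ^ 3 / 2 ^ p * 2 ^ (a + v) ∧
      ∀ j < r, |eval (bt F ω) (nj (slam F a ω) j)| ≤ Y ^ 3 / 2 ^ p * 2 ^ gT j := by
    intro ω hω
    have hx2 : ∀ l < r, |bt F ω (some (c l)) - eval (bt F ω) (TH (slam F a ω) l)| ≤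
        1 / 2 ^ (gT l - 1) := by
      intro l hl
      have h1 := hthin.pos ω (hBA2 ω hω) l hl
      have h2 := hthin.agr ω (hBA2 ω hω) l hl _ (hthin.self (hBA2 ω hω) hl.le)
      have e1 : bt F ω (some (c l)) - eval (bt F ω) (TH (slam F a ω) l) =
          (F.x ω (c l) - eval (bt F ω) (T (ptr F J ω) l)) +
          (eval (bt F ω) (T (ptr F J ω) l) - eval (bt F ω) (TH (slam F a ω) l)) := by
        have : bt F ω (some (c l)) = F.x ω (c l) := rfl
        rw [this]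
        ring
      rw [e1]
      refine (abs_add_le _ _).trans ((add_le_add h1 h2).trans (le_of_eq ?_))
      have h3 := hgT l hl
      have e2 : (2 : ℝ) ^ gT l = 2 ^ (gT l - 1) * 2 := by
        rw [← pow_succ]
        congr 1
        omega
      rw [e2]
      field_simp
      norm_num
    have hbig : ∀ b, NBx c (TH (slam F a ω)) (fun l => gT l - 1) (a + v) (F.t ω) r b →
        |eval b (Δ (slam F a ω))| ≤ 2 ^ C₉ * M₂ := by
      intro b hb
      refine hdbl (Nat.lt_succ_self r) hc' (hthin.degH _) (hthin.depH _) (hΔp _) (hΔd _) hM₂0.le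
        (hΔ2 ω hω) b hb.1 fun l hl => (hb.2 l hl).trans ?_
      rw [div_le_div_iff₀ (by positivity) (by positivity), one_mul]
      have h3 := hgT l hl
      have e2 : (2 : ℝ) ^ gT l = 2 ^ (gT l - 1) * 2 := by
        rw [← pow_succ]
        congr 1
        omega
      rw [e2]
      have : (0 : ℝ) < 2 ^ (gT l - 1) := by positivity
      linarith
    have h1 := hcs (x := bt F ω) (g := fun l => gT l - 1) hc' (hthin.degH _) (hthin.depH _)
      (hΔp _) (hΔd _) (by positivity) hbig hx2 (hid _)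
    have h2 : C₆ * (2 ^ C₉ * M₂) ≤ Y ^ 3 / 2 ^ p := by
      calc C₆ * (2 ^ C₉ * M₂) ≤ Y * (Y * (Y / 2 ^ p)) :=
            mul_le_mul y6 (mul_le_mul y9 hM₂Y hM₂0.le hY0.le) (by positivity) hY0.le
        _ = _ := by ring
    refine ⟨h1.1.trans (mul_le_mul_of_nonneg_right h2 (by positivity)), fun j hj => ?_⟩
    refine (h1.2 j hj).trans (mul_le_mul h2 (pow_le_pow_right₀ (by norm_num) (Nat.sub_le _ _))
      (by positivity) (by positivity))
  -- on the window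
  obtain ⟨B₃, f1, f2, f3⟩ := hrn J F B₂ hB₂0 a (fun i s => if i = 0 then
      MvPolynomial.aeval (lc a s) (n0 s) else MvPolynomial.aeval (lc a s) (nj s (i - 1)))
    (fun i => if i = 0 then Y ^ 3 / 2 ^ p * 2 ^ (a + v) else Y ^ 3 / 2 ^ p * 2 ^ gT (i - 1)) θ haJ
    (fun i _ s => by
      show (if i = 0 then MvPolynomial.aeval (lc a s) (n0 s) else
        MvPolynomial.aeval (lc a s) (nj s (i - 1))).natDegree ≤ _
      split_ifs
      · exact Pool.KBX.natDegree_aeval_le _ _ (natDegree_lc a s) (hn0 s)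
      · exact Pool.KBX.natDegree_aeval_le _ _ (natDegree_lc a s) (hnj s _))
    (fun i _ => by
      show 0 < (if i = 0 then Y ^ 3 / 2 ^ p * 2 ^ (a + v) else Y ^ 3 / 2 ^ p * 2 ^ gT (i - 1))
      split_ifs <;> positivity) hθ (hTm B₂ hB₂0 hBA2 (by linarith))
    ((mul_le_mul_of_nonneg_right hC4 hθ1).trans hCJ) (fun ω hω i hi => by
      show |(if i = 0 then MvPolynomial.aeval (lc a (slam F a ω)) (n0 (slam F a ω)) else
        MvPolynomial.aeval (lc a (slam F a ω)) (nj (slam F a ω) (i - 1))).eval (rt F a ω)| ≤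
        (if i = 0 then Y ^ 3 / 2 ^ p * 2 ^ (a + v) else Y ^ 3 / 2 ^ p * 2 ^ gT (i - 1))
      split_ifs with h0
      · rw [aeval_lc, ptw_rt F haJ]
        exact (hcmp ω hω).1
      · rw [aeval_lc, ptw_rt F haJ]
        exact (hcmp ω hω).2 (i - 1) (by omega))
  have hBA3 : Sub B₃ A := fun ω hω => hBA2 ω (f1 ω hω)
  have hB31 : Sub B₃ B₁ := fun ω hω => d1 ω (f1 ω hω)
  have hY4 : ∀ x : ℝ, 0 ≤ x → 2 ^ k * (Y ^ 3 / 2 ^ p * x) ≤ Y ^ 4 / 2 ^ p * x := by
    intro x hx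
    calc 2 ^ k * (Y ^ 3 / 2 ^ p * x) ≤ Y * (Y ^ 3 / 2 ^ p * x) :=
          mul_le_mul_of_nonneg_right yk (by positivity)
      _ = _ := by ring
  have hw0 : ∀ ω, B₃ ω → ∀ τ ∈ Set.Icc (0 : ℝ) 1,
      |(MvPolynomial.aeval (lc a (slam F a ω)) (n0 (slam F a ω))).eval τ| ≤
        Y ^ 4 / 2 ^ p * 2 ^ (a + v) := by
    intro ω hω τ hτ
    have h1 := f3 ω hω 0 (by omega) τ hτ
    simp only [if_true] at h1
    exact h1.trans ((mul_le_mul_of_nonneg_right hexp4 (by positivity)).trans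
      (hY4 _ (by positivity)))
  have hwj : ∀ ω, B₃ ω → ∀ j < r, ∀ τ ∈ Set.Icc (0 : ℝ) 1,
      |(MvPolynomial.aeval (lc a (slam F a ω)) (nj (slam F a ω) j)).eval τ| ≤
        Y ^ 4 / 2 ^ p * 2 ^ gT j := by
    intro ω hω j hj τ hτ
    have h1 := f3 ω hω (j + 1) (by omega) τ hτ
    simp only [Nat.add_sub_cancel, if_neg (Nat.succ_ne_zero j)] at h1
    exact h1.trans ((mul_le_mul_of_nonneg_right hexp4 (by positivity)).trans
      (hY4 _ (by positivity)))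
  -- the velocities
  have hJ1 : ∀ l ≤ r, e + g₀ l + C₁ * (k + 1 + 1) ≤ J := by
    intro l hl
    refine le_trans (Nat.add_le_add_left ?_ _) (hJ l hl)
    have : C₁ * (k + 1 + 1) ≤ 2 * C₁ * (k + 1) := by nlinarith
    refine this.trans (Nat.mul_le_mul_right _ ?_)
    omega
  have hJ2 : ∀ l < r, e + gT l + C₁' * (k + 1 + 1) ≤ J := by
    intro l hl
    refine le_trans (Nat.add_le_add_left ?_ _) (hJT l hl)
    have : C₁' * (k + 1 + 1) ≤ 2 * C₁' * (k + 1) := by nlinarith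
    refine this.trans (Nat.mul_le_mul_right _ ?_)
    omega
  have hvel : ∀ ω ν, B₃ ω → B₃ ν → ptr F J ω = ptr F J ν → ∀ l ≤ r,
      |bd F ν (some (c l)) - dd (G₀ (ptr F J ω) l) (bt F ω) (bd F ν)| ≤ Y * 2 ^ a / 2 ^ g₀ l ∧
      |hs (G₀ (ptr F J ω) l) (bt F ω) (bd F ν) (bd F ν)| ≤ Y * (2 ^ a) ^ 2 / 2 ^ g₀ l := by
    intro ω ν hω hν hpt l hl
    have h1 := hpn (k := k + 1) hc haJ hball hJ1 ω ν (hBA3 ω hω) (hBA3 ν hν) hpt
      (hdv ν (hB31 ν hν)) l hl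
    exact ⟨h1.1.trans (div_le_div_of_nonneg_right (mul_le_mul_of_nonneg_right y1 (by positivity))
      (by positivity)), h1.2.trans (div_le_div_of_nonneg_right (mul_le_mul_of_nonneg_right y1
      (by positivity)) (by positivity))⟩
  have hvelT : ∀ ω ν, B₃ ω → B₃ ν → ptr F J ω = ptr F J ν → ∀ l < r,
      |bd F ν (some (c l)) - dd (T (ptr F J ω) l) (bt F ω) (bd F ν)| ≤
        Y * 2 ^ (a + v) / 2 ^ gT l ∧
      |hs (T (ptr F J ω) l) (bt F ω) (bd F ν) (bd F ν)| ≤ Y * (2 ^ (a + v)) ^ 2 / 2 ^ gT l := by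
    intro ω ν hω hν hpt l hl
    have h1 := hpv (k := k + 1) hc' haJ hthin hJ2 ω ν (hBA3 ω hω) (hBA3 ν hν) hpt
      (hdvT ν (hB31 ν hν)) l hl
    exact ⟨h1.1.trans (div_le_div_of_nonneg_right (mul_le_mul_of_nonneg_right y1' (by positivity))
      (by positivity)), h1.2.trans (div_le_div_of_nonneg_right (mul_le_mul_of_nonneg_right y1'
      (by positivity)) (by positivity))⟩
  have hU1 : ∀ x : ℝ, 0 ≤ x → Y * x ≤ U * x := fun x hx =>
    mul_le_mul_of_nonneg_right ((pow_one Y).symm.le.trans (hYn 1 (by norm_num))) hx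
  have hUn : ∀ (n : ℕ) (x : ℝ), n ≤ 10 → 0 ≤ x → Y ^ n * x ≤ U * x := fun n x hn hx =>
    mul_le_mul_of_nonneg_right (hYn n hn) hx
  refine ⟨B₃, hBA3, by linarith, ⟨?_, ?_, ?_, ?_, ?_, ?_, ?_, ?_, ?_, ?_⟩⟩
  · -- own
    intro ω hω l hl τ hτ
    refine (hdv ω (hB31 ω hω) l hl τ hτ).trans (div_le_div_of_nonneg_right ?_ (by positivity))
    exact yk1.trans ((pow_one Y).symm.le.trans (hYn 1 (by norm_num)))
  · -- ownT
    intro ω hω l hl τ hτ
    refine (hdvT ω (hB31 ω hω) l hl τ hτ).trans (div_le_div_of_nonneg_right ?_ (by positivity))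
    exact yk1.trans ((pow_one Y).symm.le.trans (hYn 1 (by norm_num)))
  · -- vel
    intro ω ν hω hν hpt l hl
    exact (hvel ω ν hω hν hpt l hl).1.trans (div_le_div_of_nonneg_right (hU1 _ (by positivity))
      (by positivity))
  · -- nul
    intro ω ν hω hν hpt l hl
    exact (hvel ω ν hω hν hpt l hl).2.trans (div_le_div_of_nonneg_right (hU1 _ (by positivity))
      (by positivity))
  · -- velT
    intro ω ν hω hν hpt l hl
    have h1 := (hvelT ω ν hω hν hpt l hl).1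
    have h2 := (hbl l (c := c) (ψ := T (ptr F J ω)) (Q := T (ptr F J ω) l - TH (slam F a ω) l)
      (g := gT) (a := a + v) (M := 1 / 2 ^ gT l) (x := bt F ω)
      (hc'.mono fun x hx => by rw [Set.mem_Iio] at hx ⊢; omega) (hthin.degG _) (hthin.depG _)
      (fun b b' h3 h4 => by
        rw [map_sub, map_sub, hthin.depG _ l b b' h3 h4, hthin.depH _ l b b' h3 h4])
      ((totalDegree_sub _ _).trans (max_le (hthin.degG _ l) (hthin.degH _ l))) (by positivity)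
      (fun b hb => by
        rw [map_sub]
        exact hthin.agr ω (hBA3 ω hω) l hl b hb)
      (fun j hj => hthin.pos ω (hBA3 ω hω) j (hj.trans hl))).1 (bd F ν)
    have h3 : nrm c (T (ptr F J ω)) gT (a + v) l (bt F ω) (bd F ν) ≤
        (l + 1) * (Y * 2 ^ (a + v)) := by
      refine nrm_le ?_ fun j hj => (hvelT ω ν hω hν hpt j (hj.trans hl)).1
      have : bd F ν none = 1 := rfl
      rw [this, abs_one, mul_div_assoc, div_self (by positivity), mul_one]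
      exact hY1
    have hl1 : (l : ℝ) + 1 ≤ Y := by
      have : (l : ℝ) ≤ r := by exact_mod_cast hl.le
      linarith
    have h4 : Cb l * (1 / 2 ^ gT l) * nrm c (T (ptr F J ω)) gT (a + v) l (bt F ω) (bd F ν) ≤
        Y ^ 3 * 2 ^ (a + v) / 2 ^ gT l := by
      calc _ ≤ Y * (1 / 2 ^ gT l) * (Y * (Y * 2 ^ (a + v))) := by
            refine mul_le_mul (mul_le_mul_of_nonneg_right ((hCbl l hl.le).trans y2')
              (by positivity)) (h3.trans (mul_le_mul_of_nonneg_right hl1 (by positivity)))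
              (nrm_nonneg _ _ _ _ _ _ _) (by positivity)
        _ = _ := by ring
    rw [dd_sub] at h2
    have e1 : bd F ν (some (c l)) - dd (TH (slam F a ω) l) (bt F ω) (bd F ν) =
        (bd F ν (some (c l)) - dd (T (ptr F J ω) l) (bt F ω) (bd F ν)) +
        (dd (T (ptr F J ω) l) (bt F ω) (bd F ν) - dd (TH (slam F a ω) l) (bt F ω) (bd F ν)) := by
      ring
    rw [e1]
    refine (abs_add_le _ _).trans ((add_le_add h1 (h2.trans h4)).trans ?_)
    rw [← add_div, ← add_mul]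
    refine div_le_div_of_nonneg_right (mul_le_mul_of_nonneg_right ?_ (by positivity))
      (by positivity)
    refine le_trans ?_ (hYn 4 (by norm_num))
    have h5 : Y ≤ Y ^ 3 := by
      calc Y = Y ^ 1 := (pow_one Y).symm
        _ ≤ _ := hYm 1 3 (by norm_num)
    have h6 : 2 * Y ^ 3 ≤ Y ^ 4 := by
      have e2 : Y ^ 4 = Y * Y ^ 3 := by ring
      rw [e2]
      exact mul_le_mul_of_nonneg_right hY2 (by positivity)
    linarith
  · -- nulT
    intro ω ν hω hν hpt l hl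
    exact (hvelT ω ν hω hν hpt l hl).2.trans (div_le_div_of_nonneg_right (hU1 _ (by positivity))
      (by positivity))
  · -- box
    intro ω hω b hb
    have h1 := d3 ω (f1 ω hω) b hb
    have h2 := hagr ω (hBA3 ω hω) b hb
    rw [map_sub] at h1
    have e0 : Gno (c r) J J (fun y => G₀ y r) (ptr F J ω) = Gr (ptr F J ω) := by rw [hGr]
    rw [e0]
    have e1 : eval b (Ht (slam F w ω)) - eval b (Gr (ptr F J ω)) =
        (eval b (Gt (ptr F J ω)) - eval b (Gr (ptr F J ω))) -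
        (eval b (Gt (ptr F J ω)) - eval b (Ht (slam F w ω))) := by ring
    rw [e1]
    refine (abs_sub _ _).trans ((add_le_add h1 h2).trans ?_)
    have e2 : 2 ^ h * (2 / (2 : ℝ) ^ p) + 1 / 2 ^ p = (2 * 2 ^ h + 1) / 2 ^ p := by ring
    rw [e2]
    refine div_le_div_of_nonneg_right ?_ hp0.le
    have h3 : (2 : ℝ) ^ (h + 3) = 8 * 2 ^ h := by rw [pow_add]; ring
    have h4 := yh.trans ((pow_one Y).symm.le.trans (hYn 1 (by norm_num)))
    linarith
  · -- win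
    intro ω hω τ hτ V
    have e0 : Hno (c r) (fun s => H₀ s r) (slam F a ω) = Hr (slam F a ω) := by rw [hHr]
    rw [e0, ← hΔω, hid]
    have h1 := hw0 ω hω τ hτ
    rw [aeval_lc] at h1
    have h2 : ∀ j ∈ range r, |eval (ptw F a ω τ) (nj (slam F a ω) j) * (V (some (c j)) -
        dd (TH (slam F a ω) j) (ptw F a ω τ) V)| ≤ Y ^ 4 / 2 ^ p * (2 ^ gT j *
          |V (some (c j)) - dd (TH (slam F a ω) j) (ptw F a ω τ) V|) := by
      intro j hj
      have h3 := hwj ω hω j (Finset.mem_range.1 hj) τ hτ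
      rw [aeval_lc] at h3
      rw [abs_mul, ← mul_assoc]
      exact mul_le_mul_of_nonneg_right h3 (abs_nonneg _)
    have h3 : |eval (ptw F a ω τ) (n0 (slam F a ω)) * V none| ≤
        Y ^ 4 / 2 ^ p * (2 ^ (a + v) * |V none|) := by
      rw [abs_mul, ← mul_assoc]
      exact mul_le_mul_of_nonneg_right h1 (abs_nonneg _)
    refine (abs_add_le _ _).trans ((add_le_add h3 ((Finset.abs_sum_le_sum_abs _ _).trans
      (Finset.sum_le_sum h2))).trans ?_)
    rw [← Finset.mul_sum, ← mul_add]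
    exact mul_le_mul_of_nonneg_right (div_le_div_of_nonneg_right (hYn 4 (by norm_num)) hp0.le)
      (nrm_nonneg c (TH (slam F a ω)) gT (a + v) r (ptw F a ω τ) V)
  · -- hsw
    intro ω hω τ hτ V Z
    have e0 : Hno (c r) (fun s => H₀ s r) (slam F a ω) = Hr (slam F a ω) := by rw [hHr]
    rw [e0, ← hΔω, hid]
    have hτ1 : |τ| ≤ 1 := by
      rw [abs_of_nonneg hτ.1]
      exact hτ.2
    obtain ⟨x, hx⟩ : ∃ x, x = ptw F a ω τ := ⟨_, rfl⟩
    obtain ⟨S, hS⟩ : ∃ S, S = slam F a ω := ⟨_, rfl⟩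
    rw [← hx, ← hS]
    have hw0' := hw0 ω hω
    have hwj' := hwj ω hω
    have ha0 : (0 : ℝ) < 2 ^ a := by positivity
    have ht0 : |dd (n0 S) x (bd F ω)| ≤ Y ^ 5 / 2 ^ p * (2 ^ a * 2 ^ (a + v)) := by
      have h1 := hder _ _ (Pool.KBX.natDegree_aeval_le _ _ (natDegree_lc a _) (hn0 (slam F a ω)))
        hw0' τ hτ1
      rw [dd_line, abs_mul, abs_of_pos (show (0 : ℝ) < 1 / 2 ^ a by positivity), ← hx, ← hS,
        one_div_mul_eq_div, div_le_iff₀ ha0] at h1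
      refine h1.trans ?_
      calc C₈ * (Y ^ 4 / 2 ^ p * 2 ^ (a + v)) * 2 ^ a ≤
            Y * (Y ^ 4 / 2 ^ p * 2 ^ (a + v)) * 2 ^ a :=
            mul_le_mul_of_nonneg_right (mul_le_mul_of_nonneg_right y8 (by positivity)) ha0.le
        _ = _ := by ring
    have htj : ∀ j < r, |dd (nj S j) x (bd F ω)| ≤ Y ^ 5 / 2 ^ p * (2 ^ a * 2 ^ gT j) := by
      intro j hj
      have h1 := hder _ _ (Pool.KBX.natDegree_aeval_le _ _ (natDegree_lc a _)
        (hnj (slam F a ω) j)) (hwj' j hj) τ hτ1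
      rw [dd_line, abs_mul, abs_of_pos (show (0 : ℝ) < 1 / 2 ^ a by positivity), ← hx, ← hS,
        one_div_mul_eq_div, div_le_iff₀ ha0] at h1
      refine h1.trans ?_
      calc C₈ * (Y ^ 4 / 2 ^ p * 2 ^ gT j) * 2 ^ a ≤
            Y * (Y ^ 4 / 2 ^ p * 2 ^ gT j) * 2 ^ a :=
            mul_le_mul_of_nonneg_right (mul_le_mul_of_nonneg_right y8 (by positivity)) ha0.le
        _ = _ := by ring
    have hv0 : |eval x (n0 S)| ≤ Y ^ 5 / 2 ^ p * 2 ^ (a + v) := by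
      have h1 := hw0' τ hτ
      rw [aeval_lc, ← hx, ← hS] at h1
      exact h1.trans (mul_le_mul_of_nonneg_right (div_le_div_of_nonneg_right
        (hYm 4 5 (by norm_num)) hp0.le) (by positivity))
    have hvj : ∀ j < r, |eval x (nj S j)| ≤ Y ^ 5 / 2 ^ p * 2 ^ gT j := by
      intro j hj
      have h1 := hwj' j hj τ hτ
      rw [aeval_lc, ← hx, ← hS] at h1
      exact h1.trans (mul_le_mul_of_nonneg_right (div_le_div_of_nonneg_right
        (hYm 4 5 (by norm_num)) hp0.le) (by positivity))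
    rw [hess_id (hid S) x (bd F ω) V]
    have e1 : dd (n0 S) x (bd F ω) * V none + ∑ j ∈ range r,
        (dd (nj S j) x (bd F ω) * (V (some (c j)) - dd (TH S j) x V) -
          eval x (nj S j) * hs (TH S j) x (bd F ω) V) +
        (eval x (n0 S) * Z none + ∑ j ∈ range r, eval x (nj S j) *
          (Z (some (c j)) - dd (TH S j) x Z)) =
        (dd (n0 S) x (bd F ω) * V none + ∑ j ∈ range r,
          dd (nj S j) x (bd F ω) * (V (some (c j)) - dd (TH S j) x V)) +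
        (eval x (n0 S) * Z none + ∑ j ∈ range r, eval x (nj S j) *
          (Z (some (c j)) - dd (TH S j) x Z - hs (TH S j) x (bd F ω) V)) := by
      have e2 : ∑ j ∈ range r, (dd (nj S j) x (bd F ω) * (V (some (c j)) - dd (TH S j) x V) -
          eval x (nj S j) * hs (TH S j) x (bd F ω) V) = ∑ j ∈ range r,
          dd (nj S j) x (bd F ω) * (V (some (c j)) - dd (TH S j) x V) -
          ∑ j ∈ range r, eval x (nj S j) * hs (TH S j) x (bd F ω) V := Finset.sum_sub_distrib _ _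
      have e3 : ∑ j ∈ range r, eval x (nj S j) *
          (Z (some (c j)) - dd (TH S j) x Z - hs (TH S j) x (bd F ω) V) = ∑ j ∈ range r,
          eval x (nj S j) * (Z (some (c j)) - dd (TH S j) x Z) -
          ∑ j ∈ range r, eval x (nj S j) * hs (TH S j) x (bd F ω) V := by
        rw [← Finset.sum_sub_distrib]
        refine Finset.sum_congr rfl fun j _ => ?_
        ring
      rw [e2, e3]
      ring
    rw [e1]
    have k1 : |dd (n0 S) x (bd F ω) * V none + ∑ j ∈ range r,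
        dd (nj S j) x (bd F ω) * (V (some (c j)) - dd (TH S j) x V)| ≤
        Y ^ 5 / 2 ^ p * (2 ^ a * nrm c (TH S) gT (a + v) r x V) := by
      unfold nrm
      rw [mul_add, mul_add, Finset.mul_sum, Finset.mul_sum]
      refine (abs_add_le _ _).trans (add_le_add ?_ ((Finset.abs_sum_le_sum_abs _ _).trans
        (Finset.sum_le_sum fun j hj => ?_)))
      · rw [abs_mul]
        refine (mul_le_mul_of_nonneg_right ht0 (abs_nonneg _)).trans (le_of_eq ?_)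
        ring
      · rw [abs_mul]
        refine (mul_le_mul_of_nonneg_right (htj j (Finset.mem_range.1 hj))
          (abs_nonneg _)).trans (le_of_eq ?_)
        ring
    have k2 : |eval x (n0 S) * Z none + ∑ j ∈ range r, eval x (nj S j) *
        (Z (some (c j)) - dd (TH S j) x Z - hs (TH S j) x (bd F ω) V)| ≤
        Y ^ 5 / 2 ^ p * nrz c (TH S) gT (a + v) r x (bd F ω) V Z := by
      unfold nrz
      rw [mul_add, Finset.mul_sum]
      refine (abs_add_le _ _).trans (add_le_add ?_ ((Finset.abs_sum_le_sum_abs _ _).trans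
        (Finset.sum_le_sum fun j hj => ?_)))
      · rw [abs_mul]
        refine (mul_le_mul_of_nonneg_right hv0 (abs_nonneg _)).trans (le_of_eq ?_)
        ring
      · rw [abs_mul]
        refine (mul_le_mul_of_nonneg_right (hvj j (Finset.mem_range.1 hj))
          (abs_nonneg _)).trans (le_of_eq ?_)
        ring
    refine (abs_add_le _ _).trans ((add_le_add k1 k2).trans ?_)
    rw [← mul_add]
    exact mul_le_mul_of_nonneg_right (div_le_div_of_nonneg_right (hYn 5 (by norm_num)) hp0.le)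
      (add_nonneg (mul_nonneg ha0.le (nrm_nonneg _ _ _ _ _ _ _)) (nrz_nonneg _ _ _ _ _ _ _ _ _))
  · -- dif
    intro ω hω l hl
    have hg0 : (0 : ℝ) < 2 ^ g₀ l := by positivity
    have h1 := hbl l (c := c) (ψ := G₀ (ptr F J ω))
      (Q := Hno (c l) (fun s => H₀ s l) (slam F a ω) - G₀ (ptr F J ω) l) (g := g₀) (a := a)
      (M := C₇ * 2 ^ (k + 1) / 2 ^ g₀ l) (x := bt F ω)
      (hc.mono fun x hx => by rw [Set.mem_Iio] at hx ⊢; omega) (hball.degG _) (hball.depG _)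
      (fun b b' h3 h4 => by
        rw [map_sub, map_sub, hball.depG _ l b b' h3 h4,
          depC_Hno _ _ _ (hball.depH _ l) b b' h3 h4])
      ((totalDegree_sub _ _).trans (max_le (deg_Hno _ _ _ hD (hball.degH _ l))
        (hball.degG _ l))) (by positivity)
      (fun b hb => by
        rw [map_sub]
        exact hdb haJ hball ω (hBA3 ω hω) l hl (hdv ω (hB31 ω hω) l hl) b hb)
      (fun j hj => hball.pos ω (hBA3 ω hω) j (by omega))
    have h2 : Cb l * (C₇ * 2 ^ (k + 1) / 2 ^ g₀ l) ≤ U / 2 ^ g₀ l := by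
      rw [mul_div_assoc', div_le_div_iff_of_pos_right hg0]
      refine le_trans ?_ (hYn 3 (by norm_num))
      calc Cb l * (C₇ * 2 ^ (k + 1)) ≤ Y * (Y * Y) :=
            mul_le_mul ((hCbl l hl).trans y2') (mul_le_mul y7 yk1 (by positivity) hY0.le)
              (by positivity) hY0.le
        _ = _ := by ring
    refine ⟨fun V => (h1.1 V).trans (mul_le_mul_of_nonneg_right h2 (nrm_nonneg _ _ _ _ _ _ _)),
      fun V V' Z => (h1.2 V V' Z).trans (mul_le_mul_of_nonneg_right h2 ?_)⟩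
    exact add_nonneg (mul_nonneg (nrm_nonneg _ _ _ _ _ _ _) (nrm_nonneg _ _ _ _ _ _ _))
      (nrz_nonneg _ _ _ _ _ _ _ _ _)

end Pool.D2R
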