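import Pool.Agent.H23.D2.Shf
import Pool.Agent.H23.D2.Gen

/-!
# A closed and visible gradient gives a label

`con_lab`: the target `c i` has a polynomial `Ht` which is closed on the window `w`, contains the
own line, is near the ball chart of the window `w`, and whose spatial gradient at the exact point
agrees with the gradient of a chart `Gp` of the exact point which contains the directions of all
lines through this point. Then the target has a two-sided label on the thin boxes; its gain is the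
precision of the agreement of the gradients, up to the term of second order.
-/

set_option autoImplicit false

namespace Pool.D2R

open Finset Real MvPolynomial
open Pool.Agent.H49.Ent Pool.Agent.H32.Dense Pool.STK Pool.KA Pool.KSAT Pool.K2S Pool.PB Pool.S6C
open Pool.GEN Pool.CHT Pool.CHX Pool.ISO

variable {m J : ℕ}

/-- **The data.** `ball`: the closed ball chart of the window `w`, re-centred at the radius `a₁`;
`inc`: the thin boxes are inside its natural boxes, by the factor `2 ^ (-n)`; `own`, `ownv`: the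
own line; `big`: `Ht` is near the ball chart; `nat`: natural velocities of the lines through the
exact point; `vel`: they are on the chart `Gp`; `spa`: the spatial gradients of `Ht` and of `Gp`
at the own exact point agree; `shf`: the spatial gradient of `Gp` at two points of one cell. -/
structure ConD (F : Fam m J) (c : ℕ → Fin m) (i D w a₁ a n N e : ℕ) (g gT : ℕ → ℕ) (ε₁ ε₂ : ℝ)
    (B : F.Ω → Prop) (G : PtT F → ℕ → MvPolynomial (Option (Fin m)) ℝ)
    (H : LnT F → ℕ → MvPolynomial (Option (Fin m)) ℝ)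
    (T : PtT F → ℕ → MvPolynomial (Option (Fin m)) ℝ)
    (Gp : PtT F → MvPolynomial (Option (Fin m)) ℝ)
    (Ht : LnT F → MvPolynomial (Option (Fin m)) ℝ) : Prop where
  ball : ChOK F c (i + 1) (fun _ => D) a₁ w e g B G H
  dH : ∀ s, (Ht s).totalDegree ≤ D
  pH : ∀ s, DepC c i (Ht s)
  thp : ∀ ω, B ω → ∀ l < i, |F.x ω (c l) - eval (bt F ω) (T (ptr F J ω) l)| ≤ 1 / 2 ^ gT l
  inc : ∀ ω, B ω → ∀ b, NBx c (T (ptr F J ω)) gT a (F.t ω) i b →
    |b none - F.t ω| ≤ 1 / 2 ^ (a₁ + n) ∧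
    ∀ l < i, |b (some (c l)) - eval b (G (ptr F J ω) l)| ≤ 1 / 2 ^ (g l + n)
  own : ∀ ω, B ω → eval (bt F ω) (Ht (slam F w ω)) = F.x ω (c i)
  ownv : ∀ ω, B ω → dd (Ht (slam F w ω)) (bt F ω) (bd F ω) = bd F ω (some (c i))
  big : ∀ ω, B ω → ∀ b, NBx c (G (ptr F J ω)) g a₁ (F.t ω) i b →
    |eval b (Ht (slam F w ω)) - eval b (G (ptr F J ω) i)| ≤ 2 ^ N / 2 ^ g i
  nat : ∀ ω ν, B ω → B ν → ptr F J ω = ptr F J ν → ∀ l < i,
    |bd F ν (some (c l)) - dd (G (ptr F J ω) l) (bt F ω) (bd F ν)| ≤ 2 ^ N * 2 ^ a₁ / 2 ^ g l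
  vel : ∀ ω ν, B ω → B ν → ptr F J ω = ptr F J ν →
    |bd F ν (some (c i)) - dd (Gp (ptr F J ω)) (bt F ω) (bd F ν)| ≤ ε₂
  spa : ∀ ω, B ω → ∀ V : Option (Fin m) → ℝ, V none = 0 →
    |dd (Ht (slam F w ω)) (bt F ω) V - dd (Gp (ptr F J ω)) (bt F ω) V| ≤
      ε₁ * nrm c (G (ptr F J ω)) g a₁ i (bt F ω) V
  shf : ∀ ω ν, B ω → B ν → ptr F J ω = ptr F J ν → ∀ V : Option (Fin m) → ℝ, V none = 0 →
    |dd (Gp (ptr F J ω)) (bt F ν) V - dd (Gp (ptr F J ω)) (bt F ω) V| ≤
      ε₁ * nrm c (G (ptr F J ω)) g a₁ i (bt F ω) V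

/-- The natural norm is subadditive. -/
theorem nrm_add (c : ℕ → Fin m) (ψ : ℕ → MvPolynomial (Option (Fin m)) ℝ) (g : ℕ → ℕ)
    (a r : ℕ) (x V W : Option (Fin m) → ℝ) :
    nrm c ψ g a r x (V + W) ≤ nrm c ψ g a r x V + nrm c ψ g a r x W := by
  unfold nrm
  have h1 : 2 ^ a * |(V + W) none| ≤ 2 ^ a * |V none| + 2 ^ a * |W none| := by
    rw [← mul_add, Pi.add_apply]
    exact mul_le_mul_of_nonneg_left (abs_add_le _ _) (by positivity)
  have h2 : ∑ l ∈ range r, 2 ^ g l * |(V + W) (some (c l)) - dd (ψ l) x (V + W)| ≤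
      ∑ l ∈ range r, 2 ^ g l * |V (some (c l)) - dd (ψ l) x V| +
        ∑ l ∈ range r, 2 ^ g l * |W (some (c l)) - dd (ψ l) x W| := by
    rw [← Finset.sum_add_distrib]
    refine Finset.sum_le_sum fun l _ => ?_
    rw [← mul_add, dd_add, Pi.add_apply]
    refine mul_le_mul_of_nonneg_left ?_ (by positivity)
    have e1 : V (some (c l)) + W (some (c l)) - (dd (ψ l) x V + dd (ψ l) x W) =
        (V (some (c l)) - dd (ψ l) x V) + (W (some (c l)) - dd (ψ l) x W) := by ring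
    rw [e1]
    exact abs_add_le _ _
  linarith

theorem nrm_smul (c : ℕ → Fin m) (ψ : ℕ → MvPolynomial (Option (Fin m)) ℝ) (g : ℕ → ℕ)
    (a r : ℕ) (x V : Option (Fin m) → ℝ) (s : ℝ) :
    nrm c ψ g a r x (s • V) = |s| * nrm c ψ g a r x V := by
  unfold nrm
  rw [mul_add, Pi.smul_apply, smul_eq_mul, abs_mul, Finset.mul_sum]
  congr 1
  · ring
  · refine Finset.sum_congr rfl fun l _ => ?_
    rw [dd_smul, Pi.smul_apply, smul_eq_mul, ← mul_sub, abs_mul]
    ring

/-- The natural norm of the direction of a coordinate. -/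
theorem nrm_unit {c : ℕ → Fin m} {ψ : ℕ → MvPolynomial (Option (Fin m)) ℝ} {g : ℕ → ℕ}
    {a r e l : ℕ} {x : Option (Fin m) → ℝ} (hc : Set.InjOn c (Set.Iio r))
    (hdep : ∀ l, DepC c l (ψ l)) (hl : l < r)
    (hlip : ∀ k < r, ∀ j < k, |eval x (pderiv (some (c j)) (ψ k))| ≤ 2 ^ (e + nlp g j k)) :
    nrm c ψ g a r x (Pi.single (some (c l)) 1) ≤ r * 2 ^ (e + (Finset.Icc l r).sup g) := by
  classical
  have hdd : ∀ Q : MvPolynomial (Option (Fin m)) ℝ, dd Q x (Pi.single (some (c l)) 1) =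
      eval x (pderiv (some (c l)) Q) := by
    intro Q
    unfold dd
    rw [Finset.sum_eq_single (some (c l))]
    · rw [Pi.single_eq_same, mul_one]
    · intro o _ ho
      rw [Pi.single_eq_of_ne ho, mul_zero]
    · intro h
      exact absurd (Finset.mem_univ _) h
  have hsup : ∀ k, l ≤ k → k ≤ r → (Finset.Icc l k).sup g ≤ (Finset.Icc l r).sup g :=
    fun k _ h2 => Finset.sup_mono (Finset.Icc_subset_Icc le_rfl h2)
  unfold nrm
  have h0 : (Pi.single (some (c l)) (1 : ℝ) : Option (Fin m) → ℝ) none = 0 :=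
    Pi.single_eq_of_ne (by simp) _
  rw [h0, abs_zero, mul_zero, zero_add]
  calc ∑ k ∈ range r, 2 ^ g k * |(Pi.single (some (c l)) (1 : ℝ) : Option (Fin m) → ℝ)
        (some (c k)) - dd (ψ k) x (Pi.single (some (c l)) 1)| ≤
        ∑ _k ∈ range r, (2 : ℝ) ^ (e + (Finset.Icc l r).sup g) := by
        refine Finset.sum_le_sum fun k hk => ?_
        rw [Finset.mem_range] at hk
        rw [hdd]
        rcases lt_trichotomy k l with h | h | h
        · have h1 : (Pi.single (some (c l)) (1 : ℝ) : Option (Fin m) → ℝ) (some (c k)) = 0 := by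
            refine Pi.single_eq_of_ne (fun h2 => ?_) _
            have h3 := hc (Set.mem_Iio.2 hk) (Set.mem_Iio.2 hl) (Option.some_injective _ h2)
            omega
          have h2 : eval x (pderiv (some (c l)) (ψ k)) = 0 := by
            refine pd_zero (hdep k) (fun j hj h2 => ?_) x
            have h3 := hc (Set.mem_Iio.2 (by omega)) (Set.mem_Iio.2 hl) h2
            omega
          rw [h1, h2, sub_zero, abs_zero, mul_zero]
          positivity
        · subst h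
          have h2 : eval x (pderiv (some (c k)) (ψ k)) = 0 := by
            refine pd_zero (hdep k) (fun j hj h2 => ?_) x
            have h3 := hc (Set.mem_Iio.2 (by omega)) (Set.mem_Iio.2 hk) h2
            omega
          rw [Pi.single_eq_same, h2, sub_zero, abs_one, mul_one]
          refine pow_le_pow_right₀ (by norm_num) ?_
          have h3 : g k ≤ (Finset.Icc k r).sup g :=
            Finset.le_sup (f := g) (Finset.mem_Icc.2 ⟨le_rfl, hl.le⟩)
          omega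
        · have h1 : (Pi.single (some (c l)) (1 : ℝ) : Option (Fin m) → ℝ) (some (c k)) = 0 := by
            refine Pi.single_eq_of_ne (fun h2 => ?_) _
            have h3 := hc (Set.mem_Iio.2 hk) (Set.mem_Iio.2 hl) (Option.some_injective _ h2)
            omega
          rw [h1, zero_sub, abs_neg]
          calc (2 : ℝ) ^ g k * |eval x (pderiv (some (c l)) (ψ k))| ≤
                2 ^ g k * 2 ^ (e + nlp g l k) :=
                mul_le_mul_of_nonneg_left (hlip k hk l h) (by positivity)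
            _ = 2 ^ (g k + (e + nlp g l k)) := by rw [← pow_add]
            _ ≤ _ := by
              refine pow_le_pow_right₀ (by norm_num) ?_
              have h3 := hsup k h.le hk.le
              have h4 : g k ≤ (Finset.Icc l k).sup g :=
                Finset.le_sup (f := g) (Finset.mem_Icc.2 ⟨h.le, le_rfl⟩)
              unfold nlp
              omega
    _ = _ := by rw [Finset.sum_const, Finset.card_range, nsmul_eq_mul]

/-- **A closed and visible gradient gives a label.** -/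
theorem con_lab (m D i : ℕ) : ∃ C : ℕ, 1 ≤ C ∧ ∀ {J : ℕ} {F : Fam m J} {c : ℕ → Fin m}
    {w a₁ a n N e : ℕ} {g gT : ℕ → ℕ} {ε₁ ε₂ : ℝ} {B : F.Ω → Prop}
    {G : PtT F → ℕ → MvPolynomial (Option (Fin m)) ℝ}
    {H : LnT F → ℕ → MvPolynomial (Option (Fin m)) ℝ}
    {T : PtT F → ℕ → MvPolynomial (Option (Fin m)) ℝ}
    {Gp : PtT F → MvPolynomial (Option (Fin m)) ℝ}
    {Ht : LnT F → MvPolynomial (Option (Fin m)) ℝ},
    Set.InjOn c (Set.Iio (i + 1)) → 2 ≤ n → 0 ≤ ε₁ → 0 ≤ ε₂ →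
    (∀ l < i + 1, e + g l + 2 * n + C ≤ J) →
    ConD F c i D w a₁ a n N e g gT ε₁ ε₂ B G H T Gp Ht →
    ∃ Gt : PtT F → MvPolynomial (Option (Fin m)) ℝ, (∀ y, (Gt y).totalDegree ≤ D) ∧
      (∀ y, DepC c i (Gt y)) ∧ ∀ ω, B ω →
      |F.x ω (c i) - eval (bt F ω) (Gt (ptr F J ω))| ≤
        2 ^ C * (2 ^ N * ε₁ / 2 ^ n + ε₂ / 2 ^ (a₁ + n) + (2 ^ N) ^ 2 / 2 ^ (g i + 2 * n)) ∧
      (∀ b, NBx c (T (ptr F J ω)) gT a (F.t ω) i b →
        |eval b (Gt (ptr F J ω)) - eval b (Ht (slam F w ω))| ≤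
          2 ^ C * (2 ^ N * ε₁ / 2 ^ n + ε₂ / 2 ^ (a₁ + n) + (2 ^ N) ^ 2 / 2 ^ (g i + 2 * n))) ∧
      ∀ b, NBx c (T (ptr F J ω)) gT a (F.t ω) i b → ∀ l < i,
        |eval b (pderiv (some (c l)) (Gt (ptr F J ω)))| ≤ 2 ^ (C + N + e + nlp g l i) := by
  classical
  obtain ⟨C₁, hshf⟩ := shf_pol m D i
  obtain ⟨Cb, hCb, hbox⟩ := box_all i D D
  obtain ⟨Ct, hCt, htay⟩ := box_tay i D D
  obtain ⟨C₂, hC₂⟩ := pow_unbounded_of_one_lt (Cb * (i + 1) + Ct * 2 + 4 * (i + 3) ^ 3)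
    (one_lt_two (α := ℝ))
  have hi0 : (0 : ℝ) ≤ i := Nat.cast_nonneg i
  obtain ⟨C, hC⟩ : ∃ C : ℕ, C = 2 * C₁ + 4 * C₂ + 8 := ⟨_, rfl⟩
  refine ⟨C, by omega, ?_⟩
  intro J F c w a₁ a n N e g gT ε₁ ε₂ B G H T Gp Ht hc hn hε₁ hε₂ hJ hD
  have hc' : Set.InjOn c (Set.Iio i) := hc.mono fun y hy => by
    rw [Set.mem_Iio] at hy ⊢
    omega
  have hN1 : (1 : ℝ) ≤ 2 ^ N := one_le_pow₀ (by norm_num)
  -- the representatives
  obtain ⟨Gt, hGt⟩ : ∃ Gt : PtT F → MvPolynomial (Option (Fin m)) ℝ, Gt = fun y =>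
      if h : ∃ ν, B ν ∧ ptr F J ν = y then Ht (slam F w h.choose) else 0 := ⟨_, rfl⟩
  have hrep : ∀ ω, B ω → ∃ ν, B ν ∧ ptr F J ω = ptr F J ν ∧
      Gt (ptr F J ω) = Ht (slam F w ν) := by
    intro ω hω
    have h : ∃ ν, B ν ∧ ptr F J ν = ptr F J ω := ⟨ω, hω, rfl⟩
    refine ⟨h.choose, h.choose_spec.1, h.choose_spec.2.symm, ?_⟩
    rw [hGt]
    exact dif_pos h
  refine ⟨Gt, fun y => ?_, fun y => ?_, fun ω hω => ?_⟩
  · rw [hGt]
    show (if h : ∃ ν, B ν ∧ ptr F J ν = y then Ht (slam F w h.choose) else 0).totalDegree ≤ D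
    split_ifs with h
    · exact hD.dH _
    · rw [totalDegree_zero]
      exact Nat.zero_le _
  · rw [hGt]
    show DepC c i (if h : ∃ ν, B ν ∧ ptr F J ν = y then Ht (slam F w h.choose) else 0)
    split_ifs with h
    · exact hD.pH _
    · intro b b' _ _
      rw [map_zero, map_zero]
  obtain ⟨ν, hν, hpt, hGν⟩ := hrep ω hω
  rw [hGν]
  obtain ⟨hT, ht, hxx⟩ := bt_near hpt
  have htt : F.t ν = F.t ω := ht.symm
  obtain ⟨ψ, hψ⟩ : ∃ ψ, ψ = G (ptr F J ω) := ⟨_, rfl⟩
  have hψν : G (ptr F J ν) = ψ := by rw [hψ, hpt]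
  have hψd : ∀ l, (ψ l).totalDegree ≤ D := fun l => by rw [hψ]; exact hD.ball.degG _ l
  have hψp : ∀ l, DepC c l (ψ l) := fun l => by rw [hψ]; exact hD.ball.depG _ l
  obtain ⟨x, hx⟩ : ∃ x, x = bt F ω := ⟨_, rfl⟩
  obtain ⟨x', hx'⟩ : ∃ x', x' = bt F ν := ⟨_, rfl⟩
  have hxn : x none = F.t ω := by rw [hx]; rfl
  have hxn' : x' none = F.t ω := by rw [hx']; exact htt
  have hxs : ∀ j, x (some j) = F.x ω j := fun j => by rw [hx]; rfl
  have hxs' : ∀ j, x' (some j) = F.x ν j := fun j => by rw [hx']; rfl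
  -- the shift
  obtain ⟨η, hη⟩ : ∃ η : Option (Fin m) → ℝ, η = fun o => x' o - x o := ⟨_, rfl⟩
  have hη0 : η none = 0 := by rw [hη]; show x' none - x none = 0; rw [hxn, hxn', sub_self]
  have hηj : ∀ l < i, |η (some (c l))| ≤ 1 / 2 ^ J := fun l _ => by
    rw [hη]
    show |x' (some (c l)) - x (some (c l))| ≤ _
    rw [hxs, hxs', abs_sub_comm]
    exact hxx _
  have hxη : (fun o => x o + η o) = x' := by
    rw [hη]
    funext o
    ring
  -- the positions
  have hinx : ∀ ω', B ω' → ∀ l < i, |F.x ω' (c l) - eval (bt F ω') (G (ptr F J ω') l)| ≤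
      1 / 2 ^ (g l + n) := by
    intro ω' hω' l hl
    exact (hD.inc ω' hω' (bt F ω') ⟨by
      show |F.t ω' - F.t ω'| ≤ _
      rw [sub_self, abs_zero]
      positivity, fun l hl => hD.thp ω' hω' l hl⟩).2 l hl
  have hpx : ∀ l < i, |x (some (c l)) - eval x (ψ l)| ≤ 1 / 2 ^ (g l + n) := by
    intro l hl
    rw [hxs, hx, hψ]
    exact hinx ω hω l hl
  have hpx' : ∀ l < i, |x' (some (c l)) - eval x' (ψ l)| ≤ 1 / 2 ^ (g l + n) := by
    intro l hl
    rw [hxs', hx', ← hψν]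
    exact hinx ν hν l hl
  have hlip : ∀ l < i + 1, ∀ b, NBx c ψ g a₁ (F.t ω) l b → ∀ j < l,
      |eval b (pderiv (some (c j)) (ψ l))| ≤ 2 ^ (e + nlp g j l) := by
    intro l hl b hb j hj
    rw [hψ] at hb ⊢
    exact hD.ball.lip ω hω l hl b hb j hj
  have hbig : ∀ b, NBx c ψ g a₁ (F.t ω) i b →
      |eval b (Ht (slam F w ω)) - eval b (ψ i)| ≤ 2 ^ N / 2 ^ g i := by
    intro b hb
    rw [hψ] at hb ⊢
    exact hD.big ω hω b hb
  have hbig' : ∀ b, NBx c ψ g a₁ (F.t ω) i b →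
      |eval b (Ht (slam F w ν)) - eval b (ψ i)| ≤ 2 ^ N / 2 ^ g i := by
    intro b hb
    rw [← hψν] at hb ⊢
    rw [← htt] at hb
    exact hD.big ν hν b hb
  -- the polynomial of the representative at the two points
  obtain ⟨s1, s2, s3⟩ := hshf (c := c) (ψ := ψ) (Q := Ht (slam F w ν)) (g := g) (a := a₁) (e := e)
    (s := 2 * n) (J := J) (M := 2 ^ N / 2 ^ g i) (x := x) (η := η) hc hψd hψp (hD.pH _) (hD.dH _)
    (by rw [hxn]; exact hlip) (by rw [hxn]; exact hbig') (fun l hl => by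
      have := hJ l hl
      omega) hη0 hηj (fun l hl => (hpx l hl).trans (inv_mono (by omega)))
  rw [hxη] at s1 s2 s3
  -- numbers
  obtain ⟨Y, hY⟩ : ∃ Y : ℝ, Y = 2 ^ C₂ := ⟨_, rfl⟩
  have hi3 : (1 : ℝ) ≤ (i + 3) ^ 3 := one_le_pow₀ (by linarith)
  have hY1 : Cb * (i + 1) ≤ Y := by
    have : 0 ≤ Ct * 2 := by linarith
    rw [hY]; linarith
  have hY2 : Ct * 2 ≤ Y := by
    have : 0 ≤ Cb * (i + 1) := by positivity
    rw [hY]; linarith
  have hY3 : 4 * (i + 3) ^ 3 ≤ Y := by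
    have : 0 ≤ Cb * (i + 1) := by positivity
    rw [hY]; linarith
  have hY4 : (4 : ℝ) ≤ Y := by linarith
  have hY5 : 4 * ((i : ℝ) + 3) ≤ Y := by
    refine le_trans ?_ hY3
    have : (i : ℝ) + 3 ≤ (i + 3) ^ 3 := le_self_pow₀ (by linarith) (by norm_num)
    linarith
  obtain ⟨X₁, hX₁⟩ : ∃ X₁ : ℝ, X₁ = 2 ^ C₁ := ⟨_, rfl⟩
  have hX1 : 1 ≤ X₁ := by rw [hX₁]; exact one_le_pow₀ (by norm_num)
  have hCY : X₁ * Y ^ 4 * 4 ≤ 2 ^ C := by
    rw [hX₁, hY, ← pow_mul, ← pow_add, show (4 : ℝ) = 2 ^ 2 by norm_num, ← pow_add]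
    exact pow_le_pow_right₀ (by norm_num) (by omega)
  obtain ⟨L, hL⟩ : ∃ L : ℝ, L = 2 ^ N := ⟨_, rfl⟩
  rw [← hL] at hN1
  obtain ⟨δ, hδ⟩ : ∃ δ : ℝ, δ = 1 / 2 ^ g i := ⟨_, rfl⟩
  have hδ0 : 0 < δ := by rw [hδ]; positivity
  obtain ⟨ρ, hρ⟩ : ∃ ρ : ℝ, ρ = 1 / 2 ^ n := ⟨_, rfl⟩
  have hρ0 : 0 < ρ := by rw [hρ]; positivity
  have hρ1 : ρ ≤ 1 := by rw [hρ, div_le_one (by positivity)]; exact one_le_pow₀ (by norm_num)
  have eE : ∀ Z : ℝ, Z * (2 ^ N * ε₁ / 2 ^ n + ε₂ / 2 ^ (a₁ + n) +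
      (2 ^ N) ^ 2 / 2 ^ (g i + 2 * n)) =
      Z * (L * ε₁ * ρ + ε₂ / 2 ^ (a₁ + n) + L ^ 2 * δ * ρ ^ 2) := by
    intro Z
    rw [hL, hρ, hδ, pow_add _ (g i), pow_mul']
    field_simp
  rw [eE]
  have hLd : (2 : ℝ) ^ N / 2 ^ g i = L * δ := by rw [hL, hδ]; ring
  have hM0 : 0 ≤ L * δ := by positivity
  have hsh : 2 ^ C₁ * (2 ^ N / 2 ^ g i + 1 / 2 ^ g i) / 2 ^ (2 * n) ≤ 2 * X₁ * L * δ * ρ ^ 2 := by
    rw [hLd, ← hδ, ← hX₁]
    have e1 : (1 : ℝ) / 2 ^ (2 * n) = ρ ^ 2 := by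
      rw [hρ, pow_mul']
      field_simp
    rw [div_eq_mul_one_div, e1]
    have h1 : L * δ + δ ≤ 2 * (L * δ) := by
      have h2 : δ ≤ L * δ := le_mul_of_one_le_left hδ0.le hN1
      linarith
    calc X₁ * (L * δ + δ) * ρ ^ 2 ≤ X₁ * (2 * (L * δ)) * ρ ^ 2 :=
          mul_le_mul_of_nonneg_right (mul_le_mul_of_nonneg_left h1 (by linarith)) (by positivity)
      _ = _ := by ring
  -- the value
  have hval : |F.x ω (c i) - eval x (Ht (slam F w ν))| ≤ 3 * X₁ * L * δ * ρ ^ 2 := by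
    have h1 : eval x' (Ht (slam F w ν)) = F.x ν (c i) := by
      rw [hx']
      exact hD.own ν hν
    have e1 : F.x ω (c i) - eval x (Ht (slam F w ν)) = (F.x ω (c i) - F.x ν (c i)) +
        (eval x' (Ht (slam F w ν)) - eval x (Ht (slam F w ν))) := by
      rw [h1]
      ring
    rw [e1]
    refine (abs_add_le _ _).trans ?_
    have h2 : (1 : ℝ) / 2 ^ J ≤ δ * ρ ^ 2 := by
      have h3 := hJ i (Nat.lt_succ_self i)
      have h4 : (1 : ℝ) / 2 ^ J ≤ 1 / 2 ^ (g i + 2 * n) := inv_mono (by omega)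
      refine h4.trans (le_of_eq ?_)
      rw [hδ, hρ, pow_add, pow_mul']
      field_simp
    have h3 := s1.trans hsh
    have h4 := hxx (c i)
    have h5 : δ * ρ ^ 2 ≤ X₁ * L * δ * ρ ^ 2 := by
      have h6 : 1 ≤ X₁ * L := one_le_mul_of_one_le_of_one_le hX1 hN1
      have h7 : 0 ≤ δ * ρ ^ 2 := by positivity
      calc δ * ρ ^ 2 ≤ (X₁ * L) * (δ * ρ ^ 2) := le_mul_of_one_le_left h7 h6
        _ = _ := by ring
    linarith
  have hρ2 : 0 ≤ ρ ^ 2 := by positivity
  have hE0 : 0 ≤ L * ε₁ * ρ := by positivity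
  have hE1 : 0 ≤ ε₂ / 2 ^ (a₁ + n) := by positivity
  have hE2 : 0 ≤ L ^ 2 * δ * ρ ^ 2 := by positivity
  refine ⟨?_, fun b hb => ?_, fun b hb l hl => ?_⟩
  · rw [← hx]
    refine hval.trans ?_
    have h1 : 3 * X₁ * L * δ * ρ ^ 2 ≤ 2 ^ C * (L ^ 2 * δ * ρ ^ 2) := by
      have h2 : 3 * X₁ ≤ 2 ^ C := by
        refine le_trans ?_ hCY
        have h3 : (1 : ℝ) ≤ Y ^ 4 := one_le_pow₀ (by linarith)
        have h4 : X₁ ≤ X₁ * Y ^ 4 := le_mul_of_one_le_right (by linarith) h3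
        linarith
      calc 3 * X₁ * L * δ * ρ ^ 2 = 3 * X₁ * (L * δ * ρ ^ 2) := by ring
        _ ≤ 2 ^ C * (L ^ 2 * δ * ρ ^ 2) := by
          refine mul_le_mul h2 ?_ (by positivity) (by positivity)
          have h3 : 0 ≤ L * δ * ρ ^ 2 := by positivity
          calc L * δ * ρ ^ 2 ≤ L * (L * δ * ρ ^ 2) := le_mul_of_one_le_left h3 hN1
            _ = _ := by ring
    refine h1.trans (mul_le_mul_of_nonneg_left (by linarith) (by positivity))
  · obtain ⟨hb0, hbl⟩ := hD.inc ω hω b hb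
    obtain ⟨Q, hQ⟩ : ∃ Q, Q = Ht (slam F w ν) - Ht (slam F w ω) := ⟨_, rfl⟩
    have hQe : ∀ b, eval b Q = eval b (Ht (slam F w ν)) - eval b (Ht (slam F w ω)) := fun b => by
      rw [hQ, map_sub]
    have hQd : ∀ z V, dd Q z V = dd (Ht (slam F w ν)) z V - dd (Ht (slam F w ω)) z V :=
      fun z V => by rw [hQ, dd_sub]
    have hQM : ∀ b, NBx c ψ g a₁ (x none) i b → |eval b Q| ≤ 2 * (L * δ) := by
      intro b hb
      rw [hxn] at hb
      have h1 := hbig b hb
      have h2 := hbig' b hb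
      rw [hLd] at h1 h2
      rw [hQe]
      have e1 : eval b (Ht (slam F w ν)) - eval b (Ht (slam F w ω)) =
          (eval b (Ht (slam F w ν)) - eval b (ψ i)) -
            (eval b (Ht (slam F w ω)) - eval b (ψ i)) := by ring
      rw [e1]
      refine (abs_sub _ _).trans ?_
      linarith
    obtain ⟨V, Z, v1, v2, -, -, -, v3, -⟩ := htay (c := c) (ψ := ψ) (Q := Q) (g := g) (a := a₁)
      (n := n) (M := 2 * (L * δ)) (x := x) (b := b) hc' hψd hψp (by
        rw [hQ]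
        intro y y' h1 h2
        rw [map_sub, map_sub, hD.pH _ y y' h1 h2, hD.pH _ y y' h1 h2]) (by
        rw [hQ]
        exact (totalDegree_sub _ _).trans (max_le (hD.dH _) (hD.dH _))) hn hQM hpx
      (by rw [hxn]; exact hb0) (by rw [hψ]; exact hbl)
    -- the natural norm of the displacement
    have e2n : (1 : ℝ) / 2 ^ (a₁ + n) = ρ / 2 ^ a₁ := by
      rw [hρ, pow_add]
      field_simp
    have hV0 : |V none| ≤ ρ / 2 ^ a₁ := by
      rw [v1, hxn, ← e2n]
      exact hb0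
    have hVn : nrm c ψ g a₁ i x V ≤ (i + 1) * (2 * ρ) := by
      refine nrm_le (hV0.trans ?_) fun l hl => ?_
      · exact div_le_div_of_nonneg_right (by linarith) (by positivity)
      · rw [v2 l hl]
        have h1 := hbl l hl
        rw [← hψ] at h1
        refine (abs_sub _ _).trans ((add_le_add h1 (hpx l hl)).trans (le_of_eq ?_))
        rw [hρ, pow_add]
        field_simp
        ring
    obtain ⟨W, hW⟩ : ∃ W, W = bd F ω := ⟨_, rfl⟩
    obtain ⟨W', hW'⟩ : ∃ W', W' = bd F ν := ⟨_, rfl⟩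
    have hW0 : W none = 1 := by rw [hW]; rfl
    have hW0' : W' none = 1 := by rw [hW']; rfl
    have hnW : nrm c ψ g a₁ i x W ≤ (i + 1) * (L * 2 ^ a₁ * 2 ^ a₁ / 2 ^ a₁) := by
      refine nrm_le (L := L * 2 ^ a₁ * 2 ^ a₁ / 2 ^ a₁) ?_ fun l hl => ?_
      · rw [hW0, abs_one]
        rw [mul_div_assoc, div_self (by positivity), mul_one, mul_div_assoc,
          div_self (by positivity), mul_one]
        exact hN1
      · have h1 := hD.nat ω ω hω hω rfl l hl
        rw [hψ, hx, hW]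
        refine h1.trans (le_of_eq ?_)
        rw [hL]
        field_simp
    have hnW' : nrm c ψ g a₁ i x W' ≤ (i + 1) * (L * 2 ^ a₁ * 2 ^ a₁ / 2 ^ a₁) := by
      refine nrm_le (L := L * 2 ^ a₁ * 2 ^ a₁ / 2 ^ a₁) ?_ fun l hl => ?_
      · rw [hW0', abs_one]
        rw [mul_div_assoc, div_self (by positivity), mul_one, mul_div_assoc,
          div_self (by positivity), mul_one]
        exact hN1
      · have h1 := hD.nat ω ν hω hν hpt l hl
        rw [hψ, hx, hW']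
        refine h1.trans (le_of_eq ?_)
        rw [hL]
        field_simp
    have e2a : L * 2 ^ a₁ * 2 ^ a₁ / 2 ^ a₁ = L * 2 ^ a₁ := by field_simp
    rw [e2a] at hnW hnW'
    have hnn := fun V => nrm_nonneg c ψ g a₁ i x V
    -- the spatial part
    obtain ⟨ε, hε⟩ : ∃ ε : ℝ, ε = 2 * X₁ * L * δ * ρ ^ 2 := ⟨_, rfl⟩
    have hε0 : 0 ≤ ε := by rw [hε]; positivity
    have hs2 : ∀ V, |dd (Ht (slam F w ν)) x' V - dd (Ht (slam F w ν)) x V| ≤
        ε * nrm c ψ g a₁ i x V := fun V => by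
      rw [hε]
      exact (s2 V).trans (mul_le_mul_of_nonneg_right hsh (hnn V))
    have hsp : ∀ V : Option (Fin m) → ℝ, V none = 0 →
        |dd Q x V| ≤ (ε + (i + 3) * ε₁) * nrm c ψ g a₁ i x V := by
      intro V hV
      rw [hQd]
      have h1 := hs2 V
      have h2 : |dd (Ht (slam F w ν)) x' V - dd (Gp (ptr F J ω)) x' V| ≤
          ε₁ * ((i + 1) * nrm c ψ g a₁ i x V) := by
        have h3 := hD.spa ν hν V hV
        rw [hψν, ← hx', ← hpt] at h3
        exact h3.trans (mul_le_mul_of_nonneg_left (s3 V) hε₁)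
      have h3 : |dd (Gp (ptr F J ω)) x' V - dd (Gp (ptr F J ω)) x V| ≤
          ε₁ * nrm c ψ g a₁ i x V := by
        have h4 := hD.shf ω ν hω hν hpt V hV
        rw [← hψ, ← hx, ← hx'] at h4
        exact h4
      have h4 : |dd (Ht (slam F w ω)) x V - dd (Gp (ptr F J ω)) x V| ≤
          ε₁ * nrm c ψ g a₁ i x V := by
        have h5 := hD.spa ω hω V hV
        rw [← hψ, ← hx] at h5
        exact h5
      have e1 : dd (Ht (slam F w ν)) x V - dd (Ht (slam F w ω)) x V =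
          -(dd (Ht (slam F w ν)) x' V - dd (Ht (slam F w ν)) x V) +
          (dd (Ht (slam F w ν)) x' V - dd (Gp (ptr F J ω)) x' V) +
          (dd (Gp (ptr F J ω)) x' V - dd (Gp (ptr F J ω)) x V) -
          (dd (Ht (slam F w ω)) x V - dd (Gp (ptr F J ω)) x V) := by ring
      rw [e1]
      refine (abs_sub _ _).trans ((add_le_add ((abs_add_le _ _).trans (add_le_add
        ((abs_add_le _ _).trans (add_le_add (le_of_eq (abs_neg _)) le_rfl)) le_rfl))
        le_rfl).trans ?_)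
      have h5 : (ε + (i + 3) * ε₁) * nrm c ψ g a₁ i x V = ε * nrm c ψ g a₁ i x V +
          ε₁ * ((i + 1) * nrm c ψ g a₁ i x V) + ε₁ * nrm c ψ g a₁ i x V +
          ε₁ * nrm c ψ g a₁ i x V := by ring
      rw [h5]
      linarith
    -- the direction of the own line
    have hWW : |dd Q x W| ≤ (ε + (i + 2) * ε₁) * ((i + 1) * (L * 2 ^ a₁) * 3) + 2 * ε₂ := by
      have h0 : (W - W') none = 0 := by rw [Pi.sub_apply, hW0, hW0', sub_self]
      have hnd : nrm c ψ g a₁ i x (W - W') ≤ (i + 1) * (L * 2 ^ a₁) * 2 := by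
        have h1 := nrm_add c ψ g a₁ i x W ((-1 : ℝ) • W')
        rw [nrm_smul, abs_neg, abs_one, one_mul] at h1
        have e1 : W - W' = W + (-1 : ℝ) • W' := by
          funext o
          simp [sub_eq_add_neg]
        rw [e1]
        linarith
      have hsub : ∀ (R : MvPolynomial (Option (Fin m)) ℝ) z, dd R z (W - W') =
          dd R z W - dd R z W' := by
        intro R z
        unfold dd
        rw [← Finset.sum_sub_distrib]
        exact Finset.sum_congr rfl fun o _ => by rw [Pi.sub_apply, mul_sub]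
      have h1 := hs2 W
      have h2 : dd (Ht (slam F w ν)) x' W' = W' (some (c i)) := by
        rw [hx', hW']
        exact hD.ownv ν hν
      have h3 : dd (Ht (slam F w ω)) x W = W (some (c i)) := by
        rw [hx, hW]
        exact hD.ownv ω hω
      have h4 : |dd (Ht (slam F w ν)) x' (W - W') - dd (Gp (ptr F J ω)) x' (W - W')| ≤
          ε₁ * ((i + 1) * nrm c ψ g a₁ i x (W - W')) := by
        have h5 := hD.spa ν hν (W - W') h0
        rw [hψν, ← hx', ← hpt] at h5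
        exact h5.trans (mul_le_mul_of_nonneg_left (s3 _) hε₁)
      have h5 : |dd (Gp (ptr F J ω)) x' (W - W') - dd (Gp (ptr F J ω)) x (W - W')| ≤
          ε₁ * nrm c ψ g a₁ i x (W - W') := by
        have h6 := hD.shf ω ν hω hν hpt (W - W') h0
        rw [← hψ, ← hx, ← hx'] at h6
        exact h6
      have h6 : |W (some (c i)) - dd (Gp (ptr F J ω)) x W| ≤ ε₂ := by
        have h7 := hD.vel ω ω hω hω rfl
        rw [← hx, ← hW] at h7
        exact h7
      have h7 : |W' (some (c i)) - dd (Gp (ptr F J ω)) x W'| ≤ ε₂ := by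
        have h8 := hD.vel ω ν hω hν hpt
        rw [← hx, ← hW'] at h8
        exact h8
      rw [hQd]
      have e1 : dd (Ht (slam F w ν)) x W - dd (Ht (slam F w ω)) x W =
          -(dd (Ht (slam F w ν)) x' W - dd (Ht (slam F w ν)) x W) +
          (dd (Ht (slam F w ν)) x' (W - W') - dd (Gp (ptr F J ω)) x' (W - W')) +
          (dd (Gp (ptr F J ω)) x' (W - W') - dd (Gp (ptr F J ω)) x (W - W')) -
          (W (some (c i)) - dd (Gp (ptr F J ω)) x W) +
          (W' (some (c i)) - dd (Gp (ptr F J ω)) x W') := by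
        rw [h3, hsub, hsub (Gp (ptr F J ω)) x, h2]
        ring
      rw [e1]
      refine (abs_add_le _ _).trans ((add_le_add ((abs_sub _ _).trans (add_le_add
        ((abs_add_le _ _).trans (add_le_add ((abs_add_le _ _).trans (add_le_add
          (le_of_eq (abs_neg _)) le_rfl)) le_rfl)) le_rfl)) le_rfl).trans ?_)
      have h8 := hnn (W - W')
      have h9 : ε * nrm c ψ g a₁ i x W ≤ ε * ((i + 1) * (L * 2 ^ a₁)) :=
        mul_le_mul_of_nonneg_left hnW hε0
      have h10 : ε₁ * ((i + 1) * nrm c ψ g a₁ i x (W - W')) + ε₁ * nrm c ψ g a₁ i x (W - W') ≤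
          ε₁ * (i + 2) * ((i + 1) * (L * 2 ^ a₁) * 2) := by
        have e2 : ε₁ * ((i + 1) * nrm c ψ g a₁ i x (W - W')) +
            ε₁ * nrm c ψ g a₁ i x (W - W') = ε₁ * (i + 2) * nrm c ψ g a₁ i x (W - W') := by ring
        rw [e2]
        exact mul_le_mul_of_nonneg_left hnd (by positivity)
      have h11 : 0 ≤ ε * ((i + 1) * (L * 2 ^ a₁)) := by positivity
      have h12 : 0 ≤ ε₁ * (i + 2) * ((i + 1) * (L * 2 ^ a₁)) := by positivity
      have e3 : (ε + (i + 2) * ε₁) * ((i + 1) * (L * 2 ^ a₁) * 3) + 2 * ε₂ =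
          3 * (ε * ((i + 1) * (L * 2 ^ a₁))) + 3 * (ε₁ * (i + 2) * ((i + 1) * (L * 2 ^ a₁))) +
          2 * ε₂ := by ring
      rw [e3]
      linarith
    -- the derivative in the direction of the displacement
    have hVW : |dd Q x V| ≤ 6 * (i + 1) * L * ρ * (ε + (i + 3) * ε₁) +
        2 * (ε₂ / 2 ^ (a₁ + n)) := by
      have h0 : (V + (-V none) • W) none = 0 := by
        rw [Pi.add_apply, Pi.smul_apply, hW0, smul_eq_mul]
        ring
      have e1 : dd Q x V = V none * dd Q x W + dd Q x (V + (-V none) • W) := by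
        rw [dd_add, dd_smul]
        ring
      have h1 : nrm c ψ g a₁ i x (V + (-V none) • W) ≤ 3 * ((i + 1) * L * ρ) := by
        refine (nrm_add _ _ _ _ _ _ _ _).trans ?_
        rw [nrm_smul, abs_neg]
        have h2 : |V none| * nrm c ψ g a₁ i x W ≤ ρ / 2 ^ a₁ * ((i + 1) * (L * 2 ^ a₁)) :=
          mul_le_mul hV0 hnW (hnn W) (by positivity)
        have e2 : ρ / 2 ^ a₁ * ((i + 1) * (L * 2 ^ a₁)) = (i + 1) * L * ρ := by
          field_simp
        rw [e2] at h2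
        have h3 : ((i : ℝ) + 1) * (2 * ρ) ≤ 2 * ((i + 1) * L * ρ) := by
          have h4 : (0 : ℝ) ≤ 2 * ((i + 1) * ρ) := by positivity
          calc ((i : ℝ) + 1) * (2 * ρ) = 2 * ((i + 1) * ρ) := by ring
            _ ≤ L * (2 * ((i + 1) * ρ)) := le_mul_of_one_le_left h4 hN1
            _ = _ := by ring
        linarith
      have h2 : |V none * dd Q x W| ≤ ρ / 2 ^ a₁ *
          ((ε + (i + 2) * ε₁) * ((i + 1) * (L * 2 ^ a₁) * 3) + 2 * ε₂) := by
        rw [abs_mul]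
        exact mul_le_mul hV0 hWW (abs_nonneg _) (by positivity)
      have e2 : ρ / 2 ^ a₁ * ((ε + (i + 2) * ε₁) * ((i + 1) * (L * 2 ^ a₁) * 3) + 2 * ε₂) =
          3 * (i + 1) * L * ρ * (ε + (i + 2) * ε₁) + 2 * (ε₂ / 2 ^ (a₁ + n)) := by
        rw [div_eq_mul_one_div ε₂, e2n]
        field_simp
      rw [e2] at h2
      have h3 := hsp _ h0
      have h4 : (ε + (i + 3) * ε₁) * nrm c ψ g a₁ i x (V + (-V none) • W) ≤
          (ε + (i + 3) * ε₁) * (3 * ((i + 1) * L * ρ)) :=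
        mul_le_mul_of_nonneg_left h1 (by positivity)
      have h5 : 3 * ((i : ℝ) + 1) * L * ρ * (ε + (i + 2) * ε₁) ≤
          3 * (i + 1) * L * ρ * (ε + (i + 3) * ε₁) := by
        refine mul_le_mul_of_nonneg_left ?_ (by positivity)
        exact add_le_add le_rfl (mul_le_mul_of_nonneg_right (by linarith) hε₁)
      rw [e1]
      refine (abs_add_le _ _).trans ?_
      have e3 : 6 * ((i : ℝ) + 1) * L * ρ * (ε + (i + 3) * ε₁) =
          3 * (i + 1) * L * ρ * (ε + (i + 3) * ε₁) +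
          (ε + (i + 3) * ε₁) * (3 * ((i + 1) * L * ρ)) := by ring
      rw [e3]
      linarith
    rw [← hQe]
    have hQx : |eval x Q| ≤ 3 * X₁ * L * δ * ρ ^ 2 := by
      have h1 : eval x (Ht (slam F w ω)) = F.x ω (c i) := by
        rw [hx]
        exact hD.own ω hω
      rw [hQe, h1, abs_sub_comm]
      exact hval
    have e1 : eval b Q = (eval b Q - eval x Q - dd Q x V) + dd Q x V + eval x Q := by ring
    rw [e1]
    refine (abs_add_le _ _).trans ((add_le_add (abs_add_le _ _) le_rfl).trans ?_)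
    have e2 : Ct * (2 * (L * δ)) / (2 ^ n) ^ 2 = Ct * 2 * (L * δ * ρ ^ 2) := by
      rw [hρ]
      field_simp
    rw [e2] at v3
    have hA : L * δ * ρ ^ 2 ≤ L ^ 2 * δ * ρ ^ 2 := by
      have h3 : 0 ≤ L * δ * ρ ^ 2 := by positivity
      calc L * δ * ρ ^ 2 ≤ L * (L * δ * ρ ^ 2) := le_mul_of_one_le_left h3 hN1
        _ = _ := by ring
    have hA0 : 0 ≤ L * δ * ρ ^ 2 := by positivity
    have h1 : 6 * ((i : ℝ) + 1) * L * ρ * (ε + (i + 3) * ε₁) ≤
        12 * (i + 1) * X₁ * (L ^ 2 * δ * ρ ^ 2) + 6 * (i + 1) * (i + 3) * (L * ε₁ * ρ) := by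
      have e3 : 6 * ((i : ℝ) + 1) * L * ρ * (ε + (i + 3) * ε₁) =
          12 * (i + 1) * X₁ * (L ^ 2 * δ * ρ ^ 2) * ρ + 6 * (i + 1) * (i + 3) * (L * ε₁ * ρ) := by
        rw [hε]
        ring
      rw [e3]
      have h2 : 12 * ((i : ℝ) + 1) * X₁ * (L ^ 2 * δ * ρ ^ 2) * ρ ≤
          12 * (i + 1) * X₁ * (L ^ 2 * δ * ρ ^ 2) :=
        mul_le_of_le_one_right (by positivity) hρ1
      linarith
    have hY0 : 0 ≤ Y := by linarith
    have hYp : Y ≤ Y ^ 4 := le_self_pow₀ (by linarith) (by norm_num)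
    have h2 : (3 * X₁ + Ct * 2 + 12 * (i + 1) * X₁) * (L ^ 2 * δ * ρ ^ 2) ≤
        2 ^ C * (L ^ 2 * δ * ρ ^ 2) := by
      refine mul_le_mul_of_nonneg_right (le_trans ?_ hCY) hE2
      have h3 : (12 * ((i : ℝ) + 1) + 3) * X₁ ≤ 3 * Y * X₁ :=
        mul_le_mul_of_nonneg_right (by linarith) (by linarith)
      have h4 : Ct * 2 ≤ Y * X₁ := hY2.trans (le_mul_of_one_le_right hY0 hX1)
      have h5 : Y * X₁ ≤ Y ^ 4 * X₁ := mul_le_mul_of_nonneg_right hYp (by linarith)
      linarith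
    have h3 : 6 * ((i : ℝ) + 1) * (i + 3) * (L * ε₁ * ρ) ≤ 2 ^ C * (L * ε₁ * ρ) := by
      refine mul_le_mul_of_nonneg_right (le_trans ?_ hCY) hE0
      have h4 : 6 * ((i : ℝ) + 1) * (i + 3) ≤ 2 * Y := by
        have h5 : ((i : ℝ) + 1) * (i + 3) ≤ (i + 3) ^ 3 := by
          have h6 : ((i : ℝ) + 3) ^ 3 = (i + 3) * (i + 3) * (i + 3) := by ring
          have h7 : ((i : ℝ) + 1) * (i + 3) ≤ (i + 3) * (i + 3) :=
            mul_le_mul_of_nonneg_right (by linarith) (by linarith)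
          have h8 : ((i : ℝ) + 3) * (i + 3) * 1 ≤ (i + 3) * (i + 3) * (i + 3) :=
            mul_le_mul_of_nonneg_left (by linarith) (by positivity)
          linarith
        linarith
      have h6 : Y ≤ X₁ * Y ^ 4 := hYp.trans (le_mul_of_one_le_left (by positivity) hX1)
      linarith
    have h4 : 2 * (ε₂ / 2 ^ (a₁ + n)) ≤ 2 ^ C * (ε₂ / 2 ^ (a₁ + n)) := by
      refine mul_le_mul_of_nonneg_right (le_trans ?_ hCY) hE1
      have h6 : Y ≤ X₁ * Y ^ 4 := hYp.trans (le_mul_of_one_le_left (by positivity) hX1)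
      linarith
    have h5 : 3 * X₁ * L * δ * ρ ^ 2 ≤ 3 * X₁ * (L ^ 2 * δ * ρ ^ 2) := by
      have h6 := mul_le_mul_of_nonneg_left hA (show 0 ≤ 3 * X₁ by linarith)
      calc 3 * X₁ * L * δ * ρ ^ 2 = 3 * X₁ * (L * δ * ρ ^ 2) := by ring
        _ ≤ _ := h6
    have h6 : Ct * 2 * (L * δ * ρ ^ 2) ≤ Ct * 2 * (L ^ 2 * δ * ρ ^ 2) :=
      mul_le_mul_of_nonneg_left hA (by linarith)
    have e3 : 2 ^ C * (L * ε₁ * ρ + ε₂ / 2 ^ (a₁ + n) + L ^ 2 * δ * ρ ^ 2) =
        2 ^ C * (L * ε₁ * ρ) + 2 ^ C * (ε₂ / 2 ^ (a₁ + n)) + 2 ^ C * (L ^ 2 * δ * ρ ^ 2) := by ring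
    rw [e3]
    have e4 : (3 * X₁ + Ct * 2 + 12 * (i + 1) * X₁) * (L ^ 2 * δ * ρ ^ 2) =
        3 * X₁ * (L ^ 2 * δ * ρ ^ 2) + Ct * 2 * (L ^ 2 * δ * ρ ^ 2) +
        12 * (i + 1) * X₁ * (L ^ 2 * δ * ρ ^ 2) := by ring
    rw [e4] at h2
    linarith
  · obtain ⟨hb0, hbl⟩ := hD.inc ω hω b hb
    rw [← hψ] at hbl
    have hbx : ∀ k ≤ i, NBx c ψ g a₁ (F.t ω) k b := fun k hk =>
      ⟨hb0.trans (inv_mono (Nat.le_add_right _ _)), fun j hj =>
        (hbl j (by omega)).trans (inv_mono (Nat.le_add_right _ _))⟩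
    have h1 := (hbox (c := c) (ψ := ψ) (Q := Ht (slam F w ν) - ψ i) (g := g) (a := a₁ + 1)
      (M := L * δ) (x := b) hc' hψd hψp (fun y y' h1 h2 => by
        rw [map_sub, map_sub, hD.pH _ y y' h1 h2, hψp i y y' h1 h2])
      ((totalDegree_sub _ _).trans (max_le (hD.dH _) (hψd i))) hM0 (fun b' hb' => by
        rw [map_sub, ← hLd]
        refine hbig' b' ⟨?_, hb'.2⟩
        have h1 : b' none - F.t ω = (b' none - b none) + (b none - F.t ω) := by ring
        rw [h1]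
        refine (abs_add_le _ _).trans ((add_le_add hb'.1 (hb0.trans (inv_mono (show a₁ + 1 ≤
          a₁ + n by omega)))).trans (le_of_eq ?_))
        rw [pow_succ]
        field_simp
        norm_num) fun j hj => (hbx i le_rfl).2 j hj).1 (Pi.single (some (c l)) 1)
    have hdd : ∀ Q : MvPolynomial (Option (Fin m)) ℝ, dd Q b (Pi.single (some (c l)) 1) =
        eval b (pderiv (some (c l)) Q) := by
      intro Q
      unfold dd
      rw [Finset.sum_eq_single (some (c l))]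
      · rw [Pi.single_eq_same, mul_one]
      · intro o _ ho
        rw [Pi.single_eq_of_ne ho, mul_zero]
      · intro h
        exact absurd (Finset.mem_univ _) h
    have h2 : nrm c ψ g (a₁ + 1) i b (Pi.single (some (c l)) 1) ≤
        i * 2 ^ (e + (Finset.Icc l i).sup g) :=
      nrm_unit hc' hψp hl fun k hk j hj => hlip k (by omega) b (hbx k (by omega)) j hj
    have h3 := hlip i (Nat.lt_succ_self i) b (hbx i le_rfl) l hl
    have hgi : g i ≤ (Finset.Icc l i).sup g :=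
      Finset.le_sup (f := g) (Finset.mem_Icc.2 ⟨hl.le, le_rfl⟩)
    have e1 : (2 : ℝ) ^ (e + (Finset.Icc l i).sup g) * δ = 2 ^ (e + nlp g l i) := by
      rw [hδ, mul_one_div, div_eq_iff (by positivity), ← pow_add]
      congr 1
      unfold nlp
      omega
    have h4 : |dd (Ht (slam F w ν) - ψ i) b (Pi.single (some (c l)) 1)| ≤
        Cb * L * i * 2 ^ (e + nlp g l i) := by
      refine h1.trans ((mul_le_mul_of_nonneg_left h2 (by positivity)).trans (le_of_eq ?_))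
      rw [← e1]
      ring
    rw [dd_sub, hdd, hdd] at h4
    have h5 : |eval b (pderiv (some (c l)) (Ht (slam F w ν)))| ≤
        (Cb * L * i + 1) * 2 ^ (e + nlp g l i) := by
      have e2 : eval b (pderiv (some (c l)) (Ht (slam F w ν))) =
          (eval b (pderiv (some (c l)) (Ht (slam F w ν))) - eval b (pderiv (some (c l)) (ψ i))) +
          eval b (pderiv (some (c l)) (ψ i)) := by ring
      rw [e2]
      refine (abs_add_le _ _).trans ?_
      rw [add_mul, one_mul]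
      exact add_le_add h4 h3
    refine h5.trans ?_
    rw [show C + N + e + nlp g l i = (C + N) + (e + nlp g l i) by ring, pow_add _ (C + N)]
    refine mul_le_mul_of_nonneg_right ?_ (by positivity)
    rw [pow_add, ← hL]
    have h6 : Cb * L * i + 1 ≤ (Cb * (i + 1)) * L := by
      have h7 : 1 ≤ Cb * L := one_le_mul_of_one_le_of_one_le hCb hN1
      linarith
    have h7 : Cb * (i + 1) ≤ 2 ^ C := by
      refine le_trans hY1 (le_trans ?_ hCY)
      have hYp : Y ≤ Y ^ 4 := le_self_pow₀ (by linarith) (by norm_num)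
      have h8 : Y ^ 4 ≤ X₁ * Y ^ 4 := le_mul_of_one_le_left (by positivity) hX1
      linarith
    exact h6.trans (mul_le_mul_of_nonneg_right h7 (by linarith))

end Pool.D2R
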