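import Pool.Agent.H23.D2.Env
import Pool.Agent.H46.D2.NoLb

/-!
# No closed gradient with gain, in a class

`con_no`: in a class with the thresholds of the chain labels, an event on which the spatial
gradient of the target is closed and visible with a gain over the threshold is small.
-/

set_option autoImplicit false

namespace Pool.D2R

open Finset Real MvPolynomial
open Pool.Agent.H49.Ent Pool.Agent.H32.Dense Pool.STK Pool.KA Pool.KSAT Pool.K2S Pool.PB Pool.S6C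
open Pool.GEN Pool.CHT Pool.CHX Pool.ISO
open Pool.LBT (ThrOf)
open Pool.FLF (Fam.sub)

variable {m : ℕ}

/-- **No closed gradient above the threshold.** -/
theorem con_no (D₁ D i : ℕ) (hD : 1 ≤ D) : ∃ C : ℕ, 1 ≤ C ∧ D ≤ C ∧ ∀ {θ : ℝ} {S : PCl m}
    {P : List (Fin m) × Fin m → ℝ → ℝ → ℝ} (_ : ThrOf (chsys m θ) S P) (_ : TmH S)
    (c : ℕ → Fin m) (_ : Set.InjOn c (Set.Iio (i + 1))) (a w : ℚ) (e h ε : ℝ) (_ : 0 ≤ w)
    (_ : w ≤ a) (_ : a ≤ 1) (_ : w < 1) (_ : e < θ * w) (_ : 0 < h) (_ : 0 < ε)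
    (_ : bet P c i a w + h ≤ 1),
    ∃ δ : ℝ, 0 < δ ∧ Bas S (fun J F A => ∀ (a₀ w₀ a₁ n N e₀ k p : ℕ) (Kv g gT : ℕ → ℕ)
      (ε₁ ε₂ : ℝ) (B : F.Ω → Prop) (G : PtT F → ℕ → MvPolynomial (Option (Fin m)) ℝ)
      (H₀ : LnT F → ℕ → MvPolynomial (Option (Fin m)) ℝ)
      (T : PtT F → ℕ → MvPolynomial (Option (Fin m)) ℝ)
      (TH : LnT F → ℕ → MvPolynomial (Option (Fin m)) ℝ)
      (Gp : PtT F → MvPolynomial (Option (Fin m)) ℝ) (lam : LnT F → ℕ → Polynomial ℝ),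
      w₀ ≤ a₀ → a₀ ≤ ⌊(a : ℝ) * J⌋₊ → w₀ ≤ ⌊(w : ℝ) * J⌋₊ → w₀ ≤ a₁ → 2 ≤ n →
      ε * J ≤ k → C + N + 2 * k + e₀ ≤ ⌊e * J⌋₊ → (∀ l, Kv l ≤ C) → (∀ l < i, gT l ≤ J) → p ≤ J →
      ⌊(bet P c i a w + h) * J⌋₊ + a₀ ≤ p + ⌊(a : ℝ) * J⌋₊ →
      (∀ l < i + 1, e₀ + g l + 2 * n + C ≤ J) →
      (∀ l < i, nlp g l i ≤ nlp (fun j => if j < i then gT j else p) l i + k) →
      0 ≤ ε₁ → 0 ≤ ε₂ → 2 ^ (C + 2 * (N + k)) *
        (ε₁ / 2 ^ n + ε₂ / 2 ^ (a₁ + n) + 1 / 2 ^ (g i + 2 * n)) ≤ 1 / 2 ^ p →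
      Sub B A → ChOK F c i Kv a₀ w₀ e₀ gT B T TH →
      LinD F c i D D₁ w₀ a₁ a₀ n N e₀ g gT ε₁ ε₂ B G H₀ T Gp lam →
      Pe F.p B ≤ Real.exp (-(δ * J)) * Pe F.p A) := by
  obtain ⟨C, hC, hDC, hfin⟩ := con_fin m D₁ D i hD
  refine ⟨C, hC, hDC, ?_⟩
  intro θ S P hP hS c hc a w e h ε hw hwa ha hw1 he hh hε hbet
  obtain ⟨δ₁, hδ₁, τ₁, hτ₁, J₁, hlab⟩ := Pool.NLB46.lab_ev hP c i C a w e h hw hwa ha he hh hbet
  have hL2 : 0 < Real.log 2 := Real.log_pos (by norm_num)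
  have hC0 : (0 : ℝ) < C := by exact_mod_cast hC
  have hC1 : (1 : ℝ) ≤ C := by exact_mod_cast hC
  have hwR : (w : ℝ) < 1 := by exact_mod_cast hw1
  have hw0R : (0 : ℝ) ≤ w := by exact_mod_cast hw
  -- the time deficit
  obtain ⟨η, hη⟩ : ∃ η : ℝ, η = min (ε * Real.log 2 / (2 * C)) ((1 - w) * Real.log 2 / (2 * C)) :=
    ⟨_, rfl⟩
  have hη0 : 0 < η := by
    rw [hη]
    exact lt_min (by positivity) (div_pos (mul_pos (by linarith) hL2) (by positivity))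
  have hη1 : 2 * C * η ≤ ε * Real.log 2 := by
    have : η ≤ ε * Real.log 2 / (2 * C) := by rw [hη]; exact min_le_left _ _
    rw [le_div_iff₀ (by positivity)] at this
    linarith
  have hη2 : 2 * C * η ≤ (1 - w) * Real.log 2 := by
    have : η ≤ (1 - w) * Real.log 2 / (2 * C) := by rw [hη]; exact min_le_right _ _
    rw [le_div_iff₀ (by positivity)] at this
    linarith
  obtain ⟨τ₂, hτ₂, J₂, htm⟩ := hS.2 η hη0
  obtain ⟨J₃, hJ₃⟩ := exists_nat_gt (1 / η)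
  obtain ⟨J₄, hJ₄⟩ := exists_nat_gt (2 * Real.log 2 / δ₁)
  obtain ⟨δ, hδ⟩ : ∃ δ : ℝ, δ = min (δ₁ / 2) (τ₂ / 2) := ⟨_, rfl⟩
  have hδ0 : 0 < δ := by rw [hδ]; exact lt_min (by linarith) (by linarith)
  have hδ1 : δ ≤ δ₁ / 2 := by rw [hδ]; exact min_le_left _ _
  have hδ2 : δ ≤ τ₂ / 2 := by rw [hδ]; exact min_le_right _ _
  refine ⟨δ, hδ0, min τ₁ (τ₂ - δ), lt_min hτ₁ (by linarith), max (max J₁ J₂) (max J₃ J₄), ?_⟩
  intro J hJ F A hA a₀ w₀ a₁ n N e₀ k p Kv g gT ε₁ ε₂ B G H₀ T TH Gp lam k0 k1 k2 k3 k4 k5 k6 k7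
    k8 k9 k10 k11 k12 k13 k14 k15 hBA hT hL
  by_contra hcon
  push Not at hcon
  have hJ1 : J₁ ≤ J := ((le_max_left _ _).trans (le_max_left _ _)).trans hJ
  have hJ2 : J₂ ≤ J := ((le_max_right _ _).trans (le_max_left _ _)).trans hJ
  have hJ3 : (1 : ℝ) / η < J := hJ₃.trans_le (by
    exact_mod_cast ((le_max_left _ _).trans (le_max_right _ _)).trans hJ)
  have hJ4 : 2 * Real.log 2 / δ₁ < J := hJ₄.trans_le (by
    exact_mod_cast ((le_max_right _ _).trans (le_max_right _ _)).trans hJ)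
  have hJ0 : (0 : ℝ) ≤ J := Nat.cast_nonneg J
  have hp := Pe_nonneg F.isLaw
  have hA1 : S.St τ₁ J F A := S.mono (min_le_left _ _) hA
  have hA2 : S.St (τ₂ - δ) J F A := S.mono (min_le_right _ _) hA
  have hB2 : S.St τ₂ J F B := by
    have h1 := S.res (by linarith) hA2 hBA hcon.le
    rw [show τ₂ - δ + δ = τ₂ by ring] at h1
    exact h1
  have hB0 : 0 < Pe F.p B := hS.1 _ _ _ _ hB2
  have hTm := htm J hJ2 F B hB2 hB0
  have hηJ : 1 ≤ η * J := by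
    rw [div_lt_iff₀ hη0] at hJ3
    linarith
  have hCη : (C : ℝ) * (η * J + 1) ≤ 2 * C * η * J := by
    have h1 : (C : ℝ) * 1 ≤ C * (η * J) := mul_le_mul_of_nonneg_left hηJ hC0.le
    linarith
  obtain ⟨B', Gt, Ht, l1, l2, l3, l4, l5, l6, l7⟩ := hfin hB0 hc k4 k13 k14 (fun l hl => k11 l hl)
    k3 (by
      have h1 : (⌊(w : ℝ) * J⌋₊ : ℝ) ≤ w * J := Nat.floor_le (mul_nonneg hw0R hJ0)
      have h2 : (w : ℝ) * J ≤ 1 * J := mul_le_mul_of_nonneg_right hwR.le hJ0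
      have h3 : (w₀ : ℝ) ≤ ⌊(w : ℝ) * J⌋₊ := by exact_mod_cast k2
      have h4 : (w₀ : ℝ) ≤ J := by linarith
      exact_mod_cast h4) (mul_nonneg hη0.le hJ0) hTm (by
      refine hCη.trans ?_
      have h1 : (⌊(w : ℝ) * J⌋₊ : ℝ) ≤ w * J := Nat.floor_le (mul_nonneg hw0R hJ0)
      have h3 : (w₀ : ℝ) ≤ ⌊(w : ℝ) * J⌋₊ := by exact_mod_cast k2
      calc 2 * C * η * J ≤ (1 - w) * Real.log 2 * J := mul_le_mul_of_nonneg_right hη2 hJ0
        _ = (J - w * J) * Real.log 2 := by ring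
        _ ≤ (J - w₀) * Real.log 2 := mul_le_mul_of_nonneg_right (by linarith) hL2.le) (by
      have h1 : Real.exp (C * (η * J + 1)) ≤ Real.exp (ε * J * Real.log 2) := by
        refine Real.exp_le_exp.2 (hCη.trans ?_)
        calc 2 * C * η * J ≤ ε * Real.log 2 * J := mul_le_mul_of_nonneg_right hη1 hJ0
          _ = _ := by ring
      refine h1.trans ?_
      have h2 : Real.exp (ε * J * Real.log 2) ≤ Real.exp (k * Real.log 2) :=
        Real.exp_le_exp.2 (mul_le_mul_of_nonneg_right k5 hL2.le)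
      refine h2.trans (le_of_eq ?_)
      rw [mul_comm, Real.exp_mul, Real.exp_log (by norm_num : (0 : ℝ) < 2), Real.rpow_natCast]) hL
  have hch : ChOK F c i Kv a₀ w₀ (C + N + 2 * k + e₀) gT B' T TH :=
    (hT.mono le_rfl (fun _ => le_rfl) le_rfl (Nat.le_add_left _ _)).sub l1
  have hlb : Pool.NLB46.Lab F c i C a₀ w₀ (C + N + 2 * k + e₀) p gT T B' Gt Ht :=
    { degG := l3
      degH := l4
      depG := l5
      depH := l6
      pos := fun ω hω => (l7 ω hω).1.trans k15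
      agr := fun ω hω b hb => ((l7 ω hω).2.1 b hb).trans k15
      lip := fun ω hω b hb l hl => ((l7 ω hω).2.2 b hb l hl).trans (pow_le_pow_right₀
        (by norm_num) (by have := k12 l hl; omega)) }
  have h1 := hlab J hJ1 F A hA1 a₀ w₀ (C + N + 2 * k + e₀) p Kv gT T TH Gt Ht k0 k1 k2 k6 k7 k8 k9
    k10 B' (fun ω hω => hBA ω (l1 ω hω)) hch hlb
  have h2 : Pe F.p B ≤ 2 * (Real.exp (-(δ₁ * J)) * Pe F.p A) := by linarith
  have h3 : (2 : ℝ) * Real.exp (-(δ₁ * J)) ≤ Real.exp (-(δ * J)) := by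
    have e1 : (2 : ℝ) = Real.exp (Real.log 2) := (Real.exp_log (by norm_num)).symm
    rw [e1, ← Real.exp_add]
    refine Real.exp_le_exp.2 ?_
    rw [div_lt_iff₀ hδ₁] at hJ4
    have h4 : δ * J ≤ δ₁ / 2 * J := mul_le_mul_of_nonneg_right hδ1 hJ0
    linarith
  have h4 : 2 * (Real.exp (-(δ₁ * J)) * Pe F.p A) ≤ Real.exp (-(δ * J)) * Pe F.p A := by
    rw [← mul_assoc]
    exact mul_le_mul_of_nonneg_right h3 (hp A)
  linarith

end Pool.D2R
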