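import Pool.Agent.H23.D2.Cng

/-!
# Labels with closed natural components

`NuD`, `con_nu`: the spatial gradient of the visible chart `Gp` has closed natural components `ν`
relative to the closed ball chart of the window `w`. The label is
`Hno i + ∑ ν l * (X (c l) - Hno l)`, and it is the input of `con_lab`.
-/

set_option autoImplicit false

namespace Pool.D2R

open Finset Real MvPolynomial
open Pool.Agent.H49.Ent Pool.Agent.H32.Dense Pool.STK Pool.KA Pool.KSAT Pool.K2S Pool.PB Pool.S6C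
open Pool.GEN Pool.CHT Pool.CHX Pool.ISO
open Pool.PB.Trl (rt rt_mem t_rt)

variable {m J : ℕ}

/-- A polynomial which is bounded on the unit interval. -/
theorem pol_ext (K : ℕ) : ∃ C : ℝ, 1 ≤ C ∧ ∀ (q : Polynomial ℝ) (S : ℝ), q.natDegree ≤ K →
    (∀ t ∈ Set.Icc (0 : ℝ) 1, |q.eval t| ≤ S) → ∀ x : ℝ, |x| ≤ 2 → |q.eval x| ≤ C * S := by
  obtain ⟨C, hC, h⟩ := Pool.Agent.H40.FR.unit_coef K
  refine ⟨C * ((K + 1) * 2 ^ K), ?_, ?_⟩
  · have h1 : (1 : ℝ) ≤ (K + 1) * 2 ^ K := by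
      have h2 : (1 : ℝ) ≤ 2 ^ K := one_le_pow₀ (by norm_num)
      have h3 : (0 : ℝ) ≤ K := Nat.cast_nonneg K
      nlinarith
    nlinarith
  intro q S hq hS x hx
  have hS0 : 0 ≤ S := (abs_nonneg _).trans (hS 0 ⟨le_rfl, by norm_num⟩)
  have h1 := h q S hq hS
  rw [Polynomial.eval_eq_sum_range' (Nat.lt_succ_of_le hq)]
  refine (Finset.abs_sum_le_sum_abs _ _).trans ?_
  have h2 : ∀ j ∈ range (K + 1), |q.coeff j * x ^ j| ≤ C * S * 2 ^ K := by
    intro j hj
    rw [Finset.mem_range] at hj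
    rw [abs_mul, abs_pow]
    have h3 : |x| ^ j ≤ 2 ^ K := by
      refine (pow_le_pow_left₀ (abs_nonneg _) hx j).trans
        (pow_le_pow_right₀ (by norm_num) (by omega))
    exact mul_le_mul (h1 _) h3 (by positivity) (by positivity)
  refine (Finset.sum_le_sum h2).trans (le_of_eq ?_)
  rw [Finset.sum_const, Finset.card_range, nsmul_eq_mul]
  push_cast
  ring

/-- The own velocity is on the corrected polynomial. -/
theorem Hno_vel (F : Fam m J) (k : Fin m) {a : ℕ} (ha : a ≤ J)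
    (H : LnT F → MvPolynomial (Option (Fin m)) ℝ) (ω : F.Ω) :
    dd (Hno k H (slam F a ω)) (bt F ω) (bd F ω) = bd F ω (some k) := by
  have h1 : MvPolynomial.aeval (lc a (slam F a ω)) (Hno k H (slam F a ω)) =
      lc a (slam F a ω) (some k) := by
    refine Polynomial.funext fun τ => ?_
    rw [Pool.KBX.eval_aeval_poly]
    have e1 : (fun o => (lc a (slam F a ω) o).eval τ) =
        blo (slam F a ω) ((((slam F a ω).2.2 : ℝ) + τ) / 2 ^ a) :=
      funext fun o => eval_lc' (slam F a ω) a τ o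
    rw [e1, eval_Hno]
    have e2 : (lc a (slam F a ω) (some k)).eval τ =
        blo (slam F a ω) ((((slam F a ω).2.2 : ℝ) + τ) / 2 ^ a) (some k) := eval_lc' _ a τ _
    rw [e2]
    have e3 : blo (slam F a ω) ((((slam F a ω).2.2 : ℝ) + τ) / 2 ^ a) none =
        (((slam F a ω).2.2 : ℝ) + τ) / 2 ^ a := rfl
    rw [e3]
    unfold eso
    have e4 : blo (slam F a ω) ((((slam F a ω).2.2 : ℝ) + τ) / 2 ^ a) (some k) =
        (slam F a ω).1.1 k + (slam F a ω).1.2 k * ((((slam F a ω).2.2 : ℝ) + τ) / 2 ^ a) := rfl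
    rw [e4]
    ring
  have h2 := dd_own ha ω (Hno k H (slam F a ω))
  have h3 := (der_curve (lc a (slam F a ω)) (x := bt F ω) (V := (1 / 2 ^ a : ℝ) • bd F ω) (Z := 0)
    (s := rt F a ω) (fun o => eval_lc F ha ω o) (fun o => by
      rw [der_lc, Polynomial.eval_C]; rfl) (fun o => by
      rw [der_lc, Polynomial.derivative_C, Polynomial.eval_zero]; rfl) (X (some k))).1
  rw [h1] at h2
  rw [aeval_X] at h3
  rw [h3, dd_smul] at h2
  have h4 : dd (X (some k) : MvPolynomial (Option (Fin m)) ℝ) (bt F ω) (bd F ω) =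
      bd F ω (some k) := by
    classical
    unfold dd
    rw [Finset.sum_eq_single (some k)]
    · rw [pderiv_X_self, map_one, one_mul]
    · intro o _ ho
      rw [pderiv_X_of_ne (Ne.symm ho), map_zero, zero_mul]
    · intro h
      exact absurd (Finset.mem_univ _) h
  rw [h4] at h2
  have h5 : (1 : ℝ) / 2 ^ a ≠ 0 := by positivity
  exact (mul_left_cancel₀ h5 h2).symm

/-! ### Polynomials of the relative time -/

/-- The relative time, as a polynomial of the time. -/
noncomputable def rtq {ζ : Type} (w : ℕ) (s : ((Fin m → ℝ) × (Fin m → ℝ)) × ζ × ℕ) :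
    MvPolynomial (Option (Fin m)) ℝ := C (2 ^ w) * X none - C (s.2.2 : ℝ)

/-- **The label with the natural components `ν`**, relative to the charts `H`. -/
noncomputable def nuH {ζ : Type} (c : ℕ → Fin m) (w i : ℕ)
    (H : ((Fin m → ℝ) × (Fin m → ℝ)) × ζ × ℕ → ℕ → MvPolynomial (Option (Fin m)) ℝ)
    (ν : ((Fin m → ℝ) × (Fin m → ℝ)) × ζ × ℕ → ℕ → Polynomial ℝ)
    (s : ((Fin m → ℝ) × (Fin m → ℝ)) × ζ × ℕ) : MvPolynomial (Option (Fin m)) ℝ :=
  H s i + ∑ l ∈ range i, Polynomial.aeval (rtq w s) (ν s l) * (X (some (c l)) - H s l)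

theorem eval_rtq {ζ : Type} (w : ℕ) (s : ((Fin m → ℝ) × (Fin m → ℝ)) × ζ × ℕ)
    (b : Option (Fin m) → ℝ) : eval b (rtq w s) = 2 ^ w * b none - (s.2.2 : ℝ) := by
  unfold rtq
  rw [map_sub, map_mul, eval_C, eval_C, eval_X]

theorem eval_aev (p : MvPolynomial (Option (Fin m)) ℝ) (q : Polynomial ℝ)
    (b : Option (Fin m) → ℝ) : eval b (Polynomial.aeval p q) = q.eval (eval b p) := by
  rw [Polynomial.aeval_eq_sum_range, map_sum, Polynomial.eval_eq_sum_range]
  refine Finset.sum_congr rfl fun j _ => ?_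
  rw [smul_eval, map_pow]

theorem deg_aev (p : MvPolynomial (Option (Fin m)) ℝ) (q : Polynomial ℝ) :
    (Polynomial.aeval p q).totalDegree ≤ q.natDegree * p.totalDegree := by
  rw [Polynomial.aeval_eq_sum_range]
  refine totalDegree_finsetSum_le fun j hj => ?_
  rw [Finset.mem_range] at hj
  refine (totalDegree_smul_le _ _).trans ((totalDegree_pow _ _).trans ?_)
  exact Nat.mul_le_mul_right _ (by omega)

theorem eval_nuH {ζ : Type} (c : ℕ → Fin m) (w i : ℕ)
    (H : ((Fin m → ℝ) × (Fin m → ℝ)) × ζ × ℕ → ℕ → MvPolynomial (Option (Fin m)) ℝ)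
    (ν : ((Fin m → ℝ) × (Fin m → ℝ)) × ζ × ℕ → ℕ → Polynomial ℝ)
    (s : ((Fin m → ℝ) × (Fin m → ℝ)) × ζ × ℕ) (b : Option (Fin m) → ℝ) :
    eval b (nuH c w i H ν s) = eval b (H s i) + ∑ l ∈ range i,
      (ν s l).eval (2 ^ w * b none - (s.2.2 : ℝ)) * (b (some (c l)) - eval b (H s l)) := by
  unfold nuH
  rw [map_add, map_sum]
  congr 1
  refine Finset.sum_congr rfl fun l _ => ?_
  rw [map_mul, eval_aev, eval_rtq, map_sub, eval_X]

theorem depC_nuH {ζ : Type} (c : ℕ → Fin m) (w i : ℕ)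
    (H : ((Fin m → ℝ) × (Fin m → ℝ)) × ζ × ℕ → ℕ → MvPolynomial (Option (Fin m)) ℝ)
    (ν : ((Fin m → ℝ) × (Fin m → ℝ)) × ζ × ℕ → ℕ → Polynomial ℝ)
    (s : ((Fin m → ℝ) × (Fin m → ℝ)) × ζ × ℕ) (h : ∀ l, DepC c l (H s l)) :
    DepC c i (nuH c w i H ν s) := by
  intro b b' h1 h2
  rw [eval_nuH, eval_nuH, h i b b' h1 h2, h1]
  congr 1
  refine Finset.sum_congr rfl fun l hl => ?_
  rw [Finset.mem_range] at hl
  rw [h2 l hl, h l b b' h1 fun j hj => h2 j (by omega)]

theorem deg_nuH {ζ : Type} (c : ℕ → Fin m) (w i D D₁ : ℕ)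
    (H : ((Fin m → ℝ) × (Fin m → ℝ)) × ζ × ℕ → ℕ → MvPolynomial (Option (Fin m)) ℝ)
    (ν : ((Fin m → ℝ) × (Fin m → ℝ)) × ζ × ℕ → ℕ → Polynomial ℝ)
    (s : ((Fin m → ℝ) × (Fin m → ℝ)) × ζ × ℕ) (h : ∀ l, (H s l).totalDegree ≤ D)
    (h' : ∀ l, (ν s l).natDegree ≤ D₁) (hD : 1 ≤ D) :
    (nuH c w i H ν s).totalDegree ≤ D₁ + D := by
  unfold nuH
  refine (totalDegree_add _ _).trans (max_le ((h i).trans (Nat.le_add_left _ _)) ?_)
  refine totalDegree_finsetSum_le fun l _ => ?_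
  refine (totalDegree_mul _ _).trans (Nat.add_le_add ?_ ?_)
  · refine (deg_aev _ _).trans ?_
    have h1 : (rtq w s).totalDegree ≤ 1 := by
      unfold rtq
      refine (totalDegree_sub _ _).trans (max_le ?_ ?_)
      · refine (totalDegree_mul _ _).trans ?_
        rw [totalDegree_C, totalDegree_X]
      · rw [totalDegree_C]
        exact Nat.zero_le _
    calc (ν s l).natDegree * (rtq w s).totalDegree ≤ D₁ * 1 := Nat.mul_le_mul (h' l) h1
      _ = D₁ := Nat.mul_one _
  · refine (totalDegree_sub _ _).trans (max_le ?_ (h l))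
    rw [totalDegree_X]
    exact hD

theorem dd_mul (P Q : MvPolynomial (Option (Fin m)) ℝ) (x V : Option (Fin m) → ℝ) :
    dd (P * Q) x V = eval x P * dd Q x V + eval x Q * dd P x V := by
  unfold dd
  rw [Finset.mul_sum, Finset.mul_sum, ← Finset.sum_add_distrib]
  refine Finset.sum_congr rfl fun o _ => ?_
  rw [pderiv_mul, map_add, map_mul, map_mul]
  ring

theorem dd_padd (P Q : MvPolynomial (Option (Fin m)) ℝ) (x V : Option (Fin m) → ℝ) :
    dd (P + Q) x V = dd P x V + dd Q x V := by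
  unfold dd
  rw [← Finset.sum_add_distrib]
  refine Finset.sum_congr rfl fun o _ => ?_
  rw [map_add, map_add]
  ring

theorem dd_sum {ι : Type} (S : Finset ι) (P : ι → MvPolynomial (Option (Fin m)) ℝ)
    (x V : Option (Fin m) → ℝ) : dd (∑ j ∈ S, P j) x V = ∑ j ∈ S, dd (P j) x V := by
  classical
  induction S using Finset.induction_on with
  | empty =>
    rw [Finset.sum_empty, Finset.sum_empty]
    unfold dd
    simp
  | insert a S ha ih => rw [Finset.sum_insert ha, Finset.sum_insert ha, dd_padd, ih]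

theorem dd_X (j : Fin m) (x V : Option (Fin m) → ℝ) :
    dd (X (some j) : MvPolynomial (Option (Fin m)) ℝ) x V = V (some j) := by
  classical
  unfold dd
  rw [Finset.sum_eq_single (some j)]
  · rw [pderiv_X_self, map_one, one_mul]
  · intro o _ ho
    rw [pderiv_X_of_ne (Ne.symm ho), map_zero, zero_mul]
  · intro h
    exact absurd (Finset.mem_univ _) h

/-- The derivative of the label at a point of the graph of the charts. -/
theorem dd_nuH {ζ : Type} (c : ℕ → Fin m) (w i : ℕ)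
    (H : ((Fin m → ℝ) × (Fin m → ℝ)) × ζ × ℕ → ℕ → MvPolynomial (Option (Fin m)) ℝ)
    (ν : ((Fin m → ℝ) × (Fin m → ℝ)) × ζ × ℕ → ℕ → Polynomial ℝ)
    (s : ((Fin m → ℝ) × (Fin m → ℝ)) × ζ × ℕ) (x V : Option (Fin m) → ℝ)
    (h : ∀ l < i, x (some (c l)) = eval x (H s l)) :
    dd (nuH c w i H ν s) x V = dd (H s i) x V + ∑ l ∈ range i,
      (ν s l).eval (2 ^ w * x none - (s.2.2 : ℝ)) * (V (some (c l)) - dd (H s l) x V) := by
  unfold nuH
  rw [dd_padd, dd_sum]
  congr 1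
  refine Finset.sum_congr rfl fun l hl => ?_
  rw [Finset.mem_range] at hl
  rw [dd_mul, dd_sub, dd_X, map_sub, eval_X, h l hl, sub_self, zero_mul, add_zero, eval_aev,
    eval_rtq]

theorem rt_eq (F : Fam m J) {w : ℕ} (hw : w ≤ J) (ω : F.Ω) :
    2 ^ w * F.t ω - ((slam F w ω).2.2 : ℝ) = rt F w ω := by
  rw [t_rt F hw ω]
  field_simp
  ring

/-- **The data**, with closed natural components `ν`, relative to the closed ball chart. -/
structure NuD (F : Fam m J) (c : ℕ → Fin m) (i D D₁ w a₁ a n N e : ℕ) (g gT : ℕ → ℕ)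
    (ε₁ ε₂ : ℝ) (B : F.Ω → Prop) (G : PtT F → ℕ → MvPolynomial (Option (Fin m)) ℝ)
    (H₀ : LnT F → ℕ → MvPolynomial (Option (Fin m)) ℝ)
    (T : PtT F → ℕ → MvPolynomial (Option (Fin m)) ℝ)
    (Gp : PtT F → MvPolynomial (Option (Fin m)) ℝ) (ν : LnT F → ℕ → Polynomial ℝ) : Prop where
  ball : ChOK F c (i + 1) (fun _ => D) a₁ w e g B G
    (fun s l => Hno (c l) (fun s => H₀ s l) s)
  thp : ∀ ω, B ω → ∀ l < i, |F.x ω (c l) - eval (bt F ω) (T (ptr F J ω) l)| ≤ 1 / 2 ^ gT l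
  inc : ∀ ω, B ω → ∀ b, NBx c (T (ptr F J ω)) gT a (F.t ω) i b →
    |b none - F.t ω| ≤ 1 / 2 ^ (a₁ + n) ∧
    ∀ l < i, |b (some (c l)) - eval b (G (ptr F J ω) l)| ≤ 1 / 2 ^ (g l + n)
  dν : ∀ s l, (ν s l).natDegree ≤ D₁
  bν : ∀ ω, B ω → ∀ l < i, ∀ τ ∈ Set.Icc (0 : ℝ) 1,
    |(ν (slam F w ω) l).eval τ| ≤ 2 ^ N * 2 ^ g l / 2 ^ g i
  nat : ∀ ω ν, B ω → B ν → ptr F J ω = ptr F J ν → ∀ l < i,
    |bd F ν (some (c l)) - dd (G (ptr F J ω) l) (bt F ω) (bd F ν)| ≤ 2 ^ N * 2 ^ a₁ / 2 ^ g l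
  vel : ∀ ω ν, B ω → B ν → ptr F J ω = ptr F J ν →
    |bd F ν (some (c i)) - dd (Gp (ptr F J ω)) (bt F ω) (bd F ν)| ≤ ε₂
  spa : ∀ ω, B ω → ∀ V : Option (Fin m) → ℝ, V none = 0 →
    |dd (Hno (c i) (fun s => H₀ s i) (slam F w ω)) (bt F ω) V + ∑ l ∈ range i,
      (ν (slam F w ω) l).eval (rt F w ω) * (V (some (c l)) -
        dd (Hno (c l) (fun s => H₀ s l) (slam F w ω)) (bt F ω) V) -
      dd (Gp (ptr F J ω)) (bt F ω) V| ≤ ε₁ * nrm c (G (ptr F J ω)) g a₁ i (bt F ω) V
  shf : ∀ ω ν, B ω → B ν → ptr F J ω = ptr F J ν → ∀ V : Option (Fin m) → ℝ, V none = 0 →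
    |dd (Gp (ptr F J ω)) (bt F ν) V - dd (Gp (ptr F J ω)) (bt F ω) V| ≤
      ε₁ * nrm c (G (ptr F J ω)) g a₁ i (bt F ω) V

/-- The label of `NuD`. -/
noncomputable def nuL (F : Fam m J) (c : ℕ → Fin m) (w i : ℕ)
    (H₀ : LnT F → ℕ → MvPolynomial (Option (Fin m)) ℝ) (ν : LnT F → ℕ → Polynomial ℝ) :
    LnT F → MvPolynomial (Option (Fin m)) ℝ :=
  nuH c w i (fun s l => Hno (c l) (fun s => H₀ s l) s) ν

/-- **The data of `con_lab`.** -/
theorem con_nu (D₁ i : ℕ) : ∃ C : ℕ, 1 ≤ C ∧ ∀ {m J : ℕ} {F : Fam m J} {c : ℕ → Fin m}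
    {D w a₁ a n N e : ℕ} {g gT : ℕ → ℕ} {ε₁ ε₂ : ℝ} {B : F.Ω → Prop}
    {G : PtT F → ℕ → MvPolynomial (Option (Fin m)) ℝ}
    {H₀ : LnT F → ℕ → MvPolynomial (Option (Fin m)) ℝ}
    {T : PtT F → ℕ → MvPolynomial (Option (Fin m)) ℝ}
    {Gp : PtT F → MvPolynomial (Option (Fin m)) ℝ} {ν : LnT F → ℕ → Polynomial ℝ},
    1 ≤ D → w ≤ a₁ → w ≤ J → NuD F c i D D₁ w a₁ a n N e g gT ε₁ ε₂ B G H₀ T Gp ν →
    ConD F c i (D₁ + D) w a₁ a n (N + C) e g gT ε₁ ε₂ B G
      (fun s l => Hno (c l) (fun s => H₀ s l) s) T Gp (nuL F c w i H₀ ν) := by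
  obtain ⟨C₁, hC₁, hext⟩ := pol_ext D₁
  obtain ⟨C, hC⟩ := pow_unbounded_of_one_lt (2 * (C₁ * i) + 1) (one_lt_two (α := ℝ))
  refine ⟨C + 1, by omega, ?_⟩
  intro m J F c D w a₁ a n N e g gT ε₁ ε₂ B G H₀ T Gp ν hD hwa hw hN
  have hi0 : (0 : ℝ) ≤ i := Nat.cast_nonneg i
  have hown : ∀ ω l, F.x ω (c l) =
      eval (bt F ω) (Hno (c l) (fun s => H₀ s l) (slam F w ω)) := fun ω l =>
    (Hno_own F (c l) w (fun s => H₀ s l) ω).symm
  have hdd : ∀ ω V, dd (nuL F c w i H₀ ν (slam F w ω)) (bt F ω) V =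
      dd (Hno (c i) (fun s => H₀ s i) (slam F w ω)) (bt F ω) V + ∑ l ∈ range i,
      (ν (slam F w ω) l).eval (rt F w ω) * (V (some (c l)) -
        dd (Hno (c l) (fun s => H₀ s l) (slam F w ω)) (bt F ω) V) := by
    intro ω V
    unfold nuL
    rw [dd_nuH _ _ _ _ _ _ _ _ (fun l _ => hown ω l)]
    have e1 : (2 : ℝ) ^ w * bt F ω none - ((slam F w ω).2.2 : ℝ) = rt F w ω := rt_eq F hw ω
    rw [e1]
  exact
    { ball := hN.ball.mono le_rfl (fun _ => Nat.le_add_left _ _) le_rfl le_rfl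
      dH := fun s => deg_nuH _ _ _ _ _ _ _ _ (fun l => hN.ball.degH s l) (hN.dν s) hD
      pH := fun s => depC_nuH _ _ _ _ _ _ fun l => hN.ball.depH s l
      thp := hN.thp
      inc := hN.inc
      own := fun ω hω => by
        unfold nuL
        rw [eval_nuH, ← hown ω i]
        have h1 : ∀ l ∈ range i, (ν (slam F w ω) l).eval (2 ^ w * bt F ω none -
            ((slam F w ω).2.2 : ℝ)) * (bt F ω (some (c l)) -
            eval (bt F ω) (Hno (c l) (fun s => H₀ s l) (slam F w ω))) = 0 := by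
          intro l _
          rw [← hown ω l]
          have e1 : bt F ω (some (c l)) = F.x ω (c l) := rfl
          rw [e1, sub_self, mul_zero]
        rw [Finset.sum_eq_zero h1, add_zero]
      ownv := fun ω hω => by
        rw [hdd, Hno_vel F (c i) hw]
        have h1 : ∀ l ∈ range i, (ν (slam F w ω) l).eval (rt F w ω) * (bd F ω (some (c l)) -
            dd (Hno (c l) (fun s => H₀ s l) (slam F w ω)) (bt F ω) (bd F ω)) = 0 := by
          intro l _
          rw [Hno_vel F (c l) hw, sub_self, mul_zero]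
        rw [Finset.sum_eq_zero h1, add_zero]
      big := fun ω hω b hb => by
        unfold nuL
        rw [eval_nuH]
        have h0 : ∀ k ≤ i, NBx c (G (ptr F J ω)) g a₁ (F.t ω) k b := fun k hk =>
          ⟨hb.1, fun j hj => hb.2 j (by omega)⟩
        have h1 : ∀ k ≤ i, |eval b (G (ptr F J ω) k) -
            eval b (Hno (c k) (fun s => H₀ s k) (slam F w ω))| ≤ 1 / 2 ^ g k := fun k hk =>
          hN.ball.agr ω hω k (by omega) b (h0 k hk)
        have hτ : |2 ^ w * b none - ((slam F w ω).2.2 : ℝ)| ≤ 2 := by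
          have h2 := rt_eq F hw ω
          have h3 := rt_mem F w ω
          have h4 : |(2 : ℝ) ^ w * (b none - F.t ω)| ≤ 1 := by
            rw [abs_mul, abs_of_pos (show (0 : ℝ) < 2 ^ w by positivity)]
            calc (2 : ℝ) ^ w * |b none - F.t ω| ≤ 2 ^ w * (1 / 2 ^ w) :=
                  mul_le_mul_of_nonneg_left (hb.1.trans (inv_mono hwa)) (by positivity)
              _ = 1 := by field_simp
          have e1 : (2 : ℝ) ^ w * b none - ((slam F w ω).2.2 : ℝ) =
              2 ^ w * (b none - F.t ω) + rt F w ω := by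
            rw [← h2]
            ring
          rw [e1]
          refine (abs_add_le _ _).trans ?_
          rw [abs_of_nonneg h3.1]
          linarith [h3.2]
        have h2 : ∀ l ∈ range i, |(ν (slam F w ω) l).eval (2 ^ w * b none -
            ((slam F w ω).2.2 : ℝ)) * (b (some (c l)) -
            eval b (Hno (c l) (fun s => H₀ s l) (slam F w ω)))| ≤
              2 * C₁ * (2 ^ N / 2 ^ g i) := by
          intro l hl
          rw [Finset.mem_range] at hl
          rw [abs_mul]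
          have h3 := hext (ν (slam F w ω) l) _ (hN.dν _ l) (hN.bν ω hω l hl) _ hτ
          have h4 : |b (some (c l)) - eval b (Hno (c l) (fun s => H₀ s l) (slam F w ω))| ≤
              2 / 2 ^ g l := by
            have e1 : b (some (c l)) - eval b (Hno (c l) (fun s => H₀ s l) (slam F w ω)) =
                (b (some (c l)) - eval b (G (ptr F J ω) l)) + (eval b (G (ptr F J ω) l) -
                  eval b (Hno (c l) (fun s => H₀ s l) (slam F w ω))) := by ring
            rw [e1]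
            refine (abs_add_le _ _).trans ((add_le_add (hb.2 l hl) (h1 l hl.le)).trans
              (le_of_eq (by ring)))
          calc _ ≤ C₁ * (2 ^ N * 2 ^ g l / 2 ^ g i) * (2 / 2 ^ g l) :=
                mul_le_mul h3 h4 (abs_nonneg _) (by positivity)
            _ = _ := by field_simp
        have h3 : |∑ l ∈ range i, (ν (slam F w ω) l).eval (2 ^ w * b none -
            ((slam F w ω).2.2 : ℝ)) * (b (some (c l)) -
            eval b (Hno (c l) (fun s => H₀ s l) (slam F w ω)))| ≤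
              i * (2 * C₁ * (2 ^ N / 2 ^ g i)) := by
          refine (Finset.abs_sum_le_sum_abs _ _).trans ((Finset.sum_le_sum h2).trans
            (le_of_eq ?_))
          rw [Finset.sum_const, Finset.card_range, nsmul_eq_mul]
        have h4 := h1 i le_rfl
        rw [abs_sub_comm] at h4
        have e1 : eval b (Hno (c i) (fun s => H₀ s i) (slam F w ω)) + ∑ l ∈ range i,
            (ν (slam F w ω) l).eval (2 ^ w * b none - ((slam F w ω).2.2 : ℝ)) *
            (b (some (c l)) - eval b (Hno (c l) (fun s => H₀ s l) (slam F w ω))) -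
            eval b (G (ptr F J ω) i) =
            (eval b (Hno (c i) (fun s => H₀ s i) (slam F w ω)) - eval b (G (ptr F J ω) i)) +
            ∑ l ∈ range i, (ν (slam F w ω) l).eval (2 ^ w * b none -
              ((slam F w ω).2.2 : ℝ)) * (b (some (c l)) -
              eval b (Hno (c l) (fun s => H₀ s l) (slam F w ω))) := by ring
        rw [e1]
        refine (abs_add_le _ _).trans ((add_le_add h4 h3).trans ?_)
        have hN1 : (1 : ℝ) ≤ 2 ^ N := one_le_pow₀ (by norm_num)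
        have h5 : (1 : ℝ) / 2 ^ g i ≤ 2 ^ N / 2 ^ g i :=
          div_le_div_of_nonneg_right hN1 (by positivity)
        have h6 : (0 : ℝ) ≤ 2 ^ N / 2 ^ g i := by positivity
        calc 1 / 2 ^ g i + i * (2 * C₁ * (2 ^ N / 2 ^ g i)) ≤
              2 ^ N / 2 ^ g i + i * (2 * C₁ * (2 ^ N / 2 ^ g i)) := add_le_add h5 le_rfl
          _ = (2 * (C₁ * i) + 1) * (2 ^ N / 2 ^ g i) := by ring
          _ ≤ 2 ^ (C + 1) * (2 ^ N / 2 ^ g i) := by
            refine mul_le_mul_of_nonneg_right (hC.le.trans ?_) h6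
            exact pow_le_pow_right₀ (by norm_num) (Nat.le_succ C)
          _ = _ := by
            rw [pow_add _ N]
            ring
      nat := fun ω ν hω hν hpt l hl => (hN.nat ω ν hω hν hpt l hl).trans
        (div_le_div_of_nonneg_right (mul_le_mul_of_nonneg_right
          (pow_le_pow_right₀ (by norm_num) (Nat.le_add_right _ _)) (by positivity))
          (by positivity))
      vel := hN.vel
      spa := fun ω hω V hV => by
        rw [hdd]
        exact hN.spa ω hω V hV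
      shf := hN.shf }

end Pool.D2R
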