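import Pool.Agent.H23.D2.Thp
import Pool.Agent.H42.D2.Jcc

/-!
# The critical slope: the large case

`jA`, `jZ`: the gradient of the row in the static direction; the second derivative of the row along the
static chart, in the thin direction. `st_big`, `ts_big`: where the second derivative is not small, with
a closed gradient of the row in the static direction, the event is small.
-/

set_option autoImplicit false

namespace Pool.TNW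

open Finset Real MvPolynomial
open Pool.Agent.H49.Ent Pool.Agent.H32.Dense Pool.STK Pool.KA Pool.KSAT Pool.K2S Pool.PB Pool.S6C
open Pool.GEN Pool.CHT Pool.CHX Pool.ISO Pool.D2R Pool.D2Z Pool.D2F Pool.TN
open Pool.LBT (ThrOf)
open Pool.FLF (Fam.sub)
open Pool.PB.Trl (rt rt_mem t_rt)

variable {m J : ℕ}

/-- The gradient of the row in the static direction `st`. -/
noncomputable def jA {F : Fam m J} (c : ℕ → Fin m) (Sc : ℕ → Prop) (w : ℕ → ℕ)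
    (G : ℕ → PtT F → ℕ → MvPolynomial (Option (Fin m)) ℝ)
    (TH : ℕ → LnT F → ℕ → MvPolynomial (Option (Fin m)) ℝ)
    (Ht : ℕ → LnT F → MvPolynomial (Option (Fin m)) ℝ) (i i₁ k st : ℕ) (ω : F.Ω) : ℝ :=
  cv (gG G ω k 3 - grd (Ht i₁ (slam F (w i₁) ω)) (bt F ω))
    (ev c 3 (mx Sc (kT w TH ω i) (gG G ω k)) st)

/-- The second derivative of the row along the static chart `st`, in the thin direction `j`. -/
noncomputable def jZ {F : Fam m J} (c : ℕ → Fin m) (Sc : ℕ → Prop) (w : ℕ → ℕ)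
    (G : ℕ → PtT F → ℕ → MvPolynomial (Option (Fin m)) ℝ)
    (TH : ℕ → LnT F → ℕ → MvPolynomial (Option (Fin m)) ℝ)
    (Ht : ℕ → LnT F → MvPolynomial (Option (Fin m)) ℝ) (i i₁ k st j : ℕ) (ω : F.Ω) : ℝ :=
  hs (Ht i₁ (slam F (w i₁) ω)) (bt F ω) (bd F ω)
      (ev c 3 (mx Sc (kT w TH ω i) (gG G ω k)) j) -
    cv (gG G ω k 3 - grd (Ht i₁ (slam F (w i₁) ω)) (bt F ω))
      (ev c 3 (mx Sc (kT w TH ω i) (gG G ω k)) st) *
    hs (TH i (slam F (w i) ω) st) (bt F ω) (bd F ω)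
      (ev c 3 (mx Sc (kT w TH ω i) (gG G ω k)) j)

/-- **The large case, static place one and thin place two.** -/
theorem st_big (m D D₁ : ℕ) (hD : 1 ≤ D) : ∃ C : ℕ, 1 ≤ C ∧
    ∀ {θ : ℝ} {S : PCl m} {P : List (Fin m) × Fin m → ℝ → ℝ → ℝ} (_ : ThrOf (chsys m θ) S P)
    (_ : TmH S) (c : ℕ → Fin m) (_ : Set.InjOn c (Set.Iio (3 + 1))) (a w' : ℚ)
    (b eb h' ε κ₀ : ℝ) (_ : 0 ≤ w') (_ : w' ≤ a) (_ : a ≤ 1) (_ : b < 1) (_ : eb < θ * w')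
    (_ : 0 < h') (_ : bet P c 2 a w' + h' ≤ 1) (_ : 0 < ε) (_ : 0 < κ₀),
    Bas S (fun J F A₀ => ∀ {Dr N M A cl : ℕ} {Sc : ℕ → Prop} {w e h pp : ℕ → ℕ}
      {z g gc gT g₀ : ℕ → ℕ → ℕ} {κ : ℝ} {B : F.Ω → Prop}
      {G : ℕ → PtT F → ℕ → MvPolynomial (Option (Fin m)) ℝ}
      {H : ℕ → LnT F → ℕ → MvPolynomial (Option (Fin m)) ℝ}
      {T : ℕ → PtT F → ℕ → MvPolynomial (Option (Fin m)) ℝ}
      {TH : ℕ → LnT F → ℕ → MvPolynomial (Option (Fin m)) ℝ}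
      {Gt : ℕ → PtT F → MvPolynomial (Option (Fin m)) ℝ}
      {Ht : ℕ → LnT F → MvPolynomial (Option (Fin m)) ℝ},
      CEv F c 3 D Dr N M A cl Sc w e h pp z g gc gT g₀ κ B G H T TH Gt Ht → Sub B A₀ →
      ε * J ≤ cl → C ≤ cl → ¬ Sc 0 → Sc 1 → ¬ Sc 2 →
      ∀ {X Y f dd i i₁ t k p : ℕ} {mu mu₂ : LnT F → Polynomial ℝ},
      JNum N A cl X f dd w pp gc gT g₀ i i₁ t k p 2 1 →
      f + dd + C * (cl + X + 1) ≤ w t - w i₁ →
      (∀ s, (mu s).natDegree ≤ D₁) → (∀ s, (mu₂ s).natDegree ≤ D₁) →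
      (∀ ω, B ω → |jA c Sc w G TH Ht i i₁ k 1 ω - (mu (slam F (w t) ω)).eval (rt F (w t) ω)| ≤
        2 ^ Y * (2 ^ g₀ k 1 / 2 ^ g₀ k 3)) →
      (∀ ω, B ω → |gG G ω k 2 (some (c 1)) - (mu₂ (slam F (w t) ω)).eval (rt F (w t) ω)| ≤
        2 ^ Y * (2 ^ g₀ k 1 / 2 ^ g₀ k 2)) →
      (∀ ω, B ω → 2 ^ (w k + g₀ k 2) / 2 ^ (g₀ k 3 + dd) ≤ |jZ c Sc w G TH Ht i i₁ k 1 2 ω|) →
      (w k : ℝ) ≤ b * J →
      NumG 2 J (w t) (w k) ⌊(a : ℝ) * J⌋₊ ⌊(w' : ℝ) * J⌋₊ ⌊eb * J⌋₊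
        ⌊(bet P c 2 a w' + h') * J⌋₊ (e k) dd (C * (cl + X + Y + 1)) (g₀ k) →
      Pe F.p B < κ₀ * Pe F.p A₀) := by
  classical
  obtain ⟨C₁, hC₁, hj⟩ := jcl_st_ev m D
  obtain ⟨C₂, hC₂, hend⟩ := thin_end m D (D₁ + 4 * D) 3 2 hD (by norm_num) (Or.inr rfl)
  obtain ⟨C, hC⟩ : ∃ C, C = C₂ * (C₁ + 4) + 2 * C₁ := ⟨_, rfl⟩
  refine ⟨C, by omega, ?_⟩
  intro θ S P hP hT c hc a w' b eb h' ε κ₀ hw0 hwa ha hb he hh h2 hε hκ
  have hL2 : 0 < Real.log 2 := Real.log_pos (by norm_num)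
  obtain ⟨μ, hμ⟩ : ∃ μ : ℝ, μ = min ε (1 - b) * Real.log 2 / 2 := ⟨_, rfl⟩
  have hμ0 : 0 < μ := by
    rw [hμ]
    have : 0 < min ε (1 - b) := lt_min hε (by linarith)
    positivity
  have hC1R : (1 : ℝ) ≤ C₁ := by exact_mod_cast hC₁
  have hC10 : (0 : ℝ) < C₁ := by linarith
  obtain ⟨ε₁, hε₁⟩ : ∃ ε₁ : ℝ, ε₁ = μ / C₁ := ⟨_, rfl⟩
  have hε₁0 : 0 < ε₁ := by rw [hε₁]; positivity
  have htm := bas_ev (hT.2 ε₁ hε₁0) (show 0 < κ₀ / 8 by positivity)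
  have hpos : Bas S (fun _ F A => 0 < Pe F.p A) := ⟨1, one_pos, 0, fun J _ F A hA =>
    hT.1 1 J F A hA⟩
  obtain ⟨J₁, hJ₁⟩ := exists_nat_ge ((C₁ : ℝ) / μ)
  refine Bas.mono J₁ (((hend hP hT c hc a w' b eb h' ε (κ₀ / 8) hw0 hwa ha hb he hh h2 hε
    (by positivity)).and htm).and hpos) ?_
  rintro J hJ F A₀ ⟨⟨hA, htA⟩, hA0⟩
  intro Dr N M A cl Sc w e h pp z g gc gT g₀ κ B G H T TH Gt Ht E hBA hεc hCc hs0 hs1 hs2 X Y f dd
    i i₁ t k p mu mu₂ n hfr hm1' hm2' hmu hmu2 hbig hKb nu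
  by_contra hcon
  rw [not_lt] at hcon
  have hB0 : 0 < Pe F.p B := (mul_pos hκ hA0).trans_le hcon
  have hJ0 : (0 : ℝ) ≤ J := Nat.cast_nonneg J
  have hJ1 : (C₁ : ℝ) ≤ μ * J := by
    have h2 : (J₁ : ℝ) ≤ J := by exact_mod_cast hJ
    have h3 := hJ₁.trans h2
    rw [div_le_iff₀ hμ0] at h3
    linarith
  have hθ0 : 0 ≤ ε₁ * J := by positivity
  have hmain : C₁ * (ε₁ * J + 1) ≤ min ε (1 - b) * Real.log 2 * J := by
    have e1 : C₁ * (ε₁ * J) = μ * J := by rw [hε₁]; field_simp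
    have e2 : 2 * (μ * J) = min ε (1 - b) * Real.log 2 * J := by rw [hμ]; ring
    rw [mul_add, mul_one, e1]
    linarith
  have hm1 : C₁ * (ε₁ * J + 1) ≤ cl * Real.log 2 := by
    refine hmain.trans ?_
    have e1 : min ε (1 - b) * Real.log 2 * J ≤ ε * Real.log 2 * J :=
      mul_le_mul_of_nonneg_right (mul_le_mul_of_nonneg_right (min_le_left _ _) hL2.le) hJ0
    have e2 := mul_le_mul_of_nonneg_right hεc hL2.le
    linarith
  have hm2 : ∀ x, x ≤ w k → C₁ * (ε₁ * J + 1) ≤ ((J : ℝ) - x) * Real.log 2 := by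
    intro x hx
    refine hmain.trans ?_
    have e1 : min ε (1 - b) * Real.log 2 * J ≤ (1 - b) * Real.log 2 * J :=
      mul_le_mul_of_nonneg_right (mul_le_mul_of_nonneg_right (min_le_right _ _) hL2.le) hJ0
    have e2 : (x : ℝ) ≤ b * J := le_trans (by exact_mod_cast hx) hKb
    have e3 := mul_le_mul_of_nonneg_right e2 hL2.le
    linarith
  have hexp : Real.exp (C₁ * (ε₁ * J + 1)) ≤ 2 ^ cl := by
    have e2 : Real.exp (C₁ * (ε₁ * J + 1)) ≤ Real.exp (cl * Real.log 2) :=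
      Real.exp_le_exp.2 hm1
    rw [mul_comm (cl : ℝ), ← Real.rpow_def_of_pos (by norm_num), Real.rpow_natCast] at e2
    exact e2
  obtain ⟨B', b1, b2, b3⟩ := hj E (Y := Y) (n := cl) hs0 hs1 hs2 n hB0 hθ0 (fun B' hB' s1 s2 =>
    htA B' (fun ω hω => hBA ω (s1 ω hω)) (by linarith) hB') (hm2 _ (n.i1t.trans n.tk)) hexp (by
      have e1 : C₁ * (cl + X + cl + 1) ≤ 2 * (C₁ * (cl + X + 1)) := by nlinarith
      have e2 : C * (cl + X + 1) = C₂ * (C₁ + 4) * (cl + X + 1) + 2 * (C₁ * (cl + X + 1)) := by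
        rw [hC]; ring
      omega) hmu hmu2 hbig
  have hE2 := E.sb (B' := B') (κ₁ := 1 / 2) (κ₂ := 2 * max κ 0) b1 (by linarith) (by positivity)
    (by
      have := le_max_left κ 0
      linarith)
  have hX : C₂ * (cl + (C₁ * (cl + X + Y + 1) + 2 * X) + 1) ≤ C * (cl + X + Y + 1) := by
    have e1 : C * (cl + X + Y + 1) = C₂ * ((C₁ + 4) * (cl + X + Y + 1)) +
      2 * C₁ * (cl + X + Y + 1) := by rw [hC]; ring
    rw [e1]
    refine le_trans (Nat.mul_le_mul_left C₂ ?_) (Nat.le_add_right _ _)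
    nlinarith
  have hfin := hA hE2 (fun ω hω => hBA ω (b1 ω hω)) hεc
    (by
      have : C₂ ≤ C₂ * (C₁ + 4) := Nat.le_mul_of_pos_right C₂ (by omega)
      omega) (i₀ := i) (t := t)
    (k := k) (X := C₁ * (cl + X + Y + 1) + 2 * X) (dd := dd)
    (lam := lamS c (w t) (fun s => Ht i₁ (co (w t - w i₁) s)) (Xcf w TH Sc i t) mu mu₂) n.tN n.kN
    n.tk n.pk n.ck hs0 (fun _ => ⟨n.iN, n.it, (n.cT 1 (by norm_num)).1,
      (n.cT 1 (by norm_num)).2.2.2, by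
        have := n.m1
        have := n.lb
        omega⟩)
    (fun s j => lamS_deg c (w t) (fun s => (E.evs i₁ n.i1N).dH _) (fun s l => by
      unfold Xcf
      split_ifs
      · exact deg_TH E n.iN _ l
      · exact deg_TH E n.tN _ l) hm1' hm2' s j)
    (fun ω hω V hV => (b3 ω hω V hV).trans (mul_le_mul_of_nonneg_right
      (div_le_div_of_nonneg_right (p2 (by omega)) (by positivity)) (en_nonneg _ _ _ _ _ _))) hKb
    { K1 := nu.K1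
      t1 := nu.t1
      n1 := by have := nu.n1; omega
      n2 := fun l hl => by have := nu.n2 l hl; omega
      n4 := fun l hl => hX.trans (nu.n4 l hl)
      n5 := by have := nu.n5; omega
      n6 := by have := nu.n6; omega }
  linarith

/-- **The large case, thin place one and static place two.** -/
theorem ts_big (m D D₁ : ℕ) (hD : 1 ≤ D) : ∃ C : ℕ, 1 ≤ C ∧
    ∀ {θ : ℝ} {S : PCl m} {P : List (Fin m) × Fin m → ℝ → ℝ → ℝ} (_ : ThrOf (chsys m θ) S P)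
    (_ : TmH S) (c : ℕ → Fin m) (_ : Set.InjOn c (Set.Iio (3 + 1))) (a w' : ℚ)
    (b eb h' ε κ₀ : ℝ) (_ : 0 ≤ w') (_ : w' ≤ a) (_ : a ≤ 1) (_ : b < 1) (_ : eb < θ * w')
    (_ : 0 < h') (_ : bet P c 1 a w' + h' ≤ 1) (_ : 0 < ε) (_ : 0 < κ₀),
    Bas S (fun J F A₀ => ∀ {Dr N M A cl : ℕ} {Sc : ℕ → Prop} {w e h pp : ℕ → ℕ}
      {z g gc gT g₀ : ℕ → ℕ → ℕ} {κ : ℝ} {B : F.Ω → Prop}
      {G : ℕ → PtT F → ℕ → MvPolynomial (Option (Fin m)) ℝ}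
      {H : ℕ → LnT F → ℕ → MvPolynomial (Option (Fin m)) ℝ}
      {T : ℕ → PtT F → ℕ → MvPolynomial (Option (Fin m)) ℝ}
      {TH : ℕ → LnT F → ℕ → MvPolynomial (Option (Fin m)) ℝ}
      {Gt : ℕ → PtT F → MvPolynomial (Option (Fin m)) ℝ}
      {Ht : ℕ → LnT F → MvPolynomial (Option (Fin m)) ℝ},
      CEv F c 3 D Dr N M A cl Sc w e h pp z g gc gT g₀ κ B G H T TH Gt Ht → Sub B A₀ →
      ε * J ≤ cl → C ≤ cl → ¬ Sc 0 → ¬ Sc 1 → Sc 2 →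
      ∀ {X Y f dd y i i₁ t k p : ℕ} {mu : LnT F → Polynomial ℝ},
      JNum N A cl X f dd w pp gc gT g₀ i i₁ t k p 1 2 →
      JTs A cl X Y f dd y (C * (cl + X + 1)) w pp gc gT g₀ i i₁ t k →
      (∀ s, (mu s).natDegree ≤ D₁) →
      (∀ ω, B ω → |jA c Sc w G TH Ht i i₁ k 2 ω - (mu (slam F (w t) ω)).eval (rt F (w t) ω)| ≤
        2 ^ Y * (2 ^ g₀ k 2 / 2 ^ g₀ k 3)) →
      (∀ ω, B ω → 2 ^ (w k + g₀ k 1) / 2 ^ (g₀ k 3 + dd) ≤ |jZ c Sc w G TH Ht i i₁ k 2 1 ω|) →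
      (w k : ℝ) ≤ b * J →
      NumG 1 J (w t) (w k) ⌊(a : ℝ) * J⌋₊ ⌊(w' : ℝ) * J⌋₊ ⌊eb * J⌋₊
        ⌊(bet P c 1 a w' + h') * J⌋₊ (e k) dd (C * (cl + X + Y + 1)) (g₀ k) →
      Pe F.p B < κ₀ * Pe F.p A₀) := by
  classical
  obtain ⟨C₁, hC₁, hj⟩ := jcl_ts_ev m D D₁
  obtain ⟨C₂, hC₂, hend⟩ := thin_end m D (D₁ + 4 * D) 3 1 hD (by norm_num) (Or.inl rfl)
  obtain ⟨C, hC⟩ : ∃ C, C = C₂ * (C₁ + 4) + 2 * C₁ := ⟨_, rfl⟩
  refine ⟨C, by omega, ?_⟩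
  intro θ S P hP hT c hc a w' b eb h' ε κ₀ hw0 hwa ha hb he hh h2 hε hκ
  have hL2 : 0 < Real.log 2 := Real.log_pos (by norm_num)
  obtain ⟨μ, hμ⟩ : ∃ μ : ℝ, μ = min ε (1 - b) * Real.log 2 / 2 := ⟨_, rfl⟩
  have hμ0 : 0 < μ := by
    rw [hμ]
    have : 0 < min ε (1 - b) := lt_min hε (by linarith)
    positivity
  have hC1R : (1 : ℝ) ≤ C₁ := by exact_mod_cast hC₁
  have hC10 : (0 : ℝ) < C₁ := by linarith
  obtain ⟨ε₁, hε₁⟩ : ∃ ε₁ : ℝ, ε₁ = μ / C₁ := ⟨_, rfl⟩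
  have hε₁0 : 0 < ε₁ := by rw [hε₁]; positivity
  have htm := bas_ev (hT.2 ε₁ hε₁0) (show 0 < κ₀ / 8 by positivity)
  have hpos : Bas S (fun _ F A => 0 < Pe F.p A) := ⟨1, one_pos, 0, fun J _ F A hA =>
    hT.1 1 J F A hA⟩
  obtain ⟨J₁, hJ₁⟩ := exists_nat_ge ((C₁ : ℝ) / μ)
  refine Bas.mono J₁ (((hend hP hT c hc a w' b eb h' ε (κ₀ / 8) hw0 hwa ha hb he hh h2 hε
    (by positivity)).and htm).and hpos) ?_
  rintro J hJ F A₀ ⟨⟨hA, htA⟩, hA0⟩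
  intro Dr N M A cl Sc w e h pp z g gc gT g₀ κ B G H T TH Gt Ht E hBA hεc hCc hs0 hs1 hs2 X Y f dd
    y i i₁ t k p mu n nt hm1' hmu hbig hKb nu
  by_contra hcon
  rw [not_lt] at hcon
  have hB0 : 0 < Pe F.p B := (mul_pos hκ hA0).trans_le hcon
  have hJ0 : (0 : ℝ) ≤ J := Nat.cast_nonneg J
  have hJ1 : (C₁ : ℝ) ≤ μ * J := by
    have h2 : (J₁ : ℝ) ≤ J := by exact_mod_cast hJ
    have h3 := hJ₁.trans h2
    rw [div_le_iff₀ hμ0] at h3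
    linarith
  have hθ0 : 0 ≤ ε₁ * J := by positivity
  have hmain : C₁ * (ε₁ * J + 1) ≤ min ε (1 - b) * Real.log 2 * J := by
    have e1 : C₁ * (ε₁ * J) = μ * J := by rw [hε₁]; field_simp
    have e2 : 2 * (μ * J) = min ε (1 - b) * Real.log 2 * J := by rw [hμ]; ring
    rw [mul_add, mul_one, e1]
    linarith
  have hm1 : C₁ * (ε₁ * J + 1) ≤ cl * Real.log 2 := by
    refine hmain.trans ?_
    have e1 : min ε (1 - b) * Real.log 2 * J ≤ ε * Real.log 2 * J :=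
      mul_le_mul_of_nonneg_right (mul_le_mul_of_nonneg_right (min_le_left _ _) hL2.le) hJ0
    have e2 := mul_le_mul_of_nonneg_right hεc hL2.le
    linarith
  have hm2 : ∀ x, x ≤ w k → C₁ * (ε₁ * J + 1) ≤ ((J : ℝ) - x) * Real.log 2 := by
    intro x hx
    refine hmain.trans ?_
    have e1 : min ε (1 - b) * Real.log 2 * J ≤ (1 - b) * Real.log 2 * J :=
      mul_le_mul_of_nonneg_right (mul_le_mul_of_nonneg_right (min_le_right _ _) hL2.le) hJ0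
    have e2 : (x : ℝ) ≤ b * J := le_trans (by exact_mod_cast hx) hKb
    have e3 := mul_le_mul_of_nonneg_right e2 hL2.le
    linarith
  have hexp : Real.exp (C₁ * (ε₁ * J + 1)) ≤ 2 ^ cl := by
    have e2 : Real.exp (C₁ * (ε₁ * J + 1)) ≤ Real.exp (cl * Real.log 2) :=
      Real.exp_le_exp.2 hm1
    rw [mul_comm (cl : ℝ), ← Real.rpow_def_of_pos (by norm_num), Real.rpow_natCast] at e2
    exact e2
  have hQ : C₁ * (cl + X + cl + 1) ≤ C * (cl + X + 1) := by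
    have e1 : C₁ * (cl + X + cl + 1) ≤ 2 * (C₁ * (cl + X + 1)) := by nlinarith
    have e2 : C * (cl + X + 1) = C₂ * (C₁ + 4) * (cl + X + 1) + 2 * (C₁ * (cl + X + 1)) := by
      rw [hC]; ring
    omega
  have hfr := nt.fr
  have hnv := nt.nv
  obtain ⟨B', b1, b2, b3⟩ := hj E (Y := Y) (n := cl) (y := y) hs0 hs1 hs2 n
    ⟨nt.ii, nt.cT, nt.pi, nt.ci, nt.lb, nt.ex, by omega, by omega⟩ hB0 hθ0 (fun B' hB' s1 s2 =>
    htA B' (fun ω hω => hBA ω (s1 ω hω)) (by linarith) hB') (hm2 _ n.tk) hexp hm1' hmu hbig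
  have hE2 := E.sb (B' := B') (κ₁ := 1 / 8) (κ₂ := 8 * max κ 0) b1 (by linarith) (by positivity)
    (by
      have := le_max_left κ 0
      linarith)
  have hX : C₂ * (cl + C₁ * (cl + X + Y + 1) + 1) ≤ C * (cl + X + Y + 1) := by
    have e1 : C * (cl + X + Y + 1) = C₂ * ((C₁ + 4) * (cl + X + Y + 1)) +
      2 * C₁ * (cl + X + Y + 1) := by rw [hC]; ring
    rw [e1]
    refine le_trans (Nat.mul_le_mul_left C₂ ?_) (Nat.le_add_right _ _)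
    nlinarith
  have hfin := hA hE2 (fun ω hω => hBA ω (b1 ω hω)) hεc
    (by
      have : C₂ ≤ C₂ * (C₁ + 4) := Nat.le_mul_of_pos_right C₂ (by omega)
      omega) (i₀ := i) (t := t)
    (k := k) (X := C₁ * (cl + X + Y + 1)) (dd := dd)
    (lam := lamT c (w t) (fun s => Ht i₁ (co (w t - w i₁) s)) (Xcf w TH Sc i t) mu) n.tN n.kN
    n.tk n.pk n.ck hs0 (fun h => absurd h (by norm_num))
    (fun s j => lamT_deg c (w t) (fun s => (E.evs i₁ n.i1N).dH _) (fun s l => by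
      unfold Xcf
      split_ifs
      · exact deg_TH E n.iN _ l
      · exact deg_TH E n.tN _ l) hm1' s j)
    (fun ω hω V hV => b3 ω hω V hV) hKb
    { K1 := nu.K1
      t1 := nu.t1
      n1 := by have := nu.n1; omega
      n2 := fun l hl => by have := nu.n2 l hl; omega
      n4 := fun l hl => hX.trans (nu.n4 l hl)
      n5 := by have := nu.n5; omega
      n6 := by have := nu.n6; omega }
  linarith

end Pool.TNW
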