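import Pool.Agent.H23.D2.Cra
import Pool.Agent.H66.D2.Dcv

/-!
# The second derivative of the row at two balls

`jY`: the quantity of the dichotomy in the frame of the ball at the point. `jY_st`: for a static place
one it does not depend on the ball. `jY_ts`: for a static place two, the change of the ball.
-/

set_option autoImplicit false

namespace Pool.TNW

open Finset Real MvPolynomial
open Pool.Agent.H49.Ent Pool.Agent.H32.Dense Pool.STK Pool.KA Pool.KSAT Pool.K2S Pool.PB Pool.S6C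
open Pool.GEN Pool.CHT Pool.CHX Pool.ISO Pool.D2R Pool.D2Z Pool.D2F Pool.TN
open Pool.FLF (Fam.sub)
open Pool.PB.Trl (rt rt_mem t_rt)

variable {m J : ℕ}

/-- The quantity of the dichotomy, in the frame of the ball at the point. -/
noncomputable def jY {F : Fam m J} (c : ℕ → Fin m) (Sc : ℕ → Prop) (w : ℕ → ℕ)
    (G : ℕ → PtT F → ℕ → MvPolynomial (Option (Fin m)) ℝ)
    (TH : ℕ → LnT F → ℕ → MvPolynomial (Option (Fin m)) ℝ)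
    (Ht : ℕ → LnT F → MvPolynomial (Option (Fin m)) ℝ) (i₀ i₁ i₂ i₃ st j : ℕ) (ω : F.Ω) : ℝ :=
  hs (Ht i₁ (slam F (w i₁) ω)) (bt F ω) (bd F ω) (ev c 3 (mx Sc (kc (w i₂)
      (Xcf w TH Sc i₀ i₂) ω) (gpt F (G i₃) (ptr F J ω))) j) -
    aS c 3 Sc (w i₂) st (Xcf w TH Sc i₀ i₂) (fun s => Ht i₁ (co (w i₂ - w i₁) s))
      (gpt F (G i₃)) ω * hs (TH i₀ (slam F (w i₀) ω) st) (bt F ω) (bd F ω)
      (ev c 3 (mx Sc (kc (w i₂) (Xcf w TH Sc i₀ i₂) ω) (gpt F (G i₃) (ptr F J ω))) j)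

section

variable {F : Fam m J} {c : ℕ → Fin m} {D Dr N M A cl : ℕ} {Sc : ℕ → Prop}
    {w e h pp : ℕ → ℕ} {z g gc gT g₀ : ℕ → ℕ → ℕ} {κ : ℝ} {B : F.Ω → Prop}
    {G : ℕ → PtT F → ℕ → MvPolynomial (Option (Fin m)) ℝ}
    {H : ℕ → LnT F → ℕ → MvPolynomial (Option (Fin m)) ℝ}
    {T : ℕ → PtT F → ℕ → MvPolynomial (Option (Fin m)) ℝ}
    {TH : ℕ → LnT F → ℕ → MvPolynomial (Option (Fin m)) ℝ}
    {Gt : ℕ → PtT F → MvPolynomial (Option (Fin m)) ℝ}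
    {Ht : ℕ → LnT F → MvPolynomial (Option (Fin m)) ℝ}
    {i₀ i₁ i₂ i₃ k : ℕ}

/-- **Static place one**: the second derivative in the direction two does not depend on the ball. -/
theorem jY_st (E : CEv F c 3 D Dr N M A cl Sc w e h pp z g gc gT g₀ κ B G H T TH Gt Ht)
    (h0 : i₀ ≤ N) (h1 : i₁ ≤ N) (h2 : i₂ ≤ N) (h3 : i₃ ≤ N) (hk : k ≤ N) (w0 : w i₀ ≤ w i₂)
    (ω : F.Ω) : jY c Sc w G TH Ht i₀ i₁ i₂ i₃ 1 2 ω = jZ c Sc w G TH Ht i₀ i₁ k 1 2 ω := by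
  have hc : Set.InjOn c (Set.Iio 3) := E.inj.mono (Set.Iio_subset_Iio (by norm_num))
  have hAJ : w i₂ ≤ J := (E.wA i₂ h2).trans E.AJ
  have hkc := kc_Xcf (TH := TH) (Sc := Sc) w0 hAJ ω
  have hκc : ∀ l, CvC c l (kT w TH ω i₀ l) := fun l =>
    cvc_grd ((E.evs i₀ h0).thin.depH _ l) _
  have hGc : ∀ i ≤ N, ∀ l, CvC c l (gG G ω i l) := fun i hi l =>
    cvc_grd ((E.evs i hi).ball.depG _ l) _
  have hΓc : ∀ l, CvC c l (gpt F (G i₃) (ptr F J ω) l) := fun l =>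
    cvc_grd ((E.evs i₃ h3).ball.depG _ l) _
  have hst := ev_stab (Sc := Sc) hc hκc hΓc (hGc k hk) (x := 2) (fun l hl hyl => by omega)
  have hQc : DepC c 3 (Ht i₁ (slam F (w i₁) ω)) := (E.evs i₁ h1).pH _
  have hTc : DepC c 1 (TH i₀ (slam F (w i₀) ω) 1) := (E.evs i₀ h0).thin.depH _ 1
  unfold jY jZ
  rw [hkc, mx_mx,
    hs_cong hc hQc _ _ (ev_none _ _ _ _) (ev_none _ _ _ _) hst,
    hs_zero_ev hc (by norm_num) (mx_cvc hκc hΓc) (by norm_num) hTc _ _,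
    hs_zero_ev hc (by norm_num) (mx_cvc hκc (hGc k hk)) (by norm_num) hTc _ _, mul_zero,
    mul_zero]

/-- The numbers of the change of the ball, for a static place two; `q'` the level of the thin place. -/
structure BigT (M N : ℕ) (w : ℕ → ℕ) (z g g₀ : ℕ → ℕ → ℕ) (i₀ i₃ k q' Q : ℕ) : Prop where
  n1 : g₀ i₃ 2 + (w i₀ + g₀ i₀ 1) + Q ≤ w i₃ + q' + g₀ i₀ 2
  n2 : ∃ a ≤ N, ∃ b ≤ N, ((a = i₃ ∧ b = k) ∨ (a = k ∧ b = i₃)) ∧ w a ≤ w b ∧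
    (∃ q ≤ M, z a q = w b - w a) ∧
    g₀ b 2 + g₀ i₃ 3 + (w i₀ + g₀ i₀ 1) + Q ≤
      min (g a 3 + (w b - w a)) (g₀ b 3) + w i₃ + q' + g₀ i₀ 2

end

/-- **Static place two**: the change of the ball. -/
theorem jY_ts (D : ℕ) : ∃ C : ℕ, 1 ≤ C ∧ ∀ {m J : ℕ} {F : Fam m J} {c : ℕ → Fin m}
    {Dr N M A cl : ℕ} {Sc : ℕ → Prop} {w e h pp : ℕ → ℕ} {z g gc gT g₀ : ℕ → ℕ → ℕ} {κ : ℝ}
    {B : F.Ω → Prop} {G : ℕ → PtT F → ℕ → MvPolynomial (Option (Fin m)) ℝ}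
    {H : ℕ → LnT F → ℕ → MvPolynomial (Option (Fin m)) ℝ}
    {T : ℕ → PtT F → ℕ → MvPolynomial (Option (Fin m)) ℝ}
    {TH : ℕ → LnT F → ℕ → MvPolynomial (Option (Fin m)) ℝ}
    {Gt : ℕ → PtT F → MvPolynomial (Option (Fin m)) ℝ}
    {Ht : ℕ → LnT F → MvPolynomial (Option (Fin m)) ℝ},
    CEv F c 3 D Dr N M A cl Sc w e h pp z g gc gT g₀ κ B G H T TH Gt Ht → C ≤ cl →
    ∀ {i₀ i₁ i₂ i₃ k X q' : ℕ}, i₀ ≤ N → i₁ ≤ N → i₂ ≤ N → i₃ ≤ N → k ≤ N →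
    w i₀ ≤ w i₂ → w i₁ ≤ w i₂ → ¬ Sc 0 → ¬ Sc 1 → Sc 2 →
    (∀ l < 3, cl ≤ gT i₀ l ∧ cl ≤ gc i₀ l) → cl ≤ pp i₀ → cl ≤ gc i₀ 3 →
    g₀ i₀ 2 + (A - w i₀) ≤ gT i₀ 2 + X →
    BigT M N w z g g₀ i₀ i₃ k q' (C * (cl + X + 1)) →
    ∀ ω, B ω → |jY c Sc w G TH Ht i₀ i₁ i₂ i₃ 2 1 ω - jZ c Sc w G TH Ht i₀ i₁ k 2 1 ω| ≤
      2 ^ (w i₃ + q') / 2 ^ g₀ i₃ 3 / 2 := by
  obtain ⟨C₂, hC₂, hgp⟩ := CEv.gptG D 3
  obtain ⟨C₃, hbal⟩ := bale_dd D 3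
  refine ⟨C₂ + C₃ + 60, by omega, ?_⟩
  intro m J F c Dr N M A cl Sc w e h pp z g gc gT g₀ κ B G H T TH Gt Ht E hcl i₀ i₁ i₂ i₃ k X q'
    h0 h1 h2 h3 hk w0 w1 hs0 hs1 hs2 hT hpp hgc hlb hnum ω hω
  obtain ⟨hn1, a, ha, b, hb, hkk, hwk, ⟨q, hq, hzq⟩, hn4⟩ := hnum
  have hc : Set.InjOn c (Set.Iio 3) := E.inj.mono (Set.Iio_subset_Iio (by norm_num))
  have hAJ : w i₂ ≤ J := (E.wA i₂ h2).trans E.AJ
  have hkc := kc_Xcf (TH := TH) (Sc := Sc) w0 hAJ ω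
  have hΦ : Ht i₁ (co (w i₂ - w i₁) (slam F (w i₂) ω)) = Ht i₁ (slam F (w i₁) ω) := by
    rw [co_slam F w1 hAJ]
  have hκc : ∀ l, CvC c l (kT w TH ω i₀ l) := fun l =>
    cvc_grd ((E.evs i₀ h0).thin.depH _ l) _
  have hGc : ∀ i ≤ N, ∀ l, CvC c l (gG G ω i l) := fun i hi l =>
    cvc_grd ((E.evs i hi).ball.depG _ l) _
  have hΓc : ∀ l, CvC c l (gpt F (G i₃) (ptr F J ω) l) := fun l =>
    cvc_grd ((E.evs i₃ h3).ball.depG _ l) _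
  have hst := ev_stab (Sc := Sc) hc hκc hΓc (hGc k hk) (x := 1) (fun l hl hyl => by
    have : l = 2 := by omega
    rw [this]
    exact hs2)
  have hQc : DepC c 3 (Ht i₁ (slam F (w i₁) ω)) := (E.evs i₁ h1).pH _
  have hTc : DepC c 2 (TH i₀ (slam F (w i₀) ω) 2) := (E.evs i₀ h0).thin.depH _ 2
  unfold jY jZ
  rw [hkc, mx_mx,
    hs_cong hc hQc _ _ (ev_none _ _ _ _) (ev_none _ _ _ _) hst,
    hs_cong (hc.mono (Set.Iio_subset_Iio (by norm_num))) hTc _ _ (ev_none _ _ _ _)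
      (ev_none _ _ _ _) (fun j hj => hst j (hj.trans (by norm_num)))]
  obtain ⟨V, hV⟩ : ∃ V, V = ev c 3 (mx Sc (kT w TH ω i₀) (gG G ω k)) 1 := ⟨_, rfl⟩
  have hV0 : V none = 0 := by rw [hV]; exact ev_none _ _ _ _
  rw [← hV]
  obtain ⟨zv, hzv⟩ : ∃ zv, zv = hs (TH i₀ (slam F (w i₀) ω) 2) (bt F ω) (bd F ω) V := ⟨_, rfl⟩
  rw [← hzv]
  obtain ⟨a', ha'⟩ : ∃ a', a' = cv (gG G ω k 3 - grd (Ht i₁ (slam F (w i₁) ω)) (bt F ω))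
      (ev c 3 (mx Sc (kT w TH ω i₀) (gG G ω k)) 2) := ⟨_, rfl⟩
  rw [← ha']
  obtain ⟨ao, hao⟩ : ∃ ao, ao = aS c 3 Sc (w i₂) 2 (Xcf w TH Sc i₀ i₂)
      (fun s => Ht i₁ (co (w i₂ - w i₁) s)) (gpt F (G i₃)) ω := ⟨_, rfl⟩
  rw [← hao]
  -- the vector of the last coordinate
  obtain ⟨W, hW⟩ : ∃ W, W = ev c 3 (mx Sc (kT w TH ω i₀) (gG G ω k)) 2 := ⟨_, rfl⟩
  have hW0 : W none = 0 := by rw [hW]; exact ev_none _ _ _ _
  have hWs := ev_stab (Sc := Sc) hc hκc hΓc (hGc k hk) (x := 2) (fun l hl hyl => by omega)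
  have hao' : ao = cv (gpt F (G i₃) (ptr F J ω) 3 - grd (Ht i₁ (slam F (w i₁) ω)) (bt F ω))
      W := by
    rw [hao, hW]
    unfold aS
    show cv (gpt F (G i₃) (ptr F J ω) 3 - grd (Ht i₁ (co (w i₂ - w i₁) (slam F (w i₂) ω)))
      (bt F ω)) _ = _
    rw [hΦ, hkc, mx_mx]
    refine cv_cong hc ?_ (ev_none _ _ _ _) (ev_none _ _ _ _) hWs
    intro l hl
    have b1 := hΓc 3 l hl
    have b2 := cvc_grd hQc (bt F ω) l hl
    show gpt F (G i₃) (ptr F J ω) 3 (some l) - grd (Ht i₁ (slam F (w i₁) ω)) (bt F ω)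
      (some l) = 0
    rw [b1, b2, sub_zero]
  rw [← hW] at ha'
  have hszW : ∀ i ≤ N, sz c (g₀ i) (gG G ω i) 3 W ≤ 2 ^ g₀ i 2 := by
    intro i hi
    rw [hW]
    exact sz_last hc (mx_cvc hκc (hGc k hk)) (hGc i hi) _
  -- the size of `z`
  have hz1 := E.zS h0 h0 le_rfl hT hpp hgc hω (l := 2) (by norm_num) (fun x hx h => by
      have : x = 0 ∨ x = 1 := by omega
      rcases this with h4 | h4
      · exact hs0 (h4 ▸ h)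
      · exact hs1 (h4 ▸ h)) (hT 2 (by norm_num)).1 hlb V
  rw [← hzv, en_sz _ _ _ _ _ hV0] at hz1
  have hz2 : sz c (g₀ i₀) (gG G ω i₀) 2 V ≤ 2 ^ g₀ i₀ 1 := by
    have b1 : sz c (g₀ i₀) (gG G ω i₀) 2 V = sz c (g₀ i₀) (gG G ω i₀) 2
        (ev c 2 (mx Sc (kT w TH ω i₀) (gG G ω k)) 1) := by
      have b2 : ∀ j < 2, V (some (c j)) =
          ev c 2 (mx Sc (kT w TH ω i₀) (gG G ω k)) 1 (some (c j)) := fun j hj => by
        rw [hV]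
        exact ev_cut hc (by norm_num) (mx_cvc hκc (hGc k hk)) 1 j hj
      unfold Pool.TN.sz
      refine Finset.sum_congr rfl fun j hj => ?_
      rw [Finset.mem_range] at hj
      rw [b2 j hj, cv_cong (hc.mono (Set.Iio_subset_Iio (hj.trans (by norm_num)).le)) (hGc i₀ h0 j)
        hV0 (ev_none _ _ _ _) (fun i hi => b2 i (hi.trans hj))]
    rw [b1]
    exact sz_last (hc.mono (Set.Iio_subset_Iio (by norm_num))) (mx_cvc hκc (hGc k hk))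
      (hGc i₀ h0) _
  have hz3 : |zv| ≤ 2 ^ (12 * cl + X + 22) * (2 ^ (w i₀ + g₀ i₀ 1) / 2 ^ g₀ i₀ 2) := by
    refine hz1.trans ((mul_le_mul_of_nonneg_left hz2 (by positivity)).trans (le_of_eq ?_))
    rw [show 12 * cl + 4 * 3 + X + 10 = 12 * cl + X + 22 by ring, pow_add _ (w i₀)]
    ring
  -- the two corrections
  have hd1 : |cv (gpt F (G i₃) (ptr F J ω) 3 - gG G ω i₃ 3) W| ≤ 2 ^ g₀ i₃ 2 /
      2 ^ g₀ i₃ 3 := by
    refine (hgp E (by omega) i₃ h3 ω hω 3 le_rfl W hW0).trans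
      ((mul_le_mul_of_nonneg_left (hszW i₃ h3) (by positivity)).trans (le_of_eq ?_))
    ring
  have hd2 : |cv (gG G ω i₃ 3 - gG G ω k 3) W| ≤ 2 ^ (C₃ + cl) * (2 ^ g₀ b 2 /
      2 ^ min (g a 3 + (w b - w a)) (g₀ b 3)) := by
    have h4 := hbal hc E.bal (by positivity) ha hb hq hwk hzq
      (fun y l => (E.evs a ha).ball.degG y l) (fun y l => (E.evs a ha).ball.depG y l)
      (E.evs b hb).ball ω hω 3 le_rfl W
    rw [nrm_en] at h4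
    have h5 : |cv (gG G ω a 3 - gG G ω b 3) W| ≤ 2 ^ C₃ * 2 ^ cl /
        2 ^ min (g a 3 + (w b - w a)) (g₀ b 3) * sz c (g₀ b) (gG G ω b) 3 W := by
      rw [← en_sz c (g₀ b) (w b) (gG G ω b) 3 hW0]
      unfold gG
      rw [cv_subl, cv_grd, cv_grd]
      exact h4
    have h9 : |cv (gG G ω i₃ 3 - gG G ω k 3) W| = |cv (gG G ω a 3 - gG G ω b 3) W| := by
      rcases hkk with ⟨rfl, rfl⟩ | ⟨rfl, rfl⟩
      · rfl
      · exact cv_swp _ _ _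
    rw [h9]
    refine h5.trans ((mul_le_mul_of_nonneg_left (hszW b hb) (by positivity)).trans
      (le_of_eq ?_))
    rw [pow_add]
    ring
  have hd3 : |a' - ao| ≤ 2 ^ g₀ i₃ 2 / 2 ^ g₀ i₃ 3 + 2 ^ (C₃ + cl) * (2 ^ g₀ b 2 /
      2 ^ min (g a 3 + (w b - w a)) (g₀ b 3)) := by
    have b1 : a' - ao = -(cv (gpt F (G i₃) (ptr F J ω) 3 - gG G ω i₃ 3) W +
        cv (gG G ω i₃ 3 - gG G ω k 3) W) := by
      rw [ha', hao', cv_subl, cv_subl, cv_subl, cv_subl]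
      ring
    rw [b1, abs_neg]
    exact (abs_add_le _ _).trans (add_le_add hd1 hd2)
  have hfin : hs (Ht i₁ (slam F (w i₁) ω)) (bt F ω) (bd F ω) V - ao * zv -
      (hs (Ht i₁ (slam F (w i₁) ω)) (bt F ω) (bd F ω) V - a' * zv) = (a' - ao) * zv := by
    ring
  rw [hfin, abs_mul]
  obtain ⟨R, hR⟩ : ∃ R : ℝ, R = 2 ^ (w i₃ + q') / 2 ^ g₀ i₃ 3 := ⟨_, rfl⟩
  have hR0 : 0 < R := by rw [hR]; positivity
  obtain ⟨S, hSS⟩ : ∃ S : ℝ, S = 2 ^ (w i₀ + g₀ i₀ 1) / 2 ^ g₀ i₀ 2 := ⟨_, rfl⟩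
  have hS0 : 0 < S := by rw [hSS]; positivity
  rw [← hSS] at hz3
  obtain ⟨u, hu⟩ : ∃ u, u = C₃ + cl + (12 * cl + X + 22) := ⟨_, rfl⟩
  have hQ : u + 2 ≤ (C₂ + C₃ + 60) * (cl + X + 1) := by
    have e1 : (C₂ + C₃ + 60) * (cl + X + 1) = C₂ * (cl + X + 1) + C₃ * (cl + X + 1) +
      60 * (cl + X + 1) := by ring
    have e2 : C₃ ≤ C₃ * (cl + X + 1) := Nat.le_mul_of_pos_right _ (by omega)
    omega
  have b1 : 2 ^ g₀ i₃ 2 / 2 ^ g₀ i₃ 3 * S ≤ R / 2 ^ (u + 2) := by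
    rw [hSS, hR, div_mul_div_comm, div_div, ← pow_add, ← pow_add, ← pow_add,
      div_le_div_iff₀ (by positivity) (by positivity), ← pow_add, ← pow_add]
    exact p2 (by omega)
  have b2 : 2 ^ g₀ b 2 / 2 ^ min (g a 3 + (w b - w a)) (g₀ b 3) * S ≤ R / 2 ^ (u + 2) := by
    obtain ⟨mn, hmn⟩ : ∃ mn, mn = min (g a 3 + (w b - w a)) (g₀ b 3) := ⟨_, rfl⟩
    rw [← hmn] at hn4 ⊢
    rw [hSS, hR, div_mul_div_comm, div_div, ← pow_add, ← pow_add, ← pow_add,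
      div_le_div_iff₀ (by positivity) (by positivity), ← pow_add, ← pow_add]
    exact p2 (by omega)
  have b3 : (1 : ℝ) ≤ 2 ^ (C₃ + cl) := one_le_pow₀ (by norm_num)
  calc |a' - ao| * |zv| ≤ (2 ^ g₀ i₃ 2 / 2 ^ g₀ i₃ 3 + 2 ^ (C₃ + cl) * (2 ^ g₀ b 2 /
        2 ^ min (g a 3 + (w b - w a)) (g₀ b 3))) *
        (2 ^ (12 * cl + X + 22) * S) :=
        mul_le_mul hd3 hz3 (abs_nonneg _) (by positivity)
    _ = 2 ^ (12 * cl + X + 22) * (2 ^ g₀ i₃ 2 / 2 ^ g₀ i₃ 3 * S +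
        2 ^ (C₃ + cl) * (2 ^ g₀ b 2 /
          2 ^ min (g a 3 + (w b - w a)) (g₀ b 3) * S)) := by ring
    _ ≤ 2 ^ (12 * cl + X + 22) * (2 ^ (C₃ + cl) * (R / 2 ^ (u + 2)) +
        2 ^ (C₃ + cl) * (R / 2 ^ (u + 2))) := by
        refine mul_le_mul_of_nonneg_left (add_le_add ?_ (mul_le_mul_of_nonneg_left b2
          (by positivity))) (by positivity)
        exact b1.trans (le_mul_of_one_le_left (by positivity) b3)
    _ = 2 ^ u * (R / 2 ^ (u + 2)) * 2 := by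
        rw [hu, pow_add 2 (C₃ + cl) (12 * cl + X + 22)]
        ring
    _ = R / 2 := by
        rw [pow_add 2 u 2]
        field_simp
    _ = _ := by rw [hR]

end Pool.TNW
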