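import Pool.Agent.H23.D2.Crd

/-!
# The cell `[one, thin, sta]` with the closed gradient at the ball of the row

`jY_ts0`, `ts_crit0`: as `jY_ts`, `ts_critL`, the ball of the closed gradient is the ball of the row.
-/

set_option autoImplicit false

namespace Pool.TNW

open Finset Real MvPolynomial
open Pool.Agent.H49.Ent Pool.Agent.H32.Dense Pool.STK Pool.KA Pool.KSAT Pool.K2S Pool.PB Pool.S6C
open Pool.GEN Pool.CHT Pool.CHX Pool.ISO Pool.D2R Pool.D2Z Pool.D2F Pool.TN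
open Pool.LBT (ThrOf)
open Pool.FLF (Fam.sub)
open Pool.PB.Trl (rt rt_mem t_rt)

variable {m J : ℕ}

/-- **Static place two**: the rounded ball against the ball. -/
theorem jY_ts0 (D : ℕ) : ∃ C : ℕ, 1 ≤ C ∧ ∀ {m J : ℕ} {F : Fam m J} {c : ℕ → Fin m}
    {Dr N M A cl : ℕ} {Sc : ℕ → Prop} {w e h pp : ℕ → ℕ} {z g gc gT g₀ : ℕ → ℕ → ℕ} {κ : ℝ}
    {B : F.Ω → Prop} {G : ℕ → PtT F → ℕ → MvPolynomial (Option (Fin m)) ℝ}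
    {H : ℕ → LnT F → ℕ → MvPolynomial (Option (Fin m)) ℝ}
    {T : ℕ → PtT F → ℕ → MvPolynomial (Option (Fin m)) ℝ}
    {TH : ℕ → LnT F → ℕ → MvPolynomial (Option (Fin m)) ℝ}
    {Gt : ℕ → PtT F → MvPolynomial (Option (Fin m)) ℝ}
    {Ht : ℕ → LnT F → MvPolynomial (Option (Fin m)) ℝ},
    CEv F c 3 D Dr N M A cl Sc w e h pp z g gc gT g₀ κ B G H T TH Gt Ht → C ≤ cl →
    ∀ {i₀ i₁ i₂ i₃ X q' : ℕ}, i₀ ≤ N → i₁ ≤ N → i₂ ≤ N → i₃ ≤ N →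
    w i₀ ≤ w i₂ → w i₁ ≤ w i₂ → ¬ Sc 0 → ¬ Sc 1 → Sc 2 →
    (∀ l < 3, cl ≤ gT i₀ l ∧ cl ≤ gc i₀ l) → cl ≤ pp i₀ → cl ≤ gc i₀ 3 →
    g₀ i₀ 2 + (A - w i₀) ≤ gT i₀ 2 + X →
    g₀ i₃ 2 + (w i₀ + g₀ i₀ 1) + C * (cl + X + 1) ≤ w i₃ + q' + g₀ i₀ 2 →
    ∀ ω, B ω → |jY c Sc w G TH Ht i₀ i₁ i₂ i₃ 2 1 ω - jZ c Sc w G TH Ht i₀ i₁ i₃ 2 1 ω| ≤
      2 ^ (w i₃ + q') / 2 ^ g₀ i₃ 3 / 2 := by
  obtain ⟨C₂, hC₂, hgp⟩ := CEv.gptG D 3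
  refine ⟨C₂ + 60, by omega, ?_⟩
  intro m J F c Dr N M A cl Sc w e h pp z g gc gT g₀ κ B G H T TH Gt Ht E hcl i₀ i₁ i₂ i₃ X q'
    h0 h1 h2 h3 w0 w1 hs0 hs1 hs2 hT hpp hgc hlb hnum ω hω
  have hn1 := hnum
  have hc : Set.InjOn c (Set.Iio 3) := E.inj.mono (Set.Iio_subset_Iio (by norm_num))
  have hAJ : w i₂ ≤ J := (E.wA i₂ h2).trans E.AJ
  have hkc := kc_Xcf (TH := TH) (Sc := Sc) w0 hAJ ω
  have hΦ : Ht i₁ (co (w i₂ - w i₁) (slam F (w i₂) ω)) = Ht i₁ (slam F (w i₁) ω) := by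
    rw [co_slam F w1 hAJ]
  have hκc : ∀ l, CvC c l (kT w TH ω i₀ l) := fun l =>
    cvc_grd ((E.evs i₀ h0).thin.depH _ l) _
  have hGc : ∀ i ≤ N, ∀ l, CvC c l (gG G ω i l) := fun i hi l =>
    cvc_grd ((E.evs i hi).ball.depG _ l) _
  have hΓc : ∀ l, CvC c l (gpt F (G i₃) (ptr F J ω) l) := fun l =>
    cvc_grd ((E.evs i₃ h3).ball.depG _ l) _
  have hst := ev_stab (Sc := Sc) hc hκc hΓc (hGc i₃ h3) (x := 1) (fun l hl hyl => by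
    have : l = 2 := by omega
    rw [this]
    exact hs2)
  have hQc : DepC c 3 (Ht i₁ (slam F (w i₁) ω)) := (E.evs i₁ h1).pH _
  have hTc : DepC c 2 (TH i₀ (slam F (w i₀) ω) 2) := (E.evs i₀ h0).thin.depH _ 2
  unfold jY jZ
  rw [hkc, mx_mx,
    hs_cong hc hQc _ _ (ev_none _ _ _ _) (ev_none _ _ _ _) hst,
    hs_cong (hc.mono (Set.Iio_subset_Iio (by norm_num))) hTc _ _ (ev_none _ _ _ _)
      (ev_none _ _ _ _) (fun j hj => hst j (hj.trans (by norm_num)))]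
  obtain ⟨V, hV⟩ : ∃ V, V = ev c 3 (mx Sc (kT w TH ω i₀) (gG G ω i₃)) 1 := ⟨_, rfl⟩
  have hV0 : V none = 0 := by rw [hV]; exact ev_none _ _ _ _
  rw [← hV]
  obtain ⟨zv, hzv⟩ : ∃ zv, zv = hs (TH i₀ (slam F (w i₀) ω) 2) (bt F ω) (bd F ω) V := ⟨_, rfl⟩
  rw [← hzv]
  obtain ⟨a', ha'⟩ : ∃ a', a' = cv (gG G ω i₃ 3 - grd (Ht i₁ (slam F (w i₁) ω)) (bt F ω))
      (ev c 3 (mx Sc (kT w TH ω i₀) (gG G ω i₃)) 2) := ⟨_, rfl⟩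
  rw [← ha']
  obtain ⟨ao, hao⟩ : ∃ ao, ao = aS c 3 Sc (w i₂) 2 (Xcf w TH Sc i₀ i₂)
      (fun s => Ht i₁ (co (w i₂ - w i₁) s)) (gpt F (G i₃)) ω := ⟨_, rfl⟩
  rw [← hao]
  -- the vector of the last coordinate
  obtain ⟨W, hW⟩ : ∃ W, W = ev c 3 (mx Sc (kT w TH ω i₀) (gG G ω i₃)) 2 := ⟨_, rfl⟩
  have hW0 : W none = 0 := by rw [hW]; exact ev_none _ _ _ _
  have hWs := ev_stab (Sc := Sc) hc hκc hΓc (hGc i₃ h3) (x := 2) (fun l hl hyl => by omega)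
  have hao' : ao = cv (gpt F (G i₃) (ptr F J ω) 3 - grd (Ht i₁ (slam F (w i₁) ω)) (bt F ω))
      W := by
    rw [hao, hW]
    unfold aS
    show cv (gpt F (G i₃) (ptr F J ω) 3 - grd (Ht i₁ (co (w i₂ - w i₁) (slam F (w i₂) ω)))
      (bt F ω)) _ = _
    rw [hΦ, hkc, mx_mx]
    refine cv_cong hc ?_ (ev_none _ _ _ _) (ev_none _ _ _ _) hWs
    intro l hl
    have b1 := hΓc 3 l hl
    have b2 := cvc_grd hQc (bt F ω) l hl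
    show gpt F (G i₃) (ptr F J ω) 3 (some l) - grd (Ht i₁ (slam F (w i₁) ω)) (bt F ω)
      (some l) = 0
    rw [b1, b2, sub_zero]
  rw [← hW] at ha'
  have hszW : ∀ i ≤ N, sz c (g₀ i) (gG G ω i) 3 W ≤ 2 ^ g₀ i 2 := by
    intro i hi
    rw [hW]
    exact sz_last hc (mx_cvc hκc (hGc i₃ h3)) (hGc i hi) _
  -- the size of `z`
  have hz1 := E.zS h0 h0 le_rfl hT hpp hgc hω (l := 2) (by norm_num) (fun x hx h => by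
      have : x = 0 ∨ x = 1 := by omega
      rcases this with h4 | h4
      · exact hs0 (h4 ▸ h)
      · exact hs1 (h4 ▸ h)) (hT 2 (by norm_num)).1 hlb V
  rw [← hzv, en_sz _ _ _ _ _ hV0] at hz1
  have hz2 : sz c (g₀ i₀) (gG G ω i₀) 2 V ≤ 2 ^ g₀ i₀ 1 := by
    have b1 : sz c (g₀ i₀) (gG G ω i₀) 2 V = sz c (g₀ i₀) (gG G ω i₀) 2
        (ev c 2 (mx Sc (kT w TH ω i₀) (gG G ω i₃)) 1) := by
      have b2 : ∀ j < 2, V (some (c j)) =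
          ev c 2 (mx Sc (kT w TH ω i₀) (gG G ω i₃)) 1 (some (c j)) := fun j hj => by
        rw [hV]
        exact ev_cut hc (by norm_num) (mx_cvc hκc (hGc i₃ h3)) 1 j hj
      unfold Pool.TN.sz
      refine Finset.sum_congr rfl fun j hj => ?_
      rw [Finset.mem_range] at hj
      rw [b2 j hj, cv_cong (hc.mono (Set.Iio_subset_Iio (hj.trans (by norm_num)).le)) (hGc i₀ h0 j)
        hV0 (ev_none _ _ _ _) (fun i hi => b2 i (hi.trans hj))]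
    rw [b1]
    exact sz_last (hc.mono (Set.Iio_subset_Iio (by norm_num))) (mx_cvc hκc (hGc i₃ h3))
      (hGc i₀ h0) _
  have hz3 : |zv| ≤ 2 ^ (12 * cl + X + 22) * (2 ^ (w i₀ + g₀ i₀ 1) / 2 ^ g₀ i₀ 2) := by
    refine hz1.trans ((mul_le_mul_of_nonneg_left hz2 (by positivity)).trans (le_of_eq ?_))
    rw [show 12 * cl + 4 * 3 + X + 10 = 12 * cl + X + 22 by ring, pow_add _ (w i₀)]
    ring
  -- the two corrections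
  have hd1 : |cv (gpt F (G i₃) (ptr F J ω) 3 - gG G ω i₃ 3) W| ≤ 2 ^ g₀ i₃ 2 /
      2 ^ g₀ i₃ 3 := by
    refine (hgp E (by omega) i₃ h3 ω hω 3 le_rfl W hW0).trans
      ((mul_le_mul_of_nonneg_left (hszW i₃ h3) (by positivity)).trans (le_of_eq ?_))
    ring
  have hd3 : |a' - ao| ≤ 2 ^ g₀ i₃ 2 / 2 ^ g₀ i₃ 3 := by
    have b1 : a' - ao = -cv (gpt F (G i₃) (ptr F J ω) 3 - gG G ω i₃ 3) W := by
      rw [ha', hao', cv_subl, cv_subl, cv_subl]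
      ring
    rw [b1, abs_neg]
    exact hd1
  have hfin : hs (Ht i₁ (slam F (w i₁) ω)) (bt F ω) (bd F ω) V - ao * zv -
      (hs (Ht i₁ (slam F (w i₁) ω)) (bt F ω) (bd F ω) V - a' * zv) = (a' - ao) * zv := by
    ring
  rw [hfin, abs_mul]
  obtain ⟨R, hR⟩ : ∃ R : ℝ, R = 2 ^ (w i₃ + q') / 2 ^ g₀ i₃ 3 := ⟨_, rfl⟩
  have hR0 : 0 < R := by rw [hR]; positivity
  obtain ⟨S, hSS⟩ : ∃ S : ℝ, S = 2 ^ (w i₀ + g₀ i₀ 1) / 2 ^ g₀ i₀ 2 := ⟨_, rfl⟩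
  have hS0 : 0 < S := by rw [hSS]; positivity
  rw [← hSS] at hz3
  have hQ : 12 * cl + X + 22 + 1 ≤ (C₂ + 60) * (cl + X + 1) := by
    have e1 : (C₂ + 60) * (cl + X + 1) = C₂ * (cl + X + 1) + 60 * (cl + X + 1) := by ring
    omega
  have b1 : 2 ^ g₀ i₃ 2 / 2 ^ g₀ i₃ 3 * S ≤ R / 2 ^ (12 * cl + X + 22 + 1) := by
    rw [hSS, hR, div_mul_div_comm, div_div, ← pow_add, ← pow_add, ← pow_add,
      div_le_div_iff₀ (by positivity) (by positivity), ← pow_add, ← pow_add]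
    exact p2 (by omega)
  calc |a' - ao| * |zv| ≤ 2 ^ g₀ i₃ 2 / 2 ^ g₀ i₃ 3 * (2 ^ (12 * cl + X + 22) * S) :=
        mul_le_mul hd3 hz3 (abs_nonneg _) (by positivity)
    _ = 2 ^ (12 * cl + X + 22) * (2 ^ g₀ i₃ 2 / 2 ^ g₀ i₃ 3 * S) := by ring
    _ ≤ 2 ^ (12 * cl + X + 22) * (R / 2 ^ (12 * cl + X + 22 + 1)) :=
        mul_le_mul_of_nonneg_left b1 (by positivity)
    _ = R / 2 := by
        rw [pow_succ 2 (12 * cl + X + 22)]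
        field_simp
    _ = _ := by rw [hR]

/-- **The end of the cell, thin place one and static place two**, with the closed gradient at the
ball of the row. -/
theorem ts_crit0 (m D D₁ : ℕ) (hD : 1 ≤ D) : ∃ C : ℕ, 1 ≤ C ∧
    ∀ {θ θ' : ℝ} {S : PCl m} {P P' : List (Fin m) × Fin m → ℝ → ℝ → ℝ}
    (_ : ThrOf (chsys m θ) S P) (_ : ThrOf (chsys m θ') S P') (_ : TmH S) (c : ℕ → Fin m)
    (_ : Set.InjOn c (Set.Iio (3 + 1))) (a₁ : ℚ) (e₁ h₁ : ℝ)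
    (_ : 0 ≤ a₁) (_ : a₁ < 1) (_ : e₁ < θ * a₁) (_ : 0 < h₁) (_ : bet P c 0 a₁ a₁ + h₁ ≤ 1)
    (_ : bet P c 2 a₁ a₁ + h₁ ≤ 1) (a w' : ℚ)
    (b eb h' : ℝ) (_ : 0 ≤ w') (_ : w' ≤ a) (_ : a ≤ 1) (_ : b < 1) (_ : eb < θ * w')
    (_ : 0 < h') (_ : bet P c 3 a w' + h' ≤ 1) (a₂ w₂ : ℚ) (eb₂ h₂ : ℝ) (_ : 0 ≤ w₂)
    (_ : w₂ ≤ a₂) (_ : a₂ ≤ 1) (_ : eb₂ < θ' * w₂) (_ : 0 < h₂) (_ : bet P' c 1 a₂ w₂ + h₂ ≤ 1)
    (ε κ₀ : ℝ) (_ : 0 < ε) (_ : 0 < κ₀),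
    Bas S (fun J F A₀ => ∀ {Dr N M A cl : ℕ} {Sc : ℕ → Prop} {w e h pp : ℕ → ℕ}
      {z g gc gT g₀ : ℕ → ℕ → ℕ} {κ : ℝ} {B : F.Ω → Prop}
      {G : ℕ → PtT F → ℕ → MvPolynomial (Option (Fin m)) ℝ}
      {H : ℕ → LnT F → ℕ → MvPolynomial (Option (Fin m)) ℝ}
      {T : ℕ → PtT F → ℕ → MvPolynomial (Option (Fin m)) ℝ}
      {TH : ℕ → LnT F → ℕ → MvPolynomial (Option (Fin m)) ℝ}
      {Gt : ℕ → PtT F → MvPolynomial (Option (Fin m)) ℝ}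
      {Ht : ℕ → LnT F → MvPolynomial (Option (Fin m)) ℝ},
      CEv F c 3 D Dr N M A cl Sc w e h pp z g gc gT g₀ κ B G H T TH Gt Ht → Sub B A₀ →
      ε * J ≤ cl → C ≤ cl →
      ∀ {i₀ i₁ i₂ i₃ X X' p x d eM f : ℕ} {g' : ℕ → ℕ},
      NumW 3 N M A cl J Sc w e pp z g gc gT g₀ i₀ i₁ i₂ i₃ X' p x g' → C * (cl + X + 1) ≤ X' →
      e i₂ ≤ eM → e i₃ ≤ eM → (∀ y < 3, g₀ i₃ y ≤ g' y + d) → (∀ l < 3, Sc l ↔ l = 2) →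
      (g₀ i₃ 1 ≤ g' 1 + X' ∨ w i₂ + g₀ i₂ 1 + g₀ i₃ 2 ≤ w i₃ + g₀ i₂ 2 + g' 1 + X') →
      (w i₃ : ℝ) ≤ b * J →
      NumT J A X w e gT g₀ i₀ i₂ i₃ f (C * (cl + X + 1)) ⌊(a₁ : ℝ) * J⌋₊ ⌊e₁ * J⌋₊
        ⌊(bet P c 0 a₁ a₁ + h₁) * J⌋₊ ⌊(bet P c 2 a₁ a₁ + h₁) * J⌋₊ g' →
      NumF 3 J (w i₂) (w i₃) ⌊(a : ℝ) * J⌋₊ ⌊(w' : ℝ) * J⌋₊ ⌊eb * J⌋₊
        ⌊(bet P c 3 a w' + h') * J⌋₊ eM d (C * (cl + X' + 1)) f p 2 (g₀ i₃) g' (gT i₂) →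
      ∀ {X₂ Y f₂ dd eL y t p₂ : ℕ} {mu : LnT F → Polynomial ℝ},
      JNum N A cl X₂ f₂ dd w pp gc gT g₀ i₀ i₁ t i₃ p₂ 1 2 →
      JTs A cl X₂ Y f₂ dd y (C * (cl + X₂ + 1)) w pp gc gT g₀ i₀ i₁ t i₃ →
      g₀ i₃ 2 + (w i₀ + g₀ i₀ 1) + C * (cl + X₂ + 1) ≤ w i₃ + g' 1 + g₀ i₀ 2 →
      w i₃ + g₀ i₃ 1 + g₀ i₃ 3 + 1 ≤ w i₃ + g' 1 + g₀ i₃ 3 + dd + X' →
      (∀ s, (mu s).natDegree ≤ D₁) →
      (∀ ω, B ω → |jA c Sc w G TH Ht i₀ i₁ i₃ 2 ω - (mu (slam F (w t) ω)).eval (rt F (w t) ω)| ≤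
        2 ^ Y * (2 ^ g₀ i₃ 2 / 2 ^ g₀ i₃ 3)) →
      (∀ ω, B ω → ∀ l ≤ 1, ∀ j < l, |gG G ω i₃ l (some (c j))| ≤ 2 ^ (eL + nlp (g₀ i₃) j l)) →
      NumG 1 J (w t) (w i₃) ⌊(a₂ : ℝ) * J⌋₊ ⌊(w₂ : ℝ) * J⌋₊ ⌊eb₂ * J⌋₊
        ⌊(bet P' c 1 a₂ w₂ + h₂) * J⌋₊ eL dd (C * (cl + X₂ + Y + 1)) (g₀ i₃) →
      Pe F.p B < κ₀ * Pe F.p A₀) := by
  classical
  obtain ⟨C₁, hC₁, hsm⟩ := ts_endG m D 3 hD (by norm_num)
  obtain ⟨C₂, hC₂, hbg⟩ := ts_bigL m D D₁ hD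
  obtain ⟨C₃, hC₃, hyz⟩ := jY_ts0 D
  refine ⟨C₁ + C₂ + C₃, by omega, ?_⟩
  intro θ θ' S P P' hP hP' hT c hc a₁ e₁ h₁ ha0 ha1 he1 hh1 hb0 hb1 a w' b eb h' hw0 hwa ha hb he hh h2
    a₂ w₂ eb₂ h₂ hw20 hwa2 ha2 he2' hh2 hbt2 ε κ₀ hε hκ
  refine Bas.mono 0 ((hsm hP hT c hc a₁ e₁ h₁ ha0 ha1 he1 hh1 hb0 hb1 a w' b eb h' ε (κ₀ / 2) hw0
    hwa ha hb he hh h2 hε (by positivity)).and (hbg hP' hT c hc a₂ w₂ b eb₂ h₂ ε (κ₀ / 2) hw20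
    hwa2 ha2 hb he2' hh2 hbt2 hε (by positivity))) ?_
  rintro J - F A₀ ⟨hA, hA'⟩
  intro Dr N M A cl Sc w e h pp z g gc gT g₀ κ B G H T TH Gt Ht E hBA hεc hCc i₀ i₁ i₂ i₃ X X' p x
    d eM f g' n hXX he2 he3 hd h1 hx2 hbJ no nf X₂ Y f₂ dd eL y' t p₂ mu nj nt nb hbn hm1 hmu
    hlip ng
  by_contra hcon
  rw [not_lt] at hcon
  have hpn := Pe_nonneg F.isLaw
  have hs0 : ¬ Sc 0 := fun h => absurd ((h1 0 (by norm_num)).1 h) (by norm_num)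
  have hs1 : ¬ Sc 1 := fun h => absurd ((h1 1 (by norm_num)).1 h) (by norm_num)
  have hs2 : Sc 2 := (h1 2 (by norm_num)).2 rfl
  have eX : (C₁ + C₂ + C₃) * (cl + X + 1) = C₁ * (cl + X + 1) + C₂ * (cl + X + 1) +
    C₃ * (cl + X + 1) := by ring
  have eX' : C₁ * (cl + X' + 1) ≤ (C₁ + C₂ + C₃) * (cl + X' + 1) :=
    Nat.mul_le_mul_right _ (by omega)
  have eX2 : (C₁ + C₂ + C₃) * (cl + X₂ + 1) = C₁ * (cl + X₂ + 1) + C₂ * (cl + X₂ + 1) +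
    C₃ * (cl + X₂ + 1) := by ring
  have eY : C₂ * (cl + X₂ + Y + 1) ≤ (C₁ + C₂ + C₃) * (cl + X₂ + Y + 1) :=
    Nat.mul_le_mul_right _ (by omega)
  obtain ⟨Bs, hBs⟩ : ∃ Bs : F.Ω → Prop, Bs = fun ω => B ω ∧
      |jY c Sc w G TH Ht i₀ i₁ i₂ i₃ 2 1 ω| ≤ 2 ^ X' * (2 ^ w i₃ / 2 ^ g₀ i₃ 3) * 2 ^ g' 1 :=
    ⟨_, rfl⟩
  obtain ⟨Bb, hBb⟩ : ∃ Bb : F.Ω → Prop, Bb = fun ω => B ω ∧
      ¬ |jY c Sc w G TH Ht i₀ i₁ i₂ i₃ 2 1 ω| ≤ 2 ^ X' * (2 ^ w i₃ / 2 ^ g₀ i₃ 3) * 2 ^ g' 1 :=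
    ⟨_, rfl⟩
  have hsB : Sub Bs B := fun ω hω => by rw [hBs] at hω; exact hω.1
  have hbB : Sub Bb B := fun ω hω => by rw [hBb] at hω; exact hω.1
  have hor := Pe_or F.isLaw (A := B) (B₀ := Bs) (B₁ := Bb) (fun ω hω => by
    rw [hBs, hBb]
    by_cases h4 : |jY c Sc w G TH Ht i₀ i₁ i₂ i₃ 2 1 ω| ≤
      2 ^ X' * (2 ^ w i₃ / 2 ^ g₀ i₃ 3) * 2 ^ g' 1
    · exact Or.inl ⟨hω, h4⟩
    · exact Or.inr ⟨hω, h4⟩)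
  have hκm := le_max_left κ 0
  rcases le_or_gt (Pe F.p B / 2) (Pe F.p Bs) with hc1 | hc1
  · -- the small case
    have hE2 := E.sb (B' := Bs) (κ₁ := 1 / 2) (κ₂ := 2 * max κ 0) hsB (by linarith)
      (by positivity) (by linarith)
    have hfin := hA hE2 (fun ω hω => hBA ω (hsB ω hω)) hεc (by omega) n (by omega) he2 he3 hd
      hx2 h1 (fun y hy hys => by
        have hy' : y = 0 ∨ y = 1 ∨ y = 2 := by omega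
        rcases hy' with h4 | h4 | h4
        · subst h4
          exact Or.inl (n.hh 1 (by norm_num) hs1 0 (by norm_num) hs0)
        · subst h4
          refine Or.inr (Or.inr fun ω hω => ?_)
          rw [hBs] at hω
          exact hω.2
        · subst h4
          exact absurd hs2 hys) hbJ (NumT.mono no (by omega)) (NumF.mono nf eX')
    linarith
  · -- the large case
    have hc2 : Pe F.p B / 2 ≤ Pe F.p Bb := by linarith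
    have hE2 := E.sb (B' := Bb) (κ₁ := 1 / 2) (κ₂ := 2 * max κ 0) hbB (by linarith)
      (by positivity) (by linarith)
    have hfr := nt.fr
    have hnv := nt.nv
    have hfin := hA' hE2 (fun ω hω => hBA ω (hbB ω hω)) hεc (by omega) hs0 hs1 hs2 nj
      { nt with
        fr := by omega
        nv := by omega }
      hm1 (fun ω hω => hmu ω (hbB ω hω)) (fun ω hω => by
        have h4 := hyz E (by omega) (i₂ := i₂) (q' := g' 1) n.h0 n.h1 n.h2 n.h3 n.w0 n.w1 hs0 hs1 hs2 nt.cT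
          nt.pi nt.ci nt.lb (by omega) ω (hbB ω hω)
        rw [hBb] at hω
        have h5 := not_le.1 hω.2
        obtain ⟨R, hR⟩ : ∃ R : ℝ, R = 2 ^ (w i₃ + g' 1) / 2 ^ g₀ i₃ 3 := ⟨_, rfl⟩
        have hR0 : 0 < R := by rw [hR]; positivity
        have e1 : (2 : ℝ) ^ X' * (2 ^ w i₃ / 2 ^ g₀ i₃ 3) * 2 ^ g' 1 = 2 ^ X' * R := by
          rw [hR, pow_add]
          ring
        rw [← hR] at h4
        rw [e1] at h5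
        have e2 : (1 : ℝ) ≤ 2 ^ X' := one_le_pow₀ (by norm_num)
        have e3 : R ≤ 2 ^ X' * R := le_mul_of_one_le_left hR0.le e2
        have e4 : (2 : ℝ) ^ (w i₃ + g₀ i₃ 1) / 2 ^ (g₀ i₃ 3 + dd) ≤ 2 ^ X' * R / 2 := by
          have h7 : (2 : ℝ) ^ (w i₃ + g₀ i₃ 1 + 1) / 2 ^ (g₀ i₃ 3 + dd) ≤
              2 ^ X' * (2 ^ w i₃ / 2 ^ g₀ i₃ 3) * 2 ^ g' 1 := big_num (by omega)
          rw [e1, pow_succ, mul_div_right_comm] at h7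
          linarith
        have e5 := abs_sub_abs_le_abs_sub (jY c Sc w G TH Ht i₀ i₁ i₂ i₃ 2 1 ω)
          (jZ c Sc w G TH Ht i₀ i₁ i₃ 2 1 ω)
        linarith) (fun ω hω => hlip ω (hbB ω hω)) hbJ (NumG.mono ng eY)
    linarith

end Pool.TNW
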