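import Pool.Agent.H23.D2.Bal
import Pool.Agent.H23.D2.Cls

/-!
# The environment of a closed gradient

`BalE`, `bals_out`: finitely many windows on one event: the thin boxes against the re-centred
balls, and the balls against each other. `EnvD`: all the data of `LinD` which do not depend on the
closed gradient; `env_out`: it follows from the balls of a chain of windows.
-/

set_option autoImplicit false

namespace Pool.D2R

open Finset Real MvPolynomial
open Pool.Agent.H49.Ent Pool.Agent.H32.Dense Pool.STK Pool.KA Pool.KSAT Pool.K2S Pool.PB Pool.S6C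
open Pool.GEN Pool.CHT Pool.CHX Pool.ISO

variable {m J : ℕ}

/-- **Balls against boxes and balls against balls**, windows `o k`, `k ≤ n`, one radius `a`. -/
structure BalE (F : Fam m J) (c : ℕ → Fin m) (r n M a : ℕ) (o : ℕ → ℕ) (z : ℕ → ℕ → ℕ)
    (g gc gT g₀ : ℕ → ℕ → ℕ) (U : ℝ) (B : F.Ω → Prop)
    (G T : ℕ → PtT F → ℕ → MvPolynomial (Option (Fin m)) ℝ) : Prop where
  inc : ∀ k ≤ n, ∀ ω, B ω → ∀ i ≤ r, ∀ b, NBx c (T k (ptr F J ω)) (gT k) a (F.t ω) i b →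
    ∀ j < i, |b (some (c j)) -
      eval b (Gno (c j) J J (fun y => G k y j) (ptr F J ω))| ≤ U / 2 ^ gc k j
  bal : ∀ k ≤ n, ∀ k' ≤ n, ∀ q ≤ M, o k ≤ o k' → z k q = o k' - o k → ∀ ω, B ω → ∀ l ≤ r,
    ∀ b, NBx c (G k' (ptr F J ω)) (g₀ k') (o k') (F.t ω) l b →
      |eval b (Gno (c l) J J (fun y => G k y l) (ptr F J ω)) - eval b (G k' (ptr F J ω) l)| ≤
        U / 2 ^ min (g k l + (o k' - o k)) (g₀ k' l)

/-- The balls of finitely many windows, on one event. -/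
theorem bals_out (D r : ℕ) (hD : 1 ≤ D) : ∃ C : ℕ, 1 ≤ C ∧ ∀ n M : ℕ, ∃ K : ℝ, 1 ≤ K ∧
    ∀ {m J : ℕ} {F : Fam m J} {c : ℕ → Fin m} {Dr a h : ℕ} {o e hh p : ℕ → ℕ}
    {z : ℕ → ℕ → ℕ} {R : ℕ → Prop} {g gc gT g₀ : ℕ → ℕ → ℕ} {κ : ℕ → ℝ} {B : F.Ω → Prop}
    {G T : ℕ → PtT F → ℕ → MvPolynomial (Option (Fin m)) ℝ}
    {H TH : ℕ → LnT F → ℕ → MvPolynomial (Option (Fin m)) ℝ}
    {Gt : ℕ → PtT F → MvPolynomial (Option (Fin m)) ℝ}
    {Ht : ℕ → LnT F → MvPolynomial (Option (Fin m)) ℝ},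
    Set.InjOn c (Set.Iio r) → D ≤ Dr → (∀ k ≤ n, o k ≤ a) → (∀ k ≤ n, o k ≤ J) →
    (∀ k ≤ n, hh k ≤ h) → (∀ k ≤ n, 0 ≤ κ k ∧ κ k * K ≤ 1) →
    (∀ k ≤ n, EvS F c r D Dr (o k) (a - o k) M (z k) (e k) (hh k) (p k) R (g k) (gc k) (gT k)
      (g₀ k) (κ k) B (G k) (H k) (T k) (TH k) (Gt k) (Ht k)) →
    ∃ B' : F.Ω → Prop, Sub B' B ∧ Pe F.p B ≤ K * Pe F.p B' ∧
      BalE F c r n M a o z g gc gT g₀ (2 ^ (C * (h + 1))) B' G T := by
  classical
  obtain ⟨C₁, hinc⟩ := inc_out D r hD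
  obtain ⟨C₂, hbal⟩ := bal_out D r hD
  obtain ⟨Y, hY⟩ : ∃ Y : ℝ, Y = 4 * 4 ^ r := ⟨_, rfl⟩
  have h41 : (1 : ℝ) ≤ 4 ^ r := one_le_pow₀ (by norm_num)
  have hY1 : 1 ≤ Y := by rw [hY]; linarith
  have hY0 : 0 < Y := by linarith
  have h2r : (0 : ℝ) < 2 ^ r := by positivity
  have h24 : (2 : ℝ) ^ r ≤ 4 ^ r := pow_le_pow_left₀ (by norm_num) (by norm_num) r
  refine ⟨C₁ + C₂ + 1, by omega, fun n M => ?_⟩
  -- the list of all pairs and indices, with the incidences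
  obtain ⟨L, hL⟩ : ∃ L : List (ℕ ⊕ (ℕ × ℕ × ℕ)), L =
      ((List.range (n + 1)).map Sum.inl) ++ (((List.range (n + 1)).product
        ((List.range (n + 1)).product (List.range (M + 1)))).map Sum.inr) := ⟨_, rfl⟩
  obtain ⟨K, hK⟩ : ∃ K : ℝ, K = Y ^ (L.length + 1) := ⟨_, rfl⟩
  refine ⟨K, by rw [hK]; exact one_le_pow₀ hY1, ?_⟩
  intro m J F c Dr a h o e hh p z R g gc gT g₀ κ B G T H TH Gt Ht hc hDr hoa hoJ hh' hκ hE
  have hp := Pe_nonneg F.isLaw
  obtain ⟨U, hU⟩ : ∃ U : ℝ, U = 2 ^ ((C₁ + C₂ + 1) * (h + 1)) := ⟨_, rfl⟩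
  have hUU : ∀ {C' h' : ℕ}, C' ≤ C₁ + C₂ + 1 → h' ≤ h → (2 : ℝ) ^ (C' * (h' + 1)) ≤ U :=
    fun h1 h2 => by
      rw [hU]
      exact pow_le_pow_right₀ (by norm_num) (Nat.mul_le_mul h1 (by omega))
  obtain ⟨P, hP⟩ : ∃ P : (ℕ ⊕ (ℕ × ℕ × ℕ)) → (F.Ω → Prop) → Prop, P = fun x B => match x with
      | Sum.inl k => k ≤ n → ∀ ω, B ω → ∀ i ≤ r, ∀ b,
          NBx c (T k (ptr F J ω)) (gT k) a (F.t ω) i b → ∀ j < i, |b (some (c j)) -
            eval b (Gno (c j) J J (fun y => G k y j) (ptr F J ω))| ≤ U / 2 ^ gc k j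
      | Sum.inr (k, k', q) => k ≤ n → k' ≤ n → q ≤ M → o k ≤ o k' → z k q = o k' - o k →
          ∀ ω, B ω → ∀ l ≤ r, ∀ b, NBx c (G k' (ptr F J ω)) (g₀ k') (o k') (F.t ω) l b →
          |eval b (Gno (c l) J J (fun y => G k y l) (ptr F J ω)) -
            eval b (G k' (ptr F J ω) l)| ≤ U / 2 ^ min (g k l + (o k' - o k)) (g₀ k' l) :=
    ⟨_, rfl⟩
  have hmono : ∀ x B B', P x B → Sub B' B → P x B' := by
    intro x B B' hx hB
    rw [hP] at hx ⊢
    rcases x with k | ⟨k, k', q⟩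
    · exact fun h1 ω hω => hx h1 ω (hB ω hω)
    · exact fun h1 h2 h3 h4 h5 ω hω => hx h1 h2 h3 h4 h5 ω (hB ω hω)
  obtain ⟨B', hB1, hB2, hB3⟩ := ev_list P hY1 hmono L B (by
    intro x _ B' hB' hPB
    have hsh : ∀ k ≤ n, κ k * Y ≤ 1 / Y ^ L.length := by
      intro k hk
      rw [le_div_iff₀ (pow_pos hY0 _), mul_assoc, ← pow_succ']
      have h1 := (hκ k hk).2
      rw [hK] at h1
      exact h1
    have hsh2 : 1 / Y ^ L.length * Pe F.p B ≤ Pe F.p B' := by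
      rw [one_div, inv_mul_le_iff₀ (pow_pos hY0 _)]
      exact hPB
    rw [hP]
    rcases x with k | ⟨k, k', q⟩
    · by_cases hk : k ≤ n
      swap
      · exact ⟨B', fun _ h => h, le_mul_of_one_le_left (hp B') hY1, fun h => absurd h hk⟩
      have hEk := hE k hk
      have hak : o k + (a - o k) = a := by
        have := hoa k hk
        omega
      have htop := hEk.top.sub hB'
      have hrel := hEk.relt
      rw [hak] at htop hrel
      obtain ⟨B'', h1, h2, h3⟩ := hinc (κ' := 1 / Y ^ L.length) hc hEk.thin.depG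
        (hrel.mono hDr le_rfl) hB' hsh2 (by
          refine le_trans (mul_le_mul_of_nonneg_left ?_ (hκ k hk).1) (hsh k hk)
          rw [hY, pow_succ]
          linarith) (htop.mono (Nat.le_succ r) (fun _ => le_rfl) le_rfl le_rfl)
      refine ⟨B'', h1, h2.trans (mul_le_mul_of_nonneg_right ?_ (hp B'')), fun _ ω hω i hi b hb
        j hj => (h3 ω hω i hi b hb j hj).trans ?_⟩
      · rw [hY]
        linarith
      · exact div_le_div_of_nonneg_right (hUU (by omega) (hh' k hk)) (by positivity)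
    · by_cases hk : k ≤ n ∧ k' ≤ n ∧ q ≤ M ∧ o k ≤ o k' ∧ z k q = o k' - o k
      swap
      · exact ⟨B', fun _ h => h, le_mul_of_one_le_left (hp B') hY1, fun h1 h2 h3 h4 h5 =>
          absurd ⟨h1, h2, h3, h4, h5⟩ hk⟩
      obtain ⟨hk, hk', hq, hoo, hz⟩ := hk
      have hrad := (hE k hk).rad q hq
      rw [hz, show o k + (o k' - o k) = o k' by omega] at hrad
      have hE' := hE k' hk'
      obtain ⟨B'', h1, h2, h3⟩ := hbal (κ' := 1 / Y ^ L.length) hc hoo (hoJ k' hk')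
        (hE'.relb.mono hDr le_rfl) hB' hsh2 (hκ k' hk').1 (by
          refine le_trans (le_of_eq ?_) (hsh k' hk')
          rw [hY]) (hrad.sub hB') (hE'.ball.sub hB')
      refine ⟨B'', h1, h2.trans (mul_le_mul_of_nonneg_right ?_ (hp B'')), fun _ _ _ _ _ ω hω
        l hl b hb => (h3 ω hω l hl b hb).trans ?_⟩
      · rw [hY]
        linarith
      · exact div_le_div_of_nonneg_right (hUU (by omega) (hh' k' hk')) (by positivity))
  refine ⟨B', hB1, hB2.trans (mul_le_mul_of_nonneg_right ?_ (hp B')), ?_⟩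
  · rw [hK]
    exact pow_le_pow_right₀ hY1 (Nat.le_succ _)
  · rw [← hU]
    refine ⟨fun k hk => ?_, fun k hk k' hk' q hq => ?_⟩
    · have h1 := hB3 (Sum.inl k) (by
        rw [hL, List.mem_append]
        left
        rw [List.mem_map]
        exact ⟨k, List.mem_range.2 (by omega), rfl⟩)
      rw [hP] at h1
      exact h1 hk
    · have h1 := hB3 (Sum.inr (k, k', q)) (by
        rw [hL, List.mem_append]
        right
        rw [List.mem_map]
        refine ⟨(k, k', q), ?_, rfl⟩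
        rw [List.pair_mem_product, List.pair_mem_product, List.mem_range, List.mem_range,
          List.mem_range]
        omega)
      rw [hP] at h1
      exact h1 hk hk' hq

/-! ### The environment -/

/-- **The environment**: the data of `LinD` without the closed gradient. `gpn`: the spatial
gradient of `Gp` is natural for the first ball. -/
structure EnvD (F : Fam m J) (c : ℕ → Fin m) (i D w a₁ a n N e s : ℕ) (g gT : ℕ → ℕ)
    (ε₂ : ℝ) (B : F.Ω → Prop) (G : PtT F → ℕ → MvPolynomial (Option (Fin m)) ℝ)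
    (H₀ : LnT F → ℕ → MvPolynomial (Option (Fin m)) ℝ)
    (T : PtT F → ℕ → MvPolynomial (Option (Fin m)) ℝ)
    (Gp : PtT F → MvPolynomial (Option (Fin m)) ℝ) : Prop where
  ball : ChOK F c (i + 1) (fun _ => D) a₁ w e g B G
    (fun s l => Hno (c l) (fun s => H₀ s l) s)
  thp : ∀ ω, B ω → ∀ l < i, |F.x ω (c l) - eval (bt F ω) (T (ptr F J ω) l)| ≤ 1 / 2 ^ gT l
  inc : ∀ ω, B ω → ∀ b, NBx c (T (ptr F J ω)) gT a (F.t ω) i b →
    |b none - F.t ω| ≤ 1 / 2 ^ (a₁ + n) ∧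
    ∀ l < i, |b (some (c l)) - eval b (G (ptr F J ω) l)| ≤ 1 / 2 ^ (g l + n)
  nat : ∀ ω ν, B ω → B ν → ptr F J ω = ptr F J ν → ∀ l < i,
    |bd F ν (some (c l)) - dd (G (ptr F J ω) l) (bt F ω) (bd F ν)| ≤ 2 ^ N * 2 ^ a₁ / 2 ^ g l
  vel : ∀ ω ν, B ω → B ν → ptr F J ω = ptr F J ν →
    |bd F ν (some (c i)) - dd (Gp (ptr F J ω)) (bt F ω) (bd F ν)| ≤ ε₂
  gpn : ∀ ω, B ω → ∀ V : Option (Fin m) → ℝ, V none = 0 →
    |dd (Gp (ptr F J ω)) (bt F ω) V - dd (G (ptr F J ω) i) (bt F ω) V| ≤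
      2 ^ N / 2 ^ g i * nrm c (G (ptr F J ω)) g a₁ i (bt F ω) V
  shf : ∀ ω ν, B ω → B ν → ptr F J ω = ptr F J ν → ∀ V : Option (Fin m) → ℝ, V none = 0 →
    |dd (Gp (ptr F J ω)) (bt F ν) V - dd (Gp (ptr F J ω)) (bt F ω) V| ≤
      1 / 2 ^ (g i + s) * nrm c (G (ptr F J ω)) g a₁ i (bt F ω) V

/-- **The environment and a closed gradient.** -/
theorem EnvD.lin {F : Fam m J} {c : ℕ → Fin m} {i D D₁ w a₁ a n N e s : ℕ} {g gT : ℕ → ℕ}
    {ε₁ ε₂ : ℝ} {B B' : F.Ω → Prop} {G : PtT F → ℕ → MvPolynomial (Option (Fin m)) ℝ}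
    {H₀ : LnT F → ℕ → MvPolynomial (Option (Fin m)) ℝ}
    {T : PtT F → ℕ → MvPolynomial (Option (Fin m)) ℝ}
    {Gp : PtT F → MvPolynomial (Option (Fin m)) ℝ} {lam : LnT F → ℕ → Polynomial ℝ}
    (h : EnvD F c i D w a₁ a n N e s g gT ε₂ B G H₀ T Gp) (hB : Sub B' B)
    (hs : 1 / 2 ^ (g i + s) ≤ ε₁) (hε : ε₁ ≤ 2 ^ N / 2 ^ g i)
    (hd : ∀ s l, (lam s l).natDegree ≤ D₁)
    (hspa : ∀ ω, B' ω → ∀ V : Option (Fin m) → ℝ, V none = 0 →
      |∑ l ∈ range i, (lam (slam F w ω) l).eval (Pool.PB.Trl.rt F w ω) * V (some (c l)) -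
        dd (Gp (ptr F J ω)) (bt F ω) V| ≤ ε₁ * nrm c (G (ptr F J ω)) g a₁ i (bt F ω) V) :
    LinD F c i D D₁ w a₁ a n (N + 1) e g gT ε₁ ε₂ B' G H₀ T Gp lam where
  ball := h.ball.sub hB
  thp := fun ω hω => h.thp ω (hB ω hω)
  inc := fun ω hω => h.inc ω (hB ω hω)
  dlam := hd
  nat := fun ω ν hω hν hpt l hl => (h.nat ω ν (hB ω hω) (hB ν hν) hpt l hl).trans
    (div_le_div_of_nonneg_right (mul_le_mul_of_nonneg_right
      (pow_le_pow_right₀ (by norm_num) (Nat.le_succ N)) (by positivity)) (by positivity))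
  vel := fun ω ν hω hν => h.vel ω ν (hB ω hω) (hB ν hν)
  spa := hspa
  lnat := fun ω hω V hV => by
    have h1 := hspa ω hω V hV
    have h2 := h.gpn ω (hB ω hω) V hV
    have h3 := nrm_nonneg c (G (ptr F J ω)) g a₁ i (bt F ω) V
    have e1 : ∑ l ∈ range i, (lam (slam F w ω) l).eval (Pool.PB.Trl.rt F w ω) *
        V (some (c l)) - dd (G (ptr F J ω) i) (bt F ω) V =
        (∑ l ∈ range i, (lam (slam F w ω) l).eval (Pool.PB.Trl.rt F w ω) * V (some (c l)) -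
          dd (Gp (ptr F J ω)) (bt F ω) V) +
        (dd (Gp (ptr F J ω)) (bt F ω) V - dd (G (ptr F J ω) i) (bt F ω) V) := by ring
    rw [e1]
    refine (abs_add_le _ _).trans ((add_le_add (h1.trans (mul_le_mul_of_nonneg_right hε h3))
      h2).trans (le_of_eq ?_))
    rw [pow_succ]
    ring
  shf := fun ω ν hω hν hpt V hV => (h.shf ω ν (hB ω hω) (hB ν hν) hpt V hV).trans
    (mul_le_mul_of_nonneg_right hs (nrm_nonneg _ _ _ _ _ _ _))

theorem nrm_Gno (c : ℕ → Fin m) {F : Fam m J} (G : PtT F → ℕ → MvPolynomial (Option (Fin m)) ℝ)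
    (g : ℕ → ℕ) (a r : ℕ) (y : PtT F) (x V : Option (Fin m) → ℝ) :
    nrm c (fun l => Gno (c l) J J (fun y => G y l) y) g a r x V = nrm c (G y) g a r x V := by
  unfold nrm
  simp only [dd_Gno]

/-- The derivatives of two balls. -/
theorem bale_dd (D r : ℕ) : ∃ C : ℕ, ∀ {m J : ℕ} {F : Fam m J} {c : ℕ → Fin m}
    {n M a k k' q e' : ℕ} {o : ℕ → ℕ} {z : ℕ → ℕ → ℕ} {g gc gT g₀ : ℕ → ℕ → ℕ} {U : ℝ}
    {B : F.Ω → Prop} {G T : ℕ → PtT F → ℕ → MvPolynomial (Option (Fin m)) ℝ}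
    {H : ℕ → LnT F → ℕ → MvPolynomial (Option (Fin m)) ℝ}, Set.InjOn c (Set.Iio r) →
    BalE F c r n M a o z g gc gT g₀ U B G T → 0 ≤ U → k ≤ n → k' ≤ n → q ≤ M → o k ≤ o k' →
    z k q = o k' - o k → (∀ y l, (G k y l).totalDegree ≤ D) → (∀ y l, DepC c l (G k y l)) →
    ChOK F c (r + 1) (fun _ => D) (o k') (o k') e' (g₀ k') B (G k') (H k') →
    ∀ ω, B ω → ∀ l ≤ r, ∀ V : Option (Fin m) → ℝ,
      |dd (G k (ptr F J ω) l) (bt F ω) V - dd (G k' (ptr F J ω) l) (bt F ω) V| ≤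
        2 ^ C * U / 2 ^ min (g k l + (o k' - o k)) (g₀ k' l) *
          nrm c (G k' (ptr F J ω)) (g₀ k') (o k') l (bt F ω) V := by
  have hba := fun l : ℕ => box_all l D D
  choose Cb hCb hbl using hba
  obtain ⟨C, hC⟩ := pow_unbounded_of_one_lt (1 + ∑ l ∈ range (r + 1), Cb l) (one_lt_two (α := ℝ))
  have hCbl : ∀ l ≤ r, Cb l ≤ 2 ^ C := by
    intro l hl
    have := Finset.single_le_sum (f := Cb) (fun l _ => by linarith [hCb l])
      (Finset.mem_range.2 (Nat.lt_succ_of_le hl))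
    linarith
  refine ⟨C, ?_⟩
  intro m J F c n M a k k' q e' o z g gc gT g₀ U B G T H hc hB hU hk hk' hq hoo hz hdG hpG hch
    ω hω l hl V
  have h1 := (hbl l (c := c) (ψ := G k' (ptr F J ω))
    (Q := Gno (c l) J J (fun y => G k y l) (ptr F J ω) - G k' (ptr F J ω) l)
    (g := g₀ k') (a := o k') (M := U / 2 ^ min (g k l + (o k' - o k)) (g₀ k' l))
    (x := bt F ω) (hc.mono fun y hy => by
      rw [Set.mem_Iio] at hy ⊢
      omega) (hch.degG _) (hch.depG _) (fun y y' h1 h2 => by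
      rw [map_sub, map_sub, depC_Gno (c l) (fun y => G k y l) (ptr F J ω) (hpG _ l) y y' h1 h2,
        hch.depG _ l y y' h1 h2])
    ((totalDegree_sub _ _).trans (max_le (deg_Gno (c l) (fun y => G k y l) (ptr F J ω)
      (hdG _ l)) (hch.degG _ l))) (by positivity)
    (fun b hb => by
      rw [map_sub]
      exact hB.bal k hk k' hk' q hq hoo hz ω hω l hl b hb)
    (fun j hj => hch.pos ω hω j (by omega))).1 V
  rw [dd_sub, dd_Gno] at h1
  refine h1.trans (mul_le_mul_of_nonneg_right ?_ (nrm_nonneg _ _ _ _ _ _ _))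
  rw [mul_div_assoc]
  exact mul_le_mul_of_nonneg_right (hCbl l hl) (by positivity)

/-- **The environment from a chain of windows** `o 0, …, o n`, for the target `c i`, `i ≤ r`; the
visible chart `Gp` is the ball chart of the window `o n`. -/
theorem env_out (m D r : ℕ) : ∃ C : ℕ, 1 ≤ C ∧ ∀ {J : ℕ} {F : Fam m J} {c : ℕ → Fin m}
    {n M Dr a i e s X Z Xm N nn q z₂ jq jz : ℕ} {o ee hh p jj : ℕ → ℕ} {z : ℕ → ℕ → ℕ}
    {R : ℕ → Prop} {g gc gT g₀ : ℕ → ℕ → ℕ} {κ : ℕ → ℝ} {B : F.Ω → Prop}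
    {G T : ℕ → PtT F → ℕ → MvPolynomial (Option (Fin m)) ℝ}
    {H TH : ℕ → LnT F → ℕ → MvPolynomial (Option (Fin m)) ℝ}
    {Gt : ℕ → PtT F → MvPolynomial (Option (Fin m)) ℝ}
    {Ht : ℕ → LnT F → MvPolynomial (Option (Fin m)) ℝ},
    Set.InjOn c (Set.Iio (r + 1)) → i ≤ r → (∀ k ≤ n, o k ≤ a) → (∀ k ≤ n, ee k ≤ e) →
    (∀ k ≤ n, EvS F c r D Dr (o k) (a - o k) M (z k) (ee k) (hh k) (p k) R (g k) (gc k) (gT k)
      (g₀ k) (κ k) B (G k) (H k) (T k) (TH k) (Gt k) (Ht k)) →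
    BalE F c r n M a o z g gc gT g₀ (2 ^ X) B G T →
    (∀ ω ν, B ω → B ν → ptr F J ω = ptr F J ν → ∀ l < i,
      |bd F ν (some (c l)) - dd (G 0 (ptr F J ω) l) (bt F ω) (bd F ν)| ≤
        2 ^ X * 2 ^ o 0 / 2 ^ g₀ 0 l) →
    (∀ ω ν, B ω → B ν → ptr F J ω = ptr F J ν →
      |bd F ν (some (c i)) - dd (G n (ptr F J ω) i) (bt F ω) (bd F ν)| ≤
        2 ^ X * 2 ^ o n / 2 ^ g₀ n i) →
    (∀ k < n, jj k ≤ M ∧ z k (jj k) = o (k + 1) - o k ∧ o k ≤ o (k + 1)) →
    jq ≤ M → z 0 jq = q → jz ≤ M → z n jz = z₂ → o 0 + q + nn ≤ a →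
    (∀ l < i, g 0 l + q + nn + X ≤ gc 0 l) → (∀ l < i, g 0 l + X ≤ g₀ 0 l + N) →
    (∀ k < n, ∀ l ≤ i, ∀ j < l, g₀ (k + 1) j + g 0 l ≤
      min (g k l + (o (k + 1) - o k)) (g₀ (k + 1) l) + g 0 j + Z) →
    (∀ l < i, g n l + z₂ + 1 ≤ gc n l) → (∀ l ≤ i, g n l + z₂ ≤ g 0 l + q + Xm) →
    g 0 i + q ≤ g n i + z₂ + Xm → (n : ℝ) ≤ 2 ^ X → C * (X + Z + 1) ≤ N →
    (∀ l ≤ i, e + g n l + z₂ + (s + 2 * Xm + N + C) + C ≤ J) →
    EnvD F c i D (o 0) (o 0 + q) a nn N e s (fun l => g 0 l + q) (gT 0)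
      (2 ^ X * 2 ^ o n / 2 ^ g₀ n i) B
      (fun y l => Gno (c l) J J (fun y => G 0 y l) y) (H 0) (T 0)
      (fun y => Gno (c i) J J (fun y => G n y i) y) := by
  obtain ⟨C₁, hdd⟩ := bale_dd D r
  have hsb := fun i : ℕ => shf_ball m D i
  choose Cs hsb using hsb
  obtain ⟨C₂, hC₂⟩ : ∃ C₂ : ℕ, C₂ = ∑ i ∈ range (r + 1), Cs i := ⟨_, rfl⟩
  have hCs : ∀ i ≤ r, Cs i ≤ C₂ := by
    intro i hi
    rw [hC₂]
    exact Finset.single_le_sum (f := Cs) (fun _ _ => Nat.zero_le _)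
      (Finset.mem_range.2 (Nat.lt_succ_of_le hi))
  refine ⟨(C₁ + 4) * (r + 1) + C₂ + 1, by omega, ?_⟩
  intro J F c n M Dr a i e s X Z Xm N nn q z₂ jq jz o ee hh p jj z R g gc gT g₀ κ B G T H TH Gt
    Ht hc hi hoa hee hE hB hv0 hvn hst hjq hzq hjz hzz hann hinc hgn hgrow hpos1 hXm hXi hn hN hJ
  have hE0 := hE 0 (Nat.zero_le n)
  have hEn := hE n le_rfl
  have hcr : Set.InjOn c (Set.Iio r) := hc.mono fun y hy => by
    rw [Set.mem_Iio] at hy ⊢
    omega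
  -- the chain of balls
  obtain ⟨A, hA⟩ : ∃ A : ℝ, A = n * ((2 ^ C₁ * 2 ^ X) * 2 ^ Z) := ⟨_, rfl⟩
  have hA0 : 0 ≤ A := by rw [hA]; positivity
  have hA1 : 1 + A ≤ 2 ^ (C₁ + 2 * X + Z + 1) := by
    have h1 : A ≤ 2 ^ (C₁ + 2 * X + Z) := by
      rw [hA]
      calc (n : ℝ) * ((2 ^ C₁ * 2 ^ X) * 2 ^ Z) ≤ 2 ^ X * ((2 ^ C₁ * 2 ^ X) * 2 ^ Z) :=
            mul_le_mul_of_nonneg_right hn (by positivity)
        _ = _ := by
          rw [← pow_add, ← pow_add, ← pow_add]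
          congr 1
          ring
    have h2 : (1 : ℝ) ≤ 2 ^ (C₁ + 2 * X + Z) := one_le_pow₀ (by norm_num)
    rw [pow_succ]
    linarith
  have hNN : (C₁ + 2 * X + Z + 1) * (r + 1) ≤ N := by
    refine le_trans ?_ hN
    have h1 : C₁ + 2 * X + Z + 1 ≤ (C₁ + 4) * (X + Z + 1) := by
      nlinarith [Nat.zero_le (C₁ * X), Nat.zero_le (C₁ * Z)]
    calc (C₁ + 2 * X + Z + 1) * (r + 1) ≤ ((C₁ + 4) * (X + Z + 1)) * (r + 1) :=
          Nat.mul_le_mul_right _ h1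
      _ = ((C₁ + 4) * (r + 1)) * (X + Z + 1) := by ring
      _ ≤ _ := Nat.mul_le_mul_right _ (by omega)
  have hpw : ∀ l ≤ r, (1 + A) ^ (l + 1) ≤ 2 ^ N := by
    intro l hl
    calc (1 + A) ^ (l + 1) ≤ (2 ^ (C₁ + 2 * X + Z + 1)) ^ (l + 1) :=
          pow_le_pow_left₀ (by linarith) hA1 _
      _ = 2 ^ ((C₁ + 2 * X + Z + 1) * (l + 1)) := by rw [← pow_mul]
      _ ≤ _ := pow_le_pow_right₀ (by norm_num) ((Nat.mul_le_mul_left _ (by omega)).trans hNN)
  obtain ⟨ψ, hψ⟩ : ∃ ψ : PtT F → ℕ → ℕ → MvPolynomial (Option (Fin m)) ℝ,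
      ψ = fun y k l => G k y l := ⟨_, rfl⟩
  obtain ⟨γ, hγ⟩ : ∃ γ : ℕ → ℕ → ℕ, γ = fun k l => if k = 0 then g 0 l + q else g₀ k l :=
    ⟨_, rfl⟩
  have hγ0 : ∀ l, γ 0 l = g 0 l + q := fun l => by rw [hγ]; simp
  have hγ0' : γ 0 = fun l => g 0 l + q := funext hγ0
  have hγs : ∀ k, γ (k + 1) = g₀ (k + 1) := fun k => by
    rw [hγ]
    funext l
    simp
  have hch : ∀ ω, B ω → ∀ V : Option (Fin m) → ℝ, V none = 0 →
      (∀ k ≤ n, ∀ l ≤ i, |dd (G 0 (ptr F J ω) l) (bt F ω) V -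
        dd (G k (ptr F J ω) l) (bt F ω) V| ≤ A * (1 + A) ^ l / 2 ^ (g 0 l + q) *
          nrm c (G 0 (ptr F J ω)) (fun l => g 0 l + q) (o 0 + q) l (bt F ω) V) ∧
      ∀ k ≤ n, ∀ l ≤ i, ∑ j ∈ range l, 2 ^ (g 0 j + q) * |V (some (c j)) -
        dd (G k (ptr F J ω) j) (bt F ω) V| ≤ (1 + A) ^ l *
          nrm c (G 0 (ptr F J ω)) (fun l => g 0 l + q) (o 0 + q) l (bt F ω) V := by
    intro ω hω V hV
    have h1 := bal_chain (c := c) (ψ := ψ (ptr F J ω)) (γ := γ)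
      (X := fun k l => min (g k l + (o (k + 1) - o k)) (g₀ (k + 1) l)) (a := o 0 + q)
      (i := i) (n := n) (z := Z) (U := 2 ^ C₁ * 2 ^ X) (x := bt F ω) (V := V) (by positivity) hV
      (fun k hk l hl => by
        obtain ⟨j1, j2, j3⟩ := hst k hk
        have h2 := hdd hcr hB (by positivity) hk.le (by omega : k + 1 ≤ n) j1 j3 j2
          (hE k hk.le).ball.degG (hE k hk.le).ball.depG (hE (k + 1) (by omega)).ball ω hω l
          (by omega) V
        rw [nrm_sp _ _ _ hV] at h2 ⊢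
        rw [hγs k, hψ]
        exact h2)
      (fun k hk l hl j hj => by
        rw [hγs k, hγ0, hγ0]
        have := hgrow k hk l hl j hj
        omega)
    rw [← hA, hψ] at h1
    simp only [hγ0'] at h1
    exact h1
  have hgpn : ∀ ω, B ω → ∀ V : Option (Fin m) → ℝ, V none = 0 →
      |dd (G n (ptr F J ω) i) (bt F ω) V - dd (G 0 (ptr F J ω) i) (bt F ω) V| ≤
        2 ^ N / 2 ^ (g 0 i + q) *
          nrm c (G 0 (ptr F J ω)) (fun l => g 0 l + q) (o 0 + q) i (bt F ω) V := by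
    intro ω hω V hV
    have h1 := (hch ω hω V hV).1 n le_rfl i le_rfl
    rw [abs_sub_comm]
    refine h1.trans (mul_le_mul_of_nonneg_right (div_le_div_of_nonneg_right ?_ (by positivity))
      (nrm_nonneg _ _ _ _ _ _ _))
    refine le_trans ?_ (hpw i hi)
    rw [pow_succ, mul_comm]
    exact mul_le_mul_of_nonneg_left (by linarith) (by positivity)
  have ha0 : o 0 + (a - o 0) = a := by
    have := hoa 0 (Nat.zero_le n)
    omega
  have han : o n + (a - o n) = a := by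
    have := hoa n le_rfl
    omega
  exact
    { ball := by
        have h1 := (hE0.rad jq hjq).mono (show i + 1 ≤ r + 1 by omega) (fun _ => le_rfl) le_rfl
          (hee 0 (Nat.zero_le n))
        rw [hzq] at h1
        exact h1
      thp := fun ω hω l hl => hE0.thin.pos ω hω l (by omega)
      inc := fun ω hω b hb => by
        refine ⟨hb.1.trans (inv_mono hann), fun l hl => ?_⟩
        have h1 := hB.inc 0 (Nat.zero_le n) ω hω i hi b hb l hl
        refine h1.trans ?_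
        rw [div_le_div_iff₀ (by positivity) (by positivity), one_mul, ← pow_add]
        exact pow_le_pow_right₀ (by norm_num) (by have := hinc l hl; omega)
      nat := fun ω ν hω hν hpt l hl => by
        show |bd F ν (some (c l)) - dd (Gno (c l) J J (fun y => G 0 y l) (ptr F J ω)) (bt F ω)
          (bd F ν)| ≤ 2 ^ N * 2 ^ (o 0 + q) / 2 ^ (g 0 l + q)
        rw [dd_Gno]
        refine (hv0 ω ν hω hν hpt l hl).trans ?_
        rw [pow_add _ (o 0), pow_add _ (g 0 l), ← mul_assoc, mul_div_mul_right _ _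
          (show (2 : ℝ) ^ q ≠ 0 by positivity), div_le_div_iff₀ (by positivity) (by positivity)]
        have h1 := hgn l hl
        calc (2 : ℝ) ^ X * 2 ^ o 0 * 2 ^ g 0 l = 2 ^ o 0 * 2 ^ (g 0 l + X) := by
              rw [pow_add]
              ring
          _ ≤ 2 ^ o 0 * 2 ^ (g₀ 0 l + N) := mul_le_mul_of_nonneg_left
              (pow_le_pow_right₀ (by norm_num) h1) (by positivity)
          _ = _ := by
              rw [pow_add]
              ring
      vel := fun ω ν hω hν hpt => by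
        show |bd F ν (some (c i)) - dd (Gno (c i) J J (fun y => G n y i) (ptr F J ω)) (bt F ω)
          (bd F ν)| ≤ _
        rw [dd_Gno]
        exact hvn ω ν hω hν hpt
      gpn := fun ω hω V hV => by
        show |dd (Gno (c i) J J (fun y => G n y i) (ptr F J ω)) (bt F ω) V -
          dd (Gno (c i) J J (fun y => G 0 y i) (ptr F J ω)) (bt F ω) V| ≤
          2 ^ N / 2 ^ (g 0 i + q) * nrm c (fun l => Gno (c l) J J (fun y => G 0 y l) (ptr F J ω))
            (fun l => g 0 l + q) (o 0 + q) i (bt F ω) V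
        rw [dd_Gno, dd_Gno, nrm_Gno]
        exact hgpn ω hω V hV
      shf := fun ω ν hω hν hpt V hV => by
        show |dd (Gno (c i) J J (fun y => G n y i) (ptr F J ω)) (bt F ν) V -
          dd (Gno (c i) J J (fun y => G n y i) (ptr F J ω)) (bt F ω) V| ≤
          1 / 2 ^ (g 0 i + q + s) * nrm c (fun l => Gno (c l) J J (fun y => G 0 y l)
            (ptr F J ω)) (fun l => g 0 l + q) (o 0 + q) i (bt F ω) V
        rw [nrm_Gno]
        obtain ⟨s', hs'⟩ : ∃ s', s' = s + 2 * Xm + N + ((C₁ + 4) * (r + 1) + C₂ + 1) := ⟨_, rfl⟩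
        have h1 := (hEn.rad jz hjz).mono (show i + 1 ≤ r + 1 by omega) (fun _ => le_rfl) le_rfl
          (hee n le_rfl)
        rw [hzz] at h1
        have h2 := hsb i (s := s') (hc.mono fun y hy => by
          rw [Set.mem_Iio] at hy ⊢
          omega) h1 (fun ω hω l hl => by
            refine (hEn.top.pos ω hω l (by omega)).trans (inv_mono ?_)
            have := hpos1 l hl
            omega) (fun l hl => by
            have h3 := hJ l (by omega)
            have h4 := hCs i hi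
            omega) ω ν hω hν hpt V
        refine h2.trans ?_
        have h3 : nrm c (fun l => Gno (c l) J J (fun y => G n y l) (ptr F J ω))
            (fun l => g n l + z₂) (o n + z₂) i (bt F ω) V ≤ 2 ^ Xm * ((1 + A) ^ i *
            nrm c (G 0 (ptr F J ω)) (fun l => g 0 l + q) (o 0 + q) i (bt F ω) V) := by
          rw [nrm_Gno, nrm_sp _ _ _ hV]
          refine le_trans ?_ (mul_le_mul_of_nonneg_left ((hch ω hω V hV).2 n le_rfl i le_rfl)
            (by positivity))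
          rw [Finset.mul_sum]
          refine Finset.sum_le_sum fun j hj => ?_
          rw [Finset.mem_range] at hj
          rw [← mul_assoc, ← pow_add]
          refine mul_le_mul_of_nonneg_right (pow_le_pow_right₀ (by norm_num) ?_) (abs_nonneg _)
          have := hXm j hj.le
          omega
        obtain ⟨Nr, hNr⟩ : ∃ Nr, Nr = nrm c (G 0 (ptr F J ω)) (fun l => g 0 l + q) (o 0 + q) i
          (bt F ω) V := ⟨_, rfl⟩
        have hNr0 : 0 ≤ Nr := by rw [hNr]; exact nrm_nonneg _ _ _ _ _ _ _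
        rw [← hNr] at h3 ⊢
        have h4 : (1 + A) ^ i ≤ 2 ^ N := by
          refine le_trans ?_ (hpw i hi)
          exact pow_le_pow_right₀ (by linarith) (Nat.le_succ i)
        calc 2 ^ Cs i / 2 ^ (g n i + z₂ + s') * nrm c (fun l => Gno (c l) J J
              (fun y => G n y l) (ptr F J ω)) (fun l => g n l + z₂) (o n + z₂) i (bt F ω) V ≤
              2 ^ Cs i / 2 ^ (g n i + z₂ + s') * (2 ^ Xm * (2 ^ N * Nr)) :=
              mul_le_mul_of_nonneg_left (h3.trans (mul_le_mul_of_nonneg_left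
                (mul_le_mul_of_nonneg_right h4 hNr0) (by positivity))) (by positivity)
          _ = 2 ^ (Cs i + Xm + N) / 2 ^ (g n i + z₂ + s') * Nr := by
            rw [pow_add, pow_add]
            ring
          _ ≤ 1 / 2 ^ (g 0 i + q + s) * Nr := by
            refine mul_le_mul_of_nonneg_right ?_ hNr0
            rw [div_le_div_iff₀ (by positivity) (by positivity), one_mul, ← pow_add]
            refine pow_le_pow_right₀ (by norm_num) ?_
            have h5 := hCs i hi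
            omega }

end Pool.D2R
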