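import Pool.Agent.H23.D2.Fib

/-!
# A chain of charts on a fibre

`prod_two`: a polynomial which is bounded on a product box. `fib_box`: along a chain of charts
`ψ 0, …, ψ n`, the product boxes of the sides `2 ^ (R k) / 2 ^ (γ j + q)` in the heights over `ψ 0`
(`R` decreasing) are near the natural boxes of `ψ (k + 1)`. `grd_two`: the natural components of
`ψ n r - ψ 0 r` at two points of the fibre, and the second order expansion.
-/

set_option autoImplicit false

namespace Pool.D2R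

open Finset Real MvPolynomial
open Pool.Agent.H49.Ent Pool.Agent.H32.Dense Pool.STK Pool.KA Pool.KSAT Pool.K2S Pool.PB Pool.S6C
open Pool.GEN Pool.CHT Pool.CHX Pool.ISO

variable {m : ℕ}

/-- The linear part. -/
noncomputable def lnp (F : MvPolynomial (Option (Fin m)) ℝ) (x : Option (Fin m) → ℝ) :
    MvPolynomial (Option (Fin m)) ℝ := ∑ o, C (eval x (pderiv o F)) * X o

theorem dd_lnp (F : MvPolynomial (Option (Fin m)) ℝ) (x b V : Option (Fin m) → ℝ) :
    dd (lnp F x) b V = dd F x V := by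
  classical
  unfold lnp
  rw [dd_sum]
  refine Finset.sum_congr rfl fun o _ => ?_
  rw [dd_mul, dd_C, mul_zero, add_zero, eval_C]
  congr 1
  unfold dd
  rw [Finset.sum_eq_single o]
  · rw [pderiv_X_self, map_one, one_mul]
  · intro o' _ ho
    rw [pderiv_X_of_ne (Ne.symm ho), map_zero, zero_mul]
  · intro h
    exact absurd (Finset.mem_univ _) h

theorem eval_lnp (F : MvPolynomial (Option (Fin m)) ℝ) (x b : Option (Fin m) → ℝ) :
    eval b (lnp F x) = dd F x b := by
  unfold lnp dd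
  rw [map_sum]
  exact Finset.sum_congr rfl fun o _ => by rw [map_mul, eval_C, eval_X]

/-- **A polynomial which is bounded on a product box.** -/
theorem prod_two (r D : ℕ) : ∃ C : ℝ, 1 ≤ C ∧ ∀ {m : ℕ} {c : ℕ → Fin m}
    {F : MvPolynomial (Option (Fin m)) ℝ} {g : ℕ → ℕ} {M δ : ℝ} {e₀ e₁ : Option (Fin m) → ℝ},
    Set.InjOn c (Set.Iio r) → DepC c r F → F.totalDegree ≤ D → 0 ≤ M →
    (∀ e : Option (Fin m) → ℝ, (∀ j < r, |e (some (c j)) - e₀ (some (c j))| ≤ 1 / 2 ^ g j) →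
      |eval e F| ≤ M) → e₁ none = e₀ none → 0 ≤ δ → δ ≤ 1 →
    (∀ j < r, |e₁ (some (c j)) - e₀ (some (c j))| ≤ δ / 2 ^ g j) →
    (∀ V : Option (Fin m) → ℝ, V none = 0 →
      |dd F e₀ V| ≤ C * M * ∑ j ∈ range r, 2 ^ g j * |V (some (c j))|) ∧
    (∀ V : Option (Fin m) → ℝ, V none = 0 →
      |dd F e₁ V - dd F e₀ V| ≤ C * M * δ * ∑ j ∈ range r, 2 ^ g j * |V (some (c j))|) ∧
    |eval e₁ F - eval e₀ F - dd F e₀ (fun o => e₁ o - e₀ o)| ≤ C * M * δ ^ 2 ∧
    |eval e₁ F - eval e₀ F| ≤ C * M * δ := by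
  obtain ⟨C, hC, hbox⟩ := box_all r 0 D
  have hr0 : (0 : ℝ) ≤ r := Nat.cast_nonneg r
  refine ⟨C * (r + 1) ^ 2, by nlinarith, ?_⟩
  intro m c F g M δ e₀ e₁ hc hF hD hM hb hn hδ hδ1 h1
  obtain ⟨η, hη⟩ : ∃ η : Option (Fin m) → ℝ, η = fun o => e₁ o - e₀ o := ⟨_, rfl⟩
  obtain ⟨ψ, hψ⟩ : ∃ ψ : ℕ → MvPolynomial (Option (Fin m)) ℝ,
    ψ = fun l => MvPolynomial.C (e₀ (some (c l))) := ⟨_, rfl⟩
  have hηn : η none = 0 := by rw [hη]; show e₁ none - e₀ none = 0; rw [hn, sub_self]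
  have hηj : ∀ j < r, |η (some (c j))| ≤ δ / 2 ^ g j := fun j hj => by rw [hη]; exact h1 j hj
  have hnr : ∀ x V : Option (Fin m) → ℝ, V none = 0 → nrm c ψ g 0 r x V =
      ∑ j ∈ range r, 2 ^ g j * |V (some (c j))| := by
    intro x V hV
    rw [nrm_sp _ _ _ hV]
    refine Finset.sum_congr rfl fun j _ => ?_
    rw [hψ]
    show 2 ^ g j * |V (some (c j)) - dd (MvPolynomial.C _) x V| = _
    rw [dd_C, sub_zero]
  have hnz : ∀ x V W : Option (Fin m) → ℝ, nrz c ψ g 0 r x V W 0 = 0 := by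
    intro x V W
    unfold nrz
    rw [Pi.zero_apply, abs_zero, mul_zero, zero_add]
    refine Finset.sum_eq_zero fun j _ => ?_
    rw [hψ]
    show 2 ^ g j * |(0 : Option (Fin m) → ℝ) (some (c j)) - dd (MvPolynomial.C _) x 0 - hs (MvPolynomial.C _) x V W| = 0
    rw [dd_C, hs_C, Pi.zero_apply, sub_zero, sub_zero, abs_zero, mul_zero]
  have hd0 : ∀ x : Option (Fin m) → ℝ, dd F x 0 = 0 := by
    intro x
    unfold dd
    simp
  have hall : ∀ x : Option (Fin m) → ℝ, (∀ j < r, |x (some (c j)) - e₀ (some (c j))| ≤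
      1 / 2 ^ g j) → (∀ V : Option (Fin m) → ℝ, V none = 0 →
      |dd F x V| ≤ C * M * ∑ j ∈ range r, 2 ^ g j * |V (some (c j))|) ∧
      ∀ V W : Option (Fin m) → ℝ, V none = 0 → W none = 0 → |hs F x V W| ≤ C * M *
        ((∑ j ∈ range r, 2 ^ g j * |V (some (c j))|) *
          ∑ j ∈ range r, 2 ^ g j * |W (some (c j))|) := by
    intro x hx
    obtain ⟨k1, k2⟩ := hbox (c := c) (ψ := ψ) (Q := F) (g := g) (a := 0) (M := M) (x := x) hc
      (fun l => by rw [hψ]; show (MvPolynomial.C _ : MvPolynomial (Option (Fin m)) ℝ).totalDegree ≤ 0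
                   rw [totalDegree_C])
      (fun l b b' _ _ => by rw [hψ]; show eval b (MvPolynomial.C _) = eval b' (MvPolynomial.C _); rw [eval_C, eval_C])
      hF hD hM (fun b hb' => hb b fun j hj => by
        have h2 := hb'.2 j hj
        rw [hψ] at h2
        have h3 : |b (some (c j)) - eval b (MvPolynomial.C (e₀ (some (c j))))| ≤ 1 / 2 ^ g j := h2
        rwa [eval_C] at h3)
      (fun j hj => by
        rw [hψ]
        show |x (some (c j)) - eval x (MvPolynomial.C (e₀ (some (c j))))| ≤ _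
        rw [eval_C]
        exact hx j hj)
    refine ⟨fun V hV => ?_, fun V W hV hW => ?_⟩
    · rw [← hnr x V hV]
      exact k1 V
    · have h3 := k2 V W 0
      rw [hnz, add_zero, hnr x V hV, hnr x W hW, hd0, add_zero] at h3
      exact h3
  have hseg : ∀ u ∈ Set.Icc (0 : ℝ) 1, ∀ j < r,
      |(fun o => e₀ o + u * η o) (some (c j)) - e₀ (some (c j))| ≤ 1 / 2 ^ g j := by
    intro u hu j hj
    show |e₀ (some (c j)) + u * η (some (c j)) - e₀ (some (c j))| ≤ _
    rw [add_sub_cancel_left, abs_mul, abs_of_nonneg hu.1]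
    calc u * |η (some (c j))| ≤ 1 * (δ / 2 ^ g j) :=
          mul_le_mul hu.2 (hηj j hj) (abs_nonneg _) zero_le_one
      _ ≤ 1 * (1 / 2 ^ g j) := mul_le_mul_of_nonneg_left (div_le_div_of_nonneg_right hδ1
          (by positivity)) zero_le_one
      _ = _ := one_mul _
  have hηs : ∑ j ∈ range r, 2 ^ g j * |η (some (c j))| ≤ r * δ := by
    calc ∑ j ∈ range r, 2 ^ g j * |η (some (c j))| ≤ ∑ _j ∈ range r, δ := by
          refine Finset.sum_le_sum fun j hj => ?_
          have := hηj j (Finset.mem_range.1 hj)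
          rwa [le_div_iff₀ (by positivity), mul_comm] at this
      _ = _ := by rw [Finset.sum_const, Finset.card_range, nsmul_eq_mul]
  have hηs0 : 0 ≤ ∑ j ∈ range r, 2 ^ g j * |η (some (c j))| :=
    Finset.sum_nonneg fun _ _ => by positivity
  have hV0 : ∀ V : Option (Fin m) → ℝ, 0 ≤ ∑ j ∈ range r, 2 ^ g j * |V (some (c j))| :=
    fun V => Finset.sum_nonneg fun _ _ => by positivity
  have hCM : 0 ≤ C * M := by positivity
  have e1 : (fun o => e₀ o + 1 * η o) = e₁ := by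
    rw [hη]
    funext o
    ring
  have hC0 : 0 ≤ C := by linarith
  have hcr : C ≤ C * (r + 1) ^ 2 := le_mul_of_one_le_right hC0 (by nlinarith)
  have hcr1 : C * r ≤ C * (r + 1) ^ 2 := mul_le_mul_of_nonneg_left (by nlinarith) hC0
  have hcr2 : C * r * r ≤ C * (r + 1) ^ 2 := by
    rw [mul_assoc]
    exact mul_le_mul_of_nonneg_left (by nlinarith) hC0
  have hb2 : ∀ u ∈ Set.Icc (0 : ℝ) 1, ∀ V : Option (Fin m) → ℝ, V none = 0 →
      |dd F (fun o => e₀ o + u * η o) V - dd F e₀ V| ≤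
        C * M * (r * δ) * ∑ j ∈ range r, 2 ^ g j * |V (some (c j))| := by
    intro u hu V hV
    refine mv_two F e₀ η V (fun u hu => ?_) u hu
    rw [dd_dP]
    refine ((hall _ (hseg u hu)).2 V η hV hηn).trans ?_
    rw [mul_assoc (C * M), mul_comm (r * δ)]
    exact mul_le_mul_of_nonneg_left (mul_le_mul_of_nonneg_left hηs (hV0 V)) hCM
  refine ⟨fun V hV => ?_, fun V hV => ?_, ?_, ?_⟩
  · refine ((hall e₀ fun j _ => by
      rw [sub_self, abs_zero]
      positivity).1 V hV).trans (mul_le_mul_of_nonneg_right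
        (mul_le_mul_of_nonneg_right hcr hM) (hV0 V))
  · have h2 := hb2 1 ⟨zero_le_one, le_rfl⟩ V hV
    rw [e1] at h2
    refine h2.trans (mul_le_mul_of_nonneg_right ?_ (hV0 V))
    calc C * M * (r * δ) = (C * r) * M * δ := by ring
      _ ≤ _ := mul_le_mul_of_nonneg_right (mul_le_mul_of_nonneg_right hcr1 hM) hδ
  · have h2 := mv_seg (F - lnp F e₀) e₀ η (M := C * M * (r * δ) * (r * δ)) (fun u hu => by
      rw [dd_sub, dd_lnp]
      exact (hb2 u hu η hηn).trans (mul_le_mul_of_nonneg_left hηs (by positivity))) 1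
      ⟨zero_le_one, le_rfl⟩
    rw [e1, map_sub, map_sub, eval_lnp, eval_lnp] at h2
    have h3 : dd F e₀ (fun o => e₁ o - e₀ o) = dd F e₀ e₁ - dd F e₀ e₀ := by
      unfold dd
      rw [← Finset.sum_sub_distrib]
      exact Finset.sum_congr rfl fun o _ => by ring
    rw [h3]
    have h4 : eval e₁ F - dd F e₀ e₁ - (eval e₀ F - dd F e₀ e₀) =
        eval e₁ F - eval e₀ F - (dd F e₀ e₁ - dd F e₀ e₀) := by ring
    rw [h4] at h2
    refine h2.trans ?_
    calc C * M * (r * δ) * (r * δ) = (C * r * r) * M * δ ^ 2 := by ring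
      _ ≤ _ := mul_le_mul_of_nonneg_right (mul_le_mul_of_nonneg_right hcr2 hM) (by positivity)
  · have h2 := mv_seg F e₀ η (M := C * M * (r * δ)) (fun u hu =>
      ((hall _ (hseg u hu)).1 η hηn).trans (mul_le_mul_of_nonneg_left hηs hCM)) 1
      ⟨zero_le_one, le_rfl⟩
    rw [e1] at h2
    refine h2.trans ?_
    calc C * M * (r * δ) = (C * r) * M * δ := by ring
      _ ≤ _ := mul_le_mul_of_nonneg_right (mul_le_mul_of_nonneg_right hcr1 hM) hδ

/-- **The product boxes in a chain of charts.** -/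
theorem fib_box (D r : ℕ) : ∃ C : ℕ, ∀ {m : ℕ} {c : ℕ → Fin m} {n k₀ q P : ℕ}
    {ψ Q : ℕ → ℕ → MvPolynomial (Option (Fin m)) ℝ} {g X : ℕ → ℕ → ℕ} {γ R a : ℕ → ℕ}
    {κ : ℕ → ℕ → ℝ} {x : Option (Fin m) → ℝ}, Set.InjOn c (Set.Iio (r + 1)) →
    (∀ k l, (ψ k l).totalDegree ≤ D) → (∀ k l, DepC c l (ψ k l)) →
    (∀ k l, (Q k l).totalDegree ≤ D) → (∀ k l, DepC c l (Q k l)) →
    (∀ k < n, ∀ l ≤ r, ∀ b, eval b (Q k l) = eval b (ψ k l) - eval b (ψ (k + 1) l) + κ k l) →
    (∀ k < n, ∀ l ≤ r, ∀ b, NBx c (ψ (k + 1)) (g (k + 1)) (a k) (x none) l b →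
      |eval b (Q k l)| ≤ 2 ^ P / 2 ^ X k l) →
    (∀ k < n, ∀ l < r, |x (some (c l)) - eval x (ψ (k + 1) l)| ≤ 2 ^ P / 2 ^ g (k + 1) l) →
    (∀ k < n, R k ≤ q) → (∀ k < n, ∀ k' ≤ k, R k ≤ R k') → (n : ℝ) ≤ 2 ^ P →
    (∀ k < n, ∀ l < r, k₀ ≤ l → g (k + 1) l + R k ≤ γ l + q + P) →
    (∀ k < n, ∀ k' ≤ k, ∀ l < r, k₀ ≤ l → g (k + 1) l + R k ≤ X k' l + R k' + P) →
    ∀ k < n, ∀ e : Option (Fin m) → ℝ, (∀ j < r, |e (some (c j)) -
        (x (some (c j)) - eval x (ψ 0 j))| ≤ 2 ^ R k / 2 ^ (γ j + q)) →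
      ∀ l ≤ r, |eval (fpt c (ψ 0) k₀ r x e) (Q k l)| ≤ 2 ^ (C * (P + 1)) / 2 ^ X k l := by
  obtain ⟨c₀, D₁, hD₁, hdil⟩ := nbx_dil (r + 1) (fun _ => D)
  obtain ⟨C₁, hC₁, hpr⟩ := prod_two r (D * (D + 1) ^ r)
  obtain ⟨c₁, hc₁⟩ := pow_unbounded_of_one_lt C₁ (one_lt_two (α := ℝ))
  refine ⟨(c₁ + c₀ + 4) * (1 + D₁) ^ (r + 1), ?_⟩
  intro m c n k₀ q P ψ Q g X γ R a κ x hc hψ hdep hQ hQd hκ hM hx hRq hR hn h1 h2
  have hcr : Set.InjOn c (Set.Iio r) := hc.mono fun y hy => by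
    rw [Set.mem_Iio] at hy ⊢
    omega
  -- the exponents
  obtain ⟨pl, hpl⟩ : ∃ pl : ℕ → ℕ, pl = fun l => (c₁ + c₀ + 4 * P + 3) * (1 + D₁) ^ l := ⟨_, rfl⟩
  have hpl1 : ∀ l, c₁ + c₀ + 4 * P + 3 ≤ pl l := by
    intro l
    rw [hpl]
    exact Nat.le_mul_of_pos_right _ (by positivity)
  have hpl2 : ∀ l, c₁ + c₀ + 4 * P + 3 + pl l * D₁ ≤ pl (l + 1) := by
    intro l
    have e1 : pl (l + 1) = pl l + pl l * D₁ := by
      rw [hpl]
      show _ * _ ^ (l + 1) = _ * _ ^ l + _ * _ ^ l * _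
      rw [pow_succ]
      ring
    rw [e1]
    have := hpl1 l
    omega
  have hplm : ∀ l ≤ r + 1, pl l ≤ (c₁ + c₀ + 4) * (1 + D₁) ^ (r + 1) * (P + 1) := by
    intro l hl
    rw [hpl]
    show (c₁ + c₀ + 4 * P + 3) * (1 + D₁) ^ l ≤ _
    have e1 : (1 + D₁) ^ l ≤ (1 + D₁) ^ (r + 1) := Nat.pow_le_pow_right (by omega) hl
    calc (c₁ + c₀ + 4 * P + 3) * (1 + D₁) ^ l ≤
          ((c₁ + c₀ + 4) * (P + 1)) * (1 + D₁) ^ (r + 1) :=
          Nat.mul_le_mul (by nlinarith) e1
      _ = _ := by ring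
  obtain ⟨e₀, he₀⟩ : ∃ e₀ : Option (Fin m) → ℝ, (∀ j < r, e₀ (some (c j)) =
      x (some (c j)) - eval x (ψ 0 j)) := by
    obtain ⟨e₀, -, he₀⟩ := vec_adapt (c := c) (i := r) hcr (G := fun _ => 0)
      (fun l b b' _ _ => by simp) x 0 (fun j => x (some (c j)) - eval x (ψ 0 j)) r le_rfl
    refine ⟨e₀, fun j hj => ?_⟩
    rw [← he₀ j hj]
    unfold dd
    simp
  have hfx : ∀ l < r, fpt c (ψ 0) k₀ r x e₀ (some (c l)) = x (some (c l)) :=
    fpt_inv hcr (hdep 0) rfl (fun _ _ _ => rfl) fun l hl _ => he₀ l hl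
  -- the telescoping sum
  have htel : ∀ k < n, ∀ l ≤ r, ∀ b, eval b (ψ 0 l) - eval b (ψ (k + 1) l) =
      ∑ k' ∈ range (k + 1), (eval b (Q k' l) - κ k' l) := by
    intro k
    induction k with
    | zero =>
      intro hk l hl b
      rw [Finset.sum_range_one, hκ 0 hk l hl b]
      ring
    | succ k ih =>
      intro hk l hl b
      rw [Finset.sum_range_succ, ← ih (by omega) l hl b, hκ (k + 1) hk l hl b]
      ring
  have key : ∀ l ≤ r, (∀ k < n, ∀ e : Option (Fin m) → ℝ, (∀ j < r, |e (some (c j)) -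
        (x (some (c j)) - eval x (ψ 0 j))| ≤ 2 ^ R k / 2 ^ (γ j + q)) →
      ∀ j < l, |fpt c (ψ 0) k₀ r x e (some (c j)) -
        eval (fpt c (ψ 0) k₀ r x e) (ψ (k + 1) j)| ≤ 2 ^ pl l / 2 ^ g (k + 1) j) ∧
      ∀ k < n, ∀ e : Option (Fin m) → ℝ, (∀ j < r, |e (some (c j)) -
        (x (some (c j)) - eval x (ψ 0 j))| ≤ 2 ^ R k / 2 ^ (γ j + q)) →
        |eval (fpt c (ψ 0) k₀ r x e) (Q k l)| ≤ 2 ^ (c₀ + pl l * D₁ + P) / 2 ^ X k l := by
    intro l
    induction l with
    | zero =>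
      intro _
      refine ⟨fun k hk e he j hj => absurd hj (Nat.not_lt_zero j), fun k hk e he => ?_⟩
      have h3 := hdil (c := c) (i := 0) (G := ψ (k + 1)) (Q := Q k 0) (g := g (k + 1)) (a := a k)
        (t := x none) (M := 2 ^ P / 2 ^ X k 0) (pl 0) (Nat.succ_pos r) (hc.mono fun y hy => by
          rw [Set.mem_Iio] at hy
          omega) (hψ _) (hdep _) (hQd k 0) (hQ k 0) (by positivity) (hM k hk 0 (Nat.zero_le _))
        (fpt c (ψ 0) k₀ r x e) (by
          rw [fpt_none, sub_self, abs_zero]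
          positivity) (fun j hj => absurd hj (Nat.not_lt_zero j))
      refine h3.trans (le_of_eq ?_)
      rw [pow_add _ (c₀ + pl 0 * D₁)]
      ring
    | succ l ih =>
      intro hl
      obtain ⟨ih1, ih2⟩ := ih (by omega)
      have hA : ∀ k < n, ∀ e : Option (Fin m) → ℝ, (∀ j < r, |e (some (c j)) -
          (x (some (c j)) - eval x (ψ 0 j))| ≤ 2 ^ R k / 2 ^ (γ j + q)) →
          ∀ j < l + 1, |fpt c (ψ 0) k₀ r x e (some (c j)) -
            eval (fpt c (ψ 0) k₀ r x e) (ψ (k + 1) j)| ≤ 2 ^ pl (l + 1) / 2 ^ g (k + 1) j := by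
        intro k hk e he j hj
        have hmono : (2 : ℝ) ^ pl l ≤ 2 ^ pl (l + 1) := pow_le_pow_right₀ (by norm_num)
          ((Nat.le_mul_of_pos_right _ hD₁).trans ((Nat.le_add_left _ _).trans (hpl2 l)))
        rcases Nat.lt_or_ge j l with hjl | hjl
        · exact (ih1 k hk e he j hjl).trans (div_le_div_of_nonneg_right hmono (by positivity))
        have hjl' : j = l := by omega
        subst hjl'
        rcases Nat.lt_or_ge j k₀ with h0 | h0
        · -- the first coordinates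
          have e1 : eval (fpt c (ψ 0) k₀ r x e) (ψ (k + 1) j) = eval x (ψ (k + 1) j) :=
            hdep (k + 1) j _ _ (fpt_none r e) fun j' hj' => fpt_lt hcr e (by omega) (by omega)
          rw [fpt_lt hcr e (by omega) h0, e1]
          refine (hx k hk j (by omega)).trans (div_le_div_of_nonneg_right
            (pow_le_pow_right₀ (by norm_num) ?_) (by positivity))
          have := hpl1 (j + 1)
          omega
        · -- the other coordinates
          have hj' : j < r := by omega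
          have e1 : fpt c (ψ 0) k₀ r x e (some (c j)) -
              eval (fpt c (ψ 0) k₀ r x e) (ψ (k + 1) j) = e (some (c j)) +
              ∑ k' ∈ range (k + 1), (eval (fpt c (ψ 0) k₀ r x e) (Q k' j) - κ k' j) := by
            rw [← htel k hk j hj'.le, fpt_ge hcr (hdep 0) e hj' h0]
            ring
          have e2 : x (some (c j)) - eval x (ψ (k + 1) j) = e₀ (some (c j)) +
              ∑ k' ∈ range (k + 1), (eval (fpt c (ψ 0) k₀ r x e₀) (Q k' j) - κ k' j) := by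
            rw [← htel k hk j hj'.le, he₀ j hj',
              hdep 0 j (fpt c (ψ 0) k₀ r x e₀) x (fpt_none r e₀) fun j' h' =>
                hfx j' (by omega),
              hdep (k + 1) j (fpt c (ψ 0) k₀ r x e₀) x (fpt_none r e₀) fun j' h' =>
                hfx j' (by omega)]
            ring
          have e3 : fpt c (ψ 0) k₀ r x e (some (c j)) -
              eval (fpt c (ψ 0) k₀ r x e) (ψ (k + 1) j) =
              (x (some (c j)) - eval x (ψ (k + 1) j)) + (e (some (c j)) - e₀ (some (c j))) +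
              ∑ k' ∈ range (k + 1), (eval (fpt c (ψ 0) k₀ r x e) (Q k' j) -
                eval (fpt c (ψ 0) k₀ r x e₀) (Q k' j)) := by
            have e4 : ∑ k' ∈ range (k + 1), (eval (fpt c (ψ 0) k₀ r x e) (Q k' j) -
                eval (fpt c (ψ 0) k₀ r x e₀) (Q k' j)) =
                ∑ k' ∈ range (k + 1), (eval (fpt c (ψ 0) k₀ r x e) (Q k' j) - κ k' j) -
                ∑ k' ∈ range (k + 1), (eval (fpt c (ψ 0) k₀ r x e₀) (Q k' j) - κ k' j) := by
              rw [← Finset.sum_sub_distrib]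
              exact Finset.sum_congr rfl fun _ _ => by ring
            rw [e1, e2, e4]
            ring
          have f1 := hx k hk j hj'
          have f2 : |e (some (c j)) - e₀ (some (c j))| ≤ 2 ^ P / 2 ^ g (k + 1) j := by
            rw [he₀ j hj']
            refine (he j hj').trans ?_
            rw [div_le_div_iff₀ (by positivity) (by positivity), ← pow_add, ← pow_add]
            have := h1 k hk j hj' h0
            exact pow_le_pow_right₀ (by norm_num) (by omega)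
          have f3 : ∀ k' ∈ range (k + 1), |eval (fpt c (ψ 0) k₀ r x e) (Q k' j) -
              eval (fpt c (ψ 0) k₀ r x e₀) (Q k' j)| ≤
              2 ^ (c₁ + c₀ + pl j * D₁ + 2 * P) / 2 ^ g (k + 1) j := by
            intro k' hk'
            rw [Finset.mem_range] at hk'
            have hk'n : k' < n := by omega
            have hRk := hR k hk k' (by omega)
            obtain ⟨s, hs⟩ : ∃ s : ℕ → ℕ, s = fun j => γ j + q - R k' := ⟨_, rfl⟩
            have hsj : ∀ j, s j + R k' = γ j + q := fun j => by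
              rw [hs]
              have := hRq k' hk'n
              show γ j + q - R k' + R k' = γ j + q
              omega
            have g1 := (hpr (c := c) (F := bind₁ (fib c (ψ 0) k₀ x r) (Q k' j)) (g := s)
              (M := 2 ^ (c₀ + pl j * D₁ + P) / 2 ^ X k' j) (δ := 2 ^ R k / 2 ^ R k')
              (e₀ := Function.update e₀ none 0) (e₁ := Function.update e none 0) hcr
              (fun b b' g1 g2 => by
                rw [ev_bind, ev_bind]
                refine hQd k' j _ _ ?_ fun l' hl' => ?_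
                · show eval b (fib c (ψ 0) k₀ x r none) = eval b' (fib c (ψ 0) k₀ x r none)
                  rw [fib_none, eval_C, eval_C]
                · exact fpt_dep hcr (hdep 0) le_rfl (fun l h _ => g2 l h) l' (by omega))
              (deg_bind (fib_deg (hψ 0) r) (hQ k' j)) (by positivity) (fun b hb => by
                rw [ev_bind]
                refine ih2 k' hk'n b fun l' hl' => ?_
                have g2 := hb l' hl'
                rw [Function.update_of_ne (by simp), he₀ l' hl'] at g2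
                refine g2.trans (le_of_eq ?_)
                rw [← hsj l', pow_add]
                field_simp) (by rw [Function.update_self, Function.update_self])
              (by positivity) (by
                rw [div_le_one (by positivity)]
                exact pow_le_pow_right₀ (by norm_num) hRk) (fun l' hl' => by
                rw [Function.update_of_ne (by simp), Function.update_of_ne (by simp), he₀ l' hl']
                refine (he l' hl').trans (le_of_eq ?_)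
                rw [← hsj l', pow_add]
                field_simp)).2.2.2
            have g3 : ∀ b : Option (Fin m) → ℝ, eval (Function.update b none 0)
                (bind₁ (fib c (ψ 0) k₀ x r) (Q k' j)) = eval (fpt c (ψ 0) k₀ r x b) (Q k' j) := by
              intro b
              rw [ev_bind]
              refine hQd k' j _ _ ?_ fun l' hl' => ?_
              · show eval _ (fib c (ψ 0) k₀ x r none) = _
                rw [fib_none, eval_C, fpt_none]
              · exact fpt_dep hcr (hdep 0) le_rfl (fun l h _ => by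
                  rw [Function.update_of_ne (by simp)]) l' (by omega)
            rw [g3, g3] at g1
            refine g1.trans ?_
            have g4 := h2 k hk k' (by omega) j hj' h0
            calc C₁ * (2 ^ (c₀ + pl j * D₁ + P) / 2 ^ X k' j) * (2 ^ R k / 2 ^ R k') ≤
                2 ^ c₁ * (2 ^ (c₀ + pl j * D₁ + P) / 2 ^ X k' j) * (2 ^ R k / 2 ^ R k') :=
                  mul_le_mul_of_nonneg_right (mul_le_mul_of_nonneg_right hc₁.le
                    (by positivity)) (by positivity)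
              _ = 2 ^ (c₁ + c₀ + pl j * D₁ + P + R k) / 2 ^ (X k' j + R k') := by
                  rw [show c₁ + c₀ + pl j * D₁ + P + R k = c₁ + (c₀ + pl j * D₁ + P) + R k by ring,
                    pow_add 2 (c₁ + _) (R k), pow_add 2 c₁, pow_add 2 (X k' j)]
                  ring
              _ ≤ _ := by
                  rw [div_le_div_iff₀ (by positivity) (by positivity), ← pow_add, ← pow_add]
                  exact pow_le_pow_right₀ (by norm_num) (by omega)
          rw [e3]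
          refine (abs_add_le _ _).trans (le_trans (add_le_add ((abs_add_le _ _).trans
            (add_le_add f1 f2)) ((Finset.abs_sum_le_sum_abs _ _).trans
              (Finset.sum_le_sum f3))) ?_)
          rw [Finset.sum_const, Finset.card_range, nsmul_eq_mul, ← mul_div_assoc, ← add_div,
            ← add_div]
          refine div_le_div_of_nonneg_right ?_ (by positivity)
          have hkn : ((k + 1 : ℕ) : ℝ) ≤ 2 ^ P := by
            refine le_trans ?_ hn
            exact_mod_cast hk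
          have hZ : (2 : ℝ) ^ P ≤ 2 ^ (c₁ + c₀ + pl j * D₁ + 3 * P) :=
            pow_le_pow_right₀ (by norm_num) (by omega)
          have hZ2 : ((k + 1 : ℕ) : ℝ) * 2 ^ (c₁ + c₀ + pl j * D₁ + 2 * P) ≤
              2 ^ (c₁ + c₀ + pl j * D₁ + 3 * P) := by
            refine (mul_le_mul_of_nonneg_right hkn (by positivity)).trans (le_of_eq ?_)
            rw [← pow_add]
            congr 1
            ring
          calc (2 : ℝ) ^ P + 2 ^ P + ((k + 1 : ℕ) : ℝ) * 2 ^ (c₁ + c₀ + pl j * D₁ + 2 * P) ≤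
              4 * 2 ^ (c₁ + c₀ + pl j * D₁ + 3 * P) := by
                have : (0 : ℝ) < 2 ^ (c₁ + c₀ + pl j * D₁ + 3 * P) := by positivity
                linarith
            _ = 2 ^ (2 + (c₁ + c₀ + pl j * D₁ + 3 * P)) := by
                rw [pow_add 2 2]
                norm_num
            _ ≤ _ := pow_le_pow_right₀ (by norm_num) (by
                have := hpl2 j
                omega)
      refine ⟨hA, fun k hk e he => ?_⟩
      have h3 := hdil (c := c) (i := l + 1) (G := ψ (k + 1)) (Q := Q k (l + 1)) (g := g (k + 1))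
        (a := a k) (t := x none) (M := 2 ^ P / 2 ^ X k (l + 1)) (pl (l + 1)) (by omega)
        (hc.mono fun y hy => by
          rw [Set.mem_Iio] at hy ⊢
          omega) (hψ _) (hdep _) (hQd k (l + 1)) (hQ k (l + 1)) (by positivity)
        (hM k hk (l + 1) hl) (fpt c (ψ 0) k₀ r x e) (by
          rw [fpt_none, sub_self, abs_zero]
          positivity) (fun j hj => hA k hk e he j hj)
      refine h3.trans (le_of_eq ?_)
      rw [pow_add _ (c₀ + pl (l + 1) * D₁)]
      ring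
  intro k hk e he l hl
  refine ((key l hl).2 k hk e he).trans (div_le_div_of_nonneg_right
    (pow_le_pow_right₀ (by norm_num) ?_) (by positivity))
  have h3 := hpl2 l
  have h4 := hplm (l + 1) (by omega)
  omega

/-- Natural components at equal base points. -/
theorem ncp_congr {c : ℕ → Fin m} {r : ℕ} (hc : Set.InjOn c (Set.Iio r))
    {ψ : ℕ → MvPolynomial (Option (Fin m)) ℝ} (hdep : ∀ l, DepC c l (ψ l))
    {Q : MvPolynomial (Option (Fin m)) ℝ} (hQ : DepC c r Q) {x y : Option (Fin m) → ℝ}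
    (h0 : x none = y none) (h : ∀ l < r, x (some (c l)) = y (some (c l))) (j : ℕ) :
    ncp c r ψ Q x j = ncp c r ψ Q y j := by
  obtain ⟨W, hW0, hW⟩ := vec_adapt hc hdep x 0 (fun l => if l = j then 1 else 0) r le_rfl
  rw [ncp_eq hdep hQ hW0 hW, ncp_eq hdep hQ (x := y) hW0 fun l hl => by
    rw [← dd_congr_pt (hdep l) W h0 fun l' hl' => h l' (hl'.trans hl)]
    exact hW l hl]
  exact dd_congr_pt hQ W h0 h

/-- The natural components are additive. -/
theorem ncp_sub {c : ℕ → Fin m} {r : ℕ} (hc : Set.InjOn c (Set.Iio r))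
    {ψ : ℕ → MvPolynomial (Option (Fin m)) ℝ} (hdep : ∀ l, DepC c l (ψ l))
    {Q Q' : MvPolynomial (Option (Fin m)) ℝ} (hQ : DepC c r Q) (hQ' : DepC c r Q')
    (x : Option (Fin m) → ℝ) (j : ℕ) :
    ncp c r ψ (Q - Q') x j = ncp c r ψ Q x j - ncp c r ψ Q' x j := by
  obtain ⟨W, hW0, hW⟩ := vec_adapt hc hdep x 0 (fun l => if l = j then 1 else 0) r le_rfl
  rw [ncp_eq hdep hQ hW0 hW, ncp_eq hdep hQ' hW0 hW, ncp_eq hdep (fun b b' h1 h2 => by
    rw [map_sub, map_sub, hQ b b' h1 h2, hQ' b b' h1 h2]) hW0 hW, dd_sub]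

/-- **A chain of charts over the fibre through `x`.** -/
structure FibD (c : ℕ → Fin m) (r D n k₀ q P : ℕ) (ψ Q : ℕ → ℕ → MvPolynomial (Option (Fin m)) ℝ)
    (g X : ℕ → ℕ → ℕ) (γ R a : ℕ → ℕ) (κ : ℕ → ℕ → ℝ) (x : Option (Fin m) → ℝ) : Prop where
  inj : Set.InjOn c (Set.Iio (r + 1))
  dψ : ∀ k l, (ψ k l).totalDegree ≤ D
  pψ : ∀ k l, DepC c l (ψ k l)
  dQ : ∀ k l, (Q k l).totalDegree ≤ D
  pQ : ∀ k l, DepC c l (Q k l)
  eq : ∀ k < n, ∀ l ≤ r, Q k l = ψ k l - ψ (k + 1) l + MvPolynomial.C (κ k l)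
  box : ∀ k < n, ∀ l ≤ r, ∀ b, NBx c (ψ (k + 1)) (g (k + 1)) (a k) (x none) l b →
    |eval b (Q k l)| ≤ 2 ^ P / 2 ^ X k l
  pos : ∀ k < n, ∀ l < r, |x (some (c l)) - eval x (ψ (k + 1) l)| ≤ 2 ^ P / 2 ^ g (k + 1) l
  Rq : ∀ k < n, R k ≤ q
  Rm : ∀ k < n, ∀ k' ≤ k, R k ≤ R k'
  R2 : ∀ k < n, 2 ≤ R k
  nP : (n : ℝ) ≤ 2 ^ P
  r1 : ∀ k < n, ∀ l < r, k₀ ≤ l → g (k + 1) l + R k ≤ γ l + q + P
  r2 : ∀ k < n, ∀ k' ≤ k, ∀ l < r, k₀ ≤ l → g (k + 1) l + R k ≤ X k' l + R k' + P

/-- A shorter chain. -/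
theorem FibD.le {c : ℕ → Fin m} {r D n n' k₀ q P : ℕ}
    {ψ Q : ℕ → ℕ → MvPolynomial (Option (Fin m)) ℝ} {g X : ℕ → ℕ → ℕ} {γ R a : ℕ → ℕ}
    {κ : ℕ → ℕ → ℝ} {x : Option (Fin m) → ℝ} (h : FibD c r D n k₀ q P ψ Q g X γ R a κ x)
    (hn : n' ≤ n) : FibD c r D n' k₀ q P ψ Q g X γ R a κ x where
  inj := h.inj
  dψ := h.dψ
  pψ := h.pψ
  dQ := h.dQ
  pQ := h.pQ
  eq := fun k hk => h.eq k (by omega)
  box := fun k hk => h.box k (by omega)
  pos := fun k hk => h.pos k (by omega)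
  Rq := fun k hk => h.Rq k (by omega)
  Rm := fun k hk => h.Rm k (by omega)
  R2 := fun k hk => h.R2 k (by omega)
  nP := le_trans (by exact_mod_cast hn) h.nP
  r1 := fun k hk => h.r1 k (by omega)
  r2 := fun k hk => h.r2 k (by omega)

/-- **The relative gradient at two points of the fibre, and the second order expansion.** -/
theorem grd_two (D r : ℕ) : ∃ C : ℕ, ∀ {m : ℕ} {c : ℕ → Fin m} {n k₀ q P Y : ℕ}
    {ψ Q : ℕ → ℕ → MvPolynomial (Option (Fin m)) ℝ} {g X : ℕ → ℕ → ℕ} {γ R a : ℕ → ℕ}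
    {κ : ℕ → ℕ → ℝ} {x y : Option (Fin m) → ℝ}, FibD c r D n k₀ q P ψ Q g X γ R a κ x →
    y none = x none → (∀ l < r, l < k₀ → y (some (c l)) = x (some (c l))) →
    (∀ j < r, |(y (some (c j)) - eval y (ψ 0 j)) - (x (some (c j)) - eval x (ψ 0 j))| ≤
      2 ^ 2 / 2 ^ (γ j + q)) →
    ((∀ k < n, γ r + q ≤ X k r + R k + P) → ∀ j < r, k₀ ≤ j →
      |ncp c r (ψ 0) (ψ n r - ψ 0 r) x j| ≤ 2 ^ (C * (P + 1)) * (2 ^ γ j / 2 ^ γ r)) ∧
    ((∀ k < n, γ r + q + Y ≤ X k r + 2 * R k + P) → (∀ j < r, k₀ ≤ j →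
      |ncp c r (ψ 0) (ψ n r - ψ 0 r) y j - ncp c r (ψ 0) (ψ n r - ψ 0 r) x j| ≤
        2 ^ (C * (P + 1)) * (2 ^ γ j / 2 ^ (γ r + Y))) ∧
      |(eval y (ψ n r - ψ 0 r) - eval x (ψ n r - ψ 0 r)) - ∑ j ∈ Finset.Ico k₀ r,
        ncp c r (ψ 0) (ψ n r - ψ 0 r) x j * ((y (some (c j)) - eval y (ψ 0 j)) -
          (x (some (c j)) - eval x (ψ 0 j)))| ≤ 2 ^ (C * (P + 1)) / 2 ^ (γ r + q + Y)) ∧
    ∀ n' ≤ n, (∀ k, n' ≤ k → k < n → γ r + q + Y ≤ X k r + R k + P) → ∀ j < r, k₀ ≤ j →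
      |ncp c r (ψ 0) (ψ n r - ψ 0 r) x j - ncp c r (ψ 0) (ψ n' r - ψ 0 r) x j| ≤
        2 ^ (C * (P + 1)) * (2 ^ γ j / 2 ^ (γ r + Y)) := by
  classical
  obtain ⟨C₀, hfb⟩ := fib_box D r
  obtain ⟨C₁, hC₁, hpr⟩ := prod_two r (D * (D + 1) ^ r)
  obtain ⟨c₁, hc₁⟩ := pow_unbounded_of_one_lt C₁ (one_lt_two (α := ℝ))
  refine ⟨C₀ + c₁ + 6, ?_⟩
  intro m c n k₀ q P Y ψ Q g X γ R a κ x y H hy0 hyl hye
  have hcr : Set.InjOn c (Set.Iio r) := H.inj.mono fun y hy => by
    rw [Set.mem_Iio] at hy ⊢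
    omega
  -- the heights
  have hex : ∀ z : Option (Fin m) → ℝ, ∃ e : Option (Fin m) → ℝ, e none = 0 ∧ ∀ j < r,
      e (some (c j)) = z (some (c j)) - eval z (ψ 0 j) := by
    intro z
    obtain ⟨e₀, h0, he₀⟩ := vec_adapt (c := c) (i := r) hcr (G := fun _ => 0)
      (fun l b b' _ _ => by simp) x 0 (fun j => z (some (c j)) - eval z (ψ 0 j)) r le_rfl
    refine ⟨e₀, h0, fun j hj => ?_⟩
    rw [← he₀ j hj]
    unfold dd
    simp
  obtain ⟨e₀, he0n, he₀⟩ := hex x
  obtain ⟨e₁, he1n, he₁⟩ := hex y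
  have hfx : fpt c (ψ 0) k₀ r x e₀ = x := by
    funext o
    by_cases ho : ∃ l < r, o = some (c l)
    · obtain ⟨l, hl, rfl⟩ := ho
      exact fpt_inv hcr (H.pψ 0) rfl (fun _ _ _ => rfl) (fun l hl _ => he₀ l hl) l hl
    · exact fpt_other r e₀ fun l hl h => ho ⟨l, hl, h⟩
  have hfyn : fpt c (ψ 0) k₀ r x e₁ none = y none := by rw [fpt_none, hy0]
  have hfy : ∀ l < r, fpt c (ψ 0) k₀ r x e₁ (some (c l)) = y (some (c l)) :=
    fpt_inv hcr (H.pψ 0) hy0 hyl fun l hl _ => he₁ l hl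
  -- the polynomials on the fibre
  obtain ⟨F, hF⟩ : ∃ F : ℕ → MvPolynomial (Option (Fin m)) ℝ,
    F = fun k => bind₁ (fib c (ψ 0) k₀ x r) (Q k r) := ⟨_, rfl⟩
  have hFd : ∀ k, DepC c r (F k) := fun k => by
    rw [hF]
    exact fib_depC hcr (H.pψ 0) le_rfl (H.pQ k r)
  have hFx : ∀ k, eval e₀ (F k) = eval x (Q k r) := fun k => by
    rw [hF]
    show eval e₀ (bind₁ _ _) = _
    rw [ev_bind]
    show eval (fpt c (ψ 0) k₀ r x e₀) (Q k r) = _
    rw [hfx]
  have hFy : ∀ k, eval e₁ (F k) = eval y (Q k r) := fun k => by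
    rw [hF]
    show eval e₁ (bind₁ _ _) = _
    rw [ev_bind]
    exact H.pQ k r _ _ hfyn hfy
  obtain ⟨V, hV0, hV⟩ : ∃ V : ℕ → Option (Fin m) → ℝ, (∀ j, V j none = 0) ∧
      ∀ j, ∀ l < r, V j (some (c l)) = if l = j then 1 else 0 := by
    have h1 := fun j : ℕ => vec_adapt (c := c) (i := r) hcr (G := fun _ => 0)
      (fun l b b' _ _ => by simp) x 0 (fun l => if l = j then 1 else 0) r le_rfl
    choose V hV0 hV using h1
    refine ⟨V, hV0, fun j l hl => ?_⟩
    rw [← hV j l hl]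
    unfold dd
    simp
  have hVs : ∀ (s : ℕ → ℕ) (j : ℕ), j < r →
      ∑ l ∈ range r, (2 : ℝ) ^ s l * |V j (some (c l))| = 2 ^ s j := by
    intro s j hj
    rw [Finset.sum_eq_single j]
    · rw [hV j j hj, if_pos rfl, abs_one, mul_one]
    · intro l hl hlj
      rw [hV j l (Finset.mem_range.1 hl), if_neg hlj, abs_zero, mul_zero]
    · intro h
      exact absurd (Finset.mem_range.2 hj) h
  have hFV : ∀ k j, k₀ ≤ j → dd (F k) e₀ (V j) = ncp c r (ψ 0) (Q k r) x j := by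
    intro k j hj
    have h1 := fib_ncp (x := x) hcr (H.pψ 0) (H.pQ k r) e₀ hj (hV j)
    rw [hfx] at h1
    rw [hF]
    exact h1
  have hFV1 : ∀ k j, k₀ ≤ j → dd (F k) e₁ (V j) = ncp c r (ψ 0) (Q k r) y j := by
    intro k j hj
    have h1 := fib_ncp (x := x) hcr (H.pψ 0) (H.pQ k r) e₁ hj (hV j)
    rw [hF, ← ncp_congr hcr (H.pψ 0) (H.pQ k r) hfyn hfy j]
    exact h1
  have hFη : ∀ k, dd (F k) e₀ (fun o => e₁ o - e₀ o) = ∑ j ∈ Finset.Ico k₀ r,
      ncp c r (ψ 0) (Q k r) x j * ((y (some (c j)) - eval y (ψ 0 j)) -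
          (x (some (c j)) - eval x (ψ 0 j))) := by
    intro k
    rw [hF]
    show dd (bind₁ _ _) e₀ _ = _
    rw [dd_bind]
    show dd (Q k r) (fpt c (ψ 0) k₀ r x e₀) (fdv c (ψ 0) k₀ r x e₀ _) = _
    rw [ncp_sum hcr (H.pψ 0) (H.pQ k r) (fdv_none r e₀ _), hfx]
    rw [← Finset.sum_subset (s₁ := Finset.Ico k₀ r) (s₂ := range r) (fun j hj => by
      rw [Finset.mem_Ico] at hj
      exact Finset.mem_range.2 hj.2)]
    · refine Finset.sum_congr rfl fun j hj => ?_
      rw [Finset.mem_Ico] at hj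
      rw [fdv_ge hcr (H.pψ 0) e₀ _ hj.2 hj.1, hfx, he₀ j hj.2, he₁ j hj.2]
      ring
    · intro j hj hj'
      have hj2 : j < k₀ := by
        rw [Finset.mem_range] at hj
        rw [Finset.mem_Ico] at hj'
        omega
      rw [Finset.mem_range] at hj
      have h1 : dd (ψ 0 j) x (fdv c (ψ 0) k₀ r x e₀ (fun o => e₁ o - e₀ o)) =
          dd (ψ 0 j) x 0 := dd_congr (H.pψ 0 j) _ (fdv_none r e₀ _) fun j' hj' =>
        fdv_lt hcr e₀ _ (by omega) (by omega)
      have h2 : dd (ψ 0 j) x 0 = 0 := by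
        unfold dd
        simp
      rw [fdv_lt hcr e₀ _ hj hj2, h1, h2, sub_zero, mul_zero]
  -- the telescoping sums
  have hddQ : ∀ k < n, ∀ b W, dd (Q k r) b W = dd (ψ k r) b W - dd (ψ (k + 1) r) b W := by
    intro k hk b W
    rw [H.eq k hk r le_rfl, dd_padd, dd_C, add_zero, dd_sub]
  have hnQ : ∀ (z : Option (Fin m) → ℝ) (j : ℕ) (n₁ : ℕ), n₁ ≤ n →
      ncp c r (ψ 0) (ψ n₁ r - ψ 0 r) z j = -∑ k ∈ range n₁, ncp c r (ψ 0) (Q k r) z j := by
    intro z j n₁ hn₁
    obtain ⟨W, hW0, hW⟩ := vec_adapt hcr (H.pψ 0) z 0 (fun l => if l = j then 1 else 0) r le_rfl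
    have h1 : ∀ k, ncp c r (ψ 0) (Q k r) z j = dd (Q k r) z W := fun k =>
      ncp_eq (H.pψ 0) (H.pQ k r) hW0 hW
    rw [ncp_eq (H.pψ 0) (fun b b' g1 g2 => by
      rw [map_sub, map_sub, H.pψ n₁ r b b' g1 g2, H.pψ 0 r b b' g1 g2]) hW0 hW, dd_sub]
    simp only [h1]
    clear h1
    induction n₁ with
    | zero => rw [Finset.range_zero, Finset.sum_empty, sub_self, neg_zero]
    | succ k ih =>
      rw [Finset.sum_range_succ, neg_add, ← ih (by omega), hddQ k (by omega)]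
      ring
  have hvQ : ∀ n₁ ≤ n, eval y (ψ n₁ r - ψ 0 r) - eval x (ψ n₁ r - ψ 0 r) =
      -∑ k ∈ range n₁, (eval y (Q k r) - eval x (Q k r)) := by
    intro n₁
    induction n₁ with
    | zero =>
      intro _
      rw [Finset.range_zero, Finset.sum_empty, neg_zero, sub_self, map_zero, map_zero, sub_self]
    | succ k ih =>
      intro hk
      rw [Finset.sum_range_succ, neg_add, ← ih (by omega), H.eq k (by omega) r le_rfl]
      simp only [map_sub, map_add, eval_C]
      ring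
  -- the bounds of one step
  have hone : ∀ k < n, (∀ j < r, k₀ ≤ j → |ncp c r (ψ 0) (Q k r) x j| ≤
        2 ^ (c₁ + C₀ * (P + 1)) * (2 ^ (γ j + q) / 2 ^ (X k r + R k))) ∧
      (∀ j < r, k₀ ≤ j → |ncp c r (ψ 0) (Q k r) y j - ncp c r (ψ 0) (Q k r) x j| ≤
        2 ^ (c₁ + C₀ * (P + 1) + 2) * (2 ^ (γ j + q) / 2 ^ (X k r + 2 * R k))) ∧
      |eval y (Q k r) - eval x (Q k r) - ∑ j ∈ Finset.Ico k₀ r,
        ncp c r (ψ 0) (Q k r) x j * ((y (some (c j)) - eval y (ψ 0 j)) -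
          (x (some (c j)) - eval x (ψ 0 j)))| ≤
        2 ^ (c₁ + C₀ * (P + 1) + 4) / 2 ^ (X k r + 2 * R k) := by
    intro k hk
    obtain ⟨s, hs⟩ : ∃ s : ℕ → ℕ, s = fun j => γ j + q - R k := ⟨_, rfl⟩
    have hsj : ∀ j, s j + R k = γ j + q := fun j => by
      rw [hs]
      have := H.Rq k hk
      show γ j + q - R k + R k = γ j + q
      omega
    obtain ⟨g1, g2, g3, -⟩ := hpr (c := c) (F := F k) (g := s)
      (M := 2 ^ (C₀ * (P + 1)) / 2 ^ X k r) (δ := 2 ^ 2 / 2 ^ R k) (e₀ := e₀) (e₁ := e₁) hcr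
      (hFd k) (by
        rw [hF]
        exact deg_bind (fib_deg (H.dψ 0) r) (H.dQ k r)) (by positivity) (fun b hb => by
        rw [hF]
        show |eval b (bind₁ _ _)| ≤ _
        rw [ev_bind]
        refine hfb (γ := γ) (R := R) (κ := κ) H.inj H.dψ H.pψ H.dQ H.pQ (fun k hk l hl b => by
          rw [H.eq k hk l hl, map_add, map_sub, eval_C]) H.box H.pos H.Rq H.Rm H.nP H.r1 H.r2
          k hk b (fun l' hl' => ?_) r le_rfl
        have g2 := hb l' hl'
        rw [he₀ l' hl'] at g2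
        refine g2.trans (le_of_eq ?_)
        rw [← hsj l', pow_add]
        field_simp) (by rw [he0n, he1n]) (by positivity) (by
        rw [div_le_one (by positivity)]
        exact pow_le_pow_right₀ (by norm_num) (H.R2 k hk)) (fun l' hl' => by
        rw [he₀ l' hl', he₁ l' hl']
        refine (hye l' hl').trans (le_of_eq ?_)
        rw [← hsj l', pow_add]
        field_simp)
    refine ⟨fun j hj hj0 => ?_, fun j hj hj0 => ?_, ?_⟩
    · rw [← hFV k j hj0]
      refine (g1 (V j) (hV0 j)).trans ?_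
      rw [hVs s j hj]
      calc C₁ * (2 ^ (C₀ * (P + 1)) / 2 ^ X k r) * 2 ^ s j ≤
          2 ^ c₁ * (2 ^ (C₀ * (P + 1)) / 2 ^ X k r) * 2 ^ s j :=
            mul_le_mul_of_nonneg_right (mul_le_mul_of_nonneg_right hc₁.le (by positivity))
              (by positivity)
        _ = _ := by
            rw [← hsj j, pow_add _ c₁, pow_add _ (s j), pow_add _ (X k r)]
            field_simp
    · rw [← hFV k j hj0, ← hFV1 k j hj0]
      refine (g2 (V j) (hV0 j)).trans ?_
      rw [hVs s j hj]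
      calc C₁ * (2 ^ (C₀ * (P + 1)) / 2 ^ X k r) * (2 ^ 2 / 2 ^ R k) * 2 ^ s j ≤
          2 ^ c₁ * (2 ^ (C₀ * (P + 1)) / 2 ^ X k r) * (2 ^ 2 / 2 ^ R k) * 2 ^ s j :=
            mul_le_mul_of_nonneg_right (mul_le_mul_of_nonneg_right
              (mul_le_mul_of_nonneg_right hc₁.le (by positivity)) (by positivity))
              (by positivity)
        _ = _ := by
            rw [← hsj j, pow_add _ (c₁ + _) 2, pow_add _ c₁, pow_add _ (s j),
              pow_add _ (X k r), two_mul, pow_add _ (R k)]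
            field_simp
    · rw [← hFη k, ← hFx k, ← hFy k]
      refine g3.trans ?_
      calc C₁ * (2 ^ (C₀ * (P + 1)) / 2 ^ X k r) * (2 ^ 2 / 2 ^ R k) ^ 2 ≤
          2 ^ c₁ * (2 ^ (C₀ * (P + 1)) / 2 ^ X k r) * (2 ^ 2 / 2 ^ R k) ^ 2 :=
            mul_le_mul_of_nonneg_right (mul_le_mul_of_nonneg_right hc₁.le (by positivity))
              (by positivity)
        _ = _ := by
            rw [pow_add _ (c₁ + _) 4, pow_add _ c₁, pow_add _ (X k r), two_mul,
              pow_add _ (R k)]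
            field_simp
  -- sums
  have hsum : ∀ (f : ℕ → ℝ) (T : ℝ) (u : ℕ), u ≤ c₁ + C₀ * (P + 1) + 4 + P → 0 ≤ T →
      (∀ k < n, |f k| ≤ 2 ^ u * T) → ∀ S ⊆ range n,
        |∑ k ∈ S, f k| ≤ 2 ^ ((C₀ + c₁ + 6) * (P + 1)) * T := by
    intro f T u hu hT hf S hS
    refine (Finset.abs_sum_le_sum_abs _ _).trans ((Finset.sum_le_sum_of_subset_of_nonneg hS
      fun _ _ _ => abs_nonneg _).trans ((Finset.sum_le_sum fun k hk =>
        hf k (Finset.mem_range.1 hk)).trans ?_))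
    rw [Finset.sum_const, Finset.card_range, nsmul_eq_mul, ← mul_assoc]
    refine mul_le_mul_of_nonneg_right ((mul_le_mul_of_nonneg_right H.nP
      (by positivity)).trans ?_) hT
    rw [← pow_add]
    refine pow_le_pow_right₀ (by norm_num) ?_
    have e1 : (C₀ + c₁ + 6) * (P + 1) = C₀ * (P + 1) + c₁ * (P + 1) + 6 * (P + 1) := by ring
    have e2 : c₁ ≤ c₁ * (P + 1) := Nat.le_mul_of_pos_right _ (Nat.succ_pos P)
    omega
  refine ⟨fun h j hj hj0 => ?_, fun h => ⟨fun j hj hj0 => ?_, ?_⟩, fun n' hn' h j hj hj0 => ?_⟩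
  · rw [hnQ x j n le_rfl, abs_neg]
    refine hsum _ _ (c₁ + C₀ * (P + 1) + P) (by omega) (by positivity) (fun k hk =>
      ((hone k hk).1 j hj hj0).trans ?_) _ (Finset.Subset.refl _)
    have h1 := h k hk
    rw [← mul_div_assoc, ← mul_div_assoc, div_le_div_iff₀ (by positivity) (by positivity),
      ← pow_add, ← pow_add, ← pow_add, ← pow_add]
    exact pow_le_pow_right₀ (by norm_num) (by omega)
  · have e1 : ncp c r (ψ 0) (ψ n r - ψ 0 r) y j - ncp c r (ψ 0) (ψ n r - ψ 0 r) x j =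
        -∑ k ∈ range n, (ncp c r (ψ 0) (Q k r) y j - ncp c r (ψ 0) (Q k r) x j) := by
      rw [hnQ x j n le_rfl, hnQ y j n le_rfl, Finset.sum_sub_distrib]
      ring
    rw [e1, abs_neg]
    refine hsum _ _ (c₁ + C₀ * (P + 1) + 2 + P) (by omega) (by positivity) (fun k hk =>
      ((hone k hk).2.1 j hj hj0).trans ?_) _ (Finset.Subset.refl _)
    have h1 := h k hk
    rw [← mul_div_assoc, ← mul_div_assoc, div_le_div_iff₀ (by positivity) (by positivity),
      ← pow_add, ← pow_add, ← pow_add, ← pow_add]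
    exact pow_le_pow_right₀ (by norm_num) (by omega)
  · have e1 : (eval y (ψ n r - ψ 0 r) - eval x (ψ n r - ψ 0 r)) - ∑ j ∈ Finset.Ico k₀ r,
        ncp c r (ψ 0) (ψ n r - ψ 0 r) x j * ((y (some (c j)) - eval y (ψ 0 j)) -
          (x (some (c j)) - eval x (ψ 0 j))) = -∑ k ∈ range n, (eval y (Q k r) -
        eval x (Q k r) - ∑ j ∈ Finset.Ico k₀ r, ncp c r (ψ 0) (Q k r) x j *
          ((y (some (c j)) - eval y (ψ 0 j)) - (x (some (c j)) - eval x (ψ 0 j)))) := by
      rw [hvQ n le_rfl]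
      have e3 : ∑ k ∈ range n, (eval y (Q k r) -
          eval x (Q k r) - ∑ j ∈ Finset.Ico k₀ r, ncp c r (ψ 0) (Q k r) x j *
          ((y (some (c j)) - eval y (ψ 0 j)) - (x (some (c j)) - eval x (ψ 0 j)))) =
          ∑ k ∈ range n, (eval y (Q k r) - eval x (Q k r)) -
          ∑ k ∈ range n, ∑ j ∈ Finset.Ico k₀ r, ncp c r (ψ 0) (Q k r) x j *
          ((y (some (c j)) - eval y (ψ 0 j)) - (x (some (c j)) - eval x (ψ 0 j))) :=
        Finset.sum_sub_distrib _ _
      have e2 : ∑ j ∈ Finset.Ico k₀ r, ncp c r (ψ 0) (ψ n r - ψ 0 r) x j *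
          ((y (some (c j)) - eval y (ψ 0 j)) - (x (some (c j)) - eval x (ψ 0 j))) =
          -∑ k ∈ range n, ∑ j ∈ Finset.Ico k₀ r, ncp c r (ψ 0) (Q k r) x j *
          ((y (some (c j)) - eval y (ψ 0 j)) - (x (some (c j)) - eval x (ψ 0 j))) := by
        rw [Finset.sum_comm, ← Finset.sum_neg_distrib]
        refine Finset.sum_congr rfl fun j _ => ?_
        rw [hnQ x j n le_rfl, ← Finset.sum_mul, neg_mul]
      rw [e2, e3]
      ring
    rw [e1, abs_neg]
    refine (hsum _ (1 / 2 ^ (γ r + q + Y)) (c₁ + C₀ * (P + 1) + 4 + P) le_rfl (by positivity)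
      (fun k hk => ((hone k hk).2.2).trans ?_) _ (Finset.Subset.refl _)).trans (le_of_eq (by ring))
    have h1 := h k hk
    rw [mul_one_div, div_le_div_iff₀ (by positivity) (by positivity), ← pow_add, ← pow_add]
    exact pow_le_pow_right₀ (by norm_num) (by omega)
  · have e1 : ncp c r (ψ 0) (ψ n r - ψ 0 r) x j - ncp c r (ψ 0) (ψ n' r - ψ 0 r) x j =
        -∑ k ∈ Finset.Ico n' n, ncp c r (ψ 0) (Q k r) x j := by
      rw [hnQ x j n le_rfl, hnQ x j n' hn', Finset.sum_Ico_eq_sub _ hn']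
      ring
    rw [e1, abs_neg]
    have e2 : ∑ k ∈ Finset.Ico n' n, ncp c r (ψ 0) (Q k r) x j =
        ∑ k ∈ range n, if n' ≤ k then ncp c r (ψ 0) (Q k r) x j else 0 := by
      rw [← Finset.sum_filter]
      refine Finset.sum_congr ?_ fun _ _ => rfl
      ext k
      rw [Finset.mem_Ico, Finset.mem_filter, Finset.mem_range]
      tauto
    rw [e2]
    refine hsum _ _ (c₁ + C₀ * (P + 1) + P) (by omega) (by positivity) (fun k hk => ?_) _
      (Finset.Subset.refl _)
    split_ifs with h5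
    · refine ((hone k hk).1 j hj hj0).trans ?_
      have h1 := h k h5 hk
      rw [← mul_div_assoc, ← mul_div_assoc, div_le_div_iff₀ (by positivity) (by positivity),
        ← pow_add, ← pow_add, ← pow_add, ← pow_add]
      exact pow_le_pow_right₀ (by norm_num) (by omega)
    · rw [abs_zero]
      positivity

end Pool.D2R
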