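import Pool.Agent.H23.D2.Wst

/-!
# The fibres of the first coordinates, in the heights over a chart

`fib`: the points with the time and the first `k₀` coordinates of `x`, as polynomials in the heights
of the other coordinates over the chart `ψ`. `ncp`: the natural components of a covector.
-/

set_option autoImplicit false

namespace Pool.D2R

open Finset Real MvPolynomial
open Pool.Agent.H49.Ent Pool.Agent.H32.Dense Pool.STK Pool.KA Pool.KSAT Pool.K2S Pool.PB Pool.S6C
open Pool.GEN Pool.CHT Pool.CHX Pool.ISO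

variable {m : ℕ}

/-! ### Substitutions -/

theorem ev_bind (Φ : Option (Fin m) → MvPolynomial (Option (Fin m)) ℝ)
    (Q : MvPolynomial (Option (Fin m)) ℝ) (e : Option (Fin m) → ℝ) :
    eval e (bind₁ Φ Q) = eval (fun o => eval e (Φ o)) Q := by
  rw [eval, eval₂Hom_bind₁]
  rfl

theorem deg_bind {Φ : Option (Fin m) → MvPolynomial (Option (Fin m)) ℝ} {E D : ℕ}
    (hΦ : ∀ o, (Φ o).totalDegree ≤ E) {Q : MvPolynomial (Option (Fin m)) ℝ}
    (hQ : Q.totalDegree ≤ D) : (bind₁ Φ Q).totalDegree ≤ D * E := by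
  classical
  conv_lhs => rw [Q.as_sum, map_sum]
  refine (totalDegree_finsetSum _ _).trans (Finset.sup_le fun s hs => ?_)
  rw [bind₁_monomial]
  refine (totalDegree_mul _ _).trans ?_
  rw [totalDegree_C, zero_add]
  refine (totalDegree_finsetProd _ _).trans ?_
  refine le_trans ?_ (Nat.mul_le_mul_right E ((le_totalDegree hs).trans hQ))
  rw [Finsupp.sum, Finset.sum_mul]
  refine Finset.sum_le_sum fun i _ => ?_
  refine (totalDegree_pow _ _).trans ?_
  exact Nat.mul_le_mul_left _ (hΦ i)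

theorem dd_C (a : ℝ) (x V : Option (Fin m) → ℝ) :
    dd (C a : MvPolynomial (Option (Fin m)) ℝ) x V = 0 := by
  unfold dd
  simp

theorem hs_C (a : ℝ) (x V W : Option (Fin m) → ℝ) :
    hs (C a : MvPolynomial (Option (Fin m)) ℝ) x V W = 0 := by
  unfold hs dd
  simp

/-- The chain rule. -/
theorem dd_bind (Φ : Option (Fin m) → MvPolynomial (Option (Fin m)) ℝ)
    (Q : MvPolynomial (Option (Fin m)) ℝ) (e V : Option (Fin m) → ℝ) :
    dd (bind₁ Φ Q) e V = dd Q (fun o => eval e (Φ o)) (fun o => dd (Φ o) e V) := by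
  classical
  induction Q using MvPolynomial.induction_on with
  | C a => rw [bind₁_C_right, dd_C, dd_C]
  | add P Q h1 h2 => rw [map_add, dd_padd, dd_padd, h1, h2]
  | mul_X P o h =>
    rw [map_mul, bind₁_X_right, dd_mul, dd_mul, h, ev_bind, eval_X]
    have h2 : ∀ x W : Option (Fin m) → ℝ, dd (X o : MvPolynomial (Option (Fin m)) ℝ) x W = W o := by
      intro x W
      unfold dd
      rw [Finset.sum_eq_single o]
      · rw [pderiv_X_self, map_one, one_mul]
      · intro o' _ ho
        rw [pderiv_X_of_ne (Ne.symm ho), map_zero, zero_mul]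
      · intro h
        exact absurd (Finset.mem_univ _) h
    rw [h2]

theorem dd_congr_pt {c : ℕ → Fin m} {r : ℕ} {Q : MvPolynomial (Option (Fin m)) ℝ}
    (hQ : DepC c r Q) {x y : Option (Fin m) → ℝ} (V : Option (Fin m) → ℝ) (h0 : x none = y none)
    (h : ∀ l < r, x (some (c l)) = y (some (c l))) : dd Q x V = dd Q y V := by
  unfold dd
  exact Finset.sum_congr rfl fun o _ => by rw [depC_pderiv hQ o x y h0 h]

/-! ### The natural components -/

open Classical in
/-- **The natural component** `j` of the covector `dQ` at the point `x`, for the charts `ψ`. -/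
noncomputable def ncp (c : ℕ → Fin m) (r : ℕ) (ψ : ℕ → MvPolynomial (Option (Fin m)) ℝ)
    (Q : MvPolynomial (Option (Fin m)) ℝ) (x : Option (Fin m) → ℝ) (j : ℕ) : ℝ :=
  if h : ∃ W : Option (Fin m) → ℝ, W none = 0 ∧ ∀ l < r, W (some (c l)) - dd (ψ l) x W =
    if l = j then 1 else 0 then dd Q x h.choose else 0

/-- Vectors with the same natural components. -/
theorem adp_eq {c : ℕ → Fin m} {r : ℕ} {ψ : ℕ → MvPolynomial (Option (Fin m)) ℝ}
    (hdep : ∀ l, DepC c l (ψ l)) {x W V : Option (Fin m) → ℝ} (h0 : W none = V none)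
    (h : ∀ l < r, W (some (c l)) - dd (ψ l) x W = V (some (c l)) - dd (ψ l) x V) :
    ∀ l < r, W (some (c l)) = V (some (c l)) := by
  intro l
  induction l using Nat.strong_induction_on with
  | _ l ih =>
    intro hl
    have h1 := dd_congr (hdep l) x h0 fun j hj => ih j hj (hj.trans hl)
    have h2 := h l hl
    rw [h1] at h2
    linarith

theorem ncp_eq {c : ℕ → Fin m} {r : ℕ} {ψ : ℕ → MvPolynomial (Option (Fin m)) ℝ}
    (hdep : ∀ l, DepC c l (ψ l)) {Q : MvPolynomial (Option (Fin m)) ℝ} (hQ : DepC c r Q)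
    {x W : Option (Fin m) → ℝ} {j : ℕ} (h0 : W none = 0)
    (h : ∀ l < r, W (some (c l)) - dd (ψ l) x W = if l = j then 1 else 0) :
    ncp c r ψ Q x j = dd Q x W := by
  classical
  have hex : ∃ W : Option (Fin m) → ℝ, W none = 0 ∧ ∀ l < r, W (some (c l)) - dd (ψ l) x W =
    if l = j then 1 else 0 := ⟨W, h0, h⟩
  unfold ncp
  rw [dif_pos hex]
  obtain ⟨h1, h2⟩ := hex.choose_spec
  exact dd_congr hQ x (h1.trans h0.symm) (adp_eq hdep (h1.trans h0.symm) fun l hl => by
    rw [h2 l hl, h l hl])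

/-- The covector in its natural components. -/
theorem ncp_sum {c : ℕ → Fin m} {r : ℕ} (hc : Set.InjOn c (Set.Iio r))
    {ψ : ℕ → MvPolynomial (Option (Fin m)) ℝ} (hdep : ∀ l, DepC c l (ψ l))
    {Q : MvPolynomial (Option (Fin m)) ℝ} (hQ : DepC c r Q) {x V : Option (Fin m) → ℝ}
    (hV : V none = 0) : dd Q x V = ∑ j ∈ range r, ncp c r ψ Q x j *
      (V (some (c j)) - dd (ψ j) x V) := by
  classical
  have hW := fun j : ℕ => vec_adapt hc hdep x 0 (fun l => if l = j then 1 else 0) r le_rfl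
  choose W hW0 hW1 using hW
  obtain ⟨U, hU⟩ : ∃ U : Option (Fin m) → ℝ, U = ∑ j ∈ range r,
    (V (some (c j)) - dd (ψ j) x V) • W j := ⟨_, rfl⟩
  have hUo : ∀ o, U o = ∑ j ∈ range r, (V (some (c j)) - dd (ψ j) x V) * W j o := by
    intro o
    rw [hU, Finset.sum_apply]
    rfl
  have hdU : ∀ R : MvPolynomial (Option (Fin m)) ℝ, dd R x U = ∑ j ∈ range r,
      (V (some (c j)) - dd (ψ j) x V) * dd R x (W j) := by
    intro R
    unfold dd
    rw [show (∑ j ∈ range r, (V (some (c j)) - ∑ o, eval x (pderiv o (ψ j)) * V o) *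
        ∑ o, eval x (pderiv o R) * W j o) = ∑ j ∈ range r, ∑ o,
        (V (some (c j)) - ∑ o, eval x (pderiv o (ψ j)) * V o) *
        (eval x (pderiv o R) * W j o) from
          Finset.sum_congr rfl fun j _ => Finset.mul_sum _ _ _]
    rw [Finset.sum_comm]
    refine Finset.sum_congr rfl fun o _ => ?_
    rw [hUo, Finset.mul_sum]
    refine Finset.sum_congr rfl fun j _ => ?_
    unfold dd
    ring
  have h0 : V none = U none := by
    rw [hUo, hV]
    exact (Finset.sum_eq_zero fun j _ => by rw [hW0, mul_zero]).symm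
  have h1 : ∀ l < r, V (some (c l)) - dd (ψ l) x V = U (some (c l)) - dd (ψ l) x U := by
    intro l hl
    rw [hUo, hdU, ← Finset.sum_sub_distrib, Finset.sum_eq_single l]
    · rw [← mul_sub, hW1 l l hl, if_pos rfl, mul_one]
    · intro j hj hjl
      rw [← mul_sub, hW1 j l hl, if_neg (Ne.symm hjl), mul_zero]
    · intro h
      exact absurd (Finset.mem_range.2 hl) h
  rw [dd_congr hQ x h0 (adp_eq hdep h0 h1), hdU]
  refine Finset.sum_congr rfl fun j hj => ?_
  rw [ncp_eq hdep hQ (hW0 j) (hW1 j), mul_comm]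

/-! ### The fibres -/

/-- **The fibre** of the time and of `c 0, …, c (k₀ - 1)` through `x`, in the heights over `ψ`. -/
noncomputable def fib (c : ℕ → Fin m) (ψ : ℕ → MvPolynomial (Option (Fin m)) ℝ) (k₀ : ℕ)
    (x : Option (Fin m) → ℝ) : ℕ → Option (Fin m) → MvPolynomial (Option (Fin m)) ℝ
  | 0 => fun o => C (x o)
  | k + 1 => Function.update (fib c ψ k₀ x k) (some (c k))
      (if k < k₀ then C (x (some (c k))) else
        bind₁ (fib c ψ k₀ x k) (ψ k) + X (some (c k)))

section fib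

variable {c : ℕ → Fin m} {ψ : ℕ → MvPolynomial (Option (Fin m)) ℝ} {k₀ : ℕ}
  {x : Option (Fin m) → ℝ}

theorem fib_none (k : ℕ) : fib c ψ k₀ x k none = C (x none) := by
  induction k with
  | zero => rfl
  | succ k ih =>
    show Function.update (fib c ψ k₀ x k) (some (c k)) _ none = _
    rw [Function.update_of_ne (by simp)]
    exact ih

theorem fib_other (k : ℕ) {o : Option (Fin m)} (h : ∀ l < k, o ≠ some (c l)) :
    fib c ψ k₀ x k o = C (x o) := by
  induction k with
  | zero => rfl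
  | succ k ih =>
    show Function.update (fib c ψ k₀ x k) (some (c k)) _ o = _
    rw [Function.update_of_ne (h k (Nat.lt_succ_self k))]
    exact ih fun l hl => h l (by omega)

theorem fib_lt {r : ℕ} (hc : Set.InjOn c (Set.Iio r)) {l : ℕ} (k : ℕ) (hl : l < k) (hk : k ≤ r) :
    fib c ψ k₀ x k (some (c l)) = if l < k₀ then C (x (some (c l))) else
        bind₁ (fib c ψ k₀ x l) (ψ l) + X (some (c l)) := by
  induction k with
  | zero => exact absurd hl (Nat.not_lt_zero l)
  | succ k ih =>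
    show Function.update (fib c ψ k₀ x k) (some (c k)) _ (some (c l)) = _
    rcases Nat.lt_or_ge l k with h | h
    · rw [Function.update_of_ne]
      · exact ih h (by omega)
      · intro h'
        have := hc (show l < r by omega) (show k < r by omega) (Option.some_injective _ h')
        omega
    · have : l = k := by omega
      subst this
      rw [Function.update_self]

theorem fib_deg {K : ℕ} (hψ : ∀ l, (ψ l).totalDegree ≤ K) (k : ℕ) (o : Option (Fin m)) :
    (fib c ψ k₀ x k o).totalDegree ≤ (K + 1) ^ k := by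
  induction k generalizing o with
  | zero =>
    show (C (x o) : MvPolynomial (Option (Fin m)) ℝ).totalDegree ≤ _
    rw [totalDegree_C]
    exact Nat.zero_le _
  | succ k ih =>
    show (Function.update (fib c ψ k₀ x k) (some (c k)) _ o).totalDegree ≤ _
    have h1 : (1 : ℕ) ≤ (K + 1) ^ k := Nat.one_le_pow _ _ (Nat.succ_pos K)
    have h2 : (K + 1) ^ k ≤ (K + 1) ^ (k + 1) := Nat.pow_le_pow_right (Nat.succ_pos K)
      (Nat.le_succ k)
    by_cases ho : o = some (c k)
    · subst ho
      rw [Function.update_self]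
      split_ifs
      · rw [totalDegree_C]
        exact Nat.zero_le _
      · refine (totalDegree_add _ _).trans (max_le ?_ ?_)
        · refine (deg_bind ih (hψ k)).trans ?_
          rw [pow_succ, mul_comm]
          exact Nat.mul_le_mul_left _ (Nat.le_succ K)
        · rw [totalDegree_X]
          exact h1.trans h2
    · rw [Function.update_of_ne ho]
      exact (ih o).trans h2

/-- The point of the fibre with the heights `e`. -/
noncomputable def fpt (c : ℕ → Fin m) (ψ : ℕ → MvPolynomial (Option (Fin m)) ℝ) (k₀ r : ℕ)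
    (x e : Option (Fin m) → ℝ) : Option (Fin m) → ℝ := fun o => eval e (fib c ψ k₀ x r o)

theorem fpt_none (r : ℕ) (e : Option (Fin m) → ℝ) : fpt c ψ k₀ r x e none = x none := by
  unfold fpt
  rw [fib_none, eval_C]

theorem fpt_other (r : ℕ) (e : Option (Fin m) → ℝ) {o : Option (Fin m)}
    (h : ∀ l < r, o ≠ some (c l)) : fpt c ψ k₀ r x e o = x o := by
  unfold fpt
  rw [fib_other r h, eval_C]

theorem fpt_lt {r : ℕ} (hc : Set.InjOn c (Set.Iio r)) (e : Option (Fin m) → ℝ) {l : ℕ}
    (hl : l < r) (hl0 : l < k₀) : fpt c ψ k₀ r x e (some (c l)) = x (some (c l)) := by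
  unfold fpt
  rw [fib_lt hc r hl le_rfl, if_pos hl0, eval_C]

theorem fpt_ge {r : ℕ} (hc : Set.InjOn c (Set.Iio r)) (hdep : ∀ l, DepC c l (ψ l))
    (e : Option (Fin m) → ℝ) {l : ℕ} (hl : l < r) (hl0 : k₀ ≤ l) :
    fpt c ψ k₀ r x e (some (c l)) = eval (fpt c ψ k₀ r x e) (ψ l) + e (some (c l)) := by
  have h1 : fpt c ψ k₀ r x e (some (c l)) =
      eval e (bind₁ (fib c ψ k₀ x l) (ψ l)) + e (some (c l)) := by
    unfold fpt
    rw [fib_lt hc r hl le_rfl, if_neg (by omega), map_add, eval_X]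
  rw [h1, ev_bind]
  congr 1
  refine hdep l _ _ ?_ fun j hj => ?_
  · unfold fpt
    rw [fib_none, fib_none]
  · unfold fpt
    rw [fib_lt hc l hj hl.le, fib_lt hc r (hj.trans hl) le_rfl]

/-- The first coordinates only depend on the first heights. -/
theorem fpt_dep {r : ℕ} (hc : Set.InjOn c (Set.Iio r)) (hdep : ∀ l, DepC c l (ψ l))
    {e e' : Option (Fin m) → ℝ} {l : ℕ} (hl : l ≤ r)
    (h : ∀ j < l, k₀ ≤ j → e (some (c j)) = e' (some (c j))) :
    ∀ j < l, fpt c ψ k₀ r x e (some (c j)) = fpt c ψ k₀ r x e' (some (c j)) := by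
  intro j
  induction j using Nat.strong_induction_on with
  | _ j ih =>
    intro hj
    rcases Nat.lt_or_ge j k₀ with h0 | h0
    · rw [fpt_lt hc e (by omega) h0, fpt_lt hc e' (by omega) h0]
    · rw [fpt_ge hc hdep e (by omega) h0, fpt_ge hc hdep e' (by omega) h0, h j hj h0]
      congr 1
      exact hdep j _ _ (by rw [fpt_none, fpt_none]) fun j' hj' => ih j' hj' (by omega)

theorem fib_depC {r : ℕ} (hc : Set.InjOn c (Set.Iio r)) (hdep : ∀ l, DepC c l (ψ l)) {l : ℕ}
    (hl : l ≤ r) {Q : MvPolynomial (Option (Fin m)) ℝ} (hQ : DepC c l Q) :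
    DepC c l (bind₁ (fib c ψ k₀ x r) Q) := by
  intro e e' _ h
  rw [ev_bind, ev_bind]
  exact hQ _ _ (by
    show eval e (fib c ψ k₀ x r none) = eval e' (fib c ψ k₀ x r none)
    rw [fib_none, eval_C, eval_C]) fun j hj => fpt_dep hc hdep hl (fun j hj _ => h j hj) j hj

/-- The points of the fibre. -/
theorem fpt_inv {r : ℕ} (hc : Set.InjOn c (Set.Iio r)) (hdep : ∀ l, DepC c l (ψ l))
    {y e : Option (Fin m) → ℝ} (hy : y none = x none)
    (hy0 : ∀ l < r, l < k₀ → y (some (c l)) = x (some (c l)))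
    (he : ∀ l < r, k₀ ≤ l → e (some (c l)) = y (some (c l)) - eval y (ψ l)) :
    ∀ l < r, fpt c ψ k₀ r x e (some (c l)) = y (some (c l)) := by
  intro l
  induction l using Nat.strong_induction_on with
  | _ l ih =>
    intro hl
    rcases Nat.lt_or_ge l k₀ with h0 | h0
    · rw [fpt_lt hc e hl h0, hy0 l hl h0]
    · rw [fpt_ge hc hdep e hl h0, he l hl h0, hdep l _ y (by rw [fpt_none, hy])
        fun j hj => ih j hj (hj.trans hl)]
      ring

/-- The derivative of the fibre. -/
noncomputable def fdv (c : ℕ → Fin m) (ψ : ℕ → MvPolynomial (Option (Fin m)) ℝ) (k₀ r : ℕ)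
    (x e V : Option (Fin m) → ℝ) : Option (Fin m) → ℝ := fun o => dd (fib c ψ k₀ x r o) e V

theorem fdv_none (r : ℕ) (e V : Option (Fin m) → ℝ) : fdv c ψ k₀ r x e V none = 0 := by
  unfold fdv
  rw [fib_none, dd_C]

theorem fdv_lt {r : ℕ} (hc : Set.InjOn c (Set.Iio r)) (e V : Option (Fin m) → ℝ) {l : ℕ}
    (hl : l < r) (hl0 : l < k₀) : fdv c ψ k₀ r x e V (some (c l)) = 0 := by
  unfold fdv
  rw [fib_lt hc r hl le_rfl, if_pos hl0, dd_C]

theorem fdv_ge {r : ℕ} (hc : Set.InjOn c (Set.Iio r)) (hdep : ∀ l, DepC c l (ψ l))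
    (e V : Option (Fin m) → ℝ) {l : ℕ} (hl : l < r) (hl0 : k₀ ≤ l) :
    fdv c ψ k₀ r x e V (some (c l)) =
      dd (ψ l) (fpt c ψ k₀ r x e) (fdv c ψ k₀ r x e V) + V (some (c l)) := by
  have h1 : fdv c ψ k₀ r x e V (some (c l)) =
      dd (bind₁ (fib c ψ k₀ x l) (ψ l)) e V + V (some (c l)) := by
    unfold fdv
    rw [fib_lt hc r hl le_rfl, if_neg (by omega), dd_padd, dd_X]
  have hf : ∀ j < l, fib c ψ k₀ x l (some (c j)) = fib c ψ k₀ x r (some (c j)) := fun j hj => by
    rw [fib_lt hc l hj hl.le, fib_lt hc r (hj.trans hl) le_rfl]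
  rw [h1, dd_bind]
  congr 1
  have h2 : dd (ψ l) (fun o => eval e (fib c ψ k₀ x l o)) (fun o => dd (fib c ψ k₀ x l o) e V) =
      dd (ψ l) (fun o => eval e (fib c ψ k₀ x l o)) (fdv c ψ k₀ r x e V) :=
    dd_congr (hdep l) _ (by
      show dd (fib c ψ k₀ x l none) e V = _
      rw [fdv_none, fib_none, dd_C]) fun j hj => by
      show dd (fib c ψ k₀ x l (some (c j))) e V = _
      rw [hf j hj]
      rfl
  rw [h2]
  exact dd_congr_pt (hdep l) _ (by
    show eval e (fib c ψ k₀ x l none) = _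
    rw [fpt_none, fib_none, eval_C]) fun j hj => by
    show eval e (fib c ψ k₀ x l (some (c j))) = _
    rw [hf j hj]
    rfl

/-- The derivative of a polynomial on the fibre, in the direction of one height. -/
theorem fib_ncp {r : ℕ} (hc : Set.InjOn c (Set.Iio r)) (hdep : ∀ l, DepC c l (ψ l))
    {Q : MvPolynomial (Option (Fin m)) ℝ} (hQ : DepC c r Q) (e : Option (Fin m) → ℝ)
    {V : Option (Fin m) → ℝ} {j : ℕ} (hj : k₀ ≤ j)
    (hV : ∀ l < r, V (some (c l)) = if l = j then 1 else 0) :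
    dd (bind₁ (fib c ψ k₀ x r) Q) e V = ncp c r ψ Q (fpt c ψ k₀ r x e) j := by
  rw [dd_bind]
  symm
  refine ncp_eq hdep hQ (W := fdv c ψ k₀ r x e V) (fdv_none r e V) fun l hl => ?_
  rcases Nat.lt_or_ge l k₀ with h0 | h0
  · have h1 : dd (ψ l) (fpt c ψ k₀ r x e) (fdv c ψ k₀ r x e V) =
        dd (ψ l) (fpt c ψ k₀ r x e) 0 := dd_congr (hdep l) _ (fdv_none r e V) fun j' hj' =>
      fdv_lt hc e V (by omega) (by omega)
    have h2 : dd (ψ l) (fpt c ψ k₀ r x e) 0 = 0 := by
      unfold dd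
      simp
    rw [fdv_lt hc e V hl h0, h1, h2, if_neg (by omega), sub_zero]
  · rw [fdv_ge hc hdep e V hl h0, hV l hl]
    ring

end fib

end Pool.D2R
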