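import Pool.Agent.H66.D2.C1s

/-!
# Cells from class theorems with a property which depends on the rate

`PartH`: for each `h` there is a property of the windows which holds at almost every window and gives
the class theorem of the cell for the rate `h`. `PartH.lS`: the cell `LCellS` from it.
-/

set_option autoImplicit false

namespace Pool.ASM

open MeasureTheory Set Filter Topology
open Pool.Agent.H49.Ent Pool.Agent.H32.Dense Pool.STK Pool.KA Pool.KSAT Pool.K2S Pool.PB
open Pool.GEN Pool.S6C Pool.STAT Pool.CHT Pool.GRW Pool.PKG Pool.SW Pool.STA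
open Pool.ONE (Ext0 Ext)
open Pool.MIC6

/-- The slopes of the kinds of a cell. -/
def SlK (κ : List Kd) (Sl : ℕ → ℝ) : Prop := ∀ (l : ℕ) (hl : l < κ.length),
  (κ[l] = .one → Sl l = 1) ∧ (κ[l] = .thin → 1 < Sl l) ∧ (κ[l] = .sta → 2 ≤ Sl l)

/-- **The part**: for each `h` there is a property which holds at almost every window and gives the
class theorem of the cell `κ` for the slopes with `φ`. -/
def PartH (n : ℕ) (φ : (ℕ → ℝ) → Prop) (κ : List Kd) : Prop :=
  ∀ h : ℝ, 0 < h → h ≤ 1 → ∃ (ι : Type) (_ : Countable ι) (Q : PropG n ι),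
    ((∀ k, 1 ≤ k → k < n → FZX k) → AePG n Q) ∧
    ∀ Sl : ℕ → ℝ, φ Sl → SlK κ Sl → 2 < Sl κ.length → (∀ l < n, 1 ≤ Sl l) →
      CelQI n κ.length h Sl (kgL κ) Q

/-- **The cell from the part.** -/
theorem PartH.lS {n : ℕ} {φ : (ℕ → ℝ) → Prop} {κ : List Kd} (H : PartH n φ κ)
    (hκn : κ.length ≤ n - 1) : LCellS n φ κ := lCellS_gih hκn φ H

/-- A class theorem which uses no property. -/
theorem partH_cellQ {φ : (ℕ → ℝ) → Prop} {κ : List Kd} (hκ : κ.length = 3)
    (H : ∀ Sl : ℕ → ℝ, φ Sl → SlK κ Sl → 2 < Sl 3 →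
      CellQ 4 3 Sl (fun l => κ.getD l .one)) : PartH 4 φ κ := by
  intro h _ _
  refine ⟨_, inferInstance, AfQ, fun _ => aePG_af 4, fun Sl hφ hk h2 _ => ?_⟩
  have h2' : 2 < Sl 3 := by rwa [hκ] at h2
  have hkl : ∀ l < 3, kgL κ l = ofKd ((fun l => κ.getD l .one) l) := fun l hl => by
    rw [kgL_lt (κ := κ) (by omega)]
    beta_reduce
    rw [List.getD_eq_getElem _ _ (by omega)]
  have h3 : kgL κ 3 = .stp := by
    have := kgL_len κ
    rwa [hκ] at this
  rw [hκ]
  exact (H Sl hφ hk h2').qi (by norm_num) (by norm_num) h3 hkl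

end Pool.ASM
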