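import Pool.Agent.H23.D2.Cre
import Pool.Agent.H88.D2.Mcv

/-!
# The closed gradient of the row in the direction of the last place

`jA_last`: the gradient `jA` of the row for the last place is the difference of the gradients of the ball
chart and of the row label. `muA`: its closed form.
-/

set_option autoImplicit false

namespace Pool.TNW

open Finset Real MvPolynomial
open Pool.Agent.H49.Ent Pool.Agent.H32.Dense Pool.STK Pool.KA Pool.KSAT Pool.K2S Pool.PB Pool.S6C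
open Pool.GEN Pool.CHT Pool.CHX Pool.ISO Pool.D2R Pool.D2Z Pool.D2F Pool.TN
open Pool.D2T (sh sh_rt sh_deg)
open Pool.PB.Trl (rt rt_mem t_rt)

variable {m J : ℕ}

/-- A covector at the last vector of a frame. -/
theorem cv_evl {c : ℕ → Fin m} {x : ℕ} (hc : Set.InjOn c (Set.Iio (x + 1)))
    {Ξ : ℕ → Option (Fin m) → ℝ} (hΞ : ∀ l, CvC c l (Ξ l)) {W : Option (Fin m) → ℝ}
    (hW : CvC c (x + 1) W) : cv W (ev c (x + 1) Ξ x) = W (some (c x)) := by
  have h1 : ev c (x + 1) Ξ x (some (c x)) = 1 := by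
    have h2 := ev_comp hc hΞ x (Nat.lt_succ_self x)
    rw [if_pos rfl] at h2
    have h3 : cv (Ξ x) (ev c (x + 1) Ξ x) = 0 := by
      rw [cv_eq (hc.mono (Set.Iio_subset_Iio (by omega))) (hΞ x), ev_none, mul_zero, zero_add]
      exact Finset.sum_eq_zero fun i hi => by
        rw [Finset.mem_range] at hi
        rw [ev_low hc hΞ i (by omega) (by omega), mul_zero]
    linarith
  rw [cv_eq hc hW, ev_none, mul_zero, zero_add, Finset.sum_range_succ, h1, mul_one,
    Finset.sum_eq_zero fun i hi => ?_, zero_add]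
  rw [Finset.mem_range] at hi
  rw [ev_low hc hΞ i (by omega) (by omega), mul_zero]

/-- **The gradient of the row** in the direction of the last place. -/
theorem jA_last {F : Fam m J} {c : ℕ → Fin m} {D Dr N M A cl : ℕ} {Sc : ℕ → Prop}
    {w e h pp : ℕ → ℕ} {z g gc gT g₀ : ℕ → ℕ → ℕ} {κ : ℝ} {B : F.Ω → Prop}
    {G : ℕ → PtT F → ℕ → MvPolynomial (Option (Fin m)) ℝ}
    {H : ℕ → LnT F → ℕ → MvPolynomial (Option (Fin m)) ℝ}
    {T : ℕ → PtT F → ℕ → MvPolynomial (Option (Fin m)) ℝ}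
    {TH : ℕ → LnT F → ℕ → MvPolynomial (Option (Fin m)) ℝ}
    {Gt : ℕ → PtT F → MvPolynomial (Option (Fin m)) ℝ}
    {Ht : ℕ → LnT F → MvPolynomial (Option (Fin m)) ℝ}
    (E : CEv F c 3 D Dr N M A cl Sc w e h pp z g gc gT g₀ κ B G H T TH Gt Ht) {i i₁ k : ℕ}
    (hi : i ≤ N) (h1 : i₁ ≤ N) (hk : k ≤ N) (ω : F.Ω) :
    jA c Sc w G TH Ht i i₁ k 2 ω = gG G ω k 3 (some (c 2)) -
      grd (Ht i₁ (slam F (w i₁) ω)) (bt F ω) (some (c 2)) := by
  have hc : Set.InjOn c (Set.Iio (2 + 1)) := E.inj.mono (Set.Iio_subset_Iio (by norm_num))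
  have hκc : ∀ l, CvC c l (kT w TH ω i l) := fun l =>
    cvc_grd ((E.evs i hi).thin.depH _ l) _
  have hGc : ∀ l, CvC c l (gG G ω k l) := fun l => cvc_grd ((E.evs k hk).ball.depG _ l) _
  have hQc : DepC c 3 (Ht i₁ (slam F (w i₁) ω)) := (E.evs i₁ h1).pH _
  unfold jA
  refine cv_evl (x := 2) hc (mx_cvc hκc hGc) (fun l hl => ?_)
  have b1 := hGc 3 l hl
  have b2 := cvc_grd hQc (bt F ω) l hl
  show gG G ω k 3 (some l) - grd (Ht i₁ (slam F (w i₁) ω)) (bt F ω) (some l) = 0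
  rw [b1, b2, sub_zero]

/-- The closed gradient of the row: `mu` on the window `t` minus the gradient of the row label of the
window `w`. -/
noncomputable def muA {F : Fam m J} (c : ℕ → Fin m) (t w : ℕ) (mu : LnT F → Polynomial ℝ)
    (Q : LnT F → MvPolynomial (Option (Fin m)) ℝ) (s : LnT F) : Polynomial ℝ :=
  mu s - sh (t - w) (fun s => kpol c w Q s 2) s

theorem muA_deg {F : Fam m J} {c : ℕ → Fin m} {t w D D₁ : ℕ}
    {mu : LnT F → Polynomial ℝ} {Q : LnT F → MvPolynomial (Option (Fin m)) ℝ}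
    (hm : ∀ s, (mu s).natDegree ≤ D₁) (hQ : ∀ s, (Q s).totalDegree ≤ D) (hD : D ≤ D₁)
    (s : LnT F) : (muA c t w mu Q s).natDegree ≤ D₁ := by
  unfold muA
  refine (Polynomial.natDegree_sub_le _ _).trans (max_le (hm s) ?_)
  exact (sh_deg _ (fun s => kpol_deg c w hQ s 2) s).trans hD

theorem muA_rt (F : Fam m J) (c : ℕ → Fin m) {t w : ℕ} (hw : w ≤ t) (ht : t ≤ J)
    (mu : LnT F → Polynomial ℝ) (Q : LnT F → MvPolynomial (Option (Fin m)) ℝ) (ω : F.Ω) :
    (muA c t w mu Q (slam F t ω)).eval (rt F t ω) = (mu (slam F t ω)).eval (rt F t ω) -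
      grd (Q (slam F w ω)) (bt F ω) (some (c 2)) := by
  unfold muA
  rw [Polynomial.eval_sub, sh_rt F hw ht, kpol_rt F c (hw.trans ht)]

end Pool.TNW
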