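import Pool.Agent.H23.D2.Path

/-!
# First and second natural derivatives

`box_two`: the first and the second derivatives of a polynomial which is bounded on a natural box,
in natural directions. `path_nat`: the velocities of the lines through one exact point. `rem_fam`:
Remez inequality for finitely many closed polynomials.
-/

set_option autoImplicit false

namespace Pool.D2R

open Finset Real MvPolynomial
open Pool.Agent.H49.Ent Pool.Agent.H32.Dense Pool.STK Pool.KA Pool.KSAT Pool.K2S Pool.PB Pool.S6C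
open Pool.GEN Pool.CHT
open Pool.FLF (Fam.sub)
open Pool.PB.Trl (rt rt_mem t_rt)

/-- **First and second derivatives in natural directions.** -/
theorem box_two (r K D : ℕ) : ∃ C : ℝ, 1 ≤ C ∧ ∀ {m : ℕ} {c : ℕ → Fin m}
    {ψ : ℕ → MvPolynomial (Option (Fin m)) ℝ} {Q : MvPolynomial (Option (Fin m)) ℝ}
    {g : ℕ → ℕ} {a : ℕ} {M L : ℝ} {x : Option (Fin m) → ℝ}, Set.InjOn c (Set.Iio r) →
    (∀ l, (ψ l).totalDegree ≤ K) → (∀ l, DepC c l (ψ l)) → DepC c r Q → Q.totalDegree ≤ D →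
    0 ≤ M → 0 < L → (∀ b, NBx c ψ g a (x none) r b → |eval b Q| ≤ M) →
    (∀ l < r, |x (some (c l)) - eval x (ψ l)| ≤ 1 / 2 ^ g l) → ∀ W : Option (Fin m) → ℝ,
    |W none| ≤ L / 2 ^ a → (∀ l < r, |W (some (c l)) - dd (ψ l) x W| ≤ L / 2 ^ g l) →
    |dd Q x W| ≤ C * M * L ∧ ∀ V : Option (Fin m) → ℝ, |V none| ≤ L / 2 ^ a →
      (∀ l < r, |V (some (c l)) - dd (ψ l) x V| ≤ L / 2 ^ g l) →
      ∀ Z : Option (Fin m) → ℝ, Z none = 0 →
      (∀ l < r, Z (some (c l)) - dd (ψ l) x Z = hs (ψ l) x W V) →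
      |hs Q x W V + dd Q x Z| ≤ C * M * L ^ 2 := by
  obtain ⟨C, hC, hbn⟩ := box_nat r K D
  refine ⟨3 * C, by linarith, ?_⟩
  intro m c ψ Q g a M L x hc hψ hdep hQ hQd hM hL hbox hx
  -- scaled versions
  have key : ∀ W : Option (Fin m) → ℝ, |W none| ≤ L / 2 ^ a →
      (∀ l < r, |W (some (c l)) - dd (ψ l) x W| ≤ L / 2 ^ g l) →
      |dd Q x W| ≤ C * M * L ∧ ∀ Z : Option (Fin m) → ℝ, Z none = 0 →
      (∀ l < r, Z (some (c l)) - dd (ψ l) x Z = hs (ψ l) x W W) →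
      |hs Q x W W + dd Q x Z| ≤ C * M * L ^ 2 := by
    intro W hW0 hW
    have hLi : (0 : ℝ) < L⁻¹ := inv_pos.2 hL
    obtain ⟨h1, h2⟩ := hbn hc hψ hdep hQ hQd hM hbox hx (L⁻¹ • W) (by
        rw [Pi.smul_apply, smul_eq_mul, abs_mul, abs_of_pos hLi]
        calc L⁻¹ * |W none| ≤ L⁻¹ * (L / 2 ^ a) := mul_le_mul_of_nonneg_left hW0 hLi.le
          _ = 1 / 2 ^ a := by field_simp) (fun l hl => by
        rw [dd_smul, Pi.smul_apply, smul_eq_mul, ← mul_sub, abs_mul, abs_of_pos hLi]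
        calc L⁻¹ * |W (some (c l)) - dd (ψ l) x W| ≤ L⁻¹ * (L / 2 ^ g l) :=
              mul_le_mul_of_nonneg_left (hW l hl) hLi.le
          _ = 1 / 2 ^ g l := by field_simp)
    refine ⟨?_, fun Z hZ0 hZ => ?_⟩
    · rw [dd_smul, abs_mul, abs_of_pos hLi] at h1
      rw [inv_mul_le_iff₀ hL] at h1
      linarith
    · have h3 := h2 ((L⁻¹ * L⁻¹) • Z) (by rw [Pi.smul_apply, hZ0, smul_zero]) (fun l hl => by
        rw [dd_smul, Pi.smul_apply, smul_eq_mul, hs_smul_left, hs_smul_right, ← mul_sub, hZ l hl]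
        ring)
      rw [dd_smul, hs_smul_left, hs_smul_right] at h3
      have e1 : L⁻¹ * (L⁻¹ * hs Q x W W) + L⁻¹ * L⁻¹ * dd Q x Z =
          L⁻¹ * (L⁻¹ * (hs Q x W W + dd Q x Z)) := by ring
      rw [e1, abs_mul, abs_mul, abs_of_pos hLi, inv_mul_le_iff₀ hL, inv_mul_le_iff₀ hL] at h3
      nlinarith [h3]
  intro W hW0 hW
  refine ⟨(key W hW0 hW).1.trans ?_, fun V hV0 hV Z hZ0 hZ => ?_⟩
  · have : 0 ≤ C * M * L := by positivity
    nlinarith
  obtain ⟨ZW, hZW0, hZW⟩ := vec_adapt hc hdep x 0 (fun l => hs (ψ l) x W W) r le_rfl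
  obtain ⟨ZV, hZV0, hZV⟩ := vec_adapt hc hdep x 0 (fun l => hs (ψ l) x V V) r le_rfl
  have h1 := (key W hW0 hW).2 ZW hZW0 hZW
  have h2 := (key V hV0 hV).2 ZV hZV0 hZV
  obtain ⟨T, hT⟩ : ∃ T : Option (Fin m) → ℝ, T = (2⁻¹ : ℝ) • (W + V) := ⟨_, rfl⟩
  obtain ⟨Y, hY⟩ : ∃ Y : Option (Fin m) → ℝ, Y = (4⁻¹ : ℝ) • (ZW + ZV + (2 : ℝ) • Z) := ⟨_, rfl⟩
  have hYd : ∀ R, dd R x Y = 4⁻¹ * (dd R x ZW + dd R x ZV + 2 * dd R x Z) := by
    intro R
    rw [hY, dd_smul, dd_add, dd_add, dd_smul]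
  have hTh : ∀ R, hs R x T T = 4⁻¹ * (hs R x W W + hs R x V V + 2 * hs R x W V) := by
    intro R
    rw [hT, hs_smul_left, hs_smul_right, hs_add_left, hs_add_right, hs_add_right, hs_comm R x V W]
    ring
  have h3 := (key T (by
      rw [hT, Pi.smul_apply, Pi.add_apply, smul_eq_mul, abs_mul]
      have h4 := abs_add_le (W none) (V none)
      have h5 : |(2⁻¹ : ℝ)| = 2⁻¹ := abs_of_pos (by norm_num)
      rw [h5]
      linarith) (fun l hl => by
      rw [hT, dd_smul, dd_add, Pi.smul_apply, Pi.add_apply, smul_eq_mul, ← mul_sub, abs_mul]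
      have h5 : |(2⁻¹ : ℝ)| = 2⁻¹ := abs_of_pos (by norm_num)
      rw [h5]
      have h4 := abs_add_le (W (some (c l)) - dd (ψ l) x W) (V (some (c l)) - dd (ψ l) x V)
      have e1 : W (some (c l)) + V (some (c l)) - (dd (ψ l) x W + dd (ψ l) x V) =
          W (some (c l)) - dd (ψ l) x W + (V (some (c l)) - dd (ψ l) x V) := by ring
      rw [e1]
      linarith [hW l hl, hV l hl])).2 Y (by
      rw [hY, Pi.smul_apply, Pi.add_apply, Pi.add_apply, Pi.smul_apply, hZW0, hZV0, hZ0]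
      simp) (fun l hl => by
      rw [hYd, hTh, hY, Pi.smul_apply, Pi.add_apply, Pi.add_apply, Pi.smul_apply]
      have h6 := hZW l hl
      have h7 := hZV l hl
      have h8 := hZ l hl
      simp only [smul_eq_mul]
      linarith)
  rw [hYd, hTh] at h3
  have e1 : hs Q x W V + dd Q x Z = 2 * (4⁻¹ * (hs Q x W W + hs Q x V V + 2 * hs Q x W V) +
      4⁻¹ * (dd Q x ZW + dd Q x ZV + 2 * dd Q x Z)) - 2⁻¹ * (hs Q x W W + dd Q x ZW) -
      2⁻¹ * (hs Q x V V + dd Q x ZV) := by ring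
  rw [e1]
  rw [abs_le] at h1 h2 h3 ⊢
  constructor <;> linarith [h1.1, h1.2, h2.1, h2.2, h3.1, h3.2]

variable {m J : ℕ}

/-- **The velocities of the lines through one exact point.** -/
theorem path_nat (m D r : ℕ) : ∃ C : ℕ, 1 ≤ C ∧ ∀ {J : ℕ} {F : Fam m J} {c : ℕ → Fin m}
    {a e k : ℕ} {g₀ : ℕ → ℕ} {A : F.Ω → Prop}
    {G₀ : PtT F → ℕ → MvPolynomial (Option (Fin m)) ℝ}
    {H₀ : LnT F → ℕ → MvPolynomial (Option (Fin m)) ℝ}, Set.InjOn c (Set.Iio (r + 1)) → a ≤ J →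
    ChOK F c (r + 1) (fun _ => D) a a e g₀ A G₀ H₀ →
    (∀ l ≤ r, e + g₀ l + C * (k + 1) ≤ J) → ∀ ω ν, A ω → A ν → ptr F J ω = ptr F J ν →
    (∀ l ≤ r, ∀ τ ∈ Set.Icc (0 : ℝ) 1,
      |(dv a (fun s _ => H₀ s l) (c l) (slam F a ν)).eval τ| ≤ 2 ^ k / 2 ^ g₀ l) → ∀ l ≤ r,
    |bd F ν (some (c l)) - dd (G₀ (ptr F J ω) l) (bt F ω) (bd F ν)| ≤
        2 ^ (C * (k + 1)) * 2 ^ a / 2 ^ g₀ l ∧
      |hs (G₀ (ptr F J ω) l) (bt F ω) (bd F ν) (bd F ν)| ≤
        2 ^ (C * (k + 1)) * (2 ^ a) ^ 2 / 2 ^ g₀ l := by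
  classical
  obtain ⟨C₁, hC₁, hpb⟩ := path_box m D r
  obtain ⟨C₂, hC₂, hder⟩ := der_one (D + 1)
  obtain ⟨c₂, hc₂⟩ := pow_unbounded_of_one_lt C₂ (one_lt_two (α := ℝ))
  refine ⟨C₁ + 2 * c₂, by omega, ?_⟩
  intro J F c a e k g₀ A G₀ H₀ hc haJ hch hJ ω ν hω hν hpt hdv l hl
  obtain ⟨hT, htn, hx⟩ := bt_near hpt
  obtain ⟨p, hp⟩ : ∃ p : Option (Fin m) → Polynomial ℝ, p = fun o =>
      lc a (slam F a ν) o + Polynomial.C (bt F ω o - bt F ν o) := ⟨_, rfl⟩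
  have hpe : ∀ o s, (p o).eval s = (lc a (slam F a ν) o).eval s + (bt F ω o - bt F ν o) := by
    intro o s
    rw [hp]
    simp only [Polynomial.eval_add, Polynomial.eval_C]
  have hpd : ∀ o, (p o).natDegree ≤ 1 := by
    intro o
    rw [hp]
    refine (Polynomial.natDegree_add_le _ _).trans (max_le (natDegree_lc _ _ _) ?_)
    rw [Polynomial.natDegree_C]
    exact Nat.zero_le _
  have hx0 : ∀ o, (p o).eval (rt F a ν) = bt F ω o := by
    intro o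
    rw [hpe, eval_lc F haJ]
    ring
  have hdp : ∀ o, Polynomial.derivative (p o) = Polynomial.C (1 / 2 ^ a * bd F ν o) := by
    intro o
    rw [hp]
    simp only [Polynomial.derivative_add, Polynomial.derivative_C, add_zero]
    exact der_lc F a ν o
  have hcv := der_curve p (x := bt F ω) (V := (1 / 2 ^ a : ℝ) • bd F ν) (Z := 0)
    (s := rt F a ν) hx0 (fun o => by rw [hdp, Polynomial.eval_C]; rfl) (fun o => by
      rw [hdp, Polynomial.derivative_C, Polynomial.eval_zero]; rfl) (G₀ (ptr F J ω) l)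
  obtain ⟨q, hq⟩ : ∃ q : Polynomial ℝ, q = p (some (c l)) -
      MvPolynomial.aeval p (G₀ (ptr F J ω) l) := ⟨_, rfl⟩
  have hqd : q.natDegree ≤ D + 1 := by
    rw [hq]
    refine (Polynomial.natDegree_sub_le _ _).trans (max_le ((hpd _).trans (by omega)) ?_)
    exact (Pool.KBX.natDegree_aeval_le _ _ hpd (hch.degG _ l)).trans (by omega)
  have hC₁' : ∀ l ≤ r, e + g₀ l + C₁ * (k + 1) ≤ J := by
    intro l hl
    refine le_trans ?_ (hJ l hl)
    refine Nat.add_le_add_left (Nat.mul_le_mul_right _ ?_) _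
    omega
  have hqb : ∀ τ ∈ Set.Icc (0 : ℝ) 1, |q.eval τ| ≤ 2 ^ (C₁ * (k + 1)) / 2 ^ g₀ l := by
    intro τ hτ
    have h1 := hpb hc haJ hch hC₁' ω ν hω hν hpt hdv τ hτ 1 ⟨zero_le_one, le_rfl⟩ l hl
    rw [hq, Polynomial.eval_sub, Pool.KBX.eval_aeval_poly, hpe]
    have e1 : (fun o => (p o).eval τ) = fun o => (lc a (slam F a ν) o).eval τ +
        1 * (bt F ω o - bt F ν o) := by
      funext o
      rw [hpe, one_mul]
    rw [e1]
    have e2 : (lc a (slam F a ν) (some (c l))).eval τ +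
        (bt F ω (some (c l)) - bt F ν (some (c l))) =
        (lc a (slam F a ν) (some (c l))).eval τ + 1 * (F.x ω (c l) - F.x ν (c l)) := by
      rw [one_mul]
      rfl
    rw [e2]
    exact h1
  have hd1 := hder q _ hqd hqb
  have hrt := rt_mem F a ν
  have hrt1 : |rt F a ν| ≤ 1 := by
    rw [abs_of_nonneg hrt.1]
    exact hrt.2
  have hd2 := hder _ _ ((Polynomial.natDegree_derivative_le _).trans
    ((Nat.sub_le _ _).trans hqd)) (fun s hs => hd1 s (by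
      rw [abs_of_nonneg hs.1]
      exact hs.2)) _ hrt1
  have e1 : (Polynomial.derivative q).eval (rt F a ν) =
      1 / 2 ^ a * (bd F ν (some (c l)) - dd (G₀ (ptr F J ω) l) (bt F ω) (bd F ν)) := by
    rw [hq, Polynomial.derivative_sub, Polynomial.eval_sub, hcv.1, dd_smul, hdp,
      Polynomial.eval_C]
    ring
  have e2 : (Polynomial.derivative (Polynomial.derivative q)).eval (rt F a ν) =
      -(1 / 2 ^ a * (1 / 2 ^ a * hs (G₀ (ptr F J ω) l) (bt F ω) (bd F ν) (bd F ν))) := by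
    rw [hq, Polynomial.derivative_sub, Polynomial.derivative_sub, Polynomial.eval_sub, hcv.2,
      hs_smul_left, hs_smul_right, hdp, Polynomial.derivative_C, Polynomial.eval_zero]
    have : dd (G₀ (ptr F J ω) l) (bt F ω) 0 = 0 := by
      unfold dd
      refine Finset.sum_eq_zero fun o _ => ?_
      rw [Pi.zero_apply, mul_zero]
    rw [this]
    ring
  have ha0 : (0 : ℝ) < 2 ^ a := by positivity
  have hg0 : (0 : ℝ) < 2 ^ g₀ l := by positivity
  have h1 := hd1 _ hrt1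
  rw [e1, abs_mul, abs_of_pos (show (0 : ℝ) < 1 / 2 ^ a by positivity)] at h1
  rw [e2, abs_neg, abs_mul, abs_mul, abs_of_pos (show (0 : ℝ) < 1 / 2 ^ a by positivity)] at hd2
  have hk1 : (1 : ℝ) ≤ 2 ^ (C₁ * (k + 1)) := one_le_pow₀ (by norm_num)
  have hcc : (2 : ℝ) ^ c₂ * 2 ^ c₂ * 2 ^ (C₁ * (k + 1)) ≤ 2 ^ ((C₁ + 2 * c₂) * (k + 1)) := by
    rw [← pow_add, ← pow_add]
    refine pow_le_pow_right₀ (by norm_num) ?_
    have : (C₁ + 2 * c₂) * (k + 1) = c₂ + c₂ + C₁ * (k + 1) + 2 * c₂ * k := by ring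
    rw [this]
    exact Nat.le_add_right _ _
  have h2c : (1 : ℝ) ≤ 2 ^ c₂ := one_le_pow₀ (by norm_num)
  constructor
  · rw [one_div_mul_eq_div, div_le_iff₀ ha0] at h1
    refine h1.trans ?_
    rw [le_div_iff₀ hg0]
    have e3 : C₂ * (2 ^ (C₁ * (k + 1)) / 2 ^ g₀ l) * 2 ^ a * 2 ^ g₀ l =
        C₂ * 2 ^ (C₁ * (k + 1)) * 2 ^ a := by field_simp
    rw [e3]
    refine mul_le_mul_of_nonneg_right (le_trans ?_ hcc) ha0.le
    refine mul_le_mul_of_nonneg_right ?_ (by positivity)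
    nlinarith [hc₂.le]
  · rw [one_div_mul_eq_div, div_le_iff₀ ha0, one_div_mul_eq_div, div_le_iff₀ ha0] at hd2
    refine hd2.trans ?_
    rw [le_div_iff₀ hg0]
    have e3 : C₂ * (C₂ * (2 ^ (C₁ * (k + 1)) / 2 ^ g₀ l)) * 2 ^ a * 2 ^ a * 2 ^ g₀ l =
        C₂ * C₂ * 2 ^ (C₁ * (k + 1)) * (2 ^ a) ^ 2 := by field_simp
    rw [e3]
    refine mul_le_mul_of_nonneg_right (le_trans ?_ hcc) (by positivity)
    refine mul_le_mul_of_nonneg_right ?_ (by positivity)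
    exact mul_le_mul hc₂.le hc₂.le (by linarith) (by positivity)

/-- **Remez inequality for finitely many closed polynomials.** -/
theorem rem_fam (m K N : ℕ) : ∃ C : ℝ, 1 ≤ C ∧ ∀ (J : ℕ) (F : Fam m J)
    (A : F.Ω → Prop) (hA : 0 < Pe F.p A) (w : ℕ)
    (q : ℕ → ((Fin m → ℝ) × (Fin m → ℝ)) × F.ζ × ℕ → Polynomial ℝ) (S : ℕ → ℝ) (θ : ℝ),
    w ≤ J → (∀ i < N, ∀ s, (q i s).natDegree ≤ K) → (∀ i < N, 0 < S i) → 0 ≤ θ →
    (Fam.sub F A hA).Tm θ → C * (θ + 1) ≤ ((J : ℝ) - w) * Real.log 2 →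
    (∀ ω, A ω → ∀ i < N, |(q i (slam F w ω)).eval (rt F w ω)| ≤ S i) →
    ∃ B : F.Ω → Prop, Sub B A ∧ Pe F.p A / 2 ≤ Pe F.p B ∧ ∀ ω, B ω → ∀ i < N,
      ∀ τ ∈ Set.Icc (0 : ℝ) 1,
        |(q i (slam F w ω)).eval τ| ≤ Real.exp (C * (θ + 1)) * S i := by
  classical
  obtain ⟨C₁, hC₁, hrem⟩ := Pool.PZ.Zrt.rem_ev (m := m) (2 * K)
  obtain ⟨C, hC⟩ : ∃ C : ℝ, C = C₁ + Real.log (N + 1) := ⟨_, rfl⟩
  have hN0 : (0 : ℝ) < (N : ℝ) + 1 := by positivity
  have hlog : 0 ≤ Real.log ((N : ℝ) + 1) := Real.log_nonneg (by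
    have : (0 : ℝ) ≤ N := Nat.cast_nonneg N
    linarith)
  refine ⟨C, by rw [hC]; linarith, ?_⟩
  intro J F A hA w q S θ hw hq hS hθ hTm hJ hqS
  obtain ⟨Q, hQ⟩ : ∃ Q : LnT F → Polynomial ℝ, Q = fun s => ∑ i ∈ range N,
      Polynomial.C (1 / S i ^ 2) * q i s ^ 2 := ⟨_, rfl⟩
  have hQe : ∀ s τ, (Q s).eval τ = ∑ i ∈ range N, 1 / S i ^ 2 * (q i s).eval τ ^ 2 := by
    intro s τ
    rw [hQ]
    simp only [Polynomial.eval_finsetSum, Polynomial.eval_mul, Polynomial.eval_C,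
      Polynomial.eval_pow]
  have hQd : ∀ s, (Q s).natDegree ≤ 2 * K := by
    intro s
    rw [hQ]
    refine Polynomial.natDegree_sum_le_of_forall_le _ _ fun i hi => ?_
    refine (Polynomial.natDegree_C_mul_le _ _).trans (Polynomial.natDegree_pow_le.trans ?_)
    exact Nat.mul_le_mul_left 2 (hq i (Finset.mem_range.1 hi) s)
  obtain ⟨B, h1, h2, h3⟩ := hrem J F A hA w Q ((N : ℝ) + 1) θ hw hQd hN0 hθ hTm (by
      refine le_trans (mul_le_mul_of_nonneg_right ?_ (by linarith)) hJ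
      rw [hC]
      linarith) (by
      intro ω hω
      rw [hQe]
      have h4 : ∀ i ∈ range N, 1 / S i ^ 2 * (q i (slam F w ω)).eval (rt F w ω) ^ 2 ≤ 1 := by
        intro i hi
        have hi' := Finset.mem_range.1 hi
        have h5 := hqS ω hω i hi'
        have h6 : (q i (slam F w ω)).eval (rt F w ω) ^ 2 ≤ S i ^ 2 :=
          sq_le_sq' (by have := (abs_le.1 h5).1; linarith) (abs_le.1 h5).2
        have h7 : 0 < S i ^ 2 := pow_pos (hS i hi') 2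
        rw [one_div, inv_mul_le_iff₀ h7, mul_one]
        exact h6
      have h5 : ∑ i ∈ range N, 1 / S i ^ 2 * (q i (slam F w ω)).eval (rt F w ω) ^ 2 ≤ (N : ℝ) := by
        refine (Finset.sum_le_sum h4).trans (le_of_eq ?_)
        rw [Finset.sum_const, Finset.card_range, nsmul_eq_mul, mul_one]
      have h6 : 0 ≤ ∑ i ∈ range N, 1 / S i ^ 2 * (q i (slam F w ω)).eval (rt F w ω) ^ 2 :=
        Finset.sum_nonneg fun i _ => by positivity
      rw [abs_of_nonneg h6]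
      linarith)
  refine ⟨B, h1, h2, fun ω hω i hi τ hτ => ?_⟩
  have h4 := h3 ω hω τ hτ
  rw [hQe] at h4
  have h5 : 1 / S i ^ 2 * (q i (slam F w ω)).eval τ ^ 2 ≤
      ∑ i ∈ range N, 1 / S i ^ 2 * (q i (slam F w ω)).eval τ ^ 2 :=
    Finset.single_le_sum (f := fun i => 1 / S i ^ 2 * (q i (slam F w ω)).eval τ ^ 2)
      (fun j _ => by positivity) (Finset.mem_range.2 hi)
  have h6 := h5.trans ((le_abs_self _).trans h4)
  have h7 : 0 < S i ^ 2 := pow_pos (hS i hi) 2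
  rw [one_div, inv_mul_le_iff₀ h7] at h6
  have hexp : Real.exp (C₁ * (θ + 1)) * ((N : ℝ) + 1) ≤ Real.exp (C * (θ + 1)) := by
    have e1 : (N : ℝ) + 1 = Real.exp (Real.log (N + 1)) := (Real.exp_log hN0).symm
    rw [e1, ← Real.exp_add]
    refine Real.exp_le_exp.2 ?_
    rw [hC]
    nlinarith
  have h8 : (1 : ℝ) ≤ Real.exp (C * (θ + 1)) := Real.one_le_exp (by
    rw [hC]
    nlinarith)
  have h9 : (q i (slam F w ω)).eval τ ^ 2 ≤ (Real.exp (C * (θ + 1)) * S i) ^ 2 := by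
    refine h6.trans ?_
    rw [mul_pow, mul_comm]
    refine mul_le_mul_of_nonneg_right (hexp.trans ?_) h7.le
    nlinarith
  exact abs_le_of_sq_le_sq h9 (mul_nonneg (by linarith) (hS i hi).le)

end Pool.D2R
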