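import Pool.Agent.H23.D2.Cnu
import Pool.Agent.H23.D2.Two

/-!
# Labels with closed plain gradients

`LinD`, `con_lin`: the spatial gradient of the visible chart `Gp` at the exact point is
`∑ λ l * V (c l)` with closed polynomials `λ l` of the relative time. The natural components `ν l`
solve a triangular system along the own line; they are bounded on the whole window, on one half of
the event, by the Remez inequality.
-/

set_option autoImplicit false

namespace Pool.D2R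

open Finset Real MvPolynomial
open Pool.Agent.H49.Ent Pool.Agent.H32.Dense Pool.STK Pool.KA Pool.KSAT Pool.K2S Pool.PB Pool.S6C
open Pool.GEN Pool.CHT Pool.CHX Pool.ISO
open Pool.FLF (Fam.sub)
open Pool.PB.Trl (rt rt_mem t_rt)

variable {m J : ℕ}

/-- The derivative in a spatial direction. -/
theorem dd_spa {c : ℕ → Fin m} {r : ℕ} (hc : Set.InjOn c (Set.Iio r))
    {Q : MvPolynomial (Option (Fin m)) ℝ} (hQ : DepC c r Q) (x : Option (Fin m) → ℝ)
    {V : Option (Fin m) → ℝ} (hV : V none = 0) :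
    dd Q x V = ∑ l ∈ range r, eval x (pderiv (some (c l)) Q) * V (some (c l)) := by
  classical
  unfold dd
  rw [Fintype.sum_option, hV, mul_zero, zero_add]
  have hinj : Set.InjOn c (range r : Set ℕ) := fun a ha b hb h =>
    hc (by simpa using ha) (by simpa using hb) h
  rw [← Finset.sum_image (s := range r) (g := c) (f := fun k => eval x (pderiv (some k) Q) *
    V (some k)) hinj]
  symm
  refine Finset.sum_subset (Finset.subset_univ _) fun k _ hk => ?_
  rw [pd_zero hQ (fun l hl h => hk ?_) x, zero_mul]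
  rw [Finset.mem_image]
  exact ⟨l, Finset.mem_range.2 hl, h⟩

/-- **Triangular systems of polynomials.** -/
theorem tri_pol {ι : Type} (i D D₁ : ℕ) (b : ι → ℕ → Polynomial ℝ)
    (A : ι → ℕ → ℕ → Polynomial ℝ) (hb : ∀ s l, (b s l).natDegree ≤ D₁)
    (hA : ∀ s l l', (A s l l').natDegree ≤ D) :
    ∃ ν : ι → ℕ → Polynomial ℝ, (∀ s l, (ν s l).natDegree ≤ D₁ + D * i) ∧
      ∀ s, ∀ l < i, ν s l = b s l + ∑ l' ∈ Finset.Ico (l + 1) i, ν s l' * A s l' l := by
  classical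
  have key : ∀ k ≤ i, ∃ ν : ι → ℕ → Polynomial ℝ, (∀ s l, (ν s l).natDegree ≤ D₁ + D * k) ∧
      ∀ s, ∀ l < i, i - k ≤ l → ν s l = b s l + ∑ l' ∈ Finset.Ico (l + 1) i, ν s l' * A s l' l := by
    intro k
    induction k with
    | zero => exact fun _ => ⟨fun _ _ => 0, fun s l => by simp, fun s l hl h => by omega⟩
    | succ k ih =>
      intro hk
      obtain ⟨ν, h1, h2⟩ := ih (by omega)
      obtain ⟨j, hj⟩ : ∃ j, j = i - (k + 1) := ⟨_, rfl⟩
      obtain ⟨ν', e1, e2⟩ : ∃ ν' : ι → ℕ → Polynomial ℝ,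
          (∀ s, ν' s j = b s j + ∑ l' ∈ Finset.Ico (j + 1) i, ν s l' * A s l' j) ∧
          ∀ s l, l ≠ j → ν' s l = ν s l :=
        ⟨fun s => Function.update (ν s) j (b s j + ∑ l' ∈ Finset.Ico (j + 1) i,
          ν s l' * A s l' j), fun s => Function.update_self _ _ _,
          fun s l h => Function.update_of_ne h _ _⟩
      refine ⟨ν', fun s l => ?_, fun s l hl h => ?_⟩
      · by_cases hlj : l = j
        · rw [hlj, e1]
          refine (Polynomial.natDegree_add_le _ _).trans (max_le ?_ ?_)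
          · exact (hb s j).trans (Nat.le_add_right _ _)
          · refine Polynomial.natDegree_sum_le_of_forall_le _ _ fun l' _ => ?_
            refine (Polynomial.natDegree_mul_le).trans ?_
            have h3 := h1 s l'
            have h4 := hA s l' j
            rw [Nat.mul_succ]
            omega
        · rw [e2 s l hlj]
          refine (h1 s l).trans ?_
          rw [Nat.mul_succ]
          omega
      · have hup : ∀ l', j < l' → ν' s l' = ν s l' := fun l' hl' => e2 s l' (by omega)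
        have hsum : ∑ l' ∈ Finset.Ico (l + 1) i, ν' s l' * A s l' l =
            ∑ l' ∈ Finset.Ico (l + 1) i, ν s l' * A s l' l := by
          refine Finset.sum_congr rfl fun l' hl' => ?_
          rw [Finset.mem_Ico] at hl'
          rw [hup l' (by omega)]
        rw [hsum]
        by_cases hlj : l = j
        · rw [hlj, e1]
        · rw [e2 s l hlj]
          exact h2 s l hl (by omega)
  obtain ⟨ν, h1, h2⟩ := key i le_rfl
  exact ⟨ν, h1, fun s l hl => h2 s l hl (by omega)⟩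

/-- The triangular system for the gradients. -/
theorem tri_id {c : ℕ → Fin m} {i : ℕ} (hc : Set.InjOn c (Set.Iio i))
    {H : ℕ → MvPolynomial (Option (Fin m)) ℝ} (hdep : ∀ l, DepC c l (H l))
    (x : Option (Fin m) → ℝ) {V : Option (Fin m) → ℝ} (hV : V none = 0) (ν lam : ℕ → ℝ)
    (h : ∀ l < i, ν l = lam l - eval x (pderiv (some (c l)) (H i)) +
      ∑ l' ∈ Finset.Ico (l + 1) i, ν l' * eval x (pderiv (some (c l)) (H l'))) :
    dd (H i) x V + ∑ l ∈ range i, ν l * (V (some (c l)) - dd (H l) x V) =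
      ∑ l ∈ range i, lam l * V (some (c l)) := by
  have h1 : ∀ l ∈ range i, ν l * (V (some (c l)) - dd (H l) x V) = ν l * V (some (c l)) -
      ∑ j ∈ range l, ν l * (eval x (pderiv (some (c j)) (H l)) * V (some (c j))) := by
    intro l hl
    rw [Finset.mem_range] at hl
    rw [dd_spa (hc.mono fun y hy => by rw [Set.mem_Iio] at hy ⊢; omega) (hdep l) x hV,
      mul_sub, Finset.mul_sum]
  rw [Finset.sum_congr rfl h1, Finset.sum_sub_distrib, dd_spa hc (hdep i) x hV]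
  have h2 : ∑ l ∈ range i, ∑ j ∈ range l,
      ν l * (eval x (pderiv (some (c j)) (H l)) * V (some (c j))) =
      ∑ j ∈ range i, ∑ l ∈ Finset.Ico (j + 1) i,
        ν l * (eval x (pderiv (some (c j)) (H l)) * V (some (c j))) := by
    refine Finset.sum_comm' fun l j => ?_
    rw [Finset.mem_range, Finset.mem_range, Finset.mem_range, Finset.mem_Ico]
    omega
  rw [h2, add_sub_assoc', ← Finset.sum_add_distrib, ← Finset.sum_sub_distrib]
  refine Finset.sum_congr rfl fun l hl => ?_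
  rw [Finset.mem_range] at hl
  have h3 : ∑ l' ∈ Finset.Ico (l + 1) i,
      ν l' * (eval x (pderiv (some (c l)) (H l')) * V (some (c l))) =
      (∑ l' ∈ Finset.Ico (l + 1) i, ν l' * eval x (pderiv (some (c l)) (H l'))) *
        V (some (c l)) := by
    rw [Finset.sum_mul]
    exact Finset.sum_congr rfl fun _ _ => by ring
  rw [h3]
  have h4 := h l hl
  have h5 : ∑ l' ∈ Finset.Ico (l + 1) i, ν l' * eval x (pderiv (some (c l)) (H l')) =
      ν l - lam l + eval x (pderiv (some (c l)) (H i)) := by linarith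
  rw [h5]
  ring

/-- **The data**, with closed plain components `lam` of the gradient. -/
structure LinD (F : Fam m J) (c : ℕ → Fin m) (i D D₁ w a₁ a n N e : ℕ) (g gT : ℕ → ℕ)
    (ε₁ ε₂ : ℝ) (B : F.Ω → Prop) (G : PtT F → ℕ → MvPolynomial (Option (Fin m)) ℝ)
    (H₀ : LnT F → ℕ → MvPolynomial (Option (Fin m)) ℝ)
    (T : PtT F → ℕ → MvPolynomial (Option (Fin m)) ℝ)
    (Gp : PtT F → MvPolynomial (Option (Fin m)) ℝ) (lam : LnT F → ℕ → Polynomial ℝ) : Prop where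
  ball : ChOK F c (i + 1) (fun _ => D) a₁ w e g B G
    (fun s l => Hno (c l) (fun s => H₀ s l) s)
  thp : ∀ ω, B ω → ∀ l < i, |F.x ω (c l) - eval (bt F ω) (T (ptr F J ω) l)| ≤ 1 / 2 ^ gT l
  inc : ∀ ω, B ω → ∀ b, NBx c (T (ptr F J ω)) gT a (F.t ω) i b →
    |b none - F.t ω| ≤ 1 / 2 ^ (a₁ + n) ∧
    ∀ l < i, |b (some (c l)) - eval b (G (ptr F J ω) l)| ≤ 1 / 2 ^ (g l + n)
  dlam : ∀ s l, (lam s l).natDegree ≤ D₁
  nat : ∀ ω ν, B ω → B ν → ptr F J ω = ptr F J ν → ∀ l < i,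
    |bd F ν (some (c l)) - dd (G (ptr F J ω) l) (bt F ω) (bd F ν)| ≤ 2 ^ N * 2 ^ a₁ / 2 ^ g l
  vel : ∀ ω ν, B ω → B ν → ptr F J ω = ptr F J ν →
    |bd F ν (some (c i)) - dd (Gp (ptr F J ω)) (bt F ω) (bd F ν)| ≤ ε₂
  spa : ∀ ω, B ω → ∀ V : Option (Fin m) → ℝ, V none = 0 →
    |∑ l ∈ range i, (lam (slam F w ω) l).eval (rt F w ω) * V (some (c l)) -
      dd (Gp (ptr F J ω)) (bt F ω) V| ≤ ε₁ * nrm c (G (ptr F J ω)) g a₁ i (bt F ω) V
  lnat : ∀ ω, B ω → ∀ V : Option (Fin m) → ℝ, V none = 0 →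
    |∑ l ∈ range i, (lam (slam F w ω) l).eval (rt F w ω) * V (some (c l)) -
      dd (G (ptr F J ω) i) (bt F ω) V| ≤
      2 ^ N / 2 ^ g i * nrm c (G (ptr F J ω)) g a₁ i (bt F ω) V
  shf : ∀ ω ν, B ω → B ν → ptr F J ω = ptr F J ν → ∀ V : Option (Fin m) → ℝ, V none = 0 →
    |dd (Gp (ptr F J ω)) (bt F ν) V - dd (Gp (ptr F J ω)) (bt F ω) V| ≤
      ε₁ * nrm c (G (ptr F J ω)) g a₁ i (bt F ω) V

/-- The norms for the visible charts of a vector which is adapted to the closed charts. -/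
theorem nrm_adapt {c : ℕ → Fin m} {G H : ℕ → MvPolynomial (Option (Fin m)) ℝ} {g : ℕ → ℕ}
    {a i : ℕ} {x V : Option (Fin m) → ℝ} {K E : ℝ} (hK : 0 ≤ K) (hE : 0 ≤ E)
    (hV : V none = 0) (hdif : ∀ l < i, |dd (G l) x V - dd (H l) x V| ≤
      K / 2 ^ g l * nrm c G g a l x V)
    (hW : ∀ l < i, 2 ^ g l * |V (some (c l)) - dd (H l) x V| ≤ E) :
    ∀ k ≤ i, nrm c G g a k x V ≤ (1 + K) ^ k * (k * E) := by
  have hV0 : ∀ k, nrm c G g a k x V = ∑ l ∈ range k, 2 ^ g l *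
      |V (some (c l)) - dd (G l) x V| := by
    intro k
    unfold nrm
    rw [hV, abs_zero, mul_zero, zero_add]
  intro k
  induction k with
  | zero =>
    intro _
    rw [hV0]
    simp
  | succ k ih =>
    intro hk
    have h1 := ih (by omega)
    have h2 : nrm c G g a (k + 1) x V = nrm c G g a k x V +
        2 ^ g k * |V (some (c k)) - dd (G k) x V| := by
      rw [hV0, hV0, Finset.sum_range_succ]
    have h3 : 2 ^ g k * |V (some (c k)) - dd (G k) x V| ≤ E + K * nrm c G g a k x V := by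
      have e1 : V (some (c k)) - dd (G k) x V = (V (some (c k)) - dd (H k) x V) -
          (dd (G k) x V - dd (H k) x V) := by ring
      rw [e1]
      have h4 := hdif k (by omega)
      have h5 := hW k (by omega)
      have h6 : (2 : ℝ) ^ g k * (K / 2 ^ g k * nrm c G g a k x V) = K * nrm c G g a k x V := by
        field_simp
      have h7 : (2 : ℝ) ^ g k * |(V (some (c k)) - dd (H k) x V) -
          (dd (G k) x V - dd (H k) x V)| ≤ 2 ^ g k * |V (some (c k)) - dd (H k) x V| +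
          2 ^ g k * |dd (G k) x V - dd (H k) x V| := by
        rw [← mul_add]
        exact mul_le_mul_of_nonneg_left (abs_sub _ _) (by positivity)
      have h8 := mul_le_mul_of_nonneg_left h4 (show (0 : ℝ) ≤ 2 ^ g k by positivity)
      rw [h6] at h8
      linarith
    rw [h2]
    have h4 : (1 : ℝ) ≤ (1 + K) ^ (k + 1) := one_le_pow₀ (by linarith)
    have h5 := mul_le_mul_of_nonneg_left h1 (show 0 ≤ 1 + K by linarith)
    have h6 : E ≤ (1 + K) ^ (k + 1) * E := le_mul_of_one_le_left hE h4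
    have e1 : (1 + K) ^ (k + 1) * (((k + 1 : ℕ) : ℝ) * E) =
        (1 + K) * ((1 + K) ^ k * (k * E)) + (1 + K) ^ (k + 1) * E := by
      push_cast
      ring
    rw [e1]
    linarith

/-- **The natural components.** -/
theorem con_lin (m D₁ D i : ℕ) : ∃ C : ℕ, 1 ≤ C ∧ ∀ {J : ℕ} {F : Fam m J}
    {c : ℕ → Fin m} {w a₁ a n N e k : ℕ} {g gT : ℕ → ℕ} {ε₁ ε₂ θ : ℝ} {B : F.Ω → Prop}
    {G : PtT F → ℕ → MvPolynomial (Option (Fin m)) ℝ}
    {H₀ : LnT F → ℕ → MvPolynomial (Option (Fin m)) ℝ}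
    {T : PtT F → ℕ → MvPolynomial (Option (Fin m)) ℝ}
    {Gp : PtT F → MvPolynomial (Option (Fin m)) ℝ} {lam : LnT F → ℕ → Polynomial ℝ}
    (hB : 0 < Pe F.p B), Set.InjOn c (Set.Iio (i + 1)) → w ≤ J → 0 ≤ θ →
    (Fam.sub F B hB).Tm θ → C * (θ + 1) ≤ ((J : ℝ) - w) * Real.log 2 →
    Real.exp (C * (θ + 1)) ≤ 2 ^ k →
    LinD F c i D D₁ w a₁ a n N e g gT ε₁ ε₂ B G H₀ T Gp lam →
    ∃ (B' : F.Ω → Prop) (ν : LnT F → ℕ → Polynomial ℝ), Sub B' B ∧
      Pe F.p B / 2 ≤ Pe F.p B' ∧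
      NuD F c i D (D₁ + D + D * i) w a₁ a n (N + k + C) e g gT ε₁ ε₂ B' G H₀ T Gp ν := by
  classical
  obtain ⟨C₁, hC₁, hrem⟩ := rem_fam m (D₁ + D + D * i) i
  have hba := fun l : ℕ => box_all l D D
  choose Cb hCb hbl using hba
  obtain ⟨K, hK⟩ : ∃ K : ℝ, K = 1 + ∑ l ∈ range (i + 1), Cb l := ⟨_, rfl⟩
  have hCbl : ∀ l ≤ i, Cb l ≤ K := by
    intro l hl
    rw [hK]
    have := Finset.single_le_sum (f := Cb) (fun l _ => by linarith [hCb l])
      (Finset.mem_range.2 (Nat.lt_succ_of_le hl))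
    linarith
  have hK1 : 1 ≤ K := by
    rw [hK]
    have : 0 ≤ ∑ l ∈ range (i + 1), Cb l := Finset.sum_nonneg fun l _ => by linarith [hCb l]
    linarith
  obtain ⟨C₂, hC₂⟩ := pow_unbounded_of_one_lt ((1 + K) * ((1 + K) ^ i * i)) (one_lt_two (α := ℝ))
  obtain ⟨C₃, hC₃⟩ := exists_nat_gt C₁
  have hi0 : (0 : ℝ) ≤ i := Nat.cast_nonneg i
  refine ⟨C₂ + C₃ + 1, by omega, ?_⟩
  intro J F c w a₁ a n N e k g gT ε₁ ε₂ θ B G H₀ T Gp lam hB hc hw hθ hTm hJ hexp hL
  have hc' : Set.InjOn c (Set.Iio i) := hc.mono fun y hy => by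
    rw [Set.mem_Iio] at hy ⊢
    omega
  have hCC : C₁ ≤ ((C₂ + C₃ + 1 : ℕ) : ℝ) := by
    push_cast
    have : (0 : ℝ) ≤ C₂ := Nat.cast_nonneg _
    linarith
  obtain ⟨H, hH⟩ : ∃ H : LnT F → ℕ → MvPolynomial (Option (Fin m)) ℝ,
      H = fun s l => Hno (c l) (fun s => H₀ s l) s := ⟨_, rfl⟩
  have hHd : ∀ s l, (H s l).totalDegree ≤ D := fun s l => by rw [hH]; exact hL.ball.degH s l
  have hHp : ∀ s l, DepC c l (H s l) := fun s l => by rw [hH]; exact hL.ball.depH s l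
  have hagr : ∀ ω, B ω → ∀ l < i + 1, ∀ b, NBx c (G (ptr F J ω)) g a₁ (F.t ω) l b →
      |eval b (G (ptr F J ω) l) - eval b (H (slam F w ω) l)| ≤ 1 / 2 ^ g l := by
    intro ω hω l hl b hb
    rw [hH]
    exact hL.ball.agr ω hω l hl b hb
  have hlcd : ∀ (s : LnT F) (P : MvPolynomial (Option (Fin m)) ℝ) (l : ℕ), P.totalDegree ≤ D →
      (MvPolynomial.aeval (lc w s) (pderiv (some (c l)) P)).natDegree ≤ D := fun s P l hP =>
    Pool.KBX.natDegree_aeval_le _ _ (natDegree_lc w s) (totalDegree_pdσ hP _)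
  -- the triangular system
  obtain ⟨ν, hν1, hν2⟩ := tri_pol (ι := LnT F) i D (D₁ + D)
    (fun s l => lam s l - MvPolynomial.aeval (lc w s) (pderiv (some (c l)) (H s i)))
    (fun s l' l => MvPolynomial.aeval (lc w s) (pderiv (some (c l)) (H s l')))
    (fun s l => (Polynomial.natDegree_sub_le _ _).trans (max_le
      ((hL.dlam s l).trans (Nat.le_add_right _ _))
      ((hlcd s _ l (hHd s i)).trans (Nat.le_add_left _ _))))
    (fun s l l' => hlcd s _ l' (hHd s l))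
  have hev : ∀ ω (P : MvPolynomial (Option (Fin m)) ℝ),
      (MvPolynomial.aeval (lc w (slam F w ω)) P).eval (rt F w ω) = eval (bt F ω) P := by
    intro ω P
    rw [Pool.KBX.eval_aeval_poly]
    have : (fun o => (lc w (slam F w ω) o).eval (rt F w ω)) = bt F ω :=
      funext fun o => eval_lc F hw ω o
    rw [this]
  have hid : ∀ ω, ∀ l < i, (ν (slam F w ω) l).eval (rt F w ω) =
      (lam (slam F w ω) l).eval (rt F w ω) -
        eval (bt F ω) (pderiv (some (c l)) (H (slam F w ω) i)) +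
      ∑ l' ∈ Finset.Ico (l + 1) i, (ν (slam F w ω) l').eval (rt F w ω) *
        eval (bt F ω) (pderiv (some (c l)) (H (slam F w ω) l')) := by
    intro ω l hl
    have h1 := congrArg (fun q => Polynomial.eval (rt F w ω) q) (hν2 (slam F w ω) l hl)
    simp only [Polynomial.eval_add, Polynomial.eval_sub, Polynomial.eval_finsetSum,
      Polynomial.eval_mul, hev] at h1
    exact h1
  have hsum : ∀ ω (V : Option (Fin m) → ℝ), V none = 0 →
      dd (H (slam F w ω) i) (bt F ω) V + ∑ l ∈ range i, (ν (slam F w ω) l).eval (rt F w ω) *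
        (V (some (c l)) - dd (H (slam F w ω) l) (bt F ω) V) =
      ∑ l ∈ range i, (lam (slam F w ω) l).eval (rt F w ω) * V (some (c l)) := fun ω V hV =>
    tri_id hc' (hHp (slam F w ω)) (bt F ω) hV
      (fun l => (ν (slam F w ω) l).eval (rt F w ω))
      (fun l => (lam (slam F w ω) l).eval (rt F w ω)) (hid ω)
  -- the charts at the exact point
  have hxb : ∀ ω, B ω → ∀ l ≤ i, ∀ j < l, |bt F ω (some (c j)) -
      eval (bt F ω) (G (ptr F J ω) j)| ≤ 1 / 2 ^ g j := fun ω hω l hl j hj =>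
    hL.ball.pos ω hω j (by omega)
  have hdif : ∀ ω, B ω → ∀ l ≤ i, ∀ V : Option (Fin m) → ℝ,
      |dd (G (ptr F J ω) l) (bt F ω) V - dd (H (slam F w ω) l) (bt F ω) V| ≤
        K / 2 ^ g l * nrm c (G (ptr F J ω)) g a₁ l (bt F ω) V := by
    intro ω hω l hl V
    have h1 := (hbl l (c := c) (ψ := G (ptr F J ω)) (Q := G (ptr F J ω) l - H (slam F w ω) l)
      (g := g) (a := a₁) (M := 1 / 2 ^ g l) (x := bt F ω) (hc.mono fun y hy => by
        rw [Set.mem_Iio] at hy ⊢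
        omega) (hL.ball.degG _) (hL.ball.depG _) (fun y y' h1 h2 => by
        rw [map_sub, map_sub, hL.ball.depG _ l y y' h1 h2, hHp _ l y y' h1 h2])
      ((totalDegree_sub _ _).trans (max_le (hL.ball.degG _ l) (hHd _ l))) (by positivity)
      (fun b hb => by
        rw [map_sub]
        exact hagr ω hω l (by omega) b hb) (hxb ω hω l hl)).1 V
    rw [dd_sub] at h1
    refine h1.trans (mul_le_mul_of_nonneg_right ?_ (nrm_nonneg _ _ _ _ _ _ _))
    rw [mul_one_div]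
    exact div_le_div_of_nonneg_right (hCbl l hl) (by positivity)
  -- the natural components at the exact point
  have hN1 : (1 : ℝ) ≤ 2 ^ N := one_le_pow₀ (by norm_num)
  have hνx : ∀ ω, B ω → ∀ l < i, |(ν (slam F w ω) l).eval (rt F w ω)| ≤
      2 ^ C₂ * (2 ^ N * 2 ^ g l / 2 ^ g i) := by
    intro ω hω l hl
    obtain ⟨V, hV0, hV⟩ := vec_adapt hc' (hHp (slam F w ω)) (bt F ω) 0
      (fun j => if j = l then 1 else 0) i le_rfl
    have h1 := hsum ω V hV0
    have h2 : ∑ j ∈ range i, (ν (slam F w ω) j).eval (rt F w ω) *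
        (V (some (c j)) - dd (H (slam F w ω) j) (bt F ω) V) =
        (ν (slam F w ω) l).eval (rt F w ω) := by
      rw [Finset.sum_eq_single l]
      · rw [hV l hl]
        simp
      · intro j hj hjl
        rw [hV j (Finset.mem_range.1 hj)]
        simp [hjl]
      · intro h
        exact absurd (Finset.mem_range.2 hl) h
    rw [h2] at h1
    have h3 := hL.lnat ω hω V hV0
    have h4 := hdif ω hω i le_rfl V
    have h5 : nrm c (G (ptr F J ω)) g a₁ i (bt F ω) V ≤ (1 + K) ^ i * (i * 2 ^ g l) := by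
      refine nrm_adapt (H := H (slam F w ω)) (by linarith) (by positivity) hV0 (fun j hj =>
        hdif ω hω j hj.le V) (fun j hj => ?_) i le_rfl
      rw [hV j hj]
      by_cases hjl : j = l
      · rw [if_pos hjl, abs_one, mul_one, hjl]
      · rw [if_neg hjl, abs_zero, mul_zero]
        positivity
    have e1 : (ν (slam F w ω) l).eval (rt F w ω) =
        (∑ l ∈ range i, (lam (slam F w ω) l).eval (rt F w ω) * V (some (c l)) -
          dd (G (ptr F J ω) i) (bt F ω) V) +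
        (dd (G (ptr F J ω) i) (bt F ω) V - dd (H (slam F w ω) i) (bt F ω) V) := by
      linarith
    rw [e1]
    refine (abs_add_le _ _).trans ((add_le_add h3 h4).trans ?_)
    have hnn := nrm_nonneg c (G (ptr F J ω)) g a₁ i (bt F ω) V
    calc 2 ^ N / 2 ^ g i * nrm c (G (ptr F J ω)) g a₁ i (bt F ω) V +
          K / 2 ^ g i * nrm c (G (ptr F J ω)) g a₁ i (bt F ω) V ≤
          2 ^ N / 2 ^ g i * nrm c (G (ptr F J ω)) g a₁ i (bt F ω) V +
          2 ^ N * K / 2 ^ g i * nrm c (G (ptr F J ω)) g a₁ i (bt F ω) V := by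
          refine add_le_add le_rfl (mul_le_mul_of_nonneg_right ?_ hnn)
          exact div_le_div_of_nonneg_right (le_mul_of_one_le_left (by linarith) hN1)
            (by positivity)
      _ = (1 + K) * (2 ^ N / 2 ^ g i) * nrm c (G (ptr F J ω)) g a₁ i (bt F ω) V := by ring
      _ ≤ (1 + K) * (2 ^ N / 2 ^ g i) * ((1 + K) ^ i * (i * 2 ^ g l)) :=
          mul_le_mul_of_nonneg_left h5 (by positivity)
      _ = ((1 + K) * ((1 + K) ^ i * i)) * (2 ^ N * 2 ^ g l / 2 ^ g i) := by ring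
      _ ≤ _ := mul_le_mul_of_nonneg_right hC₂.le (by positivity)
  -- the bound on the whole window
  obtain ⟨B', hB'1, hB'2, hB'3⟩ := hrem J F B hB w (fun l s => ν s l)
    (fun l => 2 ^ C₂ * (2 ^ N * 2 ^ g l / 2 ^ g i)) θ hw (fun l _ s => hν1 s l)
    (fun l _ => by positivity) hθ hTm
    (le_trans (mul_le_mul_of_nonneg_right hCC (by linarith)) hJ)
    (fun ω hω l hl => hνx ω hω l hl)
  refine ⟨B', ν, hB'1, hB'2, ?_⟩
  exact
    { ball := hL.ball.sub hB'1
      thp := fun ω hω => hL.thp ω (hB'1 ω hω)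
      inc := fun ω hω => hL.inc ω (hB'1 ω hω)
      dν := hν1
      bν := fun ω hω l hl τ hτ => by
        refine (hB'3 ω hω l hl τ hτ).trans ?_
        have h1 : Real.exp (C₁ * (θ + 1)) ≤ 2 ^ k :=
          (Real.exp_le_exp.2 (mul_le_mul_of_nonneg_right hCC (by linarith))).trans hexp
        have h2 : (0 : ℝ) ≤ 2 ^ C₂ * (2 ^ N * 2 ^ g l / 2 ^ g i) := by positivity
        refine (mul_le_mul_of_nonneg_right h1 h2).trans ?_
        have e1 : (2 : ℝ) ^ k * (2 ^ C₂ * (2 ^ N * 2 ^ g l / 2 ^ g i)) =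
            2 ^ (N + k + C₂) * 2 ^ g l / 2 ^ g i := by
          rw [pow_add, pow_add]
          ring
        rw [e1]
        refine div_le_div_of_nonneg_right (mul_le_mul_of_nonneg_right
          (pow_le_pow_right₀ (by norm_num) (by omega)) (by positivity)) (by positivity)
      nat := fun ω ν' hω hν' hpt l hl =>
        (hL.nat ω ν' (hB'1 ω hω) (hB'1 ν' hν') hpt l hl).trans
        (div_le_div_of_nonneg_right (mul_le_mul_of_nonneg_right
          (pow_le_pow_right₀ (by norm_num) (by omega)) (by positivity)) (by positivity))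
      vel := fun ω ν' hω hν' => hL.vel ω ν' (hB'1 ω hω) (hB'1 ν' hν')
      spa := fun ω hω V hV => by
        have h1 := hsum ω V hV
        have h2 := hL.spa ω (hB'1 ω hω) V hV
        rw [← h1, hH] at h2
        exact h2
      shf := fun ω ν' hω hν' => hL.shf ω ν' (hB'1 ω hω) (hB'1 ν' hν') }

/-- **A closed and visible gradient gives a label**, on one half of the event. -/
theorem con_fin (m D₁ D i : ℕ) (hD : 1 ≤ D) : ∃ C : ℕ, 1 ≤ C ∧ D ≤ C ∧ ∀ {J : ℕ} {F : Fam m J}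
    {c : ℕ → Fin m} {w a₁ a n N e k : ℕ} {g gT : ℕ → ℕ} {ε₁ ε₂ θ : ℝ} {B : F.Ω → Prop}
    {G : PtT F → ℕ → MvPolynomial (Option (Fin m)) ℝ}
    {H₀ : LnT F → ℕ → MvPolynomial (Option (Fin m)) ℝ}
    {T : PtT F → ℕ → MvPolynomial (Option (Fin m)) ℝ}
    {Gp : PtT F → MvPolynomial (Option (Fin m)) ℝ} {lam : LnT F → ℕ → Polynomial ℝ}
    (hB : 0 < Pe F.p B), Set.InjOn c (Set.Iio (i + 1)) → 2 ≤ n → 0 ≤ ε₁ → 0 ≤ ε₂ →
    (∀ l < i + 1, e + g l + 2 * n + C ≤ J) → w ≤ a₁ → w ≤ J → 0 ≤ θ →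
    (Fam.sub F B hB).Tm θ → C * (θ + 1) ≤ ((J : ℝ) - w) * Real.log 2 →
    Real.exp (C * (θ + 1)) ≤ 2 ^ k →
    LinD F c i D D₁ w a₁ a n N e g gT ε₁ ε₂ B G H₀ T Gp lam →
    ∃ (B' : F.Ω → Prop) (Gt : PtT F → MvPolynomial (Option (Fin m)) ℝ)
      (Ht : LnT F → MvPolynomial (Option (Fin m)) ℝ), Sub B' B ∧ Pe F.p B / 2 ≤ Pe F.p B' ∧
      (∀ y, (Gt y).totalDegree ≤ C) ∧ (∀ s, (Ht s).totalDegree ≤ C) ∧
      (∀ y, DepC c i (Gt y)) ∧ (∀ s, DepC c i (Ht s)) ∧ ∀ ω, B' ω →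
      |F.x ω (c i) - eval (bt F ω) (Gt (ptr F J ω))| ≤ 2 ^ (C + 2 * (N + k)) *
        (ε₁ / 2 ^ n + ε₂ / 2 ^ (a₁ + n) + 1 / 2 ^ (g i + 2 * n)) ∧
      (∀ b, NBx c (T (ptr F J ω)) gT a (F.t ω) i b →
        |eval b (Gt (ptr F J ω)) - eval b (Ht (slam F w ω))| ≤ 2 ^ (C + 2 * (N + k)) *
          (ε₁ / 2 ^ n + ε₂ / 2 ^ (a₁ + n) + 1 / 2 ^ (g i + 2 * n))) ∧
      ∀ b, NBx c (T (ptr F J ω)) gT a (F.t ω) i b → ∀ l < i,
        |eval b (pderiv (some (c l)) (Gt (ptr F J ω)))| ≤ 2 ^ (C + N + k + e + nlp g l i) := by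
  obtain ⟨C₁, hC₁, hlin⟩ := con_lin m D₁ D i
  obtain ⟨C₂, hC₂, hnu⟩ := con_nu (D₁ + D + D * i) i
  obtain ⟨C₃, hC₃, hlab⟩ := con_lab m ((D₁ + D + D * i) + D) i
  obtain ⟨C, hC⟩ : ∃ C : ℕ, C = 3 * C₁ + 3 * C₂ + C₃ + ((D₁ + D + D * i) + D) := ⟨_, rfl⟩
  refine ⟨C, by omega, by omega, ?_⟩
  intro J F c w a₁ a n N e k g gT ε₁ ε₂ θ B G H₀ T Gp lam hB hc hn hε₁ hε₂ hJ hwa hw hθ hTm hCJ
    hexp hL
  have hCC : ((C₁ : ℕ) : ℝ) ≤ C := by exact_mod_cast (by omega : C₁ ≤ C)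
  obtain ⟨B', ν, h1, h2, h3⟩ := hlin hB hc hw hθ hTm
    (le_trans (mul_le_mul_of_nonneg_right hCC (by linarith)) hCJ)
    ((Real.exp_le_exp.2 (mul_le_mul_of_nonneg_right hCC (by linarith))).trans hexp) hL
  have h4 := hnu hD hwa hw h3
  obtain ⟨Gt, k1, k2, k3⟩ := hlab hc hn hε₁ hε₂ (fun l hl => by
    have := hJ l hl
    omega) h4
  -- the error
  obtain ⟨M, hM⟩ : ∃ M : ℕ, M = N + k + C₁ + C₂ := ⟨_, rfl⟩
  have hM1 : (1 : ℝ) ≤ 2 ^ M := one_le_pow₀ (by norm_num)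
  have hE : 2 ^ C₃ * (2 ^ M * ε₁ / 2 ^ n + ε₂ / 2 ^ (a₁ + n) +
      (2 ^ M) ^ 2 / 2 ^ (g i + 2 * n)) ≤ 2 ^ (C + 2 * (N + k)) *
      (ε₁ / 2 ^ n + ε₂ / 2 ^ (a₁ + n) + 1 / 2 ^ (g i + 2 * n)) := by
    have e0 : (0 : ℝ) ≤ ε₁ / 2 ^ n := by positivity
    have e1 : (0 : ℝ) ≤ ε₂ / 2 ^ (a₁ + n) := by positivity
    have e2 : (0 : ℝ) ≤ 1 / 2 ^ (g i + 2 * n) := by positivity
    have e3 : (2 : ℝ) ^ M ≤ (2 ^ M) ^ 2 := le_self_pow₀ hM1 (by norm_num)
    have e4 : (1 : ℝ) ≤ (2 ^ M) ^ 2 := one_le_pow₀ hM1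
    calc 2 ^ C₃ * (2 ^ M * ε₁ / 2 ^ n + ε₂ / 2 ^ (a₁ + n) + (2 ^ M) ^ 2 / 2 ^ (g i + 2 * n)) =
          2 ^ C₃ * (2 ^ M * (ε₁ / 2 ^ n) + 1 * (ε₂ / 2 ^ (a₁ + n)) +
            (2 ^ M) ^ 2 * (1 / 2 ^ (g i + 2 * n))) := by ring
      _ ≤ 2 ^ C₃ * ((2 ^ M) ^ 2 * (ε₁ / 2 ^ n) + (2 ^ M) ^ 2 * (ε₂ / 2 ^ (a₁ + n)) +
            (2 ^ M) ^ 2 * (1 / 2 ^ (g i + 2 * n))) := by
          refine mul_le_mul_of_nonneg_left (add_le_add (add_le_add
            (mul_le_mul_of_nonneg_right e3 e0) (mul_le_mul_of_nonneg_right e4 e1)) le_rfl)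
            (by positivity)
      _ = 2 ^ (C₃ + 2 * M) * (ε₁ / 2 ^ n + ε₂ / 2 ^ (a₁ + n) + 1 / 2 ^ (g i + 2 * n)) := by
          rw [show (2 : ℝ) ^ (C₃ + 2 * M) = 2 ^ C₃ * (2 ^ M) ^ 2 by rw [← pow_mul, ← pow_add,
            Nat.mul_comm M 2]]
          ring
      _ ≤ _ := mul_le_mul_of_nonneg_right (pow_le_pow_right₀ (by norm_num) (by omega))
          (by positivity)
  rw [← hM] at k3
  refine ⟨B', Gt, nuL F c w i H₀ ν, h1, h2, fun y => (k1 y).trans (by omega),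
    fun s => (h4.dH s).trans (by omega), k2, h4.pH, fun ω hω => ?_⟩
  obtain ⟨m1, m2, m3⟩ := k3 ω hω
  refine ⟨m1.trans hE, fun b hb => (m2 b hb).trans hE, fun b hb l hl => (m3 b hb l hl).trans ?_⟩
  exact pow_le_pow_right₀ (by norm_num) (by omega)

end Pool.D2R
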