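import Pool.Agent.H88.D2.Mcy

/-!
# The event of a static cell with the closed gradient at a ball, with the radii

`cevmz`: 88's `cevm` (the proof is copied from `Pool.Agent.H88.D2.Mcy`) with the values of the radii
`z` between the windows.
-/

set_option autoImplicit false

namespace Pool.TN

open Finset Real MvPolynomial
open Pool.Agent.H49.Ent Pool.Agent.H32.Dense Pool.STK Pool.KA Pool.KSAT Pool.K2S Pool.PB Pool.S6C
open Pool.GEN Pool.CHT Pool.CHX Pool.ISO Pool.D2R Pool.D2Z Pool.D2F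
open Pool.AVG57 (LbsE ClU CGr)
open Pool.FLF (Fam.sub)
open Pool.D2T (sh sh_rt sh_deg)
open Pool.PB.Trl (rt rt_mem t_rt)
open Pool.BFL (Pb)
open Pool.PKG (RecQ Kd)

open Pool.D2R in
/-- **The event of a static cell with the closed gradient at the ball.** `u it = 0`: the window of the
line, `u iK = 1`: the ball; the windows `-1 + k / p` are additional. -/
theorem cevmz (m v S₀ : ℕ) (hv1 : 1 ≤ v) (hv2 : v ≤ 2) (hS₀ : 1 ≤ S₀) : ∃ D₀ : ℕ, 1 ≤ D₀ ∧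
    ∀ Dc : ℕ, D₀ ≤ Dc → ∀ S₂ : ℕ, S₀ ≤ S₂ → ∃ D : ℕ, D₀ ≤ D ∧ ∀ Dr : ℕ, D ≤ Dr → ∀ (Sl : ℕ → ℝ) (y gp : ℝ), 0 < y →
    y ≤ 1 / 8 → 0 < gp → (∀ l, 1 ≤ l → l ≤ 2 → l < v + 1 → 1 < Sl l) →
    (v + 1 = 3 → Sl 0 < Sl 1 ∧ Sl 0 < Sl 2) →
    ∀ (X : ℕ) (Sm ξ qr μ vj κ₂ dW τ yp : ℝ), 1 ≤ X → 0 < yp →
    (Sl (v + 1) ≤ Sl v ∨ MuN v X Sl Sm ξ qr μ vj κ₂ dW τ) →
    ∃ (n₀ p : ℕ) (s ε₀ y' : ℝ), 1 ≤ n₀ ∧ 1 ≤ p ∧ 0 < s ∧ (n₀ + 1) * s ≤ gp ∧ 0 < ε₀ ∧ 0 < y' ∧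
    y' ≤ y ∧
    ∀ {S : PCl m} {P P₂ : List (Fin m) × Fin m → ℝ → ℝ → ℝ} {θ θ₂ : ℝ} {c : ℕ → Fin m}
    {Pt : ℝ → ℝ → ℝ} {L T : ℕ → ℝ → ℝ → ℝ} {kd : ℕ → Kd} {N : ℕ} {A V : ℕ → ℝ} {N' : ℕ}
    {V' : ℕ → ℝ} {Eb e₂ K ε q t : ℝ},
    RecQ S P P₂ θ θ₂ c (v + 1) Pt L T Sl kd S₀ N A V S₂ N' V' Eb e₂ K ε q t → 0 ≤ ε →
    ε ≤ ε₀ → 2 ≤ K → ∀ (A' : ℝ) (N₁ it iK : ℕ) (u : ℕ → ℝ) (Sc : ℕ → Prop), A' ≤ K →
    it ≤ N₁ → iK ≤ N₁ → u it = 0 → u iK = 1 →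
    (∀ k ≤ N₁, -K + 1 ≤ u k ∧ u k + gp ≤ A') → X + gp ≤ A' →
    (∀ k ≤ N₁, ∃ j < N, A j = A' ∧ V j = u k) →
    (∀ k ≤ (X + 1) * p, u (N₁ + 1 + k) = -1 + k / p) →
    (∀ k ≤ (X + 1) * p, ∃ j < N', V' j = -1 + k / p) →
    (∀ k ≤ N₁, ∀ j, 1 ≤ j → j ≤ n₀ → ∃ j' < N', V' j' = u k + j * s) →
    (∀ l < v + 1, ¬ Sc l → kd l = .one ∨ kd l = .thin) →
    ∀ (pl sl : ℕ → ℝ) (ι : ℝ) (k₁ : ℕ), (∀ l ≤ v + 1, pl l ≤ L l (t - q) (t - q) - yp * q ∧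
      L l (t - q) (t - q) ≤ sl l) →
    (Sl (v + 1) ≤ Sl v ∨ CGr S c v Dc (t - q) (dW * q) (t + vj * q) (t + X * q) pl sl (qr * q)
      (ξ * q) (μ * q) κ₂ ι k₁ (1 / 2)) →
    ∃ K₁ : ℝ, 0 < K₁ ∧ ∀ κ : ℝ, 0 < κ → Bas S (fun J F A₀ =>
      ∃ (M : ℕ) (z : ℕ → ℕ → ℕ) (B : F.Ω → Prop) (e h pp : ℕ → ℕ) (g gc gT g₀ : ℕ → ℕ → ℕ)
        (G : ℕ → PtT F → ℕ → MvPolynomial (Option (Fin m)) ℝ)
        (H : ℕ → LnT F → ℕ → MvPolynomial (Option (Fin m)) ℝ)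
        (Th : ℕ → PtT F → ℕ → MvPolynomial (Option (Fin m)) ℝ)
        (TH : ℕ → LnT F → ℕ → MvPolynomial (Option (Fin m)) ℝ)
        (Gt : ℕ → PtT F → MvPolynomial (Option (Fin m)) ℝ)
        (Ht : ℕ → LnT F → MvPolynomial (Option (Fin m)) ℝ)
        (mu : LnT F → Polynomial ℝ), Sub B A₀ ∧
        Pe F.p A₀ ≤ K₁ * Pe F.p B ∧
        CEv F c (v + 1) D Dr N₁ M ⌊(t + A' * q) * J⌋₊ ⌊y' * q * J⌋₊ Sc
          (fun k => ⌊(t + u k * q) * J⌋₊) e h pp z g gc gT g₀ κ B G H Th TH Gt Ht ∧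
        (N₁ ≤ M ∧ ∀ k ≤ N₁, ∀ k' ≤ N₁, u k + 1 / p ≤ u k' →
          z k k' = ⌊(t + u k' * q) * J⌋₊ - ⌊(t + u k * q) * J⌋₊) ∧
        (∀ s, (mu s).natDegree ≤ D + Dc + 1) ∧
        (∀ ω, B ω → |(mu (slam F ⌊(t + u it * q) * J⌋₊ ω)).eval (rt F ⌊(t + u it * q) * J⌋₊ ω) -
          gG G ω iK (v + 1) (some (c v))| ≤
          2 ^ ⌊y * q * J⌋₊ * 2 ^ g₀ iK v / 2 ^ g₀ iK (v + 1)) ∧
        ∀ k ≤ N₁, ((e k : ℝ) ≤ (Eb + y' * q) * J ∧ (h k : ℝ) ≤ y' * q * J) ∧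
          (L (v + 1) (t + A' * q) (t + u k * q) * J - y' * q * J ≤ pp k ∧
            (pp k : ℝ) ≤ L (v + 1) (t + A' * q) (t + u k * q) * J) ∧
          (∀ l ≤ v + 1, |(g₀ k l : ℝ) - L l (t + u k * q) (t + u k * q) * J| ≤ y' * q * J ∧
            |(g k l : ℝ) - L l (t + u k * q) (t + u k * q) * J| ≤ y' * q * J) ∧
          ∀ l < v + 1, Sc l → |(gT k l : ℝ) - L l (t + A' * q) (t + u k * q) * J| ≤
            y' * q * J) := by
  obtain ⟨D₀, hD₀, hcev⟩ := Pool.D2R.RecQ.cevx m (v + 1) S₀ (by omega) (by omega) hS₀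
  obtain ⟨Cl, hCl, hlbs⟩ := lbsE_of m D₀ v
  refine ⟨D₀, hD₀, fun Dc hDc S₂ hSS => ?_⟩
  obtain ⟨D, hDD, hcev⟩ := hcev S₂ hSS
  refine ⟨D, hDD, fun Dr hDr => ?_⟩
  obtain ⟨CB, hCB, hcev⟩ := hcev Dr hDr
  obtain ⟨Cg, hCg, hgrd⟩ := grdA D (v + 1)
  obtain ⟨Ca, hCa, hmuA⟩ := mu_evA D (v + 1) (by omega)
  obtain ⟨Cb, hCb, hmuB⟩ := mu_evB D (v + 1) (by omega)
  intro Sl y gp hy hy8 hgp hs1 hs3 X Sm ξ qr μ vj κ₂ dW τ yp hX hyp hMu
  have hCgR : (1 : ℝ) ≤ Cg := by exact_mod_cast hCg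
  have hCaR : (1 : ℝ) ≤ Ca := by exact_mod_cast hCa
  have hCbR : (1 : ℝ) ≤ Cb := by exact_mod_cast hCb
  obtain ⟨μ', hμ'0, hμ'⟩ : ∃ μ' : ℝ, 0 < μ' ∧ (MuN v X Sl Sm ξ qr μ vj κ₂ dW τ → μ' ≤ μ) := by
    by_cases h : 0 < μ
    · exact ⟨μ, h, fun _ => le_rfl⟩
    · exact ⟨1, one_pos, fun h' => absurd h'.m0 h⟩
  obtain ⟨β, hβ⟩ : ∃ β : ℝ, β = 1 + ∑ l ∈ range (v + 2), |Sl l| := ⟨_, rfl⟩
  have hβ1 : ∀ l ≤ v + 1, |Sl l| ≤ β := by
    intro l hl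
    have := Finset.single_le_sum (f := fun l => |Sl l|) (fun _ _ => abs_nonneg _)
      (Finset.mem_range.2 (show l < v + 2 by omega))
    rw [hβ]
    linarith
  have hβ0 : 0 < β := by
    rw [hβ]
    have : 0 ≤ ∑ l ∈ range (v + 2), |Sl l| := Finset.sum_nonneg fun _ _ => abs_nonneg _
    linarith
  obtain ⟨y₂, hy₂⟩ : ∃ y₂ : ℝ, y₂ = min (y / (2 * (Ca + Cb + 1))) (μ' / (2 * Cg)) := ⟨_, rfl⟩
  have hy₂0 : 0 < y₂ := by
    rw [hy₂]
    exact lt_min (by positivity) (by positivity)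
  have hy₂a : (Ca + Cb + 1) * y₂ ≤ y / 2 := by
    have h1 : y₂ ≤ y / (2 * (Ca + Cb + 1)) := by rw [hy₂]; exact min_le_left _ _
    rw [le_div_iff₀ (by positivity)] at h1
    linarith
  have hy₂b : Cg * y₂ ≤ μ' / 2 := by
    have h1 : y₂ ≤ μ' / (2 * Cg) := by rw [hy₂]; exact min_le_right _ _
    rw [le_div_iff₀ (by positivity)] at h1
    linarith
  have hy₂y : y₂ ≤ y := by
    have : y₂ ≤ (Ca + Cb + 1) * y₂ := le_mul_of_one_le_left hy₂0.le (by linarith)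
    linarith
  obtain ⟨y', hy'⟩ : ∃ y' : ℝ, y' = min (y₂ / 8) yp := ⟨_, rfl⟩
  have hy'0 : 0 < y' := by
    rw [hy']
    exact lt_min (by positivity) hyp
  have hy'a : y' ≤ y₂ / 8 := by rw [hy']; exact min_le_left _ _
  have hy'b : y' ≤ yp := by rw [hy']; exact min_le_right _ _
  obtain ⟨n₀, s, ε₀, y₁, hn₀, hs, hns, hε₀, hy₁, hCBy, hcev⟩ :=
    hcev Sl y' gp hy'0 (by linarith) hgp hs1 hs3
  have hy₁y : y₁ ≤ y' := (le_mul_of_one_le_left hy₁.le hCB).trans hCBy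
  obtain ⟨p, hp⟩ := exists_nat_ge (max (16 * β / y₂) (1 / gp))
  have hp1 : 16 * β ≤ y₂ * p := by
    have h1 := (le_max_left _ _).trans hp
    rw [div_le_iff₀ hy₂0] at h1
    linarith
  have hpR : (0 : ℝ) < p := by
    by_contra hcon
    have : y₂ * (p : ℝ) ≤ 0 := mul_nonpos_of_nonneg_of_nonpos hy₂0.le (not_lt.1 hcon)
    linarith
  have hp0 : 1 ≤ p := by
    have : 0 < p := by exact_mod_cast hpR
    omega
  have hpg : 1 / (p : ℝ) ≤ gp := by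
    have h1 := (le_max_right _ _).trans hp
    rw [div_le_iff₀ hgp] at h1
    rw [div_le_iff₀ hpR]
    linarith
  refine ⟨n₀, p, s, min ε₀ (y₂ / 16), y', hn₀, hp0, hs, hns, lt_min hε₀ (by positivity), hy'0,
    by linarith, ?_⟩
  intro S P P₂ θ θ₂ c Pt L T kd N A V N' V' Eb e₂ K ε q t R hε hεε hK A' N₁ it iK u Sc hAK hit hiK
    hut huK hub hXA hmn huc hxt hch hSc pl sl ι k₁ hpl hG
  have hεa : ε ≤ ε₀ := hεε.trans (min_le_left _ _)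
  have hεb : 16 * ε ≤ y₂ := by
    have := hεε.trans (min_le_right _ _)
    linarith
  have hq := R.q0
  have ht0 := R.t0
  have ht1 := R.t1
  obtain ⟨N₃, hN₃⟩ : ∃ N₃, N₃ = N₁ + 1 + (X + 1) * p := ⟨_, rfl⟩
  have hXR : (1 : ℝ) ≤ X := by exact_mod_cast hX
  have hcs : ∀ k ≤ N₃, k ≤ N₁ ∨ ∃ j ≤ (X + 1) * p, k = N₁ + 1 + j := fun k hk => by
    rcases Nat.lt_or_ge N₁ k with h | h
    · exact Or.inr ⟨k - (N₁ + 1), by omega, by omega⟩
    · exact Or.inl h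
  have hchb : ∀ k ≤ (X + 1) * p, -1 ≤ (-1 + k / p : ℝ) ∧ (-1 + k / p : ℝ) ≤ X := fun k hk => by
    have h1 : (0 : ℝ) ≤ k / p := by positivity
    have h2 : (k : ℝ) / p ≤ X + 1 := by
      rw [div_le_iff₀ hpR]
      have : (k : ℝ) ≤ ((X + 1) * p : ℕ) := by exact_mod_cast hk
      push_cast at this
      exact this
    constructor <;> linarith
  have hvb : ∀ k ≤ N₃, -K + 1 ≤ u k ∧ u k + gp ≤ A' := by
    intro k hk
    rcases hcs k hk with h | ⟨j, hj, rfl⟩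
    · exact hub k h
    · rw [huc j hj]
      have := hchb j hj
      constructor <;> linarith
  obtain ⟨r', hr'⟩ : ∃ r' : ℝ, r' = 1 / p / 2 := ⟨_, rfl⟩
  have hr'0 : 0 < r' := by rw [hr']; positivity
  obtain ⟨K₁, hK₁, hcev⟩ := hcev R hε hεa (by linarith) A' r' N₁ N₃ N₃ u Sc hAK hr'0 (by omega)
    hvb hmn (fun k h1 h2 => by
      rcases hcs k h2 with h | ⟨j, hj, rfl⟩
      · omega
      · rw [huc j hj]
        exact hxt j hj) hch hSc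
  refine ⟨4 * K₁, by positivity, fun κ hκ => ?_⟩
  have hB1 := hcev (κ / 4) (by positivity)
  -- the times
  obtain ⟨d, hd⟩ : ∃ d : ℝ, d = 1 - t := ⟨_, rfl⟩
  have hKq : 2 * q ≤ K * q := mul_le_mul_of_nonneg_right hK hq.le
  have hd0 : 0 < d := by rw [hd]; linarith
  have hd1 : d ≤ 1 := by rw [hd]; linarith
  have hL2 : 0 < Real.log 2 := Real.log_pos one_lt_two
  obtain ⟨ε₁, hε₁⟩ : ∃ ε₁ : ℝ, ε₁ = d * Real.log 2 / (2 * Cl) := ⟨_, rfl⟩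
  have hCl0 : 0 < Cl := by linarith
  have hε₁0 : 0 < ε₁ := by rw [hε₁]; positivity
  have hε₁1 : Cl * ε₁ ≤ d * Real.log 2 / 2 := by
    rw [hε₁]
    exact le_of_eq (by field_simp)
  have htm := bas_ev (R.tmh.2 ε₁ hε₁0) (κ := 1 / K₁) (by positivity)
  have hpos : Bas S (fun _ F A => 0 < Pe F.p A) := ⟨1, one_pos, 0, fun J _ F A hA =>
    R.tmh.1 1 J F A hA⟩
  have hGb : Bas S (fun J F A₀ => Sl (v + 1) ≤ Sl v ∨ ∀ B : F.Ω → Prop, Sub B A₀ →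
      1 / (2 * K₁) * Pe F.p A₀ ≤ Pe F.p B → ∀ (ks nn : ℕ) (gm : ℕ → ℕ)
      (G : ℕ → PtT F → ℕ → MvPolynomial (Option (Fin m)) ℝ)
      (H : LnT F → ℕ → MvPolynomial (Option (Fin m)) ℝ) (U : ℝ),
      LbsE F c v Dc (t - q) pl sl 1 gm B (G 0) H → ClU F (v + 2) ks ⌊(t + vj * q) * J⌋₊ B G →
      ClU F (v + 2) nn ⌊(t + X * q) * J⌋₊ B G → ks ≤ nn →
      GrdE F c 0 (v + 1) ks nn ⌊qr * q * J⌋₊ ⌊ξ * q * J⌋₊ gm U B G →
      U ≤ 2 ^ (μ * q / 2 * J) →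
      ∃ W : ℕ, ⌊(t - q) * J⌋₊ ≤ W ∧ (W : ℝ) ≤ (t - q + dW * q) * J ∧
        ∃ mu : LnT F → Polynomial ℝ, (∀ s, (mu s).natDegree ≤ Dc + 1) ∧
        Pb (Pool.Agent.H49.Ent.cond F.p B True) (fun ω => (2 : ℝ) ^ (-(κ₂ * ⌊ξ * q * J⌋₊)) <
          |gnh F c (v + 1) gm (G 0) (G nn) ω v -
            (mu (slam F W ω)).eval (rt F W ω)|) ≤ 1 / 2) := by
    rcases hG with hG | hG
    · exact ⟨1, one_pos, 0, fun _ _ _ _ _ => Or.inl hG⟩
    · refine Bas.mono 0 (bas_ev (hG 1) (κ := 1 / (2 * K₁)) (by positivity)) ?_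
      intro J _ F A₀ h
      refine Or.inr fun B b1 b2 ks nn gm G H U c1 c2 c3 c4 c5 c6 => ?_
      obtain ⟨W, w1, w2, mu, w3, -, w4⟩ := h B b1 b2 ks nn gm G H U c1 c2 c3 c4 c5 c6
      exact ⟨W, w1, w2, mu, w3, w4⟩
  -- large J
  obtain ⟨n, hn⟩ : ∃ n, n = (X + 1) * p := ⟨_, rfl⟩
  have hyq : 0 < y₂ * q := mul_pos hy₂0 hq
  obtain ⟨τ', hτ'0, hτ'⟩ : ∃ τ' : ℝ, 0 < τ' ∧ (MuN v X Sl Sm ξ qr μ vj κ₂ dW τ → τ' ≤ τ) := by
    by_cases h : 0 < τ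
    · exact ⟨τ, h, fun _ => le_rfl⟩
    · exact ⟨1, one_pos, fun h' => absurd h'.t0 h⟩
  obtain ⟨J₁, hJ₁⟩ := exists_nat_ge ((8 + n + 8 * |κ₂|) / (y₂ * q))
  obtain ⟨J₂, hJ₂⟩ := exists_nat_ge (4 / (τ' * q))
  obtain ⟨J₃, hJ₃⟩ := exists_nat_ge (1 / (r' * q))
  obtain ⟨J₄, hJ₄⟩ := exists_nat_ge (4 * Cl / (d * Real.log 2))
  refine Bas.mono (max (max J₁ J₂) (max J₃ J₄)) (((hB1.and htm).and hpos).and hGb) ?_
  rintro J hJ F A₀ ⟨⟨⟨hA1, hA2⟩, hA0⟩, hA3⟩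
  have hJ0 : (0 : ℝ) ≤ J := Nat.cast_nonneg J
  have hJa : 8 + n + 8 * |κ₂| ≤ y₂ * (q * J) := by
    have h1 : (J₁ : ℝ) ≤ J := by
      exact_mod_cast ((le_max_left _ _).trans (le_max_left _ _)).trans hJ
    have h2 := hJ₁.trans h1
    rw [div_le_iff₀ hyq] at h2
    linarith
  have hJb : 4 ≤ τ' * (q * J) := by
    have h1 : (J₂ : ℝ) ≤ J := by
      exact_mod_cast ((le_max_right _ _).trans (le_max_left _ _)).trans hJ
    have h2 := hJ₂.trans h1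
    rw [div_le_iff₀ (mul_pos hτ'0 hq)] at h2
    linarith
  have hJc : 1 ≤ r' * (q * J) := by
    have h1 : (J₃ : ℝ) ≤ J := by
      exact_mod_cast ((le_max_left _ _).trans (le_max_right _ _)).trans hJ
    have h2 := hJ₃.trans h1
    rw [div_le_iff₀ (mul_pos hr'0 hq)] at h2
    linarith
  have hJd : 4 * Cl ≤ d * Real.log 2 * J := by
    have h1 : (J₄ : ℝ) ≤ J := by
      exact_mod_cast ((le_max_right _ _).trans (le_max_right _ _)).trans hJ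
    have h2 := hJ₄.trans h1
    rw [div_le_iff₀ (by positivity)] at h2
    linarith
  have hκa : 0 ≤ |κ₂| := abs_nonneg _
  have hn0 : (0 : ℝ) ≤ n := Nat.cast_nonneg n
  obtain ⟨Y, hY⟩ : ∃ Y : ℕ, Y = ⌊y₂ * (q * J)⌋₊ := ⟨_, rfl⟩
  have hYl : y₂ * (q * J) - 1 ≤ Y := by
    rw [hY]
    linarith [Nat.lt_floor_add_one (y₂ * (q * J))]
  have hYu : (Y : ℝ) ≤ y₂ * (q * J) := by
    rw [hY]
    exact Nat.floor_le (by positivity)
  have hnY : (((X + 1) * p : ℕ) : ℝ) ≤ 2 ^ Y := by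
    rw [← hn]
    have h1 : n ≤ Y := by
      have : (n : ℝ) ≤ Y := by linarith
      exact_mod_cast this
    calc (n : ℝ) ≤ ((2 ^ n : ℕ) : ℝ) := by exact_mod_cast Nat.lt_two_pow_self.le
      _ = 2 ^ n := by push_cast; ring
      _ ≤ 2 ^ Y := pow_le_pow_right₀ (by norm_num) h1
  have hmulq : ∀ {x y : ℝ}, x ≤ y → x * q ≤ y * q := fun h => mul_le_mul_of_nonneg_right h hq.le
  have hmulJ : ∀ {x y : ℝ}, x ≤ y → x * (J : ℝ) ≤ y * J := fun h =>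
    mul_le_mul_of_nonneg_right h hJ0
  -- the radii
  obtain ⟨z, hz⟩ : ∃ z : ℕ → ℕ → ℕ, z = fun k k' => if u k + 1 / p ≤ u k' ∧ k' ≤ N₃ then
      ⌊(t + u k' * q) * J⌋₊ - ⌊(t + u k * q) * J⌋₊ else
      ⌊(t + A' * q) * J⌋₊ - ⌊(t + u k * q) * J⌋₊ := ⟨_, rfl⟩
  have hpos' : ∀ k ≤ N₃, 0 ≤ t + u k * q := fun k hk => by
    have := hmulq (show -K ≤ u k by linarith [(hvb k hk).1])
    linarith
  have hflo : ∀ x y : ℝ, 0 ≤ t + x * q → x + 1 / p ≤ y →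
      r' * q * J ≤ ((⌊(t + y * q) * J⌋₊ - ⌊(t + x * q) * J⌋₊ : ℕ) : ℝ) := by
    intro x y hx hxy
    have h1 : (⌊(t + x * q) * J⌋₊ : ℝ) ≤ (t + x * q) * J := Nat.floor_le (mul_nonneg hx hJ0)
    have h2 := (Nat.lt_floor_add_one ((t + y * q) * (J : ℝ))).le
    have hpp : (0 : ℝ) < 1 / p := by positivity
    have h3 : ⌊(t + x * q) * J⌋₊ ≤ ⌊(t + y * q) * J⌋₊ :=
      Nat.floor_le_floor (hmulJ (by linarith [hmulq (show x ≤ y by linarith)]))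
    rw [Nat.cast_sub h3]
    have h4 : (x + 1 / p) * q * J ≤ y * q * J := hmulJ (hmulq hxy)
    have h5 : 1 / (p : ℝ) = 2 * r' := by rw [hr']; ring
    rw [h5] at h4
    have h6 : (x + 2 * r') * q * J = x * q * J + 2 * (r' * (q * J)) := by ring
    have h7 : r' * q * J = r' * (q * J) := by ring
    rw [h6] at h4
    rw [h7]
    linarith
  have hz1 : ∀ k ≤ N₃, ∀ k' ≤ N₃, r' * q * J ≤ z k k' ∧
      z k k' ≤ ⌊(t + A' * q) * J⌋₊ - ⌊(t + u k * q) * J⌋₊ := by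
    intro k hk k' hk'
    rw [hz]
    beta_reduce
    split_ifs with h1
    · refine ⟨hflo _ _ (hpos' k hk) h1.1, Nat.sub_le_sub_right (Nat.floor_le_floor
        (hmulJ ?_)) _⟩
      have := hmulq (show u k' ≤ A' by linarith [(hvb k' hk').2])
      linarith
    · exact ⟨hflo _ _ (hpos' k hk) (by linarith [(hvb k hk).2]), le_rfl⟩
  have hz2 : ∀ k ≤ N₃, ∀ k' ≤ N₃, u k + 1 / p ≤ u k' → z k k' = ⌊(t + u k' * q) * J⌋₊ -
      ⌊(t + u k * q) * J⌋₊ := fun k _ k' hk' h => by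
    rw [hz]
    exact if_pos ⟨h, hk'⟩
  obtain ⟨B, e, h, pp, b, g, gc, gT, g₀, G, H, Th, TH, Gt, Ht, hBA, hBP, E, W, hE0, hnum⟩ :=
    hA1 z hz1
  have hpn := Pe_nonneg F.isLaw
  have hB0 : 0 < Pe F.p B := by
    by_contra hcon
    have h2 : Pe F.p B = 0 := le_antisymm (not_lt.1 hcon) (hpn _)
    rw [h2, mul_zero] at hBP
    linarith
  have hAJ : ⌊(t + A' * q) * J⌋₊ ≤ J := E.AJ
  have htJ : ⌊t * (J : ℝ)⌋₊ ≤ J := by
    have h1 : ⌊t * (J : ℝ)⌋₊ ≤ ⌊(1 : ℝ) * J⌋₊ := Nat.floor_le_floor (hmulJ (by linarith))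
    rwa [one_mul, Nat.floor_natCast] at h1
  have hut' : ⌊(t + u it * q) * (J : ℝ)⌋₊ = ⌊t * (J : ℝ)⌋₊ := by
    rw [hut, zero_mul, add_zero]
  have hCBy' : 4 * (CB * y₁) ≤ y₂ := by linarith
  have hy₁8 : 8 * y₁ ≤ y₂ := by linarith
  have hy₂8 : 8 ≤ y₂ * (q * J) := by linarith
  -- the final bound
  have hfin : ∀ C : ℕ, C ≤ Ca + Cb → (2 : ℝ) ^ (C * Y) ≤ 2 ^ ⌊y * q * J⌋₊ := by
    intro C hC
    refine pow_le_pow_right₀ (by norm_num) (Nat.le_floor ?_)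
    push_cast
    have h1 : (C : ℝ) ≤ Ca + Cb := by exact_mod_cast hC
    have h2 : (C : ℝ) * Y ≤ (Ca + Cb) * (y₂ * (q * J)) :=
      mul_le_mul h1 hYu (Nat.cast_nonneg _) (by linarith)
    have h3 := mul_le_mul_of_nonneg_right hy₂a (show 0 ≤ q * (J : ℝ) by positivity)
    have h4 : 0 ≤ y * (q * J) := by positivity
    have h5 : y * q * J = y * (q * J) := by ring
    have h6 : (Ca + Cb + 1) * y₂ * (q * J) = (Ca + Cb) * (y₂ * (q * J)) + y₂ * (q * J) := by ring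
    rw [h5]
    linarith
  have hnat : ∀ {C : ℕ} {x : ℝ}, C ≤ Ca + Cb →
      x ≤ 2 ^ (C * Y) * (2 ^ g₀ iK v / 2 ^ g₀ iK (v + 1)) →
      x ≤ 2 ^ ⌊y * q * J⌋₊ * 2 ^ g₀ iK v / 2 ^ g₀ iK (v + 1) := by
    intro C x hC hx
    refine hx.trans ?_
    rw [mul_div_assoc]
    exact mul_le_mul_of_nonneg_right (hfin C hC) (by positivity)
  by_cases hcs' : Sl (v + 1) ≤ Sl v
  · -- the steep case
    refine ⟨N₃, z, B, e, h, pp, g, gc, gT, g₀, G, H, Th, TH, Gt, Ht,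
      fun s => kpol c ⌊(t + u it * q) * J⌋₊ (fun s => H it s (v + 1)) s v, hBA, ?_, ?_,
      ⟨by omega, fun k hk k' hk' h9 => hz2 k (by omega) k' (by omega) h9⟩, ?_, ?_, hnum⟩
    · have := mul_nonneg hK₁.le (hpn B)
      linarith
    · have := E.sb (B' := B) (κ₁ := 1) (κ₂ := κ) (fun _ h => h) (by rw [one_mul]) hκ.le (by linarith)
      exact this
    · intro s
      exact (kpol_deg c _ (fun s => (W.ev it (by omega)).ball.degH s (v + 1)) s v).trans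
        (by omega)
    · intro ω hω
      exact hnat (C := Cb) (by omega) (hmuB R W hp0 hX hN₃ hit hiK hut huK huc (by linarith) hz2 hε hY
        hCBy' hy₁8 hεb hp1 hy₂8 hnY hβ1 hcs' (by rw [hut']; exact htJ) ω hω)
  · -- the critical case
    have MU : MuN v X Sl Sm ξ qr μ vj κ₂ dW τ := hMu.resolve_left hcs'
    have hA3' := hA3.resolve_left hcs'
    have hX2 := MU.X2
    have huw : u (N₁ + 1) = -1 := by
      have := huc 0 (Nat.zero_le _)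
      rw [add_zero, Nat.cast_zero, zero_div, add_zero] at this
      exact this
    have hwq : t + u (N₁ + 1) * q = t - q := by rw [huw]; ring
    have hev := hE0 (N₁ + 1) (by omega) (by omega)
    beta_reduce at hev
    rw [hwq] at hev
    -- the coefficient bounds
    obtain ⟨r1, r2⟩ := rem_num (J := J) hCl hd1 hε₁1 hJd
    have hwJ : (⌊(t - q) * (J : ℝ)⌋₊ : ℝ) ≤ (t - q) * J := Nat.floor_le (by
      have : 0 ≤ t - q := by linarith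
      positivity)
    have hwJ' : ⌊(t - q) * (J : ℝ)⌋₊ ≤ J := le_trans (Nat.floor_le_floor (hmulJ (by linarith)))
      htJ
    have hqJ : 0 ≤ q * (J : ℝ) := by positivity
    obtain ⟨B₁, b1, b2, b3⟩ := hlbs (K := Dc) (E := 1) (p := pl) (s := sl) hB0 hev hDc hwJ'
      (θ := ε₁ * J) (by positivity) (hA2 B hBA (by
        rw [div_mul_eq_mul_div, one_mul, div_le_iff₀ hK₁]
        linarith) hB0) (by
        refine r1.trans (mul_le_mul_of_nonneg_right ?_ hL2.le)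
        rw [hd]
        linarith) r2 (fun l hl => by
        have h1 := (W.sds (N₁ + 1) (by omega) l hl).1
        rw [hwq] at h1
        refine Nat.floor_le_of_le (le_trans (hmulJ ?_) h1)
        have h2 := (hpl l hl).1
        have h3 := hmulq (show y₁ ≤ yp by linarith)
        linarith) (fun l hl => by
        have h1 := (W.sds (N₁ + 1) (by omega) l hl).2
        rw [hwq] at h1
        exact h1.trans (hmulJ (hpl l hl).2))
    have hB₁0 : 0 < Pe F.p B₁ := by linarith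
    -- the chain
    obtain ⟨f, hf⟩ : ∃ f : ℕ → ℕ, f = fun k => N₁ + 1 + k := ⟨_, rfl⟩
    have hfk : ∀ k, f k = N₁ + 1 + k := fun k => by rw [hf]
    have hf0 : f 0 = N₁ + 1 := hfk 0
    have ch : ChF u N₃ n p (-1) K f := by
      refine ⟨hp0, fun k hk => by rw [hfk]; omega, fun k hk => by rw [hfk, huc k (by omega)],
        fun k hk => ?_⟩
      rw [hfk, huc k (by omega)]
      have h1 := hchb k (by omega)
      have h2 : (X : ℝ) ≤ K := by linarith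
      rw [abs_le]
      constructor <;> linarith
    obtain ⟨ks, hks⟩ : ∃ ks : ℕ, ks = ⌊(vj + 1) * p⌋₊ := ⟨_, rfl⟩
    have hj0 := MU.j0
    have hj1 := MU.j1
    have hksu : (ks : ℝ) ≤ (vj + 1) * p := by
      rw [hks]
      exact Nat.floor_le (mul_nonneg (by linarith) hpR.le)
    have hksl : (vj + 1) * p - 1 ≤ ks := by
      rw [hks]
      linarith [Nat.lt_floor_add_one ((vj + 1) * (p : ℝ))]
    have hksn : ks ≤ n := by
      have h1 : (vj + 1) * (p : ℝ) ≤ (X + 1) * p := mul_le_mul_of_nonneg_right (by linarith) hpR.le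
      have h2 : (ks : ℝ) ≤ n := by
        rw [hn]
        push_cast
        linarith
      exact_mod_cast h2
    have hnp : (n : ℝ) / p = X + 1 := by
      rw [hn]
      push_cast
      field_simp
    have hSb0 : 0 ≤ Sl (v + 1) - Sm := by linarith [MU.sb]
    have hSbβ : Sl (v + 1) - Sm ≤ β := by
      have := (abs_le.1 (hβ1 (v + 1) le_rfl)).2
      linarith [MU.Sm0]
    have hgr := hgrd R W (f := f) (n := n) (p := p) (ks := ks) (Y := Y) (β := β) (Sm := Sm)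
      (qr := qr) (ξ := ξ) (τ := τ) ch (fun k hk => hz2 _ (ch.fN k hk.le) _ (ch.fN (k + 1) hk)
        (ch.le hk).le) hε hY hCBy' hεb hp1 hy₂8 (by rw [hn]; exact hnY) hβ1 MU.Sm0 MU.sb
      (fun l hl => MU.sm l (by omega)) hksn (by rw [hnp]; exact MU.q1) (by rw [hnp]; exact MU.q2)
      MU.x0 MU.x1 (by
        have h1 : (vj + 1) - 1 / p ≤ ks / p := by
          rw [le_div_iff₀ hpR]
          have : (vj + 1 - 1 / p) * p = (vj + 1) * p - 1 := by field_simp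
          linarith
        have h2 := mul_le_mul_of_nonneg_left h1 hSb0
        have h3 : (Sl (v + 1) - Sm) * (vj + 1 - 1 / p) = (Sl (v + 1) - Sm) * (vj + 1) -
          (Sl (v + 1) - Sm) * (1 / p) := by ring
        have h4 : (Sl (v + 1) - Sm) * (1 / p) ≤ β * (1 / p) :=
          mul_le_mul_of_nonneg_right hSbβ (by positivity)
        have h5 : β * (1 / p) = β / p := by ring
        have h6 : 0 ≤ β / p := by positivity
        linarith [MU.j2]) (by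
        have := mul_le_mul_of_nonneg_right (hτ' MU) hqJ
        linarith)
    have hgr' : GrdE F c 0 (v + 1) ks n ⌊qr * q * J⌋₊ ⌊ξ * q * J⌋₊ (g₀ (f 0)) (2 ^ (Cg * Y)) B₁
        (fun k => G (f k)) :=
      ⟨hgr.U0, fun ω hω => hgr.bm ω (b1 ω hω), fun ω ν hω hν => hgr.bj ω ν (b1 ω hω) (b1 ν hν),
        fun ω ν hω hν => hgr.bx ω ν (b1 ω hω) (b1 ν hν),
        fun ω ν hω hν => hgr.nx ω ν (b1 ω hω) (b1 ν hν)⟩
    have hcl : ∀ (kk : ℕ) (x : ℝ), kk ≤ n → (kk : ℝ) / p ≤ x + 1 →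
        ClU F (v + 2) kk ⌊(t + x * q) * J⌋₊ B₁ (fun k => G (f k)) := by
      intro kk x hkk hx k hk
      refine ⟨⌊(t + u (f k) * q) * J⌋₊, H (f k), Nat.floor_le_floor (hmulJ ?_), fun ω hω l hl =>
        (W.ev (f k) (ch.fN k (hk.trans hkk))).cls ω (b1 ω hω) l (by omega)⟩
      have h1 : u (f k) ≤ x := by
        rw [ch.fu k (hk.trans hkk)]
        have : (k : ℝ) / p ≤ kk / p := div_le_div_of_nonneg_right (by exact_mod_cast hk) hpR.le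
        linarith
      linarith [hmulq h1]
    obtain ⟨Wm, w1, w2, mu, w3, w4⟩ := hA3' B₁ (fun ω hω => hBA ω (b1 ω hω)) (by
        rw [div_mul_eq_mul_div, one_mul, div_le_iff₀ (by positivity)]
        have h1 := mul_le_mul_of_nonneg_left b2 hK₁.le
        linarith) ks n (g₀ (N₁ + 1)) (fun k => G (f k)) (H (N₁ + 1)) (2 ^ (Cg * Y)) (by
        rw [hf0]
        exact b3) (hcl ks vj hksn (by
        rw [div_le_iff₀ hpR]
        exact hksu)) (hcl n X le_rfl (by rw [hnp])) hksn (by rw [← hf0]; exact hgr') (by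
        rw [← Real.rpow_natCast]
        refine Real.rpow_le_rpow_of_exponent_le one_le_two ?_
        push_cast
        have h1 : (Cg : ℝ) * Y ≤ Cg * (y₂ * (q * J)) := mul_le_mul_of_nonneg_left hYu (by linarith)
        have h2 := mul_le_mul_of_nonneg_right hy₂b hqJ
        have h3 := mul_le_mul_of_nonneg_right (hμ' MU) hqJ
        have h4 : μ * q / 2 * J = μ * (q * J) / 2 := by ring
        rw [h4]
        linarith)
    have hgh := good_half F.isLaw hB₁0 w4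
    obtain ⟨B₂, hB₂⟩ : ∃ B₂ : F.Ω → Prop, B₂ = fun ω => B₁ ω ∧
        |gnh F c (v + 1) (g₀ (N₁ + 1)) (G (f 0)) (G (f n)) ω v -
          (mu (slam F Wm ω)).eval (rt F Wm ω)| ≤ (2 : ℝ) ^ (-(κ₂ * ⌊ξ * q * J⌋₊)) := ⟨_, rfl⟩
    have hP2 : Pe F.p B₁ / 2 ≤ Pe F.p B₂ := by
      rw [hB₂]
      exact hgh
    have s1 : Sub B₂ B₁ := fun ω hω => by
      rw [hB₂] at hω
      exact hω.1
    have s2 : Sub B₂ B := fun ω hω => b1 ω (s1 ω hω)
    have hWt : Wm ≤ ⌊t * (J : ℝ)⌋₊ := by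
      refine Nat.le_floor (w2.trans (hmulJ ?_))
      have := hmulq MU.d1
      linarith
    have hmuE := hmuA R W (N₁ := N₁) (X := X) (iK := iK) (W := Wm) hp0 hX2 hN₃ hiK huK huc
      (by linarith) hz2 hε hY hCBy' hy₁8 hεb hp1 hy₂8 hnY hβ1 (show Sl (v + 1 - 1) ≤ Sl (v + 1) by
        rw [Nat.add_sub_cancel]
        linarith) MU.k0 (by
        have := le_abs_self κ₂
        linarith) MU.x0 (show (Sl (v + 1) - Sl (v + 1 - 1)) * 2 ≤ κ₂ * ξ by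
        rw [Nat.add_sub_cancel]
        exact MU.kx) htJ hWt mu B₂ s2 (fun ω hω => by
        rw [hB₂] at hω
        have h1 := hω.2
        rw [hf0, hfk, hn] at h1
        rw [Nat.add_sub_cancel]
        exact h1)
    refine ⟨N₃, z, B₂, e, h, pp, g, gc, gT, g₀, G, H, Th, TH, Gt, Ht,
      fun s => muC c ⌊t * J⌋₊ Wm ⌊(t + u (N₁ + 1) * q) * J⌋₊ (v + 1) (g₀ (N₁ + 1)) mu
        (H (N₁ + 1)) s, fun ω hω => hBA ω (s2 ω hω), ?_, ?_,
      ⟨by omega, fun k hk k' hk' h9 => hz2 k (by omega) k' (by omega) h9⟩, ?_, ?_, hnum⟩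
    · have h1 := mul_le_mul_of_nonneg_left (show Pe F.p B ≤ 4 * Pe F.p B₂ by linarith) hK₁.le
      linarith
    · exact E.sb (B' := B₂) (κ₁ := 1 / 4) (κ₂ := κ) s2 (by linarith) hκ.le (by linarith)
    · intro s
      exact (muC_deg w3 (fun s => (W.ev (N₁ + 1) (by omega)).ball.degH s (v + 1)) s).trans
        (max_le (by omega) (by omega))
    · intro ω hω
      rw [hut']
      exact hnat (C := Ca) (by omega) (hmuE ω hω)

end Pool.TN
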