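import Pool.Agent.H2.GEN.ChS

/-!
# The natural components of a covector

`nat_cov`: a covector on the time and on the coordinates `c l`, `l < r`, in the coframe given by
the time and by the heights over the labels `ψ j`, `j < r`. Its components are polynomials of
bounded degree. `box_nat`: the components of the gradient of a polynomial which is bounded on a
natural box are bounded at the centre.
-/

set_option autoImplicit false

namespace Pool.D2R

open Finset Real MvPolynomial
open Pool.GEN Pool.CHT

variable {m : ℕ}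

/-- A polynomial which does not depend on a coordinate has no derivative in its direction. -/
theorem pd_zero {c : ℕ → Fin m} {i : ℕ} {G : MvPolynomial (Option (Fin m)) ℝ} (h : DepC c i G)
    {k : Fin m} (hk : ∀ l < i, c l ≠ k) (b : Option (Fin m) → ℝ) :
    eval b (pderiv (some k) G) = 0 := by
  classical
  refine pderiv_dep G (some k) (fun b b' hb => h b b' (hb _ (by simp)) fun l hl => hb _ ?_) b
  exact fun h' => hk l hl (Option.some_injective _ h')

/-- The derivatives of a polynomial which only depends on the time and on the coordinates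
`c l`. -/
theorem depC_pderiv {c : ℕ → Fin m} {i : ℕ} {G : MvPolynomial (Option (Fin m)) ℝ}
    (h : DepC c i G) (o : Option (Fin m)) : DepC c i (pderiv o G) := by
  classical
  intro b b' hn hb
  obtain ⟨g, hg⟩ : ∃ g : (Option (Fin m) → ℝ) → Option (Fin m) → Polynomial ℝ, g = fun b j =>
      Polynomial.C (b j) + Polynomial.C (if j = o then 1 else 0) * Polynomial.X :=
    ⟨_, rfl⟩
  have hge : ∀ (b : Option (Fin m) → ℝ) (Q : MvPolynomial (Option (Fin m)) ℝ) (t : ℝ),
      (MvPolynomial.aeval (g b) Q).eval t =
        MvPolynomial.eval (fun j => b j + (if j = o then 1 else 0) * t) Q := by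
    intro b Q t
    rw [Pool.KBX.eval_aeval_poly]
    congr 1
    congr 1
    funext j
    rw [hg]
    simp only [Polynomial.eval_add, Polynomial.eval_mul, Polynomial.eval_C, Polynomial.eval_X]
  have hd : ∀ b : Option (Fin m) → ℝ,
      (Polynomial.derivative (MvPolynomial.aeval (g b) G)).eval 0 = eval b (pderiv o G) := by
    intro b
    rw [der_aevalσ, Polynomial.eval_finsetSum, Finset.sum_eq_single o]
    · rw [Polynomial.eval_mul, hge]
      rw [hg]
      simp
    · intro j _ hj
      rw [Polynomial.eval_mul, hg]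
      simp [hj]
    · intro h'
      exact absurd (Finset.mem_univ _) h'
  have e : MvPolynomial.aeval (g b) G = MvPolynomial.aeval (g b') G := by
    refine Polynomial.funext fun t => ?_
    rw [hge, hge]
    refine h _ _ ?_ fun k hk => ?_
    · rw [hn]
    · show b (some (c k)) + _ = b' (some (c k)) + _
      rw [hb k hk]
  rw [← hd, e, hd]

/-- The sum over the coordinates without one of them. -/
theorem sum_sub_one {f : Option (Fin m) → ℝ} (o₀ : Option (Fin m)) :
    ∑ o, f o = f o₀ + ∑ o, if o = o₀ then 0 else f o := by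
  classical
  rw [← Finset.add_sum_erase _ _ (Finset.mem_univ o₀)]
  congr 1
  rw [← Finset.add_sum_erase _ (fun o => if o = o₀ then 0 else f o) (Finset.mem_univ o₀),
    if_pos rfl, zero_add]
  exact Finset.sum_congr rfl fun o ho => (if_neg (Finset.ne_of_mem_erase ho)).symm

/-- **The natural components of a covector.** -/
theorem nat_cov {c : ℕ → Fin m} (K : ℕ) {ψ : ℕ → MvPolynomial (Option (Fin m)) ℝ}
    (hψ : ∀ l, (ψ l).totalDegree ≤ K) (hdep : ∀ l, DepC c l (ψ l)) : ∀ r : ℕ,
    Set.InjOn c (Set.Iio r) → ∀ (D : ℕ) (q : Option (Fin m) → MvPolynomial (Option (Fin m)) ℝ),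
    (∀ o, (q o).totalDegree ≤ D) →
    (∀ k, (∀ l < r, c l ≠ k) → ∀ b, eval b (q (some k)) = 0) →
    ∃ (n0 : MvPolynomial (Option (Fin m)) ℝ) (nj : ℕ → MvPolynomial (Option (Fin m)) ℝ),
      n0.totalDegree ≤ D + r * K ∧ (∀ j, (nj j).totalDegree ≤ D + r * K) ∧
      ∀ b W : Option (Fin m) → ℝ, ∑ o, eval b (q o) * W o = eval b n0 * W none +
        ∑ j ∈ range r, eval b (nj j) *
          (W (some (c j)) - ∑ o, eval b (pderiv o (ψ j)) * W o) := by
  classical
  intro r
  induction r with
  | zero =>
    intro _ D q hq hsup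
    refine ⟨q none, fun _ => 0, (hq _).trans (Nat.le_add_right _ _), fun _ => by
      rw [totalDegree_zero]; exact Nat.zero_le _, fun b W => ?_⟩
    rw [Finset.range_zero, Finset.sum_empty, add_zero, Fintype.sum_option]
    have : ∑ k, eval b (q (some k)) * W (some k) = 0 := Finset.sum_eq_zero fun k _ => by
      rw [hsup k (fun l hl => absurd hl (Nat.not_lt_zero l)) b, zero_mul]
    rw [this, add_zero]
  | succ r ih =>
    intro hc D q hq hsup
    obtain ⟨q', hq'⟩ : ∃ q' : Option (Fin m) → MvPolynomial (Option (Fin m)) ℝ, q' = fun o =>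
      if o = some (c r) then 0 else q o + q (some (c r)) * pderiv o (ψ r) := ⟨_, rfl⟩
    have hq'D : ∀ o, (q' o).totalDegree ≤ D + K := by
      intro o
      rw [hq']
      show (if o = some (c r) then (0 : MvPolynomial (Option (Fin m)) ℝ) else
        q o + q (some (c r)) * pderiv o (ψ r)).totalDegree ≤ D + K
      split_ifs
      · rw [totalDegree_zero]
        exact Nat.zero_le _
      · refine (totalDegree_add _ _).trans (max_le ((hq o).trans (Nat.le_add_right _ _)) ?_)
        refine (totalDegree_mul _ _).trans (Nat.add_le_add (hq _) ?_)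
        exact totalDegree_pdσ (hψ r) o
    have hsup' : ∀ k, (∀ l < r, c l ≠ k) → ∀ b, eval b (q' (some k)) = 0 := by
      intro k hk b
      rw [hq']
      show eval b (if some k = some (c r) then (0 : MvPolynomial (Option (Fin m)) ℝ) else
        q (some k) + q (some (c r)) * pderiv (some k) (ψ r)) = 0
      split_ifs with h1
      · exact map_zero _
      · rw [map_add, map_mul, pd_zero (hdep r) hk b, mul_zero, add_zero]
        refine hsup k (fun l hl => ?_) b
        rcases Nat.lt_or_ge l r with h2 | h2
        · exact hk l h2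
        · have : l = r := by omega
          subst this
          exact fun h => h1 (by rw [h])
    obtain ⟨n0, nj, k0, k2, k3⟩ := ih (hc.mono fun x hx => by
      rw [Set.mem_Iio] at hx ⊢
      omega) (D + K) q' hq'D hsup'
    have eD : D + K + r * K = D + (r + 1) * K := by ring
    rw [eD] at k0 k2
    refine ⟨n0, fun j => if j = r then q (some (c r)) else nj j, k0, fun j => ?_,
      fun b W => ?_⟩
    · show (if j = r then q (some (c r)) else nj j).totalDegree ≤ _
      split_ifs
      · exact (hq _).trans (Nat.le_add_right _ _)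
      · exact k2 j
    · rw [Finset.sum_range_succ]
      have e1 : ∑ j ∈ range r, eval b (if j = r then q (some (c r)) else nj j) *
          (W (some (c j)) - ∑ o, eval b (pderiv o (ψ j)) * W o) =
          ∑ j ∈ range r, eval b (nj j) *
          (W (some (c j)) - ∑ o, eval b (pderiv o (ψ j)) * W o) := by
        refine Finset.sum_congr rfl fun j hj => ?_
        rw [if_neg]
        rw [Finset.mem_range] at hj
        omega
      have e0 : (fun j => if j = r then q (some (c r)) else nj j) r = q (some (c r)) := if_pos rfl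
      rw [e1, e0]
      have e2 := k3 b W
      rw [← add_assoc, ← e2]
      have e3 : ∑ o, eval b (q o) * W o = eval b (q (some (c r))) * W (some (c r)) +
          ∑ o, if o = some (c r) then 0 else eval b (q o) * W o :=
        sum_sub_one (f := fun o => eval b (q o) * W o) (some (c r))
      have e4 : ∑ o, eval b (pderiv o (ψ r)) * W o =
          ∑ o, if o = some (c r) then 0 else eval b (pderiv o (ψ r)) * W o := by
        rw [sum_sub_one (f := fun o => eval b (pderiv o (ψ r)) * W o) (some (c r)),
          pd_zero (hdep r) (fun l hl h => by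
            have h1 := hc (show l < r + 1 by omega) (show r < r + 1 by omega) h
            omega) b, zero_mul, zero_add]
      have e5 : ∑ o, eval b (q' o) * W o =
          (∑ o, if o = some (c r) then 0 else eval b (q o) * W o) +
          eval b (q (some (c r))) * ∑ o, if o = some (c r) then 0 else
            eval b (pderiv o (ψ r)) * W o := by
        rw [Finset.mul_sum, ← Finset.sum_add_distrib]
        refine Finset.sum_congr rfl fun o _ => ?_
        rw [hq']
        show eval b (if o = some (c r) then (0 : MvPolynomial (Option (Fin m)) ℝ) else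
          q o + q (some (c r)) * pderiv o (ψ r)) * W o = _
        split_ifs
        · rw [map_zero]
          ring
        · rw [map_add, map_mul]
          ring
      rw [e3, e5, e4]
      ring

/-- The derivative of a polynomial which is bounded on the unit interval. -/
theorem der_one (K : ℕ) : ∃ C : ℝ, 1 ≤ C ∧ ∀ (q : Polynomial ℝ) (S : ℝ), q.natDegree ≤ K →
    (∀ t ∈ Set.Icc (0 : ℝ) 1, |q.eval t| ≤ S) → ∀ x : ℝ, |x| ≤ 1 →
      |q.derivative.eval x| ≤ C * S := by
  obtain ⟨C, hC, h⟩ := Pool.Agent.H40.FR.unit_coef K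
  obtain ⟨A, hA⟩ : ∃ A : ℝ, A = ∑ j ∈ range (K + 1), ((j : ℝ) + 1) := ⟨_, rfl⟩
  have hA0 : 0 ≤ A := by
    rw [hA]
    exact Finset.sum_nonneg fun j _ => by positivity
  refine ⟨C * A + 1, by nlinarith, ?_⟩
  intro q S hq hS x hx
  have hS0 : 0 ≤ S := (abs_nonneg _).trans (hS 0 ⟨le_rfl, by norm_num⟩)
  have h1 := h q S hq hS
  have hd : q.derivative.natDegree < K + 1 :=
    lt_of_le_of_lt ((Polynomial.natDegree_derivative_le q).trans (Nat.sub_le _ _)) (by omega)
  rw [Polynomial.eval_eq_sum_range' hd]
  refine (Finset.abs_sum_le_sum_abs _ _).trans ?_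
  have h2 : ∀ j ∈ range (K + 1), |q.derivative.coeff j * x ^ j| ≤ C * S * ((j : ℝ) + 1) := by
    intro j _
    rw [Polynomial.coeff_derivative, abs_mul, abs_mul, abs_pow]
    have h3 : |x| ^ j ≤ 1 := pow_le_one₀ (abs_nonneg _) hx
    have h4 : |(j : ℝ) + 1| = (j : ℝ) + 1 := abs_of_nonneg (by positivity)
    rw [h4]
    calc |q.coeff (j + 1)| * ((j : ℝ) + 1) * |x| ^ j ≤ C * S * ((j : ℝ) + 1) * 1 := by
          refine mul_le_mul (mul_le_mul_of_nonneg_right (h1 _) (by positivity)) h3
            (by positivity) (by positivity)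
      _ = _ := mul_one _
  refine (Finset.sum_le_sum h2).trans ?_
  rw [← Finset.mul_sum, ← hA]
  nlinarith

/-- The derivative in the direction `W`. -/
noncomputable def dd (R : MvPolynomial (Option (Fin m)) ℝ) (x W : Option (Fin m) → ℝ) : ℝ :=
  ∑ o, eval x (pderiv o R) * W o

/-- The second derivative in the directions `W` and `V`. -/
noncomputable def hs (R : MvPolynomial (Option (Fin m)) ℝ) (x W V : Option (Fin m) → ℝ) : ℝ :=
  ∑ o, dd (pderiv o R) x W * V o

theorem dd_add (R : MvPolynomial (Option (Fin m)) ℝ) (x W V : Option (Fin m) → ℝ) :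
    dd R x (W + V) = dd R x W + dd R x V := by
  unfold dd
  rw [← Finset.sum_add_distrib]
  exact Finset.sum_congr rfl fun o _ => by rw [Pi.add_apply]; ring

theorem dd_smul (R : MvPolynomial (Option (Fin m)) ℝ) (x W : Option (Fin m) → ℝ) (s : ℝ) :
    dd R x (s • W) = s * dd R x W := by
  unfold dd
  rw [Finset.mul_sum]
  exact Finset.sum_congr rfl fun o _ => by rw [Pi.smul_apply, smul_eq_mul]; ring

theorem dd_sub (R S : MvPolynomial (Option (Fin m)) ℝ) (x W : Option (Fin m) → ℝ) :
    dd (R - S) x W = dd R x W - dd S x W := by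
  unfold dd
  rw [← Finset.sum_sub_distrib]
  exact Finset.sum_congr rfl fun o _ => by rw [map_sub, map_sub]; ring

theorem dd_congr {c : ℕ → Fin m} {r : ℕ} {Q : MvPolynomial (Option (Fin m)) ℝ} (hQ : DepC c r Q)
    (x : Option (Fin m) → ℝ) {W V : Option (Fin m) → ℝ} (h0 : W none = V none)
    (h : ∀ l < r, W (some (c l)) = V (some (c l))) : dd Q x W = dd Q x V := by
  unfold dd
  refine Finset.sum_congr rfl fun o _ => ?_
  cases o with
  | none => rw [h0]
  | some k =>
    by_cases h9 : ∃ j < r, c j = k
    · obtain ⟨j, h10, rfl⟩ := h9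
      rw [h j h10]
    · rw [pd_zero hQ (fun j h10 h11 => h9 ⟨j, h10, h11⟩) x, zero_mul, zero_mul]

theorem hs_sub (R S : MvPolynomial (Option (Fin m)) ℝ) (x W V : Option (Fin m) → ℝ) :
    hs (R - S) x W V = hs R x W V - hs S x W V := by
  unfold hs
  rw [← Finset.sum_sub_distrib]
  refine Finset.sum_congr rfl fun o _ => ?_
  rw [map_sub, dd_sub]
  ring

theorem hs_add_left (R : MvPolynomial (Option (Fin m)) ℝ) (x W W' V : Option (Fin m) → ℝ) :
    hs R x (W + W') V = hs R x W V + hs R x W' V := by
  unfold hs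
  rw [← Finset.sum_add_distrib]
  exact Finset.sum_congr rfl fun o _ => by rw [dd_add]; ring

theorem hs_add_right (R : MvPolynomial (Option (Fin m)) ℝ) (x W V V' : Option (Fin m) → ℝ) :
    hs R x W (V + V') = hs R x W V + hs R x W V' := by
  unfold hs
  rw [← Finset.sum_add_distrib]
  exact Finset.sum_congr rfl fun o _ => by rw [Pi.add_apply]; ring

theorem hs_smul_left (R : MvPolynomial (Option (Fin m)) ℝ) (x W V : Option (Fin m) → ℝ) (s : ℝ) :
    hs R x (s • W) V = s * hs R x W V := by
  unfold hs
  rw [Finset.mul_sum]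
  exact Finset.sum_congr rfl fun o _ => by rw [dd_smul]; ring

theorem hs_smul_right (R : MvPolynomial (Option (Fin m)) ℝ) (x W V : Option (Fin m) → ℝ) (s : ℝ) :
    hs R x W (s • V) = s * hs R x W V := by
  unfold hs
  rw [Finset.mul_sum]
  exact Finset.sum_congr rfl fun o _ => by rw [Pi.smul_apply, smul_eq_mul]; ring

theorem pd_comm (o o' : Option (Fin m)) (R : MvPolynomial (Option (Fin m)) ℝ) :
    pderiv o (pderiv o' R) = pderiv o' (pderiv o R) := by
  classical
  induction R using MvPolynomial.induction_on with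
  | C a => simp
  | add p q hp hq => rw [map_add, map_add, map_add, map_add, hp, hq]
  | mul_X p j hp =>
    have hX : ∀ i i' : Option (Fin m), pderiv i (pderiv i' (X j : MvPolynomial (Option (Fin m)) ℝ))
        = 0 := by
      intro i i'
      rw [pderiv_X]
      by_cases h : i' = j
      · rw [h, Pi.single_eq_same, pderiv_one]
      · rw [Pi.single_eq_of_ne (Ne.symm h), map_zero]
    rw [pderiv_mul, pderiv_mul, map_add, map_add, pderiv_mul, pderiv_mul, pderiv_mul, pderiv_mul,
      hX, hX, hp]
    ring

theorem hs_comm (R : MvPolynomial (Option (Fin m)) ℝ) (x W V : Option (Fin m) → ℝ) :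
    hs R x W V = hs R x V W := by
  unfold hs dd
  simp only [Finset.sum_mul]
  rw [Finset.sum_comm]
  refine Finset.sum_congr rfl fun o _ => Finset.sum_congr rfl fun o' _ => ?_
  rw [pd_comm]
  ring

/-- **A vector with given natural components.** -/
theorem vec_adapt {c : ℕ → Fin m} {i : ℕ} (hc : Set.InjOn c (Set.Iio i))
    {G : ℕ → MvPolynomial (Option (Fin m)) ℝ} (hdep : ∀ l, DepC c l (G l))
    (x : Option (Fin m) → ℝ) (t : ℝ) (y : ℕ → ℝ) (k : ℕ) :
    k ≤ i → ∃ W : Option (Fin m) → ℝ, W none = t ∧
      ∀ l < k, W (some (c l)) - dd (G l) x W = y l := by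
  classical
  induction k with
  | zero => exact fun _ => ⟨fun _ => t, rfl, fun l hl => absurd hl (Nat.not_lt_zero l)⟩
  | succ k ih =>
    intro hi
    obtain ⟨b, h1, h2⟩ := ih (by omega)
    obtain ⟨b', hb'⟩ : ∃ b' : Option (Fin m) → ℝ, b' = Function.update b (some (c k))
        (dd (G k) x b + y k) := ⟨_, rfl⟩
    have hk : b' (some (c k)) = dd (G k) x b + y k := by
      rw [hb']
      exact Function.update_self _ _ _
    have ho : ∀ o, o ≠ some (c k) → b' o = b o := by
      intro o ho
      rw [hb']
      exact Function.update_of_ne ho _ _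
    have hne : ∀ l < k, (some (c l) : Option (Fin m)) ≠ some (c k) := by
      intro l hl h
      have h7 := hc (show l ∈ Set.Iio i from (hl.trans_le (by omega : k ≤ i)))
        (show k ∈ Set.Iio i from (by omega : k < i)) (Option.some_injective _ h)
      omega
    have hev : ∀ l ≤ k, dd (G l) x b' = dd (G l) x b := fun l hl =>
      dd_congr (hdep l) x (ho _ (by simp)) fun j hj => ho _ (hne j (by omega))
    refine ⟨b', (ho _ (by simp)).trans h1, fun l hl => ?_⟩
    rcases Nat.lt_or_ge l k with h3 | h3
    · rw [hev l h3.le, ho _ (hne l h3)]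
      exact h2 l h3
    · have h4 : l = k := by omega
      subst h4
      rw [hk, hev l le_rfl]
      ring

/-- The derivatives along a curve. -/
theorem der_curve (p : Option (Fin m) → Polynomial ℝ) {x V Z : Option (Fin m) → ℝ} {s : ℝ}
    (hx : ∀ o, (p o).eval s = x o) (hV : ∀ o, (Polynomial.derivative (p o)).eval s = V o)
    (hZ : ∀ o, (Polynomial.derivative (Polynomial.derivative (p o))).eval s = Z o)
    (R : MvPolynomial (Option (Fin m)) ℝ) :
    (Polynomial.derivative (MvPolynomial.aeval p R)).eval s = dd R x V ∧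
    (Polynomial.derivative (Polynomial.derivative (MvPolynomial.aeval p R))).eval s =
      hs R x V V + dd R x Z := by
  classical
  have hxe : (fun o => (p o).eval s) = x := funext hx
  have h1 : ∀ R : MvPolynomial (Option (Fin m)) ℝ,
      (Polynomial.derivative (MvPolynomial.aeval p R)).eval s = dd R x V := by
    intro R
    rw [der_aevalσ, Polynomial.eval_finsetSum]
    refine Finset.sum_congr rfl fun o _ => ?_
    rw [Polynomial.eval_mul, Pool.KBX.eval_aeval_poly, hxe, hV]
  refine ⟨h1 R, ?_⟩
  rw [der_aevalσ, Polynomial.derivative_sum, Polynomial.eval_finsetSum]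
  unfold hs
  rw [show dd R x Z = ∑ o, eval x (pderiv o R) * Z o from rfl, ← Finset.sum_add_distrib]
  refine Finset.sum_congr rfl fun o _ => ?_
  rw [Polynomial.derivative_mul, Polynomial.eval_add, Polynomial.eval_mul, Polynomial.eval_mul,
    h1, hV, hZ, Pool.KBX.eval_aeval_poly, hxe]

/-- **The natural derivatives of a polynomial which is bounded on a natural box.** -/
theorem box_nat (r K D : ℕ) : ∃ C : ℝ, 1 ≤ C ∧ ∀ {m : ℕ} {c : ℕ → Fin m}
    {ψ : ℕ → MvPolynomial (Option (Fin m)) ℝ} {Q : MvPolynomial (Option (Fin m)) ℝ}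
    {g : ℕ → ℕ} {a : ℕ} {M : ℝ} {x : Option (Fin m) → ℝ}, Set.InjOn c (Set.Iio r) →
    (∀ l, (ψ l).totalDegree ≤ K) → (∀ l, DepC c l (ψ l)) → DepC c r Q → Q.totalDegree ≤ D →
    0 ≤ M → (∀ b, NBx c ψ g a (x none) r b → |eval b Q| ≤ M) →
    (∀ l < r, |x (some (c l)) - eval x (ψ l)| ≤ 1 / 2 ^ g l) → ∀ W : Option (Fin m) → ℝ,
    |W none| ≤ 1 / 2 ^ a → (∀ l < r, |W (some (c l)) - dd (ψ l) x W| ≤ 1 / 2 ^ g l) →
    |dd Q x W| ≤ C * M ∧ ∀ Z : Option (Fin m) → ℝ, Z none = 0 →
      (∀ l < r, Z (some (c l)) - dd (ψ l) x Z = hs (ψ l) x W W) →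
      |hs Q x W W + dd Q x Z| ≤ C * M := by
  classical
  obtain ⟨L, hL⟩ : ∃ L, L = D * dga (fun _ => K) r := ⟨_, rfl⟩
  obtain ⟨C, hC, hder⟩ := der_one L
  obtain ⟨c₀, hdbl⟩ := nbx_dbl (r + 1) (fun _ => max K D)
  obtain ⟨B, hB⟩ : ∃ B : ℝ, B = 2 ^ c₀ := ⟨_, rfl⟩
  have hB1 : 1 ≤ B := by rw [hB]; exact one_le_pow₀ (by norm_num)
  refine ⟨C * (C * B), one_le_mul_of_one_le_of_one_le hC
    (one_le_mul_of_one_le_of_one_le hC hB1), ?_⟩
  intro m c ψ Q g a M x hc hψ hdep hQ hQd hM0 hM hx W hW0 hW
  have hM' : ∀ b : Option (Fin m) → ℝ, |b none - x none| ≤ 1 / 2 ^ a →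
      (∀ l < r, |b (some (c l)) - eval b (ψ l)| ≤ 4 / 2 ^ g l) → |eval b Q| ≤ B * M := by
    rw [hB]
    exact hdbl (Nat.lt_succ_self r) hc (fun l => (hψ l).trans (le_max_left _ _)) hdep hQ
      (hQd.trans (le_max_right _ _)) hM0 hM
  obtain ⟨b', hb0, hbl⟩ := pt_adapt hc hdep (x none + W none)
    (fun l => x (some (c l)) - eval x (ψ l) + (W (some (c l)) - dd (ψ l) x W)) r le_rfl
  obtain ⟨p, h1, h2, h3, h4, h5⟩ := curve_all hc (K := fun _ => K) hψ hdep x b' r le_rfl
  obtain ⟨p', hp'⟩ : ∃ p' : Option (Fin m) → Polynomial ℝ, p' = fun o => match o with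
      | none => p none
      | some k => if ∃ l < r, c l = k then p (some k) else Polynomial.C (x (some k)) :=
    ⟨_, rfl⟩
  have hn : p' none = p none := by rw [hp']
  have hl : ∀ l < r, p' (some (c l)) = p (some (c l)) := by
    intro l hl
    rw [hp']
    exact if_pos ⟨l, hl, rfl⟩
  have hk : ∀ k, (∀ l < r, c l ≠ k) → p' (some k) = Polynomial.C (x (some k)) := by
    intro k hk
    rw [hp']
    refine if_neg ?_
    rintro ⟨l, h6, h7⟩
    exact hk l h6 h7
  have hdeg : ∀ o, (p' o).natDegree ≤ dga (fun _ => K) r := by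
    intro o
    cases o with
    | none => rw [hn]; exact h1 _
    | some k =>
      by_cases h6 : ∃ l < r, c l = k
      · obtain ⟨l, h7, rfl⟩ := h6
        rw [hl l h7]
        exact h1 _
      · rw [hk k fun l h7 h8 => h6 ⟨l, h7, h8⟩, Polynomial.natDegree_C]
        exact Nat.zero_le _
  have hx0 : ∀ o, (p' o).eval 0 = x o := by
    intro o
    cases o with
    | none => rw [hn, h2]; ring
    | some k =>
      by_cases h6 : ∃ l < r, c l = k
      · obtain ⟨l, h7, rfl⟩ := h6
        rw [hl l h7, h4 l h7]
      · rw [hk k fun l h7 h8 => h6 ⟨l, h7, h8⟩, Polynomial.eval_C]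
  have hψe : ∀ l ≤ r, ∀ s, eval (fun o => (p' o).eval s) (ψ l) =
      eval (fun o => (p o).eval s) (ψ l) := by
    intro l h6 s
    refine hdep l _ _ ?_ fun j hj => ?_
    · show (p' none).eval s = (p none).eval s
      rw [hn]
    · show (p' (some (c j))).eval s = (p (some (c j))).eval s
      rw [hl j (by omega)]
  -- the heights along the curve
  have hht : ∀ l < r, ∀ s, (p' (some (c l))).eval s = eval (fun o => (p' o).eval s) (ψ l) +
      ((x (some (c l)) - eval x (ψ l)) + s * (W (some (c l)) - dd (ψ l) x W)) := by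
    intro l h6 s
    rw [hl l h6, h3 l h6 s, hψe l h6.le, hbl l h6]
    ring
  have hbd : ∀ s ∈ Set.Icc (0 : ℝ) 1, |(MvPolynomial.aeval p' Q).eval s| ≤ B * M := by
    intro s hs
    rw [Pool.KBX.eval_aeval_poly]
    refine hM' _ ?_ fun l h6 => ?_
    · show |(p' none).eval s - x none| ≤ _
      rw [hn, h2, hb0]
      have : x none + s * (x none + W none - x none) - x none = s * W none := by ring
      rw [this, abs_mul, abs_of_nonneg hs.1]
      calc s * |W none| ≤ 1 * (1 / 2 ^ a) :=
            mul_le_mul hs.2 hW0 (abs_nonneg _) (by norm_num)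
        _ = _ := one_mul _
    · show |(p' (some (c l))).eval s - eval (fun o => (p' o).eval s) (ψ l)| ≤ _
      rw [hht l h6 s, add_sub_cancel_left]
      have e1 : |s * (W (some (c l)) - dd (ψ l) x W)| ≤ 1 / 2 ^ g l := by
        rw [abs_mul, abs_of_nonneg hs.1]
        calc s * |W (some (c l)) - dd (ψ l) x W| ≤ 1 * (1 / 2 ^ g l) :=
              mul_le_mul hs.2 (hW l h6) (abs_nonneg _) (by norm_num)
          _ = _ := one_mul _
      refine (abs_add_le _ _).trans ?_
      have e2 := add_le_add (hx l h6) e1
      refine e2.trans ?_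
      rw [← add_div]
      exact div_le_div_of_nonneg_right (by norm_num) (by positivity)
  have hqd : (MvPolynomial.aeval p' Q).natDegree ≤ L := by
    rw [hL]
    exact natDegree_aeval_mul Q p' hdeg hQd
  have hd1 : ∀ s, |s| ≤ 1 → |(Polynomial.derivative (MvPolynomial.aeval p' Q)).eval s| ≤
      C * (B * M) := hder _ _ hqd hbd
  have hd2 : |(Polynomial.derivative (Polynomial.derivative (MvPolynomial.aeval p' Q))).eval 0| ≤
      C * (C * (B * M)) := by
    refine hder _ _ ((Polynomial.natDegree_derivative_le _).trans ((Nat.sub_le _ _).trans hqd))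
      (fun s hs => hd1 s ?_) 0 (by rw [abs_zero]; norm_num)
    rw [abs_of_nonneg hs.1]
    exact hs.2
  -- the velocity of the curve
  obtain ⟨V, hV⟩ : ∃ V : Option (Fin m) → ℝ, V = fun o =>
      (Polynomial.derivative (p' o)).eval 0 := ⟨_, rfl⟩
  obtain ⟨Y, hY⟩ : ∃ Y : Option (Fin m) → ℝ, Y = fun o =>
      (Polynomial.derivative (Polynomial.derivative (p' o))).eval 0 := ⟨_, rfl⟩
  have hcv := der_curve p' (x := x) (V := V) (Z := Y) (s := 0) hx0 (fun o => by rw [hV])
    (fun o => by rw [hY])
  have hpn : p' none = Polynomial.C (x none) + Polynomial.C (W none) * Polynomial.X := by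
    refine Polynomial.funext fun s => ?_
    rw [hn, h2, hb0]
    simp only [Polynomial.eval_add, Polynomial.eval_mul, Polynomial.eval_C, Polynomial.eval_X]
    ring
  have hV0 : V none = W none := by
    rw [hV]
    show (Polynomial.derivative (p' none)).eval 0 = W none
    rw [hpn]
    simp
  have hY0 : Y none = 0 := by
    rw [hY]
    show (Polynomial.derivative (Polynomial.derivative (p' none))).eval 0 = 0
    rw [hpn]
    simp
  have hpl : ∀ l < r, p' (some (c l)) = MvPolynomial.aeval p' (ψ l) +
      (Polynomial.C (x (some (c l)) - eval x (ψ l)) +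
        Polynomial.C (W (some (c l)) - dd (ψ l) x W) * Polynomial.X) := by
    intro l h6
    refine Polynomial.funext fun s => ?_
    rw [hht l h6 s, Polynomial.eval_add, Pool.KBX.eval_aeval_poly, Polynomial.eval_add,
      Polynomial.eval_mul, Polynomial.eval_C, Polynomial.eval_C, Polynomial.eval_X]
    ring
  have hVl : ∀ l < r, V (some (c l)) = W (some (c l)) := by
    intro l
    induction l using Nat.strong_induction_on with
    | _ l ih =>
      intro h6
      have h7 : V (some (c l)) = dd (ψ l) x V + (W (some (c l)) - dd (ψ l) x W) := by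
        rw [← (hcv (ψ l)).1]
        rw [hV]
        show (Polynomial.derivative (p' (some (c l)))).eval 0 = _
        conv_lhs => rw [hpl l h6]
        simp
      rw [h7, dd_congr (hdep l) x hV0 fun j hj => ih j hj (hj.trans h6)]
      ring
  have hVW : ∀ R, DepC c r R → dd R x V = dd R x W := fun R hR => dd_congr hR x hV0 hVl
  have hddl : ∀ l ≤ r, ∀ R, DepC c l R → dd R x V = dd R x W := fun l h6 R hR =>
    hVW R (hR.mono h6)
  have hhs : ∀ l ≤ r, ∀ R, DepC c l R → hs R x V V = hs R x W W := by
    intro l h6 R hR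
    unfold hs
    refine Finset.sum_congr rfl fun o _ => ?_
    rw [hddl l h6 _ (depC_pderiv hR o)]
    cases o with
    | none => rw [hV0]
    | some k =>
      by_cases h9 : ∃ j < r, c j = k
      · obtain ⟨j, h10, rfl⟩ := h9
        rw [hVl j h10]
      · have : dd (pderiv (some k) R) x W = 0 := by
          unfold dd
          refine Finset.sum_eq_zero fun o _ => ?_
          rw [pd_comm, pderiv_dep (pderiv o R) (some k) (fun b b' hb => ?_) x, zero_mul]
          exact (depC_pderiv hR o).mono h6 b b' (hb _ (by simp)) fun j hj => hb _ fun h' =>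
            h9 ⟨j, hj, Option.some_injective _ h'⟩
        rw [this, zero_mul, zero_mul]
  refine ⟨?_, fun Z hZ0 hZ => ?_⟩
  · rw [← hVW Q hQ, ← (hcv Q).1]
    refine (hd1 0 (by rw [abs_zero]; norm_num)).trans ?_
    have : C * (B * M) ≤ C * (C * (B * M)) := by
      refine mul_le_mul_of_nonneg_left ?_ (by linarith)
      exact le_mul_of_one_le_left (by positivity) hC
    linarith [mul_assoc C B M, mul_assoc C (C * B) M, mul_assoc C B M]
  · have hYl : ∀ l < r, Y (some (c l)) = Z (some (c l)) := by
      intro l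
      induction l using Nat.strong_induction_on with
      | _ l ih =>
        intro h6
        have h7 : Y (some (c l)) = hs (ψ l) x V V + dd (ψ l) x Y := by
          rw [← (hcv (ψ l)).2]
          rw [hY]
          show (Polynomial.derivative (Polynomial.derivative (p' (some (c l))))).eval 0 = _
          conv_lhs => rw [hpl l h6]
          simp
        rw [h7, dd_congr (hdep l) x (hY0.trans hZ0.symm) fun j hj => ih j hj (hj.trans h6),
          hhs l h6.le _ (hdep l), ← hZ l h6]
        ring
    rw [← hhs r le_rfl Q hQ, ← dd_congr hQ x (hY0.trans hZ0.symm) hYl, ← (hcv Q).2]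
    refine hd2.trans (le_of_eq ?_)
    ring

end Pool.D2R
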