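import Pool.Agent.H23.D2.Bst
import Pool.Agent.H23.D2.Par

/-!
# The output at a window with a ball only

`ball_out`: `ROut1` of the ball chart of a window against its own closed re-centred label, on a
large part of the event: the own line, the velocities and the second derivatives of all the lines
through the point are natural.
-/

set_option autoImplicit false

namespace Pool.D2R

open Finset Real MvPolynomial
open Pool.Agent.H49.Ent Pool.Agent.H32.Dense Pool.STK Pool.KA Pool.KSAT Pool.K2S Pool.PB Pool.S6C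
open Pool.GEN Pool.CHT Pool.CHX Pool.ISO
open Pool.FLF (Fam.sub)
open Pool.PB.Trl (rt rt_mem t_rt)

variable {m J : ℕ}

/-- **The output of a ball.** -/
def ROutB (F : Fam m J) (c : ℕ → Fin m) (r a K : ℕ) (g₀ : ℕ → ℕ) (B : F.Ω → Prop)
    (G : PtT F → ℕ → MvPolynomial (Option (Fin m)) ℝ)
    (H : LnT F → ℕ → MvPolynomial (Option (Fin m)) ℝ) : Prop :=
  ROut1 F c r a a 0 g₀ g₀ 0 (2 ^ K) B G H G H (fun s => Hno (c r) (fun s => H s r) s)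

theorem ROutB.sub {F : Fam m J} {c : ℕ → Fin m} {r a K : ℕ} {g₀ : ℕ → ℕ} {B B' : F.Ω → Prop}
    {G : PtT F → ℕ → MvPolynomial (Option (Fin m)) ℝ}
    {H : LnT F → ℕ → MvPolynomial (Option (Fin m)) ℝ} (h : ROutB F c r a K g₀ B G H)
    (hB : Sub B' B) : ROutB F c r a K g₀ B' G H := ROut1.sub h hB

theorem ROutB.mono {F : Fam m J} {c : ℕ → Fin m} {r a K K' : ℕ} {g₀ : ℕ → ℕ} {B : F.Ω → Prop}
    {G : PtT F → ℕ → MvPolynomial (Option (Fin m)) ℝ}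
    {H : LnT F → ℕ → MvPolynomial (Option (Fin m)) ℝ} (h : ROutB F c r a K g₀ B G H)
    (hK : K ≤ K') : ROutB F c r a K' g₀ B G H :=
  ROut1.mono h le_rfl (by positivity) (pow_le_pow_right₀ (by norm_num) hK)

/-- **A window with a ball only.** -/
theorem ball_out (m D r : ℕ) (hD : 1 ≤ D) : ∃ C : ℕ, 1 ≤ C ∧ ∀ {J : ℕ} {F : Fam m J}
    {c : ℕ → Fin m} {Dr a M e h k : ℕ} {z : ℕ → ℕ} {g g₀ : ℕ → ℕ} {κ κ₁ θ : ℝ}
    {B₀ B : F.Ω → Prop} {G : PtT F → ℕ → MvPolynomial (Option (Fin m)) ℝ}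
    {H : LnT F → ℕ → MvPolynomial (Option (Fin m)) ℝ} (_ : 0 < Pe F.p B),
    Set.InjOn c (Set.Iio (r + 1)) → a ≤ J → D ≤ Dr → EvB F c r D Dr a M z e h g g₀ κ B₀ G H →
    Sub B B₀ → κ₁ * Pe F.p B₀ ≤ Pe F.p B → 8 * κ ≤ κ₁ → (∀ l ≤ r, 1 ≤ g₀ l) →
    C * (k + 1) ≤ g₀ r → (∀ l ≤ r, e + g₀ l + C * (k + 1) ≤ J) → 0 ≤ θ →
    (∀ (B' : F.Ω → Prop) (hB' : 0 < Pe F.p B'), Sub B' B → Pe F.p B / 32 ≤ Pe F.p B' →
      (Fam.sub F B' hB').Tm θ) →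
    C * (θ + 1) ≤ ((J : ℝ) - a) * Real.log 2 → Real.exp (C * (θ + 1)) ≤ 2 ^ k →
    ∃ B' : F.Ω → Prop, Sub B' B ∧ Pe F.p B ≤ 32 * Pe F.p B' ∧
      ROutB F c r a (C * (h + k + 1)) g₀ B' G H := by
  classical
  obtain ⟨C₁, hC₁, hrm⟩ := rem_fam m (D + 1) (r + 1)
  obtain ⟨C₂, hC₂, hdb⟩ := dif_ball D r
  obtain ⟨C₃, hC₃, hr1⟩ := r1_fam m D r hD
  obtain ⟨n₂, hn₂⟩ := pow_unbounded_of_one_lt C₂ (one_lt_two (α := ℝ))
  obtain ⟨C, hC⟩ : ∃ C : ℕ, C = C₃ + ⌈C₁⌉₊ + n₂ + 5 := ⟨_, rfl⟩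
  have hC1 : C₁ ≤ C := by
    refine (Nat.le_ceil C₁).trans ?_
    have : ⌈C₁⌉₊ ≤ C := by omega
    exact_mod_cast this
  have hC3 : (C₃ : ℝ) ≤ C := by
    have : C₃ ≤ C := by omega
    exact_mod_cast this
  refine ⟨C, by omega, ?_⟩
  intro J F c Dr a M e h k z g g₀ κ κ₁ θ B₀ B G H hB hc haJ hDr hE hBB hκ₁ hκ hg1 hgr hJ hθ
    hTm hCJ hexp
  have hp := Pe_nonneg F.isLaw
  have hθ1 : 0 ≤ θ + 1 := by linarith
  have hball := hE.ball
  -- the heights of the lines over the ball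
  obtain ⟨B₁, b1, b2, b3⟩ := hrm J F B hB a (fun l s => dv a (fun s _ => H s l) (c l) s)
    (fun l => 2 / 2 ^ g₀ l) θ haJ (fun l _ s => natDegree_dv a
      (G := fun s (_ : Fin m) => H s l) (fun s _ => hball.degH s l) (c l) s)
    (fun l _ => by positivity) hθ (hTm B hB (fun _ h => h) (by linarith [hp B]))
    ((mul_le_mul_of_nonneg_right hC1 hθ1).trans hCJ) (fun ω hω l hl => by
      show |(dv a (fun s _ => H s l) (c l) (slam F a ω)).eval (rt F a ω)| ≤ _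
      rw [eval_dv F haJ (fun s _ => H s l) ω (c l)]
      have h1 := hball.pos ω (hBB ω hω) l hl
      have h2 := hball.agr ω (hBB ω hω) l hl _ (hball.self (hBB ω hω) hl.le)
      have e1 : F.x ω (c l) - eval (bt F ω) (H (slam F a ω) l) =
          (F.x ω (c l) - eval (bt F ω) (G (ptr F J ω) l)) +
          (eval (bt F ω) (G (ptr F J ω) l) - eval (bt F ω) (H (slam F a ω) l)) := by ring
      rw [e1]
      refine (abs_add_le _ _).trans ((add_le_add h1 h2).trans (le_of_eq ?_))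
      ring)
  have hB₁0 : 0 < Pe F.p B₁ := by linarith
  have hBB1 : Sub B₁ B₀ := fun ω hω => hBB ω (b1 ω hω)
  have hexp1 : Real.exp (C₁ * (θ + 1)) ≤ 2 ^ k := (Real.exp_le_exp.2
    (mul_le_mul_of_nonneg_right hC1 hθ1)).trans hexp
  have hexp3 : Real.exp (C₃ * (θ + 1)) ≤ 2 ^ k := (Real.exp_le_exp.2
    (mul_le_mul_of_nonneg_right hC3 hθ1)).trans hexp
  have hdv : ∀ ω, B₁ ω → ∀ l ≤ r, ∀ τ ∈ Set.Icc (0 : ℝ) 1,
      |(dv a (fun s _ => H s l) (c l) (slam F a ω)).eval τ| ≤ 2 ^ (k + 1) / 2 ^ g₀ l := by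
    intro ω hω l hl τ hτ
    refine (b3 ω hω l (by omega) τ hτ).trans ?_
    rw [pow_succ, mul_div_assoc]
    exact mul_le_mul_of_nonneg_right hexp1 (by positivity)
  -- the sizes
  have hgrk : n₂ + (k + 1) + 2 ≤ g₀ r := by
    refine le_trans ?_ hgr
    have h1 : n₂ + (k + 1) + 2 ≤ (n₂ + 5) * (k + 1) := by nlinarith [Nat.zero_le (n₂ * k)]
    exact h1.trans (Nat.mul_le_mul_right _ (by omega))
  have hsz : 3 / (2 : ℝ) ^ g₀ r ≤ 1 / 2 ^ 0 := by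
    rw [pow_zero, div_le_div_iff₀ (by positivity) one_pos]
    have : (2 : ℝ) ^ 2 ≤ 2 ^ g₀ r := pow_le_pow_right₀ (by norm_num) (by omega)
    linarith
  have hsz2 : 2 / (2 : ℝ) ^ g₀ r + C₂ * 2 ^ (k + 1) / 2 ^ g₀ r ≤ 1 / 2 ^ 0 := by
    rw [pow_zero, ← add_div, div_le_div_iff₀ (by positivity) one_pos]
    have h1 : C₂ * 2 ^ (k + 1) ≤ 2 ^ (n₂ + (k + 1)) := by
      rw [pow_add 2 n₂ (k + 1)]
      exact mul_le_mul_of_nonneg_right hn₂.le (by positivity)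
    have h2 : (2 : ℝ) ^ (n₂ + (k + 1)) * 2 ^ 2 ≤ 2 ^ g₀ r := by
      rw [← pow_add]
      exact pow_le_pow_right₀ (by norm_num) (by omega)
    have h3 : (1 : ℝ) ≤ 2 ^ (n₂ + (k + 1)) := one_le_pow₀ (by norm_num)
    linarith
  have hrpos : ∀ ω, B₁ ω → |F.x ω (c r) -
      eval (bt F ω) (Gno (c r) J J (fun y => G y r) (ptr F J ω))| ≤ 1 / 2 ^ 0 := by
    intro ω hω
    have h1 := hball.pos ω (hBB1 ω hω) r (Nat.lt_succ_self r)
    have h2 := hE.near ω (hBB1 ω hω) r le_rfl (bt F ω)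
    have e1 : F.x ω (c r) - eval (bt F ω) (Gno (c r) J J (fun y => G y r) (ptr F J ω)) =
        (F.x ω (c r) - eval (bt F ω) (G (ptr F J ω) r)) -
        (eval (bt F ω) (Gno (c r) J J (fun y => G y r) (ptr F J ω)) -
          eval (bt F ω) (G (ptr F J ω) r)) := by ring
    rw [e1]
    refine (abs_sub _ _).trans ((add_le_add h1 h2).trans (le_trans (le_of_eq ?_) hsz))
    ring
  have hragr : ∀ ω, B₁ ω → ∀ b, NBx c (G (ptr F J ω)) g₀ a (F.t ω) r b →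
      |eval b (Gno (c r) J J (fun y => G y r) (ptr F J ω)) -
        eval b (Hno (c r) (fun s => H s r) (slam F a ω))| ≤ 1 / 2 ^ 0 := by
    intro ω hω b hb
    have h1 := hE.near ω (hBB1 ω hω) r le_rfl b
    have h2 := hdb haJ hball ω (hBB1 ω hω) r le_rfl (hdv ω hω r le_rfl) b hb
    have e1 : eval b (Gno (c r) J J (fun y => G y r) (ptr F J ω)) -
        eval b (Hno (c r) (fun s => H s r) (slam F a ω)) =
        (eval b (Gno (c r) J J (fun y => G y r) (ptr F J ω)) - eval b (G (ptr F J ω) r)) -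
        (eval b (Hno (c r) (fun s => H s r) (slam F a ω)) - eval b (G (ptr F J ω) r)) := by ring
    rw [e1]
    exact (abs_sub _ _).trans ((add_le_add h1 h2).trans hsz2)
  have hdat : RDat1 F c r D a a 0 e g₀ g₀ 0 B₁ G H G H
      (fun y => Gno (c r) J J (fun y => G y r) y) (fun s => Hno (c r) (fun s => H s r) s) :=
    { ball := hball.sub hBB1
      thin := (hball.mono (Nat.le_succ r) (fun _ => le_rfl) le_rfl le_rfl).sub hBB1
      dG := fun y => deg_Gno _ _ _ (hball.degG y r)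
      dH := fun s => deg_Hno _ _ _ hD (hball.degH s r)
      pG := fun y => depC_Gno _ _ _ (hball.depG y r)
      pH := fun s => depC_Hno _ _ _ (hball.depH s r)
      pos := hrpos
      agr := hragr
      rpos := hrpos
      ragr := hragr }
  have hrel : RelvF F c r (a + 0) a g₀ D h (1 / 4) B₁ G :=
    (hE.relb.mono hDr (show κ ≤ κ₁ / 8 by linarith)).sub (κ₁ := κ₁ / 2) hBB1 (by linarith)
      (by norm_num) (by linarith)
  obtain ⟨B₂, n1, n2, n3⟩ := hr1 (θ := θ) (k := k) hB₁0 hc le_rfl haJ hdat hrel le_rfl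
    (fun l hl => hg1 l hl.le)
    (fun l hl => le_trans (Nat.add_le_add_left (Nat.mul_le_mul_right _ (by omega)) _) (hJ l hl))
    (fun l hl => le_trans (Nat.add_le_add_left (Nat.mul_le_mul_right _ (by omega)) _)
      (hJ l hl.le)) hθ
    (fun B' hB' s1 s2 => hTm B' hB' (fun ω hω => b1 ω (s1 ω hω)) (by linarith))
    ((mul_le_mul_of_nonneg_right hC3 hθ1).trans hCJ) hexp3
  refine ⟨B₂, fun ω hω => b1 ω (n1 ω hω), by linarith, ?_⟩
  exact ROut1.mono n3 le_rfl (by positivity) (pow_le_pow_right₀ (by norm_num)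
    (Nat.mul_le_mul_right _ (by omega)))

/-- **The outputs of the balls** at the windows of a list, on one event. -/
theorem winb_rout (m D r : ℕ) (hD : 1 ≤ D) : ∃ C : ℕ, 1 ≤ C ∧ ∀ {S : PCl m} {c : ℕ → Fin m}
    {C₀ a Eb ηm ζ κ₀ : ℝ} {o η σ : ℕ → ℝ} {lv : ℕ → ℕ → ℝ} {Dr N M : ℕ} (L₁ : List ℕ), TmH S →
    Set.InjOn c (Set.Iio (r + 1)) → D ≤ Dr → 0 < ζ → 0 < κ₀ → C₀ * ηm ≤ ζ →
    (∀ k ∈ L₁, k ≤ N ∧ o k + C * ζ ≤ 1 ∧ ∀ l ≤ r, C * ζ ≤ lv k l ∧ Eb + lv k l + C * ζ ≤ 1) →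
    ∃ κ' : ℝ, 0 < κ' ∧ Bas S (fun J F A => ∀ (z : ℕ → ℕ → ℕ) (κ : ℝ) (b : ℕ → ℕ → ℝ)
      (B : F.Ω → Prop) (g₀ : ℕ → ℕ → ℕ)
      (G : ℕ → PtT F → ℕ → MvPolynomial (Option (Fin m)) ℝ)
      (H : ℕ → LnT F → ℕ → MvPolynomial (Option (Fin m)) ℝ) (B₁ : F.Ω → Prop),
      WinB F c r D Dr N M C₀ a Eb ηm o η σ lv b κ z B g₀ G H → κ ≤ κ' → Sub B A → Sub B₁ B →
      κ₀ * Pe F.p A ≤ Pe F.p B₁ →
      ∃ B' : F.Ω → Prop, Sub B' B₁ ∧ Pe F.p B₁ ≤ (32 : ℝ) ^ L₁.length * Pe F.p B' ∧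
        ∀ k ∈ L₁, ROutB F c r ⌊o k * J⌋₊ ⌊C * ζ * J⌋₊ (g₀ k) B' (G k) (H k)) := by
  obtain ⟨C₂, hC₂, hbo⟩ := ball_out m D r hD
  have hC₂R : (1 : ℝ) ≤ C₂ := by exact_mod_cast hC₂
  obtain ⟨C, hC⟩ : ∃ C : ℕ, C = 2 * C₂ + 4 := ⟨_, rfl⟩
  have hCR : (C : ℝ) = 2 * C₂ + 4 := by rw [hC]; push_cast; ring
  refine ⟨C, by omega, ?_⟩
  intro S c C₀ a Eb ηm ζ κ₀ o η σ lv Dr N M L₁ hS hc hDr hζ hκ₀ hCη hL
  obtain ⟨n, hn⟩ : ∃ n, n = L₁.length := ⟨_, rfl⟩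
  have h32 : (0 : ℝ) < 32 ^ n := by positivity
  obtain ⟨κ', hκ'⟩ : ∃ κ' : ℝ, κ' = κ₀ / 32 ^ n / 8 := ⟨_, rfl⟩
  obtain ⟨ε₁, J₁, hε₁, hdig⟩ := dig 1 (C₁ := (C₂ : ℝ)) hC₂R hζ
  have htm := bas_ev (hS.2 ε₁ hε₁) (κ := κ₀ / 32 ^ n / 32) (by positivity)
  have hpos : Bas S (fun _ F A => 0 < Pe F.p A) := ⟨1, one_pos, 0, fun J _ F A hA =>
    hS.1 1 J F A hA⟩
  refine ⟨κ', by rw [hκ']; positivity, Bas.mono J₁ (htm.and hpos) ?_⟩
  rintro J hJ F A ⟨h1, hA⟩ z κ b B g₀ G H B₁ W hκκ hBA hB₁B hκB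
  have hp := Pe_nonneg F.isLaw
  have hJ0 : (0 : ℝ) ≤ J := Nat.cast_nonneg J
  obtain ⟨u, hu1, hu2, hu3⟩ := hdig J hJ
  have hu3' : 2 * (u : ℝ) + 1 ≤ ζ * J := by
    push_cast at hu3
    linarith
  have hu0 : (0 : ℝ) ≤ u := Nat.cast_nonneg u
  have hζJ : 1 ≤ ζ * J := by linarith
  have hPBA : Pe F.p B ≤ Pe F.p A := Pe_mono F.isLaw hBA
  rw [← hn]
  have hstep : ∀ k ∈ L₁, ∀ B' : F.Ω → Prop, Sub B' B₁ → Pe F.p B₁ ≤ 32 ^ L₁.length * Pe F.p B' →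
      ∃ B'' : F.Ω → Prop, Sub B'' B' ∧ Pe F.p B' ≤ 32 * Pe F.p B'' ∧
        ROutB F c r ⌊o k * J⌋₊ ⌊C * ζ * J⌋₊ (g₀ k) B'' (G k) (H k) := by
    intro k hk B' hB' hPB'
    rw [← hn] at hPB'
    obtain ⟨hkN, hok, hlv⟩ := hL k hk
    obtain ⟨e1, e2⟩ := W.hη k hkN
    obtain ⟨e3, e4⟩ := W.hσ k hkN
    have hηm0 : 0 ≤ ηm := e1.trans e2
    have hηζ : ηm ≤ ζ := (le_mul_of_one_le_left hηm0 W.C1).trans hCη
    have hB'B : Sub B' B := fun ω hω => hB₁B ω (hB' ω hω)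
    have hκB' : κ₀ * Pe F.p A ≤ 32 ^ n * Pe F.p B' := hκB.trans hPB'
    have hB'0 : 0 < Pe F.p B' := by
      by_contra hcon
      have h2 : Pe F.p B' = 0 := le_antisymm (not_lt.1 hcon) (hp _)
      rw [h2, mul_zero] at hκB'
      have := mul_pos hκ₀ hA
      linarith
    have hsd := W.sds k hkN
    have hJo : (⌊o k * J⌋₊ : ℝ) ≤ o k * J := Nat.floor_le (mul_nonneg (W.ho k hkN).1 hJ0)
    have hokJ := mul_le_mul_of_nonneg_right hok hJ0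
    rw [add_mul, one_mul, hCR] at hokJ
    have hCζ0 : 0 ≤ C₂ * (ζ * J) := by positivity
    have hσJ : σ k * J ≤ ζ * J := mul_le_mul_of_nonneg_right (e4.trans hηζ) hJ0
    have hηJ : η k * J ≤ ζ * J := mul_le_mul_of_nonneg_right (e2.trans hηζ) hJ0
    have hσJ0 : 0 ≤ σ k * J := mul_nonneg e3 hJ0
    have hηJ0 : 0 ≤ η k * J := mul_nonneg e1 hJ0
    have hEbJ : 0 ≤ Eb * J := mul_nonneg W.Eb0 hJ0
    have hC2u : ((C₂ * (u + 1) : ℕ) : ℝ) ≤ C₂ * (ζ * J) := by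
      push_cast
      exact mul_le_mul_of_nonneg_left (by linarith) (by linarith)
    have hlow : ∀ l ≤ r, (2 * C₂ + 3) * (ζ * J) ≤ g₀ k l := by
      intro l hl
      have h2 := (hsd l hl).1
      have h3 := mul_le_mul_of_nonneg_right (hlv l hl).1 hJ0
      rw [hCR] at h3
      rw [sub_mul] at h2
      linarith
    obtain ⟨B'', k1, k2, k3⟩ := hbo (θ := ε₁ * J) (k := u) (κ₁ := κ₀ / 32 ^ n) hB'0 hc (by
        have h2 : (⌊o k * J⌋₊ : ℝ) ≤ J := by linarith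
        exact_mod_cast h2) hDr (W.ev k hkN) hB'B (by
        rw [div_mul_eq_mul_div, div_le_iff₀ h32]
        calc κ₀ * Pe F.p B ≤ κ₀ * Pe F.p A := mul_le_mul_of_nonneg_left hPBA hκ₀.le
          _ ≤ _ := by linarith) (by
        rw [hκ'] at hκκ
        linarith) (fun l hl => by
        have h2 := hlow l hl
        have h3 : (1 : ℝ) ≤ g₀ k l := by linarith
        exact_mod_cast h3) (by
        have h2 := hlow r le_rfl
        have h3 : ((C₂ * (u + 1) : ℕ) : ℝ) ≤ g₀ k r := by linarith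
        exact_mod_cast h3) (fun l hl => by
        have h2 := (hsd l hl).2
        have h3 := mul_le_mul_of_nonneg_right (hlv l hl).2 hJ0
        rw [add_mul, add_mul, one_mul, hCR] at h3
        have h4 : (⌊(Eb + σ k + η k) * J⌋₊ : ℝ) ≤ (Eb + σ k + η k) * J :=
          Nat.floor_le (mul_nonneg (by linarith [W.Eb0]) hJ0)
        have h6 : (Eb + σ k + η k) * J = Eb * J + σ k * J + η k * J := by ring
        have h5 : ((⌊(Eb + σ k + η k) * J⌋₊ + g₀ k l + C₂ * (u + 1) : ℕ) : ℝ) ≤ J := by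
          push_cast at hC2u ⊢
          linarith
        exact_mod_cast h5) (mul_nonneg hε₁.le hJ0) (fun B'' hB'' s1 s2 =>
        h1 B'' (fun ω hω => hBA ω (hB'B ω (s1 ω hω))) (by
          rw [div_div, div_mul_eq_mul_div, div_le_iff₀ (by positivity)]
          have h2 : 32 ^ n * Pe F.p B' ≤ 32 ^ n * (32 * Pe F.p B'') :=
            mul_le_mul_of_nonneg_left (by linarith) h32.le
          linarith) hB'') (by
        have hL2 : (1 : ℝ) / 2 ≤ Real.log 2 := by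
          have := Real.log_two_gt_d9
          linarith
        have h2 : 2 * (ζ * J) ≤ (J : ℝ) - ⌊o k * J⌋₊ := by linarith
        have h3 : 2 * (ζ * J) * (1 / 2) ≤ ((J : ℝ) - ⌊o k * J⌋₊) * Real.log 2 :=
          mul_le_mul h2 hL2 (by norm_num) (by linarith)
        linarith) hu1
    refine ⟨B'', k1, k2, k3.mono (Nat.le_floor ?_)⟩
    have h2 : (⌊η k * J⌋₊ : ℝ) ≤ η k * J := Nat.floor_le hηJ0
    have h3 : ((C₂ * (⌊η k * J⌋₊ + u + 1) : ℕ) : ℝ) ≤ C₂ * (2 * (ζ * J)) := by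
      push_cast
      exact mul_le_mul_of_nonneg_left (by linarith) (by linarith)
    rw [hCR]
    linarith
  have hfin := ev_list (fun k B'' => ROutB F c r ⌊o k * J⌋₊ ⌊C * ζ * J⌋₊ (g₀ k) B'' (G k) (H k))
    (by norm_num) (fun k B B' h hB => h.sub hB) L₁ B₁ hstep
  rw [← hn] at hfin
  exact hfin

end Pool.D2R
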