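import Pool.Agent.H23.D2.Nbl

/-!
# (F5) on windows with balls only

`natb_all`: `nat_all` for windows with balls only (`WinB`): the outputs `ROutB` of the balls, the
levels of `c l`, `l ≤ 2`, and the second derivatives of the ball charts of `c l`, `l ≤ 3`, at all
windows of the lists, on one event.
-/

set_option autoImplicit false

namespace Pool.D2R

open Finset Real MvPolynomial
open Pool.Agent.H49.Ent Pool.Agent.H32.Dense Pool.STK Pool.KA Pool.KSAT Pool.K2S Pool.PB Pool.S6C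
open Pool.GEN Pool.CHT Pool.CHX
open Pool.LBT (ThrOf)
open Pool.D2F
open Pool.D2Z (Nc frok_sub frok_mono frok_le pow1)
open Pool.F5

variable {m J : ℕ}

/-- **(F5) at all windows of a list of balls, on one event.** `L₁`: windows whose balls are used;
`q k`: a deep window, where the velocities are read. `pb k`: a later window near the window `k`;
`υ`: the growth of the slope of `c 1` between them. -/
theorem natb_all (m D r : ℕ) (hD : 1 ≤ D) (hr : 1 ≤ r) : ∃ C : ℕ, 1 ≤ C ∧ ∀ {S : PCl m}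
    {P : List (Fin m) × Fin m → ℝ → ℝ → ℝ} {θ : ℝ} {c : ℕ → Fin m}
    {C₀ a Eb ηm ζ υ e h κ₀ : ℝ} {o η σ : ℕ → ℝ} {lv : ℕ → ℕ → ℝ} {Dr N M : ℕ}
    (W : ℕ → ℚ) (LS L₁ L L₃ : List ℕ) (q pb : ℕ → ℕ), ThrOf (chsys m θ) S P → TmH S →
    Set.InjOn c (Set.Iio (r + 1)) → D ≤ Dr → 0 < h → h ≤ ζ → 0 ≤ υ → 0 < κ₀ → C₀ * ηm ≤ ζ →
    Eb + C * ζ + υ ≤ e → (∀ k ∈ LS, k ≤ N) →
    (∀ k ∈ L₁, k ∈ LS ∧ o k + C * ζ ≤ 1 ∧ ∀ l ≤ r, C * ζ ≤ lv k l ∧ Eb + lv k l + C * ζ ≤ 1) →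
    (∀ k ∈ L, k ∈ L₁ ∧ o k ≤ W k ∧ 0 ≤ W k ∧ W k < 1 ∧ e < θ * W k) →
    (∀ k ∈ L, ∀ l < 3, l < r → bet P c l (W k) (W k) + h ≤ 1 ∧
      bet P c l (W k) (W k) ≤ lv k l + ζ) →
    (∀ k ∈ L, ∀ l ≤ 2, l ≤ r → Eb + lv k l + C * ζ + υ ≤ 1) →
    (∀ k ∈ L, ∀ l, 1 ≤ l → l ≤ 2 → l < r →
      q k ∈ L₁ ∧ lv k l - o k + C * ζ + υ ≤ lv (q k) l - o (q k)) →
    (∀ k ∈ L₃, 3 ≤ r ∧ k ∈ L ∧ pb k ∈ L ∧ o k ≤ o (pb k) ∧
      lv (pb k) 1 - lv (pb k) 0 + C * ζ ≤ lv k 1 - lv k 0 + υ ∧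
      ∀ l < 2, lv k (l + 1) - lv k 0 + C * ζ ≤ lv (pb k) (l + 1) - lv (pb k) 0) →
    ∃ κ' : ℝ, 0 < κ' ∧ Bas S (fun J F A => ∀ (z : ℕ → ℕ → ℕ) (κ : ℝ) (b : ℕ → ℕ → ℝ)
      (B : F.Ω → Prop) (g₀ : ℕ → ℕ → ℕ)
      (G : ℕ → PtT F → ℕ → MvPolynomial (Option (Fin m)) ℝ)
      (H : ℕ → LnT F → ℕ → MvPolynomial (Option (Fin m)) ℝ)
      (Sv : PtT F → ℕ → Option (Fin m) → ℝ) (B₁ : F.Ω → Prop),
      WinB F c r D Dr N M C₀ a Eb ηm o η σ lv b κ z B g₀ G H →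
      κ ≤ κ' → Sub B A → Sub B₁ B → κ₀ * Pe F.p A ≤ Pe F.p B₁ → (∀ y l, CvC c l (Sv y l)) →
      (∀ ω, B₁ ω → ∀ k ∈ LS, Nc c (g₀ k) ⌊o k * J⌋₊ (r + 1) (2 ^ ⌊ζ * J⌋₊) (Sv (ptr F J ω))
        (fun l => grd (G k (ptr F J ω) l) (bt F ω))) →
      ∃ B' : F.Ω → Prop, Sub B' B₁ ∧
        Pe F.p B₁ ≤ (C : ℝ) ^ (L₁.length + L.length + L₃.length) * Pe F.p B' ∧
        (∀ k ∈ L₁, ROutB F c r ⌊o k * J⌋₊ ⌊C * ζ * J⌋₊ (g₀ k) B' (G k) (H k)) ∧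
        (∀ k ∈ L, LvT F c r ⌊o k * J⌋₊ ⌊C * ζ * J⌋₊ (⌊(Eb + 2 * ηm) * J⌋₊ + ⌊C * ζ * J⌋₊) (g₀ k)
          (G k) Sv B') ∧
        ∀ k ∈ L₃, NatH F c ⌊o k * J⌋₊ (g₀ k) B' (G k) ⌊(C * ζ + 2 * υ) * J⌋₊ 3) := by
  obtain ⟨C₁, hC₁, hrout⟩ := winb_rout m D r hD
  obtain ⟨C₂, hC₂, hlow⟩ := natb_low m D r C₁ hD hr
  have hC₁R : (1 : ℝ) ≤ C₁ := by exact_mod_cast hC₁
  have hC₂R : (1 : ℝ) ≤ C₂ := by exact_mod_cast hC₂
  rcases Nat.lt_or_ge r 3 with hr3 | hr3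
  · obtain ⟨C, hC⟩ : ∃ C, C = C₁ + C₂ + 32 := ⟨_, rfl⟩
    have hCR : (C : ℝ) = C₁ + C₂ + 32 := by rw [hC]; push_cast; ring
    refine ⟨C, by omega, ?_⟩
    intro S P θ c C₀ a Eb ηm ζ υ e h κ₀ o η σ lv Dr N M W LS L₁ L L₃ q pb hP hT hc hDr hh
      hhζ hυ hκ₀ hCη hEe hLS hL₁ hL hpl hnum hdeep h3
    have hζ : 0 < ζ := lt_of_lt_of_le hh hhζ
    have hC₁C : (C₁ : ℝ) * ζ ≤ C * ζ := mul_le_mul_of_nonneg_right (by linarith) hζ.le
    have hC₂C : (C₂ : ℝ) * ζ ≤ C * ζ := mul_le_mul_of_nonneg_right (by linarith) hζ.le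
    obtain ⟨κ₁, hκ₁, hb₁⟩ := hrout (C₀ := C₀) (a := a) (Eb := Eb) (ηm := ηm) (ζ := ζ) (κ₀ := κ₀)
      (o := o) (η := η) (σ := σ) (lv := lv) (Dr := Dr) (N := N) (M := M) L₁ hT hc hDr hζ hκ₀ hCη
      (fun k hk => ⟨hLS k (hL₁ k hk).1, by linarith [(hL₁ k hk).2.1], fun l hl =>
        ⟨hC₁C.trans ((hL₁ k hk).2.2 l hl).1, by linarith [((hL₁ k hk).2.2 l hl).2]⟩⟩)
    obtain ⟨κ₂, hκ₂, hb₂⟩ := hlow (C₀ := C₀) (a := a) (Eb := Eb) (ηm := ηm) (η := η) (σ := σ)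
      (κ₀ := κ₀ / 32 ^ L₁.length) (M := M) W LS L₁ L q hP hT hc hDr hh hhζ (by positivity) hCη
      (by linarith) hLS
      (fun k hk => (hL₁ k hk).1) hL hpl
      (fun k hk l hl hlr => by
        have := hnum k hk l hl hlr
        linarith) (fun k hk => hC₂C.trans ((hL₁ k (hL k hk).1).2.2 0 (Nat.zero_le _)).1)
      (fun k hk hr2 => by
        obtain ⟨h1, h2⟩ := hdeep k hk 1 le_rfl (by norm_num) hr2
        exact ⟨h1, by linarith⟩)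
    refine ⟨min κ₁ κ₂, lt_min hκ₁ hκ₂, Bas.mono 0 (hb₁.and hb₂) ?_⟩
    rintro J - F A ⟨hA1, hA2⟩ z κ b B g₀ G H Sv B₁ Wn hκκ hBA hB₁B hκB hSd hS
    have hp := Pe_nonneg F.isLaw
    have hJ0 : (0 : ℝ) ≤ J := Nat.cast_nonneg J
    obtain ⟨B₂, c1, c2, c3⟩ := hA1 z κ b B g₀ G H B₁ Wn (hκκ.trans (min_le_left _ _)) hBA hB₁B hκB
    obtain ⟨B', k1, k2, k3⟩ := hA2 z κ b B g₀ G H Sv B₂ Wn (hκκ.trans (min_le_right _ _)) hBA
      (fun ω hω => hB₁B ω (c1 ω hω)) (by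
        rw [div_mul_eq_mul_div, div_le_iff₀ (by positivity)]
        linarith) hSd (fun ω hω => hS ω (c1 ω hω)) c3
    have hfl : ∀ n : ℕ, (n : ℝ) ≤ C → ⌊(n : ℝ) * ζ * J⌋₊ ≤ ⌊(C : ℝ) * ζ * J⌋₊ := fun n hn =>
      Nat.floor_le_floor (mul_le_mul_of_nonneg_right (mul_le_mul_of_nonneg_right hn hζ.le) hJ0)
    refine ⟨B', fun ω hω => c1 ω (k1 ω hω), ?_, fun k hk => ((c3 k hk).sub k1).mono
      (hfl C₁ (by linarith)), fun k hk => (k3 k hk).sub (fun _ h => h) (hfl C₂ (by linarith))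
      (Nat.add_le_add_left (hfl C₂ (by linarith)) _), fun k hk => absurd (h3 k hk).1 (by omega)⟩
    have h32 : (32 : ℝ) ≤ C := by linarith
    have h1C : (1 : ℝ) ≤ C := by linarith
    calc Pe F.p B₁ ≤ 32 ^ L₁.length * Pe F.p B₂ := c2
      _ ≤ C ^ L₁.length * (C ^ L.length * Pe F.p B') := by
          refine mul_le_mul (pow_le_pow_left₀ (by norm_num) h32 _) (k2.trans
            (mul_le_mul_of_nonneg_right (pow_le_pow_left₀ (by linarith) (by linarith) _) (hp _)))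
            (hp _) (by positivity)
      _ = C ^ (L₁.length + L.length) * Pe F.p B' := by ring
      _ ≤ C ^ (L₁.length + L.length + L₃.length) * Pe F.p B' :=
          mul_le_mul_of_nonneg_right (pow_le_pow_right₀ h1C (by omega)) (hp _)
  obtain ⟨C₃, hC₃, hthr⟩ := lvl_three m D r hD hr3
  obtain ⟨X₀, hX₀⟩ : ∃ X, X = C₃ * (C₂ + C₁ + 10) := ⟨_, rfl⟩
  obtain ⟨C, hC⟩ : ∃ C, C = X₀ + C₁ + C₂ + C₃ + (C₁ + 4) * ((r + 4) * (r + 4)) + 32 := ⟨_, rfl⟩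
  refine ⟨C, by omega, ?_⟩
  intro S P θ c C₀ a Eb ηm ζ υ e h κ₀ o η σ lv Dr N M W LS L₁ L L₃ q pb hP hT hc hDr hh hhζ
    hυ hκ₀ hCη hEe hLS hL₁ hL hpl hnum hdeep h3
  have hζ : 0 < ζ := lt_of_lt_of_le hh hhζ
  have hC₃R : (1 : ℝ) ≤ C₃ := by exact_mod_cast hC₃
  have hXR : (0 : ℝ) ≤ X₀ := Nat.cast_nonneg X₀
  have hCX : (C : ℝ) = X₀ + C₁ + C₂ + C₃ + (C₁ + 4) * ((r + 4) * (r + 4)) + 32 := by
    rw [hC]
    push_cast
    ring
  have hrr : 0 ≤ (C₁ + 4) * (((r : ℝ) + 4) * (r + 4)) := by positivity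
  have hC₁C : (C₁ : ℝ) * ζ ≤ C * ζ := mul_le_mul_of_nonneg_right (by linarith) hζ.le
  have hC₂C : (C₂ : ℝ) * ζ ≤ C * ζ := mul_le_mul_of_nonneg_right (by linarith) hζ.le
  have h32 : (32 : ℝ) ≤ C := by linarith
  have hCR : (1 : ℝ) ≤ C := by linarith
  obtain ⟨κ₁, hκ₁, hb₁⟩ := hrout (C₀ := C₀) (a := a) (Eb := Eb) (ηm := ηm) (ζ := ζ) (κ₀ := κ₀)
    (o := o) (η := η) (σ := σ) (lv := lv) (Dr := Dr) (N := N) (M := M) L₁ hT hc hDr hζ hκ₀ hCη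
    (fun k hk => ⟨hLS k (hL₁ k hk).1, by linarith [(hL₁ k hk).2.1], fun l hl =>
      ⟨hC₁C.trans ((hL₁ k hk).2.2 l hl).1, by linarith [((hL₁ k hk).2.2 l hl).2]⟩⟩)
  obtain ⟨κ', hκ', hb⟩ := hlow (C₀ := C₀) (a := a) (Eb := Eb) (ηm := ηm) (η := η) (σ := σ)
    (κ₀ := κ₀ / 32 ^ L₁.length) (M := M) W LS L₁ L q hP hT hc hDr hh hhζ (by positivity) hCη
    (by linarith) hLS (fun k hk => (hL₁ k hk).1) hL hpl
    (fun k hk l hl hlr => by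
      have := hnum k hk l hl hlr
      linarith) (fun k hk => hC₂C.trans ((hL₁ k (hL k hk).1).2.2 0 (Nat.zero_le _)).1)
    (fun k hk hr2 => by
      obtain ⟨h1, h2⟩ := hdeep k hk 1 le_rfl (by norm_num) hr2
      exact ⟨h1, by linarith⟩)
  obtain ⟨κ₃, hκ₃⟩ : ∃ κ₃ : ℝ, κ₃ = κ₀ / (C ^ L₁.length * C ^ L.length * C ^ L₃.length) :=
    ⟨_, rfl⟩
  have hκ₃0 : 0 < κ₃ := by rw [hκ₃]; positivity
  have h1 := fun (k : ℕ) (hk : k ∈ L₃) => hthr hP hT c hc (W k) (W (pb k)) e h ζ κ₃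
    (hL k (h3 k hk).2.1).2.2.1 (hL k (h3 k hk).2.1).2.2.2.1.le (hL k (h3 k hk).2.1).2.2.2.2
    (hL _ (h3 k hk).2.2.1).2.2.1 (hL _ (h3 k hk).2.2.1).2.2.2.1.le
    (hL _ (h3 k hk).2.2.1).2.2.2.2 hh (hpl k (h3 k hk).2.1 0 (by norm_num) (by omega)).1
    (hpl k (h3 k hk).2.1 1 (by norm_num) (by omega)).1
    (hpl k (h3 k hk).2.1 2 (by norm_num) (by omega)).1
    (hpl _ (h3 k hk).2.2.1 1 (by norm_num) (by omega)).1 hζ hκ₃0
  choose κf hκf hbf using h1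
  obtain ⟨κ₄, hκ₄, hκm⟩ := min_mem L₃ hκf
  obtain ⟨J₁, hJ₁⟩ := exists_nat_gt (1 / ζ)
  refine ⟨min κ₁ (min κ' κ₄), lt_min hκ₁ (lt_min hκ' hκ₄),
    Bas.mono J₁ ((hb₁.and hb).and (bas_mem L₃ hbf)) ?_⟩
  rintro J hJ F A ⟨⟨hA1, hA2⟩, hA⟩ z κ b B g₀ G H Sv B₁ Wn hκκ hBA hB₁B hκB hSd hS
  have hp := Pe_nonneg F.isLaw
  obtain ⟨B₂, x1, x2, x3⟩ := hA1 z κ b B g₀ G H B₁ Wn (hκκ.trans (min_le_left _ _)) hBA hB₁B hκB
  have hB₂B : Sub B₂ B := fun ω hω => hB₁B ω (x1 ω hω)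
  have hκκ2 : κ ≤ min κ' κ₄ := hκκ.trans (min_le_right _ _)
  obtain ⟨B₃, c1, c2, c3⟩ := hA2 z κ b B g₀ G H Sv B₂ Wn (hκκ2.trans (min_le_left _ _)) hBA hB₂B
    (by
      rw [div_mul_eq_mul_div, div_le_iff₀ (by positivity)]
      linarith) hSd (fun ω hω => hS ω (x1 ω hω)) x3
  have hJ0 : (0 : ℝ) ≤ J := Nat.cast_nonneg J
  have hζJ : 1 ≤ ζ * J := by
    have : 1 / ζ < J := hJ₁.trans_le (by exact_mod_cast hJ)
    rw [div_lt_iff₀ hζ] at this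
    linarith
  obtain ⟨Y, hY⟩ : ∃ Y : ℕ, Y = ⌊ζ * J⌋₊ + 1 := ⟨_, rfl⟩
  have hY1 : ζ * J ≤ Y := by
    rw [hY]
    push_cast
    exact (Nat.lt_floor_add_one _).le
  have hY2 : (Y : ℝ) ≤ 2 * (ζ * J) := by
    rw [hY]
    push_cast
    have := Nat.floor_le (by linarith : 0 ≤ ζ * (J : ℝ))
    linarith
  obtain ⟨K, hK0⟩ : ∃ K, K = ⌊C₁ * ζ * J⌋₊ := ⟨_, rfl⟩
  have hKR : (K : ℝ) ≤ C₁ * (ζ * J) := by
    rw [hK0, mul_assoc]
    exact Nat.floor_le (by positivity)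
  obtain ⟨X, hX⟩ : ∃ X, X = Y + K := ⟨_, rfl⟩
  have hYp : (2 : ℝ) ^ ⌊ζ * J⌋₊ ≤ 2 ^ X := pow_le_pow_right₀ (by norm_num) (by omega)
  have hYone : 1 ≤ Y := by omega
  -- the constants
  obtain ⟨K₂, hK₂⟩ : ∃ K₂, K₂ = ⌊C₂ * ζ * J⌋₊ := ⟨_, rfl⟩
  obtain ⟨k₁, hk₁⟩ : ∃ k₁, k₁ = K₂ + X := ⟨_, rfl⟩
  obtain ⟨E, hE⟩ : ∃ E, E = k₁ + 3 * Y + 1 := ⟨_, rfl⟩
  have hK₂R : (K₂ : ℝ) ≤ C₂ * (ζ * J) := by
    rw [hK₂]
    refine (Nat.floor_le (by positivity)).trans (le_of_eq (by ring))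
  have hER : (E : ℝ) ≤ (C₂ + C₁ + 10) * (ζ * J) := by
    rw [hE, hk₁, hX]
    push_cast
    linarith
  obtain ⟨Λ, hΛ⟩ : ∃ Λ : ℝ, Λ = X₀ * (ζ * J) := ⟨_, rfl⟩
  have hCER : ((C₃ * E : ℕ) : ℝ) ≤ Λ := by
    rw [hΛ, hX₀]
    push_cast
    have := mul_le_mul_of_nonneg_left hER (by linarith : (0 : ℝ) ≤ C₃)
    linarith
  have hΛ0 : 0 ≤ Λ := by rw [hΛ]; positivity
  have hCζ : Λ + C₁ * (ζ * J) + C₂ * (ζ * J) + (C₁ + 4) * ((r + 4) * (r + 4)) * (ζ * J) +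
      32 * (ζ * J) ≤ C * ζ * J := by
    rw [hΛ, hCX]
    have : 0 ≤ C₃ * (ζ * J) := by positivity
    linarith
  have hrrJ : 0 ≤ (C₁ + 4) * (((r : ℝ) + 4) * (r + 4)) * (ζ * J) := by positivity
  have hC₂J : 0 ≤ C₂ * (ζ * J) := by positivity
  have hC₁J : 0 ≤ C₁ * (ζ * J) := by positivity
  obtain ⟨u, hu⟩ : ∃ u, u = ⌊υ * J⌋₊ := ⟨_, rfl⟩
  have hυJ : 0 ≤ υ * J := mul_nonneg hυ hJ0
  have hu1 : (u : ℝ) ≤ υ * J := by rw [hu]; exact Nat.floor_le hυJ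
  have hu2 : υ * J ≤ u + 1 := by rw [hu]; exact (Nat.lt_floor_add_one _).le
  obtain ⟨e₀, he₀⟩ : ∃ e₀, e₀ = ⌊(Eb + 2 * ηm) * J⌋₊ := ⟨_, rfl⟩
  rw [← he₀, ← hK₂] at c3
  have hKC : K₂ ≤ ⌊C * ζ * J⌋₊ := Nat.le_floor (by linarith)
  have hKC1 : K ≤ ⌊C * ζ * J⌋₊ := Nat.le_floor (by linarith)
  -- the windows
  have hstep : ∀ k ∈ L₃, ∀ B' : F.Ω → Prop, Sub B' B₃ →
      Pe F.p B₃ ≤ (C : ℝ) ^ L₃.length * Pe F.p B' →
      ∃ B'' : F.Ω → Prop, Sub B'' B' ∧ Pe F.p B' ≤ (C : ℝ) * Pe F.p B'' ∧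
        NatH F c ⌊o k * J⌋₊ (g₀ k) B'' (G k) ⌊(C * ζ + 2 * υ) * J⌋₊ 3 := by
    intro k hk B' hB' hPB'
    obtain ⟨-, hkL, hbL, hWW, hpu, hpz⟩ := h3 k hk
    obtain ⟨hk1, hok, hW0, hW1, heW⟩ := hL k hkL
    obtain ⟨hb1, hob, hWb0, hWb1, heWb⟩ := hL _ hbL
    obtain ⟨hkS, hok1, hlvk⟩ := hL₁ k hk1
    obtain ⟨hbS, -, hlvb⟩ := hL₁ _ hb1
    have hkN := hLS k hkS
    have hbN := hLS _ hbS
    have hηm0 : 0 ≤ ηm := (Wn.hη k hkN).1.trans (Wn.hη k hkN).2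
    have hηζ : ηm ≤ ζ := (le_mul_of_one_le_left hηm0 Wn.C1).trans hCη
    have hηJ : ηm * J ≤ ζ * J := mul_le_mul_of_nonneg_right hηζ hJ0
    have hηJ0 : 0 ≤ ηm * J := mul_nonneg hηm0 hJ0
    have hB'₂ : Sub B' B₂ := fun ω hω => c1 ω (hB' ω hω)
    have hB'₁ : Sub B' B₁ := fun ω hω => x1 ω (hB'₂ ω hω)
    have hB'B : Sub B' B := fun ω hω => hB₁B ω (hB'₁ ω hω)
    have hEb := Wn.Eb0
    have hEbJ : 0 ≤ Eb * J := mul_nonneg hEb hJ0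
    have hfE : (e₀ : ℝ) ≤ Eb * J + 2 * (ζ * J) := by
      rw [he₀]
      refine (Nat.floor_le (mul_nonneg (by linarith) hJ0)).trans ?_
      rw [add_mul]
      linarith
    have hSk : ∀ k ∈ LS, ∀ ω, B' ω → Nc c (g₀ k) ⌊o k * J⌋₊ (r + 1) (2 ^ X) (Sv (ptr F J ω))
        (fun l => grd (G k (ptr F J ω) l) (bt F ω)) := fun k hk ω hω =>
      (hS ω (hB'₁ ω hω) k hk).mono hYp
    have hRk : ∀ k ∈ L₁, ROutB F c r ⌊o k * J⌋₊ K (g₀ k) B' (G k) (H k) := fun k hk => by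
      rw [hK0]
      exact (x3 k hk).sub hB'₂
    have hWok := winb_ok Wn hkN hB'B (show K ≤ X by omega) (hRk k hk1) hSd (hSk k hkS)
    rw [← he₀] at hWok
    have hWR : (0 : ℝ) ≤ W k := by exact_mod_cast hW0
    have hWbR : (0 : ℝ) ≤ W (pb k) := by exact_mod_cast hWb0
    have hWb1R : (W (pb k) : ℝ) < 1 := by exact_mod_cast hWb1
    obtain ⟨a₀, ha₀⟩ : ∃ a₀, a₀ = ⌊o k * J⌋₊ := ⟨_, rfl⟩
    obtain ⟨b₀, hb₀⟩ : ∃ b₀, b₀ = ⌊o (pb k) * J⌋₊ := ⟨_, rfl⟩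
    have hab : a₀ ≤ b₀ := by
      rw [ha₀, hb₀]
      exact Nat.floor_le_floor (mul_le_mul_of_nonneg_right hWW hJ0)
    have haW : ⌊o k * J⌋₊ ≤ ⌊(W k : ℝ) * J⌋₊ :=
      Nat.floor_le_floor (mul_le_mul_of_nonneg_right hok hJ0)
    have hbW : ⌊o (pb k) * J⌋₊ ≤ ⌊(W (pb k) : ℝ) * J⌋₊ :=
      Nat.floor_le_floor (mul_le_mul_of_nonneg_right hob hJ0)
    have hbJ : b₀ ≤ J := by
      rw [hb₀]
      refine hbW.trans ?_
      have h2 : ((W (pb k) : ℚ) : ℝ) * J ≤ J := by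
        have := mul_le_mul_of_nonneg_right hWb1R.le hJ0
        rwa [one_mul] at this
      have h3 := Nat.floor_le_floor h2
      rwa [Nat.floor_natCast] at h3
    have ha₀R : (a₀ : ℝ) ≤ o k * J := by
      rw [ha₀]
      exact Nat.floor_le (mul_nonneg (Wn.ho k hkN).1 hJ0)
    have hgk := fun (l : ℕ) (hl : l ≤ r) => Wn.g_num hkN hl
    have hgb := fun (l : ℕ) (hl : l ≤ r) => Wn.g_num hbN hl
    obtain ⟨ψ, ψH, f1, f2, f3⟩ := (c3 k hkL).sub (k' := k₁) (e' := e₀ + k₁) hB' (by omega)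
      (by omega)
    obtain ⟨ψ₁, ψH₁, f4, f5, -⟩ := (c3 _ hbL).sub (k' := k₁) (e' := e₀ + k₁) hB' (by omega)
      (by omega)
    have hmin : min 3 (r + 1) = 3 := by omega
    rw [hmin, ← ha₀] at f1 f2
    rw [hmin, ← hb₀] at f4 f5
    rw [← ha₀] at f3
    have hpla : ∀ k' ∈ L, ∀ l < 3, ∀ a', a' = ⌊o k' * J⌋₊ →
        ⌊(bet P c l (W k') (W k') + h) * J⌋₊ + a' ≤ g₀ k' l + 3 * Y + ⌊(W k' : ℝ) * J⌋₊ := by
      intro k' hk' l hl a' ha'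
      obtain ⟨hk1', hok', hW0', hW1', -⟩ := hL k' hk'
      obtain ⟨-, -, g1, -⟩ := Wn.g_num (hLS k' (hL₁ k' hk1').1) (show l ≤ r by omega)
      obtain ⟨h2, h3⟩ := hpl k' hk' l hl (by omega)
      have hWR' : (0 : ℝ) ≤ W k' := by exact_mod_cast hW0'
      have h4 : (⌊(bet P c l (W k') (W k') + h) * J⌋₊ : ℝ) ≤
          (bet P c l (W k') (W k') + h) * J := by
        refine Nat.floor_le (mul_nonneg ?_ hJ0)
        have : (0 : ℝ) ≤ bet P c l (W k') (W k') := hWR'.trans (hP.low _ _ _ hWR' le_rfl (by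
          exact_mod_cast hW1'.le))
        linarith
      have h5 := mul_le_mul_of_nonneg_right h3 hJ0
      have h6 := mul_le_mul_of_nonneg_right hhζ hJ0
      have h7 : ((⌊(bet P c l (W k') (W k') + h) * J⌋₊ : ℕ) : ℝ) ≤
          ((g₀ k' l + 3 * Y : ℕ) : ℝ) := by
        push_cast
        have e1 := add_mul (bet P c l (W k') (W k')) h (J : ℝ)
        rw [add_mul] at h5
        linarith
      have h8 : ⌊(bet P c l (W k') (W k') + h) * J⌋₊ ≤ g₀ k' l + 3 * Y := by exact_mod_cast h7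
      have h9 : ⌊o k' * J⌋₊ ≤ ⌊(W k' : ℝ) * J⌋₊ :=
        Nat.floor_le_floor (mul_le_mul_of_nonneg_right hok' hJ0)
      rw [ha']
      omega
    have hnumJ : ∀ k' ∈ L, ∀ l ≤ 2, Eb * J + lv k' l * J + C * ζ * J + υ * J ≤ J := by
      intro k' hk' l hl
      have h2 := mul_le_mul_of_nonneg_right (hnum k' hk' l hl (by omega)) hJ0
      rw [add_mul, add_mul, add_mul, one_mul] at h2
      exact h2
    have heJ : e₀ + C₃ * E + u ≤ ⌊e * J⌋₊ := by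
      refine Nat.le_floor ?_
      push_cast at hCER ⊢
      have := mul_le_mul_of_nonneg_right hEe hJ0
      rw [add_mul, add_mul] at this
      linarith
    have hX2 : (((r + 4) * (r + 4) * (X + 1) + (C₃ * E + u) + 1 : ℕ) : ℝ) ≤
        (C₁ + 4) * ((r + 4) * (r + 4)) * (ζ * J) + Λ + υ * J + ζ * J := by
      have hXJ : (X : ℝ) + 1 ≤ (C₁ + 4) * (ζ * J) := by
        rw [hX]
        push_cast
        linarith
      push_cast at hCER ⊢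
      have h4 : ((r : ℝ) + 4) * (r + 4) * (X + 1) ≤ (r + 4) * (r + 4) * ((C₁ + 4) * (ζ * J)) :=
        mul_le_mul_of_nonneg_left hXJ (by positivity)
      linarith
    obtain ⟨B'', k1, k2, k3⟩ := hA k hk a₀ a₀ 0 b₀ e₀ e₀ X k₁ (3 * Y) u 0 (g₀ k)
      (g₀ k) (g₀ (pb k)) _ (G k) (H k) (G k) (H k) _ Sv ψ ψ₁ ψH ψH₁ B B' hab hbJ
      (by rw [ha₀]; exact haW) (by rw [hb₀]; exact hbW) (hY1.trans (by
        have : Y ≤ k₁ := by omega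
        exact_mod_cast this)) (by omega) (by
        rw [← hE]
        have h2 := mul_le_mul_of_nonneg_right hok1 hJ0
        rw [add_mul, one_mul] at h2
        have h3 : ((a₀ + C₃ * E : ℕ) : ℝ) ≤ (J : ℕ) := by
          push_cast at hCER ⊢
          linarith
        exact_mod_cast h3) (by rw [← hE]; exact heJ) (by rw [← hE]; exact heJ) (fun j hj => by
        rw [← hE]
        obtain ⟨-, -, -, g2⟩ := hgk j (by omega)
        have h2 := hnumJ k hkL j hj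
        have h3 : ((e₀ + g₀ k j + C₃ * E + u : ℕ) : ℝ) ≤ (J : ℕ) := by
          push_cast at hCER ⊢
          linarith
        exact_mod_cast h3) (fun j hj => by
        rw [← hE]
        obtain ⟨-, -, -, g2⟩ := hgb j (by omega)
        have h2 := hnumJ _ hbL j (by omega)
        have h3 : ((e₀ + g₀ (pb k) j + C₃ * E + u : ℕ) : ℝ) ≤ (J : ℕ) := by
          push_cast at hCER ⊢
          linarith
        exact_mod_cast h3) (by
        obtain ⟨-, -, -, g2⟩ := hgk 3 hr3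
        have h2 := mul_le_mul_of_nonneg_right (hlvk 3 hr3).2 hJ0
        rw [add_mul, add_mul, one_mul] at h2
        have h3 : ((g₀ k 3 : ℕ) : ℝ) ≤ (J : ℕ) := by linarith
        exact_mod_cast h3) (fun l hl => by
        rw [← hE]
        obtain ⟨-, -, g1, -⟩ := hgk l (by omega)
        have h2 : C * ζ * J ≤ lv k l * J := mul_le_mul_of_nonneg_right (hlvk l (by omega)).1 hJ0
        have h3 : ((C₃ * E : ℕ) : ℝ) ≤ (g₀ k l : ℕ) := by linarith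
        exact_mod_cast h3) (by
        rw [← hE]
        obtain ⟨-, -, g1, -⟩ := hgb 0 (by omega)
        have h2 := mul_le_mul_of_nonneg_right (hlvb 0 (Nat.zero_le _)).1 hJ0
        have h3 : ((C₃ * E : ℕ) : ℝ) ≤ (g₀ (pb k) 0 : ℕ) := by linarith
        exact_mod_cast h3) (fun l hl => hpla k hkL l (by omega) a₀ ha₀)
      (hpla _ hbL 1 (by norm_num) b₀ hb₀) (by
        obtain ⟨-, -, -, x1⟩ := hgb 1 (by omega)
        obtain ⟨-, -, -, x2⟩ := hgk 0 (by omega)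
        obtain ⟨-, -, x3, -⟩ := hgb 0 (by omega)
        obtain ⟨-, -, x4, -⟩ := hgk 1 (by omega)
        have h2 := mul_le_mul_of_nonneg_right hpu hJ0
        rw [add_mul, add_mul, sub_mul, sub_mul] at h2
        have h3 : ((g₀ (pb k) 1 + g₀ k 0 : ℕ) : ℝ) ≤ ((u + g₀ (pb k) 0 + g₀ k 1 : ℕ) : ℝ) := by
          push_cast
          linarith
        exact_mod_cast h3) (fun l hl => by
        rw [← hE]
        obtain ⟨-, -, -, x1⟩ := hgk (l + 1) (by omega)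
        obtain ⟨-, -, -, x2⟩ := hgb 0 (by omega)
        obtain ⟨-, -, x3, -⟩ := hgk 0 (by omega)
        obtain ⟨-, -, x4, -⟩ := hgb (l + 1) (by omega)
        have h2 := mul_le_mul_of_nonneg_right (hpz l hl) hJ0
        rw [add_mul, sub_mul, sub_mul] at h2
        have h3 : ((g₀ k (l + 1) + g₀ (pb k) 0 + C₃ * E : ℕ) : ℝ) ≤
            ((g₀ k 0 + g₀ (pb k) (l + 1) : ℕ) : ℝ) := by
          push_cast at hCER ⊢
          linarith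
        exact_mod_cast h3) hB'B hBA (by
        have h2 : κ₀ * Pe F.p A ≤ C ^ L₁.length * C ^ L.length * C ^ L₃.length * Pe F.p B' := by
          calc κ₀ * Pe F.p A ≤ Pe F.p B₁ := hκB
            _ ≤ 32 ^ L₁.length * Pe F.p B₂ := x2
            _ ≤ 32 ^ L₁.length * (C₂ ^ L.length * Pe F.p B₃) :=
                mul_le_mul_of_nonneg_left c2 (by positivity)
            _ ≤ C ^ L₁.length * (C ^ L.length * (C ^ L₃.length * Pe F.p B')) := by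
                refine mul_le_mul (pow_le_pow_left₀ (by norm_num) h32 _) (mul_le_mul
                  (pow_le_pow_left₀ (by linarith) (by linarith) _) hPB' (hp _) (by positivity))
                  (mul_nonneg (by positivity) (hp _)) (by positivity)
            _ = _ := by ring
        rw [hκ₃, div_mul_eq_mul_div, div_le_iff₀ (by positivity)]
        linarith) (by
        rw [ha₀]
        exact hWok) f1 f4 f2 f5 (fun l hl => f3 l hl (by omega)) (by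
        intro ω hω l hl1 hl3
        rw [← hE, ha₀]
        obtain ⟨hq1, hqv⟩ := hdeep k hkL l hl1 (by omega) (by omega)
        refine winb_deep Wn hkN (hLS _ (hL₁ _ hq1).1) (by omega) (show K ≤ X by omega) (hRk _ hq1)
          (hSk _ (hL₁ _ hq1).1) ?_ ω hω
        have h2 := mul_le_mul_of_nonneg_right hqv hJ0
        rw [add_mul, add_mul] at h2
        linarith) (by
        intro ω hω l hl1 hl3
        rw [← hE, hb₀]
        obtain ⟨hq1, hqv⟩ := hdeep _ hbL l hl1 (by omega) (by omega)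
        refine winb_deep Wn hbN (hLS _ (hL₁ _ hq1).1) (by omega) (show K ≤ X by omega) (hRk _ hq1)
          (hSk _ (hL₁ _ hq1).1) ?_ ω hω
        have h2 := mul_le_mul_of_nonneg_right hqv hJ0
        rw [add_mul, add_mul] at h2
        linarith) (by
        have h2 : (⌊η k * J⌋₊ : ℝ) ≤ X := by
          refine (Nat.floor_le (mul_nonneg (Wn.hη k hkN).1 hJ0)).trans ?_
          have := mul_le_mul_of_nonneg_right (Wn.hη k hkN).2 hJ0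
          have hK00 : (0 : ℝ) ≤ K := Nat.cast_nonneg K
          rw [hX]
          push_cast
          linarith
        rw [ha₀]
        exact Pool.ISO.relvF_exp ((Wn.ev k hkN).relb.mono hDr (hκκ2.trans ((min_le_right _ _).trans
          (hκm k hk)))) (by exact_mod_cast h2))
    have hC₃C : (C₃ : ℝ) ≤ C := by linarith
    rw [← hE] at k3
    rw [← ha₀]
    refine ⟨B'', k1, k2.trans (mul_le_mul_of_nonneg_right hC₃C (hp _)), k3.sub (fun _ h => h)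
      (Nat.le_floor ?_)⟩
    push_cast at hCER ⊢
    rw [add_mul]
    linarith
  obtain ⟨B', d1, d2, d3⟩ := ev_list (fun k B'' => NatH F c ⌊o k * J⌋₊ (g₀ k) B'' (G k)
    ⌊(C * ζ + 2 * υ) * J⌋₊ 3) hCR (fun k B B' h hB => h.sub hB le_rfl) L₃ B₃ hstep
  rw [← he₀]
  refine ⟨B', fun ω hω => x1 ω (c1 ω (d1 ω hω)), ?_, fun k hk => ?_, fun k hk => (c3 k hk).sub d1
    hKC (by omega), d3⟩
  · calc Pe F.p B₁ ≤ 32 ^ L₁.length * Pe F.p B₂ := x2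
      _ ≤ 32 ^ L₁.length * (C₂ ^ L.length * Pe F.p B₃) :=
          mul_le_mul_of_nonneg_left c2 (by positivity)
      _ ≤ C ^ L₁.length * (C ^ L.length * (C ^ L₃.length * Pe F.p B')) := by
          refine mul_le_mul (pow_le_pow_left₀ (by norm_num) h32 _) (mul_le_mul
            (pow_le_pow_left₀ (by linarith) (by linarith) _) d2 (hp _) (by positivity))
            (mul_nonneg (by positivity) (hp _)) (by positivity)
      _ = _ := by ring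
  · have h4 := (x3 k hk).sub (fun ω hω => c1 ω (d1 ω hω))
    rw [← hK0] at h4
    exact h4.mono hKC1

end Pool.D2R
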