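import Pool.Agent.H23.D2.Env
import Pool.Agent.H60.D2.Fra

/-!
# One system of covectors natural at all windows

`cv_star`: a chain of lists of covectors, each near the next one in the natural units of the next
one. If the sides grow in a fixed order of the pairs, there is one list which is near all of them.
`star_out`: one visible affine system, natural at all windows of a chain.
-/

set_option autoImplicit false

namespace Pool.D2R

open Finset Real MvPolynomial
open Pool.Agent.H49.Ent Pool.Agent.H32.Dense Pool.STK Pool.KA Pool.KSAT Pool.K2S Pool.PB Pool.S6C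
open Pool.GEN Pool.CHT Pool.CHX Pool.ISO Pool.D2F Pool.D2Z

variable {m J : ℕ}

/-- The exponents of the natural units. -/
def wt (g : ℕ → ℕ) (a : ℕ) : ℕ → ℕ
  | 0 => a
  | l + 1 => g l

theorem eta_wt (c : ℕ → Fin m) (g : ℕ → ℕ) (a : ℕ) (χ : ℕ → Option (Fin m) → ℝ)
    (V : Option (Fin m) → ℝ) (j : ℕ) :
    eta c g a χ V j = 2 ^ wt g a j * eta c (fun _ => 0) 0 χ V j := by
  cases j with
  | zero => simp [eta, wt]
  | succ l => simp [eta, wt]

theorem en_wt (c : ℕ → Fin m) (g : ℕ → ℕ) (a : ℕ) (χ : ℕ → Option (Fin m) → ℝ) (l : ℕ)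
    (V : Option (Fin m) → ℝ) : en c g a χ l V =
      ∑ j ∈ range (l + 1), 2 ^ wt g a j * |eta c (fun _ => 0) 0 χ V j| := by
  unfold en
  refine Finset.sum_congr rfl fun j _ => ?_
  rw [eta_wt, abs_mul, abs_of_pos (by positivity)]

theorem eta_cong {c : ℕ → Fin m} {g : ℕ → ℕ} {a : ℕ} {χ χ' : ℕ → Option (Fin m) → ℝ} {l : ℕ}
    (h : ∀ j < l, χ j = χ' j) (V : Option (Fin m) → ℝ) {j : ℕ} (hj : j ≤ l) :
    eta c g a χ V j = eta c g a χ' V j := by
  cases j with
  | zero => rfl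
  | succ i =>
    simp only [eta]
    rw [h i hj]

theorem en_cong {c : ℕ → Fin m} {g : ℕ → ℕ} {a : ℕ} {χ χ' : ℕ → Option (Fin m) → ℝ} {l : ℕ}
    (h : ∀ j < l, χ j = χ' j) (V : Option (Fin m) → ℝ) :
    en c g a χ l V = en c g a χ' l V := by
  unfold en
  exact Finset.sum_congr rfl fun j hj => by
    rw [eta_cong h V (Nat.lt_succ_iff.1 (Finset.mem_range.1 hj))]

theorem dd_afp (x : Option (Fin m) → ℝ) (v : ℝ) (ψ b V : Option (Fin m) → ℝ) :
    dd (afp x v ψ) b V = cv ψ V := by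
  unfold dd cv
  exact Finset.sum_congr rfl fun o _ => by rw [pd_afp]

/-- A vector with given natural coordinates. -/
theorem ex_vec {c : ℕ → Fin m} {l : ℕ} (hc : Set.InjOn c (Set.Iio l))
    {χ : ℕ → Option (Fin m) → ℝ} (hχ : ∀ j, CvC c j (χ j)) (y : ℕ → ℝ) :
    ∃ V : Option (Fin m) → ℝ, ∀ j ≤ l, eta c (fun _ => 0) 0 χ V j = y j := by
  obtain ⟨W, h1, h2⟩ := vec_adapt hc (G := fun j => afp 0 0 (χ j)) (fun j => dep_afp _ _ (hχ j))
    0 (y 0) (fun j => y (j + 1)) l le_rfl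
  refine ⟨W, fun j hj => ?_⟩
  cases j with
  | zero =>
    simp only [eta, pow_zero, one_mul]
    exact h1
  | succ i =>
    simp only [eta, pow_zero, one_mul]
    have h3 := h2 i hj
    rw [dd_afp] at h3
    exact h3

/-- Two vectors with the same natural coordinates. -/
theorem eta_inj {c : ℕ → Fin m} {l : ℕ} {χ : ℕ → Option (Fin m) → ℝ}
    (hχ : ∀ j, CvC c j (χ j)) {V W : Option (Fin m) → ℝ}
    (h : ∀ j ≤ l, eta c (fun _ => 0) 0 χ V j = eta c (fun _ => 0) 0 χ W j) :
    V none = W none ∧ ∀ j < l, V (some (c j)) = W (some (c j)) := by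
  have h0 : V none = W none := by
    have := h 0 (Nat.zero_le l)
    simpa [eta] using this
  refine ⟨h0, fun j => ?_⟩
  induction j using Nat.strong_induction_on with
  | _ j ih =>
    intro hj
    have h1 := h (j + 1) hj
    simp only [eta, pow_zero, one_mul] at h1
    have h2 : cv (χ j) V = cv (χ j) W := cv_congr (hχ j) h0 fun i hi => ih i hi (by omega)
    rw [h2] at h1
    linarith

/-- **The natural components of a covector.** -/
theorem cv_exp {c : ℕ → Fin m} {l : ℕ} (hc : Set.InjOn c (Set.Iio l))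
    {χ : ℕ → Option (Fin m) → ℝ} (hχ : ∀ j, CvC c j (χ j)) {g : ℕ → ℕ} {a : ℕ}
    {φ : Option (Fin m) → ℝ} (hφ : CvC c l φ) {M : ℝ}
    (hM : ∀ V, |cv φ V| ≤ M * en c g a χ l V) :
    ∃ b : ℕ → ℝ, (∀ j ≤ l, |b j| ≤ M * 2 ^ wt g a j) ∧
      ∀ V, cv φ V = ∑ j ∈ range (l + 1), b j * eta c (fun _ => 0) 0 χ V j := by
  classical
  have h1 := fun i : ℕ => ex_vec hc hχ (fun j => if j = i then 1 else 0)
  choose W hW using h1
  refine ⟨fun i => cv φ (W i), fun i hi => ?_, fun V => ?_⟩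
  · refine (hM (W i)).trans (le_of_eq ?_)
    rw [en_wt]
    congr 1
    rw [Finset.sum_eq_single i]
    · rw [hW i i hi, if_pos rfl, abs_one, mul_one]
    · intro j hj hji
      rw [hW i j (Nat.lt_succ_iff.1 (Finset.mem_range.1 hj)), if_neg hji, abs_zero, mul_zero]
    · intro h
      exact absurd (Finset.mem_range.2 (Nat.lt_succ_of_le hi)) h
  · obtain ⟨V', hV'⟩ : ∃ V' : Option (Fin m) → ℝ, V' = ∑ j ∈ range (l + 1),
        eta c (fun _ => 0) 0 χ V j • W j := ⟨_, rfl⟩
    have hes : ∀ (s : Finset ℕ) (i : ℕ), eta c (fun _ => 0) 0 χ (∑ j ∈ s,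
        eta c (fun _ => 0) 0 χ V j • W j) i = ∑ j ∈ s, eta c (fun _ => 0) 0 χ V j *
          eta c (fun _ => 0) 0 χ (W j) i := by
      intro s i
      induction s using Finset.induction_on with
      | empty =>
        rw [Finset.sum_empty, Finset.sum_empty]
        cases i with
        | zero => simp [eta]
        | succ i => simp [eta, cv]
      | insert k s hk ih => rw [Finset.sum_insert hk, Finset.sum_insert hk, eta_add, eta_smul, ih]
    have hcs : ∀ s : Finset ℕ, cv φ (∑ j ∈ s, eta c (fun _ => 0) 0 χ V j • W j) =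
        ∑ j ∈ s, eta c (fun _ => 0) 0 χ V j * cv φ (W j) := by
      intro s
      induction s using Finset.induction_on with
      | empty =>
        rw [Finset.sum_empty, Finset.sum_empty]
        simp [cv]
      | insert k s hk ih => rw [Finset.sum_insert hk, Finset.sum_insert hk, cv_add, cv_smul, ih]
    have h2 : ∀ i ≤ l, eta c (fun _ => 0) 0 χ V i = eta c (fun _ => 0) 0 χ V' i := by
      intro i hi
      rw [hV', hes, Finset.sum_eq_single i]
      · rw [hW i i hi, if_pos rfl, mul_one]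
      · intro j hj hji
        rw [hW j i hi, if_neg (Ne.symm hji), mul_zero]
      · intro h
        exact absurd (Finset.mem_range.2 (Nat.lt_succ_of_le hi)) h
    obtain ⟨h3, h4⟩ := eta_inj hχ h2
    rw [cv_congr hφ h3 h4, hV', hcs]
    exact Finset.sum_congr rfl fun j _ => mul_comm _ _

/-- The exponents of `cv_star`. -/
def stE : ℕ → ℕ
  | 0 => 1
  | l + 1 => 1 + (stE l + 1) * (l + 1)

theorem stE_pos (l : ℕ) : 1 ≤ stE l := by
  cases l with
  | zero => exact le_rfl
  | succ l => exact Nat.le_add_right _ _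

/-- **One list near all lists of a chain.** `gd l j`: the side `j` grows at most as the side of
`c l`; otherwise at least. -/
theorem cv_star {c : ℕ → Fin m} {n z : ℕ} {γ : ℕ → ℕ → ℕ} {o : ℕ → ℕ} {K : ℝ}
    {χ : ℕ → ℕ → Option (Fin m) → ℝ} (gd : ℕ → ℕ → Prop) (L : ℕ) (hc : Set.InjOn c (Set.Iio L))
    (hK : 0 ≤ K) (hχ : ∀ k ≤ n, ∀ l < L, CvC c l (χ k l))
    (hst : ∀ k < n, Nc c (γ (k + 1)) (o (k + 1)) L K (χ (k + 1)) (χ k))
    (hg : ∀ k k', k ≤ k' → k' ≤ n → ∀ l < L, ∀ j ≤ l, gd l j →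
      wt (γ k') (o k') j + γ k l ≤ γ k' l + wt (γ k) (o k) j + z)
    (hb : ∀ k k', k ≤ k' → k' ≤ n → ∀ l < L, ∀ j ≤ l, ¬ gd l j →
      wt (γ k) (o k) j + γ k' l ≤ wt (γ k') (o k') j + γ k l + z) :
    ∃ S : ℕ → Option (Fin m) → ℝ, (∀ l, CvC c l (S l)) ∧ ∀ k ≤ n,
      Nc c (γ k) (o k) L ((2 + n * K * 2 ^ z) ^ stE L) S (χ k) := by
  classical
  obtain ⟨Q, hQ⟩ : ∃ Q : ℝ, Q = 2 + n * K * 2 ^ z := ⟨_, rfl⟩
  have hQ2 : 2 ≤ Q := by
    rw [hQ]
    have : 0 ≤ n * K * 2 ^ z := by positivity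
    linarith
  have hQ1 : 1 ≤ Q := by linarith
  rw [← hQ]
  -- the induction
  have key : ∀ l ≤ L, ∃ S : ℕ → Option (Fin m) → ℝ, (∀ l, CvC c l (S l)) ∧ ∀ k ≤ n,
      Nc c (γ k) (o k) l (Q ^ stE l) S (χ k) := by
    intro l
    induction l with
    | zero =>
      intro _
      exact ⟨fun _ => 0, fun _ _ _ => rfl, fun k _ l hl => absurd hl (Nat.not_lt_zero l)⟩
    | succ l ih =>
      intro hl
      obtain ⟨S, hS1, hS2⟩ := ih (by omega)
      obtain ⟨A, hA⟩ : ∃ A : ℝ, A = Q ^ stE l := ⟨_, rfl⟩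
      have hA1 : 1 ≤ A := by rw [hA]; exact one_le_pow₀ hQ1
      rw [← hA] at hS2
      have hc' : Set.InjOn c (Set.Iio l) := hc.mono fun y hy => by
        rw [Set.mem_Iio] at hy ⊢
        omega
      -- the steps
      have hex : ∀ κ, ∃ b : ℕ → ℝ, κ < n → (∀ j ≤ l, |b j| ≤
          K * (1 + A) ^ l / 2 ^ γ (κ + 1) l * 2 ^ wt (γ (κ + 1)) (o (κ + 1)) j) ∧
          ∀ V, cv (χ κ l - χ (κ + 1) l) V =
            ∑ j ∈ range (l + 1), b j * eta c (fun _ => 0) 0 S V j := by
        intro κ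
        by_cases hκ : κ < n
        · obtain ⟨b, h1, h2⟩ := cv_exp (g := γ (κ + 1)) (a := o (κ + 1))
            (φ := χ κ l - χ (κ + 1) l) (M := K * (1 + A) ^ l / 2 ^ γ (κ + 1) l) hc' hS1 (by
            intro k hk
            rw [Pi.sub_apply, hχ κ hκ.le l (by omega) k hk, hχ (κ + 1) hκ l (by omega) k hk,
              sub_zero]) (fun V => by
            refine (hst κ hκ l (by omega) V).trans ?_
            have h3 := (hS2 (κ + 1) hκ).en_le (by linarith) (le_refl l) V
            calc K / 2 ^ γ (κ + 1) l * en c (γ (κ + 1)) (o (κ + 1)) (χ (κ + 1)) l V ≤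
                  K / 2 ^ γ (κ + 1) l * ((1 + A) ^ l *
                    en c (γ (κ + 1)) (o (κ + 1)) S l V) :=
                  mul_le_mul_of_nonneg_left h3 (by positivity)
              _ = _ := by ring)
          exact ⟨b, fun _ => ⟨h1, h2⟩⟩
        · exact ⟨fun _ => 0, fun h => absurd h hκ⟩
      choose b hb' using hex
      obtain ⟨β, hβ⟩ : ∃ β : ℕ → ℝ, β = fun j => if gd l j then ∑ κ ∈ range n, b κ j else 0 :=
        ⟨_, rfl⟩
      obtain ⟨φ, hφ⟩ : ∃ φ : Option (Fin m) → ℝ, φ = if n = 0 ∧ False then 0 else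
        χ 0 l - mk c (fun _ => 0) 0 S l β := ⟨_, rfl⟩
      have hφ' : φ = χ 0 l - mk c (fun _ => 0) 0 S l β := by
        rw [hφ, if_neg (by tauto)]
      have hφc : CvC c l φ := by
        intro k hk
        rw [hφ', Pi.sub_apply, hχ 0 (Nat.zero_le n) l (by omega) k hk,
          cvc_mk hS1 l β k hk, sub_zero]
      obtain ⟨S', hS'⟩ : ∃ S' : ℕ → Option (Fin m) → ℝ, S' = Function.update S l φ := ⟨_, rfl⟩
      have hSl : S' l = φ := by rw [hS']; exact Function.update_self _ _ _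
      have hSj : ∀ j, j ≠ l → S' j = S j := fun j hj => by
        rw [hS']
        exact Function.update_of_ne hj _ _
      have hSS : ∀ j < l, S j = S' j := fun j hj => (hSj j (by omega)).symm
      refine ⟨S', fun j => ?_, fun k hk => ?_⟩
      · by_cases hj : j = l
        · rw [hj, hSl]
          exact hφc
        · rw [hSj j hj]
          exact hS1 j
      -- the new list
      have hAl : n * (K * (1 + A) ^ l) * 2 ^ z ≤ Q ^ stE (l + 1) := by
        have e1 : (1 + A) ^ l ≤ (Q ^ (stE l + 1)) ^ l := by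
          refine pow_le_pow_left₀ (by linarith) ?_ l
          rw [pow_succ, ← hA]
          nlinarith
        have e2 : n * K * 2 ^ z ≤ Q := by rw [hQ]; linarith
        calc n * (K * (1 + A) ^ l) * 2 ^ z = (n * K * 2 ^ z) * (1 + A) ^ l := by ring
          _ ≤ Q * (Q ^ (stE l + 1)) ^ l := mul_le_mul e2 e1 (by positivity) (by linarith)
          _ = Q ^ (1 + (stE l + 1) * l) := by
            rw [← pow_mul, pow_add, pow_one]
          _ ≤ _ := pow_le_pow_right₀ hQ1 (by
            show 1 + (stE l + 1) * l ≤ 1 + (stE l + 1) * (l + 1)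
            nlinarith)
      intro j hj V
      rcases Nat.lt_or_ge j l with h1 | h1
      · rw [hSj j (by omega), ← en_cong (fun i hi => hSS i (by omega)) V]
        refine (hS2 k hk j h1 V).trans (mul_le_mul_of_nonneg_right (div_le_div_of_nonneg_right ?_
          (by positivity)) (en_nonneg _ _ _ _ _ _))
        rw [hA]
        refine pow_le_pow_right₀ hQ1 ?_
        show stE l ≤ 1 + (stE l + 1) * (l + 1)
        nlinarith
      · have h2 : j = l := by omega
        subst h2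
        rw [hSl, ← en_cong hSS V]
        -- the difference
        have htel : ∀ k ≤ n, cv (χ 0 j - χ k j) V = ∑ i ∈ range (j + 1),
            (∑ κ ∈ range k, b κ i) * eta c (fun _ => 0) 0 S V i := by
          intro k
          induction k with
          | zero =>
            intro _
            simp [cv]
          | succ k ihk =>
            intro hk
            have e1 : cv (χ 0 j - χ (k + 1) j) V = cv (χ 0 j - χ k j) V +
                cv (χ k j - χ (k + 1) j) V := by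
              rw [cv_subl, cv_subl, cv_subl]
              ring
            rw [e1, ihk (by omega), (hb' k hk).2 V, ← Finset.sum_add_distrib]
            refine Finset.sum_congr rfl fun i _ => ?_
            rw [Finset.sum_range_succ]
            ring
        have e2 : cv (χ k j - φ) V = ∑ i ∈ range (j + 1),
            (β i - ∑ κ ∈ range k, b κ i) * eta c (fun _ => 0) 0 S V i := by
          have e3 : cv (χ k j - φ) V = cv (mk c (fun _ => 0) 0 S j β) V -
              cv (χ 0 j - χ k j) V := by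
            rw [hφ', cv_subl, cv_subl, cv_subl]
            ring
          rw [e3, cv_mk, htel k hk, ← Finset.sum_sub_distrib]
          exact Finset.sum_congr rfl fun i _ => by ring
        have hbd : ∀ i ≤ j, |β i - ∑ κ ∈ range k, b κ i| ≤
            n * (K * (1 + A) ^ j) * 2 ^ z / 2 ^ γ k j * 2 ^ wt (γ k) (o k) i := by
          intro i hi
          have hone : ∀ κ < n, (gd j i → k ≤ κ) → (¬ gd j i → κ < k) → |b κ i| ≤
              K * (1 + A) ^ j * 2 ^ z / 2 ^ γ k j * 2 ^ wt (γ k) (o k) i := by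
            intro κ hκ h5 h6
            refine ((hb' κ hκ).1 i hi).trans ?_
            have h7 : wt (γ (κ + 1)) (o (κ + 1)) i + γ k j ≤
                γ (κ + 1) j + wt (γ k) (o k) i + z := by
              by_cases h8 : gd j i
              · exact hg k (κ + 1) (by have := h5 h8; omega) hκ j (by omega) i hi h8
              · have := hb (κ + 1) k (by have := h6 h8; omega) hk j (by omega) i hi h8
                omega
            rw [div_mul_eq_mul_div, div_mul_eq_mul_div, div_le_div_iff₀ (by positivity)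
              (by positivity)]
            have h8 : (2 : ℝ) ^ wt (γ (κ + 1)) (o (κ + 1)) i * 2 ^ γ k j ≤
                2 ^ z * 2 ^ wt (γ k) (o k) i * 2 ^ γ (κ + 1) j := by
              rw [← pow_add, ← pow_add, ← pow_add]
              exact pow_le_pow_right₀ (by norm_num) (by omega)
            have h9 := mul_le_mul_of_nonneg_left h8
              (show 0 ≤ K * (1 + A) ^ j by positivity)
            linarith
          have hmul : ∀ s : Finset ℕ, s ⊆ range n → (∀ κ ∈ s, gd j i → k ≤ κ) →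
              (∀ κ ∈ s, ¬ gd j i → κ < k) → |∑ κ ∈ s, b κ i| ≤
              n * (K * (1 + A) ^ j) * 2 ^ z / 2 ^ γ k j * 2 ^ wt (γ k) (o k) i := by
            intro s hs h5 h6
            refine (Finset.abs_sum_le_sum_abs _ _).trans ((Finset.sum_le_sum fun κ hκ =>
              hone κ (Finset.mem_range.1 (hs hκ)) (h5 κ hκ) (h6 κ hκ)).trans ?_)
            rw [Finset.sum_const, nsmul_eq_mul]
            have h7 : (s.card : ℝ) ≤ n := by
              have := Finset.card_le_card hs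
              rw [Finset.card_range] at this
              exact_mod_cast this
            refine (mul_le_mul_of_nonneg_right h7 (by positivity)).trans (le_of_eq ?_)
            ring
          by_cases h5 : gd j i
          · have e4 : β i - ∑ κ ∈ range k, b κ i = ∑ κ ∈ Finset.Ico k n, b κ i := by
              rw [hβ]
              show (if gd j i then ∑ κ ∈ range n, b κ i else 0) - _ = _
              rw [if_pos h5, Finset.sum_Ico_eq_sub _ hk]
            rw [e4]
            exact hmul _ (fun κ hκ => Finset.mem_range.2 (Finset.mem_Ico.1 hκ).2)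
              (fun κ hκ _ => (Finset.mem_Ico.1 hκ).1) (fun κ hκ h => absurd h5 h)
          · have e4 : β i - ∑ κ ∈ range k, b κ i = -∑ κ ∈ range k, b κ i := by
              rw [hβ]
              show (if gd j i then ∑ κ ∈ range n, b κ i else 0) - _ = _
              rw [if_neg h5, zero_sub]
            rw [e4, abs_neg]
            exact hmul _ (Finset.range_subset_range.2 hk) (fun κ hκ h => absurd h h5)
              (fun κ hκ _ => Finset.mem_range.1 hκ)
        rw [e2, en_wt, Finset.mul_sum]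
        refine (Finset.abs_sum_le_sum_abs _ _).trans (Finset.sum_le_sum fun i hi => ?_)
        rw [abs_mul, ← mul_assoc]
        refine mul_le_mul_of_nonneg_right ((hbd i (Nat.lt_succ_iff.1
          (Finset.mem_range.1 hi))).trans ?_) (abs_nonneg _)
        exact mul_le_mul_of_nonneg_right (div_le_div_of_nonneg_right hAl (by positivity))
          (by positivity)
  exact key L le_rfl

/-- Another unit. -/
theorem nc_unit {c : ℕ → Fin m} {g g' : ℕ → ℕ} {a a' n z z' : ℕ} {K : ℝ}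
    {χ χ' : ℕ → Option (Fin m) → ℝ} (h : Nc c g a n K χ χ') (hK : 0 ≤ K)
    (h1 : ∀ l < n, g' l ≤ g l + z) (h2 : ∀ j ≤ n, wt g a j ≤ wt g' a' j + z') :
    Nc c g' a' n (K * 2 ^ (z + z')) χ χ' := by
  intro l hl V
  refine (h l hl V).trans ?_
  have e1 : en c g a χ l V ≤ 2 ^ z' * en c g' a' χ l V := by
    rw [en_wt, en_wt, Finset.mul_sum]
    refine Finset.sum_le_sum fun j hj => ?_
    rw [← mul_assoc, ← pow_add]
    refine mul_le_mul_of_nonneg_right (pow_le_pow_right₀ (by norm_num) ?_) (abs_nonneg _)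
    have := h2 j (by rw [Finset.mem_range] at hj; omega)
    omega
  have e2 : K / 2 ^ g l ≤ K * 2 ^ z / 2 ^ g' l := by
    rw [div_le_div_iff₀ (by positivity) (by positivity), mul_assoc, ← pow_add]
    exact mul_le_mul_of_nonneg_left (pow_le_pow_right₀ (by norm_num) (by
      have := h1 l hl
      omega)) hK
  calc K / 2 ^ g l * en c g a χ l V ≤ K * 2 ^ z / 2 ^ g' l * (2 ^ z' * en c g' a' χ l V) :=
        mul_le_mul e2 e1 (en_nonneg _ _ _ _ _ _) (by positivity)
    _ = _ := by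
      rw [pow_add]
      ring

theorem pw_add {a b c : ℕ} (ha : a + 1 ≤ c) (hb : b + 1 ≤ c) : (2 : ℝ) ^ a + 2 ^ b ≤ 2 ^ c := by
  obtain ⟨k, rfl⟩ := Nat.exists_eq_add_of_le' (show 1 ≤ c by omega)
  have h1 : (2 : ℝ) ^ a ≤ 2 ^ k := pow_le_pow_right₀ (by norm_num) (by omega)
  have h2 : (2 : ℝ) ^ b ≤ 2 ^ k := pow_le_pow_right₀ (by norm_num) (by omega)
  rw [pow_succ]
  linarith

/-- **One visible affine system, natural at all windows of a chain.** -/
theorem star_out (D r : ℕ) : ∃ C : ℕ, 1 ≤ C ∧ ∀ {m J : ℕ} {F : Fam m J} {c : ℕ → Fin m}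
    {n M Dr a e X Z : ℕ} {o ee hh p jj : ℕ → ℕ} {z : ℕ → ℕ → ℕ} {R : ℕ → Prop}
    {g gc gT g₀ : ℕ → ℕ → ℕ} {κ : ℕ → ℝ} {B : F.Ω → Prop}
    {G T : ℕ → PtT F → ℕ → MvPolynomial (Option (Fin m)) ℝ}
    {H TH : ℕ → LnT F → ℕ → MvPolynomial (Option (Fin m)) ℝ}
    {Gt : ℕ → PtT F → MvPolynomial (Option (Fin m)) ℝ}
    {Ht : ℕ → LnT F → MvPolynomial (Option (Fin m)) ℝ} (gd : ℕ → ℕ → Prop),
    Set.InjOn c (Set.Iio (r + 1)) → (∀ k ≤ n, o k ≤ a) → (∀ k ≤ n, ee k ≤ e) →
    (∀ k ≤ n, EvS F c r D Dr (o k) (a - o k) M (z k) (ee k) (hh k) (p k) R (g k) (gc k) (gT k)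
      (g₀ k) (κ k) B (G k) (H k) (T k) (TH k) (Gt k) (Ht k)) →
    BalE F c r n M a o z g gc gT g₀ (2 ^ X) B G T →
    (∀ k < n, jj k ≤ M ∧ z k (jj k) = o (k + 1) - o k ∧ o k ≤ o (k + 1)) →
    (∀ k < n, ∀ l ≤ r, g₀ (k + 1) l ≤ min (g k l + (o (k + 1) - o k)) (g₀ (k + 1) l) + Z ∧
      g₀ (k + 1) l ≤ g₀ k l + Z ∧ g₀ k l ≤ g₀ (k + 1) l + Z) →
    (∀ k k', k ≤ k' → k' ≤ n → ∀ l ≤ r, ∀ j ≤ l, gd l j →
      wt (g₀ k') (o k') j + g₀ k l ≤ g₀ k' l + wt (g₀ k) (o k) j + Z) →
    (∀ k k', k ≤ k' → k' ≤ n → ∀ l ≤ r, ∀ j ≤ l, ¬ gd l j →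
      wt (g₀ k) (o k) j + g₀ k' l ≤ wt (g₀ k') (o k') j + g₀ k l + Z) →
    (n : ℝ) ≤ 2 ^ X → (∀ k ≤ n, ∀ l ≤ r, e + g₀ k l + C ≤ J) →
    ∃ S : PtT F → ℕ → Option (Fin m) → ℝ, (∀ y l, CvC c l (S y l)) ∧ ∀ ω, B ω → ∀ k ≤ n,
      Nc c (g₀ k) (o k) (r + 1) (2 ^ (C * (X + Z + 1))) (S (ptr F J ω))
        (fun l => grd (G k (ptr F J ω) l) (bt F ω)) := by
  obtain ⟨C₁, hdd⟩ := bale_dd D r
  obtain ⟨C₂, hC₂, hgn⟩ := gpt_near D (r + 1)
  obtain ⟨C₃, hC₃⟩ : ∃ C₃ : ℕ, C₃ = (C₁ + 2) * (r + 1) + (r + 2) * (r + 1) + (r + 1) + 4 :=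
    ⟨_, rfl⟩
  refine ⟨C₂ + (C₃ + 3) * stE (r + 1) * (r + 2) + (r + 2) + 1, by omega, ?_⟩
  intro m J F c n M Dr a e X Z o ee hh p jj z R g gc gT g₀ κ B G T H TH Gt Ht gd hc hoa hee hE hB
    hst hsm hg hb hn hJ
  classical
  have hcr : Set.InjOn c (Set.Iio r) := hc.mono fun y hy => by
    rw [Set.mem_Iio] at hy ⊢
    omega
  -- the rounded point
  have hgpt : ∀ k ≤ n, ∀ ω, B ω → Nc c (g₀ k) (o k) (r + 1) 1
      (fun j => grd (G k (ptr F J ω) j) (bt F ω)) (gpt F (G k) (ptr F J ω)) := by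
    intro k hk
    exact hgn hc le_rfl ((hE k hk).ball.mono le_rfl (fun _ => le_rfl) le_rfl (hee k hk))
      (fun l hl => by
        have := hJ k hk l (by omega)
        omega)
  obtain ⟨E, hE'⟩ : ∃ E : ℕ, E = X + Z + 1 := ⟨_, rfl⟩
  have hEm : ∀ x : ℕ, x ≤ x * E := fun x => Nat.le_mul_of_pos_right _ (by omega)
  obtain ⟨K, hK⟩ : ∃ K : ℝ, K = 2 ^ (C₃ * E) := ⟨_, rfl⟩
  have hK0 : 0 < K := by rw [hK]; positivity
  have hstep : ∀ ω, B ω → ∀ k < n, Nc c (g₀ (k + 1)) (o (k + 1)) (r + 1) K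
      (gpt F (G (k + 1)) (ptr F J ω)) (gpt F (G k) (ptr F J ω)) := by
    intro ω hω k hk
    obtain ⟨j1, j2, j3⟩ := hst k hk
    -- ball against ball
    have h1 : Nc c (g₀ (k + 1)) (o (k + 1)) (r + 1) (2 ^ (C₁ + X + Z))
        (fun j => grd (G (k + 1) (ptr F J ω) j) (bt F ω))
        (fun j => grd (G k (ptr F J ω) j) (bt F ω)) := by
      intro l hl V
      have h2 := hdd hcr hB (by positivity) hk.le (by omega : k + 1 ≤ n) j1 j3 j2
        (hE k hk.le).ball.degG (hE k hk.le).ball.depG (hE (k + 1) (by omega)).ball ω hω l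
        (by omega) V
      rw [cv_subl, cv_grd, cv_grd, ← nrm_en]
      refine h2.trans (mul_le_mul_of_nonneg_right ?_ (nrm_nonneg _ _ _ _ _ _ _))
      rw [div_le_div_iff₀ (by positivity) (by positivity), ← pow_add, ← pow_add, ← pow_add]
      have := (hsm k hk l (by omega)).1
      exact pow_le_pow_right₀ (by norm_num) (by omega)
    have h2 := hgpt (k + 1) (by omega) ω hω
    have h3 := nc_unit (g' := g₀ (k + 1)) (a' := o (k + 1)) (z := Z) (z' := Z)
      (hgpt k hk.le ω hω) zero_le_one (fun l hl => (hsm k hk l (by omega)).2.1) (fun j hj => by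
        cases j with
        | zero =>
          show o k ≤ o (k + 1) + Z
          omega
        | succ j => exact (hsm k hk j (by omega)).2.2)
    have h4 := (h2.symm zero_le_one).trans (h1.trans h3 (by positivity) (by positivity))
      (by positivity) (by positivity)
    refine h4.mono ?_
    have q1 : (1 : ℝ) + 2 ^ (C₁ + X + Z) ≤ 2 ^ ((C₁ + 2) * E) := by
      have := pw_add (a := 0) (b := C₁ + X + Z) (c := (C₁ + 2) * E) (by nlinarith [hEm C₁])
        (by nlinarith [hEm C₁])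
      rwa [pow_zero] at this
    have q2 : (1 + (2 : ℝ) ^ (C₁ + X + Z)) ^ (r + 1) ≤ 2 ^ ((C₁ + 2) * (r + 1) * E) := by
      refine (pow_le_pow_left₀ (by positivity) q1 _).trans (le_of_eq ?_)
      rw [← pow_mul]
      congr 1
      ring
    have q3 : (2 : ℝ) ^ (C₁ + X + Z) + 1 * 2 ^ (Z + Z) * (1 + 2 ^ (C₁ + X + Z)) ^ (r + 1) ≤
        2 ^ (((C₁ + 2) * (r + 1) + 3) * E) := by
      have e1 : (1 : ℝ) * 2 ^ (Z + Z) * (1 + 2 ^ (C₁ + X + Z)) ^ (r + 1) ≤
          2 ^ (Z + Z + (C₁ + 2) * (r + 1) * E) := by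
        rw [one_mul, pow_add _ (Z + Z)]
        exact mul_le_mul_of_nonneg_left q2 (by positivity)
      refine (add_le_add le_rfl e1).trans (pw_add ?_ ?_)
      · nlinarith [hEm C₁, Nat.zero_le ((C₁ + 2) * r * E)]
      · nlinarith [hEm C₁]
    have q4 : (1 + 1 * (1 + 1 : ℝ) ^ (r + 1)) ^ (r + 1) ≤ 2 ^ ((r + 2) * (r + 1) * E) := by
      have e1 : (1 : ℝ) + 1 * (1 + 1) ^ (r + 1) ≤ 2 ^ (r + 2) := by
        have := pw_add (a := 0) (b := r + 1) (c := r + 2) (by omega) (by omega)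
        rw [pow_zero] at this
        norm_num at this ⊢
        linarith
      refine (pow_le_pow_left₀ (by positivity) e1 _).trans ?_
      rw [← pow_mul]
      exact pow_le_pow_right₀ (by norm_num) (hEm _)
    have q5 : ((2 : ℝ) ^ (C₁ + X + Z) + 1 * 2 ^ (Z + Z) * (1 + 2 ^ (C₁ + X + Z)) ^ (r + 1)) *
        (1 + 1 * (1 + 1 : ℝ) ^ (r + 1)) ^ (r + 1) ≤
        2 ^ (((C₁ + 2) * (r + 1) + 3) * E + (r + 2) * (r + 1) * E) :=
      (mul_le_mul q3 q4 (by positivity) (by positivity)).trans (le_of_eq (pow_add _ _ _).symm)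
    have q6 : 1 * (1 + 1 : ℝ) ^ (r + 1) = 2 ^ (r + 1) := by norm_num
    refine (add_le_add (le_of_eq q6) q5).trans ?_
    rw [hK]
    refine pw_add ?_ ?_
    · rw [hC₃]
      nlinarith [hEm (r + 1), Nat.zero_le (((C₁ + 2) * (r + 1) + (r + 2) * (r + 1)) * E)]
    · rw [hC₃]
      nlinarith [hEm (r + 1)]
  -- the list
  have hex : ∀ y : PtT F, ∃ S : ℕ → Option (Fin m) → ℝ, (∀ l, CvC c l (S l)) ∧
      ((∃ ω, B ω ∧ ptr F J ω = y) → ∀ k ≤ n, Nc c (g₀ k) (o k) (r + 1)
        ((2 + n * K * 2 ^ Z) ^ stE (r + 1)) S (gpt F (G k) y)) := by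
    intro y
    by_cases hy : ∃ ω, B ω ∧ ptr F J ω = y
    · obtain ⟨ω, hω, rfl⟩ := hy
      obtain ⟨S, h1, h2⟩ := cv_star (χ := fun k => gpt F (G k) (ptr F J ω)) gd (r + 1) hc hK0.le
        (fun k hk l hl => cvc_grd ((hE k hk).ball.depG _ l) _) (hstep ω hω)
        (fun k k' h1 h2 l hl j hj h3 => hg k k' h1 h2 l (by omega) j hj h3)
        (fun k k' h1 h2 l hl j hj h3 => hb k k' h1 h2 l (by omega) j hj h3)
      exact ⟨S, h1, fun _ => h2⟩
    · exact ⟨fun _ => 0, fun _ _ _ => rfl, fun h => absurd h hy⟩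
  choose S hS1 hS2 using hex
  refine ⟨S, hS1, fun ω hω k hk => ?_⟩
  have h1 := hS2 (ptr F J ω) ⟨ω, hω, rfl⟩ k hk
  have h2 := (hgpt k hk ω hω).symm zero_le_one
  refine (h1.trans h2 (by positivity) (by positivity)).mono ?_
  have q1 : 2 + n * K * 2 ^ Z ≤ (2 : ℝ) ^ ((C₃ + 2) * E) := by
    have e1 : n * K * 2 ^ Z ≤ (2 : ℝ) ^ (X + C₃ * E + Z) := by
      rw [hK, pow_add, pow_add]
      exact mul_le_mul_of_nonneg_right (mul_le_mul_of_nonneg_right hn (by positivity))
        (by positivity)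
    have e2 := pw_add (a := 1) (b := X + C₃ * E + Z) (c := (C₃ + 2) * E) (by nlinarith [hEm C₃])
      (by nlinarith)
    rw [pow_one] at e2
    linarith
  have q2 : (2 + n * K * 2 ^ Z) ^ stE (r + 1) ≤ (2 : ℝ) ^ ((C₃ + 2) * E * stE (r + 1)) := by
    rw [pow_mul]
    exact pow_le_pow_left₀ (by positivity) q1 _
  have q3 : (1 : ℝ) + (2 + n * K * 2 ^ Z) ^ stE (r + 1) ≤
      2 ^ ((C₃ + 2) * E * stE (r + 1) + 1) := by
    have := pw_add (a := 0) (b := (C₃ + 2) * E * stE (r + 1))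
      (c := (C₃ + 2) * E * stE (r + 1) + 1) (by omega) le_rfl
    rw [pow_zero] at this
    linarith
  have q4 : (1 * (1 + 1 : ℝ) ^ (r + 1)) * (1 + (2 + n * K * 2 ^ Z) ^ stE (r + 1)) ^ (r + 1) ≤
      2 ^ ((r + 1) + ((C₃ + 2) * E * stE (r + 1) + 1) * (r + 1)) := by
    have e1 : (1 + (2 + n * K * 2 ^ Z) ^ stE (r + 1)) ^ (r + 1) ≤
        (2 : ℝ) ^ (((C₃ + 2) * E * stE (r + 1) + 1) * (r + 1)) := by
      rw [pow_mul _ _ (r + 1)]
      exact pow_le_pow_left₀ (by positivity) q3 _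
    have e2 : 1 * (1 + 1 : ℝ) ^ (r + 1) ≤ 2 ^ (r + 1) := by norm_num
    exact (mul_le_mul e2 e1 (by positivity) (by positivity)).trans
      (le_of_eq (pow_add _ _ _).symm)
  refine (add_le_add q2 q4).trans ?_
  rw [← hE']
  obtain ⟨s, hs⟩ : ∃ s, s = stE (r + 1) := ⟨_, rfl⟩
  have hs1 : 1 ≤ s := by rw [hs]; exact stE_pos _
  have hE1 : 1 ≤ E := by omega
  rw [← hs]
  obtain ⟨P, hP⟩ : ∃ P, P = (C₃ + 2) * s * E := ⟨_, rfl⟩
  have e1 : (C₃ + 2) * E * s = P := by rw [hP]; ring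
  have e2 : (C₂ + (C₃ + 3) * s * (r + 2) + (r + 2) + 1) * E =
      C₂ * E + P * (r + 1) + P + s * (r + 2) * E + (r + 3) * E := by
    rw [hP]
    ring
  have e3 : (r + 2) ≤ s * (r + 2) * E := by nlinarith [Nat.zero_le (s * (r + 2))]
  have e4 : r + 3 ≤ (r + 3) * E := Nat.le_mul_of_pos_right _ hE1
  rw [e1, e2]
  refine pw_add ?_ ?_
  · omega
  · have e5 : (P + 1) * (r + 1) = P * (r + 1) + (r + 1) := by ring
    omega

/-- **The environment with the affine system**: the ball is the window `k₀`, the velocities are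
natural at the window `n`. -/
theorem star_env (D r : ℕ) : ∃ C : ℕ, 1 ≤ C ∧ ∀ {m J : ℕ} {F : Fam m J} {c : ℕ → Fin m}
    {N₁ M Dr a e i s X N nn q jq k₀ n ee hh p : ℕ} {o : ℕ → ℕ} {z : ℕ → ℕ → ℕ} {R : ℕ → Prop}
    {g gc gT g₀ : ℕ → ℕ → ℕ} {κ : ℝ} {B : F.Ω → Prop}
    {G T : ℕ → PtT F → ℕ → MvPolynomial (Option (Fin m)) ℝ}
    {H TH : ℕ → LnT F → ℕ → MvPolynomial (Option (Fin m)) ℝ}
    {Gt : PtT F → MvPolynomial (Option (Fin m)) ℝ}
    {Ht : LnT F → MvPolynomial (Option (Fin m)) ℝ} {S : PtT F → ℕ → Option (Fin m) → ℝ},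
    i ≤ r → k₀ ≤ N₁ → n ≤ N₁ → o k₀ ≤ a → ee ≤ e →
    EvS F c r D Dr (o k₀) (a - o k₀) M (z k₀) ee hh p R (g k₀) (gc k₀) (gT k₀)
      (g₀ k₀) κ B (G k₀) (H k₀) (T k₀) (TH k₀) Gt Ht →
    BalE F c r N₁ M a o z g gc gT g₀ (2 ^ X) B G T →
    (∀ ω, B ω → ∀ k, k = k₀ ∨ k = n → Nc c (g₀ k) (o k) (r + 1) (2 ^ X) (S (ptr F J ω))
      (fun l => grd (G k (ptr F J ω) l) (bt F ω))) →
    (∀ ω ν, B ω → B ν → ptr F J ω = ptr F J ν → ∀ k, k = k₀ ∨ k = n → ∀ l ≤ i,
      |bd F ν (some (c l)) - dd (G k (ptr F J ω) l) (bt F ω) (bd F ν)| ≤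
        2 ^ X * 2 ^ o k / 2 ^ g₀ k l) →
    jq ≤ M → z k₀ jq = q → o k₀ + q + nn ≤ a →
    (∀ l < i, g k₀ l + q + nn + X ≤ gc k₀ l) →
    (∀ l ≤ i, g k₀ l ≤ g₀ k₀ l + X ∧ g₀ k₀ l ≤ g k₀ l + X) → C * (X + 1) ≤ N →
    EnvD F c i D (o k₀) (o k₀ + q) a nn N e s (fun l => g k₀ l + q) (gT k₀)
      (2 ^ N * 2 ^ o n / 2 ^ g₀ n i) B
      (fun y l => Gno (c l) J J (fun y => G k₀ y l) y) (H k₀) (T k₀)
      (fun y => afp 0 0 (S y i)) := by
  refine ⟨(r + 4) * (r + 4), by nlinarith, ?_⟩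
  intro m J F c N₁ M Dr a e i s X N nn q jq k₀ n ee hh p o z R g gc gT g₀ κ B G T H TH Gt Ht S hi
    hk₀ hn₁ hoa hee hE hB hS hv hjq hzq hann hinc hgg hN
  have hX1 : (1 : ℝ) ≤ 2 ^ X := one_le_pow₀ (by norm_num)
  have hNX : 2 * X + 1 ≤ N := by
    have : 16 * (X + 1) ≤ (r + 4) * (r + 4) * (X + 1) := Nat.mul_le_mul_right _ (by nlinarith)
    omega
  -- the norms
  have hen : ∀ ω, B ω → ∀ k, k = k₀ ∨ k = n → ∀ l ≤ i, ∀ V,
      en c (g₀ k) (o k) (S (ptr F J ω)) l V ≤ 2 ^ ((X + 1) * (r + 1)) *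
        nrm c (G k (ptr F J ω)) (g₀ k) (o k) l (bt F ω) V := by
    intro ω hω k hk l hl V
    rw [nrm_en]
    refine ((hS ω hω k hk).en_ge (by positivity) (by omega) V).trans
      (mul_le_mul_of_nonneg_right ?_ (en_nonneg _ _ _ _ _ _))
    rw [pow_mul]
    refine pow_le_pow_left₀ (by positivity) ?_ _
    rw [pow_succ]
    linarith
  have hcov : ∀ ω, B ω → ∀ k, k = k₀ ∨ k = n → ∀ l ≤ i, ∀ V,
      |cv (S (ptr F J ω) l) V - dd (G k (ptr F J ω) l) (bt F ω) V| ≤
        2 ^ (X + (X + 1) * (r + 1)) / 2 ^ g₀ k l *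
          nrm c (G k (ptr F J ω)) (g₀ k) (o k) l (bt F ω) V := by
    intro ω hω k hk l hl V
    have h1 := hS ω hω k hk l (by omega) V
    rw [cv_subl, cv_grd] at h1
    rw [abs_sub_comm]
    refine h1.trans ?_
    rw [pow_add, mul_div_right_comm, mul_assoc]
    exact mul_le_mul_of_nonneg_left (hen ω hω k hk l hl V) (by positivity)
  have hXr : X + (X + 1) * (r + 1) + (X + r + 2) + 2 * X + 1 ≤ N := by
    refine le_trans ?_ hN
    nlinarith [Nat.zero_le (r * X), Nat.zero_le (r * r * X), Nat.zero_le (r * r)]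
  exact
    { ball := by
        have h1 := (hE.rad jq hjq).mono (show i + 1 ≤ r + 1 by omega) (fun _ => le_rfl) le_rfl hee
        rw [hzq] at h1
        exact h1
      thp := fun ω hω l hl => hE.thin.pos ω hω l (by omega)
      inc := fun ω hω b hb => by
        have ha0 : o k₀ + (a - o k₀) = a := by omega
        refine ⟨hb.1.trans (inv_mono hann), fun l hl => ?_⟩
        have h1 := hB.inc k₀ hk₀ ω hω i hi b hb l hl
        refine h1.trans ?_
        rw [div_le_div_iff₀ (by positivity) (by positivity), one_mul, ← pow_add]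
        exact pow_le_pow_right₀ (by norm_num) (by have := hinc l hl; omega)
      nat := fun ω ν hω hν hpt l hl => by
        show |bd F ν (some (c l)) - dd (Gno (c l) J J (fun y => G k₀ y l) (ptr F J ω)) (bt F ω)
          (bd F ν)| ≤ 2 ^ N * 2 ^ (o k₀ + q) / 2 ^ (g k₀ l + q)
        rw [dd_Gno]
        refine (hv ω ν hω hν hpt k₀ (Or.inl rfl) l hl.le).trans ?_
        rw [pow_add _ (o k₀), pow_add _ (g k₀ l), ← mul_assoc, mul_div_mul_right _ _
          (show (2 : ℝ) ^ q ≠ 0 by positivity), div_le_div_iff₀ (by positivity) (by positivity)]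
        have h1 := (hgg l hl.le).1
        calc (2 : ℝ) ^ X * 2 ^ o k₀ * 2 ^ g k₀ l = 2 ^ o k₀ * 2 ^ (g k₀ l + X) := by
              rw [pow_add]
              ring
          _ ≤ 2 ^ o k₀ * 2 ^ (g₀ k₀ l + N) := mul_le_mul_of_nonneg_left
              (pow_le_pow_right₀ (by norm_num) (by omega)) (by positivity)
          _ = _ := by
              rw [pow_add]
              ring
      vel := fun ω ν hω hν hpt => by
        show |bd F ν (some (c i)) - dd (afp 0 0 (S (ptr F J ω) i)) (bt F ω) (bd F ν)| ≤ _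
        rw [dd_afp]
        have h1 := hv ω ν hω hν hpt n (Or.inr rfl) i le_rfl
        have h2 := hcov ω hω n (Or.inr rfl) i le_rfl (bd F ν)
        have h3 : nrm c (G n (ptr F J ω)) (g₀ n) (o n) i (bt F ω) (bd F ν) ≤
            2 ^ (X + r + 1) * 2 ^ o n := by
          unfold nrm
          have e1 : bd F ν none = 1 := rfl
          have e2 : ∑ l ∈ range i, (2 : ℝ) ^ g₀ n l *
              |bd F ν (some (c l)) - dd (G n (ptr F J ω) l) (bt F ω) (bd F ν)| ≤
              i * (2 ^ X * 2 ^ o n) := by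
            refine (Finset.sum_le_sum fun l hl => ?_).trans (le_of_eq (by
              rw [Finset.sum_const, Finset.card_range, nsmul_eq_mul]))
            have h3 := hv ω ν hω hν hpt n (Or.inr rfl) l (mem_range.1 hl).le
            rw [le_div_iff₀ (by positivity)] at h3
            linarith
          have e3 : (i : ℝ) ≤ 2 ^ r := by
            have h5 : (i : ℝ) ≤ (r : ℕ) := by exact_mod_cast hi
            have h6 : (r : ℝ) < 2 ^ r := by exact_mod_cast Nat.lt_two_pow_self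
            linarith
          have e4 : (i : ℝ) * (2 ^ X * 2 ^ o n) ≤ 2 ^ r * (2 ^ X * 2 ^ o n) :=
            mul_le_mul_of_nonneg_right e3 (by positivity)
          have e5 : (2 : ℝ) ^ (X + r + 1) * 2 ^ o n = 2 ^ r * (2 ^ X * 2 ^ o n) +
              2 ^ r * (2 ^ X * 2 ^ o n) := by
            rw [pow_succ, pow_add]
            ring
          have e6 : (2 : ℝ) ^ o n ≤ 2 ^ r * (2 ^ X * 2 ^ o n) := by
            have e7 : (1 : ℝ) ≤ 2 ^ r * 2 ^ X := by
              rw [← pow_add]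
              exact one_le_pow₀ (by norm_num)
            calc (2 : ℝ) ^ o n ≤ (2 ^ r * 2 ^ X) * 2 ^ o n :=
                  le_mul_of_one_le_left (by positivity) e7
              _ = _ := by ring
          rw [e1, abs_one, mul_one]
          linarith
        have e1 : bd F ν (some (c i)) - cv (S (ptr F J ω) i) (bd F ν) =
            (bd F ν (some (c i)) - dd (G n (ptr F J ω) i) (bt F ω) (bd F ν)) -
            (cv (S (ptr F J ω) i) (bd F ν) - dd (G n (ptr F J ω) i) (bt F ω) (bd F ν)) := by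
          ring
        rw [e1]
        refine (abs_sub _ _).trans ((add_le_add h1 (h2.trans (mul_le_mul_of_nonneg_left h3
          (by positivity)))).trans ?_)
        have e2 : (2 : ℝ) ^ X * 2 ^ o n / 2 ^ g₀ n i + 2 ^ (X + (X + 1) * (r + 1)) / 2 ^ g₀ n i *
            (2 ^ (X + r + 1) * 2 ^ o n) =
            (2 ^ X + 2 ^ (X + (X + 1) * (r + 1) + (X + r + 1))) * 2 ^ o n / 2 ^ g₀ n i := by
          rw [pow_add _ (X + (X + 1) * (r + 1))]
          ring
        rw [e2]
        exact div_le_div_of_nonneg_right (mul_le_mul_of_nonneg_right (pw_add (by omega)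
          (by omega)) (by positivity)) (by positivity)
      gpn := fun ω hω V hV => by
        show |dd (afp 0 0 (S (ptr F J ω) i)) (bt F ω) V -
          dd (Gno (c i) J J (fun y => G k₀ y i) (ptr F J ω)) (bt F ω) V| ≤
          2 ^ N / 2 ^ (g k₀ i + q) * nrm c (fun l => Gno (c l) J J (fun y => G k₀ y l)
            (ptr F J ω)) (fun l => g k₀ l + q) (o k₀ + q) i (bt F ω) V
        rw [dd_Gno, nrm_Gno, dd_afp]
        refine (hcov ω hω k₀ (Or.inl rfl) i le_rfl V).trans ?_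
        rw [nrm_sp _ _ _ hV, nrm_sp _ _ _ hV]
        have h1 : ∑ l ∈ range i, (2 : ℝ) ^ g₀ k₀ l *
            |V (some (c l)) - dd (G k₀ (ptr F J ω) l) (bt F ω) V| ≤ 2 ^ X / 2 ^ q *
            ∑ l ∈ range i, (2 : ℝ) ^ (g k₀ l + q) *
              |V (some (c l)) - dd (G k₀ (ptr F J ω) l) (bt F ω) V| := by
          rw [Finset.mul_sum]
          refine Finset.sum_le_sum fun l hl => ?_
          rw [← mul_assoc]
          refine mul_le_mul_of_nonneg_right ?_ (abs_nonneg _)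
          rw [div_mul_eq_mul_div, le_div_iff₀ (by positivity), ← pow_add, ← pow_add]
          have := (hgg l (mem_range.1 hl).le).2
          exact pow_le_pow_right₀ (by norm_num) (by omega)
        refine (mul_le_mul_of_nonneg_left h1 (by positivity)).trans ?_
        rw [← mul_assoc]
        refine mul_le_mul_of_nonneg_right ?_ (Finset.sum_nonneg fun _ _ => by positivity)
        rw [div_mul_div_comm, ← pow_add, ← pow_add, div_le_div_iff₀ (by positivity)
          (by positivity), ← pow_add, ← pow_add]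
        have := (hgg i le_rfl).1
        exact pow_le_pow_right₀ (by norm_num) (by omega)
      shf := fun ω ν hω hν hpt V hV => by
        show |dd (afp 0 0 (S (ptr F J ω) i)) (bt F ν) V -
          dd (afp 0 0 (S (ptr F J ω) i)) (bt F ω) V| ≤ _
        rw [dd_afp, dd_afp, sub_self, abs_zero]
        exact mul_nonneg (by positivity) (nrm_nonneg _ _ _ _ _ _ _) }

end Pool.D2R
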