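import Pool.Agent.H23.D2.Wno
import Pool.Agent.H23.D2.Star

/-!
# The affine system on the event of finitely many windows

`win_star`: one visible list of covectors, natural at all windows of a chain of `Wins`, the numbers
in real form. `star_vel`, `star_gpn`: its velocities and its spatial part.
-/

set_option autoImplicit false

namespace Pool.D2R

open Finset Real MvPolynomial
open Pool.Agent.H49.Ent Pool.Agent.H32.Dense Pool.STK Pool.KA Pool.KSAT Pool.K2S Pool.PB Pool.S6C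
open Pool.GEN Pool.CHT Pool.CHX Pool.ISO Pool.D2F Pool.D2Z

variable {m J : ℕ}

/-- **One visible affine system on `Wins`.** `gd l 0`: the time grows at most as the side of `c l`;
`gd l (j + 1)`: the side of `c j` grows at most as the side of `c l`; otherwise at least. -/
theorem win_star (D r : ℕ) : ∃ C : ℕ, 1 ≤ C ∧ ∀ {m J : ℕ} {F : Fam m J} {c : ℕ → Fin m}
    {Dr N M : ℕ} {R : ℕ → Prop} {C₀ a Eb ηm : ℝ} {o ε p' η σ : ℕ → ℝ} {lv be b : ℕ → ℕ → ℝ}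
    {κ : ℝ} {z : ℕ → ℕ → ℕ} {B : F.Ω → Prop} {gc gT g₀ : ℕ → ℕ → ℕ}
    {G : ℕ → PtT F → ℕ → MvPolynomial (Option (Fin m)) ℝ}
    {H : ℕ → LnT F → ℕ → MvPolynomial (Option (Fin m)) ℝ}
    {T : ℕ → PtT F → ℕ → MvPolynomial (Option (Fin m)) ℝ}
    {TH : ℕ → LnT F → ℕ → MvPolynomial (Option (Fin m)) ℝ}
    {Gt : ℕ → PtT F → MvPolynomial (Option (Fin m)) ℝ}
    {Ht : ℕ → LnT F → MvPolynomial (Option (Fin m)) ℝ}
    (_ : Wins F c r D Dr N M R C₀ a Eb ηm o ε p' η σ lv be b κ z B gc gT g₀ G H T TH Gt Ht)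
    (gd : ℕ → ℕ → Prop) {f jj : ℕ → ℕ} {n Y : ℕ},
    Set.InjOn c (Set.Iio (r + 1)) → (∀ k ≤ n, f k ≤ N) →
    (∀ k < n, jj k ≤ M ∧ z (f k) (jj k) = ⌊o (f (k + 1)) * J⌋₊ - ⌊o (f k) * J⌋₊ ∧
      o (f k) ≤ o (f (k + 1))) →
    C₀ * (ηm * J) ≤ Y → 3 ≤ Y → (n : ℝ) ≤ 2 ^ Y →
    (∀ k < n, ∀ l ≤ r, (lv (f (k + 1)) l - lv (f k) l) * J ≤ Y ∧
      (lv (f k) l - lv (f (k + 1)) l) * J ≤ Y) →
    (∀ k k', k ≤ k' → k' ≤ n → ∀ l ≤ r, gd l 0 →
      (o (f k') - o (f k)) * J ≤ (lv (f k') l - lv (f k) l) * J + Y) →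
    (∀ k k', k ≤ k' → k' ≤ n → ∀ l ≤ r, ¬ gd l 0 →
      (lv (f k') l - lv (f k) l) * J ≤ (o (f k') - o (f k)) * J + Y) →
    (∀ k k', k ≤ k' → k' ≤ n → ∀ l ≤ r, ∀ j < l, gd l (j + 1) →
      (lv (f k') j - lv (f k) j) * J ≤ (lv (f k') l - lv (f k) l) * J + Y) →
    (∀ k k', k ≤ k' → k' ≤ n → ∀ l ≤ r, ∀ j < l, ¬ gd l (j + 1) →
      (lv (f k') l - lv (f k) l) * J ≤ (lv (f k') j - lv (f k) j) * J + Y) →
    (∀ k ≤ n, ∀ l ≤ r, (Eb + lv (f k) l) * J + C * Y ≤ J) →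
    ∃ S : PtT F → ℕ → Option (Fin m) → ℝ, (∀ y l, CvC c l (S y l)) ∧ ∀ ω, B ω → ∀ k ≤ n,
      Nc c (g₀ (f k)) ⌊o (f k) * J⌋₊ (r + 1) (2 ^ (C * Y)) (S (ptr F J ω))
        (fun l => grd (G (f k) (ptr F J ω) l) (bt F ω)) := by
  obtain ⟨C, hC, hst⟩ := star_out D r
  refine ⟨6 * C + 4, by omega, ?_⟩
  intro m J F c Dr N M R C₀ a Eb ηm o ε p' η σ lv be b κ z B gc gT g₀ G H T TH Gt Ht W gd f jj n
    Y hc hf hjj hY hY3 hn hstep ht1 ht2 hl1 hl2 hJJ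
  have hJ : (0 : ℝ) ≤ J := Nat.cast_nonneg J
  have hC1 := W.C1
  have hηm0 : 0 ≤ ηm := (W.hη (f 0) (hf 0 (Nat.zero_le n))).1.trans
    (W.hη (f 0) (hf 0 (Nat.zero_le n))).2
  have hY3R : (3 : ℝ) ≤ Y := by exact_mod_cast hY3
  have hηY : ηm * J ≤ Y := by
    have h1 : ηm * J ≤ C₀ * (ηm * J) := le_mul_of_one_le_left (mul_nonneg hηm0 hJ) hC1
    linarith
  have hfl : ∀ k ≤ n, ⌊o (f k) * J⌋₊ ≤ ⌊a * J⌋₊ := fun k hk =>
    Nat.floor_le_floor (mul_le_mul_of_nonneg_right (W.ho (f k) (hf k hk)).2 hJ)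
  have hop : ∀ k ≤ n, (⌊o (f k) * J⌋₊ : ℝ) ≤ o (f k) * J := fun k hk =>
    Nat.floor_le (mul_nonneg (W.ho (f k) (hf k hk)).1 hJ)
  have hom : ∀ k ≤ n, o (f k) * J ≤ ⌊o (f k) * J⌋₊ + 1 := fun k hk =>
    (Nat.lt_floor_add_one (o (f k) * (J : ℝ))).le
  have hfs : (2 : ℝ) ^ ⌊C₀ * (ηm * J)⌋₊ ≤ 2 ^ Y := pow_le_pow_right₀ (by norm_num) (by
    have h3 : (⌊C₀ * (ηm * J)⌋₊ : ℝ) ≤ Y :=
      (Nat.floor_le (mul_nonneg (by linarith) (mul_nonneg hηm0 hJ))).trans hY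
    exact_mod_cast h3)
  have hgd : ∀ k k', k ≤ n → k' ≤ n → ∀ l ≤ r, ∀ j < l,
      (lv (f k') j - lv (f k) j) * J ≤ (lv (f k') l - lv (f k) l) * J + Y →
      g₀ (f k') j + g₀ (f k) l ≤ g₀ (f k') l + g₀ (f k) j + 4 * Y := by
    intro k k' hk hk' l hl j hj h1
    obtain ⟨-, -, a1, a2, -⟩ := W.g_num (hf k hk) (show l ≤ r by omega)
    obtain ⟨-, -, a3, a4, -⟩ := W.g_num (hf k' hk') (show l ≤ r by omega)
    obtain ⟨-, -, a5, a6, -⟩ := W.g_num (hf k hk) (show j ≤ r by omega)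
    obtain ⟨-, -, a7, a8, -⟩ := W.g_num (hf k' hk') (show j ≤ r by omega)
    have h2 : ((g₀ (f k') j + g₀ (f k) l : ℕ) : ℝ) ≤
        ((g₀ (f k') l + g₀ (f k) j + 4 * Y : ℕ) : ℝ) := by
      push_cast
      linarith
    exact_mod_cast h2
  have htd : ∀ k k', k ≤ n → k' ≤ n → ∀ l ≤ r,
      (o (f k') - o (f k)) * J ≤ (lv (f k') l - lv (f k) l) * J + Y →
      ⌊o (f k') * J⌋₊ + g₀ (f k) l ≤ g₀ (f k') l + ⌊o (f k) * J⌋₊ + 4 * Y := by
    intro k k' hk hk' l hl h1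
    obtain ⟨-, -, a1, a2, -⟩ := W.g_num (hf k hk) hl
    obtain ⟨-, -, a3, a4, -⟩ := W.g_num (hf k' hk') hl
    have b1 := hop k' hk'
    have b2 := hom k hk
    have h2 : ((⌊o (f k') * J⌋₊ + g₀ (f k) l : ℕ) : ℝ) ≤
        ((g₀ (f k') l + ⌊o (f k) * J⌋₊ + 4 * Y : ℕ) : ℝ) := by
      push_cast
      linarith
    exact_mod_cast h2
  have htd' : ∀ k k', k ≤ n → k' ≤ n → ∀ l ≤ r,
      (lv (f k') l - lv (f k) l) * J ≤ (o (f k') - o (f k)) * J + Y →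
      ⌊o (f k) * J⌋₊ + g₀ (f k') l ≤ ⌊o (f k') * J⌋₊ + g₀ (f k) l + 4 * Y := by
    intro k k' hk hk' l hl h1
    obtain ⟨-, -, a1, a2, -⟩ := W.g_num (hf k hk) hl
    obtain ⟨-, -, a3, a4, -⟩ := W.g_num (hf k' hk') hl
    have b1 := hop k hk
    have b2 := hom k' hk'
    have h2 : ((⌊o (f k) * J⌋₊ + g₀ (f k') l : ℕ) : ℝ) ≤
        ((⌊o (f k') * J⌋₊ + g₀ (f k) l + 4 * Y : ℕ) : ℝ) := by
      push_cast
      linarith
    exact_mod_cast h2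
  have hwt1 : ∀ k k', k ≤ k' → k' ≤ n → ∀ l ≤ r, ∀ j ≤ l, gd l j →
      wt (g₀ (f k')) ⌊o (f k') * J⌋₊ j + g₀ (f k) l ≤
        g₀ (f k') l + wt (g₀ (f k)) ⌊o (f k) * J⌋₊ j + 4 * Y := by
    intro k k' hk hk' l hl j hj hg
    cases j with
    | zero => exact htd k k' (by omega) hk' l hl (ht1 k k' hk hk' l hl hg)
    | succ j =>
      exact hgd k k' (by omega) hk' l hl j (by omega) (hl1 k k' hk hk' l hl j (by omega) hg)
  have hwt2 : ∀ k k', k ≤ k' → k' ≤ n → ∀ l ≤ r, ∀ j ≤ l, ¬ gd l j →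
      wt (g₀ (f k)) ⌊o (f k) * J⌋₊ j + g₀ (f k') l ≤
        wt (g₀ (f k')) ⌊o (f k') * J⌋₊ j + g₀ (f k) l + 4 * Y := by
    intro k k' hk hk' l hl j hj hg
    cases j with
    | zero => exact htd' k k' (by omega) hk' l hl (ht2 k k' hk hk' l hl hg)
    | succ j =>
      have h1 := hl2 k k' hk hk' l hl j (by omega) hg
      have h2 := hgd k' k hk' (by omega) l hl j (by omega) (by linarith)
      show g₀ (f k) j + g₀ (f k') l ≤ g₀ (f k') j + g₀ (f k) l + 4 * Y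
      omega
  obtain ⟨S, hS1, hS2⟩ := hst (X := Y) (Z := 4 * Y) (n := n) (a := ⌊a * J⌋₊)
    (e := ⌊(Eb + 2 * ηm) * J⌋₊) (o := fun k => ⌊o (f k) * J⌋₊)
    (ee := fun k => ⌊(Eb + σ (f k) + η (f k)) * J⌋₊) (hh := fun k => ⌊η (f k) * J⌋₊)
    (p := fun k => ⌊p' (f k) * J⌋₊) (jj := jj) (z := fun k => z (f k)) (R := R) (Dr := Dr)
    (M := M) (g := fun k l => ⌊b (f k) l * J⌋₊) (gc := fun k => gc (f k))
    (gT := fun k => gT (f k)) (g₀ := fun k => g₀ (f k)) (κ := fun _ => κ)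
    (G := fun k => G (f k)) (T := fun k => T (f k)) (H := fun k => H (f k))
    (TH := fun k => TH (f k)) (Gt := fun k => Gt (f k)) (Ht := fun k => Ht (f k)) gd hc hfl
    (fun k hk => Nat.floor_le_floor (mul_le_mul_of_nonneg_right (by
      have h1 := (W.hη (f k) (hf k hk)).2
      have h2 := (W.hσ (f k) (hf k hk)).2
      linarith) hJ)) (fun k hk => W.evs (f k) (hf k hk)) (W.bal.sel hf hfs)
    (fun k hk => ⟨(hjj k hk).1, (hjj k hk).2.1, Nat.floor_le_floor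
      (mul_le_mul_of_nonneg_right (hjj k hk).2.2 hJ)⟩)
    (fun k hk l hl => by
      obtain ⟨h1, h2⟩ := hstep k hk l hl
      obtain ⟨a0, -, a1, a2, -⟩ := W.g_num (hf k hk.le) hl
      obtain ⟨-, -, a3, a4, -⟩ := W.g_num (hf (k + 1) hk) hl
      have h3 : ((g₀ (f (k + 1)) l : ℕ) : ℝ) ≤ ((⌊b (f k) l * J⌋₊ + 4 * Y : ℕ) : ℝ) := by
        push_cast
        linarith
      have h3' : g₀ (f (k + 1)) l ≤ ⌊b (f k) l * J⌋₊ + 4 * Y := by exact_mod_cast h3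
      have h4 : ((g₀ (f (k + 1)) l : ℕ) : ℝ) ≤ ((g₀ (f k) l + 4 * Y : ℕ) : ℝ) := by
        push_cast
        linarith
      have h5 : ((g₀ (f k) l : ℕ) : ℝ) ≤ ((g₀ (f (k + 1)) l + 4 * Y : ℕ) : ℝ) := by
        push_cast
        linarith
      refine ⟨?_, by exact_mod_cast h4, by exact_mod_cast h5⟩
      show g₀ (f (k + 1)) l ≤ min (⌊b (f k) l * J⌋₊ + (⌊o (f (k + 1)) * J⌋₊ - ⌊o (f k) * J⌋₊))
        (g₀ (f (k + 1)) l) + 4 * Y
      omega)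
    hwt1 hwt2 hn
    (fun k hk l hl => by
      obtain ⟨-, -, -, a2, -⟩ := W.g_num (hf k hk) hl
      have h1 := hJJ k hk l hl
      have h2 : (⌊(Eb + 2 * ηm) * J⌋₊ : ℝ) ≤ (Eb + 2 * ηm) * J :=
        Nat.floor_le (mul_nonneg (by linarith [W.Eb0]) hJ)
      have hCR : (0 : ℝ) ≤ C := Nat.cast_nonneg C
      have h3 : ((⌊(Eb + 2 * ηm) * J⌋₊ + g₀ (f k) l + C : ℕ) : ℝ) ≤ (J : ℕ) := by
        push_cast at h1 ⊢
        nlinarith
      exact_mod_cast h3)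
  refine ⟨S, hS1, fun ω hω k hk => (hS2 ω hω k hk).mono (pow_le_pow_right₀ (by norm_num) ?_)⟩
  nlinarith

/-- The velocities and the system. -/
theorem star_vel {F : Fam m J} {c : ℕ → Fin m} {r i X o : ℕ} {g₀ : ℕ → ℕ} {B : F.Ω → Prop}
    {G : PtT F → ℕ → MvPolynomial (Option (Fin m)) ℝ} {S : PtT F → ℕ → Option (Fin m) → ℝ}
    (hi : i ≤ r) (hS : ∀ ω, B ω → Nc c g₀ o (r + 1) (2 ^ X) (S (ptr F J ω))
      (fun l => grd (G (ptr F J ω) l) (bt F ω)))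
    (hv : ∀ ω ν, B ω → B ν → ptr F J ω = ptr F J ν → ∀ l ≤ i,
      |bd F ν (some (c l)) - dd (G (ptr F J ω) l) (bt F ω) (bd F ν)| ≤
        2 ^ X * 2 ^ o / 2 ^ g₀ l) :
    ∀ ω ν, B ω → B ν → ptr F J ω = ptr F J ν →
      |bd F ν (some (c i)) - dd (afp 0 0 (S (ptr F J ω) i)) (bt F ω) (bd F ν)| ≤
        2 ^ ((r + 4) * (r + 4) * (X + 1)) * 2 ^ o / 2 ^ g₀ i := by
  intro ω ν hω hν hpt
  rw [dd_afp]
  have h1 := hv ω ν hω hν hpt i le_rfl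
  have h2 : |cv (S (ptr F J ω) i) (bd F ν) - dd (G (ptr F J ω) i) (bt F ω) (bd F ν)| ≤
      2 ^ (X + (X + 1) * (r + 1)) / 2 ^ g₀ i *
        nrm c (G (ptr F J ω)) g₀ o i (bt F ω) (bd F ν) := by
    have h3 := hS ω hω i (by omega) (bd F ν)
    rw [cv_subl, cv_grd] at h3
    rw [abs_sub_comm]
    refine h3.trans ?_
    rw [pow_add, mul_div_right_comm, mul_assoc]
    refine mul_le_mul_of_nonneg_left ?_ (by positivity)
    rw [nrm_en]
    refine ((hS ω hω).en_ge (by positivity) (by omega) _).trans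
      (mul_le_mul_of_nonneg_right ?_ (en_nonneg _ _ _ _ _ _))
    rw [pow_mul]
    refine pow_le_pow_left₀ (by positivity) ?_ _
    rw [pow_succ]
    have : (1 : ℝ) ≤ 2 ^ X := one_le_pow₀ (by norm_num)
    linarith
  have h3 : nrm c (G (ptr F J ω)) g₀ o i (bt F ω) (bd F ν) ≤ 2 ^ (X + r + 1) * 2 ^ o := by
    unfold nrm
    have e1 : bd F ν none = 1 := rfl
    have e2 : ∑ l ∈ range i, (2 : ℝ) ^ g₀ l *
        |bd F ν (some (c l)) - dd (G (ptr F J ω) l) (bt F ω) (bd F ν)| ≤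
        i * (2 ^ X * 2 ^ o) := by
      refine (Finset.sum_le_sum fun l hl => ?_).trans (le_of_eq (by
        rw [Finset.sum_const, Finset.card_range, nsmul_eq_mul]))
      have h3 := hv ω ν hω hν hpt l (mem_range.1 hl).le
      rw [le_div_iff₀ (by positivity)] at h3
      linarith
    have e3 : (i : ℝ) ≤ 2 ^ r := by
      have h5 : (i : ℝ) ≤ (r : ℕ) := by exact_mod_cast hi
      have h6 : (r : ℝ) < 2 ^ r := by exact_mod_cast Nat.lt_two_pow_self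
      linarith
    have e4 : (i : ℝ) * (2 ^ X * 2 ^ o) ≤ 2 ^ r * (2 ^ X * 2 ^ o) :=
      mul_le_mul_of_nonneg_right e3 (by positivity)
    have e5 : (2 : ℝ) ^ (X + r + 1) * 2 ^ o = 2 ^ r * (2 ^ X * 2 ^ o) +
        2 ^ r * (2 ^ X * 2 ^ o) := by
      rw [pow_succ, pow_add]
      ring
    have e6 : (2 : ℝ) ^ o ≤ 2 ^ r * (2 ^ X * 2 ^ o) := by
      have e7 : (1 : ℝ) ≤ 2 ^ r * 2 ^ X := by
        rw [← pow_add]
        exact one_le_pow₀ (by norm_num)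
      calc (2 : ℝ) ^ o ≤ (2 ^ r * 2 ^ X) * 2 ^ o := le_mul_of_one_le_left (by positivity) e7
        _ = _ := by ring
    rw [e1, abs_one, mul_one]
    linarith
  have e1 : bd F ν (some (c i)) - cv (S (ptr F J ω) i) (bd F ν) =
      (bd F ν (some (c i)) - dd (G (ptr F J ω) i) (bt F ω) (bd F ν)) -
      (cv (S (ptr F J ω) i) (bd F ν) - dd (G (ptr F J ω) i) (bt F ω) (bd F ν)) := by
    ring
  rw [e1]
  refine (abs_sub _ _).trans ((add_le_add h1 (h2.trans (mul_le_mul_of_nonneg_left h3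
    (by positivity)))).trans ?_)
  have e2 : (2 : ℝ) ^ X * 2 ^ o / 2 ^ g₀ i + 2 ^ (X + (X + 1) * (r + 1)) / 2 ^ g₀ i *
      (2 ^ (X + r + 1) * 2 ^ o) =
      (2 ^ X + 2 ^ (X + (X + 1) * (r + 1) + (X + r + 1))) * 2 ^ o / 2 ^ g₀ i := by
    rw [pow_add _ (X + (X + 1) * (r + 1))]
    ring
  rw [e2]
  have e3 : X + (X + 1) * (r + 1) + (X + r + 1) + 1 ≤ (r + 4) * (r + 4) * (X + 1) := by
    nlinarith [Nat.zero_le (r * X), Nat.zero_le (r * r * X), Nat.zero_le (r * r)]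
  exact div_le_div_of_nonneg_right (mul_le_mul_of_nonneg_right (pw_add (by omega)
    (by omega)) (by positivity)) (by positivity)

/-- The spatial part of the system. -/
theorem star_gpn {F : Fam m J} {c : ℕ → Fin m} {r i X o : ℕ} {g₀ : ℕ → ℕ} {B : F.Ω → Prop}
    {G : PtT F → ℕ → MvPolynomial (Option (Fin m)) ℝ} {S : PtT F → ℕ → Option (Fin m) → ℝ}
    (hi : i ≤ r) (hS : ∀ ω, B ω → Nc c g₀ o (r + 1) (2 ^ X) (S (ptr F J ω))
      (fun l => grd (G (ptr F J ω) l) (bt F ω))) :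
    ∀ ω, B ω → ∀ V : Option (Fin m) → ℝ,
      |dd (afp 0 0 (S (ptr F J ω) i)) (bt F ω) V - dd (G (ptr F J ω) i) (bt F ω) V| ≤
        2 ^ ((r + 4) * (r + 4) * (X + 1)) / 2 ^ g₀ i *
          nrm c (G (ptr F J ω)) g₀ o i (bt F ω) V := by
  intro ω hω V
  rw [dd_afp]
  have h3 := hS ω hω i (by omega) V
  rw [cv_subl, cv_grd] at h3
  rw [abs_sub_comm]
  refine h3.trans ?_
  have h4 : en c g₀ o (S (ptr F J ω)) i V ≤ 2 ^ ((X + 1) * (r + 1)) *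
      nrm c (G (ptr F J ω)) g₀ o i (bt F ω) V := by
    rw [nrm_en]
    refine ((hS ω hω).en_ge (by positivity) (by omega) _).trans
      (mul_le_mul_of_nonneg_right ?_ (en_nonneg _ _ _ _ _ _))
    rw [pow_mul]
    refine pow_le_pow_left₀ (by positivity) ?_ _
    rw [pow_succ]
    have : (1 : ℝ) ≤ 2 ^ X := one_le_pow₀ (by norm_num)
    linarith
  refine (mul_le_mul_of_nonneg_left h4 (by positivity)).trans ?_
  rw [← mul_assoc, ← mul_div_right_comm, ← pow_add]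
  refine mul_le_mul_of_nonneg_right (div_le_div_of_nonneg_right (pow_le_pow_right₀
    (by norm_num) ?_) (by positivity)) (nrm_nonneg _ _ _ _ _ _ _)
  nlinarith [Nat.zero_le (r * X), Nat.zero_le (r * r * X), Nat.zero_le (r * r)]

end Pool.D2R
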