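import Pool.Agent.H23.D2.Nba
import Pool.Agent.H64.F5.All

/-!
# (F5) on windows with balls only: the first three levels

`winb_ok`, `winb_deep`: one window of `WinB` with its own output `ROutB` and a list of covectors
near all its gradients. `natb_low`: `nat_low` for windows with balls only.
-/

set_option autoImplicit false

namespace Pool.D2R

open Finset Real MvPolynomial
open Pool.Agent.H49.Ent Pool.Agent.H32.Dense Pool.STK Pool.KA Pool.KSAT Pool.K2S Pool.PB Pool.S6C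
open Pool.GEN Pool.CHT Pool.CHX
open Pool.LBT (ThrOf)
open Pool.D2F
open Pool.D2Z (Nc frok_sub frok_mono frok_le pow1)
open Pool.F5

variable {m J : ℕ}

section

variable {F : Fam m J} {c : ℕ → Fin m} {r D Dr N M : ℕ} {C₀ a Eb ηm : ℝ} {o η σ : ℕ → ℝ}
    {lv b : ℕ → ℕ → ℝ} {κ : ℝ} {z : ℕ → ℕ → ℕ} {B : F.Ω → Prop} {g₀ : ℕ → ℕ → ℕ}
    {G : ℕ → PtT F → ℕ → MvPolynomial (Option (Fin m)) ℝ}
    {H : ℕ → LnT F → ℕ → MvPolynomial (Option (Fin m)) ℝ}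
    {Sv : PtT F → ℕ → Option (Fin m) → ℝ} {B₁ : F.Ω → Prop}

/-- One window of `WinB`. -/
theorem winb_ok (W : WinB F c r D Dr N M C₀ a Eb ηm o η σ lv b κ z B g₀ G H) {k K X : ℕ}
    (hk : k ≤ N) (hB₁ : Sub B₁ B) (hKX : K ≤ X)
    (hR : ROutB F c r ⌊o k * J⌋₊ K (g₀ k) B₁ (G k) (H k)) (hSd : ∀ y l, CvC c l (Sv y l))
    (hS : ∀ ω, B₁ ω → Nc c (g₀ k) ⌊o k * J⌋₊ (r + 1) (2 ^ X) (Sv (ptr F J ω))
      (fun l => grd (G k (ptr F J ω) l) (bt F ω))) :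
    WOK F c r D ⌊o k * J⌋₊ ⌊o k * J⌋₊ 0 ⌊(Eb + 2 * ηm) * J⌋₊ X 0 (g₀ k)
      (g₀ k) (2 ^ K) B₁ (G k) (H k) (G k) (H k) (fun s => Hno (c r) (fun s => H k s r) s) Sv := by
  have hJ : (0 : ℝ) ≤ J := Nat.cast_nonneg J
  exact ⟨((W.ev k hk).ball.mono le_rfl (fun _ => le_rfl) le_rfl
    (Nat.floor_le_floor (mul_le_mul_of_nonneg_right (by
      have h1 := (W.hη k hk).2
      have h2 := (W.hσ k hk).2
      linarith) hJ))).sub hB₁, hR, by positivity, pow_le_pow_right₀ (by norm_num) hKX, hSd, hS⟩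

/-- The velocities of the covectors at a deep window. -/
theorem winb_deep (W : WinB F c r D Dr N M C₀ a Eb ηm o η σ lv b κ z B g₀ G H) {k q K X x l : ℕ}
    (hk : k ≤ N) (hq : q ≤ N) (hl : l ≤ r) (hKX : K ≤ X)
    (hR : ROutB F c r ⌊o q * J⌋₊ K (g₀ q) B₁ (G q) (H q))
    (hS : ∀ ω, B₁ ω → Nc c (g₀ q) ⌊o q * J⌋₊ (r + 1) (2 ^ X) (Sv (ptr F J ω))
      (fun l => grd (G q (ptr F J ω) l) (bt F ω)))
    (hX : (((r + 4) * (r + 4) * (X + 1) + x + 1 : ℕ) : ℝ) + ηm * J + (lv k l - o k) * J ≤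
      (lv q l - o q) * J) :
    ∀ ω, B₁ ω → |bd F ω (some (c l)) - cv (Sv (ptr F J ω) l) (bd F ω)| ≤
      2 ^ X * 2 ^ ⌊o k * J⌋₊ / 2 ^ (g₀ k l + x) := by
  intro ω hω
  have hp2 : (2 : ℝ) ^ K ≤ 2 ^ X := pow_le_pow_right₀ (by norm_num) hKX
  have h1 := star_vel (X := X) hl hS (fun ω ν hω hν hpt l hl =>
    (hR.vel ω ν hω hν hpt l (by omega)).trans (div_le_div_of_nonneg_right
      (mul_le_mul_of_nonneg_right hp2 (by positivity)) (by positivity))) ω ω hω hω rfl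
  rw [Pool.D2R.dd_afp] at h1
  refine h1.trans ?_
  rw [div_le_div_iff₀ (by positivity) (by positivity), ← pow_add, ← pow_add, ← pow_add,
    ← pow_add]
  refine pow_le_pow_right₀ (by norm_num) ?_
  have hJ : (0 : ℝ) ≤ J := Nat.cast_nonneg J
  obtain ⟨-, -, -, a1⟩ := W.g_num hk hl
  obtain ⟨-, -, a2, -⟩ := W.g_num hq hl
  have a3 : (⌊o q * J⌋₊ : ℝ) ≤ o q * J := Nat.floor_le (mul_nonneg (W.ho q hq).1 hJ)
  have a4 := (Nat.lt_floor_add_one (o k * (J : ℝ))).le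
  have a5 : (0 : ℝ) ≤ X := Nat.cast_nonneg X
  have h2 : (((r + 4) * (r + 4) * (X + 1) + ⌊o q * J⌋₊ + (g₀ k l + x) : ℕ) : ℝ) ≤
      ((X + ⌊o k * J⌋₊ + g₀ q l : ℕ) : ℝ) := by
    push_cast at hX ⊢
    linarith
  exact_mod_cast h2

end

/-- **(F5), the coordinates `c l`, `l ≤ 2`, at all windows of a list of balls, on one event.**
`q k`: a deep window, where the velocities are read. -/
theorem natb_low (m D r C₁ : ℕ) (hD : 1 ≤ D) (hr : 1 ≤ r) : ∃ C : ℕ, 1 ≤ C ∧ ∀ {S : PCl m}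
    {P : List (Fin m) × Fin m → ℝ → ℝ → ℝ} {θ : ℝ} {c : ℕ → Fin m}
    {C₀ a Eb ηm ζ e h κ₀ : ℝ} {o η σ : ℕ → ℝ} {lv : ℕ → ℕ → ℝ} {Dr N M : ℕ}
    (W : ℕ → ℚ) (LS L₁ L : List ℕ) (q : ℕ → ℕ), ThrOf (chsys m θ) S P → TmH S →
    Set.InjOn c (Set.Iio (r + 1)) → D ≤ Dr → 0 < h → h ≤ ζ → 0 < κ₀ → C₀ * ηm ≤ ζ →
    Eb + C * ζ ≤ e → (∀ k ∈ LS, k ≤ N) → (∀ k ∈ L₁, k ∈ LS) →
    (∀ k ∈ L, k ∈ L₁ ∧ o k ≤ W k ∧ 0 ≤ W k ∧ W k < 1 ∧ e < θ * W k) →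
    (∀ k ∈ L, ∀ l < 3, l < r → bet P c l (W k) (W k) + h ≤ 1 ∧
      bet P c l (W k) (W k) ≤ lv k l + ζ) →
    (∀ k ∈ L, ∀ l ≤ 2, l ≤ r → Eb + lv k l + C * ζ ≤ 1) → (∀ k ∈ L, C * ζ ≤ lv k 0) →
    (∀ k ∈ L, 2 ≤ r → q k ∈ L₁ ∧ lv k 1 - o k + C * ζ ≤ lv (q k) 1 - o (q k)) →
    ∃ κ' : ℝ, 0 < κ' ∧ Bas S (fun J F A => ∀ (z : ℕ → ℕ → ℕ) (κ : ℝ) (b : ℕ → ℕ → ℝ)
      (B : F.Ω → Prop) (g₀ : ℕ → ℕ → ℕ)
      (G : ℕ → PtT F → ℕ → MvPolynomial (Option (Fin m)) ℝ)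
      (H : ℕ → LnT F → ℕ → MvPolynomial (Option (Fin m)) ℝ)
      (Sv : PtT F → ℕ → Option (Fin m) → ℝ) (B₁ : F.Ω → Prop),
      WinB F c r D Dr N M C₀ a Eb ηm o η σ lv b κ z B g₀ G H → κ ≤ κ' → Sub B A → Sub B₁ B →
      κ₀ * Pe F.p A ≤ Pe F.p B₁ → (∀ y l, CvC c l (Sv y l)) →
      (∀ ω, B₁ ω → ∀ k ∈ LS, Nc c (g₀ k) ⌊o k * J⌋₊ (r + 1) (2 ^ ⌊ζ * J⌋₊) (Sv (ptr F J ω))
        (fun l => grd (G k (ptr F J ω) l) (bt F ω))) →
      (∀ k ∈ L₁, ROutB F c r ⌊o k * J⌋₊ ⌊C₁ * ζ * J⌋₊ (g₀ k) B₁ (G k) (H k)) →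
      ∃ B' : F.Ω → Prop, Sub B' B₁ ∧ Pe F.p B₁ ≤ (C : ℝ) ^ L.length * Pe F.p B' ∧
        ∀ k ∈ L, LvT F c r ⌊o k * J⌋₊ ⌊C * ζ * J⌋₊ (⌊(Eb + 2 * ηm) * J⌋₊ + ⌊C * ζ * J⌋₊) (g₀ k)
          (G k) Sv B') := by
  obtain ⟨C₂, hC₂, hlvl⟩ := lvl_12 m D r hD hr
  obtain ⟨C, hC⟩ : ∃ C, C = C₂ * (C₁ + 10) + (C₁ + 4) * ((r + 4) * (r + 4)) + C₂ + 10 := ⟨_, rfl⟩
  refine ⟨C, by omega, ?_⟩
  intro S P θ c C₀ a Eb ηm ζ e h κ₀ o η σ lv Dr N M W LS L₁ L q hP hT hc hDr hh hhζ hκ₀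
    hCη hEe hLS hL₁ hL hpl hnum hlow hdeep
  have hζ : 0 < ζ := lt_of_lt_of_le hh hhζ
  have hC₂R : (1 : ℝ) ≤ C₂ := by exact_mod_cast hC₂
  have hC₁0 : (0 : ℝ) ≤ C₁ := Nat.cast_nonneg C₁
  have hCC₂ : C₂ ≤ C := by omega
  have hCR : (1 : ℝ) ≤ C := by
    have : 1 ≤ C := by omega
    exact_mod_cast this
  obtain ⟨κ₂, hκ₂⟩ : ∃ κ₂ : ℝ, κ₂ = κ₀ / C ^ L.length := ⟨_, rfl⟩
  have hκ₂0 : 0 < κ₂ := by rw [hκ₂]; positivity
  have h1 := fun (k : ℕ) (hk : k ∈ L) => hlvl hP hT c hc (W k) e h ζ κ₂ (hL k hk).2.2.1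
    (hL k hk).2.2.2.1 (hL k hk).2.2.2.2 hh (hpl k hk 0 (by norm_num) hr).1
    (fun hr2 => (hpl k hk 1 (by norm_num) hr2).1) hζ hκ₂0
  choose κf hκf hbf using h1
  obtain ⟨κ', hκ', hκm⟩ := min_mem L hκf
  obtain ⟨J₁, hJ₁⟩ := exists_nat_gt (1 / ζ)
  refine ⟨κ', hκ', Bas.mono J₁ (bas_mem L hbf) ?_⟩
  intro J hJ F A hA z κ b B g₀ G H Sv B₁ Wn hκκ hBA hB₁B hκB hSd hS hR
  have hp := Pe_nonneg F.isLaw
  have hJ0 : (0 : ℝ) ≤ J := Nat.cast_nonneg J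
  have hζJ : 1 ≤ ζ * J := by
    have : 1 / ζ < J := hJ₁.trans_le (by exact_mod_cast hJ)
    rw [div_lt_iff₀ hζ] at this
    linarith
  obtain ⟨Y, hY⟩ : ∃ Y : ℕ, Y = ⌊ζ * J⌋₊ + 1 := ⟨_, rfl⟩
  have hY1 : ζ * J ≤ Y := by
    rw [hY]
    push_cast
    exact (Nat.lt_floor_add_one _).le
  have hY2 : (Y : ℝ) ≤ 2 * (ζ * J) := by
    rw [hY]
    push_cast
    have := Nat.floor_le (by linarith : 0 ≤ ζ * (J : ℝ))
    linarith
  obtain ⟨K, hK0⟩ : ∃ K, K = ⌊C₁ * ζ * J⌋₊ := ⟨_, rfl⟩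
  have hKR : (K : ℝ) ≤ C₁ * (ζ * J) := by
    rw [hK0, mul_assoc]
    exact Nat.floor_le (by positivity)
  obtain ⟨X, hX⟩ : ∃ X, X = Y + K := ⟨_, rfl⟩
  have hXR : (X : ℝ) = Y + K := by rw [hX]; push_cast; rfl
  have hYp : (2 : ℝ) ^ ⌊ζ * J⌋₊ ≤ 2 ^ X := pow_le_pow_right₀ (by norm_num) (by omega)
  have hYone : 1 ≤ Y := by omega
  -- the constants
  obtain ⟨E, hE⟩ : ∃ E, E = X + 3 * Y + 1 := ⟨_, rfl⟩
  have hE4 : (E : ℝ) ≤ (C₁ + 10) * (ζ * J) := by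
    rw [hE, hX]
    push_cast
    linarith
  have hCER : ((C₂ * E : ℕ) : ℝ) ≤ C₂ * ((C₁ + 10) * (ζ * J)) := by
    push_cast
    exact mul_le_mul_of_nonneg_left hE4 (by linarith : (0 : ℝ) ≤ C₂)
  obtain ⟨Λ, hΛ⟩ : ∃ Λ : ℝ, Λ = C₂ * ((C₁ + 10) * (ζ * J)) := ⟨_, rfl⟩
  have hΛ0 : 0 ≤ Λ := by rw [hΛ]; positivity
  rw [← hΛ] at hCER
  have hCζ : C * ζ * J = Λ + (C₁ + 4) * ((r + 4) * (r + 4)) * (ζ * J) + C₂ * (ζ * J) +
      10 * (ζ * J) := by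
    rw [hC, hΛ]
    push_cast
    ring
  have hrr : 0 ≤ (C₁ + 4) * (((r : ℝ) + 4) * (r + 4)) * (ζ * J) := by positivity
  have hC₂J : ζ * J ≤ C₂ * (ζ * J) := le_mul_of_one_le_left (by linarith) hC₂R
  have hK : C₂ * E ≤ ⌊C * ζ * J⌋₊ := Nat.le_floor (by linarith)
  obtain ⟨e₀, he₀⟩ : ∃ e₀, e₀ = ⌊(Eb + 2 * ηm) * J⌋₊ := ⟨_, rfl⟩
  -- the windows
  have hstep : ∀ k ∈ L, ∀ B' : F.Ω → Prop, Sub B' B₁ →
      Pe F.p B₁ ≤ (C : ℝ) ^ L.length * Pe F.p B' →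
      ∃ B'' : F.Ω → Prop, Sub B'' B' ∧ Pe F.p B' ≤ (C : ℝ) * Pe F.p B'' ∧
        LvT F c r ⌊o k * J⌋₊ ⌊C * ζ * J⌋₊ (e₀ + ⌊C * ζ * J⌋₊) (g₀ k) (G k) Sv B'' := by
    intro k hk B' hB' hPB'
    obtain ⟨hk1, hok, hW0, hW1, heW⟩ := hL k hk
    have hkS := hL₁ k hk1
    have hkN := hLS k hkS
    have hηm0 : 0 ≤ ηm := (Wn.hη k hkN).1.trans (Wn.hη k hkN).2
    have hηζ : ηm ≤ ζ := (le_mul_of_one_le_left hηm0 Wn.C1).trans hCη
    have hηJ : ηm * J ≤ ζ * J := mul_le_mul_of_nonneg_right hηζ hJ0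
    have hB'B : Sub B' B := fun ω hω => hB₁B ω (hB' ω hω)
    have hEb := Wn.Eb0
    have hfE : (e₀ : ℝ) ≤ Eb * J + 2 * (ζ * J) := by
      rw [he₀]
      refine (Nat.floor_le (mul_nonneg (by linarith) hJ0)).trans ?_
      rw [add_mul]
      linarith
    have hSk : ∀ k ∈ LS, ∀ ω, B' ω → Nc c (g₀ k) ⌊o k * J⌋₊ (r + 1) (2 ^ X) (Sv (ptr F J ω))
        (fun l => grd (G k (ptr F J ω) l) (bt F ω)) := fun k hk ω hω =>
      (hS ω (hB' ω hω) k hk).mono hYp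
    have hRk : ∀ k ∈ L₁, ROutB F c r ⌊o k * J⌋₊ K (g₀ k) B' (G k) (H k) := fun k hk => by
      rw [hK0]
      exact (hR k hk).sub hB'
    have hWok := winb_ok Wn hkN hB'B (show K ≤ X by omega) (hRk k hk1) hSd (hSk k hkS)
    rw [← he₀] at hWok
    have hWR : (0 : ℝ) ≤ W k := by exact_mod_cast hW0
    have haW : ⌊o k * J⌋₊ ≤ ⌊(W k : ℝ) * J⌋₊ :=
      Nat.floor_le_floor (mul_le_mul_of_nonneg_right hok hJ0)
    have haJ : ⌊o k * J⌋₊ ≤ J := by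
      refine haW.trans ?_
      have h2 : ((W k : ℚ) : ℝ) * J ≤ J := by
        have h3 : ((W k : ℚ) : ℝ) ≤ 1 := by exact_mod_cast hW1.le
        have := mul_le_mul_of_nonneg_right h3 hJ0
        rwa [one_mul] at this
      have h3 := Nat.floor_le_floor h2
      rwa [Nat.floor_natCast] at h3
    have hgl := fun (l : ℕ) (hl : l ≤ r) => Wn.g_num hkN hl
    obtain ⟨B'', k1, k2, k3⟩ := hA k hk ⌊o k * J⌋₊ ⌊o k * J⌋₊ 0 e₀ X (3 * Y)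
      0 (g₀ k) (g₀ k) _ (G k) (H k) (G k) (H k) _ Sv B B' haJ haW (hY1.trans (by
        have : Y ≤ X := by omega
        exact_mod_cast this)) (by
        rw [← hE]
        refine Nat.le_floor ?_
        push_cast at hCER ⊢
        have := mul_le_mul_of_nonneg_right hEe hJ0
        rw [add_mul] at this
        linarith) (fun j hj => by
        rw [← hE]
        obtain ⟨-, -, -, g2⟩ := hgl j (by omega)
        have h2 := mul_le_mul_of_nonneg_right (hnum k hk j (by omega) (by omega)) hJ0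
        rw [add_mul, add_mul, one_mul] at h2
        have h3 : ((e₀ + g₀ k j + C₂ * E : ℕ) : ℝ) ≤ (J : ℕ) := by
          push_cast at hCER ⊢
          linarith
        exact_mod_cast h3) (fun hr2 => by
        obtain ⟨-, -, -, g2⟩ := hgl 2 hr2
        have h2 := mul_le_mul_of_nonneg_right (hnum k hk 2 le_rfl hr2) hJ0
        rw [add_mul, add_mul, one_mul] at h2
        have h4 : 0 ≤ Eb * J := mul_nonneg hEb hJ0
        have h3 : ((g₀ k 2 : ℕ) : ℝ) ≤ (J : ℕ) := by linarith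
        exact_mod_cast h3) (fun hr2 => by
        rw [← hE]
        obtain ⟨-, -, g1, -⟩ := hgl 0 (by omega)
        have h2 := mul_le_mul_of_nonneg_right (hlow k hk) hJ0
        have h3 : ((C₂ * E : ℕ) : ℝ) ≤ (g₀ k 0 : ℕ) := by linarith
        exact_mod_cast h3) (fun l hl hlr => by
        obtain ⟨-, -, g1, -⟩ := hgl l (by omega)
        obtain ⟨h2, h3⟩ := hpl k hk l (by omega) hlr
        have h4 : (⌊(bet P c l (W k) (W k) + h) * J⌋₊ : ℝ) ≤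
            (bet P c l (W k) (W k) + h) * J := by
          refine Nat.floor_le (mul_nonneg ?_ hJ0)
          have : (0 : ℝ) ≤ bet P c l (W k) (W k) := hWR.trans (hP.low _ _ _ hWR le_rfl (by
            exact_mod_cast hW1.le))
          linarith
        have h5 := mul_le_mul_of_nonneg_right h3 hJ0
        have h6 := mul_le_mul_of_nonneg_right hhζ hJ0
        have h7 : ((⌊(bet P c l (W k) (W k) + h) * J⌋₊ : ℕ) : ℝ) ≤
            ((g₀ k l + 3 * Y : ℕ) : ℝ) := by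
          push_cast
          have e1 := add_mul (bet P c l (W k) (W k)) h (J : ℝ)
          rw [add_mul] at h5
          linarith
        have h8 : ⌊(bet P c l (W k) (W k) + h) * J⌋₊ ≤ g₀ k l + 3 * Y := by exact_mod_cast h7
        omega) hB'B hBA (by
        have h2 : κ₀ * Pe F.p A ≤ (C : ℝ) ^ L.length * Pe F.p B' := hκB.trans hPB'
        rw [hκ₂, div_mul_eq_mul_div, div_le_iff₀ (by positivity)]
        linarith) hWok (fun hr2 => by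
        rw [← hE]
        obtain ⟨hq1, hqv⟩ := hdeep k hk hr2
        refine winb_deep Wn hkN (hLS _ (hL₁ _ hq1)) (by omega) (show K ≤ X by omega) (hRk _ hq1)
          (hSk _ (hL₁ _ hq1)) ?_
        have h2 := mul_le_mul_of_nonneg_right hqv hJ0
        rw [add_mul] at h2
        have h3 : (((r + 4) * (r + 4) * (X + 1) + C₂ * E + 1 : ℕ) : ℝ) ≤
            (C₁ + 4) * ((r + 4) * (r + 4)) * (ζ * J) + Λ + ζ * J := by
          push_cast at hCER ⊢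
          have h4 : ((r : ℝ) + 4) * (r + 4) * (X + 1) ≤
              (r + 4) * (r + 4) * ((C₁ + 4) * (ζ * J)) :=
            mul_le_mul_of_nonneg_left (by linarith) (by positivity)
          linarith
        linarith)
      (Pool.ISO.relvF_exp ((Wn.ev k hkN).relb.mono hDr (hκκ.trans (hκm k hk))) (by
        have h2 : (⌊η k * J⌋₊ : ℝ) ≤ X := by
          refine (Nat.floor_le (mul_nonneg (Wn.hη k hkN).1 hJ0)).trans ?_
          have := mul_le_mul_of_nonneg_right (Wn.hη k hkN).2 hJ0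
          have hK00 : (0 : ℝ) ≤ K := Nat.cast_nonneg K
          linarith
        exact_mod_cast h2))
    refine ⟨B'', k1, k2.trans (mul_le_mul_of_nonneg_right (by exact_mod_cast hCC₂) (hp _)), ?_⟩
    rw [← hE] at k3
    exact k3.sub (fun _ h => h) hK (by omega)
  rw [← he₀]
  exact ev_list (fun k B'' => LvT F c r ⌊o k * J⌋₊ ⌊C * ζ * J⌋₊ (e₀ + ⌊C * ζ * J⌋₊) (g₀ k) (G k) Sv
    B'') hCR (fun k B B' h hB => h.sub hB le_rfl le_rfl) L B₁ hstep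

end Pool.D2R
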