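import Pool.Agent.H23.D2.Bcl
import Pool.Agent.H23.D2.Cno

/-!
# The numbers of the environment

`Wins`: finitely many windows on one event (the output of `bal_con`), `win_con`: it exists in a
class. `Wins.env`: the environment of a target from a chain of windows, the numbers in real form.
-/

set_option autoImplicit false

namespace Pool.D2R

open Finset Real MvPolynomial
open Pool.Agent.H49.Ent Pool.Agent.H32.Dense Pool.STK Pool.KA Pool.KSAT Pool.K2S Pool.PB Pool.S6C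
open Pool.GEN Pool.CHT Pool.CHX Pool.ISO
open Pool.LBT (ThrOf)
open Pool.LEV (Law)
open Pool.FLF (Fam.sub)

variable {m J : ℕ}

/-- **Finitely many windows on one event.** `lv`, `be`: the levels of the balls and of the thin
labels. -/
structure Wins (F : Fam m J) (c : ℕ → Fin m) (r D Dr N M : ℕ) (R : ℕ → Prop)
    (C₀ a Eb ηm : ℝ) (o ε p' η σ : ℕ → ℝ) (lv be b : ℕ → ℕ → ℝ) (κ : ℝ) (z : ℕ → ℕ → ℕ)
    (B : F.Ω → Prop) (gc gT g₀ : ℕ → ℕ → ℕ)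
    (G : ℕ → PtT F → ℕ → MvPolynomial (Option (Fin m)) ℝ)
    (H : ℕ → LnT F → ℕ → MvPolynomial (Option (Fin m)) ℝ)
    (T : ℕ → PtT F → ℕ → MvPolynomial (Option (Fin m)) ℝ)
    (TH : ℕ → LnT F → ℕ → MvPolynomial (Option (Fin m)) ℝ)
    (Gt : ℕ → PtT F → MvPolynomial (Option (Fin m)) ℝ)
    (Ht : ℕ → LnT F → MvPolynomial (Option (Fin m)) ℝ) : Prop where
  C1 : 1 ≤ C₀
  Eb0 : 0 ≤ Eb
  hη : ∀ k ≤ N, 0 ≤ η k ∧ η k ≤ ηm
  hσ : ∀ k ≤ N, 0 ≤ σ k ∧ σ k ≤ ηm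
  hε : ∀ k ≤ N, 0 ≤ ε k
  ho : ∀ k ≤ N, 0 ≤ o k ∧ o k ≤ a
  hp' : ∀ k ≤ N, C₀ * η k ≤ p' k
  hgr : ∀ k ≤ N, C₀ * (η k * J) ≤ gc k r
  hb : ∀ k ≤ N, ∀ l ≤ r, lv k l - σ k < b k l ∧ b k l < lv k l
  sds : ∀ k ≤ N, Sds r J (⌊a * J⌋₊ - ⌊o k * J⌋₊) R (lv k) (be k) (σ k) (ε k) (η k) (gc k) (gT k)
    (g₀ k)
  evs : ∀ k ≤ N, EvS F c r D Dr ⌊o k * J⌋₊ (⌊a * J⌋₊ - ⌊o k * J⌋₊) M (z k)
    ⌊(Eb + σ k + η k) * J⌋₊ ⌊η k * J⌋₊ ⌊p' k * J⌋₊ R (fun l => ⌊b k l * J⌋₊) (gc k)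
    (gT k) (g₀ k) κ B (G k) (H k) (T k) (TH k) (Gt k) (Ht k)
  row : ∀ i ≤ N, ∀ j ≤ N, o i ≤ o j → ∀ q : ℕ, (q : ℝ) + C₀ * (η j * J) ≤ p' i * J →
    (q : ℝ) + C₀ * (η j * J) ≤ gc j r →
    ROut1 F c r ⌊o i * J⌋₊ ⌊o j * J⌋₊ (⌊a * J⌋₊ - ⌊o j * J⌋₊) (g₀ j) (gT j) q
      (2 ^ ⌊C₀ * (η j * J)⌋₊) B (G j) (H j) (T j) (TH j) (Ht i)
  bal : BalE F c r N M ⌊a * J⌋₊ (fun k => ⌊o k * J⌋₊) z (fun k l => ⌊b k l * J⌋₊) gc gT g₀
    (2 ^ ⌊C₀ * (ηm * J)⌋₊) B G T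

/-- A sub-chain of the windows. -/
theorem BalE.sel {F : Fam m J} {c : ℕ → Fin m} {r N M a n : ℕ} {o : ℕ → ℕ} {z : ℕ → ℕ → ℕ}
    {g gc gT g₀ : ℕ → ℕ → ℕ} {U U' : ℝ} {B : F.Ω → Prop}
    {G T : ℕ → PtT F → ℕ → MvPolynomial (Option (Fin m)) ℝ} {f : ℕ → ℕ}
    (h : BalE F c r N M a o z g gc gT g₀ U B G T) (hf : ∀ k ≤ n, f k ≤ N) (hU : U ≤ U') :
    BalE F c r n M a (fun k => o (f k)) (fun k => z (f k)) (fun k => g (f k))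
      (fun k => gc (f k)) (fun k => gT (f k)) (fun k => g₀ (f k)) U' B (fun k => G (f k))
      (fun k => T (f k)) where
  inc := fun k hk ω hω i hi b hb j hj => (h.inc (f k) (hf k hk) ω hω i hi b hb j hj).trans
    (div_le_div_of_nonneg_right hU (by positivity))
  bal := fun k hk k' hk' q hq hoo hz ω hω l hl b hb =>
    (h.bal (f k) (hf k hk) (f k') (hf k' hk') q hq hoo hz ω hω l hl b hb).trans
    (div_le_div_of_nonneg_right hU (by positivity))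

section

variable {F : Fam m J} {c : ℕ → Fin m} {r D Dr N M : ℕ} {R : ℕ → Prop}
    {C₀ a Eb ηm : ℝ} {o ε p' η σ : ℕ → ℝ} {lv be b : ℕ → ℕ → ℝ} {κ : ℝ} {z : ℕ → ℕ → ℕ}
    {B : F.Ω → Prop} {gc gT g₀ : ℕ → ℕ → ℕ}
    {G : ℕ → PtT F → ℕ → MvPolynomial (Option (Fin m)) ℝ}
    {H : ℕ → LnT F → ℕ → MvPolynomial (Option (Fin m)) ℝ}
    {T : ℕ → PtT F → ℕ → MvPolynomial (Option (Fin m)) ℝ}
    {TH : ℕ → LnT F → ℕ → MvPolynomial (Option (Fin m)) ℝ}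
    {Gt : ℕ → PtT F → MvPolynomial (Option (Fin m)) ℝ}
    {Ht : ℕ → LnT F → MvPolynomial (Option (Fin m)) ℝ}

/-- The sides of the balls. -/
theorem Wins.g_num (W : Wins F c r D Dr N M R C₀ a Eb ηm o ε p' η σ lv be b κ z B gc gT g₀ G H T
    TH Gt Ht) {k l : ℕ} (hk : k ≤ N) (hl : l ≤ r) :
    (lv k l * J - ηm * J - 1 ≤ (⌊b k l * J⌋₊ : ℝ)) ∧ ((⌊b k l * J⌋₊ : ℝ) ≤ lv k l * J) ∧
    (lv k l * J - ηm * J ≤ (g₀ k l : ℝ)) ∧ ((g₀ k l : ℝ) ≤ lv k l * J) ∧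
    (lv k l * J - ηm * J + (⌊a * J⌋₊ - ⌊o k * J⌋₊) ≤ (gc k l : ℝ)) ∧
    ((gc k l : ℝ) ≤ lv k l * J + (⌊a * J⌋₊ - ⌊o k * J⌋₊)) := by
  have hJ : (0 : ℝ) ≤ J := Nat.cast_nonneg J
  obtain ⟨h1, h2⟩ := W.hb k hk l hl
  obtain ⟨h3, h4⟩ := W.hη k hk
  obtain ⟨h5, h6⟩ := W.hσ k hk
  have hs := W.sds k hk
  have s1 := hs.b1 l hl
  have s2 := hs.b2 l hl
  have s3 := hs.c1 l hl
  have s4 := hs.c2 l hl
  have hv : ⌊o k * J⌋₊ ≤ ⌊a * J⌋₊ := Nat.floor_le_floor (mul_le_mul_of_nonneg_right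
    (W.ho k hk).2 hJ)
  rw [Nat.cast_sub hv] at s3 s4
  have e1 : (lv k l - ηm) * (J : ℝ) ≤ (lv k l - σ k) * J :=
    mul_le_mul_of_nonneg_right (by linarith) hJ
  have e2 : (lv k l - σ k) * (J : ℝ) ≤ b k l * J := mul_le_mul_of_nonneg_right h1.le hJ
  have e3 : b k l * (J : ℝ) ≤ lv k l * J := mul_le_mul_of_nonneg_right h2.le hJ
  have e4 := (Nat.lt_floor_add_one (b k l * (J : ℝ))).le
  have e5 : (lv k l - ηm) * (J : ℝ) ≤ (lv k l - η k) * J :=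
    mul_le_mul_of_nonneg_right (by linarith) hJ
  have e6 : (lv k l - ε k) * (J : ℝ) ≤ lv k l * J :=
    mul_le_mul_of_nonneg_right (by linarith [W.hε k hk]) hJ
  have e7 : (⌊b k l * J⌋₊ : ℝ) ≤ lv k l * J := by
    rcases le_or_gt 0 (b k l * (J : ℝ)) with h | h
    · exact (Nat.floor_le h).trans e3
    · rw [Nat.floor_of_nonpos h.le, Nat.cast_zero]
      exact (Nat.cast_nonneg _).trans s2
  refine ⟨by linarith, e7, by linarith, s2, by linarith, by linarith⟩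

/-- The sides of the thin charts. -/
theorem Wins.t_num (W : Wins F c r D Dr N M R C₀ a Eb ηm o ε p' η σ lv be b κ z B gc gT g₀ G H T
    TH Gt Ht) {k l : ℕ} (hk : k ≤ N) (hl : l < r) :
    (R l → lv k l * J - ηm * J + (⌊a * J⌋₊ - ⌊o k * J⌋₊) ≤ (gT k l : ℝ) ∧
      (gT k l : ℝ) ≤ lv k l * J + (⌊a * J⌋₊ - ⌊o k * J⌋₊)) ∧
    (¬ R l → be k l * J - ηm * J ≤ (gT k l : ℝ) ∧ (gT k l : ℝ) ≤ be k l * J) := by
  have hJ : (0 : ℝ) ≤ J := Nat.cast_nonneg J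
  obtain ⟨-, -, -, -, h1, h2⟩ := W.g_num hk hl.le
  refine ⟨fun h => ?_, fun h => ?_⟩
  · rw [((W.evs k hk).rgh l hl h).1]
    exact ⟨h1, h2⟩
  · have s1 := (W.sds k hk).t1 l hl h
    have s2 := (W.sds k hk).t2 l hl h
    have e5 : (be k l - ηm) * (J : ℝ) ≤ (be k l - η k) * J :=
      mul_le_mul_of_nonneg_right (by linarith [(W.hη k hk).2]) hJ
    have e6 : (be k l - ε k) * (J : ℝ) ≤ be k l * J :=
      mul_le_mul_of_nonneg_right (by linarith [W.hε k hk]) hJ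
    exact ⟨by linarith, by linarith⟩

/-- The velocities of one window. -/
theorem Wins.vel (W : Wins F c r D Dr N M R C₀ a Eb ηm o ε p' η σ lv be b κ z B gc gT g₀ G H T
    TH Gt Ht) {k Y : ℕ} (hk : k ≤ N) (hY : C₀ * (ηm * J) ≤ Y) :
    ∀ ω ν, B ω → B ν → ptr F J ω = ptr F J ν → ∀ l ≤ r,
      |bd F ν (some (c l)) - dd (G k (ptr F J ω) l) (bt F ω) (bd F ν)| ≤
        2 ^ Y * 2 ^ ⌊o k * J⌋₊ / 2 ^ g₀ k l := by
  have hJ : (0 : ℝ) ≤ J := Nat.cast_nonneg J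
  have hC0 : 0 ≤ C₀ := by linarith [W.C1]
  have h1 := W.row k hk k hk le_rfl 0 (by
    have := mul_le_mul_of_nonneg_right (W.hp' k hk) hJ
    rw [Nat.cast_zero, zero_add]
    linarith) (by
    rw [Nat.cast_zero, zero_add]
    exact W.hgr k hk)
  intro ω ν hω hν hpt l hl
  refine (h1.vel ω ν hω hν hpt l hl).trans (div_le_div_of_nonneg_right
    (mul_le_mul_of_nonneg_right (pow_le_pow_right₀ (by norm_num) ?_) (by positivity))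
    (by positivity))
  have h2 : C₀ * (η k * J) ≤ Y := le_trans (mul_le_mul_of_nonneg_left
    (mul_le_mul_of_nonneg_right (W.hη k hk).2 hJ) hC0) hY
  have h3 : (⌊C₀ * (η k * J)⌋₊ : ℝ) ≤ Y :=
    (Nat.floor_le (mul_nonneg hC0 (mul_nonneg (W.hη k hk).1 hJ))).trans h2
  exact_mod_cast h3

end

/-- **The environment from a chain of windows**, the numbers in real form. -/
theorem win_env (m D r : ℕ) : ∃ C : ℕ, 1 ≤ C ∧ ∀ {J : ℕ} {F : Fam m J} {c : ℕ → Fin m}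
    {Dr N M : ℕ} {R : ℕ → Prop} {C₀ a Eb ηm : ℝ} {o ε p' η σ : ℕ → ℝ} {lv be b : ℕ → ℕ → ℝ}
    {κ : ℝ} {z : ℕ → ℕ → ℕ} {B : F.Ω → Prop} {gc gT g₀ : ℕ → ℕ → ℕ}
    {G : ℕ → PtT F → ℕ → MvPolynomial (Option (Fin m)) ℝ}
    {H : ℕ → LnT F → ℕ → MvPolynomial (Option (Fin m)) ℝ}
    {T : ℕ → PtT F → ℕ → MvPolynomial (Option (Fin m)) ℝ}
    {TH : ℕ → LnT F → ℕ → MvPolynomial (Option (Fin m)) ℝ}
    {Gt : ℕ → PtT F → MvPolynomial (Option (Fin m)) ℝ}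
    {Ht : ℕ → LnT F → MvPolynomial (Option (Fin m)) ℝ}
    (_ : Wins F c r D Dr N M R C₀ a Eb ηm o ε p' η σ lv be b κ z B gc gT g₀ G H T TH Gt Ht)
    {f jj : ℕ → ℕ} {n i s Xm nn jq jz Y : ℕ},
    Set.InjOn c (Set.Iio (r + 1)) → i ≤ r → (∀ k ≤ n, f k ≤ N) →
    (∀ k < n, jj k ≤ M ∧ z (f k) (jj k) = ⌊o (f (k + 1)) * J⌋₊ - ⌊o (f k) * J⌋₊ ∧
      o (f k) ≤ o (f (k + 1))) → jq ≤ M → jz ≤ M →
    C₀ * (ηm * J) ≤ Y → 3 ≤ Y → (n : ℝ) ≤ 2 ^ Y →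
    z (f 0) jq + nn + 2 * Y ≤ ⌊a * J⌋₊ - ⌊o (f 0) * J⌋₊ →
    z (f n) jz + 2 * Y ≤ ⌊a * J⌋₊ - ⌊o (f n) * J⌋₊ →
    (∀ k < n, ∀ l ≤ i, ∀ j < l, (lv (f (k + 1)) j + lv (f 0) l) * J ≤
      (min (lv (f k) l + (o (f (k + 1)) - o (f k))) (lv (f (k + 1)) l) + lv (f 0) j) * J + Y) →
    (∀ l ≤ i, (lv (f n) l - lv (f 0) l) * J + z (f n) jz + 2 * Y ≤ z (f 0) jq + Xm) →
    (z (f 0) jq : ℝ) + 2 * Y ≤ (lv (f n) i - lv (f 0) i) * J + z (f n) jz + Xm →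
    (∀ l ≤ i, (Eb + lv (f n) l) * J + z (f n) jz + s + 2 * Xm + 2 * C * Y ≤ J) →
    EnvD F c i D ⌊o (f 0) * J⌋₊ (⌊o (f 0) * J⌋₊ + z (f 0) jq) ⌊a * J⌋₊ nn (C * Y)
      ⌊(Eb + 2 * ηm) * J⌋₊ s (fun l => ⌊b (f 0) l * J⌋₊ + z (f 0) jq) (gT (f 0))
      (2 ^ Y * 2 ^ ⌊o (f n) * J⌋₊ / 2 ^ g₀ (f n) i) B
      (fun y l => Gno (c l) J J (fun y => G (f 0) y l) y) (H (f 0)) (T (f 0))
      (fun y => Gno (c i) J J (fun y => G (f n) y i) y) := by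
  obtain ⟨C, hC, henv⟩ := env_out m D r
  refine ⟨7 * C + 8, by omega, ?_⟩
  intro J F c Dr N M R C₀ a Eb ηm o ε p' η σ lv be b κ z B gc gT g₀ G H T TH Gt Ht W f jj n i s
    Xm nn jq jz Y hc hi hf hst hjq hjz hY hY3 hn hv0 hvn hgrow hXm hXi hJJ
  have hJ : (0 : ℝ) ≤ J := Nat.cast_nonneg J
  have hC1 := W.C1
  have hηm0 : 0 ≤ ηm := (W.hη (f 0) (hf 0 (Nat.zero_le n))).1.trans
    (W.hη (f 0) (hf 0 (Nat.zero_le n))).2
  have hY3R : (3 : ℝ) ≤ Y := by exact_mod_cast hY3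
  have hηY : ηm * J ≤ Y := by
    have h1 : ηm * J ≤ C₀ * (ηm * J) := le_mul_of_one_le_left (mul_nonneg hηm0 hJ) hC1
    linarith
  have hfl : ∀ k ≤ n, ⌊o (f k) * J⌋₊ ≤ ⌊a * J⌋₊ := fun k hk =>
    Nat.floor_le_floor (mul_le_mul_of_nonneg_right (W.ho (f k) (hf k hk)).2 hJ)
  have hnum := fun (k : ℕ) (hk : k ≤ n) (l : ℕ) (hl : l ≤ r) => W.g_num (hf k hk) hl
  have hop : ∀ k ≤ n, (⌊o (f k) * J⌋₊ : ℝ) ≤ o (f k) * J := fun k hk =>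
    Nat.floor_le (mul_nonneg (W.ho (f k) (hf k hk)).1 hJ)
  have hom : ∀ k ≤ n, o (f k) * J ≤ ⌊o (f k) * J⌋₊ + 1 := fun k hk =>
    (Nat.lt_floor_add_one (o (f k) * (J : ℝ))).le
  obtain ⟨Z, hZ⟩ : ∃ Z : ℕ, Z = 4 * Y := ⟨_, rfl⟩
  have h0n := Nat.zero_le n
  exact henv (i := i) (s := s) (X := Y) (Z := Z) (Xm := Xm)
    (N := (7 * C + 8) * Y) (nn := nn) (q := z (f 0) jq) (z₂ := z (f n) jz) (jq := jq)
    (jz := jz) (o := fun k => ⌊o (f k) * J⌋₊) (e := ⌊(Eb + 2 * ηm) * J⌋₊)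
    (ee := fun k => ⌊(Eb + σ (f k) + η (f k)) * J⌋₊) (hh := fun k => ⌊η (f k) * J⌋₊)
    (p := fun k => ⌊p' (f k) * J⌋₊) (jj := jj) (z := fun k => z (f k))
    (g := fun k l => ⌊b (f k) l * J⌋₊) (gc := fun k => gc (f k)) (gT := fun k => gT (f k))
    (g₀ := fun k => g₀ (f k)) (κ := fun _ => κ) (G := fun k => G (f k)) (T := fun k => T (f k))
    (H := fun k => H (f k)) (TH := fun k => TH (f k)) (Gt := fun k => Gt (f k))
    (Ht := fun k => Ht (f k)) (R := R) (Dr := Dr) (M := M) (a := ⌊a * J⌋₊) (n := n) hc hi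
    hfl (fun k hk => Nat.floor_le_floor (mul_le_mul_of_nonneg_right (by
      have h1 := (W.hη (f k) (hf k hk)).2
      have h2 := (W.hσ (f k) (hf k hk)).2
      linarith) hJ)) (fun k hk => W.evs (f k) (hf k hk))
    (W.bal.sel hf (pow_le_pow_right₀ (by norm_num) (by
      have h3 : (⌊C₀ * (ηm * J)⌋₊ : ℝ) ≤ Y :=
        (Nat.floor_le (mul_nonneg (by linarith) (mul_nonneg hηm0 hJ))).trans hY
      exact_mod_cast h3)))
    (fun ω ν hω hν hpt l hl => W.vel (hf 0 h0n) hY ω ν hω hν hpt l (by omega))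
    (fun ω ν hω hν hpt => W.vel (hf n le_rfl) hY ω ν hω hν hpt i hi)
    (fun k hk => ⟨(hst k hk).1, (hst k hk).2.1, Nat.floor_le_floor
      (mul_le_mul_of_nonneg_right (hst k hk).2.2 hJ)⟩) hjq rfl hjz rfl (by
      have := hfl 0 h0n
      omega) (fun l hl => by
      obtain ⟨-, h1, -, -, h2, -⟩ := hnum 0 h0n l (by omega)
      have h3 : (z (f 0) jq : ℝ) + nn + 2 * Y ≤ ⌊a * J⌋₊ - ⌊o (f 0) * J⌋₊ := by
        rw [← Nat.cast_sub (hfl 0 h0n)]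
        exact_mod_cast hv0
      have h4 : ((⌊b (f 0) l * J⌋₊ + z (f 0) jq + nn + Y : ℕ) : ℝ) ≤ (gc (f 0) l : ℕ) := by
        push_cast
        linarith
      exact_mod_cast h4) (fun l hl => by
      obtain ⟨-, h1, h2, -, -, -⟩ := hnum 0 h0n l (by omega)
      have h4 : ((⌊b (f 0) l * J⌋₊ + Y : ℕ) : ℝ) ≤ ((g₀ (f 0) l + (7 * C + 8) * Y : ℕ) : ℝ) := by
        push_cast
        have h5 : (0 : ℝ) ≤ 7 * C * Y := by positivity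
        nlinarith
      exact_mod_cast h4) (fun k hk l hl j hj => by
      have h1 := hgrow k hk l hl j hj
      obtain ⟨a1, a2, a3, a4, -⟩ := hnum k (by omega) l (by omega)
      obtain ⟨b1, b2, b3, b4, -⟩ := hnum (k + 1) (by omega) l (by omega)
      obtain ⟨c1, c2, c3, c4, -⟩ := hnum (k + 1) (by omega) j (by omega)
      obtain ⟨d1, d2, d3, d4, -⟩ := hnum 0 h0n l (by omega)
      obtain ⟨e1, e2, e3, e4, -⟩ := hnum 0 h0n j (by omega)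
      have f1 := hop k (by omega)
      have f2 := hom k (by omega)
      have f3 := hop (k + 1) (by omega)
      have f4 := hom (k + 1) (by omega)
      have f5 : ⌊o (f k) * J⌋₊ ≤ ⌊o (f (k + 1)) * J⌋₊ := Nat.floor_le_floor
        (mul_le_mul_of_nonneg_right (hst k hk).2.2 hJ)
      have n1 := min_le_left (lv (f k) l + (o (f (k + 1)) - o (f k))) (lv (f (k + 1)) l)
      have n2 := min_le_right (lv (f k) l + (o (f (k + 1)) - o (f k))) (lv (f (k + 1)) l)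
      have m1 : (min (lv (f k) l + (o (f (k + 1)) - o (f k))) (lv (f (k + 1)) l) +
          lv (f 0) j) * J ≤ (lv (f k) l + (o (f (k + 1)) - o (f k)) + lv (f 0) j) * J :=
        mul_le_mul_of_nonneg_right (by linarith) hJ
      have m2 : (min (lv (f k) l + (o (f (k + 1)) - o (f k))) (lv (f (k + 1)) l) +
          lv (f 0) j) * J ≤ (lv (f (k + 1)) l + lv (f 0) j) * J :=
        mul_le_mul_of_nonneg_right (by linarith) hJ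
      have k1 : g₀ (f (k + 1)) j + ⌊b (f 0) l * J⌋₊ ≤ ⌊b (f k) l * J⌋₊ +
          (⌊o (f (k + 1)) * J⌋₊ - ⌊o (f k) * J⌋₊) + ⌊b (f 0) j * J⌋₊ + Z := by
        have h4 : ((g₀ (f (k + 1)) j + ⌊b (f 0) l * J⌋₊ : ℕ) : ℝ) ≤ ((⌊b (f k) l * J⌋₊ +
          (⌊o (f (k + 1)) * J⌋₊ - ⌊o (f k) * J⌋₊) + ⌊b (f 0) j * J⌋₊ + Z : ℕ) : ℝ) := by
          rw [hZ]
          push_cast [Nat.cast_sub f5]
          nlinarith
        exact_mod_cast h4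
      have k2 : g₀ (f (k + 1)) j + ⌊b (f 0) l * J⌋₊ ≤ g₀ (f (k + 1)) l +
          ⌊b (f 0) j * J⌋₊ + Z := by
        have h4 : ((g₀ (f (k + 1)) j + ⌊b (f 0) l * J⌋₊ : ℕ) : ℝ) ≤ ((g₀ (f (k + 1)) l +
          ⌊b (f 0) j * J⌋₊ + Z : ℕ) : ℝ) := by
          rw [hZ]
          push_cast
          nlinarith
        exact_mod_cast h4
      show g₀ (f (k + 1)) j + ⌊b (f 0) l * J⌋₊ ≤ min (⌊b (f k) l * J⌋₊ +
          (⌊o (f (k + 1)) * J⌋₊ - ⌊o (f k) * J⌋₊)) (g₀ (f (k + 1)) l) + ⌊b (f 0) j * J⌋₊ + Z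
      omega) (fun l hl => by
      obtain ⟨-, h1, -, -, h2, -⟩ := hnum n le_rfl l (by omega)
      have h3 : (z (f n) jz : ℝ) + 2 * Y ≤ ⌊a * J⌋₊ - ⌊o (f n) * J⌋₊ := by
        rw [← Nat.cast_sub (hfl n le_rfl)]
        exact_mod_cast hvn
      have h4 : ((⌊b (f n) l * J⌋₊ + z (f n) jz + 1 : ℕ) : ℝ) ≤ (gc (f n) l : ℕ) := by
        push_cast
        linarith
      exact_mod_cast h4) (fun l hl => by
      obtain ⟨-, h1, -, -, -⟩ := hnum n le_rfl l (by omega)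
      obtain ⟨h2, -, -⟩ := hnum 0 h0n l (by omega)
      have h3 := hXm l hl
      have h4 : ((⌊b (f n) l * J⌋₊ + z (f n) jz : ℕ) : ℝ) ≤
          ((⌊b (f 0) l * J⌋₊ + z (f 0) jq + Xm : ℕ) : ℝ) := by
        push_cast
        nlinarith
      exact_mod_cast h4) (by
      obtain ⟨h2, -, -⟩ := hnum n le_rfl i (by omega)
      obtain ⟨-, h1, -⟩ := hnum 0 h0n i (by omega)
      have h4 : ((⌊b (f 0) i * J⌋₊ + z (f 0) jq : ℕ) : ℝ) ≤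
          ((⌊b (f n) i * J⌋₊ + z (f n) jz + Xm : ℕ) : ℝ) := by
        push_cast
        nlinarith
      exact_mod_cast h4) hn (by
      rw [hZ]
      nlinarith) (fun l hl => by
      obtain ⟨-, h1, -⟩ := hnum n le_rfl l (by omega)
      have h3 := hJJ l hl
      have h5 : (⌊(Eb + 2 * ηm) * J⌋₊ : ℝ) ≤ (Eb + 2 * ηm) * J :=
        Nat.floor_le (mul_nonneg (by linarith [W.Eb0]) hJ)
      have hCR : (1 : ℝ) ≤ C := by exact_mod_cast hC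
      have h4 : ((⌊(Eb + 2 * ηm) * J⌋₊ + ⌊b (f n) l * J⌋₊ + z (f n) jz +
          (s + 2 * Xm + (7 * C + 8) * Y + C) + C : ℕ) : ℝ) ≤ (J : ℕ) := by
        push_cast at h3 ⊢
        nlinarith
      exact_mod_cast h4)

end Pool.D2R
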