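import Pool.Agent.H23.D2.Num

/-!
# The own gradient of the row label against the balls

`Wins.own`: windows `o i ≤ o j` of one family of windows of radius `a`, all lower coordinates
fat: on the own line, during the whole window `o j`, the gradient of the row label of the window
`o i` is the gradient of the closed ball chart of the window `o j`, up to the natural size of this
ball, provided that the precision of the row label is at least the natural one; the same for the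
derivative along the line.
-/

set_option autoImplicit false

namespace Pool.D2R

open Finset Real MvPolynomial
open Pool.Agent.H49.Ent Pool.Agent.H32.Dense Pool.STK Pool.KA Pool.KSAT Pool.K2S Pool.PB Pool.S6C
open Pool.GEN Pool.CHT Pool.CHX Pool.ISO

variable {m J : ℕ}

/-- Larger weights, equal derivatives. -/
theorem nrm_wt {c : ℕ → Fin m} {ψ φ : ℕ → MvPolynomial (Option (Fin m)) ℝ} {g γ : ℕ → ℕ}
    {a A r z : ℕ} {x V : Option (Fin m) → ℝ} (ha : A ≤ a + z)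
    (h : ∀ l < r, g l ≤ γ l + z ∧ dd (ψ l) x V = dd (φ l) x V) :
    nrm c ψ g A r x V ≤ 2 ^ z * nrm c φ γ a r x V := by
  unfold nrm
  rw [mul_add, Finset.mul_sum]
  refine add_le_add ?_ (Finset.sum_le_sum fun l hl => ?_)
  · rw [← mul_assoc, ← pow_add]
    exact mul_le_mul_of_nonneg_right (pow_le_pow_right₀ (by norm_num) (by omega)) (abs_nonneg _)
  · obtain ⟨h1, h2⟩ := h l (Finset.mem_range.1 hl)
    rw [← mul_assoc, ← pow_add, h2]
    exact mul_le_mul_of_nonneg_right (pow_le_pow_right₀ (by norm_num) (by omega)) (abs_nonneg _)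

theorem nrz_wt {c : ℕ → Fin m} {ψ φ : ℕ → MvPolynomial (Option (Fin m)) ℝ} {g γ : ℕ → ℕ}
    {a A r z : ℕ} {x W V Z : Option (Fin m) → ℝ} (ha : A ≤ a + z)
    (h : ∀ l < r, g l ≤ γ l + z ∧ dd (ψ l) x Z = dd (φ l) x Z ∧ hs (ψ l) x W V = hs (φ l) x W V) :
    nrz c ψ g A r x W V Z ≤ 2 ^ z * nrz c φ γ a r x W V Z := by
  unfold nrz
  rw [mul_add, Finset.mul_sum]
  refine add_le_add ?_ (Finset.sum_le_sum fun l hl => ?_)
  · rw [← mul_assoc, ← pow_add]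
    exact mul_le_mul_of_nonneg_right (pow_le_pow_right₀ (by norm_num) (by omega)) (abs_nonneg _)
  · obtain ⟨h1, h2, h3⟩ := h l (Finset.mem_range.1 hl)
    rw [← mul_assoc, ← pow_add, h2, h3]
    exact mul_le_mul_of_nonneg_right (pow_le_pow_right₀ (by norm_num) (by omega)) (abs_nonneg _)

/-- The correction of a chart depends on the time only. -/
theorem Hno_sp {ζ : Type} (k : Fin m)
    (H : ((Fin m → ℝ) × (Fin m → ℝ)) × ζ × ℕ → MvPolynomial (Option (Fin m)) ℝ)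
    (s : ((Fin m → ℝ) × (Fin m → ℝ)) × ζ × ℕ) (x : Option (Fin m) → ℝ)
    {V : Option (Fin m) → ℝ} (hV : V none = 0) :
    dd (Hno k H s) x V = dd (H s) x V ∧
      ∀ W : Option (Fin m) → ℝ, hs (Hno k H s) x W V = hs (H s) x W V := by
  obtain ⟨Q, hQ⟩ : ∃ Q, Q = Hno k H s - H s := ⟨_, rfl⟩
  have hdep : DepC (fun _ => k) 0 Q := by
    intro b b' h1 _
    rw [hQ, map_sub, map_sub, eval_Hno, eval_Hno, h1]
    ring
  have hz : ∀ j : Fin m, pderiv (some j) Q = 0 := by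
    intro j
    refine MvPolynomial.funext fun b => ?_
    rw [pd_zero hdep (fun i hi => absurd hi (Nat.not_lt_zero i)) b, map_zero]
  constructor
  · have h1 := dd_sub (Hno k H s) (H s) x V
    rw [← hQ] at h1
    have h2 : dd Q x V = 0 := by
      unfold dd
      refine Finset.sum_eq_zero fun o _ => ?_
      cases o with
      | none => rw [hV, mul_zero]
      | some j => rw [hz j, map_zero, zero_mul]
    linarith
  · intro W
    have h1 := hs_sub (Hno k H s) (H s) x W V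
    rw [← hQ] at h1
    have h2 : hs Q x W V = 0 := by
      unfold hs
      refine Finset.sum_eq_zero fun o _ => ?_
      cases o with
      | none => rw [hV, mul_zero]
      | some j =>
        rw [hz j]
        unfold dd
        simp
    linarith

/-- **The own gradient**: the row label of the window `o i` against the ball of the window
`o j`. -/
theorem Wins.own {F : Fam m J} {c : ℕ → Fin m} {r D Dr N M : ℕ} {R : ℕ → Prop}
    {C₀ a Eb ηm : ℝ} {o ε p' η σ : ℕ → ℝ} {lv be b : ℕ → ℕ → ℝ} {κ : ℝ} {z : ℕ → ℕ → ℕ}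
    {B : F.Ω → Prop} {gc gT g₀ : ℕ → ℕ → ℕ}
    {G : ℕ → PtT F → ℕ → MvPolynomial (Option (Fin m)) ℝ}
    {H : ℕ → LnT F → ℕ → MvPolynomial (Option (Fin m)) ℝ}
    {T : ℕ → PtT F → ℕ → MvPolynomial (Option (Fin m)) ℝ}
    {TH : ℕ → LnT F → ℕ → MvPolynomial (Option (Fin m)) ℝ}
    {Gt : ℕ → PtT F → MvPolynomial (Option (Fin m)) ℝ}
    {Ht : ℕ → LnT F → MvPolynomial (Option (Fin m)) ℝ}
    (W : Wins F c r D Dr N M R C₀ a Eb ηm o ε p' η σ lv be b κ z B gc gT g₀ G H T TH Gt Ht)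
    {i j Y : ℕ} (hi : i ≤ N) (hj : j ≤ N) (hij : o i ≤ o j) (hR : ∀ l < r, R l)
    (hY : C₀ * (ηm * J) ≤ Y) (hY1 : 1 ≤ Y)
    (hpY : (Y : ℝ) ≤ p' i * J)
    (hp : (g₀ j r : ℝ) + (⌊a * J⌋₊ - ⌊o j * J⌋₊) ≤ p' i * J + Y) {ω : F.Ω} (hω : B ω) {τ : ℝ}
    (hτ : τ ∈ Set.Icc (0 : ℝ) 1) {V : Option (Fin m) → ℝ} (hV : V none = 0) :
    |dd (Ht i (slam F ⌊o i * J⌋₊ ω) - G j (ptr F J ω) r) (ptw F ⌊o j * J⌋₊ ω τ) V| ≤
        2 ^ (5 * Y) / 2 ^ g₀ j r *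
          nrm c (G j (ptr F J ω)) (g₀ j) ⌊o j * J⌋₊ r (ptw F ⌊o j * J⌋₊ ω τ) V ∧
    ∀ Z : Option (Fin m) → ℝ, Z none = 0 →
      |hs (Ht i (slam F ⌊o i * J⌋₊ ω) - G j (ptr F J ω) r) (ptw F ⌊o j * J⌋₊ ω τ) (bd F ω) V +
        dd (Ht i (slam F ⌊o i * J⌋₊ ω) - G j (ptr F J ω) r) (ptw F ⌊o j * J⌋₊ ω τ) Z| ≤
        2 ^ (5 * Y) / 2 ^ g₀ j r * (2 ^ ⌊o j * J⌋₊ *
          nrm c (G j (ptr F J ω)) (g₀ j) ⌊o j * J⌋₊ r (ptw F ⌊o j * J⌋₊ ω τ) V +
          nrz c (G j (ptr F J ω)) (g₀ j) ⌊o j * J⌋₊ r (ptw F ⌊o j * J⌋₊ ω τ) (bd F ω) V Z) := by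
  have hJ : (0 : ℝ) ≤ J := Nat.cast_nonneg J
  obtain ⟨A, hA⟩ : ∃ A : ℕ, A = ⌊a * J⌋₊ := ⟨_, rfl⟩
  obtain ⟨O, hO⟩ : ∃ O : ℕ, O = ⌊o j * J⌋₊ := ⟨_, rfl⟩
  have hOA : O ≤ A := by
    rw [hO, hA]
    exact Nat.floor_le_floor (mul_le_mul_of_nonneg_right (W.ho j hj).2 hJ)
  obtain ⟨v, hv⟩ : ∃ v : ℕ, v = A - O := ⟨_, rfl⟩
  have hvR : (v : ℝ) = A - O := by rw [hv, Nat.cast_sub hOA]
  have hE := W.evs j hj
  have hS := W.sds j hj
  have hηj := W.hη j hj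
  have hC1 := W.C1
  have e1 : C₀ * (η j * J) ≤ Y := by
    refine le_trans (mul_le_mul_of_nonneg_left ?_ (by linarith)) hY
    exact mul_le_mul_of_nonneg_right hηj.2 hJ
  have e2 : η j * J ≤ Y := by
    refine le_trans ?_ e1
    have h1 : 0 ≤ η j * (J : ℝ) := mul_nonneg hηj.1 hJ
    have h2 := mul_le_mul_of_nonneg_right hC1 h1
    linarith
  have hgc : ∀ l ≤ r, (g₀ j l : ℝ) + v ≤ gc j l + Y := by
    intro l hl
    have h1 := hS.c1 l hl
    have h2 := hS.b2 l hl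
    rw [← hA, ← hO, ← hv] at h1
    have h3 : (lv j l - η j) * (J : ℝ) = lv j l * J - η j * J := by ring
    linarith
  have hgc' : ∀ l ≤ r, gc j l ≤ g₀ j l + (Y + v) := by
    intro l hl
    have h1 := hS.c2 l hl
    have h2 := (W.g_num hj hl).2.2.1
    rw [← hA, ← hO, ← hv] at h1
    have h4 : 0 ≤ ε j * (J : ℝ) := mul_nonneg (W.hε j hj) hJ
    have h5 : ηm * (J : ℝ) ≤ Y := by
      refine le_trans ?_ hY
      have h6 : 0 ≤ ηm * (J : ℝ) := mul_nonneg (hηj.1.trans hηj.2) hJ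
      have h7 := mul_le_mul_of_nonneg_right hC1 h6
      linarith
    have h6 : (gc j l : ℝ) ≤ ((g₀ j l + (Y + v) : ℕ) : ℝ) := by
      push_cast
      have h7 : (lv j l - ε j) * (J : ℝ) = lv j l * J - ε j * J := by ring
      linarith
    exact_mod_cast h6
  obtain ⟨q, hq⟩ : ∃ q : ℕ, q = g₀ j r + v - 3 * Y := ⟨_, rfl⟩
  have hq1 : (q : ℝ) + C₀ * (η j * J) ≤ p' i * J ∧ (q : ℝ) + C₀ * (η j * J) ≤ gc j r := by
    rcases le_total (3 * Y) (g₀ j r + v) with h | h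
    · have h1 : (q : ℝ) = g₀ j r + v - 3 * Y := by
        rw [hq, Nat.cast_sub h]
        push_cast
        ring
      have h2 := hgc r le_rfl
      rw [← hA, ← hO] at hp
      have h3 : (0 : ℝ) ≤ Y := Nat.cast_nonneg Y
      constructor <;> linarith
    · have h1 : (q : ℝ) = 0 := by
        rw [hq, Nat.sub_eq_zero_of_le h, Nat.cast_zero]
      rw [h1, zero_add]
      exact ⟨e1.trans hpY, W.hgr j hj⟩
  have hR1 := W.row i hi j hj hij q hq1.1 hq1.2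
  rw [← hA, ← hO, ← hv] at hR1
  rw [← hO]
  rw [← hA, ← hO, ← hv] at hE
  have hU : (2 : ℝ) ^ ⌊C₀ * (η j * J)⌋₊ ≤ 2 ^ Y :=
    pow_le_pow_right₀ (by norm_num) (Nat.floor_le_of_le e1)
  have hUq : (2 : ℝ) ^ ⌊C₀ * (η j * J)⌋₊ / 2 ^ q * 2 ^ (Y + v) ≤ 2 ^ (5 * Y) / 2 ^ g₀ j r := by
    rw [div_mul_eq_mul_div, div_le_div_iff₀ (by positivity) (by positivity)]
    calc (2 : ℝ) ^ ⌊C₀ * (η j * J)⌋₊ * 2 ^ (Y + v) * 2 ^ g₀ j r ≤
        2 ^ Y * 2 ^ (Y + v) * 2 ^ g₀ j r := by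
          refine mul_le_mul_of_nonneg_right (mul_le_mul_of_nonneg_right hU ?_) ?_ <;> positivity
      _ = 2 ^ (Y + (Y + v) + g₀ j r) := by rw [← pow_add, ← pow_add]
      _ ≤ 2 ^ (5 * Y + q) := pow_le_pow_right₀ (by norm_num) (by omega)
      _ = _ := pow_add _ _ _
  -- the closed chart
  have hcl : ∀ l ≤ r, G j (ptr F J ω) l = H j (slam F O ω) l := fun l hl =>
    hE.cls ω hω l (Nat.lt_succ_of_le hl)
  have hn : nrm c (TH j (slam F O ω)) (gT j) (O + v) r (ptw F O ω τ) V ≤ 2 ^ (Y + v) *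
      nrm c (G j (ptr F J ω)) (g₀ j) O r (ptw F O ω τ) V := by
    refine nrm_wt (by omega) fun l hl => ?_
    obtain ⟨h1, _, h3⟩ := hE.rgh l hl (hR l hl)
    refine ⟨h1.le.trans (hgc' l hl.le), ?_⟩
    rw [h3, (Hno_sp _ _ _ _ hV).1, hcl l hl.le]
  have hwin := hR1.win ω hω τ hτ V
  rw [dd_sub, (Hno_sp _ _ _ _ hV).1, ← hcl r le_rfl, ← dd_sub] at hwin
  have hnn := nrm_nonneg c (G j (ptr F J ω)) (g₀ j) O r (ptw F O ω τ) V
  refine ⟨hwin.trans ?_, fun Z hZ => ?_⟩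
  · calc _ ≤ 2 ^ ⌊C₀ * (η j * J)⌋₊ / 2 ^ q * (2 ^ (Y + v) *
        nrm c (G j (ptr F J ω)) (g₀ j) O r (ptw F O ω τ) V) :=
          mul_le_mul_of_nonneg_left hn (by positivity)
      _ = 2 ^ ⌊C₀ * (η j * J)⌋₊ / 2 ^ q * 2 ^ (Y + v) *
        nrm c (G j (ptr F J ω)) (g₀ j) O r (ptw F O ω τ) V := by ring
      _ ≤ _ := mul_le_mul_of_nonneg_right hUq hnn
  · have hz : nrz c (TH j (slam F O ω)) (gT j) (O + v) r (ptw F O ω τ) (bd F ω) V Z ≤
        2 ^ (Y + v) * nrz c (G j (ptr F J ω)) (g₀ j) O r (ptw F O ω τ) (bd F ω) V Z := by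
      refine nrz_wt (by omega) fun l hl => ?_
      obtain ⟨h1, _, h3⟩ := hE.rgh l hl (hR l hl)
      refine ⟨h1.le.trans (hgc' l hl.le), ?_, ?_⟩
      · rw [h3, (Hno_sp _ _ _ _ hZ).1, hcl l hl.le]
      · rw [h3, (Hno_sp _ _ _ _ hV).2, hcl l hl.le]
    have hh := hR1.hsw ω hω τ hτ V Z
    rw [hs_sub, dd_sub, (Hno_sp _ _ _ _ hV).2, (Hno_sp _ _ _ _ hZ).1, ← hcl r le_rfl, ← hs_sub,
      ← dd_sub] at hh
    have hzn := nrz_nonneg c (G j (ptr F J ω)) (g₀ j) O r (ptw F O ω τ) (bd F ω) V Z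
    refine hh.trans ?_
    calc _ ≤ 2 ^ ⌊C₀ * (η j * J)⌋₊ / 2 ^ q * (2 ^ O * (2 ^ (Y + v) *
        nrm c (G j (ptr F J ω)) (g₀ j) O r (ptw F O ω τ) V) + 2 ^ (Y + v) *
        nrz c (G j (ptr F J ω)) (g₀ j) O r (ptw F O ω τ) (bd F ω) V Z) :=
          mul_le_mul_of_nonneg_left (add_le_add (mul_le_mul_of_nonneg_left hn (by positivity)) hz)
            (by positivity)
      _ = 2 ^ ⌊C₀ * (η j * J)⌋₊ / 2 ^ q * 2 ^ (Y + v) * (2 ^ O *
        nrm c (G j (ptr F J ω)) (g₀ j) O r (ptw F O ω τ) V +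
        nrz c (G j (ptr F J ω)) (g₀ j) O r (ptw F O ω τ) (bd F ω) V Z) := by ring
      _ ≤ _ := mul_le_mul_of_nonneg_right hUq (by positivity)

end Pool.D2R
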