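import Pool.Agent.H23.D2.Nat
import Pool.Agent.H2.GEN.AttF

/-!
# The paths through one exact point stay in the natural box

`hess_id`: the second derivative of a polynomial, in the natural coframe. `path_nat`: two lines
`ω`, `ν` through the same exact point; the line `ν`, moved to the point of `ω`, stays in the natural
box of the ball; so its velocity is on the ball chart, up to the natural error, and the second
derivative of the ball chart vanishes on it, up to the natural error.
-/

set_option autoImplicit false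

namespace Pool.D2R

open Finset Real MvPolynomial
open Pool.Agent.H49.Ent Pool.Agent.H32.Dense Pool.STK Pool.KA Pool.KSAT Pool.K2S Pool.PB Pool.S6C
open Pool.GEN Pool.CHT
open Pool.PB.Trl (rt rt_mem t_rt)

variable {m J : ℕ}

/-- **The second derivative in the natural coframe.** -/
theorem hess_id {c : ℕ → Fin m} {ψ : ℕ → MvPolynomial (Option (Fin m)) ℝ} {r : ℕ}
    {Δ n0 : MvPolynomial (Option (Fin m)) ℝ} {nj : ℕ → MvPolynomial (Option (Fin m)) ℝ}
    (hid : ∀ b W : Option (Fin m) → ℝ, dd Δ b W = eval b n0 * W none +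
      ∑ j ∈ range r, eval b (nj j) * (W (some (c j)) - dd (ψ j) b W))
    (x W V : Option (Fin m) → ℝ) :
    hs Δ x W V = dd n0 x W * V none + ∑ j ∈ range r,
      (dd (nj j) x W * (V (some (c j)) - dd (ψ j) x V) - eval x (nj j) * hs (ψ j) x W V) := by
  classical
  obtain ⟨g, hg⟩ : ∃ g : Option (Fin m) → Polynomial ℝ, g = fun o =>
      Polynomial.C (x o) + Polynomial.C (W o) * Polynomial.X := ⟨_, rfl⟩
  have hx : ∀ o, (g o).eval 0 = x o := fun o => by rw [hg]; simp
  have hW : ∀ o, (Polynomial.derivative (g o)).eval 0 = W o := fun o => by rw [hg]; simp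
  have hZ : ∀ o, (Polynomial.derivative (Polynomial.derivative (g o))).eval 0 =
      (0 : Option (Fin m) → ℝ) o := fun o => by rw [hg]; simp
  have hd := fun R => (der_curve g hx hW hZ R).1
  have hxe : (fun o => (g o).eval 0) = x := funext hx
  have he : ∀ R, (MvPolynomial.aeval g R).eval 0 = eval x R := by
    intro R
    rw [Pool.KBX.eval_aeval_poly, hxe]
  have key : ∑ o, MvPolynomial.aeval g (pderiv o Δ) * Polynomial.C (V o) =
      MvPolynomial.aeval g n0 * Polynomial.C (V none) + ∑ j ∈ range r,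
        MvPolynomial.aeval g (nj j) * (Polynomial.C (V (some (c j))) -
          ∑ o, MvPolynomial.aeval g (pderiv o (ψ j)) * Polynomial.C (V o)) := by
    refine Polynomial.funext fun s => ?_
    simp only [Polynomial.eval_finsetSum, Polynomial.eval_add, Polynomial.eval_mul,
      Polynomial.eval_sub, Polynomial.eval_C, Pool.KBX.eval_aeval_poly]
    exact hid (fun o => (g o).eval s) V
  have h1 := congrArg (fun p => (Polynomial.derivative p).eval 0) key
  simp only [Polynomial.derivative_sum, Polynomial.derivative_add, Polynomial.derivative_mul,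
    Polynomial.derivative_C, Polynomial.derivative_sub, Polynomial.eval_finsetSum,
    Polynomial.eval_add, Polynomial.eval_mul, Polynomial.eval_sub, Polynomial.eval_C,
    Polynomial.eval_neg, mul_zero, add_zero, zero_sub, hd, he] at h1
  show ∑ o, dd (pderiv o Δ) x W * V o = _
  rw [h1]
  congr 1
  refine Finset.sum_congr rfl fun j _ => ?_
  show _ = dd (nj j) x W * (V (some (c j)) - ∑ o, eval x (pderiv o (ψ j)) * V o) -
    eval x (nj j) * ∑ o, dd (pderiv o (ψ j)) x W * V o
  ring

/-- The mean value theorem on a segment. -/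
theorem mv_seg (P : MvPolynomial (Option (Fin m)) ℝ) (x δ : Option (Fin m) → ℝ) {M : ℝ}
    (hM : ∀ u ∈ Set.Icc (0 : ℝ) 1, |dd P (fun o => x o + u * δ o) δ| ≤ M) :
    ∀ u ∈ Set.Icc (0 : ℝ) 1, |eval (fun o => x o + u * δ o) P - eval x P| ≤ M := by
  classical
  obtain ⟨g, hg⟩ : ∃ g : Option (Fin m) → Polynomial ℝ, g = fun o =>
      Polynomial.C (x o) + Polynomial.C (δ o) * Polynomial.X := ⟨_, rfl⟩
  have hx : ∀ s o, (g o).eval s = x o + s * δ o := fun s o => by rw [hg]; simp; ring
  have hW : ∀ s o, (Polynomial.derivative (g o)).eval s = δ o := fun s o => by rw [hg]; simp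
  have hZ : ∀ s o, (Polynomial.derivative (Polynomial.derivative (g o))).eval s =
      (0 : Option (Fin m) → ℝ) o := fun s o => by rw [hg]; simp
  have hd : ∀ s, (Polynomial.derivative (MvPolynomial.aeval g P)).eval s =
      dd P (fun o => x o + s * δ o) δ := fun s => (der_curve g (hx s) (hW s) (hZ s) P).1
  intro u hu
  have hM0 : 0 ≤ M := (abs_nonneg _).trans (hM 0 ⟨le_rfl, zero_le_one⟩)
  rcases hu.1.eq_or_lt with h0 | h0
  · subst h0
    have : (fun o => x o + 0 * δ o) = x := by
      funext o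
      ring
    rw [this, sub_self, abs_zero]
    exact hM0
  · obtain ⟨c, hc, hcd⟩ := exists_deriv_eq_slope (fun t => (MvPolynomial.aeval g P).eval t)
      h0 (Polynomial.continuous _).continuousOn (Polynomial.differentiable _).differentiableOn
    rw [Polynomial.deriv, hd, Pool.KBX.eval_aeval_poly, Pool.KBX.eval_aeval_poly, sub_zero] at hcd
    have e1 : (fun o => (g o).eval u) = fun o => x o + u * δ o := funext (hx u)
    have e2 : (fun o => (g o).eval 0) = x := by
      funext o
      rw [hx]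
      ring
    rw [e1, e2, eq_div_iff h0.ne'] at hcd
    rw [← hcd, abs_mul, abs_of_pos h0]
    have h2 := hM c ⟨hc.1.le, hc.2.le.trans hu.2⟩
    calc _ ≤ M * 1 := mul_le_mul h2 hu.2 h0.le hM0
      _ = M := mul_one M

/-- Points with the same cell of resolution `J`. -/
theorem bt_near {F : Fam m J} {ω ν : F.Ω} (h : ptr F J ω = ptr F J ν) :
    F.T ω = F.T ν ∧ bt F ω none = bt F ν none ∧ ∀ j, |F.x ω j - F.x ν j| ≤ 1 / 2 ^ J := by
  have hT : F.T ω = F.T ν := (Prod.ext_iff.1 (Prod.ext_iff.1 h).2).1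
  have ht : F.t ω = F.t ν := by
    unfold Fam.t
    rw [hT]
  have hX : F.X J ω = F.X J ν := (Prod.ext_iff.1 h).1
  have pJ : (0 : ℝ) < 2 ^ J := by positivity
  refine ⟨hT, ht, fun j => ?_⟩
  have h3 := Plk.abs_sub_lt_of_floor (congrFun hX j : ⌊(2 : ℝ) ^ J * F.x ω j⌋ =
    ⌊(2 : ℝ) ^ J * F.x ν j⌋)
  rw [← mul_sub, abs_mul, abs_of_pos pJ] at h3
  rw [le_div_iff₀ pJ]
  linarith

/-- **The paths through one exact point.** -/
theorem path_box (m D r : ℕ) : ∃ C : ℕ, 1 ≤ C ∧ ∀ {J : ℕ} {F : Fam m J} {c : ℕ → Fin m}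
    {a e k : ℕ} {g₀ : ℕ → ℕ} {A : F.Ω → Prop}
    {G₀ : PtT F → ℕ → MvPolynomial (Option (Fin m)) ℝ}
    {H₀ : LnT F → ℕ → MvPolynomial (Option (Fin m)) ℝ}, Set.InjOn c (Set.Iio (r + 1)) → a ≤ J →
    ChOK F c (r + 1) (fun _ => D) a a e g₀ A G₀ H₀ →
    (∀ l ≤ r, e + g₀ l + C * (k + 1) ≤ J) → ∀ ω ν, A ω → A ν → ptr F J ω = ptr F J ν →
    (∀ l ≤ r, ∀ τ ∈ Set.Icc (0 : ℝ) 1,
      |(dv a (fun s _ => H₀ s l) (c l) (slam F a ν)).eval τ| ≤ 2 ^ k / 2 ^ g₀ l) →
    ∀ τ ∈ Set.Icc (0 : ℝ) 1, ∀ u ∈ Set.Icc (0 : ℝ) 1, ∀ l ≤ r,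
      |(lc a (slam F a ν) (some (c l))).eval τ + u * (F.x ω (c l) - F.x ν (c l)) -
        eval (fun o => (lc a (slam F a ν) o).eval τ + u * (bt F ω o - bt F ν o))
          (G₀ (ptr F J ω) l)| ≤ 2 ^ (C * (k + 1)) / 2 ^ g₀ l := by
  classical
  obtain ⟨c₀, D₁, hD₁, hdil⟩ := nbx_dil (r + 2) (fun _ => D)
  obtain ⟨C₁, hC₁⟩ : ∃ C₁ : ℕ, C₁ = (c₀ + 2) * (1 + D₁) ^ (r + 2) := ⟨_, rfl⟩
  obtain ⟨C, hC⟩ : ∃ C : ℕ, C = c₀ + (C₁ + 2) * (D₁ + 1) + m + 4 := ⟨_, rfl⟩
  refine ⟨C, by omega, ?_⟩
  intro J F c a e k g₀ A G₀ H₀ hc haJ hch hJ ω ν hω hν hpt hdv τ hτ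
  obtain ⟨hT, htn, hx⟩ := bt_near hpt
  obtain ⟨b, hb⟩ : ∃ b : Option (Fin m) → ℝ, b = fun o => (lc a (slam F a ν) o).eval τ :=
    ⟨_, rfl⟩
  have hbn : |b none - F.t ν| ≤ 1 / 2 ^ a := by
    have h1 := t_rt F haJ ν
    have h2 : b none = (((slam F a ν).2.2 : ℝ) + τ) / 2 ^ a := by
      rw [hb]
      simp only [lc, Polynomial.eval_add, Polynomial.eval_mul, Polynomial.eval_C,
        Polynomial.eval_X]
      ring
    rw [h2, h1, ← sub_div, abs_div, abs_of_pos (show (0 : ℝ) < 2 ^ a by positivity)]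
    refine div_le_div_of_nonneg_right ?_ (by positivity)
    have h3 := rt_mem F a ν
    rw [abs_le]
    constructor <;> linarith [hτ.1, hτ.2, h3.1, h3.2]
  have hlexm : ∀ j ≤ r + 2, lex (k + 1) c₀ D₁ j ≤ C₁ * (k + 1) := by
    intro j hj
    refine (lex_le (k + 1) c₀ D₁ j).trans ?_
    have h1 : (1 + D₁) ^ j ≤ (1 + D₁) ^ (r + 2) := Nat.pow_le_pow_right (by omega) hj
    calc (k + 1 + c₀) * (1 + D₁) ^ j ≤ ((c₀ + 2) * (k + 1)) * (1 + D₁) ^ (r + 2) := by
          refine Nat.mul_le_mul ?_ h1
          nlinarith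
      _ = C₁ * (k + 1) := by rw [hC₁]; ring
  have hlexmono : ∀ i j, i ≤ j → lex (k + 1) c₀ D₁ i ≤ lex (k + 1) c₀ D₁ j := by
    intro i j hij
    induction j, hij using Nat.le_induction with
    | base => exact le_rfl
    | succ n hn ih => exact ih.trans (lex_mono hD₁)
  have hGdeg := hch.degG (ptr F J ν)
  have hGdep := hch.depG (ptr F J ν)
  -- the path of `ν` itself
  have hA : ∀ l ≤ r, |b (some (c l)) - eval b (G₀ (ptr F J ν) l)| ≤
      2 ^ lex (k + 1) c₀ D₁ (l + 1) / 2 ^ g₀ l := by
    intro l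
    induction l using Nat.strong_induction_on with
    | _ l ih =>
      intro hl
      have h1 : |b (some (c l)) - eval b (H₀ (slam F a ν) l)| ≤ 2 ^ k / 2 ^ g₀ l := by
        have h2 := hdv l hl τ hτ
        unfold dv at h2
        rw [Polynomial.eval_sub, Pool.KBX.eval_aeval_poly] at h2
        rw [hb]
        exact h2
      have h3 := hdil (c := c) (i := l) (G := G₀ (ptr F J ν))
        (Q := G₀ (ptr F J ν) l - H₀ (slam F a ν) l) (g := g₀) (a := a) (t := F.t ν)
        (M := 1 / 2 ^ g₀ l) (lex (k + 1) c₀ D₁ l) (by omega)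
        (hc.mono fun x hx => by rw [Set.mem_Iio] at hx ⊢; omega) hGdeg hGdep
        (fun b b' h1 h2 => by
          rw [map_sub, map_sub, hGdep l b b' h1 h2, hch.depH _ l b b' h1 h2])
        ((totalDegree_sub _ _).trans (max_le (hGdeg l) (hch.degH _ l))) (by positivity)
        (fun b' hb' => by
          rw [map_sub]
          exact hch.agr ν hν l (by omega) b' hb') b hbn
        (fun j hj => (ih j hj (by omega)).trans (div_le_div_of_nonneg_right
          (pow_le_pow_right₀ (by norm_num) (hlexmono _ _ (by omega))) (by positivity)))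
      rw [map_sub] at h3
      have e1 : b (some (c l)) - eval b (G₀ (ptr F J ν) l) =
          (b (some (c l)) - eval b (H₀ (slam F a ν) l)) -
          (eval b (G₀ (ptr F J ν) l) - eval b (H₀ (slam F a ν) l)) := by ring
      rw [e1]
      refine (abs_sub _ _).trans ((add_le_add h1 h3).trans ?_)
      rw [mul_one_div, ← add_div]
      refine div_le_div_of_nonneg_right ?_ (by positivity)
      have h4 : lex (k + 1) c₀ D₁ (l + 1) = k + 1 + c₀ + lex (k + 1) c₀ D₁ l * D₁ := rfl
      rw [h4]
      have h5 : (2 : ℝ) ^ (k + 1 + c₀ + lex (k + 1) c₀ D₁ l * D₁) =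
          2 ^ k * 2 ^ (c₀ + lex (k + 1) c₀ D₁ l * D₁) * 2 := by
        rw [← pow_add, ← pow_succ]
        congr 1
        omega
      rw [h5]
      have h6 : (1 : ℝ) ≤ 2 ^ k := one_le_pow₀ (by norm_num)
      have h7 : (1 : ℝ) ≤ 2 ^ (c₀ + lex (k + 1) c₀ D₁ l * D₁) := one_le_pow₀ (by norm_num)
      nlinarith
  -- the moved path
  obtain ⟨δ, hδ⟩ : ∃ δ : Option (Fin m) → ℝ, δ = fun o => bt F ω o - bt F ν o := ⟨_, rfl⟩
  have hδ0 : δ none = 0 := by
    rw [hδ]
    show bt F ω none - bt F ν none = 0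
    rw [htn, sub_self]
  have hδj : ∀ j, |δ (some j)| ≤ 1 / 2 ^ J := by
    intro j
    rw [hδ]
    exact hx j
  have hB : ∀ l ≤ r, ∀ u ∈ Set.Icc (0 : ℝ) 1, |b (some (c l)) + u * δ (some (c l)) -
      eval (fun o => b o + u * δ o) (G₀ (ptr F J ν) l)| ≤
        2 ^ (C₁ * (k + 1) + 2) / 2 ^ g₀ l := by
    intro l
    induction l using Nat.strong_induction_on with
    | _ l ih =>
      intro hl u hu
      have h1 := hA l hl
      have h2 : |u * δ (some (c l))| ≤ 1 / 2 ^ g₀ l := by
        rw [abs_mul, abs_of_nonneg hu.1]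
        calc u * |δ (some (c l))| ≤ 1 * (1 / 2 ^ J) :=
              mul_le_mul hu.2 (hδj _) (abs_nonneg _) (by norm_num)
          _ ≤ 1 / 2 ^ g₀ l := by
              rw [one_mul]
              refine inv_mono ?_
              have := hJ l hl
              omega
      -- the derivatives of the label along the segment
      have h3 : ∀ u ∈ Set.Icc (0 : ℝ) 1,
          |dd (G₀ (ptr F J ν) l) (fun o => b o + u * δ o) δ| ≤ 1 / 2 ^ g₀ l := by
        intro u hu
        unfold dd
        refine (Finset.abs_sum_le_sum_abs _ _).trans ?_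
        have h4 : ∀ o ∈ (Finset.univ : Finset (Option (Fin m))),
            |eval (fun o => b o + u * δ o) (pderiv o (G₀ (ptr F J ν) l)) * δ o| ≤
              1 / 2 ^ (g₀ l + (m + 1)) := by
          intro o _
          have hpos : (0 : ℝ) ≤ 1 / 2 ^ (g₀ l + (m + 1)) := by positivity
          cases o with
          | none =>
            rw [hδ0, mul_zero, abs_zero]
            exact hpos
          | some i =>
            by_cases hi : ∃ j < l, c j = i
            · obtain ⟨j, hj, rfl⟩ := hi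
              have h5 := hdil (c := c) (i := l) (G := G₀ (ptr F J ν))
                (Q := pderiv (some (c j)) (G₀ (ptr F J ν) l)) (g := g₀) (a := a) (t := F.t ν)
                (M := 2 ^ (e + nlp g₀ j l)) (C₁ * (k + 1) + 2) (by omega)
                (hc.mono fun x hx => by rw [Set.mem_Iio] at hx ⊢; omega) hGdeg hGdep
                (DepC.pderiv (hGdep l) j) (totalDegree_pdσ (hGdeg l) _) (by positivity)
                (fun b' hb' => hch.lip ν hν l (by omega) b' hb' j hj)
                (fun o => b o + u * δ o) (by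
                  show |b none + u * δ none - F.t ν| ≤ _
                  rw [hδ0, mul_zero, add_zero]
                  exact hbn) (fun i hi => ih i hi (by omega) u hu)
              rw [abs_mul]
              refine (mul_le_mul h5 (hδj _) (abs_nonneg _) (by positivity)).trans ?_
              rw [← pow_add, mul_one_div, div_le_div_iff₀ (by positivity) (by positivity),
                one_mul, ← pow_add]
              refine pow_le_pow_right₀ (by norm_num) ?_
              obtain ⟨i, hi1, hi2⟩ := Finset.exists_mem_eq_sup (Finset.Icc j l)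
                ⟨j, Finset.mem_Icc.2 ⟨le_rfl, hj.le⟩⟩ g₀
              have hi3 := (Finset.mem_Icc.1 hi1).2
              have h6 := hJ i (by omega)
              have h6' := hJ l hl
              have h7 : nlp g₀ j l = (Finset.Icc j l).sup g₀ - g₀ l := rfl
              have h8 : g₀ l ≤ (Finset.Icc j l).sup g₀ :=
                Finset.le_sup (f := g₀) (Finset.mem_Icc.2 ⟨hj.le, le_rfl⟩)
              rw [hi2] at h7 h8
              have h9 : c₀ + (C₁ * (k + 1) + 2) * D₁ + (m + 1) ≤ C * (k + 1) := by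
                rw [hC]
                have e1 : (c₀ + (C₁ + 2) * (D₁ + 1) + m + 4) * (k + 1) =
                    c₀ + (C₁ * (k + 1) + 2) * D₁ + (m + 1) + (c₀ * k + C₁ * (k + 1) +
                      2 * (k + 1) + 2 * D₁ * k + m * k + 4 * k + 3) := by ring
                rw [e1]
                exact Nat.le_add_right _ _
              omega
            · rw [pd_zero (hGdep l) (fun j hj h' => hi ⟨j, hj, h'⟩), zero_mul, abs_zero]
              exact hpos
        refine (Finset.sum_le_sum h4).trans ?_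
        rw [Finset.sum_const, Finset.card_univ, Fintype.card_option, Fintype.card_fin,
          nsmul_eq_mul, mul_one_div, pow_add, div_le_div_iff₀ (by positivity) (by positivity),
          one_mul]
        have h5 : (((m + 1 : ℕ)) : ℝ) ≤ 2 ^ (m + 1) := by
          have := Nat.lt_two_pow_self (n := m + 1)
          exact_mod_cast this.le
        calc ((m + 1 : ℕ) : ℝ) * 2 ^ g₀ l ≤ 2 ^ (m + 1) * 2 ^ g₀ l :=
              mul_le_mul_of_nonneg_right h5 (by positivity)
          _ = _ := mul_comm _ _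
      have h4 := mv_seg (G₀ (ptr F J ν) l) b δ h3 u hu
      have e1 : b (some (c l)) + u * δ (some (c l)) -
          eval (fun o => b o + u * δ o) (G₀ (ptr F J ν) l) =
          (b (some (c l)) - eval b (G₀ (ptr F J ν) l)) + u * δ (some (c l)) -
          (eval (fun o => b o + u * δ o) (G₀ (ptr F J ν) l) - eval b (G₀ (ptr F J ν) l)) := by
        ring
      rw [e1]
      refine (abs_sub _ _).trans ((add_le_add ((abs_add_le _ _).trans (add_le_add h1 h2))
        h4).trans ?_)
      rw [← add_div, ← add_div]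
      refine div_le_div_of_nonneg_right ?_ (by positivity)
      have h5 : (2 : ℝ) ^ lex (k + 1) c₀ D₁ (l + 1) ≤ 2 ^ (C₁ * (k + 1)) :=
        pow_le_pow_right₀ (by norm_num) (hlexm _ (by omega))
      have h6 : (1 : ℝ) ≤ 2 ^ (C₁ * (k + 1)) := one_le_pow₀ (by norm_num)
      rw [pow_add]
      linarith
  intro u hu l hl
  have h1 := hB l hl u hu
  rw [hb, hδ] at h1
  rw [hpt]
  refine le_trans h1 (div_le_div_of_nonneg_right (pow_le_pow_right₀ (by norm_num) ?_)
    (by positivity))
  rw [hC]
  have e1 : (c₀ + (C₁ + 2) * (D₁ + 1) + m + 4) * (k + 1) =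
      C₁ * (k + 1) + 2 + (c₀ * (k + 1) + C₁ * D₁ * (k + 1) + 2 * (D₁ + 1) * (k + 1) +
        m * (k + 1) + 4 * k + 2) := by ring
  rw [e1]
  exact Nat.le_add_right _ _

end Pool.D2R
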