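import Pool.Agent.H23.D2.Two

/-!
# Natural boxes of a smaller radius; the natural norms

`nrm`, `nrz`: the natural norms of a vector and of a second derivative. `box_all`: the first and
second derivatives of a polynomial which is bounded on a natural box. `path_rad`, `path_vel`: as
`path_box`, `path_nat`, for a chart of the windows `2 ^ (-a)` which is two-sided on the boxes of
radius `2 ^ (-(a + v))`.
-/

set_option autoImplicit false

namespace Pool.D2R

open Finset Real MvPolynomial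
open Pool.Agent.H49.Ent Pool.Agent.H32.Dense Pool.STK Pool.KA Pool.KSAT Pool.K2S Pool.PB Pool.S6C
open Pool.GEN Pool.CHT
open Pool.FLF (Fam.sub)
open Pool.PB.Trl (rt rt_mem t_rt)

/-! ### The natural norms -/

/-- **The natural norm** of a vector at the point `x`, for the charts `ψ`. -/
noncomputable def nrm {m : ℕ} (c : ℕ → Fin m) (ψ : ℕ → MvPolynomial (Option (Fin m)) ℝ) (g : ℕ → ℕ)
    (a r : ℕ) (x V : Option (Fin m) → ℝ) : ℝ :=
  2 ^ a * |V none| + ∑ l ∈ range r, 2 ^ g l * |V (some (c l)) - dd (ψ l) x V|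

/-- **The natural norm of the correction** `Z` of the second derivative in the directions `W`,
`V`. -/
noncomputable def nrz {m : ℕ} (c : ℕ → Fin m) (ψ : ℕ → MvPolynomial (Option (Fin m)) ℝ) (g : ℕ → ℕ)
    (a r : ℕ) (x W V Z : Option (Fin m) → ℝ) : ℝ :=
  2 ^ a * |Z none| + ∑ l ∈ range r, 2 ^ g l * |Z (some (c l)) - dd (ψ l) x Z - hs (ψ l) x W V|

theorem nrm_nonneg {m : ℕ} (c : ℕ → Fin m) (ψ : ℕ → MvPolynomial (Option (Fin m)) ℝ) (g : ℕ → ℕ)
    (a r : ℕ) (x V : Option (Fin m) → ℝ) : 0 ≤ nrm c ψ g a r x V :=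
  add_nonneg (by positivity) (Finset.sum_nonneg fun _ _ => by positivity)

theorem nrz_nonneg {m : ℕ} (c : ℕ → Fin m) (ψ : ℕ → MvPolynomial (Option (Fin m)) ℝ) (g : ℕ → ℕ)
    (a r : ℕ) (x W V Z : Option (Fin m) → ℝ) : 0 ≤ nrz c ψ g a r x W V Z :=
  add_nonneg (by positivity) (Finset.sum_nonneg fun _ _ => by positivity)

theorem nrm_none {m : ℕ} (c : ℕ → Fin m) (ψ : ℕ → MvPolynomial (Option (Fin m)) ℝ) (g : ℕ → ℕ)
    (a r : ℕ) (x V : Option (Fin m) → ℝ) : |V none| ≤ nrm c ψ g a r x V / 2 ^ a := by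
  rw [le_div_iff₀ (by positivity), mul_comm]
  exact le_add_of_nonneg_right (Finset.sum_nonneg fun _ _ => by positivity)

theorem nrm_comp {m : ℕ} (c : ℕ → Fin m) (ψ : ℕ → MvPolynomial (Option (Fin m)) ℝ) (g : ℕ → ℕ)
    (a r : ℕ) (x V : Option (Fin m) → ℝ) {l : ℕ} (hl : l < r) :
    |V (some (c l)) - dd (ψ l) x V| ≤ nrm c ψ g a r x V / 2 ^ g l := by
  rw [le_div_iff₀ (by positivity), mul_comm]
  refine (Finset.single_le_sum (f := fun l => 2 ^ g l * |V (some (c l)) - dd (ψ l) x V|)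
    (fun _ _ => by positivity) (Finset.mem_range.2 hl)).trans ?_
  exact le_add_of_nonneg_left (by positivity)

/-- A vector with small components. -/
theorem nrm_le {m : ℕ} {c : ℕ → Fin m} {ψ : ℕ → MvPolynomial (Option (Fin m)) ℝ} {g : ℕ → ℕ}
    {a r : ℕ} {x V : Option (Fin m) → ℝ} {L : ℝ} (h0 : |V none| ≤ L / 2 ^ a)
    (h1 : ∀ l < r, |V (some (c l)) - dd (ψ l) x V| ≤ L / 2 ^ g l) :
    nrm c ψ g a r x V ≤ (r + 1) * L := by
  unfold nrm
  have h2 : 2 ^ a * |V none| ≤ L := by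
    rw [le_div_iff₀ (by positivity)] at h0
    linarith
  have h3 : ∑ l ∈ range r, 2 ^ g l * |V (some (c l)) - dd (ψ l) x V| ≤ r * L := by
    calc ∑ l ∈ range r, 2 ^ g l * |V (some (c l)) - dd (ψ l) x V| ≤ ∑ _l ∈ range r, L := by
          refine Finset.sum_le_sum fun l hl => ?_
          have h4 := h1 l (Finset.mem_range.1 hl)
          rw [le_div_iff₀ (by positivity)] at h4
          linarith
      _ = r * L := by rw [Finset.sum_const, Finset.card_range, nsmul_eq_mul]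
  linarith

/-- **First and second derivatives of a polynomial which is bounded on a natural box.** -/
theorem box_all (r K D : ℕ) : ∃ C : ℝ, 1 ≤ C ∧ ∀ {m : ℕ} {c : ℕ → Fin m}
    {ψ : ℕ → MvPolynomial (Option (Fin m)) ℝ} {Q : MvPolynomial (Option (Fin m)) ℝ}
    {g : ℕ → ℕ} {a : ℕ} {M : ℝ} {x : Option (Fin m) → ℝ}, Set.InjOn c (Set.Iio r) →
    (∀ l, (ψ l).totalDegree ≤ K) → (∀ l, DepC c l (ψ l)) → DepC c r Q → Q.totalDegree ≤ D →
    0 ≤ M → (∀ b, NBx c ψ g a (x none) r b → |eval b Q| ≤ M) →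
    (∀ l < r, |x (some (c l)) - eval x (ψ l)| ≤ 1 / 2 ^ g l) →
    (∀ V, |dd Q x V| ≤ C * M * nrm c ψ g a r x V) ∧
    ∀ V V' Z, |hs Q x V V' + dd Q x Z| ≤
      C * M * (nrm c ψ g a r x V * nrm c ψ g a r x V' + nrz c ψ g a r x V V' Z) := by
  obtain ⟨C, hC, hbt⟩ := box_two r K D
  refine ⟨C, hC, ?_⟩
  intro m c ψ Q g a M x hc hψ hdep hQ hQd hM hbox hx
  -- a limit argument
  have hlim : ∀ X A B E : ℝ, 0 ≤ A → 0 ≤ B → (∀ ε : ℝ, 0 < ε → X ≤ E * ((A + ε) * (B + ε))) →
      0 ≤ E → X ≤ E * (A * B) := by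
    intro X A B E hA hB h hE
    by_contra hcon
    rw [not_le] at hcon
    obtain ⟨d, hd⟩ : ∃ d, d = X - E * (A * B) := ⟨_, rfl⟩
    have hd0 : 0 < d := by rw [hd]; linarith
    obtain ⟨ε, hε⟩ : ∃ ε, ε = min 1 (d / (2 * ((E + 1) * (A + B + 1)))) := ⟨_, rfl⟩
    have hden : 0 < 2 * ((E + 1) * (A + B + 1)) := by positivity
    have hε0 : 0 < ε := by rw [hε]; exact lt_min one_pos (div_pos hd0 hden)
    have hε1 : ε ≤ 1 := by rw [hε]; exact min_le_left _ _
    have hε2 : ε * (2 * ((E + 1) * (A + B + 1))) ≤ d := by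
      rw [← le_div_iff₀ hden, hε]
      exact min_le_right _ _
    have h1 := h ε hε0
    have h2 : (A + ε) * (B + ε) ≤ A * B + ε * (A + B + 1) := by nlinarith
    have h3 := mul_le_mul_of_nonneg_left h2 hE
    have h4 : E * (ε * (A + B + 1)) ≤ (E + 1) * (ε * (A + B + 1)) := by
      refine mul_le_mul_of_nonneg_right (by linarith) (by positivity)
    nlinarith
  have hsc : ∀ V : Option (Fin m) → ℝ, ∀ ε : ℝ, 0 < ε →
      |((nrm c ψ g a r x V + ε)⁻¹ • V) none| ≤ 1 / 2 ^ a ∧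
      ∀ l < r, |((nrm c ψ g a r x V + ε)⁻¹ • V) (some (c l)) -
        dd (ψ l) x ((nrm c ψ g a r x V + ε)⁻¹ • V)| ≤ 1 / 2 ^ g l := by
    intro V ε hε
    have h0 := nrm_nonneg c ψ g a r x V
    have h1 : 0 < nrm c ψ g a r x V + ε := by linarith
    have h2 : (0 : ℝ) < (nrm c ψ g a r x V + ε)⁻¹ := inv_pos.2 h1
    constructor
    · rw [Pi.smul_apply, smul_eq_mul, abs_mul, abs_of_pos h2, inv_mul_le_iff₀ h1,
        mul_one_div]
      refine (nrm_none c ψ g a r x V).trans (div_le_div_of_nonneg_right (by linarith)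
        (by positivity))
    · intro l hl
      rw [dd_smul, Pi.smul_apply, smul_eq_mul, ← mul_sub, abs_mul, abs_of_pos h2,
        inv_mul_le_iff₀ h1, mul_one_div]
      refine (nrm_comp c ψ g a r x V hl).trans (div_le_div_of_nonneg_right (by linarith)
        (by positivity))
  have hfst : ∀ V, |dd Q x V| ≤ C * M * nrm c ψ g a r x V := by
    intro V
    have h0 := nrm_nonneg c ψ g a r x V
    have h1 := hlim |dd Q x V| (nrm c ψ g a r x V) 1 (C * M) h0 zero_le_one (fun ε hε => by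
      have h1 : 0 < nrm c ψ g a r x V + ε := by linarith
      have h2 : (0 : ℝ) < (nrm c ψ g a r x V + ε)⁻¹ := inv_pos.2 h1
      obtain ⟨h3, h4⟩ := hsc V ε hε
      have h5 := (hbt (L := 1) hc hψ hdep hQ hQd hM one_pos hbox hx _ h3 h4).1
      rw [dd_smul, abs_mul, abs_of_pos h2, inv_mul_le_iff₀ h1] at h5
      have h6 : 0 ≤ C * M := by positivity
      calc |dd Q x V| ≤ (nrm c ψ g a r x V + ε) * (C * M * 1) := h5
        _ = C * M * (nrm c ψ g a r x V + ε) * 1 := by ring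
        _ ≤ C * M * (nrm c ψ g a r x V + ε) * (1 + ε) :=
            mul_le_mul_of_nonneg_left (by linarith) (by positivity)
        _ = _ := by ring) (by positivity)
    calc |dd Q x V| ≤ C * M * (nrm c ψ g a r x V * 1) := h1
      _ = _ := by ring
  refine ⟨hfst, fun V V' Z => ?_⟩
  obtain ⟨Z₀, hZ0, hZl⟩ := vec_adapt hc hdep x 0 (fun l => hs (ψ l) x V V') r le_rfl
  have hmain : |hs Q x V V' + dd Q x Z₀| ≤
      C * M * (nrm c ψ g a r x V * nrm c ψ g a r x V') := by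
    refine hlim _ _ _ _ (nrm_nonneg _ _ _ _ _ _ _) (nrm_nonneg _ _ _ _ _ _ _) (fun ε hε => ?_)
      (by positivity)
    obtain ⟨s, hs'⟩ : ∃ s, s = nrm c ψ g a r x V + ε := ⟨_, rfl⟩
    obtain ⟨s', hs''⟩ : ∃ s', s' = nrm c ψ g a r x V' + ε := ⟨_, rfl⟩
    have h0 := nrm_nonneg c ψ g a r x V
    have h0' := nrm_nonneg c ψ g a r x V'
    have hs0 : 0 < s := by rw [hs']; linarith
    have hs0' : 0 < s' := by rw [hs'']; linarith
    obtain ⟨h3, h4⟩ := hsc V ε hε
    obtain ⟨h3', h4'⟩ := hsc V' ε hε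
    rw [← hs'] at h3 h4
    rw [← hs''] at h3' h4'
    have h5 := (hbt (L := 1) hc hψ hdep hQ hQd hM one_pos hbox hx _ h3 h4).2 _ h3' h4'
      ((s⁻¹ * s'⁻¹) • Z₀) (by rw [Pi.smul_apply, hZ0, smul_zero]) (fun l hl => by
        rw [dd_smul, Pi.smul_apply, smul_eq_mul, hs_smul_left, hs_smul_right, ← mul_sub,
          hZl l hl]
        ring)
    rw [dd_smul, hs_smul_left, hs_smul_right] at h5
    have e1 : s⁻¹ * (s'⁻¹ * hs Q x V V') + s⁻¹ * s'⁻¹ * dd Q x Z₀ =
        s⁻¹ * (s'⁻¹ * (hs Q x V V' + dd Q x Z₀)) := by ring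
    rw [e1, abs_mul, abs_mul, abs_of_pos (inv_pos.2 hs0), abs_of_pos (inv_pos.2 hs0'),
      inv_mul_le_iff₀ hs0, inv_mul_le_iff₀ hs0'] at h5
    rw [← hs', ← hs'']
    calc _ ≤ _ := h5
      _ = _ := by ring
  have hrest := hfst (Z - Z₀)
  have hdd : ∀ R, dd R x (Z - Z₀) = dd R x Z - dd R x Z₀ := by
    intro R
    have h1 := dd_add R x Z ((-1 : ℝ) • Z₀)
    rw [dd_smul] at h1
    have e1 : Z - Z₀ = Z + (-1 : ℝ) • Z₀ := by
      rw [neg_smul, one_smul, sub_eq_add_neg]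
    rw [e1, h1]
    ring
  have hN : nrm c ψ g a r x (Z - Z₀) = nrz c ψ g a r x V V' Z := by
    unfold nrm nrz
    rw [Pi.sub_apply, hZ0, sub_zero]
    congr 1
    refine Finset.sum_congr rfl fun l hl => ?_
    rw [hdd, Pi.sub_apply]
    have h1 := hZl l (Finset.mem_range.1 hl)
    congr 2
    linarith
  rw [hN, hdd] at hrest
  have e1 : hs Q x V V' + dd Q x Z = (hs Q x V V' + dd Q x Z₀) + (dd Q x Z - dd Q x Z₀) := by ring
  rw [e1]
  refine (abs_add_le _ _).trans ((add_le_add hmain hrest).trans (le_of_eq ?_))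
  ring

variable {m J : ℕ}

/-! ### The paths through one exact point -/

/-- **The paths through one exact point**, in a box of radius `2 ^ (-R)`. -/
theorem path_rad (m D n : ℕ) : ∃ C : ℕ, 1 ≤ C ∧ ∀ {J : ℕ} {F : Fam m J} {c : ℕ → Fin m}
    {a R e k : ℕ} {g₀ : ℕ → ℕ} {A : F.Ω → Prop}
    {G₀ : PtT F → ℕ → MvPolynomial (Option (Fin m)) ℝ}
    {H₀ : LnT F → ℕ → MvPolynomial (Option (Fin m)) ℝ}, Set.InjOn c (Set.Iio n) →
    ChOK F c n (fun _ => D) R a e g₀ A G₀ H₀ →
    (∀ l < n, e + g₀ l + C * (k + 1) ≤ J) → ∀ ω ν, A ω → A ν → ptr F J ω = ptr F J ν →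
    (∀ l < n, ∀ τ ∈ Set.Icc (0 : ℝ) 1,
      |(dv a (fun s _ => H₀ s l) (c l) (slam F a ν)).eval τ| ≤ 2 ^ k / 2 ^ g₀ l) →
    ∀ τ ∈ Set.Icc (0 : ℝ) 1, |(lc a (slam F a ν) none).eval τ - F.t ν| ≤ 1 / 2 ^ R →
    ∀ u ∈ Set.Icc (0 : ℝ) 1, ∀ l < n,
      |(lc a (slam F a ν) (some (c l))).eval τ + u * (F.x ω (c l) - F.x ν (c l)) -
        eval (fun o => (lc a (slam F a ν) o).eval τ + u * (bt F ω o - bt F ν o))
          (G₀ (ptr F J ω) l)| ≤ 2 ^ (C * (k + 1)) / 2 ^ g₀ l := by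
  classical
  obtain ⟨c₀, D₁, hD₁, hdil⟩ := nbx_dil (n + 2) (fun _ => D)
  obtain ⟨C₁, hC₁⟩ : ∃ C₁ : ℕ, C₁ = (c₀ + 2) * (1 + D₁) ^ (n + 2) := ⟨_, rfl⟩
  obtain ⟨C, hC⟩ : ∃ C : ℕ, C = c₀ + (C₁ + 2) * (D₁ + 1) + m + 4 := ⟨_, rfl⟩
  refine ⟨C, by omega, ?_⟩
  intro J F c a R e k g₀ A G₀ H₀ hc hch hJ ω ν hω hν hpt hdv τ hτ hbn'
  obtain ⟨hT, htn, hx⟩ := bt_near hpt
  obtain ⟨b, hb⟩ : ∃ b : Option (Fin m) → ℝ, b = fun o => (lc a (slam F a ν) o).eval τ :=
    ⟨_, rfl⟩
  have hbn : |b none - F.t ν| ≤ 1 / 2 ^ R := by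
    rw [hb]
    exact hbn'
  have hlexm : ∀ j ≤ n + 2, lex (k + 1) c₀ D₁ j ≤ C₁ * (k + 1) := by
    intro j hj
    refine (lex_le (k + 1) c₀ D₁ j).trans ?_
    have h1 : (1 + D₁) ^ j ≤ (1 + D₁) ^ (n + 2) := Nat.pow_le_pow_right (by omega) hj
    calc (k + 1 + c₀) * (1 + D₁) ^ j ≤ ((c₀ + 2) * (k + 1)) * (1 + D₁) ^ (n + 2) := by
          refine Nat.mul_le_mul ?_ h1
          nlinarith
      _ = C₁ * (k + 1) := by rw [hC₁]; ring
  have hlexmono : ∀ i j, i ≤ j → lex (k + 1) c₀ D₁ i ≤ lex (k + 1) c₀ D₁ j := by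
    intro i j hij
    induction j, hij using Nat.le_induction with
    | base => exact le_rfl
    | succ n hn ih => exact ih.trans (lex_mono hD₁)
  have hGdeg := hch.degG (ptr F J ν)
  have hGdep := hch.depG (ptr F J ν)
  -- the path of `ν` itself
  have hA : ∀ l < n, |b (some (c l)) - eval b (G₀ (ptr F J ν) l)| ≤
      2 ^ lex (k + 1) c₀ D₁ (l + 1) / 2 ^ g₀ l := by
    intro l
    induction l using Nat.strong_induction_on with
    | _ l ih =>
      intro hl
      have h1 : |b (some (c l)) - eval b (H₀ (slam F a ν) l)| ≤ 2 ^ k / 2 ^ g₀ l := by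
        have h2 := hdv l hl τ hτ
        unfold dv at h2
        rw [Polynomial.eval_sub, Pool.KBX.eval_aeval_poly] at h2
        rw [hb]
        exact h2
      have h3 := hdil (c := c) (i := l) (G := G₀ (ptr F J ν))
        (Q := G₀ (ptr F J ν) l - H₀ (slam F a ν) l) (g := g₀) (a := R) (t := F.t ν)
        (M := 1 / 2 ^ g₀ l) (lex (k + 1) c₀ D₁ l) (by omega)
        (hc.mono fun x hx => by rw [Set.mem_Iio] at hx ⊢; omega) hGdeg hGdep
        (fun b b' h1 h2 => by
          rw [map_sub, map_sub, hGdep l b b' h1 h2, hch.depH _ l b b' h1 h2])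
        ((totalDegree_sub _ _).trans (max_le (hGdeg l) (hch.degH _ l))) (by positivity)
        (fun b' hb' => by
          rw [map_sub]
          exact hch.agr ν hν l (by omega) b' hb') b hbn
        (fun j hj => (ih j hj (by omega)).trans (div_le_div_of_nonneg_right
          (pow_le_pow_right₀ (by norm_num) (hlexmono _ _ (by omega))) (by positivity)))
      rw [map_sub] at h3
      have e1 : b (some (c l)) - eval b (G₀ (ptr F J ν) l) =
          (b (some (c l)) - eval b (H₀ (slam F a ν) l)) -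
          (eval b (G₀ (ptr F J ν) l) - eval b (H₀ (slam F a ν) l)) := by ring
      rw [e1]
      refine (abs_sub _ _).trans ((add_le_add h1 h3).trans ?_)
      rw [mul_one_div, ← add_div]
      refine div_le_div_of_nonneg_right ?_ (by positivity)
      have h4 : lex (k + 1) c₀ D₁ (l + 1) = k + 1 + c₀ + lex (k + 1) c₀ D₁ l * D₁ := rfl
      rw [h4]
      have h5 : (2 : ℝ) ^ (k + 1 + c₀ + lex (k + 1) c₀ D₁ l * D₁) =
          2 ^ k * 2 ^ (c₀ + lex (k + 1) c₀ D₁ l * D₁) * 2 := by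
        rw [← pow_add, ← pow_succ]
        congr 1
        omega
      rw [h5]
      have h6 : (1 : ℝ) ≤ 2 ^ k := one_le_pow₀ (by norm_num)
      have h7 : (1 : ℝ) ≤ 2 ^ (c₀ + lex (k + 1) c₀ D₁ l * D₁) := one_le_pow₀ (by norm_num)
      nlinarith
  -- the moved path
  obtain ⟨δ, hδ⟩ : ∃ δ : Option (Fin m) → ℝ, δ = fun o => bt F ω o - bt F ν o := ⟨_, rfl⟩
  have hδ0 : δ none = 0 := by
    rw [hδ]
    show bt F ω none - bt F ν none = 0
    rw [htn, sub_self]
  have hδj : ∀ j, |δ (some j)| ≤ 1 / 2 ^ J := by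
    intro j
    rw [hδ]
    exact hx j
  have hB : ∀ l < n, ∀ u ∈ Set.Icc (0 : ℝ) 1, |b (some (c l)) + u * δ (some (c l)) -
      eval (fun o => b o + u * δ o) (G₀ (ptr F J ν) l)| ≤
        2 ^ (C₁ * (k + 1) + 2) / 2 ^ g₀ l := by
    intro l
    induction l using Nat.strong_induction_on with
    | _ l ih =>
      intro hl u hu
      have h1 := hA l hl
      have h2 : |u * δ (some (c l))| ≤ 1 / 2 ^ g₀ l := by
        rw [abs_mul, abs_of_nonneg hu.1]
        calc u * |δ (some (c l))| ≤ 1 * (1 / 2 ^ J) :=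
              mul_le_mul hu.2 (hδj _) (abs_nonneg _) (by norm_num)
          _ ≤ 1 / 2 ^ g₀ l := by
              rw [one_mul]
              refine inv_mono ?_
              have := hJ l hl
              omega
      -- the derivatives of the label along the segment
      have h3 : ∀ u ∈ Set.Icc (0 : ℝ) 1,
          |dd (G₀ (ptr F J ν) l) (fun o => b o + u * δ o) δ| ≤ 1 / 2 ^ g₀ l := by
        intro u hu
        unfold dd
        refine (Finset.abs_sum_le_sum_abs _ _).trans ?_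
        have h4 : ∀ o ∈ (Finset.univ : Finset (Option (Fin m))),
            |eval (fun o => b o + u * δ o) (pderiv o (G₀ (ptr F J ν) l)) * δ o| ≤
              1 / 2 ^ (g₀ l + (m + 1)) := by
          intro o _
          have hpos : (0 : ℝ) ≤ 1 / 2 ^ (g₀ l + (m + 1)) := by positivity
          cases o with
          | none =>
            rw [hδ0, mul_zero, abs_zero]
            exact hpos
          | some i =>
            by_cases hi : ∃ j < l, c j = i
            · obtain ⟨j, hj, rfl⟩ := hi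
              have h5 := hdil (c := c) (i := l) (G := G₀ (ptr F J ν))
                (Q := pderiv (some (c j)) (G₀ (ptr F J ν) l)) (g := g₀) (a := R) (t := F.t ν)
                (M := 2 ^ (e + nlp g₀ j l)) (C₁ * (k + 1) + 2) (by omega)
                (hc.mono fun x hx => by rw [Set.mem_Iio] at hx ⊢; omega) hGdeg hGdep
                (DepC.pderiv (hGdep l) j) (totalDegree_pdσ (hGdeg l) _) (by positivity)
                (fun b' hb' => hch.lip ν hν l (by omega) b' hb' j hj)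
                (fun o => b o + u * δ o) (by
                  show |b none + u * δ none - F.t ν| ≤ _
                  rw [hδ0, mul_zero, add_zero]
                  exact hbn) (fun i hi => ih i hi (by omega) u hu)
              rw [abs_mul]
              refine (mul_le_mul h5 (hδj _) (abs_nonneg _) (by positivity)).trans ?_
              rw [← pow_add, mul_one_div, div_le_div_iff₀ (by positivity) (by positivity),
                one_mul, ← pow_add]
              refine pow_le_pow_right₀ (by norm_num) ?_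
              obtain ⟨i, hi1, hi2⟩ := Finset.exists_mem_eq_sup (Finset.Icc j l)
                ⟨j, Finset.mem_Icc.2 ⟨le_rfl, hj.le⟩⟩ g₀
              have hi3 := (Finset.mem_Icc.1 hi1).2
              have h6 := hJ i (by omega)
              have h6' := hJ l hl
              have h7 : nlp g₀ j l = (Finset.Icc j l).sup g₀ - g₀ l := rfl
              have h8 : g₀ l ≤ (Finset.Icc j l).sup g₀ :=
                Finset.le_sup (f := g₀) (Finset.mem_Icc.2 ⟨hj.le, le_rfl⟩)
              rw [hi2] at h7 h8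
              have h9 : c₀ + (C₁ * (k + 1) + 2) * D₁ + (m + 1) ≤ C * (k + 1) := by
                rw [hC]
                have e1 : (c₀ + (C₁ + 2) * (D₁ + 1) + m + 4) * (k + 1) =
                    c₀ + (C₁ * (k + 1) + 2) * D₁ + (m + 1) + (c₀ * k + C₁ * (k + 1) +
                      2 * (k + 1) + 2 * D₁ * k + m * k + 4 * k + 3) := by ring
                rw [e1]
                exact Nat.le_add_right _ _
              omega
            · rw [pd_zero (hGdep l) (fun j hj h' => hi ⟨j, hj, h'⟩), zero_mul, abs_zero]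
              exact hpos
        refine (Finset.sum_le_sum h4).trans ?_
        rw [Finset.sum_const, Finset.card_univ, Fintype.card_option, Fintype.card_fin,
          nsmul_eq_mul, mul_one_div, pow_add, div_le_div_iff₀ (by positivity) (by positivity),
          one_mul]
        have h5 : (((m + 1 : ℕ)) : ℝ) ≤ 2 ^ (m + 1) := by
          have := Nat.lt_two_pow_self (n := m + 1)
          exact_mod_cast this.le
        calc ((m + 1 : ℕ) : ℝ) * 2 ^ g₀ l ≤ 2 ^ (m + 1) * 2 ^ g₀ l :=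
              mul_le_mul_of_nonneg_right h5 (by positivity)
          _ = _ := mul_comm _ _
      have h4 := mv_seg (G₀ (ptr F J ν) l) b δ h3 u hu
      have e1 : b (some (c l)) + u * δ (some (c l)) -
          eval (fun o => b o + u * δ o) (G₀ (ptr F J ν) l) =
          (b (some (c l)) - eval b (G₀ (ptr F J ν) l)) + u * δ (some (c l)) -
          (eval (fun o => b o + u * δ o) (G₀ (ptr F J ν) l) - eval b (G₀ (ptr F J ν) l)) := by
        ring
      rw [e1]
      refine (abs_sub _ _).trans ((add_le_add ((abs_add_le _ _).trans (add_le_add h1 h2))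
        h4).trans ?_)
      rw [← add_div, ← add_div]
      refine div_le_div_of_nonneg_right ?_ (by positivity)
      have h5 : (2 : ℝ) ^ lex (k + 1) c₀ D₁ (l + 1) ≤ 2 ^ (C₁ * (k + 1)) :=
        pow_le_pow_right₀ (by norm_num) (hlexm _ (by omega))
      have h6 : (1 : ℝ) ≤ 2 ^ (C₁ * (k + 1)) := one_le_pow₀ (by norm_num)
      rw [pow_add]
      linarith
  intro u hu l hl
  have h1 := hB l hl u hu
  rw [hb, hδ] at h1
  rw [hpt]
  refine le_trans h1 (div_le_div_of_nonneg_right (pow_le_pow_right₀ (by norm_num) ?_)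
    (by positivity))
  rw [hC]
  have e1 : (c₀ + (C₁ + 2) * (D₁ + 1) + m + 4) * (k + 1) =
      C₁ * (k + 1) + 2 + (c₀ * (k + 1) + C₁ * D₁ * (k + 1) + 2 * (D₁ + 1) * (k + 1) +
        m * (k + 1) + 4 * k + 2) := by ring
  rw [e1]
  exact Nat.le_add_right _ _


/-- **The velocities of the lines through one exact point**, in a box of radius
`2 ^ (-(a + v))`. -/
theorem path_vel (m D n : ℕ) : ∃ C : ℕ, 1 ≤ C ∧ ∀ {J : ℕ} {F : Fam m J} {c : ℕ → Fin m}
    {a v e k : ℕ} {g₀ : ℕ → ℕ} {A : F.Ω → Prop}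
    {G₀ : PtT F → ℕ → MvPolynomial (Option (Fin m)) ℝ}
    {H₀ : LnT F → ℕ → MvPolynomial (Option (Fin m)) ℝ}, Set.InjOn c (Set.Iio n) → a ≤ J →
    ChOK F c n (fun _ => D) (a + v) a e g₀ A G₀ H₀ →
    (∀ l < n, e + g₀ l + C * (k + 1) ≤ J) → ∀ ω ν, A ω → A ν → ptr F J ω = ptr F J ν →
    (∀ l < n, ∀ τ ∈ Set.Icc (0 : ℝ) 1,
      |(dv a (fun s _ => H₀ s l) (c l) (slam F a ν)).eval τ| ≤ 2 ^ k / 2 ^ g₀ l) → ∀ l < n,
    |bd F ν (some (c l)) - dd (G₀ (ptr F J ω) l) (bt F ω) (bd F ν)| ≤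
        2 ^ (C * (k + 1)) * 2 ^ (a + v) / 2 ^ g₀ l ∧
      |hs (G₀ (ptr F J ω) l) (bt F ω) (bd F ν) (bd F ν)| ≤
        2 ^ (C * (k + 1)) * (2 ^ (a + v)) ^ 2 / 2 ^ g₀ l := by
  classical
  obtain ⟨C₁, hC₁, hpb⟩ := path_rad m D n
  obtain ⟨C₂, hC₂, hder⟩ := der_one (D + 1)
  obtain ⟨c₂, hc₂⟩ := pow_unbounded_of_one_lt C₂ (one_lt_two (α := ℝ))
  refine ⟨C₁ + 2 * c₂ + 2, by omega, ?_⟩
  intro J F c a v e k g₀ A G₀ H₀ hc haJ hch hJ ω ν hω hν hpt hdv l hl
  obtain ⟨hT, htn, hx⟩ := bt_near hpt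
  obtain ⟨p, hp⟩ : ∃ p : Option (Fin m) → Polynomial ℝ, p = fun o =>
      lc a (slam F a ν) o + Polynomial.C (bt F ω o - bt F ν o) := ⟨_, rfl⟩
  have hpe : ∀ o s, (p o).eval s = (lc a (slam F a ν) o).eval s + (bt F ω o - bt F ν o) := by
    intro o s
    rw [hp]
    simp only [Polynomial.eval_add, Polynomial.eval_C]
  have hpd : ∀ o, (p o).natDegree ≤ 1 := by
    intro o
    rw [hp]
    refine (Polynomial.natDegree_add_le _ _).trans (max_le (natDegree_lc _ _ _) ?_)
    rw [Polynomial.natDegree_C]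
    exact Nat.zero_le _
  have hx0 : ∀ o, (p o).eval (rt F a ν) = bt F ω o := by
    intro o
    rw [hpe, eval_lc F haJ]
    ring
  have hdp : ∀ o, Polynomial.derivative (p o) = Polynomial.C (1 / 2 ^ a * bd F ν o) := by
    intro o
    rw [hp]
    simp only [Polynomial.derivative_add, Polynomial.derivative_C, add_zero]
    exact der_lc F a ν o
  have hcv := der_curve p (x := bt F ω) (V := (1 / 2 ^ a : ℝ) • bd F ν) (Z := 0)
    (s := rt F a ν) hx0 (fun o => by rw [hdp, Polynomial.eval_C]; rfl) (fun o => by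
      rw [hdp, Polynomial.derivative_C, Polynomial.eval_zero]; rfl) (G₀ (ptr F J ω) l)
  obtain ⟨q, hq⟩ : ∃ q : Polynomial ℝ, q = p (some (c l)) -
      MvPolynomial.aeval p (G₀ (ptr F J ω) l) := ⟨_, rfl⟩
  have hqd : q.natDegree ≤ D + 1 := by
    rw [hq]
    refine (Polynomial.natDegree_sub_le _ _).trans (max_le ((hpd _).trans (by omega)) ?_)
    exact (Pool.KBX.natDegree_aeval_le _ _ hpd (hch.degG _ l)).trans (by omega)
  have hC₁' : ∀ l < n, e + g₀ l + C₁ * (k + 1) ≤ J := by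
    intro l hl
    refine le_trans ?_ (hJ l hl)
    refine Nat.add_le_add_left (Nat.mul_le_mul_right _ ?_) _
    omega
  have hrt := rt_mem F a ν
  have ha0 : (0 : ℝ) < 2 ^ a := by positivity
  have hv0 : (0 : ℝ) < 2 ^ v := by positivity
  have hv1 : (1 : ℝ) ≤ 2 ^ v := one_le_pow₀ (by norm_num)
  have hqb : ∀ τ ∈ Set.Icc (0 : ℝ) 1, |τ - rt F a ν| ≤ 1 / 2 ^ v →
      |q.eval τ| ≤ 2 ^ (C₁ * (k + 1)) / 2 ^ g₀ l := by
    intro τ hτ hτv
    have h0 : |(lc a (slam F a ν) none).eval τ - F.t ν| ≤ 1 / 2 ^ (a + v) := by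
      have h1 := t_rt F haJ ν
      have h2 : (lc a (slam F a ν) none).eval τ = (((slam F a ν).2.2 : ℝ) + τ) / 2 ^ a := by
        simp only [lc, Polynomial.eval_add, Polynomial.eval_mul, Polynomial.eval_C,
          Polynomial.eval_X]
        ring
      rw [h2, h1, ← sub_div, abs_div, abs_of_pos ha0, pow_add, div_le_div_iff₀ ha0
        (by positivity)]
      have e1 : ((slam F a ν).2.2 : ℝ) + τ - (((slam F a ν).2.2 : ℝ) + rt F a ν) =
          τ - rt F a ν := by ring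
      rw [e1]
      rw [le_div_iff₀ hv0] at hτv
      nlinarith
    have h1 := hpb hc hch hC₁' ω ν hω hν hpt hdv τ hτ h0 1 ⟨zero_le_one, le_rfl⟩ l hl
    rw [hq, Polynomial.eval_sub, Pool.KBX.eval_aeval_poly, hpe]
    have e1 : (fun o => (p o).eval τ) = fun o => (lc a (slam F a ν) o).eval τ +
        1 * (bt F ω o - bt F ν o) := by
      funext o
      rw [hpe, one_mul]
    rw [e1]
    have e2 : (lc a (slam F a ν) (some (c l))).eval τ +
        (bt F ω (some (c l)) - bt F ν (some (c l))) =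
        (lc a (slam F a ν) (some (c l))).eval τ + 1 * (F.x ω (c l) - F.x ν (c l)) := by
      rw [one_mul]
      rfl
    rw [e2]
    exact h1
  -- a small interval
  obtain ⟨h, hh, hhm⟩ : ∃ h : ℝ, |h| = 1 / (2 * 2 ^ v) ∧ ∀ s ∈ Set.Icc (0 : ℝ) 1,
      rt F a ν + h * s ∈ Set.Icc (0 : ℝ) 1 := by
    have h1 : (1 : ℝ) / (2 * 2 ^ v) ≤ 1 / 2 := by
      rw [div_le_div_iff₀ (by positivity) (by norm_num)]
      linarith
    have h2 : (0 : ℝ) < 1 / (2 * 2 ^ v) := by positivity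
    rcases le_total (rt F a ν) (1 / 2) with h3 | h3
    · refine ⟨1 / (2 * 2 ^ v), abs_of_pos h2, fun s hs => ⟨?_, ?_⟩⟩
      · have := mul_nonneg h2.le hs.1
        linarith [hrt.1]
      · have : 1 / (2 * 2 ^ v) * s ≤ 1 / 2 * 1 := mul_le_mul h1 hs.2 hs.1 (by norm_num)
        linarith
    · refine ⟨-(1 / (2 * 2 ^ v)), by rw [abs_neg, abs_of_pos h2], fun s hs => ⟨?_, ?_⟩⟩
      · have : 1 / (2 * 2 ^ v) * s ≤ 1 / 2 * 1 := mul_le_mul h1 hs.2 hs.1 (by norm_num)
        linarith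
      · have := mul_nonneg h2.le hs.1
        linarith [hrt.2]
  obtain ⟨Q, hQ⟩ : ∃ Q : Polynomial ℝ, Q = q.comp (Polynomial.C (rt F a ν) +
      Polynomial.C h * Polynomial.X) := ⟨_, rfl⟩
  have hlin : (Polynomial.C (rt F a ν) + Polynomial.C h * Polynomial.X).natDegree ≤ 1 := by
    refine (Polynomial.natDegree_add_le _ _).trans (max_le ?_ ?_)
    · rw [Polynomial.natDegree_C]
      exact Nat.zero_le _
    · exact (Polynomial.natDegree_C_mul_le _ _).trans Polynomial.natDegree_X_le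
  have hQd : Q.natDegree ≤ D + 1 := by
    rw [hQ, Polynomial.natDegree_comp]
    calc q.natDegree * _ ≤ (D + 1) * 1 := Nat.mul_le_mul hqd hlin
      _ = _ := mul_one _
  have hQb : ∀ s ∈ Set.Icc (0 : ℝ) 1, |Q.eval s| ≤ 2 ^ (C₁ * (k + 1)) / 2 ^ g₀ l := by
    intro s hs
    rw [hQ, Polynomial.eval_comp]
    simp only [Polynomial.eval_add, Polynomial.eval_mul, Polynomial.eval_C, Polynomial.eval_X]
    refine hqb _ (hhm s hs) ?_
    rw [add_sub_cancel_left, abs_mul, hh, abs_of_nonneg hs.1]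
    calc 1 / (2 * 2 ^ v) * s ≤ 1 / (2 * 2 ^ v) * 1 :=
          mul_le_mul_of_nonneg_left hs.2 (by positivity)
      _ ≤ 1 / 2 ^ v := by
          rw [mul_one]
          exact one_div_le_one_div_of_le hv0 (by linarith)
  have hd1 := hder Q _ hQd hQb
  have hd2 := hder _ _ ((Polynomial.natDegree_derivative_le _).trans
    ((Nat.sub_le _ _).trans hQd)) (fun s hs => hd1 s (by
      rw [abs_of_nonneg hs.1]
      exact hs.2)) 0 (by rw [abs_zero]; norm_num)
  have hd1' := hd1 0 (by rw [abs_zero]; norm_num)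
  have eD : Polynomial.derivative Q = Polynomial.C h * (Polynomial.derivative q).comp
      (Polynomial.C (rt F a ν) + Polynomial.C h * Polynomial.X) := by
    rw [hQ, Polynomial.derivative_comp]
    simp
  have eD2 : Polynomial.derivative (Polynomial.derivative Q) = Polynomial.C h *
      (Polynomial.C h * (Polynomial.derivative (Polynomial.derivative q)).comp
      (Polynomial.C (rt F a ν) + Polynomial.C h * Polynomial.X)) := by
    rw [eD, Polynomial.derivative_C_mul, Polynomial.derivative_comp]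
    simp
  have eQ1 : (Polynomial.derivative Q).eval 0 = h * (Polynomial.derivative q).eval (rt F a ν) := by
    rw [eD]
    simp [Polynomial.eval_comp]
  have eQ2 : (Polynomial.derivative (Polynomial.derivative Q)).eval 0 =
      h * (h * (Polynomial.derivative (Polynomial.derivative q)).eval (rt F a ν)) := by
    rw [eD2]
    simp [Polynomial.eval_comp]
  have e1 : (Polynomial.derivative q).eval (rt F a ν) =
      1 / 2 ^ a * (bd F ν (some (c l)) - dd (G₀ (ptr F J ω) l) (bt F ω) (bd F ν)) := by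
    rw [hq, Polynomial.derivative_sub, Polynomial.eval_sub, hcv.1, dd_smul, hdp,
      Polynomial.eval_C]
    ring
  have e2 : (Polynomial.derivative (Polynomial.derivative q)).eval (rt F a ν) =
      -(1 / 2 ^ a * (1 / 2 ^ a * hs (G₀ (ptr F J ω) l) (bt F ω) (bd F ν) (bd F ν))) := by
    rw [hq, Polynomial.derivative_sub, Polynomial.derivative_sub, Polynomial.eval_sub, hcv.2,
      hs_smul_left, hs_smul_right, hdp, Polynomial.derivative_C, Polynomial.eval_zero]
    have : dd (G₀ (ptr F J ω) l) (bt F ω) 0 = 0 := by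
      unfold dd
      refine Finset.sum_eq_zero fun o _ => ?_
      rw [Pi.zero_apply, mul_zero]
    rw [this]
    ring
  have hg0 : (0 : ℝ) < 2 ^ g₀ l := by positivity
  rw [eQ1, e1, abs_mul, abs_mul, hh, abs_of_pos (show (0 : ℝ) < 1 / 2 ^ a by positivity)] at hd1'
  rw [eQ2, e2, abs_mul, abs_mul, hh, abs_neg, abs_mul, abs_mul,
    abs_of_pos (show (0 : ℝ) < 1 / 2 ^ a by positivity)] at hd2
  have hk1 : (1 : ℝ) ≤ 2 ^ (C₁ * (k + 1)) := one_le_pow₀ (by norm_num)
  have hcc : 4 * (2 : ℝ) ^ c₂ * 2 ^ c₂ * 2 ^ (C₁ * (k + 1)) ≤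
      2 ^ ((C₁ + 2 * c₂ + 2) * (k + 1)) := by
    have : (4 : ℝ) = 2 ^ 2 := by norm_num
    rw [this, ← pow_add, ← pow_add, ← pow_add]
    refine pow_le_pow_right₀ (by norm_num) ?_
    have : (C₁ + 2 * c₂ + 2) * (k + 1) = 2 + c₂ + c₂ + C₁ * (k + 1) + (2 * c₂ * k + 2 * k) := by
      ring
    rw [this]
    exact Nat.le_add_right _ _
  have h2c : (1 : ℝ) ≤ 2 ^ c₂ := one_le_pow₀ (by norm_num)
  obtain ⟨X, hX⟩ : ∃ X, X = |bd F ν (some (c l)) - dd (G₀ (ptr F J ω) l) (bt F ω) (bd F ν)| :=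
    ⟨_, rfl⟩
  obtain ⟨Y, hY⟩ : ∃ Y, Y = |hs (G₀ (ptr F J ω) l) (bt F ω) (bd F ν) (bd F ν)| := ⟨_, rfl⟩
  rw [← hX] at hd1' ⊢
  rw [← hY] at hd2 ⊢
  constructor
  · have h3 : X = (1 / (2 * 2 ^ v) * (1 / 2 ^ a * X)) * (2 * 2 ^ (a + v)) := by
      rw [pow_add]
      field_simp
    rw [h3]
    calc 1 / (2 * 2 ^ v) * (1 / 2 ^ a * X) * (2 * 2 ^ (a + v)) ≤
          C₂ * (2 ^ (C₁ * (k + 1)) / 2 ^ g₀ l) * (2 * 2 ^ (a + v)) :=
          mul_le_mul_of_nonneg_right hd1' (by positivity)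
      _ = 2 * C₂ * 2 ^ (C₁ * (k + 1)) * 2 ^ (a + v) / 2 ^ g₀ l := by ring
      _ ≤ _ := by
          refine div_le_div_of_nonneg_right (mul_le_mul_of_nonneg_right (le_trans ?_ hcc)
            (by positivity)) hg0.le
          refine mul_le_mul_of_nonneg_right ?_ (by positivity)
          nlinarith [hc₂.le]
  · have h3 : Y = (1 / (2 * 2 ^ v) * (1 / (2 * 2 ^ v) * (1 / 2 ^ a * (1 / 2 ^ a * Y)))) *
        (4 * (2 ^ (a + v)) ^ 2) := by
      rw [pow_add]
      field_simp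
      ring
    rw [h3]
    calc 1 / (2 * 2 ^ v) * (1 / (2 * 2 ^ v) * (1 / 2 ^ a * (1 / 2 ^ a * Y))) *
          (4 * (2 ^ (a + v)) ^ 2) ≤
          C₂ * (C₂ * (2 ^ (C₁ * (k + 1)) / 2 ^ g₀ l)) * (4 * (2 ^ (a + v)) ^ 2) :=
          mul_le_mul_of_nonneg_right hd2 (by positivity)
      _ = 4 * C₂ * C₂ * 2 ^ (C₁ * (k + 1)) * (2 ^ (a + v)) ^ 2 / 2 ^ g₀ l := by ring
      _ ≤ _ := by
          refine div_le_div_of_nonneg_right (mul_le_mul_of_nonneg_right (le_trans ?_ hcc)
            (by positivity)) hg0.le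
          refine mul_le_mul_of_nonneg_right ?_ (by positivity)
          exact mul_le_mul (by linarith [hc₂.le]) hc₂.le (by linarith) (by positivity)

end Pool.D2R
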