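import Mathlib.Algebra.Polynomial.BigOperators
import Mathlib.Algebra.Polynomial.Eval.Degree
import Mathlib.Algebra.Field.GeomSum
import Mathlib.Data.Real.Basic
import Mathlib.Analysis.SpecialFunctions.Pow.Real

/-!
# A ratio of polynomials on a small window

`rser`: the truncated geometric series of `- P / Q` around the value `q₁` of `Q`. `rat_ser`: a number
`k` with `P τ + k * Q τ` small is near to it.
-/

set_option autoImplicit false

namespace Pool.D2R

open Finset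

/-- **The truncated series of `- P / Q`.** -/
noncomputable def rser (P Q : Polynomial ℝ) (q₁ : ℝ) (N : ℕ) : Polynomial ℝ :=
  -(P * ∑ n ∈ range N, Polynomial.C (1 / q₁ ^ (n + 1)) * (Polynomial.C q₁ - Q) ^ n)

theorem eval_rser (P Q : Polynomial ℝ) (q₁ : ℝ) (N : ℕ) (τ : ℝ) :
    (rser P Q q₁ N).eval τ = -(P.eval τ * ∑ n ∈ range N, 1 / q₁ ^ (n + 1) *
      (q₁ - Q.eval τ) ^ n) := by
  unfold rser
  rw [Polynomial.eval_neg, Polynomial.eval_mul, Polynomial.eval_finsetSum]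
  congr 2
  refine Finset.sum_congr rfl fun n _ => ?_
  rw [Polynomial.eval_mul, Polynomial.eval_C, Polynomial.eval_pow, Polynomial.eval_sub,
    Polynomial.eval_C]

theorem deg_rser {P Q : Polynomial ℝ} {D : ℕ} (hP : P.natDegree ≤ D) (hQ : Q.natDegree ≤ D)
    (q₁ : ℝ) (N : ℕ) : (rser P Q q₁ N).natDegree ≤ D * (N + 1) := by
  unfold rser
  rw [Polynomial.natDegree_neg]
  refine Polynomial.natDegree_mul_le.trans ?_
  have h1 : (∑ n ∈ range N, Polynomial.C (1 / q₁ ^ (n + 1)) *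
      (Polynomial.C q₁ - Q) ^ n).natDegree ≤ D * N := by
    refine Polynomial.natDegree_sum_le_of_forall_le _ _ fun n hn => ?_
    refine (Polynomial.natDegree_C_mul_le _ _).trans (Polynomial.natDegree_pow_le.trans ?_)
    have h2 : (Polynomial.C q₁ - Q).natDegree ≤ D := by
      refine (Polynomial.natDegree_sub_le _ _).trans (max_le ?_ hQ)
      rw [Polynomial.natDegree_C]
      exact Nat.zero_le _
    rw [mul_comm D]
    exact Nat.mul_le_mul (Finset.mem_range.1 hn).le h2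
  calc P.natDegree + _ ≤ D + D * N := add_le_add hP h1
    _ = _ := by ring

/-- **A closed ratio.** -/
theorem rat_ser {P Q : Polynomial ℝ} {q₁ μ δ ε K k τ : ℝ} (N : ℕ) (hμ : 0 < μ) (h1 : μ ≤ |q₁|)
    (h2 : |q₁ - Q.eval τ| ≤ δ) (hδ : 2 * δ ≤ μ) (hK : |P.eval τ| ≤ K)
    (hk : |P.eval τ + k * Q.eval τ| ≤ ε) :
    |k - (rser P Q q₁ N).eval τ| ≤ 2 / μ * (ε + K * (δ / μ) ^ N) := by
  have hδ0 : 0 ≤ δ := (abs_nonneg _).trans h2
  have hK0 : 0 ≤ K := (abs_nonneg _).trans hK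
  have hε0 : 0 ≤ ε := (abs_nonneg _).trans hk
  obtain ⟨q, hq⟩ : ∃ q, q = Q.eval τ := ⟨_, rfl⟩
  obtain ⟨p, hp⟩ : ∃ p, p = P.eval τ := ⟨_, rfl⟩
  rw [← hq] at h2
  rw [← hp] at hK
  rw [← hp, ← hq] at hk
  rw [eval_rser, ← hq, ← hp]
  have hq1 : q₁ ≠ 0 := by
    intro h
    rw [h, abs_zero] at h1
    linarith
  have h3 : μ / 2 ≤ |q| := by
    have h4 : |q₁| ≤ |q₁ - q| + |q| := by
      have := abs_add_le (q₁ - q) q
      rwa [sub_add_cancel] at this
    linarith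
  have hq0 : q ≠ 0 := by
    intro h
    rw [h, abs_zero] at h3
    linarith
  have hqp : 0 < |q| := abs_pos.2 hq0
  have hgeo : ∑ n ∈ range N, 1 / q₁ ^ (n + 1) * (q₁ - q) ^ n =
      (1 - ((q₁ - q) / q₁) ^ N) / q := by
    have e1 : ∀ n, 1 / q₁ ^ (n + 1) * (q₁ - q) ^ n = 1 / q₁ * ((q₁ - q) / q₁) ^ n := by
      intro n
      rw [div_pow, pow_succ]
      field_simp
    rw [Finset.sum_congr rfl fun n _ => e1 n, ← Finset.mul_sum]
    have e2 : (q₁ - q) / q₁ - 1 = -(q / q₁) := by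
      field_simp
      ring
    have e3 := mul_geom_sum ((q₁ - q) / q₁) N
    rw [e2] at e3
    have e4 : 1 - ((q₁ - q) / q₁) ^ N = q / q₁ * ∑ i ∈ range N, ((q₁ - q) / q₁) ^ i := by
      linarith
    rw [e4]
    field_simp
  rw [hgeo]
  have e1 : k - -(p * ((1 - ((q₁ - q) / q₁) ^ N) / q)) =
      (p + k * q) / q - p * ((q₁ - q) / q₁) ^ N / q := by
    field_simp
    ring
  rw [e1]
  have h5 : |(p + k * q) / q| ≤ 2 / μ * ε := by
    rw [abs_div, div_le_iff₀ hqp]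
    calc |p + k * q| ≤ ε := hk
      _ = 2 / μ * ε * (μ / 2) := by field_simp
      _ ≤ _ := mul_le_mul_of_nonneg_left h3 (by positivity)
  have h6 : |p * ((q₁ - q) / q₁) ^ N / q| ≤ 2 / μ * (K * (δ / μ) ^ N) := by
    rw [abs_div, div_le_iff₀ hqp, abs_mul, abs_pow, abs_div]
    have h7 : |q₁ - q| / |q₁| ≤ δ / μ := div_le_div₀ hδ0 h2 hμ h1
    calc |p| * (|q₁ - q| / |q₁|) ^ N ≤ K * (δ / μ) ^ N :=
          mul_le_mul hK (pow_le_pow_left₀ (by positivity) h7 N) (by positivity) hK0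
      _ = 2 / μ * (K * (δ / μ) ^ N) * (μ / 2) := by field_simp
      _ ≤ _ := mul_le_mul_of_nonneg_left h3 (by positivity)
  calc |(p + k * q) / q - p * ((q₁ - q) / q₁) ^ N / q| ≤
        |(p + k * q) / q| + |p * ((q₁ - q) / q₁) ^ N / q| := abs_sub _ _
    _ ≤ 2 / μ * ε + 2 / μ * (K * (δ / μ) ^ N) := add_le_add h5 h6
    _ = _ := by ring

end Pool.D2R
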