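import Pool.Agent.H23.D2.Bst
import Pool.Agent.H3.D2G.CelQ

/-!
# The windows of a record

`RecQ.wins`: from the record `RecQ` of a cell to `Wins` for a list of windows with one radius and to
`WinB` for these windows and the chain windows, on one event; `RecL.wins`: the same for a coordinate
of the list as the target. All numbers are in units of `q`.
-/

set_option autoImplicit false

namespace Pool.D2R

open Finset Real MvPolynomial
open Pool.Agent.H49.Ent Pool.Agent.H32.Dense Pool.STK Pool.KA Pool.KSAT Pool.K2S Pool.PB Pool.S6C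
open Pool.GEN Pool.CHT Pool.CHX Pool.ISO
open Pool.LBT (LSys Slo Tri ThrOf fl_le' bas_false)
open Pool.LEV (Law)
open Pool.FLF (Fam.sub)
open Pool.JTN (TgP)
open Pool.PKG (RecQ PtI KdQ Kd)

section

variable {m J : ℕ} {F : Fam m J} {c : ℕ → Fin m} {r D Dr N M : ℕ} {R : ℕ → Prop}
    {C₀ a Eb ηm : ℝ} {o ε p' η σ : ℕ → ℝ} {lv lv' be be' b : ℕ → ℕ → ℝ} {κ : ℝ} {z : ℕ → ℕ → ℕ}
    {B : F.Ω → Prop} {gc gT g₀ : ℕ → ℕ → ℕ}
    {G : ℕ → PtT F → ℕ → MvPolynomial (Option (Fin m)) ℝ}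
    {H : ℕ → LnT F → ℕ → MvPolynomial (Option (Fin m)) ℝ}
    {T : ℕ → PtT F → ℕ → MvPolynomial (Option (Fin m)) ℝ}
    {TH : ℕ → LnT F → ℕ → MvPolynomial (Option (Fin m)) ℝ}
    {Gt : ℕ → PtT F → MvPolynomial (Option (Fin m)) ℝ}
    {Ht : ℕ → LnT F → MvPolynomial (Option (Fin m)) ℝ}

/-- Other names of the levels. -/
theorem Wins.lvc (W : Wins F c r D Dr N M R C₀ a Eb ηm o ε p' η σ lv be b κ z B gc gT g₀ G H T
    TH Gt Ht) (h1 : ∀ k ≤ N, ∀ l ≤ r, lv' k l = lv k l) (h2 : ∀ k ≤ N, ∀ l < r, be' k l = be k l) :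
    Wins F c r D Dr N M R C₀ a Eb ηm o ε p' η σ lv' be' b κ z B gc gT g₀ G H T TH Gt Ht where
  C1 := W.C1
  Eb0 := W.Eb0
  hη := W.hη
  hσ := W.hσ
  hε := W.hε
  ho := W.ho
  hp' := W.hp'
  hgr := W.hgr
  hb := fun k hk l hl => by
    rw [h1 k hk l hl]
    exact W.hb k hk l hl
  sds := fun k hk => ⟨fun l hl => by rw [h1 k hk l hl]; exact (W.sds k hk).b1 l hl,
    fun l hl => by rw [h1 k hk l hl]; exact (W.sds k hk).b2 l hl,
    fun l hl => by rw [h1 k hk l hl]; exact (W.sds k hk).c1 l hl,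
    fun l hl => by rw [h1 k hk l hl]; exact (W.sds k hk).c2 l hl,
    fun l hl hR => by rw [h2 k hk l hl]; exact (W.sds k hk).t1 l hl hR,
    fun l hl hR => by rw [h2 k hk l hl]; exact (W.sds k hk).t2 l hl hR⟩
  evs := W.evs
  row := W.row
  bal := W.bal

/-- Other names of the levels. -/
theorem WinB.lvc (W : WinB F c r D Dr N M C₀ a Eb ηm o η σ lv b κ z B g₀ G H)
    (h1 : ∀ k ≤ N, ∀ l ≤ r, lv' k l = lv k l) :
    WinB F c r D Dr N M C₀ a Eb ηm o η σ lv' b κ z B g₀ G H where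
  C1 := W.C1
  Eb0 := W.Eb0
  hη := W.hη
  hσ := W.hσ
  ho := W.ho
  hb := fun k hk l hl => by
    rw [h1 k hk l hl]
    exact W.hb k hk l hl
  sds := fun k hk l hl => by
    rw [h1 k hk l hl]
    exact W.sds k hk l hl
  ev := W.ev
  bal := W.bal

end

/-- The windows near `t`, all numbers in units of `q`. -/
theorem wins_q (m i S₂ : ℕ) (hi : 1 ≤ i) (hS₂ : 1 ≤ S₂) : ∃ D : ℕ, 1 ≤ D ∧ ∀ Dr : ℕ,
    D ≤ Dr → ∃ C CB : ℝ, 1 ≤ C ∧ 1 ≤ CB ∧ ∀ {S : PCl m}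
    {P : List (Fin m) × Fin m → ℝ → ℝ → ℝ} {θ : ℝ} {c : ℕ → Fin m} {Pt : ℝ → ℝ → ℝ}
    {Eb K ε q t : ℝ}, ThrOf (chsys m θ) S P → 0 < θ → TmH S → Set.InjOn c (Set.Iio (i + 1)) →
    Law Pt → 0 < Eb → 0 < q → 0 < t - K * q → t + K * q < 1 →
    (∀ l ≤ i, ∀ x : ℝ, |x - t| ≤ K * q → lvN P c i Pt l x x + Eb + 3 * K * q < 1) → 0 ≤ ε →
    ∀ (A' y r' : ℝ) (N₁ N₂ M : ℕ) (v : ℕ → ℝ) (Rg : ℕ → Prop), 1 ≤ K → 0 < y →
    4 * (C * y) ≤ 1 → 4 * (C * ε) ≤ y → 0 < r' → N₁ ≤ N₂ → A' ≤ K →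
    (∀ k ≤ N₁, PtI S P θ c i Pt S₂ Eb (t + A' * q) (t + v k * q)) →
    (∀ k ≤ N₂, PtI S P θ c i Pt S₂ Eb (t + v k * q) (t + v k * q)) →
    (∀ k ≤ N₂, -K + 1 ≤ v k ∧ v k < A') →
    (∀ k ≤ N₁, ∀ l < i, Rg l → bet P c l (t + A' * q) (t + v k * q) ≤
      bet P c l (t + v k * q) (t + v k * q) + (t + A' * q - (t + v k * q)) + 3 * ε * q) →
    ∃ (K₁ : ℝ) (b : ℕ → ℕ → ℝ), 0 < K₁ ∧ ∀ κ : ℝ, 0 < κ → Bas S (fun J F A₀ =>
      ∀ z : ℕ → ℕ → ℕ, (∀ k ≤ N₂, ∀ p ≤ M, r' * q * J ≤ z k p ∧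
        z k p ≤ ⌊(t + A' * q) * J⌋₊ - ⌊(t + v k * q) * J⌋₊) →
      ∃ (B : F.Ω → Prop) (gc gT g₀ : ℕ → ℕ → ℕ)
        (G : ℕ → PtT F → ℕ → MvPolynomial (Option (Fin m)) ℝ)
        (H : ℕ → LnT F → ℕ → MvPolynomial (Option (Fin m)) ℝ)
        (Th : ℕ → PtT F → ℕ → MvPolynomial (Option (Fin m)) ℝ)
        (TH : ℕ → LnT F → ℕ → MvPolynomial (Option (Fin m)) ℝ)
        (Gt : ℕ → PtT F → MvPolynomial (Option (Fin m)) ℝ)
        (Ht : ℕ → LnT F → MvPolynomial (Option (Fin m)) ℝ), Sub B A₀ ∧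
        Pe F.p A₀ ≤ K₁ * Pe F.p B ∧
        Wins F c i D Dr N₁ M Rg C (t + A' * q) Eb (y * q) (fun k => t + v k * q)
          (fun _ => 3 * ε * q)
          (fun k => Pt (t + A' * q) (t + v k * q) - 2 * (C * (y * q)))
          (fun _ => y * q) (fun _ => y * q)
          (fun k l => lvN P c i Pt l (t + v k * q) (t + v k * q))
          (fun k l => bet P c l (t + A' * q) (t + v k * q)) b κ z B gc gT g₀ G H Th TH Gt Ht ∧
        WinB F c i D Dr N₂ M CB (t + A' * q) Eb (y * q) (fun k => t + v k * q)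
          (fun _ => y * q) (fun _ => y * q)
          (fun k l => lvN P c i Pt l (t + v k * q) (t + v k * q)) b κ z B g₀ G H) := by
  obtain ⟨D, hD, hcon⟩ := winJ_con m i S₂ hi hS₂
  refine ⟨D, hD, fun Dr hDr => ?_⟩
  obtain ⟨C, CB, hC, hCB, hcon⟩ := hcon Dr hDr
  refine ⟨C, CB, hC, hCB, ?_⟩
  intro S P θ c Pt Eb K ε q t hthr hθ htm hinj hlaw hEb hq ht0 ht1 hroom' hε A' y r' N₁ N₂ M v Rg
    hK hy hCy hCε hr' hNN hAK hmn hdg hvK hRg
  have hKq : q ≤ K * q := le_mul_of_one_le_left hq.le hK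
  have hyq : 0 < y * q := mul_pos hy hq
  have hεq : 0 ≤ ε * q := mul_nonneg hε hq.le
  have hC0 : 0 < C := by linarith
  have hCyq : 4 * (C * (y * q)) ≤ q := by
    have := mul_le_mul_of_nonneg_right hCy hq.le
    linarith
  have hyC : y * q ≤ C * (y * q) := le_mul_of_one_le_left hyq.le hC
  have hCεq : C * (3 * ε * q) < y * q := by
    have h1 := mul_le_mul_of_nonneg_right hCε hq.le
    have h2 : 4 * (C * ε) * q = 4 * (C * (ε * q)) := by ring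
    have h3 : C * (3 * ε * q) = 3 * (C * (ε * q)) := by ring
    have h4 : 0 ≤ C * (ε * q) := mul_nonneg hC0.le hεq
    rw [h2] at h1
    linarith
  have hεε : 3 * ε * q = 3 * (ε * q) := by ring
  -- the windows
  have hAq : A' * q ≤ K * q := mul_le_mul_of_nonneg_right hAK hq.le
  have hv : ∀ k ≤ N₂, -(K * q) + q ≤ v k * q ∧ v k * q < A' * q := fun k hk => by
    obtain ⟨h1, h2⟩ := hvK k hk
    have h3 := mul_le_mul_of_nonneg_right h1 hq.le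
    have h4 := mul_lt_mul_of_pos_right h2 hq
    refine ⟨?_, h4⟩
    have : (-K + 1) * q = -(K * q) + q := by ring
    linarith
  have hox : ∀ k ≤ N₂, |t + v k * q - t| ≤ K * q := fun k hk => by
    have := hv k hk
    rw [abs_le]
    constructor <;> linarith
  have hax : |t + A' * q - t| ≤ K * q := by
    have := hv 0 (Nat.zero_le _)
    rw [abs_le]
    constructor <;> linarith
  have hroom : ∀ k ≤ N₂, ∀ l ≤ i, lvN P c i Pt l (t + v k * q) (t + v k * q) + Eb +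
      3 * (K * q) < 1 := fun k hk l hl => by
    have := hroom' l hl _ (hox k hk)
    linarith
  have hPta : ∀ k ≤ N₁, t + A' * q ≤ Pt (t + A' * q) (t + v k * q) := fun k hk => by
    obtain ⟨ρ, vs, e, e₀, E, sg, Q, d1, -⟩ := hmn k hk
    exact d1.self.low
  obtain ⟨K₁, μ, b, hK₁, -, hbas⟩ := hcon (S := S) (P := P) (θ := θ) (c := c) (Pt := Pt)
    (R := Rg) (a := t + A' * q) (Eb := Eb) (ηm := y * q) (o := fun k => t + v k * q)
    (ε := fun _ => 3 * ε * q)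
    (p' := fun k => Pt (t + A' * q) (t + v k * q) - 2 * (C * (y * q)))
    (η := fun _ => y * q) (σ := fun _ => y * q) (r₀ := fun _ => r' * q) N₁ N₂ M hNN hthr hθ
    htm hinj hlaw hEb.le
    (fun k hk => Pool.PKG.winD_of (by
      have := (hv k (by omega)).2
      show t + v k * q < t + A' * q
      linarith) (hmn k hk) (hdg k (by omega)) (by linarith) (fun l hl hRl => hRg k hk l hl hRl)
      (fun l hl => by
        have h3 := hroom k (by omega) l hl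
        have h4 := hv k (by omega)
        linarith))
    (fun k h1 hk => by
      obtain ⟨ρ, vs, e, e₀, E, sg, Q, d1, d2, -⟩ := hdg k hk
      refine ⟨?_, ⟨ρ, vs, e, e₀, E, sg, Q, d1, d2⟩, fun l hl => ?_⟩
      · have := (hv k hk).2
        linarith
      · have h3 := hroom k hk l hl
        have h4 := hv k hk
        linarith)
    (fun k hk => by
      have h1 := hv k (by omega)
      refine ⟨?_, hCεq, ?_⟩
      · show C * (3 * ε * q) < t + v k * q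
        linarith
      · show 2 * (C * (y * q)) ≤ t + v k * q
        linarith)
    (fun k hk => by
      have h1 := hPta k hk
      have h2 := hv k (by omega)
      show C * (y * q) ≤ Pt (t + A' * q) (t + v k * q) - 2 * (C * (y * q)) ∧
        Pt (t + A' * q) (t + v k * q) - 2 * (C * (y * q)) + C * (3 * ε * q) <
          Pt (t + A' * q) (t + v k * q)
      constructor <;> linarith)
    (fun k hk => ⟨hyq, hyq, le_rfl, mul_pos hr' hq, by
      have h2 := hv k hk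
      show y * q < t + A' * q
      linarith, le_rfl⟩)
    (fun k hk l hl => by
      have h3 := hroom k (by omega) l hl
      have h4 := hv k (by omega)
      show lvN P c i Pt l (t + v k * q) (t + v k * q) + (t + A' * q - (t + v k * q)) +
        (Eb + y * q + y * q) < 1
      linarith)
    (fun k hk l hl => by
      have h4 := hv k (by omega)
      have h5 := (hthr.law ((List.range l).map c, c l)).mono_w (t + A' * q) (t + v k * q)
        (t + A' * q) (by linarith) (by linarith) le_rfl (by linarith)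
      have h6 := hroom' l hl.le _ hax
      unfold lvN at h6
      rw [if_pos hl] at h6
      have h7 : bet P c l (t + A' * q) (t + v k * q) ≤ bet P c l (t + A' * q) (t + A' * q) := h5
      show bet P c l (t + A' * q) (t + v k * q) + (Eb + y * q + y * q) < 1
      linarith)
  exact ⟨K₁, b, hK₁, hbas⟩

/-- **The windows of a record.** The main windows `t + v k q`, `k ≤ N₁`, are pairs of the record
with the common radius `t + A' q`; the windows `t + v k q`, `N₁ < k ≤ N₂`, are windows of its chain.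
`y`: the loss in units of `q`. -/
theorem RecQ.wins (m i S₂ : ℕ) (hi : 1 ≤ i) (hS₂ : 1 ≤ S₂) : ∃ D : ℕ, 1 ≤ D ∧ ∀ Dr : ℕ,
    D ≤ Dr → ∃ C CB : ℝ, 1 ≤ C ∧ 1 ≤ CB ∧ ∀ {S : PCl m}
    {P P₂ : List (Fin m) × Fin m → ℝ → ℝ → ℝ} {θ θ₂ : ℝ} {c : ℕ → Fin m} {Pt : ℝ → ℝ → ℝ}
    {L T : ℕ → ℝ → ℝ → ℝ} {Sl : ℕ → ℝ} {kd : ℕ → Kd} {S₀ N : ℕ} {A V : ℕ → ℝ} {N' : ℕ}
    {V' : ℕ → ℝ} {Eb e₂ K ε q t : ℝ},
    RecQ S P P₂ θ θ₂ c i Pt L T Sl kd S₀ N A V S₂ N' V' Eb e₂ K ε q t → S₀ ≤ S₂ → 0 ≤ ε →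
    ∀ (A' y r' : ℝ) (N₁ N₂ M : ℕ) (v : ℕ → ℝ) (Rg : ℕ → Prop), 1 ≤ K → 0 < y →
    4 * (C * y) ≤ 1 → 4 * (C * ε) ≤ y → 0 < r' → N₁ ≤ N₂ → A' ≤ K →
    (∀ k ≤ N₁, ∃ j < N, A j = A' ∧ V j = v k) → (∀ k ≤ N₂, -K + 1 ≤ v k ∧ v k < A') →
    (∀ k, N₁ < k → k ≤ N₂ → ∃ j < N', V' j = v k) →
    (∀ l < i, Rg l → kd l = .one ∨ kd l = .thin) →
    ∃ (K₁ : ℝ) (b : ℕ → ℕ → ℝ), 0 < K₁ ∧ ∀ κ : ℝ, 0 < κ → Bas S (fun J F A₀ =>
      ∀ z : ℕ → ℕ → ℕ, (∀ k ≤ N₂, ∀ p ≤ M, r' * q * J ≤ z k p ∧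
        z k p ≤ ⌊(t + A' * q) * J⌋₊ - ⌊(t + v k * q) * J⌋₊) →
      ∃ (B : F.Ω → Prop) (gc gT g₀ : ℕ → ℕ → ℕ)
        (G : ℕ → PtT F → ℕ → MvPolynomial (Option (Fin m)) ℝ)
        (H : ℕ → LnT F → ℕ → MvPolynomial (Option (Fin m)) ℝ)
        (Th : ℕ → PtT F → ℕ → MvPolynomial (Option (Fin m)) ℝ)
        (TH : ℕ → LnT F → ℕ → MvPolynomial (Option (Fin m)) ℝ)
        (Gt : ℕ → PtT F → MvPolynomial (Option (Fin m)) ℝ)
        (Ht : ℕ → LnT F → MvPolynomial (Option (Fin m)) ℝ), Sub B A₀ ∧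
        Pe F.p A₀ ≤ K₁ * Pe F.p B ∧
        Wins F c i D Dr N₁ M Rg C (t + A' * q) Eb (y * q) (fun k => t + v k * q)
          (fun _ => 3 * ε * q)
          (fun k => L i (t + A' * q) (t + v k * q) - 2 * (C * (y * q)))
          (fun _ => y * q) (fun _ => y * q) (fun k l => L l (t + v k * q) (t + v k * q))
          (fun k l => L l (t + A' * q) (t + v k * q)) b κ z B gc gT g₀ G H Th TH Gt Ht ∧
        WinB F c i D Dr N₂ M CB (t + A' * q) Eb (y * q) (fun k => t + v k * q)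
          (fun _ => y * q) (fun _ => y * q) (fun k l => L l (t + v k * q) (t + v k * q)) b κ z B
          g₀ G H) := by
  obtain ⟨D, hD, hcon⟩ := wins_q m i S₂ hi hS₂
  refine ⟨D, hD, fun Dr hDr => ?_⟩
  obtain ⟨C, CB, hC, hCB, hcon⟩ := hcon Dr hDr
  refine ⟨C, CB, hC, hCB, ?_⟩
  intro S P P₂ θ θ₂ c Pt L T Sl kd S₀ N A V N' V' Eb e₂ K ε q t R hS hε A' y r' N₁ N₂ M v Rg hK
    hy hCy hCε hr' hNN hAK hmn hvK hch hRg
  have hPt : L i = Pt := by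
    rw [R.lv i le_rfl]
    funext a w
    unfold lvN
    rw [if_neg (lt_irrefl i)]
  have hbe : ∀ l < i, L l = bet P c l := fun l hl => by
    rw [R.lv l hl.le]
    funext a w
    unfold lvN
    rw [if_pos hl]
  obtain ⟨K₁, b, hK₁, hbas⟩ := hcon (Eb := Eb) (K := K) (ε := ε) (q := q) (t := t) R.thr R.th0
    R.tmh R.inj R.law R.Eb0 R.q0 R.t0 R.t1 (fun l hl x hx => by
      rw [← R.lv l hl]
      exact R.room l hl x hx) hε A' y r' N₁ N₂ M v Rg hK hy hCy hCε hr' hNN hAK (fun k hk => by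
      obtain ⟨j, hj, hA, hV⟩ := hmn k hk
      have := (R.pt j hj).1
      rwa [hA, hV] at this) (fun k hk => by
      rcases Nat.lt_or_ge N₁ k with h | h
      · obtain ⟨j, hj, hV⟩ := hch k h hk
        have := (R.ptc j hj).mono hS
        rwa [hV] at this
      · obtain ⟨j, hj, hA, hV⟩ := hmn k h
        have := (R.pt j hj).2
        rwa [hV] at this) hvK (fun k hk l hl hRl => by
      obtain ⟨j, hj, hA, hV⟩ := hmn k hk
      obtain ⟨h1, h2⟩ := hvK k (by omega)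
      have := (R.winD hj (by rw [hV]; linarith) (by rw [hA, hV]; exact h2) (by rw [hA]; exact hAK)
        (ε' := 3 * ε * q) le_rfl hε hRg).rgh l hl hRl
      rwa [hA, hV] at this)
  refine ⟨K₁, b, hK₁, fun κ hκ => Bas.mono 0 (hbas κ hκ) ?_⟩
  rintro J - F A₀ hA z hz
  obtain ⟨B, gc, gT, g₀, G, H, Th, TH, Gt, Ht, k1, k2, k3, k4⟩ := hA z hz
  rw [hPt]
  refine ⟨B, gc, gT, g₀, G, H, Th, TH, Gt, Ht, k1, k2, k3.lvc (fun k _ l hl => ?_)
    (fun k _ l hl => ?_), k4.lvc fun k _ l hl => ?_⟩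
  · show L l _ _ = _
    rw [R.lv l hl]
  · show L l _ _ = _
    rw [hbe l hl]
  · show L l _ _ = _
    rw [R.lv l hl]

/-- **The windows of the list coordinate** `c l`, `1 ≤ l < i`, as the target. -/
theorem RecL.wins (m l S₂ : ℕ) (hl : 1 ≤ l) (hS₂ : 1 ≤ S₂) : ∃ D : ℕ, 1 ≤ D ∧ ∀ Dr : ℕ,
    D ≤ Dr → ∃ C CB : ℝ, 1 ≤ C ∧ 1 ≤ CB ∧ ∀ {i : ℕ} {S : PCl m}
    {P P₂ : List (Fin m) × Fin m → ℝ → ℝ → ℝ} {θ θ₂ : ℝ} {c : ℕ → Fin m} {Pt : ℝ → ℝ → ℝ}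
    {L T : ℕ → ℝ → ℝ → ℝ} {Sl : ℕ → ℝ} {kd : ℕ → Kd} {S₀ N : ℕ} {A V : ℕ → ℝ} {N' : ℕ}
    {V' : ℕ → ℝ} {Eb e₂ Eb' e' K ε q t : ℝ}, l < i →
    RecQ S P P₂ θ θ₂ c i Pt L T Sl kd S₀ N A V S₂ N' V' Eb e₂ K ε q t →
    Pool.PKG.RecL S P θ c l L S₀ N A V S₂ N' V' Eb' e' K q t → S₀ ≤ S₂ → 0 ≤ ε →
    ∀ (A' y r' : ℝ) (N₁ N₂ M : ℕ) (v : ℕ → ℝ) (Rg : ℕ → Prop), 1 ≤ K → 0 < y →
    4 * (C * y) ≤ 1 → 4 * (C * ε) ≤ y → 0 < r' → N₁ ≤ N₂ → A' ≤ K →
    (∀ k ≤ N₁, ∃ j < N, A j = A' ∧ V j = v k) → (∀ k ≤ N₂, -K + 1 ≤ v k ∧ v k < A') →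
    (∀ k, N₁ < k → k ≤ N₂ → ∃ j < N', V' j = v k) →
    (∀ j < l, Rg j → kd j = .one ∨ kd j = .thin) →
    ∃ (K₁ : ℝ) (b : ℕ → ℕ → ℝ), 0 < K₁ ∧ ∀ κ : ℝ, 0 < κ → Bas S (fun J F A₀ =>
      ∀ z : ℕ → ℕ → ℕ, (∀ k ≤ N₂, ∀ p ≤ M, r' * q * J ≤ z k p ∧
        z k p ≤ ⌊(t + A' * q) * J⌋₊ - ⌊(t + v k * q) * J⌋₊) →
      ∃ (B : F.Ω → Prop) (gc gT g₀ : ℕ → ℕ → ℕ)
        (G : ℕ → PtT F → ℕ → MvPolynomial (Option (Fin m)) ℝ)
        (H : ℕ → LnT F → ℕ → MvPolynomial (Option (Fin m)) ℝ)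
        (Th : ℕ → PtT F → ℕ → MvPolynomial (Option (Fin m)) ℝ)
        (TH : ℕ → LnT F → ℕ → MvPolynomial (Option (Fin m)) ℝ)
        (Gt : ℕ → PtT F → MvPolynomial (Option (Fin m)) ℝ)
        (Ht : ℕ → LnT F → MvPolynomial (Option (Fin m)) ℝ), Sub B A₀ ∧
        Pe F.p A₀ ≤ K₁ * Pe F.p B ∧
        Wins F c l D Dr N₁ M Rg C (t + A' * q) Eb' (y * q) (fun k => t + v k * q)
          (fun _ => 3 * ε * q)
          (fun k => L l (t + A' * q) (t + v k * q) - 2 * (C * (y * q)))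
          (fun _ => y * q) (fun _ => y * q) (fun k j => L j (t + v k * q) (t + v k * q))
          (fun k j => L j (t + A' * q) (t + v k * q)) b κ z B gc gT g₀ G H Th TH Gt Ht ∧
        WinB F c l D Dr N₂ M CB (t + A' * q) Eb' (y * q) (fun k => t + v k * q)
          (fun _ => y * q) (fun _ => y * q) (fun k j => L j (t + v k * q) (t + v k * q)) b κ z B
          g₀ G H) := by
  obtain ⟨D, hD, hcon⟩ := wins_q m l S₂ hl hS₂
  refine ⟨D, hD, fun Dr hDr => ?_⟩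
  obtain ⟨C, CB, hC, hCB, hcon⟩ := hcon Dr hDr
  refine ⟨C, CB, hC, hCB, ?_⟩
  intro i S P P₂ θ θ₂ c Pt L T Sl kd S₀ N A V N' V' Eb e₂ Eb' e' K ε q t hli R RL hS hε A' y r'
    N₁ N₂ M v Rg hK hy hCy hCε hr' hNN hAK hmn hvK hch hRg
  have hbe : ∀ j ≤ l, L j = bet P c j := fun j hj => by
    rw [R.lv j (by omega)]
    funext a w
    unfold lvN
    rw [if_pos (by omega)]
  have hlv : ∀ j ≤ l, lvN P c l (bet P c l) j = L j := fun j hj => by
    rw [hbe j hj]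
    funext a w
    unfold lvN
    split_ifs with h1
    · rfl
    · rw [show j = l by omega]
  obtain ⟨K₁, b, hK₁, hbas⟩ := hcon (Pt := bet P c l) (Eb := Eb') (K := K) (ε := ε) (q := q)
    (t := t) R.thr R.th0
    R.tmh (R.inj.mono fun x hx => by rw [Set.mem_Iio] at hx ⊢; omega) (R.thr.law _) RL.Eb0 R.q0
    R.t0 R.t1 (fun j hj x hx => by
      rw [hlv j hj]
      exact RL.room j hj x hx) hε A' y r' N₁ N₂ M v Rg hK hy hCy hCε hr' hNN hAK (fun k hk => by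
      obtain ⟨j, hj, hA, hV⟩ := hmn k hk
      have := (RL.pt j hj).1
      rwa [hA, hV] at this) (fun k hk => by
      rcases Nat.lt_or_ge N₁ k with h | h
      · obtain ⟨j, hj, hV⟩ := hch k h hk
        have := (RL.ptc j hj).mono hS
        rwa [hV] at this
      · obtain ⟨j, hj, hA, hV⟩ := hmn k h
        have := (RL.pt j hj).2
        rwa [hV] at this) hvK (fun k hk p hp hRp => by
      obtain ⟨j, hj, hA, hV⟩ := hmn k hk
      obtain ⟨h1, h2⟩ := hvK k (by omega)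
      have := (R.winD hj (by rw [hV]; linarith) (by rw [hA, hV]; exact h2) (by rw [hA]; exact hAK)
        (ε' := 3 * ε * q) le_rfl hε (Rg := fun p => p < l ∧ Rg p)
        (fun p _ h => hRg p h.1 h.2)).rgh p (by omega) ⟨hp, hRp⟩
      rwa [hA, hV] at this)
  refine ⟨K₁, b, hK₁, fun κ hκ => Bas.mono 0 (hbas κ hκ) ?_⟩
  rintro J - F A₀ hA z hz
  obtain ⟨B, gc, gT, g₀, G, H, Th, TH, Gt, Ht, k1, k2, k3, k4⟩ := hA z hz
  rw [hbe l le_rfl]
  refine ⟨B, gc, gT, g₀, G, H, Th, TH, Gt, Ht, k1, k2, k3.lvc (fun k _ j hj => ?_)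
    (fun k _ j hj => ?_), k4.lvc fun k _ j hj => ?_⟩
  · show L j _ _ = _
    rw [hlv j hj]
  · show L j _ _ = _
    rw [hbe j hj.le]
  · show L j _ _ = _
    rw [hlv j hj]

end Pool.D2R
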