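import Pool.Agent.H23.D2.Nbc
import Pool.Agent.H23.D2.Bst
import Pool.Agent.H66.D2.Cev
import Pool.Agent.H23.D2.Rcq

/-!
# The natural curvature at a window with a fine chain

`natb_ch`: over `WinB`, for a fine chain of windows `f 0, .., f n` of equal steps, the second
derivatives of the charts of the ball of `f 0` are natural (`r ≤ 3`).
-/

set_option autoImplicit false

namespace Pool.D2R

open Finset Real MvPolynomial
open Pool.Agent.H49.Ent Pool.Agent.H32.Dense Pool.STK Pool.KA Pool.KSAT Pool.K2S Pool.PB Pool.S6C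
open Pool.GEN Pool.CHT Pool.CHX Pool.D2F
open Pool.LBT (ThrOf)
open Pool.D2Z (Nc)
open Pool.F5

variable {m J : ℕ}

/-- **Natural curvature at the first window of a fine chain.** -/
theorem natb_ch (m D r : ℕ) (hD : 1 ≤ D) (hr : 1 ≤ r) (hr3 : r ≤ 3) : ∃ C : ℕ, 1 ≤ C ∧
    ∀ {S : PCl m} {P : List (Fin m) × Fin m → ℝ → ℝ → ℝ} {θ : ℝ} {c : ℕ → Fin m}
    {C₀ a Eb ηm ζ υ e h κ₀ s ρ x : ℝ} {o η σ Λ Sl : ℕ → ℝ} {lv : ℕ → ℕ → ℝ} {Dr N M n j₁ : ℕ}
    (W : ℕ → ℚ) (f jj : ℕ → ℕ), ThrOf (chsys m θ) S P → TmH S →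
    Set.InjOn c (Set.Iio (r + 1)) → D ≤ Dr → 0 < h → h ≤ ζ → 0 ≤ υ → 0 < κ₀ →
    2 * C * (C₀ * ηm) ≤ ζ → Eb + C * ζ + υ ≤ e → (∀ j ≤ n, f j ≤ N) → (∀ j < n, jj j ≤ M) →
    1 ≤ j₁ → j₁ < n → 0 < s → 0 ≤ ρ → (∀ j ≤ n, o (f j) = x + j * s) →
    (∀ j ≤ n, ∀ l ≤ r, |lv (f j) l - Λ l - Sl l * (j * s)| ≤ ρ) → (∀ l ≤ r, 1 ≤ Sl l) →
    (∀ l ≤ r, 2 * C * (Sl l * s + 4 * ρ) ≤ ζ) →
    (∀ j ≤ n, o (f j) + C * ζ ≤ 1 ∧ ∀ l ≤ r, C * ζ ≤ lv (f j) l ∧
      Eb + lv (f j) l + C * ζ + υ ≤ 1) →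
    (∀ j, j = 0 ∨ j = j₁ → (o (f j) ≤ W (f j) ∧ 0 ≤ W (f j) ∧ W (f j) < 1 ∧ e < θ * W (f j)) ∧
      ∀ l < 3, l < r → bet P c l (W (f j)) (W (f j)) + h ≤ 1 ∧
        bet P c l (W (f j)) (W (f j)) ≤ lv (f j) l + ζ) →
    (∀ l, 1 ≤ l → l ≤ 2 → l < r → C * ζ + υ + 2 * ρ ≤ (Sl l - 1) * (((n : ℝ) - j₁) * s)) →
    (r = 3 → (Sl 1 - Sl 0) * (j₁ * s) + C * ζ + 4 * ρ ≤ υ ∧
      ∀ l < 2, C * ζ + 4 * ρ ≤ (Sl (l + 1) - Sl 0) * (j₁ * s)) →
    ∃ κ' : ℝ, 0 < κ' ∧ Bas S (fun J F A => ∀ (z : ℕ → ℕ → ℕ) (κ : ℝ) (b : ℕ → ℕ → ℝ)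
      (B : F.Ω → Prop) (g₀ : ℕ → ℕ → ℕ)
      (G : ℕ → PtT F → ℕ → MvPolynomial (Option (Fin m)) ℝ)
      (H : ℕ → LnT F → ℕ → MvPolynomial (Option (Fin m)) ℝ) (B₁ : F.Ω → Prop),
      WinB F c r D Dr N M C₀ a Eb ηm o η σ lv b κ z B g₀ G H →
      (∀ j < n, z (f j) (jj j) = ⌊o (f (j + 1)) * J⌋₊ - ⌊o (f j) * J⌋₊) →
      κ ≤ κ' → Sub B A → Sub B₁ B → κ₀ * Pe F.p A ≤ Pe F.p B₁ →
      ∃ B' : F.Ω → Prop, Sub B' B₁ ∧ Pe F.p B₁ ≤ (C : ℝ) ^ 6 * Pe F.p B' ∧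
        ROutB F c r ⌊o (f 0) * J⌋₊ ⌊C * ζ * J⌋₊ (g₀ (f 0)) B' (G (f 0)) (H (f 0)) ∧
        ∀ l ≤ r, NatH F c ⌊o (f 0) * J⌋₊ (g₀ (f 0)) B' (G (f 0)) ⌊(C * ζ + 2 * υ) * J⌋₊ l) := by
  obtain ⟨C₁, hC₁, hnat⟩ := natb_all m D r hD hr
  obtain ⟨C₂, hC₂, hstar⟩ := winb_star D r
  have hC₁R : (1 : ℝ) ≤ C₁ := by exact_mod_cast hC₁
  have hC₂R : (1 : ℝ) ≤ C₂ := by exact_mod_cast hC₂
  obtain ⟨C, hC⟩ : ∃ C, C = C₁ + C₂ := ⟨_, rfl⟩
  have hCR : (C : ℝ) = C₁ + C₂ := by rw [hC]; push_cast; ring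
  refine ⟨C, by omega, ?_⟩
  intro S P θ c C₀ a Eb ηm ζ υ e h κ₀ s ρ x o η σ Λ Sl lv Dr N M n j₁ W f jj hP hT hc hDr hh hhζ
    hυ hκ₀ hCη hEe hf hjj hj1 hjn hs hρ ho hlv hSl hstep hroom hW hdeep h3
  have hζ : 0 < ζ := lt_of_lt_of_le hh hhζ
  have hC₁C : (C₁ : ℝ) * ζ ≤ C * ζ := mul_le_mul_of_nonneg_right (by linarith) hζ.le
  have hC₂C : (C₂ : ℝ) * ζ ≤ C * ζ := mul_le_mul_of_nonneg_right (by linarith) hζ.le
  have hC1 : (1 : ℝ) ≤ C := by linarith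
  have hC0 : (0 : ℝ) < C₂ := by linarith
  -- the numbers of the chain
  have hCη1 : C₀ * ηm ≤ ζ / (2 * C₂) := by
    rw [le_div_iff₀ (by positivity)]
    rcases le_or_gt (C₀ * ηm) 0 with h4 | h4
    · have : C₀ * ηm * (2 * C₂) ≤ 0 := mul_nonpos_of_nonpos_of_nonneg h4 (by positivity)
      linarith
    · have : C₂ * (C₀ * ηm) ≤ C * (C₀ * ηm) := mul_le_mul_of_nonneg_right (by linarith) h4.le
      linarith
  have hhalf : ζ / (2 * C₂) ≤ ζ := div_le_self hζ.le (by linarith)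
  have hst : ∀ l ≤ r, Sl l * s + 4 * ρ ≤ ζ / (2 * C₂) := by
    intro l hl
    rw [le_div_iff₀ (by positivity)]
    have h4 : 0 ≤ Sl l * s := mul_nonneg (by linarith [hSl l hl]) hs.le
    have h5 : C₂ * (Sl l * s + 4 * ρ) ≤ C * (Sl l * s + 4 * ρ) :=
      mul_le_mul_of_nonneg_right (by linarith) (by linarith)
    have := hstep l hl
    linarith
  have hlvd : ∀ k k', k ≤ k' → k' ≤ n → ∀ l ≤ r,
      |lv (f k') l - lv (f k) l - Sl l * (((k' : ℝ) - k) * s)| ≤ 2 * ρ := by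
    intro k k' hkk hk' l hl
    have h4 := hlv k' hk' l hl
    have h5 := hlv k (by omega) l hl
    rw [abs_le] at h4 h5 ⊢
    constructor <;> nlinarith [h4.1, h4.2, h5.1, h5.2]
  have hmem : ∀ k ∈ [f 0, f j₁, f n], ∃ j, (j = 0 ∨ j = j₁ ∨ j = n) ∧ k = f j := by
    intro k hk
    simp only [List.mem_cons, List.not_mem_nil, or_false] at hk
    rcases hk with hk | hk | hk
    · exact ⟨0, Or.inl rfl, hk⟩
    · exact ⟨j₁, Or.inr (Or.inl rfl), hk⟩
    · exact ⟨n, Or.inr (Or.inr rfl), hk⟩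
  have hmem2 : ∀ k ∈ [f 0, f j₁], ∃ j, (j = 0 ∨ j = j₁) ∧ k = f j := by
    intro k hk
    simp only [List.mem_cons, List.not_mem_nil, or_false] at hk
    rcases hk with hk | hk
    · exact ⟨0, Or.inl rfl, hk⟩
    · exact ⟨j₁, Or.inr rfl, hk⟩
  have hjn : ∀ j, (j = 0 ∨ j = j₁ ∨ j = n) → j ≤ n := fun j hj => by omega
  have hjn2 : ∀ j, (j = 0 ∨ j = j₁) → j ≤ j₁ := fun j hj => by omega
  obtain ⟨L₃, hL₃⟩ : ∃ L₃ : List ℕ, L₃ = if r = 3 then [f 0] else [] := ⟨_, rfl⟩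
  have hL₃m : ∀ k ∈ L₃, k = f 0 ∧ r = 3 := by
    intro k hk
    rw [hL₃] at hk
    split_ifs at hk with h4
    · exact ⟨by simpa using hk, h4⟩
    · simp at hk
  have hL₃len : L₃.length ≤ 1 := by
    rw [hL₃]
    split_ifs <;> simp
  obtain ⟨κ', hκ', hbas⟩ := hnat (C₀ := C₀) (a := a) (Eb := Eb) (ηm := ηm) (ζ := ζ) (υ := υ)
    (e := e) (h := h) (κ₀ := κ₀) (o := o) (η := η) (σ := σ) (lv := lv) (Dr := Dr) (N := N)
    (M := M) W [f 0, f j₁, f n] [f 0, f j₁, f n] [f 0, f j₁] L₃ (fun _ => f n) (fun _ => f j₁)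
    hP hT hc hDr hh hhζ hυ hκ₀ (hCη1.trans hhalf) (by linarith) (fun k hk => by
      obtain ⟨j, hj, rfl⟩ := hmem k hk
      exact hf j (hjn j hj)) (fun k hk => by
      obtain ⟨j, hj, rfl⟩ := hmem k hk
      obtain ⟨h4, h5⟩ := hroom j (hjn j hj)
      exact ⟨hk, by linarith, fun l hl => ⟨hC₁C.trans (h5 l hl).1, by
        have := (h5 l hl).2
        linarith⟩⟩) (fun k hk => by
      obtain ⟨j, hj, rfl⟩ := hmem2 k hk
      obtain ⟨⟨h4, h5, h6, h7⟩, -⟩ := hW j hj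
      refine ⟨?_, h4, h5, h6, h7⟩
      rcases hj with rfl | rfl <;> simp) (fun k hk l hl hlr => by
      obtain ⟨j, hj, rfl⟩ := hmem2 k hk
      exact (hW j hj).2 l hl hlr) (fun k hk l hl hlr => by
      obtain ⟨j, hj, rfl⟩ := hmem2 k hk
      have := ((hroom j (by have := hjn2 j hj; omega)).2 l hlr).2
      linarith) (fun k hk l hl1 hl2 hlr => by
      obtain ⟨j, hj, rfl⟩ := hmem2 k hk
      refine ⟨by simp, ?_⟩
      have h4 := hdeep l hl1 hl2 hlr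
      have hjj1 := hjn2 j hj
      have h5 := hlvd j n (by omega) le_rfl l (by omega)
      rw [ho j (by omega), ho n le_rfl]
      rw [abs_le] at h5
      have h6 : (Sl l - 1) * (((n : ℝ) - j₁) * s) ≤ (Sl l - 1) * (((n : ℝ) - j) * s) := by
        refine mul_le_mul_of_nonneg_left (mul_le_mul_of_nonneg_right ?_ hs.le)
          (by linarith [hSl l (by omega)])
        have : (j : ℝ) ≤ j₁ := by exact_mod_cast hjj1
        linarith
      have e1 : (Sl l - 1) * (((n : ℝ) - j) * s) = Sl l * (((n : ℝ) - j) * s) -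
        ((n : ℝ) * s - j * s) := by ring
      rw [e1] at h6
      linarith [h5.1, h5.2]) (fun k hk => by
      obtain ⟨rfl, hr3'⟩ := hL₃m k hk
      obtain ⟨h4, h5⟩ := h3 hr3'
      refine ⟨by omega, by simp, by simp, ?_, ?_, fun l hl => ?_⟩
      · rw [ho 0 (by omega), ho j₁ (by omega)]
        have : 0 ≤ (j₁ : ℝ) * s := by positivity
        push_cast
        linarith
      · have h6 := hlvd 0 j₁ (Nat.zero_le _) (by omega) 1 (by omega)
        have h7 := hlvd 0 j₁ (Nat.zero_le _) (by omega) 0 (by omega)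
        rw [abs_le] at h6 h7
        push_cast at h6 h7
        have e1 : (Sl 1 - Sl 0) * (j₁ * s) = Sl 1 * (((j₁ : ℝ) - 0) * s) -
          Sl 0 * (((j₁ : ℝ) - 0) * s) := by ring
        rw [e1] at h4
        linarith [h6.1, h6.2, h7.1, h7.2]
      · have h6 := hlvd 0 j₁ (Nat.zero_le _) (by omega) (l + 1) (by omega)
        have h7 := hlvd 0 j₁ (Nat.zero_le _) (by omega) 0 (by omega)
        rw [abs_le] at h6 h7
        push_cast at h6 h7
        have h8 := h5 l hl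
        have e1 : (Sl (l + 1) - Sl 0) * (j₁ * s) = Sl (l + 1) * (((j₁ : ℝ) - 0) * s) -
          Sl 0 * (((j₁ : ℝ) - 0) * s) := by ring
        rw [e1] at h8
        linarith [h6.1, h6.2, h7.1, h7.2])
  refine ⟨κ', hκ', ?_⟩
  obtain ⟨J₁, hJ₁⟩ := exists_nat_gt (((n : ℝ) + 4) / (ζ / (2 * C₂)))
  refine Bas.mono J₁ hbas ?_
  intro J hJ F A hA z κ b B g₀ G H B₁ hWn hz hκκ hBA hB₁B hκB
  have hJ0 : (0 : ℝ) ≤ J := Nat.cast_nonneg J
  have hζ2 : 0 < ζ / (2 * C₂) := by positivity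
  have hbig : (n : ℝ) + 4 ≤ ζ / (2 * C₂) * J := by
    have h4 : ((n : ℝ) + 4) / (ζ / (2 * C₂)) < J := hJ₁.trans_le (by exact_mod_cast hJ)
    rw [div_lt_iff₀ hζ2] at h4
    linarith
  obtain ⟨Y, hY⟩ : ∃ Y : ℕ, Y = ⌊ζ / C₂ * J⌋₊ := ⟨_, rfl⟩
  have e2 : ζ / C₂ * J = 2 * (ζ / (2 * C₂) * J) := by
    field_simp
  have hn0 : (0 : ℝ) ≤ n := Nat.cast_nonneg n
  have hYR : ζ / (2 * C₂) * J ≤ Y := by
    have h4 := (Nat.lt_floor_add_one (ζ / C₂ * (J : ℝ))).le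
    rw [← hY, e2] at h4
    linarith
  have hYle : C₂ * (Y : ℝ) ≤ ζ * J := by
    have h4 : (Y : ℝ) ≤ ζ / C₂ * J := by
      rw [hY]
      exact Nat.floor_le (by positivity)
    calc C₂ * (Y : ℝ) ≤ C₂ * (ζ / C₂ * J) := mul_le_mul_of_nonneg_left h4 hC0.le
      _ = ζ * J := by field_simp
  have hYn : (n : ℝ) + 3 ≤ Y := by linarith
  have hYn' : n + 3 ≤ Y := by exact_mod_cast hYn
  have hlin : ∀ x : ℝ, x ≤ ζ / (2 * C₂) → x * J ≤ Y := fun x hx =>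
    (mul_le_mul_of_nonneg_right hx hJ0).trans hYR
  obtain ⟨Sv, hSv1, hSv2⟩ := hstar hWn (fun l j => j = 0 ∨ Sl (j - 1) ≤ Sl l) (f := f) (jj := jj)
    (n := n) (Y := Y) hc hf (fun k hk => by
      refine ⟨hjj k hk, hz k hk, ?_⟩
      rw [ho k (by omega), ho (k + 1) (by omega)]
      push_cast
      linarith) (by
      have := hlin _ hCη1
      rw [mul_assoc] at this
      exact this) (by omega) (by
      have h4 : (n : ℝ) ≤ Y := by linarith
      exact h4.trans (by exact_mod_cast Nat.lt_two_pow_self.le)) (fun k hk l hl => by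
      have h4 := hlvd k (k + 1) (by omega) (by omega) l hl
      have h5 := hst l hl
      have h6 : 0 ≤ Sl l * s := mul_nonneg (by linarith [hSl l hl]) hs.le
      push_cast at h4
      have e3 : Sl l * (((k : ℝ) + 1 - k) * s) = Sl l * s := by ring
      rw [e3, abs_le] at h4
      exact ⟨hlin _ (by linarith [h4.1, h4.2]), hlin _ (by linarith [h4.1, h4.2])⟩)
    (fun k k' hkk hk' l hl _ => by
      have h4 := hlvd k k' hkk hk' l hl
      rw [abs_le] at h4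
      have h5 : ((k' : ℝ) - k) * s ≤ Sl l * (((k' : ℝ) - k) * s) := by
        have h6 : (k : ℝ) ≤ k' := by exact_mod_cast hkk
        exact le_mul_of_one_le_left (mul_nonneg (by linarith) hs.le) (hSl l hl)
      have h6 := hlin (2 * ρ) (by
        have h7 := hst l hl
        have h8 : 0 ≤ Sl l * s := mul_nonneg (by linarith [hSl l hl]) hs.le
        linarith)
      rw [ho k (by omega), ho k' hk']
      have h7 : x + (k' : ℝ) * s - (x + k * s) ≤ lv (f k') l - lv (f k) l + 2 * ρ := by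
        linarith [h4.1, h4.2]
      have h8 := mul_le_mul_of_nonneg_right h7 hJ0
      rw [add_mul] at h8
      linarith) (fun k k' _ _ l _ h4 => absurd (Or.inl rfl) h4)
    (fun k k' hkk hk' l hl j hj h4 => by
      simp only [Nat.add_eq_zero_iff, one_ne_zero, and_false, false_or, Nat.add_sub_cancel] at h4
      have h5 := hlvd k k' hkk hk' l hl
      have h6 := hlvd k k' hkk hk' j (by omega)
      rw [abs_le] at h5 h6
      have h7 : Sl j * (((k' : ℝ) - k) * s) ≤ Sl l * (((k' : ℝ) - k) * s) := by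
        have h6 : (k : ℝ) ≤ k' := by exact_mod_cast hkk
        exact mul_le_mul_of_nonneg_right h4 (mul_nonneg (by linarith) hs.le)
      have h8 := hlin (4 * ρ) (by
        have h7 := hst l hl
        have h8 : 0 ≤ Sl l * s := mul_nonneg (by linarith [hSl l hl]) hs.le
        linarith)
      have h9 : lv (f k') j - lv (f k) j ≤ lv (f k') l - lv (f k) l + 4 * ρ := by
        linarith [h5.1, h5.2, h6.1, h6.2]
      have h10 := mul_le_mul_of_nonneg_right h9 hJ0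
      rw [add_mul] at h10
      linarith)
    (fun k k' hkk hk' l hl j hj h4 => by
      simp only [Nat.add_eq_zero_iff, one_ne_zero, and_false, false_or, Nat.add_sub_cancel,
        not_le] at h4
      have h5 := hlvd k k' hkk hk' l hl
      have h6 := hlvd k k' hkk hk' j (by omega)
      rw [abs_le] at h5 h6
      have h7 : Sl l * (((k' : ℝ) - k) * s) ≤ Sl j * (((k' : ℝ) - k) * s) := by
        have h6 : (k : ℝ) ≤ k' := by exact_mod_cast hkk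
        exact mul_le_mul_of_nonneg_right h4.le (mul_nonneg (by linarith) hs.le)
      have h8 := hlin (4 * ρ) (by
        have h7 := hst l hl
        have h8 : 0 ≤ Sl l * s := mul_nonneg (by linarith [hSl l hl]) hs.le
        linarith)
      have h9 : lv (f k') l - lv (f k) l ≤ lv (f k') j - lv (f k) j + 4 * ρ := by
        linarith [h5.1, h5.2, h6.1, h6.2]
      have h10 := mul_le_mul_of_nonneg_right h9 hJ0
      rw [add_mul] at h10
      linarith)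
    (fun k hk l hl => by
      have h4 := ((hroom k hk).2 l hl).2
      have h5 := mul_le_mul_of_nonneg_right h4 hJ0
      have h6 : ζ * J ≤ C * ζ * J := by
        rw [mul_assoc]
        exact le_mul_of_one_le_left (mul_nonneg hζ.le hJ0) hC1
      have h7 : 0 ≤ υ * J := mul_nonneg hυ hJ0
      have e3 : (Eb + lv (f k) l + C * ζ + υ) * J = (Eb + lv (f k) l) * J + C * ζ * J + υ * J := by
        ring
      rw [e3, one_mul] at h5
      linarith)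
  have hYf : C₂ * Y ≤ ⌊ζ * J⌋₊ := Nat.le_floor (by push_cast; exact hYle)
  obtain ⟨B', k1, k2, k3, k4, k5⟩ := hA z κ b B g₀ G H Sv B₁ hWn hκκ hBA hB₁B hκB hSv1
    (fun ω hω k hk => by
      obtain ⟨j, hj, rfl⟩ := hmem k hk
      exact (hSv2 ω (hB₁B ω hω) j (hjn j hj)).mono (pow_le_pow_right₀ (by norm_num) hYf))
  have hp := Pe_nonneg F.isLaw
  have hexp : ⌊C₁ * ζ * J⌋₊ ≤ ⌊C * ζ * J⌋₊ :=
    Nat.floor_le_floor (mul_le_mul_of_nonneg_right hC₁C hJ0)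
  have hexp2 : ⌊C₁ * ζ * J⌋₊ ≤ ⌊(C * ζ + 2 * υ) * J⌋₊ :=
    Nat.floor_le_floor (mul_le_mul_of_nonneg_right (by linarith) hJ0)
  have hexp3 : ⌊(C₁ * ζ + 2 * υ) * J⌋₊ ≤ ⌊(C * ζ + 2 * υ) * J⌋₊ :=
    Nat.floor_le_floor (mul_le_mul_of_nonneg_right (by linarith) hJ0)
  refine ⟨B', k1, ?_, (k3 (f 0) (by simp)).mono hexp, fun l hl => ?_⟩
  · refine k2.trans (mul_le_mul_of_nonneg_right ?_ (hp _))
    have h4 : [f 0, f j₁, f n].length + [f 0, f j₁].length + L₃.length ≤ 6 := by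
      simp only [List.length_cons, List.length_nil]
      omega
    calc (C₁ : ℝ) ^ ([f 0, f j₁, f n].length + [f 0, f j₁].length + L₃.length) ≤
        (C₁ : ℝ) ^ 6 := pow_le_pow_right₀ hC₁R h4
      _ ≤ C ^ 6 := pow_le_pow_left₀ (by linarith) (by linarith) 6
  · rcases Nat.lt_or_ge l 3 with hl3 | hl3
    · obtain ⟨ψ, ψH, -, -, h6⟩ := k4 (f 0) (by simp)
      exact (h6 l (by omega) hl).sub (fun _ h => h) hexp2
    · have hr3' : r = 3 := by omega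
      have hl' : l = 3 := by omega
      subst hl'
      refine (k5 (f 0) ?_).sub (fun _ h => h) hexp3
      rw [hL₃, if_pos hr3']
      simp

end Pool.D2R
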