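import Pool.Agent.H23.D2.Rca

/-!
# The event of a static cell from the record

`natb_list`: natural curvature at finitely many windows, each with its own fine chain.
`fch`, `vch`: the numbering and the places of the chain windows.
-/

set_option autoImplicit false

namespace Pool.D2R

open Finset Real MvPolynomial
open Pool.Agent.H49.Ent Pool.Agent.H32.Dense Pool.STK Pool.KA Pool.KSAT Pool.K2S Pool.PB Pool.S6C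
open Pool.GEN Pool.CHT Pool.CHX Pool.D2F
open Pool.LBT (ThrOf)
open Pool.D2Z (Nc)
open Pool.F5

variable {m J : ℕ}

/-- The index of the window `j` of the chain of the main window `k`. -/
def fch (N₁ n₀ k j : ℕ) : ℕ := if j = 0 then k else N₁ + k * n₀ + j

/-- The places of the windows. -/
noncomputable def vch (N₁ n₀ : ℕ) (s : ℝ) (v : ℕ → ℝ) (u : ℕ) : ℝ :=
  if u ≤ N₁ then v u else v ((u - N₁ - 1) / n₀) + (((u - N₁ - 1) % n₀ : ℕ) + 1) * s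

theorem vch_lo {N₁ n₀ : ℕ} {s : ℝ} {v : ℕ → ℝ} {u : ℕ} (h : u ≤ N₁) : vch N₁ n₀ s v u = v u :=
  if_pos h

theorem vch_fch {N₁ n₀ : ℕ} {s : ℝ} {v : ℕ → ℝ} {k j : ℕ} (hk : k ≤ N₁) (hj : j ≤ n₀) :
    vch N₁ n₀ s v (fch N₁ n₀ k j) = v k + j * s := by
  rcases Nat.eq_zero_or_pos j with h | h
  · subst h
    rw [fch, if_pos rfl, vch_lo hk]
    push_cast
    ring
  · rw [fch, if_neg (by omega), vch, if_neg (by omega)]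
    have e1 : N₁ + k * n₀ + j - N₁ - 1 = (j - 1) + k * n₀ := by omega
    have h1 : j - 1 < n₀ := by omega
    rw [e1, Nat.add_mul_div_right _ _ (by omega), Nat.div_eq_of_lt h1, Nat.add_mul_mod_self_right,
      Nat.mod_eq_of_lt h1, zero_add]
    have e2 : ((j - 1 : ℕ) : ℝ) + 1 = j := by
      have : ((j - 1 : ℕ) : ℝ) + 1 = ((j - 1 + 1 : ℕ) : ℝ) := by push_cast; ring
      rw [this]
      congr 1
      omega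
    rw [e2]

theorem fch_le {N₁ n₀ k j : ℕ} (hk : k ≤ N₁) (hj : j ≤ n₀) :
    fch N₁ n₀ k j ≤ N₁ + (N₁ + 1) * n₀ := by
  unfold fch
  split_ifs with h
  · omega
  · have h1 : k * n₀ ≤ N₁ * n₀ := Nat.mul_le_mul_right _ hk
    have h2 : (N₁ + 1) * n₀ = N₁ * n₀ + n₀ := by ring
    omega

/-- Every window is a window of one of the chains. -/
theorem fch_ex {N₁ n₀ u : ℕ} (hn : 1 ≤ n₀) (hu : u ≤ N₁ + (N₁ + 1) * n₀) (hu1 : N₁ < u) :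
    ∃ k j, k ≤ N₁ ∧ 1 ≤ j ∧ j ≤ n₀ ∧ fch N₁ n₀ k j = u := by
  refine ⟨(u - N₁ - 1) / n₀, (u - N₁ - 1) % n₀ + 1, ?_, by omega, ?_, ?_⟩
  · have h1 : u - N₁ - 1 < (N₁ + 1) * n₀ := by omega
    have := Nat.div_lt_of_lt_mul (by rwa [mul_comm] at h1)
    omega
  · have := Nat.mod_lt (u - N₁ - 1) (show 0 < n₀ by omega)
    omega
  · rw [fch, if_neg (by omega)]
    have h1 := Nat.div_add_mod (u - N₁ - 1) n₀
    have h2 : (u - N₁ - 1) / n₀ * n₀ = n₀ * ((u - N₁ - 1) / n₀) := by ring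
    omega

/-- **Natural curvature at finitely many windows**, each with a fine chain `f k 0, .., f k n`. -/
theorem natb_list (m D r : ℕ) (hD : 1 ≤ D) (hr : 1 ≤ r) (hr3 : r ≤ 3) : ∃ C : ℕ, 1 ≤ C ∧
    ∀ {S : PCl m} {P : List (Fin m) × Fin m → ℝ → ℝ → ℝ} {θ : ℝ} {c : ℕ → Fin m}
    {C₀ a Eb ηm ζ υ e h s ρ : ℝ} {o η σ Sl x : ℕ → ℝ} {Λ lv : ℕ → ℕ → ℝ} {Dr N M n j₁ K : ℕ}
    (W : ℕ → ℚ) (f : ℕ → ℕ → ℕ) (jj : ℕ), ThrOf (chsys m θ) S P → TmH S →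
    Set.InjOn c (Set.Iio (r + 1)) → D ≤ Dr → 0 < h → h ≤ ζ → 0 ≤ υ →
    2 * C * (C₀ * ηm) ≤ ζ → Eb + C * ζ + υ ≤ e → (∀ k < K, ∀ j ≤ n, f k j ≤ N) → jj ≤ M →
    1 ≤ j₁ → j₁ < n → 0 < s → 0 ≤ ρ → (∀ k < K, ∀ j ≤ n, o (f k j) = x k + j * s) →
    (∀ k < K, ∀ j ≤ n, ∀ l ≤ r, |lv (f k j) l - Λ k l - Sl l * (j * s)| ≤ ρ) →
    (∀ l ≤ r, 1 ≤ Sl l) → (∀ l ≤ r, 2 * C * (Sl l * s + 4 * ρ) ≤ ζ) →
    (∀ k < K, ∀ j ≤ n, o (f k j) + C * ζ ≤ 1 ∧ ∀ l ≤ r, C * ζ ≤ lv (f k j) l ∧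
      Eb + lv (f k j) l + C * ζ + υ ≤ 1) →
    (∀ k < K, ∀ j ≤ n, (o (f k j) ≤ W (f k j) ∧ 0 ≤ W (f k j) ∧ W (f k j) < 1 ∧
        e < θ * W (f k j)) ∧
      ∀ l < 3, l < r → bet P c l (W (f k j)) (W (f k j)) + h ≤ 1 ∧
        bet P c l (W (f k j)) (W (f k j)) ≤ lv (f k j) l + ζ) →
    (∀ l, 1 ≤ l → l ≤ 2 → l < r → C * ζ + υ + 2 * ρ ≤ (Sl l - 1) * (((n : ℝ) - j₁) * s)) →
    (r = 3 → (Sl 1 - Sl 0) * (j₁ * s) + C * ζ + 4 * ρ ≤ υ ∧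
      ∀ l < 2, C * ζ + 4 * ρ ≤ (Sl (l + 1) - Sl 0) * (j₁ * s)) → ∀ κ₀ : ℝ, 0 < κ₀ →
    ∃ κ' : ℝ, 0 < κ' ∧ Bas S (fun J F A => ∀ (z : ℕ → ℕ → ℕ) (κ : ℝ) (b : ℕ → ℕ → ℝ)
      (B : F.Ω → Prop) (g₀ : ℕ → ℕ → ℕ)
      (G : ℕ → PtT F → ℕ → MvPolynomial (Option (Fin m)) ℝ)
      (H : ℕ → LnT F → ℕ → MvPolynomial (Option (Fin m)) ℝ) (B₁ : F.Ω → Prop),
      WinB F c r D Dr N M C₀ a Eb ηm o η σ lv b κ z B g₀ G H →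
      (∀ k < K, ∀ j < n, z (f k j) jj = ⌊o (f k (j + 1)) * J⌋₊ - ⌊o (f k j) * J⌋₊) →
      κ ≤ κ' → Sub B A → Sub B₁ B → κ₀ * Pe F.p A ≤ Pe F.p B₁ →
      ∃ B' : F.Ω → Prop, Sub B' B₁ ∧ Pe F.p B₁ ≤ ((C : ℝ) ^ 6) ^ K * Pe F.p B' ∧
        ∀ k < K, ROutB F c r ⌊o (f k 0) * J⌋₊ ⌊C * ζ * J⌋₊ (g₀ (f k 0)) B' (G (f k 0))
          (H (f k 0)) ∧
        ∀ l ≤ r, NatH F c ⌊o (f k 0) * J⌋₊ (g₀ (f k 0)) B' (G (f k 0))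
          ⌊(C * ζ + 2 * υ) * J⌋₊ l) := by
  obtain ⟨C, hC, hch⟩ := natb_ch m D r hD hr hr3
  have hCR : (1 : ℝ) ≤ C := by exact_mod_cast hC
  refine ⟨C, hC, ?_⟩
  intro S P θ c C₀ a Eb ηm ζ υ e h s ρ o η σ Sl x Λ lv Dr N M n j₁ K W f jj hP hT hc hDr hh hhζ
    hυ hCη hEe hf hjj hj1 hjn hs hρ ho hlv hSl hstep hroom hW hdeep h3
  have hmain : ∀ K' ≤ K, ∀ κ₀ : ℝ, 0 < κ₀ →
      ∃ κ' : ℝ, 0 < κ' ∧ Bas S (fun J F A => ∀ (z : ℕ → ℕ → ℕ) (κ : ℝ) (b : ℕ → ℕ → ℝ)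
      (B : F.Ω → Prop) (g₀ : ℕ → ℕ → ℕ)
      (G : ℕ → PtT F → ℕ → MvPolynomial (Option (Fin m)) ℝ)
      (H : ℕ → LnT F → ℕ → MvPolynomial (Option (Fin m)) ℝ) (B₁ : F.Ω → Prop),
      WinB F c r D Dr N M C₀ a Eb ηm o η σ lv b κ z B g₀ G H →
      (∀ k < K', ∀ j < n, z (f k j) jj = ⌊o (f k (j + 1)) * J⌋₊ - ⌊o (f k j) * J⌋₊) →
      κ ≤ κ' → Sub B A → Sub B₁ B → κ₀ * Pe F.p A ≤ Pe F.p B₁ →
      ∃ B' : F.Ω → Prop, Sub B' B₁ ∧ Pe F.p B₁ ≤ ((C : ℝ) ^ 6) ^ K' * Pe F.p B' ∧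
        ∀ k < K', ROutB F c r ⌊o (f k 0) * J⌋₊ ⌊C * ζ * J⌋₊ (g₀ (f k 0)) B' (G (f k 0))
          (H (f k 0)) ∧
        ∀ l ≤ r, NatH F c ⌊o (f k 0) * J⌋₊ (g₀ (f k 0)) B' (G (f k 0))
          ⌊(C * ζ + 2 * υ) * J⌋₊ l) := by
    intro K'
    induction K' with
    | zero =>
      intro _ κ₀ _
      refine ⟨1, one_pos, 1, one_pos, 0, ?_⟩
      intro J _ F A _ z κ b B g₀ G H B₁ _ _ _ _ _ _
      exact ⟨B₁, fun _ h => h, by rw [pow_zero, one_mul], fun k hk => absurd hk (by omega)⟩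
    | succ K' ih =>
      intro hK' κ₀ hκ₀
      have hY : (1 : ℝ) ≤ ((C : ℝ) ^ 6) ^ K' := one_le_pow₀ (one_le_pow₀ hCR)
      have hY0 : (0 : ℝ) < ((C : ℝ) ^ 6) ^ K' := by linarith
      obtain ⟨κ₁, hκ₁, hb₁⟩ := ih (by omega) κ₀ hκ₀
      obtain ⟨κ₂, hκ₂, hb₂⟩ := hch (C₀ := C₀) (a := a) (Eb := Eb) (ηm := ηm) (ζ := ζ) (υ := υ)
        (e := e) (h := h) (κ₀ := κ₀ / ((C : ℝ) ^ 6) ^ K') (s := s) (ρ := ρ) (x := x K') (o := o)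
        (η := η) (σ := σ) (Λ := Λ K') (Sl := Sl) (lv := lv) (Dr := Dr) (N := N) (M := M) (n := n)
        (j₁ := j₁) W (f K') (fun _ => jj) hP hT hc hDr hh hhζ hυ (by positivity) hCη hEe
        (hf K' (by omega)) (fun _ _ => hjj) hj1 hjn hs hρ (ho K' (by omega)) (hlv K' (by omega))
        hSl hstep (hroom K' (by omega)) (fun j hj => hW K' (by omega) j (by omega)) hdeep h3
      refine ⟨min κ₁ κ₂, lt_min hκ₁ hκ₂, Bas.mono 0 (hb₁.and hb₂) ?_⟩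
      rintro J - F A ⟨hA1, hA2⟩ z κ b B g₀ G H B₁ hWn hz hκκ hBA hB₁B hκB
      obtain ⟨B₂, k1, k2, k3⟩ := hA1 z κ b B g₀ G H B₁ hWn (fun k hk => hz k (by omega))
        (hκκ.trans (min_le_left _ _)) hBA hB₁B hκB
      obtain ⟨B₃, l1, l2, l3, l4⟩ := hA2 z κ b B g₀ G H B₂ hWn (hz K' (by omega))
        (hκκ.trans (min_le_right _ _)) hBA (fun ω hω => hB₁B ω (k1 ω hω)) (by
        rw [div_mul_eq_mul_div, div_le_iff₀ hY0]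
        linarith)
      refine ⟨B₃, fun ω hω => k1 ω (l1 ω hω), ?_, fun k hk => ?_⟩
      · rw [pow_succ, mul_assoc]
        exact k2.trans (mul_le_mul_of_nonneg_left l2 hY0.le)
      · rcases Nat.lt_or_ge k K' with h4 | h4
        · obtain ⟨k4, k5⟩ := k3 k h4
          exact ⟨k4.sub l1, fun l hl => (k5 l hl).sub l1 le_rfl⟩
        · have h5 : k = K' := by omega
          subst h5
          exact ⟨l3, l4⟩
  exact hmain K le_rfl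

end Pool.D2R
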