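import Pool.Agent.H23.D2.Rcb

/-!
# From the windows to the event of a static cell

`cev_sub`: smaller events. `Wins.selM`: fewer radii. `wins_cev`: `CEv` from `Wins` and the natural
curvature.
-/

set_option autoImplicit false

namespace Pool.D2R

open Finset Real MvPolynomial
open Pool.Agent.H49.Ent Pool.Agent.H32.Dense Pool.STK Pool.KA Pool.KSAT Pool.K2S Pool.PB Pool.S6C
open Pool.GEN Pool.CHT Pool.CHX Pool.D2F
open Pool.LBT (ThrOf)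
open Pool.D2Z (Nc)
open Pool.F5
open Pool.TN (CEv cev_of)
open Pool.FLF (Fam.sub)

variable {m J : ℕ}

/-- Smaller events, larger `κ`. -/
theorem cev_sub {F : Fam m J} {c : ℕ → Fin m} {r D Dr N M A cl : ℕ} {Sc : ℕ → Prop}
    {w e h pp : ℕ → ℕ} {z g gc gT g₀ : ℕ → ℕ → ℕ} {κ κ₁ κ₂ : ℝ} {B B' : F.Ω → Prop}
    {G : ℕ → PtT F → ℕ → MvPolynomial (Option (Fin m)) ℝ}
    {H : ℕ → LnT F → ℕ → MvPolynomial (Option (Fin m)) ℝ}
    {T : ℕ → PtT F → ℕ → MvPolynomial (Option (Fin m)) ℝ}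
    {TH : ℕ → LnT F → ℕ → MvPolynomial (Option (Fin m)) ℝ}
    {Gt : ℕ → PtT F → MvPolynomial (Option (Fin m)) ℝ}
    {Ht : ℕ → LnT F → MvPolynomial (Option (Fin m)) ℝ}
    (E : CEv F c r D Dr N M A cl Sc w e h pp z g gc gT g₀ κ B G H T TH Gt Ht) (hB : Sub B' B)
    (hP : κ₁ * Pe F.p B ≤ Pe F.p B') (h2 : 0 ≤ κ₂) (hκ : κ ≤ κ₂ * κ₁) :
    CEv F c r D Dr N M A cl Sc w e h pp z g gc gT g₀ κ₂ B' G H T TH Gt Ht where
  inj := E.inj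
  AJ := E.AJ
  wA := E.wA
  evs := fun k hk => (E.evs k hk).sub hB hP h2 hκ
  bal := ⟨fun i hi ω hω => E.bal.inc i hi ω (hB ω hω),
    fun i hi j hj q hq hw hz ω hω => E.bal.bal i hi j hj q hq hw hz ω (hB ω hω)⟩
  row := fun i hi j hj hw q q1 q2 => (E.row i hi j hj hw q q1 q2).sub hB
  lab := fun l hl i hi j hj hw => ⟨fun q q1 q2 => ((E.lab l hl i hi j hj hw).1 q q1 q2).sub hB,
    fun q q1 q2 => ((E.lab l hl i hi j hj hw).2 q q1 q2).sub hB⟩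
  cur := fun k hk ω hω => E.cur k hk ω (hB ω hω)
  ng := E.ng
  room := E.room
  roomT := E.roomT

section

variable {F : Fam m J} {c : ℕ → Fin m} {r D Dr N M : ℕ} {R : ℕ → Prop}
    {C₀ a Eb ηm : ℝ} {o ε p' η σ : ℕ → ℝ} {lv be b : ℕ → ℕ → ℝ} {κ : ℝ} {z : ℕ → ℕ → ℕ}
    {B : F.Ω → Prop} {gc gT g₀ : ℕ → ℕ → ℕ}
    {G : ℕ → PtT F → ℕ → MvPolynomial (Option (Fin m)) ℝ}
    {H : ℕ → LnT F → ℕ → MvPolynomial (Option (Fin m)) ℝ}
    {T : ℕ → PtT F → ℕ → MvPolynomial (Option (Fin m)) ℝ}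
    {TH : ℕ → LnT F → ℕ → MvPolynomial (Option (Fin m)) ℝ}
    {Gt : ℕ → PtT F → MvPolynomial (Option (Fin m)) ℝ}
    {Ht : ℕ → LnT F → MvPolynomial (Option (Fin m)) ℝ}

/-- Fewer radii. -/
theorem Wins.selM (W : Wins F c r D Dr N M R C₀ a Eb ηm o ε p' η σ lv be b κ z B gc gT g₀ G H T
    TH Gt Ht) {M' : ℕ} {z' : ℕ → ℕ → ℕ} (hM : M' ≤ M) (hz : ∀ k ≤ N, ∀ p ≤ M', z' k p = z k p) :
    Wins F c r D Dr N M' R C₀ a Eb ηm o ε p' η σ lv be b κ z' B gc gT g₀ G H T TH Gt Ht where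
  C1 := W.C1
  Eb0 := W.Eb0
  hη := W.hη
  hσ := W.hσ
  hε := W.hε
  ho := W.ho
  hp' := W.hp'
  hgr := W.hgr
  hb := W.hb
  sds := W.sds
  evs := fun k hk =>
    { W.evs k hk with
      rad := fun i hi => by
        rw [hz k hk i hi]
        exact (W.evs k hk).rad i (by omega) }
  row := W.row
  bal := ⟨W.bal.inc, fun k hk k' hk' q hq ho hzq => W.bal.bal k hk k' hk' q (by omega) ho (by
    rw [← hz k hk q hq]
    exact hzq)⟩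

end

/-- **`CEv` from the windows** and the natural curvature. -/
theorem wins_cev (m D r : ℕ) (hD : 1 ≤ D) : ∃ C : ℕ, 1 ≤ C ∧ ∀ {J : ℕ} {F : Fam m J}
    {c : ℕ → Fin m} {Dr N M cl X u : ℕ} {Sc : ℕ → Prop} {C₀ a Eb ηm θ : ℝ}
    {o ε p' η σ : ℕ → ℝ} {lv be b : ℕ → ℕ → ℝ} {κ : ℝ} {z : ℕ → ℕ → ℕ}
    {B : F.Ω → Prop} {gc gT g₀ : ℕ → ℕ → ℕ}
    {G : ℕ → PtT F → ℕ → MvPolynomial (Option (Fin m)) ℝ}
    {H : ℕ → LnT F → ℕ → MvPolynomial (Option (Fin m)) ℝ}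
    {T : ℕ → PtT F → ℕ → MvPolynomial (Option (Fin m)) ℝ}
    {TH : ℕ → LnT F → ℕ → MvPolynomial (Option (Fin m)) ℝ}
    {Gt : ℕ → PtT F → MvPolynomial (Option (Fin m)) ℝ}
    {Ht : ℕ → LnT F → MvPolynomial (Option (Fin m)) ℝ},
    Wins F c r D Dr N M (fun l => ¬ Sc l) C₀ a Eb ηm o ε p' η σ lv be b κ z B gc gT g₀ G H T TH
      Gt Ht → Set.InjOn c (Set.Iio (r + 1)) → D ≤ Dr → 0 < Pe F.p B → 0 ≤ κ → a ≤ 1 →
    (∀ k ≤ N, ∀ l ≤ r, NatH F c ⌊o k * J⌋₊ (g₀ k) B (G k) X l) → X ≤ cl →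
    (∀ i ≤ N, ∀ j ≤ N, ⌊o i * J⌋₊ ≤ ⌊o j * J⌋₊ → o i ≤ o j) →
    C₀ * (ηm * J) ≤ cl → ηm * J + 2 ≤ cl → C * (ηm * J + u + 1) ≤ cl →
    (∀ k ≤ N, ∀ l ≤ r, (Eb + lv k l) * J + (a - o k) * J + 2 * (ηm * J) + 2 + 3 * cl ≤ J) →
    (∀ k ≤ N, ∀ l < r, Sc l → (Eb + be k l) * J + 2 * (ηm * J) + 3 * cl ≤ J) →
    (∀ k ≤ N, ∀ l < r, ηm * J + 1 ≤ lv k l * J) →
    (∀ k ≤ N, ∀ l < r, Sc l → ηm * J + 1 ≤ be k l * J) → 0 ≤ θ →
    (∀ k ≤ N, C * (θ + 1) ≤ ((J : ℝ) - ⌊o k * J⌋₊) * Real.log 2) →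
    Real.exp (C * (θ + 1)) ≤ 2 ^ u →
    κ * ((16 * 4 ^ r) ^ 2) ^ (r * (N + 1) * (N + 1) + 1) ≤ 1 →
    (∀ (B' : F.Ω → Prop) (hB' : 0 < Pe F.p B'), Sub B' B →
      Pe F.p B ≤ ((16 * 4 ^ r) ^ 2) ^ (r * (N + 1) * (N + 1) + 1) * Pe F.p B' →
      (Fam.sub F B' hB').Tm θ) →
    ∃ B' : F.Ω → Prop, Sub B' B ∧
      Pe F.p B ≤ ((16 * 4 ^ r) ^ 2) ^ (r * (N + 1) * (N + 1)) * Pe F.p B' ∧
      CEv F c r D Dr N M ⌊a * J⌋₊ cl Sc (fun k => ⌊o k * J⌋₊)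
        (fun k => ⌊(Eb + σ k + η k) * J⌋₊) (fun k => ⌊η k * J⌋₊) (fun k => ⌊p' k * J⌋₊) z
        (fun k l => ⌊b k l * J⌋₊) gc gT g₀
        (κ * ((16 * 4 ^ r) ^ 2) ^ (r * (N + 1) * (N + 1))) B' G H T TH Gt Ht := by
  obtain ⟨C, hC, hcev⟩ := cev_of m D r hD
  refine ⟨C, hC, ?_⟩
  intro J F c Dr N M cl X u Sc C₀ a Eb ηm θ o ε p' η σ lv be b κ z B gc gT g₀ G H T TH Gt Ht
    W hc hDr hB hκ ha1 hcur hX hmono hcl1 hcl2 hcl3 hroom hroomT hlow hlowT hθ hCJ hexp hκ1 hTm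
  have hJ : (0 : ℝ) ≤ J := Nat.cast_nonneg J
  have hCR : (1 : ℝ) ≤ C := by exact_mod_cast hC
  have hηm0 : 0 ≤ ηm := (W.hη 0 (Nat.zero_le _)).1.trans (W.hη 0 (Nat.zero_le _)).2
  have hηJ0 : 0 ≤ ηm * J := mul_nonneg hηm0 hJ
  have hfe : ∀ k ≤ N, (⌊(Eb + σ k + η k) * J⌋₊ : ℝ) ≤ Eb * J + 2 * (ηm * J) := by
    intro k hk
    obtain ⟨h3, h4⟩ := W.hη k hk
    obtain ⟨h5, h6⟩ := W.hσ k hk
    have t1 : (⌊(Eb + σ k + η k) * J⌋₊ : ℝ) ≤ (Eb + σ k + η k) * J :=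
      Nat.floor_le (mul_nonneg (by linarith [W.Eb0]) hJ)
    have t2 : (Eb + σ k + η k) * (J : ℝ) ≤ (Eb + 2 * ηm) * J :=
      mul_le_mul_of_nonneg_right (by linarith) hJ
    linarith
  have hfo : ∀ k ≤ N, ⌊o k * J⌋₊ ≤ ⌊a * J⌋₊ := fun k hk =>
    Nat.floor_le_floor (mul_le_mul_of_nonneg_right (W.ho k hk).2 hJ)
  have ha0 : 0 ≤ a := (W.ho 0 (Nat.zero_le _)).1.trans (W.ho 0 (Nat.zero_le _)).2
  have hfa : (⌊a * J⌋₊ : ℝ) ≤ a * J := Nat.floor_le (mul_nonneg ha0 hJ)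
  have hfo2 : ∀ k, o k * J ≤ (⌊o k * J⌋₊ : ℝ) + 1 := fun k => (Nat.lt_floor_add_one _).le
  have hAJ : ⌊a * J⌋₊ ≤ J := by
    have h1 : a * (J : ℝ) ≤ 1 * J := mul_le_mul_of_nonneg_right ha1 hJ
    have h2 : (⌊a * J⌋₊ : ℝ) ≤ J := by linarith
    exact_mod_cast h2
  have hgT1 : ∀ k ≤ N, ∀ l < r, (1 : ℝ) ≤ gT k l ∧ (¬ Sc l →
      (gT k l : ℝ) ≤ lv k l * J + (⌊a * J⌋₊ - ⌊o k * J⌋₊)) ∧
      (Sc l → (gT k l : ℝ) ≤ be k l * J) := by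
    intro k hk l hl
    obtain ⟨t1, t2⟩ := W.t_num hk hl
    have hv : (0 : ℝ) ≤ (⌊a * J⌋₊ : ℝ) - ⌊o k * J⌋₊ := by
      have : (⌊o k * J⌋₊ : ℝ) ≤ ⌊a * J⌋₊ := by exact_mod_cast hfo k hk
      linarith
    refine ⟨?_, fun h => (t1 h).2, fun h => (t2 (not_not_intro h)).2⟩
    by_cases h : Sc l
    · have := (t2 (not_not_intro h)).1
      have := hlowT k hk l hl h
      linarith
    · have := (t1 h).1
      have := hlow k hk l hl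
      linarith
  obtain ⟨B', k1, k2, k3⟩ := hcev (F := F) (c := c) (Dr := Dr) (N := N) (M := M) (A := ⌊a * J⌋₊)
    (cl := cl) (k := u) (Sc := Sc) (w := fun k => ⌊o k * J⌋₊)
    (e := fun k => ⌊(Eb + σ k + η k) * J⌋₊) (h := fun k => ⌊η k * J⌋₊)
    (pp := fun k => ⌊p' k * J⌋₊) (z := z) (g := fun k l => ⌊b k l * J⌋₊) (gc := gc) (gT := gT)
    (g₀ := g₀) (κ := κ) (θ := θ) (B := B) (G := G) (H := H) (T := T) (TH := TH) (Gt := Gt)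
    (Ht := Ht) hc hAJ hfo hDr hB W.evs (BalE.sel (f := fun k => k) W.bal (fun k hk => hk)
      (pow_le_pow_right₀ (by norm_num) (by
        have h2 : (⌊C₀ * (ηm * J)⌋₊ : ℝ) ≤ cl :=
          (Nat.floor_le (mul_nonneg (by linarith [W.C1]) hηJ0)).trans hcl1
        exact_mod_cast h2))) (fun i hi j hj hw q q1 q2 => by
      have h3 : C₀ * (η j * J) ≤ C₀ * (ηm * J) :=
        mul_le_mul_of_nonneg_left (mul_le_mul_of_nonneg_right (W.hη j hj).2 hJ)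
          (by linarith [W.C1])
      have h4 : 0 ≤ C₀ * (η j * J) := mul_nonneg (by linarith [W.C1])
        (mul_nonneg (W.hη j hj).1 hJ)
      refine (W.row i hi j hj (hmono i hi j hj hw) q ?_ ?_).mono le_rfl (by positivity)
        (pow_le_pow_right₀ (by norm_num) ?_)
      · have h1 : ((q + cl : ℕ) : ℝ) ≤ (⌊p' i * J⌋₊ : ℕ) := by exact_mod_cast q1
        have h2 : (⌊p' i * J⌋₊ : ℝ) ≤ p' i * J := by
          refine Nat.floor_le (mul_nonneg ?_ hJ)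
          exact (mul_nonneg (by linarith [W.C1]) (W.hη i hi).1).trans (W.hp' i hi)
        push_cast at h1
        linarith
      · have h1 : ((q + cl : ℕ) : ℝ) ≤ (gc j r : ℕ) := by exact_mod_cast q2
        push_cast at h1
        linarith
      · have h2 : (⌊C₀ * (η j * J)⌋₊ : ℝ) ≤ cl := (Nat.floor_le h4).trans (h3.trans hcl1)
        exact_mod_cast h2) (fun k hk ω hω l hl V V' => by
      refine (hcur k hk l hl ω hω (bt F ω) ?_ V V').trans ?_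
      · refine ⟨?_, fun j hj => (W.evs k hk).ball.pos ω hω j (by omega)⟩
        rw [show bt F ω none = F.t ω from rfl, sub_self, abs_zero]
        positivity
      · exact mul_le_mul_of_nonneg_right (div_le_div_of_nonneg_right
          (pow_le_pow_right₀ (by norm_num) hX) (by positivity))
          (mul_nonneg (nrm_nonneg _ _ _ _ _ _ _) (nrm_nonneg _ _ _ _ _ _ _)))
    (fun k hk l hl => by
      obtain ⟨t1, t2, t3, t4, t5, t6⟩ := W.g_num hk hl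
      have hv : ((⌊a * J⌋₊ - ⌊o k * J⌋₊ : ℕ) : ℝ) = ⌊a * J⌋₊ - ⌊o k * J⌋₊ :=
        Nat.cast_sub (hfo k hk)
      refine ⟨?_, ?_, ?_, ?_⟩
      · have h1 : (g₀ k l : ℝ) ≤ ((⌊b k l * J⌋₊ + cl : ℕ) : ℝ) := by
          push_cast
          linarith
        exact_mod_cast h1
      · have h1 : (⌊b k l * J⌋₊ : ℝ) ≤ ((g₀ k l + cl : ℕ) : ℝ) := by
          push_cast
          linarith
        exact_mod_cast h1
      · have h1 : ((⌊b k l * J⌋₊ + (⌊a * J⌋₊ - ⌊o k * J⌋₊) : ℕ) : ℝ) ≤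
            ((gc k l + cl : ℕ) : ℝ) := by
          rw [Nat.cast_add, hv]
          push_cast
          linarith
        exact_mod_cast h1
      · have h1 : (gc k l : ℝ) ≤
            ((⌊b k l * J⌋₊ + (⌊a * J⌋₊ - ⌊o k * J⌋₊) + cl : ℕ) : ℝ) := by
          rw [Nat.cast_add, Nat.cast_add, hv]
          linarith
        exact_mod_cast h1)
    (fun k hk l hl => by
      obtain ⟨t1, t2, t3, t4, t5, t6⟩ := W.g_num hk hl
      have hv : ((⌊a * J⌋₊ - ⌊o k * J⌋₊ : ℕ) : ℝ) = ⌊a * J⌋₊ - ⌊o k * J⌋₊ :=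
        Nat.cast_sub (hfo k hk)
      have h1 : ((⌊(Eb + σ k + η k) * J⌋₊ + ⌊b k l * J⌋₊ + (⌊a * J⌋₊ - ⌊o k * J⌋₊) +
          3 * cl : ℕ) : ℝ) ≤ (J : ℕ) := by
        rw [Nat.cast_add, Nat.cast_add, Nat.cast_add, hv]
        push_cast
        have h2 := hfe k hk
        have h3 := hroom k hk l hl
        have h4 := hfo2 k
        linarith
      exact_mod_cast h1)
    (fun k hk l hl => by
      obtain ⟨-, s1, s2⟩ := hgT1 k hk l hl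
      have h2 := hfe k hk
      have h1 : ((⌊(Eb + σ k + η k) * J⌋₊ + gT k l + 3 * cl : ℕ) : ℝ) ≤ (J : ℕ) := by
        push_cast
        by_cases h : Sc l
        · have h3 := hroomT k hk l hl h
          have h4 := s2 h
          linarith
        · have h3 := hroom k hk l hl.le
          have h4 := s1 h
          have h5 := hfo2 k
          linarith
      exact_mod_cast h1)
    (fun k hk l hl => by exact_mod_cast (hgT1 k hk l hl).1)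
    (fun k hk => by
      have h1 : ((C * (⌊η k * J⌋₊ + u + 1) : ℕ) : ℝ) ≤ (cl : ℕ) := by
        push_cast
        have h2 : (⌊η k * J⌋₊ : ℝ) ≤ ηm * J := (Nat.floor_le (mul_nonneg (W.hη k hk).1 hJ)).trans
          (mul_le_mul_of_nonneg_right (W.hη k hk).2 hJ)
        exact (mul_le_mul_of_nonneg_left (by linarith) (by linarith)).trans hcl3
      exact_mod_cast h1)
    hθ hκ (fun k hk => hCJ k hk) hexp hκ1 hTm
  exact ⟨B', k1, k2, k3⟩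

end Pool.D2R
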