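import Pool.Agent.H23.D2.Rcc

/-!
# The event of a static cell from the record

`RecQ.cev`: from the record `RecQ` of a cell to the event `CEv` at finitely many windows with one
radius. All numbers are in units of `q`.
-/

set_option autoImplicit false

namespace Pool.D2R

open Finset Real MvPolynomial
open Pool.Agent.H49.Ent Pool.Agent.H32.Dense Pool.STK Pool.KA Pool.KSAT Pool.K2S Pool.PB Pool.S6C
open Pool.GEN Pool.CHT Pool.CHX Pool.D2F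
open Pool.LBT (ThrOf)
open Pool.LEV (Law)
open Pool.F5
open Pool.TN (CEv)
open Pool.FLF (Fam.sub)
open Pool.PKG (RecQ PtI KdQ Kd)
open Pool.ISO (lvN)

/-- A rational window near a window of the record. -/
theorem RecQ.ratW {m : ℕ} {S : PCl m} {P P₂ : List (Fin m) × Fin m → ℝ → ℝ → ℝ} {θ θ₂ : ℝ}
    {c : ℕ → Fin m} {i : ℕ} {Pt : ℝ → ℝ → ℝ} {L T : ℕ → ℝ → ℝ → ℝ} {Sl : ℕ → ℝ} {kd : ℕ → Kd}
    {S₀ N : ℕ} {A V : ℕ → ℝ} {S₂ N' : ℕ} {V' : ℕ → ℝ} {Eb e₂ K ε q t : ℝ}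
    (R : RecQ S P P₂ θ θ₂ c i Pt L T Sl kd S₀ N A V S₂ N' V' Eb e₂ K ε q t) {A' x : ℝ}
    (hx : x < A') (hm : (∃ j < N, A j = A' ∧ V j = x) ∨ ∃ j < N', V' j = x) {e : ℝ} (he : 0 < e) :
    ∃ W : ℚ, t + x * q ≤ W ∧ (W : ℝ) ≤ t + A' * q ∧
      ∀ l ≤ i, bet P₂ c l W W ≤ L l (t + x * q) (t + x * q) + e := by
  have hxq : t + x * q < t + A' * q := by
    have := mul_lt_mul_of_pos_right hx R.q0
    linarith
  rcases hm with ⟨j, hj, hA, hV⟩ | ⟨j, hj, hV⟩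
  · obtain ⟨d, hd, h1⟩ := R.rat j hj e he
    rw [hA, hV] at h1
    obtain ⟨W, hW1, hW2⟩ := exists_rat_btwn (show t + x * q < min (t + x * q + d) (t + A' * q) from
      lt_min (by linarith) hxq)
    have hW3 := hW2.le.trans (min_le_left _ _)
    have hW4 := hW2.le.trans (min_le_right _ _)
    exact ⟨W, hW1.le, hW4, (h1 (t + A' * q) W le_rfl (by linarith) hW1.le hW3 hW4).2.1⟩
  · obtain ⟨d, hd, h1⟩ := R.ratc j hj e he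
    rw [hV] at h1
    obtain ⟨W, hW1, hW2⟩ := exists_rat_btwn (show t + x * q < min (t + x * q + d) (t + A' * q) from
      lt_min (by linarith) hxq)
    have hW3 := hW2.le.trans (min_le_left _ _)
    have hW4 := hW2.le.trans (min_le_right _ _)
    exact ⟨W, hW1.le, hW4, h1 W hW1.le hW3⟩

/-- The levels of the ball at a window are at least the window. -/
theorem RecQ.lowL {m : ℕ} {S : PCl m} {P P₂ : List (Fin m) × Fin m → ℝ → ℝ → ℝ} {θ θ₂ : ℝ}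
    {c : ℕ → Fin m} {i : ℕ} {Pt : ℝ → ℝ → ℝ} {L T : ℕ → ℝ → ℝ → ℝ} {Sl : ℕ → ℝ} {kd : ℕ → Kd}
    {S₀ N : ℕ} {A V : ℕ → ℝ} {S₂ N' : ℕ} {V' : ℕ → ℝ} {Eb e₂ K ε q t : ℝ}
    (R : RecQ S P P₂ θ θ₂ c i Pt L T Sl kd S₀ N A V S₂ N' V' Eb e₂ K ε q t) {x : ℝ}
    (hm : (∃ j < N, V j = x) ∨ ∃ j < N', V' j = x) (h0 : 0 ≤ t + x * q) (h1 : t + x * q ≤ 1) :
    ∀ l ≤ i, t + x * q ≤ L l (t + x * q) (t + x * q) := by
  intro l hl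
  rw [R.lv l hl]
  unfold lvN
  split_ifs with h
  · exact R.thr.low _ _ _ h0 le_rfl h1
  · rcases hm with ⟨j, hj, hV⟩ | ⟨j, hj, hV⟩
    · obtain ⟨ρ, vs, e, e₀, E, sg, Q, d1, -⟩ := (R.pt j hj).2
      rw [hV] at d1
      exact d1.self.low
    · obtain ⟨ρ, vs, e, e₀, E, sg, Q, d1, -⟩ := R.ptc j hj
      rw [hV] at d1
      exact d1.self.low

/-- The slopes are at least one. -/
theorem RecQ.sl1 {m : ℕ} {S : PCl m} {P P₂ : List (Fin m) × Fin m → ℝ → ℝ → ℝ} {θ θ₂ : ℝ}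
    {c : ℕ → Fin m} {i : ℕ} {Pt : ℝ → ℝ → ℝ} {L T : ℕ → ℝ → ℝ → ℝ} {Sl : ℕ → ℝ} {kd : ℕ → Kd}
    {S₀ N : ℕ} {A V : ℕ → ℝ} {S₂ N' : ℕ} {V' : ℕ → ℝ} {Eb e₂ K ε q t : ℝ}
    (R : RecQ S P P₂ θ θ₂ c i Pt L T Sl kd S₀ N A V S₂ N' V' Eb e₂ K ε q t) :
    ∀ l ≤ i, 1 ≤ Sl l := by
  intro l hl
  rcases Nat.lt_or_ge l i with h | h
  · have h1 := R.kd l h
    unfold KdQ at h1
    split at h1
    · exact h1.ge
    · exact h1.1.le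
    · linarith [h1.1]
  · have h1 : l = i := by omega
    rw [h1]
    linarith [R.s2]

/-- The constants of the chain. -/
theorem chain_num {i : ℕ} {Sl : ℕ → ℝ} {y gp C₂ : ℝ} (hy : 0 < y) (hgp : 0 < gp) (hC₂ : 1 ≤ C₂)
    (h1 : ∀ l, 1 ≤ l → l ≤ 2 → l < i → 1 < Sl l) (h3 : i = 3 → Sl 0 < Sl 1 ∧ Sl 0 < Sl 2) :
    ∃ (n₀ j₁ : ℕ) (s ζ υ : ℝ), 1 ≤ j₁ ∧ j₁ < n₀ ∧ 0 < s ∧ 0 < ζ ∧ 0 ≤ υ ∧ (n₀ + 1) * s ≤ gp ∧
      8 * (C₂ * ζ + 2 * υ) ≤ y ∧ 8 * ζ ≤ y ∧ ∀ ε : ℝ, 0 ≤ ε → 16 * (C₂ * ε) ≤ ζ →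
      (∀ l ≤ 3, 2 * C₂ * (Sl l * s + 4 * ε) ≤ ζ) ∧
      (∀ l, 1 ≤ l → l ≤ 2 → l < i →
        C₂ * ζ + υ + 2 * ε ≤ (Sl l - 1) * (((n₀ : ℝ) - j₁) * s)) ∧
      (i = 3 → (Sl 1 - Sl 0) * (j₁ * s) + C₂ * ζ + 4 * ε ≤ υ ∧
        ∀ l < 2, C₂ * ζ + 4 * ε ≤ (Sl (l + 1) - Sl 0) * (j₁ * s)) := by
  obtain ⟨β, hβ0, hβ1, hβ3⟩ : ∃ β : ℝ, 0 < β ∧ (∀ l, 1 ≤ l → l ≤ 2 → l < i → β ≤ Sl l - 1) ∧
      (i = 3 → ∀ l < 2, β ≤ Sl (l + 1) - Sl 0) := by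
    obtain ⟨b1, hb1, hb1'⟩ : ∃ b : ℝ, 0 < b ∧ (1 < i → b ≤ Sl 1 - 1) := by
      by_cases h : 1 < i
      · exact ⟨Sl 1 - 1, by linarith [h1 1 le_rfl (by norm_num) h], fun _ => le_rfl⟩
      · exact ⟨1, one_pos, fun h' => absurd h' h⟩
    obtain ⟨b2, hb2, hb2'⟩ : ∃ b : ℝ, 0 < b ∧ (2 < i → b ≤ Sl 2 - 1) := by
      by_cases h : 2 < i
      · exact ⟨Sl 2 - 1, by linarith [h1 2 (by norm_num) le_rfl h], fun _ => le_rfl⟩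
      · exact ⟨1, one_pos, fun h' => absurd h' h⟩
    obtain ⟨b3, hb3, hb3'⟩ : ∃ b : ℝ, 0 < b ∧ (i = 3 → b ≤ Sl 1 - Sl 0 ∧ b ≤ Sl 2 - Sl 0) := by
      by_cases h : i = 3
      · obtain ⟨k1, k2⟩ := h3 h
        exact ⟨min (Sl 1 - Sl 0) (Sl 2 - Sl 0), lt_min (by linarith) (by linarith),
          fun _ => ⟨min_le_left _ _, min_le_right _ _⟩⟩
      · exact ⟨1, one_pos, fun h' => absurd h' h⟩
    refine ⟨min b1 (min b2 b3), lt_min hb1 (lt_min hb2 hb3), fun l k1 k2 k3 => ?_,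
      fun k1 l k2 => ?_⟩
    · have : l = 1 ∨ l = 2 := by omega
      rcases this with rfl | rfl
      · exact (min_le_left _ _).trans (hb1' k3)
      · exact (min_le_right _ _).trans ((min_le_left _ _).trans (hb2' k3))
    · obtain ⟨k3, k4⟩ := hb3' k1
      have k5 : min b1 (min b2 b3) ≤ b3 := (min_le_right _ _).trans (min_le_right _ _)
      have : l = 0 ∨ l = 1 := by omega
      rcases this with rfl | rfl
      · exact k5.trans k3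
      · exact k5.trans k4
  obtain ⟨Sm, hSm1, hSm⟩ : ∃ Sm : ℝ, 1 ≤ Sm ∧ ∀ l ≤ 3, |Sl l| ≤ Sm := by
    refine ⟨1 + ∑ l ∈ range 4, |Sl l|, by
      have := Finset.sum_nonneg (s := range 4) (f := fun l => |Sl l|) (fun _ _ => abs_nonneg _)
      linarith, fun l hl => ?_⟩
    have := Finset.single_le_sum (s := range 4) (f := fun l => |Sl l|) (fun _ _ => abs_nonneg _)
      (Finset.mem_range.2 (Nat.lt_succ_of_le hl))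
    linarith
  have hC0 : 0 < C₂ := by linarith
  have hS0 : 0 < Sm := by linarith
  obtain ⟨σ₀, hσ₀⟩ : ∃ σ₀ : ℝ, σ₀ = 1 / (4 * C₂ * Sm) := ⟨_, rfl⟩
  have hσ : 0 < σ₀ := by rw [hσ₀]; positivity
  have hσS : 4 * C₂ * Sm * σ₀ = 1 := by rw [hσ₀]; field_simp
  obtain ⟨j₁, hj₁⟩ : ∃ j₁ : ℕ, j₁ = ⌈(C₂ + 1) / (β * σ₀)⌉₊ := ⟨_, rfl⟩
  have hj₁1 : 1 ≤ j₁ := by
    rw [hj₁]
    exact Nat.one_le_ceil_iff.2 (by positivity)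
  have hj₁2 : C₂ + 1 ≤ β * (j₁ * σ₀) := by
    have h4 : (C₂ + 1) / (β * σ₀) ≤ j₁ := by rw [hj₁]; exact Nat.le_ceil _
    rw [div_le_iff₀ (by positivity)] at h4
    linarith
  obtain ⟨υ₀, hυ₀⟩ : ∃ υ₀ : ℝ, υ₀ = 2 * Sm * (j₁ * σ₀) + C₂ + 1 := ⟨_, rfl⟩
  have hυ0 : 0 < υ₀ := by rw [hυ₀]; positivity
  obtain ⟨n₁, hn₁⟩ : ∃ n₁ : ℕ, n₁ = ⌈(C₂ + υ₀ + 1) / (β * σ₀)⌉₊ := ⟨_, rfl⟩
  have hn₁1 : 1 ≤ n₁ := by
    rw [hn₁]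
    exact Nat.one_le_ceil_iff.2 (by positivity)
  have hn₁2 : C₂ + υ₀ + 1 ≤ β * (n₁ * σ₀) := by
    have h4 : (C₂ + υ₀ + 1) / (β * σ₀) ≤ n₁ := by rw [hn₁]; exact Nat.le_ceil _
    rw [div_le_iff₀ (by positivity)] at h4
    linarith
  obtain ⟨n₀, hn₀⟩ : ∃ n₀ : ℕ, n₀ = j₁ + n₁ := ⟨_, rfl⟩
  have hn₀R : (n₀ : ℝ) - j₁ = n₁ := by rw [hn₀]; push_cast; ring
  obtain ⟨ζ, hζ⟩ : ∃ ζ : ℝ, ζ = min (y / (8 * (C₂ + 2 * υ₀ + 1))) (gp / ((n₀ + 1) * σ₀)) :=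
    ⟨_, rfl⟩
  have hζ0 : 0 < ζ := by
    rw [hζ]
    exact lt_min (by positivity) (by positivity)
  have hζ1 : ζ * (8 * (C₂ + 2 * υ₀ + 1)) ≤ y := by
    have : ζ ≤ y / (8 * (C₂ + 2 * υ₀ + 1)) := by rw [hζ]; exact min_le_left _ _
    rwa [le_div_iff₀ (by positivity)] at this
  have hζ2 : ζ * (((n₀ : ℝ) + 1) * σ₀) ≤ gp := by
    have : ζ ≤ gp / ((n₀ + 1) * σ₀) := by rw [hζ]; exact min_le_right _ _
    rwa [le_div_iff₀ (by positivity)] at this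
  refine ⟨n₀, j₁, σ₀ * ζ, ζ, υ₀ * ζ, hj₁1, by omega, by positivity, hζ0, by positivity, by linarith,
    ?_, ?_, ?_⟩
  · nlinarith
  · have : 0 ≤ ζ * (8 * (C₂ + 2 * υ₀)) := by positivity
    nlinarith
  intro ε hε hεζ
  have hε4 : 4 * ε ≤ ζ := by nlinarith
  have hjσ : 0 ≤ (j₁ : ℝ) * (σ₀ * ζ) := by positivity
  refine ⟨fun l hl => ?_, fun l k1 k2 k3 => ?_, fun k1 => ⟨?_, fun l k2 => ?_⟩⟩
  · have h4 : Sl l * (σ₀ * ζ) ≤ Sm * (σ₀ * ζ) :=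
      mul_le_mul_of_nonneg_right ((le_abs_self _).trans (hSm l hl)) (by positivity)
    have h5 : 2 * C₂ * (Sm * (σ₀ * ζ)) = ζ / 2 := by
      have : 2 * C₂ * (Sm * (σ₀ * ζ)) = (4 * C₂ * Sm * σ₀) * ζ / 2 := by ring
      rw [this, hσS, one_mul]
    have h6 : 2 * C₂ * (Sl l * (σ₀ * ζ)) ≤ ζ / 2 := by
      rw [← h5]
      exact mul_le_mul_of_nonneg_left h4 (by positivity)
    linarith
  · have h4 := hβ1 l k1 k2 k3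
    rw [hn₀R]
    have h5 : β * (n₁ * (σ₀ * ζ)) ≤ (Sl l - 1) * (n₁ * (σ₀ * ζ)) :=
      mul_le_mul_of_nonneg_right h4 (by positivity)
    have h6 : (C₂ + υ₀ + 1) * ζ ≤ β * (n₁ * σ₀) * ζ := mul_le_mul_of_nonneg_right hn₁2 hζ0.le
    have h7 : β * (n₁ * σ₀) * ζ = β * (n₁ * (σ₀ * ζ)) := by ring
    linarith
  · have h4 : (Sl 1 - Sl 0) * (j₁ * (σ₀ * ζ)) ≤ 2 * Sm * (j₁ * (σ₀ * ζ)) := by
      refine mul_le_mul_of_nonneg_right ?_ hjσ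
      have k4 := hSm 1 (by norm_num)
      have k5 := hSm 0 (by norm_num)
      rw [abs_le] at k4 k5
      linarith [k4.2, k5.1]
    have h5 : υ₀ * ζ = 2 * Sm * (j₁ * (σ₀ * ζ)) + C₂ * ζ + ζ := by rw [hυ₀]; ring
    rw [h5]
    linarith
  · have h4 := hβ3 k1 l k2
    have h5 : β * (j₁ * (σ₀ * ζ)) ≤ (Sl (l + 1) - Sl 0) * (j₁ * (σ₀ * ζ)) :=
      mul_le_mul_of_nonneg_right h4 hjσ
    have h6 : (C₂ + 1) * ζ ≤ β * (j₁ * σ₀) * ζ := mul_le_mul_of_nonneg_right hj₁2 hζ0.le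
    have h7 : β * (j₁ * σ₀) * ζ = β * (j₁ * (σ₀ * ζ)) := by ring
    linarith

/-- The positive differences of finitely many numbers are bounded below. -/
theorem gap_fin (N : ℕ) (o : ℕ → ℝ) : ∃ δ : ℝ, 0 < δ ∧ ∀ i ≤ N, ∀ j ≤ N, o j < o i →
    δ ≤ o i - o j := by
  classical
  obtain ⟨s, hs⟩ : ∃ s : Finset (ℕ × ℕ), s = (range (N + 1) ×ˢ range (N + 1)).filter
      (fun x => o x.2 < o x.1) := ⟨_, rfl⟩
  have hmem : ∀ i ≤ N, ∀ j ≤ N, o j < o i → (i, j) ∈ s := fun i hi j hj h => by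
    rw [hs, Finset.mem_filter, Finset.mem_product, mem_range, mem_range]
    exact ⟨⟨by simp only; omega, by simp only; omega⟩, h⟩
  rcases s.eq_empty_or_nonempty with h | h
  · exact ⟨1, one_pos, fun i hi j hj hij => absurd (hmem i hi j hj hij) (by simp [h])⟩
  · obtain ⟨x, hx, hmin⟩ := s.exists_min_image (fun x => o x.1 - o x.2) h
    refine ⟨o x.1 - o x.2, ?_, fun i hi j hj hij => hmin (i, j) (hmem i hi j hj hij)⟩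
    rw [hs, Finset.mem_filter] at hx
    linarith [hx.2]

end Pool.D2R
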