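import Pool.Agent.H23.D2.Fam

/-!
# The row label against the ball chart
-/

set_option autoImplicit false

namespace Pool.D2R

open Finset Real MvPolynomial
open Pool.Agent.H49.Ent Pool.Agent.H32.Dense Pool.STK Pool.KA Pool.KSAT Pool.K2S Pool.PB Pool.S6C
open Pool.GEN Pool.CHT Pool.CHX Pool.ISO
open Pool.FLF (Fam.sub)
open Pool.PB.Trl (rt rt_mem t_rt)

variable {m J : ℕ}

/-- The numbers. -/
theorem num_r0 {N₀ C₁ C₅ h s k r : ℕ} {C₂ C₆ C₇ C₈ : ℝ} (h2 : C₂ ≤ 2 ^ N₀) (h6 : C₆ ≤ 2 ^ N₀)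
    (h7 : C₇ ≤ 2 ^ N₀) (h8 : C₈ ≤ 2 ^ N₀) (hr : (r : ℝ) ≤ 2 ^ N₀) (h2' : 0 ≤ C₂) (h7' : 0 ≤ C₇) :
    ∃ Y : ℝ, 2 ≤ Y ∧ Y ^ 10 = 2 ^ (10 * (2 * N₀ + 2 * C₁ + C₅ + 4) * (h + s + k + 1)) ∧
      C₂ ≤ Y ∧ C₆ ≤ Y ∧ C₈ ≤ Y ∧ (r : ℝ) ≤ Y ∧ (2 : ℝ) ^ (C₁ * (k + 2)) ≤ Y ∧ (2 : ℝ) ^ k ≤ Y ∧
      (2 : ℝ) ^ s ≤ Y ∧ C₇ * 2 ^ (k + 1) ≤ Y ∧ 1 + C₂ * (C₇ * 2 ^ (k + 1)) ≤ Y ∧
      (2 : ℝ) ^ C₅ * 2 ^ (h + 2) ≤ Y ∧ (2 : ℝ) ^ (h + 3) ≤ Y := by
  obtain ⟨E, hE⟩ : ∃ E, E = h + s + k + 1 := ⟨_, rfl⟩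
  obtain ⟨n, hn⟩ : ∃ n, n = 2 * N₀ + 2 * C₁ + C₅ + 4 := ⟨_, rfl⟩
  have hE1 : 1 ≤ E := by omega
  have hp : ∀ {x : ℕ}, x ≤ n * E → (2 : ℝ) ^ x ≤ 2 ^ (n * E) := fun hx =>
    pow_le_pow_right₀ (by norm_num) hx
  have hNE : N₀ ≤ n * E := by
    calc N₀ ≤ n := by omega
      _ ≤ n * E := Nat.le_mul_of_pos_right _ hE1
  have h7k : C₇ * 2 ^ (k + 1) ≤ 2 ^ (N₀ + k + 1) := by
    rw [add_assoc, pow_add 2 N₀]
    exact mul_le_mul_of_nonneg_right h7 (by positivity)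
  refine ⟨2 ^ (n * E), ?_, ?_, h2.trans (hp hNE), h6.trans (hp hNE), h8.trans (hp hNE),
    hr.trans (hp hNE), hp ?_, hp ?_, hp ?_, h7k.trans (hp ?_), ?_, ?_, hp ?_⟩
  · calc (2 : ℝ) = 2 ^ 1 := (pow_one 2).symm
      _ ≤ _ := hp (by nlinarith)
  · rw [← pow_mul, hn, hE]
    congr 1
    ring
  · have e1 : n * E = 2 * N₀ * E + 2 * C₁ * E + C₅ * E + 4 * E := by rw [hn]; ring
    have e2 : C₁ * (k + 2) ≤ 2 * C₁ * E := by
      rw [hE]
      nlinarith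
    omega
  · nlinarith
  · nlinarith
  · have e1 : n * E = 2 * N₀ * E + 2 * C₁ * E + C₅ * E + 4 * E := by rw [hn]; ring
    have e2 : N₀ ≤ 2 * N₀ * E := by nlinarith
    omega
  · have h3 : C₂ * (C₇ * 2 ^ (k + 1)) ≤ 2 ^ N₀ * 2 ^ (N₀ + k + 1) :=
      mul_le_mul h2 h7k (by positivity) (by positivity)
    rw [← pow_add] at h3
    have h4 : (1 : ℝ) ≤ 2 ^ (N₀ + (N₀ + k + 1)) := one_le_pow₀ (by norm_num)
    have h5 : 1 + C₂ * (C₇ * 2 ^ (k + 1)) ≤ 2 ^ (N₀ + (N₀ + k + 1) + 1) := by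
      rw [pow_succ (2 : ℝ) (N₀ + (N₀ + k + 1))]
      linarith
    refine h5.trans (hp ?_)
    have e1 : n * E = 2 * N₀ * E + 2 * C₁ * E + C₅ * E + 4 * E := by rw [hn]; ring
    have e2 : 2 * N₀ ≤ 2 * N₀ * E := Nat.le_mul_of_pos_right _ hE1
    omega
  · rw [← pow_add]
    refine hp ?_
    have e1 : n * E = 2 * N₀ * E + 2 * C₁ * E + C₅ * E + 4 * E := by rw [hn]; ring
    have e2 : C₅ ≤ C₅ * E := Nat.le_mul_of_pos_right _ hE1
    omega
  · have e1 : n * E = 2 * N₀ * E + 2 * C₁ * E + C₅ * E + 4 * E := by rw [hn]; ring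
    omega

/-- **The row label against the ball chart.** -/
theorem r0_fam (m D r : ℕ) : ∃ C : ℕ, 1 ≤ C ∧ ∀ {J : ℕ} {F : Fam m J} {c : ℕ → Fin m}
    {w a v e h k s p : ℕ} {θ κ : ℝ} {g₀ g : ℕ → ℕ} {A : F.Ω → Prop}
    {G₀ : PtT F → ℕ → MvPolynomial (Option (Fin m)) ℝ}
    {H₀ : LnT F → ℕ → MvPolynomial (Option (Fin m)) ℝ}
    {Gt : PtT F → MvPolynomial (Option (Fin m)) ℝ} {Ht : LnT F → MvPolynomial (Option (Fin m)) ℝ}
    (_ : 0 < Pe F.p A), Set.InjOn c (Set.Iio (r + 1)) → w ≤ a → a ≤ J →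
    RDat F c r D w a v e g₀ g p A G₀ H₀ Gt Ht →
    RelvF F c r (a + v) a (fun l => g l + v) D h κ A
      (fun y l => Gno (c l) J J (fun y => G₀ y l) y) → κ ≤ 1 / 2 →
    (∀ l ≤ r, g l ≤ g₀ l + s) → p ≤ g r + v → (∀ l ≤ r, e + g₀ l + C * (k + 1) ≤ J) → 0 ≤ θ →
    (∀ (B : F.Ω → Prop) (hB : 0 < Pe F.p B), Sub B A → Pe F.p A / 8 ≤ Pe F.p B →
      (Fam.sub F B hB).Tm θ) →
    C * (θ + 1) ≤ ((J : ℝ) - a) * Real.log 2 → Real.exp (C * (θ + 1)) ≤ 2 ^ k →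
    ∃ B : F.Ω → Prop, Sub B A ∧ Pe F.p A / 8 ≤ Pe F.p B ∧
      ROut F c r w a v g₀ g p (2 ^ (C * (h + s + k + 1))) B G₀ H₀ Ht := by
  classical
  obtain ⟨C₁, hC₁, hpn⟩ := path_nat m D r
  obtain ⟨C₂, hC₂, hbt⟩ := box_two r D D
  obtain ⟨C₃, hC₃, hrm⟩ := rem_fam m (D + 1) (r + 1)
  obtain ⟨C₄, hC₄, hrn⟩ := rem_fam m (D + r * D) (r + 1)
  obtain ⟨C₅, hbs⟩ := box_smp D r
  obtain ⟨C₆, hC₆, hcs⟩ := cmp_smp D r
  obtain ⟨C₇, hC₇, hdb⟩ := dif_ball D r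
  obtain ⟨C₈, hC₈, hder⟩ := der_one (D + r * D)
  obtain ⟨N₀, hN₀⟩ := pow_unbounded_of_one_lt (C₂ + C₆ + C₇ + C₈ + r) (one_lt_two (α := ℝ))
  obtain ⟨C, hC⟩ : ∃ C : ℕ, C = 10 * (2 * N₀ + 2 * C₁ + C₅ + 4) + ⌈C₃⌉₊ + ⌈C₄⌉₊ := ⟨_, rfl⟩
  have hC3 : C₃ ≤ C := by
    refine (Nat.le_ceil C₃).trans ?_
    rw [hC]
    push_cast
    have : (0 : ℝ) ≤ 10 * (2 * N₀ + 2 * C₁ + C₅ + 4) + (⌈C₄⌉₊ : ℝ) := by positivity
    linarith
  have hC4 : C₄ ≤ C := by
    refine (Nat.le_ceil C₄).trans ?_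
    rw [hC]
    push_cast
    have : (0 : ℝ) ≤ 10 * (2 * N₀ + 2 * C₁ + C₅ + 4) + (⌈C₃⌉₊ : ℝ) := by positivity
    linarith
  refine ⟨C, by omega, ?_⟩
  intro J F c w a v e h k s p θ κ g₀ g A G₀ H₀ Gt Ht hA hc hwa haJ hd hR hκ hgs hpg hJ hθ hTm hCJ
    hexp
  have hr0 : (0 : ℝ) ≤ r := Nat.cast_nonneg r
  obtain ⟨Y, hY2, hY10, y2, y6, y8, yr, y1, yk, ys, y7, y27, y5, yh⟩ := num_r0 (C₁ := C₁)
    (C₅ := C₅) (h := h) (s := s) (k := k) (r := r) (N₀ := N₀) (C₂ := C₂) (C₆ := C₆) (C₇ := C₇)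
    (C₈ := C₈) (by linarith) (by linarith) (by linarith) (by linarith) (by linarith)
    (by linarith) (by linarith)
  have hYU : Y ^ 10 ≤ 2 ^ (C * (h + s + k + 1)) := by
    rw [hY10]
    refine pow_le_pow_right₀ (by norm_num) (Nat.mul_le_mul_right _ ?_)
    omega
  obtain ⟨U, hU⟩ : ∃ U : ℝ, U = 2 ^ (C * (h + s + k + 1)) := ⟨_, rfl⟩
  rw [← hU] at hYU ⊢
  have hY0 : 0 < Y := by linarith
  have hY1 : 1 ≤ Y := by linarith
  have hYn : ∀ n ≤ 10, Y ^ n ≤ U := fun n hn => (pow_le_pow_right₀ hY1 hn).trans hYU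
  have hθ1 : 0 ≤ θ + 1 := by linarith
  have hexp3 : Real.exp (C₃ * (θ + 1)) ≤ 2 ^ k := (Real.exp_le_exp.2
    (mul_le_mul_of_nonneg_right hC3 hθ1)).trans hexp
  have hexp4 : Real.exp (C₄ * (θ + 1)) ≤ 2 ^ k := (Real.exp_le_exp.2
    (mul_le_mul_of_nonneg_right hC4 hθ1)).trans hexp
  have hc' : Set.InjOn c (Set.Iio r) := hc.mono fun x hx => by
    rw [Set.mem_Iio] at hx ⊢
    omega
  have hball := hd.ball
  have htop := hd.top
  have hp := Pe_nonneg F.isLaw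
  -- the heights of the lines
  obtain ⟨B₁, b1, b2, b3⟩ := hrm J F A hA a (fun l s => dv a (fun s _ => H₀ s l) (c l) s)
    (fun l => 2 / 2 ^ g₀ l) θ haJ (fun l _ s => natDegree_dv a
      (G := fun s (_ : Fin m) => H₀ s l) (fun s _ => hball.degH s l) (c l) s)
    (fun l _ => by positivity) hθ (hTm A hA (fun _ h => h) (by linarith [hp A]))
    ((mul_le_mul_of_nonneg_right hC3 hθ1).trans hCJ) (fun ω hω l hl => by
      show |(dv a (fun s _ => H₀ s l) (c l) (slam F a ω)).eval (rt F a ω)| ≤ _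
      rw [eval_dv F haJ (fun s _ => H₀ s l) ω (c l)]
      have h1 := hball.pos ω hω l hl
      have h2 := hball.agr ω hω l hl _ (hball.self hω hl.le)
      have e1 : F.x ω (c l) - eval (bt F ω) (H₀ (slam F a ω) l) =
          (F.x ω (c l) - eval (bt F ω) (G₀ (ptr F J ω) l)) +
          (eval (bt F ω) (G₀ (ptr F J ω) l) - eval (bt F ω) (H₀ (slam F a ω) l)) := by ring
      rw [e1]
      refine (abs_add_le _ _).trans ((add_le_add h1 h2).trans (le_of_eq ?_))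
      ring)
  have hB₁0 : 0 < Pe F.p B₁ := by linarith
  have hdv : ∀ ω, B₁ ω → ∀ l ≤ r, ∀ τ ∈ Set.Icc (0 : ℝ) 1,
      |(dv a (fun s _ => H₀ s l) (c l) (slam F a ω)).eval τ| ≤ 2 ^ (k + 1) / 2 ^ g₀ l := by
    intro ω hω l hl τ hτ
    refine (b3 ω hω l (by omega) τ hτ).trans ?_
    rw [pow_succ, mul_div_assoc]
    exact mul_le_mul_of_nonneg_right hexp3 (by positivity)
  -- no relation
  obtain ⟨GG, hGG⟩ : ∃ GG : PtT F → ℕ → MvPolynomial (Option (Fin m)) ℝ,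
      GG = fun y l => Gno (c l) J J (fun y => G₀ y l) y := ⟨_, rfl⟩
  obtain ⟨HH, hHH⟩ : ∃ HH : LnT F → ℕ → MvPolynomial (Option (Fin m)) ℝ,
      HH = fun s l => Hno (c l) (fun s => H₀ s l) s := ⟨_, rfl⟩
  rw [← hGG] at hR
  rw [← hGG, ← hHH] at htop
  have hagr : ∀ ω, A ω → ∀ b, NBx c (GG (ptr F J ω)) (fun l => g l + v) (a + v) (F.t ω) r b →
      |eval b (Gt (ptr F J ω)) - eval b (Ht (slam F w ω))| ≤ 1 / 2 ^ p := by
    intro ω hω b hb
    rw [hGG] at hb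
    exact hd.agr ω hω b hb
  have hpr : (1 : ℝ) / 2 ^ (g r + v) ≤ 1 / 2 ^ p := inv_mono hpg
  obtain ⟨Δ, hΔ⟩ : ∃ Δ : LnT F → MvPolynomial (Option (Fin m)) ℝ,
      Δ = fun s => Ht (co (a - w) s) - HH s r := ⟨_, rfl⟩
  have hΔω : ∀ ω, Δ (slam F a ω) = Ht (slam F w ω) - HH (slam F a ω) r := by
    intro ω
    rw [hΔ]
    show Ht (co (a - w) (slam F a ω)) - _ = _
    rw [co_slam F hwa haJ]
  have hΔd : ∀ s, (Δ s).totalDegree ≤ D := by
    intro s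
    rw [hΔ]
    exact (totalDegree_sub _ _).trans (max_le (hd.dH _) (htop.degH s r))
  have hΔp : ∀ s, DepC c r (Δ s) := by
    intro s b b' h1 h2
    rw [hΔ]
    show eval b (Ht (co (a - w) s) - HH s r) = eval b' (Ht (co (a - w) s) - HH s r)
    rw [map_sub, map_sub, hd.pH _ b b' h1 h2, htop.depH s r b b' h1 h2]
  obtain ⟨B₂, d1, d2, d3⟩ := hR B₁ b1 (by
      calc κ * Pe F.p A ≤ 1 / 2 * Pe F.p A := mul_le_mul_of_nonneg_right hκ (hp A)
        _ ≤ Pe F.p B₁ := by linarith) (fun y => Gt y - GG y r) Δ (2 / 2 ^ p)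
    (fun y => (totalDegree_sub _ _).trans (max_le (hd.dG y) (htop.degG y r))) hΔd
    (fun y b b' h1 h2 => by
      rw [map_sub, map_sub, hd.pG y b b' h1 h2, htop.depG y r b b' h1 h2]) hΔp (by positivity)
    (fun ω hω => by
      rw [map_sub]
      have h1 := hd.pos ω (b1 ω hω)
      have h2 := (htop.pos ω (b1 ω hω) r (Nat.lt_succ_self r)).trans hpr
      have e1 : eval (bt F ω) (Gt (ptr F J ω)) - eval (bt F ω) (GG (ptr F J ω) r) =
          (F.x ω (c r) - eval (bt F ω) (GG (ptr F J ω) r)) -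
          (F.x ω (c r) - eval (bt F ω) (Gt (ptr F J ω))) := by ring
      rw [e1]
      refine (abs_sub _ _).trans ((add_le_add h2 h1).trans (le_of_eq ?_))
      ring)
    (fun ω hω b hb => by
      rw [hΔω, map_sub, map_sub]
      have h1 := hagr ω (b1 ω hω) b hb
      have h2 := (htop.agr ω (b1 ω hω) r (Nat.lt_succ_self r) b hb).trans hpr
      have e1 : eval b (Gt (ptr F J ω)) - eval b (GG (ptr F J ω) r) -
          (eval b (Ht (slam F w ω)) - eval b (HH (slam F a ω) r)) =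
          (eval b (Gt (ptr F J ω)) - eval b (Ht (slam F w ω))) -
          (eval b (GG (ptr F J ω) r) - eval b (HH (slam F a ω) r)) := by ring
      rw [e1]
      refine (abs_sub _ _).trans ((add_le_add h1 h2).trans (le_of_eq ?_))
      ring)
  have hB₂0 : 0 < Pe F.p B₂ := by linarith
  have hBA2 : Sub B₂ A := fun ω hω => b1 ω (d1 ω hω)
  obtain ⟨M₁, hM₁⟩ : ∃ M₁ : ℝ, M₁ = 2 ^ (h + 2) / 2 ^ p := ⟨_, rfl⟩
  have h2h : (1 : ℝ) ≤ 2 ^ h := one_le_pow₀ (by norm_num)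
  have hM₁0 : 0 < M₁ := by rw [hM₁]; positivity
  -- the difference on the box of the point
  have hΔ1 : ∀ ω, B₂ ω → ∀ b, NBx c (GG (ptr F J ω)) (fun l => g l + v) (a + v) (F.t ω) r b →
      |eval b (Δ (slam F a ω))| ≤ M₁ := by
    intro ω hω b hb
    have h1 := d3 ω hω b hb
    have h2 := hagr ω (hBA2 ω hω) b hb
    have h3 := (htop.agr ω (hBA2 ω hω) r (Nat.lt_succ_self r) b hb).trans hpr
    rw [map_sub] at h1
    rw [hΔω, map_sub]
    have e1 : eval b (Ht (slam F w ω)) - eval b (HH (slam F a ω) r) =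
        (eval b (Gt (ptr F J ω)) - eval b (GG (ptr F J ω) r)) -
        (eval b (Gt (ptr F J ω)) - eval b (Ht (slam F w ω))) +
        (eval b (GG (ptr F J ω) r) - eval b (HH (slam F a ω) r)) := by ring
    rw [e1]
    refine (abs_add_le _ _).trans ((add_le_add (abs_sub _ _) le_rfl).trans ?_)
    have e2 : 2 ^ h * (2 / (2 : ℝ) ^ p) + 1 / 2 ^ p + 1 / 2 ^ p ≤ M₁ := by
      rw [hM₁, pow_add]
      have e3 : (2 : ℝ) ^ h * (2 / 2 ^ p) + 1 / 2 ^ p + 1 / 2 ^ p = (2 ^ h * 2 + 2) / 2 ^ p := by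
        ring
      rw [e3]
      refine div_le_div_of_nonneg_right ?_ (by positivity)
      linarith
    linarith
  -- on the box of the line
  obtain ⟨M₂, hM₂⟩ : ∃ M₂ : ℝ, M₂ = 2 ^ C₅ * M₁ := ⟨_, rfl⟩
  have hM₂0 : 0 < M₂ := by rw [hM₂]; positivity
  have hM₂Y : M₂ * 2 ^ p ≤ Y := by
    rw [hM₂, hM₁]
    have : (2 : ℝ) ^ C₅ * (2 ^ (h + 2) / 2 ^ p) * 2 ^ p = 2 ^ C₅ * 2 ^ (h + 2) := by
      field_simp
    rw [this]
    exact y5
  have hΔ2 : ∀ ω, B₂ ω → ∀ b, NBx c (HH (slam F a ω)) (fun l => g l + v) (a + v) (F.t ω) r b →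
      |eval b (Δ (slam F a ω))| ≤ M₂ := by
    intro ω hω b hb
    rw [hM₂]
    exact hbs (G := GG (ptr F J ω)) (ψ := HH (slam F a ω)) hc' (htop.degG _) (htop.depG _)
      (htop.degH _) (htop.depH _) (hΔp _) (hΔd _) hM₁0.le (fun j hj b hb =>
        htop.agr ω (hBA2 ω hω) j (by omega) b hb) (hΔ1 ω hω) b hb
  -- the natural components
  have hex : ∀ s : LnT F, ∃ (n0 : MvPolynomial (Option (Fin m)) ℝ)
      (nj : ℕ → MvPolynomial (Option (Fin m)) ℝ), n0.totalDegree ≤ D + r * D ∧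
      (∀ j, (nj j).totalDegree ≤ D + r * D) ∧ ∀ b W : Option (Fin m) → ℝ, dd (Δ s) b W =
        eval b n0 * W none + ∑ j ∈ range r, eval b (nj j) *
          (W (some (c j)) - dd (HH s j) b W) := fun s =>
    nat_cov D (htop.degH s) (htop.depH s) r hc' D (fun o => pderiv o (Δ s))
      (fun o => totalDegree_pdσ (hΔd s) o) (fun k hk b => pd_zero (hΔp s) hk b)
  choose n0 nj hn0 hnj hid using hex
  have hown : ∀ ω l, F.x ω (c l) = eval (bt F ω) (HH (slam F a ω) l) := by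
    intro ω l
    rw [hHH]
    exact (Hno_own F (c l) a (fun s => H₀ s l) ω).symm
  have hcmp : ∀ ω, B₂ ω → |eval (bt F ω) (n0 (slam F a ω))| ≤ C₆ * M₂ * 2 ^ (a + v) ∧
      ∀ j < r, |eval (bt F ω) (nj (slam F a ω) j)| ≤ C₆ * M₂ * 2 ^ (g j + v) := by
    intro ω hω
    exact hcs (x := bt F ω) (g := fun l => g l + v) hc' (htop.degH _) (htop.depH _) (hΔp _)
      (hΔd _) hM₂0.le (hΔ2 ω hω) (fun l _ => by
        have : bt F ω (some (c l)) = F.x ω (c l) := rfl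
        rw [this, ← hown, sub_self, abs_zero]
        positivity) (hid _)
  -- on the window
  obtain ⟨B₃, f1, f2, f3⟩ := hrn J F B₂ hB₂0 a (fun i s => if i = 0 then
      MvPolynomial.aeval (lc a s) (n0 s) else MvPolynomial.aeval (lc a s) (nj s (i - 1)))
    (fun i => if i = 0 then C₆ * M₂ * 2 ^ (a + v) else C₆ * M₂ * 2 ^ (g (i - 1) + v)) θ haJ
    (fun i _ s => by
      show (if i = 0 then MvPolynomial.aeval (lc a s) (n0 s) else
        MvPolynomial.aeval (lc a s) (nj s (i - 1))).natDegree ≤ _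
      split_ifs
      · exact Pool.KBX.natDegree_aeval_le _ _ (natDegree_lc a s) (hn0 s)
      · exact Pool.KBX.natDegree_aeval_le _ _ (natDegree_lc a s) (hnj s _))
    (fun i _ => by
      show 0 < (if i = 0 then C₆ * M₂ * 2 ^ (a + v) else C₆ * M₂ * 2 ^ (g (i - 1) + v))
      split_ifs <;> positivity) hθ (hTm B₂ hB₂0 hBA2 (by linarith))
    ((mul_le_mul_of_nonneg_right hC4 hθ1).trans hCJ) (fun ω hω i hi => by
      have hbe : (fun o => (lc a (slam F a ω) o).eval (rt F a ω)) = bt F ω :=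
        funext fun o => eval_lc F haJ ω o
      show |(if i = 0 then MvPolynomial.aeval (lc a (slam F a ω)) (n0 (slam F a ω)) else
        MvPolynomial.aeval (lc a (slam F a ω)) (nj (slam F a ω) (i - 1))).eval (rt F a ω)| ≤
        (if i = 0 then C₆ * M₂ * 2 ^ (a + v) else C₆ * M₂ * 2 ^ (g (i - 1) + v))
      split_ifs with h0
      · rw [Pool.KBX.eval_aeval_poly, hbe]
        exact (hcmp ω hω).1
      · rw [Pool.KBX.eval_aeval_poly, hbe]
        exact (hcmp ω hω).2 (i - 1) (by omega))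
  have hBA3 : Sub B₃ A := fun ω hω => hBA2 ω (f1 ω hω)
  have hB31 : Sub B₃ B₁ := fun ω hω => d1 ω (f1 ω hω)
  have hw0 : ∀ ω, B₃ ω → ∀ τ ∈ Set.Icc (0 : ℝ) 1,
      |(MvPolynomial.aeval (lc a (slam F a ω)) (n0 (slam F a ω))).eval τ| ≤
        2 ^ k * (C₆ * M₂ * 2 ^ (a + v)) := by
    intro ω hω τ hτ
    have h1 := f3 ω hω 0 (by omega) τ hτ
    simp only [if_true] at h1
    exact h1.trans (mul_le_mul_of_nonneg_right hexp4 (by positivity))
  have hwj : ∀ ω, B₃ ω → ∀ j < r, ∀ τ ∈ Set.Icc (0 : ℝ) 1,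
      |(MvPolynomial.aeval (lc a (slam F a ω)) (nj (slam F a ω) j)).eval τ| ≤
        2 ^ k * (C₆ * M₂ * 2 ^ (g j + v)) := by
    intro ω hω j hj τ hτ
    have h1 := f3 ω hω (j + 1) (by omega) τ hτ
    simp only [Nat.add_sub_cancel, if_neg (Nat.succ_ne_zero j)] at h1
    exact h1.trans (mul_le_mul_of_nonneg_right hexp4 (by positivity))
  -- the velocities
  have hJ1 : ∀ l ≤ r, e + g₀ l + C₁ * (k + 1 + 1) ≤ J := by
    intro l hl
    refine le_trans (Nat.add_le_add_left ?_ _) (hJ l hl)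
    have : C₁ * (k + 1 + 1) ≤ 2 * C₁ * (k + 1) := by nlinarith
    refine this.trans (Nat.mul_le_mul_right _ ?_)
    omega
  have hvel := fun ω ν (hω : B₃ ω) (hν : B₃ ν) (hων : ptr F J ω = ptr F J ν) =>
    hpn hc haJ hball hJ1 ω ν (hBA3 ω hω) (hBA3 ν hν) hων (hdv ν (hB31 ν hν))
  obtain ⟨N₁, hN₁⟩ : ∃ N₁ : ℝ, N₁ = 2 ^ (C₁ * (k + 2)) := ⟨_, rfl⟩
  have hN₁1 : 1 ≤ N₁ := by rw [hN₁]; exact one_le_pow₀ (by norm_num)
  have hN₁Y : N₁ ≤ Y := by rw [hN₁]; exact y1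
  have hk2 : k + 1 + 1 = k + 2 := rfl
  rw [hk2, ← hN₁] at hvel
  have ha0 : (0 : ℝ) < 2 ^ a := by positivity
  have hnone : ∀ ν : F.Ω, |bd F ν none| = 1 := fun ν => abs_one
  -- the corrected line labels against the ball chart
  obtain ⟨M₃, hM₃⟩ : ∃ M₃ : ℝ, M₃ = C₇ * 2 ^ (k + 1) := ⟨_, rfl⟩
  have hM₃0 : 0 ≤ M₃ := by rw [hM₃]; positivity
  rw [← hM₃] at y7 y27
  have hdif : ∀ ω, B₃ ω → ∀ l ≤ r, ∀ b, NBx c (G₀ (ptr F J ω)) g₀ a (F.t ω) l b →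
      |eval b (HH (slam F a ω) l - G₀ (ptr F J ω) l)| ≤ M₃ / 2 ^ g₀ l := by
    intro ω hω l hl b hb
    rw [map_sub, hHH, hM₃]
    exact hdb haJ hball ω (hBA3 ω hω) l hl (hdv ω (hB31 ω hω) l hl) b hb
  have hN₁0 : 0 < N₁ := by linarith
  have hnat : ∀ ω ν, B₃ ω → B₃ ν → ptr F J ω = ptr F J ν → ∀ l ≤ r,
      |dd (HH (slam F a ω) l - G₀ (ptr F J ω) l) (bt F ω) (bd F ν)| ≤
        C₂ * (M₃ / 2 ^ g₀ l) * (N₁ * 2 ^ a) ∧
      ∀ Z : Option (Fin m) → ℝ, Z none = 0 →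
        (∀ l < r, Z (some (c l)) - dd (G₀ (ptr F J ω) l) (bt F ω) Z =
          hs (G₀ (ptr F J ω) l) (bt F ω) (bd F ω) (bd F ν)) →
        |hs (HH (slam F a ω) l - G₀ (ptr F J ω) l) (bt F ω) (bd F ω) (bd F ν) +
          dd (HH (slam F a ω) l - G₀ (ptr F J ω) l) (bt F ω) Z| ≤
            C₂ * (M₃ / 2 ^ g₀ l) * (N₁ * 2 ^ a) ^ 2 := by
    intro ω ν hω hν hων l hl
    have h1 := fun ν (hν : B₃ ν) (hων : ptr F J ω = ptr F J ν) => hvel ω ν hω hν hων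
    have hn : ∀ ν : F.Ω, |bd F ν none| ≤ N₁ * 2 ^ a / 2 ^ a := by
      intro ν
      rw [hnone, mul_div_assoc, div_self ha0.ne', mul_one]
      exact hN₁1
    have h2 := hbt (c := c) (ψ := G₀ (ptr F J ω)) (Q := HH (slam F a ω) l - G₀ (ptr F J ω) l)
      (g := g₀) (a := a) (M := M₃ / 2 ^ g₀ l) (L := N₁ * 2 ^ a) (x := bt F ω) hc'
      (hball.degG _) (hball.depG _) (fun b b' h3 h4 => by
        rw [map_sub, map_sub, (htop.depH _ l).mono hl b b' h3 h4,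
          (hball.depG _ l).mono hl b b' h3 h4])
      ((totalDegree_sub _ _).trans (max_le (htop.degH _ _) (hball.degG _ _)))
      (by positivity) (by positivity)
      (fun b hb => hdif ω hω l hl b (hb.mono le_rfl hl))
      (fun j hj => hball.pos ω (hBA3 ω hω) j (by omega))
    exact ⟨(h2 (bd F ν) (hn ν) fun j hj => (h1 ν hν hων j (by omega)).1).1, fun Z hZ0 hZ =>
      (h2 (bd F ω) (hn ω) fun j hj => (h1 ω hω rfl j (by omega)).1).2 (bd F ν) (hn ν)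
        (fun j hj => (h1 ν hν hων j (by omega)).1) Z hZ0 hZ⟩
  -- the powers
  have hpow : ∀ l ≤ r, (2 : ℝ) ^ (g l + v) / 2 ^ g₀ l ≤ 2 ^ s * 2 ^ v := by
    intro l hl
    rw [div_le_iff₀ (by positivity), ← pow_add, ← pow_add]
    refine pow_le_pow_right₀ (by norm_num) ?_
    have := hgs l hl
    omega
  have hlast : (1 : ℝ) / 2 ^ g₀ r ≤ 2 ^ s * 2 ^ v / 2 ^ p := by
    rw [div_le_div_iff₀ (by positivity) (by positivity), one_mul, ← pow_add, ← pow_add]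
    refine pow_le_pow_right₀ (by norm_num) ?_
    have := hgs r le_rfl
    omega
  have hp0 : (0 : ℝ) < 2 ^ p := by positivity
  have hM₂p : M₂ ≤ Y / 2 ^ p := by
    rw [le_div_iff₀ hp0]
    exact hM₂Y
  have hs0 : (0 : ℝ) < 2 ^ s := by positivity
  have hv0 : (0 : ℝ) < 2 ^ v := by positivity
  have hk0 : (0 : ℝ) < 2 ^ k := by positivity
  have hkC : 2 ^ k * (C₆ * M₂) ≤ Y ^ 3 / 2 ^ p := by
    have h1 : C₆ * M₂ ≤ Y * (Y / 2 ^ p) := mul_le_mul y6 hM₂p hM₂0.le hY0.le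
    calc 2 ^ k * (C₆ * M₂) ≤ Y * (Y * (Y / 2 ^ p)) := mul_le_mul yk h1 (by positivity) hY0.le
      _ = _ := by ring
  refine ⟨B₃, hBA3, by linarith, ?_⟩
  have hGGd : ∀ ω l x W, dd (GG (ptr F J ω) l) x W = dd (G₀ (ptr F J ω) l) x W := by
    intro ω l x W
    rw [hGG]
    exact dd_Gno (J := J) (c l) (fun y => G₀ y l) (ptr F J ω) x W
  -- the box
  have hbox : ∀ ω, B₃ ω → ∀ b, NBx c (GG (ptr F J ω)) (fun l => g l + v) (a + v) (F.t ω) r b →
      |eval b (Ht (slam F w ω) - GG (ptr F J ω) r)| ≤ 2 ^ (h + 3) / 2 ^ p := by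
    intro ω hω b hb
    have h1 := hΔ1 ω (f1 ω hω) b hb
    have h2 := (htop.agr ω (hBA3 ω hω) r (Nat.lt_succ_self r) b hb).trans hpr
    rw [hΔω, map_sub] at h1
    rw [map_sub]
    have e1 : eval b (Ht (slam F w ω)) - eval b (GG (ptr F J ω) r) =
        (eval b (Ht (slam F w ω)) - eval b (HH (slam F a ω) r)) -
        (eval b (GG (ptr F J ω) r) - eval b (HH (slam F a ω) r)) := by ring
    rw [e1]
    refine (abs_sub _ _).trans ((add_le_add h1 h2).trans ?_)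
    rw [hM₁, ← add_div]
    refine div_le_div_of_nonneg_right ?_ hp0.le
    have e2 : (2 : ℝ) ^ (h + 2) = 4 * 2 ^ h := by rw [pow_add]; ring
    have e3 : (2 : ℝ) ^ (h + 3) = 8 * 2 ^ h := by rw [pow_add]; ring
    rw [e2, e3]
    linarith
  refine ⟨fun ω ν hω hν hων l hl => ?_, fun ω ν hω hν hων l hl => ?_, fun ω hω b hb => ?_,
    fun ω ν hω hν hων => ?_, fun ω ν hω hν hων Z hZ0 hZ => ?_, fun ω hω τ hτ V => ?_⟩
  · refine ((hvel ω ν hω hν hων l hl).1).trans (div_le_div_of_nonneg_right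
      (mul_le_mul_of_nonneg_right (hN₁Y.trans ?_) ha0.le) (by positivity))
    have := hYn 1 (by norm_num)
    rwa [pow_one] at this
  · refine ((hvel ω ν hω hν hων l hl).2).trans (div_le_div_of_nonneg_right
      (mul_le_mul_of_nonneg_right (hN₁Y.trans ?_) (by positivity)) (by positivity))
    have := hYn 1 (by norm_num)
    rwa [pow_one] at this
  · have h1 := hbox ω hω b (by rw [hGG]; exact hb)
    have e1 : GG (ptr F J ω) r = Gno (c r) J J (fun y => G₀ y r) (ptr F J ω) := by rw [hGG]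
    rw [map_sub, e1] at h1
    refine h1.trans (div_le_div_of_nonneg_right (yh.trans ?_) hp0.le)
    have := hYn 1 (by norm_num)
    rwa [pow_one] at this
  · -- the fibre
    have hn : |bd F ν none| ≤ N₁ * 2 ^ s * 2 ^ (a + v) / 2 ^ (a + v) := by
      rw [hnone, mul_div_assoc, div_self (by positivity), mul_one]
      exact one_le_mul_of_one_le_of_one_le hN₁1 (one_le_pow₀ (by norm_num))
    have h2 := (hbt (c := c) (ψ := GG (ptr F J ω)) (Q := Ht (slam F w ω) - GG (ptr F J ω) r)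
      (g := fun l => g l + v) (a := a + v) (M := 2 ^ (h + 3) / 2 ^ p)
      (L := N₁ * 2 ^ s * 2 ^ (a + v)) (x := bt F ω) hc' (htop.degG _) (htop.depG _)
      (fun b b' h3 h4 => by
        rw [map_sub, map_sub, hd.pH _ b b' h3 h4, htop.depG _ r b b' h3 h4])
      ((totalDegree_sub _ _).trans (max_le (hd.dH _) (htop.degG _ _)))
      (by positivity) (by positivity) (hbox ω hω)
      (fun j hj => htop.pos ω (hBA3 ω hω) j (by omega)) (bd F ν) hn (fun j hj => by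
        rw [hGGd]
        refine (hvel ω ν hω hν hων j hj.le).1.trans ?_
        have h3 := hpow j hj.le
        rw [div_le_iff₀ (by positivity)] at h3
        rw [div_le_div_iff₀ (by positivity) (by positivity)]
        calc N₁ * 2 ^ a * 2 ^ (g j + v) ≤ N₁ * 2 ^ a * (2 ^ s * 2 ^ v * 2 ^ g₀ j) :=
              mul_le_mul_of_nonneg_left h3 (by positivity)
          _ = N₁ * 2 ^ s * 2 ^ (a + v) * 2 ^ g₀ j := by rw [pow_add]; ring)).1
    rw [dd_sub, hGGd, ← dd_sub] at h2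
    refine h2.trans ?_
    have h3 : C₂ * (2 ^ (h + 3) * (N₁ * 2 ^ s)) ≤ U := by
      calc C₂ * (2 ^ (h + 3) * (N₁ * 2 ^ s)) ≤ Y * (Y * (Y * Y)) :=
            mul_le_mul y2 (mul_le_mul yh (mul_le_mul hN₁Y ys hs0.le hY0.le) (by positivity)
              hY0.le) (by positivity) hY0.le
        _ = Y ^ 4 := by ring
        _ ≤ U := hYn 4 (by norm_num)
    calc C₂ * (2 ^ (h + 3) / 2 ^ p) * (N₁ * 2 ^ s * 2 ^ (a + v)) =
          C₂ * (2 ^ (h + 3) * (N₁ * 2 ^ s)) * 2 ^ (a + v) / 2 ^ p := by ring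
      _ ≤ U * 2 ^ (a + v) / 2 ^ p := div_le_div_of_nonneg_right
          (mul_le_mul_of_nonneg_right h3 (by positivity)) hp0.le
  · -- the second derivative
    obtain ⟨x, hx⟩ : ∃ x, x = bt F ω := ⟨_, rfl⟩
    obtain ⟨W, hW⟩ : ∃ W, W = bd F ω := ⟨_, rfl⟩
    obtain ⟨V, hV⟩ : ∃ V, V = bd F ν := ⟨_, rfl⟩
    obtain ⟨S, hS⟩ : ∃ S, S = slam F a ω := ⟨_, rfl⟩
    obtain ⟨y, hy⟩ : ∃ y, y = ptr F J ω := ⟨_, rfl⟩
    have hnatω := hnat ω ν hω hν hων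
    have hvelω := hvel ω ν hω hν hων
    have hcmpω := hcmp ω (f1 ω hω)
    have hrt1 : |rt F a ω| ≤ 1 := by
      have := rt_mem F a ω
      rw [abs_of_nonneg this.1]
      exact this.2
    have hd0 : |dd (n0 S) x W| ≤ C₈ * (2 ^ k * (C₆ * M₂ * 2 ^ (a + v))) * 2 ^ a := by
      have h1 := hder _ _ (Pool.KBX.natDegree_aeval_le _ _ (natDegree_lc a (slam F a ω))
        (hn0 (slam F a ω))) (hw0 ω hω) _ hrt1
      rw [dd_own haJ, abs_mul, abs_of_pos (show (0 : ℝ) < 1 / 2 ^ a by positivity),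
        one_div_mul_eq_div, div_le_iff₀ ha0] at h1
      rw [hS, hx, hW]
      exact h1
    have hdj : ∀ j < r, |dd (nj S j) x W| ≤ C₈ * (2 ^ k * (C₆ * M₂ * 2 ^ (g j + v))) * 2 ^ a := by
      intro j hj
      have h1 := hder _ _ (Pool.KBX.natDegree_aeval_le _ _ (natDegree_lc a (slam F a ω))
        (hnj (slam F a ω) j)) (hwj ω hω j hj) _ hrt1
      rw [dd_own haJ, abs_mul, abs_of_pos (show (0 : ℝ) < 1 / 2 ^ a by positivity),
        one_div_mul_eq_div, div_le_iff₀ ha0] at h1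
      rw [hS, hx, hW]
      exact h1
    have hid1 := hess_id (hid (slam F a ω)) (bt F ω) (bd F ω) (bd F ν)
    have hid2 := hid (slam F a ω) (bt F ω) Z
    rw [← hx, ← hW, ← hV, ← hS] at hid1
    rw [← hx, ← hS, hZ0, mul_zero, zero_add] at hid2
    rw [← hx, ← hW, ← hV, ← hS, ← hy] at hnatω
    rw [← hx, ← hV, ← hy] at hvelω
    rw [← hx, ← hS] at hcmpω
    rw [← hx, ← hW, ← hV, ← hy] at hZ ⊢
    have hVn : V none = 1 := by rw [hV]; rfl
    rw [hVn, mul_one] at hid1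
    obtain ⟨E, hE⟩ : ∃ E : ℝ, E = 2 ^ (a + v) * 2 ^ a / 2 ^ p := ⟨_, rfl⟩
    have hE0 : 0 < E := by rw [hE]; positivity
    have hEv : ∀ t : ℝ, t * (2 ^ s * 2 ^ v) * (2 ^ a) ^ 2 / 2 ^ p = t * 2 ^ s * E := by
      intro t
      rw [hE, pow_add]
      ring
    -- the sum
    have hsum : hs (Δ S) x W V + dd (Δ S) x Z = dd (n0 S) x W + ∑ j ∈ range r,
        (dd (nj S j) x W * (V (some (c j)) - dd (HH S j) x V) -
          eval x (nj S j) * (hs (HH S j - G₀ y j) x W V + dd (HH S j - G₀ y j) x Z)) := by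
      rw [hid1, hid2, add_assoc, ← Finset.sum_add_distrib]
      congr 1
      refine Finset.sum_congr rfl fun j hj => ?_
      rw [hs_sub, dd_sub, ← hZ j (Finset.mem_range.1 hj)]
      ring
    have ht0 : |dd (n0 S) x W| ≤ Y ^ 4 * E := by
      refine hd0.trans ?_
      have h1 : C₈ * (2 ^ k * (C₆ * M₂)) ≤ Y * (Y ^ 3 / 2 ^ p) :=
        mul_le_mul y8 hkC (by positivity) hY0.le
      calc C₈ * (2 ^ k * (C₆ * M₂ * 2 ^ (a + v))) * 2 ^ a =
            C₈ * (2 ^ k * (C₆ * M₂)) * (2 ^ (a + v) * 2 ^ a) := by ring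
        _ ≤ Y * (Y ^ 3 / 2 ^ p) * (2 ^ (a + v) * 2 ^ a) :=
            mul_le_mul_of_nonneg_right h1 (by positivity)
        _ = Y ^ 4 * E := by rw [hE]; ring
    have htj : ∀ j ∈ range r, |dd (nj S j) x W * (V (some (c j)) - dd (HH S j) x V) -
        eval x (nj S j) * (hs (HH S j - G₀ y j) x W V + dd (HH S j - G₀ y j) x Z)| ≤
          2 * Y ^ 7 * E := by
      intro j hj
      have hj' := Finset.mem_range.1 hj
      have hg0 : (0 : ℝ) < 2 ^ g₀ j := by positivity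
      have h1 : |V (some (c j)) - dd (HH S j) x V| ≤ Y ^ 2 * 2 ^ a / 2 ^ g₀ j := by
        have h2 := (hvelω j hj'.le).1
        have h3 := (hnatω j hj'.le).1
        rw [dd_sub] at h3
        have e1 : V (some (c j)) - dd (HH S j) x V = (V (some (c j)) - dd (G₀ y j) x V) -
            (dd (HH S j) x V - dd (G₀ y j) x V) := by ring
        rw [e1]
        refine (abs_sub _ _).trans ((add_le_add h2 h3).trans ?_)
        have e2 : N₁ * 2 ^ a / 2 ^ g₀ j + C₂ * (M₃ / 2 ^ g₀ j) * (N₁ * 2 ^ a) =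
            (1 + C₂ * M₃) * N₁ * 2 ^ a / 2 ^ g₀ j := by ring
        rw [e2]
        refine div_le_div_of_nonneg_right (mul_le_mul_of_nonneg_right ?_ ha0.le) hg0.le
        rw [sq]
        exact mul_le_mul y27 hN₁Y hN₁0.le hY0.le
      have h2 : |dd (nj S j) x W| ≤ Y ^ 4 / 2 ^ p * (2 ^ (g j + v) * 2 ^ a) := by
        refine (hdj j hj').trans ?_
        have h3 : C₈ * (2 ^ k * (C₆ * M₂)) ≤ Y * (Y ^ 3 / 2 ^ p) :=
          mul_le_mul y8 hkC (by positivity) hY0.le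
        calc C₈ * (2 ^ k * (C₆ * M₂ * 2 ^ (g j + v))) * 2 ^ a =
              C₈ * (2 ^ k * (C₆ * M₂)) * (2 ^ (g j + v) * 2 ^ a) := by ring
          _ ≤ Y * (Y ^ 3 / 2 ^ p) * (2 ^ (g j + v) * 2 ^ a) :=
              mul_le_mul_of_nonneg_right h3 (by positivity)
          _ = _ := by ring
      have h3 : |eval x (nj S j)| ≤ Y ^ 2 / 2 ^ p * 2 ^ (g j + v) := by
        refine (hcmpω.2 j hj').trans (mul_le_mul_of_nonneg_right ?_ (by positivity))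
        calc C₆ * M₂ ≤ Y * (Y / 2 ^ p) := mul_le_mul y6 hM₂p hM₂0.le hY0.le
          _ = _ := by ring
      have h4 : |hs (HH S j - G₀ y j) x W V + dd (HH S j - G₀ y j) x Z| ≤
          Y ^ 4 * (2 ^ a) ^ 2 / 2 ^ g₀ j := by
        refine ((hnatω j hj'.le).2 Z hZ0 (fun l hl => hZ l hl)).trans ?_
        have h5 : C₂ * M₃ * N₁ ^ 2 ≤ Y * Y * Y ^ 2 := mul_le_mul
          (mul_le_mul y2 y7 hM₃0 hY0.le) (pow_le_pow_left₀ hN₁0.le hN₁Y 2) (by positivity)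
          (by positivity)
        calc C₂ * (M₃ / 2 ^ g₀ j) * (N₁ * 2 ^ a) ^ 2 =
              C₂ * M₃ * N₁ ^ 2 * (2 ^ a) ^ 2 / 2 ^ g₀ j := by ring
          _ ≤ Y * Y * Y ^ 2 * (2 ^ a) ^ 2 / 2 ^ g₀ j := div_le_div_of_nonneg_right
              (mul_le_mul_of_nonneg_right h5 (by positivity)) hg0.le
          _ = _ := by ring
      refine (abs_sub _ _).trans ?_
      rw [abs_mul, abs_mul]
      have h5 := mul_le_mul h2 h1 (abs_nonneg _) (by positivity)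
      have h6 := mul_le_mul h3 h4 (abs_nonneg _) (by positivity)
      refine (add_le_add h5 h6).trans ?_
      have h7 := hpow j hj'.le
      have e1 : Y ^ 4 / 2 ^ p * (2 ^ (g j + v) * 2 ^ a) * (Y ^ 2 * 2 ^ a / 2 ^ g₀ j) +
          Y ^ 2 / 2 ^ p * 2 ^ (g j + v) * (Y ^ 4 * (2 ^ a) ^ 2 / 2 ^ g₀ j) =
          2 * Y ^ 6 * (2 ^ (g j + v) / 2 ^ g₀ j) * (2 ^ a) ^ 2 / 2 ^ p := by ring
      rw [e1]
      calc 2 * Y ^ 6 * (2 ^ (g j + v) / 2 ^ g₀ j) * (2 ^ a) ^ 2 / 2 ^ p ≤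
            2 * Y ^ 6 * (2 ^ s * 2 ^ v) * (2 ^ a) ^ 2 / 2 ^ p := div_le_div_of_nonneg_right
            (mul_le_mul_of_nonneg_right (mul_le_mul_of_nonneg_left h7 (by positivity))
              (by positivity)) hp0.le
        _ = 2 * Y ^ 6 * 2 ^ s * E := hEv _
        _ ≤ 2 * Y ^ 6 * Y * E := mul_le_mul_of_nonneg_right
            (mul_le_mul_of_nonneg_left ys (by positivity)) hE0.le
        _ = _ := by ring
    have hSum : |hs (Δ S) x W V + dd (Δ S) x Z| ≤ Y ^ 4 * E + Y * (2 * Y ^ 7 * E) := by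
      rw [hsum]
      refine (abs_add_le _ _).trans (add_le_add ht0 ((Finset.abs_sum_le_sum_abs _ _).trans
        ((Finset.sum_le_sum htj).trans ?_)))
      rw [Finset.sum_const, Finset.card_range, nsmul_eq_mul]
      exact mul_le_mul_of_nonneg_right yr (by positivity)
    have hlst : |hs (HH S r - G₀ y r) x W V + dd (HH S r - G₀ y r) x Z| ≤ Y ^ 5 * E := by
      refine ((hnatω r le_rfl).2 Z hZ0 (fun l hl => hZ l hl)).trans ?_
      have h5 : C₂ * M₃ * N₁ ^ 2 ≤ Y * Y * Y ^ 2 := mul_le_mul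
        (mul_le_mul y2 y7 hM₃0 hY0.le) (pow_le_pow_left₀ hN₁0.le hN₁Y 2) (by positivity)
        (by positivity)
      calc C₂ * (M₃ / 2 ^ g₀ r) * (N₁ * 2 ^ a) ^ 2 =
            C₂ * M₃ * N₁ ^ 2 * (2 ^ a) ^ 2 * (1 / 2 ^ g₀ r) := by ring
        _ ≤ Y * Y * Y ^ 2 * (2 ^ a) ^ 2 * (2 ^ s * 2 ^ v / 2 ^ p) :=
            mul_le_mul (mul_le_mul_of_nonneg_right h5 (by positivity)) hlast (by positivity)
              (by positivity)
        _ = Y ^ 4 * (2 ^ s * 2 ^ v) * (2 ^ a) ^ 2 / 2 ^ p := by ring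
        _ = Y ^ 4 * 2 ^ s * E := hEv _
        _ ≤ Y ^ 4 * Y * E := mul_le_mul_of_nonneg_right
            (mul_le_mul_of_nonneg_left ys (by positivity)) hE0.le
        _ = _ := by ring
    have hfin : hs (Ht (slam F w ω) - G₀ y r) x W V + dd (Ht (slam F w ω) - G₀ y r) x Z =
        (hs (Δ S) x W V + dd (Δ S) x Z) +
        (hs (HH S r - G₀ y r) x W V + dd (HH S r - G₀ y r) x Z) := by
      rw [hS, hΔω, hs_sub, dd_sub, hs_sub, dd_sub, hs_sub, dd_sub]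
      ring
    rw [hfin]
    refine (abs_add_le _ _).trans ((add_le_add hSum hlst).trans ?_)
    have e1 : U * 2 ^ (a + v) * 2 ^ a / 2 ^ p = U * E := by rw [hE]; ring
    rw [e1]
    have h1 : Y ^ 4 ≤ Y ^ 8 := pow_le_pow_right₀ hY1 (by norm_num)
    have h2 : Y ^ 5 ≤ Y ^ 8 := pow_le_pow_right₀ hY1 (by norm_num)
    have h3 : 4 * Y ^ 8 ≤ Y ^ 10 := by
      have e2 : Y ^ 10 = Y ^ 2 * Y ^ 8 := by ring
      rw [e2]
      refine mul_le_mul_of_nonneg_right ?_ (by positivity)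
      nlinarith
    have h4 : Y ^ 4 * E + Y * (2 * Y ^ 7 * E) + Y ^ 5 * E = (Y ^ 4 + 2 * Y ^ 8 + Y ^ 5) * E := by
      ring
    rw [h4]
    exact mul_le_mul_of_nonneg_right (by linarith) hE0.le
  · -- the window
    obtain ⟨b, hb⟩ : ∃ b : Option (Fin m) → ℝ, b = fun o => (lc a (slam F a ω) o).eval τ :=
      ⟨_, rfl⟩
    have e0 : Hno (c r) (fun s => H₀ s r) (slam F a ω) = HH (slam F a ω) r := by rw [hHH]
    have e1 : ∀ l, Hno (c l) (fun s => H₀ s l) (slam F a ω) = HH (slam F a ω) l := by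
      intro l
      rw [hHH]
    simp only [e1]
    rw [← hΔω, ← hb, hid]
    have h1 := hw0 ω hω τ hτ
    rw [Pool.KBX.eval_aeval_poly, ← hb] at h1
    have h2 : ∀ j ∈ range r, |eval b (nj (slam F a ω) j) * (V (some (c j)) -
        dd (HH (slam F a ω) j) b V)| ≤ Y ^ 3 / 2 ^ p * (2 ^ (g j + v) * |V (some (c j)) -
        dd (HH (slam F a ω) j) b V|) := by
      intro j hj
      have h3 := hwj ω hω j (Finset.mem_range.1 hj) τ hτ
      rw [Pool.KBX.eval_aeval_poly, ← hb] at h3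
      rw [abs_mul, ← mul_assoc]
      refine mul_le_mul_of_nonneg_right (h3.trans ?_) (abs_nonneg _)
      calc 2 ^ k * (C₆ * M₂ * 2 ^ (g j + v)) = 2 ^ k * (C₆ * M₂) * 2 ^ (g j + v) := by ring
        _ ≤ _ := mul_le_mul_of_nonneg_right hkC (by positivity)
    have h3 : |eval b (n0 (slam F a ω)) * V none| ≤ Y ^ 3 / 2 ^ p * (2 ^ (a + v) * |V none|) := by
      rw [abs_mul, ← mul_assoc]
      refine mul_le_mul_of_nonneg_right (h1.trans ?_) (abs_nonneg _)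
      calc 2 ^ k * (C₆ * M₂ * 2 ^ (a + v)) = 2 ^ k * (C₆ * M₂) * 2 ^ (a + v) := by ring
        _ ≤ _ := mul_le_mul_of_nonneg_right hkC (by positivity)
    refine (abs_add_le _ _).trans ((add_le_add h3 ((Finset.abs_sum_le_sum_abs _ _).trans
      (Finset.sum_le_sum h2))).trans ?_)
    rw [← Finset.mul_sum, ← mul_add]
    refine mul_le_mul_of_nonneg_right (div_le_div_of_nonneg_right (hYn 3 (by norm_num)) hp0.le)
      ?_
    exact add_nonneg (by positivity) (Finset.sum_nonneg fun j _ => by positivity)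

end Pool.D2R
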