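import Pool.Agent.H23.D2.Tay2

/-!
# Two points of one cell of resolution `J`

`shf_lip`: the charts at two points of one cell. `shf_pol`: a polynomial which is bounded on the
natural box, at two points of one cell: the values and the gradients agree up to `2 ^ (-s)` in
natural units.
-/

set_option autoImplicit false

namespace Pool.D2R

open Finset Real MvPolynomial
open Pool.Agent.H49.Ent Pool.Agent.H32.Dense Pool.STK Pool.KA Pool.KSAT Pool.K2S Pool.PB Pool.S6C
open Pool.GEN Pool.CHT Pool.CHX Pool.ISO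

variable {m : ℕ}

/-- The derivative in a fixed direction, as a polynomial. -/
noncomputable def dP (Q : MvPolynomial (Option (Fin m)) ℝ) (η : Option (Fin m) → ℝ) :
    MvPolynomial (Option (Fin m)) ℝ := ∑ o, C (η o) * pderiv o Q

theorem eval_dP (Q : MvPolynomial (Option (Fin m)) ℝ) (η b : Option (Fin m) → ℝ) :
    eval b (dP Q η) = dd Q b η := by
  unfold dP dd
  rw [map_sum]
  refine Finset.sum_congr rfl fun o _ => ?_
  rw [map_mul, eval_C, mul_comm]

theorem dd_dP (Q : MvPolynomial (Option (Fin m)) ℝ) (η b V : Option (Fin m) → ℝ) :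
    dd (dP Q η) b V = hs Q b V η := by
  classical
  unfold hs dd
  have h1 : ∀ o, eval b (pderiv o (dP Q η)) = ∑ o', eval b (pderiv o (pderiv o' Q)) * η o' := by
    intro o
    unfold dP
    rw [map_sum, map_sum]
    refine Finset.sum_congr rfl fun o' _ => ?_
    rw [pderiv_C_mul, map_mul, eval_C, mul_comm]
  simp only [h1]
  rw [show (∑ o, (∑ o', eval b (pderiv o (pderiv o' Q)) * η o') * V o) =
    ∑ o, ∑ o', eval b (pderiv o (pderiv o' Q)) * η o' * V o from
      Finset.sum_congr rfl fun o _ => Finset.sum_mul _ _ _]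
  rw [Finset.sum_comm]
  refine Finset.sum_congr rfl fun o _ => ?_
  rw [Finset.sum_mul]
  exact Finset.sum_congr rfl fun o' _ => by ring

theorem dep_dP {c : ℕ → Fin m} {i : ℕ} {Q : MvPolynomial (Option (Fin m)) ℝ} (h : DepC c i Q)
    (η : Option (Fin m) → ℝ) : DepC c i (dP Q η) := by
  intro b b' h1 h2
  rw [eval_dP, eval_dP]
  unfold dd
  refine Finset.sum_congr rfl fun o _ => ?_
  rw [depC_pderiv h o b b' h1 h2]

theorem deg_dP {K : ℕ} {Q : MvPolynomial (Option (Fin m)) ℝ} (h : Q.totalDegree ≤ K)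
    (η : Option (Fin m) → ℝ) : (dP Q η).totalDegree ≤ K := by
  unfold dP
  refine totalDegree_finsetSum_le fun o _ => ?_
  refine (totalDegree_mul _ _).trans ?_
  rw [totalDegree_C, Nat.zero_add]
  exact totalDegree_pdσ h o

/-- The mean value theorem for the value and for the gradient. -/
theorem mv_two (Q : MvPolynomial (Option (Fin m)) ℝ) (x η V : Option (Fin m) → ℝ) {M : ℝ}
    (hM : ∀ u ∈ Set.Icc (0 : ℝ) 1, |dd (dP Q η) (fun o => x o + u * η o) V| ≤ M) :
    ∀ u ∈ Set.Icc (0 : ℝ) 1, |dd Q (fun o => x o + u * η o) V - dd Q x V| ≤ M := by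
  intro u hu
  rw [← eval_dP, ← eval_dP]
  refine mv_seg (dP Q V) x η (fun u hu => ?_) u hu
  rw [dd_dP, hs_comm, ← dd_dP]
  exact hM u hu

/-- The bound of the derivative in the direction of a small vector. -/
theorem dd_small {c : ℕ → Fin m} {l : ℕ} {Q : MvPolynomial (Option (Fin m)) ℝ} (hQ : DepC c l Q)
    {b η : Option (Fin m) → ℝ} {A E : ℝ} (hη0 : η none = 0) (hA : 0 ≤ A) (hE : 0 ≤ E)
    (hη : ∀ j < l, |η (some (c j))| ≤ E)
    (hb : ∀ j < l, |eval b (pderiv (some (c j)) Q)| ≤ A) : |dd Q b η| ≤ m * (A * E) := by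
  classical
  unfold dd
  rw [Fintype.sum_option, hη0, mul_zero, zero_add]
  refine (Finset.abs_sum_le_sum_abs _ _).trans ?_
  calc ∑ k : Fin m, |eval b (pderiv (some k) Q) * η (some k)| ≤ ∑ _k : Fin m, A * E := by
        refine Finset.sum_le_sum fun k _ => ?_
        by_cases hk : ∃ j < l, c j = k
        · obtain ⟨j, hj, rfl⟩ := hk
          rw [abs_mul]
          exact mul_le_mul (hb j hj) (hη j hj) (abs_nonneg _) hA
        · have h1 : eval b (pderiv (some k) Q) = 0 := pd_zero hQ (fun j hj h => hk ⟨j, hj, h⟩) b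
          rw [h1, zero_mul, abs_zero]
          positivity
    _ = _ := by rw [Finset.sum_const, Finset.card_univ, Fintype.card_fin, nsmul_eq_mul]

theorem nrm_mono {c : ℕ → Fin m} {ψ : ℕ → MvPolynomial (Option (Fin m)) ℝ} {g : ℕ → ℕ}
    {a l r : ℕ} (h : l ≤ r) (x V : Option (Fin m) → ℝ) : nrm c ψ g a l x V ≤ nrm c ψ g a r x V := by
  unfold nrm
  refine add_le_add le_rfl ?_
  exact Finset.sum_le_sum_of_subset_of_nonneg (Finset.range_subset_range.2 h)
    fun _ _ _ => by positivity

/-- **The charts at two points of one cell.** -/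
theorem shf_lip (m K r : ℕ) : ∃ C : ℕ, ∀ {c : ℕ → Fin m}
    {ψ : ℕ → MvPolynomial (Option (Fin m)) ℝ} {g : ℕ → ℕ} {a e s J : ℕ}
    {x η : Option (Fin m) → ℝ}, Set.InjOn c (Set.Iio r) →
    (∀ l, (ψ l).totalDegree ≤ K) → (∀ l, DepC c l (ψ l)) →
    (∀ l < r, ∀ b, NBx c ψ g a (x none) l b → ∀ j < l,
      |eval b (pderiv (some (c j)) (ψ l))| ≤ 2 ^ (e + nlp g j l)) →
    (∀ l < r, e + g l + s + C ≤ J) → η none = 0 → (∀ l < r, |η (some (c l))| ≤ 1 / 2 ^ J) →
    (∀ l < r, |x (some (c l)) - eval x (ψ l)| ≤ 1 / 2 ^ (g l + 1)) →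
    ∀ l < r, (∀ b, NBx c ψ g a (x none) l b → |dd (ψ l) b η| ≤ 1 / 2 ^ (g l + s + 2)) ∧
      ∀ u ∈ Set.Icc (0 : ℝ) 1,
      |(x (some (c l)) + u * η (some (c l))) - eval (fun o => x o + u * η o) (ψ l)| ≤ 1 / 2 ^ g l ∧
      ∀ V, |dd (ψ l) (fun o => x o + u * η o) V - dd (ψ l) x V| ≤
        1 / 2 ^ (g l + s) * nrm c ψ g a l x V := by
  have hba := fun l : ℕ => box_all l K K
  choose Cb hCb hbl using hba
  obtain ⟨C₂, hC₂⟩ : ∃ C₂ : ℝ, C₂ = 1 + ∑ l ∈ range r, Cb l := ⟨_, rfl⟩
  have hCbl : ∀ l < r, Cb l ≤ C₂ := by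
    intro l hl
    rw [hC₂]
    have := Finset.single_le_sum (f := Cb) (fun l _ => by linarith [hCb l])
      (Finset.mem_range.2 hl)
    linarith
  have hC₂1 : 1 ≤ C₂ := by
    rw [hC₂]
    have : 0 ≤ ∑ l ∈ range r, Cb l := Finset.sum_nonneg fun l _ => by linarith [hCb l]
    linarith
  obtain ⟨C, hC⟩ := pow_unbounded_of_one_lt ((m + 1) * (C₂ * (r + 1)) * 4) (one_lt_two (α := ℝ))
  have hm0 : (0 : ℝ) ≤ m := Nat.cast_nonneg m
  have hr0 : (0 : ℝ) ≤ r := Nat.cast_nonneg r
  have hCm : (m : ℝ) * 4 ≤ 2 ^ C := by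
    refine le_trans ?_ hC.le
    have h1 : 1 ≤ C₂ * (r + 1) := by nlinarith
    nlinarith
  have hC1 : (4 : ℝ) ≤ 2 ^ C := by
    refine le_trans ?_ hC.le
    have h1 : 1 ≤ C₂ * (r + 1) := by nlinarith
    nlinarith
  refine ⟨C, ?_⟩
  intro c ψ g a e s J x η hc hψ hdep hlip hJ hη0 hη hx
  have key : ∀ k ≤ r, ∀ l < k, (∀ b, NBx c ψ g a (x none) l b →
      |dd (ψ l) b η| ≤ 1 / 2 ^ (g l + s + 2)) ∧ ∀ u ∈ Set.Icc (0 : ℝ) 1,
      |(x (some (c l)) + u * η (some (c l))) - eval (fun o => x o + u * η o) (ψ l)| ≤ 1 / 2 ^ g l ∧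
      ∀ V, |dd (ψ l) (fun o => x o + u * η o) V - dd (ψ l) x V| ≤
        1 / 2 ^ (g l + s) * nrm c ψ g a l x V := by
    intro k
    induction k with
    | zero => exact fun _ l hl => absurd hl (Nat.not_lt_zero l)
    | succ k ih =>
      intro hk l hl
      rcases Nat.lt_or_ge l k with h1 | h1
      · exact ih (by omega) l h1
      have h2 : l = k := by omega
      subst h2
      have hIH := ih (by omega)
      have hlr : l < r := by omega
      -- the derivative in the direction of the shift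
      have hnl : ∀ j < l, e + nlp g j l + (g l + s + C) ≤ J := by
        intro j hj
        have h3 : (Finset.Icc j l).sup g ≤ J - (e + s + C) := by
          refine Finset.sup_le fun b hb => ?_
          have h4 := hJ b (by rw [Finset.mem_Icc] at hb; omega)
          omega
        have h4 := hJ l hlr
        have h5 : g l ≤ (Finset.Icc j l).sup g :=
          Finset.le_sup (f := g) (Finset.mem_Icc.2 ⟨by omega, le_rfl⟩)
        unfold nlp
        omega
      have hPη : ∀ b, NBx c ψ g a (x none) l b → |dd (ψ l) b η| ≤ m / 2 ^ (g l + s + C) := by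
        intro b hb
        have h3 := dd_small (hdep l) (b := b) (η := η) (A := 2 ^ J / 2 ^ (g l + s + C))
          (E := 1 / 2 ^ J) hη0 (by positivity) (by positivity) (fun j hj => hη j (by omega))
          (fun j hj => (hlip l hlr b hb j hj).trans (by
            rw [le_div_iff₀ (by positivity), ← pow_add]
            exact pow_le_pow_right₀ (by norm_num) (hnl j hj)))
        refine h3.trans (le_of_eq ?_)
        field_simp
      have hsm : (m : ℝ) / 2 ^ (g l + s + C) ≤ 1 / 2 ^ (g l + s + 2) := by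
        rw [div_le_div_iff₀ (by positivity) (by positivity), pow_add, pow_add _ _ C, one_mul]
        have h3 : (0 : ℝ) < 2 ^ (g l + s) := by positivity
        calc (m : ℝ) * (2 ^ (g l + s) * 2 ^ 2) = 2 ^ (g l + s) * (m * 4) := by ring
          _ ≤ 2 ^ (g l + s) * 2 ^ C := mul_le_mul_of_nonneg_left hCm h3.le
      -- the points of the segment are in the box
      have hin : ∀ u ∈ Set.Icc (0 : ℝ) 1, NBx c ψ g a (x none) l (fun o => x o + u * η o) := by
        intro u hu
        refine ⟨?_, fun j hj => ((hIH j hj).2 u hu).1⟩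
        show |x none + u * η none - x none| ≤ _
        rw [hη0, mul_zero, add_zero, sub_self, abs_zero]
        positivity
      have hval : ∀ u ∈ Set.Icc (0 : ℝ) 1, |eval (fun o => x o + u * η o) (ψ l) - eval x (ψ l)| ≤
          m / 2 ^ (g l + s + C) := mv_seg (ψ l) x η fun u hu => hPη _ (hin u hu)
      refine ⟨fun b hb => (hPη b hb).trans hsm, fun u hu => ⟨?_, fun V => ?_⟩⟩
      · have h3 := hx l hlr
        have h4 := hval u hu
        have h5 : |u * η (some (c l))| ≤ 1 / 2 ^ (g l + 2) := by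
          rw [abs_mul, abs_of_nonneg hu.1]
          refine (mul_le_of_le_one_left (abs_nonneg _) hu.2).trans ((hη l hlr).trans ?_)
          refine div_le_div_of_nonneg_left (by norm_num) (by positivity)
            (pow_le_pow_right₀ (by norm_num) ?_)
          have h6 := hJ l hlr
          have h7 : 2 ≤ C := by
            by_contra hcon
            have h8 : C ≤ 1 := by omega
            have h9 : (2 : ℝ) ^ C ≤ 2 ^ 1 := pow_le_pow_right₀ (by norm_num) h8
            norm_num at h9
            linarith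
          omega
        have e1 : (x (some (c l)) + u * η (some (c l))) - eval (fun o => x o + u * η o) (ψ l) =
            (x (some (c l)) - eval x (ψ l)) + u * η (some (c l)) -
              (eval (fun o => x o + u * η o) (ψ l) - eval x (ψ l)) := by ring
        rw [e1]
        refine (abs_sub _ _).trans ((add_le_add (abs_add_le _ _) le_rfl).trans ?_)
        have h6 : (1 : ℝ) / 2 ^ (g l + s + 2) ≤ 1 / 2 ^ (g l + 2) :=
          div_le_div_of_nonneg_left (by norm_num) (by positivity)
            (pow_le_pow_right₀ (by norm_num) (by omega))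
        have h7 : (1 : ℝ) / 2 ^ (g l + 1) = 1 / 2 ^ g l * (1 / 2) := by
          rw [pow_succ]
          field_simp
        have h8 : (1 : ℝ) / 2 ^ (g l + 2) = 1 / 2 ^ g l * (1 / 4) := by
          rw [pow_add]
          field_simp
          norm_num
        have h9 := h4.trans (hsm.trans h6)
        rw [h7] at h3
        rw [h8] at h5 h9
        linarith
      · refine mv_two (ψ l) x η V (fun u hu => ?_) u hu
        have h3 := (hbl l (c := c) (ψ := ψ) (Q := dP (ψ l) η) (g := g) (a := a)
          (M := m / 2 ^ (g l + s + C)) (x := fun o => x o + u * η o)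
          (hc.mono fun y hy => by rw [Set.mem_Iio] at hy ⊢; omega) hψ hdep (dep_dP (hdep l) η)
          (deg_dP (hψ l) η) (by positivity) (fun b hb => by
            rw [eval_dP]
            refine hPη b ?_
            have e1 : x none + u * η none = x none := by rw [hη0, mul_zero, add_zero]
            have hb' : NBx c ψ g a (x none + u * η none) l b := hb
            rw [e1] at hb'
            exact hb') (fun j hj => ((hIH j hj).2 u hu).1)).1 V
        refine h3.trans ?_
        have h4 : nrm c ψ g a l (fun o => x o + u * η o) V ≤ (r + 1) * nrm c ψ g a l x V := by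
          have h5 : ∀ j < l, 2 ^ g j * |V (some (c j)) - dd (ψ j) (fun o => x o + u * η o) V| ≤
              2 ^ g j * |V (some (c j)) - dd (ψ j) x V| + nrm c ψ g a l x V := by
            intro j hj
            have h6 := ((hIH j hj).2 u hu).2 V
            have h7 : |V (some (c j)) - dd (ψ j) (fun o => x o + u * η o) V| ≤
                |V (some (c j)) - dd (ψ j) x V| + 1 / 2 ^ (g j + s) * nrm c ψ g a j x V := by
              have e1 : V (some (c j)) - dd (ψ j) (fun o => x o + u * η o) V =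
                  (V (some (c j)) - dd (ψ j) x V) -
                    (dd (ψ j) (fun o => x o + u * η o) V - dd (ψ j) x V) := by ring
              rw [e1]
              exact (abs_sub _ _).trans (add_le_add le_rfl h6)
            have h8 : (2 : ℝ) ^ g j * (1 / 2 ^ (g j + s) * nrm c ψ g a j x V) ≤
                nrm c ψ g a l x V := by
              have h9 : (2 : ℝ) ^ g j * (1 / 2 ^ (g j + s)) ≤ 1 := by
                rw [mul_one_div, pow_add, div_le_one (by positivity)]
                exact le_mul_of_one_le_right (by positivity) (one_le_pow₀ (by norm_num))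
              rw [← mul_assoc]
              exact (mul_le_of_le_one_left (nrm_nonneg _ _ _ _ _ _ _) h9).trans
                (nrm_mono hj.le x V)
            have h9 := mul_le_mul_of_nonneg_left h7 (show (0 : ℝ) ≤ 2 ^ g j by positivity)
            rw [mul_add] at h9
            linarith
          have h6 : nrm c ψ g a l (fun o => x o + u * η o) V ≤ nrm c ψ g a l x V +
              l * nrm c ψ g a l x V := by
            have h7 : ∑ j ∈ range l, 2 ^ g j *
                |V (some (c j)) - dd (ψ j) (fun o => x o + u * η o) V| ≤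
                ∑ j ∈ range l, 2 ^ g j * |V (some (c j)) - dd (ψ j) x V| +
                  l * nrm c ψ g a l x V := by
              refine (Finset.sum_le_sum fun j hj => h5 j (Finset.mem_range.1 hj)).trans ?_
              rw [Finset.sum_add_distrib, Finset.sum_const, Finset.card_range, nsmul_eq_mul]
            have e1 : nrm c ψ g a l x V + l * nrm c ψ g a l x V = 2 ^ a * |V none| +
                (∑ j ∈ range l, 2 ^ g j * |V (some (c j)) - dd (ψ j) x V| +
                  l * nrm c ψ g a l x V) := by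
              conv_lhs => rw [show nrm c ψ g a l x V + l * nrm c ψ g a l x V =
                nrm c ψ g a l x V + l * nrm c ψ g a l x V from rfl]
              unfold nrm
              ring
            rw [e1]
            show 2 ^ a * |V none| + _ ≤ _
            linarith
          have h7 : (l : ℝ) ≤ r := by exact_mod_cast hlr.le
          have h8 := mul_le_mul_of_nonneg_right h7 (nrm_nonneg c ψ g a l x V)
          linarith
        have hn0 := nrm_nonneg c ψ g a l x V
        calc Cb l * (m / 2 ^ (g l + s + C)) * nrm c ψ g a l (fun o => x o + u * η o) V ≤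
              C₂ * (m / 2 ^ (g l + s + C)) * ((r + 1) * nrm c ψ g a l x V) :=
              mul_le_mul (mul_le_mul_of_nonneg_right (hCbl l hlr) (by positivity)) h4
                (nrm_nonneg _ _ _ _ _ _ _) (by positivity)
          _ = (m * (C₂ * (r + 1)) / 2 ^ C) * (1 / 2 ^ (g l + s) * nrm c ψ g a l x V) := by
              rw [pow_add _ _ C]
              field_simp
          _ ≤ 1 * (1 / 2 ^ (g l + s) * nrm c ψ g a l x V) := by
              refine mul_le_mul_of_nonneg_right ?_ (by positivity)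
              rw [div_le_one (by positivity)]
              refine le_trans ?_ hC.le
              have h9 : 0 ≤ C₂ * ((r : ℝ) + 1) := by positivity
              nlinarith
          _ = _ := one_mul _
  exact fun l hl => key r le_rfl l hl

/-- The natural norms at the two points. -/
theorem shf_nrm {c : ℕ → Fin m} {ψ : ℕ → MvPolynomial (Option (Fin m)) ℝ} {g : ℕ → ℕ}
    {a s l : ℕ} {x y V : Option (Fin m) → ℝ} (h : ∀ j < l, |dd (ψ j) y V - dd (ψ j) x V| ≤
      1 / 2 ^ (g j + s) * nrm c ψ g a j x V) :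
    nrm c ψ g a l y V ≤ (l + 1) * nrm c ψ g a l x V := by
  have h5 : ∀ j < l, 2 ^ g j * |V (some (c j)) - dd (ψ j) y V| ≤
      2 ^ g j * |V (some (c j)) - dd (ψ j) x V| + nrm c ψ g a l x V := by
    intro j hj
    have h6 := h j hj
    have h7 : |V (some (c j)) - dd (ψ j) y V| ≤
        |V (some (c j)) - dd (ψ j) x V| + 1 / 2 ^ (g j + s) * nrm c ψ g a j x V := by
      have e1 : V (some (c j)) - dd (ψ j) y V =
          (V (some (c j)) - dd (ψ j) x V) - (dd (ψ j) y V - dd (ψ j) x V) := by ring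
      rw [e1]
      exact (abs_sub _ _).trans (add_le_add le_rfl h6)
    have h8 : (2 : ℝ) ^ g j * (1 / 2 ^ (g j + s) * nrm c ψ g a j x V) ≤
        nrm c ψ g a l x V := by
      have h9 : (2 : ℝ) ^ g j * (1 / 2 ^ (g j + s)) ≤ 1 := by
        rw [mul_one_div, pow_add, div_le_one (by positivity)]
        exact le_mul_of_one_le_right (by positivity) (one_le_pow₀ (by norm_num))
      rw [← mul_assoc]
      exact (mul_le_of_le_one_left (nrm_nonneg _ _ _ _ _ _ _) h9).trans (nrm_mono hj.le x V)
    have h9 := mul_le_mul_of_nonneg_left h7 (show (0 : ℝ) ≤ 2 ^ g j by positivity)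
    rw [mul_add] at h9
    linarith
  have h7 : ∑ j ∈ range l, 2 ^ g j * |V (some (c j)) - dd (ψ j) y V| ≤
      ∑ j ∈ range l, 2 ^ g j * |V (some (c j)) - dd (ψ j) x V| + l * nrm c ψ g a l x V := by
    refine (Finset.sum_le_sum fun j hj => h5 j (Finset.mem_range.1 hj)).trans ?_
    rw [Finset.sum_add_distrib, Finset.sum_const, Finset.card_range, nsmul_eq_mul]
  have e1 : nrm c ψ g a l x V + l * nrm c ψ g a l x V = 2 ^ a * |V none| +
      (∑ j ∈ range l, 2 ^ g j * |V (some (c j)) - dd (ψ j) x V| +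
        l * nrm c ψ g a l x V) := by
    unfold nrm
    ring
  rw [add_mul, one_mul, add_comm ((l : ℝ) * _), e1]
  show 2 ^ a * |V none| + _ ≤ _
  linarith

/-- The shift of a polynomial with a small derivative in the direction of the shift. -/
theorem shf_gen (m K r : ℕ) : ∃ C : ℕ, ∀ {c : ℕ → Fin m}
    {ψ : ℕ → MvPolynomial (Option (Fin m)) ℝ} {Q : MvPolynomial (Option (Fin m)) ℝ} {g : ℕ → ℕ}
    {a s : ℕ} {M : ℝ} {x η : Option (Fin m) → ℝ}, Set.InjOn c (Set.Iio r) →
    (∀ l, (ψ l).totalDegree ≤ K) → (∀ l, DepC c l (ψ l)) → DepC c r Q → Q.totalDegree ≤ K →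
    η none = 0 → (∀ l < r, ∀ u ∈ Set.Icc (0 : ℝ) 1,
      |(x (some (c l)) + u * η (some (c l))) - eval (fun o => x o + u * η o) (ψ l)| ≤ 1 / 2 ^ g l ∧
      ∀ V, |dd (ψ l) (fun o => x o + u * η o) V - dd (ψ l) x V| ≤
        1 / 2 ^ (g l + s) * nrm c ψ g a l x V) →
    (∀ b, NBx c ψ g (a + 1) (x none) r b → |dd Q b η| ≤ M) →
    |eval (fun o => x o + η o) Q - eval x Q| ≤ M ∧
    ∀ V, |dd Q (fun o => x o + η o) V - dd Q x V| ≤ 2 ^ C * M * nrm c ψ g a r x V := by
  obtain ⟨Cb, hCb, hbox⟩ := box_all r K K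
  obtain ⟨C₂, hC₂⟩ := pow_unbounded_of_one_lt (Cb * (2 * (r + 1))) (one_lt_two (α := ℝ))
  have hr0 : (0 : ℝ) ≤ r := Nat.cast_nonneg r
  refine ⟨C₂, ?_⟩
  intro c ψ Q g a s M x η hc hψ hdep hQd hQ hη0 hsh hP
  have hin : ∀ u ∈ Set.Icc (0 : ℝ) 1, NBx c ψ g (a + 1) (x none) r (fun o => x o + u * η o) := by
    intro u hu
    refine ⟨?_, fun j hj => (hsh j hj u hu).1⟩
    show |x none + u * η none - x none| ≤ _
    rw [hη0, mul_zero, add_zero, sub_self, abs_zero]
    positivity
  have hM0 : 0 ≤ M := (abs_nonneg _).trans (hP _ (hin 0 ⟨le_rfl, zero_le_one⟩))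
  have e1 : (fun o => x o + 1 * η o) = fun o => x o + η o := by
    funext o
    ring
  constructor
  · have h1 := mv_seg Q x η (fun u hu => hP _ (hin u hu)) 1 ⟨zero_le_one, le_rfl⟩
    rw [e1] at h1
    exact h1
  · intro V
    have h1 := mv_two Q x η V (M := Cb * M * (2 * ((r + 1) * nrm c ψ g a r x V)))
      (fun u hu => by
      have h2 := (hbox (a := a + 1) (Q := dP Q η) (M := M)
        (x := fun o => x o + u * η o) hc hψ hdep (dep_dP hQd η) (deg_dP hQ η) hM0
        (fun b hb => by
          have e1 : x none + u * η none = x none := by rw [hη0, mul_zero, add_zero]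
          have hb' : NBx c ψ g (a + 1) (x none + u * η none) r b := hb
          rw [e1] at hb'
          rw [eval_dP]
          exact hP b hb') (fun j hj => (hsh j hj u hu).1)).1 V
      refine h2.trans (mul_le_mul_of_nonneg_left ?_ (by positivity))
      have h3 : nrm c ψ g a r (fun o => x o + u * η o) V ≤ (r + 1) * nrm c ψ g a r x V :=
        shf_nrm (s := s) (fun j hj => (hsh j hj u hu).2 V)
      have h4 : nrm c ψ g (a + 1) r (fun o => x o + u * η o) V ≤
          2 * nrm c ψ g a r (fun o => x o + u * η o) V := by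
        unfold nrm
        have h5 : 0 ≤ ∑ l ∈ range r, 2 ^ g l *
            |V (some (c l)) - dd (ψ l) (fun o => x o + u * η o) V| :=
          Finset.sum_nonneg fun _ _ => by positivity
        rw [pow_succ]
        linarith
      linarith) 1 ⟨zero_le_one, le_rfl⟩
    rw [e1] at h1
    refine h1.trans ?_
    calc Cb * M * (2 * ((r + 1) * nrm c ψ g a r x V)) =
        Cb * (2 * (r + 1)) * (M * nrm c ψ g a r x V) := by ring
      _ ≤ 2 ^ C₂ * (M * nrm c ψ g a r x V) :=
          mul_le_mul_of_nonneg_right hC₂.le (mul_nonneg hM0 (nrm_nonneg _ _ _ _ _ _ _))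
      _ = _ := by ring

/-- The natural norm of the shift. -/
theorem shf_eta {c : ℕ → Fin m} {ψ : ℕ → MvPolynomial (Option (Fin m)) ℝ} {g : ℕ → ℕ}
    {a s r J : ℕ} {b η : Option (Fin m) → ℝ} (hη0 : η none = 0)
    (hη : ∀ l < r, |η (some (c l))| ≤ 1 / 2 ^ J) (hJ : ∀ l < r, g l + s + 2 ≤ J)
    (hb : ∀ l < r, |dd (ψ l) b η| ≤ 1 / 2 ^ (g l + s + 2)) :
    nrm c ψ g a r b η ≤ (r + 1) / 2 ^ s := by
  refine (nrm_le (L := 1 / 2 ^ s) ?_ ?_).trans (le_of_eq (by ring))
  · rw [hη0, abs_zero]
    positivity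
  · intro l hl
    have h1 := hb l hl
    have h2 : |η (some (c l))| ≤ 1 / 2 ^ (g l + s + 2) := (hη l hl).trans (inv_mono (hJ l hl))
    refine (abs_sub _ _).trans ((add_le_add h2 h1).trans ?_)
    rw [div_div, ← pow_add, add_comm s, pow_add _ _ 2]
    have h3 : (0 : ℝ) < 2 ^ (g l + s) := by positivity
    rw [← add_div, div_le_div_iff₀ (by positivity) h3]
    nlinarith

/-- **A polynomial at two points of one cell**: `Q` is near the chart `ψ r` on the natural box. -/
theorem shf_pol (m K r : ℕ) : ∃ C : ℕ, ∀ {c : ℕ → Fin m}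
    {ψ : ℕ → MvPolynomial (Option (Fin m)) ℝ} {Q : MvPolynomial (Option (Fin m)) ℝ} {g : ℕ → ℕ}
    {a e s J : ℕ} {M : ℝ} {x η : Option (Fin m) → ℝ}, Set.InjOn c (Set.Iio (r + 1)) →
    (∀ l, (ψ l).totalDegree ≤ K) → (∀ l, DepC c l (ψ l)) → DepC c r Q → Q.totalDegree ≤ K →
    (∀ l < r + 1, ∀ b, NBx c ψ g a (x none) l b → ∀ j < l,
      |eval b (pderiv (some (c j)) (ψ l))| ≤ 2 ^ (e + nlp g j l)) →
    (∀ b, NBx c ψ g a (x none) r b → |eval b Q - eval b (ψ r)| ≤ M) →
    (∀ l < r + 1, e + g l + s + C ≤ J) → η none = 0 →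
    (∀ l < r, |η (some (c l))| ≤ 1 / 2 ^ J) →
    (∀ l < r, |x (some (c l)) - eval x (ψ l)| ≤ 1 / 2 ^ (g l + 1)) →
    |eval (fun o => x o + η o) Q - eval x Q| ≤ 2 ^ C * (M + 1 / 2 ^ g r) / 2 ^ s ∧
    (∀ V, |dd Q (fun o => x o + η o) V - dd Q x V| ≤
      2 ^ C * (M + 1 / 2 ^ g r) / 2 ^ s * nrm c ψ g a r x V) ∧
    ∀ V, nrm c ψ g a r (fun o => x o + η o) V ≤ (r + 1) * nrm c ψ g a r x V := by
  obtain ⟨C₁, hlip⟩ := shf_lip m K r
  obtain ⟨Cb, hCb, hbox⟩ := box_all r K K
  obtain ⟨C₃, hgen⟩ := shf_gen m K r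
  obtain ⟨C₂, hC₂⟩ := pow_unbounded_of_one_lt (Cb * (r + 1) + m) (one_lt_two (α := ℝ))
  have hr0 : (0 : ℝ) ≤ r := Nat.cast_nonneg r
  have hm0 : (0 : ℝ) ≤ m := Nat.cast_nonneg m
  refine ⟨C₁ + C₂ + C₃ + 2, ?_⟩
  intro c ψ Q g a e s J M x η hc hψ hdep hQd hQ hlp hM hJ hη0 hη hx
  have hc' : Set.InjOn c (Set.Iio r) := hc.mono fun y hy => by
    rw [Set.mem_Iio] at hy ⊢
    omega
  have hsh := hlip (e := e) (s := s) hc' hψ hdep (fun l hl => hlp l (by omega)) (fun l hl => by
    have := hJ l (by omega)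
    omega) hη0 hη hx
  have hxl : ∀ l < r, |x (some (c l)) - eval x (ψ l)| ≤ 1 / 2 ^ g l := fun l hl =>
    (hx l hl).trans (inv_mono (Nat.le_add_right _ _))
  have hM0 : 0 ≤ M := (abs_nonneg _).trans (hM x ⟨by
    rw [sub_self, abs_zero]
    positivity, hxl⟩)
  have h2s : (0 : ℝ) < 2 ^ s := by positivity
  -- the chart of the target
  have htop : ∀ b, NBx c ψ g a (x none) r b → |dd (ψ r) b η| ≤ m * (1 / 2 ^ (g r + s)) := by
    intro b hb
    have hnl : ∀ j < r, e + nlp g j r + (g r + s) ≤ J := by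
      intro j hj
      have h3 : (Finset.Icc j r).sup g ≤ J - (e + s) := by
        refine Finset.sup_le fun b hb => ?_
        have h4 := hJ b (by rw [Finset.mem_Icc] at hb; omega)
        omega
      have h4 := hJ r (Nat.lt_succ_self r)
      have h5 : g r ≤ (Finset.Icc j r).sup g :=
        Finset.le_sup (f := g) (Finset.mem_Icc.2 ⟨by omega, le_rfl⟩)
      unfold nlp
      omega
    have h3 := dd_small (hdep r) (b := b) (η := η) (A := 2 ^ J / 2 ^ (g r + s))
      (E := 1 / 2 ^ J) hη0 (by positivity) (by positivity) (fun j hj => hη j hj)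
      (fun j hj => (hlp r (Nat.lt_succ_self r) b hb j hj).trans (by
        rw [le_div_iff₀ (by positivity), ← pow_add]
        exact pow_le_pow_right₀ (by norm_num) (hnl j hj)))
    refine h3.trans (le_of_eq ?_)
    field_simp
  -- the derivative in the direction of the shift
  have hP : ∀ b, NBx c ψ g (a + 1) (x none) r b → |dd Q b η| ≤
      2 ^ C₂ * (M + 1 / 2 ^ g r) / 2 ^ s := by
    intro b hb
    have hba : NBx c ψ g a (x none) r b := ⟨hb.1.trans (inv_mono (Nat.le_succ _)), hb.2⟩
    have h1 : |dd (Q - ψ r) b η| ≤ Cb * M * ((r + 1) / 2 ^ s) := by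
      refine ((hbox (a := a + 1) hc' hψ hdep (Q := Q - ψ r) (fun y y' h1 h2 => by
        rw [map_sub, map_sub, hQd y y' h1 h2, hdep r y y' h1 h2])
        ((totalDegree_sub _ _).trans (max_le hQ (hψ r))) hM0 (x := b) (fun b' hb' => by
          rw [map_sub]
          refine hM b' ⟨?_, hb'.2⟩
          have h1 : b' none - x none = (b' none - b none) + (b none - x none) := by ring
          rw [h1]
          refine (abs_add_le _ _).trans ((add_le_add hb'.1 hb.1).trans (le_of_eq ?_))
          rw [pow_succ]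
          field_simp
          norm_num) hb.2).1 η).trans (mul_le_mul_of_nonneg_left ?_ (by positivity))
      exact shf_eta hη0 hη (fun l hl => by
        have := hJ l (by omega)
        omega) fun l hl => (hsh l hl).1 b ⟨hba.1, fun j hj => hba.2 j (by omega)⟩
    have h2 := htop b hba
    have e1 : dd Q b η = dd (Q - ψ r) b η + dd (ψ r) b η := by
      rw [dd_sub]
      ring
    rw [e1]
    refine (abs_add_le _ _).trans ((add_le_add h1 h2).trans ?_)
    have h3 : (0 : ℝ) < 1 / 2 ^ g r := by positivity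
    calc Cb * M * ((r + 1) / 2 ^ s) + m * (1 / 2 ^ (g r + s)) =
          (Cb * (r + 1) * M + m * (1 / 2 ^ g r)) / 2 ^ s := by
            rw [pow_add]
            field_simp
      _ ≤ _ := by
        refine div_le_div_of_nonneg_right ?_ h2s.le
        have h4 : Cb * (r + 1) ≤ 2 ^ C₂ := by linarith
        have h5 : (m : ℝ) ≤ 2 ^ C₂ := by
          have : 0 ≤ Cb * (r + 1) := by positivity
          linarith
        rw [mul_add ((2 : ℝ) ^ C₂)]
        exact add_le_add (mul_le_mul_of_nonneg_right h4 hM0) (mul_le_mul_of_nonneg_right h5 h3.le)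
  obtain ⟨k1, k2⟩ := hgen hc' hψ hdep hQd hQ hη0 (fun l hl u hu => (hsh l hl).2 u hu) hP
  have hA : 0 ≤ (M + 1 / 2 ^ g r) / 2 ^ s := by positivity
  refine ⟨k1.trans ?_, fun V => (k2 V).trans ?_, fun V => ?_⟩
  · rw [mul_div_assoc, mul_div_assoc]
    exact mul_le_mul_of_nonneg_right (pow_le_pow_right₀ (by norm_num) (by omega)) hA
  · refine mul_le_mul_of_nonneg_right ?_ (nrm_nonneg _ _ _ _ _ _ _)
    rw [mul_div_assoc, ← mul_assoc, ← pow_add, mul_div_assoc]
    exact mul_le_mul_of_nonneg_right (pow_le_pow_right₀ (by norm_num) (by omega)) hA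
  · have e1 : (fun o => x o + 1 * η o) = fun o => x o + η o := by
      funext o
      ring
    have h1 : nrm c ψ g a r (fun o => x o + 1 * η o) V ≤ (r + 1) * nrm c ψ g a r x V :=
      shf_nrm (s := s) (fun j hj => ((hsh j hj).2 1 ⟨zero_le_one, le_rfl⟩).2 V)
    rw [e1] at h1
    exact h1

end Pool.D2R
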