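import Pool.Agent.H23.D2.Cls
import Pool.Agent.H2.GEN.ChS

/-!
# Taylor polynomials on natural boxes

`tay_one`: one variable. `box_tay`: a polynomial which is bounded on the natural box of the sides
`2 ^ (-g l)` and of the radius `2 ^ (-a)`: its Taylor polynomials of order one and two in the curved
natural coordinates, on the box of `2 ^ (-n)` times the sides.
-/

set_option autoImplicit false

namespace Pool.D2R

open Finset Real MvPolynomial
open Pool.Agent.H49.Ent Pool.Agent.H32.Dense Pool.STK Pool.KA Pool.KSAT Pool.K2S Pool.PB Pool.S6C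
open Pool.GEN Pool.CHT Pool.CHX Pool.ISO

variable {m : ℕ}

/-- **Taylor in one variable**, on a long interval. -/
theorem tay_one (K : ℕ) : ∃ C : ℝ, 1 ≤ C ∧ ∀ (f : Polynomial ℝ) (M A : ℝ), f.natDegree ≤ K →
    1 ≤ A → (∀ s ∈ Set.Icc (0 : ℝ) A, |f.eval s| ≤ M) →
    |f.eval 1 - f.eval 0 - f.derivative.eval 0| ≤ C * M / A ^ 2 ∧
    |f.eval 1 - f.eval 0 - f.derivative.eval 0 - f.derivative.derivative.eval 0 / 2| ≤
      C * M / A ^ 3 ∧ |f.eval 1 - f.eval 0| ≤ C * M / A := by
  obtain ⟨C, hC, hco⟩ := Pool.Agent.H40.FR.unit_coef (K + 3)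
  refine ⟨C * (K + 3), by nlinarith [(Nat.cast_nonneg K : (0 : ℝ) ≤ K)], ?_⟩
  intro f M A hf hA hM
  have hA0 : 0 < A := by linarith
  have hM0 : 0 ≤ M := (abs_nonneg _).trans (hM 0 ⟨le_rfl, hA0.le⟩)
  obtain ⟨g, hg⟩ : ∃ g : Polynomial ℝ, g = f.comp (Polynomial.C A * Polynomial.X) := ⟨_, rfl⟩
  have hgc : ∀ j, g.coeff j = f.coeff j * A ^ j := by
    intro j
    rw [hg, Polynomial.comp_C_mul_X_coeff]
  have hgd : g.natDegree ≤ K + 3 := by
    rw [hg]
    refine (Polynomial.natDegree_comp_le).trans ?_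
    have h0 : (Polynomial.C A * Polynomial.X : Polynomial ℝ).natDegree ≤ 1 :=
      (Polynomial.natDegree_C_mul_le _ _).trans Polynomial.natDegree_X_le
    refine (Nat.mul_le_mul_left _ h0).trans ?_
    omega
  have h1 := hco g M hgd (fun t ht => by
    rw [hg, Polynomial.eval_comp, Polynomial.eval_mul, Polynomial.eval_C, Polynomial.eval_X]
    exact hM _ ⟨mul_nonneg hA0.le ht.1, mul_le_of_le_one_right hA0.le ht.2⟩)
  have hfc : ∀ j, |f.coeff j| ≤ C * M / A ^ j := by
    intro j
    have h2 := h1 j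
    rw [hgc, abs_mul, abs_of_pos (pow_pos hA0 j)] at h2
    rwa [le_div_iff₀ (pow_pos hA0 j)]
  have hd : f.natDegree < K + 3 := by omega
  have e1 : f.eval 1 = ∑ j ∈ range (K + 3), f.coeff j := by
    rw [Polynomial.eval_eq_sum_range' hd]
    exact Finset.sum_congr rfl fun j _ => by rw [one_pow, mul_one]
  have e0 : f.eval 0 = f.coeff 0 := by rw [Polynomial.coeff_zero_eq_eval_zero]
  have ed : f.derivative.eval 0 = f.coeff 1 := by
    rw [← Polynomial.coeff_zero_eq_eval_zero, Polynomial.coeff_derivative]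
    simp
  have edd : f.derivative.derivative.eval 0 / 2 = f.coeff 2 := by
    rw [← Polynomial.coeff_zero_eq_eval_zero, Polynomial.coeff_derivative,
      Polynomial.coeff_derivative]
    norm_num
  have hpw : ∀ n j : ℕ, C * M / A ^ (j + n) ≤ C * M / A ^ n := by
    intro n j
    refine div_le_div_of_nonneg_left (by positivity) (by positivity) ?_
    exact pow_le_pow_right₀ hA (by omega)
  have hK0 : (0 : ℝ) ≤ K := Nat.cast_nonneg K
  have hsum : ∀ n ≤ 3, |∑ j ∈ range (K + (3 - n)), f.coeff (j + n)| ≤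
      C * (K + 3) * M / A ^ n := by
    intro n hn
    refine (Finset.abs_sum_le_sum_abs _ _).trans ?_
    calc ∑ j ∈ range (K + (3 - n)), |f.coeff (j + n)| ≤ ∑ _j ∈ range (K + (3 - n)),
          C * M / A ^ n := Finset.sum_le_sum fun j _ => (hfc _).trans (hpw n j)
      _ = ((K + (3 - n) : ℕ) : ℝ) * (C * M / A ^ n) := by
          rw [Finset.sum_const, Finset.card_range, nsmul_eq_mul]
      _ ≤ (K + 3) * (C * M / A ^ n) := by
          refine mul_le_mul_of_nonneg_right ?_ (by positivity)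
          calc ((K + (3 - n) : ℕ) : ℝ) ≤ ((K + 3 : ℕ) : ℝ) := by
                exact_mod_cast (by omega : K + (3 - n) ≤ K + 3)
            _ = K + 3 := by push_cast; ring
      _ = _ := by ring
  have s1 : ∑ j ∈ range (K + 3), f.coeff j =
      ∑ j ∈ range (K + 2), f.coeff (j + 1) + f.coeff 0 := Finset.sum_range_succ' _ _
  have s2 : ∑ j ∈ range (K + 2), f.coeff (j + 1) =
      ∑ j ∈ range (K + 1), f.coeff (j + 2) + f.coeff 1 := Finset.sum_range_succ' _ _
  have s3 : ∑ j ∈ range (K + 1), f.coeff (j + 2) =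
      ∑ j ∈ range K, f.coeff (j + 3) + f.coeff 2 := Finset.sum_range_succ' _ _
  have h3 := hsum 3 le_rfl
  have h2 := hsum 2 (by norm_num)
  have h1' := hsum 1 (by norm_num)
  simp only [Nat.sub_self, Nat.add_zero] at h3
  refine ⟨?_, ?_, ?_⟩
  · rw [e1, e0, ed, s1, s2]
    have e : ∑ j ∈ range (K + 1), f.coeff (j + 2) + f.coeff 1 + f.coeff 0 - f.coeff 0 -
        f.coeff 1 = ∑ j ∈ range (K + 1), f.coeff (j + 2) := by ring
    rw [e]
    exact h2
  · rw [e1, e0, ed, edd, s1, s2, s3]
    have e : ∑ j ∈ range K, f.coeff (j + 3) + f.coeff 2 + f.coeff 1 + f.coeff 0 - f.coeff 0 -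
        f.coeff 1 - f.coeff 2 = ∑ j ∈ range K, f.coeff (j + 3) := by ring
    rw [e]
    exact h3
  · rw [e1, e0, s1]
    have e : ∑ j ∈ range (K + 2), f.coeff (j + 1) + f.coeff 0 - f.coeff 0 =
        ∑ j ∈ range (K + 2), f.coeff (j + 1) := by ring
    rw [e]
    have h4 := h1'
    rw [pow_one] at h4
    exact h4

/-- **Taylor polynomials on natural boxes**, in the curved natural coordinates. -/
theorem box_tay (r K D : ℕ) : ∃ C : ℝ, 1 ≤ C ∧ ∀ {m : ℕ} {c : ℕ → Fin m}
    {ψ : ℕ → MvPolynomial (Option (Fin m)) ℝ} {Q : MvPolynomial (Option (Fin m)) ℝ}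
    {g : ℕ → ℕ} {a n : ℕ} {M : ℝ} {x b : Option (Fin m) → ℝ}, Set.InjOn c (Set.Iio r) →
    (∀ l, (ψ l).totalDegree ≤ K) → (∀ l, DepC c l (ψ l)) → DepC c r Q → Q.totalDegree ≤ D →
    2 ≤ n → (∀ b, NBx c ψ g a (x none) r b → |eval b Q| ≤ M) →
    (∀ l < r, |x (some (c l)) - eval x (ψ l)| ≤ 1 / 2 ^ (g l + n)) →
    |b none - x none| ≤ 1 / 2 ^ (a + n) →
    (∀ l < r, |b (some (c l)) - eval b (ψ l)| ≤ 1 / 2 ^ (g l + n)) →
    ∃ V Z : Option (Fin m) → ℝ, V none = b none - x none ∧
      (∀ l < r, V (some (c l)) - dd (ψ l) x V =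
        (b (some (c l)) - eval b (ψ l)) - (x (some (c l)) - eval x (ψ l))) ∧ Z none = 0 ∧
      (∀ l < r, Z (some (c l)) - dd (ψ l) x Z = hs (ψ l) x V V) ∧
      |eval b Q - eval x Q| ≤ C * M / 2 ^ n ∧
      |eval b Q - eval x Q - dd Q x V| ≤ C * M / (2 ^ n) ^ 2 ∧
      |eval b Q - eval x Q - dd Q x V - (hs Q x V V + dd Q x Z) / 2| ≤ C * M / (2 ^ n) ^ 3 := by
  obtain ⟨C, hC, htay⟩ := tay_one (D * dga (fun _ => K) r)
  refine ⟨64 * C, by linarith, ?_⟩
  intro m c ψ Q g a n M x b hc hψ hdep hQ hQd hn hM hx hb0 hb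
  obtain ⟨p, h1, h2, h3, h4, h5⟩ := curve_all hc hψ hdep x b r le_rfl
  have h2n : (0 : ℝ) < 2 ^ n := by positivity
  have hn4 : (4 : ℝ) ≤ 2 ^ n := by
    calc (4 : ℝ) = 2 ^ 2 := by norm_num
      _ ≤ 2 ^ n := pow_le_pow_right₀ (by norm_num) hn
  have hM0 : 0 ≤ M := (abs_nonneg _).trans (hM x ⟨by
    rw [sub_self, abs_zero]
    positivity, fun l hl => (hx l hl).trans (inv_mono (Nat.le_add_right _ _))⟩)
  obtain ⟨A, hA⟩ : ∃ A : ℝ, A = 2 ^ n / 4 := ⟨_, rfl⟩
  have hA1 : 1 ≤ A := by rw [hA]; linarith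
  have hA0 : 0 < A := by linarith
  obtain ⟨f, hf⟩ : ∃ f : Polynomial ℝ, f = MvPolynomial.aeval p Q := ⟨_, rfl⟩
  have hfe : ∀ s, f.eval s = eval (fun o => (p o).eval s) Q := fun s => by
    rw [hf, Pool.KBX.eval_aeval_poly]
  have hfd : f.natDegree ≤ D * dga (fun _ => K) r := by
    rw [hf]
    exact natDegree_aeval_mul Q p h1 hQd
  have hbox : ∀ s ∈ Set.Icc (0 : ℝ) A, |f.eval s| ≤ M := by
    intro s hs
    rw [hfe]
    refine hM _ ⟨?_, fun l hl => ?_⟩
    · show |(p none).eval s - x none| ≤ _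
      rw [h2, add_sub_cancel_left, abs_mul, abs_of_nonneg hs.1]
      calc s * |b none - x none| ≤ A * (1 / 2 ^ (a + n)) :=
            mul_le_mul hs.2 hb0 (abs_nonneg _) hA0.le
        _ = 1 / 2 ^ a * (1 / 4) := by
            rw [hA, pow_add]
            field_simp
        _ ≤ 1 / 2 ^ a * 1 := mul_le_mul_of_nonneg_left (by norm_num) (by positivity)
        _ = _ := mul_one _
    · show |(p (some (c l))).eval s - eval (fun o => (p o).eval s) (ψ l)| ≤ _
      rw [h3 l hl, add_sub_cancel_left]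
      have h6 := hx l hl
      have h7 := hb l hl
      have e1 : (1 : ℝ) / 2 ^ (g l + n) = 1 / 2 ^ g l * (1 / 2 ^ n) := by
        rw [pow_add]
        field_simp
      have h8 : |(b (some (c l)) - eval b (ψ l)) - (x (some (c l)) - eval x (ψ l))| ≤
          2 * (1 / 2 ^ g l * (1 / 2 ^ n)) := by
        rw [e1] at h6 h7
        refine (abs_sub _ _).trans ?_
        linarith
      have h9 : s * |(b (some (c l)) - eval b (ψ l)) - (x (some (c l)) - eval x (ψ l))| ≤
          1 / 2 ^ g l * (1 / 2) := by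
        calc s * |(b (some (c l)) - eval b (ψ l)) - (x (some (c l)) - eval x (ψ l))| ≤
              A * (2 * (1 / 2 ^ g l * (1 / 2 ^ n))) :=
              mul_le_mul hs.2 h8 (abs_nonneg _) hA0.le
          _ = _ := by
            rw [hA]
            field_simp
            norm_num
      have h10 : (1 : ℝ) / 2 ^ n ≤ 1 / 4 := div_le_div_of_nonneg_left (by norm_num)
        (by norm_num) hn4
      have h11 : (1 : ℝ) / 2 ^ g l * (1 / 2 ^ n) ≤ 1 / 2 ^ g l * (1 / 4) :=
        mul_le_mul_of_nonneg_left h10 (by positivity)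
      rw [e1] at h6
      refine (abs_add_le _ _).trans ?_
      rw [abs_mul, abs_of_nonneg hs.1]
      have h12 : (0 : ℝ) < 1 / 2 ^ g l := by positivity
      linarith
  have key := htay f M A hfd hA1 hbox
  -- the derivatives at the first point
  have hx0 : ∀ l < r, (p (some (c l))).eval 0 = x (some (c l)) := h4
  obtain ⟨x', hx'⟩ : ∃ x' : Option (Fin m) → ℝ, x' = fun o => (p o).eval 0 := ⟨_, rfl⟩
  have hx'n : x' none = x none := by
    rw [hx']
    show (p none).eval 0 = _
    rw [h2]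
    ring
  have hx'l : ∀ l < r, x' (some (c l)) = x (some (c l)) := fun l hl => by
    rw [hx']
    exact h4 l hl
  obtain ⟨V, hV⟩ : ∃ V : Option (Fin m) → ℝ, V = fun o => (Polynomial.derivative (p o)).eval 0 :=
    ⟨_, rfl⟩
  obtain ⟨Z, hZ⟩ : ∃ Z : Option (Fin m) → ℝ, Z = fun o =>
    (Polynomial.derivative (Polynomial.derivative (p o))).eval 0 := ⟨_, rfl⟩
  have hdc := fun R : MvPolynomial (Option (Fin m)) ℝ => der_curve p (x := x') (V := V) (Z := Z)
    (s := 0) (fun o => by rw [hx']) (fun o => by rw [hV]) (fun o => by rw [hZ]) R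
  -- the derivatives depend on the first coordinates only
  have hddx : ∀ {i : ℕ} {R : MvPolynomial (Option (Fin m)) ℝ}, i ≤ r → DepC c i R →
      ∀ W : Option (Fin m) → ℝ, dd R x' W = dd R x W := by
    intro i R hi hR W
    unfold dd
    refine Finset.sum_congr rfl fun o _ => ?_
    rw [depC_pderiv hR o x' x hx'n fun l hl => hx'l l (by omega)]
  have hhsx : ∀ {i : ℕ} {R : MvPolynomial (Option (Fin m)) ℝ}, i ≤ r → DepC c i R →
      ∀ W W' : Option (Fin m) → ℝ, hs R x' W W' = hs R x W W' := by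
    intro i R hi hR W W'
    unfold hs
    refine Finset.sum_congr rfl fun o _ => ?_
    rw [hddx hi (depC_pderiv hR o)]
  have hpn : p none = Polynomial.C (x none) + Polynomial.C (b none - x none) * Polynomial.X := by
    refine Polynomial.funext fun s => ?_
    rw [h2]
    simp only [Polynomial.eval_add, Polynomial.eval_mul, Polynomial.eval_C, Polynomial.eval_X]
    ring
  have hpl : ∀ l < r, p (some (c l)) = MvPolynomial.aeval p (ψ l) +
      (Polynomial.C (x (some (c l)) - eval x (ψ l)) +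
        Polynomial.C ((b (some (c l)) - eval b (ψ l)) - (x (some (c l)) - eval x (ψ l))) *
          Polynomial.X) := by
    intro l hl
    refine Polynomial.funext fun s => ?_
    rw [h3 l hl, Polynomial.eval_add, Pool.KBX.eval_aeval_poly]
    simp only [Polynomial.eval_add, Polynomial.eval_mul, Polynomial.eval_C, Polynomial.eval_X]
    ring
  have hV0 : V none = b none - x none := by
    rw [hV]
    show (Polynomial.derivative (p none)).eval 0 = _
    rw [hpn]
    simp
  have hZ0 : Z none = 0 := by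
    rw [hZ]
    show (Polynomial.derivative (Polynomial.derivative (p none))).eval 0 = _
    rw [hpn]
    simp
  refine ⟨V, Z, hV0, fun l hl => ?_, hZ0, fun l hl => ?_, ?_, ?_, ?_⟩
  · rw [← hddx hl.le (hdep l) V, ← (hdc (ψ l)).1]
    have e1 : V (some (c l)) = (Polynomial.derivative (p (some (c l)))).eval 0 := by rw [hV]
    rw [e1, hpl l hl]
    simp
  · rw [← hddx hl.le (hdep l) Z, ← hhsx hl.le (hdep l) V V]
    have e2 := (hdc (ψ l)).2
    have e1 : Z (some (c l)) =
        (Polynomial.derivative (Polynomial.derivative (p (some (c l))))).eval 0 := by rw [hZ]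
    rw [e1, hpl l hl]
    simp only [Polynomial.derivative_add, Polynomial.derivative_mul, Polynomial.derivative_C,
      Polynomial.derivative_X, zero_mul, mul_one, zero_add, add_zero]
    rw [e2]
    ring
  all_goals
    have e1 : f.eval 1 = eval b Q := by
      rw [hfe]
      exact hQ _ _ (by
        show (p none).eval 1 = b none
        rw [h2]
        ring) h5
    have e0 : f.eval 0 = eval x Q := by
      rw [hfe]
      exact hQ _ _ (by
        show (p none).eval 0 = x none
        rw [h2]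
        ring) h4
    have ed : f.derivative.eval 0 = dd Q x V := by
      rw [hf, (hdc Q).1, hddx le_rfl hQ]
    have edd : f.derivative.derivative.eval 0 = hs Q x V V + dd Q x Z := by
      rw [hf, (hdc Q).2, hddx le_rfl hQ, hhsx le_rfl hQ]
    rw [e1, e0, ed, edd] at key
    have hbd : ∀ k : ℕ, k ≤ 3 → C * M / A ^ k ≤ 64 * C * M / (2 ^ n) ^ k := by
      intro k hk
      have e3 : C * M / A ^ k = 4 ^ k * (C * M) / (2 ^ n) ^ k := by
        rw [hA, div_pow]
        field_simp
      rw [e3]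
      refine div_le_div_of_nonneg_right ?_ (by positivity)
      have h6 : (4 : ℝ) ^ k ≤ 4 ^ 3 := pow_le_pow_right₀ (by norm_num) hk
      calc (4 : ℝ) ^ k * (C * M) ≤ 4 ^ 3 * (C * M) :=
            mul_le_mul_of_nonneg_right h6 (by positivity)
        _ = _ := by ring
  · have h6 := hbd 1 (by norm_num)
    rw [pow_one, pow_one] at h6
    exact key.2.2.trans h6
  · exact key.1.trans (hbd 2 (by norm_num))
  · exact key.2.1.trans (hbd 3 le_rfl)

end Pool.D2R
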