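import Pool.Agent.H23.D2.Rcq
import Pool.Agent.H3.D2G.RecG

/-!
# Windows with balls only, from the record of the whole chain

`winB_con`: finitely many windows with balls on one event. `RecG.winsB`: from the record `RecG`,
target at the place `i`, to `WinB` at a list of diagonal windows.
-/

set_option autoImplicit false

namespace Pool.D2R

open Finset Real MvPolynomial
open Pool.Agent.H49.Ent Pool.Agent.H32.Dense Pool.STK Pool.KA Pool.KSAT Pool.K2S Pool.PB Pool.S6C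
open Pool.GEN Pool.CHT Pool.CHX Pool.ISO
open Pool.LBT (LSys Slo Tri ThrOf fl_le' bas_false)
open Pool.LEV (Law)
open Pool.FLF (Fam.sub)
open Pool.PKG (RecG RecT PtI Kg)

variable {m : ℕ}

/-- **Finitely many windows with balls, in a class.** -/
theorem winB_con (m r S₀ : ℕ) (hr : 1 ≤ r) (hS₀ : 1 ≤ S₀) : ∃ D : ℕ, 1 ≤ D ∧ ∀ Dr : ℕ, D ≤ Dr →
    ∃ CB : ℝ, 1 ≤ CB ∧ ∀ {S : PCl m} {P : List (Fin m) × Fin m → ℝ → ℝ → ℝ} {θ : ℝ}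
    {c : ℕ → Fin m} {Pt : ℝ → ℝ → ℝ} {a Eb ηm : ℝ} {o η σ r₀ : ℕ → ℝ} (N M : ℕ),
    ThrOf (chsys m θ) S P → 0 < θ → TmH S → Set.InjOn c (Set.Iio (r + 1)) → Law Pt → 0 ≤ Eb →
    (∀ k ≤ N, BalD S P θ c r Pt a (o k) S₀ Eb) →
    (∀ k ≤ N, 0 < η k ∧ 0 < σ k ∧ σ k ≤ ηm ∧ 0 < r₀ k ∧ η k ≤ ηm) →
    ∃ (K₁ : ℝ) (b : ℕ → ℕ → ℝ), 0 < K₁ ∧ ∀ κ : ℝ, 0 < κ → Bas S (fun J F A =>
      ∀ z : ℕ → ℕ → ℕ, (∀ k ≤ N, ∀ i ≤ M, r₀ k * J ≤ z k i ∧ z k i ≤ ⌊a * J⌋₊ - ⌊o k * J⌋₊) →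
      ∃ (B : F.Ω → Prop) (g₀ : ℕ → ℕ → ℕ)
        (G : ℕ → PtT F → ℕ → MvPolynomial (Option (Fin m)) ℝ)
        (H : ℕ → LnT F → ℕ → MvPolynomial (Option (Fin m)) ℝ), Sub B A ∧
        Pe F.p A ≤ K₁ * Pe F.p B ∧
        WinB F c r D Dr N M CB a Eb ηm o η σ
          (fun k l => lvN P c r Pt l (o k) (o k)) b κ z B g₀ G H) := by
  classical
  obtain ⟨D, hD0, hball⟩ := ball_list m r S₀ hr hS₀
  refine ⟨D, hD0, fun Dr hDr => ?_⟩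
  obtain ⟨C₂, hC₂, hbal⟩ := balb_out D r hD0
  have hC₂R : (1 : ℝ) ≤ C₂ := by exact_mod_cast hC₂
  refine ⟨2 * C₂, by linarith, ?_⟩
  intro S P θ c Pt a Eb ηm o η σ r₀ N M hP hθ hS hinj hPt hEb hWb hσ
  obtain ⟨K₃, hK₃, hbal⟩ := hbal N M
  have hK₃0 : 0 < K₃ := by linarith
  obtain ⟨K₂, μ, b, hK₂, hμ, hbas₂⟩ := hball Dr (η := η) (σ := σ) (r₀ := r₀) M hP hθ hS hinj
    hPt (List.range (N + 1)) (fun k hk => hWb k (by have := List.mem_range.1 hk; omega))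
    (fun k hk => ⟨(hσ k (by have := List.mem_range.1 hk; omega)).1,
      (hσ k (by have := List.mem_range.1 hk; omega)).2.1,
      (hσ k (by have := List.mem_range.1 hk; omega)).2.2.2.1⟩)
  have hmem : ∀ k ≤ N, k ∈ List.range (N + 1) := fun k hk => List.mem_range.2 (by omega)
  have hηm0 : 0 < ηm := (hσ 0 (Nat.zero_le _)).1.trans_le (hσ 0 (Nat.zero_le _)).2.2.2.2
  have ho : ∀ k ≤ N, 0 < o k ∧ o k < 1 ∧ o k < a := fun k hk => by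
    obtain ⟨ρ, vs, e, e₀, E, sg, Q, d1, -⟩ := (hWb k hk).dw
    exact ⟨d1.w0, d1.a1, (hWb k hk).lt⟩
  refine ⟨K₂ * K₃, b, mul_pos hK₂ hK₃0, fun κ hκ => ?_⟩
  obtain ⟨κ₃, hκ₃⟩ : ∃ κ₃ : ℝ, κ₃ = min κ 1 / K₃ := ⟨_, rfl⟩
  have hκ₃0 : 0 < κ₃ := by rw [hκ₃]; exact div_pos (lt_min hκ one_pos) hK₃0
  have hκ₃1 : κ₃ * K₃ ≤ 1 := by
    rw [hκ₃, div_mul_cancel₀ _ hK₃0.ne']
    exact min_le_right _ _
  have hκ₃2 : κ₃ * K₃ ≤ κ := by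
    rw [hκ₃, div_mul_cancel₀ _ hK₃0.ne']
    exact min_le_left _ _
  obtain ⟨J₁, hJ₁⟩ := exists_nat_gt (1 / ηm)
  refine Bas.mono J₁ (hbas₂ κ₃ hκ₃0) ?_
  rintro J hJ F A h2 z hz
  have hJ0 : (0 : ℝ) ≤ J := Nat.cast_nonneg J
  have hηJ : 1 ≤ ηm * J := by
    have h2 : 1 / ηm < J := hJ₁.trans_le (by exact_mod_cast hJ)
    rw [div_lt_iff₀ hηm0] at h2
    linarith
  have hp := Pe_nonneg F.isLaw
  obtain ⟨B₂, g₀, G, H, l1, l2, l3⟩ := h2 z fun k hk => hz k (by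
    have := List.mem_range.1 hk
    omega)
  have hev : ∀ k ≤ N, EvB F c r D Dr ⌊o k * J⌋₊ M (z k) ⌊(Eb + σ k + η k) * J⌋₊ ⌊η k * J⌋₊
      (fun l => ⌊b k l * J⌋₊) (g₀ k) κ₃ B₂ (G k) (H k) := fun k hk => (l3 k (hmem k hk)).2
  obtain ⟨B₃, n1, n2, n3⟩ := hbal (c := c) (Dr := Dr) (h := ⌊ηm * J⌋₊)
    (o := fun k => ⌊o k * J⌋₊) (e := fun k => ⌊(Eb + σ k + η k) * J⌋₊)
    (hh := fun k => ⌊η k * J⌋₊) (z := z) (g := fun k l => ⌊b k l * J⌋₊) (g₀ := g₀)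
    (κ := fun _ => κ₃) (B := B₂) (G := G) (H := H)
    (hinj.mono fun y hy => by rw [Set.mem_Iio] at hy ⊢; omega) hDr (fun k hk => by
      have h5 : (⌊o k * J⌋₊ : ℝ) ≤ o k * J := Nat.floor_le (mul_nonneg (ho k hk).1.le hJ0)
      have h6 : o k * (J : ℝ) ≤ 1 * J := mul_le_mul_of_nonneg_right (ho k hk).2.1.le hJ0
      have h7 : (⌊o k * J⌋₊ : ℝ) ≤ J := by linarith
      exact_mod_cast h7)
    (fun k hk => Nat.floor_le_floor (mul_le_mul_of_nonneg_right (hσ k hk).2.2.2.2 hJ0))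
    (fun k _ => ⟨hκ₃0.le, hκ₃1⟩) hev
  have n2' : 1 / K₃ * Pe F.p B₂ ≤ Pe F.p B₃ := by
    rw [one_div, inv_mul_le_iff₀ hK₃0]
    exact n2
  have hκe : κ₃ ≤ κ * (1 / K₃) := by
    rw [mul_one_div, le_div_iff₀ hK₃0]
    exact hκ₃2
  refine ⟨B₃, g₀, G, H, fun ω hω => l1 ω (n1 ω hω), ?_,
    ⟨by linarith, hEb, fun k hk => ⟨(hσ k hk).1.le,
      (hσ k hk).2.2.2.2⟩, fun k hk => ⟨(hσ k hk).2.1.le, (hσ k hk).2.2.1⟩,
      fun k hk => ⟨(ho k hk).1.le, (ho k hk).2.2.le⟩, fun k hk l hl =>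
        ⟨((hμ k (hmem k hk)).2 l hl).1, by
        have := (hμ k (hmem k hk)).1
        have := ((hμ k (hmem k hk)).2 l hl).2
        linarith⟩, fun k hk l hl => (l3 k (hmem k hk)).1 l hl,
      fun k hk => (hev k hk).sub n1 n2' hκ.le hκe,
      fun k hk k' hk' q hq hoo hz' ω hω l hl b' hb' => ?_⟩⟩
  · calc Pe F.p A ≤ K₂ * Pe F.p B₂ := l2
      _ ≤ K₂ * (K₃ * Pe F.p B₃) := mul_le_mul_of_nonneg_left n2 hK₂.le
      _ = _ := by ring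
  · refine (n3 k hk k' hk' q hq hoo hz' ω hω l hl b' hb').trans
      (div_le_div_of_nonneg_right ?_ (by positivity))
    refine pow_le_pow_right₀ (by norm_num) (Nat.le_floor ?_)
    push_cast
    have h5 : (⌊ηm * J⌋₊ : ℝ) ≤ ηm * J := Nat.floor_le (mul_nonneg hηm0.le hJ0)
    have h6 : (C₂ : ℝ) * (⌊ηm * J⌋₊ + 1) ≤ C₂ * (2 * (ηm * J)) :=
      mul_le_mul_of_nonneg_left (by linarith) (by linarith)
    linarith

/-- **The balls of a record** `RecG`, target at the place `i`, at a list of diagonal windows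
`t + v k q`, `k ≤ N₂`. `y`: the loss in units of `q`. -/
theorem RecG.winsB (m i S' : ℕ) (hi : 1 ≤ i) (hS' : 1 ≤ S') : ∃ D : ℕ, 1 ≤ D ∧ ∀ Dr : ℕ,
    D ≤ Dr → ∃ CB : ℝ, 1 ≤ CB ∧ ∀ {S : PCl m} {al : ℝ} {gg : ℝ → ℝ}
    {P : List (Fin m) × Fin m → ℝ → ℝ → ℝ} {θ : ℝ}
    {P₂ : ℕ → List (Fin m) × Fin m → ℝ → ℝ → ℝ} {θ₂ Eb e₂ : ℕ → ℝ} {c : ℕ → Fin m}
    {Pt : ℝ → ℝ → ℝ} {ra : ℝ → ℝ} {h K₀ g : ℝ} {L T : ℕ → ℝ → ℝ → ℝ} {Sl : ℕ → ℝ}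
    {kd : ℕ → Kg} {Gs : Set ℝ} {S₀ N : ℕ} {A V : ℕ → ℝ} {S₂ N' : ℕ} {V' : ℕ → ℝ}
    {K ε q t : ℝ},
    RecG S al gg P θ P₂ θ₂ Eb e₂ c Pt ra h K₀ g L T Sl kd Gs S₀ N A V S₂ N' V' K ε q t →
    i < m → S₀ ≤ S' → ∀ (A' y r' : ℝ) (N₂ M : ℕ) (v : ℕ → ℝ), 0 < y → 0 < r' → A' ≤ K →
    (∀ k ≤ N₂, -K ≤ v k ∧ v k < A') →
    (∀ k ≤ N₂, (∃ j < N', V' j = v k) ∨ S₂ ≤ S' ∧ ∃ j < N, V j = v k) →
    ∃ (K₁ : ℝ) (b : ℕ → ℕ → ℝ), 0 < K₁ ∧ ∀ κ : ℝ, 0 < κ → Bas S (fun J F A₀ =>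
      ∀ z : ℕ → ℕ → ℕ, (∀ k ≤ N₂, ∀ p ≤ M, r' * q * J ≤ z k p ∧
        z k p ≤ ⌊(t + A' * q) * J⌋₊ - ⌊(t + v k * q) * J⌋₊) →
      ∃ (B : F.Ω → Prop) (g₀ : ℕ → ℕ → ℕ)
        (G : ℕ → PtT F → ℕ → MvPolynomial (Option (Fin m)) ℝ)
        (H : ℕ → LnT F → ℕ → MvPolynomial (Option (Fin m)) ℝ), Sub B A₀ ∧
        Pe F.p A₀ ≤ K₁ * Pe F.p B ∧
        WinB F c i D Dr N₂ M CB (t + A' * q) (Eb i) (y * q) (fun k => t + v k * q)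
          (fun _ => y * q) (fun _ => y * q) (fun k l => L l (t + v k * q) (t + v k * q)) b κ z B
          g₀ G H) := by
  obtain ⟨D, hD, hcon⟩ := winB_con m i S' hi hS'
  refine ⟨D, hD, fun Dr hDr => ?_⟩
  obtain ⟨CB, hCB, hcon⟩ := hcon Dr hDr
  refine ⟨CB, hCB, ?_⟩
  intro S al gg P θ P₂ θ₂ Eb e₂ c Pt ra h K₀ g L T Sl kd Gs S₀ N A V S₂ N' V' K ε q t R him hSS A'
    y r' N₂ M v hy hr' hAK hv hch
  have W := R.tg i hi him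
  have hq := R.q0
  have hyq : 0 < y * q := mul_pos hy hq
  have hAq : A' * q ≤ K * q := mul_le_mul_of_nonneg_right hAK hq.le
  have hvq : ∀ k ≤ N₂, -(K * q) ≤ v k * q ∧ v k * q < A' * q := fun k hk => by
    obtain ⟨h1, h2⟩ := hv k hk
    have h3 := mul_le_mul_of_nonneg_right h1 hq.le
    have h4 := mul_lt_mul_of_pos_right h2 hq
    exact ⟨by linarith, h4⟩
  have hlv : ∀ l ≤ i, lvN P c i (L i) l = L l := fun l hl => (R.lv_at him hl).symm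
  obtain ⟨K₁, b, hK₁, hbas⟩ := hcon (S := S) (P := P) (θ := θ) (c := c) (Pt := L i)
    (a := t + A' * q) (Eb := Eb i) (ηm := y * q) (o := fun k => t + v k * q)
    (η := fun _ => y * q) (σ := fun _ => y * q) (r₀ := fun _ => r' * q) N₂ M R.thr R.th0 R.tmh
    (R.inj.mono fun x hx => by rw [Set.mem_Iio] at hx ⊢; omega) (R.lawL i him) W.Eb0.le
    (fun k hk => by
      have h1 := hvq k hk
      refine ⟨by
        show t + v k * q < t + A' * q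
        linarith, ?_, fun l hl => ?_⟩
      · have h2 : PtI S P θ c i (L i) S' (Eb i) (t + v k * q) (t + v k * q) := by
          rcases hch k hk with ⟨j, hj, hV⟩ | ⟨hS2, j, hj, hV⟩
          · have := (W.ptc j hj).mono hSS
            rwa [hV] at this
          · have := ((W.pt j hj).2).mono hS2
            rwa [hV] at this
        obtain ⟨ρ, vs, e, e₀, E, sg, Q, d1, d2, -⟩ := h2
        exact ⟨ρ, vs, e, e₀, E, sg, Q, d1, d2⟩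
      · rw [hlv l hl]
        have h3 := W.room l hl (t + v k * q) (by
          rw [abs_le]
          constructor <;> linarith)
        have h4 : 0 ≤ K * q := by linarith
        show L l (t + v k * q) (t + v k * q) + Eb i + (t + A' * q - (t + v k * q)) < 1
        linarith)
    (fun k hk => ⟨hyq, hyq, le_rfl, mul_pos hr' hq, le_rfl⟩)
  refine ⟨K₁, b, hK₁, fun κ hκ => Bas.mono 0 (hbas κ hκ) ?_⟩
  rintro J - F A₀ hA z hz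
  obtain ⟨B, g₀, G, H, k1, k2, k3⟩ := hA z hz
  refine ⟨B, g₀, G, H, k1, k2, k3.lvc fun k _ l hl => ?_⟩
  show L l _ _ = lvN P c i (L i) l _ _
  rw [hlv l hl]

end Pool.D2R
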