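import Pool.Agent.H23.D2.Num

/-!
# The closed gradient on the event of finitely many windows

`win_con`: the event `Wins` exists in a class. `win_lin`: `LinD` at a window of `Wins`, from a
visible polynomial `Gp` with natural velocities and a closed gradient. `win_no`: such an event is
small.
-/

set_option autoImplicit false

namespace Pool.D2R

open Finset Real MvPolynomial
open Pool.Agent.H49.Ent Pool.Agent.H32.Dense Pool.STK Pool.KA Pool.KSAT Pool.K2S Pool.PB Pool.S6C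
open Pool.GEN Pool.CHT Pool.CHX Pool.ISO
open Pool.LBT (ThrOf)
open Pool.LEV (Law)
open Pool.FLF (Fam.sub)

variable {m J : ℕ}

/-- **`Wins` in a class.** -/
theorem win_con (m r S₀ : ℕ) (hr : 1 ≤ r) (hS₀ : 1 ≤ S₀) : ∃ D : ℕ, 1 ≤ D ∧ ∀ Dr : ℕ, D ≤ Dr →
    ∃ C : ℝ, 1 ≤ C ∧ ∀ {S : PCl m} {P : List (Fin m) × Fin m → ℝ → ℝ → ℝ} {θ : ℝ}
    {c : ℕ → Fin m} {Pt : ℝ → ℝ → ℝ} {R : ℕ → Prop} {a Eb ηm : ℝ} {o ε p' η σ r₀ : ℕ → ℝ}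
    (N M : ℕ), ThrOf (chsys m θ) S P → 0 < θ → TmH S → Set.InjOn c (Set.Iio (r + 1)) → Law Pt →
    0 ≤ Eb → (∀ k ≤ N, WinD S P θ c r Pt a (o k) S₀ Eb (ε k) R) →
    (∀ k ≤ N, C * ε k < o k ∧ C * ε k < η k ∧ 2 * (C * η k) ≤ o k) →
    (∀ k ≤ N, C * η k ≤ p' k ∧ p' k + C * ε k < Pt a (o k)) →
    (∀ k ≤ N, 0 < σ k ∧ σ k ≤ ηm ∧ 0 < r₀ k ∧ η k < a ∧ η k ≤ ηm) →
    (∀ k ≤ N, ∀ l ≤ r, lvN P c r Pt l (o k) (o k) + (a - o k) + (Eb + σ k + η k) < 1) →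
    (∀ k ≤ N, ∀ l < r, bet P c l a (o k) + (Eb + σ k + η k) < 1) →
    ∃ (K₁ : ℝ) (μ : ℕ → ℝ) (b : ℕ → ℕ → ℝ), 0 < K₁ ∧ (∀ k ≤ N, 0 < μ k ∧ ∀ l ≤ r,
        lvN P c r Pt l (o k) (o k) - σ k < b k l ∧
        b k l < lvN P c r Pt l (o k) (o k) - μ k) ∧
      ∀ κ : ℝ, 0 < κ → Bas S (fun J F A => ∀ z : ℕ → ℕ → ℕ,
        (∀ k ≤ N, ∀ i ≤ M, r₀ k * J ≤ z k i ∧ z k i ≤ ⌊a * J⌋₊ - ⌊o k * J⌋₊) →
        ∃ (B : F.Ω → Prop) (gc gT g₀ : ℕ → ℕ → ℕ)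
          (G : ℕ → PtT F → ℕ → MvPolynomial (Option (Fin m)) ℝ)
          (H : ℕ → LnT F → ℕ → MvPolynomial (Option (Fin m)) ℝ)
          (T : ℕ → PtT F → ℕ → MvPolynomial (Option (Fin m)) ℝ)
          (TH : ℕ → LnT F → ℕ → MvPolynomial (Option (Fin m)) ℝ)
          (Gt : ℕ → PtT F → MvPolynomial (Option (Fin m)) ℝ)
          (Ht : ℕ → LnT F → MvPolynomial (Option (Fin m)) ℝ), Sub B A ∧
          Pe F.p A ≤ K₁ * Pe F.p B ∧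
          Wins F c r D Dr N M R C a Eb ηm o ε p' η σ
            (fun k l => lvN P c r Pt l (o k) (o k)) (fun k l => bet P c l a (o k)) b κ z B gc gT
            g₀ G H T TH Gt Ht) := by
  obtain ⟨D, hD, hbal⟩ := bal_con m r S₀ hr hS₀
  refine ⟨D, hD, fun Dr hDr => ?_⟩
  obtain ⟨C, hC, hbal⟩ := hbal Dr hDr
  refine ⟨C, hC, ?_⟩
  intro S P θ c Pt R a Eb ηm o ε p' η σ r₀ N M hP hθ hS hinj hPt hEb hW hε hp' hσ htop hbet
  have hε0 : ∀ k ≤ N, 0 ≤ C * ε k := fun k hk => mul_nonneg (by linarith) (hW k hk).ε0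
  have hη0 : ∀ k ≤ N, 0 < η k := fun k hk => by
    have := hε0 k hk
    have := (hε k hk).2.1
    linarith
  obtain ⟨K₁, μ, b, h1, h2, h3⟩ := hbal N M hP hθ hS hinj hPt hW
    (fun k hk => ⟨(hε k hk).1, (hε k hk).2.1⟩)
    (fun k hk => ⟨le_trans (mul_nonneg (by linarith) (hη0 k hk).le) (hp' k hk).1,
      (hp' k hk).2⟩) (fun k hk => ⟨(hσ k hk).1, (hσ k hk).2.2.1, (hσ k hk).2.2.2.1⟩)
    (fun k hk => (hσ k hk).2.2.2.2) htop hbet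
  refine ⟨K₁, μ, b, h1, h2, fun κ hκ => (h3 κ hκ).mono 0 ?_⟩
  rintro J - F A hA z hz
  obtain ⟨B, gc, gT, g₀, G, H, T, TH, Gt, Ht, k1, k2, k3, k4, k5⟩ := hA z hz
  have hJ : (0 : ℝ) ≤ J := Nat.cast_nonneg J
  have ho : ∀ k ≤ N, 0 < o k ∧ o k < a := fun k hk => by
    obtain ⟨ρ, vs, e, e₀, E, sg, Q, d1, -⟩ := (hW k hk).dw
    exact ⟨d1.w0, (hW k hk).lt⟩
  refine ⟨B, gc, gT, g₀, G, H, T, TH, Gt, Ht, k1, k2, hC, hEb, fun k hk => ⟨(hη0 k hk).le,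
    (hσ k hk).2.2.2.2⟩, fun k hk => ⟨(hσ k hk).1.le, (hσ k hk).2.1⟩, fun k hk => (hW k hk).ε0,
    fun k hk => ⟨(ho k hk).1.le, (ho k hk).2.le⟩, fun k hk => (hp' k hk).1, fun k hk => ?_,
    fun k hk l hl => ⟨((h2 k hk).2 l hl).1, by
      have := (h2 k hk).1
      have := ((h2 k hk).2 l hl).2
      linarith⟩, fun k hk => (k3 k hk).1, fun k hk => (k3 k hk).2, k4, k5⟩
  -- the side of the target
  have hs := (k3 k hk).1.c1 r le_rfl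
  have hlow : o k ≤ lvN P c r Pt r (o k) (o k) := by
    unfold lvN
    rw [if_neg (lt_irrefl r)]
    obtain ⟨ρ, vs, e, e₀, E, sg, Q, d1, -⟩ := (hW k hk).dw
    exact d1.self.low
  have h4 : (0 : ℝ) ≤ ((⌊a * J⌋₊ - ⌊o k * J⌋₊ : ℕ) : ℝ) := Nat.cast_nonneg _
  have h5 := (hε k hk).2.2
  have h6 : C * η k ≤ lvN P c r Pt r (o k) (o k) - η k := by
    have : η k ≤ C * η k := le_mul_of_one_le_left (hη0 k hk).le hC
    linarith
  have h7 := mul_le_mul_of_nonneg_right h6 hJ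
  linarith

/-- The spatial norm with the sides `g₀` and with the sides of the ball. -/
theorem nrm_conv {c : ℕ → Fin m} {ψ : ℕ → MvPolynomial (Option (Fin m)) ℝ} {g g₀ : ℕ → ℕ}
    {o q Y i : ℕ} {x V : Option (Fin m) → ℝ} (hV : V none = 0)
    (h : ∀ l < i, g₀ l ≤ g l + 2 * Y) :
    nrm c ψ g₀ o i x V ≤ 2 ^ (2 * Y) / 2 ^ q * nrm c ψ (fun l => g l + q) (o + q) i x V := by
  rw [nrm_sp _ _ _ hV, nrm_sp _ _ _ hV, Finset.mul_sum]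
  refine Finset.sum_le_sum fun l hl => ?_
  rw [← mul_assoc]
  refine mul_le_mul_of_nonneg_right ?_ (abs_nonneg _)
  rw [div_mul_eq_mul_div, le_div_iff₀ (by positivity), ← pow_add, ← pow_add]
  have := h l (mem_range.1 hl)
  exact pow_le_pow_right₀ (by norm_num) (by omega)

/-- **`LinD` at a window of `Wins`.** -/
theorem win_lin {F : Fam m J} {c : ℕ → Fin m} {r D Dr N M : ℕ} {R : ℕ → Prop}
    {C₀ a Eb ηm : ℝ} {o ε p' η σ : ℕ → ℝ} {lv be b : ℕ → ℕ → ℝ} {κ : ℝ} {z : ℕ → ℕ → ℕ}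
    {B B' : F.Ω → Prop} {gc gT g₀ : ℕ → ℕ → ℕ}
    {G : ℕ → PtT F → ℕ → MvPolynomial (Option (Fin m)) ℝ}
    {H : ℕ → LnT F → ℕ → MvPolynomial (Option (Fin m)) ℝ}
    {T : ℕ → PtT F → ℕ → MvPolynomial (Option (Fin m)) ℝ}
    {TH : ℕ → LnT F → ℕ → MvPolynomial (Option (Fin m)) ℝ}
    {Gt : ℕ → PtT F → MvPolynomial (Option (Fin m)) ℝ}
    {Ht : ℕ → LnT F → MvPolynomial (Option (Fin m)) ℝ}
    (W : Wins F c r D Dr N M R C₀ a Eb ηm o ε p' η σ lv be b κ z B gc gT g₀ G H T TH Gt Ht)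
    {i k₀ jq q nn s Y D₁ : ℕ} {ε₂ : ℝ} {Gp : PtT F → MvPolynomial (Option (Fin m)) ℝ}
    {lam : LnT F → ℕ → Polynomial ℝ} (hi : i ≤ r) (hk₀ : k₀ ≤ N) (hjq : jq ≤ M)
    (hq : z k₀ jq = q) (hY : C₀ * (ηm * J) ≤ Y) (hY1 : 1 ≤ Y)
    (hnn : q + nn + 2 * Y ≤ ⌊a * J⌋₊ - ⌊o k₀ * J⌋₊) (hB : Sub B' B)
    (hvel : ∀ ω ν, B' ω → B' ν → ptr F J ω = ptr F J ν →
      |bd F ν (some (c i)) - dd (Gp (ptr F J ω)) (bt F ω) (bd F ν)| ≤ ε₂)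
    (hgpn : ∀ ω, B' ω → ∀ V : Option (Fin m) → ℝ, V none = 0 →
      |dd (Gp (ptr F J ω)) (bt F ω) V - dd (G k₀ (ptr F J ω) i) (bt F ω) V| ≤
        2 ^ Y / 2 ^ g₀ k₀ i * nrm c (G k₀ (ptr F J ω)) (g₀ k₀) ⌊o k₀ * J⌋₊ i (bt F ω) V)
    (hshf : ∀ ω ν, B' ω → B' ν → ptr F J ω = ptr F J ν → ∀ V : Option (Fin m) → ℝ,
      V none = 0 → |dd (Gp (ptr F J ω)) (bt F ν) V - dd (Gp (ptr F J ω)) (bt F ω) V| ≤
        2 ^ Y / 2 ^ (g₀ k₀ i + s) *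
          nrm c (G k₀ (ptr F J ω)) (g₀ k₀) ⌊o k₀ * J⌋₊ i (bt F ω) V)
    (hd : ∀ s l, (lam s l).natDegree ≤ D₁)
    (hspa : ∀ ω, B' ω → ∀ V : Option (Fin m) → ℝ, V none = 0 →
      |∑ l ∈ range i, (lam (slam F ⌊o k₀ * J⌋₊ ω) l).eval (Pool.PB.Trl.rt F ⌊o k₀ * J⌋₊ ω) *
        V (some (c l)) - dd (Gp (ptr F J ω)) (bt F ω) V| ≤ 2 ^ Y / 2 ^ (g₀ k₀ i + s) *
          nrm c (G k₀ (ptr F J ω)) (g₀ k₀) ⌊o k₀ * J⌋₊ i (bt F ω) V) :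
    LinD F c i D D₁ ⌊o k₀ * J⌋₊ (⌊o k₀ * J⌋₊ + q) ⌊a * J⌋₊ nn (5 * Y)
      ⌊(Eb + 2 * ηm) * J⌋₊ (fun l => ⌊b k₀ l * J⌋₊ + q) (gT k₀)
      (2 ^ (3 * Y) / 2 ^ (g₀ k₀ i + s + q)) ε₂ B'
      (fun y l => Gno (c l) J J (fun y => G k₀ y l) y) (H k₀) (T k₀) Gp lam := by
  have hJ : (0 : ℝ) ≤ J := Nat.cast_nonneg J
  have hE := W.evs k₀ hk₀
  obtain ⟨e1, e2⟩ := W.hη k₀ hk₀
  obtain ⟨e3, e4⟩ := W.hσ k₀ hk₀
  have hηm0 : 0 ≤ ηm := e1.trans e2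
  have hηY : ηm * J ≤ Y :=
    (le_mul_of_one_le_left (mul_nonneg hηm0 hJ) W.C1).trans hY
  have hY1R : (1 : ℝ) ≤ Y := by exact_mod_cast hY1
  have hfl : ⌊o k₀ * J⌋₊ ≤ ⌊a * J⌋₊ := Nat.floor_le_floor
    (mul_le_mul_of_nonneg_right (W.ho k₀ hk₀).2 hJ)
  have hg1 : ∀ l ≤ r, ⌊b k₀ l * J⌋₊ ≤ g₀ k₀ l + Y := by
    intro l hl
    obtain ⟨-, h1, h2, -⟩ := W.g_num hk₀ hl
    have h3 : (⌊b k₀ l * J⌋₊ : ℝ) ≤ ((g₀ k₀ l + Y : ℕ) : ℝ) := by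
      push_cast
      linarith
    exact_mod_cast h3
  have hg2 : ∀ l ≤ r, g₀ k₀ l ≤ ⌊b k₀ l * J⌋₊ + 2 * Y := by
    intro l hl
    obtain ⟨h1, -, -, h2, -⟩ := W.g_num hk₀ hl
    have h3 : (g₀ k₀ l : ℝ) ≤ ((⌊b k₀ l * J⌋₊ + 2 * Y : ℕ) : ℝ) := by
      push_cast
      linarith
    exact_mod_cast h3
  have hconv : ∀ ω (V : Option (Fin m) → ℝ), V none = 0 →
      nrm c (G k₀ (ptr F J ω)) (g₀ k₀) ⌊o k₀ * J⌋₊ i (bt F ω) V ≤ 2 ^ (2 * Y) / 2 ^ q *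
        nrm c (G k₀ (ptr F J ω)) (fun l => ⌊b k₀ l * J⌋₊ + q) (⌊o k₀ * J⌋₊ + q) i (bt F ω) V :=
    fun ω V hV => nrm_conv hV fun l hl => hg2 l (by omega)
  have heps : ∀ ω (V : Option (Fin m) → ℝ) (x : ℝ), V none = 0 →
      x ≤ 2 ^ Y / 2 ^ (g₀ k₀ i + s) *
        nrm c (G k₀ (ptr F J ω)) (g₀ k₀) ⌊o k₀ * J⌋₊ i (bt F ω) V →
      x ≤ 2 ^ (3 * Y) / 2 ^ (g₀ k₀ i + s + q) *
        nrm c (G k₀ (ptr F J ω)) (fun l => ⌊b k₀ l * J⌋₊ + q) (⌊o k₀ * J⌋₊ + q) i (bt F ω) V := by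
    intro ω V x hV hx
    refine hx.trans ((mul_le_mul_of_nonneg_left (hconv ω V hV) (by positivity)).trans
      (le_of_eq ?_))
    rw [← mul_assoc, div_mul_div_comm, ← pow_add, ← pow_add]
    congr 3
    ring
  exact
    { ball := by
        have h1 := (hE.rad jq hjq).mono (show i + 1 ≤ r + 1 by omega) (fun _ => le_rfl) le_rfl
          (Nat.floor_le_floor (mul_le_mul_of_nonneg_right
            (by linarith : Eb + σ k₀ + η k₀ ≤ Eb + 2 * ηm) hJ))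
        rw [hq] at h1
        exact h1.sub hB
      thp := fun ω hω l hl => hE.thin.pos ω (hB ω hω) l (by omega)
      inc := fun ω hω b' hb => by
        refine ⟨hb.1.trans (inv_mono (by omega)), fun l hl => ?_⟩
        have h1 := W.bal.inc k₀ hk₀ ω (hB ω hω) i hi b' hb l hl
        refine h1.trans ?_
        have h2 : (⌊C₀ * (ηm * J)⌋₊ : ℝ) ≤ Y :=
          (Nat.floor_le (mul_nonneg (by linarith [W.C1]) (mul_nonneg hηm0 hJ))).trans hY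
        have h3 : ⌊C₀ * (ηm * J)⌋₊ ≤ Y := by exact_mod_cast h2
        obtain ⟨-, h4, -, -, h5, -⟩ := W.g_num hk₀ (show l ≤ r by omega)
        have h6 : (q : ℝ) + nn + 2 * Y ≤ ⌊a * J⌋₊ - ⌊o k₀ * J⌋₊ := by
          rw [← Nat.cast_sub hfl]
          exact_mod_cast hnn
        have h7 : ((⌊b k₀ l * J⌋₊ + q + nn + Y : ℕ) : ℝ) ≤ (gc k₀ l : ℕ) := by
          push_cast
          linarith
        have h8 : ⌊b k₀ l * J⌋₊ + q + nn + Y ≤ gc k₀ l := by exact_mod_cast h7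
        rw [div_le_div_iff₀ (by positivity) (by positivity), one_mul, ← pow_add]
        exact pow_le_pow_right₀ (by norm_num) (by omega)
      dlam := hd
      nat := fun ω ν hω hν hpt l hl => by
        show |bd F ν (some (c l)) - dd (Gno (c l) J J (fun y => G k₀ y l) (ptr F J ω)) (bt F ω)
          (bd F ν)| ≤ 2 ^ (5 * Y) * 2 ^ (⌊o k₀ * J⌋₊ + q) / 2 ^ (⌊b k₀ l * J⌋₊ + q)
        rw [dd_Gno]
        refine (W.vel hk₀ hY ω ν (hB ω hω) (hB ν hν) hpt l (by omega)).trans ?_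
        rw [div_le_div_iff₀ (by positivity) (by positivity), ← pow_add, ← pow_add, ← pow_add,
          ← pow_add]
        have := hg1 l (by omega)
        exact pow_le_pow_right₀ (by norm_num) (by omega)
      vel := hvel
      spa := fun ω hω V hV => by
        rw [nrm_Gno]
        exact heps ω V _ hV (hspa ω hω V hV)
      lnat := fun ω hω V hV => by
        show |_ - dd (Gno (c i) J J (fun y => G k₀ y i) (ptr F J ω)) (bt F ω) V| ≤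
          2 ^ (5 * Y) / 2 ^ (⌊b k₀ i * J⌋₊ + q) * _
        rw [nrm_Gno, dd_Gno]
        have h1 := hspa ω hω V hV
        have h2 := hgpn ω hω V hV
        have h3 := hconv ω V hV
        have h4 := nrm_nonneg c (G k₀ (ptr F J ω)) (g₀ k₀) ⌊o k₀ * J⌋₊ i (bt F ω) V
        have h5 := nrm_nonneg c (G k₀ (ptr F J ω)) (fun l => ⌊b k₀ l * J⌋₊ + q)
          (⌊o k₀ * J⌋₊ + q) i (bt F ω) V
        have e5 : (2 : ℝ) ^ Y / 2 ^ (g₀ k₀ i + s) ≤ 2 ^ Y / 2 ^ g₀ k₀ i :=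
          div_le_div_of_nonneg_left (by positivity) (by positivity)
            (pow_le_pow_right₀ (by norm_num) (Nat.le_add_right _ _))
        have h6 : |∑ l ∈ range i, (lam (slam F ⌊o k₀ * J⌋₊ ω) l).eval
            (Pool.PB.Trl.rt F ⌊o k₀ * J⌋₊ ω) * V (some (c l)) -
            dd (G k₀ (ptr F J ω) i) (bt F ω) V| ≤ 2 ^ (Y + 1) / 2 ^ g₀ k₀ i *
            nrm c (G k₀ (ptr F J ω)) (g₀ k₀) ⌊o k₀ * J⌋₊ i (bt F ω) V := by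
          have e6 : ∀ x y w : ℝ, x - w = (x - y) + (y - w) := fun x y w => by ring
          rw [e6 _ (dd (Gp (ptr F J ω)) (bt F ω) V)]
          refine (abs_add_le _ _).trans ((add_le_add (h1.trans (mul_le_mul_of_nonneg_right e5
            h4)) h2).trans (le_of_eq ?_))
          rw [pow_succ]
          ring
        refine h6.trans ((mul_le_mul_of_nonneg_left h3 (by positivity)).trans ?_)
        rw [← mul_assoc]
        refine mul_le_mul_of_nonneg_right ?_ h5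
        rw [div_mul_div_comm, ← pow_add, ← pow_add, div_le_div_iff₀ (by positivity)
          (by positivity), ← pow_add, ← pow_add]
        have := hg1 i hi
        exact pow_le_pow_right₀ (by norm_num) (by omega)
      shf := fun ω ν hω hν hpt V hV => by
        rw [nrm_Gno]
        exact heps ω V _ hV (hshf ω ν hω hν hpt V hV) }

/-- The natural Lipschitz exponents of the thin list. -/
theorem nlp_le {g gT : ℕ → ℕ} {i p k : ℕ}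
    (h : ∀ j < i, g j ≤ g i + k ∨ g j + p ≤ g i + gT j + k) :
    ∀ l < i, nlp g l i ≤ nlp (fun j => if j < i then gT j else p) l i + k := by
  intro l hl
  unfold nlp
  obtain ⟨T, hT⟩ : ∃ T : ℕ, T = (Finset.Icc l i).sup fun j => if j < i then gT j else p :=
    ⟨_, rfl⟩
  have h1 : (Finset.Icc l i).sup g ≤ g i + (T - p) + k := by
    refine Finset.sup_le fun j hj => ?_
    rw [Finset.mem_Icc] at hj
    rcases Nat.lt_or_ge j i with h2 | h2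
    · have h3 : gT j ≤ T := by
        rw [hT]
        have := Finset.le_sup (f := fun j => if j < i then gT j else p)
          (Finset.mem_Icc.2 ⟨hj.1, hj.2⟩)
        simpa only [if_pos h2] using this
      rcases h j h2 with h4 | h4 <;> omega
    · have h3 : j = i := by omega
      rw [h3]
      omega
  have h2 : (if i < i then gT i else p) = p := if_neg (lt_irrefl i)
  show (Finset.Icc l i).sup g - g i ≤ (Finset.Icc l i).sup (fun j => if j < i then gT j else p) -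
    (if i < i then gT i else p) + k
  rw [h2, ← hT]
  omega

/-- **A closed gradient with gain is impossible, in a class**: the class end over `Wins`. -/
theorem win_no (m D₁ D i : ℕ) (hD : 1 ≤ D) : ∃ C : ℝ, 1 ≤ C ∧ ∀ {S : PCl m}
    {P : List (Fin m) × Fin m → ℝ → ℝ → ℝ} {θ : ℝ} {c : ℕ → Fin m} {R : ℕ → Prop}
    {C₀ Eb ηm ζ : ℝ} {o ε p' η σ : ℕ → ℝ} {lv be : ℕ → ℕ → ℝ} {r Dr N M k₀ n : ℕ} {a w : ℚ}
    {q₁ s₁ h e : ℝ}, ThrOf (chsys m θ) S P → TmH S → Set.InjOn c (Set.Iio (r + 1)) → i ≤ r →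
    k₀ ≤ N → n ≤ N → o k₀ = w → 0 ≤ w → w ≤ a → a ≤ 1 → w < 1 → e < θ * w → 0 < h → 0 < ζ →
    C₀ * ηm ≤ ζ → 0 ≤ q₁ → bet P c i a w + h ≤ 1 → Eb + C * ζ ≤ e →
    bet P c i a w + h + C * ζ ≤ lv k₀ i + s₁ + (a - w) →
    bet P c i a w + h + C * ζ ≤ lv n i - (o n - w) + (a - w) →
    bet P c i a w + h + C * ζ + q₁ ≤ lv k₀ i + 2 * (a - w) → q₁ + C * ζ ≤ a - w →
    (∀ l ≤ i, Eb + lv k₀ l + 2 * (a - w) + C * ζ ≤ 1) → (∀ l < i, ¬ R l → be k₀ l ≤ 1) →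
    (∀ j < i, lv k₀ j ≤ lv k₀ i + ζ ∨ (R j ∧ bet P c i a w + h ≤ lv k₀ i + (a - w) + ζ) ∨
      (¬ R j ∧ lv k₀ j + (bet P c i a w + h) ≤ lv k₀ i + be k₀ j + ζ)) →
    ∃ δ : ℝ, 0 < δ ∧ Bas S (fun J F A => ∀ (z : ℕ → ℕ → ℕ) (κ : ℝ) (b : ℕ → ℕ → ℝ)
      (B : F.Ω → Prop) (gc gT g₀ : ℕ → ℕ → ℕ)
      (G : ℕ → PtT F → ℕ → MvPolynomial (Option (Fin m)) ℝ)
      (H : ℕ → LnT F → ℕ → MvPolynomial (Option (Fin m)) ℝ)
      (T : ℕ → PtT F → ℕ → MvPolynomial (Option (Fin m)) ℝ)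
      (TH : ℕ → LnT F → ℕ → MvPolynomial (Option (Fin m)) ℝ)
      (Gt : ℕ → PtT F → MvPolynomial (Option (Fin m)) ℝ)
      (Ht : ℕ → LnT F → MvPolynomial (Option (Fin m)) ℝ) (jq : ℕ),
      Wins F c r D Dr N M R C₀ a Eb ηm o ε p' η σ lv be b κ z B gc gT g₀ G H T TH Gt Ht →
      Sub B A → jq ≤ M → z k₀ jq = ⌊q₁ * J⌋₊ →
      ∀ (B' : F.Ω → Prop) (Gp : PtT F → MvPolynomial (Option (Fin m)) ℝ)
      (lam : LnT F → ℕ → Polynomial ℝ), Sub B' B →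
      (∀ ω ν, B' ω → B' ν → ptr F J ω = ptr F J ν →
        |bd F ν (some (c i)) - dd (Gp (ptr F J ω)) (bt F ω) (bd F ν)| ≤
          2 ^ ⌊ζ * J⌋₊ * 2 ^ ⌊o n * J⌋₊ / 2 ^ g₀ n i) →
      (∀ ω, B' ω → ∀ V : Option (Fin m) → ℝ, V none = 0 →
        |dd (Gp (ptr F J ω)) (bt F ω) V - dd (G k₀ (ptr F J ω) i) (bt F ω) V| ≤
          2 ^ ⌊ζ * J⌋₊ / 2 ^ g₀ k₀ i *
            nrm c (G k₀ (ptr F J ω)) (g₀ k₀) ⌊o k₀ * J⌋₊ i (bt F ω) V) →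
      (∀ ω ν, B' ω → B' ν → ptr F J ω = ptr F J ν → ∀ V : Option (Fin m) → ℝ,
        V none = 0 → |dd (Gp (ptr F J ω)) (bt F ν) V - dd (Gp (ptr F J ω)) (bt F ω) V| ≤
          2 ^ ⌊ζ * J⌋₊ / 2 ^ (g₀ k₀ i + ⌊s₁ * J⌋₊) *
            nrm c (G k₀ (ptr F J ω)) (g₀ k₀) ⌊o k₀ * J⌋₊ i (bt F ω) V) →
      (∀ s l, (lam s l).natDegree ≤ D₁) →
      (∀ ω, B' ω → ∀ V : Option (Fin m) → ℝ, V none = 0 →
        |∑ l ∈ range i, (lam (slam F ⌊o k₀ * J⌋₊ ω) l).eval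
            (Pool.PB.Trl.rt F ⌊o k₀ * J⌋₊ ω) * V (some (c l)) -
          dd (Gp (ptr F J ω)) (bt F ω) V| ≤ 2 ^ ⌊ζ * J⌋₊ / 2 ^ (g₀ k₀ i + ⌊s₁ * J⌋₊) *
            nrm c (G k₀ (ptr F J ω)) (g₀ k₀) ⌊o k₀ * J⌋₊ i (bt F ω) V) →
      Pe F.p B' ≤ Real.exp (-(δ * J)) * Pe F.p A) := by
  obtain ⟨C', hC', hDC, hcon⟩ := con_no (m := m) D₁ D i hD
  have hC'R : (1 : ℝ) ≤ C' := by exact_mod_cast hC'
  refine ⟨2 * C' + 100, by linarith, ?_⟩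
  intro S P θ c R C₀ Eb ηm ζ o ε p' η σ lv be r Dr N M k₀ n a w q₁ s₁ h e hP hS hc hi hk₀ hn
    how hw hwa ha hw1 he hh hζ hCη hq₁ hbet hEe h1 h2 h3 h4 h5 hbe hnl
  have hci : Set.InjOn c (Set.Iio (i + 1)) := hc.mono fun y hy => by
    rw [Set.mem_Iio] at hy ⊢
    omega
  obtain ⟨δ, hδ, hbas⟩ := hcon hP hS c hci a w e h ζ hw hwa ha hw1 he hh hζ hbet
  refine ⟨δ, hδ, ?_⟩
  obtain ⟨J₁, hJ₁⟩ := exists_nat_gt (1 / ζ)
  refine Bas.mono J₁ hbas ?_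
  intro J hJ F A hA z κ b B gc gT g₀ G H T TH Gt Ht jq W hBA hjq hzq B' Gp lam hB' hvel hgpn hshf
    hd hspa
  have hJ0 : (0 : ℝ) ≤ J := Nat.cast_nonneg J
  have hζJ : 1 ≤ ζ * J := by
    have : 1 / ζ < J := hJ₁.trans_le (by exact_mod_cast hJ)
    rw [div_lt_iff₀ hζ] at this
    linarith
  -- the unit
  obtain ⟨Y, hY⟩ : ∃ Y : ℕ, Y = ⌊ζ * J⌋₊ + 1 := ⟨_, rfl⟩
  have hY1 : ζ * J ≤ Y := by
    rw [hY]
    push_cast
    exact (Nat.lt_floor_add_one _).le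
  have hY2 : (Y : ℝ) ≤ 2 * (ζ * J) := by
    rw [hY]
    push_cast
    have := Nat.floor_le (by linarith : 0 ≤ ζ * (J : ℝ))
    linarith
  have hYp : (2 : ℝ) ^ ⌊ζ * J⌋₊ ≤ 2 ^ Y := by
    rw [hY]
    exact pow_le_pow_right₀ (by norm_num) (Nat.le_succ _)
  have hYone : 1 ≤ Y := by omega
  have hCY : C₀ * (ηm * J) ≤ Y := by
    have : C₀ * (ηm * J) = C₀ * ηm * J := by ring
    rw [this]
    exact (mul_le_mul_of_nonneg_right hCη hJ0).trans hY1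
  have hηm0 : 0 ≤ ηm := (W.hη k₀ hk₀).1.trans (W.hη k₀ hk₀).2
  have hηY : ηm * J ≤ Y := (le_mul_of_one_le_left (mul_nonneg hηm0 hJ0) W.C1).trans hCY
  -- the times
  have hwR : (0 : ℝ) ≤ w := by exact_mod_cast hw
  have hwaR : (w : ℝ) ≤ a := by exact_mod_cast hwa
  have hfw1 : (⌊(w : ℝ) * J⌋₊ : ℝ) ≤ w * J := Nat.floor_le (mul_nonneg hwR hJ0)
  have hfw2 := (Nat.lt_floor_add_one ((w : ℝ) * (J : ℝ))).le
  have hfa1 : (⌊(a : ℝ) * J⌋₊ : ℝ) ≤ a * J := Nat.floor_le (mul_nonneg (hwR.trans hwaR) hJ0)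
  have hfa2 := (Nat.lt_floor_add_one ((a : ℝ) * (J : ℝ))).le
  have hfl : ⌊(w : ℝ) * J⌋₊ ≤ ⌊(a : ℝ) * J⌋₊ := Nat.floor_le_floor
    (mul_le_mul_of_nonneg_right hwaR hJ0)
  obtain ⟨v, hv⟩ : ∃ v : ℕ, v = ⌊(a : ℝ) * J⌋₊ - ⌊(w : ℝ) * J⌋₊ := ⟨_, rfl⟩
  have hvR : (v : ℝ) = ⌊(a : ℝ) * J⌋₊ - ⌊(w : ℝ) * J⌋₊ := by rw [hv, Nat.cast_sub hfl]
  obtain ⟨q, hq⟩ : ∃ q : ℕ, q = ⌊q₁ * J⌋₊ := ⟨_, rfl⟩
  have hq1 : (q : ℝ) ≤ q₁ * J := by rw [hq]; exact Nat.floor_le (mul_nonneg hq₁ hJ0)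
  have hmul : ∀ {x y : ℝ}, x ≤ y → x * (J : ℝ) ≤ y * J := fun h =>
    mul_le_mul_of_nonneg_right h hJ0
  have hΛ : (2 * C' + 100) * ζ * (J : ℝ) ≥ 2 * C' + 50 * Y := by
    have e1 : (2 * C' + 100) * ζ * (J : ℝ) = 2 * C' * (ζ * J) + 50 * (2 * (ζ * J)) := by ring
    rw [e1]
    have e2 : 2 * (C' : ℝ) * 1 ≤ 2 * C' * (ζ * J) := mul_le_mul_of_nonneg_left hζJ (by linarith)
    linarith
  have g1 := hmul h1
  have g2 := hmul h2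
  have g3 := hmul h3
  have g4 := hmul h4
  have hYR : (1 : ℝ) ≤ Y := by exact_mod_cast hYone
  have hqv : q + 2 * Y + 2 ≤ v := by
    have h6 : ((q + 2 * Y + 2 : ℕ) : ℝ) ≤ (v : ℕ) := by
      push_cast
      rw [hvR]
      linarith
    exact_mod_cast h6
  obtain ⟨nn, hnn⟩ : ∃ nn : ℕ, nn = v - q - 2 * Y := ⟨_, rfl⟩
  have hnn' : q + nn + 2 * Y = v := by omega
  have hnnR : (q : ℝ) + nn + 2 * Y = v := by exact_mod_cast hnn'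
  obtain ⟨s, hs⟩ : ∃ s : ℕ, s = ⌊s₁ * J⌋₊ := ⟨_, rfl⟩
  have hs1 : s₁ * J ≤ s + 1 := by rw [hs]; exact (Nat.lt_floor_add_one _).le
  rw [← hs] at hshf hspa
  obtain ⟨p, hp⟩ : ∃ p : ℕ, p = ⌊(bet P c i a w + h) * J⌋₊ := ⟨_, rfl⟩
  have hβ : 0 ≤ bet P c i a w := (hwR.trans hwaR).trans (hP.low _ _ _ hwR hwaR (by
    exact_mod_cast ha))
  have hpR : (p : ℝ) ≤ (bet P c i a w + h) * J := by
    rw [hp]
    exact Nat.floor_le (mul_nonneg (by linarith) hJ0)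
  have hfE : (⌊(Eb + 2 * ηm) * J⌋₊ : ℝ) ≤ (Eb + 2 * ηm) * J :=
    Nat.floor_le (mul_nonneg (by linarith [W.Eb0]) hJ0)
  rw [how] at hgpn hshf hspa
  have hL := win_lin (D₁ := D₁) W (B' := B') (Gp := Gp) (lam := lam) (i := i) (k₀ := k₀)
    (jq := jq) (q := q) (nn := nn) (s := s) (Y := Y)
    (ε₂ := 2 ^ ⌊ζ * J⌋₊ * 2 ^ ⌊o n * J⌋₊ / 2 ^ g₀ n i) hi hk₀ hjq (by rw [hzq, hq]) hCY hYone (by
      rw [how]
      omega) hB' hvel (fun ω hω V hV => by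
      rw [how]
      exact (hgpn ω hω V hV).trans (mul_le_mul_of_nonneg_right (div_le_div_of_nonneg_right hYp
        (by positivity)) (nrm_nonneg _ _ _ _ _ _ _)))
    (fun ω ν hω hν hpt V hV => by
      rw [how]
      exact (hshf ω ν hω hν hpt V hV).trans (mul_le_mul_of_nonneg_right
        (div_le_div_of_nonneg_right hYp (by positivity)) (nrm_nonneg _ _ _ _ _ _ _))) hd
    (fun ω hω V hV => by
      rw [how]
      exact (hspa ω hω V hV).trans (mul_le_mul_of_nonneg_right (div_le_div_of_nonneg_right hYp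
        (by positivity)) (nrm_nonneg _ _ _ _ _ _ _)))
  have hth := (W.evs k₀ hk₀).thin
  rw [how] at hL hth
  have haw : ⌊(w : ℝ) * J⌋₊ + (⌊(a : ℝ) * J⌋₊ - ⌊(w : ℝ) * J⌋₊) = ⌊(a : ℝ) * J⌋₊ := by omega
  rw [haw] at hth
  obtain ⟨-, -, hgi1, -, -, -⟩ := W.g_num hk₀ hi
  obtain ⟨-, -, hgn1, -, -, -⟩ := W.g_num hn hi
  obtain ⟨hbi, -⟩ := W.g_num hk₀ hi
  refine hA ⌊(a : ℝ) * J⌋₊ ⌊(w : ℝ) * J⌋₊ (⌊(w : ℝ) * J⌋₊ + q) nn (5 * Y)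
    ⌊(Eb + 2 * ηm) * J⌋₊ (5 * Y) p (fun _ => D) (fun l => ⌊b k₀ l * J⌋₊ + q) (gT k₀)
    (2 ^ (3 * Y) / 2 ^ (g₀ k₀ i + s + q)) (2 ^ ⌊ζ * J⌋₊ * 2 ^ ⌊o n * J⌋₊ / 2 ^ g₀ n i) B'
    (fun y l => Gno (c l) J J (fun y => G k₀ y l) y) (H k₀) (T k₀) (TH k₀) Gp lam hfl le_rfl
    le_rfl (Nat.le_add_right _ _) (by omega) (by push_cast; linarith) ?_ (fun _ => hDC) ?_ ?_
    (by rw [hp, add_comm]) ?_ ?_ (by positivity) (by positivity) ?_ (fun ω hω => hBA ω (hB' ω hω))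
    ?_ hL
  · -- the exponent
    refine Nat.le_floor ?_
    push_cast
    have := hmul hEe
    linarith
  · -- the thin sides
    intro l hl
    obtain ⟨t1, t2⟩ := W.t_num hk₀ (show l < r by omega)
    by_cases hR : R l
    · have h6 := (t1 hR).2
      have h7 := hmul (h5 l hl.le)
      rw [how] at h6
      have h8 : 0 ≤ Eb * (J : ℝ) := mul_nonneg W.Eb0 hJ0
      have h9 : 0 ≤ ((a : ℝ) - w) * (J : ℝ) := mul_nonneg (by linarith) hJ0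
      have h10 : (gT k₀ l : ℝ) ≤ (J : ℕ) := by linarith
      exact_mod_cast h10
    · have h6 := (t2 hR).2
      have h7 := hmul (hbe l hl hR)
      have h10 : (gT k₀ l : ℝ) ≤ (J : ℕ) := by linarith
      exact_mod_cast h10
  · -- the precision
    have h6 : (p : ℝ) ≤ (J : ℕ) := by
      have := hmul hbet
      linarith
    exact_mod_cast h6
  · -- room
    intro l hl
    obtain ⟨-, t1, -⟩ := W.g_num hk₀ (show l ≤ r by omega)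
    have h7 := hmul (h5 l (by omega))
    have h8 : ((⌊(Eb + 2 * ηm) * J⌋₊ + (⌊b k₀ l * J⌋₊ + q) + 2 * nn + C' : ℕ) : ℝ) ≤ (J : ℕ) := by
      push_cast
      linarith
    exact_mod_cast h8
  · -- the Lipschitz exponents
    refine nlp_le fun j hj => ?_
    obtain ⟨-, t1, -⟩ := W.g_num hk₀ (show j ≤ r by omega)
    obtain ⟨t2, t3⟩ := W.t_num hk₀ (show j < r by omega)
    rcases hnl j hj with h6 | h6 | h6
    · left
      have h7 := hmul h6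
      have h8 : ((⌊b k₀ j * J⌋₊ + q : ℕ) : ℝ) ≤ ((⌊b k₀ i * J⌋₊ + q + 5 * Y : ℕ) : ℝ) := by
        push_cast
        linarith
      exact_mod_cast h8
    · right
      have h7 := hmul h6.2
      obtain ⟨t4, -⟩ := t2 h6.1
      rw [how] at t4
      have h8 : ((⌊b k₀ j * J⌋₊ + q + p : ℕ) : ℝ) ≤
          ((⌊b k₀ i * J⌋₊ + q + gT k₀ j + 5 * Y : ℕ) : ℝ) := by
        push_cast
        linarith
      exact_mod_cast h8
    · right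
      have h7 := hmul h6.2
      obtain ⟨t4, -⟩ := t3 h6.1
      have h8 : ((⌊b k₀ j * J⌋₊ + q + p : ℕ) : ℝ) ≤
          ((⌊b k₀ i * J⌋₊ + q + gT k₀ j + 5 * Y : ℕ) : ℝ) := by
        push_cast
        linarith
      exact_mod_cast h8
  · -- the errors
    obtain ⟨x, hx⟩ : ∃ x : ℕ, x = p + (C' + 2 * (5 * Y + 5 * Y)) + 2 := ⟨_, rfl⟩
    have k1 : x + 3 * Y ≤ g₀ k₀ i + s + q + nn := by
      have h8 : ((x + 3 * Y : ℕ) : ℝ) ≤ ((g₀ k₀ i + s + q + nn : ℕ) : ℝ) := by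
        rw [hx]
        push_cast
        linarith
      exact_mod_cast h8
    have k2 : x + Y + ⌊o n * J⌋₊ ≤ g₀ n i + (⌊(w : ℝ) * J⌋₊ + q + nn) := by
      have h7 : (⌊o n * J⌋₊ : ℝ) ≤ o n * J := Nat.floor_le (mul_nonneg (W.ho n hn).1 hJ0)
      have h8 : ((x + Y + ⌊o n * J⌋₊ : ℕ) : ℝ) ≤
          ((g₀ n i + (⌊(w : ℝ) * J⌋₊ + q + nn) : ℕ) : ℝ) := by
        rw [hx]
        push_cast
        linarith
      exact_mod_cast h8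
    have k3 : x ≤ ⌊b k₀ i * J⌋₊ + q + 2 * nn := by
      have h8 : ((x : ℕ) : ℝ) ≤ ((⌊b k₀ i * J⌋₊ + q + 2 * nn : ℕ) : ℝ) := by
        rw [hx]
        push_cast
        linarith
      exact_mod_cast h8
    have e1 : (2 : ℝ) ^ (3 * Y) / 2 ^ (g₀ k₀ i + s + q) / 2 ^ nn ≤ 1 / 2 ^ x := by
      rw [div_div, ← pow_add, div_le_div_iff₀ (by positivity) (by positivity), one_mul, ← pow_add]
      exact pow_le_pow_right₀ (by norm_num) (by omega)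
    have e2 : (2 : ℝ) ^ ⌊ζ * J⌋₊ * 2 ^ ⌊o n * J⌋₊ / 2 ^ g₀ n i /
        2 ^ (⌊(w : ℝ) * J⌋₊ + q + nn) ≤ 1 / 2 ^ x := by
      rw [div_div, ← pow_add, ← pow_add, div_le_div_iff₀ (by positivity) (by positivity), one_mul,
        ← pow_add]
      exact pow_le_pow_right₀ (by norm_num) (by omega)
    have e3 : (1 : ℝ) / 2 ^ (⌊b k₀ i * J⌋₊ + q + 2 * nn) ≤ 1 / 2 ^ x := inv_mono k3
    have e4 : (2 : ℝ) ^ (C' + 2 * (5 * Y + 5 * Y)) * (1 / 2 ^ x + 1 / 2 ^ x + 1 / 2 ^ x) ≤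
        1 / 2 ^ p := by
      obtain ⟨K, hK⟩ : ∃ K, K = C' + 2 * (5 * Y + 5 * Y) := ⟨_, rfl⟩
      rw [hx, ← hK]
      have e5 : (2 : ℝ) ^ (p + K + 2) = 2 ^ p * 2 ^ K * 4 := by
        rw [pow_add, pow_add]
        norm_num
      have e6 : (2 : ℝ) ^ K * (1 / 2 ^ (p + K + 2) + 1 / 2 ^ (p + K + 2) +
          1 / 2 ^ (p + K + 2)) = 3 / 4 * (1 / 2 ^ p) := by
        rw [e5]
        field_simp
        norm_num
      rw [e6]
      have e7 : 0 < (1 : ℝ) / 2 ^ p := by positivity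
      linarith
    refine le_trans (mul_le_mul_of_nonneg_left (add_le_add (add_le_add e1 e2) e3)
      (by positivity)) e4
  · exact hth.mono (by omega) (fun _ => le_rfl) le_rfl (Nat.floor_le_floor
      (mul_le_mul_of_nonneg_right (by
        have := (W.hη k₀ hk₀).2
        have := (W.hσ k₀ hk₀).2
        linarith) hJ0)) |>.sub hB'

end Pool.D2R
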